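import Pool.Agent.MP_20b2fd_nt.H38.SpecN

/-! Diagonalisation of the quadratic forms of the mollifier. -/

set_option autoImplicit false

namespace Pool.Agent.MP_20b2fd_nt.H38

open Finset ArithmeticFunction

namespace M1A

theorem hyp (K : ℕ) (F : ℕ → ℕ → ℝ) (hF : ∀ m j, K < m * j → F m j = 0) :
    ∑ m ∈ Icc 1 K, ∑ j ∈ Icc 1 K, F m j =
      ∑ l ∈ Icc 1 K, ∑ x ∈ l.divisorsAntidiagonal, F x.1 x.2 := by
  have h1 : ∀ l ∈ Icc 1 K, ∑ x ∈ l.divisorsAntidiagonal, F x.1 x.2 =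
      ∑ x ∈ Icc 1 K ×ˢ Icc 1 K, if x.1 * x.2 = l then F x.1 x.2 else 0 := by
    intro l hl
    obtain ⟨a, b⟩ := mem_Icc.1 hl
    rw [Nat.divisorsAntidiagonal_eq_prod_filter_of_le (by omega) b, sum_filter]
    rfl
  rw [sum_congr rfl h1, sum_comm (s := Icc 1 K) (t := Icc 1 K ×ˢ Icc 1 K), ← sum_product']
  refine sum_congr rfl fun x hx => ?_
  rw [sum_ite_eq]
  split_ifs with h
  · rfl
  · obtain ⟨a, b⟩ := mem_product.1 hx
    refine hF _ _ ?_
    have := Nat.mul_pos (mem_Icc.1 a).1 (mem_Icc.1 b).1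
    rw [mem_Icc] at h
    omega

theorem shift (K k : ℕ) (hk : 1 ≤ k) (F : ℕ → ℝ) (hF : ∀ a, K < a → F a = 0) :
    ∑ a ∈ Icc 1 K, (if k ∣ a then F a else 0) = ∑ m ∈ Icc 1 K, F (k * m) := by
  have h1 : ∑ m ∈ Icc 1 K, F (k * m) = ∑ m ∈ (Icc 1 K).filter (fun m => k * m ≤ K), F (k * m) := by
    rw [sum_filter]
    refine sum_congr rfl fun m _ => ?_
    split_ifs with h
    · rfl
    · exact hF _ (not_le.1 h)
  rw [h1, ← sum_filter]
  symm
  refine sum_bij (fun m _ => k * m) ?_ ?_ ?_ ?_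
  · intro m hm
    obtain ⟨a, b⟩ := mem_filter.1 hm
    exact mem_filter.2 ⟨mem_Icc.2 ⟨Nat.mul_pos hk (mem_Icc.1 a).1, b⟩, dvd_mul_right _ _⟩
  · intro a _ b _ h
    exact Nat.eq_of_mul_eq_mul_left hk h
  · intro d hd
    obtain ⟨h2, j, rfl⟩ := mem_filter.1 hd
    obtain ⟨h3, h4⟩ := mem_Icc.1 h2
    exact ⟨j, mem_filter.2 ⟨mem_Icc.2 ⟨Nat.pos_of_mul_pos_left h3,
      (Nat.le_mul_of_pos_left j hk).trans h4⟩, h4⟩, rfl⟩
  · intro _ _
    rfl

theorem gcds {K a : ℕ} (b : ℕ) (ha : a ∈ Icc 1 K) (F : ℕ → ℝ) :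
    ∑ k ∈ (a.gcd b).divisors, F k = ∑ k ∈ Icc 1 K, if k ∣ a ∧ k ∣ b then F k else 0 := by
  obtain ⟨hd1, hdQ⟩ := mem_Icc.1 ha
  rw [← sum_filter]
  refine sum_congr ?_ fun _ _ => rfl
  ext l
  rw [Nat.mem_divisors, mem_filter, mem_Icc, Nat.dvd_gcd_iff]
  constructor
  · rintro ⟨h, -⟩
    exact ⟨⟨Nat.pos_of_dvd_of_pos h.1 hd1, (Nat.le_of_dvd hd1 h.1).trans hdQ⟩, h⟩
  · rintro ⟨-, h⟩
    exact ⟨h, (Nat.gcd_pos_of_pos_left b hd1).ne'⟩

theorem sum_mu (m : ℕ) : ∑ i ∈ m.divisors, (moebius i : ℝ) = if m = 1 then 1 else 0 := by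
  have h := congrArg (fun f : ArithmeticFunction ℝ => f m) coe_moebius_mul_coe_zeta
  simpa only [coe_mul_zeta_apply, one_apply, intCoe_apply] using h

theorem tau_div {a e : ℕ} (ha : 1 ≤ a) (h : e ∣ a) :
    tau (a / e) = ∑ u ∈ a.divisors, if e ∣ u then (1 : ℝ) else 0 := by
  obtain ⟨m, rfl⟩ := h
  have he : 0 < e := Nat.pos_of_mul_pos_right ha
  have hm : 0 < m := Nat.pos_of_mul_pos_left ha
  rw [Nat.mul_div_cancel_left _ he, ← sum_filter, tau, card_eq_sum_ones, Nat.cast_sum]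
  refine sum_bij (fun j _ => e * j) ?_ ?_ ?_ ?_
  · intro j hj
    exact mem_filter.2 ⟨Nat.mem_divisors.2 ⟨Nat.mul_dvd_mul_left _ (Nat.dvd_of_mem_divisors hj),
      by omega⟩, dvd_mul_right _ _⟩
  · intro a _ b _ h
    exact Nat.eq_of_mul_eq_mul_left he h
  · intro d hd
    obtain ⟨h2, j, rfl⟩ := mem_filter.1 hd
    exact ⟨j, Nat.mem_divisors.2 ⟨Nat.dvd_of_mul_dvd_mul_left he (Nat.dvd_of_mem_divisors h2),
      hm.ne'⟩, rfl⟩
  · intro _ _
    exact Nat.cast_one

theorem tau_cop {a b : ℕ} (ha : 1 ≤ a) (hb : 1 ≤ b) :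
    tau (a * b) = ∑ u ∈ a.divisors, ∑ v ∈ b.divisors, if u.gcd v = 1 then (1 : ℝ) else 0 := by
  rw [← sum_product', ← sum_filter, tau, card_eq_sum_ones, Nat.cast_sum]
  symm
  refine sum_bij (fun x _ => x.1 * (b / x.2)) ?_ ?_ ?_ ?_
  · intro x hx
    obtain ⟨h1, h2⟩ := mem_product.1 (mem_filter.1 hx).1
    exact Nat.mem_divisors.2 ⟨Nat.mul_dvd_mul (Nat.dvd_of_mem_divisors h1)
      (Nat.div_dvd_of_dvd (Nat.dvd_of_mem_divisors h2)), (Nat.mul_pos ha hb).ne'⟩
  · rintro ⟨u, v⟩ hx ⟨u', v'⟩ hy h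
    obtain ⟨h1, c1⟩ := mem_filter.1 hx
    obtain ⟨h2, c2⟩ := mem_filter.1 hy
    obtain ⟨s, hs⟩ := Nat.dvd_of_mem_divisors (mem_product.1 h1).2
    obtain ⟨t, ht⟩ := Nat.dvd_of_mem_divisors (mem_product.1 h2).2
    have p1 : 0 < v := Nat.pos_of_mem_divisors (mem_product.1 h1).2
    have p2 : 0 < v' := Nat.pos_of_mem_divisors (mem_product.1 h2).2
    have p3 : 0 < u := Nat.pos_of_mem_divisors (mem_product.1 h1).1
    simp only at hs ht h c1 c2
    have e1 : b / v = s := by rw [hs, Nat.mul_div_cancel_left _ p1]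
    have e2 : b / v' = t := by rw [ht, Nat.mul_div_cancel_left _ p2]
    rw [e1, e2] at h
    have e3 : u * v' = u' * v := by
      refine Nat.eq_of_mul_eq_mul_left hb ?_
      calc b * (u * v') = v * s * (u * v') := by rw [← hs]
        _ = v * v' * (u * s) := by ring
        _ = v' * t * (u' * v) := by rw [h]; ring
        _ = _ := by rw [← ht]
    have e4 : u = u' := Nat.dvd_antisymm
      (Nat.Coprime.dvd_of_dvd_mul_right c1 ⟨v', e3.symm⟩)
      (Nat.Coprime.dvd_of_dvd_mul_right c2 ⟨v, e3⟩)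
    subst e4
    rw [Nat.eq_of_mul_eq_mul_left p3 e3]
  · intro n hn
    have hd := Nat.dvd_of_mem_divisors hn
    have hg : 0 < n.gcd b := Nat.gcd_pos_of_pos_right n hb
    have c1 := Nat.coprime_div_gcd_div_gcd hg
    have e1 : n / n.gcd b * n.gcd b = n := Nat.div_mul_cancel (Nat.gcd_dvd_left n b)
    have e2 : b / n.gcd b * n.gcd b = b := Nat.div_mul_cancel (Nat.gcd_dvd_right n b)
    refine ⟨(n / n.gcd b, b / n.gcd b), mem_filter.2 ⟨mem_product.2 ⟨Nat.mem_divisors.2 ⟨?_,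
      by omega⟩, Nat.mem_divisors.2 ⟨Nat.div_dvd_of_dvd (Nat.gcd_dvd_right n b), by omega⟩⟩, c1⟩,
      ?_⟩
    · refine c1.dvd_of_dvd_mul_right (Nat.dvd_of_mul_dvd_mul_right hg ?_)
      rw [e1, mul_assoc, e2]
      exact hd
    · show n / n.gcd b * (b / (b / n.gcd b)) = n
      rw [Nat.div_div_self (Nat.gcd_dvd_right n b) (by omega), e1]
  · intro _ _
    exact Nat.cast_one.symm

theorem tau_mul {K a b : ℕ} (ha : a ∈ Icc 1 K) (hb : 1 ≤ b) :
    tau (a * b) = ∑ e ∈ Icc 1 K,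
      if e ∣ a ∧ e ∣ b then (moebius e : ℝ) * tau (a / e) * tau (b / e) else 0 := by
  obtain ⟨ha1, haK⟩ := mem_Icc.1 ha
  have h1 : ∀ e ∈ Icc 1 K, (if e ∣ a ∧ e ∣ b then (moebius e : ℝ) * tau (a / e) * tau (b / e)
      else 0) = ∑ u ∈ a.divisors, ∑ v ∈ b.divisors,
        if e ∣ u ∧ e ∣ v then (moebius e : ℝ) else 0 := by
    intro e _
    split_ifs with h
    · rw [tau_div ha1 h.1, tau_div hb h.2, mul_assoc, sum_mul_sum, mul_sum]
      refine sum_congr rfl fun u _ => ?_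
      rw [mul_sum]
      refine sum_congr rfl fun v _ => ?_
      by_cases c : e ∣ u <;> by_cases d : e ∣ v <;> simp [c, d]
    · symm
      refine sum_eq_zero fun u hu => sum_eq_zero fun v hv => if_neg fun c => h ?_
      exact ⟨c.1.trans (Nat.dvd_of_mem_divisors hu), c.2.trans (Nat.dvd_of_mem_divisors hv)⟩
  rw [sum_congr rfl h1, tau_cop ha1 hb, sum_comm (s := Icc 1 K)]
  refine sum_congr rfl fun u hu => ?_
  rw [sum_comm (s := Icc 1 K)]
  refine sum_congr rfl fun v _ => ?_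
  rw [← sum_mu, gcds v (mem_Icc.2 ⟨Nat.pos_of_mem_divisors hu,
    (Nat.le_of_dvd ha1 (Nat.dvd_of_mem_divisors hu)).trans haK⟩)]

theorem bh {K a b : ℕ} (α β : ℝ) (ha : a ∈ Icc 1 K) (hb : 1 ≤ b) :
    Bh (fun m => tau m * (α + β * Real.log m)) a b = ∑ d ∈ Icc 1 K, ∑ e ∈ Icc 1 K,
      if d * e ∣ a ∧ d * e ∣ b then d * (moebius e : ℝ) * tau (a / (d * e)) * tau (b / (d * e)) *
        (α + β * (Real.log (a / (d * e) : ℕ) + Real.log (b / (d * e) : ℕ) + 2 * Real.log e))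
      else 0 := by
  obtain ⟨ha1, haK⟩ := mem_Icc.1 ha
  rw [Bh, gcds b ha]
  refine sum_congr rfl fun d hd => ?_
  have hd1 : 0 < d := (mem_Icc.1 hd).1
  split_ifs with h
  · obtain ⟨⟨s, rfl⟩, t, rfl⟩ := h
    have hs : 0 < s := Nat.pos_of_mul_pos_left ha1
    have ht : 0 < t := Nat.pos_of_mul_pos_left hb
    have e1 : d * s * (d * t) / d ^ 2 = s * t := by
      rw [show d * s * (d * t) = d ^ 2 * (s * t) by ring, Nat.mul_div_cancel_left _ (by positivity)]
    rw [e1, tau_mul (K := K) (mem_Icc.2 ⟨hs, (Nat.le_mul_of_pos_left s hd1).trans haK⟩) ht,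
      sum_mul, mul_sum]
    refine sum_congr rfl fun e he => ?_
    have he1 : 0 < e := (mem_Icc.1 he).1
    simp only [Nat.mul_dvd_mul_iff_left hd1, Nat.mul_div_mul_left _ _ hd1]
    split_ifs with h
    · obtain ⟨⟨u, rfl⟩, v, rfl⟩ := h
      have hu : (u : ℝ) ≠ 0 := by exact_mod_cast (Nat.pos_of_mul_pos_left hs).ne'
      have hv : (v : ℝ) ≠ 0 := by exact_mod_cast (Nat.pos_of_mul_pos_left ht).ne'
      have he2 : (e : ℝ) ≠ 0 := by exact_mod_cast he1.ne'
      rw [Nat.mul_div_cancel_left _ he1, Nat.mul_div_cancel_left _ he1]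
      push_cast
      rw [Real.log_mul (mul_ne_zero he2 hu) (mul_ne_zero he2 hv), Real.log_mul he2 hu,
        Real.log_mul he2 hv]
      ring
    · simp
  · symm
    refine sum_eq_zero fun e _ => if_neg fun c => h ?_
    exact ⟨(dvd_mul_right d e).trans c.1, (dvd_mul_right d e).trans c.2⟩

/-- the transform that diagonalises the form -/
noncomputable def U (K : ℕ) (x g : ℕ → ℝ) (k : ℕ) : ℝ :=
  ∑ a ∈ Icc 1 K, if k ∣ a then x a * tau (a / k) * g (a / k) else 0

theorem U_zero {K k : ℕ} (x g : ℕ → ℝ) (h : K < k) : U K x g k = 0 :=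
  sum_eq_zero fun _ ha => if_neg fun c =>
    absurd ((Nat.le_of_dvd (mem_Icc.1 ha).1 c).trans (mem_Icc.1 ha).2) (not_le.2 h)

theorem form (K : ℕ) (x : ℕ → ℝ) (α β : ℝ) :
    Bl (Icc 1 K) id x (fun m => tau m * (α + β * Real.log m)) =
      ∑ k ∈ Icc 1 K, ((∑ y ∈ k.divisorsAntidiagonal, y.1 * (moebius y.2 : ℝ)) *
        (α * U K x (fun _ => 1) k ^ 2 +
          2 * β * (U K x (fun _ => 1) k * U K x (fun m => Real.log m) k)) +
        2 * β * (∑ y ∈ k.divisorsAntidiagonal, y.1 * ((moebius y.2 : ℝ) * Real.log y.2)) *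
          U K x (fun _ => 1) k ^ 2) := by
  have h1 : Bl (Icc 1 K) id x (fun m => tau m * (α + β * Real.log m)) =
      ∑ d ∈ Icc 1 K, ∑ e ∈ Icc 1 K, d * (moebius e : ℝ) *
        ((α + 2 * β * Real.log e) * (U K x (fun _ => 1) (d * e) * U K x (fun _ => 1) (d * e)) +
          β * (U K x (fun m => Real.log m) (d * e) * U K x (fun _ => 1) (d * e)) +
          β * (U K x (fun _ => 1) (d * e) * U K x (fun m => Real.log m) (d * e))) := by
    have h2 : ∀ a ∈ Icc 1 K, ∀ b ∈ Icc 1 K,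
        x a * x b * Bh (fun m => tau m * (α + β * Real.log m)) (id a) (id b) =
        ∑ y ∈ Icc 1 K ×ˢ Icc 1 K, x a * x b * if y.1 * y.2 ∣ a ∧ y.1 * y.2 ∣ b then
          y.1 * (moebius y.2 : ℝ) * tau (a / (y.1 * y.2)) * tau (b / (y.1 * y.2)) *
          (α + β * (Real.log (a / (y.1 * y.2) : ℕ) + Real.log (b / (y.1 * y.2) : ℕ) +
            2 * Real.log y.2)) else 0 := by
      intro a ha b hb
      rw [← mul_sum, sum_product]
      exact congrArg _ (bh α β ha (mem_Icc.1 hb).1)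
    rw [Bl, sum_congr rfl fun a ha => sum_congr rfl fun b hb => h2 a ha b hb,
      sum_congr rfl fun a _ => sum_comm, sum_comm]
    refine Eq.trans (sum_congr rfl fun y _ => ?_) (sum_product' _ _ _)
    simp only [U, sum_mul_sum]
    simp only [mul_sum, ← sum_add_distrib]
    refine sum_congr rfl fun a _ => sum_congr rfl fun b _ => ?_
    by_cases c : y.1 * y.2 ∣ a <;> by_cases d : y.1 * y.2 ∣ b <;> simp only [c, d] <;>
      simp <;> ring
  rw [h1, hyp K _ fun d e h => by simp [U_zero _ _ h]]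
  refine sum_congr rfl fun k _ => ?_
  rw [sum_mul, mul_sum, sum_mul, ← sum_add_distrib]
  refine sum_congr rfl fun y hy => ?_
  rw [(Nat.mem_divisorsAntidiagonal.1 hy).1]
  ring

/-- the identity -/
noncomputable def I : ArithmeticFunction ℝ := ⟨fun n => n, Nat.cast_zero⟩

/-- the totient -/
noncomputable def P : ArithmeticFunction ℝ := ⟨fun n => n.totient, by simp⟩

theorem I_mu : I * (moebius : ArithmeticFunction ℝ) = P := by
  have h : P * (zeta : ArithmeticFunction ℝ) = I := by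
    ext n
    rw [coe_mul_zeta_apply]
    show ∑ i ∈ n.divisors, (i.totient : ℝ) = n
    rw [← Nat.cast_sum, Nat.sum_totient]
  rw [← h, mul_assoc, coe_zeta_mul_coe_moebius, mul_one]

theorem phi (k : ℕ) :
    ∑ y ∈ k.divisorsAntidiagonal, y.1 * (moebius y.2 : ℝ) = k.totient :=
  congrArg (fun f : ArithmeticFunction ℝ => f k) I_mu

theorem lam_sf {l : ℕ} (h : Squarefree l) :
    vonMangoldt l = if l.Prime then Real.log l else 0 := by
  split_ifs with c
  · exact vonMangoldt_apply_prime c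
  · exact vonMangoldt_eq_zero_iff.2 fun d => c (Nat.squarefree_and_prime_pow_iff_prime.1 ⟨h, d⟩)

theorem psi_eq {k : ℕ} (hk : Squarefree k) :
    ∑ y ∈ k.divisorsAntidiagonal, y.1 * ((moebius y.2 : ℝ) * Real.log y.2) =
      -(k.totient * ∑ p ∈ k.primeFactors, Real.log p / ((p : ℝ) - 1)) := by
  have h1 : (moebius : ArithmeticFunction ℝ).pmul log * (zeta : ArithmeticFunction ℝ) =
      -vonMangoldt := by
    ext n
    rw [coe_mul_zeta_apply]
    exact sum_moebius_mul_log_eq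
  have h2 : I * (moebius : ArithmeticFunction ℝ).pmul log = -(vonMangoldt * P) := by
    rw [← I_mu, ← mul_one (pmul _ _), ← coe_zeta_mul_coe_moebius, ← mul_assoc (pmul _ _), h1]
    ring
  have h3 : ∑ y ∈ k.divisorsAntidiagonal, y.1 * ((moebius y.2 : ℝ) * Real.log y.2) =
      -∑ y ∈ k.divisorsAntidiagonal, vonMangoldt y.1 * (y.2.totient : ℝ) :=
    congrArg (fun f : ArithmeticFunction ℝ => f k) h2
  rw [h3, Nat.sum_divisorsAntidiagonal (fun a b => vonMangoldt a * (b.totient : ℝ)), mul_sum,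
    Nat.primeFactors_eq_to_filter_divisors_prime, sum_filter]
  congr 1
  refine sum_congr rfl fun p hp => ?_
  obtain ⟨m, rfl⟩ := Nat.dvd_of_mem_divisors hp
  rw [lam_sf hk.of_mul_left]
  split_ifs with c
  · have e : (2 : ℝ) ≤ p := by exact_mod_cast c.two_le
    have e1 : (p : ℝ) - 1 ≠ 0 := by linarith
    rw [Nat.mul_div_cancel_left _ c.pos, Nat.totient_mul (Nat.coprime_of_squarefree_mul hk),
      Nat.totient_prime c, Nat.cast_mul, Nat.cast_sub c.pos, Nat.cast_one]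
    field_simp
  · exact zero_mul _

theorem mu_tau {l : ℕ} (hl : 1 ≤ l) :
    ∑ y ∈ l.divisorsAntidiagonal, (moebius y.1 : ℝ) * tau y.2 = 1 := by
  have h1 : (moebius : ArithmeticFunction ℝ) * (zeta * zeta) = zeta := by
    rw [← mul_assoc, coe_moebius_mul_coe_zeta, one_mul]
  have h2 := congrArg (fun f : ArithmeticFunction ℝ => f l) h1
  simp only [mul_apply (f := (moebius : ArithmeticFunction ℝ)), coe_mul_zeta_apply] at h2
  rw [natCoe_apply, zeta_apply_ne (by omega), Nat.cast_one] at h2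
  rw [← h2]
  refine sum_congr rfl fun y _ => ?_
  rw [tau, card_eq_sum_ones, Nat.cast_sum, intCoe_apply]
  congr 1
  refine sum_congr rfl fun d hd => ?_
  rw [natCoe_apply, zeta_apply_ne (Nat.pos_of_mem_divisors hd).ne']

variable {K : ℕ} {w : ℕ → ℝ}

theorem U_eq (hw : ∀ k, w k ≠ 0 → Squarefree k ∧ k ≤ K) (g : ℕ → ℝ) {k : ℕ} (hk : 1 ≤ k) :
    U K (xw K w) g k = (moebius k : ℝ) * ∑ l ∈ Icc 1 K, w (k * l) / (k * l) * tau l *
      ∑ m ∈ l.divisors, (moebius m : ℝ) * g m := by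
  have hz : ∀ n, K < n → w n = 0 := fun n h => by
    by_contra c
    exact absurd (hw n c).2 (not_le.2 h)
  rw [U, shift K k hk (fun a => xw K w a * tau (a / k) * g (a / k)) fun a h => ?_]
  · simp only [Nat.mul_div_cancel_left _ hk, xw, sum_mul]
    rw [hyp K _ fun m j h => ?_, mul_sum]
    · refine sum_congr rfl fun l _ => ?_
      rw [← Nat.sum_divisorsAntidiagonal (fun a _ => (moebius a : ℝ) * g a), mul_sum, mul_sum]
      refine sum_congr rfl fun y hy => ?_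
      rw [← (Nat.mem_divisorsAntidiagonal.1 hy).1, mul_assoc k]
      by_cases c : w (k * (y.1 * y.2)) = 0
      · simp [c]
      · have s := (hw _ c).1
        have c1 : k.Coprime y.1 := (Nat.coprime_of_squarefree_mul s).coprime_mul_right_right
        have c2 : y.1.Coprime y.2 := Nat.coprime_of_squarefree_mul s.of_mul_right
        rw [isMultiplicative_moebius.map_mul_of_coprime c1]
        simp only [tau, c2.card_divisors_mul]
        push_cast
        ring
    · rw [mul_assoc k, hz _ (h.trans_le (Nat.le_mul_of_pos_left _ hk))]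
      simp
  · have : xw K w a = 0 := sum_eq_zero fun j hj => by
      rw [hz _ (h.trans_le (Nat.le_mul_of_pos_right _ (mem_Icc.1 hj).1))]
      simp
    simp [this]

theorem U_one (hw : ∀ k, w k ≠ 0 → Squarefree k ∧ k ≤ K) {k : ℕ} (hk : k ∈ Icc 1 K) :
    U K (xw K w) (fun _ => 1) k = (moebius k : ℝ) * (w k / k) := by
  obtain ⟨h1, h2⟩ := mem_Icc.1 hk
  rw [U_eq hw _ h1]
  simp only [mul_one, sum_mu, mul_ite, mul_zero, sum_ite_eq']
  rw [if_pos (mem_Icc.2 ⟨le_rfl, h1.trans h2⟩)]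
  simp [tau]

theorem U_log (hw : ∀ k, w k ≠ 0 → Squarefree k ∧ k ≤ K) {k : ℕ} (hk : 1 ≤ k) :
    U K (xw K w) (fun m => Real.log m) k =
      -(2 * (moebius k : ℝ) / k * ∑ p ∈ pz K, Real.log p / p * w (k * p)) := by
  rw [U_eq hw _ hk, pz, prs, Nat.floor_natCast, sum_filter, mul_sum, mul_sum, ← sum_neg_distrib]
  refine sum_congr rfl fun l hl => ?_
  have e : ∑ m ∈ l.divisors, (moebius m : ℝ) * Real.log m = -vonMangoldt l :=
    sum_moebius_mul_log_eq
  rw [e]
  by_cases c : w (k * l) = 0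
  · simp [c]
  · rw [lam_sf (hw _ c).1.of_mul_right]
    by_cases p : l.Prime
    · have t : tau l = 2 := by
        rw [tau, p.divisors, card_pair p.one_lt.ne]
        exact Nat.cast_ofNat
      rw [if_pos p, if_pos ⟨p, by exact_mod_cast p.one_lt⟩, t]
      ring
    · rw [if_neg p, if_neg fun d => p d.1]
      simp

theorem diag (hw : ∀ k, w k ≠ 0 → Squarefree k ∧ k ≤ K) (α β : ℝ) :
    Bl (Icc 1 K) id (xw K w) (fun m => tau m * (α + β * Real.log m)) =
      ∑ k ∈ Icc 1 K, (α * (k.totient * w k ^ 2 / (k : ℝ) ^ 2) +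
        β * (-2 * (k.totient * w k ^ 2 / (k : ℝ) ^ 2 *
          ∑ p ∈ k.primeFactors, Real.log p / ((p : ℝ) - 1)) -
        4 * (k.totient * w k / (k : ℝ) ^ 2 * ∑ p ∈ pz K, Real.log p / p * w (k * p)))) := by
  rw [form]
  refine sum_congr rfl fun k hk => ?_
  rw [U_one hw hk, U_log hw (mem_Icc.1 hk).1, phi]
  by_cases c : w k = 0
  · simp [c]
  · have s := (hw k c).1
    have m : (moebius k : ℝ) ^ 2 = 1 := by exact_mod_cast moebius_sq_eq_one_of_squarefree s
    rw [psi_eq s]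
    generalize ∑ p ∈ k.primeFactors, Real.log p / ((p : ℝ) - 1) = A
    generalize ∑ p ∈ pz K, Real.log p / p * w (k * p) = B
    linear_combination (α * (k.totient * w k ^ 2 / (k : ℝ) ^ 2) +
      β * (-2 * (k.totient * w k ^ 2 / (k : ℝ) ^ 2 * A) -
        4 * (k.totient * w k / (k : ℝ) ^ 2 * B))) * m

end M1A

open M1A in
theorem m1 : M1S := by
  intro K w hw
  refine ⟨?_, ?_, ?_⟩
  · simp only [xw]
    rw [hyp K _ fun m j h => ?_]
    · refine sum_congr rfl fun l hl => ?_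
      rw [← one_mul (w l / l), ← mu_tau (mem_Icc.1 hl).1, sum_mul]
      refine sum_congr rfl fun y hy => ?_
      rw [← (Nat.mem_divisorsAntidiagonal.1 hy).1]
      push_cast
      ring
    · have : w (m * j) = 0 := by
        by_contra c
        exact absurd (hw _ c).2 (not_le.2 h)
      simp [this]
  · simpa only [zero_mul, add_zero, mul_one, one_mul] using diag hw 1 0
  · have h := diag hw 0 1
    simp only [zero_mul, zero_add, one_mul] at h
    rw [h, sum_sub_distrib, ← mul_sum, ← mul_sum]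

end Pool.Agent.MP_20b2fd_nt.H38
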