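import Pool.Agent.MP_20b2fd_nt.H38.SpecA

/-! Incomplete Kloosterman sums. -/

set_option autoImplicit false

namespace Pool.Agent.MP_20b2fd_nt.H38

open Complex Finset ZMod
open scoped Real

namespace IkA

variable {c : ℕ} [NeZero c]

theorem ec_eq (x : ZMod c) : ec c x = stdAddChar x := by
  rw [stdAddChar_apply, toCircle_apply, ec, ee, mul_div_assoc]

theorem norm_ch (x : ZMod c) : ‖stdAddChar x‖ = 1 := by
  rw [stdAddChar_apply, Circle.norm_coe]

theorem sum_zmod (f : ZMod c → ℂ) : ∑ x, f x = ∑ j ∈ range c, f j :=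
  sum_nbij' ZMod.val Nat.cast (fun x _ => mem_range.2 x.val_lt) (fun _ _ => mem_univ _)
    (fun x _ => natCast_zmod_val x) (fun _ h => val_cast_of_lt (mem_range.1 h))
    fun x _ => by rw [natCast_zmod_val]

open Classical in
theorem cpl (A : ℤ) (d : ZMod c) :
    ∑ j ∈ range c, Kl c A (-j) * stdAddChar (j * d : ZMod c) = c * if IsUnit d then ec c (A * d⁻¹) else 0 := by
  have h1 : ∀ j : ℕ, Kl c A (-j) * stdAddChar (j * d : ZMod c) = ∑ x : ZMod c,
      (if IsUnit x then ec c (A * x⁻¹) else 0) * stdAddChar (j * (d - x) : ZMod c) := fun j => by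
    rw [sum_zmod, Kl, sum_filter, sum_mul]
    refine sum_congr rfl fun x _ => ?_
    simp only [isUnit_iff_coprime, ec_eq, ite_mul, zero_mul, ← AddChar.map_add_eq_mul]
    refine if_congr Iff.rfl (congrArg _ ?_) rfl
    push_cast
    ring
  rw [sum_congr rfl fun j _ => h1 j, sum_comm, sum_eq_single d (fun x _ hx => ?_) (by simp)]
  · simp [mul_comm]
  · rw [← mul_sum, ← sum_zmod fun j => stdAddChar (j * (d - x)),
      AddChar.sum_mulShift _ (isPrimitive_stdAddChar c), if_neg (sub_ne_zero.2 hx.symm),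
      Nat.cast_zero, mul_zero]

theorem tele (k : ZMod c) {a b : ℤ} (h : a ≤ b) :
    (stdAddChar k - 1) * ∑ d ∈ Ioc a b, stdAddChar (k * d : ZMod c) =
      stdAddChar (k * (b + 1) : ZMod c) - stdAddChar (k * (a + 1) : ZMod c) := by
  induction b, h using Int.leInduction with
  | base => simp
  | succ b h ih =>
    rw [← insert_Ioc_right_eq_Ioc_add_one h, sum_insert (by simp), mul_add, ih, Int.cast_add,
      Int.cast_one, mul_add k (b + 1), mul_one, AddChar.map_add_eq_mul]
    ring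

omit [NeZero c] in
theorem sin_ge {t : ℝ} (h0 : 0 ≤ t) (h1 : t ≤ 1) : 2 * (t * (1 - t)) ≤ Real.sin (π * t) := by
  have k : ∀ t : ℝ, 0 ≤ t → t ≤ 1 / 2 → 2 * t ≤ Real.sin (π * t) := fun t a b => by
    have := Real.mul_le_sin (x := π * t) (by positivity) (by nlinarith [Real.pi_pos])
    rwa [← mul_assoc, div_mul_cancel₀ _ Real.pi_ne_zero] at this
  rcases le_total t (1 / 2) with h | h
  · nlinarith [k t h0 h]
  · have := k (1 - t) (by linarith) (by linarith)
    rw [mul_sub π, mul_one, Real.sin_pi_sub] at this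
    nlinarith [sq_nonneg (1 - t)]

theorem geo {a b : ℤ} (h : a ≤ b) {j : ℕ} (hj : j < c) :
    ‖∑ d ∈ Ioc a b, stdAddChar (j * d : ZMod c)‖ ≤
      (if j = 0 then (b : ℝ) - a else 0) + c / 2 * (1 / j + 1 / (c - j)) := by
  have c1 : (j : ℝ) < c := by exact_mod_cast hj
  have c2 := sub_pos.2 c1
  split_ifs with h0
  · refine le_add_of_le_of_nonneg ((norm_sum_le _ _).trans_eq ?_) (by positivity)
    simp only [norm_ch, sum_const, Int.card_Ioc, nsmul_eq_mul, mul_one]
    exact_mod_cast Int.toNat_sub_of_le h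
  · have j0 : (0 : ℝ) < j := by positivity
    have c0 := j0.trans c1
    have e1 := congrArg norm (tele (j : ZMod c) h)
    have e2 := e1.trans_le (norm_sub_le _ _)
    have e3 : stdAddChar (j : ZMod c) = exp (I * (2 * (π * (j / c)) : ℝ)) := by
      rw [← Int.cast_natCast, stdAddChar_coe]
      push_cast
      ring_nf
    have e4 := sin_ge (t := j / c) (by positivity) ((div_le_one c0).2 c1.le)
    have e5 : 0 < j / c * (1 - j / c : ℝ) :=
      mul_pos (by positivity) (sub_pos.2 ((div_lt_one c0).2 c1))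
    rw [norm_mul, norm_ch, norm_ch, e3, norm_exp_I_mul_ofReal_sub_one,
      mul_div_cancel_left₀ _ two_ne_zero, Real.norm_of_nonneg (by linarith)] at e2
    rw [zero_add, show c / 2 * (1 / j + 1 / (c - j)) = 1 / (2 * (j / c * (1 - j / c)) : ℝ) by
      field_simp; ring, le_div_iff₀ (by positivity)]
    nlinarith [norm_nonneg (∑ d ∈ Ioc a b, stdAddChar (j * d : ZMod c))]

theorem harm (c : ℕ) : ∑ j ∈ range c, (1 / j + 1 / (c - j) : ℝ) ≤ 2 * (1 + Real.log c) := by
  have h := harmonic_le_one_add_log c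
  simp only [harmonic, Rat.cast_sum, Rat.cast_inv, Rat.cast_natCast] at h
  have h1 : ∑ j ∈ range c, (1 / j : ℝ) ≤ ∑ j ∈ range (c + 1), (1 / j : ℝ) := by
    rw [sum_range_succ]
    exact le_add_of_nonneg_right (by positivity)
  have h2 : ∑ j ∈ range c, (1 / (c - j) : ℝ) = ∑ j ∈ range c, (((j + 1 : ℕ) : ℝ))⁻¹ := by
    rw [← sum_range_reflect]
    refine sum_congr rfl fun j hj => ?_
    have := mem_range.1 hj
    rw [one_div, ← Nat.cast_sub (by omega), show c - (c - 1 - j) = j + 1 by omega]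
  simp only [sum_range_succ', Nat.cast_zero, div_zero, add_zero] at h1
  simp only [one_div] at h1 h2 ⊢
  rw [sum_add_distrib]
  linarith

end IkA

open IkA in
theorem ikOf : IkOf := by
  intro hK hB
  refine ⟨1, le_rfl, fun c A a b hc h => ?_⟩
  have : NeZero c := ⟨by omega⟩
  have c0 : (0 : ℝ) < c := by positivity
  obtain ⟨B, hB⟩ : ∃ B, B = bb c * (A.gcd c : ℝ) ^ (1 / 4 : ℝ) := ⟨_, rfl⟩
  have h1 : ∀ k, ‖Kl c A k‖ ≤ B := fun k => hB ▸ hK c A k hc
  have B0 : 0 ≤ B := (norm_nonneg _).trans (h1 0)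
  refine le_of_mul_le_mul_left ?_ c0
  rw [← hB, ← norm_natCast (α := ℂ) c, ← norm_mul, norm_natCast, sum_filter, mul_sum,
    sum_congr rfl fun (d : ℤ) _ => (show (c : ℂ) * _ = _ from (congrArg _ (if_congr
      (isCoprime_comm.trans (coe_int_isUnit_iff_isCoprime d c).symm) rfl rfl)).trans
        (cpl A (d : ZMod c)).symm), sum_comm]
  refine (norm_sum_le_of_le (E := ℂ) _ (n := fun j : ℕ => B * ((if j = 0 then (b : ℝ) - a else 0) +
    c / 2 * (1 / j + 1 / (c - j)))) fun j hj => ?_).trans ?_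
  · rw [← mul_sum, norm_mul]
    exact mul_le_mul (h1 _) (geo h (mem_range.1 hj)) (norm_nonneg _) B0
  · rw [← mul_sum, sum_add_distrib, sum_ite_eq', if_pos (mem_range.2 (by omega)), ← mul_sum]
    refine (mul_le_mul_of_nonneg_left (add_le_add_right
      (mul_le_mul_of_nonneg_left (harm c) (by positivity)) _) B0).trans_eq ?_
    field_simp
    ring

end Pool.Agent.MP_20b2fd_nt.H38
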