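import Pool.Agent.MP_20b2fd_nt.H38.SpecC

/-! Families of derivatives: products and functions of a logarithm. -/

set_option autoImplicit false

namespace Pool.Agent.MP_20b2fd_nt.H38.Mel1A

open Filter Topology

/-- `a (i + 1)` is the derivative of `a i` at `t` -/
def At (a : ℕ → ℝ → ℝ) (t : ℝ) : Prop := ∀ i, HasDerivAt (a i) (a (i + 1) t) t

/-- derivatives of a product -/
def LL : ℕ → (ℕ → ℝ → ℝ) → (ℕ → ℝ → ℝ) → ℝ → ℝ
  | 0, a, b => fun t => a 0 t * b 0 t
  | j + 1, a, b => fun t => LL j (fun i => a (i + 1)) b t + LL j a (fun i => b (i + 1)) t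

theorem LL_deriv (j : ℕ) {a b : ℕ → ℝ → ℝ} {t : ℝ} (ha : At a t) (hb : At b t) :
    HasDerivAt (LL j a b) (LL (j + 1) a b t) t := by
  induction j generalizing a b with
  | zero => exact (ha 0).fun_mul (hb 0)
  | succ j ih => exact (ih (fun i => ha (i + 1)) hb).fun_add (ih ha fun i => hb (i + 1))

theorem LL_le (j : ℕ) {a b : ℕ → ℝ → ℝ} {t X : ℝ}
    (h : ∀ i i', i + i' = j → |a i t| * |b i' t| ≤ X) : |LL j a b t| ≤ 2 ^ j * X := by
  induction j generalizing a b with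
  | zero => simpa [LL, abs_mul] using h 0 0 rfl
  | succ j ih =>
    have h1 := ih (a := fun i => a (i + 1)) (b := b) fun i i' e => h (i + 1) i' (by omega)
    have h2 := ih (a := a) (b := fun i => b (i + 1)) fun i i' e => h i (i' + 1) (by omega)
    refine (abs_add_le _ _).trans ?_
    rw [pow_succ]
    linarith

theorem LL_zero (j : ℕ) {a b : ℕ → ℝ → ℝ} {t : ℝ} (h : ∀ i, b i t = 0) : LL j a b t = 0 := by
  simpa using LL_le j (a := a) (b := b) (t := t) (X := 0) fun i i' _ => by simp [h]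

/-- the operator `D (D - 1) ⋯ (D - j + 1)` -/
def PP : ℕ → (ℕ → ℝ → ℝ) → ℝ → ℝ
  | 0, g => g 0
  | j + 1, g => fun y => PP j (fun i => g (i + 1)) y - j * PP j g y

theorem PP_deriv (j : ℕ) {g : ℕ → ℝ → ℝ} {y : ℝ} (h : At g y) :
    HasDerivAt (PP j g) (PP j (fun i => g (i + 1)) y) y := by
  induction j generalizing g with
  | zero => exact h 0
  | succ j ih => exact (ih fun i => h (i + 1)).fun_sub ((ih h).const_mul _)

theorem PP_zero (j : ℕ) {g : ℕ → ℝ → ℝ} {y : ℝ} (h : ∀ i, g i y = 0) : PP j g y = 0 := by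
  induction j generalizing g with
  | zero => exact h 0
  | succ j ih => simp only [PP, ih h, ih fun i => h (i + 1), mul_zero, sub_zero]

theorem PP_le (j : ℕ) {g : ℕ → ℝ → ℝ} {y w A : ℝ} (hw : 0 ≤ w)
    (h : ∀ i ≤ j, |g (i + 1) y| * w ≤ A) : |PP (j + 1) g y| * w ≤ (j + 1).factorial * A := by
  induction j generalizing g with
  | zero => simpa [PP] using h 0 le_rfl
  | succ j ih =>
    have h1 := ih (g := fun i => g (i + 1)) fun i hi => h (i + 1) (by omega)
    have h2 := mul_le_mul_of_nonneg_left (ih fun i hi => h i (by omega))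
      (Nat.cast_nonneg (α := ℝ) (j + 1))
    have h3 := mul_le_mul_of_nonneg_right
      (abs_sub (PP (j + 1) (fun i => g (i + 1)) y) (((j + 1 : ℕ) : ℝ) * PP (j + 1) g y)) hw
    rw [abs_mul, Nat.abs_cast] at h3
    rw [Nat.factorial_succ (j + 1), Nat.cast_mul, Nat.cast_succ (j + 1)]
    exact h3.trans (by linarith)

theorem PP_le' {j : ℕ} (hj : j ≤ 4) {g : ℕ → ℝ → ℝ} {y w A : ℝ} (hw : 0 ≤ w) (hA : 0 ≤ A)
    (h : ∀ i ≤ 4, j = 0 ∨ 1 ≤ i → |g i y| * w ≤ A) : |PP j g y| * w ≤ 24 * A := by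
  cases j with
  | zero => exact (h 0 hj (Or.inl rfl)).trans (by linarith)
  | succ j =>
    refine (PP_le j hw fun i hi => h _ (by omega) (Or.inr (by omega))).trans
      (mul_le_mul_of_nonneg_right ?_ hA)
    exact_mod_cast Nat.factorial_le hj

open Classical in
/-- derivatives of a function of `log |1 + t|` -/
noncomputable def cc (g : ℕ → ℝ → ℝ) (j : ℕ) (t : ℝ) : ℝ :=
  if t = -1 then 0 else PP j g (Real.log |1 + t|) / (1 + t) ^ j

theorem one_add_ne {t : ℝ} (h : t ≠ -1) : 1 + t ≠ 0 := fun e => h (by linarith)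

theorem cc_deriv {g : ℕ → ℝ → ℝ} (hg : ∀ y, At g y) {t : ℝ} (ht : t ≠ -1) : At (cc g) t := by
  intro j
  have h0 := one_add_ne ht
  have h1 : HasDerivAt (fun x : ℝ => 1 + x) 1 t := (hasDerivAt_id t).const_add 1
  have h2 := ((PP_deriv j (hg _)).comp t (h1.log h0)).fun_div (h1.fun_pow j) (pow_ne_zero _ h0)
  refine (h2.congr_deriv ?_).congr_of_eventuallyEq ((eventually_ne_nhds ht).mono fun x hx => ?_)
  · simp only [cc, if_neg ht, Real.log_abs, PP, Function.comp]
    cases j with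
    | zero => simp [div_eq_mul_inv]
    | succ j =>
      rw [Nat.add_sub_cancel]
      field_simp
      ring
  · simp only [cc, if_neg hx, Real.log_abs, Function.comp]

theorem cc_le {g : ℕ → ℝ → ℝ} {j : ℕ} (hj : j ≤ 4) {t w A m : ℝ} (ht : t ≠ -1) (hw : 0 ≤ w)
    (hA : 0 ≤ A) (h0 : 0 < m) (hm : m ≤ |1 + t|)
    (h : ∀ i ≤ 4, j = 0 ∨ 1 ≤ i → |g i (Real.log |1 + t|)| * w ≤ A) :
    |cc g j t| * w ≤ 24 * A / m ^ j := by
  rw [cc, if_neg ht, abs_div, abs_pow, div_mul_eq_mul_div]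
  exact div_le_div₀ (by positivity) (PP_le' hj hw hA h) (pow_pos h0 _) (pow_le_pow_left₀ h0.le hm _)

theorem cc_zero {g : ℕ → ℝ → ℝ} {η t : ℝ} (h : ∀ i y, y < 2 * Real.log η → g i y = 0)
    (ht : |1 + t| < η ^ 2) (j : ℕ) : cc g j t = 0 := by
  unfold cc
  split_ifs with h1
  · rfl
  · rw [PP_zero j fun i => h i _ ?_, zero_div]
    have := Real.log_lt_log (abs_pos.2 (one_add_ne h1)) ht
    rwa [Real.log_pow, Nat.cast_ofNat] at this

theorem log_le {m : ℝ} (h0 : 0 < m) (h1 : m ≤ 1) : 1 + |Real.log m| ≤ 1 / m := by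
  rw [abs_of_nonpos (Real.log_nonpos h0.le h1), ← Real.log_inv, one_div]
  linarith [Real.log_le_sub_one_of_pos (inv_pos.2 h0)]

theorem log_le' {m : ℝ} (h0 : 0 < m) (h1 : m ≤ 1) : m * (1 + |Real.log m|) ≤ 2 * √m := by
  have h2 := Real.sqrt_pos.2 h0
  have h3 := log_le h2 (Real.sqrt_le_one.2 h1)
  rw [Real.log_sqrt h0.le, abs_div, abs_two, le_div_iff₀ h2] at h3
  have h4 := mul_le_mul_of_nonneg_left h3 h2.le
  have h5 := Real.mul_self_sqrt h0.le
  have h6 : √m * ((1 + |Real.log m| / 2) * √m) = m * (1 + |Real.log m| / 2) := by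
    rw [mul_comm _ √m, ← mul_assoc, h5]
  linarith

theorem mn_pos {t : ℝ} (h0 : t ≠ 0) (h1 : t ≠ -1) : 0 < mn t :=
  lt_min one_pos (lt_min (abs_pos.2 h0) (abs_pos.2 (one_add_ne h1)))

theorem mn_le (t : ℝ) : mn t ≤ |1 + t| := (min_le_right _ _).trans (min_le_right _ _)

theorem one_le_add (t : ℝ) : 1 ≤ |t| + |1 + t| := by
  have := abs_sub (1 + t) t
  rw [add_sub_cancel_right, abs_one] at this
  linarith

/-- the derivatives of the transition function -/
theorem st : ∃ (s : ℕ → ℝ → ℝ) (S : ℝ), 1 ≤ S ∧ s 0 = Real.smoothTransition ∧ (∀ x, At s x) ∧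
    (∀ i x, x < 0 → s i x = 0) ∧ ∀ i ≤ 4, ∀ x, |s i x| ≤ S := by
  have h1 : ∀ i x, x < 0 → iteratedDeriv i Real.smoothTransition x = 0 := fun i x hx => by
    rw [EventuallyEq.iteratedDeriv_eq (g := fun _ => 0) i ((eventually_lt_nhds hx).mono
      fun y hy => Real.smoothTransition.zero_of_nonpos hy.le), iteratedDeriv_fun_const_zero]
  have h2 : ∀ i, ∃ S, 1 ≤ S ∧ ∀ x, |iteratedDeriv i Real.smoothTransition x| ≤ S := fun i => by
    obtain ⟨S, hS⟩ := (isCompact_Icc (a := (0 : ℝ)) (b := 1)).exists_bound_of_continuousOn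
      (ContDiff.continuous_iteratedDeriv' i (Real.smoothTransition.contDiff (n := i))).continuousOn
    refine ⟨max 1 S, le_max_left _ _, fun x => ?_⟩
    rcases lt_or_ge x 0 with h | h
    · rw [h1 i x h, abs_zero]
      exact le_max_of_le_left zero_le_one
    rcases le_or_gt x 1 with h' | h'
    · exact le_max_of_le_right (hS x ⟨h, h'⟩)
    · rw [EventuallyEq.iteratedDeriv_eq (g := fun _ => 1) i ((eventually_gt_nhds h').mono
        fun y hy => Real.smoothTransition.one_of_one_le hy.le), iteratedDeriv_const]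
      split_ifs <;> simp
  choose S h3 h4 using h2
  have h5 : ∀ i ≤ 4, S i ≤ ∑ i ∈ Finset.range 5, S i := fun i hi =>
    Finset.single_le_sum (fun i _ => zero_le_one.trans (h3 i)) (Finset.mem_range.2 (by omega))
  refine ⟨fun i => iteratedDeriv i Real.smoothTransition, _, (h3 0).trans (h5 0 (by norm_num)),
    iteratedDeriv_zero, fun x i => ?_, h1, fun i hi x => (h4 i x).trans (h5 i hi)⟩
  beta_reduce
  rw [iteratedDeriv_succ]
  exact (ContDiff.differentiable_iteratedDeriv' i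
    (Real.smoothTransition.contDiff (n := i + 1)) x).hasDerivAt

end Pool.Agent.MP_20b2fd_nt.H38.Mel1A
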