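import Pool.Agent.MP_20b2fd_nt.H38.SpecA

/-! The majorant of the Kloosterman sums. -/

set_option autoImplicit false

namespace Pool.Agent.MP_20b2fd_nt.H38

open Finset

namespace BbA

theorem one_le (c : ℕ) : 1 ≤ bb c := by
  refine le_trans (prod_const_one (s := c.primeFactors)).ge
    (prod_le_prod (fun _ _ => zero_le_one) fun p hp => ?_)
  have h : (1 : ℝ) ≤ p := by exact_mod_cast (Nat.prime_of_mem_primeFactors hp).one_le
  split_ifs
  · linarith [Real.one_le_rpow h (by norm_num : (0 : ℝ) ≤ 3 / 4)]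
  · exact one_le_pow₀ h

theorem nn (c : ℕ) : 0 ≤ bb c := zero_le_one.trans (one_le c)

theorem mul {a b : ℕ} (h : a.Coprime b) : bb (a * b) = bb a * bb b := by
  have e : ∀ c : ℕ, bb c = c.factorization.prod fun p k =>
      if k = 1 then 2 * (p : ℝ) ^ (3 / 4 : ℝ) else (p : ℝ) ^ k := fun _ => rfl
  rw [e, e, e, Nat.factorization_mul_of_coprime h,
    Finsupp.prod_add_index_of_disjoint h.disjoint_primeFactors]

theorem pow {p : ℕ} (hp : p.Prime) (k : ℕ) :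
    bb (p ^ k) = if k = 1 then 2 * (p : ℝ) ^ (3 / 4 : ℝ) else (p : ℝ) ^ k := by
  rcases eq_or_ne k 0 with rfl | hk
  · simp [bb]
  · rw [bb, Nat.primeFactors_prime_pow hk hp, prod_singleton, hp.factorization_pow,
      Finsupp.single_eq_same]

theorem prime {p : ℕ} (hp : p.Prime) : bb p = 2 * (p : ℝ) ^ (3 / 4 : ℝ) := by
  simpa using pow hp 1

noncomputable def f (θ : ℝ) (c : ℕ) : ℝ := bb c / (c : ℝ) ^ θ

theorem f_nn (θ : ℝ) (c : ℕ) : 0 ≤ f θ c := div_nonneg (nn c) (by positivity)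

theorem f_mul (θ : ℝ) {a b : ℕ} (h : a.Coprime b) : f θ (a * b) = f θ a * f θ b := by
  rw [f, f, f, mul h, Nat.cast_mul, Real.mul_rpow (by positivity) (by positivity),
    mul_div_mul_comm]

noncomputable def σ : ℝ := 2 ^ (-5 / 8 : ℝ)

theorem σ0 : 0 ≤ σ := by unfold σ; positivity

theorem σ1 : σ < 1 := Real.rpow_lt_one_of_one_lt_of_neg one_lt_two (by norm_num)

theorem loc {p : ℕ} (hp : p.Prime) (m : ℕ) :
    f (15 / 8) (p ^ (m + 1)) ≤ 2 * (p : ℝ) ^ (-9 / 8 : ℝ) * σ ^ m := by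
  have h2 : (2 : ℝ) ≤ p := by exact_mod_cast hp.two_le
  have h0 : (0 : ℝ) < p := by linarith
  rw [f, pow hp]
  split_ifs with h
  · obtain rfl : m = 0 := by omega
    rw [zero_add, pow_one, pow_zero, mul_one, mul_div_assoc, ← Real.rpow_sub h0]
    norm_num
  · have hm : (1 : ℝ) ≤ m := by exact_mod_cast (by omega : 1 ≤ m)
    rw [Nat.cast_pow, ← Real.rpow_natCast, ← Real.rpow_mul h0.le, ← Real.rpow_sub h0]
    have a : ((p : ℝ) ^ (-5 / 8 : ℝ)) ^ m ≤ σ ^ m := pow_le_pow_left₀ (by positivity)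
      (Real.rpow_le_rpow_of_nonpos two_pos h2 (by norm_num)) m
    have b : (p : ℝ) ^ (((m + 1 : ℕ) : ℝ) - ((m + 1 : ℕ) : ℝ) * (15 / 8)) ≤
        (p : ℝ) ^ (-9 / 8 : ℝ) * ((p : ℝ) ^ (-5 / 8 : ℝ)) ^ m := by
      rw [← Real.rpow_natCast, ← Real.rpow_mul h0.le, ← Real.rpow_add h0]
      exact Real.rpow_le_rpow_of_exponent_le (by linarith) (by push_cast; linarith)
    have c : 0 ≤ (p : ℝ) ^ (-9 / 8 : ℝ) := by positivity
    nlinarith [mul_le_mul_of_nonneg_left a c, mul_nonneg c (pow_nonneg σ0 m)]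

theorem loc_sum {p : ℕ} (hp : p.Prime) : (Summable fun n : ℕ => f (15 / 8) (p ^ n)) ∧
    ∑' n : ℕ, f (15 / 8) (p ^ n) ≤ Real.exp (2 * (1 - σ)⁻¹ * (p : ℝ) ^ (-9 / 8 : ℝ)) := by
  have g := (hasSum_geometric_of_lt_one σ0 σ1).mul_left (2 * (p : ℝ) ^ (-9 / 8 : ℝ))
  have s : Summable fun m : ℕ => f (15 / 8) (p ^ (m + 1)) :=
    .of_nonneg_of_le (fun _ => f_nn _ _) (loc hp) g.summable
  have s' := (summable_nat_add_iff (f := fun n : ℕ => f (15 / 8) (p ^ n)) 1).1 s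
  refine ⟨s', le_trans ?_ (Real.add_one_le_exp _)⟩
  have e : f (15 / 8) (p ^ 0) = 1 := by simp [f, bb]
  rw [s'.tsum_eq_zero_add, e]
  linarith [hasSum_le (loc hp) s.hasSum g]

theorem tot : ∃ C : ℝ, 1 ≤ C ∧ ∀ (X : ℕ) (θ : ℝ), 15 / 8 ≤ θ → ∑ c ∈ Icc 1 X, f θ c ≤ C := by
  have s : Summable fun n : ℕ => 2 * (1 - σ)⁻¹ * (n : ℝ) ^ (-9 / 8 : ℝ) :=
    (Real.summable_nat_rpow.2 (by norm_num)).mul_left _
  have p : ∀ n : ℕ, 0 ≤ 2 * (1 - σ)⁻¹ * (n : ℝ) ^ (-9 / 8 : ℝ) := fun n => by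
    have := sub_pos.2 σ1
    positivity
  refine ⟨Real.exp (∑' n : ℕ, 2 * (1 - σ)⁻¹ * (n : ℝ) ^ (-9 / 8 : ℝ)),
    Real.one_le_exp (tsum_nonneg p), fun X θ hθ => ?_⟩
  have h := (EulerProduct.summable_and_hasSum_smoothNumbers_prod_primesBelow_tsum
    (f := f (15 / 8)) (by simp [f, bb]) (f_mul _) (fun hp => (loc_sum hp).1.norm) (X + 1)).2
  have h1 := sum_le_hasSum ((Icc 1 X).subtype (· ∈ (X + 1).smoothNumbers))
    (fun _ _ => f_nn _ _) h
  rw [sum_subtype_of_mem (f (15 / 8)) fun c hc =>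
    Nat.mem_smoothNumbers_of_lt (mem_Icc.1 hc).1 (Nat.lt_succ_of_le (mem_Icc.1 hc).2)] at h1
  refine (sum_le_sum fun c hc => ?_).trans (h1.trans ((prod_le_prod
    (fun _ _ => tsum_nonneg fun _ => f_nn _ _)
    fun q hq => (loc_sum (Nat.prime_of_mem_primesBelow hq)).2).trans ?_))
  · have : (1 : ℝ) ≤ c := by exact_mod_cast (mem_Icc.1 hc).1
    exact div_le_div_of_nonneg_left (nn c) (by positivity)
      (Real.rpow_le_rpow_of_exponent_le this hθ)
  · rw [← Real.exp_sum]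
    exact Real.exp_le_exp.2 (s.sum_le_tsum _ fun n _ => p n)

theorem sq_le {N : ℕ} (hN : N.Prime) {r : ℕ} (hr : r ≠ 0) :
    bb (N ^ 2 * r) ≤ (N : ℝ) ^ (9 / 4 : ℝ) * bb r := by
  obtain ⟨k, s, hs, rfl⟩ := Nat.exists_eq_pow_mul_and_not_dvd hr N hN.ne_one
  have c := fun j => (hN.coprime_iff_not_dvd.2 hs).pow_left j
  have h1 : (1 : ℝ) ≤ N := by exact_mod_cast hN.one_le
  have h0 : (0 : ℝ) < N := by linarith
  rw [← mul_assoc, ← pow_add, mul (c _), mul (c _), ← mul_assoc, pow hN, pow hN, if_neg (by omega)]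
  refine mul_le_mul_of_nonneg_right ?_ (nn s)
  split_ifs with h
  · rw [h, mul_left_comm, ← Real.rpow_add h0, ← Real.rpow_natCast]
    norm_num
    linarith [pow_pos h0 3]
  · rw [pow_add, ← Real.rpow_natCast _ 2]
    exact mul_le_mul_of_nonneg_right (Real.rpow_le_rpow_of_exponent_le h1 (by norm_num))
      (by positivity)

theorem mult {N : ℕ} (hN : N.Prime) (X : ℕ) {θ : ℝ} (hθ : 15 / 8 ≤ θ) :
    ∑ c ∈ (Icc 1 X).filter (fun c => N ∣ c), f θ c ≤
      3 * (∑ c ∈ Icc 1 X, f θ c) * (N : ℝ) ^ (3 / 4 - θ) := by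
  have h1 : (1 : ℝ) ≤ N := by exact_mod_cast hN.one_le
  have h0 : (0 : ℝ) < N := by linarith
  have key : ∀ (M : ℕ) (B : ℝ) (s : Finset ℕ), 0 < M → 0 ≤ B → (∀ c ∈ s, c ∈ Icc 1 X ∧ M ∣ c) →
      (∀ r, M * r ∈ s → f θ (M * r) ≤ B * f θ r) → ∑ c ∈ s, f θ c ≤ B * ∑ c ∈ Icc 1 X, f θ c := by
    intro M B s hM hB hs hf
    calc ∑ c ∈ s, f θ c ≤ ∑ c ∈ s, B * f θ (c / M) := sum_le_sum fun c hc => by
          obtain ⟨r, rfl⟩ := (hs c hc).2
          rw [Nat.mul_div_cancel_left r hM]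
          exact hf r hc
      _ = ∑ r ∈ s.image (· / M), B * f θ r := (sum_image (f := fun r => B * f θ r)
          fun c hc d hd h => (Nat.div_left_inj (hs c hc).2 (hs d hd).2).1 h).symm
      _ ≤ ∑ r ∈ Icc 1 X, B * f θ r := sum_le_sum_of_subset_of_nonneg (fun r hr => by
          obtain ⟨c, hc, rfl⟩ := mem_image.1 hr
          have := mem_Icc.1 (hs c hc).1
          exact mem_Icc.2 ⟨Nat.div_pos (Nat.le_of_dvd this.1 (hs c hc).2) hM,
            (Nat.div_le_self _ _).trans this.2⟩) fun r _ _ => mul_nonneg hB (f_nn _ _)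
      _ = _ := (mul_sum _ _ _).symm
  rw [← sum_filter_add_sum_filter_not _ fun c => N ^ 2 ∣ c]
  have a := key (N ^ 2) ((N : ℝ) ^ (3 / 4 - θ)) (((Icc 1 X).filter fun c => N ∣ c).filter
      fun c => N ^ 2 ∣ c) (pow_pos hN.pos 2) (by positivity)
    (fun c hc => ⟨(mem_filter.1 (mem_filter.1 hc).1).1, (mem_filter.1 hc).2⟩) fun r hr => by
      have hr0 : r ≠ 0 := fun h => by simp [h] at hr
      rw [f, f, Nat.cast_mul, Real.mul_rpow (by positivity) (by positivity), ← div_div,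
        ← mul_div_assoc]
      refine div_le_div_of_nonneg_right ((div_le_div_of_nonneg_right (sq_le hN hr0)
        (by positivity)).trans ?_) (by positivity)
      rw [mul_div_right_comm, Nat.cast_pow, ← Real.rpow_natCast, ← Real.rpow_mul h0.le,
        ← Real.rpow_sub h0]
      exact mul_le_mul_of_nonneg_right
        (Real.rpow_le_rpow_of_exponent_le h1 (by push_cast; linarith)) (nn r)
  have b := key N (2 * (N : ℝ) ^ (3 / 4 - θ)) (((Icc 1 X).filter fun c => N ∣ c).filter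
      fun c => ¬ N ^ 2 ∣ c) hN.pos (by positivity)
    (fun c hc => mem_filter.1 (mem_filter.1 hc).1) fun r hr => by
      have : ¬ N ∣ r := fun h => (mem_filter.1 hr).2 (sq N ▸ Nat.mul_dvd_mul_left N h)
      rw [f_mul θ (hN.coprime_iff_not_dvd.2 this), f, prime hN, mul_div_assoc, ← Real.rpow_sub h0]
  linarith

end BbA

open BbA in
theorem bbS : BbS := by
  obtain ⟨C, h1, hC⟩ := tot
  refine ⟨one_le, fun _ _ => BbA.mul, fun _ => prime, 3 * C, by linarith, fun X θ hθ _ =>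
    ⟨(hC X θ hθ).trans (by linarith), fun N hN => (mult hN X hθ).trans ?_⟩⟩
  exact mul_le_mul_of_nonneg_right (by linarith [hC X θ hθ]) (by positivity)

end Pool.Agent.MP_20b2fd_nt.H38
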