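import Pool.Agent.MP_20b2fd_nt.H38.SpecA
import Pool.Agent.MP_74e98a_nt.H98.Klo

/-! A bound for Kloosterman sums to arbitrary moduli. -/

set_option autoImplicit false

namespace Pool.Agent.MP_20b2fd_nt.H38

open Complex Finset
open scoped Real

namespace KlA

/-- the sum over the units of a finite ring -/
noncomputable def K {R : Type} [CommRing R] [Fintype Rˣ] (ψ : AddChar R ℂ) (a b : R) : ℂ :=
  ∑ x : Rˣ, ψ (a * ((x⁻¹ : Rˣ) : R) + b * x)

theorem K_le (c : ℕ) [NeZero c] (ψ : AddChar (ZMod c) ℂ) (a b : ZMod c) : ‖K ψ a b‖ ≤ c := by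
  refine (norm_sum_le _ _).trans ?_
  simp only [AddChar.norm_apply, sum_const, card_univ, nsmul_eq_mul, mul_one, Nat.cast_le]
  exact (Fintype.card_le_of_injective _ Units.val_injective).trans_eq (ZMod.card c)

section Mul

variable {R S T : Type} [CommRing R] [CommRing S] [CommRing T] (e : R ≃+* S × T) (ψ : AddChar R ℂ)

/-- the first component -/
def c1 : AddChar S ℂ := ψ.compAddMonoidHom (e.symm.toAddMonoidHom.comp (AddMonoidHom.inl S T))

/-- the second component -/
def c2 : AddChar T ℂ := ψ.compAddMonoidHom (e.symm.toAddMonoidHom.comp (AddMonoidHom.inr S T))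

theorem c12 (z : R) : ψ z = c1 e ψ (e z).1 * c2 e ψ (e z).2 := by
  change _ = ψ (e.symm ((e z).1, 0)) * ψ (e.symm (0, (e z).2))
  rw [← AddChar.map_add_eq_mul, ← map_add]
  simp

theorem c1_prim (h : ψ.IsPrimitive) : (c1 e ψ).IsPrimitive := fun a ha k =>
  h (a := e.symm (a, 0)) (by simpa [Prod.ext_iff] using ha) (AddChar.ext _ _ fun z => by
    have := DFunLike.congr_fun k (e z).1
    rw [AddChar.mulShift_apply, AddChar.one_apply] at this ⊢
    rw [c12 e]
    simp [this])

theorem c2_prim (h : ψ.IsPrimitive) : (c2 e ψ).IsPrimitive := fun a ha k =>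
  h (a := e.symm (0, a)) (by simpa [Prod.ext_iff] using ha) (AddChar.ext _ _ fun z => by
    have := DFunLike.congr_fun k (e z).2
    rw [AddChar.mulShift_apply, AddChar.one_apply] at this ⊢
    rw [c12 e]
    simp [this])

theorem K_mul [Fintype Rˣ] [Fintype Sˣ] [Fintype Tˣ] (a b : R) :
    K ψ a b = K (c1 e ψ) (e a).1 (e b).1 * K (c2 e ψ) (e a).2 (e b).2 := by
  unfold K
  rw [sum_mul_sum, ← Fintype.sum_prod_type']
  refine Fintype.sum_equiv ((Units.mapEquiv e.toMulEquiv).trans MulEquiv.prodUnits).toEquiv _ _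
    fun x => ?_
  rw [c12 e, map_add, map_mul, map_mul]
  rfl

end Mul

theorem bb_mul {a b : ℕ} (h : a.Coprime b) :
    bb (a * b) = bb a * bb b := by
  unfold bb
  rw [h.primeFactors_mul, prod_union h.disjoint_primeFactors]
  congr 1
  · exact prod_congr rfl fun p hp => by
      rw [Nat.factorization_eq_of_coprime_left h (Nat.mem_primeFactors_iff_mem_primeFactorsList.1 hp)]
  · exact prod_congr rfl fun p hp => by
      rw [Nat.factorization_eq_of_coprime_right h
        (Nat.mem_primeFactors_iff_mem_primeFactorsList.1 hp)]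

theorem bound (c : ℕ) : ∀ [NeZero c] (ψ : AddChar (ZMod c) ℂ), ψ.IsPrimitive → ∀ (A : ℤ)
    (b : ZMod c), ‖K ψ A b‖ ≤ bb c * (A.gcd c : ℝ) ^ (1 / 4 : ℝ) := by
  have g1 : ∀ (c : ℕ) [NeZero c] (A : ℤ), 1 ≤ (A.gcd c : ℝ) ^ (1 / 4 : ℝ) := fun c _ A =>
    Real.one_le_rpow (by
      exact_mod_cast Int.gcd_pos_of_ne_zero_right A (Int.natCast_ne_zero.2 (NeZero.ne c)))
      (by norm_num)
  induction c using Nat.recOnPosPrimePosCoprime with
  | prime_pow p n hp hn =>
    intro _ ψ hψ A b
    have p0 : (0 : ℝ) < p := by exact_mod_cast hp.pos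
    have e : bb (p ^ n) = if n = 1 then 2 * (p : ℝ) ^ (3 / 4 : ℝ) else (p : ℝ) ^ n := by
      simp [bb, Nat.primeFactors_prime_pow hn.ne' hp, hp.factorization_pow]
    rw [e]
    split_ifs with h
    · subst h
      revert ψ b
      generalize hq : p ^ 1 = q at *
      rw [pow_one] at hq
      subst hq
      intro ψ hψ b
      have := Fact.mk hp
      by_cases hA : (A : ZMod p) = 0
      · refine (K_le p ψ _ _).trans ?_
        rw [Int.gcd_eq_natAbs_right ((ZMod.intCast_zmod_eq_zero_iff_dvd A p).1 hA),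
          Int.natAbs_natCast, mul_assoc, ← Real.rpow_add p0]
        norm_num
        linarith
      · have k := MP_74e98a_nt.H98.Kl_le hψ hA b
        rw [ZMod.card] at k
        refine le_trans (le_of_eq (congrArg _ ?_)) (k.trans
          (le_mul_of_one_le_right (by positivity) (g1 p A)))
        refine Fintype.sum_equiv (Equiv.inv _) _ _ fun x => ?_
        rw [Equiv.inv_apply, Units.val_inv_eq_inv_val, inv_inv]
    · exact (K_le _ ψ _ _).trans ((Nat.cast_pow p n).le.trans
        (le_mul_of_one_le_right (by positivity) (g1 _ A)))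
  | zero => exact fun [h : NeZero 0] => absurd rfl h.ne
  | one =>
    intro _ ψ _ A b
    simpa [bb] using K_le 1 ψ A b
  | coprime m n hm hn h im in' =>
    intro _ ψ hψ A b
    have : NeZero m := ⟨by omega⟩
    have : NeZero n := ⟨by omega⟩
    have g : A.gcd (m * n : ℕ) = A.gcd m * A.gcd n := h.gcd_mul A.natAbs
    rw [K_mul (ZMod.chineseRemainder h), norm_mul, map_intCast, Prod.fst_intCast, Prod.snd_intCast,
      bb_mul h, g, Nat.cast_mul,
      Real.mul_rpow (Nat.cast_nonneg _) (Nat.cast_nonneg _), mul_mul_mul_comm]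
    have k := im _ (c1_prim (ZMod.chineseRemainder h) ψ hψ) A (ZMod.chineseRemainder h b).1
    exact mul_le_mul k (in' _ (c2_prim _ ψ hψ) A _) (norm_nonneg _) ((norm_nonneg _).trans k)

end KlA

theorem kl : KlS := by
  intro c A k hc
  have : NeZero c := ⟨by omega⟩
  refine le_trans (le_of_eq (congrArg _ ?_)) (KlA.bound c _ (ZMod.isPrimitive_stdAddChar c) A k)
  symm
  refine sum_bij (fun x _ => (x : ZMod c).val) (fun x _ => ?_) (fun x _ y _ h => ?_)
    (fun x hx => ?_) fun x _ => ?_
  · exact mem_filter.2 ⟨mem_range.2 (ZMod.val_lt _), ZMod.val_coe_unit_coprime x⟩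
  · exact Units.ext (ZMod.val_injective c h)
  · obtain ⟨h1, h2⟩ := mem_filter.1 hx
    exact ⟨ZMod.unitOfCoprime x h2, mem_univ _, ZMod.val_cast_of_lt (mem_range.1 h1)⟩
  · rw [ZMod.natCast_zmod_val, ZMod.inv_coe_unit, ZMod.stdAddChar_apply, ZMod.toCircle_apply, ec,
      ee, mul_div_assoc]

end Pool.Agent.MP_20b2fd_nt.H38
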