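import Pool.Agent.MP_20b2fd_nt.H38.SpecA

/-! The Hecke operators and the involution are self adjoint. -/

set_option autoImplicit false

namespace Pool.Agent.MP_20b2fd_nt.H38

open UpperHalfPlane hiding I
open MeasureTheory Complex Finset

namespace AdjA

variable {N : ℕ} {M : Set Mt} {S : Finset ℕ} {r : ℕ → Mt}

theorem det_mul (g h : Mt) : det (mul g h) = det g * det h := by
  simp only [det, mul]
  ring

theorem det_adj (g : Mt) : det (adj g) = det g := by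
  simp only [det, adj]
  ring

theorem adj_adj (g : Mt) : adj (adj g) = g := by simp [adj]

theorem mul_adj (g : Mt) : mul g (adj g) = smu (det g) (1, 0, 0, 1) := by
  simp only [mul, adj, smu, det, Prod.mk.injEq]
  refine ⟨?_, ?_, ?_, ?_⟩ <;> ring

theorem det_one {g : Mt} (h : g ∈ MM N 1) : det g = 1 := h.1.trans Nat.cast_one

theorem pt_sum (K : KitS) (hE : ∀ z, HasSum (fun g : MM N 1 => eta N (ac g z)) 2)
    (hb : Set.BijOn (fun x : Mt × ℕ => mul x.1 (r x.2)) (MM N 1 ×ˢ (S : Set ℕ)) M)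
    (hr : ∀ i ∈ S, 0 < det (r i)) {E : Type} [NormedAddCommGroup E] [NormedSpace ℝ E]
    (v : Mt → E) (hv : ∀ g ∈ MM N 1, ∀ i ∈ S, v (mul g (r i)) = v (r i)) (z : ℍ) :
    HasSum (fun μ : M => eta N (ac μ z) • v μ) (∑ i ∈ S, (2 : ℝ) • v (r i)) := by
  have inj : ∀ i ∈ S, ∀ j ∈ S, ∀ g ∈ MM N 1, ∀ h ∈ MM N 1, mul g (r i) = mul h (r j) →
      g = h ∧ i = j := fun i hi j hj g hg h hh e =>
    Prod.ext_iff.1 (hb.injOn (x₁ := (g, i)) (x₂ := (h, j)) ⟨hg, hi⟩ ⟨hh, hj⟩ e)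
  obtain rfl : ⋃ i ∈ S, (fun g => mul g (r i)) '' MM N 1 = M := by
    rw [← hb.image_eq]
    ext μ
    simp only [Set.mem_iUnion, Set.mem_image]
    exact ⟨fun ⟨i, hi, g, hg, e⟩ => ⟨(g, i), ⟨hg, hi⟩, e⟩,
      fun ⟨x, hx, e⟩ => ⟨x.2, hx.2, x.1, hx.1, e⟩⟩
  refine hasSum_sum_disjoint (f := fun μ => eta N (ac μ z) • v μ) S
    (fun i hi j hj hij => Set.disjoint_left.2 ?_) fun i hi => ?_
  · rintro _ ⟨g, hg, rfl⟩ ⟨h, hh, e⟩
    exact hij (inj j hj i hi h hh g hg e).2.symm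
  · refine (Equiv.Set.imageOfInjOn _ _ fun g hg h hh e =>
      (inj i hi i hi g hg h hh e).1).hasSum_iff.1 ?_
    refine (congrArg (HasSum · _) (funext fun g => ?_)).mp ((hE (ac (r i) z)).smul_const (v (r i)))
    change _ = eta N (ac (mul g (r i)) z) • v (mul g (r i))
    rw [hv g g.2 i hi, K.acm _ _ _ ((det_one g.2).trans_ne one_ne_zero) (hr i hi).ne']

theorem int_sum (K : KitS) (hE : EtaS) (hN : N.Prime)
    (hb : Set.BijOn (fun x : Mt × ℕ => mul x.1 (r x.2)) (MM N 1 ×ˢ (S : Set ℕ)) M)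
    (hr : ∀ i ∈ S, 0 < det (r i)) (u : Mt → ℍ → ℂ) (hm : ∀ μ, Measurable (u μ)) {C : ℝ}
    (hC : ∀ μ ∈ M, ∀ z, ‖u μ z‖ ≤ C) (hu : ∀ g ∈ MM N 1, ∀ i ∈ S, u (mul g (r i)) = u (r i)) :
    HasSum (fun μ : M => ∫ z, eta N (ac μ z) • ((eta N z : ℂ) * u μ z))
      (2 * ∫ z, (eta N z : ℂ) * ∑ i ∈ S, u (r i) z) := by
  obtain ⟨e1, e2, e3, e4, -⟩ := hE.2 N hN
  have b := fun z => pt_sum K e4 hb hr (fun _ => eta N z * C) (fun _ _ _ _ => rfl) z
  rw [← integral_const_mul]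
  refine hasSum_integral_of_dominated_convergence (fun (μ : M) z => eta N (ac μ z) • (eta N z * C))
    (fun μ => ((e1.comp (K.mp (gl μ)).measurable).smul
      ((measurable_ofReal.comp e1).mul (hm μ))).aestronglyMeasurable)
    (fun μ => ae_of_all _ fun z => ?_) (ae_of_all _ fun z => (b z).summable) ?_
    (ae_of_all _ fun z => ?_)
  · rw [norm_smul, norm_mul, norm_real, Real.norm_of_nonneg (e2 _), Real.norm_of_nonneg (e2 _)]
    exact mul_le_mul_of_nonneg_left (mul_le_mul_of_nonneg_left (hC μ μ.2 z) (e2 _)) (e2 _)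
  · rw [funext fun z => (b z).tsum_eq]
    exact integrable_finsetSum _ fun i _ => (e3.mul_const C).smul (2 : ℝ)
  · have h := pt_sum K e4 hb hr (fun μ => (eta N z : ℂ) * u μ z)
      (fun g hg i hi => by rw [hu g hg i hi]) z
    rwa [← smul_sum, ← mul_sum, real_smul, ofReal_ofNat] at h

theorem main (K : KitS) (hE : EtaS) (hN : N.Prime) {F G : ℍ → ℂ} (mF : Measurable F)
    (mG : Measurable G) (iF : Inv N F) (iG : Inv N G)
    (hb : Set.BijOn (fun x : Mt × ℕ => mul x.1 (r x.2)) (MM N 1 ×ˢ (S : Set ℕ)) M)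
    (hr : ∀ i ∈ S, 0 < det (r i)) (ha : ∀ μ ∈ M, adj μ ∈ M) {C : ℝ}
    (hC : ∀ i ∈ S, ∀ z, ‖pe (sl F (r i)) G z‖ ≤ C) :
    ip N (fun z => ∑ i ∈ S, sl F (r i) z) G = ip N F fun z => ∑ i ∈ S, sl G (r i) z := by
  have iv : ∀ H, Inv N H → ∀ g ∈ MM N 1, ∀ i ∈ S, sl H (mul g (r i)) = sl H (r i) :=
    fun H h g hg i hi => by
      rw [← K.slm _ _ _ ((det_one hg).trans_ne one_ne_zero) (hr i hi).ne', h g hg]
  have hM : ∀ μ ∈ M, 0 < det μ ∧ ∀ z, ‖pe (sl F μ) G z‖ ≤ C := fun μ h => by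
    obtain ⟨⟨g, i⟩, ⟨hg, hi⟩, rfl⟩ := hb.surjOn h
    exact ⟨by rw [det_mul, det_one hg, one_mul]; exact hr i hi,
      by rw [iv F iF g hg i hi]; exact hC i hi⟩
  have d1 : 0 < det (1, 0, 0, 1) := by simp [det]
  have sw : ∀ μ, 0 < det μ → ∀ w, ac μ (ac (adj μ) w) = w ∧
      pe (sl F μ) G (ac (adj μ) w) = pe F (sl G (adj μ)) w := fun μ h w => by
    have h' := h.trans_eq (det_adj μ).symm
    rw [← K.acm _ _ _ h.ne' h'.ne', ← K.pez _ _ _ _ h', K.slm _ _ _ h.ne' h'.ne', mul_adj,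
      (K.sca F _ _ h.ne' d1).1, (K.sca F _ _ h.ne' d1).2, (K.one F).1, (K.one F).2]
    exact ⟨rfl, rfl⟩
  have s1 := int_sum K hE hN hb hr (fun μ => pe (sl F μ) G)
    (fun μ => K.mpe _ _ (K.msr _ _ mF) mG) (fun μ h => (hM μ h).2)
    fun g hg i hi => by rw [iv F iF g hg i hi]
  have s2 := int_sum K hE hN hb hr (fun μ => pe F (sl G μ))
    (fun μ => K.mpe _ _ mF (K.msr _ _ mG)) (C := C) (fun μ h z => by
      have k := (sw _ (hM _ (ha μ h)).1 z).2
      rw [adj_adj] at k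
      exact k ▸ (hM _ (ha μ h)).2 _)
    fun g hg i hi => by rw [iv G iG g hg i hi]
  let e : M ≃ M := Function.Involutive.toPerm (fun μ => ⟨adj μ, ha μ μ.2⟩)
    fun μ => Subtype.ext (adj_adj μ)
  have s3 := (congrArg (HasSum · _) (funext fun μ : M =>
    show _ = ∫ z, eta N (ac μ z) • ((eta N z : ℂ) * pe (sl F μ) G z) by
      rw [← (K.ints (gl (adj μ)) _).1]
      refine integral_congr_ae (ae_of_all _ fun w => ?_)
      change eta N (ac (adj μ) w) • ((eta N w : ℂ) * pe F (sl G (adj μ)) w) =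
        eta N (ac μ (ac (adj μ) w)) • ((eta N (ac (adj μ) w) : ℂ) * pe (sl F μ) G (ac (adj μ) w))
      rw [(sw _ (hM _ μ.2).1 w).1, (sw _ (hM _ μ.2).1 w).2, real_smul, real_smul]
      ring)).mp (e.hasSum_iff.2 s2)
  have k := mul_left_cancel₀ two_ne_zero (s1.unique s3)
  simpa only [ip, pe, map_sum, sum_mul, mul_sum] using k

end AdjA

open AdjA

theorem adjOf : AdjOf := by
  intro K hE hCos N F G C hN mF mG iF iG
  refine ⟨fun p hp hne hC => ?_, fun hC => ?_⟩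
  · have hr : ∀ i, det (rp p i) = p := fun i => by
      unfold rp
      split_ifs <;> simp [det]
    exact main K hE hN mF mG iF iG (S := range (p + 1)) (r := rp p) (M := MM N p)
      (by rw [coe_range]; exact (hCos N p hN hp hne).1)
      (fun i _ => by rw [hr]; exact_mod_cast hp.pos)
      (fun μ h => ⟨(det_adj μ).trans h.1, (dvd_neg).2 h.2⟩) fun i _ => hC _ (hr i)
  · have h0 : (N : ℤ) ≠ 0 := by exact_mod_cast hN.ne_zero
    have k := main K hE hN mF mG iF iG (S := {0}) (r := fun _ => WN N)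
      (Set.InjOn.bijOn_image fun x hx y hy e => ?_)
      (fun i _ => by simpa [det, WN] using hN.pos) ?_ fun _ _ => hC
    · simpa only [sum_singleton] using k
    · simp only [mul, WN, Prod.mk.injEq, mul_zero, zero_add, add_zero, mul_left_inj' h0, mul_neg,
        mul_one, neg_inj] at e
      refine Prod.ext (Prod.ext e.2.1 (Prod.ext e.1 (Prod.ext e.2.2.2 e.2.2.1))) ?_
      exact (mem_singleton.1 hx.2).trans (mem_singleton.1 hy.2).symm
    · rintro _ ⟨⟨⟨a, b, c, d⟩, i⟩, ⟨⟨h1, c', rfl⟩, hi⟩, rfl⟩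
      refine ⟨((-a, -c', -(N * b), -d), i), ⟨⟨?_, -b, by ring⟩, hi⟩, ?_⟩
      · simp only [det] at h1 ⊢
        linear_combination h1
      · simp only [mul, adj, WN, Prod.mk.injEq]
        refine ⟨?_, ?_, ?_, ?_⟩ <;> ring

end Pool.Agent.MP_20b2fd_nt.H38
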