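import Pool.Agent.MP_20b2fd_nt.H38.SpecA

/-! The central value: analytic continuation and the approximate functional equation. -/

set_option autoImplicit false

namespace Pool.Agent.MP_20b2fd_nt.H38

open UpperHalfPlane hiding I
open MeasureTheory Complex Filter Topology
open scoped Real

namespace AfA

theorem pt_eq (t : ℝ) : pt 0 t = ofComplex (I * t) := by simp [pt, mul_comm]

variable {N : ℕ} [NeZero N] (f : CF N)

theorem integ : IntegrableOn (fun y : ℝ => f (pt 0 y)) (Set.Ioi 0) := by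
  have := ((CuspForm.isStrongFEPair (Γ := CongruenceSubgroup.Gamma0 N) two_pos f).hasMellin 1).1
  simpa [MellinConvergent, pt_eq, ModularForm.weakFEPair] using this

theorem exL (h0 : co f 0 = 0) : ∃ L : ℂ → ℂ, Differentiable ℂ L ∧
    (∀ s : ℂ, 2 < s.re → LSeriesHasSum (co f) s (L s)) ∧ L 1 = Lc f := by
  refine ⟨ModularForm.L (Γ := CongruenceSubgroup.Gamma0 N) two_pos f,
    CuspForm.differentiable_L _ f, fun s hs => ?_, ?_⟩
  · have := CuspForm.hasSum_L (Γ := CongruenceSubgroup.Gamma0 N) (s := s) two_pos f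
      (by push_cast; linarith)
    rw [CongruenceSubgroup.strictWidthInfty_Gamma0, ofReal_one, one_cpow, one_mul] at this
    refine (congrArg (HasSum · _) (funext fun n => ?_)).mp this
    rw [LSeries.term_def₀ h0, cpow_neg, div_eq_mul_inv]
    rfl
  · rw [ModularForm.L, CuspForm.Λ_eq_mellin, Gammaℂ_one, mellin, Lc]
    simp only [sub_self, cpow_zero, one_smul, pt_eq]
    rw [div_div_eq_mul_div, div_one, mul_comm]

theorem uniq {a : ℕ → ℂ} {L L' : ℂ → ℂ} (h : Differentiable ℂ L) (h' : Differentiable ℂ L')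
    (e : ∀ s : ℂ, 2 < s.re → LSeriesHasSum a s (L s))
    (e' : ∀ s : ℂ, 2 < s.re → LSeriesHasSum a s (L' s)) : L = L' := by
  refine AnalyticOnNhd.eq_of_eventuallyEq (z₀ := 3) (fun z _ => h.analyticAt z)
    (fun z _ => h'.analyticAt z) ?_
  filter_upwards [(isOpen_lt continuous_const Complex.continuous_re).mem_nhds
    (show (2 : ℝ) < (3 : ℂ).re by norm_num)] with s hs
  exact HasSum.unique (e s hs) (e' s hs)

/-- termwise integration of an exponential series -/
theorem tail {a : ℕ → ℂ} {C u : ℝ} {F : ℝ → ℂ} (h0 : a 0 = 0) (hC : ∀ n : ℕ, ‖a n‖ ≤ C * n)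
    (hu : 0 < u)
    (hF : ∀ y : ℝ, 0 < y → HasSum (fun n : ℕ => a n * Real.exp (-2 * π * n * y)) (F y)) :
    2 * π * ∫ y in Set.Ioi u, F y = ∑' n : ℕ, a n / n * Real.exp (-2 * π * n * u) := by
  have hπ := Real.pi_pos
  have hneg : ∀ n : ℕ, n ≠ 0 → -2 * π * n < 0 := fun n hn => by
    have : (0 : ℝ) < n := by positivity
    nlinarith [mul_pos hπ this]
  have h1 : ∀ n : ℕ, Integrable (fun y : ℝ => a n * (Real.exp (-2 * π * n * y) : ℂ))
      (volume.restrict (Set.Ioi u)) := fun n => by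
    rcases eq_or_ne n 0 with rfl | hn
    · simp [h0]
    · exact (integrableOn_exp_mul_Ioi (hneg n hn) u).ofReal.const_mul _
  have h2 : ∀ n : ℕ, ∫ y in Set.Ioi u, ‖a n * (Real.exp (-2 * π * n * y) : ℂ)‖ ≤
      C / (2 * π) * Real.exp (-2 * π * u) ^ n := fun n => by
    rcases eq_or_ne n 0 with rfl | hn
    · have := (norm_nonneg _).trans (hC 1)
      simp only [h0, zero_mul, norm_zero, integral_zero]
      rw [Nat.cast_one, mul_one] at this
      positivity
    · have hn' : (0 : ℝ) < n := by positivity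
      simp only [norm_mul, norm_real, Real.norm_eq_abs, Real.abs_exp]
      rw [integral_const_mul, integral_exp_mul_Ioi (hneg n hn), ← Real.exp_nat_mul,
        show (n : ℝ) * (-2 * π * u) = -2 * π * n * u by ring,
        show -Real.exp (-2 * π * n * u) / (-2 * π * n) =
          1 / (2 * π * n) * Real.exp (-2 * π * n * u) by field_simp, ← mul_assoc]
      refine mul_le_mul_of_nonneg_right ?_ (Real.exp_pos _).le
      rw [mul_one_div, div_le_div_iff₀ (by positivity) (by positivity)]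
      nlinarith [mul_le_mul_of_nonneg_right (hC n) (show 0 ≤ 2 * π by positivity)]
  have h3 : Summable fun n : ℕ => ∫ y in Set.Ioi u, ‖a n * (Real.exp (-2 * π * n * y) : ℂ)‖ :=
    Summable.of_nonneg_of_le (fun n => integral_nonneg fun _ => norm_nonneg _) h2
      ((summable_geometric_of_lt_one (Real.exp_pos _).le
        (Real.exp_lt_one_iff.2 (by nlinarith [mul_pos hπ hu]))).mul_left _)
  have h4 := hasSum_integral_of_summable_integral_norm h1 h3
  rw [setIntegral_congr_fun measurableSet_Ioi fun y hy => (hF y (hu.trans hy)).tsum_eq] at h4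
  rw [← h4.tsum_eq, ← tsum_mul_left]
  refine tsum_congr fun n => ?_
  rcases eq_or_ne n 0 with rfl | hn
  · simp [h0]
  · have : (π : ℂ) ≠ 0 := ofReal_ne_zero.2 hπ.ne'
    have : (n : ℂ) ≠ 0 := Nat.cast_ne_zero.2 hn
    rw [integral_const_mul, integral_complex_ofReal, integral_exp_mul_Ioi (hneg n hn)]
    generalize Real.exp (-2 * π * n * u) = E
    push_cast
    field_simp

/-- the substitution on the lower part of the axis -/
theorem head {F : ℝ → ℂ} {M u : ℝ} {ε : ℂ} (hM : 0 < M) (hu : 0 < u)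
    (hF : ∀ y : ℝ, 0 < y → F (1 / (M * y)) = ε * M * y ^ 2 * F y) :
    ∫ y in Set.Ioo 0 u, F y = ε * ∫ y in Set.Ioi (1 / (M * u)), F y := by
  have hv : 0 < 1 / (M * u) := by positivity
  have him : (fun y : ℝ => 1 / (M * y)) '' Set.Ioi (1 / (M * u)) = Set.Ioo 0 u := by
    ext t
    constructor
    · rintro ⟨y, hy, rfl⟩
      have hy0 : 0 < y := hv.trans hy
      refine ⟨by positivity, ?_⟩
      rw [Set.mem_Ioi, div_lt_iff₀ (by positivity)] at hy
      rw [div_lt_iff₀ (by positivity)]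
      linarith
    · rintro ⟨h1, h2⟩
      refine ⟨1 / (M * t), one_div_lt_one_div_of_lt (by positivity)
        (mul_lt_mul_of_pos_left h2 hM), ?_⟩
      field_simp
  rw [← him, integral_image_eq_integral_abs_deriv_smul (f' := fun y => -(1 / (M * y ^ 2)))
    measurableSet_Ioi (fun y hy => ?_) (fun y hy y' hy' h => ?_), ← integral_const_mul]
  · refine setIntegral_congr_fun measurableSet_Ioi fun y hy => ?_
    have hy0 : 0 < y := hv.trans hy
    have : (y : ℂ) ≠ 0 := ofReal_ne_zero.2 hy0.ne'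
    have : (M : ℂ) ≠ 0 := ofReal_ne_zero.2 hM.ne'
    beta_reduce
    rw [hF y hy0, abs_neg, abs_of_pos (by positivity), real_smul]
    push_cast
    field_simp
  · have hy0 : 0 < y := hv.trans hy
    have := ((hasDerivAt_inv hy0.ne').const_mul M⁻¹).hasDerivWithinAt (s := Set.Ioi (1 / (M * u)))
    simpa only [one_div, mul_inv, mul_neg] using this
  · have h1 : 1 / (M * y) = 1 / (M * y') := h
    rw [one_div, one_div, inv_inj] at h1
    exact mul_left_cancel₀ hM.ne' h1

theorem fe (K : KitS) {F : ℍ → ℂ} {ε : ℂ} (h : sl F (WN N) = fun z => -ε * F z) (y : ℝ)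
    (hy : 0 < y) : F (pt 0 (1 / (N * y))) = ε * (N : ℝ) * y ^ 2 * F (pt 0 y) := by
  have hN : 0 < N := Nat.pos_of_ne_zero (NeZero.ne N)
  have hd : 0 < det (WN N) := by simpa [det, WN] using hN
  have h1 : (y : ℂ) ≠ 0 := ofReal_ne_zero.2 hy.ne'
  have h2 : (N : ℂ) ≠ 0 := Nat.cast_ne_zero.2 hN.ne'
  have h3 : ac (WN N) (pt 0 y) = pt 0 (1 / (N * y)) := by
    refine UpperHalfPlane.ext ?_
    rw [K.coez _ _ hd, (K.ptc 0 y hy).1, (K.ptc 0 _ (by positivity)).1]
    simp only [WN]
    push_cast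
    have := I_ne_zero
    simp only [zero_mul, zero_add, add_zero]
    field_simp
    rw [I_sq]
  have h4 := congrFun h (pt 0 y)
  rw [K.slz _ _ _ hd, h3, (K.ptc 0 y hy).1] at h4
  simp only [WN, det] at h4
  push_cast at h4 ⊢
  simp only [zero_add, add_zero, mul_pow, I_sq] at h4
  field_simp at h4
  exact mul_left_cancel₀ h2 (by linear_combination -h4)

end AfA

open AfA

theorem afOf : AfOf := by
  intro K Q _ N f hN
  have : NeZero N := ⟨hN.ne_zero⟩
  obtain ⟨h0, ⟨C, hC⟩, hs, -⟩ := Q N f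
  obtain ⟨L, h1, h2, h3⟩ := exL f h0
  refine ⟨⟨L, h1, h2, h3⟩, fun L' k1 k2 => by rw [uniq k1 h1 k2 h2, h3], fun ε u hu he => ?_⟩
  have hN' : (0 : ℝ) < N := Nat.cast_pos.2 hN.pos
  have hF : ∀ y : ℝ, 0 < y →
      HasSum (fun n : ℕ => co f n * Real.exp (-2 * π * n * y)) (f (pt 0 y)) := fun y hy => by
    refine (congrArg (HasSum · _) (funext fun n => ?_)).mp (hs (pt 0 y))
    rw [ee, (K.ptc 0 y hy).1, ofReal_exp]
    congr 2
    push_cast
    linear_combination (2 * π * n * y : ℂ) * I_sq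
  have hi := integ f
  rw [Lc, ← Set.Ioc_union_Ioi_eq_Ioi hu.le, setIntegral_union (Set.Ioc_disjoint_Ioi le_rfl)
    measurableSet_Ioi (hi.mono_set Set.Ioc_subset_Ioi_self)
    (hi.mono_set (Set.Ioi_subset_Ioi hu.le)), integral_Ioc_eq_integral_Ioo,
    head (F := fun y => f (pt 0 y)) hN' hu (fe K he), mul_add, tail h0 hC hu hF, mul_left_comm,
    tail h0 hC (by positivity) hF, add_comm]
  simp only [mul_one_div]

end Pool.Agent.MP_20b2fd_nt.H38
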