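import Pool.Agent.MP_20b2fd_nt.H38.SpecA

/-! The spectral data of the eigenforms. -/

set_option autoImplicit false

namespace Pool.Agent.MP_20b2fd_nt.H38

open UpperHalfPlane hiding I
open MeasureTheory Complex Finset Filter Topology
open scoped ModularForm Real Manifold ENNReal

namespace AutA

theorem ip_conj (N : ℕ) (F G : ℍ → ℂ) : ip N G F = (starRingEnd ℂ) (ip N F G) := by
  unfold ip
  rw [← integral_conj]
  refine integral_congr_ae (Eventually.of_forall fun z => ?_)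
  simp only [pe, map_mul, map_pow, conj_ofReal, conj_conj]
  ring

theorem ip_self (N : ℕ) (F : ℍ → ℂ) : ip N F F = ((ip N F F).re : ℝ) :=
  (conj_eq_iff_re.1 (ip_conj N F F).symm).symm

open Classical in
/-- the sign -/
noncomputable def ep (N : ℕ) (f : ℍ → ℂ) : ℝ := if sl f (WN N) = -f then 1 else -1

/-- the weight -/
noncomputable def om (N : ℕ) (f : ℍ → ℂ) : ℝ := 1 / (4 * π * (ip N f f).re)

/-- the coefficients -/
noncomputable def ar (f : ℍ → ℂ) (n : ℕ) : ℝ := (co f n).re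

theorem ep_sgn (N : ℕ) (f : ℍ → ℂ) : ep N f = 1 ∨ ep N f = -1 := by
  unfold ep
  split_ifs
  exacts [Or.inl rfl, Or.inr rfl]

theorem ep_one {N : ℕ} {f : ℍ → ℂ} : ep N f = 1 ↔ sl f (WN N) = -f := by
  unfold ep
  split_ifs with h
  · simp [h]
  · simp only [h, iff_false]
    norm_num

theorem ep_sl {N : ℕ} {f : CF N} (h : f ∈ EE N) :
    sl f (WN N) = fun z => -(ep N f : ℂ) * f z := by
  unfold ep
  split_ifs with k
  · rw [k]
    funext z
    simp
  · rw [h.2.2.resolve_right k]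
    funext z
    simp

theorem ipf (kit : KitS) (et : EtaS) (de : DecS) {N : ℕ} (hN : N.Prime) {F : ℍ → ℂ}
    (hm : Measurable F) (hd : Dec F) : IP N F F := by
  obtain ⟨C, hC⟩ := de.im' F hd
  obtain ⟨-, -, hi, -⟩ := et.2 N hN
  refine Integrable.mul_bdd (c := C ^ 2) hi.ofReal (kit.mpe F F hm hm).aestronglyMeasurable
    (Eventually.of_forall fun z => ?_)
  have h1 : 0 ≤ z.im * ‖F z‖ := mul_nonneg z.im_pos.le (norm_nonneg _)
  calc ‖pe F F z‖ = (z.im * ‖F z‖) ^ 2 := by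
        simp only [pe, norm_mul, norm_pow, RCLike.norm_conj, norm_real, Real.norm_eq_abs, sq_abs]
        ring
    _ ≤ C ^ 2 := pow_le_pow_left₀ h1 (hC z) 2

end AutA

open AutA in
theorem autOf : AutOf := by
  intro kit et de qx cu hq rs eig bes af pd pee ls ph xf
  classical
  obtain ⟨C₁, c1', hP⟩ := pd
  obtain ⟨C₂, c2', hL⟩ := ls
  choose! c₀ hc using xf
  refine ⟨C₁ + C₂, c₀, by linarith, fun N hN => ?_⟩
  have : NeZero N := ⟨hN.ne_zero⟩
  have N0 : (0 : ℝ) < N := by exact_mod_cast hN.pos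
  obtain ⟨E, hE, e1, e2⟩ := eig N hN
  have mE : ∀ f ∈ E, f ∈ EE N := fun f hf => hE ▸ Finset.mem_coe.2 hf
  let φ : Fin E.card → CF N := fun i => E.equivFin.symm i
  have φE : ∀ i, φ i ∈ E := fun i => (E.equivFin.symm i).2
  have φi : Function.Injective φ := Subtype.val_injective.comp E.equivFin.symm.injective
  have φs : ∀ f ∈ E, ∃ i, φ i = f := fun f hf => ⟨E.equivFin ⟨f, hf⟩, by simp [φ]⟩
  have hs : ∀ F : CF N → ℝ, ∑ i, F (φ i) = ∑ g ∈ E, F g := fun F =>
    (E.equivFin.symm.sum_comp fun x => F x).trans (Finset.sum_coe_sort E F)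
  have re : ∀ f ∈ E, co f = fun n => (ar f n : ℂ) := fun f hf => funext fun n =>
    Complex.ext rfl ((e1 f hf).2.1 n)
  have tw : ∀ f ∈ E, ⇑((-(ep N f : ℂ)) • f) = sl f (WN N) := fun f hf => by
    rw [ep_sl (mE f hf)]
    rfl
  have cw : ∀ f ∈ E, ∀ n, co (sl f (WN N)) n = -(ep N f : ℂ) * ar f n := fun f hf n => by
    rw [← tw f hf, ((qx N f).2.2.2.2.2.2 f _ n).2, re f hf]
  have lc : ∀ f ∈ E, ∀ u : ℝ, 0 < u → Lc f =
      (((∑' n : ℕ, ar f n / n * Real.exp (-2 * π * n * u)) +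
        ep N f * ∑' n : ℕ, ar f n / n * Real.exp (-2 * π * n / (N * u)) : ℝ) : ℂ) :=
    fun f hf u hu => by
    rw [(af N f hN).2.2 _ u hu (ep_sl (mE f hf)), re f hf]
    simp only [ofReal_add, ofReal_mul, ofReal_tsum, ofReal_div, ofReal_natCast]
  have lr : ∀ f ∈ E, Lc f = ((Lc f).re : ℝ) := fun f hf => by
    rw [lc f hf 1 one_pos, ofReal_re]
  have be : ∀ G : ℍ → ℂ, Measurable G → IP N G G →
      ∑ f ∈ E, ‖ip N f G‖ ^ 2 / (ip N f f).re ≤ (ip N G G).re := fun G h1 h2 =>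
    bes N (CF N) E (fun f => f) G hN h1 h2 fun f hf =>
      have k := (cu N hN).1 f
      ⟨k.2.2.1, ipf kit et de hN k.2.2.1 k.2.2.2.1, (e1 f hf).1, (e1 f hf).2.2.1⟩
  have π0 := Real.pi_pos
  refine ⟨⟨E.card, fun i => om N (φ i), fun i => ar (φ i), fun i => ep N (φ i),
    fun i => (Lc (φ i)).re⟩, ⟨fun i => ?_, fun i => ep_sgn _ _, fun i => ?_, fun i => ?_,
      fun i m n h1 h2 h3 => ?_, fun i n => ?_, fun i => ?_, fun i u hu => ?_, fun n hn => ?_,
      fun K b h1 h2 => ?_, fun i => ?_⟩, fun U hU ι J n x h1 h2 => ?_, ?_, ?_⟩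
  · have := (e1 _ (φE i)).1
    exact one_div_pos.2 (by positivity)
  · exact congrArg Complex.re (mE _ (φE i)).1
  · exact congrArg Complex.re (qx N (φ i)).1
  · have := (e1 _ (φE i)).2.2.2.2 m n h1 h2 h3
    rw [re _ (φE i)] at this
    simp only [Bh] at this ⊢
    exact_mod_cast this
  · have := (hq N (φ i) hN).2 _ (tw _ (φE i)) n
    rw [tw _ (φE i), cw _ (φE i), re _ (φE i), neg_mul, neg_neg, ← ofReal_mul] at this
    exact ofReal_injective this
  · obtain ⟨D, hD⟩ := (qx N (φ i)).2.1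
    exact ⟨D, fun n => (abs_re_le_norm _).trans (hD n)⟩
  · exact (congrArg Complex.re (lc _ (φE i) u hu)).trans (ofReal_re _)
  · obtain ⟨P, Q, p1, -, p3, -, -, p6⟩ := hP N hN
    have w : ∀ g ∈ E, ip N P g / ip N g g = om N g := fun g hg => by
      rw [ip_conj N g P, p1, pee N g hN, (mE g hg).1, ip_self N g, om]
      simp only [map_div₀, map_mul, map_one, conj_ofReal, map_ofNat]
      push_cast
      rw [div_div]
    have q1 : co P n = ((∑ i, om N (φ i) * ar (φ i) n : ℝ) : ℂ) := by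
      rw [hs fun g => om N g * ar g n, (e2 P n).1]
      push_cast
      exact Finset.sum_congr rfl fun g hg => by rw [w g hg, re g hg]
    have q2 : co Q n = -((∑ i, om N (φ i) * ep N (φ i) * ar (φ i) n : ℝ) : ℂ) := by
      rw [hs fun g => om N g * ep N g * ar g n, (e2 P n).2 Q p3]
      push_cast
      rw [← Finset.sum_neg_distrib]
      exact Finset.sum_congr rfl fun g hg => by rw [w g hg, cw g hg]; ring
    have q3 : ‖co P n - if n = 1 then 1 else 0‖
        = |∑ i, om N (φ i) * ar (φ i) n - if n = 1 then 1 else 0| := by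
      rw [q1, ← Real.norm_eq_abs, ← norm_real]
      split_ifs <;> simp
    have q4 : ‖co Q n‖ = |∑ i, om N (φ i) * ep N (φ i) * ar (φ i) n| := by
      rw [q2, norm_neg, norm_real, Real.norm_eq_abs]
    obtain ⟨r1, r2, r3, r4⟩ := p6 n hn
    rw [q3] at r1 r3
    rw [q4] at r2 r4
    have c : C₁ ≤ C₁ + C₂ := by linarith
    exact ⟨r1.trans (by gcongr), r2.trans (by gcongr), r3.trans (by gcongr), r4.trans (by gcongr)⟩
  · obtain ⟨G, g1, g2, g3, g4⟩ := hL N K b hN h1 h2
    refine le_trans ?_ (((be G g1 g2).trans g3).trans (by gcongr; linarith))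
    rw [← hs fun f => ‖ip N f G‖ ^ 2 / (ip N f f).re]
    refine Finset.sum_le_sum fun i _ => ?_
    have r := (e1 _ (φE i)).1
    have : ip N (φ i) G = ((∑ k ∈ Ico K (2 * K), b k * ar (φ i) (k ^ 2) / k : ℝ) : ℂ) := by
      rw [g4, re _ (φE i)]
      push_cast
      rfl
    rw [this, norm_real, Real.norm_eq_abs, sq_abs]
    simp only [om]
    rw [div_mul_eq_mul_div, one_mul]
    gcongr
    nlinarith [Real.pi_gt_three]
  · have r := (e1 _ (φE i)).1
    have := ((rs N (φ i) _ hN (tw _ (φE i))).2).div_const (ip N (φ i) (φ i)).re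
    rw [div_self r.ne'] at this
    refine (congrArg (HasSum · (1 : ℝ)) (funext fun n => ?_)).mp this
    rw [tw _ (φE i), cw _ (φE i), re _ (φE i)]
    have s : ‖(ep N (φ i) : ℂ)‖ = 1 := by
      rcases ep_sgn N (φ i) with h | h <;> simp [h]
    simp only [norm_mul, norm_neg, s, one_mul, norm_real, Real.norm_eq_abs, sq_abs, om, kap]
    by_cases n0 : n = 0
    · have : ar (φ i) 0 = 0 := congrArg Complex.re (qx N (φ i)).1
      simp [n0, this]
    · have : (n : ℝ) ≠ 0 := by exact_mod_cast n0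
      field_simp
  · obtain ⟨G, g1, g2, g3, g4⟩ := hc U hU N ι J n x hN h1 h2
    have c0 : 0 < c1 U := by
      have := (ph U hU).2.1
      have : 2 / U ≤ 2 := div_le_self zero_le_two hU
      linarith [Real.pi_gt_three]
    have k := be G g1 g2
    rw [g3, ← hs fun f => ‖ip N f G‖ ^ 2 / (ip N f f).re] at k
    refine le_trans (le_of_eq ?_) ((mul_le_mul_of_nonneg_left k
      (by positivity : 0 ≤ π / (4 * c1 U ^ 2))).trans (le_of_eq (by ring)))
    rw [Finset.mul_sum]
    refine Finset.sum_congr rfl fun i _ => ?_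
    have r := (e1 _ (φE i)).1
    have : ip N (φ i) G
        = I * ((c1 U / π * ((Lc (φ i)).re * ∑ j ∈ J, x j * ar (φ i) (n j)) : ℝ) : ℂ) := by
      rw [g4 _ (mE _ (φE i)).1 (e1 _ (φE i)).2.2.2.1, re _ (φE i)]
      push_cast
      rw [← lr _ (φE i)]
      ring
    rw [this, norm_mul, norm_I, one_mul, norm_real, Real.norm_eq_abs, sq_abs]
    simp only [om]
    field_simp
  · rw [← Set.ncard_coe_finset, ← Set.ncard_image_of_injective _ φi]
    congr 1
    ext f
    simp only [Hp, coe_filter, mem_univ, true_and, Set.mem_image, Set.mem_ofPred_eq, ep_one]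
    refine ⟨fun h => ?_, ?_⟩
    · obtain ⟨i, rfl⟩ := φs f (by rw [← Finset.mem_coe, hE]; exact h.1)
      exact ⟨i, h.2, rfl⟩
    · rintro ⟨i, h, rfl⟩
      exact ⟨mE _ (φE i), h⟩
  · rw [← Set.ncard_coe_finset, ← Set.ncard_image_of_injective _ φi]
    congr 1
    ext f
    simp only [Hn, Hp, coe_filter, mem_univ, true_and, Set.mem_image, Set.mem_ofPred_eq, ep_one]
    refine ⟨fun h => ?_, ?_⟩
    · obtain ⟨i, rfl⟩ := φs f (by rw [← Finset.mem_coe, hE]; exact h.1.1)
      exact ⟨i, ⟨h.1.2, fun e => h.2 (by rw [lr _ (φE i), e, ofReal_zero])⟩, rfl⟩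
    · rintro ⟨i, h, rfl⟩
      exact ⟨⟨mE _ (φE i), h.1⟩, fun e => h.2 (by rw [e, zero_re])⟩

end Pool.Agent.MP_20b2fd_nt.H38
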