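import Pool.Agent.MP_20b2fd_nt.H38.SpecA

/-! The Bessel inequality for the Petersson product. -/

set_option autoImplicit false

namespace Pool.Agent.MP_20b2fd_nt.H38

open UpperHalfPlane hiding I
open MeasureTheory Complex Finset

namespace BesA

theorem abs {V ι : Type} [NormedAddCommGroup V] [InnerProductSpace ℂ V] [Fintype ι] (v : ι → V)
    (g : V) (h0 : ∀ i, v i ≠ 0) (h : Pairwise fun i j => inner ℂ (v i) (v j) = 0) :
    ∑ i, ‖inner ℂ g (v i)‖ ^ 2 / ‖v i‖ ^ 2 ≤ ‖g‖ ^ 2 := by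
  have o : Orthonormal ℂ fun i => ((‖v i‖⁻¹ : ℝ) : ℂ) • v i :=
    ⟨fun i => by simp [norm_smul, h0 i], fun i j hij => by
      simp only [inner_smul_left, inner_smul_right, h hij, mul_zero]⟩
  refine le_of_eq_of_le (sum_congr rfl fun i _ => ?_) (o.sum_inner_products_le g (s := univ))
  rw [inner_smul_left, norm_mul, norm_inner_symm g, RCLike.norm_conj, norm_real, norm_inv,
    norm_norm, mul_pow, inv_pow, div_eq_inv_mul]

noncomputable def w (N : ℕ) (F : ℍ → ℂ) (z : ℍ) : ℂ := (√(eta N z) * z.im : ℝ) * F z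

theorem w_inner {N : ℕ} (h0 : ∀ z, 0 ≤ eta N z) (F G : ℍ → ℂ) (z : ℍ) :
    inner ℂ (w N G z) (w N F z) = eta N z * pe F G z := by
  have : ((√(eta N z) : ℝ) : ℂ) ^ 2 = eta N z := by rw [← ofReal_pow, Real.sq_sqrt (h0 z)]
  simp only [w, pe, RCLike.inner_apply, map_mul, conj_ofReal, ofReal_mul]
  linear_combination (F z * (starRingEnd ℂ) (G z) * (z.im : ℂ) ^ 2) * this

theorem mem {N : ℕ} (hm : Measurable (eta N)) (h0 : ∀ z, 0 ≤ eta N z) {F : ℍ → ℂ}
    (hF : Measurable F) (h : IP N F F) : MemLp (w N F) 2 := by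
  refine (memLp_two_iff_integrable_sq_norm ((measurable_ofReal.comp (hm.sqrt.mul
    UpperHalfPlane.continuous_im.measurable)).mul hF).aestronglyMeasurable).2
    (h.norm.congr (.of_forall fun z => ?_))
  simp only [← w_inner h0, inner_self_eq_norm_sq_to_K, norm_pow, RCLike.norm_ofReal, abs_norm]
  rfl

theorem inner_eq {N : ℕ} (h0 : ∀ z, 0 ≤ eta N z) {F G : ℍ → ℂ} (hF : MemLp (w N F) 2)
    (hG : MemLp (w N G) 2) : inner ℂ (hG.toLp _) (hF.toLp _) = ip N F G := by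
  rw [L2.inner_def]
  refine integral_congr_ae ?_
  filter_upwards [hF.coeFn_toLp, hG.coeFn_toLp] with z h1 h2
  rw [h1, h2, w_inner h0]

theorem norm_eq {N : ℕ} (h0 : ∀ z, 0 ≤ eta N z) {F : ℍ → ℂ} (hF : MemLp (w N F) 2) :
    ‖hF.toLp _‖ ^ 2 = (ip N F F).re := by
  rw [← inner_eq h0 hF hF, ← inner_self_eq_norm_sq (𝕜 := ℂ)]
  rfl

end BesA

open BesA in
theorem besOf : BesOf := by
  intro k e N ι J f G hN hG iG hf
  obtain ⟨hm, h0, -⟩ := e.2 N hN
  have mG := mem hm h0 hG iG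
  have mf : ∀ i : J, MemLp (w N (f i)) 2 := fun i => mem hm h0 (hf i i.2).1 (hf i i.2).2.1
  have := abs (fun i : J => (mf i).toLp _) (mG.toLp _) (fun i h => by
    have := (hf i i.2).2.2.1
    rw [← norm_eq h0 (mf i), h] at this
    simp at this) fun i j hij => (inner_eq h0 _ _).trans
      ((hf j j.2).2.2.2 i i.2 fun h => hij (Subtype.ext h.symm))
  simp only [inner_eq h0, norm_eq h0] at this
  rwa [sum_coe_sort J fun i => ‖ip N (f i) G‖ ^ 2 / (ip N (f i) (f i)).re] at this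

end Pool.Agent.MP_20b2fd_nt.H38
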