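import Pool.Agent.MP_20b2fd_nt.H38.Bi1

/-! Superpositions of bumps. -/

set_option autoImplicit false

namespace Pool.Agent.MP_20b2fd_nt.H38

open MeasureTheory Complex Filter Topology Set

namespace BiA

/-- the integrand -/
noncomputable def Ph (U : ℝ) (M : ℝ → ℝ → ℂ) (j : ℕ) (t : ℝ) (p : ℝ × ℝ) : ℂ :=
  iteratedDeriv j (be U) ((t + p.2) / p.1) / (p.1 : ℂ) ^ (j + 1) * M p.2 p.1

lemma mn_pos {t : ℝ} (h : t ≠ 0) (h' : t ≠ -1) : 0 < mn t :=
  lt_min one_pos (lt_min (abs_pos.2 h) (abs_pos.2 fun e => h' (by linarith)))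

lemma mn_le (t : ℝ) : mn t ≤ 1 ∧ mn t ≤ |t| ∧ mn t ≤ |1 + t| :=
  ⟨min_le_left _ _, (min_le_right _ _).trans (min_le_left _ _),
    (min_le_right _ _).trans (min_le_right _ _)⟩

lemma mn_near {t s : ℝ} (h : |s - t| < mn t / 2) : mn t / 2 ≤ mn s := by
  obtain ⟨h1, h2, h3⟩ := mn_le t
  have h4 := abs_sub_abs_le_abs_sub t s
  have h5 := abs_sub_abs_le_abs_sub (1 + t) (1 + s)
  rw [add_sub_add_left_eq_sub] at h5
  rw [abs_sub_comm] at h
  have := abs_nonneg (t - s)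
  exact le_min (by linarith) (le_min (by linarith) (by linarith))

lemma mn_small {t : ℝ} (h : |t| ≤ 1 / 2) : mn t = |t| := by
  have := abs_le.1 h
  have h1 : |t| ≤ |1 + t| := h.trans (by rw [abs_of_pos (a := 1 + t)] <;> linarith [this.1])
  rw [mn, min_eq_left h1, min_eq_right (by linarith)]

variable {U E : ℝ} {M : ℝ → ℝ → ℂ}

/-- the standing hypotheses -/
structure Hy (U E : ℝ) (M : ℝ → ℝ → ℂ) : Prop where
  hU : 1 ≤ U
  hE : U ≤ E
  hM : Measurable fun p : ℝ × ℝ => M p.1 p.2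
  hb : ∀ x y, 0 < y → ‖M x y‖ ≤ E / y ∧ (M x y ≠ 0 → y ≤ E ∧ (|x| ≤ E * y ∨ |1 - x| ≤ E * y))

lemma Hy.one (H : Hy U E M) : 1 ≤ E := H.hU.trans H.hE

lemma Hy.supp (H : Hy U E M) (j : ℕ) (t y x : ℝ) (hy : 0 < y) (h : Ph U M j t (y, x) ≠ 0) :
    mn t / (3 * E) ≤ y ∧ y ≤ E ∧ |x - -t| ≤ 2 * E * y := by
  have hE := H.one
  obtain ⟨h1, h2⟩ := mul_ne_zero_iff.1 h
  obtain ⟨h3, h4⟩ := (H.hb x y hy).2 h2
  have h5 : |(t + x) / y| ≤ 2 * U := by
    by_contra hn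
    exact h1 (by rw [van U _ j H.hU (not_le.1 hn), zero_div])
  rw [abs_div, abs_of_pos hy, div_le_iff₀ hy] at h5
  have h6 : |t + x| ≤ 2 * E * y := h5.trans (by gcongr; exact H.hE)
  refine ⟨?_, h3, by rwa [sub_neg_eq_add, add_comm]⟩
  rw [div_le_iff₀ (by linarith)]
  obtain ⟨-, a, b⟩ := mn_le t
  rcases h4 with h4 | h4
  · have := abs_sub (t + x) x
    rw [add_sub_cancel_right] at this
    linarith
  · have := abs_add_le (t + x) (1 - x)
    rw [show t + x + (1 - x) = 1 + t by ring] at this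
    linarith

lemma nrm {j : ℕ} {D K t y x : ℝ} (hy : 0 < y) (hD : ∀ u, ‖iteratedDeriv j (be U) u‖ ≤ D)
    (hK : ‖M x y‖ ≤ K) : ‖Ph U M j t (y, x)‖ ≤ D * K / y ^ (j + 1) := by
  have := (norm_nonneg _).trans (hD 0)
  rw [Ph, norm_mul, norm_div, norm_pow, norm_real, Real.norm_of_nonneg hy.le, div_mul_eq_mul_div]
  gcongr
  exact hD _

lemma Hy.nrm (H : Hy U E M) {j : ℕ} {D t y x : ℝ} (hy : 0 < y)
    (hD : ∀ u, ‖iteratedDeriv j (be U) u‖ ≤ D) : ‖Ph U M j t (y, x)‖ ≤ D * E / y ^ (j + 2) :=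
  (BiA.nrm hy hD (H.hb x y hy).1).trans (le_of_eq (by rw [pow_succ y (j + 1)]; field_simp))

lemma Hy.meas (H : Hy U E M) (j : ℕ) (t : ℝ) : AEStronglyMeasurable (Ph U M j t) mu := by
  have h1 := (cont_be U j).measurable
  have h2 : Measurable fun p : ℝ × ℝ => M p.2 p.1 := H.hM.comp measurable_swap
  refine Measurable.aestronglyMeasurable (Measurable.mul (Measurable.div (h1.comp ?_) ?_) h2) <;>
    fun_prop

lemma Hy.dom (H : Hy U E M) (j : ℕ) {t : ℝ} (ht : 0 < mn t) : ∃ g : ℝ × ℝ → ℝ, Integrable g mu ∧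
    ∀ᵐ p ∂mu, ∀ s ∈ Metric.ball t (mn t / 2), ‖Ph U M j s p‖ ≤ g p := by
  obtain ⟨D, hD0, hD⟩ := bd_be j
  have hE := H.one
  refine ⟨_, box E (|t| + 1 + 2 * E * E) (D * E / (mn t / 2 / (3 * E)) ^ (j + 2)), ?_⟩
  filter_upwards [pos_ae] with ⟨y, x⟩ hy s hs
  by_cases h : Ph U M j s (y, x) = 0
  · rw [h, norm_zero]
    exact indicator_nonneg (fun _ _ => by positivity) _
  obtain ⟨h1, h2, h3⟩ := H.supp j s y x hy h
  rw [Metric.mem_ball, Real.dist_eq] at hs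
  have h4 : mn t / 2 / (3 * E) ≤ y := le_trans (by gcongr; exact mn_near hs) h1
  have h5 : |x| ≤ |t| + 1 + 2 * E * E := by
    have a := abs_sub (x - -s) s
    rw [show x - -s - s = x by ring] at a
    have b := abs_sub_abs_le_abs_sub s t
    have c : 2 * E * y ≤ 2 * E * E := by gcongr
    linarith [(mn_le t).1]
  rw [indicator_of_mem (mk_mem_prod (mem_Icc.2 ⟨le_of_lt hy, h2⟩) (mem_Icc.2 (abs_le.1 h5)))]
  refine (H.nrm hy fun u => hD U u H.hU).trans ?_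
  gcongr

lemma Hy.intg (H : Hy U E M) (j : ℕ) {t : ℝ} (ht : 0 < mn t) : Integrable (Ph U M j t) mu := by
  obtain ⟨g, h1, h2⟩ := H.dom j ht
  exact h1.mono' (H.meas j t) (h2.mono fun p hp => hp t (Metric.mem_ball_self (half_pos ht)))

lemma Hy.eq (H : Hy U E M) (j : ℕ) {t : ℝ} (ht : 0 < mn t) :
    BI U M j t = ∫ p, Ph U M j t p ∂mu := (integral_prod _ (H.intg j ht)).symm

lemma Hy.der (H : Hy U E M) (j : ℕ) {t : ℝ} (ht : 0 < mn t) :
    HasDerivAt (BI U M j) (BI U M (j + 1) t) t := by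
  obtain ⟨g, h1, h2⟩ := H.dom (j + 1) ht
  have hb := Metric.ball_mem_nhds t (half_pos ht)
  have h3 := (hasDerivAt_integral_of_dominated_loc_of_deriv_le (F := Ph U M j) hb
    (Eventually.of_forall (H.meas j)) (H.intg j ht) (H.meas (j + 1) t) h2 h1 ?_).2
  · rw [H.eq _ ht]
    refine h3.congr_of_eventuallyEq ?_
    filter_upwards [hb] with s hs
    exact H.eq j ((half_pos ht).trans_le (mn_near hs))
  · filter_upwards [pos_ae] with ⟨y, x⟩ hy s _
    have a : HasDerivAt (fun s : ℝ => (s + x) / y) (1 / y) s :=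
      ((hasDerivAt_id s).add_const x).div_const y
    have b := (((der_be U j ((s + x) / y)).scomp s a).div_const ((y : ℂ) ^ (j + 1))).mul_const
      (M x y)
    refine b.congr_deriv ?_
    simp only [Ph, real_smul, pow_succ (y : ℂ) (j + 1)]
    push_cast
    ring

lemma Hy.ab (H : Hy U E M) {t : ℝ} (ht : 0 < mn t) : 0 < mn t / (3 * E) ∧ mn t / (3 * E) ≤ E := by
  have hE := H.one
  refine ⟨by positivity, ?_⟩
  rw [div_le_iff₀ (by positivity)]
  nlinarith [(mn_le t).1]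

lemma lg {m : ℝ} (hE : 1 ≤ E) (hm : 0 < m) :
    Real.log (E / (m / (3 * E))) ≤ 3 * E + |Real.log m| := by
  rw [show E / (m / (3 * E)) = 3 * E * E / m by field_simp, Real.log_div (by positivity) hm.ne',
    Real.log_mul (by positivity) (by positivity), Real.log_mul (by positivity) (by positivity)]
  have a := Real.log_le_sub_one_of_pos (show (0 : ℝ) < 3 by norm_num)
  have b := Real.log_le_sub_one_of_pos (show 0 < E by linarith)
  linarith [neg_abs_le (Real.log m)]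

lemma lg2 {m : ℝ} (hE : 1 ≤ E) (hm : 0 < m) (h1 : m ≤ 1) :
    Real.log (E / (m / (3 * E))) ≤ 5 * E / √m := by
  refine (lg hE hm).trans ?_
  have s0 : 0 < √m := Real.sqrt_pos.2 hm
  have s1 : √m ≤ 1 := Real.sqrt_le_one.2 h1
  have a := Real.log_le_sub_one_of_pos (inv_pos.2 s0)
  rw [Real.log_inv, Real.log_sqrt hm.le] at a
  rw [abs_of_nonpos (Real.log_nonpos hm.le h1), div_eq_mul_inv]
  have b : 1 ≤ (√m)⁻¹ := (one_le_inv₀ s0).2 s1
  nlinarith

variable {D : ℝ}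

lemma Hy.b0 (H : Hy U E M) (hD : ∀ u, ‖iteratedDeriv 0 (be U) u‖ ≤ D) {t : ℝ} (ht : 0 < mn t) :
    ‖BI U M 0 t‖ ≤ 12 * D * E ^ 3 * (1 + |Real.log (mn t)|) := by
  have hE := H.one
  have hD0 := (norm_nonneg _).trans (hD 0)
  refine (iter1 (F := fun y x => Ph U M 0 t (y, x)) (H.ab ht).1 (H.ab ht).2 (by positivity)
    (H.supp 0 t) fun y x hy => H.nrm hy hD).trans ?_
  have h1 : Real.log (E / (mn t / (3 * E))) ≤ 3 * E * (1 + |Real.log (mn t)|) :=
    (lg hE ht).trans (by nlinarith [abs_nonneg (Real.log (mn t))])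
  calc _ ≤ 2 * (2 * E) * (D * E) * (3 * E * (1 + |Real.log (mn t)|)) := by gcongr
    _ = _ := by ring

lemma Hy.bj (H : Hy U E M) {j : ℕ} (hj : j + 1 ≤ 4)
    (hD : ∀ u, ‖iteratedDeriv (j + 1) (be U) u‖ ≤ D) {t : ℝ} (ht : 0 < mn t) :
    ‖BI U M (j + 1) t‖ ≤ 324 * D * E ^ 6 / mn t ^ (j + 1) := by
  have hE := H.one
  have hD0 := (norm_nonneg _).trans (hD 0)
  refine (iter2 (m := j) (F := fun y x => Ph U M (j + 1) t (y, x)) (H.ab ht).1 (H.ab ht).2
    (by positivity) (by positivity) (H.supp _ t) fun y x hy => H.nrm hy hD).trans ?_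
  rw [div_pow, div_div_eq_mul_div]
  gcongr ?_ / _
  calc _ ≤ 2 * (2 * E) * (D * E) * (3 * E) ^ 4 := by gcongr; linarith
    _ = _ := by ring

lemma Hy.c1 (H : Hy U E M) (hM : ∀ x y, 0 < y → ‖M x y‖ ≤ E)
    (hD : ∀ u, ‖iteratedDeriv 1 (be U) u‖ ≤ D) {t : ℝ} (ht : 0 < mn t) :
    ‖BI U M 1 t‖ ≤ 20 * D * E ^ 3 / √(mn t) := by
  have hE := H.one
  have hD0 := (norm_nonneg _).trans (hD 0)
  refine (iter1 (F := fun y x => Ph U M 1 t (y, x)) (H.ab ht).1 (H.ab ht).2 (by positivity)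
    (H.supp 1 t) fun y x hy => BiA.nrm hy hD (hM x y hy)).trans ?_
  calc _ ≤ 2 * (2 * E) * (D * E) * (5 * E / √(mn t)) := by
        gcongr; exact lg2 hE ht (mn_le t).1
    _ = _ := by ring

lemma Hy.c2 (H : Hy U E M) (hM : ∀ x y, 0 < y → ‖M x y‖ ≤ E)
    (hD : ∀ u, ‖iteratedDeriv 2 (be U) u‖ ≤ D) {t : ℝ} (ht : 0 < mn t) :
    ‖BI U M 2 t‖ ≤ 12 * D * E ^ 3 / mn t := by
  have hE := H.one
  have hD0 := (norm_nonneg _).trans (hD 0)
  refine (iter2 (m := 0) (F := fun y x => Ph U M 2 t (y, x)) (H.ab ht).1 (H.ab ht).2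
    (by positivity) (by positivity) (H.supp _ t)
    fun y x hy => BiA.nrm hy hD (hM x y hy)).trans (le_of_eq ?_)
  rw [zero_add, pow_one]
  field_simp
  ring

lemma Hy.c0 (H : Hy U E M) (hM : ∀ x y, 0 < y → ‖M x y‖ ≤ E)
    (hD : ∀ u, ‖iteratedDeriv 1 (be U) u‖ ≤ D) {t : ℝ} (h0 : t ≠ 0) (h : |t| ≤ 1 / 2) :
    ‖BI U M 0 t - BI U M 0 (-t)‖ ≤ 100 * D * E ^ 3 * √|t| := by
  have hE := H.one
  have hD0 := (norm_nonneg _).trans (hD 0)
  have m1 := mn_small h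
  have m2 : mn (-t) = |t| := by rw [mn_small (by rwa [abs_neg]), abs_neg]
  have t0 := abs_pos.2 h0
  have i1 := H.intg 0 (m1 ▸ t0 : 0 < mn t)
  have i2 := H.intg 0 (m2 ▸ t0 : 0 < mn (-t))
  have ab := H.ab (m1 ▸ t0 : 0 < mn t)
  rw [m1] at ab
  rw [H.eq 0 (m1 ▸ t0), H.eq 0 (m2 ▸ t0), ← integral_sub i1 i2,
    integral_prod (fun p => Ph U M 0 t p - Ph U M 0 (-t) p) (i1.sub i2)]
  have key : ∀ s y x, 0 < y → mn s = |t| → |s| = |t| → Ph U M 0 s (y, x) ≠ 0 →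
      |t| / (3 * E) ≤ y ∧ y ≤ E ∧ |x - 0| ≤ 5 * E * y := fun s y x hy e e' hn => by
    obtain ⟨a, b, c⟩ := H.supp 0 s y x hy hn
    rw [e] at a
    refine ⟨a, b, ?_⟩
    rw [div_le_iff₀ (by positivity)] at a
    have d := abs_sub (x - -s) s
    rw [show x - -s - s = x - 0 by ring] at d
    linarith
  refine (iter1 (F := fun y x => Ph U M 0 t (y, x) - Ph U M 0 (-t) (y, x)) (c := 0) (r := 5 * E)
    (k := 2 * D * E * |t|) ab.1 ab.2 (by positivity) (fun y x hy hn => ?_)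
    fun y x hy => ?_).trans ?_
  · by_cases h1 : Ph U M 0 t (y, x) = 0
    · exact key (-t) y x hy m2 (abs_neg t) fun h2 => hn (by simp [h1, h2])
    · exact key t y x hy m1 rfl h1
  · have a := convex_univ.norm_image_sub_le_of_norm_hasDerivWithin_le (C := D)
      (fun u _ => (der_be U 0 u).hasDerivWithinAt) (fun u _ => hD u)
      (mem_univ ((-t + x) / y)) (mem_univ ((t + x) / y))
    rw [show (t + x) / y - (-t + x) / y = 2 * t / y by ring, Real.norm_eq_abs, abs_div, abs_mul,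
      abs_of_pos hy, abs_two] at a
    simp only [Ph]
    rw [← sub_mul, ← sub_div, norm_mul, norm_div, norm_pow, norm_real, Real.norm_of_nonneg hy.le]
    calc _ ≤ D * (2 * |t| / y) / y ^ (0 + 1) * E := by gcongr; exact hM x y hy
      _ = _ := by rw [zero_add, pow_one]; field_simp
  · have s0 : 0 < √|t| := Real.sqrt_pos.2 t0
    calc _ ≤ 2 * (5 * E) * (2 * D * E * |t|) * (5 * E / √|t|) := by
          gcongr; exact lg2 hE t0 (by linarith)
      _ = 100 * D * E ^ 3 * (|t| / √|t|) := by ring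
      _ = _ := by rw [Real.div_sqrt]

end BiA

open BiA in
theorem bi : BiS := by
  refine ⟨van, ?_⟩
  choose A hA0 hA using bd_be
  obtain ⟨D, hD1, hD⟩ : ∃ D : ℝ, 1 ≤ D ∧
      ∀ (U : ℝ) (j : ℕ), 1 ≤ U → j ≤ 4 → ∀ u, ‖iteratedDeriv j (be U) u‖ ≤ D := by
    have h := Finset.sum_nonneg (s := Finset.range 5) fun i _ => hA0 i
    refine ⟨1 + ∑ i ∈ Finset.range 5, A i, by linarith, fun U j hU hj u => (hA j U u hU).trans ?_⟩
    linarith [Finset.single_le_sum (s := Finset.range 5) (fun i _ => hA0 i)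
      (Finset.mem_range.2 (Nat.lt_succ_of_le hj))]
  refine ⟨324 * D, by linarith, fun U u j hU hj => (hD U j hU hj u).trans (by linarith),
    fun U E M hU hE hM hb => ?_⟩
  have H : Hy U E M := ⟨hU, hE, hM, hb⟩
  have h1 := H.one
  refine ⟨fun j t a b => H.der j (mn_pos a b), fun j t a b => H.intg j (mn_pos a b),
    fun t a b => ⟨(H.b0 (hD U 0 hU (by norm_num)) (mn_pos a b)).trans (by gcongr; norm_num),
      fun j c d => ?_⟩, fun hK t a b => ?_⟩
  · obtain ⟨j, rfl⟩ := Nat.exists_eq_add_of_le' c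
    exact H.bj d (hD U _ hU d) (mn_pos a b)
  · have m := mn_small b
    have t0 : 0 < mn t := m ▸ abs_pos.2 a
    refine ⟨(H.c0 hK (hD U 1 hU (by norm_num)) a b).trans (by gcongr; norm_num), ?_, ?_⟩
    · rw [← m]
      exact (H.c1 hK (hD U 1 hU (by norm_num)) t0).trans (by gcongr; norm_num)
    · rw [← m]
      exact (H.c2 hK (hD U 2 hU (by norm_num)) t0).trans (by gcongr; norm_num)

end Pool.Agent.MP_20b2fd_nt.H38
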