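import Pool.Agent.MP_20b2fd_nt.H38.SpecA

/-! Row Cos: coset representatives of the Hecke operator. -/

set_option autoImplicit false

namespace Pool.Agent.MP_20b2fd_nt.H38

open UpperHalfPlane hiding I
open Finset

namespace CosA

theorem mt_ext {g h : Mt} (h1 : g.1 = h.1) (h2 : g.2.1 = h.2.1) (h3 : g.2.2.1 = h.2.2.1)
    (h4 : g.2.2.2 = h.2.2.2) : g = h :=
  Prod.ext h1 (Prod.ext h2 (Prod.ext h3 h4))

theorem det_mul (g h : Mt) : det (mul g h) = det g * det h := by
  simp only [det, mul]; ring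

theorem mul_assoc' (g h k : Mt) : mul (mul g h) k = mul g (mul h k) := by
  apply mt_ext <;> simp only [mul] <;> ring

theorem one_mul' (g : Mt) : mul (1, 0, 0, 1) g = g := by
  apply mt_ext <;> simp [mul]

theorem adj_mul (g : Mt) (h : det g = 1) : mul (adj g) g = (1, 0, 0, 1) := by
  simp only [det] at h
  apply mt_ext <;> simp only [mul, adj] <;> linarith

theorem cancel_r {g h w : Mt} (hw : det w ≠ 0) (e : mul g w = mul h w) : g = h := by
  have e1 := congrArg (fun x : Mt => x.1) e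
  have e2 := congrArg (fun x : Mt => x.2.1) e
  have e3 := congrArg (fun x : Mt => x.2.2.1) e
  have e4 := congrArg (fun x : Mt => x.2.2.2) e
  simp only [mul] at e1 e2 e3 e4
  apply mt_ext <;> apply mul_left_cancel₀ hw <;> simp only [det]
  · linear_combination w.2.2.2 * e1 - w.2.2.1 * e2
  · linear_combination w.1 * e2 - w.2.1 * e1
  · linear_combination w.2.2.2 * e3 - w.2.2.1 * e4
  · linear_combination w.1 * e4 - w.2.1 * e3

theorem cancel_l {g h w : Mt} (hw : det w ≠ 0) (e : mul w g = mul w h) : g = h := by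
  have e1 := congrArg (fun x : Mt => x.1) e
  have e2 := congrArg (fun x : Mt => x.2.1) e
  have e3 := congrArg (fun x : Mt => x.2.2.1) e
  have e4 := congrArg (fun x : Mt => x.2.2.2) e
  simp only [mul] at e1 e2 e3 e4
  apply mt_ext <;> apply mul_left_cancel₀ hw <;> simp only [det]
  · linear_combination w.2.2.2 * e1 - w.2.1 * e3
  · linear_combination w.2.2.2 * e2 - w.2.1 * e4
  · linear_combination w.1 * e3 - w.2.2.1 * e1
  · linear_combination w.1 * e4 - w.2.2.1 * e2

theorem mul_mem {N m n : ℕ} {g h : Mt} (hg : g ∈ MM N m) (hh : h ∈ MM N n) :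
    mul g h ∈ MM N (m * n) := by
  refine ⟨by rw [det_mul, hg.1, hh.1]; push_cast; ring, ?_⟩
  simp only [mul]
  exact dvd_add (hg.2.mul_right _) (hh.2.mul_left _)

theorem adj_mem {N m : ℕ} {g : Mt} (hg : g ∈ MM N m) : adj g ∈ MM N m := by
  refine ⟨?_, ?_⟩
  · rw [← hg.1]; simp only [det, adj]; ring
  · simp only [adj]; exact (dvd_neg).2 hg.2

theorem one_mem (N : ℕ) : ((1, 0, 0, 1) : Mt) ∈ MM N 1 := ⟨by simp [det], by simp⟩

theorem rp_mem (N p i : ℕ) : rp p i ∈ MM N p := by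
  unfold rp
  split_ifs <;> exact ⟨by simp [det], by simp⟩

theorem rp_c (p i : ℕ) : (rp p i).2.2.1 = 0 := by
  unfold rp
  split_ifs <;> rfl

/-- the congruence condition for the representative of index `i` -/
def cnd (p : ℕ) (g : Mt) (i : ℕ) : Prop :=
  if i < p then (p : ℤ) ∣ g.2.1 - g.1 * i ∧ (p : ℤ) ∣ g.2.2.2 - g.2.2.1 * i
  else (p : ℤ) ∣ g.1 ∧ (p : ℤ) ∣ g.2.2.1

theorem ex_iff {N p m : ℕ} (hN : N.Prime) (hp : p.Prime) (hne : p ≠ N) {g : Mt}
    (hg : g ∈ MM N (p * m)) (i : ℕ) :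
    (∃ h ∈ MM N m, g = mul h (rp p i)) ↔ cnd p g i := by
  have hp0 : (p : ℤ) ≠ 0 := by exact_mod_cast hp.ne_zero
  obtain ⟨a, b, c, d⟩ := g
  obtain ⟨hd, hc⟩ := hg
  simp only [det] at hd hc
  push_cast at hd
  unfold cnd rp
  split_ifs with hi
  · constructor
    · rintro ⟨⟨a', b', c', d'⟩, -, e⟩
      simp only [mul, Prod.mk.injEq] at e
      obtain ⟨rfl, rfl, rfl, rfl⟩ := e
      exact ⟨⟨b', by ring⟩, ⟨d', by ring⟩⟩
    · rintro ⟨⟨u, hu⟩, ⟨v, hv⟩⟩
      simp only at hu hv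
      refine ⟨(a, u, c, v), ⟨?_, hc⟩, ?_⟩
      · simp only [det]
        apply mul_left_cancel₀ hp0
        linear_combination hd - a * hv + c * hu
      · apply mt_ext <;> simp only [mul]
        · ring
        · linear_combination hu
        · ring
        · linear_combination hv
  · constructor
    · rintro ⟨⟨a', b', c', d'⟩, -, e⟩
      simp only [mul, Prod.mk.injEq] at e
      obtain ⟨rfl, rfl, rfl, rfl⟩ := e
      exact ⟨⟨a', by ring⟩, ⟨c', by ring⟩⟩
    · rintro ⟨⟨u, hu⟩, ⟨v, hv⟩⟩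
      simp only at hu hv
      subst hu hv
      refine ⟨(u, b, v, d), ⟨?_, ?_⟩, ?_⟩
      · simp only [det]
        apply mul_left_cancel₀ hp0
        linear_combination hd
      · have hcop : IsCoprime (N : ℤ) (p : ℤ) :=
          Nat.isCoprime_iff_coprime.2 ((Nat.coprime_primes hN hp).2 (Ne.symm hne))
        exact hcop.dvd_of_dvd_mul_left hc
      · apply mt_ext <;> simp only [mul] <;> ring

theorem smu_iff (p : ℕ) (g : Mt) : (∃ h : Mt, g = smu p h) ↔
    (p : ℤ) ∣ g.1 ∧ (p : ℤ) ∣ g.2.1 ∧ (p : ℤ) ∣ g.2.2.1 ∧ (p : ℤ) ∣ g.2.2.2 := by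
  constructor
  · rintro ⟨h, rfl⟩
    simp only [smu]
    exact ⟨dvd_mul_right _ _, dvd_mul_right _ _, dvd_mul_right _ _, dvd_mul_right _ _⟩
  · rintro ⟨⟨a, ha⟩, ⟨b, hb⟩, ⟨c, hc⟩, ⟨d, hd⟩⟩
    exact ⟨(a, b, c, d), mt_ext ha hb hc hd⟩

theorem cnd_all {p : ℕ} {g : Mt} (h : ∃ h : Mt, g = smu p h) (i : ℕ) : cnd p g i := by
  obtain ⟨ha, hb, hc, hd⟩ := (smu_iff p g).1 h
  unfold cnd
  split_ifs
  · exact ⟨dvd_sub hb (ha.mul_right _), dvd_sub hd (hc.mul_right _)⟩
  · exact ⟨ha, hc⟩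

theorem cnd_z (p : ℕ) (g : Mt) (i : ℕ) : cnd p g i ↔
    if i < p then (g.2.1 : ZMod p) = g.1 * i ∧ (g.2.2.2 : ZMod p) = g.2.2.1 * i
    else (g.1 : ZMod p) = 0 ∧ (g.2.2.1 : ZMod p) = 0 := by
  unfold cnd
  split_ifs
  · simp only [← ZMod.intCast_zmod_eq_zero_iff_dvd]
    push_cast
    simp only [sub_eq_zero]
  · simp only [← ZMod.intCast_zmod_eq_zero_iff_dvd]

theorem exu {p : ℕ} (hp : p.Prime) {g : Mt} (hd : (p : ℤ) ∣ det g) (h : ¬ ∃ h : Mt, g = smu p h) :
    ∃ j, j < p + 1 ∧ cnd p g j ∧ ∀ i, i < p + 1 → cnd p g i → i = j := by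
  have := Fact.mk hp
  rw [smu_iff] at h
  simp only [← ZMod.intCast_zmod_eq_zero_iff_dvd] at h hd
  simp only [det] at hd
  push_cast at hd
  simp only [cnd_z]
  generalize (g.1 : ZMod p) = A at *
  generalize (g.2.1 : ZMod p) = B at *
  generalize (g.2.2.1 : ZMod p) = C at *
  generalize (g.2.2.2 : ZMod p) = D at *
  have key : ∀ t : ZMod p, (A ≠ 0 ∨ C ≠ 0) → B = A * t → D = C * t →
      ∃ j, j < p + 1 ∧ (if j < p then B = A * j ∧ D = C * j else A = 0 ∧ C = 0) ∧
        ∀ i, i < p + 1 → (if i < p then B = A * i ∧ D = C * i else A = 0 ∧ C = 0) → i = j := by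
    intro t hAC hB hD
    have ht := ZMod.val_lt t
    refine ⟨t.val, by omega, ?_, ?_⟩
    · rw [if_pos ht, ZMod.natCast_zmod_val]
      exact ⟨hB, hD⟩
    · intro i _ hi
      split_ifs at hi with hlt
      · have : (i : ZMod p) = t := by
          rcases hAC with hA | hC
          · exact mul_left_cancel₀ hA (hi.1.symm.trans hB)
          · exact mul_left_cancel₀ hC (hi.2.symm.trans hD)
        rw [← this, ZMod.val_natCast, Nat.mod_eq_of_lt hlt]
      · rcases hAC with hA | hC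
        · exact absurd hi.1 hA
        · exact absurd hi.2 hC
  by_cases hA : A = 0
  · by_cases hC : C = 0
    · refine ⟨p, by omega, ?_, ?_⟩
      · rw [if_neg (lt_irrefl p)]
        exact ⟨hA, hC⟩
      · intro i hi1 hi
        split_ifs at hi with hlt
        · exact absurd ⟨hA, by rw [hi.1, hA, zero_mul], hC, by rw [hi.2, hC, zero_mul]⟩ h
        · omega
    · refine key (D / C) (Or.inr hC) ?_ ?_
      · field_simp
        linear_combination -hd
      · field_simp
  · refine key (B / A) (Or.inl hA) ?_ ?_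
    · field_simp
    · field_simp
      linear_combination hd

theorem not_smu {N p : ℕ} (hp : p.Prime) {g : Mt} (hg : g ∈ MM N p) : ¬ ∃ h : Mt, g = smu p h := by
  rintro ⟨h, rfl⟩
  have hp0 : (p : ℤ) ≠ 0 := by exact_mod_cast hp.ne_zero
  have e := hg.1
  simp only [det, smu] at e
  have e2 : (p : ℤ) * det h = 1 := by
    apply mul_left_cancel₀ hp0
    simp only [det]
    linear_combination e
  have : (p : ℤ) ∣ 1 := ⟨_, e2.symm⟩
  have h3 : p ∣ 1 := by exact_mod_cast this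
  exact hp.one_lt.ne' (Nat.dvd_one.1 h3)

theorem bij {N p : ℕ} (hN : N.Prime) (hp : p.Prime) (hne : p ≠ N) :
    Set.BijOn (fun x : Mt × ℕ => mul x.1 (rp p x.2)) (MM N 1 ×ˢ Set.Iio (p + 1)) (MM N p) := by
  have hp0 : (p : ℤ) ≠ 0 := by exact_mod_cast hp.ne_zero
  have hm : ∀ h ∈ MM N 1, ∀ i, mul h (rp p i) ∈ MM N p := fun h hh i => by
    simpa using mul_mem hh (rp_mem N p i)
  refine ⟨fun x hx => hm _ hx.1 _, ?_, ?_⟩
  · rintro ⟨h, i⟩ ⟨hh, hi⟩ ⟨h', i'⟩ ⟨hh', hi'⟩ e
    simp only at e hh hi hh' hi'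
    have hg := hm h hh i
    have hg1 : mul h (rp p i) ∈ MM N (p * 1) := by simpa using hg
    obtain ⟨j, -, -, hj⟩ := exu hp (by rw [hg.1]) (not_smu hp hg)
    have e1 := hj i hi ((ex_iff hN hp hne hg1 i).1 ⟨h, hh, rfl⟩)
    have e2 := hj i' hi' ((ex_iff hN hp hne hg1 i').1 ⟨h', hh', e⟩)
    have e3 : i = i' := e1.trans e2.symm
    subst e3
    have := cancel_r (by rw [(rp_mem N p i).1]; exact hp0) e
    rw [this]
  · intro g hg
    have hg1 : g ∈ MM N (p * 1) := by simpa using hg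
    obtain ⟨j, hj, hc, -⟩ := exu hp (by rw [hg.1]) (not_smu hp hg)
    obtain ⟨h, hh, e⟩ := (ex_iff hN hp hne hg1 j).2 hc
    exact ⟨(h, j), ⟨hh, hj⟩, e.symm⟩

theorem sl_sum (K : KitS) (J : Finset ℕ) (G : ℕ → ℍ → ℂ) {g : Mt} (hg : 0 < det g) :
    sl (fun z => ∑ i ∈ J, G i z) g = fun z => ∑ i ∈ J, sl (G i) g z := by
  funext z
  rw [K.slz _ _ _ hg, mul_sum]
  exact sum_congr rfl fun i _ => (K.slz _ _ _ hg).symm

theorem sum_rep (K : KitS) {N p : ℕ} (hN : N.Prime) (hp : p.Prime) (hne : p ≠ N) {F : ℍ → ℂ}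
    (hF : Inv N F) (X : ℕ → Mt) (hX : ∀ i, X i ∈ MM N p)
    (hi : ∀ i i', i < p + 1 → i' < p + 1 → ∀ h ∈ MM N 1, X i' = mul h (X i) → i = i') :
    (fun z => ∑ i ∈ range (p + 1), sl F (X i) z) = TT p F := by
  classical
  have hp0 : (p : ℤ) ≠ 0 := by exact_mod_cast hp.ne_zero
  have hs := fun i => (bij hN hp hne).surjOn (hX i)
  choose y hy he using hs
  simp only at he
  have h1 : ∀ i, det (y i).1 = 1 := fun i => by simpa using (hy i).1.1
  have hinj : Set.InjOn (fun i => (y i).2) (range (p + 1) : Finset ℕ) := by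
    intro i hi1 i' hi2 e
    simp only at e
    refine hi i i' (by simpa using hi1) (by simpa using hi2) (mul (y i').1 (adj (y i).1))
      (by simpa using mul_mem (hy i').1 (adj_mem (hy i).1)) ?_
    rw [← he i, ← he i', mul_assoc', ← mul_assoc' (adj _), adj_mul _ (h1 i), one_mul', e]
  have himg : (range (p + 1)).image (fun i => (y i).2) = range (p + 1) := by
    apply eq_of_subset_of_card_le
    · intro j hj
      obtain ⟨i, -, rfl⟩ := mem_image.1 hj
      exact mem_range.2 (hy i).2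
    · rw [card_image_of_injOn hinj]
  funext z
  unfold TT
  conv_rhs => rw [← himg, sum_image hinj]
  refine sum_congr rfl fun i _ => ?_
  rw [← he i, ← K.slm F _ _ (by rw [h1]; exact one_ne_zero)
    (by rw [(rp_mem N p _).1]; exact hp0), hF _ (hy i).1]

/-- conjugation by the Fricke matrix -/
def cj (N : ℕ) (g : Mt) : Mt := (g.2.2.2, -(g.2.2.1 / N), -N * g.2.1, g.1)

theorem cj_mem {N m : ℕ} (hN : N ≠ 0) {g : Mt} (hg : g ∈ MM N m) : cj N g ∈ MM N m ∧
    mul (WN N) g = mul (cj N g) (WN N) ∧ mul g (WN N) = mul (WN N) (cj N g) := by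
  have hN0 : (N : ℤ) ≠ 0 := by exact_mod_cast hN
  obtain ⟨a, b, c, d⟩ := g
  obtain ⟨hd, ⟨c', hc⟩⟩ := hg
  simp only at hc
  subst hc
  simp only [det] at hd
  have e : cj N (a, b, N * c', d) = (d, -c', -N * b, a) := by
    simp only [cj, Int.mul_ediv_cancel_left _ hN0]
  rw [e]
  refine ⟨⟨?_, ⟨-b, by ring⟩⟩, ?_, ?_⟩
  · simp only [det]
    linear_combination hd
  · apply mt_ext <;> simp only [mul, WN] <;> ring
  · apply mt_ext <;> simp only [mul, WN] <;> ring

theorem det_W (N : ℕ) : det (WN N) = N := by simp [det, WN]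

end CosA

open CosA in
theorem cosOf : CosOf := by
  classical
  intro K N p hN hp hne
  have hp0 : (p : ℤ) ≠ 0 := by exact_mod_cast hp.ne_zero
  have hN0 : (0 : ℤ) < N := by exact_mod_cast hN.pos
  have hW : det (WN N) ≠ 0 := by rw [det_W]; exact hN0.ne'
  have hrp : ∀ i, det (rp p i) ≠ 0 := fun i => by rw [(rp_mem N p i).1]; exact hp0
  have hinj : ∀ i i', i < p + 1 → i' < p + 1 → ∀ h ∈ MM N 1, rp p i' = mul h (rp p i) → i = i' := by
    intro i i' hi hi' h hh e
    have := (bij hN hp hne).injOn (x₁ := (h, i)) (x₂ := ((1, 0, 0, 1), i')) ⟨hh, hi⟩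
      ⟨one_mem N, hi'⟩ (by simp only [one_mul', e])
    exact congrArg Prod.snd this
  refine ⟨bij hN hp hne, ?_, ?_⟩
  · intro m g hg
    simp only [ex_iff hN hp hne hg]
    split_ifs with h
    · rw [filter_true_of_mem fun i _ => cnd_all h i, card_range]
    · obtain ⟨j, hj, hc, hu⟩ := exu hp (g := g) (by rw [hg.1]; push_cast; exact dvd_mul_right _ _) h
      rw [card_eq_one]
      refine ⟨j, ?_⟩
      ext i
      simp only [mem_filter, mem_range, mem_singleton]
      exact ⟨fun hi => hu i hi.1 hi.2, fun hi => hi ▸ ⟨hj, hc⟩⟩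
  · intro F hF
    refine ⟨?_, ?_, ?_⟩
    · intro g hg
      obtain ⟨h1, h2, -⟩ := cj_mem hN.ne_zero hg
      have d1 : det g ≠ 0 := by rw [hg.1]; simp
      have d2 : det (cj N g) ≠ 0 := by rw [h1.1]; simp
      rw [K.slm F _ _ hW d1, h2, ← K.slm F _ _ d2 hW, hF _ h1]
    · intro g hg
      have d0 : det g = 1 := by simpa using hg.1
      have d1 : 0 < det g := by rw [d0]; exact one_pos
      rw [← sum_rep K hN hp hne hF (fun i => mul (rp p i) g)
        (fun i => by simpa using mul_mem (rp_mem N p i) hg) ?_ |>.trans rfl]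
      · conv_lhs => rw [sum_rep K hN hp hne hF (fun i => mul (rp p i) g)
          (fun i => by simpa using mul_mem (rp_mem N p i) hg) (fun i i' hi hi' h hh e =>
            hinj i i' hi hi' h hh (cancel_r d1.ne' (by rw [mul_assoc']; exact e)))]
        unfold TT
        rw [sl_sum K _ _ d1]
        funext z
        exact sum_congr rfl fun i _ => by rw [K.slm F _ _ (hrp i) d1.ne']
      · exact fun i i' hi hi' h hh e =>
          hinj i i' hi hi' h hh (cancel_r d1.ne' (by rw [mul_assoc']; exact e))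
    · have hc := fun i => cj_mem hN.ne_zero (rp_mem N p i)
      rw [← sum_rep K hN hp hne hF (fun i => cj N (rp p i)) (fun i => (hc i).1) ?_,
        sl_sum K _ _ (by rw [det_W]; exact hN0)]
      · funext z
        unfold TT
        refine sum_congr rfl fun i _ => ?_
        rw [K.slm F _ _ hW (hrp i), (hc i).2.1, K.slm F _ _ (by rw [(hc i).1.1]; exact hp0) hW]
      · intro i i' hi hi' h hh e
        obtain ⟨h1, -, h3⟩ := cj_mem hN.ne_zero hh
        refine hinj i i' hi hi' _ h1 (cancel_l hW ?_)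
        rw [(hc i').2.1, e, mul_assoc', ← (hc i).2.1, ← mul_assoc', h3, mul_assoc']

end Pool.Agent.MP_20b2fd_nt.H38
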