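import Pool.Agent.MP_20b2fd_nt.H38.SpecA

/-! Cusp forms of weight two and prime level: basic properties and a constructor. -/

set_option autoImplicit false

namespace Pool.Agent.MP_20b2fd_nt.H38

open UpperHalfPlane hiding I
open MeasureTheory Complex Finset Filter Topology
open scoped ModularForm Real Manifold ENNReal MatrixGroups

namespace CuspA

lemma glv (g : Mt) (hd : det g ≠ 0) :
    ((gl g : GL (Fin 2) ℝ) : Matrix (Fin 2) (Fin 2) ℝ) =
      !![(g.1 : ℝ), (g.2.1 : ℝ); (g.2.2.1 : ℝ), (g.2.2.2 : ℝ)] := by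
  have h : (g.1 : ℝ) * g.2.2.2 - g.2.1 * g.2.2.1 ≠ 0 := by
    unfold det at hd
    exact_mod_cast hd
  unfold gl gr
  rw [dif_pos h]
  rfl

/-- the entries of an element of the modular group -/
def tm (γ : SL(2, ℤ)) : Mt := (γ 0 0, γ 0 1, γ 1 0, γ 1 1)

lemma det_tm (γ : SL(2, ℤ)) : det (tm γ) = 1 := by
  have h := γ.det_coe
  rw [Matrix.det_fin_two] at h
  exact h

lemma gl_tm (γ : SL(2, ℤ)) : gl (tm γ) = Matrix.SpecialLinearGroup.mapGL ℝ γ := by
  apply Units.ext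
  rw [glv _ (by rw [det_tm]; exact one_ne_zero)]
  ext i j
  fin_cases i <;> fin_cases j <;> simp [tm]

lemma ex_tm (g : Mt) (hd : det g = 1) : ∃ γ : SL(2, ℤ), tm γ = g :=
  ⟨⟨!![g.1, g.2.1; g.2.2.1, g.2.2.2], by rw [Matrix.det_fin_two_of]; exact hd⟩, rfl⟩

lemma sl_tm (F : ℍ → ℂ) (γ : SL(2, ℤ)) : sl F (tm γ) = F ∣[(2 : ℤ)] γ := by
  unfold sl sr
  rw [gl_tm]
  rfl

lemma mem_tm (N : ℕ) (γ : SL(2, ℤ)) : γ ∈ CongruenceSubgroup.Gamma0 N ↔ tm γ ∈ MM N 1 := by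
  rw [CongruenceSubgroup.Gamma0_mem, ZMod.intCast_zmod_eq_zero_iff_dvd]
  exact ⟨fun h => ⟨by rw [det_tm]; rfl, h⟩, fun h => h.2⟩

lemma inv_cf (N : ℕ) (f : CF N) : Inv N f := by
  intro g hg
  obtain ⟨γ, rfl⟩ := ex_tm g (by rw [hg.1]; rfl)
  unfold sl sr
  rw [gl_tm]
  exact SlashInvariantFormClass.slash_action_eq f _ ⟨γ, (mem_tm N γ).2 hg, rfl⟩

lemma zsl (F : ℍ → ℂ) (g : Mt) (hd : det g ≠ 0) (hc : g.2.2.1 = 0) (hF : IsZeroAtImInfty F) :
    IsZeroAtImInfty (sl F g) := by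
  unfold sl sr
  apply hF.slash
  have h := glv g hd
  have h2 : (gl g) 1 0 = ((gl g : GL (Fin 2) ℝ) : Matrix (Fin 2) (Fin 2) ℝ) 1 0 := rfl
  rw [h2, h, hc]
  simp

lemma zero_all (K : KitS) (N : ℕ) (hN : N.Prime) (F : ℍ → ℂ) (hI : Inv N F)
    (h0 : IsZeroAtImInfty F) (hW : IsZeroAtImInfty (sl F (WN N))) (g : Mt) (hd : det g = 1) :
    IsZeroAtImInfty (sl F g) := by
  obtain ⟨a, b, c, d⟩ := g
  have hN0 : (N : ℤ) ≠ 0 := by exact_mod_cast hN.ne_zero
  by_cases hc : (N : ℤ) ∣ c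
  · rw [hI (a, b, c, d) ⟨by rw [hd]; rfl, hc⟩]
    exact h0
  · have hp : Prime (N : ℤ) := Nat.prime_iff_prime_int.mp hN
    obtain ⟨u, v, huv⟩ := (hp.irreducible.coprime_iff_not_dvd).2 hc
    have hd' : a * d - b * c = 1 := hd
    have hh : ((a * (v * d) - b, a, c * (v * d) - d, c) : Mt) ∈ MM N 1 := by
      refine ⟨?_, ⟨-(u * d), ?_⟩⟩
      · show (a * (v * d) - b) * c - a * (c * (v * d) - d) = ((1 : ℕ) : ℤ)
        push_cast
        linear_combination hd'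
      · show c * (v * d) - d = N * -(u * d)
        linear_combination d * huv
    have hS : det ((0, -1, 1, v * d) : Mt) = 1 := by simp [det]
    have e1 : ((a, b, c, d) : Mt) =
        mul (a * (v * d) - b, a, c * (v * d) - d, c) (0, -1, 1, v * d) := by
      simp only [mul, Prod.mk.injEq]
      refine ⟨by ring, by ring, by ring, by ring⟩
    have e2 : smu N ((0, -1, 1, v * d) : Mt) = mul (WN N) (1, v * d, 0, N) := by
      simp only [mul, smu, WN, Prod.mk.injEq]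
      refine ⟨by ring, by ring, by ring, by ring⟩
    have hU : det ((1, v * d, 0, N) : Mt) ≠ 0 := by simpa [det] using hN.ne_zero
    have hWd : det (WN N) ≠ 0 := by simpa [det, WN] using hN.ne_zero
    rw [e1, ← K.slm _ _ _ (by rw [hh.1]; simp) (by rw [hS]; simp), hI _ hh,
      ← (K.sca F N _ hN0 (by rw [hS]; simp)).1, e2, ← K.slm _ _ _ hWd hU]
    exact zsl _ _ hU rfl hW

lemma mk_cf (K : KitS) (N : ℕ) (hN : N.Prime) (F : ℍ → ℂ) (hI : Inv N F)
    (hF : MDifferentiable 𝓘(ℂ) 𝓘(ℂ) F) (h0 : IsZeroAtImInfty F)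
    (hW : IsZeroAtImInfty (sl F (WN N))) : ∃ f : CF N, ⇑f = F := by
  have : NeZero N := ⟨hN.ne_zero⟩
  refine ⟨⟨⟨F, ?_⟩, hF, ?_⟩, rfl⟩
  · rintro _ ⟨γ, hγ, rfl⟩
    have h := hI _ ((mem_tm N γ).1 hγ)
    unfold sl sr at h
    rwa [gl_tm] at h
  · intro c hc
    rw [Subgroup.IsArithmetic.isCusp_iff_isCusp_SL2Z] at hc
    rw [OnePoint.isZeroAt_iff_forall_SL2Z hc]
    intro γ _
    have h := zero_all K N hN F hI h0 hW (tm γ) (det_tm γ)
    rwa [sl_tm] at h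

lemma slWW (K : KitS) (N : ℕ) (hN : N.Prime) (F : ℍ → ℂ) : sl (sl F (WN N)) (WN N) = F := by
  have hWd : det (WN N) ≠ 0 := by simpa [det, WN] using hN.ne_zero
  have e : mul (WN N) (WN N) = smu (-(N : ℤ)) (1, 0, 0, 1) := by
    simp [mul, smu, WN]
  have hN0 : -(N : ℤ) ≠ 0 := neg_ne_zero.mpr (by exact_mod_cast hN.ne_zero)
  rw [K.slm _ _ _ hWd hWd, e, (K.sca F _ _ hN0 (by simp [det])).1, (K.one F).1]

lemma inv_W (K : KitS) (N : ℕ) (hN : N.Prime) (F : ℍ → ℂ) (hI : Inv N F) :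
    Inv N (sl F (WN N)) := by
  rintro ⟨a, b, c, d⟩ ⟨hd, ⟨e, he⟩⟩
  have hWd : det (WN N) ≠ 0 := by simpa [det, WN] using hN.ne_zero
  have he' : c = N * e := he
  subst he'
  have hd' : a * d - b * (N * e) = 1 := by simpa [det] using hd
  have hh : ((d, -e, -(N * b), a) : Mt) ∈ MM N 1 := by
    refine ⟨?_, ⟨-b, ?_⟩⟩
    · show d * a - -e * -(N * b) = ((1 : ℕ) : ℤ)
      push_cast
      linear_combination hd'
    · show -((N : ℤ) * b) = N * -b
      ring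
  have e1 : mul (WN N) (a, b, N * e, d) = mul (d, -e, -(N * b), a) (WN N) := by
    simp only [mul, WN, Prod.mk.injEq]
    refine ⟨by ring, by ring, by ring, by ring⟩
  rw [K.slm _ _ _ hWd (by rw [hd]; simp), e1, ← K.slm _ _ _ (by rw [hh.1]; simp) hWd, hI _ hh]

lemma ex_W (K : KitS) (N : ℕ) (hN : N.Prime) (f : CF N) : ∃ g : CF N, ⇑g = sl f (WN N) := by
  have : NeZero N := ⟨hN.ne_zero⟩
  apply mk_cf K N hN _ (inv_W K N hN f (inv_cf N f))
  · exact MDifferentiable.slash (CuspFormClass.holo f) _ _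
  · obtain ⟨γ, hγ⟩ := ex_tm (0, -1, 1, 0) (by simp [det])
    have hU : det (((N : ℤ), 0, 0, 1) : Mt) ≠ 0 := by simpa [det] using hN.ne_zero
    have e : WN N = mul (tm γ) ((N : ℤ), 0, 0, 1) := by
      rw [hγ]
      simp [mul, WN]
    rw [e, ← K.slm _ _ _ (by rw [det_tm]; simp) hU]
    apply zsl _ _ hU rfl
    rw [sl_tm]
    exact CuspFormClass.zero_at_infty_slash f γ
  · rw [slWW K N hN]
    exact CuspFormClass.zero_at_infty f

lemma bd_cf (N : ℕ) (hN : N.Prime) (f : CF N) : ∃ C : ℝ, ∀ z : ℍ, z.im ^ 2 * ‖f z‖ ≤ C := by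
  have : NeZero N := ⟨hN.ne_zero⟩
  obtain ⟨C, hC⟩ := CuspFormClass.exists_bound f
  have h1 : f =O[atImInfty] fun τ : ℍ => Real.exp (-2 * π * τ.im / 1) :=
    CuspFormClass.exp_decay_atImInfty f one_pos (by simp)
  obtain ⟨D, hD, h1⟩ := h1.exists_pos
  rw [Asymptotics.IsBigOWith, atImInfty, eventually_comap, eventually_atTop] at h1
  obtain ⟨Y, hY⟩ := h1
  refine ⟨max (2 * D) (|Y| * |C|), fun z => ?_⟩
  have hz := z.im_pos
  by_cases hy : Y ≤ z.im
  · refine le_trans ?_ (le_max_left _ _)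
    have h2 := hY z.im hy z rfl
    rw [Real.norm_of_nonneg (Real.exp_pos _).le] at h2
    have h3 : Real.exp (-2 * π * z.im / 1) ≤ Real.exp (-z.im) := by
      apply Real.exp_le_exp.mpr
      have := Real.pi_gt_three
      nlinarith
    have h4 : z.im ^ 2 * Real.exp (-z.im) ≤ 2 := by
      have h5 := Real.quadratic_le_exp_of_nonneg hz.le
      have h6 : Real.exp z.im * Real.exp (-z.im) = 1 := by rw [← Real.exp_add]; simp
      have h7 := Real.exp_pos (-z.im)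
      nlinarith
    calc z.im ^ 2 * ‖f z‖ ≤ z.im ^ 2 * (D * Real.exp (-z.im)) := by
          gcongr
          exact h2.trans (by gcongr)
      _ = D * (z.im ^ 2 * Real.exp (-z.im)) := by ring
      _ ≤ D * 2 := by gcongr
      _ = 2 * D := by ring
  · refine le_trans ?_ (le_max_right _ _)
    have h2 := hC z
    have h3 : (((2 : ℤ) : ℝ) / 2) = 1 := by norm_num
    rw [h3, Real.rpow_one, le_div_iff₀ hz] at h2
    have h4 : z.im ≤ |Y| := (not_le.mp hy).le.trans (le_abs_self Y)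
    calc z.im ^ 2 * ‖f z‖ = z.im * (‖f z‖ * z.im) := by ring
      _ ≤ |Y| * |C| := by
          have h5 : 0 ≤ ‖f z‖ * z.im := by positivity
          exact mul_le_mul h4 (h2.trans (le_abs_self C)) h5 (abs_nonneg Y)

end CuspA

theorem cuspOf : CuspOf := by
  intro K D N hN
  refine ⟨fun f => ?_, fun F hI hF h0 hW => CuspA.mk_cf K N hN F hI hF h0 hW⟩
  have hc : Continuous f := (CuspFormClass.holo f).continuous
  obtain ⟨g, hg⟩ := CuspA.ex_W K N hN f
  refine ⟨CuspA.inv_cf N f, hc, hc.measurable, ?_, g, hg⟩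
  obtain ⟨C1, h1⟩ := CuspA.bd_cf N hN f
  obtain ⟨C2, h2⟩ := CuspA.bd_cf N hN g
  refine D.of N f (max C1 C2) hN (CuspA.inv_cf N f) fun z => ⟨(h1 z).trans (le_max_left _ _), ?_⟩
  rw [← hg]
  exact (h2 z).trans (le_max_right _ _)

end Pool.Agent.MP_20b2fd_nt.H38
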