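import Pool.Agent.MP_20b2fd_nt.H38.SpecA

/-! Decay and boundedness at all cusps. -/

set_option autoImplicit false

namespace Pool.Agent.MP_20b2fd_nt.H38

open UpperHalfPlane hiding I
open Complex Finset

namespace DecA

theorem jpos (hK : KitS) {c d : ℤ} (h : c ≠ 0 ∨ d ≠ 0) (z : ℍ) : 0 < ‖(c : ℂ) * z + d‖ := by
  have := hK.den c d z (by exact_mod_cast h)
  push_cast at this
  exact norm_pos_iff.2 this

theorem bot {g : Mt} (h : 0 < det g) : g.2.2.1 ≠ 0 ∨ g.2.2.2 ≠ 0 := by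
  by_contra hc
  push Not at hc
  simp [det, hc.1, hc.2] at h

theorem nsl (hK : KitS) (F : ℍ → ℂ) {g : Mt} (h : 0 < det g) (z : ℍ) :
    ‖sl F g z‖ = det g / ‖(g.2.2.1 : ℂ) * z + g.2.2.2‖ ^ 2 * ‖F (ac g z)‖ := by
  have h' : (0 : ℝ) < det g := by exact_mod_cast h
  rw [hK.slz F g z h, norm_mul, norm_div, norm_pow, Complex.norm_intCast, abs_of_pos h']

theorem lin (hK : KitS) {g : Mt} (h : 0 < det g) (z : ℍ) (c d : ℤ) :
    ‖(c : ℂ) * (ac g z : ℍ) + d‖ * ‖(g.2.2.1 : ℂ) * z + g.2.2.2‖ =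
      ‖((c * g.1 + d * g.2.2.1 : ℤ) : ℂ) * z + ((c * g.2.1 + d * g.2.2.2 : ℤ) : ℂ)‖ := by
  have h0 := norm_pos_iff.1 (jpos hK (bot h) z)
  rw [← norm_mul, hK.coez g z h]
  refine congrArg norm ?_
  rw [add_mul, mul_assoc, div_mul_cancel₀ _ h0]
  push_cast
  ring

theorem cnn (hK : KitS) {F : ℍ → ℂ} {C : ℝ} (h : ∀ (z : ℍ) (c d : ℤ), c ≠ 0 ∨ d ≠ 0 →
    z.im ^ 2 * ‖F z‖ ≤ C * ‖(c : ℂ) * z + d‖ ^ 2) : 0 ≤ C := by
  have h1 := h UpperHalfPlane.I 0 1 (Or.inr one_ne_zero)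
  have h2 : 0 ≤ (UpperHalfPlane.I).im ^ 2 * ‖F UpperHalfPlane.I‖ := by positivity
  simpa using h2.trans h1

/-- from a bound at the image point -/
theorem pull (hK : KitS) (F : ℍ → ℂ) {g : Mt} (h : 0 < det g) (z : ℍ) {B : ℝ}
    (hB : (ac g z).im ^ 2 * ‖F (ac g z)‖ ≤ B) :
    det g * (z.im ^ 2 * ‖sl F g z‖) ≤ B * ‖(g.2.2.1 : ℂ) * z + g.2.2.2‖ ^ 2 := by
  have h0 := jpos hK (bot h) z
  rw [hK.imz g z h] at hB
  rw [nsl hK F h]
  refine le_trans (le_of_eq ?_) (mul_le_mul_of_nonneg_right hB (by positivity))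
  field_simp

theorem dslu (hK : KitS) {F : ℍ → ℂ} {C : ℝ} (hF : ∀ (z : ℍ) (c d : ℤ), c ≠ 0 ∨ d ≠ 0 →
    z.im ^ 2 * ‖F z‖ ≤ C * ‖(c : ℂ) * z + d‖ ^ 2) {g : Mt} (h : 0 < det g) (z : ℍ) {c d : ℤ}
    (hc : c ≠ 0 ∨ d ≠ 0) : z.im ^ 2 * ‖sl F g z‖ ≤ det g * C * ‖(c : ℂ) * z + d‖ ^ 2 := by
  have h' : (0 : ℝ) < det g := by exact_mod_cast h
  have e1 : (c * g.2.2.2 - d * g.2.2.1) * g.1 + (d * g.1 - c * g.2.1) * g.2.2.1 = det g * c := by
    rw [det]; ring
  have e2 : (c * g.2.2.2 - d * g.2.2.1) * g.2.1 + (d * g.1 - c * g.2.1) * g.2.2.2 = det g * d := by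
    rw [det]; ring
  have hn : c * g.2.2.2 - d * g.2.2.1 ≠ 0 ∨ d * g.1 - c * g.2.1 ≠ 0 := by
    by_contra hx
    push Not at hx
    rw [hx.1, hx.2] at e1 e2
    rcases hc with hc | hc
    · exact mul_ne_zero h.ne' hc (by linarith)
    · exact mul_ne_zero h.ne' hc (by linarith)
  have h1 := pull hK F h z (hF (ac g z) _ _ hn)
  have h2 := lin hK h z (c * g.2.2.2 - d * g.2.2.1) (d * g.1 - c * g.2.1)
  rw [e1, e2, show ((det g * c : ℤ) : ℂ) * z + ((det g * d : ℤ) : ℂ) =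
    (det g : ℂ) * ((c : ℂ) * z + d) by push_cast; ring, norm_mul, Complex.norm_intCast,
    abs_of_pos h'] at h2
  rw [mul_assoc C, ← mul_pow, h2] at h1
  refine le_of_mul_le_mul_left (h1.trans (le_of_eq ?_)) h'
  ring

theorem pair (z : ℍ) : ∃ c d : ℤ, (c ≠ 0 ∨ d ≠ 0) ∧ ‖(c : ℂ) * z + d‖ ^ 2 ≤ 2 * z.im := by
  obtain ⟨γ, hγ⟩ := ModularGroup.exists_one_half_le_im_smul z
  have h0 := normSq_denom_pos γ z.im_ne_zero
  rw [ModularGroup.im_smul_eq_div_normSq, le_div_iff₀ h0, normSq_eq_norm_sq,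
    ModularGroup.denom_apply] at hγ
  refine ⟨γ 1 0, γ 1 1, ?_, by linarith⟩
  by_contra hc
  push Not at hc
  have := γ.det_coe
  rw [Matrix.det_fin_two, hc.1, hc.2] at this
  simp at this

theorem prim (hK : KitS) {N : ℕ} {F : ℍ → ℂ} {C : ℝ} (hN : N.Prime) (hI : Inv N F)
    (h : ∀ z : ℍ, z.im ^ 2 * ‖F z‖ ≤ C ∧ z.im ^ 2 * ‖sl F (WN N) z‖ ≤ C) (z : ℍ) {c d : ℤ}
    (hc : IsCoprime c d) : z.im ^ 2 * ‖F z‖ ≤ N * C * ‖(c : ℂ) * z + d‖ ^ 2 := by
  have hC : 0 ≤ C := le_trans (by positivity) (h z).1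
  have hN1 : (1 : ℝ) ≤ N := by exact_mod_cast hN.one_le
  have hN0 : (0 : ℤ) < N := by exact_mod_cast hN.pos
  by_cases hd : (N : ℤ) ∣ c
  · obtain ⟨u, v, huv⟩ := hc
    have e : det (v, -u, c, d) = 1 := by rw [det]; linarith
    have h1 := pull hK F (g := (v, -u, c, d)) (by rw [e]; exact one_pos) z (h _).1
    rw [hI (v, -u, c, d) ⟨by rw [e]; rfl, hd⟩, e] at h1
    have h2 : C * ‖(c : ℂ) * z + d‖ ^ 2 ≤ N * C * ‖(c : ℂ) * z + d‖ ^ 2 :=
      mul_le_mul_of_nonneg_right (le_mul_of_one_le_left hC hN1) (by positivity)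
    simpa using le_trans (by simpa using h1) h2
  · have h3 : IsCoprime c (N : ℤ) :=
      ((Nat.prime_iff_prime_int.1 hN).irreducible.coprime_iff_not_dvd.2 hd).symm
    obtain ⟨u, v, huv⟩ := h3.mul_right hc
    have e : det (c, d, N * (-v), u) = 1 := by rw [det]; linarith
    have eW : det (WN N) = N := by simp [det, WN]
    have e2 : mul (WN N) (WN N) = smu (-N) (1, 0, 0, 1) := by simp [mul, WN, smu]
    have e3 : mul (WN N) (c, d, N * (-v), u) = (N * v, -u, N * c, N * d) := by simp [mul, WN]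
    have e4 : det ((N : ℤ) * v, -u, N * c, N * d) = N := by
      rw [det]
      linear_combination (N : ℤ) * huv
    have f1 : sl (sl F (WN N)) (WN N) = F := by
      rw [hK.slm F _ _ (by rw [eW]; exact hN0.ne') (by rw [eW]; exact hN0.ne'), e2,
        (hK.sca F _ _ (by omega) (by simp [det])).1, (hK.one F).1]
    have f2 : sl (sl F (WN N)) ((N : ℤ) * v, -u, N * c, N * d) = F := by
      rw [← e3, ← hK.slm _ _ _ (by rw [eW]; exact hN0.ne') (by rw [e]; exact one_ne_zero), f1]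
      exact hI _ ⟨by rw [e]; rfl, dvd_mul_right _ _⟩
    have h1 := pull hK (sl F (WN N)) (g := ((N : ℤ) * v, -u, N * c, N * d))
      (by rw [e4]; exact hN0) z (h _).2
    rw [f2, e4] at h1
    have h2 : ‖(((N : ℤ) * c : ℤ) : ℂ) * z + (((N : ℤ) * d : ℤ) : ℂ)‖ = N * ‖(c : ℂ) * z + d‖ := by
      rw [show (((N : ℤ) * c : ℤ) : ℂ) * z + (((N : ℤ) * d : ℤ) : ℂ) =
        (N : ℂ) * ((c : ℂ) * z + d) by push_cast; ring, norm_mul, Complex.norm_natCast]
    change _ ≤ C * ‖(((N : ℤ) * c : ℤ) : ℂ) * z + (((N : ℤ) * d : ℤ) : ℂ)‖ ^ 2 at h1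
    rw [h2] at h1
    push_cast at h1
    refine le_of_mul_le_mul_left (h1.trans (le_of_eq ?_)) (show (0 : ℝ) < N by linarith)
    ring

end DecA

open DecA

theorem decOf : DecOf := fun hK =>
  { of := fun N F C hN hI h => by
      refine ⟨N * C, fun z c d hc => ?_⟩
      have hC : 0 ≤ C := le_trans (by positivity) (h z).1
      have hg : 0 < Int.gcd c d := Int.gcd_pos_iff.2 hc
      obtain ⟨c', d', h1, h2, h3⟩ := Int.exists_gcd_one hg
      have h4 := prim hK hN hI h z (Int.isCoprime_iff_gcd_eq_one.2 h1)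
      refine h4.trans (mul_le_mul_of_nonneg_left ?_ (by positivity))
      generalize Int.gcd c d = G at hg h2 h3
      subst h2 h3
      have hG : (1 : ℝ) ≤ G := by exact_mod_cast hg
      rw [show ((c' * G : ℤ) : ℂ) * z + ((d' * G : ℤ) : ℂ) = (G : ℂ) * ((c' : ℂ) * z + d') by
        push_cast; ring, norm_mul, Complex.norm_natCast]
      exact pow_le_pow_left₀ (norm_nonneg _) (le_mul_of_one_le_left (norm_nonneg _) hG) 2
    dsl := fun F g h ⟨C, hF⟩ => ⟨det g * C, fun z c d hc => dslu hK hF h z hc⟩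
    gsl := fun F g h ⟨C, hF⟩ => by
      refine ⟨det g * C, fun z => ?_⟩
      obtain ⟨c, d, hc, h1⟩ := hF (ac g z)
      have h' : (0 : ℝ) < det g := by exact_mod_cast h
      have h0 := jpos hK (bot h) z
      have h2 := lin hK h z c d
      refine ⟨c * g.1 + d * g.2.2.1, c * g.2.1 + d * g.2.2.2, ?_, ?_⟩
      · by_contra hx
        push Not at hx
        rw [hx.1, hx.2] at h2
        have := mul_pos (jpos hK hc (ac g z)) h0
        rw [h2] at this
        simp at this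
      · rw [← h2, nsl hK F h]
        refine le_trans (le_of_eq ?_) (mul_le_mul_of_nonneg_left h1 h'.le)
        field_simp
    dsum := fun ι J c F h => by
      classical
      induction J using Finset.induction_on with
      | empty => exact ⟨0, fun z c d _ => by simp⟩
      | insert i J hi ih =>
        obtain ⟨C, hC⟩ := ih fun j hj => h j (mem_insert_of_mem hj)
        obtain ⟨D, hD⟩ := h i (mem_insert_self _ _)
        refine ⟨‖c i‖ * D + C, fun z a b hab => ?_⟩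
        have h1 := hC z a b hab
        have h2 := mul_le_mul_of_nonneg_left (hD z a b hab) (norm_nonneg (c i))
        have h3 := norm_add_le (c i * F i z) (∑ j ∈ J, c j * F j z)
        rw [norm_mul] at h3
        have h4 := mul_le_mul_of_nonneg_left h3 (sq_nonneg z.im)
        simp only [sum_insert hi]
        linarith
    gro := fun F ⟨C, hF⟩ => by
      refine ⟨4 * C, fun z => ?_⟩
      obtain ⟨c, d, hc, h1⟩ := pair z
      refine ⟨c, d, hc, ?_⟩
      have hC := cnn hK hF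
      have h2 := hF z c d hc
      have hy := z.im_pos
      generalize ‖(c : ℂ) * z + d‖ ^ 2 = j at h1 h2
      have h3 : z.im * (z.im * ‖F z‖) ≤ z.im * (2 * C) := by
        have := mul_le_mul_of_nonneg_left h1 hC
        linarith
      have h4 := le_of_mul_le_mul_left h3 hy
      have h5 := mul_le_mul_of_nonneg_left h1 (norm_nonneg (F z))
      linarith
    bd := fun F G ⟨C, hF⟩ ⟨D, hG⟩ m hm => by
      refine ⟨m * C * D, fun g hg z => ?_⟩
      have h : 0 < det g := by rw [hg]; exact_mod_cast hm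
      obtain ⟨c, d, hc, h1⟩ := hG z
      have h2 := dslu hK hF h z hc
      have hC := cnn hK hF
      rw [hg] at h2
      push_cast at h2
      rw [pe, norm_mul, norm_mul, norm_pow, RCLike.norm_conj, Complex.norm_real,
        Real.norm_of_nonneg z.im_pos.le]
      have h3 := mul_le_mul_of_nonneg_left h2 (norm_nonneg (G z))
      have h4 := mul_le_mul_of_nonneg_left h1 (show (0 : ℝ) ≤ m * C by positivity)
      linarith
    im := fun F ⟨C, hF⟩ => by
      refine ⟨C, fun z => ?_⟩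
      obtain ⟨c, d, hc, h1⟩ := hF z
      have hC : 0 ≤ C := le_trans (by positivity) h1
      have hy := z.im_pos
      have h5 : 0 ≤ C * (1 / z.im ^ 2) := by positivity
      by_cases h0 : c = 0
      · subst h0
        have hd : d ≠ 0 := hc.resolve_left fun h => h rfl
        have h2 : (1 : ℝ) ≤ |(d : ℝ)| := by exact_mod_cast Int.one_le_abs hd
        rw [Int.cast_zero, zero_mul, zero_add, Complex.norm_intCast] at h1
        have h3 := le_mul_of_one_le_right (norm_nonneg (F z)) (one_le_pow₀ (n := 2) h2)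
        linarith
      · have h2 : (1 : ℝ) ≤ |(c : ℝ)| := by exact_mod_cast Int.one_le_abs h0
        have h3 : z.im ≤ ‖(c : ℂ) * z + d‖ := by
          refine le_trans ?_ (Complex.abs_im_le_norm _)
          simp only [add_im, mul_im, intCast_re, intCast_im, zero_mul, add_zero, coe_im, abs_mul,
            abs_of_pos hy]
          exact le_mul_of_one_le_left hy.le h2
        have h4 : ‖F z‖ * z.im ^ 2 ≤ C :=
          (mul_le_mul_of_nonneg_left (pow_le_pow_left₀ hy.le h3 2) (norm_nonneg _)).trans h1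
        have h6 : ‖F z‖ ≤ C * (1 / z.im ^ 2) := by
          rw [mul_one_div, le_div_iff₀ (by positivity)]
          exact h4
        linarith
    im' := fun F ⟨C, hF⟩ => by
      refine ⟨2 * C, fun z => ?_⟩
      obtain ⟨c, d, hc, h1⟩ := pair z
      have hC := cnn hK hF
      have h2 := hF z c d hc
      have hy := z.im_pos
      generalize ‖(c : ℂ) * z + d‖ ^ 2 = j at h1 h2
      have h3 : z.im * (z.im * ‖F z‖) ≤ z.im * (2 * C) := by
        have := mul_le_mul_of_nonneg_left h1 hC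
        linarith
      exact le_of_mul_le_mul_left h3 hy }

end Pool.Agent.MP_20b2fd_nt.H38
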