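import Pool.Agent.MP_20b2fd_nt.H38.SpecA

/-! Simultaneous diagonalisation with multiplicity one. -/

set_option autoImplicit false

namespace Pool.Agent.MP_20b2fd_nt.H38

open Module.End

theorem eg0 : Eg0S := by
  intro V _ _ _ B ι T φ hadd hsm hcj hnn hdef hsym hcom hφ E hE
  let c : InnerProductSpace.Core ℂ V :=
    { inner := fun v w => B w v
      conj_inner_symm := fun x y => (hcj x y).symm
      re_inner_nonneg := hnn
      add_left := fun x y z => by rw [hcj, hadd, map_add, ← hcj, ← hcj]
      smul_left := fun x y r => by rw [hcj, hsm, map_mul, ← hcj]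
      definite := hdef }
  let _ := c.toNormedAddCommGroup
  let _ := InnerProductSpace.ofCore c.toCore
  have hT : ∀ i, (T i).IsSymmetric := fun i x y => (hsym i y x).symm
  have ne : ∀ v ∈ E, v ≠ 0 := fun v hv e => by
    rw [hE, e] at hv
    simpa using hv.1
  have o : ∀ v ∈ E, ∀ w ∈ E, v ≠ w → B v w = 0 := fun v hv w hw e => by
    rw [hE] at hv hw
    choose a ha using hv.2
    choose b hb using hw.2
    have : b ≠ a := by
      rintro rfl
      exact e (sub_eq_zero.1 (hφ _ (fun i => ⟨b i, by rw [map_sub, ha, hb, smul_sub]⟩)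
        (by rw [map_sub, hv.1, hw.1, sub_self])))
    exact LinearMap.IsSymmetric.orthogonalFamily_iInf_eigenspaces hT this
      ⟨w, (Submodule.mem_iInf _).2 fun i => mem_eigenspace_iff.2 (hb i)⟩
      ⟨v, (Submodule.mem_iInf _).2 fun i => mem_eigenspace_iff.2 (ha i)⟩
  refine ⟨?_, o, fun v hv i c e => ?_, ?_⟩
  · exact (linearIndependent_of_ne_zero_of_inner_eq_zero (𝕜 := ℂ) (v := fun v : E => v.1)
      (fun v => ne v v.2) fun v w e => o w w.2 v v.2 fun k => e (Subtype.ext k.symm)).finite
  · exact Complex.conj_eq_iff_im.1 ((hT i).conj_eigenvalue_eq_self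
      (hasEigenvalue_of_hasEigenvector ⟨mem_eigenspace_iff.2 e, ne v hv⟩))
  · rw [eq_top_iff, ← LinearMap.IsSymmetric.iSup_iInf_eq_top_of_commute hT
      fun i j _ => LinearMap.ext (hcom i j)]
    refine iSup_le fun χ v hv => ?_
    have h : ∀ i, T i v = χ i • v := fun i => mem_eigenspace_iff.1 ((Submodule.mem_iInf _).1 hv i)
    by_cases k : φ v = 0
    · rw [hφ v (fun i => ⟨_, h i⟩) k]
      exact Submodule.zero_mem _
    · rw [← smul_inv_smul₀ k v]
      refine Submodule.smul_mem _ _ (Submodule.subset_span (hE ▸ ⟨by simp [k], fun i => ⟨χ i, ?_⟩⟩))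
      rw [map_smul, h, smul_comm]

end Pool.Agent.MP_20b2fd_nt.H38
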