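import Pool.Agent.MP_20b2fd_nt.H38.SpecA

/-! The basis of normalised eigenforms. -/

set_option autoImplicit false

namespace Pool.Agent.MP_20b2fd_nt.H38

open UpperHalfPlane hiding I
open MeasureTheory Complex Finset Filter Topology
open scoped ModularForm Real Manifold ENNReal

namespace EigA

variable {N : ℕ}

theorem lift (L : (ℍ → ℂ) → ℍ → ℂ) (ha : ∀ F G, L (F + G) = L F + L G)
    (hs : ∀ (c : ℂ) F, L (c • F) = c • L F) (h : ∀ f : CF N, ∃ g : CF N, ⇑g = L f) :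
    ∃ T : CF N →ₗ[ℂ] CF N, ∀ f, ⇑(T f) = L f := by
  choose t ht using h
  refine ⟨⟨⟨t, fun f g => DFunLike.coe_injective ?_⟩, fun c f => DFunLike.coe_injective ?_⟩, ht⟩
  · show ⇑(t (f + g)) = ⇑(t f + t g)
    rw [FunLike.coe_add, ht, ht, ht, FunLike.coe_add, ha]
  · show ⇑(t (c • f)) = ⇑(c • t f)
    rw [FunLike.coe_smul, ht, ht, FunLike.coe_smul, hs]

theorem sl_add (K : KitS) (F G : ℍ → ℂ) {g : Mt} (h : 0 < det g) :
    sl (F + G) g = sl F g + sl G g := by
  funext z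
  simp only [Pi.add_apply, K.slz _ _ _ h, mul_add]

theorem sl_smul (K : KitS) (c : ℂ) (F : ℍ → ℂ) {g : Mt} (h : 0 < det g) :
    sl (c • F) g = c • sl F g := by
  funext z
  simp only [Pi.smul_apply, K.slz _ _ _ h, smul_eq_mul]
  ring

theorem det_rp (p i : ℕ) : det (rp p i) = p := by
  unfold rp
  split_ifs <;> simp [det]

theorem det_W (N : ℕ) : det (WN N) = N := by simp [det, WN]

theorem sl_W_W (K : KitS) (hN : 0 < N) (F : ℍ → ℂ) : sl (sl F (WN N)) (WN N) = F := by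
  have h : det (WN N) ≠ 0 := by rw [det_W]; exact_mod_cast hN.ne'
  have e : mul (WN N) (WN N) = smu (-N) (1, 0, 0, 1) := by simp [mul, smu, WN]
  rw [K.slm _ _ _ h h, e, (K.sca F _ _ (by simpa using hN.ne') (by simp [det])).1, (K.one F).1]

theorem exW (K : KitS) (Cu : CuspS) (hN : N.Prime) :
    ∃ W : CF N →ₗ[ℂ] CF N, ∀ f, ⇑(W f) = sl f (WN N) := by
  have h : 0 < det (WN N) := by rw [det_W]; exact_mod_cast hN.pos
  exact lift (fun F => sl F (WN N)) (fun F G => sl_add K F G h) (fun c F => sl_smul K c F h)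
    fun f => ((Cu N hN).1 f).2.2.2.2

theorem exT (K : KitS) (Hq : HqS) (hN : N.Prime) {p : ℕ} (hp : p.Prime) (hpN : p ≠ N) :
    ∃ T : CF N →ₗ[ℂ] CF N, ∀ f, ⇑(T f) = TT p f ∧
      ∀ n : ℕ, co (T f) n = co f (p * n) + if p ∣ n then p * co f (n / p) else 0 := by
  have h : ∀ i, 0 < det (rp p i) := fun i => by rw [det_rp]; exact_mod_cast hp.pos
  obtain ⟨T, hT⟩ := lift (N := N) (TT p)
    (fun F G => by funext z; simp only [TT, sl_add K F G (h _), Pi.add_apply, sum_add_distrib])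
    (fun c F => by funext z; simp only [TT, sl_smul K c F (h _), Pi.smul_apply, smul_sum])
    fun f => ((Hq N f hN).1 p hp hpN).imp fun _ h => h.1
  refine ⟨T, fun f => ⟨hT f, ?_⟩⟩
  obtain ⟨g, hg, hc⟩ := (Hq N f hN).1 p hp hpN
  rw [hT, ← hg]
  exact hc

theorem ipInt (K : KitS) (Et : EtaS) (De : DecS) (Cu : CuspS) (hN : N.Prime) (f g : CF N) :
    IP N f g := by
  obtain ⟨-, -, mf, df, -⟩ := (Cu N hN).1 f
  obtain ⟨-, -, mg, dg, -⟩ := (Cu N hN).1 g
  obtain ⟨C, hC⟩ := De.bd f g df (De.gro _ dg) 1 le_rfl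
  have hb := hC (1, 0, 0, 1) (by simp [det])
  rw [(K.one _).1] at hb
  exact (Et.2 N hN).2.2.1.ofReal.mul_bdd (K.mpe _ _ mf mg).aestronglyMeasurable
    (Eventually.of_forall hb)

theorem ip_conj (F G : ℍ → ℂ) : ip N G F = (starRingEnd ℂ) (ip N F G) := by
  rw [ip, ip, ← integral_conj]
  refine integral_congr_ae (Eventually.of_forall fun z => ?_)
  simp only [pe, map_mul, map_pow, conj_ofReal, conj_conj]
  ring

theorem exB (K : KitS) (Et : EtaS) (De : DecS) (Cu : CuspS) (hN : N.Prime) (w : CF N) :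
    ∃ B : CF N →ₗ[ℂ] ℂ, ∀ v, B v = ip N v w := by
  refine ⟨⟨⟨fun v => ip N v w, fun u v => ?_⟩, fun c v => ?_⟩, fun _ => rfl⟩
  · rw [ip, ip, ip, ← integral_add (ipInt K Et De Cu hN u w) (ipInt K Et De Cu hN v w)]
    refine integral_congr_ae (Eventually.of_forall fun z => ?_)
    simp only [pe, add_apply]
    ring
  · simp only [ip, RingHom.id_apply, smul_eq_mul, ← integral_const_mul]
    refine integral_congr_ae (Eventually.of_forall fun z => ?_)
    simp only [pe, smul_apply, smul_eq_mul]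
    ring

theorem exCo (Qx : QxS) [NeZero N] (n : ℕ) : ∃ φ : CF N →ₗ[ℂ] ℂ, ∀ v, φ v = co v n :=
  ⟨⟨⟨fun v => co v n, fun u v => ((Qx N u).2.2.2.2.2.2 v 0 n).1⟩,
    fun c v => ((Qx N v).2.2.2.2.2.2 v c n).2⟩, fun _ => rfl⟩

theorem eq_zero (Qx : QxS) [NeZero N] {f : CF N} (h : ∀ n, co f n = 0) : f = 0 := by
  refine (Qx N f).2.2.2.2.2.1 0 (funext fun n => ?_)
  obtain ⟨φ, hφ⟩ := exCo (N := N) Qx n
  rw [h, ← hφ, map_zero]

theorem HL_pos (Ka : KapS) {v : ℝ} (hv : 0 < v) : 0 < HL v := by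
  obtain ⟨c, C, -, -, h⟩ := Ka
  exact pos_of_mul_pos_left ((h v hv).1.trans_eq (mul_comm _ _)) (by positivity)

theorem ip_pos (Qx : QxS) (Cu : CuspS) (Rs : RsA) (Ka : KapS) (hN : N.Prime) (f : CF N) :
    0 ≤ (ip N f f).re ∧ ((ip N f f).re = 0 → f = 0) := by
  have : NeZero N := ⟨hN.ne_zero⟩
  obtain ⟨-, -, -, -, g, hg⟩ := (Cu N hN).1 f
  have hs := (Rs N f g hN hg).2
  have hN' : (0 : ℝ) < N := by exact_mod_cast hN.pos
  have h2 : ∀ n : ℕ, 0 ≤ ‖co g n‖ ^ 2 * (HL (n / N) / N) := fun n => by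
    rcases n.eq_zero_or_pos with rfl | hn
    · simp [(Qx N g).1]
    · have := HL_pos Ka (v := n / N) (by positivity)
      positivity
  have h1 : ∀ n : ℕ, 0 ≤ ‖co f n‖ ^ 2 * HL n := fun n => by
    rcases n.eq_zero_or_pos with rfl | hn
    · simp [(Qx N f).1]
    · have := HL_pos Ka (v := n) (by positivity)
      positivity
  refine ⟨hs.nonneg fun n => add_nonneg (h1 n) (h2 n), fun h0 => eq_zero Qx fun n => ?_⟩
  rcases n.eq_zero_or_pos with rfl | hn
  · exact (Qx N f).1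
  have h3 := le_hasSum hs n fun m _ => add_nonneg (h1 m) (h2 m)
  have h4 := HL_pos Ka (v := n) (by positivity)
  have h5 : ‖co f n‖ ^ 2 * HL n = 0 := by linarith [h1 n, h2 n]
  simpa [h4.ne'] using h5

theorem comm_aux {p q : ℕ} (hp : p.Prime) (hq : q.Prime) (h : p ≠ q) (a : ℕ → ℂ) (n : ℕ) :
    ((a (q * (p * n)) + if q ∣ p * n then q * a (p * n / q) else 0) +
      if p ∣ n then p * (a (q * (n / p)) + if q ∣ n / p then q * a (n / p / q) else 0) else 0) =
    a (p * q * n) + (if q ∣ n then q * a (p * (n / q)) else 0) +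
      (if p ∣ n then p * a (q * (n / p)) else 0) +
      if p * q ∣ n then p * q * a (n / (p * q)) else 0 := by
  have c : q.Coprime p := (Nat.coprime_primes hq hp).2 h.symm
  have e1 : q * (p * n) = p * q * n := by ring
  have e2 : (if q ∣ p * n then q * a (p * n / q) else 0) =
      if q ∣ n then q * a (p * (n / q)) else 0 := by
    by_cases hd : q ∣ n
    · rw [if_pos hd, if_pos (hd.mul_left p), Nat.mul_div_assoc _ hd]
    · rw [if_neg hd, if_neg fun h' => hd (c.dvd_of_dvd_mul_left h')]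
  rw [e1, e2]
  by_cases hd : p ∣ n
  · simp only [if_pos hd, Nat.dvd_div_iff_mul_dvd hd, Nat.div_div_eq_div_mul]
    split_ifs <;> ring
  · simp only [if_neg hd, if_neg fun h' : p * q ∣ n => hd ((dvd_mul_right p q).trans h'), add_zero]

/-- the recursion of the coefficients of a joint eigenvector stays in a real subspace -/
theorem rec_mem (hN : N.Prime) (S : Submodule ℝ ℂ) (R : Set ℂ) (a : ℕ → ℂ) (h0 : a 0 = 0)
    (h1 : a 1 ∈ S) (hR : ∀ c ∈ R, ∀ x ∈ S, c * x ∈ S)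
    (hp : ∀ p : ℕ, p.Prime → p ≠ N → ∃ c ∈ R, ∀ n : ℕ,
      a (p * n) + (if p ∣ n then p * a (n / p) else 0) = c * a n)
    (hW : ∃ c ∈ R, ∀ n : ℕ, a (N * n) = -(c * a n)) (n : ℕ) : a n ∈ S := by
  induction n using Nat.strong_induction_on with
  | _ n ih =>
    rcases n.eq_zero_or_pos with rfl | hn
    · exact h0 ▸ S.zero_mem
    rcases eq_or_ne n 1 with rfl | hn1
    · exact h1
    obtain ⟨p, pp, m, rfl⟩ := Nat.exists_prime_and_dvd hn1
    have hm : 0 < m := Nat.pos_of_mul_pos_left hn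
    have hlt : m < p * m := lt_mul_of_one_lt_left hm pp.one_lt
    rcases eq_or_ne p N with rfl | hpN
    · obtain ⟨c, hc, e⟩ := hW
      rw [e]
      exact S.neg_mem (hR c hc _ (ih m hlt))
    · obtain ⟨c, hc, e⟩ := hp p pp hpN
      rw [eq_sub_of_add_eq (e m)]
      refine S.sub_mem (hR c hc _ (ih m hlt)) ?_
      split_ifs
      · have := S.smul_mem (p : ℝ) (ih (m / p) ((Nat.div_le_self _ _).trans_lt hlt))
        simpa using this
      · exact S.zero_mem

end EigA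

open EigA in
theorem eigOf : EigOf := by
  intro K Et De Co Ad Qx Cu Hq Fd Rs Ka Hb Eg N hN
  classical
  have : NeZero N := ⟨hN.ne_zero⟩
  have := Fd N
  obtain ⟨W, hW⟩ := exW K Cu hN
  choose T hT hTc using fun p : {p : ℕ // p.Prime ∧ p ≠ N} => exT K Hq hN p.2.1 p.2.2
  choose B hB using exB K Et De Cu hN
  choose φ hφ using exCo (N := N) Qx
  have ext : ∀ f g : CF N, (∀ n, co f n = co g n) → f = g := fun f g h =>
    (Qx N f).2.2.2.2.2.1 g (funext h)
  have cs : ∀ (c : ℂ) (f : CF N) (n : ℕ), co (⇑(c • f)) n = c * co f n := fun c f n =>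
    ((Qx N f).2.2.2.2.2.2 f c n).2
  have eT : ∀ p (v : CF N) (c : ℂ), T p v = c • v → ∀ n : ℕ,
      co v (p * n) + (if p.1 ∣ n then (p.1 : ℂ) * co v (n / p) else 0) = c * co v n :=
    fun p v c h n => by rw [← hTc, h, cs]
  have eW : ∀ (v : CF N) (c : ℂ), W v = c • v → ∀ n : ℕ, co v (N * n) = -(c * co v n) :=
    fun v c h n => by rw [(Hq N v hN).2 (W v) (hW v), h, cs]
  have TW : ∀ p v, T p (W v) = W (T p v) := fun p v => DFunLike.coe_injective (by
    show ⇑(T p (W v)) = ⇑(W (T p v))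
    rw [hT, hW, hW, hT]
    exact ((Co N p hN p.2.1 p.2.2).2.2 v ((Cu N hN).1 v).1).2.2)
  obtain ⟨U, hU0, hU⟩ : ∃ U : Option {p : ℕ // p.Prime ∧ p ≠ N} → CF N →ₗ[ℂ] CF N,
      U none = W ∧ ∀ p, U (some p) = T p := ⟨fun i => i.elim W T, rfl, fun _ => rfl⟩
  have a1 : ∀ u v w : CF N, ip N (⇑(u + v)) w = ip N u w + ip N v w := fun u v w => by
    rw [← hB w (u + v), ← hB w u, ← hB w v, map_add]
  have a2 : ∀ (c : ℂ) (v w : CF N), ip N (⇑(c • v)) w = c * ip N v w := fun c v w => by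
    rw [← hB w (c • v), ← hB w v, map_smul, smul_eq_mul]
  have a3 : ∀ i (v w : CF N), ip N (U i v) w = ip N v (U i w) := fun i v w => by
    obtain ⟨iv, -, mv, dv, -⟩ := (Cu N hN).1 v
    obtain ⟨iw, -, mw, dw, -⟩ := (Cu N hN).1 w
    rcases i with _ | p
    · obtain ⟨C, hC⟩ := De.bd v w dv (De.gro _ dw) N hN.pos
      rw [hU0, hW, hW]
      exact (Ad N v w C hN mv mw iv iw).2 (hC _ (det_W N))
    · obtain ⟨C, hC⟩ := De.bd v w dv (De.gro _ dw) p p.2.1.pos
      rw [hU, hT, hT]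
      exact (Ad N v w C hN mv mw iv iw).1 p p.2.1 p.2.2 hC
  have a4 : ∀ i j v, U i (U j v) = U j (U i v) := fun i j v => by
    rcases i with _ | p <;> rcases j with _ | q
    · rfl
    · rw [hU0, hU, TW]
    · rw [hU0, hU, TW]
    · rcases eq_or_ne p q with rfl | h
      · rfl
      have h' : p.1 ≠ q.1 := fun e => h (Subtype.ext e)
      refine ext _ _ fun n => ?_
      simp only [hU, hTc]
      rw [comm_aux p.2.1 q.2.1 h', comm_aux q.2.1 p.2.1 h'.symm, mul_comm q.1 p.1,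
        mul_comm (q.1 : ℂ) (p.1 : ℂ)]
      ring
  have eTU : ∀ (p : ℕ) (pp : p.Prime) (hp : p ≠ N) (v : CF N) (c : ℂ),
      U (some ⟨p, pp, hp⟩) v = c • v → ∀ n : ℕ,
      co v (p * n) + (if p ∣ n then (p : ℂ) * co v (n / p) else 0) = c * co v n :=
    fun p pp hp v c h => eT ⟨p, pp, hp⟩ v c (by rwa [hU] at h)
  have eWU : ∀ (v : CF N) (c : ℂ), U none v = c • v → ∀ n : ℕ, co v (N * n) = -(c * co v n) :=
    fun v c h => eW v c (by rwa [hU0] at h)
  have a5 : ∀ v, (∀ i, ∃ c : ℂ, U i v = c • v) → φ 1 v = 0 → v = 0 := fun v h h1 => by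
    refine eq_zero Qx fun n => (Submodule.mem_bot ℝ).1 ?_
    refine rec_mem hN ⊥ Set.univ (co v) (Qx N v).1 ?_ (fun c _ x hx => ?_) (fun p pp hp => ?_) ?_ n
    · rw [← hφ, h1]
      exact Submodule.zero_mem _
    · rw [Submodule.mem_bot] at hx ⊢
      rw [hx, mul_zero]
    · obtain ⟨c, hc⟩ := h (some ⟨p, pp, hp⟩)
      exact ⟨c, trivial, eTU p pp hp v c hc⟩
    · obtain ⟨c, hc⟩ := h none
      exact ⟨c, trivial, eWU v c hc⟩
  obtain ⟨E, hE⟩ : ∃ E : Set (CF N), E = {v | φ 1 v = 1 ∧ ∀ i, ∃ c : ℂ, U i v = c • v} := ⟨_, rfl⟩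
  obtain ⟨fin, orth, real, span⟩ := Eg (CF N) (fun v w => ip N v w) _ U (φ 1) a1 a2
    (fun v w => ip_conj _ _) (fun v => (ip_pos Qx Cu Rs Ka hN v).1)
    (fun v h => (ip_pos Qx Cu Rs Ka hN v).2 (by rw [h, zero_re])) a3 a4 a5 E hE
  subst hE
  set E : Set (CF N) := {v | φ 1 v = 1 ∧ ∀ i, ∃ c : ℂ, U i v = c • v} with hE
  have ne0 : ∀ f ∈ E, f ≠ 0 := fun f hf e => by simpa [e] using hf.1
  have pos : ∀ f ∈ E, 0 < (ip N f f).re := fun f hf =>
    (ip_pos Qx Cu Rs Ka hN f).1.lt_of_ne fun e => ne0 f hf ((ip_pos Qx Cu Rs Ka hN f).2 e.symm)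
  have ev : ∀ f ∈ E, ∀ p, T p f = co f p • f := fun f hf p => by
    obtain ⟨c, hc⟩ := hf.2 (some p)
    rw [hU] at hc
    have := eT p f c hc 1
    rw [mul_one, if_neg p.2.1.not_dvd_one, add_zero, ← hφ 1, hf.1, mul_one] at this
    rw [this]
    exact hc
  refine ⟨fin.toFinset, ?_, fun f hf => ?_, fun f n => ?_⟩
  · rw [fin.coe_toFinset]
    ext f
    constructor
    · intro hf
      refine ⟨by rw [← hφ]; exact hf.1, fun p pp hp => ⟨_, fun n _ => eT ⟨p, pp, hp⟩ f _ (ev f hf _) n⟩,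
        ?_⟩
      obtain ⟨c, hc⟩ := hf.2 none
      have hc' : W f = c • f := by rwa [hU0] at hc
      have h2 : W (W f) = f := DFunLike.coe_injective (by
        show ⇑(W (W f)) = ⇑f
        rw [hW, hW, sl_W_W K hN.pos])
      rw [hc', map_smul, hc', smul_smul] at h2
      have h3 : c * c = 1 := smul_left_injective ℂ (ne0 f hf) (h2.trans (one_smul ℂ f).symm)
      rw [← hW, hc']
      rcases mul_self_eq_one_iff.1 h3 with rfl | rfl
      · exact Or.inl (by rw [one_smul])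
      · exact Or.inr (by rw [neg_one_smul, FunLike.coe_neg])
    · rintro ⟨h1, hp, hw⟩
      refine ⟨by rw [hφ]; exact h1, fun i => ?_⟩
      rcases i with _ | p
      · rw [hU0]
        rcases hw with e | e
        · exact ⟨1, DFunLike.coe_injective (by
            show ⇑(W f) = ⇑((1 : ℂ) • f)
            rw [hW, e, one_smul])⟩
        · exact ⟨-1, DFunLike.coe_injective (by
            show ⇑(W f) = ⇑((-1 : ℂ) • f)
            rw [hW, e, neg_one_smul, FunLike.coe_neg])⟩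
      · obtain ⟨l, hl⟩ := hp p p.2.1 p.2.2
        rw [hU]
        refine ⟨l, ext _ _ fun n => ?_⟩
        rcases n.eq_zero_or_pos with rfl | hn
        · rw [(Qx N _).1, (Qx N _).1]
        · rw [cs, ← hl n hn]
          exact hTc p f n
  · rw [fin.mem_toFinset] at hf
    have h1 : co f 1 = 1 := by rw [← hφ]; exact hf.1
    refine ⟨pos f hf, fun n => ?_, fun g hg => orth f hf g (fin.mem_toFinset.1 hg),
      fun p pp hp => ?_, Hb.2.1 N (co f) h1 fun p n pp hp _ =>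
        eT ⟨p, pp, fun e => hp (e ▸ dvd_rfl)⟩ f _ (ev f hf _) n⟩
    · refine rec_mem hN (LinearMap.ker Complex.imLm) {c | c.im = 0} (co f) (Qx N f).1
        (by simp [h1]) (fun c hc x hx => ?_) (fun p pp hp => ?_) ?_ n
      · simp only [LinearMap.mem_ker, imLm_coe, Set.mem_ofPred_eq] at hc hx ⊢
        simp [hc, hx]
      · obtain ⟨c, hc⟩ := hf.2 (some ⟨p, pp, hp⟩)
        exact ⟨c, real f hf _ c hc, eTU p pp hp f c hc⟩
      · obtain ⟨c, hc⟩ := hf.2 none
        exact ⟨c, real f hf _ c hc, eWU f c hc⟩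
    · rw [← hT ⟨p, pp, hp⟩ f, ev f hf]
      rfl
  · have hf : f ∈ Submodule.span ℂ (fin.toFinset : Set (CF N)) := by
      rw [fin.coe_toFinset, span]
      trivial
    obtain ⟨c, -, hc⟩ := Submodule.mem_span_finset.1 hf
    have hc' : ∀ g ∈ fin.toFinset, ip N f g / ip N g g = c g := fun g hg => by
      have hg' := fin.mem_toFinset.1 hg
      have hne : ip N g g ≠ 0 := fun e => by simpa [e] using pos g hg'
      rw [div_eq_iff hne, ← hB, ← hc, map_sum, sum_eq_single_of_mem g hg, map_smul, hB, smul_eq_mul]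
      intro u hu hug
      rw [map_smul, hB, orth u (fin.mem_toFinset.1 hu) g hg' hug, smul_zero]
    refine ⟨?_, fun f' hf' => ?_⟩
    · rw [sum_congr rfl fun g hg => by rw [hc' g hg], ← hφ, ← hc, map_sum]
      simp only [hφ, cs]
    · rw [sum_congr rfl fun g hg => by rw [hc' g hg], hf', ← hW, ← hφ, ← hc, map_sum, map_sum]
      simp only [map_smul, hφ, cs, hW]

end Pool.Agent.MP_20b2fd_nt.H38
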