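import Pool.Agent.MP_20b2fd_nt.H38.SpecA

/-! The partition of unity for the group of prime level. -/

set_option autoImplicit false

namespace Pool.Agent.MP_20b2fd_nt.H38

open UpperHalfPlane hiding I
open MeasureTheory Complex Finset Filter Topology
open scoped Real

namespace EtaA

lemma hs_congr {ι : Type} {f g : ι → ℝ} {a : ℝ} (h : HasSum f a) (e : ∀ i, g i = f i) :
    HasSum g a := by
  rw [funext e]
  exact h

lemma mst : MeasurableSet {z : ℍ | st z} := by
  have h : Measurable fun z : ℍ => z.re := UpperHalfPlane.continuous_re.measurable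
  exact (measurableSet_le measurable_const h).inter (measurableSet_lt h measurable_const)

lemma met (T : ThS) (l : ℝ) : Measurable (et0 l) := by
  unfold et0
  exact Measurable.ite mst
    (T.1.comp (measurable_const.mul UpperHalfPlane.continuous_im.measurable)) measurable_const

lemma et_nonneg (T : ThS) {l : ℝ} (hl : 0 < l) (z : ℍ) : 0 ≤ et0 l z := by
  unfold et0
  split_ifs
  · exact (T.2.1 _ (mul_pos hl z.im_pos)).1
  · exact le_rfl

lemma pw_exp {a s : ℝ} (ha : 0 < a) (hs : 0 ≤ s) (k : ℕ) :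
    s ^ k * Real.exp (-(a * s)) ≤ k.factorial / a ^ k := by
  have h := Real.pow_div_factorial_le_exp (a * s) (by positivity) k
  have hf : (0 : ℝ) < k.factorial := by positivity
  rw [div_le_iff₀ hf, mul_pow] at h
  rw [Real.exp_neg, ← div_eq_mul_inv, div_le_div_iff₀ (Real.exp_pos _) (by positivity)]
  linarith

lemma hh_bd (T : ThS) {l : ℝ} (hl : 0 < l) : ∃ C : ℝ, ∀ y : ℝ, 0 < y →
    hh (l * y) * (1 + 1 / y ^ 3) / y ^ 2 ≤ C * (1 + y ^ 2)⁻¹ := by
  have ha : 0 < π / (2 * l) := by have := Real.pi_pos; positivity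
  set a := π / (2 * l) with hadef
  refine ⟨2 * ((Nat.factorial 0 : ℝ) / a ^ 0 + (Nat.factorial 2 : ℝ) / a ^ 2 +
    (Nat.factorial 3 : ℝ) / a ^ 3 + (Nat.factorial 5 : ℝ) / a ^ 5), fun y hy => ?_⟩
  have hs : 0 ≤ 1 / y := by positivity
  have h0 := pw_exp ha hs 0
  have h2 := pw_exp ha hs 2
  have h3 := pw_exp ha hs 3
  have h5 := pw_exp ha hs 5
  have hb := (T.2.1 _ (mul_pos hl hy)).2.1
  have e : -π / (2 * (l * y)) = -(a * (1 / y)) := by
    rw [hadef]
    field_simp
  rw [e] at hb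
  rw [← div_eq_mul_inv, le_div_iff₀ (by positivity)]
  have e2 : hh (l * y) * (1 + 1 / y ^ 3) / y ^ 2 * (1 + y ^ 2) =
      hh (l * y) * ((1 / y) ^ 0 + (1 / y) ^ 2 + (1 / y) ^ 3 + (1 / y) ^ 5) := by
    field_simp
    ring
  rw [e2]
  have hp : 0 ≤ (1 / y) ^ 0 + (1 / y) ^ 2 + (1 / y) ^ 3 + (1 / y) ^ 5 := by positivity
  have := mul_le_mul_of_nonneg_right hb hp
  nlinarith

lemma et_int (K : KitS) (T : ThS) {l : ℝ} (hl : 0 < l) :
    Integrable fun z : ℍ => et0 l z * (1 + 1 / z.im ^ 3) := by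
  have him : Measurable fun z : ℍ => z.im := UpperHalfPlane.continuous_im.measurable
  have hm : Measurable fun z : ℍ => ((et0 l z * (1 + 1 / z.im ^ 3) : ℝ) : ℂ) :=
    Complex.measurable_ofReal.comp ((met T l).mul
      (measurable_const.add (measurable_const.div (him.pow_const 3))))
  obtain ⟨C, hC⟩ := hh_bd T hl
  have h := ((K.intg _ hm).1).2 (by
    have hg : Integrable (fun p : ℝ × ℝ => (C * (1 + p.1 ^ 2)⁻¹) *
        (Set.Ico (0 : ℝ) 1).indicator (fun _ => (1 : ℝ)) p.2)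
        ((volume.restrict (Set.Ioi (0 : ℝ))).prod volume) :=
      Integrable.mul_prod ((integrable_inv_one_add_sq.const_mul C).restrict)
        ((integrable_indicator_iff measurableSet_Ico).2 (integrableOn_const (by simp)))
    refine hg.mono' ?_ ?_
    · refine Measurable.aestronglyMeasurable ?_
      exact (hm.comp (K.mpt.comp measurable_swap)).div
        ((Complex.measurable_ofReal.comp measurable_fst).pow_const 2)
    · have hae : ∀ᵐ p : ℝ × ℝ ∂((volume.restrict (Set.Ioi (0 : ℝ))).prod volume), p.1 ∈ Set.Ioi 0 :=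
        Measure.quasiMeasurePreserving_fst.ae (ae_restrict_mem measurableSet_Ioi)
      filter_upwards [hae] with p hp
      have hy : 0 < p.1 := hp
      obtain ⟨-, hre, hi⟩ := K.ptc p.2 p.1 hy
      have h0 := et_nonneg T hl (pt p.2 p.1)
      rw [norm_div, norm_pow, Complex.norm_real, Complex.norm_real, hi, Real.norm_of_nonneg hy.le,
        Real.norm_of_nonneg (by positivity)]
      unfold et0 st
      rw [hre, hi]
      by_cases hx : 0 ≤ p.2 ∧ p.2 < 1
      · rw [if_pos hx, Set.indicator_of_mem (show p.2 ∈ Set.Ico (0 : ℝ) 1 from hx), mul_one]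
        exact hC _ hy
      · rw [if_neg hx, Set.indicator_of_notMem (show p.2 ∉ Set.Ico (0 : ℝ) 1 from hx)]
        simp)
  simpa only [RCLike.re_to_complex, ofReal_re] using h.re

lemma et_int' (K : KitS) (T : ThS) {l : ℝ} (hl : 0 < l) : Integrable (et0 l) := by
  refine (et_int K T hl).mono' (met T l).aestronglyMeasurable (Eventually.of_forall fun z => ?_)
  have h0 := et_nonneg T hl z
  have h1 : 0 ≤ 1 / z.im ^ 3 := by have := z.im_pos; positivity
  rw [Real.norm_of_nonneg h0]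
  nlinarith

lemma acWW (K : KitS) {N : ℕ} (hN : N.Prime) (z : ℍ) : ac (WN N) (ac (WN N) z) = z := by
  have h0 : (N : ℤ) ≠ 0 := by exact_mod_cast hN.ne_zero
  have hd : det (WN N) ≠ 0 := by simpa [det, WN] using hN.ne_zero
  rw [← K.acm _ _ _ hd hd]
  have e : mul (WN N) (WN N) = smu (-N) (1, 0, 0, 1) := by simp [mul, WN, smu]
  rw [e, (K.sca (fun _ => 0) (-N) (1, 0, 0, 1) (neg_ne_zero.2 h0) (by simp [det])).2,
    (K.one fun _ => 0).2]
  rfl

open Classical in
lemma rg_real (R : RgS) (N : ℕ) (w : ℍ) (U : ℤ × ℤ → ℝ) (hU : Summable fun v : PR N => U v) :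
    HasSum (fun g : MM N 1 => if st (ac g w) then U g.1.2.2 else 0) (∑' v : PR N, U v) := by
  obtain ⟨h1, h2⟩ := (R N).2 w (fun g => (U g.2.2 : ℂ)) (fun g _ j => by simp [mul])
    (by simpa [bz] using hU.abs)
  have h3 := h1.of_norm.hasSum
  rw [h2] at h3
  rw [← Complex.hasSum_ofReal, Complex.ofReal_tsum]
  have e : (fun g : MM N 1 => ((if st (ac g w) then U g.1.2.2 else 0 : ℝ) : ℂ)) =
      fun g : MM N 1 => if st (ac g w) then (U g.1.2.2 : ℂ) else 0 := by
    funext g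
    split_ifs <;> simp
  rw [e]
  exact h3

/-- conjugation by the involution -/
def sg (N : ℕ) (g : Mt) : Mt := (g.2.2.2, -(g.2.2.1 / N), -(N * g.2.1), g.1)

lemma sg_mem {N : ℕ} {g : Mt} (hg : g ∈ MM N 1) : sg N g ∈ MM N 1 := by
  obtain ⟨a, b, c, d⟩ := g
  obtain ⟨h1, h2⟩ := hg
  simp only [det] at h1 h2
  refine ⟨?_, by simp [sg]⟩
  have := Int.mul_ediv_cancel' h2
  simp only [det, sg]
  rw [← h1]
  linear_combination (-b) * this

lemma sg_sg {N : ℕ} (hN : N.Prime) {g : Mt} (hg : g ∈ MM N 1) : sg N (sg N g) = g := by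
  have h0 : (N : ℤ) ≠ 0 := by exact_mod_cast hN.ne_zero
  obtain ⟨a, b, c, d⟩ := g
  obtain ⟨h1, h2⟩ := hg
  simp only at h2
  have e1 := Int.mul_ediv_cancel' h2
  have e2 : -((N : ℤ) * b) / N = -b := by
    rw [← mul_neg, Int.mul_ediv_cancel_left _ h0]
  simp only [sg, e2, mul_neg, neg_neg, e1]

lemma sg_mul {N : ℕ} {g : Mt} (hg : g ∈ MM N 1) : mul (WN N) g = mul (sg N g) (WN N) := by
  obtain ⟨a, b, c, d⟩ := g
  obtain ⟨h1, h2⟩ := hg
  simp only at h2
  have e1 := Int.ediv_mul_cancel h2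
  simp [mul, WN, sg, e1, mul_comm a]

def sgE {N : ℕ} (hN : N.Prime) : MM N 1 ≃ MM N 1 where
  toFun g := ⟨sg N g, sg_mem g.2⟩
  invFun g := ⟨sg N g, sg_mem g.2⟩
  left_inv g := Subtype.ext (sg_sg hN g.2)
  right_inv g := Subtype.ext (sg_sg hN g.2)

def i1 (N : ℕ) (v : PR N) : {v : ℤ × ℤ // IsCoprime v.1 v.2} := ⟨v.1, v.2.1⟩

def i2 (N : ℕ) (v : PR N) : {v : ℤ × ℤ // IsCoprime v.1 v.2} :=
  ⟨(v.1.2, -(v.1.1 / N)), by
    have h := v.2.1
    rw [← Int.mul_ediv_cancel' v.2.2] at h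
    exact h.of_mul_left_right.symm.neg_right⟩

lemma i1_inj (N : ℕ) : Function.Injective (i1 N) := by
  intro v w h
  have h1 := congrArg Subtype.val h
  exact Subtype.ext h1

lemma i2_inj (N : ℕ) : Function.Injective (i2 N) := by
  intro v w h
  have h1 := congrArg Subtype.val h
  simp only [i2, Prod.mk.injEq, neg_inj] at h1
  refine Subtype.ext (Prod.ext ?_ h1.1)
  rw [← Int.mul_ediv_cancel' v.2.2, ← Int.mul_ediv_cancel' w.2.2, h1.2]

lemma i_compl {N : ℕ} (hN : N.Prime) : IsCompl (Set.range (i1 N)) (Set.range (i2 N)) := by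
  have h0 : (N : ℤ) ≠ 0 := by exact_mod_cast hN.ne_zero
  have hp : Prime (N : ℤ) := Nat.prime_iff_prime_int.1 hN
  have e : Set.range (i2 N) = (Set.range (i1 N))ᶜ := by
    ext p
    constructor
    · rintro ⟨v, rfl⟩ ⟨w, hw⟩
      have h1 := congrArg Subtype.val hw
      simp only [i1, i2] at h1
      have h2 : (N : ℤ) ∣ v.1.2 := by
        have := w.2.2
        rw [h1] at this
        exact this
      exact hp.not_isUnit (v.2.1.isUnit_of_dvd' v.2.2 h2)
    · intro h
      have h1 : ¬ (N : ℤ) ∣ p.1.1 := fun hd => h ⟨⟨p.1, p.2, hd⟩, rfl⟩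
      have h2 : IsCoprime (N : ℤ) p.1.1 := (hp.irreducible.coprime_iff_not_dvd).2 h1
      refine ⟨⟨(N * -p.1.2, p.1.1), h2.mul_left p.2.symm.neg_left, dvd_mul_right _ _⟩, ?_⟩
      refine Subtype.ext (Prod.ext rfl ?_)
      simp only [i2]
      rw [Int.mul_ediv_cancel_left _ h0, neg_neg]
  rw [e]
  exact isCompl_compl

lemma eta_sum (K : KitS) (T : ThS) (R : RgS) {N : ℕ} (hN : N.Prime) (z : ℍ) :
    HasSum (fun g : MM N 1 => eta N (ac g z)) 2 := by
  have h0 : (N : ℤ) ≠ 0 := by exact_mod_cast hN.ne_zero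
  have hNr : (0 : ℝ) < N := by exact_mod_cast hN.pos
  have hd : det (WN N) = N := by simp [det, WN]
  set H : ℤ × ℤ → ℝ := fun v => hh (z.im / ‖(v.1 : ℂ) * z + v.2‖ ^ 2) with hH
  have hT : HasSum (fun v : {v : ℤ × ℤ // IsCoprime v.1 v.2} => H v.1) 2 := T.2.2 z
  have s1 := hT.summable.comp_injective (i1_inj N)
  have s2 := hT.summable.comp_injective (i2_inj N)
  have hsum := HasSum.add_isCompl (f := fun v : {v : ℤ × ℤ // IsCoprime v.1 v.2} => H v.1)
    (i_compl hN) ((i1_inj N).hasSum_range_iff.2 s1.hasSum) ((i2_inj N).hasSum_range_iff.2 s2.hasSum)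
  have A := rg_real R N z H s1
  have B := rg_real R N (ac (WN N) z) (fun v => H (v.2, -(v.1 / N))) s2
  have B' := (sgE hN).hasSum_iff.2 B
  rw [hT.unique hsum]
  refine hs_congr (A.add B') fun g => ?_
  have hg1 : det g.1 = 1 := by simpa using g.2.1
  have hs1 : det (sg N g.1) = 1 := by simpa using (sg_mem g.2).1
  unfold eta
  congr 1
  · unfold et0
    rw [K.imz _ _ (by rw [hg1]; exact one_pos), hg1]
    simp [hH]
  · have hdm : det (mul (WN N) g.1) = N := by
      rw [← mul_one (N : ℤ), ← hg1]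
      simp only [det, mul, WN]
      ring
    have e1 : ac (WN N) (ac g z) = ac (sg N g) (ac (WN N) z) := by
      rw [← K.acm _ _ _ (by rw [hd]; exact h0) (by rw [hg1]; exact one_ne_zero), sg_mul g.2,
        K.acm _ _ _ (by rw [hs1]; exact one_ne_zero) (by rw [hd]; exact h0)]
    have e2 : (N : ℝ) * (ac (WN N) (ac g z)).im =
        z.im / ‖((g.1.1 : ℤ) : ℂ) * z + ((-(-((N : ℤ) * g.1.2.1) / N) : ℤ) : ℂ)‖ ^ 2 := by
      rw [← K.acm _ _ _ (by rw [hd]; exact h0) (by rw [hg1]; exact one_ne_zero),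
        K.imz _ _ (by rw [hdm]; exact_mod_cast hN.pos), hdm, ← mul_neg,
        Int.mul_ediv_cancel_left _ h0, neg_neg]
      have e3 : (((mul (WN N) g.1).2.2.1 : ℤ) : ℂ) * z + ((mul (WN N) g.1).2.2.2 : ℤ) =
          (N : ℂ) * (((g.1.1 : ℤ) : ℂ) * z + (g.1.2.1 : ℤ)) := by
        simp only [mul, WN]
        push_cast
        ring
      rw [e3, norm_mul, Complex.norm_natCast, mul_pow]
      push_cast
      field_simp
    unfold et0
    rw [e2, e1]
    rfl

end EtaA

open EtaA in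
theorem etaOf : EtaOf := by
  intro K T R
  refine ⟨fun l hl => ⟨met T l, et_nonneg T hl, et_int K T hl⟩, fun N hN => ?_⟩
  have hNr : (0 : ℝ) < N := by exact_mod_cast hN.pos
  have mp := K.mp (gl (WN N))
  refine ⟨(met T 1).add ((met T N).comp mp.measurable),
    fun z => add_nonneg (et_nonneg T one_pos _) (et_nonneg T hNr _),
    (et_int' K T one_pos).add (mp.integrable_comp_of_integrable (et_int' K T hNr)),
    eta_sum K T R hN, fun u h1 h2 => ?_⟩
  obtain ⟨e1, e2⟩ := K.ints (gl (WN N)) fun z => (et0 N z : ℂ) * u (ac (WN N) z)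
  have e3 : (fun z : ℍ => (et0 N (gl (WN N) • z) : ℂ) * u (ac (WN N) (gl (WN N) • z))) =
      fun z => (et0 N (ac (WN N) z) : ℂ) * u z := by
    funext z
    rw [show gl (WN N) • z = ac (WN N) z from rfl, acWW K hN]
  rw [e3] at e1 e2
  have e4 : (fun z : ℍ => (eta N z : ℂ) * u z) =
      fun z => (et0 1 z : ℂ) * u z + (et0 N (ac (WN N) z) : ℂ) * u z := by
    funext z
    unfold eta
    push_cast
    ring
  rw [e4]
  exact ⟨h1.add (e2.2 h2), by rw [integral_add h1 (e2.2 h2), e1]⟩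

end Pool.Agent.MP_20b2fd_nt.H38
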