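import Pool.Agent.MP_20b2fd_nt.H38.SpecA

/-! The Hecke bracket. -/

set_option autoImplicit false

namespace Pool.Agent.MP_20b2fd_nt.H38

open Finset

namespace HbA

theorem split {R : Type} [AddCommMonoid R] (f : ℕ → R) {p : ℕ} (hp : p.Prime) (g : ℕ) :
    ∑ d ∈ g.divisors, f d = ∑ d ∈ g.divisors with ¬p ∣ d, f d +
      if p ∣ g then ∑ e ∈ (g / p).divisors, f (p * e) else 0 := by
  rw [← sum_filter_not_add_sum_filter _ (p ∣ ·)]
  congr 1
  split_ifs with h
  · obtain ⟨g, rfl⟩ := h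
    rw [Nat.mul_div_cancel_left _ hp.pos]
    refine (sum_bij (fun e _ => p * e) ?_ ?_ ?_ fun _ _ => rfl).symm
    · intro e he
      rw [Nat.mem_divisors] at he
      exact mem_filter.2 ⟨Nat.mem_divisors.2 ⟨mul_dvd_mul_left p he.1, mul_ne_zero hp.ne_zero he.2⟩,
        dvd_mul_right p e⟩
    · exact fun _ _ _ _ h => Nat.eq_of_mul_eq_mul_left hp.pos h
    · intro d hd
      obtain ⟨h1, e, rfl⟩ := mem_filter.1 hd
      rw [Nat.mem_divisors] at h1
      exact ⟨e, Nat.mem_divisors.2 ⟨Nat.dvd_of_mul_dvd_mul_left hp.pos h1.1,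
        right_ne_zero_of_mul h1.2⟩, rfl⟩
  · exact sum_eq_zero fun d hd =>
      absurd ((mem_filter.1 hd).2.trans (Nat.dvd_of_mem_divisors (mem_filter.1 hd).1)) h

theorem comm (l : ℕ → ℂ) (m n : ℕ) : Bh l m n = Bh l n m := by
  rw [Bh, Bh, Nat.gcd_comm, mul_comm m]

theorem key (l : ℕ → ℂ) {p m n : ℕ} (hp : p.Prime) (hm : 1 ≤ m) :
    Bh l m (p * n) = ∑ d ∈ (m.gcd n).divisors with ¬p ∣ d, (d : ℂ) * l (p * (m * n) / d ^ 2) +
      if p ∣ m then p * Bh l (m / p) n else 0 := by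
  rw [Bh, split _ hp, mul_left_comm m]
  congr 1
  · refine sum_congr (Finset.ext fun d => ?_) fun _ _ => rfl
    simp only [mem_filter, Nat.mem_divisors, Nat.dvd_gcd_iff, and_congr_left_iff]
    intro h
    have : m ≠ 0 := by omega
    rw [(hp.coprime_iff_not_dvd.2 h).symm.dvd_mul_left]
    simp [this]
  · by_cases h : p ∣ m
    · obtain ⟨m, rfl⟩ := h
      rw [Nat.gcd_mul_left, if_pos (dvd_mul_right _ _), if_pos (dvd_mul_right _ _),
        Nat.mul_div_cancel_left _ hp.pos, Nat.mul_div_cancel_left _ hp.pos, Bh, mul_sum]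
      refine sum_congr rfl fun e _ => ?_
      rw [mul_pow, mul_assoc p m, ← mul_assoc p p, ← sq, Nat.mul_div_mul_left _ _ (pow_pos hp.pos 2),
        Nat.cast_mul, mul_assoc]
    · rw [if_neg h, if_neg fun k => h (k.trans (Nat.gcd_dvd_left _ _))]

theorem one (l : ℕ → ℂ) (p m n : ℕ) (hp : p.Prime) (hm : 1 ≤ m) (hn : 1 ≤ n) :
    Bh l m (p * n) + (if p ∣ n then p * Bh l m (n / p) else 0) =
      Bh l (p * m) n + if p ∣ m then p * Bh l (m / p) n else 0 := by
  rw [comm l (p * m), key l hp hm, key l hp hn, comm l m, Nat.gcd_comm n, mul_comm n, add_right_comm]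

theorem two (N : ℕ) (a : ℕ → ℂ) (h1 : a 1 = 1) (h : ∀ p n : ℕ, p.Prime → ¬ p ∣ N → 1 ≤ n →
    a (p * n) + (if p ∣ n then p * a (n / p) else 0) = a p * a n) (m n : ℕ) (hm : 1 ≤ m)
    (hn : 1 ≤ n) (c : n.Coprime N) : a m * a n = Bh a m n := by
  induction n using Nat.strong_induction_on generalizing m with
  | _ n ih =>
  rcases eq_or_lt_of_le hn with rfl | lt
  · simp [Bh, h1]
  obtain ⟨p, hp, n, rfl⟩ := Nat.exists_prime_and_dvd lt.ne'
  have n1 : 1 ≤ n := Nat.pos_of_mul_pos_left hn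
  have pN : ¬p ∣ N := hp.coprime_iff_not_dvd.1 c.coprime_mul_right
  have l1 : n < p * n := lt_mul_left n1 hp.one_lt
  have c1 := c.coprime_mul_left
  have e1 := one a p m n hp hm n1
  have e2 := h p n hp pN n1
  have e3 := h p m hp pN hm
  rw [← ih n l1 _ (Nat.mul_pos hp.pos hm) n1 c1] at e1
  have e4 : (if p ∣ n then p * Bh a m (n / p) else 0) =
      a m * if p ∣ n then p * a (n / p) else 0 := by
    split_ifs with k
    · rw [← ih _ ((Nat.div_le_self _ _).trans_lt l1) m hm (Nat.div_pos (Nat.le_of_dvd n1 k) hp.pos)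
        (c1.coprime_dvd_left (Nat.div_dvd_of_dvd k)), mul_left_comm]
    · simp
  have e5 : (if p ∣ m then p * Bh a (m / p) n else 0) =
      (if p ∣ m then p * a (m / p) else 0) * a n := by
    split_ifs with k
    · rw [← ih n l1 _ (Nat.div_pos (Nat.le_of_dvd hm k) hp.pos) n1 c1, mul_assoc]
    · simp
  rw [e4, e5] at e1
  linear_combination a m * e2 - a n * e3 - e1

theorem four (p n : ℕ) (hp : p.Prime) (hn : 1 ≤ n) :
    sig (p * n) + (if p ∣ n then p * sig (n / p) else 0) = (p + 1) * sig n := by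
  have e1 := split (fun d => (d : ℝ)) hp (p * n)
  have e2 := split (fun d => (d : ℝ)) hp n
  rw [if_pos (dvd_mul_right _ _), Nat.mul_div_cancel_left _ hp.pos, show
    (p * n).divisors.filter (¬p ∣ ·) = n.divisors.filter (¬p ∣ ·) from Finset.ext fun d => by
      simp only [mem_filter, Nat.mem_divisors, and_congr_left_iff]
      intro h
      have : n ≠ 0 := by omega
      rw [(hp.coprime_iff_not_dvd.2 h).symm.dvd_mul_left]
      simp [this, hp.ne_zero]] at e1
  simp only [Nat.cast_mul, ← mul_sum] at e1 e2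
  simp only [sig]
  linear_combination e1 - e2

end HbA

theorem hb : HbS := by
  refine ⟨HbA.one, HbA.two, fun m n hm hn => ?_, HbA.four⟩
  have := HbA.two 1 (fun n => (sig n : ℂ)) (by simp [sig]) (fun p n hp _ hn => by
    have e1 := HbA.four p n hp hn
    have e2 := HbA.four p 1 hp le_rfl
    rw [if_neg hp.not_dvd_one, mul_one, add_zero, show sig 1 = 1 by simp [sig], mul_one] at e2
    rw [← e2] at e1
    split_ifs at e1 ⊢ <;> exact_mod_cast e1) m n hm hn (Nat.coprime_one_right n)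
  rw [Bh] at this ⊢
  exact_mod_cast this

end Pool.Agent.MP_20b2fd_nt.H38
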