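import Pool.Agent.MP_20b2fd_nt.H38.SpecA

/-! Row Hq: the Hecke operators on coefficients and the relation at the level. -/

set_option autoImplicit false

namespace Pool.Agent.MP_20b2fd_nt.H38

open UpperHalfPlane hiding I
open MeasureTheory Complex Finset Filter Topology
open scoped ModularForm Real Manifold ENNReal MatrixGroups

namespace HqA

theorem gr_val {a b c d : ℝ} (h : a * d - b * c ≠ 0) :
    ((gr a b c d : GL (Fin 2) ℝ) : Matrix (Fin 2) (Fin 2) ℝ) = !![a, b; c, d] := by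
  unfold gr
  rw [dif_pos h]
  rfl

theorem gl_val {g : Mt} (h : det g ≠ 0) :
    ((gl g : GL (Fin 2) ℝ) : Matrix (Fin 2) (Fin 2) ℝ) =
      !![(g.1 : ℝ), (g.2.1 : ℝ); (g.2.2.1 : ℝ), (g.2.2.2 : ℝ)] := by
  unfold gl
  apply gr_val
  unfold det at h
  exact_mod_cast h

theorem ee_add (x y : ℂ) : ee (x + y) = ee x * ee y := by
  unfold ee
  rw [← Complex.exp_add]
  congr 1
  ring

theorem geo (q n : ℕ) (hq : q ≠ 0) :
    ∑ i ∈ range q, ee (n * (i / q)) = if q ∣ n then (q : ℂ) else 0 := by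
  have hζ := Complex.isPrimitiveRoot_exp q hq
  set ζ := Complex.exp (2 * π * I / q) with hζd
  have e : ∀ i : ℕ, ee (n * (i / q)) = (ζ ^ n) ^ i := by
    intro i
    rw [← pow_mul, hζd, ← Complex.exp_nat_mul]
    unfold ee
    congr 1
    push_cast
    ring
  simp only [e]
  split_ifs with h
  · rw [(hζ.pow_eq_one_iff_dvd n).mpr h]
    simp
  · have h1 : ζ ^ n ≠ 1 := fun h' => h ((hζ.pow_eq_one_iff_dvd n).mp h')
    rw [geom_sum_eq h1, ← pow_mul, mul_comm, pow_mul, hζ.pow_eq_one]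
    simp

theorem hs_congr {u v : ℕ → ℂ} {a : ℂ} (h : HasSum u a) (e : ∀ n, v n = u n) :
    HasSum v a := (funext e : v = u) ▸ h

theorem lemU (K : KitS) (q : ℕ) (hq : q ≠ 0) (F : ℍ → ℂ) (a : ℕ → ℂ)
    (ha : ∀ z : ℍ, HasSum (fun n : ℕ => a n * ee (n * z)) (F z)) (z : ℍ) :
    HasSum (fun m : ℕ => a (q * m) * ee (m * z)) (∑ i ∈ range q, sl F (1, i, 0, q) z) := by
  have hqC : (q : ℂ) ≠ 0 := by exact_mod_cast hq
  have hd : ∀ i : ℕ, det ((1, i, 0, q) : Mt) = q := by
    intro i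
    simp [det]
  have hp : ∀ i : ℕ, 0 < det ((1, i, 0, q) : Mt) := by
    intro i
    rw [hd]
    exact_mod_cast Nat.pos_of_ne_zero hq
  have h1 : ∀ i ∈ range q, HasSum
      (fun n : ℕ => a n * ee (n * (z / q)) / q * ee (n * (i / q))) (sl F (1, i, 0, q) z) := by
    intro i _
    rw [K.slz F _ z (hp i), hd]
    have h2 := (ha (ac (1, i, 0, q) z)).mul_left
      (((q : ℤ) : ℂ) / ((((0 : ℤ) : ℂ)) * z + ((q : ℤ) : ℂ)) ^ 2)
    rw [K.coez _ z (hp i)] at h2
    refine hs_congr h2 ?_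
    intro n
    have e : (n : ℂ) * ((((1 : ℤ) : ℂ) * z + ((i : ℤ) : ℂ)) / (((0 : ℤ) : ℂ) * z + ((q : ℤ) : ℂ))) =
        n * (z / q) + n * (i / q) := by
      push_cast
      ring
    simp only
    rw [e, ee_add]
    push_cast
    rw [zero_mul, zero_add]
    field_simp
  have h3 := hasSum_sum h1
  simp only [← Finset.mul_sum, geo q _ hq] at h3
  have hinj : Function.Injective fun m : ℕ => q * m := mul_right_injective₀ hq
  rw [← hinj.hasSum_iff] at h3
  · refine hs_congr h3 ?_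
    intro m
    simp only [Function.comp_apply, dvd_mul_right, if_true]
    have e : ((q * m : ℕ) : ℂ) * (z / q) = m * z := by
      push_cast
      field_simp
    rw [e]
    field_simp
  · intro n hn
    rw [if_neg, mul_zero]
    rintro ⟨m, rfl⟩
    exact hn ⟨m, rfl⟩

theorem lemV (K : KitS) (q : ℕ) (hq : q ≠ 0) (F : ℍ → ℂ) (a : ℕ → ℂ)
    (ha : ∀ z : ℍ, HasSum (fun n : ℕ => a n * ee (n * z)) (F z)) (z : ℍ) :
    HasSum (fun m : ℕ => (if q ∣ m then q * a (m / q) else 0) * ee (m * z))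
      (sl F (q, 0, 0, 1) z) := by
  have hd : det ((q, 0, 0, 1) : Mt) = q := by simp [det]
  have hp : 0 < det ((q, 0, 0, 1) : Mt) := by
    rw [hd]
    exact_mod_cast Nat.pos_of_ne_zero hq
  rw [K.slz F _ z hp, hd]
  have h2 := (ha (ac (q, 0, 0, 1) z)).mul_left
    (((q : ℤ) : ℂ) / ((((0 : ℤ) : ℂ)) * z + ((1 : ℤ) : ℂ)) ^ 2)
  rw [K.coez _ z hp] at h2
  have hinj : Function.Injective fun m : ℕ => q * m := mul_right_injective₀ hq
  rw [← hinj.hasSum_iff]
  · refine hs_congr h2 ?_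
    intro m
    simp only [Function.comp_apply, dvd_mul_right, if_true]
    rw [Nat.mul_div_cancel_left _ (Nat.pos_of_ne_zero hq)]
    have e : (m : ℂ) * ((((q : ℤ) : ℂ) * z + ((0 : ℤ) : ℂ)) / (((0 : ℤ) : ℂ) * z + ((1 : ℤ) : ℂ))) =
        ((q * m : ℕ) : ℂ) * z := by
      push_cast
      field_simp
      ring
    rw [e]
    push_cast
    ring
  · intro n hn
    rw [if_neg, zero_mul]
    rintro ⟨m, rfl⟩
    exact hn ⟨m, rfl⟩

theorem md_sum {ι : Type} (s : Finset ι) (F : ι → ℍ → ℂ)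
    (h : ∀ i ∈ s, MDifferentiable 𝓘(ℂ) 𝓘(ℂ) (F i)) :
    MDifferentiable 𝓘(ℂ) 𝓘(ℂ) fun z => ∑ i ∈ s, F i z := by
  simp only [mdifferentiable_iff] at h ⊢
  exact DifferentiableOn.fun_sum (A := fun i => F i ∘ ofComplex) h

theorem zr_sum {ι : Type} (s : Finset ι) (F : ι → ℍ → ℂ)
    (h : ∀ i ∈ s, IsZeroAtImInfty (F i)) : IsZeroAtImInfty fun z => ∑ i ∈ s, F i z := by
  have := tendsto_finsetSum s h
  rw [Finset.sum_const_zero] at this
  exact this

theorem md_sl (F : ℍ → ℂ) (g : Mt) (h : MDifferentiable 𝓘(ℂ) 𝓘(ℂ) F) :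
    MDifferentiable 𝓘(ℂ) 𝓘(ℂ) (sl F g) := h.slash 2 (gl g)

theorem zr_sl (F : ℍ → ℂ) (g : Mt) (hd : det g ≠ 0) (h0 : g.2.2.1 = 0) (h : IsZeroAtImInfty F) :
    IsZeroAtImInfty (sl F g) := by
  refine h.slash 2 ?_
  rw [gl_val hd, h0]
  simp

theorem zr_TT (p : ℕ) (hp : p ≠ 0) (F : ℍ → ℂ) (h : IsZeroAtImInfty F) :
    IsZeroAtImInfty (TT p F) := by
  refine zr_sum _ _ fun i _ => zr_sl F _ ?_ ?_ h
  · unfold rp
    split_ifs <;> simpa [det] using hp
  · unfold rp
    split_ifs <;> rfl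

theorem TT_eq (p : ℕ) (F : ℍ → ℂ) (z : ℍ) :
    TT p F z = (∑ i ∈ range p, sl F (1, i, 0, p) z) + sl F (p, 0, 0, 1) z := by
  unfold TT
  rw [Finset.sum_range_succ]
  congr 1
  · refine Finset.sum_congr rfl fun i hi => ?_
    rw [rp, if_pos (Finset.mem_range.mp hi)]
  · rw [rp, if_neg (lt_irrefl p)]

/-! ### the trace to level one -/

theorem lev_one (F : ℍ → ℂ) (hS : sl F (0, -1, 1, 0) = F) (hT : sl F (1, 1, 0, 1) = F)
    (hd : MDifferentiable 𝓘(ℂ) 𝓘(ℂ) F) (hz : IsZeroAtImInfty F) : F = 0 := by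
  have eS : gl (0, -1, 1, 0) = (ModularGroup.S : GL (Fin 2) ℝ) := by
    apply Units.ext
    rw [gl_val (by simp [det])]
    ext i j
    change _ = ((ModularGroup.S i j : ℤ) : ℝ)
    fin_cases i <;> fin_cases j <;> simp [ModularGroup.S]
  have eT : gl (1, 1, 0, 1) = (ModularGroup.T : GL (Fin 2) ℝ) := by
    apply Units.ext
    rw [gl_val (by simp [det])]
    ext i j
    change _ = ((ModularGroup.T i j : ℤ) : ℝ)
    fin_cases i <;> fin_cases j <;> simp [ModularGroup.T]
  have hS' : F ∣[(2 : ℤ)] ModularGroup.S = F := by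
    rw [ModularForm.SL_slash, ← eS]
    exact hS
  have hT' : F ∣[(2 : ℤ)] ModularGroup.T = F := by
    rw [ModularForm.SL_slash, ← eT]
    exact hT
  have hall := SlashInvariantForm.slash_action_generators_SL2Z hS' hT'
  let G : CuspForm 𝒮ℒ 2 :=
    { toFun := F
      slash_action_eq' := by
        rintro _ ⟨γ, rfl⟩
        exact hall γ
      holo' := hd
      zero_at_cusps' := fun hc => by
        rw [OnePoint.isZeroAt_iff_forall_SL2Z hc]
        intro γ _
        rw [hall γ]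
        exact hz }
  have h0 := rank_zero_iff_forall_zero.mp
    (CuspForm.rank_eq_zero_of_weight_lt_twelve (k := 2) (by norm_num)) G
  have : (G : ℍ → ℂ) = 0 := by rw [h0]; rfl
  exact this

theorem same_row (K : KitS) (N : ℕ) (g : ℍ → ℂ) (hg : Inv N g) (A B : Mt) (hA : det A = 1)
    (hB : det B = 1) (h : (N : ℤ) ∣ A.2.2.1 * B.2.2.2 - A.2.2.2 * B.2.2.1) :
    sl g A = sl g B := by
  obtain ⟨a, b, c, d⟩ := A
  obtain ⟨a', b', c', d'⟩ := B
  simp only [det] at hA hB
  have hm : mul (a, b, c, d) (adj (a', b', c', d')) ∈ MM N 1 := by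
    constructor
    · simp only [det, mul, adj]
      push_cast
      linear_combination (a' * d' - b' * c') * hA + hB
    · simp only [mul, adj]
      simpa [sub_eq_add_neg] using h
  have e : mul (mul (a, b, c, d) (adj (a', b', c', d'))) (a', b', c', d') = (a, b, c, d) := by
    simp only [mul, adj, Prod.mk.injEq]
    refine ⟨?_, ?_, ?_, ?_⟩
    · linear_combination a * hB
    · linear_combination b * hB
    · linear_combination c * hB
    · linear_combination d * hB
  rw [← e, ← K.slm g _ _ (by rw [hm.1]; simp) (by simp [det, hB]), hg _ hm]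

theorem sl_add (F G : ℍ → ℂ) (g : Mt) :
    sl (fun z => F z + G z) g = fun z => sl F g z + sl G g z :=
  SlashAction.add_slash (2 : ℤ) (gl g) F G

theorem sl_sum (K : KitS) {ι : Type} (s : Finset ι) (F : ι → ℍ → ℂ) (g : Mt) (h : 0 < det g) :
    sl (fun z => ∑ i ∈ s, F i z) g = fun z => ∑ i ∈ s, sl (F i) g z := by
  funext z
  simp only [K.slz _ g z h, Finset.mul_sum]

theorem sum_zmod (N : ℕ) [NeZero N] (u : ℕ → ℂ) :
    ∑ j ∈ range N, u j = ∑ v : ZMod N, u v.val := by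
  symm
  refine Finset.sum_bij (fun v _ => v.val) (fun v _ => mem_range.mpr (ZMod.val_lt v))
    (fun a _ b _ h => ZMod.val_injective N h)
    (fun j hj => ⟨j, mem_univ _, ZMod.val_cast_of_lt (mem_range.mp hj)⟩) fun _ _ => rfl

theorem trace (K : KitS) (N : ℕ) [NeZero N] (hN : N.Prime) (g : ℍ → ℂ) (hg : Inv N g) :
    ∀ F : ℍ → ℂ, F = (fun z => g z + ∑ v : ZMod N, sl g (0, -1, 1, v.val) z) →
      sl F (0, -1, 1, 0) = F ∧ sl F (1, 1, 0, 1) = F := by
  have := Fact.mk hN
  intro F hF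
  have hdv : ∀ x : ℤ, (x : ZMod N) = 0 → (N : ℤ) ∣ x := fun x hx =>
    (ZMod.intCast_zmod_eq_zero_iff_dvd x N).mp hx
  constructor
  · rw [hF, sl_add, sl_sum K _ _ _ (by simp [det])]
    funext z
    have e1 : ∀ v : ZMod N, sl (sl g (0, -1, 1, v.val)) (0, -1, 1, 0) z =
        sl g (0, -1, 1, (-v⁻¹).val) z + if v = 0 then g z - sl g (0, -1, 1, 0) z else 0 := by
      intro v
      rw [K.slm g _ _ (by simp [det]) (by simp [det])]
      by_cases hv : v = 0
      · subst hv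
        rw [if_pos rfl, same_row K N g hg _ (1, 0, 0, 1) (by simp [det, mul]) (by simp [det])
          (by simp [mul]), (K.one g).1]
        simp
      · rw [if_neg hv, add_zero, same_row K N g hg _ (0, -1, 1, (-v⁻¹).val) (by simp [det, mul])
          (by simp [det])]
        apply hdv
        simp [mul, hv]
    simp only [e1, Finset.sum_add_distrib, Finset.sum_ite_eq', mem_univ, if_true]
    have e2 : ∑ v : ZMod N, sl g (0, -1, 1, (-v⁻¹).val) z =
        ∑ v : ZMod N, sl g (0, -1, 1, v.val) z :=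
      Equiv.sum_comp ((Equiv.inv (ZMod N)).trans (Equiv.neg (ZMod N)))
        (fun v : ZMod N => sl g (0, -1, 1, v.val) z)
    rw [e2]
    ring
  · rw [hF, sl_add, sl_sum K _ _ _ (by simp [det])]
    funext z
    have e1 : ∀ v : ZMod N, sl (sl g (0, -1, 1, v.val)) (1, 1, 0, 1) z =
        sl g (0, -1, 1, (v + 1).val) z := by
      intro v
      rw [K.slm g _ _ (by simp [det]) (by simp [det]),
        same_row K N g hg _ (0, -1, 1, (v + 1).val) (by simp [det, mul]) (by simp [det])]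
      apply hdv
      simp [mul, add_comm]
    simp only [e1]
    have e2 : ∑ v : ZMod N, sl g (0, -1, 1, (v + 1).val) z =
        ∑ v : ZMod N, sl g (0, -1, 1, v.val) z :=
      Equiv.sum_comp (Equiv.addRight (1 : ZMod N)) (fun v : ZMod N => sl g (0, -1, 1, v.val) z)
    rw [e2, hg (1, 1, 0, 1) ⟨by simp [det], by simp⟩]

end HqA

open HqA in
theorem hqOf : HqOf := by
  intro K hCos hQx hCusp N f hN
  have : NeZero N := ⟨hN.ne_zero⟩
  obtain ⟨hc1, hc2⟩ := hCusp N hN
  have hz : ∀ u : CF N, IsZeroAtImInfty u := fun u => CuspFormClass.zero_at_infty u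
  have hm : ∀ u : CF N, MDifferentiable 𝓘(ℂ) 𝓘(ℂ) u := fun u => CuspFormClass.holo u
  constructor
  · intro p hp hpN
    obtain ⟨hI, -, -, -, f', hf'⟩ := hc1 f
    obtain ⟨-, hI2, hW⟩ := (hCos N p hN hp hpN).2.2 f hI
    obtain ⟨g, hg⟩ := hc2 (TT p f) hI2 (md_sum _ _ fun i _ => md_sl _ _ (hm f))
      (zr_TT p hp.ne_zero _ (hz f)) (by
        rw [← hW, ← hf']
        exact zr_TT p hp.ne_zero _ (hz f'))
    refine ⟨g, hg, fun n => ?_⟩
    have hs := (hQx N f).2.2.1
    have := (hQx N g).2.2.2.1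
      (fun n => co f (p * n) + if p ∣ n then p * co f (n / p) else 0) (fun z => by
        rw [hg, TT_eq]
        simp only [add_mul]
        exact (lemU K p hp.ne_zero f _ hs z).add (lemV K p hp.ne_zero f _ hs z))
    rw [this]
  · intro g hg n
    have hNz : (N : ℤ) ≠ 0 := by exact_mod_cast hN.ne_zero
    have hdW : det (WN N) ≠ 0 := by simpa [det, WN] using hN.ne_zero
    have hfg : sl g (WN N) = f := by
      rw [hg, K.slm _ _ _ hdW hdW]
      have e : mul (WN N) (WN N) = smu (-N) (1, 0, 0, 1) := by simp [mul, WN, smu]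
      rw [e, (K.sca f _ _ (neg_ne_zero.mpr hNz) (by simp [det])).1, (K.one f).1]
    have e1 : ∀ j : ℕ, sl f (1, j, 0, N) = sl g (0, -1, 1, j) := by
      intro j
      rw [← hfg, K.slm _ _ _ hdW (by simpa [det] using hN.ne_zero)]
      have e : mul (WN N) (1, j, 0, N) = smu N (0, -1, 1, j) := by simp [mul, WN, smu]
      rw [e, (K.sca g _ _ hNz (by simp [det])).1]
    have e2 : (fun z => g z + ∑ j ∈ range N, sl f (1, j, 0, N) z) =
        fun z => g z + ∑ v : ZMod N, sl g (0, -1, 1, v.val) z := by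
      funext z
      simp only [e1]
      rw [sum_zmod N fun j => sl g (0, -1, 1, j) z]
    obtain ⟨hS, hT⟩ := trace K N hN g (hc1 g).1 _ e2
    have h0 := lev_one _ hS hT ((hm g).add (md_sum _ _ fun i _ => md_sl _ _ (hm f)))
      ((hz g).add (zr_sum _ _ fun i _ =>
        zr_sl _ _ (by simpa [det] using hN.ne_zero) rfl (hz f)))
    have := (hQx N g).2.2.2.1 (fun n => -co f (N * n)) (fun z => by
      have h1 := (lemU K N hN.ne_zero f _ (hQx N f).2.2.1 z).neg
      have h2 : g z + ∑ j ∈ range N, sl f (1, j, 0, N) z = 0 := congrFun h0 z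
      rw [eq_neg_of_add_eq_zero_left h2]
      simpa only [neg_mul] using h1)
    rw [this, neg_neg]

end Pool.Agent.MP_20b2fd_nt.H38
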