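import Pool.Agent.MP_20b2fd_nt.H38.SpecA

/-! Bounds for the weight `kap`. -/

set_option autoImplicit false

namespace Pool.Agent.MP_20b2fd_nt.H38

open MeasureTheory Set
open scoped Real

namespace KapA

theorem le_two (h : ThS) {y : ℝ} (hy : 0 < y) : hh y ≤ 2 := by
  have h1 := (h.2.1 y hy).2.1
  have h2 : Real.exp (-π / (2 * y)) ≤ 1 :=
    Real.exp_le_one_iff.mpr (div_nonpos_of_nonpos_of_nonneg (by linarith [Real.pi_pos])
      (by positivity))
  linarith

theorem le_cube (h : ThS) {y : ℝ} (hy : 0 < y) : hh y ≤ 4 * y ^ 3 := by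
  have h1 := (h.2.1 y hy).2.1
  have hx : 0 < π / (2 * y) := by positivity
  have h2 := Real.pow_div_factorial_le_exp _ hx.le 3
  have h3 : 3 / (2 * y) ≤ π / (2 * y) :=
    div_le_div_of_nonneg_right Real.pi_gt_three.le (by positivity)
  have h4 : (3 / (2 * y)) ^ 3 ≤ (π / (2 * y)) ^ 3 := pow_le_pow_left₀ (by positivity) h3 3
  have h5 : (2 * y ^ 3)⁻¹ ≤ Real.exp (π / (2 * y)) := by
    refine le_trans ?_ h2
    have e : ((Nat.factorial 3 : ℕ) : ℝ) = 6 := by norm_num [Nat.factorial]
    rw [e]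
    refine le_trans ?_ (div_le_div_of_nonneg_right h4 (by norm_num))
    have e2 : (3 / (2 * y)) ^ 3 / 6 = 9 / 8 * (2 * y ^ 3)⁻¹ := by
      field_simp
      norm_num
    have : 0 < (2 * y ^ 3)⁻¹ := by positivity
    rw [e2]
    linarith
  have h6 : Real.exp (-π / (2 * y)) ≤ 2 * y ^ 3 := by
    rw [neg_div, Real.exp_neg]
    exact inv_le_of_inv_le₀ (by positivity) h5
  linarith

/-- the lower bound on the interval from one to two -/
noncomputable def m0 : ℝ := 2 * (Real.exp (-π / 2) * (1 - Real.exp (-(3 * π) / 4)))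

theorem m0_pos : 0 < m0 := by
  have : Real.exp (-(3 * π) / 4) < 1 := Real.exp_lt_one_iff.mpr (by linarith [Real.pi_pos])
  have h2 : 0 < 1 - Real.exp (-(3 * π) / 4) := by linarith
  unfold m0
  positivity

theorem m0_le (h : ThS) {y : ℝ} (h1 : 1 ≤ y) (h2 : y ≤ 2) : m0 ≤ hh y := by
  have hy : 0 < y := by linarith
  refine le_trans ?_ (h.2.1 y hy).2.2
  have hp := Real.pi_pos
  have e : Real.exp (-(2 * π) / y) = Real.exp (-π / (2 * y)) * Real.exp (-(3 * π) / (2 * y)) := by
    rw [← Real.exp_add]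
    congr 1
    field_simp
    ring
  have a1 : Real.exp (-π / 2) ≤ Real.exp (-π / (2 * y)) := by
    rw [Real.exp_le_exp, neg_div, neg_div, neg_le_neg_iff]
    exact div_le_div_of_nonneg_left hp.le (by norm_num) (by linarith)
  have a2 : Real.exp (-(3 * π) / (2 * y)) ≤ Real.exp (-(3 * π) / 4) := by
    rw [Real.exp_le_exp, neg_div, neg_div, neg_le_neg_iff]
    exact div_le_div_of_nonneg_left (by positivity) (by positivity) (by linarith)
  have a3 : Real.exp (-(3 * π) / 4) < 1 := Real.exp_lt_one_iff.mpr (by linarith)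
  have a4 := mul_le_mul a1 (sub_le_sub_left a2 1) (by linarith) (Real.exp_pos _).le
  unfold m0
  rw [e]
  linarith

theorem neg_lt {v : ℝ} (hv : 0 < v) : -4 * π * v < 0 := by
  have : 0 < 4 * π * v := by positivity
  linarith

theorem integ (h : ThS) {v : ℝ} (hv : 0 < v) :
    IntegrableOn (fun y => Real.exp (-4 * π * v * y) * hh y) (Ioi 0) := by
  refine Integrable.mono' ((integrableOn_exp_mul_Ioi (neg_lt hv) 0).mul_const 2)
    (Measurable.aestronglyMeasurable ((by fun_prop : Measurable fun y : ℝ =>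
      Real.exp (-4 * π * v * y)).mul h.1)) ?_
  filter_upwards [ae_restrict_mem measurableSet_Ioi] with y hy
  rw [Real.norm_of_nonneg (mul_nonneg (Real.exp_pos _).le (h.2.1 y hy).1)]
  exact mul_le_mul_of_nonneg_left (le_two h hy) (Real.exp_pos _).le

theorem up1 (h : ThS) {v : ℝ} (hv : 0 < v) : kap v ≤ 2 := by
  have h1 : HL v ≤ ∫ y in Ioi (0 : ℝ), Real.exp (-4 * π * v * y) * 2 :=
    setIntegral_mono_on (integ h hv) ((integrableOn_exp_mul_Ioi (neg_lt hv) 0).mul_const 2)
      measurableSet_Ioi fun y hy => mul_le_mul_of_nonneg_left (le_two h hy) (Real.exp_pos _).le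
  rw [integral_mul_const, integral_exp_mul_Ioi (neg_lt hv)] at h1
  have ha : 0 < 4 * π * v := by positivity
  refine (mul_le_mul_of_nonneg_left h1 ha.le).trans (le_of_eq ?_)
  rw [mul_zero, Real.exp_zero]
  field_simp

theorem up2 (h : ThS) {v : ℝ} (hv : 0 < v) : kap v ≤ 1 / v ^ 3 := by
  have ha : 0 < 4 * π * v := by positivity
  have i1 : IntegrableOn (fun y : ℝ => y ^ ((4 : ℝ) - 1) * Real.exp (-(4 * π * v * y))) (Ioi 0) := by
    refine (integrableOn_rpow_mul_exp_neg_mul_rpow (p := 1) (s := 4 - 1) (by norm_num) one_pos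
      ha).congr_fun (fun y _ => ?_) measurableSet_Ioi
    simp only [Real.rpow_one, neg_mul]
  have h1 : HL v ≤ ∫ y in Ioi (0 : ℝ), 4 * (y ^ ((4 : ℝ) - 1) * Real.exp (-(4 * π * v * y))) := by
    refine setIntegral_mono_on (integ h hv) (i1.const_mul 4) measurableSet_Ioi fun y hy => ?_
    have e1 : y ^ ((4 : ℝ) - 1) = y ^ 3 := by
      rw [← Real.rpow_natCast]
      norm_num
    have e2 : -4 * π * v * y = -(4 * π * v * y) := by ring
    rw [e1, e2]
    have := mul_le_mul_of_nonneg_left (le_cube h hy) (Real.exp_pos (-(4 * π * v * y))).le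
    linarith
  have g : Real.Gamma 4 = 6 := by
    have := Real.Gamma_nat_eq_factorial 3
    norm_num [Nat.factorial] at this ⊢
  have e3 : (1 / (4 * π * v)) ^ (4 : ℝ) = (1 / (4 * π * v)) ^ 4 := by
    rw [← Real.rpow_natCast]
    norm_num
  rw [integral_const_mul, Real.integral_rpow_mul_exp_neg_mul_Ioi (by norm_num) ha, g, e3] at h1
  refine (mul_le_mul_of_nonneg_left h1 ha.le).trans ?_
  have e4 : 4 * π * v * (4 * ((1 / (4 * π * v)) ^ 4 * 6)) = 3 / (8 * π ^ 3) / v ^ 3 := by
    field_simp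
    norm_num
  rw [e4]
  refine div_le_div_of_nonneg_right ?_ (by positivity)
  have : (1 : ℝ) ≤ π ^ 3 := one_le_pow₀ (by linarith [Real.pi_gt_three])
  rw [div_le_one (by positivity)]
  linarith

theorem low (h : ThS) {v : ℝ} (hv : 0 < v) : Real.exp (-8 * π * v) * m0 ≤ HL v := by
  have sub : Icc (1 : ℝ) 2 ⊆ Ioi 0 := fun y hy => lt_of_lt_of_le one_pos hy.1
  have h1 := setIntegral_ge_of_const_le_real (μ := volume) (s := Icc (1 : ℝ) 2)
    (c := Real.exp (-8 * π * v) * m0) measurableSet_Icc (by simp)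
    (fun y hy => mul_le_mul (Real.exp_le_exp.mpr (by
        have : 0 < π * v := by positivity
        nlinarith [hy.2])) (m0_le h hy.1 hy.2) m0_pos.le (Real.exp_pos (-4 * π * v * y)).le)
    ((integ h hv).mono_set sub)
  have e : volume.real (Icc (1 : ℝ) 2) = 1 := by
    rw [Real.volume_real_Icc]
    norm_num
  rw [e, mul_one] at h1
  refine h1.trans (setIntegral_mono_set (integ h hv) ?_ sub.eventuallyLE)
  filter_upwards [ae_restrict_mem measurableSet_Ioi] with y hy
  exact mul_nonneg (Real.exp_pos _).le (h.2.1 y hy).1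

end KapA

open KapA in
theorem kapOf : KapOf := by
  intro h
  have m := m0_pos
  refine ⟨4 * π * (Real.exp (-16 * π) * m0), 1, by positivity, le_rfl, fun v hv =>
    ⟨?_, up1 h hv, up2 h hv, fun h1 h2 => ?_⟩⟩
  · exact mul_pos (by positivity) (lt_of_lt_of_le (by positivity) (low h hv))
  · have hp := Real.pi_pos
    refine mul_le_mul (le_mul_of_one_le_right (by positivity) h1) (le_trans ?_ (low h hv))
      (by positivity) (by positivity)
    exact mul_le_mul_of_nonneg_right (Real.exp_le_exp.mpr (by nlinarith)) m.le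

end Pool.Agent.MP_20b2fd_nt.H38
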