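import Pool.Agent.MP_20b2fd_nt.H38.SpecA

/-! The density of the kernel and its splitting into three parts. -/

set_option autoImplicit false

namespace Pool.Agent.MP_20b2fd_nt.H38

open UpperHalfPlane hiding I
open MeasureTheory Complex Finset Filter Topology
open scoped ModularForm Real Manifold ENNReal

namespace KdA

theorem bm_lt {u : ℝ} (h : bm u ≠ 0) : |u| < 2 := by
  have h1 : u ∈ Function.support bm := h
  rw [ContDiffBump.support_eq] at h1
  simpa [bm, Real.dist_eq] using h1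

theorem bm_norm (u : ℝ) : ‖((bm u : ℝ) : ℂ)‖ ≤ 1 := by
  rw [Complex.norm_real, Real.norm_eq_abs, abs_of_nonneg bm.nonneg]
  exact bm.le_one

theorem bm_lip : ∃ L : ℝ, 0 ≤ L ∧ ∀ u v : ℝ, |bm u - bm v| ≤ L * |u - v| := by
  obtain ⟨L, hL⟩ := ContDiff.lipschitzWith_of_hasCompactSupport (𝕂 := ℝ) (n := 1)
    bm.hasCompactSupport bm.contDiff one_ne_zero
  exact ⟨L, L.2, fun u v => by simpa [Real.dist_eq] using hL.dist_le_mul u v⟩

theorem im_le (x y : ℝ) (_hy : 0 < y) : y ≤ ‖(x : ℂ) + y * I‖ := by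
  have := Complex.abs_im_le_norm ((x : ℂ) + y * I)
  simp only [add_im, ofReal_im, mul_im, ofReal_re, Complex.I_im, mul_one, Complex.I_re, mul_zero, add_zero,
    zero_add] at this
  exact (le_abs_self y).trans this

theorem re_le (x y : ℝ) : |x| ≤ ‖(x : ℂ) + y * I‖ := by
  have := Complex.abs_re_le_norm ((x : ℂ) + y * I)
  simpa using this

theorem im_le' (x y : ℝ) (_hy : 0 < y) : y ≤ ‖1 - ((x : ℂ) + y * I)‖ := by
  have := Complex.abs_im_le_norm (1 - ((x : ℂ) + y * I))
  simp only [sub_im, one_im, add_im, ofReal_im, mul_im, ofReal_re, Complex.I_im, mul_one, Complex.I_re, mul_zero,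
    add_zero, zero_add, zero_sub, abs_neg] at this
  exact (le_abs_self y).trans this

theorem re_le' (x y : ℝ) : |1 - x| ≤ ‖1 - ((x : ℂ) + y * I)‖ := by
  have := Complex.abs_re_le_norm (1 - ((x : ℂ) + y * I))
  simpa using this

theorem norm_le (x y : ℝ) (hy : 0 < y) : ‖(x : ℂ) + y * I‖ ≤ |x| + y := by
  refine (norm_add_le _ _).trans ?_
  simp [abs_of_pos hy]

theorem z_ne (x y : ℝ) (hy : 0 < y) : (x : ℂ) + y * I ≠ 0 :=
  norm_pos_iff.mp (hy.trans_le (im_le x y hy))

theorem z_ne' (x y : ℝ) (hy : 0 < y) : 1 - ((x : ℂ) + y * I) ≠ 0 :=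
  norm_pos_iff.mp (hy.trans_le (im_le' x y hy))

/-- the explicit form of the density -/
theorem mk_eq (K : KitS) (U x y : ℝ) (hy : 0 < y) :
    Mk U x y = (starRingEnd ℂ) (((bm ((x - x ^ 2 - y ^ 2) / (U * y)) : ℝ) : ℂ) /
      (((x : ℂ) + y * I) * (1 - ((x : ℂ) + y * I)))) := by
  obtain ⟨hc, -, -⟩ := K.ptc x y hy
  have hd : (0 : ℝ) < 1 * 1 - 0 * (-1) := by norm_num
  have h1 := K.slr (ph U) 1 0 (-1) 1 (pt x y) hd
  have h2 := K.coe 1 0 (-1) 1 (pt x y) hd
  set w : ℍ := gr 1 0 (-1) 1 • pt x y with hw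
  have hz := z_ne x y hy
  have hz' := z_ne' x y hy
  have h3 : (w : ℂ) = ((x : ℂ) + y * I) / (1 - ((x : ℂ) + y * I)) := by
    rw [h2, hc]; push_cast; congr 1 <;> ring
  have hn : 0 < Complex.normSq (1 - ((x : ℂ) + y * I)) := Complex.normSq_pos.mpr hz'
  have hre : w.re = (x - x ^ 2 - y ^ 2) / Complex.normSq (1 - ((x : ℂ) + y * I)) := by
    rw [← UpperHalfPlane.coe_re, h3, Complex.div_re]
    simp only [add_re, ofReal_re, mul_re, Complex.I_re, mul_zero, ofReal_im, Complex.I_im, mul_one, sub_self,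
      add_zero, sub_re, one_re, add_im, mul_im, zero_add, sub_im, one_im, zero_sub]
    ring
  have him : w.im = y / Complex.normSq (1 - ((x : ℂ) + y * I)) := by
    rw [← UpperHalfPlane.coe_im, h3, Complex.div_im]
    simp only [add_re, ofReal_re, mul_re, Complex.I_re, mul_zero, ofReal_im, Complex.I_im, mul_one, sub_self,
      add_zero, sub_re, one_re, add_im, mul_im, zero_add, sub_im, one_im, zero_sub]
    ring
  have hq : w.re / (U * w.im) = (x - x ^ 2 - y ^ 2) / (U * y) := by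
    rw [hre, him]
    by_cases hU : U = 0
    · simp [hU]
    · field_simp
  unfold Mk
  rw [h1, ph, hq, h3, hc]
  congr 1
  have e : ((-1 : ℝ) : ℂ) * ((x : ℂ) + y * I) + ((1 : ℝ) : ℂ) = 1 - ((x : ℂ) + y * I) := by
    push_cast; ring
  rw [e]
  push_cast
  field_simp
  ring

theorem be_div (U s y : ℝ) (hy : 0 < y) :
    be U (s / y) / (y : ℂ) = ((bm (s / (U * y)) : ℝ) : ℂ) / ((s : ℂ) + y * I) := by
  have hz := z_ne s y hy
  have hy' : (y : ℂ) ≠ 0 := by exact_mod_cast hy.ne'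
  have e : s / y / U = s / (U * y) := by rw [div_div, mul_comm]
  have e2 : ((s / y : ℝ) : ℂ) + I = ((s : ℂ) + y * I) / y := by
    push_cast; field_simp
  rw [be, e, e2]
  field_simp

theorem mh_eq (U w x y : ℝ) (hy : 0 < y) (hw : y ≤ w) :
    Mh U w x y = (starRingEnd ℂ) (((bm (x / (U * y)) : ℝ) : ℂ) / ((x : ℂ) + y * I)) := by
  rw [Mh, if_pos hw, ← be_div U x y hy, map_div₀, Complex.conj_ofReal]

theorem kf_eq (K : KitS) (P : PhS) (X : XgS) (U t : ℝ) (hU : 1 ≤ U) (ht : t ≠ 0) (ht' : t ≠ -1) :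
    Kf U t = (BI U (Mk U) 0 t).re := by
  obtain ⟨hm, -, -, -, -, -, hdg, -⟩ := P U hU
  have hA : (1 : ℝ) * 1 - t * 0 ≠ 0 := by norm_num
  have hB : (1 : ℝ) * 1 - 0 * 1 ≠ 0 := by norm_num
  have hC : (1 : ℝ) * 1 - 0 * (-1) ≠ 0 := by norm_num
  have g1 : gr (1 + t) t 1 1 = gr 1 t 0 1 * gr 1 0 1 1 := by
    rw [K.grm _ _ _ _ _ _ _ _ hA hB]; congr 1 <;> ring
  have g2 : gr 1 0 (-1) 1 * gr 1 0 1 1 = gr 1 0 0 1 := by
    rw [K.grm _ _ _ _ _ _ _ _ hC hB]; congr 1 <;> ring
  have p2 : sr (sr (ph U) (gr 1 0 (-1) 1)) (gr 1 0 1 1) = ph U := by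
    rw [K.srm, g2]; exact hdg 1 1 (by norm_num)
  have hdet : 0 < (gr 1 0 1 1).det.val := by
    rw [gr, dif_pos hB]
    simp [Matrix.GeneralLinearGroup.mkOfDetNeZero, Matrix.det_fin_two_of]
  set u : ℍ → ℂ := pe (sr (ph U) (gr 1 t 0 1)) (sr (ph U) (gr 1 0 (-1) 1)) with hu
  have e1 : pe (sr (ph U) (gr (1 + t) t 1 1)) (ph U) = fun z => u (gr 1 0 1 1 • z) := by
    funext z
    rw [hu, ← K.pes _ _ _ z hdet, p2, K.srm, ← g1]
  have hI : Integrable u := by
    have h1 : (1 + t) ≠ 0 := fun h => ht' (by linarith)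
    have := ((X U hU).1 (1 + t) t 1 1 h1 ht one_ne_zero one_ne_zero (by norm_num)).1
    rw [e1] at this
    exact (K.ints _ u).2.mp this
  have hmu : Measurable u := K.mpe _ _ (K.msr _ _ hm) (K.msr _ _ hm)
  rw [Kf, e1, (K.ints _ u).1, (K.intg u hmu).2 hI, BI]
  congr 1
  refine setIntegral_congr_fun measurableSet_Ioi fun y hy => ?_
  have hy : 0 < y := hy
  refine integral_congr_ae (Eventually.of_forall fun x => ?_)
  obtain ⟨hc, hre, him⟩ := K.ptc x y hy
  have hd : (0 : ℝ) < 1 * 1 - t * 0 := by norm_num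
  have h1 := K.slr (ph U) 1 t 0 1 (pt x y) hd
  have h2 := K.coe 1 t 0 1 (pt x y) hd
  set w : ℍ := gr 1 t 0 1 • pt x y with hw
  have h3 : (w : ℂ) = ((t + x : ℝ) : ℂ) + y * I := by
    rw [h2, hc]; push_cast; ring
  have hwr : w.re = t + x := by rw [← UpperHalfPlane.coe_re, h3]; simp
  have hwi : w.im = y := by rw [← UpperHalfPlane.coe_im, h3]; simp
  have hy' : (y : ℂ) ≠ 0 := by exact_mod_cast hy.ne'
  simp only [hu, pe, iteratedDeriv_zero, zero_add, pow_one]
  rw [be_div U (t + x) y hy, h1, ph, hwr, hwi, h3, him, Mk]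
  push_cast
  field_simp
  ring

theorem mh_meas (U w : ℝ) : Measurable fun p : ℝ × ℝ => Mh U w p.1 p.2 := by
  unfold Mh be
  refine Measurable.ite (measurableSet_le measurable_snd measurable_const) ?_ measurable_const
  have hb : Measurable (bm : ℝ → ℝ) := bm.continuous.measurable
  have hc : Measurable (starRingEnd ℂ : ℂ → ℂ) := Complex.continuous_conj.measurable
  refine Measurable.div (hc.comp ?_) (Complex.measurable_ofReal.comp measurable_snd)
  refine Measurable.div (Complex.measurable_ofReal.comp (hb.comp ?_)) ?_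
  · fun_prop
  · exact (Complex.measurable_ofReal.comp (measurable_fst.div measurable_snd)).add_const _

theorem mk_meas (K : KitS) (P : PhS) (U : ℝ) (hU : 1 ≤ U) :
    Measurable fun p : ℝ × ℝ => Mk U p.1 p.2 := by
  have hc : Measurable (starRingEnd ℂ : ℂ → ℂ) := Complex.continuous_conj.measurable
  exact hc.comp ((K.msr _ _ (P U hU).1).comp K.mpt)

theorem mk_norm (K : KitS) (U x y : ℝ) (hy : 0 < y) :
    ‖Mk U x y‖ ≤ 1 / (‖(x : ℂ) + y * I‖ * ‖1 - ((x : ℂ) + y * I)‖) := by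
  rw [mk_eq K U x y hy, RCLike.norm_conj, norm_div, norm_mul]
  exact div_le_div_of_nonneg_right (bm_norm _) (by positivity)

theorem mk_supp (K : KitS) (U x y : ℝ) (hU : 1 ≤ U) (hy : 0 < y) (h : Mk U x y ≠ 0) :
    |x - x ^ 2 - y ^ 2| < 2 * U * y := by
  rw [mk_eq K U x y hy] at h
  have hb : bm ((x - x ^ 2 - y ^ 2) / (U * y)) ≠ 0 := fun h0 => h (by rw [h0]; simp)
  have := bm_lt hb
  have hUy : 0 < U * y := by positivity
  rw [abs_div, abs_of_pos hUy, div_lt_iff₀ hUy] at this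
  linarith

theorem mh_norm (U w x y : ℝ) (hy : 0 < y) : ‖Mh U w x y‖ ≤ 1 / y := by
  by_cases hw : y ≤ w
  · rw [mh_eq U w x y hy hw, RCLike.norm_conj, norm_div]
    exact div_le_div₀ zero_le_one (bm_norm _) hy (im_le x y hy)
  · rw [Mh, if_neg hw, norm_zero]; positivity

theorem mh_supp (U w x y : ℝ) (hU : 1 ≤ U) (hy : 0 < y) (h : Mh U w x y ≠ 0) :
    y ≤ w ∧ |x| ≤ 2 * U * y := by
  have hw : y ≤ w := by
    by_contra hw
    exact h (by rw [Mh, if_neg hw])
  refine ⟨hw, ?_⟩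
  rw [mh_eq U w x y hy hw] at h
  have hb : bm (x / (U * y)) ≠ 0 := fun h0 => h (by rw [h0]; simp)
  have := bm_lt hb
  have hUy : 0 < U * y := by positivity
  rw [abs_div, abs_of_pos hUy, div_lt_iff₀ hUy] at this
  linarith

/-- near the origin the density differs from its homogeneous part by a bounded function -/
theorem near (K : KitS) (L : ℝ) (hL0 : 0 ≤ L) (hL : ∀ u v : ℝ, |bm u - bm v| ≤ L * |u - v|)
    (U w x y : ℝ) (hU : 1 ≤ U) (hy : 0 < y) (hw : y ≤ w) (hx : |x| ≤ 5 * U * y)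
    (hx' : |x| ≤ 1 / 2) : ‖Mk U x y - Mh U w x y‖ ≤ 12 * L + 2 := by
  have hz := z_ne x y hy
  have hz' := z_ne' x y hy
  rw [mk_eq K U x y hy, mh_eq U w x y hy hw, ← map_sub, RCLike.norm_conj]
  set z : ℂ := (x : ℂ) + y * I with hzd
  set a : ℝ := bm ((x - x ^ 2 - y ^ 2) / (U * y)) with ha
  set b : ℝ := bm (x / (U * y)) with hb
  have e : (a : ℂ) / (z * (1 - z)) - (b : ℂ) / z =
      ((a - b : ℝ) : ℂ) / (z * (1 - z)) + (b : ℂ) / (1 - z) := by
    push_cast; field_simp; ring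
  have hUy : 0 < U * y := by positivity
  have h1 : 1 / 2 ≤ ‖1 - z‖ := by
    refine le_trans ?_ (re_le' x y)
    have := abs_le.mp hx'
    exact le_trans (by linarith [this.2]) (le_abs_self _)
  have hzp : 0 < ‖z‖ := norm_pos_iff.mpr hz
  have hz2 : ‖z‖ ^ 2 = x ^ 2 + y ^ 2 := by
    rw [Complex.sq_norm, hzd, Complex.normSq_add_mul_I]
  have hz6 : ‖z‖ ≤ 6 * (U * y) := by
    have := norm_le x y hy
    nlinarith
  have hab : |a - b| ≤ L * (6 * ‖z‖) := by
    refine (hL _ _).trans (mul_le_mul_of_nonneg_left ?_ hL0)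
    have e2 : (x - x ^ 2 - y ^ 2) / (U * y) - x / (U * y) = -(‖z‖ ^ 2 / (U * y)) := by
      rw [hz2]; field_simp; ring
    rw [e2, abs_neg, abs_of_nonneg (by positivity), div_le_iff₀ hUy]
    nlinarith
  rw [e]
  refine (norm_add_le _ _).trans (add_le_add ?_ ?_)
  · rw [norm_div, norm_mul, Complex.norm_real, Real.norm_eq_abs, div_le_iff₀ (by positivity)]
    have : L * ‖z‖ * (1 / 2) ≤ L * ‖z‖ * ‖1 - z‖ := mul_le_mul_of_nonneg_left h1 (by positivity)
    nlinarith
  · rw [norm_div, div_le_iff₀ (by positivity)]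
    have := bm_norm (x / (U * y))
    rw [← hb] at this
    linarith

open Classical in
/-- the part of the density near the point one -/
noncomputable def M1 (U x y : ℝ) : ℂ :=
  if y ≤ 1 / (100 * U) ∧ |1 - x| ≤ 10 * U * y then Mk U x y else 0

theorem m0 (K : KitS) (L : ℝ) (hL0 : 0 ≤ L) (hL : ∀ u v : ℝ, |bm u - bm v| ≤ L * |u - v|)
    (U x y : ℝ) (hU : 1 ≤ U) (hy : 0 < y) :
    ‖Mk U x y - Mh U (1 / (100 * U)) x y - M1 U x y‖ ≤ (10000 + 12 * L) * U ^ 2 ∧
      (Mk U x y - Mh U (1 / (100 * U)) x y - M1 U x y ≠ 0 →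
        y ≤ 3 * U ∧ |x| ≤ (100 * U) ^ 2 * y) := by
  have hU0 : 0 < 100 * U := by positivity
  have hU2 : 1 ≤ U ^ 2 := one_le_pow₀ hU
  have hUy : 0 < U * y := by positivity
  by_cases hw : y ≤ 1 / (100 * U)
  · have hw' : U * y ≤ 1 / 100 := by
      rw [le_div_iff₀ hU0] at hw; linarith
    have hy1 : y ≤ U * y := le_mul_of_one_le_left hy.le hU
    by_cases h1 : |1 - x| ≤ 10 * U * y
    · have hM : Mh U (1 / (100 * U)) x y = 0 := by
        by_contra h
        have h2 := abs_le.mp (mh_supp U _ x y hU hy h).2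
        have h3 := abs_le.mp h1
        nlinarith [h2.2, h3.2]
      rw [M1, if_pos ⟨hw, h1⟩, hM]
      simp only [sub_zero, sub_self, norm_zero, ne_eq, not_true_eq_false, IsEmpty.forall_iff,
        and_true]
      positivity
    · rw [M1, if_neg fun h => h1 h.2, sub_zero]
      have key : Mk U x y - Mh U (1 / (100 * U)) x y ≠ 0 → |x| ≤ 5 * U * y := by
        intro h
        by_cases hM : Mh U (1 / (100 * U)) x y = 0
        · have hk : Mk U x y ≠ 0 := fun h0 => h (by rw [h0, hM, sub_zero])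
          have h2 := mk_supp K U x y hU hy hk
          have h3 : |x| * |1 - x| ≤ 3 * (U * y) := by
            rw [← abs_mul]
            have e : x * (1 - x) = (x - x ^ 2 - y ^ 2) + y ^ 2 := by ring
            rw [e]
            refine (abs_add_le _ _).trans ?_
            rw [abs_of_nonneg (sq_nonneg y)]
            nlinarith
          push Not at h1
          have h4 : |x| ≤ 3 / 10 := by
            by_contra h5
            push Not at h5
            have : 3 / 10 * (10 * U * y) < |x| * |1 - x| :=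
              mul_lt_mul'' h5 h1 (by norm_num) (by positivity)
            nlinarith
          have h6 : 7 / 10 ≤ |1 - x| :=
            le_trans (by linarith [(abs_le.mp h4).2]) (le_abs_self _)
          have h7 : |x| * (7 / 10) ≤ |x| * |1 - x| := mul_le_mul_of_nonneg_left h6 (abs_nonneg x)
          nlinarith
        · have := (mh_supp U _ x y hU hy hM).2
          nlinarith
      refine ⟨?_, fun h => ⟨by nlinarith, (key h).trans ?_⟩⟩
      · by_cases h : Mk U x y - Mh U (1 / (100 * U)) x y = 0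
        · rw [h, norm_zero]; positivity
        · have h5 := key h
          refine (near K L hL0 hL U _ x y hU hy hw h5 (by nlinarith)).trans ?_
          nlinarith
      · refine mul_le_mul_of_nonneg_right ?_ hy.le
        nlinarith
  · rw [M1, if_neg fun h => hw h.1, Mh, if_neg hw, sub_zero, sub_zero]
    push Not at hw
    have hw' : 1 < 100 * U * y := by
      rw [div_lt_iff₀ hU0] at hw; linarith
    refine ⟨(mk_norm K U x y hy).trans ?_, fun h => ?_⟩
    · have h1 : y * y ≤ ‖(x : ℂ) + y * I‖ * ‖1 - ((x : ℂ) + y * I)‖ :=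
        mul_le_mul (im_le x y hy) (im_le' x y hy) hy.le (norm_nonneg _)
      refine (one_div_le_one_div_of_le (by positivity) h1).trans ?_
      rw [div_le_iff₀ (by positivity)]
      have h2 : 1 ≤ (100 * U * y) ^ 2 := one_le_pow₀ hw'.le
      have h3 : 0 ≤ L * (U ^ 2 * (y * y)) := by positivity
      nlinarith
    · have h2 := (abs_lt.mp (mk_supp K U x y hU hy h)).1
      constructor
      · by_contra h3
        push Not at h3
        nlinarith [sq_nonneg (x - 1 / 2)]
      · have h4 : |x| ≤ 2 * U := by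
          refine abs_le.mpr ⟨?_, ?_⟩
          · by_contra h5
            push Not at h5
            nlinarith [sq_nonneg (y - U)]
          · by_contra h5
            push Not at h5
            nlinarith [sq_nonneg (y - U)]
        have h6 : 100 * U * 1 ≤ 100 * U * (100 * U * y) :=
          mul_le_mul_of_nonneg_left hw'.le hU0.le
        nlinarith

theorem m1 (K : KitS) (U x y : ℝ) (hU : 1 ≤ U) (hy : 0 < y) :
    ‖M1 U x y‖ ≤ 2 / y ∧ (M1 U x y ≠ 0 → y ≤ 1 / (100 * U) ∧ |1 - x| ≤ 10 * U * y) := by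
  by_cases h : y ≤ 1 / (100 * U) ∧ |1 - x| ≤ 10 * U * y
  · refine ⟨?_, fun _ => h⟩
    rw [M1, if_pos h]
    refine (mk_norm K U x y hy).trans ?_
    have hU0 : 0 < 100 * U := by positivity
    have hw' : U * y ≤ 1 / 100 := by
      have := h.1
      rw [le_div_iff₀ hU0] at this; linarith
    have h1 : 1 / 2 ≤ ‖(x : ℂ) + y * I‖ := by
      refine le_trans ?_ (re_le x y)
      have := (abs_le.mp h.2).2
      exact le_trans (by nlinarith) (le_abs_self _)
    have h2 : 1 / 2 * y ≤ ‖(x : ℂ) + y * I‖ * ‖1 - ((x : ℂ) + y * I)‖ :=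
      mul_le_mul h1 (im_le' x y hy) hy.le (norm_nonneg _)
    refine (one_div_le_one_div_of_le (by positivity) h2).trans (le_of_eq ?_)
    field_simp
  · rw [M1, if_neg h]
    exact ⟨by rw [norm_zero]; positivity, fun h0 => absurd rfl h0⟩

end KdA

theorem kdOf : KdOf := by
  intro K P X
  obtain ⟨L, hL0, hL⟩ := KdA.bm_lip
  refine ⟨10000 + 12 * L, by linarith, fun U hU =>
    ⟨fun t ht ht' => KdA.kf_eq K P X U t hU ht ht', ?_⟩⟩
  have hk := KdA.mk_meas K P U hU
  have hh' := KdA.mh_meas U (1 / (100 * U))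
  have h1 : Measurable fun p : ℝ × ℝ => KdA.M1 U p.1 p.2 := by
    unfold KdA.M1
    refine Measurable.ite ?_ hk measurable_const
    have s1 : MeasurableSet {p : ℝ × ℝ | p.2 ≤ 1 / (100 * U)} :=
      measurableSet_le measurable_snd measurable_const
    have s2 : MeasurableSet {p : ℝ × ℝ | |1 - p.1| ≤ 10 * U * p.2} :=
      measurableSet_le (by fun_prop) (by fun_prop)
    exact s1.inter s2
  refine ⟨fun x y => Mk U x y - Mh U (1 / (100 * U)) x y - KdA.M1 U x y, KdA.M1 U,
    (hk.sub hh').sub h1, h1, hh', fun x y hy => ?_⟩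
  obtain ⟨a1, a2⟩ := KdA.m0 K L hL0 hL U x y hU hy
  obtain ⟨b1, b2⟩ := KdA.m1 K U x y hU hy
  refine ⟨by ring, KdA.mh_norm U _ x y hy, fun h => ?_, a1, a2, b1, b2⟩
  obtain ⟨c1, c2⟩ := KdA.mh_supp U _ x y hU hy h
  refine ⟨c1.trans ?_, c2⟩
  rw [div_le_one (by positivity)]
  linarith

end Pool.Agent.MP_20b2fd_nt.H38
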