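import Pool.Agent.MP_20b2fd_nt.H38.SpecA

/-! The kernel of the terms off the diagonal has the properties that are used. -/

set_option autoImplicit false

namespace Pool.Agent.MP_20b2fd_nt.H38

open UpperHalfPlane hiding I
open MeasureTheory Complex Finset Filter Topology
open scoped ModularForm Real Manifold ENNReal

namespace KerA

theorem bi_congr (U : ℝ) (M M' : ℝ → ℝ → ℂ) (j : ℕ) (t : ℝ)
    (h : ∀ x y, 0 < y → iteratedDeriv j (be U) ((t + x) / y) ≠ 0 → M x y = M' x y) :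
    BI U M j t = BI U M' j t := by
  refine setIntegral_congr_fun measurableSet_Ioi fun y hy => ?_
  refine integral_congr_ae (Eventually.of_forall fun x => ?_)
  by_cases h0 : iteratedDeriv j (be U) ((t + x) / y) = 0
  · simp only [h0, zero_div, zero_mul]
  · simp only [h x y hy h0]

theorem bi_add (U : ℝ) (M M' : ℝ → ℝ → ℂ) (j : ℕ) (t : ℝ)
    (h : Integrable (fun p : ℝ × ℝ =>
      iteratedDeriv j (be U) ((t + p.2) / p.1) / (p.1 : ℂ) ^ (j + 1) * M p.2 p.1)
      ((volume.restrict (Set.Ioi (0 : ℝ))).prod volume))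
    (h' : Integrable (fun p : ℝ × ℝ =>
      iteratedDeriv j (be U) ((t + p.2) / p.1) / (p.1 : ℂ) ^ (j + 1) * M' p.2 p.1)
      ((volume.restrict (Set.Ioi (0 : ℝ))).prod volume)) :
    BI U (fun x y => M x y + M' x y) j t = BI U M j t + BI U M' j t := by
  have e := integral_prod _ h
  have e' := integral_prod _ h'
  have e2 := integral_prod _ (h.add h')
  have e3 := integral_add h h'
  simp only [Pi.add_apply] at e e' e2 e3
  unfold BI
  rw [← e, ← e', ← e3, e2]
  simp only [mul_add]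

theorem re_deriv {f : ℝ → ℂ} {f' : ℂ} {t : ℝ} (h : HasDerivAt f f' t) :
    HasDerivAt (fun s => (f s).re) f'.re t :=
  Complex.reCLM.hasFDerivAt.comp_hasDerivAt t h

end KerA

theorem kerOf : KerOf := by
  intro X B Kh Kd
  obtain ⟨Bz, Cb, hCb, -, hB⟩ := B
  obtain ⟨Ch, hCh, hH⟩ := Kh
  obtain ⟨Cd, hCd, hD⟩ := Kd
  set e : ℝ := 10003 + 3 * Cd with he
  have he1 : 1 ≤ e := by linarith
  have hce : 0 ≤ Cb * e ^ 6 := by positivity
  refine ⟨100 * Ch + 2 * (Cb * e ^ 6) + 5, 18, by linarith, fun U hU => ?_⟩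
  obtain ⟨hK, M₀, M₁, m0, m1, mh, hM⟩ := hD U hU
  obtain ⟨-, -, hX0, hX1⟩ := X U hU
  set w : ℝ := 1 / (100 * U) with hw
  set E : ℝ := e * U ^ 3 with hE
  set Bd : ℝ := (100 * Ch + 2 * (Cb * e ^ 6) + 5) * U ^ 18 with hBd
  have hU0 : 0 < U := by linarith
  have u2 : U ≤ U ^ 2 := le_self_pow₀ hU two_ne_zero
  have u3 : U ^ 2 ≤ U ^ 3 := pow_le_pow_right₀ hU (by norm_num)
  have u18 : U ^ 2 ≤ U ^ 18 := pow_le_pow_right₀ hU (by norm_num)
  have hcu : 0 ≤ Cd * U ^ 3 := by positivity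
  have hE' : E = 10003 * U ^ 3 + 3 * (Cd * U ^ 3) := by rw [hE, he]; ring
  have hE1 : 1 ≤ E := by rw [hE']; linarith
  have hE6 : Cb * E ^ 6 = Cb * e ^ 6 * U ^ 18 := by rw [hE]; ring
  have hE3 : Cb * E ^ 3 ≤ Cb * E ^ 6 :=
    mul_le_mul_of_nonneg_left (pow_le_pow_right₀ hE1 (by norm_num)) (by linarith)
  have hE30 : 0 ≤ Cb * E ^ 3 := by positivity
  have hch : Ch * U ^ 2 ≤ Ch * U ^ 18 := mul_le_mul_of_nonneg_left u18 (by linarith)
  have hch0 : 0 ≤ Ch * U ^ 2 := by positivity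
  have hBd' : Bd = 100 * (Ch * U ^ 18) + 2 * (Cb * E ^ 6) + 5 * U ^ 18 := by rw [hBd, hE6]; ring
  have hw0 : 0 < w := by positivity
  have hw1 : w ≤ 1 := by rw [hw, div_le_one (by positivity)]; linarith
  have hUE : U ≤ E := by rw [hE']; linarith
  have sc : ∀ a y : ℝ, 0 < y → a ≤ E → a * y ≤ E * y := fun a y hy h =>
    mul_le_mul_of_nonneg_right h hy.le
  have n0 : ∀ x y : ℝ, 0 < y → ‖M₀ x y‖ ≤ 3 * (Cd * U ^ 3) / y := by
    intro x y hy
    obtain ⟨-, -, -, a1, a2, -⟩ := hM x y hy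
    by_cases h : M₀ x y = 0
    · rw [h, norm_zero]; positivity
    · rw [le_div_iff₀ hy]
      calc ‖M₀ x y‖ * y ≤ Cd * U ^ 2 * (3 * U) :=
            mul_le_mul a1 (a2 h).1 hy.le (by positivity)
        _ = _ := by ring
  have sh : ∀ x y : ℝ, 0 < y → Mh U w x y ≠ 0 → y ≤ E ∧ (|x| ≤ E * y ∨ |1 - x| ≤ E * y) := by
    intro x y hy h
    obtain ⟨-, -, a, -⟩ := hM x y hy
    exact ⟨(a h).1.trans hE1, Or.inl ((a h).2.trans (sc _ y hy (by rw [hE']; linarith)))⟩
  have s0 : ∀ x y : ℝ, 0 < y → M₀ x y ≠ 0 → y ≤ E ∧ (|x| ≤ E * y ∨ |1 - x| ≤ E * y) := by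
    intro x y hy h
    obtain ⟨-, -, -, -, a, -⟩ := hM x y hy
    exact ⟨(a h).1.trans (by rw [hE']; linarith),
      Or.inl ((a h).2.trans (sc _ y hy (by rw [hE']; nlinarith)))⟩
  have s1 : ∀ x y : ℝ, 0 < y → M₁ x y ≠ 0 → y ≤ E ∧ (|x| ≤ E * y ∨ |1 - x| ≤ E * y) := by
    intro x y hy h
    obtain ⟨-, -, -, -, -, -, a⟩ := hM x y hy
    exact ⟨((a h).1.trans hw1).trans hE1,
      Or.inr ((a h).2.trans (sc _ y hy (by rw [hE']; linarith)))⟩
  set M : ℝ → ℝ → ℂ := fun x y => Mh U w x y + M₀ x y + M₁ x y with hMd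
  obtain ⟨dM, -, bM, -⟩ := hB U E M hU hUE ((mh.add m0).add m1) (by
    intro x y hy
    obtain ⟨-, a1, -, -, -, a2, -⟩ := hM x y hy
    refine ⟨?_, fun h => ?_⟩
    · refine (norm_add₃_le.trans (add_le_add (add_le_add a1 (n0 x y hy)) a2)).trans ?_
      rw [← add_div, ← add_div]
      exact div_le_div_of_nonneg_right (by rw [hE']; linarith) hy.le
    · by_cases h1 : Mh U w x y = 0
      · by_cases h2 : M₀ x y = 0
        · exact s1 x y hy fun h3 => h (by simp only [hMd, h1, h2, h3, add_zero])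
        · exact s0 x y hy h2
      · exact sh x y hy h1)
  obtain ⟨-, iH, -, -⟩ := hB U E (Mh U w) hU hUE mh (fun x y hy =>
    ⟨(hM x y hy).2.1.trans (div_le_div_of_nonneg_right hE1 hy.le), sh x y hy⟩)
  obtain ⟨-, i0, -, b0⟩ := hB U E M₀ hU hUE m0 (fun x y hy =>
    ⟨(n0 x y hy).trans (div_le_div_of_nonneg_right (by rw [hE']; linarith) hy.le), s0 x y hy⟩)
  have b0' := b0 fun x y hy => (hM x y hy).2.2.2.1.trans (by
    have : Cd * U ^ 2 ≤ Cd * U ^ 3 := mul_le_mul_of_nonneg_left u3 (by linarith)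
    rw [hE']; linarith)
  have hKM : ∀ t, t ≠ 0 → t ≠ -1 → Kf U t = (BI U M 0 t).re := by
    intro t ht ht'
    rw [hK t ht ht', KerA.bi_congr U (Mk U) M 0 t fun x y hy _ => (hM x y hy).1]
  have split : ∀ (j : ℕ) (t : ℝ), t ≠ 0 → |t| ≤ 1 / 2 →
      BI U M j t = BI U (Mh U w) j t + BI U M₀ j t := by
    intro j t ht ht2
    have ht' : t ≠ -1 := by rintro rfl; norm_num at ht2
    rw [← KerA.bi_add U _ _ j t (iH j t ht ht') (i0 j t ht ht')]
    refine KerA.bi_congr U _ _ j t fun x y hy h => ?_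
    have h1 : M₁ x y = 0 := by
      by_contra h1
      obtain ⟨a1, a2⟩ := (hM x y hy).2.2.2.2.2.2 h1
      rw [hw, le_div_iff₀ (by positivity)] at a1
      refine h (Bz U _ j hU (lt_of_lt_of_le ?_ (le_abs_self _)))
      rw [lt_div_iff₀ hy]
      nlinarith [(abs_le.mp a2).2, (abs_le.mp ht2).1]
    simp only [hMd, h1, add_zero]
  refine ⟨fun j => if j = 0 then Kf U else fun t => (BI U M j t).re, if_pos rfl,
    fun j t ht ht' => ?_, fun t ht => hX0 t (le_trans (by rw [hBd']; nlinarith) ht),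
    fun t ht ht' => ⟨?_, hX1 t ht ht', fun j hj hj' => ?_⟩, fun t ht ht2 => ?_⟩
  · have h := KerA.re_deriv (dM j t ht ht')
    simp only [Nat.add_eq_zero_iff, one_ne_zero, and_false, if_false]
    by_cases hj : j = 0
    · subst hj
      rw [if_pos rfl]
      refine h.congr_of_eventuallyEq ?_
      filter_upwards [isOpen_ne.mem_nhds ht, isOpen_ne.mem_nhds ht'] with s hs hs'
      exact hKM s hs hs'
    · rw [if_neg hj]; exact h
  · rw [hKM t ht ht']
    refine (Complex.abs_re_le_norm _).trans ((bM t ht ht').1.trans ?_)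
    exact mul_le_mul_of_nonneg_right (by rw [hBd']; nlinarith) (by positivity)
  · have hj0 : j ≠ 0 := by omega
    simp only [if_neg hj0]
    refine (Complex.abs_re_le_norm _).trans (((bM t ht ht').2 j hj hj').trans ?_)
    have hm : 0 ≤ mn t := le_min zero_le_one (le_min (abs_nonneg _) (abs_nonneg _))
    exact div_le_div_of_nonneg_right (by rw [hBd']; nlinarith) (by positivity)
  · have ht' : t ≠ -1 := by rintro rfl; norm_num at ht2
    have hn' : -t ≠ -1 := by
      intro h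
      have : t = 1 := by linarith
      rw [this] at ht2; norm_num at ht2
    have hn : -t ≠ 0 := neg_ne_zero.mpr ht
    obtain ⟨k1, k2⟩ := hH U w t hU hw0 hw1 ht ht2
    obtain ⟨c0, c1, c2⟩ := b0' t ht ht2
    have ha : 0 < |t| := abs_pos.mpr ht
    have hs : 0 < √|t| := Real.sqrt_pos.mpr ha
    have hss : √|t| * √|t| = |t| := Real.mul_self_sqrt ha.le
    have hs1 : |t| ≤ √|t| := Real.le_sqrt_of_sq_le (by nlinarith)
    constructor
    · simp only [one_ne_zero, if_false, OfNat.ofNat_ne_zero]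
      rw [split 1 t ht ht2, split 2 t ht ht2, Complex.add_re, Complex.add_re]
      have d1 : |t * (BI U M₀ 1 t).re| ≤ Cb * E ^ 3 * √|t| := by
        rw [abs_mul]
        calc |t| * |(BI U M₀ 1 t).re| ≤ |t| * (Cb * E ^ 3 / √|t|) :=
              mul_le_mul_of_nonneg_left ((Complex.abs_re_le_norm _).trans c1) ha.le
          _ = √|t| * √|t| * (Cb * E ^ 3 / √|t|) := by rw [hss]
          _ = _ := by field_simp
      have d2 : |t ^ 2 * (BI U M₀ 2 t).re| ≤ Cb * E ^ 3 * √|t| := by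
        rw [abs_mul, abs_pow]
        calc |t| ^ 2 * |(BI U M₀ 2 t).re| ≤ |t| ^ 2 * (Cb * E ^ 3 / |t|) :=
              mul_le_mul_of_nonneg_left ((Complex.abs_re_le_norm _).trans c2) (by positivity)
          _ = Cb * E ^ 3 * |t| := by field_simp
          _ ≤ _ := mul_le_mul_of_nonneg_left hs1 hE30
      have d3 : Ch * U / w * |t| ≤ 100 * (Ch * U ^ 2) * √|t| := by
        have : Ch * U / w = 100 * (Ch * U ^ 2) := by rw [hw]; field_simp
        rw [this]
        exact mul_le_mul_of_nonneg_left hs1 (by positivity)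
      have e1 : t * ((BI U (Mh U w) 1 t).re + (BI U M₀ 1 t).re) +
          t ^ 2 * ((BI U (Mh U w) 2 t).re + (BI U M₀ 2 t).re) =
          (t * (BI U (Mh U w) 1 t).re + t ^ 2 * (BI U (Mh U w) 2 t).re) +
            t * (BI U M₀ 1 t).re + t ^ 2 * (BI U M₀ 2 t).re := by ring
      rw [e1]
      refine (abs_add_three _ _ _).trans ((add_le_add (add_le_add (k2.trans d3) d1) d2).trans ?_)
      rw [← add_mul, ← add_mul]
      exact mul_le_mul_of_nonneg_right (by rw [hBd']; nlinarith) hs.le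
    · rw [hKM t ht ht', hKM (-t) hn hn', split 0 t ht ht2, split 0 (-t) hn (by rwa [abs_neg]),
        Complex.add_re, Complex.add_re, k1, add_sub_add_left_eq_sub, ← Complex.sub_re]
      refine (Complex.abs_re_le_norm _).trans (c0.trans ?_)
      exact mul_le_mul_of_nonneg_right (by rw [hBd']; nlinarith) hs.le

end Pool.Agent.MP_20b2fd_nt.H38
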