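import Pool.Agent.MP_20b2fd_nt.H38.SpecA

/-! The homogeneous part of the kernel. -/

set_option autoImplicit false

namespace Pool.Agent.MP_20b2fd_nt.H38

open UpperHalfPlane hiding I
open MeasureTheory Complex Finset Filter Topology
open scoped ModularForm Real Manifold ENNReal

namespace KhA

theorem be_smooth (U : ℝ) (n : ℕ) : ContDiff ℝ n (be U) := by
  have h1 : ContDiff ℝ n fun u : ℝ => ((bm (u / U) : ℝ) : ℂ) :=
    Complex.ofRealCLM.contDiff.comp (bm.contDiff.comp (contDiff_id.div_const U))
  have h2 : ContDiff ℝ n fun u : ℝ => (u : ℂ) + I :=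
    Complex.ofRealCLM.contDiff.add contDiff_const
  have h3 : ∀ u : ℝ, (u : ℂ) + I ≠ 0 := fun u h => by
    simpa using congrArg Complex.im h
  exact h1.mul (h2.inv h3)

/-- the correlation of the bump with itself, and its derivatives -/
noncomputable def kk (U : ℝ) (j : ℕ) (s : ℝ) : ℂ :=
  ∫ u : ℝ, iteratedDeriv j (be U) (s + u) * (starRingEnd ℂ) (be U u)

theorem kk_neg (U s : ℝ) : kk U 0 (-s) = (starRingEnd ℂ) (kk U 0 s) := by
  unfold kk
  rw [← integral_conj, ← integral_add_left_eq_self _ s]
  refine integral_congr_ae (Eventually.of_forall fun u => ?_)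
  simp only [iteratedDeriv_zero, neg_add_cancel_left, map_mul, Complex.conj_conj]
  ring

section
variable (U C : ℝ) (hU : 1 ≤ U)
  (hz : ∀ (u : ℝ) (j : ℕ), 2 * U < |u| → iteratedDeriv j (be U) u = 0)
  (hC : ∀ (u : ℝ) (j : ℕ), j ≤ 4 → ‖iteratedDeriv j (be U) u‖ ≤ C)

include hz hC in
theorem dom (j : ℕ) (hj : j ≤ 4) (s u : ℝ) :
    ‖iteratedDeriv j (be U) (s + u) * (starRingEnd ℂ) (be U u)‖ ≤
      (Set.Icc (-(2 * U)) (2 * U)).indicator (fun _ => C * C) u := by
  by_cases hu : u ∈ Set.Icc (-(2 * U)) (2 * U)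
  · rw [Set.indicator_of_mem hu, norm_mul, RCLike.norm_conj]
    exact mul_le_mul (hC _ j hj) (by simpa using hC u 0 (by norm_num)) (norm_nonneg _)
      ((norm_nonneg _).trans (hC u j hj))
  · have h0 : be U u = 0 := by
      simpa using hz u 0 (lt_of_not_ge fun h => hu (abs_le.mp h))
    rw [Set.indicator_of_notMem hu, h0]
    simp

theorem dom_int : Integrable ((Set.Icc (-(2 * U)) (2 * U)).indicator fun _ : ℝ => C * C) :=
  (integrable_indicator_iff measurableSet_Icc).mpr (integrableOn_const (by simp))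

theorem cont (j : ℕ) (s : ℝ) :
    Continuous fun u : ℝ => iteratedDeriv j (be U) (s + u) * (starRingEnd ℂ) (be U u) :=
  (((be_smooth U j).continuous_iteratedDeriv' j).comp (continuous_const.add continuous_id)).mul
    (Complex.continuous_conj.comp (be_smooth U 0).continuous)

include hU hz hC in
theorem kk_bd (s : ℝ) : ‖kk U 1 s‖ ≤ 4 * (C * C) * U := by
  refine (norm_integral_le_of_norm_le (dom_int U C)
    (Eventually.of_forall (dom U C hz hC 1 (by norm_num) s))).trans (le_of_eq ?_)
  rw [integral_indicator measurableSet_Icc, setIntegral_const, Real.volume_real_Icc_of_le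
    (by linarith), smul_eq_mul]
  ring

include hz hC in
theorem kk_deriv (s : ℝ) : HasDerivAt (kk U 1) (kk U 2 s) s := by
  refine (hasDerivAt_integral_of_dominated_loc_of_deriv_le (s := Set.univ) (μ := volume)
    (F := fun s u => iteratedDeriv 1 (be U) (s + u) * (starRingEnd ℂ) (be U u))
    (F' := fun s u => iteratedDeriv 2 (be U) (s + u) * (starRingEnd ℂ) (be U u)) univ_mem
    (Eventually.of_forall fun x => (cont U 1 x).aestronglyMeasurable)
    ((dom_int U C).mono' (cont U 1 s).aestronglyMeasurable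
      (Eventually.of_forall (dom U C hz hC 1 (by norm_num) s)))
    (cont U 2 s).aestronglyMeasurable
    (Eventually.of_forall fun u x _ => dom U C hz hC 2 (by norm_num) x u) (dom_int U C)
    (Eventually.of_forall fun u x _ => ?_)).2
  have h := (((be_smooth U (1 + 1)).differentiable_iteratedDeriv' 1) (x + u)).hasDerivAt
  rw [← iteratedDeriv_succ] at h
  exact (h.comp_add_const x u).mul_const _

include hz in
theorem kk_zero (j : ℕ) (s : ℝ) (hs : 4 * U < |s|) : kk U j s = 0 := by
  refine integral_eq_zero_of_ae (Eventually.of_forall fun u => ?_)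
  by_cases hu : 2 * U < |u|
  · have h0 : be U u = 0 := by simpa using hz u 0 hu
    simp [h0]
  · have h1 : 2 * U < |s + u| := by
      have := abs_sub (s + u) u
      rw [add_sub_cancel_right] at this
      linarith
    simp [hz _ j h1]

end

theorem inner (U w t y : ℝ) (j : ℕ) (hy : 0 < y) :
    ∫ x : ℝ, iteratedDeriv j (be U) ((t + x) / y) / (y : ℂ) ^ (j + 1) * Mh U w x y =
      (Set.Iic w).indicator (fun y : ℝ => kk U j (t / y) / (y : ℂ) ^ (j + 1)) y := by
  by_cases hw : y ≤ w
  · rw [Set.indicator_of_mem (Set.mem_Iic.mpr hw)]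
    have hy' : (y : ℂ) ≠ 0 := by exact_mod_cast hy.ne'
    have h := Measure.integral_comp_div
      (fun u : ℝ => iteratedDeriv j (be U) (t / y + u) * (starRingEnd ℂ) (be U u)) y
    rw [abs_of_pos hy, Complex.real_smul] at h
    have e : ∀ x : ℝ, iteratedDeriv j (be U) ((t + x) / y) / (y : ℂ) ^ (j + 1) * Mh U w x y =
        iteratedDeriv j (be U) (t / y + x / y) * (starRingEnd ℂ) (be U (x / y)) /
          (y : ℂ) ^ (j + 2) := by
      intro x
      rw [Mh, if_pos hw, add_div]
      field_simp
      ring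
    simp only [e]
    rw [integral_div, h, kk]
    field_simp
    ring
  · rw [Set.indicator_of_notMem (by simpa using hw)]
    simp [Mh, hw]

theorem bi_eq (U w t : ℝ) (j : ℕ) (hw : 0 < w) :
    BI U (Mh U w) j t = ∫ y in (0 : ℝ)..w, kk U j (t / y) / (y : ℂ) ^ (j + 1) := by
  rw [BI, setIntegral_congr_fun measurableSet_Ioi fun y hy => inner U w t y j hy,
    setIntegral_indicator measurableSet_Iic, Set.Ioi_inter_Iic,
    intervalIntegral.integral_of_le hw.le]

theorem mh_meas (U w : ℝ) : Measurable fun p : ℝ × ℝ => Mh U w p.1 p.2 := by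
  unfold Mh
  refine Measurable.ite (measurableSet_le measurable_snd measurable_const) ?_ measurable_const
  have hc : Measurable (starRingEnd ℂ : ℂ → ℂ) := Complex.continuous_conj.measurable
  exact (hc.comp ((be_smooth U 0).continuous.measurable.comp
    (measurable_fst.div measurable_snd))).div (Complex.measurable_ofReal.comp measurable_snd)

end KhA

theorem khOf : KhOf := by
  intro B
  obtain ⟨Bz, C, hC1, hC, hB⟩ := B
  refine ⟨4 * (C * C), by nlinarith, fun U w t hU hw hw1 ht ht2 => ⟨?_, ?_⟩⟩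
  · rw [KhA.bi_eq U w _ 0 hw, KhA.bi_eq U w _ 0 hw, intervalIntegral.integral_of_le hw.le,
      intervalIntegral.integral_of_le hw.le, ← Complex.conj_re, ← integral_conj]
    congr 1
    refine integral_congr_ae (Eventually.of_forall fun y => ?_)
    simp only [neg_div, KhA.kk_neg, map_div₀, map_pow, Complex.conj_ofReal, Complex.conj_conj]
  have hz := fun u j => Bz U u j hU
  have hb := fun u j => hC U u j hU
  have ht' : t ≠ -1 := by rintro rfl; norm_num at ht2
  have hE : 2 * U ≤ 2 * U * C := le_mul_of_one_le_right (by linarith) hC1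
  have hE' : C ≤ 2 * U * C := le_mul_of_one_le_left (by linarith) (by linarith)
  obtain ⟨-, hI, -, -⟩ := hB U (2 * U * C) (Mh U w) hU (by linarith) (KhA.mh_meas U w) (by
    intro x y hy
    by_cases h : y ≤ w
    · rw [Mh, if_pos h]
      refine ⟨?_, fun h0 => ⟨by linarith, Or.inl ?_⟩⟩
      · rw [norm_div, RCLike.norm_conj, Complex.norm_real, Real.norm_eq_abs, abs_of_pos hy]
        exact div_le_div_of_nonneg_right
          (le_trans (by simpa using hb (x / y) 0 (by norm_num)) hE') hy.le
      · have h1 : |x / y| ≤ 2 * U := by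
          by_contra h1
          have h2 : be U (x / y) = 0 := by simpa using hz _ 0 (not_le.mp h1)
          exact h0 (by rw [h2]; simp)
        rw [abs_div, abs_of_pos hy, div_le_iff₀ hy] at h1
        exact h1.trans (mul_le_mul_of_nonneg_right hE hy.le)
    · rw [Mh, if_neg h]
      exact ⟨by rw [norm_zero]; positivity, fun h0 => absurd rfl h0⟩)
  have hJ : ∀ j : ℕ, IntervalIntegrable (fun y : ℝ => KhA.kk U j (t / y) / (y : ℂ) ^ (j + 1))
      volume 0 w := by
    intro j
    rw [intervalIntegrable_iff_integrableOn_Ioc_of_le hw.le]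
    have h : IntegrableOn _ (Set.Ioi (0 : ℝ)) volume := (hI j t ht ht').integral_prod_left
    refine (h.mono_set Set.Ioc_subset_Ioi_self).congr_fun (fun y hy => ?_) measurableSet_Ioc
    have := KhA.inner U w t y j hy.1
    rw [Set.indicator_of_mem (Set.mem_Iic.mpr hy.2)] at this
    exact this
  have hd : ∀ y : ℝ, 0 < y → HasDerivAt (fun y : ℝ => -(((t / y : ℝ) : ℂ) * KhA.kk U 1 (t / y)))
      ((t : ℂ) * (KhA.kk U 1 (t / y) / (y : ℂ) ^ (1 + 1)) +
        (t : ℂ) ^ 2 * (KhA.kk U 2 (t / y) / (y : ℂ) ^ (2 + 1))) y := by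
    intro y hy
    have h1 : HasDerivAt (fun y : ℝ => t / y) (-t / y ^ 2) y := by
      have := (hasDerivAt_inv hy.ne').const_mul t
      refine (this.congr_deriv (by ring)).congr_of_eventuallyEq (Eventually.of_forall fun z => ?_)
      exact div_eq_mul_inv _ _
    have h2 := (KhA.kk_deriv U C hz hb (t / y)).scomp y h1
    have h3 := (h1.ofReal_comp.mul h2).neg
    refine h3.congr_deriv ?_
    have hy' : (y : ℂ) ≠ 0 := by exact_mod_cast hy.ne'
    simp only [Function.comp, Complex.real_smul]
    push_cast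
    field_simp
    ring
  have h0 : Tendsto (fun y : ℝ => -(((t / y : ℝ) : ℂ) * KhA.kk U 1 (t / y))) (𝓝[>] 0) (𝓝 0) := by
    have ha : 0 < |t| / (4 * U) := div_pos (abs_pos.mpr ht) (by linarith)
    refine tendsto_const_nhds.congr' ?_
    filter_upwards [Ioo_mem_nhdsGT ha] with y hy
    rw [KhA.kk_zero U hz 1 (t / y), mul_zero, neg_zero]
    have := hy.2
    rw [lt_div_iff₀ (by linarith)] at this
    rw [abs_div, abs_of_pos hy.1, lt_div_iff₀ hy.1]
    linarith
  have key := intervalIntegral.integral_eq_sub_of_hasDerivAt_of_tendsto hw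
    (fun y hy => hd y hy.1) (((hJ 1).const_mul (t : ℂ)).add ((hJ 2).const_mul ((t : ℂ) ^ 2))) h0
    ((hd w hw).continuousAt.tendsto.mono_left nhdsWithin_le_nhds)
  rw [intervalIntegral.integral_add ((hJ 1).const_mul (t : ℂ)) ((hJ 2).const_mul ((t : ℂ) ^ 2)),
    intervalIntegral.integral_const_mul, intervalIntegral.integral_const_mul,
    ← KhA.bi_eq U w t 1 hw, ← KhA.bi_eq U w t 2 hw, sub_zero] at key
  have e : t * (BI U (Mh U w) 1 t).re + t ^ 2 * (BI U (Mh U w) 2 t).re =
      ((t : ℂ) * BI U (Mh U w) 1 t + (t : ℂ) ^ 2 * BI U (Mh U w) 2 t).re := by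
    rw [← Complex.ofReal_pow, Complex.add_re, Complex.re_ofReal_mul, Complex.re_ofReal_mul]
  rw [e, key]
  refine (Complex.abs_re_le_norm _).trans ?_
  rw [norm_neg, norm_mul, Complex.norm_real, Real.norm_eq_abs, abs_div, abs_of_pos hw]
  calc |t| / w * ‖KhA.kk U 1 (t / w)‖ ≤ |t| / w * (4 * (C * C) * U) :=
        mul_le_mul_of_nonneg_left (KhA.kk_bd U C hU hz hb _) (by positivity)
    _ = _ := by ring

end Pool.Agent.MP_20b2fd_nt.H38
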