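import Pool.Agent.MP_20b2fd_nt.H38.LsA1

/-! Row LsA: the test vector for the large sieve at squares. -/

set_option autoImplicit false

namespace Pool.Agent.MP_20b2fd_nt.H38

open UpperHalfPlane hiding I
open MeasureTheory Complex Finset Filter Topology
open scoped ModularForm Real Manifold ENNReal

namespace LsAA

theorem l0_tr (hk : KitS) (K : ℕ) (b : ℕ → ℝ) (j : ℤ) : sl (l0 K b) (1, j, 0, 1) = l0 K b := by
  funext z
  have hd : det (1, j, 0, 1) = 1 := by simp [det]
  have h1 := hk.coez (1, j, 0, 1) z (by rw [hd]; norm_num)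
  have h2 := hk.imz (1, j, 0, 1) z (by rw [hd]; norm_num)
  rw [hk.slz _ _ _ (by rw [hd]; norm_num), hd]
  rw [hd] at h2
  simp only [Int.cast_one, Int.cast_zero, one_mul, zero_mul, zero_add, div_one, norm_one,
    one_pow] at h1 h2 ⊢
  unfold l0
  rw [h1, h2]
  refine Finset.sum_congr rfl fun k _ => ?_
  have e : ee (k ^ 2 * (z + j)) = ee (k ^ 2 * z) := by
    unfold ee
    rw [← mul_one (exp (2 * π * I * (k ^ 2 * z))), ← Complex.exp_int_mul_two_pi_mul_I (k ^ 2 * j),
      ← Complex.exp_add]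
    congr 1
    push_cast
    ring
  rw [e]

theorem sl_tr (hk : KitS) (K : ℕ) (b : ℕ → ℝ) {g : Mt} (hg : det g = 1) (j : ℤ) :
    sl (l0 K b) (mul (1, j, 0, 1) g) = sl (l0 K b) g := by
  rw [← hk.slm _ _ _ (by simp [det]) (by rw [hg]; norm_num), l0_tr hk]

theorem same_row (hk : KitS) (K : ℕ) (b : ℕ → ℝ) {g h : Mt} (hg : det g = 1) (hh : det h = 1)
    (e : h.2.2 = g.2.2) : sl (l0 K b) h = sl (l0 K b) g := by
  obtain ⟨a, b', c, d⟩ := g
  obtain ⟨a1, b1, c1, d1⟩ := h
  simp only [Prod.mk.injEq] at e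
  obtain ⟨rfl, rfl⟩ := e
  rw [← sl_tr hk K b hg (a * (b1 - b') - b' * (a1 - a))]
  congr 1
  simp only [det] at hg hh
  simp only [mul, Prod.mk.injEq]
  refine ⟨?_, ?_, by ring, by ring⟩
  · linear_combination (-a1) * hg + a * hh
  · linear_combination (-b1) * hg + b' * hh

theorem det_bz (hr : RgS) {c d : ℤ} (h : IsCoprime c d) : det (bz (c, d)) = 1 := by
  have := ((hr 1).1 (c, d) ⟨h, by simp⟩).1
  simpa using this

theorem bz_neg (hk : KitS) (hr : RgS) (K : ℕ) (b : ℕ → ℝ) {c d : ℤ} (h : IsCoprime c d) :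
    sl (l0 K b) (bz (-c, -d)) = sl (l0 K b) (bz (c, d)) := by
  have h1 := det_bz hr h
  rw [← (hk.sca (l0 K b) (-1) (bz (c, d)) (by norm_num) (by rw [h1]; norm_num)).1]
  refine same_row hk K b ?_ (det_bz hr h.neg_neg) (by simp [bz, smu])
  refine Eq.trans ?_ h1
  simp only [det, smu]
  ring

open Classical in
/-- the sum over one modulus -/
noncomputable def S (K : ℕ) (b : ℕ → ℝ) (c : ℤ) (z : ℍ) : ℂ :=
  ∑' d : ℤ, if IsCoprime c d then sl (l0 K b) (bz (c, d)) z else 0

theorem S_neg (hk : KitS) (hr : RgS) (K : ℕ) (b : ℕ → ℝ) (c : ℤ) : S K b (-c) = S K b c := by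
  funext z
  unfold S
  rw [← (Equiv.neg ℤ).tsum_eq]
  refine tsum_congr fun d => ?_
  simp only [Equiv.neg_apply, IsCoprime.neg_neg_iff]
  split_ifs with h
  · rw [bz_neg hk hr K b h]
  · rfl

theorem S_abs (hk : KitS) (hr : RgS) (K : ℕ) (b : ℕ → ℝ) (c : ℤ) :
    S K b c = S K b (c.natAbs : ℕ) := by
  rcases Int.natAbs_eq c with h | h
  · rw [← h]
  · rw [← S_neg hk hr K b (c.natAbs : ℕ), ← h]

theorem S_zero (hk : KitS) (hr : RgS) (K : ℕ) (b : ℕ → ℝ) (z : ℍ) : S K b 0 z = 2 * l0 K b z := by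
  have h1 : IsCoprime (0 : ℤ) 1 := isCoprime_one_right
  have e1 : sl (l0 K b) (bz (0, 1)) = l0 K b := by
    rw [same_row hk K b (g := (1, 0, 0, 1)) (by simp [det]) (det_bz hr h1) (by simp [bz]),
      (hk.one _).1]
  have e2 : sl (l0 K b) (bz (0, -1)) = l0 K b := by
    have := bz_neg hk hr K b h1
    rw [neg_zero] at this
    rw [this, e1]
  unfold S
  rw [tsum_eq_sum (s := {1, -1}), Finset.sum_pair (by norm_num), if_pos h1, if_pos h1.neg_right,
    e1, e2]
  · ring
  · intro d hd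
    rw [if_neg]
    intro h
    rw [isCoprime_zero_left, Int.isUnit_iff] at h
    exact hd (by simpa using h)

theorem fin_supp (hk : KitS) (hr : RgS) (K : ℕ) (b : ℕ → ℝ) (z : ℍ) :
    {v : ℤ × ℤ | IsCoprime v.1 v.2 ∧ sl (l0 K b) (bz v) z ≠ 0}.Finite := by
  have hy := z.im_pos
  set B : ℝ := (2 * K) ^ 2 * z.im + 1 with hB
  obtain ⟨M, hM⟩ := exists_nat_ge (B / z.im + (B + B / z.im * |z.re|))
  have hB0 : 1 ≤ B := by
    have : 0 ≤ (2 * K : ℝ) ^ 2 * z.im := by positivity
    linarith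
  refine ((Set.finite_Icc (-(M : ℤ)) M).prod (Set.finite_Icc (-(M : ℤ)) M)).subset ?_
  rintro ⟨c, d⟩ ⟨h, hne⟩
  have h1 := det_bz hr h
  have hp : 0 < det (bz (c, d)) := by rw [h1]; norm_num
  rw [hk.slz _ _ _ hp] at hne
  have h2 : l0 K b (ac (bz (c, d)) z) ≠ 0 := right_ne_zero_of_mul hne
  obtain ⟨k, hkm, hk2⟩ := Finset.exists_ne_zero_of_sum_ne_zero h2
  have h3 : 1 ≤ (k : ℝ) ^ 2 * (ac (bz (c, d)) z).im := by
    by_contra hc
    exact hk2 (if_neg fun hh => hc hh.1)
  rw [hk.imz _ _ hp, h1] at h3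
  simp only [bz, Int.cast_one, one_mul] at h3
  set r := ‖(c : ℂ) * z + d‖ with hr'
  have hr0 : 0 ≤ r := norm_nonneg _
  have hkK : (k : ℝ) ≤ 2 * K := by exact_mod_cast (Finset.mem_Ico.mp hkm).2.le
  have hrB : r ≤ B := by
    rcases eq_or_lt_of_le hr0 with e | e
    · linarith
    · rw [← mul_div_assoc, le_div_iff₀ (by positivity), one_mul] at h3
      have : (k : ℝ) ^ 2 * z.im ≤ (2 * K) ^ 2 * z.im := by gcongr
      nlinarith [sq_nonneg (r - 1)]
  have a1 : |(c : ℝ) * z.im| ≤ r := by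
    have := Complex.abs_im_le_norm ((c : ℂ) * z + d)
    simpa using this
  have a2 : |(c : ℝ) * z.re + d| ≤ r := by
    have := Complex.abs_re_le_norm ((c : ℂ) * z + d)
    simpa using this
  have a3 : |(c : ℝ)| ≤ B / z.im := by
    rw [abs_mul, abs_of_pos hy] at a1
    rw [le_div_iff₀ hy]
    linarith
  have a4 : |(d : ℝ)| ≤ B + B / z.im * |z.re| := by
    have e : (d : ℝ) = (c * z.re + d) - c * z.re := by ring
    have t := abs_sub ((c : ℝ) * z.re + d) (c * z.re)
    rw [← e, abs_mul] at t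
    have : |(c : ℝ)| * |z.re| ≤ B / z.im * |z.re| := by gcongr
    linarith
  have a5 : 0 ≤ B / z.im := by positivity
  have a6 : 0 ≤ B / z.im * |z.re| := by positivity
  have b1 : |c| ≤ (M : ℤ) := by
    have : |(c : ℝ)| ≤ M := by linarith
    exact_mod_cast this
  have b2 : |d| ≤ (M : ℤ) := by
    have : |(d : ℝ)| ≤ M := by linarith
    exact_mod_cast this
  exact ⟨abs_le.mp b1, abs_le.mp b2⟩

noncomputable def G0 (N K : ℕ) (b : ℕ → ℝ) (z : ℍ) : ℂ := ∑' g : MM N 1, sl (Ph K b) g z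

open Classical in
theorem G0_facts (hk : KitS) (hr : RgS) (N K : ℕ) (b : ℕ → ℝ) (z : ℍ) :
    (Summable fun g : MM N 1 => ‖sl (Ph K b) g z‖) ∧
    (Summable fun c : ℤ => if (N : ℤ) ∣ c then S K b c z else 0) ∧
      G0 N K b z = ∑' c : ℤ, if (N : ℤ) ∣ c then S K b c z else 0 := by
  have e : ∀ g : MM N 1, sl (Ph K b) g z = if st (ac g z) then sl (l0 K b) g z else 0 := by
    intro g
    have hp : 0 < det g := by rw [g.2.1]; norm_num
    rw [hk.slz _ _ _ hp, hk.slz _ _ _ hp]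
    unfold Ph
    split_ifs <;> simp
  have hf := fin_supp hk hr K b z
  have hs : Summable fun v : PR N => ‖sl (l0 K b) (bz v) z‖ := by
    refine summable_of_hasFiniteSupport ((hf.preimage Subtype.val_injective.injOn).subset ?_)
    intro v hv
    exact ⟨v.2.1, fun h => hv (by simp [h])⟩
  have h := (hr N).2 z (fun g => sl (l0 K b) g z)
    (fun g hg j => by rw [sl_tr hk K b (by simpa using hg.1) j]) hs
  have hs2 : Summable ((PR N).indicator fun v => sl (l0 K b) (bz v) z) := by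
    refine summable_of_hasFiniteSupport (hf.subset fun v hv => ?_)
    rw [Function.mem_support, Set.indicator_apply_ne_zero] at hv
    exact ⟨hv.1.1, hv.2⟩
  have e2 : ∀ c : ℤ, ∑' d : ℤ, (PR N).indicator (fun v => sl (l0 K b) (bz v) z) (c, d) =
      if (N : ℤ) ∣ c then S K b c z else 0 := by
    intro c
    unfold S
    split_ifs with hc
    · refine tsum_congr fun d => ?_
      simp [Set.indicator_apply, PR, hc]
    · simp [PR, hc]
  refine ⟨by simpa only [e] using h.1, by simpa only [e2] using hs2.prod, ?_⟩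
  unfold G0
  simp only [e]
  rw [h.2, tsum_subtype (PR N) fun v => sl (l0 K b) (bz v) z, hs2.tsum_prod]
  simp only [e2]

theorem G0_inv (hk : KitS) (N K : ℕ) (b : ℕ → ℝ) : Inv N (G0 N K b) := by
  intro h hh
  have h1 : det h = 1 := by simpa using hh.1
  have hm : ∀ g ∈ MM N 1, ∀ g' ∈ MM N 1, mul g g' ∈ MM N 1 := by
    rintro ⟨a, b', c, d⟩ ⟨p1, p2⟩ ⟨a1, b1, c1, d1⟩ ⟨q1, q2⟩
    simp only [det, Nat.cast_one] at p1 q1
    refine ⟨?_, ?_⟩
    · simp only [det, mul, Nat.cast_one]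
      linear_combination (a1 * d1 - b1 * c1) * p1 + q1
    · exact dvd_add (p2.mul_right _) (q2.mul_left _)
  have ha : adj h ∈ MM N 1 := ⟨by rw [← hh.1]; simp only [det, adj]; ring, hh.2.neg_right⟩
  let E : MM N 1 ≃ MM N 1 :=
    { toFun := fun g => ⟨mul g h, hm _ g.2 _ hh⟩
      invFun := fun g => ⟨mul g (adj h), hm _ g.2 _ ha⟩
      left_inv := by
        rintro ⟨⟨a, b', c, d⟩, hg⟩
        simp only [det] at h1
        simp only [mul, adj, Subtype.mk.injEq, Prod.mk.injEq]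
        exact ⟨by linear_combination a * h1, by linear_combination b' * h1,
          by linear_combination c * h1, by linear_combination d * h1⟩
      right_inv := by
        rintro ⟨⟨a, b', c, d⟩, hg⟩
        simp only [det] at h1
        simp only [mul, adj, Subtype.mk.injEq, Prod.mk.injEq]
        exact ⟨by linear_combination a * h1, by linear_combination b' * h1,
          by linear_combination c * h1, by linear_combination d * h1⟩ }
  funext z
  have hp : 0 < det h := by rw [h1]; norm_num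
  rw [hk.slz _ _ _ hp]
  unfold G0
  rw [← tsum_mul_left, ← E.tsum_eq fun g => sl (Ph K b) g z]
  refine tsum_congr fun g => ?_
  rw [← hk.slz _ _ _ hp, hk.slm _ _ _ (by rw [g.2.1]; norm_num) hp.ne']
  rfl

theorem G0_meas (hk : KitS) (hr : RgS) (N K : ℕ) (b : ℕ → ℝ) : Measurable (G0 N K b) :=
  hk.mts (MM N 1) (fun g => sl (Ph K b) g) (fun _ => hk.msr _ _ (m_Ph K b))
    fun z => (G0_facts hk hr N K b z).1.of_norm

theorem pe_Ph' (F : ℍ → ℂ) (K : ℕ) (b : ℕ → ℝ) (z : ℍ) [Decidable (st z)] :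
    pe F (Ph K b) z = if st z then pe F (l0 K b) z else 0 := by
  unfold pe Ph
  split_ifs <;> simp

open Classical in
theorem G0_pair (hk : KitS) (hr : RgS) {N K : ℕ} (b : ℕ → ℝ) (hN : 1 ≤ N)
    (hv : ∀ c : ℕ, N ∣ c → 12 * K ^ 2 < c → ∀ (z : ℍ) (d : ℤ), IsCoprime (c : ℤ) d →
      pe (sl (l0 K b) (bz (c, d))) (l0 K b) z = 0) (z : ℍ) :
    pe (G0 N K b) (Ph K b) z = ∑ j ∈ Icc (-(12 * K ^ 2 / N : ℕ) : ℤ) (12 * K ^ 2 / N : ℕ),
      pe (S K b (N * j)) (Ph K b) z := by
  have hN0 : (N : ℤ) ≠ 0 := by exact_mod_cast (by omega : N ≠ 0)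
  have e : pe (G0 N K b) (Ph K b) z =
      ∑' c : ℤ, if (N : ℤ) ∣ c then pe (S K b c) (Ph K b) z else 0 := by
    unfold pe
    rw [(G0_facts hk hr N K b z).2.2, ← tsum_mul_right, ← tsum_mul_right]
    refine tsum_congr fun c => ?_
    split_ifs <;> simp
  rw [e, tsum_eq_sum (s := (Icc (-(12 * K ^ 2 / N : ℕ) : ℤ) (12 * K ^ 2 / N : ℕ)).image
    fun j => (N : ℤ) * j), Finset.sum_image fun _ _ _ _ h => mul_left_cancel₀ hN0 h]
  · exact Finset.sum_congr rfl fun j _ => if_pos (dvd_mul_right _ _)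
  · intro c hc
    split_ifs with hd
    · obtain ⟨j, rfl⟩ := hd
      have hj : 12 * K ^ 2 / N < j.natAbs := by
        by_contra hj
        refine hc (Finset.mem_image_of_mem _ (Finset.mem_Icc.mpr ?_))
        omega
      have hlt : 12 * K ^ 2 < ((N : ℤ) * j).natAbs := by
        rw [Int.natAbs_mul, Int.natAbs_natCast, mul_comm N]
        exact (Nat.div_lt_iff_lt_mul hN).mp hj
      have hdv : N ∣ ((N : ℤ) * j).natAbs := by
        rw [Int.natAbs_mul, Int.natAbs_natCast]
        exact dvd_mul_right _ _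
      rw [pe_Ph', S_abs hk hr]
      split_ifs
      · unfold pe S
        rw [← tsum_mul_right, ← tsum_mul_right]
        refine (tsum_congr fun d => ?_).trans tsum_zero
        split_ifs with hcd
        · exact hv _ hdv hlt z d hcd
        · simp
      · rfl
    · rfl

theorem pe_smul (c : ℝ) (F G : ℍ → ℂ) (z : ℍ) :
    pe F (fun z => c * G z) z = c * pe F G z ∧ pe (fun z => c * F z) G z = c * pe F G z := by
  unfold pe
  simp only [map_mul, conj_ofReal]
  constructor <;> ring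

end LsAA

open LsAA

theorem lsAOf : LsAOf := by
  intro hk hr hu hd hq hcu hl
  obtain ⟨Cb, hCb, hl⟩ := hl
  have hc0 := c0_pos
  set C' := Cb + 2 * c0 with hC'
  have hC0 : 0 ≤ C' := by linarith
  refine ⟨1 + 12 * C' / c0 ^ 2, le_add_of_nonneg_right (by positivity),
    fun N K b hN hK hKN => ?_⟩
  have : NeZero N := ⟨hN.ne_zero⟩
  have hN0 : (0 : ℝ) < N := by exact_mod_cast hN.pos
  set Q := ∑ k ∈ Ico K (2 * K), b k ^ 2 with hQ
  have hQ0 : 0 ≤ Q := Finset.sum_nonneg fun _ _ => sq_nonneg _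
  have hJ : ∀ j : ℤ, Integrable (pe (S K b (N * j)) (Ph K b)) ∧
      ‖∫ z, pe (S K b (N * j)) (Ph K b) z‖ ≤ C' * Q := by
    intro j
    rcases eq_or_ne j 0 with rfl | hj
    · have e : pe (S K b (N * 0)) (Ph K b) = fun z => ((2 : ℝ) : ℂ) * pe (l0 K b) (Ph K b) z := by
        funext z
        rw [← (pe_smul 2 (l0 K b) (Ph K b) z).2, mul_zero]
        congr 1
        funext w
        rw [S_zero hk hr]
        norm_num
      rw [e]
      refine ⟨(diag hk hK b).1.const_mul _, ?_⟩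
      rw [integral_const_mul, (diag hk hK b).2, ← Complex.ofReal_mul, Complex.norm_real,
        Real.norm_of_nonneg (by positivity), ← hQ]
      nlinarith
    · classical
      have h1 : 1 ≤ ((N : ℤ) * j).natAbs := Int.natAbs_pos.mpr
        (mul_ne_zero (by exact_mod_cast hN.ne_zero) hj)
      have hdv : N ∣ ((N : ℤ) * j).natAbs := by
        rw [Int.natAbs_mul, Int.natAbs_natCast]
        exact dvd_mul_right _ _
      obtain ⟨-, -, h3, h4⟩ := hl N K _ b hN hK hKN h1 hdv
      have e : pe (S K b (N * j)) (Ph K b) = fun z => if st z then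
          pe (S K b ((N : ℤ) * j).natAbs) (l0 K b) z else 0 := by
        funext z
        rw [pe_Ph', S_abs hk hr]
      rw [e]
      refine ⟨h3, le_trans h4 ?_⟩
      nlinarith
  have hP := G0_pair hk hr b hN.one_le fun c hc hlt =>
    (hl N K c b hN hK hKN (by omega) hc).2.1 hlt
  have hP' := funext hP
  have hI : Integrable (pe (G0 N K b) (Ph K b)) := by
    rw [show pe (G0 N K b) (Ph K b) = _ from hP']
    exact integrable_finsetSum _ fun j _ => (hJ j).1
  have hs := fun z => (G0_facts hk hr N K b z).1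
  obtain ⟨u1, u2⟩ := hu N (G0 N K b) (Ph K b) hN (G0_meas hk hr N K b) (m_Ph K b)
    (G0_inv hk N K b) hI hs
  have u1' : IP N (G0 N K b) (G0 N K b) := u1
  have u2' : ip N (G0 N K b) (G0 N K b) = 2 * ∫ z, pe (G0 N K b) (Ph K b) z := u2
  have hB : ‖∫ z, pe (G0 N K b) (Ph K b) z‖ ≤ 24 * (1 + (K : ℝ) ^ 2 / N) * (C' * Q) := by
    rw [show pe (G0 N K b) (Ph K b) = _ from hP', integral_finsetSum _ fun j _ => (hJ j).1]
    refine (norm_sum_le _ _).trans ((Finset.sum_le_card_nsmul _ _ _ fun j _ => (hJ j).2).trans ?_)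
    rw [nsmul_eq_mul]
    refine mul_le_mul_of_nonneg_right ?_ (by positivity)
    have e : (Icc (-(12 * K ^ 2 / N : ℕ) : ℤ) (12 * K ^ 2 / N : ℕ)).card =
        2 * (12 * K ^ 2 / N) + 1 := by
      rw [Int.card_Icc]
      omega
    have h2 : ((12 * K ^ 2 / N : ℕ) : ℝ) ≤ 12 * (K : ℝ) ^ 2 / N := by
      have := Nat.cast_div_le (α := ℝ) (m := 12 * K ^ 2) (n := N)
      push_cast at this
      exact this
    rw [e]
    push_cast
    rw [mul_div_assoc] at h2
    linarith
  set t : ℝ := 1 / (2 * c0) with ht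
  refine ⟨fun z => t * G0 N K b z, (G0_meas hk hr N K b).const_mul _, ?_, ?_, fun f => ?_⟩
  · unfold IP
    simp only [(pe_smul t _ _ _).1, (pe_smul t _ _ _).2]
    refine (u1'.const_mul ((t : ℂ) * t)).congr (Eventually.of_forall fun z => ?_)
    ring
  · have e : ip N (fun z => t * G0 N K b z) (fun z => t * G0 N K b z) =
        t * t * ip N (G0 N K b) (G0 N K b) := by
      unfold ip
      rw [← integral_const_mul]
      simp only [(pe_smul t _ _ _).1, (pe_smul t _ _ _).2]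
      congr 1
      funext z
      ring
    refine (Complex.re_le_norm _).trans ?_
    rw [e, u2', norm_mul, norm_mul, norm_mul, Complex.norm_real, Complex.norm_two,
      Real.norm_of_nonneg (by positivity)]
    have hp : 0 ≤ (1 + (K : ℝ) ^ 2 / N) * Q := by positivity
    calc t * t * (2 * ‖∫ z, pe (G0 N K b) (Ph K b) z‖)
        ≤ t * t * (2 * (24 * (1 + (K : ℝ) ^ 2 / N) * (C' * Q))) := by gcongr
      _ = 12 * C' / c0 ^ 2 * ((1 + (K : ℝ) ^ 2 / N) * Q) := by
          rw [ht]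
          field_simp
          ring
      _ ≤ _ := by nlinarith
  · obtain ⟨f1, -, f3, f4, -⟩ := (hcu N hN).1 f
    obtain ⟨D, hD⟩ := hd.im' f f4
    have hK0 : (0 : ℝ) < K := by exact_mod_cast hK
    obtain ⟨p1, p2⟩ := pair hk f3 hK b (D := (2 * K) ^ 2 * D) (fun z hz => by
      calc ‖f z‖ = 1 * ‖f z‖ := (one_mul _).symm
        _ ≤ (2 * K) ^ 2 * z.im * ‖f z‖ := mul_le_mul_of_nonneg_right hz (norm_nonneg _)
        _ = (2 * K) ^ 2 * (z.im * ‖f z‖) := mul_assoc _ _ _
        _ ≤ _ := mul_le_mul_of_nonneg_left (hD z) (by positivity))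
      (fun k => co f (k ^ 2)) (fun k _ y h1 _ => by
        have hy : 0 < y := by
          by_contra hy
          have : (k : ℝ) ^ 2 * y ≤ 0 :=
            mul_nonpos_of_nonneg_of_nonpos (by positivity) (not_lt.mp hy)
          linarith
        exact ((hq N f).2.2.2.2.1 (k ^ 2) y hy).symm)
    have u3 : ip N f (G0 N K b) = 2 * ∫ z, pe f (Ph K b) z :=
      (hu N f (Ph K b) hN f3 (m_Ph K b) f1 p1 hs).2
    have e : ip N f (fun z => t * G0 N K b z) = t * ip N f (G0 N K b) := by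
      unfold ip
      rw [← integral_const_mul]
      simp only [(pe_smul t _ _ _).1]
      congr 1
      funext z
      ring
    have hc : (c0 : ℂ) ≠ 0 := by exact_mod_cast hc0.ne'
    rw [e, u3, p2, ht]
    push_cast
    field_simp

end Pool.Agent.MP_20b2fd_nt.H38
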