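import Pool.Agent.MP_20b2fd_nt.H38.SpecA

/-! The contribution of one modulus to the large sieve at squares. -/

set_option autoImplicit false

namespace Pool.Agent.MP_20b2fd_nt.H38

open UpperHalfPlane hiding I
open MeasureTheory Complex Finset Filter Topology
open scoped ModularForm Real Manifold ENNReal

namespace LsBA

theorem ee_add (x y : ℂ) : ee (x + y) = ee x * ee y := by
  unfold ee; rw [mul_add, Complex.exp_add]

theorem ee_int (n : ℤ) : ee n = 1 := by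
  unfold ee; rw [mul_comm]; exact Complex.exp_int_mul_two_pi_mul_I n

theorem norm_ee (x : ℂ) (hx : 0 ≤ x.im) : ‖ee x‖ ≤ 1 := by
  unfold ee
  rw [Complex.norm_exp, Real.exp_le_one_iff]
  have : (2 * π * I * x : ℂ).re = -(2 * π * x.im) := by simp
  rw [this]
  have := Real.pi_pos
  nlinarith [mul_nonneg this.le hx]

theorem conj_ee (t : ℝ) : (starRingEnd ℂ) (ee t) = ee (-t) := by
  unfold ee
  rw [← Complex.exp_conj]
  congr 1
  simp [Complex.conj_ofNat]

theorem orth1 (c : ℕ) (hc : 1 ≤ c) (m : ℤ) (hm : ¬ (c : ℤ) ∣ m) :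
    ∑ x ∈ range c, ee (m * x / c) = 0 := by
  have hc0 : (c : ℂ) ≠ 0 := by exact_mod_cast (by omega : c ≠ 0)
  have h1 : ∀ x : ℕ, ee (m * x / c) = ee (m / c) ^ x := by
    intro x
    unfold ee
    rw [← Complex.exp_nat_mul]
    congr 1
    ring
  have h2 : ee (m / c) ≠ 1 := by
    unfold ee
    rw [Ne, Complex.exp_eq_one_iff]
    rintro ⟨n, hn⟩
    apply hm
    refine ⟨n, ?_⟩
    have h3 : (2 * π * I : ℂ) ≠ 0 := Complex.two_pi_I_ne_zero
    have h4 : (m : ℂ) / c = n := by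
      apply mul_left_cancel₀ h3
      rw [hn]; ring
    have h5 : (m : ℂ) = c * n := by
      rw [← h4]; field_simp
    exact_mod_cast h5
  have h3 : ee (m / c) ^ c = 1 := by
    rw [← h1, mul_div_assoc, div_self hc0, mul_one, ee_int]
  simp_rw [h1]
  rw [geom_sum_eq h2, h3, sub_self, zero_div]

theorem orth2 (c : ℕ) (hc : 1 ≤ c) (J : Finset ℕ)
    (hJ : ∀ k ∈ J, ∀ l ∈ J, (c : ℤ) ∣ (k : ℤ) ^ 2 - (l : ℤ) ^ 2 → k = l) (α : ℕ → ℂ) :
    ∑ x ∈ range c, ‖∑ k ∈ J, α k * ee ((k : ℂ) ^ 2 * x / c)‖ ^ 2 = c * ∑ k ∈ J, ‖α k‖ ^ 2 := by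
  have h1 : ∀ x : ℕ, ((‖∑ k ∈ J, α k * ee ((k : ℂ) ^ 2 * x / c)‖ ^ 2 : ℝ) : ℂ) =
      ∑ k ∈ J, ∑ l ∈ J, α k * (starRingEnd ℂ) (α l) *
        ee ((((k : ℤ) ^ 2 - (l : ℤ) ^ 2 : ℤ) : ℂ) * x / c) := by
    intro x
    rw [Complex.ofReal_pow, ← Complex.mul_conj', map_sum, sum_mul_sum]
    refine sum_congr rfl fun k _ => sum_congr rfl fun l _ => ?_
    have h2 : ((l : ℂ) ^ 2 * x / c) = (((l : ℝ) ^ 2 * x / c : ℝ) : ℂ) := by push_cast; ring
    have h3 : ((((k : ℤ) ^ 2 - (l : ℤ) ^ 2 : ℤ) : ℂ) * x / c) =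
        (k : ℂ) ^ 2 * x / c + -(((l : ℝ) ^ 2 * x / c : ℝ) : ℂ) := by push_cast; ring
    rw [map_mul, h2, conj_ee, h3, ee_add]
    ring
  apply Complex.ofReal_injective
  rw [Complex.ofReal_sum, sum_congr rfl fun x _ => h1 x, sum_comm]
  push_cast
  rw [mul_sum]
  refine sum_congr rfl fun k hk => ?_
  rw [sum_comm, sum_eq_single k]
  · simp only [sub_self, zero_mul, zero_div]
    have : ee 0 = 1 := by simpa using ee_int 0
    rw [this, Complex.mul_conj']
    simp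
  · intro l hl hlk
    rw [← mul_sum]
    have := orth1 c hc ((k : ℤ) ^ 2 - (l : ℤ) ^ 2) fun h => hlk (hJ k hk l hl h).symm
    push_cast at this
    rw [this, mul_zero]
  · intro h; exact absurd hk h

theorem orth3 (c : ℕ) (hc : 1 ≤ c) (J : Finset ℕ)
    (hJ : ∀ k ∈ J, ∀ l ∈ J, (c : ℤ) ∣ (k : ℤ) ^ 2 - (l : ℤ) ^ 2 → k = l) (α : ℕ → ℂ)
    (D : Finset ℤ) (a : ℤ → ℤ) (ha : ∀ d ∈ D, ∀ e ∈ D, (c : ℤ) ∣ a d - a e → d = e) :
    ∑ d ∈ D, ‖∑ k ∈ J, α k * ee ((k : ℂ) ^ 2 * a d / c)‖ ^ 2 ≤ c * ∑ k ∈ J, ‖α k‖ ^ 2 := by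
  classical
  have hc0 : (c : ℂ) ≠ 0 := by exact_mod_cast (by omega : c ≠ 0)
  have hc1 : (0 : ℤ) < c := by exact_mod_cast hc
  have h0 : ∀ d, (((a d % c).toNat : ℕ) : ℤ) = a d % c := fun d =>
    Int.toNat_of_nonneg (Int.emod_nonneg _ hc1.ne')
  have h1 : ∀ (d : ℤ) (k : ℕ), ee ((k : ℂ) ^ 2 * a d / c) =
      ee ((k : ℂ) ^ 2 * ((a d % c).toNat : ℕ) / c) := by
    intro d k
    have h2 : ((a d : ℤ) : ℂ) = ((a d % c).toNat : ℕ) + c * (a d / c : ℤ) := by
      have := Int.emod_add_mul_ediv (a d) c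
      rw [← h0 d] at this
      exact_mod_cast this.symm
    have h3 : (k : ℂ) ^ 2 * a d / c = (k : ℂ) ^ 2 * ((a d % c).toNat : ℕ) / c +
        (((k : ℤ) ^ 2 * (a d / c) : ℤ) : ℂ) := by
      rw [h2]; push_cast; field_simp
    rw [h3, ee_add, ee_int, mul_one]
  simp_rw [h1]
  rw [← orth2 c hc J hJ α, ← sum_image (s := D) (g := fun d => (a d % c).toNat)
    (f := fun x : ℕ => ‖∑ k ∈ J, α k * ee ((k : ℂ) ^ 2 * x / c)‖ ^ 2)]
  · refine sum_le_sum_of_subset_of_nonneg ?_ fun _ _ _ => by positivity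
    intro x hx
    obtain ⟨d, -, rfl⟩ := mem_image.1 hx
    rw [mem_range]
    have := Int.emod_lt_of_pos (a d) hc1
    have := h0 d
    omega
  · intro d hd e he h
    apply ha d hd e he
    have h2 : a d % c = a e % c := by
      rw [← h0 d, ← h0 e]; exact congrArg _ h
    exact Int.ModEq.dvd h2.symm

theorem sq_inj {N K c : ℕ} (hN : N.Prime) (_hK : 1 ≤ K) (hKN : 4 * K < N) (hc : N ∣ c) :
    ∀ k ∈ Ico K (2 * K), ∀ l ∈ Ico K (2 * K), (c : ℤ) ∣ (k : ℤ) ^ 2 - (l : ℤ) ^ 2 → k = l := by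
  intro k hk l hl h
  rw [mem_Ico] at hk hl
  have h1 : (N : ℤ) ∣ ((k : ℤ) + l) * (k - l) := by
    have := (Int.natCast_dvd_natCast.2 hc).trans h
    rwa [show (k : ℤ) ^ 2 - (l : ℤ) ^ 2 = ((k : ℤ) + l) * (k - l) by ring] at this
  rcases (Nat.prime_iff_prime_int.1 hN).dvd_or_dvd h1 with h2 | h2
  · have := Int.le_of_dvd (by omega) h2
    omega
  · have := Int.eq_zero_of_abs_lt_dvd h2 (by rw [abs_lt]; omega)
    omega

/-- the mean square of the seed over a system of shifts -/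
theorem msq {N K c : ℕ} (b : ℕ → ℝ) (hN : N.Prime) (hK : 1 ≤ K) (hKN : 4 * K < N) (hc : 1 ≤ c)
    (hNc : N ∣ c) (v : ℂ) (D : Finset ℤ) (a : ℤ → ℤ) (p : ℤ → ℍ)
    (ha : ∀ d ∈ D, ∀ e ∈ D, (c : ℤ) ∣ a d - a e → d = e) (hv : 0 ≤ v.im)
    (hp : ∀ d ∈ D, (p d : ℂ) = v + a d / c) :
    ∑ d ∈ D, ‖l0 K b (p d)‖ ^ 2 ≤ c * (4 * K ^ 2 * ∑ k ∈ Ico K (2 * K), b k ^ 2) := by
  classical
  have h1 : ∀ d ∈ D, l0 K b (p d) = ∑ k ∈ Ico K (2 * K),
      (if 1 ≤ (k : ℝ) ^ 2 * v.im ∧ (k : ℝ) ^ 2 * v.im ≤ 2 then b k * k * ee (k ^ 2 * v) else 0) *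
        ee ((k : ℂ) ^ 2 * a d / c) := by
    intro d hd
    have h2 : (p d).im = v.im := by
      have h3 : ((a d : ℂ) / c) = (((a d : ℝ) / c : ℝ) : ℂ) := by push_cast; ring
      rw [← coe_im, hp d hd, h3, add_im, ofReal_im, add_zero]
    unfold l0
    refine sum_congr rfl fun k _ => ?_
    rw [h2, hp d hd, mul_add, ee_add, mul_div_assoc]
    split_ifs
    · ring
    · ring
  rw [sum_congr rfl fun d hd => by rw [h1 d hd]]
  refine (orth3 c hc _ (sq_inj hN hK hKN hNc) _ D a ha).trans ?_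
  refine mul_le_mul_of_nonneg_left ?_ (Nat.cast_nonneg c)
  rw [mul_sum]
  refine sum_le_sum fun k hk => ?_
  rw [mem_Ico] at hk
  split_ifs
  · have h2 : ‖ee (k ^ 2 * v)‖ ≤ 1 := by
      apply norm_ee
      have h3 : ((k : ℂ) ^ 2) = (((k : ℝ) ^ 2 : ℝ) : ℂ) := by push_cast; ring
      rw [h3, im_ofReal_mul]
      positivity
    have h3 : (k : ℝ) ≤ 2 * K := by exact_mod_cast hk.2.le
    rw [norm_mul, norm_mul, Complex.norm_real, Complex.norm_natCast, Real.norm_eq_abs, mul_pow,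
      mul_pow, sq_abs]
    have h4 : ‖ee (k ^ 2 * v)‖ ^ 2 ≤ 1 := pow_le_one₀ (norm_nonneg _) h2
    have h5 : (k : ℝ) ^ 2 ≤ 4 * K ^ 2 := by nlinarith [Nat.cast_nonneg (α := ℝ) k]
    calc b k ^ 2 * (k : ℝ) ^ 2 * ‖ee (k ^ 2 * v)‖ ^ 2 ≤ b k ^ 2 * (4 * K ^ 2) * 1 := by gcongr
      _ = _ := by ring
  · rw [norm_zero, zero_pow two_ne_zero]; positivity

theorem supp {K : ℕ} {b : ℕ → ℝ} {z : ℍ} (h : l0 K b z ≠ 0) :
    1 ≤ 4 * (K : ℝ) ^ 2 * z.im ∧ (K : ℝ) ^ 2 * z.im ≤ 2 := by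
  classical
  unfold l0 at h
  obtain ⟨k, hk, h1⟩ := exists_ne_zero_of_sum_ne_zero h
  rw [mem_Ico] at hk
  have h2 : 1 ≤ (k : ℝ) ^ 2 * z.im ∧ (k : ℝ) ^ 2 * z.im ≤ 2 := by
    by_contra h2
    exact h1 (if_neg h2)
  have h3 : (k : ℝ) ≤ 2 * K := by exact_mod_cast hk.2.le
  have h4 : (K : ℝ) ≤ k := by exact_mod_cast hk.1
  have h5 : (k : ℝ) ^ 2 ≤ 4 * K ^ 2 := by nlinarith [Nat.cast_nonneg (α := ℝ) k]
  have h6 : (K : ℝ) ^ 2 ≤ k ^ 2 := by nlinarith [Nat.cast_nonneg (α := ℝ) K]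
  have h7 := z.im_pos
  exact ⟨h2.1.trans (by gcongr), le_trans (by gcongr) h2.2⟩

theorem meas_l0 (K : ℕ) (b : ℕ → ℝ) : Measurable (l0 K b) := by
  classical
  have him : Measurable fun z : ℍ => z.im := UpperHalfPlane.continuous_im.measurable
  unfold l0
  refine Finset.measurable_sum _ fun k _ => Measurable.ite ?_ ?_ measurable_const
  · exact (measurableSet_le measurable_const (him.const_mul _)).inter
      (measurableSet_le (him.const_mul _) measurable_const)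
  · refine Continuous.measurable ?_
    unfold ee
    have := UpperHalfPlane.continuous_coe
    fun_prop

theorem meas_st : MeasurableSet {z : ℍ | st z} := by
  have hre : Measurable fun z : ℍ => z.re := UpperHalfPlane.continuous_re.measurable
  exact (measurableSet_le measurable_const hre).inter (measurableSet_lt hre measurable_const)

theorem det_bz {c d : ℤ} (h : IsCoprime c d) : det (bz (c, d)) = 1 := by
  have h1 := Int.gcd_eq_gcd_ab c d
  rw [Int.isCoprime_iff_gcd_eq_one.1 h] at h1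
  unfold det bz
  simp only
  push_cast at h1
  linarith

theorem den_ne {c : ℕ} (k : KitS) (hc : 1 ≤ c) (d : ℤ) (z : ℍ) : (c : ℂ) * z + d ≠ 0 := by
  have := k.den c d z (Or.inl (by exact_mod_cast (by omega : c ≠ 0)))
  exact_mod_cast this

theorem facts {c : ℕ} (k : KitS) (hc : 1 ≤ c) {d : ℤ} (h : IsCoprime (c : ℤ) d) (F : ℍ → ℂ)
    (z : ℍ) :
    ‖sl F (bz (c, d)) z‖ = ‖F (ac (bz (c, d)) z)‖ / ‖(c : ℂ) * z + d‖ ^ 2 ∧
    (ac (bz (c, d)) z).im = z.im / ‖(c : ℂ) * z + d‖ ^ 2 ∧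
    ((ac (bz (c, d)) z : ℍ) : ℂ) = -1 / (c * ((c : ℂ) * z + d)) + (Int.gcdB c d : ℤ) / c := by
  have h1 := det_bz h
  have h2 : 0 < det (bz (c, d)) := by rw [h1]; exact one_pos
  have h3 := den_ne k hc d z
  have hc0 : (c : ℂ) ≠ 0 := by exact_mod_cast (by omega : c ≠ 0)
  refine ⟨?_, ?_, ?_⟩
  · rw [k.slz F _ z h2, h1]
    simp only [bz, Int.cast_natCast, Int.cast_one, norm_mul, norm_div, norm_one, norm_pow]
    ring
  · rw [k.imz _ z h2, h1]
    simp only [bz, Int.cast_natCast, Int.cast_one, one_mul]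
  · rw [k.coez _ z h2]
    have h4 : ((Int.gcdB c d : ℤ) : ℂ) * d + (Int.gcdA c d : ℤ) * c = 1 := by
      unfold det bz at h1
      simp only at h1
      have : Int.gcdB c d * d + Int.gcdA c d * c = 1 := by linarith
      exact_mod_cast this
    simp only [bz, Int.cast_natCast, Int.cast_neg]
    rw [div_add_div _ _ (mul_ne_zero hc0 h3) hc0, div_eq_div_iff h3
      (mul_ne_zero (mul_ne_zero hc0 h3) hc0)]
    linear_combination (-(c : ℂ) * ((c : ℂ) * z + d)) * h4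

theorem re_le (c : ℕ) (d : ℤ) (z : ℍ) :
    ((c : ℝ) * z.re + d) ^ 2 + ((c : ℝ) * z.im) ^ 2 = ‖(c : ℂ) * z + d‖ ^ 2 := by
  rw [Complex.sq_norm, Complex.normSq_apply]
  simp
  ring

theorem up {c K : ℕ} {b : ℕ → ℝ} (k : KitS) (hc : 1 ≤ c) {d : ℤ} (h : IsCoprime (c : ℤ) d)
    {z : ℍ} (h1 : sl (l0 K b) (bz (c, d)) z ≠ 0) :
    ‖(c : ℂ) * z + d‖ ^ 2 ≤ 4 * K ^ 2 * z.im ∧ (K : ℝ) ^ 2 * z.im ≤ 2 * ‖(c : ℂ) * z + d‖ ^ 2 := by
  obtain ⟨f1, f2, -⟩ := facts k hc h (l0 K b) z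
  have h2 : l0 K b (ac (bz (c, d)) z) ≠ 0 := by
    intro h2
    rw [h2, norm_zero, zero_div, norm_eq_zero] at f1
    exact h1 f1
  have h3 := supp h2
  have h4 : 0 < ‖(c : ℂ) * z + d‖ ^ 2 := pow_pos (norm_pos_iff.2 (den_ne k hc d z)) 2
  rw [f2, ← mul_div_assoc, ← mul_div_assoc, le_div_iff₀ h4, div_le_iff₀ h4, one_mul] at h3
  exact h3

theorem fin {c K : ℕ} (b : ℕ → ℝ) (k : KitS) (hc : 1 ≤ c) (z : ℍ) :
    {d : ℤ | IsCoprime (c : ℤ) d ∧ sl (l0 K b) (bz (c, d)) z ≠ 0}.Finite := by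
  obtain ⟨n, hn⟩ := exists_nat_ge (4 * (K : ℝ) ^ 2 * z.im + 1 + |(c : ℝ) * z.re|)
  refine (Set.finite_Icc (-(n : ℤ)) n).subset ?_
  rintro d ⟨h, h1⟩
  have h2 := (up k hc h h1).1
  rw [← re_le] at h2
  have h3 : |(c : ℝ) * z.re + d| ≤ 4 * (K : ℝ) ^ 2 * z.im + 1 := by
    rw [abs_le]
    constructor <;> nlinarith [sq_nonneg ((c : ℝ) * z.im), sq_nonneg ((c : ℝ) * z.re + d + 1),
      sq_nonneg ((c : ℝ) * z.re + d - 1), sq_nonneg ((c : ℝ) * z.re + d)]
  have h4 := abs_le.1 h3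
  have h5 := le_abs_self ((c : ℝ) * z.re)
  have h6 := neg_abs_le ((c : ℝ) * z.re)
  have h7 : -(n : ℝ) ≤ d := by linarith [h4.1]
  have h8 : (d : ℝ) ≤ n := by linarith [h4.2]
  exact ⟨by exact_mod_cast h7, by exact_mod_cast h8⟩

theorem van {c K : ℕ} (b : ℕ → ℝ) (k : KitS) (hc : 12 * K ^ 2 < c) (z : ℍ) (d : ℤ)
    (h : IsCoprime (c : ℤ) d) : pe (sl (l0 K b) (bz (c, d))) (l0 K b) z = 0 := by
  by_contra h0
  unfold pe at h0
  have h1 : sl (l0 K b) (bz (c, d)) z ≠ 0 := fun h1 => h0 (by rw [h1]; simp)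
  have h2 : l0 K b z ≠ 0 := fun h1 => h0 (by rw [h1]; simp)
  have h3 := (up k (by omega) h h1).1
  have h4 := (supp h2).1
  rw [← re_le] at h3
  have h5 := z.im_pos
  have h6 : (12 : ℝ) * K ^ 2 < c := by exact_mod_cast hc
  have h7 : (c : ℝ) ^ 2 * z.im ≤ 4 * K ^ 2 := by
    apply le_of_mul_le_mul_right _ h5
    nlinarith [sq_nonneg ((c : ℝ) * z.re + d)]
  have h8 : (c : ℝ) ^ 2 ≤ (4 * K ^ 2) ^ 2 := by
    calc (c : ℝ) ^ 2 ≤ c ^ 2 * (4 * K ^ 2 * z.im) := le_mul_of_one_le_right (by positivity) h4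
      _ = 4 * K ^ 2 * (c ^ 2 * z.im) := by ring
      _ ≤ 4 * K ^ 2 * (4 * K ^ 2) := by gcongr
      _ = _ := by ring
  have h9 : (c : ℝ) ≤ 4 * K ^ 2 := le_of_sq_le_sq (by simpa using h8) (by positivity)
  nlinarith [sq_nonneg (K : ℝ)]

open Classical in
noncomputable def tm (c K : ℕ) (b : ℕ → ℝ) (d : ℤ) (z : ℍ) : ℝ :=
  if st z ∧ IsCoprime (c : ℤ) d then
    ‖sl (l0 K b) (bz (c, d)) z‖ * (‖l0 K b z‖ * z.im ^ 2) else 0

theorem tm_nonneg (c K : ℕ) (b : ℕ → ℝ) (d : ℤ) (z : ℍ) : 0 ≤ tm c K b d z := by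
  unfold tm
  split_ifs
  · positivity
  · exact le_rfl

theorem tm_meas (k : KitS) (c K : ℕ) (b : ℕ → ℝ) (d : ℤ) : Measurable (tm c K b d) := by
  have him : Measurable fun z : ℍ => z.im := UpperHalfPlane.continuous_im.measurable
  unfold tm
  refine Measurable.ite (meas_st.inter (MeasurableSet.const _)) ?_ measurable_const
  exact (k.msr _ _ (meas_l0 K b)).norm.mul ((meas_l0 K b).norm.mul (him.pow_const 2))

noncomputable def sh (c : ℕ) (d : ℤ) (w : ℍ) : ℍ := gr 1 (-((d : ℝ) / c)) 0 1 • w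

theorem sh_coe (k : KitS) (c : ℕ) (d : ℤ) (w : ℍ) :
    ((sh c d w : ℍ) : ℂ) = w + ((-d : ℤ) : ℂ) / c := by
  unfold sh
  rw [k.coe _ _ _ _ _ (by norm_num)]
  push_cast
  ring

theorem sh_re (k : KitS) (c : ℕ) (d : ℤ) (w : ℍ) :
    (sh c d w).re = w.re - d / c ∧ (sh c d w).im = w.im := by
  have h : (((-d : ℤ) : ℂ) / c) = ((-((d : ℝ) / c) : ℝ) : ℂ) := by push_cast; ring
  constructor
  · rw [← coe_re, sh_coe k, h, add_re, ofReal_re, coe_re]; ring
  · rw [← coe_im, sh_coe k, h, add_im, ofReal_im, coe_im]; ring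

open Classical in
noncomputable def bd (c K : ℕ) (M : ℝ) (w : ℍ) : ℝ≥0∞ :=
  if |w.re| ≤ 3 / c ∧ w.im ≤ 2 / K ^ 2 then ENNReal.ofReal (M * w.im ^ 2) else 0

theorem key {N K c : ℕ} (b : ℕ → ℝ) (k : KitS) (hN : N.Prime) (hK : 1 ≤ K) (hKN : 4 * K < N)
    (hc : 1 ≤ c) (hNc : N ∣ c) (w : ℍ) :
    ∑' d : ℤ, ENNReal.ofReal (tm c K b d (sh c d w)) ≤
      bd c K (32 * c * K ^ 2 * ∑ k ∈ Ico K (2 * K), b k ^ 2) w := by
  classical
  have hc0 : (c : ℂ) ≠ 0 := by exact_mod_cast (by omega : c ≠ 0)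
  have hc1 : (0 : ℝ) < c := by exact_mod_cast hc
  have hK1 : (0 : ℝ) < K := by exact_mod_cast hK
  have hu : ∀ d : ℤ, (c : ℂ) * sh c d w + d = c * w := by
    intro d
    rw [sh_coe k]; push_cast; field_simp; ring
  have hy := w.im_pos
  have hsup : ∀ d : ℤ, tm c K b d (sh c d w) ≠ 0 →
      1 ≤ 8 * ‖(c : ℂ) * w‖ ^ 2 ∧ |w.re| ≤ 3 / c ∧ w.im ≤ 2 / K ^ 2 := by
    intro d hd
    unfold tm at hd
    split_ifs at hd with h
    · have h1 : sl (l0 K b) (bz (c, d)) (sh c d w) ≠ 0 := fun h1 => hd (by rw [h1]; simp)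
      have h2 : l0 K b (sh c d w) ≠ 0 := fun h1 => hd (by rw [h1]; simp)
      have h3 := up k hc h.2 h1
      have h4 := supp h2
      rw [hu, (sh_re k c d w).2] at h3
      rw [(sh_re k c d w).2] at h4
      refine ⟨by linarith [h3.2, h4.1], ?_, ?_⟩
      · have h5 := re_le c 0 w
        simp only [Int.cast_zero, add_zero] at h5
        have h6 : ((c : ℝ) * w.re) ^ 2 ≤ 3 ^ 2 := by
          nlinarith [sq_nonneg ((c : ℝ) * w.im), h3.1, h4.2]
        have h7 := abs_le_of_sq_le_sq h6 (by norm_num)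
        rw [abs_mul, abs_of_pos hc1] at h7
        rw [le_div_iff₀ hc1]
        linarith
      · rw [le_div_iff₀ (by positivity)]
        linarith [h4.2]
    · exact absurd rfl hd
  unfold bd
  split_ifs with hR
  swap
  · refine le_of_eq (ENNReal.tsum_eq_zero.2 fun d => ?_)
    by_contra h
    refine hR (hsup d fun h1 => h ?_).2
    rw [h1, ENNReal.ofReal_zero]
  set m : ℤ := ⌊(c : ℝ) * w.re⌋ with hm
  set D : Finset ℤ := (Ioc (m - c) m).filter fun d => IsCoprime (c : ℤ) d with hD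
  have hD1 : ∀ d ∈ D, ∀ e ∈ D, (c : ℤ) ∣ d - e → d = e := by
    intro d hd e he h
    have h1 := mem_Ioc.1 (mem_filter.1 hd).1
    have h2 := mem_Ioc.1 (mem_filter.1 he).1
    have := Int.eq_zero_of_abs_lt_dvd h (by rw [abs_lt]; omega)
    omega
  rw [tsum_eq_sum (s := D), ← ENNReal.ofReal_sum_of_nonneg fun d _ => tm_nonneg _ _ _ _ _]
  · apply ENNReal.ofReal_le_ofReal
    have hv : 0 ≤ (-1 / (c * ((c : ℂ) * w))).im := by
      have h1 : (-1 / (c * ((c : ℂ) * w))) = ((1 / (c : ℝ) ^ 2 : ℝ) : ℂ) * (-(w : ℂ)⁻¹) := by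
        have := w.ne_zero
        push_cast; field_simp
      rw [h1, im_ofReal_mul, neg_im, inv_im, coe_im, neg_div, neg_neg]
      have := normSq_nonneg (w : ℂ)
      positivity
    have hA := msq b hN hK hKN hc hNc (-1 / (c * ((c : ℂ) * w))) D (fun d => Int.gcdB c d)
      (fun d => ac (bz (c, d)) (sh c d w)) (by
        intro d hd e he h
        apply hD1 d hd e he
        have h1 := det_bz (mem_filter.1 hd).2
        have h2 := det_bz (mem_filter.1 he).2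
        unfold det bz at h1 h2
        simp only at h1 h2
        obtain ⟨t, ht⟩ := h
        refine ⟨d * Int.gcdA c e - e * Int.gcdA c d - d * e * t, ?_⟩
        linear_combination e * h1 - d * h2 - d * e * ht) hv (by
        intro d hd
        rw [(facts k hc (mem_filter.1 hd).2 (l0 K b) _).2.2, hu])
    have hB := msq b hN hK hKN hc hNc w D (fun d => -d) (fun d => sh c d w) (by
        intro d hd e he h
        refine (hD1 e he d hd ?_).symm
        rwa [show -d - -e = e - d by ring] at h) hy.le (fun d _ => sh_coe k c d w)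
    have hT : ∀ d ∈ D, tm c K b d (sh c d w) ≤ 4 * w.im ^ 2 *
        (‖l0 K b (ac (bz (c, d)) (sh c d w))‖ ^ 2 + ‖l0 K b (sh c d w)‖ ^ 2) := by
      intro d hd
      by_cases h0 : tm c K b d (sh c d w) = 0
      · rw [h0]; positivity
      have h1 := (hsup d h0).1
      unfold tm
      split_ifs
      · rw [(facts k hc (mem_filter.1 hd).2 (l0 K b) _).1, hu, (sh_re k c d w).2]
        set A := ‖l0 K b (ac (bz (c, d)) (sh c d w))‖
        set B := ‖l0 K b (sh c d w)‖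
        have hA0 : 0 ≤ A := norm_nonneg _
        have hB0 : 0 ≤ B := norm_nonneg _
        have h2 : A / ‖(c : ℂ) * w‖ ^ 2 ≤ 8 * A := by
          rw [div_le_iff₀ (by linarith)]
          nlinarith
        calc A / ‖(c : ℂ) * w‖ ^ 2 * (B * w.im ^ 2) ≤ 8 * A * (B * w.im ^ 2) := by gcongr
          _ = 4 * w.im ^ 2 * (2 * A * B) := by ring
          _ ≤ _ := by
            gcongr
            nlinarith [sq_nonneg (A - B)]
      · positivity
    refine (sum_le_sum hT).trans ?_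
    rw [← mul_sum, sum_add_distrib]
    calc _ ≤ 4 * w.im ^ 2 * (c * (4 * K ^ 2 * ∑ k ∈ Ico K (2 * K), b k ^ 2) +
          c * (4 * K ^ 2 * ∑ k ∈ Ico K (2 * K), b k ^ 2)) := by gcongr
      _ = _ := by ring
  · intro d hd
    unfold tm
    rw [if_neg, ENNReal.ofReal_zero]
    rintro ⟨⟨h1, h2⟩, h3⟩
    apply hd
    rw [(sh_re k c d w).1] at h1 h2
    have h4 : (d : ℝ) ≤ c * w.re := by
      rw [sub_nonneg, div_le_iff₀ hc1] at h1; linarith
    have h5 : (c : ℝ) * w.re < (d + c : ℤ) := by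
      rw [sub_lt_comm, lt_div_iff₀ hc1] at h2; push_cast; linarith
    have h6 := Int.le_floor.2 h4
    have h7 := Int.floor_lt.2 h5
    exact mem_filter.2 ⟨mem_Ioc.2 ⟨by omega, h6⟩, h3⟩

theorem bd_meas (c K : ℕ) (M : ℝ) : Measurable (bd c K M) := by
  have him : Measurable fun z : ℍ => z.im := UpperHalfPlane.continuous_im.measurable
  have hre : Measurable fun z : ℍ => |z.re| := UpperHalfPlane.continuous_re.abs.measurable
  unfold bd
  refine Measurable.ite ((measurableSet_le hre measurable_const).inter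
    (measurableSet_le him measurable_const)) ?_ measurable_const
  exact ((him.pow_const 2).const_mul M).ennreal_ofReal

theorem bd_int (k : KitS) {c K : ℕ} (hc : 1 ≤ c) (hK : 1 ≤ K) {M : ℝ} (hM : 0 ≤ M) :
    ∫⁻ w, bd c K M w ≤ ENNReal.ofReal (M * (6 / c) * (2 / K ^ 2)) := by
  have hc1 : (0 : ℝ) < c := by exact_mod_cast hc
  have hK1 : (0 : ℝ) < K := by exact_mod_cast hK
  rw [k.lint _ (bd_meas c K M)]
  have h1 : ∀ y ∈ Set.Ioi (0 : ℝ), ∫⁻ x : ℝ, bd c K M (pt x y) * ENNReal.ofReal (1 / y ^ 2) ≤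
      (Set.Iic (2 / (K : ℝ) ^ 2)).indicator (fun _ => ENNReal.ofReal (M * (6 / c))) y := by
    intro y hy
    have hy0 : 0 < y := hy
    by_cases h : y ≤ 2 / (K : ℝ) ^ 2
    · rw [Set.indicator_of_mem (show y ∈ Set.Iic _ from h)]
      calc _ ≤ ∫⁻ x : ℝ, (Set.Icc (-(3 / c : ℝ)) (3 / c)).indicator
            (fun _ => ENNReal.ofReal M) x := by
            refine lintegral_mono fun x => ?_
            unfold bd
            rw [(k.ptc x y hy0).2.1, (k.ptc x y hy0).2.2]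
            split_ifs with h2
            · rw [Set.indicator_of_mem (show x ∈ Set.Icc _ _ from abs_le.1 h2.1),
                ← ENNReal.ofReal_mul (by positivity)]
              apply le_of_eq
              congr 1
              field_simp
            · rw [zero_mul]; exact zero_le
        _ = _ := by
            rw [lintegral_indicator_const measurableSet_Icc, Real.volume_Icc,
              ← ENNReal.ofReal_mul hM]
            congr 1
            ring
    · refine le_trans (le_of_eq ?_) zero_le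
      refine (lintegral_congr fun x => ?_).trans lintegral_zero
      unfold bd
      rw [(k.ptc x y hy0).2.2, if_neg fun h2 => h h2.2, zero_mul]
  refine (setLIntegral_mono' measurableSet_Ioi h1).trans (le_of_eq ?_)
  rw [lintegral_indicator_const measurableSet_Iic, Measure.restrict_apply measurableSet_Iic,
    Set.Iic_inter_Ioi, Real.volume_Ioc, sub_zero, ← ENNReal.ofReal_mul (by positivity)]

end LsBA

open LsBA in
theorem lsBOf : LsBOf := by
  classical
  intro k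
  refine ⟨384, by norm_num, fun N K c b hN hK hKN hc hNc => ⟨fin b k hc, van b k, ?_⟩⟩
  have hc1 : (0 : ℝ) < c := by exact_mod_cast hc
  have hK1 : (0 : ℝ) < K := by exact_mod_cast hK
  have hS : 0 ≤ ∑ k ∈ Ico K (2 * K), b k ^ 2 := sum_nonneg fun _ _ => sq_nonneg _
  have hs : ∀ z : ℍ, Summable fun d : ℤ =>
      ‖if IsCoprime (c : ℤ) d then sl (l0 K b) (bz (c, d)) z else 0‖ := by
    intro z
    refine summable_of_hasFiniteSupport ((fin (K := K) b k hc z).subset fun d hd => ?_)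
    by_cases h : IsCoprime (c : ℤ) d
    · refine ⟨h, fun h1 => hd ?_⟩
      simp only [h1, ite_self, norm_zero]
    · exact absurd (by simp only [if_neg h, norm_zero]) hd
  set F : ℍ → ℂ := fun z => if st z then
      pe (fun z => ∑' d : ℤ, if IsCoprime (c : ℤ) d then sl (l0 K b) (bz (c, d)) z else 0)
        (l0 K b) z else 0 with hF
  have hm : Measurable F := by
    refine Measurable.ite meas_st (k.mpe _ _ ?_ (meas_l0 K b)) measurable_const
    refine k.mts ℤ (fun d z => if IsCoprime (c : ℤ) d then sl (l0 K b) (bz (c, d)) z else 0)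
      (fun d => ?_) fun z => (hs z).of_norm
    by_cases h : IsCoprime (c : ℤ) d
    · simp only [if_pos h]; exact k.msr _ _ (meas_l0 K b)
    · simp only [if_neg h]; exact measurable_const
  have hp : ∀ z, ENNReal.ofReal ‖F z‖ ≤ ∑' d : ℤ, ENNReal.ofReal (tm c K b d z) := by
    intro z
    by_cases hz : st z
    · have h1 : ∀ d : ℤ, tm c K b d z =
          ‖if IsCoprime (c : ℤ) d then sl (l0 K b) (bz (c, d)) z else 0‖ *
            (‖l0 K b z‖ * z.im ^ 2) := by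
        intro d
        unfold tm
        by_cases h : IsCoprime (c : ℤ) d
        · rw [if_pos ⟨hz, h⟩, if_pos h]
        · rw [if_neg fun h1 => h h1.2, if_neg h, norm_zero, zero_mul]
      have h2 : Summable fun d => tm c K b d z := by
        simp_rw [h1]; exact (hs z).mul_right _
      rw [← ENNReal.ofReal_tsum_of_nonneg (fun d => tm_nonneg _ _ _ _ _) h2]
      apply ENNReal.ofReal_le_ofReal
      simp_rw [h1]
      rw [tsum_mul_right, hF]
      simp only [if_pos hz, pe, norm_mul, RCLike.norm_conj, norm_pow, Complex.norm_real,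
        Real.norm_eq_abs, sq_abs]
      rw [mul_assoc]
      exact mul_le_mul_of_nonneg_right (norm_tsum_le_tsum_norm (hs z)) (by positivity)
    · rw [hF]
      simp only [if_neg hz, norm_zero, ENNReal.ofReal_zero]
      exact zero_le
  have hI : ∫⁻ z, ENNReal.ofReal ‖F z‖ ≤
      ENNReal.ofReal (384 * ∑ k ∈ Ico K (2 * K), b k ^ 2) := by
    have hmm : ∀ d : ℤ, Measurable fun z => ENNReal.ofReal (tm c K b d z) := fun d =>
      (tm_meas k c K b d).ennreal_ofReal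
    have hsh : ∀ d : ℤ, MeasurePreserving (sh c d) volume volume := fun d => k.mp _
    calc _ ≤ ∫⁻ z, ∑' d : ℤ, ENNReal.ofReal (tm c K b d z) := lintegral_mono hp
      _ = ∑' d : ℤ, ∫⁻ z, ENNReal.ofReal (tm c K b d z) :=
        lintegral_tsum fun d => (hmm d).aemeasurable
      _ = ∑' d : ℤ, ∫⁻ w, ENNReal.ofReal (tm c K b d (sh c d w)) :=
        tsum_congr fun d => ((hsh d).lintegral_comp (hmm d)).symm
      _ = ∫⁻ w, ∑' d : ℤ, ENNReal.ofReal (tm c K b d (sh c d w)) :=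
        (lintegral_tsum fun d => ((hmm d).comp (hsh d).measurable).aemeasurable).symm
      _ ≤ ∫⁻ w, bd c K (32 * c * K ^ 2 * ∑ k ∈ Ico K (2 * K), b k ^ 2) w :=
        lintegral_mono fun w => key b k hN hK hKN hc hNc w
      _ ≤ _ := by
        refine (bd_int k hc hK (by positivity)).trans (le_of_eq ?_)
        congr 1
        field_simp
        ring
  refine ⟨⟨hm.aestronglyMeasurable, ?_⟩, ?_⟩
  · rw [hasFiniteIntegral_iff_norm]
    exact hI.trans_lt ENNReal.ofReal_lt_top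
  · refine (norm_integral_le_lintegral_norm F).trans ?_
    exact ENNReal.toReal_le_of_le_ofReal (by positivity) hI

end Pool.Agent.MP_20b2fd_nt.H38
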