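import Pool.Agent.MP_20b2fd_nt.H38.SpecA

/-! The pointwise bound for the pieces of the Poincare series. -/

set_option autoImplicit false

namespace Pool.Agent.MP_20b2fd_nt.H38

open UpperHalfPlane hiding I
open MeasureTheory Complex Finset Filter Topology
open scoped Real

namespace PaA

theorem abel (a w : ℕ → ℂ) (n : ℕ) : ∑ i ∈ range n, a i * w i =
    ∑ i ∈ range n, (∑ j ∈ range (i + 1), a j) * (w i - w (i + 1)) + (∑ j ∈ range n, a j) * w n := by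
  induction n with
  | zero => simp
  | succ n ih => rw [sum_range_succ, ih, sum_range_succ (n := n), sum_range_succ a n]; ring

theorem tele {Y : ℝ} (hY : 0 < Y) (n : ℕ) :
    ∑ i ∈ range (n + 1), 1 / ((i : ℝ) + Y) ^ 2 ≤ 1 / Y ^ 2 + 1 / Y - 1 / (n + Y) := by
  induction n with
  | zero => simp
  | succ n ih =>
    rw [sum_range_succ]
    have h0 : (0 : ℝ) < n + Y := by positivity
    have : 1 / (((n + 1 : ℕ) : ℝ) + Y) ^ 2 ≤ 1 / (n + Y) - 1 / (((n + 1 : ℕ) : ℝ) + Y) := by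
      push_cast
      rw [div_sub_div _ _ h0.ne' (by positivity), div_le_div_iff₀ (by positivity) (by positivity)]
      nlinarith
    linarith

theorem tele' {Y : ℝ} (hY : 0 < Y) (n : ℕ) :
    ∑ i ∈ range n, 1 / ((i : ℝ) + Y) ^ 2 ≤ 1 / Y ^ 2 + 1 / Y := by
  have h1 := tele hY n
  rw [sum_range_succ] at h1
  have h2 : (0 : ℝ) < 1 / (n + Y) := by positivity
  have h3 : (0 : ℝ) < 1 / (n + Y) ^ 2 := by positivity
  linarith

/-- Summation by parts on a half line. -/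
theorem half (a w : ℕ → ℂ) {Y e P B : ℝ} (hY : 0 < Y) (e0 : 0 < e) (e1 : e ≤ 1) (hP : 1 ≤ P)
    (hB : 0 ≤ B) (hs : Summable fun i => a i * w i)
    (hS : ∀ n, ‖∑ j ∈ range n, a j‖ ≤ B * (n * e + (P - 1)))
    (hw : ∀ n, ‖w n‖ ≤ 4 / (n + Y) ^ 2)
    (hd : ∀ n, ‖w n - w (n + 1)‖ ≤ 32 / (n + Y) ^ 3 + 112 * e / (n + Y) ^ 4) :
    ‖∑' i, a i * w i‖ ≤
      B * (32 * e + 112 * e ^ 2 / Y + 32 * P / Y + 112 * P * e / Y ^ 2) * (1 / Y ^ 2 + 1 / Y) := by
  set D := 32 * e + 112 * e ^ 2 / Y + 32 * P / Y + 112 * P * e / Y ^ 2 with hD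
  have D0 : 0 ≤ D := by positivity
  have k : ∀ i : ℕ, ‖(∑ j ∈ range (i + 1), a j) * (w i - w (i + 1))‖
      ≤ B * D * (1 / ((i : ℝ) + Y) ^ 2) := fun i => by
    rw [norm_mul]
    have i0 : (0 : ℝ) ≤ i := i.cast_nonneg
    have s0 : (0 : ℝ) < i + Y := by positivity
    have h1 : ‖∑ j ∈ range (i + 1), a j‖ ≤ B * ((i + Y) * e + P) :=
      (hS _).trans (mul_le_mul_of_nonneg_left (by push_cast; nlinarith) hB)
    refine (mul_le_mul h1 (hd i) (norm_nonneg _) (by positivity)).trans ?_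
    rw [mul_assoc, mul_assoc]
    refine mul_le_mul_of_nonneg_left ?_ hB
    have q1 : 1 / ((i : ℝ) + Y) ≤ 1 / Y := one_div_le_one_div_of_le hY (by linarith)
    have q2 : 1 / ((i : ℝ) + Y) ^ 2 ≤ 1 / Y ^ 2 :=
      one_div_le_one_div_of_le (by positivity) (by nlinarith)
    have e2 : ((i + Y) * e + P) * (32 / (i + Y) ^ 3 + 112 * e / (i + Y) ^ 4) =
        (32 * e + 112 * e ^ 2 * (1 / (i + Y)) + 32 * P * (1 / (i + Y))
          + 112 * P * e * (1 / (i + Y) ^ 2)) * (1 / ((i : ℝ) + Y) ^ 2) := by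
      field_simp
      ring
    rw [e2]
    refine mul_le_mul_of_nonneg_right ?_ (by positivity)
    have r1 := mul_le_mul_of_nonneg_left q1 (by positivity : 0 ≤ 112 * e ^ 2)
    have r2 := mul_le_mul_of_nonneg_left q1 (by positivity : 0 ≤ 32 * P)
    have r3 := mul_le_mul_of_nonneg_left q2 (by positivity : 0 ≤ 112 * P * e)
    rw [hD]
    simp only [div_eq_mul_one_div (112 * e ^ 2), div_eq_mul_one_div (32 * P),
      div_eq_mul_one_div (112 * P * e)]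
    linarith
  have t1 := hs.hasSum.tendsto_sum_nat.norm
  have t2 : Tendsto (fun n : ℕ => B * D * (1 / Y ^ 2 + 1 / Y) + 4 * B * P / n) atTop
      (𝓝 (B * D * (1 / Y ^ 2 + 1 / Y) + 0)) :=
    tendsto_const_nhds.add (tendsto_const_div_atTop_nhds_zero_nat _)
  rw [add_zero] at t2
  refine le_of_tendsto_of_tendsto t1 t2 ((eventually_ge_atTop 1).mono fun n hn => ?_)
  have n1 : (1 : ℝ) ≤ n := by exact_mod_cast hn
  beta_reduce
  rw [abel]
  refine (norm_add_le _ _).trans (add_le_add ((norm_sum_le _ _).trans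
    ((sum_le_sum fun i _ => k i).trans ?_)) ?_)
  · rw [← mul_sum]
    exact mul_le_mul_of_nonneg_left (tele' hY n) (by positivity)
  · rw [norm_mul]
    have h1 : ‖∑ j ∈ range n, a j‖ ≤ B * (n * P) :=
      (hS _).trans (mul_le_mul_of_nonneg_left (by nlinarith) hB)
    have h2 : ‖w n‖ ≤ 4 / (n : ℝ) ^ 2 :=
      (hw n).trans (div_le_div_of_nonneg_left (by norm_num) (by positivity) (by nlinarith))
    refine (mul_le_mul h1 h2 (norm_nonneg _) (by positivity)).trans_eq ?_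
    field_simp

/-- The weight. -/
noncomputable def W (u : ℂ) (k m t : ℝ) : ℂ :=
  ((u + t) ^ 2)⁻¹ * ee (-(k / (u + t))) * Real.exp (-m * ((u.re + t) ^ 2 + u.im ^ 2))

theorem nsq (u : ℂ) (t : ℝ) : ‖u + t‖ ^ 2 = (u.re + t) ^ 2 + u.im ^ 2 := by
  rw [Complex.sq_norm, normSq_apply]; simp; ring

theorem ee_le {v : ℂ} (hv : 0 < v.im) {k : ℝ} (hk : 0 ≤ k) : ‖ee (-(k / v))‖ ≤ 1 := by
  rw [ee, norm_exp, Real.exp_le_one_iff]
  have : (2 * π * I * -(k / v) : ℂ).re = -(2 * π * k * (v.im / normSq v)) := by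
    simp [div_im]; ring
  rw [this]
  have := normSq_nonneg v
  exact neg_nonpos.2 (by positivity)

theorem ex_le {m s : ℝ} (hm : 0 ≤ m) (hs : 0 ≤ s) : ‖((Real.exp (-m * s) : ℝ) : ℂ)‖ ≤ 1 := by
  rw [norm_real, Real.norm_of_nonneg (Real.exp_pos _).le, Real.exp_le_one_iff]
  nlinarith [mul_nonneg hm hs]

theorem W_le {u : ℂ} (hu : 0 < u.im) {k m t ρ : ℝ} (hk : 0 ≤ k) (hm : 0 ≤ m) (r0 : 0 < ρ)
    (hr : ρ ≤ ‖u + t‖) : ‖W u k m t‖ ≤ 1 / ρ ^ 2 := by
  rw [W, norm_mul, norm_mul, norm_inv, norm_pow]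
  have h1 : (‖u + t‖ ^ 2)⁻¹ ≤ 1 / ρ ^ 2 := by
    rw [one_div]; exact inv_anti₀ (by positivity) (pow_le_pow_left₀ r0.le hr 2)
  have h2 := ee_le (v := u + t) (by simpa using hu) hk
  have h3 := ex_le (s := (u.re + t) ^ 2 + u.im ^ 2) hm (by positivity)
  calc _ ≤ 1 / ρ ^ 2 * 1 * 1 := by gcongr
    _ = _ := by ring

theorem W_der {u : ℂ} (hu : 0 < u.im) {k m : ℝ} (hk : 0 ≤ k) (hm : 0 ≤ m) (t : ℝ) :
    ∃ D, HasDerivAt (W u k m) D t ∧ ‖D‖ ≤ 4 / ‖u + t‖ ^ 3 + 7 * k / ‖u + t‖ ^ 4 := by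
  have v0 : u + t ≠ 0 := fun h => by
    have := congrArg Complex.im h
    simp at this
    exact hu.ne' this
  have d0 : HasDerivAt (fun s : ℝ => u + s) 1 t := by
    simpa using (Complex.ofRealCLM.hasDerivAt (x := t)).const_add u
  have d1 : HasDerivAt (fun s : ℝ => ((u + s) ^ 2)⁻¹) (-2 / (u + t) ^ 3) t := by
    refine ((d0.fun_pow 2).fun_inv (pow_ne_zero 2 v0)).congr_deriv ?_
    field_simp
    norm_num [mul_comm]
  have d2 : HasDerivAt (fun s : ℝ => ee (-(k / (u + s))))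
      (ee (-(k / (u + t))) * (2 * π * I * (k / (u + t) ^ 2))) t := by
    have := ((((d0.fun_inv v0).const_mul (k : ℂ)).fun_neg).const_mul (2 * π * I)).cexp
    simp only [ee, div_eq_mul_inv]
    refine this.congr_deriv ?_
    ring
  have d3 : HasDerivAt (fun s : ℝ => ((Real.exp (-m * ((u.re + s) ^ 2 + u.im ^ 2)) : ℝ) : ℂ))
      ((Real.exp (-m * ((u.re + t) ^ 2 + u.im ^ 2)) * (-m * (2 * (u.re + t))) : ℝ) : ℂ) t := by
    refine HasDerivAt.ofReal_comp ?_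
    have := ((((hasDerivAt_id' t).const_add u.re).fun_pow 2).add_const (u.im ^ 2)).const_mul (-m)
    refine this.exp.congr_deriv ?_
    simp
  refine ⟨_, (d1.mul d2).mul d3, ?_⟩
  have n0 : 0 < ‖u + t‖ := norm_pos_iff.2 v0
  have h2 := ee_le (v := u + t) (by simpa using hu) hk
  have h3 := ex_le (s := (u.re + t) ^ 2 + u.im ^ 2) hm (by positivity)
  have h4 : ‖((Real.exp (-m * ((u.re + t) ^ 2 + u.im ^ 2)) * (-m * (2 * (u.re + t))) : ℝ) : ℂ)‖
      ≤ 2 / ‖u + t‖ := by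
    rw [norm_real, ← nsq, Real.norm_eq_abs, abs_mul, abs_of_pos (Real.exp_pos _), abs_mul, abs_neg,
      abs_of_nonneg hm, abs_mul, abs_two, le_div_iff₀ n0]
    have a1 : |u.re + t| ≤ ‖u + t‖ := by simpa using abs_re_le_norm (u + t)
    have a2 : m * ‖u + t‖ ^ 2 ≤ Real.exp (m * ‖u + t‖ ^ 2) := by
      linarith [Real.add_one_le_exp (m * ‖u + t‖ ^ 2)]
    have a3 : Real.exp (-m * ‖u + t‖ ^ 2) * (m * ‖u + t‖ ^ 2) ≤ 1 := by
      rw [neg_mul, Real.exp_neg, inv_mul_le_iff₀ (Real.exp_pos _), mul_one]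
      exact a2
    calc _ ≤ Real.exp (-m * ‖u + t‖ ^ 2) * (m * (2 * ‖u + t‖)) * ‖u + t‖ := by gcongr
      _ = 2 * (Real.exp (-m * ‖u + t‖ ^ 2) * (m * ‖u + t‖ ^ 2)) := by ring
      _ ≤ 2 := by linarith
  have h5 : ‖(-2 / (u + t) ^ 3 : ℂ)‖ = 2 / ‖u + t‖ ^ 3 := by simp
  have h6 : ‖(((u + t) ^ 2)⁻¹ : ℂ)‖ = 1 / ‖u + t‖ ^ 2 := by simp
  have h7 : ‖(2 * π * I * (k / (u + t) ^ 2) : ℂ)‖ ≤ 7 * k / ‖u + t‖ ^ 2 := by
    have : ‖(2 * π * I * (k / (u + t) ^ 2) : ℂ)‖ = 2 * π * k / ‖u + t‖ ^ 2 := by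
      simp [abs_of_nonneg hk, abs_of_pos Real.pi_pos]; ring
    rw [this]
    gcongr
    linarith [Real.pi_lt_d2]
  simp only [Pi.mul_apply]
  refine (norm_add_le _ _).trans ?_
  rw [norm_mul, norm_mul, norm_mul]
  have h8 := norm_add_le (-2 / (u + t) ^ 3 * ee (-(k / (u + t))))
    (((u + t) ^ 2)⁻¹ * (ee (-(k / (u + t))) * (2 * π * I * (k / (u + t) ^ 2))))
  rw [norm_mul, norm_mul, norm_mul, h5, h6] at h8
  rw [h6]
  have h9 : ‖-2 / (u + t) ^ 3 * ee (-(k / (u + t))) +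
      ((u + t) ^ 2)⁻¹ * (ee (-(k / (u + t))) * (2 * π * I * (k / (u + t) ^ 2)))‖
      ≤ 2 / ‖u + t‖ ^ 3 * 1 + 1 / ‖u + t‖ ^ 2 * (1 * (7 * k / ‖u + t‖ ^ 2)) :=
    h8.trans (by gcongr)
  calc _ ≤ (2 / ‖u + t‖ ^ 3 * 1 + 1 / ‖u + t‖ ^ 2 * (1 * (7 * k / ‖u + t‖ ^ 2))) * 1
        + 1 / ‖u + t‖ ^ 2 * 1 * (2 / ‖u + t‖) := by gcongr
    _ = _ := by field_simp; ring

theorem W_sub {u : ℂ} (hu : 0 < u.im) {k m e p n : ℝ} (hk : 0 ≤ k) (hke : k ≤ e) (hm : 0 ≤ m)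
    (n0 : 0 ≤ n) (h : ∀ t ∈ Set.Icc p (p + 1), n ≤ |u.re + t|) :
    ‖W u k m (p + 1) - W u k m p‖ ≤ 32 / (n + u.im) ^ 3 + 112 * e / (n + u.im) ^ 4 := by
  choose D hD hb using W_der hu hk hm
  have := (convex_Icc p (p + 1)).norm_image_sub_le_of_norm_hasDerivWithin_le
    (C := 32 / (n + u.im) ^ 3 + 112 * e / (n + u.im) ^ 4)
    (fun t _ => (hD t).hasDerivWithinAt) (fun t ht => (hb t).trans ?_)
    (Set.left_mem_Icc.2 (by linarith)) (Set.right_mem_Icc.2 (by linarith))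
  · simpa using this
  · have a1 : |u.re + t| ≤ ‖u + t‖ := by simpa using abs_re_le_norm (u + t)
    have a2 : u.im ≤ ‖u + t‖ := by simpa using im_le_norm (u + t)
    have a3 : (n + u.im) / 2 ≤ ‖u + t‖ := by linarith [h t ht]
    have e0 : 0 ≤ e := hk.trans hke
    calc _ ≤ 4 / ((n + u.im) / 2) ^ 3 + 7 * e / ((n + u.im) / 2) ^ 4 := by gcongr
      _ = _ := by field_simp; ring

theorem W_le' {u : ℂ} (hu : 0 < u.im) {k m t n : ℝ} (hk : 0 ≤ k) (hm : 0 ≤ m) (n0 : 0 ≤ n)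
    (h : n ≤ |u.re + t|) : ‖W u k m t‖ ≤ 4 / (n + u.im) ^ 2 := by
  have a1 : |u.re + t| ≤ ‖u + t‖ := by simpa using abs_re_le_norm (u + t)
  have a2 : u.im ≤ ‖u + t‖ := by simpa using im_le_norm (u + t)
  refine (W_le hu hk hm (ρ := (n + u.im) / 2) (by positivity) (by linarith)).trans_eq ?_
  field_simp
  ring

theorem sum_right (a : ℤ → ℂ) (d : ℤ) (n : ℕ) :
    ∑ j ∈ range n, a (d + 1 + j) = ∑ x ∈ Ioc d (d + n), a x := by
  induction n with
  | zero => simp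
  | succ n ih =>
    rw [sum_range_succ, ih, Nat.cast_succ, ← add_assoc, ← insert_Ioc_right_eq_Ioc_add_one
      (by omega), sum_insert (by simp), add_comm, add_right_comm]

theorem sum_left (a : ℤ → ℂ) (d : ℤ) (n : ℕ) :
    ∑ j ∈ range n, a (d - j) = ∑ x ∈ Ioc (d - n) d, a x := by
  refine sum_bij (fun j _ => d - j) (fun j hj => ?_) (fun i _ j _ e => by omega)
    (fun x hx => ?_) fun _ _ => rfl
  · have := mem_range.1 hj
    exact mem_Ioc.2 ⟨by omega, by omega⟩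
  · have := mem_Ioc.1 hx
    exact ⟨(d - x).toNat, mem_range.2 (by omega), by omega⟩

/-- The two halves together. -/
theorem both (a : ℤ → ℂ) {u : ℂ} (hu : 0 < u.im) {k m e P B : ℝ} (hk : 0 ≤ k) (hke : k ≤ e)
    (hm : 0 ≤ m) (e0 : 0 < e) (e1 : e ≤ 1) (hP : 1 ≤ P) (hB : 0 ≤ B)
    (hS : ∀ p q : ℤ, p ≤ q → ‖∑ x ∈ Ioc p q, a x‖ ≤ B * (((q : ℝ) - p) * e + (P - 1))) :
    ‖∑' d : ℤ, a d * W u k m d‖ ≤ 2 * (B * (32 * e + 112 * e ^ 2 / u.im + 32 * P / u.im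
      + 112 * P * e / u.im ^ 2) * (1 / u.im ^ 2 + 1 / u.im)) := by
  by_cases hs : Summable fun d : ℤ => a d * W u k m d
  swap
  · rw [tsum_eq_zero_of_not_summable hs, norm_zero]; positivity
  set d := ⌊-u.re⌋ with hd
  have f1 : (d : ℝ) ≤ -u.re := Int.floor_le _
  have f2 : -u.re < d + 1 := Int.lt_floor_add_one _
  have s1 : Summable fun n : ℕ => a (d + 1 + n) * W u k m ((d + 1 + n : ℤ) : ℝ) :=
    hs.comp_injective (i := fun n : ℕ => d + 1 + n) fun i j e => by simpa using e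
  have s2 : Summable fun n : ℕ => a (d - n) * W u k m ((d - n : ℤ) : ℝ) :=
    hs.comp_injective (i := fun n : ℕ => d - n) fun i j e => by simpa using e
  have s2' : Summable fun n : ℕ => a (d + 1 + -(n + 1)) * W u k m ((d + 1 + -(n + 1) : ℤ) : ℝ) := by
    simpa only [show ∀ n : ℕ, d + 1 + -((n : ℤ) + 1) = d - n from fun n => by ring] using s2
  rw [← (Equiv.addLeft (d + 1)).tsum_eq]
  simp only [Equiv.coe_addLeft]
  rw [tsum_of_nat_of_neg_add_one (f := fun x : ℤ => a (d + 1 + x) * W u k m ((d + 1 + x : ℤ) : ℝ))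
    s1 s2', two_mul]
  simp only [show ∀ n : ℕ, d + 1 + -((n : ℤ) + 1) = d - n from fun n => by ring]
  refine (norm_add_le _ _).trans (add_le_add ?_ ?_)
  · refine half (fun n => a (d + 1 + n)) (fun n => W u k m ((d + 1 + n : ℤ) : ℝ)) hu e0 e1 hP hB s1
      (fun n => ?_) (fun n => ?_) fun n => ?_
    · rw [sum_right]
      simpa using hS d (d + n) (by omega)
    · refine W_le' hu hk hm n.cast_nonneg (le_abs.2 (Or.inl ?_))
      push_cast; linarith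
    · rw [norm_sub_rev]
      have := W_sub hu hk hke hm (p := ((d + 1 + n : ℤ) : ℝ)) n.cast_nonneg fun t ht =>
        le_abs.2 (Or.inl (by have := ht.1; push_cast at this; linarith))
      rw [show ((d + 1 + (n + 1 : ℕ) : ℤ) : ℝ) = ((d + 1 + n : ℤ) : ℝ) + 1 by push_cast; ring]
      exact this
  · refine half (fun n => a (d - n)) (fun n => W u k m ((d - n : ℤ) : ℝ)) hu e0 e1 hP hB s2
      (fun n => ?_) (fun n => ?_) fun n => ?_
    · rw [sum_left]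
      simpa using hS (d - n) d (by omega)
    · refine W_le' hu hk hm n.cast_nonneg (le_abs.2 (Or.inr ?_))
      push_cast; linarith
    · have := W_sub hu hk hke hm (p := ((d - (n + 1 : ℕ) : ℤ) : ℝ)) n.cast_nonneg fun t ht =>
        le_abs.2 (Or.inr (by have := ht.2; push_cast at this; linarith))
      convert this using 4
      push_cast; ring

theorem num {e v P : ℝ} (e0 : 0 < e) (e1 : e ≤ 1) (v0 : 0 < v) (hP : 1 ≤ P) :
    (32 * e + 112 * e ^ 2 * (e * v) + 32 * P * (e * v) + 112 * P * e * (e * v) ^ 2)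
      * ((e * v) ^ 2 + e * v) ≤ 576 * (P * e ^ 2) * (v + v ^ 4) := by
  have e2 : e ^ 2 ≤ 1 := pow_le_one₀ e0.le e1
  have h1 : 32 * e + 112 * e ^ 2 * (e * v) + 32 * P * (e * v) + 112 * P * e * (e * v) ^ 2
      ≤ P * e * (32 + 144 * v + 112 * v ^ 2) := by
    have a1 : e * 1 ≤ e * P := by gcongr
    have a2 : e ^ 2 * (e * v) ≤ P * (e * v) := by gcongr; exact e2.trans hP
    have a3 : P * e * v ^ 2 * e ^ 2 ≤ P * e * v ^ 2 * 1 := by gcongr
    nlinarith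
  have h2 : (e * v) ^ 2 + e * v ≤ e * (v ^ 2 + v) := by
    have : e * v ^ 2 * e ≤ e * v ^ 2 * 1 := by gcongr
    nlinarith
  have h3 : v ^ 2 ≤ v + v ^ 4 := by
    rcases le_total v 1 with h | h
    · nlinarith [pow_pos v0 4]
    · nlinarith [mul_nonneg (sq_nonneg v) (show 0 ≤ v ^ 2 - 1 by nlinarith)]
  have h4 : v ^ 3 ≤ v + v ^ 4 := by
    rcases le_total v 1 with h | h
    · nlinarith [pow_pos v0 4, mul_nonneg v0.le (show 0 ≤ 1 - v ^ 2 by nlinarith)]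
    · nlinarith [mul_nonneg (pow_pos v0 3).le (sub_nonneg.2 h)]
  have h5 : (32 + 144 * v + 112 * v ^ 2) * (v ^ 2 + v) ≤ 576 * (v + v ^ 4) := by
    nlinarith [pow_pos v0 4]
  calc _ ≤ P * e * (32 + 144 * v + 112 * v ^ 2) * (e * (v ^ 2 + v)) := by gcongr
    _ = P * e ^ 2 * ((32 + 144 * v + 112 * v ^ 2) * (v ^ 2 + v)) := by ring
    _ ≤ P * e ^ 2 * (576 * (v + v ^ 4)) := by gcongr
    _ = _ := by ring

theorem lg {c : ℝ} (hc : 1 ≤ c) : (2 + Real.log c) * (1 / c) ^ 2 ≤ 18 / c ^ (31 / 16 : ℝ) := by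
  have c0 : 0 < c := by linarith
  have h1 := Real.log_le_rpow_div c0.le (by norm_num : (0 : ℝ) < 1 / 16)
  have h2 : 1 ≤ c ^ (1 / 16 : ℝ) := Real.one_le_rpow hc (by norm_num)
  have h3 : c ^ 2 = c ^ (1 / 16 : ℝ) * c ^ (31 / 16 : ℝ) := by
    rw [← Real.rpow_add c0, ← Real.rpow_natCast]; norm_num
  have h4 : 0 < c ^ (31 / 16 : ℝ) := by positivity
  rw [div_pow, one_pow, mul_one_div, h3, div_le_div_iff₀ (by positivity) h4]
  nlinarith

end PaA

open PaA in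
theorem paOf : PaOf := by
  classical
  rintro ⟨C, hC, hI⟩ ⟨hb, -⟩
  refine ⟨2 * 576 * 18 * C, by linarith, fun κ ι A c z k0 k1 i0 c1 hA => ?_⟩
  have c1' : (1 : ℝ) ≤ c := by exact_mod_cast c1
  have c0 : (0 : ℝ) < c := by linarith
  have y0 := z.im_pos
  have ui : ((c : ℂ) * z).im = c * z.im := by simp
  have l0 := Real.log_nonneg c1'
  have b0 : 0 ≤ bb c := zero_le_one.trans (hb c)
  have e : pc κ ι A c z = ∑' d : ℤ, (if IsCoprime d (c : ℤ) then ec c (A * (d : ZMod c)⁻¹) else 0)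
      * W (c * z) (κ / c) (ι / z.im) d := by
    refine tsum_congr fun d => ?_
    rw [pw]
    split_ifs
    · rw [W, ← nsq]
      simp only [ofReal_intCast, ofReal_div, ofReal_natCast, div_div, mul_assoc]
      congr 5
      ring
    · simp
  have h := both (fun d : ℤ => if IsCoprime d (c : ℤ) then ec c (A * (d : ZMod c)⁻¹) else 0)
    (u := c * z) (by rw [ui]; positivity) (k := κ / c) (m := ι / z.im) (e := 1 / c)
    (P := 2 + Real.log c) (B := C * bb c) (by positivity) (by gcongr) (by positivity)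
    (by positivity) (by rw [div_le_one c0]; exact c1') (by linarith) (by positivity) fun p q hpq => by
      have := hI c A p q c1 hpq
      rw [sum_filter, Int.isCoprime_iff_gcd_eq_one.1 hA] at this
      refine this.trans_eq ?_
      simp only [Nat.cast_one, Real.one_rpow]
      ring
  rw [e]
  refine h.trans ?_
  have n := num (e := 1 / c) (v := 1 / z.im) (P := 2 + Real.log c) (by positivity)
    (by rw [div_le_one c0]; exact c1') (by positivity) (by linarith)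
  have e2 : (32 * (1 / (c : ℝ)) + 112 * (1 / c) ^ 2 / ((c : ℂ) * z).im
      + 32 * (2 + Real.log c) / ((c : ℂ) * z).im
      + 112 * (2 + Real.log c) * (1 / c) / ((c : ℂ) * z).im ^ 2)
      * (1 / ((c : ℂ) * z).im ^ 2 + 1 / ((c : ℂ) * z).im) =
      (32 * (1 / (c : ℝ)) + 112 * (1 / c) ^ 2 * (1 / c * (1 / z.im))
        + 32 * (2 + Real.log c) * (1 / c * (1 / z.im))
        + 112 * (2 + Real.log c) * (1 / c) * (1 / c * (1 / z.im)) ^ 2)
      * ((1 / c * (1 / z.im)) ^ 2 + 1 / c * (1 / z.im)) := by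
    rw [ui]
    field_simp
  rw [mul_assoc (C * bb c), e2]
  have l := lg c1'
  calc _ ≤ 2 * (C * bb c * (576 * (18 / (c : ℝ) ^ (31 / 16 : ℝ)) * (1 / z.im + (1 / z.im) ^ 4))) :=
        mul_le_mul_of_nonneg_left (mul_le_mul_of_nonneg_left (n.trans (by gcongr)) (by positivity))
          (by norm_num)
    _ = _ := by rw [div_pow, one_pow]; ring

end Pool.Agent.MP_20b2fd_nt.H38
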