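import Pool.Agent.MP_20b2fd_nt.H38.SpecA

/-! The Poincare series as a sum over the group. -/

set_option autoImplicit false

namespace Pool.Agent.MP_20b2fd_nt.H38

open UpperHalfPlane hiding I
open MeasureTheory Complex Finset Filter Topology
open scoped ModularForm Real Manifold ENNReal

namespace PcA

/-- the periodic seed -/
noncomputable def q (ι : ℝ) (z : ℍ) : ℂ := ee z * Real.exp (-ι / z.im)

theorem ee_add (x y : ℂ) : ee (x + y) = ee x * ee y := by
  unfold ee
  rw [mul_add, exp_add]

theorem ee_int (x : ℂ) (j : ℤ) : ee (x + j) = ee x := by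
  rw [ee_add, ee, ee, mul_comm _ (j : ℂ), exp_int_mul_two_pi_mul_I, mul_one]

theorem ec_int (c : ℕ) (hc : 1 ≤ c) (a : ℤ) : ec c a = ee (a / c) := by
  have : NeZero c := ⟨by omega⟩
  have c0 : (c : ℂ) ≠ 0 := by exact_mod_cast NeZero.ne c
  have h : (((a : ZMod c).val : ℤ) : ℂ) = a - c * (a / c : ℤ) := by
    rw [ZMod.val_intCast, Int.emod_def]
    push_cast
    rfl
  rw [ec, ← ee_int _ (a / c), ← Int.cast_natCast (R := ℂ) (ZMod.val _), h]
  congr 1
  field_simp
  ring

theorem det_mul (g h : Mt) : det (mul g h) = det g * det h := by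
  simp only [det, mul]
  ring

theorem even_sum {w : ℤ × ℤ → ℂ} (hs : Summable w) (he : ∀ c d, w (-c, -d) = w (c, d)) :
    ∑' v, w v = (∑' d, w (0, d)) + 2 * ∑' c : ℕ, if 1 ≤ c then ∑' d, w (c, d) else 0 := by
  have e : ∀ c : ℤ, ∑' d, w (-c, d) = ∑' d, w (c, d) := fun c => by
    rw [← (Equiv.neg ℤ).tsum_eq]
    simp only [Equiv.neg_apply, he]
  have h1 := hs.prod.hasSum.nat_add_neg
  have h2 : Summable fun n : ℕ => ∑' d, w (n, d) := hs.prod.comp_injective Nat.cast_injective
  simp only [e] at h1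
  have h3 := h1.unique (h2.hasSum.add h2.hasSum)
  rw [h2.tsum_eq_add_tsum_ite 0] at h3
  have h4 : (∑' c : ℕ, if 1 ≤ c then ∑' d, w (c, d) else 0)
      = ∑' c : ℕ, if c = 0 then 0 else ∑' d, w (c, d) := tsum_congr fun c => by
    rcases c with _ | c <;> simp
  rw [hs.tsum_prod, h4]
  simp only [Nat.cast_zero] at h3
  linear_combination h3

variable (kit : KitS) {ι : ℝ}
include kit

theorem q_tr (j : ℤ) : sl (q ι) (1, j, 0, 1) = q ι := by
  funext z
  have d : 0 < det (1, j, 0, 1) := by simp [det]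
  rw [kit.slz _ _ _ d, q, kit.coez _ _ d, kit.imz _ _ d]
  simp [det, ee_int, q]

theorem row {g h : Mt} (hg : det g = 1) (hh : det h = 1) (e : g.2.2 = h.2.2) :
    sl (q ι) g = sl (q ι) h := by
  obtain ⟨a, b, c, d⟩ := g
  obtain ⟨a', b', c', d'⟩ := h
  obtain ⟨rfl, rfl⟩ := Prod.mk.inj e
  have : ((a', b', c, d) : Mt) = mul (1, b' * a - a' * b, 0, 1) (a, b, c, d) := by
    simp only [det] at hg hh
    simp only [mul, Prod.mk.injEq]
    exact ⟨by linear_combination a * hh - a' * hg, by linear_combination b * hh - b' * hg,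
      by ring, by ring⟩
  rw [this, ← kit.slm _ _ _ (by simp [det]) (by simp [hg]), q_tr kit]

theorem form {g : Mt} {m c : ℕ} (hm : 0 < m) (hc : 1 ≤ c) {a d A : ℤ} (h1 : g.1 = m * a)
    (h3 : g.2.2.1 = m * c) (h4 : g.2.2.2 = m * d) (hd : det g = m)
    (hA : (A : ZMod c) = (m : ZMod c)⁻¹) (z : ℍ) :
    sl (q ι) g z = 1 / m * pw (1 / m) (m * ι) A c z d := by
  obtain ⟨_, b, _, _⟩ := g
  dsimp only at h1 h3 h4
  subst h1 h3 h4
  have d0 : 0 < det ((m * a, b, m * c, m * d) : Mt) := by rw [hd]; exact_mod_cast hm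
  have e : m * a * d - b * c = 1 := mul_left_cancel₀ (a := (m : ℤ)) (by exact_mod_cast hm.ne') (by
    simp only [det] at hd
    linear_combination hd)
  have e1 : (m : ZMod c) * a * d = 1 := by simpa using congrArg (Int.cast (R := ZMod c)) e
  have e2 : (m : ℂ) * a * d - b * c = 1 := by exact_mod_cast e
  have e3 : (A : ZMod c) * (d : ZMod c)⁻¹ = a := by
    rw [hA, ZMod.inv_eq_of_mul_eq_one c m (a * d) (by rw [← e1]; ring),
      ZMod.inv_eq_of_mul_eq_one c d (m * a) (by rw [← e1]; ring)]
    linear_combination (a : ZMod c) * e1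
  have m0 : (m : ℂ) ≠ 0 := by exact_mod_cast hm.ne'
  have m1 : (m : ℝ) ≠ 0 := by exact_mod_cast hm.ne'
  have c0 : (c : ℂ) ≠ 0 := by exact_mod_cast Nat.one_le_iff_ne_zero.1 hc
  have n0 : (c : ℂ) * z + d ≠ 0 := by
    simpa using kit.den c d z (Or.inl (by exact_mod_cast Nat.one_le_iff_ne_zero.1 hc))
  have n1 := norm_ne_zero_iff.2 n0
  have y0 := z.im_pos.ne'
  have f : (((m * c : ℤ) : ℂ)) * z + (m * d : ℤ) = m * (c * z + d) := by push_cast; ring
  rw [kit.slz _ _ _ d0, q, kit.coez _ _ d0, kit.imz _ _ d0, hd, pw,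
    if_pos ⟨m * a, -b, by linear_combination e⟩, e3, ec_int c hc]
  dsimp only
  rw [f, show (((m * a : ℤ) : ℂ) * z + b) / (m * (c * z + d))
      = a / c + -(((1 / m : ℝ) : ℂ) / (c * (c * z + d))) by
    push_cast
    generalize hx : (c : ℂ) * z + d = x at n0
    field_simp
    linear_combination e2 - e2 - e2 + m * a * hx, ee_add, show -ι / (((m : ℤ) : ℝ) * z.im / ‖(m : ℂ) * (c * z + d)‖ ^ 2)
      = -(m * ι) * ‖(c : ℂ) * z + d‖ ^ 2 / z.im by
    rw [norm_mul, Complex.norm_natCast]
    push_cast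
    field_simp]
  generalize ((Real.exp _ : ℝ) : ℂ) = E
  push_cast
  field_simp

theorem nrm (hι : 0 < ι) {g : Mt} (hg : det g = 1) (z : ℍ) : ‖sl (q ι) g z‖
    ≤ z.im / ι * ‖EisensteinSeries.eisSummand (4 : ℕ) ![g.2.2.1, g.2.2.2] z‖ := by
  have d0 : 0 < det g := by rw [hg]; exact one_pos
  have n0 : 0 < ‖(g.2.2.1 : ℂ) * z + g.2.2.2‖ := norm_pos_iff.2 (by
    refine mod_cast kit.den g.2.2.1 g.2.2.2 z ?_
    by_contra h
    push Not at h
    have h1 : g.2.2.1 = 0 := by exact_mod_cast h.1
    have h2 : g.2.2.2 = 0 := by exact_mod_cast h.2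
    simp [det, h1, h2] at hg)
  have y0 := z.im_pos
  have w0 := (ac g z).im_pos
  have e1 : ‖ee (ac g z)‖ ≤ 1 := by
    rw [ee, norm_exp, Real.exp_le_one_iff]
    simp only [mul_re, re_ofNat, ofReal_re, im_ofNat, ofReal_im, Complex.I_re, Complex.I_im, mul_im,
      coe_im]
    have := mul_pos Real.pi_pos w0
    linarith
  have e2 : Real.exp (-ι / (ac g z).im) ≤ (ac g z).im / ι := by
    rw [neg_div, Real.exp_neg, ← inv_div ι]
    exact inv_anti₀ (by positivity) (by linarith [Real.add_one_le_exp (ι / (ac g z).im)])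
  rw [kit.slz _ _ _ d0, q, norm_mul, norm_mul, norm_real, Real.norm_of_nonneg (Real.exp_pos _).le]
  refine (mul_le_mul_of_nonneg_left (mul_le_mul e1 e2 (Real.exp_pos _).le zero_le_one)
    (norm_nonneg _)).trans (le_of_eq ?_)
  rw [kit.imz _ _ d0, hg]
  simp only [EisensteinSeries.eisSummand, zpow_neg, zpow_natCast, norm_inv, norm_pow, norm_div,
    Matrix.cons_val_zero, Matrix.cons_val_one, Int.cast_one, norm_one]
  field_simp

theorem sl_tsum {J : Type} (F : J → ℍ → ℂ) (c : ℂ) {g : Mt} (hg : 0 < det g) (z : ℍ) :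
    sl (fun z => c * ∑' i, F i z) g z = c * ∑' i, sl (F i) g z := by
  simp only [kit.slz _ _ _ hg, tsum_mul_left]
  ring

end PcA

open PcA in
theorem pcOf : PcOf := by
  intro kit rg N ι hN hι
  classical
  obtain ⟨r1, r2⟩ := rg N
  have N0 : (N : ℤ) ≠ 0 := by exact_mod_cast hN.ne_zero
  have db : ∀ v : ℤ × ℤ, IsCoprime v.1 v.2 → det (bz v) = 1 := fun v h =>
    ((rg 1).1 v ⟨h, by simp⟩).1
  have sw : ∀ z, Summable fun v : PR N => ‖sl (q ι) (bz v) z‖ := fun z =>
    .of_nonneg_of_le (fun _ => norm_nonneg _) (fun v => nrm kit hι (r1 v v.2).1 z)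
      (((summable_prod_eisSummand (k := 4) (by norm_num) z).norm.mul_left
        _).subtype _)
  have ew : ∀ v : ℤ × ℤ, IsCoprime v.1 v.2 → sl (q ι) (bz (-v)) = sl (q ι) (bz v) := fun v h => by
    rw [← (kit.sca _ (-1) (bz v) (by norm_num) (by rw [db v h]; exact one_pos)).1]
    refine row kit (db _ h.neg_left.neg_right) ?_ (by simp [smu, bz])
    refine Eq.trans ?_ (db v h)
    simp only [det, smu]
    ring
  have mw : ∀ v : ℤ × ℤ, -v ∈ PR N ↔ v ∈ PR N := fun v => by simp [PR, IsCoprime.neg_neg_iff]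
  have ev : ∀ (F : (ℍ → ℂ) → ℂ) (v : ℤ × ℤ),
      (PR N).indicator (fun v => F (sl (q ι) (bz v))) (-v)
        = (PR N).indicator (fun v => F (sl (q ι) (bz v))) v := fun F v => by
    by_cases h : v ∈ PR N
    · rw [Set.indicator_of_mem h, Set.indicator_of_mem ((mw _).2 h), ew _ h.1]
    · rw [Set.indicator_of_notMem h, Set.indicator_of_notMem fun k => h ((mw _).1 k)]
  have s0 : ∀ (g : MM N 1) z, sl (P0 ι) g z = if st (ac g z) then sl (q ι) g z else 0 :=
    fun g z => by
    have d0 : 0 < det g.1 := by rw [g.2.1]; exact one_pos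
    rw [kit.slz _ _ _ d0, kit.slz _ _ _ d0, P0]
    split_ifs
    exacts [rfl, mul_zero _]
  have r3 := fun z => r2 z (fun g => sl (q ι) g z) (fun g hg j => by
    rw [← kit.slm _ _ _ (by simp [det]) (by rw [hg.1]; simp), q_tr kit]) (sw z)
  have h3 : ∀ z, ∑' v : PR N, sl (q ι) (bz v) z = 2 * P1 N ι z := fun z => by
    rw [tsum_subtype (PR N) fun v => sl (q ι) (bz v) z,
      even_sum ((summable_subtype_iff_indicator (f := fun v => sl (q ι) (bz v) z)
        (s := PR N)).1 (sw z).of_norm) fun c d => ev (fun f => f z) (c, d), P1, mul_add]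
    · have p : ((0, 1) : ℤ × ℤ) ∈ PR N := ⟨isCoprime_one_right, dvd_zero _⟩
      congr 1
      · rw [tsum_eq_sum (s := {1, -1}) fun d hd => Set.indicator_of_notMem (fun h => hd (by
          simpa [Int.isUnit_iff] using isCoprime_zero_left.1 h.1)) _, sum_pair (by norm_num),
          show (PR N).indicator (fun v => sl (q ι) (bz v) z) (0, -1) = _ from
            ev (fun f => f z) (0, 1), Set.indicator_of_mem p,
          row kit (db _ p.1) (h := (1, 0, 0, 1)) (by simp [det]) rfl, (kit.one _).1, two_mul]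
        rfl
      · refine congrArg _ (tsum_congr fun c => ?_)
        by_cases h1 : 1 ≤ c
        · by_cases h2 : N ∣ c
          · rw [if_pos h1, if_pos ⟨h1, h2⟩]
            refine tsum_congr fun d => ?_
            by_cases h : IsCoprime (c : ℤ) d
            · rw [Set.indicator_of_mem (show ((c : ℤ), d) ∈ PR N from
                  ⟨h, Int.natCast_dvd_natCast.2 h2⟩),
                form kit one_pos h1 (a := (bz (c, d)).1) (d := d) (A := 1) (by simp) (by simp [bz])
                  (by simp [bz]) (db _ h) (by simp)]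
              simp
            · rw [Set.indicator_of_notMem fun k => h k.1, pw, if_neg fun k => h k.symm]
          · rw [if_pos h1, if_neg fun k => h2 k.2]
            exact (tsum_congr fun d => Set.indicator_of_notMem
              (fun k => h2 (Int.natCast_dvd_natCast.1 k.2)) _).trans tsum_zero
        · rw [if_neg h1, if_neg fun k => h1 k.1]
  have h4 : ∀ z, ∑' g : MM N 1, sl (P0 ι) g z = 2 * P1 N ι z := fun z => by
    simp only [s0]
    rw [(r3 z).2, h3]
  refine ⟨?_, fun z => ?_, h4, fun h hh => ?_, ?_⟩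
  · have m1 : Measurable fun z : ℍ => z.re := UpperHalfPlane.continuous_re.measurable
    have m2 : Measurable fun z : ℍ => z.im := UpperHalfPlane.continuous_im.measurable
    have m3 : Measurable fun z : ℍ => (z : ℂ) := UpperHalfPlane.continuous_coe.measurable
    refine Measurable.ite ((measurableSet_le measurable_const m1).inter
      (measurableSet_lt m1 measurable_const)) ?_ measurable_const
    unfold ee
    fun_prop
  · simp only [s0]
    exact (r3 z).1
  · have e : P1 N ι = fun z => 1 / 2 * ∑' g : MM N 1, sl (P0 ι) g z := funext fun z => by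
      rw [h4]; ring
    have d1 : det h = 1 := hh.1
    have mm : ∀ g ∈ MM N 1, ∀ k ∈ MM N 1, mul g k ∈ MM N 1 := fun g a k b =>
      ⟨by rw [det_mul, a.1, b.1]; simp, (a.2.mul_right _).add (b.2.mul_left _)⟩
    have ha : adj h ∈ MM N 1 := ⟨by rw [← hh.1]; simp only [det, adj]; ring, hh.2.neg_right⟩
    let E : MM N 1 ≃ MM N 1 := ⟨fun g => ⟨_, mm _ g.2 _ hh⟩, fun g => ⟨_, mm _ g.2 _ ha⟩,
      fun g => Subtype.ext (by
        simp only [det] at d1
        simp only [mul, adj]
        refine Prod.ext ?_ (Prod.ext ?_ (Prod.ext ?_ ?_))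
        exacts [by linear_combination g.1.1 * d1, by linear_combination g.1.2.1 * d1,
          by linear_combination g.1.2.2.1 * d1, by linear_combination g.1.2.2.2 * d1]),
      fun g => Subtype.ext (by
        simp only [det] at d1
        simp only [mul, adj]
        refine Prod.ext ?_ (Prod.ext ?_ (Prod.ext ?_ ?_))
        exacts [by linear_combination g.1.1 * d1, by linear_combination g.1.2.1 * d1,
          by linear_combination g.1.2.2.1 * d1, by linear_combination g.1.2.2.2 * d1])⟩
    funext z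
    rw [e, sl_tsum kit _ _ (by rw [d1]; exact one_pos)]
    refine congrArg _ ((tsum_congr fun g => ?_).trans (E.tsum_eq fun g => sl (P0 ι) g z))
    rw [kit.slm _ _ _ (by rw [g.2.1]; simp) (by rw [d1]; simp)]
    rfl
  · have e : P1 N ι = fun z => 1 / 2 * ∑' v : PR N, sl (q ι) (bz v) z := funext fun z => by
      rw [h3]; ring
    have dW : det (WN N) = N := by simp [det, WN]
    have dW0 : 0 < det (WN N) := by rw [dW]; exact_mod_cast hN.pos
    let i : ℤ × ℤ → ℤ × ℤ := fun v => (-(N * v.2), v.1)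
    have ii : Function.Injective i := fun v v' h => by
      obtain ⟨a, b⟩ := Prod.mk.inj h
      exact Prod.ext b (mul_left_cancel₀ N0 (neg_injective a))
    funext z
    have s1 : Summable ((PR N).indicator fun v => sl (sl (q ι) (bz v)) (WN N) z) := by
      refine summable_subtype_iff_indicator.1 ?_
      simp only [Function.comp_def, kit.slz _ _ _ dW0]
      exact (sw _).of_norm.mul_left _
    rw [e, sl_tsum kit _ _ dW0, tsum_subtype (PR N) fun v => sl (sl (q ι) (bz v)) (WN N) z,
      ← ii.tsum_eq fun v hv => ?_, even_sum (w := fun c => (PR N).indicator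
        (fun v => sl (sl (q ι) (bz v)) (WN N) z) (i c)) (s1.comp_injective ii) fun c d => ?_, P2]
    · rw [(tsum_congr fun d => ?_).trans tsum_zero, zero_add, ← mul_assoc, ← tsum_mul_left,
        ← tsum_mul_left]
      · refine tsum_congr fun c => ?_
        rw [show (1 / 2 * 2 : ℂ) = 1 by norm_num, one_mul]
        by_cases h1 : 1 ≤ c
        · by_cases h2 : N ∣ c
          · rw [if_pos h1, if_neg fun k => k.2 h2, mul_zero]
            refine (tsum_congr fun d => Set.indicator_of_notMem (fun k => ?_) _).trans tsum_zero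
            exact (Nat.prime_iff_prime_int.1 hN).not_isUnit (k.1.isUnit_of_dvd' k.2
              (Int.natCast_dvd_natCast.2 h2))
          · rw [if_pos h1, if_pos ⟨h1, h2⟩, pc, ← tsum_mul_left]
            refine tsum_congr fun d => ?_
            by_cases h : IsCoprime d (c : ℤ)
            · have : NeZero c := ⟨by omega⟩
              have p : i (c, d) ∈ PR N := ⟨(IsCoprime.mul_left (Nat.isCoprime_iff_coprime.2
                ((Nat.Prime.coprime_iff_not_dvd hN).2 h2)) h).neg_left, by simp [i]⟩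
              rw [Set.indicator_of_mem p,
                kit.slm _ _ _ (by rw [db _ p.1]; simp) dW0.ne']
              exact form kit hN.pos h1 (a := (bz (i (c, d))).2.1) (by simp [mul, WN, mul_comm])
                (by simp [mul, WN, bz, i, mul_comm]) (by simp [mul, WN, bz, i])
                (by rw [det_mul, db _ p.1, dW, one_mul]) (by simp) z
            · rw [pw, if_neg h, mul_zero]
              exact Set.indicator_of_notMem (fun k => h
                ((IsCoprime.neg_left_iff _ _).1 k.1).of_mul_left_right) _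
        · rw [if_neg h1, if_neg fun k => h1 k.1, mul_zero]
      · exact Set.indicator_of_notMem (fun k => (Nat.prime_iff_prime_int.1 hN).not_isUnit
          (k.1.isUnit_of_dvd' k.2 (dvd_zero _))) _
    · have n : i (-c, -d) = -i (c, d) := by simp [i]
      rw [n]
      exact ev (fun f => sl f (WN N) z) _
    · obtain ⟨k, hk⟩ := (Set.mem_of_indicator_ne_zero hv).2
      exact ⟨(v.2, -k), Prod.ext (by simp [i, hk]) rfl⟩

end Pool.Agent.MP_20b2fd_nt.H38
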