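import Pool.Agent.MP_20b2fd_nt.H38.Pd1

/-! Row Pd: the limits of the Poincare series are cusp forms. -/

set_option autoImplicit false

namespace Pool.Agent.MP_20b2fd_nt.H38

open UpperHalfPlane hiding I
open MeasureTheory Complex Finset Filter Topology
open scoped ModularForm Real Manifold ENNReal

namespace PdA

theorem cop_inv {N c : ℕ} (hN : N.Prime) (hc : 1 ≤ c) (h : ¬ N ∣ c) :
    IsCoprime ((((N : ZMod c)⁻¹).val : ℕ) : ℤ) (c : ℤ) := by
  have hco : N.Coprime c := (Nat.Prime.coprime_iff_not_dvd hN).mpr h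
  exact Nat.isCoprime_iff_coprime.mpr (ZMod.val_coe_unit_coprime (ZMod.unitOfCoprime N hco)⁻¹)

theorem zero_inf {F : ℍ → ℂ} {C : ℝ} (h : ∀ z : ℍ, z.im * ‖F z‖ ≤ C * (1 + 1 / z.im ^ 3)) :
    IsZeroAtImInfty F := by
  rw [isZeroAtImInfty_iff]
  intro ε hε
  refine ⟨max 1 (2 * |C| / ε), fun z hz => ?_⟩
  have h1 : 1 ≤ z.im := (le_max_left _ _).trans hz
  have h2 : 2 * |C| / ε ≤ z.im := (le_max_right _ _).trans hz
  have hy := z.im_pos
  have h3 : 1 / z.im ^ 3 ≤ 1 := by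
    rw [div_le_one (by positivity)]
    exact one_le_pow₀ h1
  have h4 : C * (1 + 1 / z.im ^ 3) ≤ 2 * |C| := by
    have : 0 ≤ 1 / z.im ^ 3 := by positivity
    have := le_abs_self C
    have := abs_nonneg C
    nlinarith
  rw [div_le_iff₀ hε] at h2
  have h5 : z.im * ‖F z‖ ≤ z.im * ε := (h z).trans (h4.trans h2)
  exact le_of_mul_le_mul_left h5 hy

theorem sl_lim (hk : KitS) {F G : ℝ → ℍ → ℂ} {g : Mt} (hg : 0 < det g)
    (hF : ∀ z, Tendsto (fun ι => F ι z) (𝓝[>] 0) (𝓝 (F 0 z)))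
    (hG : ∀ z, Tendsto (fun ι => G ι z) (𝓝[>] 0) (𝓝 (G 0 z)))
    (h : ∀ ι, 0 < ι → sl (F ι) g = G ι) : sl (F 0) g = G 0 := by
  funext z
  rw [hk.slz _ _ _ hg]
  refine tendsto_nhds_unique ((hF (ac g z)).const_mul _) ((hG z).congr' ?_)
  filter_upwards [self_mem_nhdsWithin] with ι hι
  rw [← h ι hι, hk.slz _ _ _ hg]

theorem int_ee (n : ℕ) (y : ℝ) :
    ∫ x in (0 : ℝ)..1, ee (x + y * I) * ee (-(n * (x + y * I))) = if n = 1 then 1 else 0 := by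
  split_ifs with h
  · subst h
    have e : ∀ x : ℝ, ee (x + y * I) * ee (-(((1 : ℕ) : ℂ) * (x + y * I))) = 1 := by
      intro x
      unfold ee
      rw [← Complex.exp_add, ← Complex.exp_zero]
      congr 1
      push_cast
      ring
    simp only [e]
    simp
  · have hc : (2 * π * I * (1 - n) : ℂ) ≠ 0 := by
      have h1 : (1 - n : ℂ) ≠ 0 := by
        rw [sub_ne_zero]
        exact_mod_cast Ne.symm h
      have h2 : (π : ℂ) ≠ 0 := by exact_mod_cast Real.pi_ne_zero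
      simp [h1, h2, I_ne_zero]
    have e : ∀ x : ℝ, ee (x + y * I) * ee (-((n : ℂ) * (x + y * I))) =
        exp (2 * π * I * (1 - n) * (y * I)) * exp (2 * π * I * (1 - n) * x) := by
      intro x
      unfold ee
      rw [← Complex.exp_add, ← Complex.exp_add]
      congr 1
      ring
    simp only [e]
    rw [intervalIntegral.integral_const_mul, integral_exp_mul_complex hc]
    have e1 : exp (2 * π * I * (1 - n) * ((1 : ℝ) : ℂ)) = 1 := by
      refine Eq.trans ?_ (Complex.exp_int_mul_two_pi_mul_I (1 - n))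
      congr 1
      push_cast
      ring
    rw [e1]
    simp

theorem main_le (ι : ℝ) (hι : 0 ≤ ι) (z : ℍ) :
    z.im * ‖ee z * (Real.exp (-ι / z.im) : ℂ)‖ ≤ 1 := by
  have hy := z.im_pos
  rw [norm_mul, norm_ee, Complex.norm_real, Real.norm_of_nonneg (Real.exp_pos _).le]
  have h1 : Real.exp (-ι / z.im) ≤ 1 := by
    rw [Real.exp_le_one_iff]
    exact div_nonpos_of_nonpos_of_nonneg (by linarith) hy.le
  have h2 : z.im * Real.exp (-(2 * π * (z : ℂ).im)) ≤ 1 := by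
    rw [Real.exp_neg, ← div_eq_mul_inv, div_le_one (Real.exp_pos _)]
    have := Real.add_one_le_exp (2 * π * (z : ℂ).im)
    have hpi := Real.pi_gt_three
    have e : (z : ℂ).im = z.im := rfl
    rw [e] at this ⊢
    nlinarith
  calc z.im * (Real.exp (-(2 * π * (z : ℂ).im)) * Real.exp (-ι / z.im))
      = z.im * Real.exp (-(2 * π * (z : ℂ).im)) * Real.exp (-ι / z.im) := by ring
    _ ≤ 1 * 1 := mul_le_mul h2 h1 (Real.exp_pos _).le zero_le_one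
    _ = 1 := one_mul _

end PdA

open PdA

theorem pdOf : PdOf := by
  intro hk hqx hcu hkl hbS hpa hpb hpc
  obtain ⟨hbb, -, -, Cb, hCb, hB⟩ := hbS
  obtain ⟨Ca, hCa, ha⟩ := hpa
  have ha : PaC Ca := ha
  have hCa0 : 0 ≤ Ca := by linarith
  have hpi := Real.pi_gt_three
  set E := Real.exp (2 * π) * π with hE
  have hE0 : 0 ≤ E := by positivity
  have hCC : 0 ≤ Ca * Cb := mul_nonneg hCa0 (by linarith)
  have hEC : 0 ≤ E * Cb := mul_nonneg hE0 (by linarith)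
  refine ⟨1 + Ca * Cb + E * Cb, by linarith, fun N hN => ?_⟩
  have : NeZero N := ⟨hN.ne_zero⟩
  have hN1 : (1 : ℝ) ≤ N := by exact_mod_cast hN.one_le
  have hN0 : (0 : ℝ) < N := by linarith
  -- the two families
  have hq1 : ∀ c : ℕ, (1 ≤ c ∧ N ∣ c) → 1 ≤ c ∧ IsCoprime ((fun _ => 1 : ℕ → ℤ) c) (c : ℤ) :=
    fun c h => ⟨h.1, isCoprime_one_left⟩
  have hq2 : ∀ c : ℕ, (1 ≤ c ∧ ¬ N ∣ c) →
      1 ≤ c ∧ IsCoprime ((fun c => (((N : ZMod c)⁻¹).val : ℕ) : ℕ → ℤ) c) (c : ℤ) :=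
    fun c h => ⟨h.1, cop_inv hN h.1 h.2⟩
  have w1 : ∀ θ : ℝ, 15 / 8 ≤ θ → θ ≤ 2 → Summable (wt (fun c => 1 ≤ c ∧ N ∣ c) θ) ∧
      ∑' c, wt (fun c => 1 ≤ c ∧ N ∣ c) θ c ≤ Cb * (N : ℝ) ^ (3 / 4 - θ) := by
    intro θ h1 h2
    refine wt_sum hbb _ (fun c h => h.1) θ _ fun X => le_trans ?_ ((hB X θ h1 h2).2 N hN)
    refine Finset.sum_le_sum_of_subset_of_nonneg (fun c hc => ?_) fun c _ _ => ?_
    · rw [Finset.mem_filter] at hc ⊢
      exact ⟨hc.1, hc.2.2⟩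
    · have := hbb c
      positivity
  have w2 : ∀ θ : ℝ, 15 / 8 ≤ θ → θ ≤ 2 → Summable (wt (fun c => 1 ≤ c ∧ ¬ N ∣ c) θ) ∧
      ∑' c, wt (fun c => 1 ≤ c ∧ ¬ N ∣ c) θ c ≤ Cb := by
    intro θ h1 h2
    refine wt_sum hbb _ (fun c h => h.1) θ _ fun X => le_trans ?_ (hB X θ h1 h2).1
    refine Finset.sum_le_sum_of_subset_of_nonneg (Finset.filter_subset _ _) fun c _ _ => ?_
    have := hbb c
    positivity
  have e1 : ∀ ι z, P1 N ι z = ee z * Real.exp (-ι / z.im) +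
      ∑' c, tm (fun c => 1 ≤ c ∧ N ∣ c) (fun _ => 1) 1 ι z c := fun _ _ => rfl
  have e2 : ∀ ι z, P2 N ι z = 1 / N * ∑' c, tm (fun c => 1 ≤ c ∧ ¬ N ∣ c)
      (fun c => (((N : ZMod c)⁻¹).val : ℕ)) (1 / N) (N * ι) z c := fun _ _ => rfl
  have k0 : (0 : ℝ) < 1 / N := by positivity
  have k1 : (1 : ℝ) / N ≤ 1 := by rw [div_le_one hN0]; exact hN1
  obtain ⟨s1, t1⟩ := w1 (31 / 16) (by norm_num) (by norm_num)
  obtain ⟨s2, t2⟩ := w2 (31 / 16) (by norm_num) (by norm_num)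
  obtain ⟨s3, t3⟩ := w1 2 (by norm_num) le_rfl
  obtain ⟨s4, t4⟩ := w2 2 (by norm_num) le_rfl
  have t1' : ∑' c, wt (fun c => 1 ≤ c ∧ N ∣ c) (31 / 16) c ≤ Cb := by
    refine t1.trans ?_
    have : (N : ℝ) ^ (3 / 4 - 31 / 16 : ℝ) ≤ 1 :=
      Real.rpow_le_one_of_one_le_of_nonpos hN1 (by norm_num)
    nlinarith
  have nN : ‖(1 / N : ℂ)‖ = 1 / N := by simp
  have T1 : ∀ z, Tendsto (fun ι => P1 N ι z) (𝓝[>] 0) (𝓝 (P1 N 0 z)) := by
    intro z
    simp only [e1]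
    refine Tendsto.add ?_ (sum_tendsto ha hpb hq1 zero_le_one le_rfl s1 z)
    have hc : Continuous fun ι : ℝ => ee z * (Real.exp (-ι / z.im) : ℂ) := by fun_prop
    exact (hc.tendsto 0).mono_left nhdsWithin_le_nhds
  have T2 : ∀ z, Tendsto (fun ι => P2 N ι z) (𝓝[>] 0) (𝓝 (P2 N 0 z)) := by
    intro z
    simp only [e2]
    refine Tendsto.const_mul _ ?_
    rw [mul_zero]
    have hm : Tendsto (fun ι : ℝ => (N : ℝ) * ι) (𝓝[>] 0) (𝓝[>] 0) := by
      refine tendsto_nhdsWithin_iff.mpr ⟨?_, ?_⟩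
      · have hc : Continuous fun ι : ℝ => (N : ℝ) * ι := by fun_prop
        have := (hc.tendsto 0).mono_left (nhdsWithin_le_nhds (s := Set.Ioi 0))
        simpa using this
      · filter_upwards [self_mem_nhdsWithin] with ι hι
        exact mul_pos hN0 hι
    exact (sum_tendsto ha hpb hq2 k0.le k1 s2 z).comp hm
  have B1 : ∀ (ι : ℝ) (z : ℍ), 0 ≤ ι →
      z.im * ‖P1 N ι z‖ ≤ (1 + Ca * Cb + E * Cb) * (1 + 1 / z.im ^ 3) := by
    intro ι z hι
    have hy := z.im_pos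
    have a1 := main_le ι hι z
    have a2 := sum_le hCa0 ha hq1 zero_le_one le_rfl s1 t1' hι z
    have a3 : 0 ≤ 1 / z.im ^ 3 := by positivity
    rw [e1]
    have a4 := mul_le_mul_of_nonneg_left (norm_add_le (ee z * (Real.exp (-ι / z.im) : ℂ))
      (∑' c, tm (fun c => 1 ≤ c ∧ N ∣ c) (fun _ => 1) 1 ι z c)) hy.le
    nlinarith
  have B2 : ∀ (ι : ℝ) (z : ℍ), 0 ≤ ι →
      z.im * ‖P2 N ι z‖ ≤ (1 + Ca * Cb + E * Cb) * (1 + 1 / z.im ^ 3) := by
    intro ι z hι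
    have hy := z.im_pos
    have a2 := sum_le hCa0 ha hq2 k0.le k1 s2 t2 (mul_nonneg hN0.le hι) z
    have a3 : 0 ≤ 1 / z.im ^ 3 := by positivity
    rw [e2, norm_mul, nN]
    set S := ‖∑' c, tm (fun c => 1 ≤ c ∧ ¬ N ∣ c)
      (fun c => (((N : ZMod c)⁻¹).val : ℕ)) (1 / N) (N * ι) z c‖ with hS
    have hS0 : 0 ≤ S := norm_nonneg _
    have a4 : z.im * (1 / N * S) ≤ z.im * S :=
      mul_le_mul_of_nonneg_left (by nlinarith) hy.le
    nlinarith
  have D1 := sum_diff hCa0 hbb ha hpb hq1 zero_le_one le_rfl s1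
  have D2 := sum_diff hCa0 hbb ha hpb hq2 k0.le k1 s2
  have M1 : MDifferentiable 𝓘(ℂ) 𝓘(ℂ) (P1 N 0) := by
    rw [UpperHalfPlane.mdifferentiable_iff]
    have hd : DifferentiableOn ℂ (fun w : ℂ => ee w + ∑' c,
        tm (fun c => 1 ≤ c ∧ N ∣ c) (fun _ => 1) 1 0 (ofComplex w) c) {w | 0 < w.im} := by
      refine DifferentiableOn.add ?_ D1
      unfold ee
      fun_prop
    refine hd.congr fun w hw => ?_
    have hw' : 0 < w.im := hw
    simp only [Function.comp_apply, e1]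
    rw [ofComplex_apply_of_im_pos hw']
    simp
  have I1 : Inv N (P1 N 0) := fun g hg =>
    sl_lim hk (F := P1 N) (G := P1 N) (by rw [hg.1]; norm_num) T1 T1
      fun ι hι => (hpc N ι hN hι).2.2.2.1 g hg
  have hW : 0 < det (WN N) := by
    have : (0 : ℤ) < N := by exact_mod_cast hN.pos
    simpa [det, WN] using hN.pos
  have W1 : sl (P1 N 0) (WN N) = P2 N 0 :=
    sl_lim hk (F := P1 N) (G := P2 N) hW T1 T2 fun ι hι => (hpc N ι hN hι).2.2.2.2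
  obtain ⟨P, hP⟩ := (hcu N hN).2 (P1 N 0) I1 M1 (zero_inf fun z => B1 0 z le_rfl)
    (by rw [W1]; exact zero_inf fun z => B2 0 z le_rfl)
  obtain ⟨Q, hQ⟩ := ((hcu N hN).1 P).2.2.2.2
  have hQ2 : ⇑Q = P2 N 0 := by rw [hQ, hP, W1]
  refine ⟨P, Q, hP, hQ2, hQ, fun z => ⟨by rw [hP]; exact T1 z, by rw [hQ2]; exact T2 z⟩,
    fun ι z hι => ⟨B1 ι z hι, B2 ι z hι⟩, fun n hn => ?_⟩
  have hn0 : (0 : ℝ) < n := by exact_mod_cast hn
  have hy : (0 : ℝ) < 1 / n := by positivity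
  have cP : co P n - (if n = 1 then 1 else 0) = ∫ x in (0 : ℝ)..1,
      (∑' c, tm (fun c => 1 ≤ c ∧ N ∣ c) (fun _ => 1) 1 0 (pt x (1 / n : ℝ)) c) *
        ee (-(n * (x + (1 / n : ℝ) * I))) := by
    rw [(hqx N P).2.2.2.2.1 n _ hy, ← int_ee n (1 / n), sub_eq_iff_eq_add',
      ← intervalIntegral.integral_add]
    · refine intervalIntegral.integral_congr fun x _ => ?_
      simp only [hP, e1]
      rw [(hk.ptc x _ hy).1]
      simp only [neg_zero, zero_div, Real.exp_zero, ofReal_one, mul_one]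
      ring
    · refine Continuous.intervalIntegrable (Continuous.mul ?_ (cont_ee n _)) _ _
      unfold ee
      fun_prop
    · exact ((cont_line D1 hy).mul (cont_ee n _)).intervalIntegrable _ _
  have cQ : co Q n = 1 / N * ∫ x in (0 : ℝ)..1,
      (∑' c, tm (fun c => 1 ≤ c ∧ ¬ N ∣ c) (fun c => (((N : ZMod c)⁻¹).val : ℕ)) (1 / N) 0
        (pt x (1 / n : ℝ)) c) * ee (-(n * (x + (1 / n : ℝ) * I))) := by
    rw [(hqx N Q).2.2.2.2.1 n _ hy, ← intervalIntegral.integral_const_mul]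
    refine intervalIntegral.integral_congr fun x _ => ?_
    simp only [hQ2, e2, mul_zero]
    ring
  have hC1 : E * Cb ≤ 1 + Ca * Cb + E * Cb := by linarith
  have b1 := sum_coef hCa0 hbb ha hpb hq1 zero_le_one le_rfl s1 n hy (by positivity) s3 t3
    fun c h => (one_coef hkl hbb hpb one_pos h.1 (hq1 c h).2 hn).1
  have b2 := sum_coef hCa0 hbb ha hpb hq2 k0.le k1 s2 n hy (by positivity) s4 t4
    fun c h => (one_coef hkl hbb hpb k0 h.1 (hq2 c h).2 hn).1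
  have b3 := sum_coef hCa0 hbb ha hpb hq1 zero_le_one le_rfl s1 n hy (by positivity) s1 t1
    fun c h => (one_coef hkl hbb hpb one_pos h.1 (hq1 c h).2 hn).2
  have b4 := sum_coef hCa0 hbb ha hpb hq2 k0.le k1 s2 n hy (by positivity) s2 t2
    fun c h => (one_coef hkl hbb hpb k0 h.1 (hq2 c h).2 hn).2
  rw [cP, cQ, norm_mul, nN]
  refine ⟨b1.trans ?_, (mul_le_mul_of_nonneg_left b2 k0.le).trans ?_, b3.trans ?_,
    (mul_le_mul_of_nonneg_left b4 k0.le).trans ?_⟩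
  · rw [show (3 / 4 - 2 : ℝ) = -5 / 4 by norm_num, ← hE]
    calc E * n * (Cb * (N : ℝ) ^ (-5 / 4 : ℝ)) = E * Cb * n * (N : ℝ) ^ (-5 / 4 : ℝ) := by ring
      _ ≤ _ := by gcongr
  · rw [← hE]
    calc 1 / (N : ℝ) * (E * n * Cb) = E * Cb * n / N := by ring
      _ ≤ _ := by gcongr
  · rw [← hE, Real.one_rpow, div_one, Real.div_rpow hn0.le hN0.le]
    have h : (N : ℝ) ^ (3 / 4 - 31 / 16 : ℝ) ≤ ((N : ℝ) ^ (31 / 32 : ℝ))⁻¹ := by
      rw [← Real.rpow_neg hN0.le]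
      exact Real.rpow_le_rpow_of_exponent_le hN1 (by norm_num)
    calc E * (n : ℝ) ^ (31 / 32 : ℝ) * (Cb * (N : ℝ) ^ (3 / 4 - 31 / 16 : ℝ))
        = E * Cb * ((n : ℝ) ^ (31 / 32 : ℝ) * (N : ℝ) ^ (3 / 4 - 31 / 16 : ℝ)) := by ring
      _ ≤ (1 + Ca * Cb + E * Cb) * ((n : ℝ) ^ (31 / 32 : ℝ) * ((N : ℝ) ^ (31 / 32 : ℝ))⁻¹) := by
          gcongr
      _ = _ := by rw [← div_eq_mul_inv]
  · rw [← hE, Real.div_rpow hn0.le hN0.le, Real.div_rpow zero_le_one hN0.le, Real.one_rpow]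
    have h : (N : ℝ) = (N : ℝ) ^ (31 / 32 : ℝ) * (N : ℝ) ^ (1 / 32 : ℝ) := by
      rw [← Real.rpow_add hN0]
      norm_num
    have h2 : 1 / (N : ℝ) * (E * ((n : ℝ) ^ (31 / 32 : ℝ) / (1 / (N : ℝ) ^ (1 / 32 : ℝ))) * Cb) =
        E * Cb * ((n : ℝ) ^ (31 / 32 : ℝ) / (N : ℝ) ^ (31 / 32 : ℝ)) := by
      have p1 : 0 < (N : ℝ) ^ (31 / 32 : ℝ) := by positivity
      have p2 : 0 < (N : ℝ) ^ (1 / 32 : ℝ) := by positivity
      generalize (N : ℝ) ^ (31 / 32 : ℝ) = u at *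
      generalize (N : ℝ) ^ (1 / 32 : ℝ) = v at *
      rw [h]
      field_simp
    rw [h2]
    gcongr

end Pool.Agent.MP_20b2fd_nt.H38
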