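import Pool.Agent.MP_20b2fd_nt.H38.SpecA

/-! Row Pe: the inner product of a cusp form with the Poincare series. -/

set_option autoImplicit false

namespace Pool.Agent.MP_20b2fd_nt.H38

open UpperHalfPlane hiding I
open MeasureTheory Complex Filter Topology
open scoped Real

namespace PeA

theorem norm_pe (F G : ℍ → ℂ) (z : ℍ) : ‖pe F G z‖ = (z.im * ‖F z‖) * (z.im * ‖G z‖) := by
  unfold pe
  rw [norm_mul, norm_mul, norm_pow, Complex.norm_conj, Complex.norm_real,
    Real.norm_of_nonneg z.im_pos.le]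
  ring

/-- dominated convergence on one strip -/
theorem dc (K : KitS) (hE : EtaS) (l : ℝ) (hl : 0 < l) (F : ℍ → ℂ) (G : ℝ → ℍ → ℂ) (C D : ℝ)
    (hF : Measurable F) (hG : ∀ ι, 0 ≤ ι → Measurable (G ι)) (hC : ∀ z : ℍ, z.im * ‖F z‖ ≤ C)
    (hD : ∀ (ι : ℝ) (z : ℍ), 0 ≤ ι → z.im * ‖G ι z‖ ≤ D * (1 + 1 / z.im ^ 3))
    (ht : ∀ z, Tendsto (fun ι => G ι z) (𝓝[>] 0) (𝓝 (G 0 z))) :
    (∀ ι, 0 ≤ ι → Integrable fun z => (et0 l z : ℂ) * pe F (G ι) z) ∧
      Tendsto (fun ι => ∫ z, (et0 l z : ℂ) * pe F (G ι) z) (𝓝[>] 0)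
        (𝓝 (∫ z, (et0 l z : ℂ) * pe F (G 0) z)) := by
  obtain ⟨m0, p0, i0⟩ := hE.1 l hl
  have hm : ∀ ι, 0 ≤ ι → AEStronglyMeasurable (fun z => (et0 l z : ℂ) * pe F (G ι) z) volume :=
    fun ι h => ((Complex.measurable_ofReal.comp m0).mul
      (K.mpe _ _ hF (hG ι h))).aestronglyMeasurable
  have hb : ∀ ι, 0 ≤ ι → ∀ z : ℍ, ‖(et0 l z : ℂ) * pe F (G ι) z‖ ≤
      C * D * (et0 l z * (1 + 1 / z.im ^ 3)) := by
    intro ι h z
    have hy := z.im_pos
    have h1 : 0 ≤ z.im * ‖F z‖ := by positivity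
    have h2 : 0 ≤ z.im * ‖G ι z‖ := by positivity
    rw [norm_mul, Complex.norm_real, Real.norm_of_nonneg (p0 z), norm_pe]
    calc et0 l z * (z.im * ‖F z‖ * (z.im * ‖G ι z‖))
        ≤ et0 l z * (C * (D * (1 + 1 / z.im ^ 3))) :=
          mul_le_mul_of_nonneg_left (mul_le_mul (hC z) (hD ι z h) h2 (h1.trans (hC z))) (p0 z)
      _ = _ := by ring
  have hi := i0.const_mul (C * D)
  refine ⟨fun ι h => hi.mono' (hm ι h) (ae_of_all _ (hb ι h)), ?_⟩
  refine tendsto_integral_filter_of_dominated_convergence _ ?_ ?_ hi (ae_of_all _ fun z => ?_)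
  · filter_upwards [self_mem_nhdsWithin] with ι h using hm ι (le_of_lt h)
  · filter_upwards [self_mem_nhdsWithin] with ι h using ae_of_all _ (hb ι (le_of_lt h))
  · unfold pe
    exact (((Complex.continuous_conj.tendsto _).comp (ht z)).const_mul _ |>.mul_const _).const_mul _

theorem conj_ee (x y : ℝ) :
    (starRingEnd ℂ) (ee (x + y * I)) =
      ee (-((1 : ℕ) * (x + y * I))) * (Real.exp (-(4 * π) * y) : ℝ) := by
  unfold ee
  rw [← Complex.exp_conj, Complex.ofReal_exp, ← Complex.exp_add]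
  congr 1
  simp only [map_mul, map_add, Complex.conj_ofReal, Complex.conj_I, map_ofNat]
  push_cast
  linear_combination (4 * π * y) * Complex.I_mul_I

theorem norm_ee (x y : ℝ) : ‖ee (-((1 : ℕ) * (x + y * I)))‖ = Real.exp (2 * π * y) := by
  unfold ee
  rw [Complex.norm_exp]
  congr 1
  simp

/-- the seed in coordinates -/
theorem pe_P0 (K : KitS) (F : ℍ → ℂ) (ι x y : ℝ) (hy : 0 < y) :
    pe F (P0 ι) (pt x y) / (y : ℂ) ^ 2 =
      (Set.Ico (0 : ℝ) 1).indicator (fun x : ℝ => F (pt x y) * ee (-((1 : ℕ) * (x + y * I)))) x *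
        (Real.exp (-(4 * π) * y) * Real.exp (-ι / y) : ℝ) := by
  obtain ⟨e1, e2, e3⟩ := K.ptc x y hy
  have hy' : (y : ℂ) ≠ 0 := by exact_mod_cast hy.ne'
  unfold pe P0 st
  rw [e1, e2, e3]
  by_cases h : 0 ≤ x ∧ x < 1
  · rw [if_pos h, Set.indicator_of_mem (show x ∈ Set.Ico (0 : ℝ) 1 from h), map_mul, conj_ee,
      Complex.conj_ofReal, Complex.ofReal_mul]
    field_simp
  · rw [if_neg h, Set.indicator_of_notMem (show x ∉ Set.Ico (0 : ℝ) 1 from h)]
    simp

theorem int_P0 (K : KitS) (F : ℍ → ℂ) (C ι : ℝ) (hι : 0 < ι) (hF : Measurable F)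
    (hP : Measurable (P0 ι)) (hC : ∀ z : ℍ, z.im * ‖F z‖ ≤ C) : Integrable (pe F (P0 ι)) := by
  have hm := K.mpe _ _ hF hP
  rw [(K.intg _ hm).1]
  have i1 : Integrable (fun y : ℝ => C / ι * Real.exp (-(2 * π) * y))
      (volume.restrict (Set.Ioi (0 : ℝ))) :=
    (exp_neg_integrableOn_Ioi 0 (by positivity)).const_mul _
  have i2 : Integrable ((Set.Ico (0 : ℝ) 1).indicator fun _ => (1 : ℝ)) volume :=
    (integrable_indicator_iff measurableSet_Ico).2 (integrableOn_const (by simp))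
  refine (i1.mul_prod i2).mono' ?_ ?_
  · exact ((hm.comp (K.mpt.comp measurable_swap)).div
      ((Complex.measurable_ofReal.comp measurable_fst).pow_const 2)).aestronglyMeasurable
  · have h0 : ∀ᵐ p : ℝ × ℝ ∂((volume.restrict (Set.Ioi (0 : ℝ))).prod volume), 0 < p.1 :=
      Measure.quasiMeasurePreserving_fst.ae (ae_restrict_mem measurableSet_Ioi)
    filter_upwards [h0] with p hp
    rw [pe_P0 K F ι _ _ hp]
    by_cases h : p.2 ∈ Set.Ico (0 : ℝ) 1
    · rw [Set.indicator_of_mem h, Set.indicator_of_mem h, mul_one, norm_mul, norm_mul, norm_ee,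
        Complex.norm_real, Real.norm_of_nonneg (by positivity)]
      have h1 := hC (pt p.2 p.1)
      rw [(K.ptc p.2 p.1 hp).2.2] at h1
      have h2 : ι * Real.exp (-ι / p.1) ≤ p.1 := by
        have h3 := Real.add_one_le_exp (ι / p.1)
        rw [neg_div, Real.exp_neg, ← div_eq_mul_inv, div_le_iff₀ (Real.exp_pos _)]
        calc ι = p.1 * (ι / p.1) := by field_simp
          _ ≤ _ := mul_le_mul_of_nonneg_left (by linarith) hp.le
      have h4 : Real.exp (2 * π * p.1) * Real.exp (-(4 * π) * p.1) = Real.exp (-(2 * π) * p.1) := by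
        rw [← Real.exp_add]
        congr 1
        ring
      have h5 : ‖F (pt p.2 p.1)‖ * Real.exp (-ι / p.1) ≤ C / ι := by
        rw [le_div_iff₀ hι]
        nlinarith [norm_nonneg (F (pt p.2 p.1))]
      calc ‖F (pt p.2 p.1)‖ * Real.exp (2 * π * p.1) *
            (Real.exp (-(4 * π) * p.1) * Real.exp (-ι / p.1))
          = ‖F (pt p.2 p.1)‖ * Real.exp (-ι / p.1) *
            (Real.exp (2 * π * p.1) * Real.exp (-(4 * π) * p.1)) := by ring
        _ ≤ _ := by
            rw [h4]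
            exact mul_le_mul_of_nonneg_right h5 (Real.exp_pos _).le
    · rw [Set.indicator_of_notMem h, Set.indicator_of_notMem h]
      simp

theorem val_P0 (K : KitS) (F : ℍ → ℂ) (a : ℂ) (ι : ℝ) (hm : Measurable (pe F (P0 ι)))
    (hi : Integrable (pe F (P0 ι)))
    (ha : ∀ y : ℝ, 0 < y → a = ∫ x in (0 : ℝ)..1, F (pt x y) * ee (-((1 : ℕ) * (x + y * I)))) :
    ∫ z, pe F (P0 ι) z =
      a * (∫ y in Set.Ioi (0 : ℝ), Real.exp (-(4 * π) * y) * Real.exp (-ι / y) : ℝ) := by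
  rw [(K.intg _ hm).2 hi, ← integral_complex_ofReal, ← integral_const_mul]
  refine setIntegral_congr_fun measurableSet_Ioi fun y hy => ?_
  simp only [pe_P0 K F ι _ y hy]
  rw [integral_mul_const, integral_indicator measurableSet_Ico, ha y hy,
    intervalIntegral.integral_of_le zero_le_one, integral_Ico_eq_integral_Ioc]

theorem lim_exp : Tendsto
    (fun ι : ℝ => ∫ y in Set.Ioi (0 : ℝ), Real.exp (-(4 * π) * y) * Real.exp (-ι / y))
    (𝓝[>] 0) (𝓝 (1 / (4 * π))) := by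
  have e : 1 / (4 * π) =
      ∫ y in Set.Ioi (0 : ℝ), Real.exp (-(4 * π) * y) * Real.exp (-0 / y) := by
    simp only [neg_zero, zero_div, Real.exp_zero, mul_one]
    rw [integral_exp_mul_Ioi (neg_neg_of_pos (by positivity))]
    simp
  rw [e]
  refine tendsto_integral_filter_of_dominated_convergence (fun y => Real.exp (-(4 * π) * y))
    (Eventually.of_forall fun ι => Measurable.aestronglyMeasurable (by fun_prop)) ?_
    (exp_neg_integrableOn_Ioi 0 (by positivity)) (ae_of_all _ fun y => ?_)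
  · filter_upwards [self_mem_nhdsWithin] with ι h
    filter_upwards [ae_restrict_mem measurableSet_Ioi] with y hy
    rw [Real.norm_of_nonneg (by positivity)]
    refine mul_le_of_le_one_right (Real.exp_pos _).le (Real.exp_le_one_iff.2 ?_)
    exact div_nonpos_of_nonpos_of_nonneg (neg_nonpos.2 (le_of_lt h)) (le_of_lt hy)
  · refine Tendsto.mono_left (Continuous.tendsto (by fun_prop) 0) nhdsWithin_le_nhds

end PeA

open PeA in
theorem peOf : PeOf := by
  intro K hE hU hD hQ hC hPc hPd N f hN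
  have : NeZero N := ⟨hN.ne_zero⟩
  obtain ⟨D, -, hPd⟩ := hPd
  obtain ⟨P, Q, eP, eQ, ePQ, hlim, hbd, -⟩ := hPd N hN
  obtain ⟨fI, -, fm, fD, g, eg⟩ := (hC N hN).1 f
  obtain ⟨-, -, gm, gD, -⟩ := (hC N hN).1 g
  obtain ⟨C, hCf⟩ := hD.im' _ fD
  obtain ⟨C', hCg⟩ := hD.im' _ gD
  have hW : 0 < det (WN N) := by
    have := hN.pos
    simp only [det, WN]
    omega
  have m1 : ∀ ι, 0 ≤ ι → Measurable (P1 N ι) ∧ sl (P1 N ι) (WN N) = P2 N ι := by
    intro ι h
    rcases h.eq_or_lt with rfl | h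
    · rw [← eP, ← eQ]
      exact ⟨((hC N hN).1 P).2.2.1, ePQ.symm⟩
    · obtain ⟨a1, a2, a3, -, a5⟩ := hPc N ι hN h
      refine ⟨?_, a5⟩
      have hm := K.mts (MM N 1) (fun g => sl (P0 ι) g) (fun g => K.msr _ _ a1)
        fun z => (a2 z).of_norm
      have e : P1 N ι = fun z => (∑' g : MM N 1, sl (P0 ι) g z) / 2 := by
        funext z
        rw [a3]
        ring
      rw [e]
      exact hm.div_const 2
  have m2 : ∀ ι, 0 ≤ ι → Measurable (P2 N ι) := fun ι h => (m1 ι h).2 ▸ K.msr _ _ (m1 ι h).1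
  obtain ⟨i1, t1⟩ := dc K hE 1 one_pos f (P1 N) C D fm (fun ι h => (m1 ι h).1) hCf
    (fun ι z h => (hbd ι z h).1) fun z => eP ▸ (hlim z).1
  obtain ⟨i2, t2⟩ := dc K hE N (by exact_mod_cast hN.pos) g (P2 N) C' D gm m2 hCg
    (fun ι z h => (hbd ι z h).2) fun z => eQ ▸ (hlim z).2
  have sp : ∀ ι, 0 ≤ ι → ip N f (P1 N ι) = (∫ z, (et0 1 z : ℂ) * pe f (P1 N ι) z) +
      ∫ z, (et0 N z : ℂ) * pe g (P2 N ι) z := by
    intro ι h
    have e : ∀ z, pe f (P1 N ι) (ac (WN N) z) = pe g (P2 N ι) z := fun z => by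
      rw [← K.pez _ _ _ _ hW, ← eg, (m1 ι h).2]
    have := ((hE.2 N hN).2.2.2.2 (pe f (P1 N ι)) (i1 ι h) (by simpa only [e] using i2 ι h)).2
    simpa only [e, ip] using this
  have t3 : Tendsto (fun ι => ip N f (P1 N ι)) (𝓝[>] 0) (𝓝 (ip N f (P1 N 0))) := by
    rw [sp 0 le_rfl]
    refine (t1.add t2).congr' ?_
    filter_upwards [self_mem_nhdsWithin] with ι h using (sp ι (le_of_lt h)).symm
  have t4 : Tendsto (fun ι => ip N f (P1 N ι)) (𝓝[>] 0) (𝓝 (co f 1 * (1 / (4 * π) : ℝ))) := by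
    refine (((Complex.continuous_ofReal.tendsto _).comp lim_exp).const_mul (co f 1)).congr' ?_
    filter_upwards [self_mem_nhdsWithin] with ι h
    obtain ⟨a1, a2, a3, -, -⟩ := hPc N ι hN h
    have hi := int_P0 K f C ι h fm a1 hCf
    have u := (hU N f (P0 ι) hN fm a1 fI hi a2).2
    rw [val_P0 K f (co f 1) ι (K.mpe _ _ fm a1) hi ((hQ N f).2.2.2.2.1 1)] at u
    have e : ip N f (fun z => ∑' g : MM N 1, sl (P0 ι) g z) = 2 * ip N f (P1 N ι) := by
      unfold ip
      rw [← integral_const_mul]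
      congr 1
      funext z
      simp only [pe, a3, map_mul, map_ofNat]
      ring
    rw [e] at u
    exact (mul_left_cancel₀ two_ne_zero u).symm
  rw [tendsto_nhds_unique t3 t4]
  push_cast
  ring

end Pool.Agent.MP_20b2fd_nt.H38
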