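import Pool.Agent.MP_20b2fd_nt.H38.SpecA

/-! Symmetries and integrals of the tube around the imaginary axis. -/

set_option autoImplicit false

namespace Pool.Agent.MP_20b2fd_nt.H38

open UpperHalfPlane hiding I
open MeasureTheory Complex Set
open scoped Real

namespace PhA

variable {U : ℝ}

theorem bm_lt {x : ℝ} (h : bm x ≠ 0) : |x| < 2 := by
  by_contra h'
  exact h (bm.zero_of_le_dist (by simpa [bm] using not_lt.1 h'))

theorem cont_b (U : ℝ) : Continuous fun u : ℝ => bm (u / U) :=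
  bm.continuous.comp (continuous_id.div_const U)

theorem meas (U : ℝ) : Measurable (ph U) := by
  have h1 : Measurable fun z : ℍ => z.re / (U * z.im) :=
    continuous_re.measurable.div (continuous_im.measurable.const_mul U)
  exact (measurable_ofReal.comp (bm.continuous.measurable.comp h1)).div measurable_coe

theorem sq_le (x : ℝ) : bm x ^ 2 ≤ bm x := by
  have h1 : 0 ≤ bm x := bm.nonneg
  have h2 : bm x ≤ 1 := bm.le_one
  nlinarith

theorem int_of {g : ℝ → ℝ} (hg : Continuous g) (h0 : ∀ u, 0 ≤ g u) (h1 : ∀ u, g u ≤ 1) :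
    Integrable fun u => g u / (1 + u ^ 2) := by
  refine integrable_inv_one_add_sq.mono' (hg.div (by fun_prop) fun u => by positivity
    ).aestronglyMeasurable (.of_forall fun u => ?_)
  rw [Real.norm_of_nonneg (div_nonneg (h0 u) (by positivity)), ← one_div]
  exact div_le_div_of_nonneg_right (h1 u) (by positivity)

theorem int_c (U : ℝ) : Integrable fun u => bm (u / U) / (1 + u ^ 2) :=
  int_of (cont_b U) (fun _ => bm.nonneg) fun _ => bm.le_one

theorem int_a (U : ℝ) : Integrable fun u => bm (u / U) ^ 2 / (1 + u ^ 2) :=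
  int_of ((cont_b U).pow 2) (fun _ => sq_nonneg _) fun _ => (sq_le _).trans bm.le_one

theorem c1_le (U : ℝ) : c1 U ≤ π := by
  rw [← integral_univ_inv_one_add_sq]
  refine integral_mono (int_c U) integrable_inv_one_add_sq fun u => ?_
  simp only [← one_div]
  exact div_le_div_of_nonneg_right bm.le_one (by positivity)

theorem le_c1 (hU : 1 ≤ U) : π - 2 / U ≤ c1 U := by
  have h0 : 0 < U := one_pos.trans_le hU
  have h1 : Real.arctan U⁻¹ ≤ U⁻¹ := by
    have := Real.le_tan (Real.arctan_nonneg.2 (inv_pos.2 h0).le) (Real.arctan_lt_pi_div_two U⁻¹)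
    rwa [Real.tan_arctan] at this
  have h2 : ∫ u in Ioc (-U) U, bm (u / U) / (1 + u ^ 2) = Real.arctan U - Real.arctan (-U) := by
    rw [← integral_inv_one_add_sq, intervalIntegral.integral_of_le (by linarith)]
    refine setIntegral_congr_fun measurableSet_Ioc fun u hu => ?_
    have : bm (u / U) = 1 := bm.one_of_mem_closedBall (by
      rw [mem_closedBall_zero_iff, Real.norm_eq_abs, abs_div, abs_of_pos h0]
      exact (div_le_one h0).2 (abs_le.2 ⟨hu.1.le, hu.2⟩))
    simp only [this, one_div]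
  have h3 : ∫ u in Ioc (-U) U, bm (u / U) / (1 + u ^ 2) ≤ c1 U :=
    setIntegral_le_integral (int_c U) (.of_forall fun u => div_nonneg bm.nonneg (by positivity))
  rw [Real.arctan_inv_of_pos h0] at h1
  rw [h2, Real.arctan_neg] at h3
  rw [div_eq_mul_inv]
  linarith

theorem norm_ph (U : ℝ) (z : ℍ) : ‖ph U z‖ = bm (z.re / (U * z.im)) / ‖(z : ℂ)‖ := by
  rw [ph, norm_div, Complex.norm_real, Real.norm_of_nonneg bm.nonneg]

theorem norm_le (U : ℝ) (z : ℍ) : ‖ph U z‖ ≤ 1 / ‖(z : ℂ)‖ := by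
  rw [norm_ph]
  exact div_le_div_of_nonneg_right bm.le_one (norm_nonneg _)

theorem supp (hU : 0 < U) {z : ℍ} (h : ph U z ≠ 0) : |z.re| < 2 * U * z.im := by
  have h1 : bm (z.re / (U * z.im)) ≠ 0 := fun e => h (by simp [ph, e])
  have h2 := bm_lt h1
  have h3 := mul_pos hU z.im_pos
  rwa [abs_div, abs_of_pos h3, div_lt_iff₀ h3, ← mul_assoc] at h2

theorem ph_eq (U : ℝ) {z w : ℍ} {t s : ℝ} (ht : t ≠ 0) (hs : s = 1 ∨ s = -1)
    (h : (w : ℂ) = t * (s * z.re + z.im * I)) :
    ph U w = (bm (z.re / (U * z.im)) : ℝ) / (w : ℂ) := by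
  have h1 : w.re = t * (s * z.re) := by simpa using congrArg Complex.re h
  have h2 : w.im = t * z.im := by simpa using congrArg Complex.im h
  have h3 : w.re / (U * w.im) = s * (z.re / (U * z.im)) := by
    rw [h1, h2, mul_left_comm U, mul_div_mul_left _ _ ht, mul_div_assoc]
  rw [ph, h3]
  rcases hs with rfl | rfl
  · rw [one_mul]
  · rw [neg_one_mul, bm.neg]

theorem im_le (z : ℍ) : z.im ≤ ‖(z : ℂ)‖ := (le_abs_self _).trans (Complex.abs_im_le_norm _)

theorem intg_of (K : KitS) (hU : 0 < U) {u : ℍ → ℂ} (hu : Measurable u) (C : ℝ)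
    (h1 : ∀ z, u z ≠ 0 → |z.re| < 2 * U * z.im) (h2 : ∀ z, ‖u z‖ ≤ C * z.im / (1 + z.im ^ 2)) :
    Integrable u := by
  have hm : Measurable fun p : ℝ × ℝ => u (pt p.2 p.1) / (p.1 : ℂ) ^ 2 :=
    (hu.comp (K.mpt.comp measurable_swap)).div (by fun_prop)
  have key : ∀ y : ℝ, 0 < y → ∀ x, ‖u (pt x y) / (y : ℂ) ^ 2‖ ≤
      (Icc (-(2 * U * y)) (2 * U * y)).indicator (fun _ => C / (y * (1 + y ^ 2))) x := by
    intro y hy x
    obtain ⟨-, e1, e2⟩ := K.ptc x y hy
    by_cases hx : x ∈ Icc (-(2 * U * y)) (2 * U * y)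
    · have := h2 (pt x y)
      rw [e2] at this
      rw [indicator_of_mem hx, norm_div, norm_pow, Complex.norm_real, Real.norm_of_nonneg hy.le,
        div_le_iff₀ (by positivity)]
      refine this.trans_eq ?_
      field_simp
    · have : u (pt x y) = 0 := by
        by_contra h
        have := h1 _ h
        rw [e1, e2] at this
        exact hx (abs_le.1 this.le)
      simp [this, indicator_of_notMem hx]
  have hi : ∀ y : ℝ, Integrable
      ((Icc (-(2 * U * y)) (2 * U * y)).indicator fun _ : ℝ => C / (y * (1 + y ^ 2))) :=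
    fun y => (integrable_indicator_iff measurableSet_Icc).2 (integrableOn_const measure_Icc_lt_top.ne)
  refine (K.intg u hu).1.2 ((integrable_prod_iff hm.aestronglyMeasurable).2 ⟨?_, ?_⟩)
  · refine (ae_restrict_iff' measurableSet_Ioi).2 (.of_forall fun y hy => ?_)
    exact (hi y).mono' (hm.comp measurable_prodMk_left).aestronglyMeasurable (.of_forall (key y hy))
  · refine ((integrable_inv_one_add_sq.const_mul (4 * U * C)).integrableOn (s := Ioi 0)).mono'
      hm.aestronglyMeasurable.norm.integral_prod_right'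
      ((ae_restrict_iff' measurableSet_Ioi).2 (.of_forall fun y hy => ?_))
    have hy' : 0 < y := hy
    rw [Real.norm_of_nonneg (integral_nonneg fun _ => norm_nonneg _)]
    refine (integral_mono_of_nonneg (.of_forall fun _ => norm_nonneg _) (hi y)
      (.of_forall (key y hy))).trans_eq ?_
    rw [integral_indicator measurableSet_Icc, setIntegral_const, Real.volume_real_Icc_of_le
      (by have := mul_pos hU hy'; linarith), smul_eq_mul]
    field_simp
    ring

theorem norm_pe (F G : ℍ → ℂ) (z : ℍ) : ‖pe F G z‖ = ‖F z‖ * ‖G z‖ * z.im ^ 2 := by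
  simp [pe, abs_of_pos z.im_pos]

theorem dec_int (K : KitS) (hU : 0 < U) (F : ℍ → ℂ) (hF : Measurable F) (hD : Dec F) :
    Integrable (pe F (ph U)) := by
  obtain ⟨C, hC⟩ := hD
  refine intg_of K hU (K.mpe _ _ hF (meas U)) (C * (1 + 4 * U ^ 2) + C)
    (fun z h => supp hU fun e => h (by simp [pe, e])) fun z => ?_
  have hy := z.im_pos
  have h1 : z.im ^ 2 * ‖F z‖ ≤ C := by simpa using hC z 0 1 (Or.inr one_ne_zero)
  have hC0 : 0 ≤ C := le_trans (by positivity) h1
  by_cases h : ph U z = 0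
  · rw [norm_pe, h, norm_zero, mul_zero, zero_mul]
    positivity
  have h2 : z.im ^ 2 * ‖F z‖ ≤ C * ‖(z : ℂ)‖ ^ 2 := by simpa using hC z 1 0 (Or.inl one_ne_zero)
  have h3 : ‖(z : ℂ)‖ ^ 2 ≤ z.im ^ 2 * (1 + 4 * U ^ 2) := by
    have := sq_lt_sq' (abs_lt.1 (supp hU h)).1 (abs_lt.1 (supp hU h)).2
    rw [Complex.sq_norm, Complex.normSq_apply, coe_re, coe_im]
    nlinarith
  have h4 : ‖F z‖ ≤ C * (1 + 4 * U ^ 2) := le_of_mul_le_mul_left
    (h2.trans ((mul_le_mul_of_nonneg_left h3 hC0).trans_eq (by ring))) (pow_pos hy 2)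
  have h5 : ‖ph U z‖ * z.im ≤ 1 := by
    refine (mul_le_mul (norm_le U z) (im_le z) hy.le (by positivity)).trans_eq ?_
    rw [one_div, inv_mul_cancel₀ (norm_ne_zero_iff.2 z.ne_zero)]
  rw [norm_pe, le_div_iff₀ (by positivity)]
  calc ‖F z‖ * ‖ph U z‖ * z.im ^ 2 * (1 + z.im ^ 2)
      = (‖F z‖ + z.im ^ 2 * ‖F z‖) * z.im * (‖ph U z‖ * z.im) := by ring
    _ ≤ (C * (1 + 4 * U ^ 2) + C) * z.im * 1 := by gcongr
    _ = _ := mul_one _

theorem pe_ph (U : ℝ) (z : ℍ) : pe (ph U) (ph U) z = ((‖ph U z‖ ^ 2 * z.im ^ 2 : ℝ) : ℂ) := by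
  rw [pe, Complex.mul_conj, Complex.normSq_eq_norm_sq]
  push_cast
  rfl

theorem meas_ann (r R : ℝ) : MeasurableSet (Ann r R) :=
  (measurableSet_le measurable_const measurable_coe.norm).inter
    (measurableSet_le measurable_coe.norm measurable_const)

theorem ann_int (K : KitS) (hU : 0 < U) {r : ℝ} (hr : 0 < r) (R : ℝ) :
    Integrable ((Ann r R).indicator (pe (ph U) (ph U))) := by
  refine intg_of K hU ((K.mpe _ _ (meas U) (meas U)).indicator (meas_ann r R)) ((1 + R ^ 2) / r)
    (fun z h => supp hU fun e => h (by simp [indicator, pe, e])) fun z => ?_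
  have hy := z.im_pos
  by_cases h : z ∈ Ann r R
  · have h0 : 0 < ‖(z : ℂ)‖ := hr.trans_le h.1
    have h5 : ‖ph U z‖ * z.im ≤ 1 := by
      refine (mul_le_mul (norm_le U z) (im_le z) hy.le (by positivity)).trans_eq ?_
      rw [one_div, inv_mul_cancel₀ h0.ne']
    have h6 : ‖ph U z‖ ≤ 1 / r := (norm_le U z).trans (one_div_le_one_div_of_le hr h.1)
    have h7 : z.im ≤ R := (im_le z).trans h.2
    rw [indicator_of_mem h, norm_pe, le_div_iff₀ (by positivity)]
    calc ‖ph U z‖ * ‖ph U z‖ * z.im ^ 2 * (1 + z.im ^ 2)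
        = (1 + z.im ^ 2) * ‖ph U z‖ * z.im * (‖ph U z‖ * z.im) := by ring
      _ ≤ (1 + R ^ 2) * (1 / r) * z.im * 1 := by gcongr
      _ = _ := by ring
  · rw [indicator_of_notMem h, norm_zero]
    positivity

/-- the integrand in the coordinates `y`, `v = x / y` -/
noncomputable def HH (U r R y v : ℝ) : ℝ :=
  (Icc (r / √(1 + v ^ 2)) (R / √(1 + v ^ 2))).indicator (fun y => y⁻¹) y *
    (bm (v / U) ^ 2 / (1 + v ^ 2))

theorem HH_on {r R : ℝ} (hr : 0 < r) (h : r ≤ R) (v : ℝ) :
    IntegrableOn ((Icc (r / √(1 + v ^ 2)) (R / √(1 + v ^ 2))).indicator fun y : ℝ => y⁻¹) (Ioi 0) ∧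
    ∫ y in Ioi (0 : ℝ), (Icc (r / √(1 + v ^ 2)) (R / √(1 + v ^ 2))).indicator (fun y => y⁻¹) y =
      Real.log (R / r) := by
  have hs : 0 < √(1 + v ^ 2) := by positivity
  have ha := div_pos hr hs
  have hab := div_le_div_of_nonneg_right h hs.le
  refine ⟨((integrable_indicator_iff measurableSet_Icc).2 (ContinuousOn.integrableOn_Icc
    (continuousOn_inv₀.mono fun y hy => (ha.trans_le hy.1).ne'))).integrableOn, ?_⟩
  have hsub : Icc (r / √(1 + v ^ 2)) (R / √(1 + v ^ 2)) ⊆ Ioi 0 := fun y hy => ha.trans_le hy.1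
  rw [setIntegral_indicator measurableSet_Icc, inter_eq_right.2 hsub,
    integral_Icc_eq_integral_Ioc, ← intervalIntegral.integral_of_le hab,
    integral_inv_of_pos ha (ha.trans_le hab), div_div_div_cancel_right₀ hs.ne']

theorem HH_int (U : ℝ) {r R : ℝ} (hr : 0 < r) (h : r ≤ R) :
    Integrable (Function.uncurry (HH U r R)) ((volume.restrict (Ioi (0 : ℝ))).prod volume) := by
  have hm : Measurable (Function.uncurry (HH U r R)) := by
    have h1 : MeasurableSet {p : ℝ × ℝ | p.1 ∈ Icc (r / √(1 + p.2 ^ 2)) (R / √(1 + p.2 ^ 2))} :=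
      (measurableSet_le (by fun_prop) measurable_fst).inter
        (measurableSet_le measurable_fst (by fun_prop))
    exact (measurable_fst.inv.indicator h1).mul
      ((((cont_b U).measurable.comp measurable_snd).pow_const 2).div (by fun_prop))
  refine (integrable_prod_iff' hm.aestronglyMeasurable).2
    ⟨.of_forall fun v => (HH_on hr h v).1.mul_const (bm (v / U) ^ 2 / (1 + v ^ 2)), ?_⟩
  refine ((int_a U).const_mul (Real.log (R / r))).congr (.of_forall fun v => ?_)
  simp only [Function.uncurry_apply_pair]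
  rw [← (HH_on hr h v).2, ← integral_mul_const]
  refine setIntegral_congr_fun measurableSet_Ioi fun y hy => (Real.norm_of_nonneg ?_).symm
  have hy' : 0 < y := hy
  refine mul_nonneg ?_ (by positivity)
  exact indicator_apply_nonneg fun _ => by positivity

theorem inner (K : KitS) (U r R : ℝ) {y : ℝ} (hy : 0 < y) :
    ∫ x : ℝ, (Ann r R).indicator (pe (ph U) (ph U)) (pt x y) / (y : ℂ) ^ 2 =
      ((∫ v, HH U r R y v : ℝ) : ℂ) := by
  have h1 := Measure.integral_comp_mul_left
    (fun x : ℝ => (Ann r R).indicator (pe (ph U) (ph U)) (pt x y) / (y : ℂ) ^ 2) y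
  rw [abs_of_pos (inv_pos.2 hy), eq_comm, inv_smul_eq_iff₀ hy.ne'] at h1
  rw [h1, ← integral_smul, ← integral_complex_ofReal]
  refine integral_congr_ae (.of_forall fun v => ?_)
  obtain ⟨e0, e1, e2⟩ := K.ptc (y * v) y hy
  have hs : 0 < √(1 + v ^ 2) := by positivity
  have hn : ‖((pt (y * v) y : ℍ) : ℂ)‖ = y * √(1 + v ^ 2) := by
    rw [e0, Complex.norm_add_mul_I, show (y * v) ^ 2 + y ^ 2 = y ^ 2 * (1 + v ^ 2) by ring,
      Real.sqrt_mul (sq_nonneg y), Real.sqrt_sq hy.le]
  have hi : pt (y * v) y ∈ Ann r R ↔ y ∈ Icc (r / √(1 + v ^ 2)) (R / √(1 + v ^ 2)) := by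
    rw [Ann, mem_setOf_eq, hn, mem_Icc, div_le_iff₀ hs, le_div_iff₀ hs]
  simp only [HH]
  by_cases h : pt (y * v) y ∈ Ann r R
  · rw [indicator_of_mem h, indicator_of_mem (hi.1 h), pe_ph, norm_ph, hn, e1, e2,
      mul_comm U y, mul_div_mul_left _ _ hy.ne', div_pow, mul_pow, Real.sq_sqrt (by positivity),
      real_smul, ← ofReal_pow, ← ofReal_div, ← ofReal_mul]
    congr 1
    field_simp
  · simp [indicator_of_notMem h, indicator_of_notMem (mt hi.2 h)]

theorem ann_val (K : KitS) (hU : 0 < U) {r R : ℝ} (hr : 0 < r) (h : r ≤ R) :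
    ∫ z in Ann r R, pe (ph U) (ph U) z = a1 U * Real.log (R / r) := by
  rw [← integral_indicator (meas_ann r R), (K.intg _ ((K.mpe _ _ (meas U) (meas U)).indicator
    (meas_ann r R))).2 (ann_int K hU hr R),
    setIntegral_congr_fun measurableSet_Ioi fun y hy => inner K U r R hy, integral_complex_ofReal,
    integral_integral_swap (HH_int U hr h), ← ofReal_mul, a1, ← integral_mul_const]
  congr 1
  refine integral_congr_ae (.of_forall fun v => ?_)
  simp only [HH]
  rw [integral_mul_const, (HH_on hr h v).2, mul_comm]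

end PhA

open PhA in
theorem phOf : PhOf := by
  intro K U hU
  have h0 : 0 < U := one_pos.trans_le hU
  refine ⟨meas U, le_c1 hU, c1_le U, integral_nonneg fun u => by positivity,
    integral_mono (int_a U) (int_c U) fun u => div_le_div_of_nonneg_right (sq_le _) (by positivity),
    fun z => ⟨norm_le U z, supp h0⟩, fun a d h => funext fun z => ?_,
    fun b c h => funext fun z => ?_, funext fun z => ?_, dec_int K h0, fun r R hr h =>
      ⟨(integrable_indicator_iff (meas_ann r R)).1 (ann_int K h0 hr R), ann_val K h0 hr h⟩⟩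
  · have h' : 0 < a * d - 0 * 0 := by simpa using h
    have ha : a ≠ 0 := left_ne_zero_of_mul h.ne'
    have hd : d ≠ 0 := right_ne_zero_of_mul h.ne'
    have ha' : (a : ℂ) ≠ 0 := ofReal_ne_zero.2 ha
    have hd' : (d : ℂ) ≠ 0 := ofReal_ne_zero.2 hd
    have hz := z.ne_zero
    have e := K.coe a 0 0 d z h'
    rw [K.slr _ a 0 0 d z h', ph_eq U (div_ne_zero ha hd) (Or.inl rfl) (e.trans ?_), e, ph]
    · simp only [ofReal_zero, zero_mul, mul_zero, add_zero, zero_add, sub_zero, ofReal_mul]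
      field_simp
    · rw [ofReal_one, one_mul, UpperHalfPlane.re_add_im]
      simp only [ofReal_zero, zero_mul, add_zero, zero_add, ofReal_div]
      field_simp
  · have h' : 0 < 0 * 0 - b * c := by simpa using h
    have hb : b ≠ 0 := left_ne_zero_of_mul h.ne
    have hc : c ≠ 0 := right_ne_zero_of_mul h.ne
    have hb' : (b : ℂ) ≠ 0 := ofReal_ne_zero.2 hb
    have hc' : (c : ℂ) ≠ 0 := ofReal_ne_zero.2 hc
    have hz := z.ne_zero
    have hn : normSq (z : ℂ) ≠ 0 := (normSq_pos.2 hz).ne'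
    have e := K.coe 0 b c 0 z h'
    rw [K.slr _ 0 b c 0 z h', ph_eq U (t := -b / (c * normSq (z : ℂ)))
      (div_ne_zero (neg_ne_zero.2 hb) (mul_ne_zero hc hn)) (Or.inr rfl) (e.trans ?_), e,
      Pi.neg_apply, ph]
    · simp only [ofReal_zero, zero_mul, add_zero, zero_add, zero_sub, ofReal_mul, ofReal_neg]
      field_simp
    · have e2 : ((-1 : ℝ) : ℂ) * z.re + z.im * I = -(starRingEnd ℂ) z :=
        Complex.ext (by simp) (by simp)
      have hz' : (starRingEnd ℂ) (z : ℂ) ≠ 0 := (map_ne_zero _).2 hz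
      rw [e2]
      push_cast
      rw [← Complex.mul_conj]
      field_simp
      ring
  · obtain ⟨e, e'⟩ := K.refl (ph U) z
    rw [e', ph_eq U one_ne_zero (Or.inr rfl) (z := z) (e.trans (Complex.ext (by simp) (by simp))),
      e, Pi.neg_apply, ph]
    simp [div_neg]

end Pool.Agent.MP_20b2fd_nt.H38
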