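import Pool.Agent.MP_20b2fd_nt.H38.SpecA

/-! The Fourier expansion at infinity of cusp forms of weight two. -/

set_option autoImplicit false

namespace Pool.Agent.MP_20b2fd_nt.H38

open UpperHalfPlane hiding I
open MeasureTheory Complex Finset Filter Topology
open scoped ModularForm Real Manifold ENNReal

namespace QxA

lemma mem1 (N : ℕ) : (1 : ℝ) ∈ Subgroup.strictPeriods
    (CongruenceSubgroup.Gamma0 N : Subgroup (GL (Fin 2) ℝ)) := by
  rw [CongruenceSubgroup.strictPeriods_Gamma0]
  exact AddSubgroup.mem_zmultiples 1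

lemma qpow (w : ℂ) (n : ℕ) : Function.Periodic.qParam 1 w ^ n = ee (n * w) := by
  unfold Function.Periodic.qParam ee
  rw [← Complex.exp_nat_mul]
  congr 1
  push_cast
  ring

lemma ee_neg (w : ℂ) : ee (-w) = 1 / ee w := by
  unfold ee
  rw [mul_neg, Complex.exp_neg, one_div]

lemma co_zero (N : ℕ) (f : CF N) : co f 0 = 0 :=
  CuspFormClass.qExpansion_coeff_zero f one_pos (mem1 N)

lemma co_bound (N : ℕ) [NeZero N] (f : CF N) : ∃ C : ℝ, ∀ n : ℕ, ‖co f n‖ ≤ C * n := by
  have h := CuspFormClass.qExpansion_isBigO f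
  rw [CongruenceSubgroup.strictWidthInfty_Gamma0] at h
  have h2 : (fun n => co f n) =O[atTop] fun n : ℕ => (n : ℝ) := by
    refine h.congr' (Eventually.of_forall fun n => rfl) (Eventually.of_forall fun n => ?_)
    norm_num
  obtain ⟨C, -, hC⟩ := Asymptotics.bound_of_isBigO_nat_atTop h2
  refine ⟨C, fun n => ?_⟩
  rcases Nat.eq_zero_or_pos n with rfl | hn
  · simp [co_zero]
  · have := hC (x := n) (by exact_mod_cast hn.ne')
    simpa using this

lemma co_sum (N : ℕ) (f : CF N) (z : ℍ) : HasSum (fun n : ℕ => co f n * ee (n * z)) (f z) := by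
  have : Fact (IsCusp OnePoint.infty (CongruenceSubgroup.Gamma0 N : Subgroup (GL (Fin 2) ℝ))) :=
    ⟨Subgroup.isCusp_of_mem_strictPeriods one_pos (mem1 N)⟩
  have h := ModularForm.hasSum_qExpansion f one_pos (mem1 N) z
  simpa only [qpow, co] using h

lemma co_unique (N : ℕ) (f : CF N) (b : ℕ → ℂ)
    (hb : ∀ z : ℍ, HasSum (fun n : ℕ => b n * ee (n * z)) (f z)) : co f = b := by
  funext m
  refine (ModularFormClass.qExpansion_coeff_unique (f := f) one_pos (mem1 N) (fun z => ?_) m).symm
  simpa only [qpow, smul_eq_mul] using hb z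

lemma co_int (N : ℕ) (f : CF N) (n : ℕ) (y : ℝ) (hy : 0 < y) :
    co f n = ∫ x in (0 : ℝ)..1, f (pt x y) * ee (-(n * (x + y * I))) := by
  have h := ModularFormClass.qExpansion_coeff_eq_intervalIntegral f one_pos (mem1 N) n hy
  unfold co
  rw [h]
  simp only [ofReal_one, div_one, one_mul]
  refine intervalIntegral.integral_congr fun x _ => ?_
  have hx : 0 < ((x : ℂ) + y * I).im := by simpa using hy
  simp only [qpow, ee_neg, pt, ofComplex_apply_of_im_pos hx]
  exact mul_comm _ _

lemma co_inj (N : ℕ) (f g : CF N) (h : co f = co g) : f = g := by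
  ext z
  have h1 := co_sum N f z
  rw [h] at h1
  exact h1.unique (co_sum N g z)

lemma co_add (N : ℕ) (f g : CF N) (n : ℕ) : co (⇑(f + g)) n = co f n + co g n := by
  have : co (⇑(f + g)) = fun n => co f n + co g n := by
    refine co_unique N (f + g) _ fun z => ?_
    simpa only [add_mul, CuspForm.add_apply] using (co_sum N f z).add (co_sum N g z)
  rw [this]

lemma co_smul (N : ℕ) (f : CF N) (c : ℂ) (n : ℕ) : co (⇑(c • f)) n = c * co f n := by
  have : co (⇑(c • f)) = fun n => c * co f n := by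
    refine co_unique N (c • f) _ fun z => ?_
    have h := (co_sum N f z).mul_left c
    simp only [mul_assoc]
    exact h
  rw [this]

end QxA

theorem qxOf : QxOf := fun _ N _ f =>
  ⟨QxA.co_zero N f, QxA.co_bound N f, QxA.co_sum N f, QxA.co_unique N f, QxA.co_int N f,
    QxA.co_inj N f, fun g c n => ⟨QxA.co_add N f g n, QxA.co_smul N f c n⟩⟩

end Pool.Agent.MP_20b2fd_nt.H38
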