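import Pool.Agent.MP_20b2fd_nt.H38.SpecA

/-! Regrouping of a sum over the group along the translations. -/

set_option autoImplicit false

namespace Pool.Agent.MP_20b2fd_nt.H38

open UpperHalfPlane hiding I

namespace RgA

theorem bez {v : ℤ × ℤ} (h : IsCoprime v.1 v.2) :
    v.1 * Int.gcdA v.1 v.2 + v.2 * Int.gcdB v.1 v.2 = 1 := by
  rw [← Int.gcd_eq_gcd_ab, Int.isCoprime_iff_gcd_eq_one.1 h, Nat.cast_one]

theorem bz_mem {N : ℕ} {v : ℤ × ℤ} (h : v ∈ PR N) : bz v ∈ MM N 1 :=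
  ⟨by simp only [det, bz, Nat.cast_one]; linear_combination bez h.1, h.2⟩

theorem tr_mem {N : ℕ} {g : Mt} (h : g ∈ MM N 1) (j : ℤ) : mul (1, j, 0, 1) g ∈ MM N 1 :=
  ⟨by have := h.1; simp only [det, mul] at this ⊢; linear_combination this,
    by simpa only [mul, zero_mul, one_mul, zero_add] using h.2⟩

theorem split {N : ℕ} {g : Mt} (h : g ∈ MM N 1) :
    g.2.2 ∈ PR N ∧ ∃ j : ℤ, g = mul (1, j, 0, 1) (bz g.2.2) := by
  obtain ⟨a, b, c, d⟩ := g
  have h1 : a * d - b * c = 1 := by simpa only [det, Nat.cast_one] using h.1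
  have h2 : IsCoprime c d := ⟨-b, a, by linear_combination h1⟩
  have h3 : c * Int.gcdA c d + d * Int.gcdB c d = 1 := bez (v := (c, d)) h2
  refine ⟨⟨h2, h.2⟩, a * Int.gcdA c d + b * Int.gcdB c d, ?_⟩
  simp only [mul, bz, Prod.mk.injEq]
  exact ⟨by linear_combination Int.gcdB c d * h1 - a * h3,
    by linear_combination -Int.gcdA c d * h1 - b * h3, by ring, by ring⟩

theorem re_tr (K : KitS) {N : ℕ} {g : Mt} (h : g ∈ MM N 1) (j : ℤ) (z : ℍ) :
    (ac (mul (1, j, 0, 1) g) z).re = (ac g z).re + j := by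
  rw [K.acm _ _ _ (by simp [det]) (by rw [h.1]; simp), ← coe_re, K.coez _ _ (by simp [det])]
  simp

end RgA

open RgA Classical in
theorem rgOf : RgOf := by
  refine fun K N => ⟨fun v => bz_mem, fun z u hu hs => ?_⟩
  let e : PR N → MM N 1 := fun v =>
    ⟨mul (1, -⌊(ac (bz v) z).re⌋, 0, 1) (bz v), tr_mem (bz_mem v.2) _⟩
  have inj : Function.Injective e := fun v w h => Subtype.ext (by
    simpa [e, mul, bz, Prod.ext_iff] using congrArg (fun g : MM N 1 => g.1.2.2) h)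
  have h1 : ∀ v, (if st (ac (e v) z) then u (e v) else 0) = u (bz v) := fun v => by
    rw [if_pos, hu _ (bz_mem v.2)]
    rw [st, re_tr K (bz_mem v.2), Int.cast_neg, ← sub_eq_add_neg]
    exact ⟨Int.fract_nonneg _, Int.fract_lt_one _⟩
  have h2 : ∀ g : MM N 1, g ∉ Set.range e → (if st (ac g z) then u g else 0) = 0 := fun g hg => by
    refine if_neg fun h => hg ?_
    obtain ⟨a, j, hj⟩ := split g.2
    rw [hj, st, re_tr K (bz_mem a)] at h
    refine ⟨⟨_, a⟩, Subtype.ext (Eq.trans ?_ hj.symm)⟩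
    have : ⌊(ac (bz g.1.2.2) z).re⌋ = -j := Int.floor_eq_iff.2 (by
      rw [Int.cast_neg]; constructor <;> linarith [h.1, h.2])
    simp only [e, this, neg_neg]
  refine ⟨(inj.summable_iff fun g hg => by rw [h2 g hg, norm_zero]).1 ?_, ?_⟩
  · simpa only [Function.comp_def, h1] using hs
  · rw [← inj.tsum_eq fun g hg => not_not.1 fun h => hg (h2 g h)]
    exact tsum_congr h1

end Pool.Agent.MP_20b2fd_nt.H38
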