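import Pool.Agent.MP_20b2fd_nt.H38.SpecA

/-! The Petersson norm of a cusp form in terms of its coefficients. -/

set_option autoImplicit false

namespace Pool.Agent.MP_20b2fd_nt.H38

open UpperHalfPlane hiding I
open MeasureTheory Complex Finset Filter Topology
open scoped ModularForm Real Manifold ENNReal

namespace RsA

theorem ee_add (x y : ℂ) : ee (x + y) = ee x * ee y := by
  unfold ee; rw [mul_add, Complex.exp_add]

theorem conj_ee (t : ℝ) : (starRingEnd ℂ) (ee t) = ee (-t) := by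
  unfold ee
  rw [← Complex.exp_conj]
  congr 1
  simp [Complex.conj_ofNat]

theorem norm_ee (t : ℝ) : ‖ee t‖ = 1 := by
  unfold ee
  rw [Complex.norm_exp]
  simp

theorem ee_im (t : ℝ) : ee (t * I) = (Real.exp (-2 * π * t) : ℝ) := by
  unfold ee
  rw [Complex.ofReal_exp]
  congr 1
  push_cast
  linear_combination (2 * π * t : ℂ) * Complex.I_mul_I

theorem cont_ee : Continuous ee := by
  unfold ee
  fun_prop

/-- monotone convergence in Bochner form -/
theorem mono {α : Type} [MeasurableSpace α] (μ : Measure α) (g : ℕ → α → ℝ) (G : α → ℝ)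
    (hm : ∀ n, AEStronglyMeasurable (g n) μ) (h0 : ∀ᵐ y ∂μ, ∀ n, 0 ≤ g n y)
    (hs : ∀ᵐ y ∂μ, HasSum (fun n => g n y) (G y)) (hG : Integrable G μ) :
    HasSum (fun n => ∫ y, g n y ∂μ) (∫ y, G y ∂μ) := by
  have hi : ∀ n, Integrable (g n) μ := by
    intro n
    refine hG.mono' (hm n) ?_
    filter_upwards [h0, hs] with y h1 h2
    rw [Real.norm_of_nonneg (h1 n)]
    exact le_hasSum h2 n fun j _ => h1 j
  have hn : ∀ n, ∫ y, ‖g n y‖ ∂μ = ∫ y, g n y ∂μ := by
    intro n
    refine integral_congr_ae ?_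
    filter_upwards [h0] with y h1
    exact Real.norm_of_nonneg (h1 n)
  have hsum : Summable fun n => ∫ y, ‖g n y‖ ∂μ := by
    refine summable_of_sum_le (c := ∫ y, G y ∂μ)
      (fun n => integral_nonneg fun y => norm_nonneg _) fun s => ?_
    rw [sum_congr rfl fun n _ => hn n, ← integral_finsetSum _ fun n _ => hi n]
    refine integral_mono_ae (integrable_finsetSum _ fun n _ => hi n) hG ?_
    filter_upwards [h0, hs] with y h1 h2
    exact sum_le_hasSum s (fun j _ => h1 j) h2
  have h := hasSum_integral_of_summable_integral_norm (E := ℝ) hi hsum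
  have h3 : ∫ y, G y ∂μ = ∫ y, ∑' n, g n y ∂μ := by
    refine integral_congr_ae ?_
    filter_upwards [hs] with y h2
    exact h2.tsum_eq.symm
  rw [h3]
  exact h

/-- Parseval for an absolutely convergent series -/
theorem pars (b : ℕ → ℂ) (g : ℝ → ℂ) (hg : Continuous g) (hb : Summable fun n => ‖b n‖)
    (hs : ∀ x : ℝ, HasSum (fun n : ℕ => b n * ee ((n * x : ℝ) : ℂ)) (g x))
    (hc : ∀ n : ℕ, ∫ x in Set.Ioc (0 : ℝ) 1, g x * ee (-((n * x : ℝ) : ℂ)) = b n) :
    HasSum (fun n => ‖b n‖ ^ 2) (∫ x in Set.Ioc (0 : ℝ) 1, ‖g x‖ ^ 2) := by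
  set F : ℕ → ℝ → ℂ := fun n x => b n * ee ((n * x : ℝ) : ℂ) * (starRingEnd ℂ) (g x) with hF
  have hcF : ∀ n, Continuous (F n) := by
    intro n
    have h1 : Continuous fun x : ℝ => ee ((n * x : ℝ) : ℂ) := cont_ee.comp (by fun_prop)
    exact (continuous_const.mul h1).mul (Complex.continuous_conj.comp hg)
  have hi : ∀ n, Integrable (F n) (volume.restrict (Set.Ioc (0 : ℝ) 1)) := fun n =>
    ((hcF n).integrableOn_Icc (a := 0) (b := 1)).mono_set Set.Ioc_subset_Icc_self
  have hn : ∀ n, ∫ x in Set.Ioc (0 : ℝ) 1, ‖F n x‖ =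
      ‖b n‖ * ∫ x in Set.Ioc (0 : ℝ) 1, ‖g x‖ := by
    intro n
    rw [← integral_const_mul]
    refine integral_congr_ae (Eventually.of_forall fun x => ?_)
    simp only [hF, norm_mul, norm_ee, mul_one, RCLike.norm_conj]
  have hsum : Summable fun n => ∫ x in Set.Ioc (0 : ℝ) 1, ‖F n x‖ := by
    simp_rw [hn]
    exact hb.mul_right _
  have h := hasSum_integral_of_summable_integral_norm hi hsum
  have h1 : ∀ n, ∫ x in Set.Ioc (0 : ℝ) 1, F n x = ((‖b n‖ ^ 2 : ℝ) : ℂ) := by
    intro n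
    have h2 : ∀ x, F n x = b n * (starRingEnd ℂ) (g x * ee (-((n * x : ℝ) : ℂ))) := by
      intro x
      have h3 : (-((n * x : ℝ) : ℂ)) = ((-(n * x) : ℝ) : ℂ) := by push_cast; ring
      rw [map_mul, h3, conj_ee]
      simp only [hF]
      have h4 : (-((-(n * x) : ℝ) : ℂ)) = ((n * x : ℝ) : ℂ) := by push_cast; ring
      rw [h4]
      ring
    simp_rw [h2]
    rw [integral_const_mul, integral_conj, hc, Complex.mul_conj', Complex.ofReal_pow]
  have h2 : ∀ x, ∑' n, F n x = ((‖g x‖ ^ 2 : ℝ) : ℂ) := by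
    intro x
    rw [((hs x).mul_right ((starRingEnd ℂ) (g x))).tsum_eq, Complex.mul_conj',
      Complex.ofReal_pow]
  simp_rw [h1, h2] at h
  rw [integral_complex_ofReal] at h
  exact Complex.hasSum_ofReal.mp h

theorem cont_pt (K : KitS) (y : ℝ) (hy : 0 < y) : Continuous fun x : ℝ => pt x y := by
  rw [UpperHalfPlane.isEmbedding_coe.continuous_iff]
  have : (UpperHalfPlane.coe ∘ fun x : ℝ => pt x y) = fun x : ℝ => (x : ℂ) + y * I := by
    funext x
    exact (K.ptc x y hy).1
  rw [this]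
  fun_prop

theorem line (K : KitS) (Q : QxS) (N : ℕ) [NeZero N] (f : CF N) (hf : Continuous f) (y : ℝ)
    (hy : 0 < y) :
    HasSum (fun n : ℕ => ‖co f n‖ ^ 2 * Real.exp (-4 * π * n * y))
      (∫ x in Set.Ioc (0 : ℝ) 1, ‖f (pt x y)‖ ^ 2) := by
  obtain ⟨-, ⟨C, hC⟩, hs, -, hc, -, -⟩ := Q N f
  set b : ℕ → ℂ := fun n => co f n * (Real.exp (-2 * π * (n * y)) : ℝ) with hb
  have hnb : ∀ n, ‖b n‖ = ‖co f n‖ * Real.exp (-2 * π * (n * y)) := by
    intro n
    simp only [hb]
    rw [norm_mul, Complex.norm_real, Real.norm_of_nonneg (Real.exp_pos _).le]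
  have h := pars b (fun x => f (pt x y)) (hf.comp (cont_pt K y hy)) ?_ ?_ ?_
  · convert h using 2 with n
    rw [hnb, mul_pow, ← Real.exp_nat_mul]
    congr 2
    push_cast
    ring
  · have hr : ‖Real.exp (-2 * π * y)‖ < 1 := by
      rw [Real.norm_of_nonneg (Real.exp_pos _).le, Real.exp_lt_one_iff]
      have := Real.pi_pos
      nlinarith [mul_pos this hy]
    have h1 := (summable_pow_mul_geometric_of_norm_lt_one 1 hr).mul_left C
    refine Summable.of_nonneg_of_le (fun n => norm_nonneg _) (fun n => ?_) h1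
    have h2 : (n : ℝ) * (-2 * π * y) = -2 * π * (n * y) := by ring
    rw [hnb, ← Real.exp_nat_mul, pow_one, h2, ← mul_assoc C]
    exact mul_le_mul_of_nonneg_right (hC n) (Real.exp_pos _).le
  · intro x
    convert hs (pt x y) using 2 with n
    have h3 : (n : ℂ) * ((x : ℂ) + y * I) = ((n * x : ℝ) : ℂ) + ((n * y : ℝ) : ℂ) * I := by
      push_cast; ring
    rw [(K.ptc x y hy).1, h3, ee_add, ee_im]
    simp only [hb]
    ring
  · intro n
    simp only [hb]
    rw [hc n y hy, intervalIntegral.integral_of_le zero_le_one, ← integral_mul_const]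
    refine integral_congr_ae (Eventually.of_forall fun x => ?_)
    have h3 : -((n * x : ℝ) : ℂ) = -((n : ℂ) * ((x : ℂ) + y * I)) + ((n * y : ℝ) : ℂ) * I := by
      push_cast; ring
    simp only
    rw [h3, ee_add, ee_im]
    ring

theorem pe_self (F : ℍ → ℂ) (z : ℍ) : pe F F z = ((‖F z‖ ^ 2 * z.im ^ 2 : ℝ) : ℂ) := by
  unfold pe
  rw [Complex.mul_conj']
  push_cast
  ring

theorem half (K : KitS) (T : ThS) (E : EtaS) (D : DecS) (Q : QxS) (N : ℕ) [NeZero N] (f : CF N)
    (hf : Continuous f) (hm : Measurable f) (hd : Dec f) (l : ℝ) (hl : 0 < l) :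
    (Integrable fun z => (et0 l z : ℂ) * pe f f z) ∧ ∃ R : ℝ,
      ∫ z, (et0 l z : ℂ) * pe f f z = R ∧
      HasSum (fun n : ℕ => ‖co f n‖ ^ 2 * (HL (n / l) / l)) R := by
  obtain ⟨e1, e2, e3⟩ := E.1 l hl
  obtain ⟨C, hC⟩ := D.im' f hd
  have hmu : Measurable fun z => (et0 l z : ℂ) * pe f f z :=
    (Complex.measurable_ofReal.comp e1).mul (K.mpe _ _ hm hm)
  have hi : Integrable fun z => (et0 l z : ℂ) * pe f f z := by
    refine (e3.const_mul (C ^ 2)).mono' hmu.aestronglyMeasurable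
      (Eventually.of_forall fun z => ?_)
    have hz := z.im_pos
    rw [norm_mul, pe_self, Complex.norm_real, Complex.norm_real, Real.norm_of_nonneg (e2 z),
      Real.norm_of_nonneg (by positivity)]
    have h1 : ‖f z‖ ^ 2 * z.im ^ 2 ≤ C ^ 2 := by
      rw [← mul_pow, mul_comm]
      exact pow_le_pow_left₀ (by positivity) (hC z) 2
    have h2 : (1 : ℝ) ≤ 1 + 1 / z.im ^ 3 := by
      have : 0 ≤ 1 / z.im ^ 3 := by positivity
      linarith
    calc et0 l z * (‖f z‖ ^ 2 * z.im ^ 2) ≤ et0 l z * C ^ 2 :=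
          mul_le_mul_of_nonneg_left h1 (e2 z)
      _ = C ^ 2 * (et0 l z * 1) := by ring
      _ ≤ _ := mul_le_mul_of_nonneg_left (mul_le_mul_of_nonneg_left h2 (e2 z)) (by positivity)
  refine ⟨hi, ?_⟩
  obtain ⟨k1, k2⟩ := K.intg _ hmu
  set G : ℝ → ℝ := fun y => hh (l * y) * ∫ x in Set.Ioc (0 : ℝ) 1, ‖f (pt x y)‖ ^ 2 with hG
  have hin : ∀ y ∈ Set.Ioi (0 : ℝ),
      ∫ x : ℝ, (et0 l (pt x y) : ℂ) * pe f f (pt x y) / (y : ℂ) ^ 2 = (G y : ℂ) := by
    intro y hy
    have hy' : (0 : ℝ) < y := hy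
    have hy0 : (y : ℂ) ≠ 0 := by exact_mod_cast hy'.ne'
    simp only [hG]
    rw [← integral_const_mul, ← integral_Ico_eq_integral_Ioc, ← integral_complex_ofReal,
      ← integral_indicator measurableSet_Ico]
    refine integral_congr_ae (Eventually.of_forall fun x => ?_)
    obtain ⟨-, p1, p2⟩ := K.ptc x y hy'
    simp only [Set.indicator, Set.mem_Ico, et0, st, p1, p2, pe_self]
    split_ifs with h
    · push_cast
      field_simp
    · simp
  have hGi : Integrable G (volume.restrict (Set.Ioi (0 : ℝ))) := by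
    have h1 := (k1.mp hi).integral_prod_left
    have h2 : Integrable (fun y => (G y : ℂ)) (volume.restrict (Set.Ioi (0 : ℝ))) := by
      refine h1.congr ?_
      filter_upwards [ae_restrict_mem measurableSet_Ioi] with y hy
      exact hin y hy
    simpa using h2.re
  refine ⟨∫ y in Set.Ioi (0 : ℝ), G y, ?_, ?_⟩
  · rw [k2 hi, setIntegral_congr_fun measurableSet_Ioi hin]
    exact integral_complex_ofReal
  · have h := mono (volume.restrict (Set.Ioi (0 : ℝ)))
      (fun n y => hh (l * y) * (‖co f n‖ ^ 2 * Real.exp (-4 * π * n * y))) G ?_ ?_ ?_ hGi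
    · convert h using 2 with n
      have h1 := integral_comp_mul_left_Ioi
        (fun t : ℝ => Real.exp (-4 * π * (n / l) * t) * hh t) 0 hl
      rw [mul_zero] at h1
      have h2 : HL (n / l) / l = ∫ y in Set.Ioi (0 : ℝ),
          Real.exp (-4 * π * (n / l) * (l * y)) * hh (l * y) := by
        rw [h1, smul_eq_mul, div_eq_inv_mul]
        rfl
      rw [h2, ← integral_const_mul]
      refine integral_congr_ae (Eventually.of_forall fun y => ?_)
      have h3 : -4 * π * (n / l) * (l * y) = -4 * π * n * y := by field_simp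
      simp only
      rw [h3]
      ring
    · intro n
      have h1 : Measurable fun y : ℝ => hh (l * y) := T.1.comp (by fun_prop)
      exact (h1.mul (by fun_prop)).aestronglyMeasurable
    · filter_upwards [ae_restrict_mem measurableSet_Ioi] with y hy n
      exact mul_nonneg (T.2.1 _ (mul_pos hl hy)).1 (by positivity)
    · filter_upwards [ae_restrict_mem measurableSet_Ioi] with y hy
      exact (line K Q N f hf y hy).mul_left _

end RsA

theorem rsOf : RsOf := by
  intro K T E D Q Cu N f g hN hg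
  have : NeZero N := ⟨hN.ne_zero⟩
  have hN0 : (0 : ℝ) < N := by exact_mod_cast hN.pos
  obtain ⟨-, f1, f2, f3, -⟩ := (Cu N hN).1 f
  obtain ⟨-, g1, g2, g3, -⟩ := (Cu N hN).1 g
  obtain ⟨i1, R1, a1, s1⟩ := RsA.half K T E D Q N f f1 f2 f3 1 one_pos
  obtain ⟨i2, R2, a2, s2⟩ := RsA.half K T E D Q N g g1 g2 g3 N hN0
  have hW : ∀ z, pe f f (ac (WN N) z) = pe g g z := by
    intro z
    rw [hg, K.pez]
    have := hN.pos
    simp only [det, WN]
    omega
  have h := ((E.2 N hN).2.2.2.2 (pe f f) i1 (by simpa only [hW] using i2)).2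
  have h1 : ip N f f = ((R1 + R2 : ℝ) : ℂ) := by
    unfold ip
    rw [h, a1]
    simp only [hW]
    rw [a2]
    push_cast
    ring
  rw [h1, Complex.ofReal_im, Complex.ofReal_re]
  refine ⟨rfl, ?_⟩
  simpa only [div_one] using s1.add s2

end Pool.Agent.MP_20b2fd_nt.H38
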