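import Pool.Agent.MP_20b2fd_nt.H38.SpecA

/-! The theta partition of unity. -/

set_option autoImplicit false

namespace Pool.Agent.MP_20b2fd_nt.H38

open UpperHalfPlane hiding I
open MeasureTheory Complex Finset Filter Topology
open scoped Real

namespace ThA

lemma hs_congr {ι : Type} {f g : ι → ℝ} {a : ℝ} (h : HasSum f a) (e : ∀ i, g i = f i) :
    HasSum g a := by
  rw [funext e]
  exact h

lemma sumZ {T : ℝ} (hT : 0 < T) : Summable fun n : ℤ => Real.exp (-π * T * (n : ℝ) ^ 2) := by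
  have h := summable_pow_mul_jacobiTheta₂_term_bound 0 hT 0
  refine h.congr fun n => ?_
  simp only [pow_zero, one_mul, mul_zero, zero_mul, sub_zero]
  congr 1
  ring

noncomputable def en (u : ℝ) (n : ℕ) : ℝ := Real.exp (-π * ((n : ℝ) + 1) ^ 2 * u / 2)

lemma en_summable {u : ℝ} (hu : 0 < u) : Summable (en u) := by
  have h := (sumZ (T := u / 2) (by positivity)).comp_injective
    (i := fun n : ℕ => (n : ℤ) + 1) (fun a b hab => by simpa using hab)
  refine h.congr fun n => ?_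
  simp only [Function.comp_apply, en]
  congr 1
  push_cast
  ring

lemma en_anti {u : ℝ} (hu : 0 < u) : Antitone (en u) := by
  refine antitone_nat_of_succ_le fun n => ?_
  unfold en
  apply Real.exp_le_exp.2
  have hn : (0 : ℝ) ≤ n := Nat.cast_nonneg n
  have h1 : 0 ≤ π * u * (2 * (n : ℝ) + 3) := by have := Real.pi_pos; positivity
  push_cast
  nlinarith

lemma alt_summable {u : ℝ} (hu : 0 < u) : Summable fun n : ℕ => (-1 : ℝ) ^ n * en u n := by
  refine Summable.of_norm ((en_summable hu).congr fun n => ?_)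
  simp [en]

lemma hh_eq (y : ℝ) : hh y = 2 * ∑' n : ℕ, (-1 : ℝ) ^ n * en (1 / y) n := by
  rw [hh, ← tsum_mul_left]
  refine tsum_congr fun n => ?_
  unfold en
  rw [mul_assoc]
  congr 3
  ring

lemma bounds (y : ℝ) (hy : 0 < y) : 0 ≤ hh y ∧ hh y ≤ 2 * Real.exp (-π / (2 * y)) ∧
    2 * (Real.exp (-π / (2 * y)) - Real.exp (-(2 * π) / y)) ≤ hh y := by
  have hu : 0 < 1 / y := by positivity
  have ht := (alt_summable hu).hasSum.tendsto_sum_nat
  have h0 := (en_anti hu).alternating_series_le_tendsto ht 0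
  have h1 := (en_anti hu).alternating_series_le_tendsto ht 1
  have h2 := (en_anti hu).tendsto_le_alternating_series ht 0
  have e0 : en (1 / y) 0 = Real.exp (-π / (2 * y)) := by
    unfold en
    congr 1
    push_cast
    ring
  have e1 : en (1 / y) 1 = Real.exp (-(2 * π) / y) := by
    unfold en
    congr 1
    push_cast
    ring
  simp only [mul_zero, range_zero, sum_empty, zero_add, mul_one, sum_range_succ, pow_zero, one_mul,
    pow_one, e0, e1] at h0 h1 h2
  rw [hh_eq]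
  refine ⟨by linarith, by linarith, by linarith⟩

lemma inner {u : ℝ} (hu : 0 < u) :
    HasSum (fun g : ℕ => en u g - 2 * en u (2 * g + 1)) (∑' n : ℕ, (-1 : ℝ) ^ n * en u n) := by
  have hs := en_summable hu
  have he : Summable fun g : ℕ => en u (2 * g) :=
    hs.comp_injective (i := fun g : ℕ => 2 * g) (fun a b hab => by simpa using hab)
  have ho : Summable fun g : ℕ => en u (2 * g + 1) :=
    hs.comp_injective (i := fun g : ℕ => 2 * g + 1) (fun a b hab => by simpa using hab)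
  have h1 := he.hasSum.even_add_odd (f := en u) ho.hasSum
  have h2 : HasSum (fun n : ℕ => (-1 : ℝ) ^ n * en u n)
      ((∑' g : ℕ, en u (2 * g)) + -∑' g : ℕ, en u (2 * g + 1)) := by
    refine HasSum.even_add_odd ?_ ?_
    · simpa using he.hasSum
    · simpa [pow_succ] using ho.hasSum.neg
  rw [h2.tsum_eq]
  have h3 := h1.sub (ho.hasSum.mul_left 2)
  rwa [show ∀ A B : ℝ, A + B - 2 * B = A + -B by intro A B; ring] at h3

/-- the quadratic form -/
noncomputable def Q (x y : ℝ) (w : ℤ × ℤ) : ℝ := (((w.2 : ℝ) + w.1 * x) ^ 2 + w.1 ^ 2 * y ^ 2) / y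

lemma Q_summable (x y t : ℝ) (hy : 0 < y) (ht : 0 < t) :
    Summable fun w : ℤ × ℤ => Real.exp (-π * t * Q x y w) := by
  set M : ℝ := 2 + (2 * x ^ 2 + 1) / y ^ 2 with hM
  have hM0 : 0 < M := by positivity
  have hδ : 0 < t / (y * M) := by positivity
  have h := Summable.mul_of_nonneg (sumZ hδ) (sumZ hδ) (fun _ => (Real.exp_pos _).le)
    (fun _ => (Real.exp_pos _).le)
  refine Summable.of_nonneg_of_le (fun _ => (Real.exp_pos _).le) (fun w => ?_) h
  rw [← Real.exp_add]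
  apply Real.exp_le_exp.2
  have e : -π * t * Q x y w = -(π * (t / (y * M))) *
      (M * (((w.2 : ℝ) + w.1 * x) ^ 2 + w.1 ^ 2 * y ^ 2)) := by
    unfold Q
    field_simp
  rw [e]
  generalize (w.1 : ℝ) = c
  generalize (w.2 : ℝ) = d
  have key : c ^ 2 + d ^ 2 ≤ M * ((d + c * x) ^ 2 + c ^ 2 * y ^ 2) := by
    have e1 : (2 * x ^ 2 + 1) / y ^ 2 * (c ^ 2 * y ^ 2) = (2 * x ^ 2 + 1) * c ^ 2 := by
      field_simp
    have e2 : 0 ≤ (2 * x ^ 2 + 1) / y ^ 2 * (d + c * x) ^ 2 := by positivity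
    have e3 : 0 ≤ c ^ 2 * y ^ 2 := by positivity
    rw [hM]
    nlinarith [sq_nonneg (d + 2 * c * x)]
  have hp : 0 ≤ π * (t / (y * M)) := by have := Real.pi_pos; positivity
  nlinarith [mul_le_mul_of_nonneg_left key hp]

lemma poisson {a : ℝ} (ha : 0 < a) (s : ℝ) :
    ∑' n : ℤ, cexp (-π * a * n ^ 2 - 2 * π * I * s * n) =
      ((1 / √a * ∑' d : ℤ, Real.exp (-π / a * ((d : ℝ) + s) ^ 2) : ℝ) : ℂ) := by
  have h := Complex.tsum_exp_neg_quadratic (a := a) (by simpa using ha) (-I * s)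
  have e1 : ∀ n : ℤ, cexp (-π * a * n ^ 2 - 2 * π * I * s * n) =
      cexp (-π * a * n ^ 2 + 2 * π * (-I * s) * n) := fun n => by
    congr 1
    ring
  have e2 : (a : ℂ) ^ (1 / 2 : ℂ) = ((√a : ℝ) : ℂ) := by
    rw [Real.sqrt_eq_rpow, ofReal_cpow ha.le]
    norm_num
  rw [tsum_congr e1, h, e2]
  push_cast
  congr 1
  refine tsum_congr fun n => ?_
  congr 2
  have : I * (-I * (s : ℂ)) = s := by
    rw [← mul_assoc, mul_neg, I_mul_I]
    ring
  rw [this]

noncomputable def G (x y t : ℝ) (w : ℤ × ℤ) : ℂ :=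
  cexp (-π * (y * t : ℝ) * w.1 ^ 2) * cexp (-π * (y / t : ℝ) * w.2 ^ 2 - 2 * π * I * (w.1 * x : ℝ) * w.2)

lemma G_summable (x y t : ℝ) (hy : 0 < y) (ht : 0 < t) : Summable (G x y t) := by
  have h := Summable.mul_of_nonneg (sumZ (T := y * t) (by positivity))
    (sumZ (T := y / t) (by positivity)) (fun _ => (Real.exp_pos _).le)
    (fun _ => (Real.exp_pos _).le)
  refine Summable.of_norm (h.congr fun w => ?_)
  unfold G
  rw [norm_mul, Complex.norm_exp, Complex.norm_exp]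
  congr 2
  · rw [show (-π * (y * t : ℝ) * w.1 ^ 2 : ℂ) = ((-π * (y * t) * (w.1 : ℝ) ^ 2 : ℝ) : ℂ) by
      push_cast; ring, ofReal_re]
  · rw [show (-π * (y / t : ℝ) * w.2 ^ 2 - 2 * π * I * (w.1 * x : ℝ) * w.2 : ℂ) =
      ((-π * (y / t) * (w.2 : ℝ) ^ 2 : ℝ) : ℂ) + ((-2 * π * (w.1 * x) * w.2 : ℝ) : ℂ) * I by
      push_cast; ring, add_re, ofReal_re, mul_I_re, ofReal_im]
    ring

lemma G_tsum (x y t : ℝ) (hy : 0 < y) (ht : 0 < t) :
    ∑' w, G x y t w = ((1 / √(y / t) * ∑' w : ℤ × ℤ, Real.exp (-π * t * Q x y w) : ℝ) : ℂ) := by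
  have hQ := Q_summable x y t hy ht
  rw [(G_summable x y t hy ht).tsum_prod, hQ.tsum_prod, ← tsum_mul_left, ofReal_tsum]
  refine tsum_congr fun c => ?_
  unfold G
  simp only
  rw [tsum_mul_left, poisson (by positivity)]
  rw [show (-π * (y * t : ℝ) * c ^ 2 : ℂ) = ((-π * (y * t) * (c : ℝ) ^ 2 : ℝ) : ℂ) by
      push_cast; ring, ← ofReal_exp, ← ofReal_mul]
  congr 1
  rw [mul_left_comm, ← tsum_mul_left]
  congr 1
  refine tsum_congr fun d => ?_
  rw [← Real.exp_add]
  congr 1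
  unfold Q
  field_simp
  ring

lemma G_swap (x y : ℝ) : ∑' w, G x y 2 w = ∑' w, G x y (1 / 2) w := by
  rw [← (Equiv.prodComm ℤ ℤ).tsum_eq]
  refine tsum_congr fun w => ?_
  unfold G
  simp only [Equiv.prodComm_apply, Prod.fst_swap, Prod.snd_swap]
  rw [← Complex.exp_add, ← Complex.exp_add]
  congr 1
  push_cast
  ring

lemma theta (x y : ℝ) (hy : 0 < y) :
    ∑' w : ℤ × ℤ, Real.exp (-π * (1 / 2) * Q x y w) =
      2 * ∑' w : ℤ × ℤ, Real.exp (-π * 2 * Q x y w) := by
  have h := G_swap x y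
  rw [G_tsum x y 2 hy two_pos, G_tsum x y (1 / 2) hy one_half_pos, ofReal_inj] at h
  have e : √(y / (1 / 2)) = 2 * √(y / 2) := by
    rw [show y / (1 / 2) = 2 ^ 2 * (y / 2) by ring, Real.sqrt_mul (by norm_num),
      Real.sqrt_sq (by norm_num)]
  rw [e] at h
  have hs : 0 < √(y / 2) := Real.sqrt_pos.2 (by positivity)
  field_simp at h ⊢
  linarith

/-- multiples of primitive vectors -/
def io (p : {v : ℤ × ℤ // IsCoprime v.1 v.2} × ℕ) : ℤ × ℤ :=
  (p.1.1.1 * ((p.2 + 1 : ℕ) : ℤ), p.1.1.2 * ((p.2 + 1 : ℕ) : ℤ))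

lemma io_gcd (p : {v : ℤ × ℤ // IsCoprime v.1 v.2} × ℕ) : (io p).1.gcd (io p).2 = p.2 + 1 := by
  unfold io
  simp only
  rw [Int.gcd_mul_right, Int.isCoprime_iff_gcd_eq_one.1 p.1.2, one_mul, Int.natAbs_natCast]

lemma io_inj : Function.Injective io := by
  intro p q h
  have h1 : p.2 = q.2 := by
    have := io_gcd p
    rw [h, io_gcd] at this
    omega
  unfold io at h
  rw [h1] at h
  have hne : ((q.2 + 1 : ℕ) : ℤ) ≠ 0 := by positivity
  simp only [Prod.mk.injEq] at h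
  exact Prod.ext (Subtype.ext (Prod.ext (mul_right_cancel₀ hne h.1) (mul_right_cancel₀ hne h.2))) h1

lemma io_range (w : ℤ × ℤ) (hw : w ∉ Set.range io) : w = 0 := by
  by_contra h0
  have hg : 0 < Int.gcd w.1 w.2 := by
    rw [Int.gcd_pos_iff]
    by_contra hc
    push Not at hc
    exact h0 (Prod.ext hc.1 hc.2)
  obtain ⟨g, m, n, hg0, hmn, h1, h2⟩ := Int.exists_gcd_one' hg
  refine hw ⟨(⟨(m, n), Int.isCoprime_iff_gcd_eq_one.2 hmn⟩, g - 1), ?_⟩
  unfold io
  simp only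
  rw [Nat.sub_add_cancel hg0]
  exact Prod.ext h1.symm h2.symm

lemma io_ne (p : {v : ℤ × ℤ // IsCoprime v.1 v.2} × ℕ) : io p ≠ 0 := by
  intro h
  have := io_gcd p
  rw [h] at this
  simp at this

lemma Q_io (x y : ℝ) (p : {v : ℤ × ℤ // IsCoprime v.1 v.2} × ℕ) :
    Q x y (io p) = ((p.2 : ℝ) + 1) ^ 2 * Q x y p.1.1 := by
  unfold Q io
  push_cast
  ring

lemma Q_pos (x y : ℝ) (hy : 0 < y) (v : ℤ × ℤ) (hv : IsCoprime v.1 v.2) : 0 < Q x y v := by
  unfold Q
  apply div_pos _ hy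
  by_cases h : v.1 = 0
  · have h2 : v.2 ≠ 0 := by
      intro h2
      rw [h, h2] at hv
      exact not_isCoprime_zero_zero hv
    have h3 : (v.2 : ℝ) ≠ 0 := by exact_mod_cast h2
    rw [h]
    simp only [Int.cast_zero, zero_mul, add_zero, ne_eq, OfNat.ofNat_ne_zero, not_false_eq_true,
      zero_pow]
    positivity
  · have h3 : (v.1 : ℝ) ≠ 0 := by exact_mod_cast h
    positivity

lemma main (x y : ℝ) (hy : 0 < y) :
    HasSum (fun v : {v : ℤ × ℤ // IsCoprime v.1 v.2} =>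
      ∑' n : ℕ, (-1 : ℝ) ^ n * en (Q x y v.1) n) 1 := by
  classical
  have h1 := (Q_summable x y (1 / 2) hy one_half_pos).hasSum.sub
    ((Q_summable x y 2 hy two_pos).hasSum.mul_left 2)
  rw [theta x y hy, sub_self] at h1
  have h2 := hasSum_ite_sub_hasSum h1 0
  have e : (0 : ℝ) - (Real.exp (-π * (1 / 2) * Q x y 0) - 2 * Real.exp (-π * 2 * Q x y 0)) = 1 := by
    simp [Q]
    norm_num
  rw [e] at h2
  have h3 := (io_inj.hasSum_iff (fun w hw => by rw [if_pos (io_range w hw)])).2 h2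
  refine h3.prod_fiberwise fun v => ?_
  refine hs_congr (inner (Q_pos x y hy v.1 v.2)) fun g => ?_
  simp only [Function.comp_apply]
  rw [if_neg (io_ne _), Q_io]
  unfold en
  congr 2
  · ring
  · congr 1
    push_cast
    ring

end ThA

theorem th : ThS := by
  refine ⟨?_, ThA.bounds, fun z => ?_⟩
  · unfold hh
    exact Measurable.tsum fun g => by fun_prop
  · have h := (ThA.main z.re z.im z.im_pos).mul_left 2
    rw [mul_one] at h
    refine ThA.hs_congr h fun v => ?_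
    rw [ThA.hh_eq]
    congr 2
    funext n
    congr 2
    rw [one_div_div, ThA.Q, Complex.sq_norm, Complex.normSq_apply]
    simp only [add_re, mul_re, intCast_re, intCast_im, coe_re, coe_im, add_im, mul_im]
    ring

end Pool.Agent.MP_20b2fd_nt.H38
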