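import Pool.Agent.MP_20b2fd_nt.H38.SpecA

/-! Unfolding. -/

set_option autoImplicit false

namespace Pool.Agent.MP_20b2fd_nt.H38

open UpperHalfPlane hiding I
open MeasureTheory Complex
open scoped ENNReal

namespace UnfA

/-- the adjugate on the group -/
def ad (N : ℕ) (g : MM N 1) : MM N 1 :=
  ⟨adj g, by have := g.2.1; simp only [det, adj] at this ⊢; linarith, (dvd_neg).2 g.2.2⟩

lemma ad_ad (N : ℕ) : Function.Involutive (ad N) := fun g => Subtype.ext (by simp [ad, adj])

lemma det_one {N : ℕ} (g : MM N 1) : det g = 1 := by simpa using g.2.1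

lemma ac_ad (K : KitS) {N : ℕ} (g : MM N 1) (z : ℍ) : ac (ad N g) (ac g z) = z := by
  have h1 := det_one g
  have h2 : mul (ad N g) g = (1, 0, 0, 1) := by
    simp only [det] at h1
    simp only [ad, adj, mul, Prod.mk.injEq]
    refine ⟨?_, ?_, ?_, ?_⟩ <;> linarith
  rw [← K.acm _ _ _ (by rw [det_one]; exact one_ne_zero) (by rw [h1]; exact one_ne_zero), h2,
    (K.one fun _ => 0).2, id]

end UnfA

open UnfA in
theorem unfOf : UnfOf := by
  intro K hE N F Φ hN hF hΦ hI hu hs
  obtain ⟨e1, e2, -, e3, -⟩ := hE.2 N hN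
  have e4 : ∀ w, HasSum (fun g : MM N 1 => eta N (ac (ad N g) w)) 2 := fun w =>
    ((ad_ad N).toPerm.hasSum_iff (f := fun g : MM N 1 => eta N (ac g w))).2 (e3 w)
  have mu := K.mpe F Φ hF hΦ
  have ma : ∀ g : Mt, Measurable (ac g) := fun g => (K.mp (gl g)).measurable
  set u := pe F Φ with hu'
  let f : MM N 1 → ℍ → ℂ := fun g z => (eta N z : ℂ) * u (ac g z)
  let h : MM N 1 → ℍ → ℂ := fun g w => (eta N (ac (ad N g) w) : ℂ) * u w
  have mf : ∀ g, Measurable (f g) := fun g => (measurable_ofReal.comp e1).mul (mu.comp (ma g))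
  have mh : ∀ g, Measurable (h g) := fun g => (measurable_ofReal.comp (e1.comp (ma _))).mul mu
  have fh : ∀ g z, f g z = h g (gl g • z) := fun g z => by
    change _ = (eta N (ac (ad N g) (ac g z)) : ℂ) * u (ac g z)
    rw [ac_ad K]
  have h1 : ∑' g, ∫⁻ w, ‖h g w‖ₑ ≠ ∞ := by
    rw [← lintegral_tsum fun g => (mh g).enorm.aemeasurable]
    have : ∀ w, ∑' g, ‖h g w‖ₑ = ENNReal.ofReal 2 * ‖u w‖ₑ := fun w => by
      rw [← (e4 w).tsum_eq, ENNReal.ofReal_tsum_of_nonneg (fun _ => e2 _) (e4 w).summable,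
        ← ENNReal.tsum_mul_right]
      refine tsum_congr fun g => ?_
      rw [enorm_mul, ← Real.enorm_eq_ofReal (e2 _), ← ofReal_norm, norm_real,
        ofReal_norm]
    simp only [this]
    rw [lintegral_const_mul _ mu.enorm]
    exact ENNReal.mul_ne_top ENNReal.ofReal_ne_top hu.2.ne
  have h2 : ∑' g, ∫⁻ z, ‖f g z‖ₑ ≠ ∞ := by
    have : ∀ g, ∫⁻ z, ‖f g z‖ₑ = ∫⁻ w, ‖h g w‖ₑ := fun g => by
      simp only [fh]
      exact (K.mp (gl g)).lintegral_comp (mh g).enorm
    simpa only [this] using h1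
  have h3 : ∀ z, (eta N z : ℂ) * pe F (fun z => ∑' g : MM N 1, sl Φ g z) z = ∑' g, f g z := by
    intro z
    rw [pe, conj_tsum, ← tsum_mul_left, ← tsum_mul_right, ← tsum_mul_left]
    refine tsum_congr fun g => ?_
    have := K.pez F Φ g z (by rw [det_one]; exact one_pos)
    rw [hI g g.2] at this
    exact congrArg _ this
  have m3 : Measurable fun z => (eta N z : ℂ) * pe F (fun z => ∑' g : MM N 1, sl Φ g z) z :=
    (measurable_ofReal.comp e1).mul (K.mpe _ _ hF
      (K.mts _ _ (fun g => K.msr Φ _ hΦ) fun z => (hs z).of_norm))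
  refine ⟨⟨m3.aestronglyMeasurable, ?_⟩, ?_⟩
  · rw [hasFiniteIntegral_iff_enorm]
    simp only [h3]
    rw [← lintegral_tsum fun g => (mf g).enorm.aemeasurable] at h2
    exact (lintegral_mono fun z => enorm_tsum_le_tsum_enorm).trans_lt h2.lt_top
  · rw [ip]
    simp only [h3]
    rw [integral_tsum (fun g => (mf g).aestronglyMeasurable) h2]
    simp only [fh, fun g : MM N 1 => (K.ints (gl g) (h g)).1]
    rw [← integral_tsum (fun g => (mh g).aestronglyMeasurable) h1, ← integral_const_mul]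
    refine integral_congr_ae (Filter.Eventually.of_forall fun w => ?_)
    change ∑' g, (eta N (ac (ad N g) w) : ℂ) * u w = 2 * u w
    rw [tsum_mul_right, ← ofReal_tsum, (e4 w).tsum_eq]
    rfl

end Pool.Agent.MP_20b2fd_nt.H38
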