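import Pool.Agent.MP_20b2fd_nt.H38.SpecA

/-! The Hecke translates of the tube around the imaginary axis. -/

set_option autoImplicit false

namespace Pool.Agent.MP_20b2fd_nt.H38

open UpperHalfPlane hiding I
open Complex Finset

namespace XaA

theorem det_mul (g h : Mt) : det (mul g h) = det g * det h := by
  simp only [det, mul]
  ring

theorem det_adj (g : Mt) : det (adj g) = det g := by
  simp only [det, adj]
  ring

theorem mul_adj (g : Mt) {h : Mt} (e : det h = 1) :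
    mul (mul g h) (adj h) = g ∧ mul (mul g (adj h)) h = g := by
  obtain ⟨a, b, c, d⟩ := g
  simp only [det] at e
  simp only [mul, adj, Prod.mk.injEq]
  exact ⟨⟨by linear_combination a * e, by linear_combination b * e, by linear_combination c * e,
    by linear_combination d * e⟩, by linear_combination a * e, by linear_combination b * e,
    by linear_combination c * e, by linear_combination d * e⟩

/-- the matrices that move `z` into the sector -/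
def Sec (m : ℕ) (U : ℝ) (z : ℍ) : Set Mt :=
  {g | det g = m ∧ |(ac g z).re| < 2 * U * (ac g z).im}

theorem im_le (a b : ℤ) (z : ℍ) : |(a : ℝ)| * z.im ≤ ‖(a : ℂ) * z + b‖ := by
  have := abs_im_le_norm ((a : ℂ) * z + b)
  simpa [abs_mul, abs_of_pos z.im_pos] using this

theorem half_le {a b : ℤ} {z : ℍ} (h : a ≠ 0 ∨ b ≠ 0) (hz : 1 / 2 ≤ z.im) :
    1 / 2 ≤ ‖(a : ℂ) * z + b‖ := by
  by_cases ha : a = 0
  · have : (1 : ℝ) ≤ |(b : ℝ)| := by exact_mod_cast Int.one_le_abs (h.resolve_left fun k => k ha)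
    rw [ha, Int.cast_zero, zero_mul, zero_add, norm_intCast]
    linarith
  · have : (1 : ℝ) ≤ |(a : ℝ)| := by exact_mod_cast Int.one_le_abs ha
    have := im_le a b z
    nlinarith

theorem ent {a b : ℤ} {z : ℍ} {K : ℝ} (h1 : |z.re| ≤ 1 / 2) (h2 : 1 / 2 ≤ z.im)
    (h : ‖(a : ℂ) * z + b‖ ≤ K * z.im) : |(a : ℝ)| ≤ K ∧ |(b : ℝ)| ≤ 2 * K * z.im := by
  have e1 : |(a : ℝ)| ≤ K := le_of_mul_le_mul_right ((im_le a b z).trans h) z.im_pos
  have e2 : |a * z.re + b| ≤ K * z.im := by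
    simpa using (abs_re_le_norm ((a : ℂ) * z + b)).trans h
  have e3 : |(b : ℝ)| ≤ |a * z.re + b| + |a * z.re| := by
    simpa using abs_sub (a * z.re + b) (a * z.re)
  have e4 : |a * z.re| ≤ K * z.im := by
    rw [abs_mul]
    exact mul_le_mul e1 (h1.trans h2) (abs_nonneg _) ((abs_nonneg _).trans e1)
  exact ⟨e1, by linarith⟩

theorem ne0 {g : Mt} (h : 0 < det g) : (g.1 ≠ 0 ∨ g.2.1 ≠ 0) ∧ (g.2.2.1 ≠ 0 ∨ g.2.2.2 ≠ 0) ∧
    (g.1 ≠ 0 ∨ g.2.2.1 ≠ 0) := by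
  refine ⟨?_, ?_, ?_⟩ <;>
  · by_contra k
    push Not at k
    simp [det, k.1, k.2] at h

theorem mem_Icc_of {a : ℤ} {x : ℝ} (h : |(a : ℝ)| ≤ x) : a ∈ Icc (-(⌊x⌋₊ : ℤ)) ⌊x⌋₊ := by
  rw [mem_Icc, ← abs_le, Int.natCast_floor_eq_floor ((abs_nonneg _).trans h), Int.le_floor]
  exact_mod_cast h

theorem card_Icc_le {x : ℝ} (h : 0 ≤ x) : ((Icc (-(⌊x⌋₊ : ℤ)) ⌊x⌋₊).card : ℝ) ≤ 2 * x + 1 := by
  rw [Int.card_Icc, show (⌊x⌋₊ + 1 - -(⌊x⌋₊ : ℤ)).toNat = 2 * ⌊x⌋₊ + 1 by omega]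
  push_cast
  linarith [Nat.floor_le h]

variable (hK : KitS) {m : ℕ} {U : ℝ} (hm : 1 ≤ m) (hU : 1 ≤ U)
include hK

theorem den {g : Mt} (h : 0 < det g) (z : ℍ) : (g.2.2.1 : ℂ) * z + g.2.2.2 ≠ 0 := by
  simpa using hK.den g.2.2.1 g.2.2.2 z (by exact_mod_cast (ne0 h).2.1)

theorem sl_le {F : ℍ → ℂ} (hF : ∀ z : ℍ, ‖F z‖ ≤ 1 / ‖(z : ℂ)‖) {g : Mt} (h : 0 < det g) (z : ℍ) :
    ‖sl F g z‖ ≤ 1 / z.im := by
  have h1 : (0 : ℝ) < det g := by exact_mod_cast h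
  have h2 := norm_pos_iff.2 (den hK h z)
  have h3 : (ac g z).im ≤ ‖((ac g z : ℍ) : ℂ)‖ := (le_abs_self _).trans (abs_im_le_norm _)
  have h4 := (hF _).trans (one_div_le_one_div_of_le (ac g z).im_pos h3)
  rw [hK.slz F g z h, norm_mul, norm_div, norm_pow, norm_intCast, abs_of_pos h1]
  refine (mul_le_mul_of_nonneg_left h4 (by positivity)).trans_eq ?_
  rw [hK.imz g z h]
  have := z.im_pos
  field_simp

include hm hU

theorem prod_le {g : Mt} {z : ℍ} (h : g ∈ Sec m U z) :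
    ‖(g.1 : ℂ) * z + g.2.1‖ * ‖(g.2.2.1 : ℂ) * z + g.2.2.2‖ ≤ 3 * U * m * z.im := by
  have hd : 0 < det g := by rw [h.1]; exact_mod_cast hm
  have h2 := norm_pos_iff.2 (den hK hd z)
  have h3 : ‖((ac g z : ℍ) : ℂ)‖ ≤ 3 * U * (ac g z).im := by
    have e1 := norm_le_abs_re_add_abs_im ((ac g z : ℍ) : ℂ)
    have e2 := (ac g z).im_pos
    rw [coe_re, coe_im, abs_of_pos e2] at e1
    nlinarith [h.2]
  rw [hK.coez g z hd, hK.imz g z hd, norm_div, h.1, div_le_iff₀ h2] at h3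
  refine (mul_le_mul_of_nonneg_right h3 h2.le).trans_eq ?_
  push_cast
  field_simp

theorem cnt_fd : ∃ C : ℝ, ∀ z : ℍ, |z.re| ≤ 1 / 2 → 1 / 2 ≤ z.im →
    (Sec m U z).Finite ∧ ((Sec m U z).ncard : ℝ) ≤ C * z.im := by
  obtain ⟨K, hk⟩ : ∃ K : ℝ, K = 6 * U * m := ⟨_, rfl⟩
  have K0 : 0 ≤ K := by rw [hk]; positivity
  refine ⟨(2 * K + 1) * ((2 * K + 1) * (4 * K + 2)), fun z h1 h2 => ?_⟩
  have y0 := z.im_pos
  let T := Icc (-(⌊K⌋₊ : ℤ)) ⌊K⌋₊ ×ˢ Icc (-(⌊K⌋₊ : ℤ)) ⌊K⌋₊ ×ˢ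
    Icc (-(⌊2 * K * z.im⌋₊ : ℤ)) ⌊2 * K * z.im⌋₊
  let φ : Mt → ℤ × ℤ × ℤ := fun g => (g.1, g.2.2.1, if g.1 = 0 then g.2.2.2 else g.2.1)
  have hd : ∀ g ∈ Sec m U z, 0 < det g := fun g h => by rw [h.1]; exact_mod_cast hm
  have h3 : Set.MapsTo φ (Sec m U z) T := fun g h => by
    have e1 := prod_le hK hm hU h
    have e2 := half_le (ne0 (hd g h)).1 h2
    have e3 := half_le (ne0 (hd g h)).2.1 h2
    have e4 := ent (K := K) (a := g.1) (b := g.2.1) h1 h2 (by rw [hk]; nlinarith)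
    have e5 := ent (K := K) (a := g.2.2.1) (b := g.2.2.2) h1 h2 (by rw [hk]; nlinarith)
    refine mem_coe.2 (mem_product.2 ⟨mem_Icc_of e4.1, mem_product.2 ⟨mem_Icc_of e5.1, ?_⟩⟩)
    exact mem_Icc_of (by
      simp only [φ]
      split_ifs
      exacts [e5.2, e4.2])
  have h4 : Set.InjOn φ (Sec m U z) := by
    rintro ⟨a, b, c, d⟩ h ⟨a', b', c', d'⟩ h' e
    simp only [φ, Prod.mk.injEq] at e
    obtain ⟨rfl, rfl, e⟩ := e
    have k : a * d - b * c = a * d' - b' * c := h.1.trans h'.1.symm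
    by_cases ha : a = 0
    · rw [if_pos ha, if_pos ha] at e
      have hc : c ≠ 0 := (ne0 (hd _ h)).2.2.resolve_left fun k => k ha
      rw [e, mul_right_cancel₀ hc (show b * c = b' * c by rw [e] at k; linarith)]
    · rw [if_neg ha, if_neg ha] at e
      rw [e, mul_left_cancel₀ ha (show a * d = a * d' by rw [e] at k; linarith)]
  refine ⟨Set.Finite.of_finite_image (T.finite_toSet.subset h3.image_subset) h4, ?_⟩
  have h5 := Set.ncard_le_ncard_of_injOn φ h3 h4 T.finite_toSet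
  rw [Set.ncard_coe_finset, card_product, card_product] at h5
  have h6 := card_Icc_le K0
  have h7 := (card_Icc_le (x := 2 * K * z.im) (by positivity)).trans
    (show _ ≤ (4 * K + 2) * z.im by linarith)
  refine (Nat.cast_le.2 h5).trans ?_
  rw [Nat.cast_mul, Nat.cast_mul, mul_assoc (2 * K + 1), mul_assoc (2 * K + 1)]
  gcongr

theorem cnt : ∃ C : ℝ, ∀ z : ℍ, (Sec m U z).Finite ∧ ∃ c d : ℤ, (c ≠ 0 ∨ d ≠ 0) ∧
    (Sec m U z).ncard * (1 / z.im) * ‖(c : ℂ) * z + d‖ ^ 2 ≤ C := by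
  obtain ⟨C, hC⟩ := cnt_fd hK hm hU
  refine ⟨C, fun z => ?_⟩
  obtain ⟨γ, hγ⟩ := ModularGroup.exists_smul_mem_fd z
  obtain ⟨h, h1, h2⟩ : ∃ h : Mt, det h = 1 ∧ ac h z = γ • z := by
    have e : det (γ 0 0, γ 0 1, γ 1 0, γ 1 1) = 1 := (Matrix.det_fin_two _).symm.trans γ.2
    refine ⟨_, e, UpperHalfPlane.ext ?_⟩
    rw [hK.coez _ z (one_pos.trans_eq e.symm), coe_specialLinearGroup_apply]
    simp
  rw [← h2] at hγ
  have h0 : 0 < det h := h1 ▸ one_pos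
  obtain ⟨f1, f2⟩ := hC _ hγ.2 (by
    nlinarith [ModularGroup.three_le_four_mul_im_sq_of_mem_fd hγ, (ac h z).im_pos])
  have h3 : Set.MapsTo (mul · (adj h)) (Sec m U z) (Sec m U (ac h z)) := fun g hg => by
    have e : det (mul g (adj h)) = m := by rw [det_mul, det_adj, h1, mul_one, hg.1]
    refine ⟨e, ?_⟩
    rw [← hK.acm _ h z (by rw [e]; omega) h0.ne', (mul_adj g h1).2]
    exact hg.2
  have h4 : Set.InjOn (mul · (adj h)) (Sec m U z) := fun g _ g' _ e =>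
    (mul_adj g h1).2.symm.trans ((congrArg (mul · h) e).trans (mul_adj g' h1).2)
  refine ⟨Set.Finite.of_finite_image (f1.subset h3.image_subset) h4, _, _, (ne0 h0).2.1, ?_⟩
  have h5 := (Nat.cast_le.2 (Set.ncard_le_ncard_of_injOn _ h3 h4 f1)).trans f2
  have h6 := norm_pos_iff.2 (den hK h0 z)
  have h7 := z.im_pos
  rw [hK.imz h z h0, h1, Int.cast_one, one_mul] at h5
  refine (mul_le_mul_of_nonneg_right (mul_le_mul_of_nonneg_right h5 (by positivity))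
    (by positivity)).trans_eq ?_
  field_simp

omit hU in
theorem sl_AA (N : ℕ) {h : Mt} (h0 : 0 < det h) (z : ℍ) :
    sl (AA N U m) h z = ∑' g : MM N m, sl (ph U) (mul g h) z := by
  rw [hK.slz _ h z h0, AA, ← tsum_mul_left]
  refine tsum_congr fun g => ?_
  rw [← hK.slm _ g h (by rw [g.2.1]; omega) h0.ne', hK.slz _ h z h0]

omit hK hm hU

theorem tsum_le {P S : Set Mt} (hS : S.Finite) {f : Mt → ℝ} {b : ℝ} (hb : 0 ≤ b)
    (h1 : ∀ g ∈ P, f g ≠ 0 → g ∈ S) (h2 : ∀ g ∈ P, f g ≤ b) : ∑' g : P, f g ≤ S.ncard * b := by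
  rw [_root_.tsum_subtype, tsum_eq_sum (s := hS.toFinset) fun g hg => by
    by_contra k
    exact hg (hS.mem_toFinset.2 (h1 g (Set.mem_of_indicator_ne_zero k) fun e =>
      k (Set.indicator_apply_eq_zero.2 fun _ => e))), Set.ncard_eq_toFinset_card S hS,
    ← nsmul_eq_mul]
  exact sum_le_card_nsmul _ _ _ fun g _ => Set.indicator_apply_le' (h2 g) fun _ => hb

theorem mul_mem {N : ℕ} {g h : Mt} (hg : g ∈ MM N m) (hh : h ∈ MM N 1) : mul g h ∈ MM N m :=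
  ⟨by rw [det_mul, hg.1, hh.1, Nat.cast_one, mul_one],
    (hg.2.mul_right _).add (hh.2.mul_left _)⟩

/-- conjugation by the Fricke matrix -/
def tw (N : ℕ) (g : Mt) : Mt := (g.2.2.2, -(g.2.2.1 / N), -(g.2.1 * N), g.1)

theorem tw_spec {N : ℕ} (hN : N ≠ 0) {g : Mt} (hg : g ∈ MM N m) :
    tw N g ∈ MM N m ∧ tw N (tw N g) = g ∧ mul g (WN N) = mul (WN N) (tw N g) := by
  obtain ⟨a, b, c, d⟩ := g
  obtain ⟨h1, c, rfl : _ = _ * c⟩ := hg
  have h0 : (N : ℤ) ≠ 0 := by exact_mod_cast hN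
  have e1 : N * c / N = c := Int.mul_ediv_cancel_left _ h0
  have e2 : -(b * N) / N = -b := by rw [← neg_mul, Int.mul_ediv_cancel _ h0]
  simp only [det] at h1
  simp only [tw, MM, det, mul, WN, Set.mem_ofPred_eq, e1, e2, Prod.mk.injEq]
  refine ⟨⟨by linarith, (Dvd.intro_left _ rfl).neg_right⟩, ⟨trivial, ?_, ?_, trivial⟩, ?_, ?_, ?_, ?_⟩
  all_goals ring

end XaA

open XaA in
theorem xaOf : XaOf := by
  intro hK hP N m U hN hm hU
  obtain ⟨p1, -, -, -, -, p2, -, p3, -⟩ := hP U hU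
  obtain ⟨C, hC⟩ := cnt hK hm hU
  have hd : ∀ g ∈ MM N m, 0 < det g := fun g h => by rw [h.1]; exact_mod_cast hm
  have h1 : ∀ z, ∀ g ∈ MM N m, sl (ph U) g z ≠ 0 → g ∈ Sec m U z := fun z g hg h =>
    ⟨hg.1, (p2 _).2 fun e => h (by rw [hK.slz _ g z (hd g hg), e, mul_zero])⟩
  have h2 : ∀ z, {g | g ∈ MM N m ∧ sl (ph U) g z ≠ 0}.Finite := fun z =>
    (hC z).1.subset fun g hg => h1 z g hg.1 hg.2
  have h3 : ∀ z, Summable fun g : MM N m => ‖sl (ph U) g z‖ := fun z =>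
    summable_of_hasFiniteSupport (((h2 z).preimage Subtype.val_injective.injOn).subset
      fun g hg => ⟨g.2, norm_ne_zero_iff.1 hg⟩)
  have h4 : ∀ F : ℍ → ℂ, (∀ z, ‖F z‖ ≤ ∑' g : MM N m, ‖sl (ph U) g z‖) → Gro F := fun F hF =>
    ⟨C, fun z => (hC z).2.imp fun c => Exists.imp fun d h => ⟨h.1, le_trans
      (mul_le_mul_of_nonneg_right ((hF z).trans (tsum_le (f := fun g => ‖sl (ph U) g z‖) (hC z).1
        (one_div_pos.2 z.im_pos).le (fun g hg k => h1 z g hg (norm_ne_zero_iff.1 k))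
        fun g hg => sl_le hK (fun z => (p2 z).1) (hd g hg) z)) (sq_nonneg _)) h.2⟩⟩
  refine ⟨h2, h4 _ fun z => ?_, h4 _ fun z => norm_tsum_le_tsum_norm (h3 z),
    hK.mts _ _ (fun g => hK.msr _ _ p1) fun z => (h3 z).of_norm, fun h hh => funext fun z => ?_,
    funext fun z => ?_⟩
  · rw [norm_real, Real.norm_of_nonneg (tsum_nonneg fun _ => norm_nonneg _)]
  · have e : det h = 1 := hh.1
    have ha : adj h ∈ MM N 1 := ⟨(det_adj h).trans e, hh.2.neg_right⟩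
    rw [sl_AA hK hm N (e ▸ one_pos)]
    exact Equiv.tsum_eq (⟨fun g => ⟨_, mul_mem g.2 hh⟩, fun g => ⟨_, mul_mem g.2 ha⟩,
      fun g => Subtype.ext (mul_adj _ e).1, fun g => Subtype.ext (mul_adj _ e).2⟩ :
        MM N m ≃ MM N m) fun g => sl (ph U) g z
  · have e : det (WN N) = N := by simp [det, WN]
    have e0 : 0 < det (WN N) := by rw [e]; exact_mod_cast hN.pos
    have e1 : sl (ph U) (WN N) = -ph U := by
      have := p3 (-1) N (by simpa using hN.pos)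
      simpa [sl, gl, WN] using this
    have t := fun g : MM N m => tw_spec hN.ne_zero g.2
    rw [sl_AA hK hm N e0, Pi.neg_apply, AA, ← tsum_neg, ← Equiv.tsum_eq (⟨fun g => ⟨_, (t g).1⟩,
      fun g => ⟨_, (t g).1⟩, fun g => Subtype.ext (t g).2.1, fun g => Subtype.ext (t g).2.1⟩ :
        MM N m ≃ MM N m) fun g => -sl (ph U) g z]
    refine tsum_congr fun g => ?_
    have e2 := hd _ (t g).1
    rw [(t g).2.2, ← hK.slm _ _ _ e0.ne' e2.ne', e1, hK.slz _ _ z e2]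
    exact (mul_neg _ _).trans (congrArg Neg.neg (hK.slz _ _ z e2).symm)

end Pool.Agent.MP_20b2fd_nt.H38
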