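import Pool.Agent.MP_20b2fd_nt.H38.SpecA

/-! Decay of combinations of the Hecke translates of the tube. -/

set_option autoImplicit false

namespace Pool.Agent.MP_20b2fd_nt.H38

open UpperHalfPlane hiding I
open MeasureTheory Complex Finset Filter Topology
open scoped ModularForm Real Manifold ENNReal

namespace XbA

theorem sl_sum (K : KitS) {ι : Type} (J : Finset ι) (x : ι → ℝ) (F : ι → ℍ → ℂ) {g : Mt}
    (hg : 0 < det g) (z : ℍ) :
    sl (fun z => ∑ i ∈ J, x i * F i z) g z = ∑ i ∈ J, x i * sl (F i) g z := by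
  rw [K.slz _ _ _ hg, mul_sum]
  exact sum_congr rfl fun i _ => by rw [K.slz _ _ _ hg]; ring

theorem im_le (a b : ℤ) (z : ℍ) : |(a : ℝ)| * z.im ≤ ‖(a : ℂ) * z + b‖ := by
  refine le_trans (le_of_eq ?_) (abs_im_le_norm _)
  simp [abs_mul, abs_of_pos z.im_pos]

/-- high in the cusp only triangular matrices contribute -/
theorem tri (K : KitS) (hP : PhS) {U : ℝ} (hU : 1 ≤ U) {g : Mt} (hg : 0 < det g) {z : ℍ}
    (hz : (1 + 2 * U) * det g < z.im) (h : sl (ph U) g z ≠ 0) : g.1 = 0 ∨ g.2.2.1 = 0 := by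
  by_contra hn
  push Not at hn
  rw [K.slz _ _ _ hg] at h
  have h1 := ((hP U hU).2.2.2.2.2.1 _).2 (right_ne_zero_of_mul h)
  have h2 : ‖((ac g z : ℍ) : ℂ)‖ ≤ (1 + 2 * U) * (ac g z).im := by
    refine (norm_le_abs_re_add_abs_im _).trans ?_
    rw [coe_re, coe_im, abs_of_pos (ac g z).im_pos]
    linarith
  have a1 : (1 : ℝ) ≤ |(g.1 : ℝ)| := by exact_mod_cast Int.one_le_abs hn.1
  have c1 : (1 : ℝ) ≤ |(g.2.2.1 : ℝ)| := by exact_mod_cast Int.one_le_abs hn.2
  have y0 := z.im_pos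
  have u1 := (le_mul_of_one_le_left y0.le a1).trans (im_le g.1 g.2.1 z)
  have v1 := (le_mul_of_one_le_left y0.le c1).trans (im_le g.2.2.1 g.2.2.2 z)
  have v0 := y0.trans_le v1
  rw [K.coez _ _ hg, K.imz _ _ hg, norm_div, ← mul_div_assoc, div_le_div_iff₀ v0 (by positivity),
    sq, ← mul_assoc] at h2
  have h3 := le_of_mul_le_mul_right h2 v0
  nlinarith [mul_le_mul u1 v1 y0.le (norm_nonneg _), mul_lt_mul_of_pos_right hz y0]

theorem sl_tri (K : KitS) (hP : PhS) {U : ℝ} (hU : 1 ≤ U) {a d : ℤ} (ha : 0 < a) (hd : 0 < d)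
    (b : ℤ) (z : ℍ) : sl (ph U) (a, b, 0, d) z = a * tr U b (ac (a, 0, 0, 1) z) := by
  have e1 : sl (ph U) (1, 0, 0, d) = ph U := by
    simp only [sl, gl, Int.cast_one, Int.cast_zero]
    exact (hP U hU).2.2.2.2.2.2.1 1 d (by rw [one_mul]; exact_mod_cast hd)
  have e2 : ((a, b, 0, d) : Mt) = mul (1, 0, 0, d) (mul (1, b, 0, 1) (a, 0, 0, 1)) := by simp [mul]
  rw [e2, ← K.slm _ _ _ (by simpa [det] using hd.ne') (by simpa [det, mul] using ha.ne'), e1,
    ← K.slm _ _ _ (by simp [det]) (by simpa [det] using ha.ne'),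
    K.slz _ _ _ (by simpa [det] using ha)]
  simp [det, tr]

/-- the triangular matrices -/
def par (N m : ℕ) (p : (m.divisors × ℤˣ) × ℤ) : MM N m :=
  ⟨smu p.1.2 (p.1.1.1, p.2, 0, (m / p.1.1.1 : ℕ)), by
    have h := Nat.mul_div_cancel' (Nat.dvd_of_mem_divisors p.1.1.2)
    simp only [det, smu, mul_zero, sub_zero]
    rw [mul_mul_mul_comm, Int.units_coe_mul_self, one_mul, ← Nat.cast_mul, h], by simp [smu]⟩

theorem par_inj (N m : ℕ) : Function.Injective (par N m) := by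
  rintro ⟨⟨⟨a, ha⟩, u⟩, b⟩ ⟨⟨⟨a', ha'⟩, u'⟩, b'⟩ h
  have h1 : (u : ℤ) * a = u' * a' := congrArg (fun g => g.1.1) h
  have h2 : (u : ℤ) * b = u' * b' := congrArg (fun g => g.1.2.1) h
  have h3 := congrArg Int.natAbs h1
  simp only [Int.natAbs_mul, Int.units_natAbs, Int.natAbs_natCast, one_mul] at h3
  subst h3
  obtain rfl : u = u' := Units.ext (mul_right_cancel₀
    (by exact_mod_cast (Nat.pos_of_mem_divisors ha).ne') h1)
  obtain rfl : b = b' := mul_left_cancel₀ u.ne_zero h2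
  rfl

theorem par_surj {N m : ℕ} (hm : 1 ≤ m) (g : MM N m) (h : g.1.2.2.1 = 0) :
    g ∈ Set.range (par N m) := by
  obtain ⟨⟨a, b, c, d⟩, h1, h2⟩ := g
  obtain rfl : c = 0 := h
  have h3 : a * d = m := by simpa [det] using h1
  have h4 : a.natAbs * d.natAbs = m := by rw [← Int.natAbs_mul, h3, Int.natAbs_natCast]
  have a0 : a ≠ 0 := by
    rintro rfl
    omega
  obtain ⟨u, hu⟩ : ∃ u : ℤˣ, a = u * a.natAbs := by
    rcases Int.natAbs_eq a with e | e
    · exact ⟨1, by simpa using e⟩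
    · exact ⟨-1, by simpa using e⟩
  have h5 : m / a.natAbs = d.natAbs := by
    rw [← h4, Nat.mul_div_cancel_left _ (Int.natAbs_pos.2 a0)]
  have h6 : (u : ℤ) * d.natAbs = d := by
    apply mul_left_cancel₀ a0
    rw [h3, ← h4]
    conv_lhs => rw [hu]
    rw [mul_mul_mul_comm, Int.units_coe_mul_self, one_mul, Nat.cast_mul]
  refine ⟨((⟨a.natAbs, Nat.mem_divisors.2 ⟨⟨_, h4.symm⟩, by omega⟩⟩, u), u * b), Subtype.ext ?_⟩
  simp only [par, smu, h5, h6, ← hu, ← mul_assoc, Int.units_coe_mul_self, one_mul, mul_zero]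

theorem high (K : KitS) (hP : PhS) (hA : XaS) {N m : ℕ} {U : ℝ} (hN : N.Prime) (hU : 1 ≤ U)
    (hm : 1 ≤ m) (hd : ¬ N ∣ m) {z : ℍ} (hz : (1 + 2 * U) * m < z.im) :
    AA N U m z = ∑ a ∈ m.divisors, 2 * a * ∑' b : ℤ, tr U b (ac (a, 0, 0, 1) z) := by
  have s1 : Summable fun g : MM N m => sl (ph U) g z := summable_of_hasFiniteSupport
    ((((hA N m U hN hm hU).1 z).preimage Subtype.val_injective.injOn).subset
      fun g hg => ⟨g.2, hg⟩)
  have s2 : Function.support (fun g : MM N m => sl (ph U) g z) ⊆ Set.range (par N m) := by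
    intro g hg
    have e : det g.1 = m := g.2.1
    refine par_surj hm g ((tri K hP hU (by rw [e]; exact_mod_cast hm)
      (by rw [e]; exact_mod_cast hz) hg).resolve_left fun h0 => hd ?_)
    rw [det, h0, zero_mul, zero_sub] at e
    exact Int.natCast_dvd_natCast.1 (e ▸ (g.2.2.mul_left _).neg_right)
  have s3 : Summable fun c => sl (ph U) (par N m c) z := s1.comp_injective (par_inj N m)
  rw [AA, ← (par_inj N m).tsum_eq s2, s3.tsum_prod, tsum_fintype,
    Fintype.sum_prod_type, ← sum_coe_sort m.divisors]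
  refine sum_congr rfl fun a _ => ?_
  have a0 : (0 : ℤ) < a.1 := by exact_mod_cast Nat.pos_of_mem_divisors a.2
  have d0 : (0 : ℤ) < (m / a.1 : ℕ) := by
    exact_mod_cast Nat.div_pos (Nat.divisor_le a.2) (Nat.pos_of_mem_divisors a.2)
  have e : ∀ (u : ℤˣ) (b : ℤ), sl (ph U) (par N m ((a, u), b)) z =
      a * tr U b (ac (a, 0, 0, 1) z) := fun u b => by
    have := (K.sca (ph U) u (a.1, b, 0, (m / a.1 : ℕ)) u.ne_zero
      (by simpa only [det, mul_zero, sub_zero] using mul_pos a0 d0)).1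
    exact (congrFun this z).trans ((sl_tri K hP hU a0 d0 b z).trans (by rw [Int.cast_natCast]))
  simp only [e, tsum_mul_left, sum_const, card_univ, Fintype.card_units_int,
    nsmul_eq_mul, Nat.cast_ofNat, mul_assoc]

theorem one (K : KitS) (hD : DecS) (hP : PhS) (hA : XaS) (hS : XsS) {N m : ℕ} {U : ℝ}
    (hN : N.Prime) (hU : 1 ≤ U) (hm : 1 ≤ m) (hd : ¬ N ∣ m) :
    ∃ C : ℝ, ∀ z : ℍ, z.im ^ 2 * ‖AA N U m z + sig m * (2 * (I * c1 U))‖ ≤ C := by
  obtain ⟨C, hC⟩ := hD.im _ (hA N m U hN hm hU).2.2.1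
  obtain ⟨D, hD⟩ := (hS U hU).1 1 one_pos
  have m1 : (1 : ℝ) ≤ m := by exact_mod_cast hm
  refine ⟨max (|C| * (((1 + 2 * U) * m) ^ 2 + 1) + ((1 + 2 * U) * m) ^ 2 *
    ‖sig m * (2 * (I * c1 U))‖) (∑ a ∈ m.divisors, 2 * a * |D|), fun z => ?_⟩
  have y0 := z.im_pos
  rcases le_or_gt z.im ((1 + 2 * U) * m) with h | h
  · refine le_max_of_le_left ((mul_le_mul_of_nonneg_left (norm_add_le _ _) (sq_nonneg _)).trans ?_)
    have h2 := pow_le_pow_left₀ y0.le h 2
    rw [mul_add]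
    refine add_le_add ?_ (mul_le_mul_of_nonneg_right h2 (norm_nonneg _))
    calc _ ≤ z.im ^ 2 * (|C| * (1 + 1 / z.im ^ 2)) := mul_le_mul_of_nonneg_left
          ((hC z).trans (mul_le_mul_of_nonneg_right (le_abs_self C) (by positivity))) (sq_nonneg _)
      _ = |C| * (z.im ^ 2 + 1) := by field_simp
      _ ≤ _ := by gcongr
  · refine le_max_of_le_right ?_
    have y1 : 1 ≤ z.im := by nlinarith
    rw [high K hP hA hN hU hm hd h, sig, ofReal_sum, sum_mul, ← sum_add_distrib]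
    refine (mul_le_mul_of_nonneg_left (norm_sum_le _ _) (sq_nonneg _)).trans ?_
    rw [mul_sum]
    refine sum_le_sum fun a ha => ?_
    have a1 : (1 : ℝ) ≤ a := by exact_mod_cast Nat.pos_of_mem_divisors ha
    have e : (ac (a, 0, 0, 1) z).im = a * z.im := by
      rw [K.imz _ _ (by simpa [det] using Nat.pos_of_mem_divisors ha)]
      simp [det]
    have h3 : z.im ≤ (ac (a, 0, 0, 1) z).im := e ▸ le_mul_of_one_le_left y0.le a1
    have h4 := (hD _ (y1.trans h3)).trans (div_le_div₀ (abs_nonneg D) (le_abs_self D)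
      (pow_pos y0 2) (pow_le_pow_left₀ y0.le h3 2))
    rw [show ∀ S : ℂ, 2 * a * S + ((a : ℝ) : ℂ) * (2 * (I * c1 U)) = 2 * a * (S + I * c1 U) from
      fun S => by push_cast; ring, norm_mul, norm_mul, norm_natCast, Complex.norm_two,
      mul_left_comm]
    exact mul_le_mul_of_nonneg_left ((le_div_iff₀' (pow_pos y0 2)).1 h4) (by positivity)

end XbA

open XbA

theorem xbOf : XbOf := by
  intro K hD hP hA hS N U ι J m x hN hU hm h0
  choose! C hC using fun i (hi : i ∈ J) => one K hD hP hA hS hN hU (hm i hi).1 (hm i hi).2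
  have key : ∀ z : ℍ, z.im ^ 2 * ‖∑ i ∈ J, x i * AA N U (m i) z‖ ≤ ∑ i ∈ J, |x i| * C i := by
    intro z
    have e : ∑ i ∈ J, x i * AA N U (m i) z =
        ∑ i ∈ J, x i * (AA N U (m i) z + sig (m i) * (2 * (I * c1 U))) := by
      simp only [mul_add, sum_add_distrib, ← mul_assoc, ← sum_mul, ← ofReal_mul, ← ofReal_sum, h0,
        ofReal_zero, zero_mul, add_zero]
    rw [e]
    refine (mul_le_mul_of_nonneg_left (norm_sum_le _ _) (sq_nonneg _)).trans ?_
    rw [mul_sum]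
    refine sum_le_sum fun i hi => ?_
    rw [norm_mul, norm_real, Real.norm_eq_abs, mul_left_comm]
    exact mul_le_mul_of_nonneg_left (hC i hi z) (abs_nonneg _)
  refine hD.of N _ _ hN (fun g hg => funext fun z => ?_) fun z => ⟨key z, ?_⟩
  · rw [sl_sum K J x _ (by rw [hg.1]; norm_num)]
    exact sum_congr rfl fun i hi => by rw [(hA N _ U hN (hm i hi).1 hU).2.2.2.2.1 g hg]
  · rw [sl_sum K J x _ (by simpa [det, WN] using hN.pos), ← norm_neg, ← sum_neg_distrib]
    refine le_trans (le_of_eq ?_) (key z)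
    congr 2
    exact sum_congr rfl fun i hi => by
      rw [(hA N _ U hN (hm i hi).1 hU).2.2.2.2.2, Pi.neg_apply, mul_neg, neg_neg]

end Pool.Agent.MP_20b2fd_nt.H38
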