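import Pool.Agent.MP_20b2fd_nt.H38.SpecA

/-! The pairing of a cusp form with the tube. -/

set_option autoImplicit false

namespace Pool.Agent.MP_20b2fd_nt.H38

open UpperHalfPlane hiding I
open MeasureTheory Complex Set Filter Topology
open scoped Real

namespace XcA

variable {φ : ℂ → ℂ} {C : ℝ}

theorem nsq (t : ℝ) : ‖(t : ℂ) + I‖ ^ 2 = t ^ 2 + 1 := by
  rw [Complex.sq_norm, normSq_apply]
  simp [sq]

theorem seg (hφ : DifferentiableOn ℂ φ {w | 0 < w.im}) (u : ℝ) {b : ℝ} (hb : 0 < b) :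
    ∃ D : ℝ → ℂ, D 0 = 0 ∧ ∀ y ∈ Ioc 0 b,
      HasDerivAt D (φ (y * (u + I)) * (u + I) - φ (y * ((0 : ℝ) + I)) * ((0 : ℝ) + I)) y ∧
      ∀ K : ℝ, (∀ t : ℝ, |t| ≤ |u| → ‖φ (y * (t + I))‖ ≤ K) → ‖D y‖ ≤ K * y * |u| := by
  have sb : ∀ T : ℝ, Metric.ball (T * I) T ⊆ {w : ℂ | 0 < w.im} := fun T w hw => by
    simpa using (abs_lt.1 ((abs_im_le_norm _).trans_lt (mem_ball_iff_norm.1 hw))).1
  obtain ⟨F, hF⟩ := (hφ.mono (sb (b * (u ^ 2 + 1)))).isExactOn_ball
  have m : ∀ y ∈ Ioc 0 b, ∀ t : ℝ, |t| ≤ |u| → HasDerivAt F (φ (y * (t + I))) (y * (t + I)) :=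
    fun y hy t ht => hF _ (mem_ball_iff_norm.2 (lt_of_pow_lt_pow_left₀ 2 (by positivity) (by
      have h1 : y * (t ^ 2 + 1) ≤ b * (u ^ 2 + 1) :=
        mul_le_mul hy.2 (by linarith [sq_le_sq.2 ht]) (by positivity) hb.le
      have h2 : 0 < b * (u ^ 2 + 1) := by positivity
      generalize b * (u ^ 2 + 1) = T at h1 h2
      rw [Complex.sq_norm, normSq_apply]
      simp
      nlinarith [mul_le_mul_of_nonneg_left h1 hy.1.le, mul_pos hy.1 h2])))
  have d : ∀ y ∈ Ioc 0 b, ∀ t : ℝ, |t| ≤ |u| →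
      HasDerivAt (fun y : ℝ => F (y * (t + I))) (φ (y * (t + I)) * (t + I)) y := fun y hy t ht => by
    simpa using ((m y hy t ht).comp (y : ℂ) ((hasDerivAt_id (y : ℂ)).mul_const _)).comp_ofReal
  refine ⟨fun y => F (y * (u + I)) - F (y * ((0 : ℝ) + I)), by simp, fun y hy =>
    ⟨(d y hy u le_rfl).sub (d y hy 0 (by simp)), fun K hK => ?_⟩⟩
  have a : ∀ t ∈ uIcc 0 u, |t| ≤ |u| := fun t ht => by simpa using abs_sub_left_of_mem_uIcc ht
  have := (convex_uIcc 0 u).norm_image_sub_le_of_norm_hasDerivWithin_le (𝕜 := ℝ)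
    (f := fun t : ℝ => F (y * (t + I))) (f' := fun t : ℝ => φ (y * (t + I)) * y) (C := K * y)
    (fun t ht => HasDerivAt.hasDerivWithinAt (by
      simpa using ((m y hy t (a t ht)).comp (t : ℂ)
        (((hasDerivAt_id (t : ℂ)).add_const I).const_mul (y : ℂ))).comp_ofReal))
    (fun t ht => by
      rw [norm_mul, norm_real, Real.norm_of_nonneg hy.1.le]
      exact mul_le_mul_of_nonneg_right (hK t (a t ht)) hy.1.le) left_mem_uIcc right_mem_uIcc
  simpa using this

variable (mφ : Measurable φ) (h1 : ∀ y t : ℝ, 0 < y → y ^ 2 * ‖φ (y * (t + I))‖ ≤ C)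
  (h2 : ∀ y t : ℝ, 0 < y → ‖φ (y * (t + I))‖ ≤ C * (t ^ 2 + 1))

include h1 h2 in
theorem bd {y : ℝ} (hy : 0 < y) (t : ℝ) :
    ‖φ (y * (t + I))‖ ≤ (1 + y ^ 2)⁻¹ * (C * (t ^ 2 + 2)) := by
  rw [le_inv_mul_iff₀ (by positivity)]
  linarith [h1 y t hy, h2 y t hy]

include mφ h1 h2 in
theorem intR (t : ℝ) : IntegrableOn (fun y : ℝ => φ (y * (t + I))) (Ioi 0) :=
  (integrable_inv_one_add_sq.mul_const _).integrableOn.mono'
    (mφ.comp (measurable_ofReal.mul_const _)).aestronglyMeasurable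
    ((ae_restrict_mem measurableSet_Ioi).mono fun _ hy => bd h1 h2 hy t)

include mφ h1 h2 in
theorem ray (hφ : DifferentiableOn ℂ φ {w | 0 < w.im}) (u : ℝ) :
    (∫ y in Ioi (0 : ℝ), φ (y * (u + I))) * (u + I) =
      (∫ y in Ioi (0 : ℝ), φ (y * ((0 : ℝ) + I))) * ((0 : ℝ) + I) := by
  have i1 := (intR mφ h1 h2 u).mul_const (u + I)
  have i0 := (intR mφ h1 h2 0).mul_const ((0 : ℝ) + I)
  have i : IntegrableOn _ (Ioi (0 : ℝ)) := i1.sub i0
  have C0 : 0 ≤ C := le_trans (by positivity) (h1 1 0 one_pos)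
  rw [← sub_eq_zero, ← integral_mul_const, ← integral_mul_const, ← integral_sub i1 i0]
  refine tendsto_nhds_unique (intervalIntegral_tendsto_integral_Ioi 0 i tendsto_id)
    (squeeze_zero_norm' ((eventually_gt_atTop 0).mono fun b hb => ?_)
      (tendsto_id.const_div_atTop (C * |u|)))
  obtain ⟨D, D0, hD⟩ := seg hφ u hb
  have c0 : ContinuousWithinAt D (Icc 0 b) 0 := by
    rw [ContinuousWithinAt, D0]
    refine squeeze_zero_norm' (a := fun y => C * (u ^ 2 + 1) * y * |u|)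
      (eventually_nhdsWithin_of_forall fun y hy => ?_) (tendsto_nhdsWithin_of_tendsto_nhds
        (Continuous.tendsto' (by fun_prop) _ _ (by simp)))
    rcases hy.1.eq_or_lt with rfl | h
    · simp [D0]
    · exact (hD y ⟨h, hy.2⟩).2 _ fun t ht => (h2 y t h).trans
        (mul_le_mul_of_nonneg_left (by linarith [sq_le_sq.2 ht]) C0)
  have e := intervalIntegral.integral_eq_sub_of_hasDerivAt_of_le hb.le
    (fun y hy => hy.1.eq_or_lt.elim (· ▸ c0) fun h =>
      (hD y ⟨h, hy.2⟩).1.continuousAt.continuousWithinAt)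
    (fun y hy => (hD y ⟨hy.1, hy.2.le⟩).1)
    ((intervalIntegrable_iff_integrableOn_Ioc_of_le hb.le).2 (i.mono_set Ioc_subset_Ioi_self))
  refine (le_of_eq (congrArg norm (e.trans (by rw [D0, sub_zero])))).trans
    (((hD b ⟨hb, le_rfl⟩).2 (C / b ^ 2) fun t _ => (le_div_iff₀' (by positivity)).2
      (h1 b t hb)).trans (le_of_eq ?_))
  simp only [id]
  field_simp

include mφ h1 h2 in
theorem fub (hφ : DifferentiableOn ℂ φ {w | 0 < w.im}) {U : ℝ} (hU : U ≠ 0) :
    ∫ y in Ioi (0 : ℝ), ∫ t : ℝ, φ (y * (t + I)) * ((bm (t / U) : ℝ) / (t - I)) =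
      c1 U * I * ∫ y in Ioi (0 : ℝ), φ (y * ((0 : ℝ) + I)) := by
  have cb : Continuous fun t : ℝ => bm (t / U) := bm.continuous.comp (continuous_id.div_const U)
  have cs : HasCompactSupport fun u => bm (u / U) := by
    simpa only [smul_eq_mul, div_eq_inv_mul] using bm.hasCompactSupport.comp_smul (inv_ne_zero hU)
  have i2 : Integrable fun t : ℝ => C * (t ^ 2 + 2) * bm (t / U) :=
    Continuous.integrable_of_hasCompactSupport (by fun_prop) cs.mul_left
  have ms : Measurable (Function.uncurry fun y t : ℝ =>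
      φ (y * (t + I)) * ((bm (t / U) : ℝ) / (t - I))) :=
    Measurable.mul (by fun_prop) ((measurable_ofReal.comp (cb.measurable.comp measurable_snd)).div
      (by fun_prop))
  have n1 : ∀ t : ℝ, 1 ≤ ‖(t : ℂ) - I‖ := fun t => by simpa using abs_im_le_norm ((t : ℂ) - I)
  rw [integral_integral_swap ((integrable_inv_one_add_sq.integrableOn.mul_prod i2).mono'
    (Measurable.aestronglyMeasurable ms) ?_), c1, mul_assoc, ← integral_complex_ofReal,
    ← integral_mul_const]
  · refine integral_congr_ae (.of_forall fun t => ?_)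
    have e := ray mφ h1 h2 hφ t
    have a1 : (t : ℂ) + I ≠ 0 := fun h => by simpa using congrArg Complex.im h
    have a2 : (t : ℂ) - I ≠ 0 := fun h => by simpa using congrArg Complex.im h
    have a3 : (1 + (t : ℂ) ^ 2) = (t + I) * (t - I) := by linear_combination I_sq
    simp only [integral_mul_const, eq_div_of_mul_eq a1 e]
    push_cast
    rw [a3]
    field_simp
    ring_nf
  · have : ∀ᵐ p : ℝ × ℝ ∂(volume.restrict (Ioi (0 : ℝ))).prod volume, p.1 ∈ Ioi 0 :=
      Measure.quasiMeasurePreserving_fst.ae (ae_restrict_mem measurableSet_Ioi)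
    refine this.mono fun p hp => ?_
    have b1 := bd h1 h2 hp p.2
    rw [Function.uncurry, norm_mul, ← mul_assoc, norm_div, norm_real, Real.norm_of_nonneg bm.nonneg]
    exact mul_le_mul b1 (div_le_self bm.nonneg (n1 _)) (div_nonneg bm.nonneg (norm_nonneg _))
      ((norm_nonneg _).trans b1)

end XcA

open XcA in
theorem xcOf : XcOf := by
  intro k c p N U f hN hU
  obtain ⟨pm, -, -, -, -, -, -, -, -, hI, -⟩ := p U hU
  obtain ⟨-, -, mf, df, -⟩ := (c N hN).1 f
  have i := hI f mf df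
  obtain ⟨C, hC⟩ := df
  have e : ∀ y t : ℝ, ofComplex (y * (t + I)) = pt (y * t) y := fun y t => by
    rw [pt, mul_add, ofReal_mul]
  have mφ : Measurable (f ∘ ofComplex) := by
    have := mf.comp (k.mpt.comp (measurable_re.prodMk measurable_im))
    simpa only [Function.comp_def, pt, Complex.re_add_im] using this
  have := fub (C := C) mφ (fun y t hy => by
      simpa [e, (k.ptc _ y hy).2.2] using hC (pt (y * t) y) 0 1 (.inr one_ne_zero))
    (fun y t hy => by
      have := hC (pt (y * t) y) 1 0 (.inl one_ne_zero)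
      rw [(k.ptc _ y hy).2.2, (k.ptc _ y hy).1, Int.cast_one, Int.cast_zero, one_mul, add_zero,
        ofReal_mul, ← mul_add, norm_mul, mul_pow, nsq, norm_real, Real.norm_of_nonneg hy.le,
        mul_left_comm] at this
      simpa [e] using le_of_mul_le_mul_left this (pow_pos hy 2))
    (mdifferentiable_iff.1 f.holo') (zero_lt_one.trans_le hU).ne'
  rw [(k.intg _ (k.mpe _ _ mf pm)).2 i, Lc, mul_div_assoc, mul_div_cancel_left₀ _
    (mul_ne_zero two_ne_zero (ofReal_ne_zero.2 Real.pi_ne_zero))]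
  refine Eq.trans (setIntegral_congr_fun measurableSet_Ioi fun y hy => ?_) (this.trans ?_)
  · replace hy : 0 < y := hy
    have y0 : (y : ℂ) ≠ 0 := ofReal_ne_zero.2 hy.ne'
    have s := Measure.integral_comp_mul_left
      (fun x => pe f (ph U) (pt x y) / (y : ℂ) ^ 2) y
    rw [abs_of_pos (inv_pos.2 hy), eq_comm, inv_smul_eq_iff₀ hy.ne', ← integral_smul] at s
    refine s.trans (integral_congr_ae (.of_forall fun t => ?_))
    obtain ⟨q1, q2, q3⟩ := k.ptc (y * t) y hy
    have a2 : (t : ℂ) - I ≠ 0 := fun h => by simpa using congrArg Complex.im h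
    simp only [pe, ph, q1, q2, q3, Function.comp, e, mul_comm U y,
      mul_div_mul_left _ _ hy.ne', map_div₀, map_add, map_mul, conj_ofReal, conj_I,
      real_smul, ofReal_mul]
    rw [← mul_add, ← sub_eq_add_neg]
    field_simp
  · simp only [Function.comp, e, mul_zero]

end Pool.Agent.MP_20b2fd_nt.H38
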