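import Pool.Agent.MP_20b2fd_nt.H38.SpecA

/-! The norm of a combination of Hecke translates of the tube. -/

set_option autoImplicit false

namespace Pool.Agent.MP_20b2fd_nt.H38

open UpperHalfPlane hiding I
open MeasureTheory Complex Finset

namespace XdA

variable {ι : Type} {N : ℕ} {U : ℝ}

/-- the combination -/
noncomputable def Gf (N : ℕ) (U : ℝ) (J : Finset ι) (m : ι → ℕ) (x : ι → ℝ) : ℍ → ℂ :=
  fun z => ∑ i ∈ J, x i * AA N U (m i) z

/-- its Hecke product with the index `n` -/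
noncomputable def Hf (N : ℕ) (U : ℝ) (J : Finset ι) (m : ι → ℕ) (x : ι → ℝ) (n : ℕ) : ℍ → ℂ :=
  fun z => ∑ i ∈ J, x i * Bh (fun k => AA N U k z) (m i) n

/-- admissible families -/
def Fam (N : ℕ) (J : Finset ι) (m : ι → ℕ) (x : ι → ℝ) : Prop :=
  (∀ i ∈ J, 1 ≤ m i ∧ ¬ N ∣ m i) ∧ ∑ i ∈ J, x i * sig (m i) = 0

theorem sl_sum (hK : KitS) (J : Finset ι) (c : ι → ℂ) (F : ι → ℍ → ℂ) (g : Mt) (hg : 0 < det g)
    (z : ℍ) : sl (fun z => ∑ i ∈ J, c i * F i z) g z = ∑ i ∈ J, c i * sl (F i) g z := by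
  simp only [hK.slz _ g z hg, mul_sum]
  exact sum_congr rfl fun i _ => by ring

theorem det_rp {p : ℕ} (hp : p.Prime) (i : ℕ) : 0 < det (rp p i) := by
  have := hp.pos
  unfold rp
  split_ifs <;> simp [det, this]

theorem TT_sum (hK : KitS) (J : Finset ι) (c : ι → ℂ) (F : ι → ℍ → ℂ) {p : ℕ} (hp : p.Prime)
    (z : ℍ) : TT p (fun z => ∑ i ∈ J, c i * F i z) z = ∑ i ∈ J, c i * TT p (F i) z := by
  simp only [TT, sl_sum hK J c F _ (det_rp hp _), mul_sum]
  exact sum_comm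

theorem ip_bdd (hK : KitS) (hE : EtaS) (hD : DecS) (hN : N.Prime) {F G : ℍ → ℂ}
    (mF : Measurable F) (mG : Measurable G) (dF : Dec F) (gG : Gro G) : IP N F G := by
  obtain ⟨C, hC⟩ := hD.bd F G dF gG 1 le_rfl
  have h := hC (1, 0, 0, 1) (by simp [det])
  rw [(hK.one F).1] at h
  exact (hE.2 N hN).2.2.1.ofReal.mul_bdd (hK.mpe F G mF mG).aestronglyMeasurable
    (Filter.Eventually.of_forall h)

theorem meas (hA : XaS) (hN : N.Prime) (hU : 1 ≤ U) {J : Finset ι} {m : ι → ℕ} {x : ι → ℝ}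
    (h : Fam N J m x) : Measurable (Gf N U J m x) :=
  Finset.measurable_fun_sum J fun i hi =>
    (hA N (m i) U hN (h.1 i hi).1 hU).2.2.2.1.const_mul _

theorem inv (hK : KitS) (hA : XaS) (hN : N.Prime) (hU : 1 ≤ U) {J : Finset ι} {m : ι → ℕ}
    {x : ι → ℝ} (h : Fam N J m x) : Inv N (Gf N U J m x) := fun g hg => funext fun z => by
  have hd : 0 < det g := by rw [hg.1]; simp
  refine (sl_sum hK J (fun i => (x i : ℂ)) (fun i => AA N U (m i)) g hd z).trans
    (sum_congr rfl fun i hi => ?_)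
  rw [(hA N (m i) U hN (h.1 i hi).1 hU).2.2.2.2.1 g hg]

theorem dec (hB : XbS) (hN : N.Prime) (hU : 1 ≤ U) {J : Finset ι} {m : ι → ℕ}
    {x : ι → ℝ} (h : Fam N J m x) : Dec (Gf N U J m x) := hB N U ι J m x hN hU h.1 h.2

theorem intg (hP : PhS) (hA : XaS) (hB : XbS) (hN : N.Prime) (hU : 1 ≤ U) {J : Finset ι}
    {m : ι → ℕ} {x : ι → ℝ} (h : Fam N J m x) : Integrable (pe (Gf N U J m x) (ph U)) :=
  (hP U hU).2.2.2.2.2.2.2.2.2.1 _ (meas hA hN hU h) (dec hB hN hU h)

theorem intH (hH : HbS) (hP : PhS) (hA : XaS) (hB : XbS) (hN : N.Prime) (hU : 1 ≤ U)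
    {J : Finset ι} {m : ι → ℕ} {x : ι → ℝ} (h : Fam N J m x) {n : ℕ} (hn : 1 ≤ n)
    (hn' : ¬ N ∣ n) : Integrable (pe (Hf N U J m x n) (ph U)) := by
  have e : Hf N U J m x n = Gf N U (J.sigma fun i => ((m i).gcd n).divisors)
      (fun s => m s.1 * n / s.2 ^ 2) (fun s => x s.1 * s.2) := by
    funext z
    simp only [Hf, Gf, Bh, sum_sigma, mul_sum]
    refine sum_congr rfl fun i _ => sum_congr rfl fun d _ => ?_
    push_cast
    ring
  rw [e]
  refine intg hP hA hB hN hU ⟨fun s hs => ?_, ?_⟩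
  · obtain ⟨h1, h2⟩ := mem_sigma.1 hs
    have h3 := Nat.dvd_of_mem_divisors h2
    have h4 : s.2 ^ 2 ∣ m s.1 * n := by
      rw [sq]
      exact mul_dvd_mul (h3.trans (Nat.gcd_dvd_left _ _)) (h3.trans (Nat.gcd_dvd_right _ _))
    have h5 : 0 < m s.1 * n := Nat.mul_pos (h.1 _ h1).1 hn
    refine ⟨Nat.div_pos (Nat.le_of_dvd h5 h4) (Nat.pos_of_dvd_of_pos h4 h5), fun h6 => ?_⟩
    exact ((Nat.Prime.dvd_mul hN).1 (h6.trans (Nat.div_dvd_of_dvd h4))).elim (h.1 _ h1).2 hn'
  · rw [sum_sigma]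
    calc ∑ i ∈ J, ∑ d ∈ ((m i).gcd n).divisors, x i * d * sig (m i * n / d ^ 2)
        = ∑ i ∈ J, x i * sig (m i) * sig n := sum_congr rfl fun i hi => by
          rw [mul_assoc, hH.2.2.1 _ _ (h.1 i hi).1 hn, Bh, mul_sum]
          exact sum_congr rfl fun d _ => mul_assoc _ _ _
      _ = 0 := by rw [← sum_mul, h.2, zero_mul]

/-- the indices of the Hecke translate of a family -/
def mT (p : ℕ) (m : ι → ℕ) : ι ⊕ ι → ℕ :=
  Sum.elim (fun i => p * m i) fun i => if p ∣ m i then m i / p else 1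

/-- its coefficients -/
def xT (p : ℕ) (m : ι → ℕ) (x : ι → ℝ) : ι ⊕ ι → ℝ :=
  Sum.elim x fun i => if p ∣ m i then p * x i else 0

theorem sumT {R : Type} [CommRing R] (c : ℝ →+* R) (p : ℕ) (J : Finset ι) (m : ι → ℕ) (x : ι → ℝ)
    (l : ℕ → R) : ∑ s ∈ J.disjSum J, c (xT p m x s) * l (mT p m s) =
      ∑ i ∈ J, c (x i) * (l (p * m i) + if p ∣ m i then p * l (m i / p) else 0) := by
  rw [sum_disjSum, ← sum_add_distrib]
  refine sum_congr rfl fun i _ => ?_
  simp only [xT, mT, Sum.elim_inl, Sum.elim_inr]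
  split_ifs
  · rw [map_mul, map_natCast]; ring
  · rw [map_zero]; ring

theorem famT (hH : HbS) (hN : N.Prime) {p : ℕ} (hp : p.Prime) (hpN : p ≠ N) {J : Finset ι}
    {m : ι → ℕ} {x : ι → ℝ} (h : Fam N J m x) : Fam N (J.disjSum J) (mT p m) (xT p m x) := by
  refine ⟨?_, ?_⟩
  · rintro (i | i) hi
    · have hi := inl_mem_disjSum.1 hi
      refine ⟨Nat.mul_pos hp.pos (h.1 i hi).1, fun h1 => ?_⟩
      exact ((Nat.Prime.dvd_mul hN).1 h1).elim
        (fun h2 => hpN ((Nat.prime_dvd_prime_iff_eq hN hp).1 h2).symm) (h.1 i hi).2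
    · have hi := inr_mem_disjSum.1 hi
      simp only [mT, Sum.elim_inr]
      split_ifs with h1
      · exact ⟨Nat.div_pos (Nat.le_of_dvd (h.1 i hi).1 h1) hp.pos,
          fun h2 => (h.1 i hi).2 (h2.trans (Nat.div_dvd_of_dvd h1))⟩
      · exact ⟨le_rfl, hN.not_dvd_one⟩
  · refine (sumT (RingHom.id ℝ) p J m x sig).trans ?_
    calc _ = ∑ i ∈ J, ((p : ℝ) + 1) * (x i * sig (m i)) := sum_congr rfl fun i hi => by
          rw [hH.2.2.2 p _ hp (h.1 i hi).1, RingHom.id_apply]; ring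
      _ = 0 := by rw [← mul_sum, h.2, mul_zero]

theorem ip_add {F G G' : ℍ → ℂ} (c : ℝ) (h : IP N F G) (h' : IP N F G') :
    ip N F (fun z => G z + c * G' z) = ip N F G + c * ip N F G' := by
  unfold ip
  rw [← integral_const_mul, ← integral_add h (h'.const_mul _)]
  refine integral_congr_ae (Filter.Eventually.of_forall fun z => ?_)
  simp only [pe, map_add, map_mul, conj_ofReal]
  ring

theorem pe_sum (F : ℍ → ℂ) (J : Finset ι) (m : ι → ℕ) (x : ι → ℝ) (z : ℍ) :
    pe F (Gf N U J m x) z = ∑ j ∈ J, x j * pe F (AA N U (m j)) z := by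
  simp only [pe, Gf, map_sum, map_mul, conj_ofReal, mul_sum, sum_mul]
  exact sum_congr rfl fun j _ => by ring

theorem claim (hK : KitS) (hE : EtaS) (hUn : UnfS) (hD : DecS) (hAd : AdjS) (hH : HbS) (hP : PhS)
    (hA : XaS) (hT : XtS) (hB : XbS) (hN : N.Prime) (hU : 1 ≤ U) (n : ℕ) :
    1 ≤ n → ¬ N ∣ n → ∀ (ι : Type) (J : Finset ι) (m : ι → ℕ) (x : ι → ℝ), Fam N J m x →
      ip N (Gf N U J m x) (AA N U n) = 2 * ∫ z, pe (Hf N U J m x n) (ph U) z := by
  induction n using Nat.strong_induction_on with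
  | _ n ih =>
  intro hn hnN ι J m x h
  have mG := meas (U := U) hA hN hU h
  have dG := dec (U := U) hB hN hU h
  have iG := inv (U := U) hK hA hN hU h
  rcases hn.eq_or_lt with rfl | hn1
  · have e : Hf N U J m x 1 = Gf N U J m x := by
      funext z
      simp [Hf, Gf, Bh]
    rw [e]
    refine (hUn N _ (ph U) hN mG (hP U hU).1 iG (intg hP hA hB hN hU h) fun z => ?_).2
    refine summable_of_hasFiniteSupport ?_
    refine ((hA N 1 U hN le_rfl hU).1 z).preimage Subtype.val_injective.injOn |>.subset ?_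
    intro g hg
    exact ⟨g.2, fun h0 => hg (by simp [h0])⟩
  obtain ⟨p, hp, k, rfl⟩ := Nat.exists_prime_and_dvd hn1.ne'
  have hk : 1 ≤ k := Nat.pos_of_mul_pos_left hn
  have hkN : ¬ N ∣ k := fun h1 => hnN (h1.mul_left _)
  have hpN : p ≠ N := fun h1 => hnN (h1 ▸ Dvd.intro _ rfl)
  have hlt : k < p * k := lt_mul_of_one_lt_left hk hp.one_lt
  have IPn : ∀ j, 1 ≤ j → IP N (Gf N U J m x) (AA N U j) := fun j hj =>
    ip_bdd hK hE hD hN mG (hA N j U hN hj hU).2.2.2.1 dG (hA N j U hN hj hU).2.2.1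
  obtain ⟨C, hC⟩ := hD.bd _ _ dG (hA N k U hN hk hU).2.2.1 p hp.pos
  have adj := (hAd N _ _ C hN mG (hA N k U hN hk hU).2.2.2.1 iG
    (hA N k U hN hk hU).2.2.2.2.1).1 p hp hpN hC
  have eT : TT p (Gf N U J m x) = Gf N U (J.disjSum J) (mT p m) (xT p m x) := by
    funext z
    refine (TT_sum hK J (fun i => (x i : ℂ)) (fun i => AA N U (m i)) hp z).trans
      (Eq.trans ?_ (sumT ofRealHom p J m x fun k => AA N U k z).symm)
    refine sum_congr rfl fun i hi => ?_
    rw [hT N (m i) p U hN hp hpN (h.1 i hi).1 hU]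
    rfl
  have eH : ∀ z, Hf N U (J.disjSum J) (mT p m) (xT p m x) k z =
      Hf N U J m x (p * k) z + if p ∣ k then p * Hf N U J m x (k / p) z else 0 := fun z => by
    refine (sumT ofRealHom p J m x fun a => Bh (fun k => AA N U k z) a k).trans ?_
    have : ∀ i ∈ J, ofRealHom (x i) * (Bh (fun k => AA N U k z) (p * m i) k +
        if p ∣ m i then p * Bh (fun k => AA N U k z) (m i / p) k else 0) =
        x i * Bh (fun k => AA N U k z) (m i) (p * k) +
          if p ∣ k then p * (x i * Bh (fun k => AA N U k z) (m i) (k / p)) else 0 := fun i hi => by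
      rw [← hH.1 _ p _ k hp (h.1 i hi).1 hk, ofRealHom_eq_coe]
      split_ifs <;> ring
    rw [sum_congr rfl this, sum_add_distrib]
    unfold Hf
    split_ifs
    · rw [mul_sum]
    · rw [sum_const_zero]
  rw [eT, ih k hlt hk hkN _ _ _ _ (famT hH hN hp hpN h), hT N k p U hN hp hpN hk hU,
    funext eH] at adj
  by_cases hpk : p ∣ k
  · have h1 : 1 ≤ k / p := Nat.div_pos (Nat.le_of_dvd hk hpk) hp.pos
    have h2 : ¬ N ∣ k / p := fun h3 => hkN (h3.trans (Nat.div_dvd_of_dvd hpk))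
    simp only [if_pos hpk] at adj
    have e1 := ip_add (p : ℝ) (IPn _ hn) (IPn _ h1)
    rw [ofReal_natCast] at e1
    rw [e1, ih (k / p) ((Nat.div_le_self _ _).trans_lt hlt) h1 h2 _ _ _ _ h] at adj
    have e2 : ∫ z, pe (fun z => Hf N U J m x (p * k) z + p * Hf N U J m x (k / p) z) (ph U) z =
        (∫ z, pe (Hf N U J m x (p * k)) (ph U) z) +
          p * ∫ z, pe (Hf N U J m x (k / p)) (ph U) z := by
      rw [← integral_const_mul, ← integral_add (intH hH hP hA hB hN hU h hn hnN)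
        ((intH hH hP hA hB hN hU h h1 h2).const_mul _)]
      refine integral_congr_ae (Filter.Eventually.of_forall fun z => ?_)
      simp only [pe]
      ring
    rw [e2] at adj
    linear_combination -adj
  · simp only [if_neg hpk, add_zero] at adj
    exact adj.symm

end XdA

open XdA in
theorem xdOf : XdOf := by
  intro hK hE hUn hD hAd hH hP hA hT hB N U ι J m x hN hU hm hx G hG
  have h : Fam N J m x := ⟨fun i hi => ⟨(hm i hi).1,
    (Nat.Prime.coprime_iff_not_dvd hN).1 (hm i hi).2.symm⟩, hx⟩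
  have e : G = Gf N U J m x := hG
  have mG := meas (U := U) hA hN hU h
  have dG := dec (U := U) hB hN hU h
  subst e
  refine ⟨mG, ip_bdd hK hE hD hN mG mG dG (hD.gro _ dG), ?_⟩
  have IPn : ∀ j ∈ J, IP N (Gf N U J m x) (AA N U (m j)) := fun j hj =>
    ip_bdd hK hE hD hN mG (hA N _ U hN (h.1 j hj).1 hU).2.2.2.1 dG
      (hA N _ U hN (h.1 j hj).1 hU).2.2.1
  calc ip N (Gf N U J m x) (Gf N U J m x)
      = ∑ j ∈ J, x j * ip N (Gf N U J m x) (AA N U (m j)) := by
        unfold ip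
        simp only [← integral_const_mul]
        rw [← integral_finsetSum _ fun j hj => (IPn j hj).const_mul _]
        refine integral_congr_ae (Filter.Eventually.of_forall fun z => ?_)
        simp only [pe_sum, mul_sum]
        exact sum_congr rfl fun j _ => by ring
    _ = ∑ j ∈ J, x j * (2 * ∫ z, pe (Hf N U J m x (m j)) (ph U) z) :=
        sum_congr rfl fun j hj => by
          rw [claim hK hE hUn hD hAd hH hP hA hT hB hN hU _ (h.1 j hj).1 (h.1 j hj).2 _ _ _ _ h]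
    _ = _ := by
        simp only [← integral_const_mul]
        rw [← integral_finsetSum _ fun j hj =>
          ((intH hH hP hA hB hN hU h (h.1 j hj).1 (h.1 j hj).2).const_mul _).const_mul _]
        refine integral_congr_ae (Filter.Eventually.of_forall fun z => ?_)
        simp only [pe, Hf, sum_mul, mul_sum]
        rw [sum_comm]
        exact sum_congr rfl fun i _ => sum_congr rfl fun j _ => by ring

end Pool.Agent.MP_20b2fd_nt.H38
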