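import Pool.Agent.MP_20b2fd_nt.H38.SpecA

/-! Termwise integration over an annulus and the three classes of matrices. -/

set_option autoImplicit false

namespace Pool.Agent.MP_20b2fd_nt.H38

open UpperHalfPlane hiding I
open MeasureTheory Complex Finset Filter Topology

namespace XeA

lemma mAnn (r R : ℝ) : MeasurableSet (Ann r R) :=
  (measurableSet_le measurable_const measurable_coe.norm).inter
    (measurableSet_le measurable_coe.norm measurable_const)

lemma low (z : ℍ) (c d : ℤ) (h : c ≠ 0 ∨ d ≠ 0) : min z.im 1 ≤ ‖(c : ℂ) * z + d‖ := by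
  by_cases hc : c = 0
  · have hd := h.resolve_left (not_not.2 hc)
    rw [hc, Int.cast_zero, zero_mul, zero_add, Complex.norm_intCast]
    exact (min_le_right _ _).trans (by exact_mod_cast Int.one_le_abs hd)
  · refine (min_le_left _ _).trans (le_trans ?_ (abs_im_le_norm _))
    have h1 : (1 : ℝ) ≤ |(c : ℝ)| := by exact_mod_cast Int.one_le_abs hc
    have : ((c : ℂ) * z + d).im = c * z.im := by simp
    rw [this, abs_mul, abs_of_pos z.im_pos]
    exact le_mul_of_one_le_left z.im_pos.le h1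

lemma npe (F G : ℍ → ℂ) (z : ℍ) : ‖pe F G z‖ = ‖F z‖ * (‖G z‖ * z.im ^ 2) := by
  simp [pe, mul_assoc]

variable (K : KitS) (P : PhS) {U : ℝ} (hU : 1 ≤ U)
include P hU

lemma intAnn {G : ℍ → ℂ} (hG : Measurable G) {C : ℝ} (hC : ∀ z : ℍ, ‖G z‖ ≤ C * (1 + 1 / z.im ^ 2))
    {r : ℝ} (hr : 0 < r) (R : ℝ) : IntegrableOn (pe G (ph U)) (Ann r R) := by
  obtain ⟨mp, -, -, -, -, sp, -, -, -, it, -⟩ := P U hU
  have mS : MeasurableSet (Ann r R ∩ {z | ph U z ≠ 0}) :=
    (mAnn r R).inter (mp (measurableSet_singleton 0)).compl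
  have u0 : 0 < 1 + 2 * U := by linarith
  set δ := min (r / (1 + 2 * U)) 1 with hδ
  have d0 : 0 < δ := lt_min (div_pos hr u0) one_pos
  have h := it _ (hG.indicator mS) ⟨|C| * (R ^ 2 + 1) / δ ^ 2, fun z c d hcd => by
    by_cases hz : z ∈ Ann r R ∩ {z | ph U z ≠ 0}
    · rw [Set.indicator_of_mem hz]
      have y0 := z.im_pos
      have h1 := (sp z).2 hz.2
      have h2 : r ≤ (1 + 2 * U) * z.im := by
        have := hz.1.1.trans (norm_le_abs_re_add_abs_im (z : ℂ))
        rw [coe_re, coe_im, abs_of_pos y0] at this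
        linarith
      have h3 : δ ≤ ‖(c : ℂ) * z + d‖ :=
        (min_le_min_right _ ((div_le_iff₀' u0).2 h2)).trans (low z c d hcd)
      have h4 : z.im ≤ R := (le_abs_self _).trans ((abs_im_le_norm (z : ℂ)).trans hz.1.2)
      calc z.im ^ 2 * ‖G z‖ ≤ z.im ^ 2 * (|C| * (1 + 1 / z.im ^ 2)) :=
            mul_le_mul_of_nonneg_left ((hC z).trans
              (mul_le_mul_of_nonneg_right (le_abs_self C) (by positivity))) (by positivity)
        _ = |C| * (z.im ^ 2 + 1) := by field_simp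
        _ ≤ |C| * (R ^ 2 + 1) := by gcongr
        _ = |C| * (R ^ 2 + 1) / δ ^ 2 * δ ^ 2 := by field_simp
        _ ≤ _ := by gcongr
    · rw [Set.indicator_of_notMem hz, norm_zero, mul_zero]; positivity⟩
  rw [← integrable_indicator_iff (mAnn r R)]
  refine h.congr (Eventually.of_forall fun z => ?_)
  by_cases h1 : z ∈ Ann r R
  · by_cases h2 : ph U z = 0
    · simp [pe, h1, h2]
    · simp [pe, h1, h2]
  · simp [pe, h1]

include K

lemma term (D : DecS) (X : XaS) {N m : ℕ} (hN : N.Prime) (hm : 1 ≤ m) {r : ℝ} (hr : 0 < r) (R : ℝ) :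
    IntegrableOn (pe (AA N U m) (ph U)) (Ann r R) ∧
    HasSum (fun g : MM N m => ∫ z in Ann r R, pe (sl (ph U) g) (ph U) z)
      (∫ z in Ann r R, pe (AA N U m) (ph U) z) := by
  obtain ⟨fin, gS, gA, mA, -⟩ := X N m U hN hm hU
  have mp := (P U hU).1
  obtain ⟨C, hC⟩ := D.im _ gA
  refine ⟨intAnn P hU mA hC hr R, ?_⟩
  obtain ⟨C', hC'⟩ := D.im _ gS
  have sm : ∀ z, Summable fun g : MM N m => ‖sl (ph U) g z‖ := fun z =>
    summable_of_hasFiniteSupport (((fin z).preimage Subtype.val_injective.injOn).subset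
      fun g hg => ⟨g.2, norm_ne_zero_iff.1 hg⟩)
  have ms : ∀ g : Mt, Measurable (sl (ph U) g) := fun g => K.msr _ _ mp
  have mS : Measurable fun z => ((∑' g : MM N m, ‖sl (ph U) g z‖ : ℝ) : ℂ) := by
    simp only [ofReal_tsum]
    exact K.mts _ _ (fun g => measurable_ofReal.comp (ms g).norm)
      fun z => (summable_ofReal).2 (sm z)
  have iS := intAnn P hU mS hC' hr R
  have nS : ∀ z, ‖((∑' g : MM N m, ‖sl (ph U) g z‖ : ℝ) : ℂ)‖ = ∑' g : MM N m, ‖sl (ph U) g z‖ :=
    fun z => by rw [norm_real, Real.norm_of_nonneg (tsum_nonneg fun _ => norm_nonneg _)]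
  have ig : ∀ g : MM N m, IntegrableOn (pe (sl (ph U) g) (ph U)) (Ann r R) := fun g =>
    intAnn P hU (ms g) (fun z => (((sm z).le_tsum g fun _ _ => norm_nonneg _).trans_eq
      (nS z).symm).trans (hC' z)) hr R
  have h := hasSum_integral_of_summable_integral_norm ig (summable_of_sum_le
    (fun g => integral_nonneg fun _ => norm_nonneg _) fun s => by
      rw [← integral_finsetSum _ fun g _ => (ig g).norm]
      refine integral_mono (integrable_finsetSum _ fun g _ => (ig g).norm) iS.norm fun z => ?_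
      simp only [npe, ← sum_mul, nS]
      exact mul_le_mul_of_nonneg_right ((sm z).sum_le_tsum s fun _ _ => norm_nonneg _)
        (by positivity))
  simpa only [pe, tsum_mul_right, AA] using h

omit P hU in
lemma scale (g : Mt) (u : ℍ → ℂ) {S S' : Set ℍ} (hS : MeasurableSet S) (hS' : MeasurableSet S')
    (h : ∀ z, z ∈ S ↔ ac g z ∈ S') : ∫ z in S, u (ac g z) = ∫ z in S', u z := by
  rw [← integral_indicator hS, ← integral_indicator hS', ← (K.ints (gl g) (S'.indicator u)).1]
  congr 1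
  funext z
  show _ = S'.indicator u (ac g z)
  by_cases hz : z ∈ S
  · rw [Set.indicator_of_mem hz, Set.indicator_of_mem ((h z).1 hz)]
  · rw [Set.indicator_of_notMem hz, Set.indicator_of_notMem fun e => hz ((h z).2 e)]

omit K in
lemma diag {a d : ℤ} (h : 0 < a * d) : sl (ph U) (a, 0, 0, d) = ph U := by
  have := (P U hU).2.2.2.2.2.2.1 a d (by exact_mod_cast h)
  simpa [sl, gl] using this

/-- upper triangular matrices -/
lemma upper {a d : ℤ} (b : ℤ) (h : 0 < a * d) (r R : ℝ) :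
    ∫ z in Ann r R, pe (sl (ph U) (a, b, 0, d)) (ph U) z =
      ∫ z in Ann (a.natAbs * r) (a.natAbs * R), pe (tr U (a.sign * b)) (ph U) z := by
  have a0 : a ≠ 0 := left_ne_zero_of_mul h.ne'
  have n0 : (0 : ℤ) < a.natAbs := by exact_mod_cast Int.natAbs_pos.2 a0
  have n1 : (0 : ℝ) < a.natAbs := by exact_mod_cast n0
  have s1 : a.sign * a.natAbs = a := Int.sign_mul_natAbs a
  have s2 : a.sign * a.sign = 1 := by
    rcases lt_or_gt_of_ne a0 with e | e
    · simp [Int.sign_eq_neg_one_of_neg e]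
    · simp [Int.sign_eq_one_of_pos e]
  have s3 : 0 < a.sign * d := by
    refine pos_of_mul_pos_right (a := (a.natAbs : ℤ)) ?_ n0.le
    rw [show a.natAbs * (a.sign * d) = a.sign * a.natAbs * d by ring, s1]; exact h
  have dt : 0 < det ((a.natAbs : ℤ), 0, 0, 1) := by simpa [det] using a0
  have t0 : det (a.sign, 0, 0, d) ≠ 0 := by
    rw [det]; simpa only [mul_zero, sub_zero] using s3.ne'
  have t1 : det (mul (a.sign, 0, 0, d) (1, a.sign * b, 0, 1)) ≠ 0 := by
    rw [det, mul]; simpa only [mul_zero, zero_mul, add_zero, zero_add, mul_one, sub_zero] using s3.ne'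
  have e : sl (sl (sl (ph U) (a.sign, 0, 0, d)) (1, a.sign * b, 0, 1)) ((a.natAbs : ℤ), 0, 0, 1) =
      sl (ph U) (a, b, 0, d) := by
    rw [K.slm _ _ _ t0 (by simp [det]), K.slm _ _ _ t1 dt.ne']
    congr 1
    simp only [mul, mul_zero, zero_mul, add_zero, zero_add, mul_one, s1, ← mul_assoc, s2, one_mul]
  rw [diag P hU s3] at e
  rw [← scale K ((a.natAbs : ℤ), 0, 0, 1) _ (mAnn r R) (mAnn (a.natAbs * r) (a.natAbs * R))
    fun z => by
      have : ‖((ac ((a.natAbs : ℤ), 0, 0, 1) z : ℍ) : ℂ)‖ = a.natAbs * ‖(z : ℂ)‖ := by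
        rw [K.coez _ _ dt]
        simp only [Int.cast_natCast, Int.cast_zero, Int.cast_one, zero_mul, add_zero, zero_add,
          div_one, norm_mul, Complex.norm_natCast]
      simp only [Ann, Set.mem_ofPred_eq, this, mul_le_mul_iff_right₀ n1]]
  congr 1
  funext z
  rw [← K.pez _ _ _ _ dt, diag P hU (by simpa using a0), ← e, tr]

/-- lower triangular matrices -/
lemma lower {N : ℕ} (hN : 0 < N) {a d : ℤ} (c : ℤ) (h : 0 < a * d) {R : ℝ} (hR : 0 < R) :
    ∫ z in Ann (1 / (N * R)) R, pe (sl (ph U) (a, 0, c * N, d)) (ph U) z =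
      ∫ z in Ann (1 / (N * R)) R, pe (sl (ph U) (d, -c, 0, a)) (ph U) z := by
  have n0 : (0 : ℝ) < N := by exact_mod_cast hN
  have dW : 0 < det (WN N) := by simpa [det, WN] using hN
  have w : sl (ph U) (WN N) = -ph U := by
    have := (P U hU).2.2.2.2.2.2.2.1 (-1) N (by simpa using hN)
    simpa [sl, gl, WN] using this
  have d1 : 0 < det (a, 0, c * N, d) := by simpa [det] using h
  have d2 : det (d, -c, 0, a) ≠ 0 := by simpa [det, mul_comm] using h.ne'
  have e : sl (sl (ph U) (d, -c, 0, a)) (WN N) = -sl (ph U) (a, 0, c * N, d) := by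
    rw [K.slm _ _ _ d2 dW.ne', show mul (d, -c, 0, a) (WN N) = mul (WN N) (a, 0, c * N, d) by
      simp [mul, WN, mul_comm], ← K.slm _ _ _ dW.ne' d1.ne', w]
    funext z
    rw [Pi.neg_apply, K.slz _ _ _ d1, K.slz _ _ _ d1, Pi.neg_apply, mul_neg]
  rw [← scale K (WN N) (pe (sl (ph U) (d, -c, 0, a)) (ph U)) (mAnn (1 / (N * R)) R) (mAnn _ _)
    fun z => by
      have z0 : 0 < ‖(z : ℂ)‖ := norm_pos_iff.2 z.ne_zero
      have : ‖((ac (WN N) z : ℍ) : ℂ)‖ = 1 / (N * ‖(z : ℂ)‖) := by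
        rw [K.coez _ _ dW]; simp [WN]
      simp only [Ann, Set.mem_ofPred_eq, this]
      rw [one_div_le_one_div (by positivity) (by positivity), mul_le_mul_iff_right₀ n0,
        div_le_iff₀ (by positivity), div_le_iff₀ (by positivity), and_comm,
        show ‖(z : ℂ)‖ * (N * R) = R * (N * ‖(z : ℂ)‖) by ring]]
  congr 1
  funext z
  rw [← K.pez _ _ _ _ dW, w, e]
  simp [pe]

end XeA

end Pool.Agent.MP_20b2fd_nt.H38
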