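import Pool.Agent.MP_20b2fd_nt.H38.Xe1
import Pool.Agent.MP_20b2fd_nt.H38.Xe2

/-! The truncated pairing of one Hecke translate with the tube. -/

set_option autoImplicit false

namespace Pool.Agent.MP_20b2fd_nt.H38

open UpperHalfPlane hiding I
open MeasureTheory Complex Finset Filter Topology

namespace XeA

/-- the matrix with prescribed entries -/
def em (N : ℕ) (x : (ℤ × ℤ) × ℤ × ℤ) : Mt := (x.2.1, x.1.1, x.1.2 * N, x.2.2)

lemma em_inj {N : ℕ} (hN : 0 < N) : Function.Injective (em N) := fun x y h => by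
  simp only [em, Prod.mk.injEq] at h
  exact Prod.ext (Prod.ext h.2.1 (mul_right_cancel₀ (by exact_mod_cast hN.ne') h.2.2.1))
    (Prod.ext h.1 h.2.2.2)

lemma em_mem (N m : ℕ) (b c a d : ℤ) :
    em N ((b, c), a, d) ∈ MM N m ↔ a * d = m + b * c * N := by
  simp only [em, MM, det, Set.mem_ofPred_eq, dvd_mul_left, and_true]
  constructor <;> intro h <;> linear_combination h

lemma value (K : KitS) (D : DecS) (P : PhS) (X : XaS) (G : XgS) {U : ℝ} (hU : 1 ≤ U)
    {r₀ : ℝ} {W : ℝ → ℂ} (hW : ∀ r R : ℝ, 0 < r → r ≤ r₀ → r₀ ≤ R →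
      HasSum (fun b : ℤ => if b = 0 then 0 else ∫ z in Ann r R, pe (tr U b) (ph U) z) (W R))
    {N m : ℕ} (hN : N.Prime) (hm : 1 ≤ m) (hd : ¬ N ∣ m) {R : ℝ} (h1 : 1 ≤ R) (h2 : r₀ ≤ R)
    (h3 : m / R ≤ r₀) (h4 : (1 + 4 * U ^ 2) * m ≤ R) :
    (∫ z in Ann (1 / (N * R)) R, pe (AA N U m) (ph U) z).re =
      2 * (∑ x ∈ m.divisorsAntidiagonal,
        (a1 U * Real.log (N * R ^ 2) + (W (x.1 * R)).re + (W (x.2 * R)).re)) +
      4 * Od (Kf U) N m := by
  classical
  have n1 : (1 : ℝ) ≤ N := by exact_mod_cast hN.pos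
  have m1 : (1 : ℝ) ≤ m := by exact_mod_cast hm
  have r0 : 0 < 1 / (N * R) := by positivity
  have r1 : 1 / (N * R) ≤ 1 / R :=
    one_div_le_one_div_of_le (by positivity) (le_mul_of_one_le_left (by positivity) n1)
  set L := a1 U * Real.log (N * R ^ 2) with hL
  set F : Mt → ℝ := fun g => (∫ z in Ann (1 / (N * R)) R, pe (sl (ph U) g) (ph U) z).re with hF
  have s0 : HasSum ((MM N m).indicator F) _ :=
    hasSum_subtype_iff_indicator.1 (hasSum_re (term K P hU D X hN hm r0 R).2)
  have s1 := ((em_inj hN.pos).hasSum_iff fun g hg => Set.indicator_of_notMem (fun h => by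
    obtain ⟨c, hc⟩ := h.2
    exact hg ⟨((g.2.1, c), g.1, g.2.2.2), by simp only [em, mul_comm c, ← hc]⟩) F).2 s0
  have up : ∀ a d : ℤ, a * d = m → F (a, 0, 0, d) = L ∧
      HasSum (fun b => F (a, b, 0, d)) (L + (W (a.natAbs * R)).re) := fun a d e => by
    have h : 0 < a * d := by rw [e]; exact_mod_cast hm
    have a0 : a ≠ 0 := left_ne_zero_of_mul h.ne'
    have p1 : (1 : ℝ) ≤ a.natAbs := by exact_mod_cast Int.natAbs_pos.2 a0
    have p2 : (a.natAbs : ℝ) ≤ m := by
      exact_mod_cast Nat.le_of_dvd hm (Int.natAbs_dvd_natAbs.2 (Dvd.intro d e))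
    have q0 : 0 < a.natAbs * (1 / (N * R)) := by positivity
    have j0 : ∫ z in Ann (a.natAbs * (1 / (N * R))) (a.natAbs * R), pe (tr U 0) (ph U) z = L := by
      rw [tr, (K.one _).1, Ann, ((P U hU).2.2.2.2.2.2.2.2.2.2 _ _ q0 (mul_le_mul_of_nonneg_left
        (r1.trans ((div_le_one (by positivity)).2 h1 |>.trans h1)) (by positivity))).2, hL,
        show a.natAbs * R / (a.natAbs * (1 / (N * R))) = N * R ^ 2 by field_simp]
      push_cast
      rfl
    have j1 := hW _ (a.natAbs * R) q0 (le_trans (by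
      rw [div_eq_mul_one_div (m : ℝ)]; gcongr) h3)
      (h2.trans (le_mul_of_one_le_left (by positivity) p1))
    have j2 : HasSum (fun b : ℤ => ∫ z in Ann (a.natAbs * (1 / (N * R))) (a.natAbs * R),
        pe (tr U b) (ph U) z) (L + W (a.natAbs * R)) := by
      refine (congrArg (HasSum · _) (funext fun b => ?_)).mp ((hasSum_ite_eq 0 (L : ℂ)).add j1)
      by_cases hb : b = 0
      · rw [if_pos hb, if_pos hb, hb, j0, add_zero]
      · rw [if_neg hb, if_neg hb, zero_add]
    refine ⟨by simp only [hF]; rw [upper K P hU 0 h, mul_zero, j0, ofReal_re], ?_⟩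
    have j3 := hasSum_re j2
    rw [add_re, ofReal_re] at j3
    simp only [hF, upper K P hU _ h]
    rcases lt_or_gt_of_ne a0 with e' | e'
    · simp only [Int.sign_eq_neg_one_of_neg e', neg_one_mul]
      exact (Equiv.neg ℤ).hasSum_iff.2 j3
    · simpa only [Int.sign_eq_one_of_pos e', one_mul] using j3
  rw [comb hd (Kf U) _ _ L (fun k => L + (W (k * R)).re) s1
    (fun b c a d e => Set.indicator_of_notMem (fun h => e ((em_mem N m b c a d).1 h)) F)
    (fun a d e => ?_) (fun a d e => ?_) (fun a d e => ?_) fun b c a d hb hc e => ?_]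
  · congr 2
    exact sum_congr rfl fun x _ => by ring
  · refine (congrArg (HasSum · _) (funext fun b => ?_)).mp (up a d e).2
    rw [Function.comp, Set.indicator_of_mem ((em_mem N m b 0 a d).2 (by simpa using e)), em,
      zero_mul]
  · refine (congrArg (HasSum · _) (funext fun c => ?_)).mp
      ((Equiv.neg ℤ).hasSum_iff.2 (up d a (mul_comm a d ▸ e)).2)
    rw [Function.comp, Function.comp,
      Set.indicator_of_mem ((em_mem N m 0 c a d).2 (by simpa using e)), em]
    simp only [hF, Equiv.neg_apply]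
    rw [lower K P hU hN.pos c (by rw [e]; exact_mod_cast hm) (by positivity)]
  · rw [Function.comp, Set.indicator_of_mem ((em_mem N m 0 0 a d).2 (by simpa using e)), em,
      zero_mul, (up a d e).1]
  · have mem := (em_mem N m b c a d).2 e
    rw [Function.comp, Set.indicator_of_mem mem]
    have ad : a * d ≠ 0 := fun h => hd (Int.natCast_dvd_natCast.1
      ⟨-(b * c), by linear_combination h - e⟩)
    have cN : c * N ≠ 0 := mul_ne_zero hc (by exact_mod_cast hN.ne_zero)
    have dt : det (em N ((b, c), a, d)) = m := mem.1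
    have dr : (a : ℝ) * d - b * ((c * N : ℤ) : ℝ) = m := by exact_mod_cast dt
    obtain ⟨g1, g2, -⟩ := G U hU
    have v := (g1 a b ((c * N : ℤ) : ℝ) d (by exact_mod_cast left_ne_zero_of_mul ad)
      (by exact_mod_cast hb) (by exact_mod_cast cN) (by exact_mod_cast right_ne_zero_of_mul ad)
      (by rw [dr]; positivity)).2
    rw [dr] at v
    simp only [hF]
    rw [setIntegral_eq_integral_of_forall_compl_eq_zero fun z hz => by_contra fun h0 => by
      have t := g2 _ z (left_ne_zero_of_mul ad) hb cN (right_ne_zero_of_mul ad)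
        (by rw [dt]; exact_mod_cast hm) h0
      rw [dt, Int.cast_natCast] at t
      exact hz ⟨(r1.trans (one_div_le_one_div_of_le (by positivity) h4)).trans t.1, t.2.trans h4⟩]
    refine Eq.trans v ?_
    push_cast
    rw [mul_assoc]

end XeA

theorem xeOf : XeOf := by
  intro K D P X S G U hU
  obtain ⟨-, A, c, r₀, ε, r0, he, hW⟩ := S U hU
  refine ⟨4 * A.re, 2 * c.re, fun N m hN hm hd =>
    ⟨fun r R hr => (XeA.term K P hU D X hN hm hr R).1, ?_⟩⟩
  have n0 : (0 : ℝ) < N := by exact_mod_cast hN.pos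
  have m0 : (0 : ℝ) < m := by exact_mod_cast hm
  have t1 : ∀ k : ℕ, k ≠ 0 → Tendsto (fun R : ℝ => (ε (k * R)).re) atTop (𝓝 0) := fun k hk =>
    (continuous_re.tendsto 0).comp (he.comp
      (tendsto_id.const_mul_atTop (by positivity : (0 : ℝ) < k)))
  have t2 := ((tendsto_finsetSum m.divisorsAntidiagonal fun x hx =>
    (t1 _ (Nat.left_ne_zero_of_mem_divisorsAntidiagonal hx)).add
      (t1 _ (Nat.right_ne_zero_of_mem_divisorsAntidiagonal hx))).const_mul 2).const_add
    (2 * (a1 U * tau m * Real.log (N / m) + 2 * c.re * tau m + 2 * Od (Kf U) N m))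
  simp only [add_zero, sum_const_zero, mul_zero] at t2
  refine t2.congr' ?_
  filter_upwards [eventually_ge_atTop 1, eventually_ge_atTop r₀, eventually_ge_atTop (m / r₀),
    eventually_ge_atTop ((1 + 4 * U ^ 2) * m)] with R h1 h2 h3 h4
  have R0 : 0 < R := by positivity
  rw [XeA.value K D P X G hU hW hN hm hd h1 h2
    (by rw [div_le_iff₀ R0, mul_comm, ← div_le_iff₀ r0]; exact h3) h4]
  have e : ∀ x ∈ m.divisorsAntidiagonal, a1 U * Real.log (N * R ^ 2) +
      (A * ((x.1 * R : ℝ) : ℂ) - a1 U * Real.log (x.1 * R) + c + ε (x.1 * R)).re +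
      (A * ((x.2 * R : ℝ) : ℂ) - a1 U * Real.log (x.2 * R) + c + ε (x.2 * R)).re =
      (a1 U * Real.log (N / m) + 2 * c.re) + A.re * R * x.1 + A.re * R * x.2 +
        ((ε (x.1 * R)).re + (ε (x.2 * R)).re) := fun x hx => by
    have x1 : (x.1 : ℝ) ≠ 0 := by exact_mod_cast Nat.left_ne_zero_of_mem_divisorsAntidiagonal hx
    have x2 : (x.2 : ℝ) ≠ 0 := by exact_mod_cast Nat.right_ne_zero_of_mem_divisorsAntidiagonal hx
    have x3 : (m : ℝ) = x.1 * x.2 := by exact_mod_cast (Nat.mem_divisorsAntidiagonal.1 hx).1.symm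
    simp only [add_re, sub_re, ← ofReal_mul, ofReal_re, re_mul_ofReal]
    rw [Real.log_div n0.ne' m0.ne', x3, Real.log_mul x1 x2, Real.log_mul x1 R0.ne',
      Real.log_mul x2 R0.ne', Real.log_mul n0.ne' (by positivity), Real.log_pow]
    push_cast
    ring
  have s1 : ∑ x ∈ m.divisorsAntidiagonal, (x.1 : ℝ) = sig m :=
    Nat.sum_divisorsAntidiagonal fun a _ => (a : ℝ)
  have s2 : ∑ x ∈ m.divisorsAntidiagonal, (x.2 : ℝ) = sig m :=
    Nat.sum_divisorsAntidiagonal' fun _ b => (b : ℝ)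
  rw [sum_congr rfl e]
  simp only [sum_add_distrib, XeA.sum_one, ← mul_sum, s1, s2]
  ring

end Pool.Agent.MP_20b2fd_nt.H38
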