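import Pool.Agent.MP_20b2fd_nt.H38.SpecA

/-! The test vector for the mollified second moment. -/

set_option autoImplicit false

namespace Pool.Agent.MP_20b2fd_nt.H38

open UpperHalfPlane hiding I
open MeasureTheory Complex Finset Filter Topology
open scoped Real

namespace XfA

theorem ann_meas (r R : ℝ) : MeasurableSet (Ann r R) := by
  have h : Continuous fun z : ℍ => ‖(z : ℂ)‖ := UpperHalfPlane.continuous_coe.norm
  exact ((isClosed_le continuous_const h).inter (isClosed_le h continuous_const)).measurableSet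

theorem lim_ann {M : ℝ} (hM : 0 < M) {u : ℍ → ℂ} (hu : Integrable u) :
    Tendsto (fun R : ℝ => ∫ z in Ann (1 / (M * R)) R, u z) atTop (𝓝 (∫ z, u z)) := by
  have hp : ∀ z : ℍ, 0 < ‖(z : ℂ)‖ := fun z => norm_pos_iff.2 z.ne_zero
  have h1 : ⋃ R : ℝ, Ann (1 / (M * R)) R = Set.univ := by
    refine Set.eq_univ_of_forall fun z => Set.mem_iUnion.2
      ⟨max ‖(z : ℂ)‖ (1 / (M * ‖(z : ℂ)‖)), ?_, le_max_left _ _⟩
    have := hp z
    have h2 := le_max_right ‖(z : ℂ)‖ (1 / (M * ‖(z : ℂ)‖))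
    rw [div_le_iff₀ (by positivity)] at h2 ⊢
    linarith
  have := tendsto_setIntegral_of_monotone (μ := volume) (f := u)
    (s := fun R : ℝ => Ann (1 / (M * R)) R) (fun R => ann_meas _ _) (fun R R' h z hz => by
      have h0 : 0 < R := (hp z).trans_le hz.2
      exact ⟨(one_div_le_one_div_of_le (by positivity)
        (mul_le_mul_of_nonneg_left h hM.le)).trans hz.1, hz.2.trans h⟩) hu.integrableOn
  rwa [h1, Measure.restrict_univ] at this

theorem pe_left {κ : Type} (J : Finset κ) (y : κ → ℝ) (F : κ → ℍ → ℂ) (G : ℍ → ℂ) (z : ℍ) :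
    pe (fun z => ∑ k ∈ J, y k * F k z) G z = ∑ k ∈ J, y k * pe (F k) G z := by
  simp only [pe, sum_mul, mul_assoc]

theorem pe_right {κ : Type} (J : Finset κ) (y : κ → ℝ) (F : κ → ℍ → ℂ) (G : ℍ → ℂ) (z : ℍ) :
    pe G (fun z => ∑ k ∈ J, y k * F k z) z = ∑ k ∈ J, y k * pe G (F k) z := by
  simp only [pe, map_sum, map_mul, conj_ofReal, mul_sum, sum_mul]
  exact sum_congr rfl fun k _ => by ring

/-- the linear terms cancel -/
theorem main {κ : Type} (J : Finset κ) (y s l : κ → ℝ) (F : κ → ℍ → ℂ) (G : ℍ → ℂ) {M A : ℝ}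
    (hM : 0 < M) (hi : Integrable (pe (fun z => ∑ k ∈ J, y k * F k z) G))
    (hs : ∑ k ∈ J, y k * s k = 0)
    (h : ∀ k ∈ J, (∀ r R : ℝ, 0 < r → IntegrableOn (pe (F k) G) (Ann r R)) ∧
      Tendsto (fun R : ℝ => (∫ z in Ann (1 / (M * R)) R, pe (F k) G z).re - A * s k * R)
        atTop (𝓝 (l k))) :
    (∫ z, pe (fun z => ∑ k ∈ J, y k * F k z) G z).re = ∑ k ∈ J, y k * l k := by
  refine tendsto_nhds_unique ((Complex.continuous_re.tendsto _).comp (lim_ann hM hi))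
    ((tendsto_finsetSum J fun k hk => (h k hk).2.const_mul (y k)).congr' ?_)
  filter_upwards [eventually_gt_atTop 0] with R hR
  simp only [Function.comp, pe_left]
  rw [integral_finsetSum _ fun k hk => ((h k hk).1 _ R (by positivity)).const_mul _, re_sum]
  simp only [integral_const_mul, re_ofReal_mul, mul_sub, sum_sub_distrib]
  rw [show ∑ k ∈ J, y k * (A * s k * R) = A * R * ∑ k ∈ J, y k * s k by
    rw [mul_sum]; exact sum_congr rfl fun k _ => by ring, hs, mul_zero, sub_zero]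

/-- the family of triples -/
def T3 {ι : Type} (J : Finset ι) (n : ι → ℕ) : Finset (Σ _ : ι, Σ _ : ι, ℕ) :=
  J.sigma fun i => J.sigma fun j => ((n i).gcd (n j)).divisors

theorem sum3 {ι R : Type} [CommSemiring R] (J : Finset ι) (n : ι → ℕ) (x : ι → R) (l : ℕ → R) :
    ∑ i ∈ J, ∑ j ∈ J, x i * x j * Bh l (n i) (n j) =
      ∑ k ∈ T3 J n, x k.1 * x k.2.1 * k.2.2 * l (n k.1 * n k.2.1 / k.2.2 ^ 2) := by
  simp only [T3, sum_sigma, Bh, mul_sum, mul_assoc]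

theorem ok {N a b d : ℕ} (hN : N.Prime) (ha : 1 ≤ a ∧ a < N) (hb : 1 ≤ b ∧ b < N)
    (hd : d ∈ (a.gcd b).divisors) : 1 ≤ a * b / d ^ 2 ∧ ¬ N ∣ a * b / d ^ 2 := by
  have h1 : ¬ N ∣ a * b := fun h => (hN.dvd_mul.1 h).elim (Nat.not_dvd_of_pos_of_lt ha.1 ha.2)
    (Nat.not_dvd_of_pos_of_lt hb.1 hb.2)
  have h2 := Nat.dvd_of_mem_divisors hd
  have h3 : d ^ 2 ∣ a * b := by
    rw [sq]
    exact mul_dvd_mul (h2.trans (Nat.gcd_dvd_left _ _)) (h2.trans (Nat.gcd_dvd_right _ _))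
  have h4 : ¬ N ∣ a * b / d ^ 2 := fun h => h1 (h.trans (Nat.div_dvd_of_dvd h3))
  exact ⟨Nat.pos_of_ne_zero fun h => h4 (h ▸ dvd_zero N), h4⟩

end XfA

open XfA

theorem xfOf : XfOf := by
  intro _ Hb Ph Xa Xb Xi Xd Xe U hU
  obtain ⟨A, c₀, hc⟩ := Xe U hU
  refine ⟨c₀, fun N ι J n x hN hn hs => ?_⟩
  have hco : ∀ i ∈ J, 1 ≤ n i ∧ (n i).Coprime N := fun i hi =>
    ⟨(hn i hi).1, (hN.coprime_iff_not_dvd.2 (Nat.not_dvd_of_pos_of_lt (hn i hi).1 (hn i hi).2)).symm⟩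
  obtain ⟨h1, h2, h3⟩ := Xd N U ι J n x hN hU hco hs _ rfl
  refine ⟨_, h1, h2, ?_, fun f hf hT => ?_⟩
  · have hk : ∀ k ∈ T3 J n, 1 ≤ n k.1 * n k.2.1 / k.2.2 ^ 2 ∧ ¬ N ∣ n k.1 * n k.2.1 / k.2.2 ^ 2 :=
      fun k hk => by
        simp only [T3, mem_sigma] at hk
        exact ok hN (hn _ hk.1) (hn _ hk.2.1) hk.2.2
    have hz : ∑ k ∈ T3 J n, x k.1 * x k.2.1 * k.2.2 * sig (n k.1 * n k.2.1 / k.2.2 ^ 2) = 0 := by
      rw [← sum3, sum_congr rfl fun i hi => sum_congr rfl fun j hj => by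
        rw [← Hb.2.2.1 _ _ (hn i hi).1 (hn j hj).1, mul_mul_mul_comm], ← sum_mul_sum, hs, zero_mul]
    have he : (fun z => ∑ i ∈ J, ∑ j ∈ J, (x i : ℂ) * x j * Bh (fun k => AA N U k z) (n i) (n j)) =
        fun z => ∑ k ∈ T3 J n, ((x k.1 * x k.2.1 * k.2.2 : ℝ) : ℂ) *
          AA N U (n k.1 * n k.2.1 / k.2.2 ^ 2) z := funext fun z => by
      rw [sum3]
      simp only [ofReal_mul, ofReal_natCast]
    have hm := main (T3 J n) (fun k => x k.1 * x k.2.1 * k.2.2) _ _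
      (fun k => AA N U (n k.1 * n k.2.1 / k.2.2 ^ 2)) (ph U) (Nat.cast_pos.2 hN.pos)
      ((Ph U hU).2.2.2.2.2.2.2.2.2.1 _ (Finset.measurable_sum _ fun k hk' =>
        (Xa N _ U hN (hk k hk').1 hU).2.2.2.1.const_mul _) (Xb N U _ _ _ _ hN hU hk hz)) hz
      fun k hk' => hc N _ hN (hk k hk').1 (hk k hk').2
    rw [h3, he, show (2 : ℂ) = (2 : ℝ) from rfl, re_ofReal_mul, hm, Bl, sum3, mul_sum, mul_sum]
    exact sum_congr rfl fun k _ => by ring
  · have hx := fun i hi => Xi N U f hN hU hf hT (n i) (hco i hi).1 (hco i hi).2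
    rw [ip]
    simp only [pe_right, mul_sum, mul_left_comm (eta N _ : ℂ)]
    rw [integral_finsetSum _ fun i hi => Integrable.const_mul (hx i hi).1 _]
    refine sum_congr rfl fun i hi => ?_
    rw [integral_const_mul, ← ip, (hx i hi).2]
    ring

end Pool.Agent.MP_20b2fd_nt.H38
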