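import Pool.Agent.MP_20b2fd_nt.H38.SpecA

/-! The terms off the diagonal depend only on `b c / det`. -/

set_option autoImplicit false

namespace Pool.Agent.MP_20b2fd_nt.H38

open UpperHalfPlane hiding I
open MeasureTheory Complex Finset Filter Topology
open scoped ModularForm Real Manifold ENNReal

namespace XgA

theorem nsq (z : ℍ) : ‖(z : ℂ)‖ ^ 2 = z.re ^ 2 + z.im ^ 2 := by
  rw [Complex.sq_norm, Complex.normSq_apply, coe_re, coe_im]
  ring

theorem lin (a b : ℝ) (z : ℍ) : a ^ 2 * z.im ^ 2 ≤ ‖(a : ℂ) * z + b‖ ^ 2 ∧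
    b ^ 2 * z.im ^ 2 ≤ ‖(a : ℂ) * z + b‖ ^ 2 * ‖(z : ℂ)‖ ^ 2 := by
  have h : ‖(a : ℂ) * z + b‖ ^ 2 = (a * z.re + b) ^ 2 + (a * z.im) ^ 2 := by
    rw [Complex.sq_norm, Complex.normSq_apply]
    simp
    ring
  rw [h, nsq]
  constructor
  · nlinarith [sq_nonneg (a * z.re + b)]
  · nlinarith [sq_nonneg ((a * z.re + b) * z.re + a * z.im * z.im)]

theorem sec {U : ℝ} (z : ℍ) (h : |z.re| < 2 * U * z.im) :
    ‖(z : ℂ)‖ ^ 2 < (1 + 4 * U ^ 2) * z.im ^ 2 := by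
  have h1 := pow_lt_pow_left₀ h (abs_nonneg _) two_ne_zero
  rw [sq_abs] at h1
  rw [nsq]
  nlinarith

theorem le_of_sq_le_sq' {a b : ℝ} (h : a ^ 2 ≤ b ^ 2) (hb : 0 ≤ b) : a ≤ b :=
  (le_abs_self a).trans (abs_le_of_sq_le_sq h hb)

theorem cd {a b c d : ℝ} (hD : 0 < a * d - b * c) : c ≠ 0 ∨ d ≠ 0 := by
  by_contra h
  rw [not_or, not_not, not_not] at h
  rw [h.1, h.2] at hD
  simp at hD

theorem supp (K : KitS) {U : ℝ} (hp : ∀ z : ℍ, ph U z ≠ 0 → |z.re| < 2 * U * z.im)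
    {a b c d : ℝ} (hD : 0 < a * d - b * c) (z : ℍ)
    (h : pe (sr (ph U) (gr a b c d)) (ph U) z ≠ 0) :
    (a * c) ^ 2 * ‖(z : ℂ)‖ ^ 2 ≤ ((1 + 4 * U ^ 2) * (a * d - b * c)) ^ 2 ∧
    (b * d) ^ 2 ≤ ((1 + 4 * U ^ 2) * (a * d - b * c)) ^ 2 * ‖(z : ℂ)‖ ^ 2 ∧
    (b * c) ^ 2 < ((1 + 4 * U ^ 2) * (a * d - b * c)) ^ 2 ∧
    ‖(z : ℂ)‖ ^ 2 ≤ (1 + 4 * U ^ 2) * z.im ^ 2 := by
  have h1 : ph U z ≠ 0 := fun e => h (by simp [pe, e])
  have h2 : ph U (gr a b c d • z) ≠ 0 := fun e => h (by simp [pe, K.slr _ a b c d z hD, e])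
  have s1 := sec z (hp z h1)
  have s2 := sec _ (hp _ h2)
  have v0 : 0 < ‖(c : ℂ) * z + d‖ := norm_pos_iff.2 (K.den c d z (cd hD))
  rw [K.coe a b c d z hD, K.im a b c d z hD, norm_div, div_pow, div_pow, ← mul_div_assoc,
    div_lt_div_iff₀ (by positivity) (by positivity)] at s2
  obtain ⟨a1, a2⟩ := lin a b z
  obtain ⟨c1, c2⟩ := lin c d z
  have z0 : 0 < ‖(z : ℂ)‖ ^ 2 := by have := norm_pos_iff.2 z.ne_zero; positivity
  have y0 : 0 < z.im ^ 2 := by have := z.im_pos; positivity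
  have C0 : 0 < 1 + 4 * U ^ 2 := by positivity
  have q0 : 0 < ‖(c : ℂ) * z + d‖ ^ 2 := by positivity
  have p0 : 0 ≤ ‖(a : ℂ) * z + b‖ ^ 2 := by positivity
  have D0 : 0 < (a * d - b * c) ^ 2 := by positivity
  rw [mul_pow] at s2
  rw [mul_pow, mul_pow, mul_pow, mul_pow]
  generalize ‖(c : ℂ) * z + d‖ ^ 2 = Q at *
  generalize ‖(a : ℂ) * z + b‖ ^ 2 = P at *
  generalize ‖(z : ℂ)‖ ^ 2 = Z at *
  generalize z.im ^ 2 = Y at *
  generalize 1 + 4 * U ^ 2 = C at *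
  generalize (a * d - b * c) ^ 2 = D at *
  have s3 : P * Q < C * D * Y := lt_of_mul_lt_mul_right (by nlinarith) q0.le
  have a0 := sq_nonneg a
  have b0 := sq_nonneg b
  have c0 := sq_nonneg c
  have d0 := sq_nonneg d
  generalize a ^ 2 = A at *
  generalize b ^ 2 = B at *
  generalize c ^ 2 = E at *
  generalize d ^ 2 = F at *
  refine ⟨?_, ?_, ?_, s1.le⟩
  · have e1 := mul_le_mul a1 c1 (by positivity) p0
    have e2 : A * E * Y ≤ C * D := le_of_mul_le_mul_right (by nlinarith) y0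
    calc A * E * Z ≤ A * E * (C * Y) := mul_le_mul_of_nonneg_left s1.le (by positivity)
      _ = C * (A * E * Y) := by ring
      _ ≤ C * (C * D) := mul_le_mul_of_nonneg_left e2 C0.le
      _ = _ := by ring
  · have e1 := mul_le_mul a2 c2 (by positivity) (by positivity)
    have e3 := mul_le_mul_of_nonneg_right s3.le (show 0 ≤ Z * Z by positivity)
    have e2 : B * F * Y ≤ C * D * (Z * Z) := le_of_mul_le_mul_right (by nlinarith) y0
    refine le_of_mul_le_mul_right ?_ z0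
    calc B * F * Z ≤ B * F * (C * Y) := mul_le_mul_of_nonneg_left s1.le (by positivity)
      _ = C * (B * F * Y) := by ring
      _ ≤ C * (C * D * (Z * Z)) := mul_le_mul_of_nonneg_left e2 C0.le
      _ = _ := by ring
  · have e1 := mul_le_mul a2 c1 (by positivity) (by positivity)
    have e3 := mul_lt_mul_of_pos_right s3 z0
    have e4 := mul_le_mul_of_nonneg_left s1.le (show 0 ≤ C * D * Y by positivity)
    refine lt_of_mul_lt_mul_right ?_ (show 0 ≤ Y * Y by positivity)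
    nlinarith

theorem bd (K : KitS) {F : ℍ → ℂ} (hp : ∀ z : ℍ, ‖F z‖ ≤ 1 / ‖(z : ℂ)‖)
    {a b c d : ℝ} (hD : 0 < a * d - b * c) (z : ℍ) : ‖pe (sr F (gr a b c d)) F z‖ ≤ 1 := by
  have h1 : ∀ w : ℍ, ‖F w‖ ≤ 1 / w.im := fun w => (hp w).trans
    (one_div_le_one_div_of_le w.im_pos ((le_abs_self _).trans (Complex.abs_im_le_norm (w : ℂ))))
  have v0 : 0 < ‖(c : ℂ) * z + d‖ := norm_pos_iff.2 (K.den c d z (cd hD))
  have y0 := z.im_pos
  have h2 := h1 (gr a b c d • z)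
  rw [K.im a b c d z hD] at h2
  have h3 : ‖sr F (gr a b c d) z‖ ≤ 1 / z.im := by
    rw [K.slr F a b c d z hD, norm_mul, norm_div, norm_pow, Complex.norm_real,
      Real.norm_of_nonneg hD.le]
    refine (mul_le_mul_of_nonneg_left h2 (by positivity)).trans (le_of_eq ?_)
    field_simp
  rw [pe, norm_mul, norm_mul, norm_pow, Complex.norm_real, Real.norm_of_nonneg y0.le,
    Complex.norm_conj]
  calc _ ≤ 1 / z.im * (1 / z.im) * z.im ^ 2 := by
        have := h1 z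
        gcongr
    _ = 1 := by field_simp

theorem intg {u : ℍ → ℂ} (hu : Measurable u) (hb : ∀ z, ‖u z‖ ≤ 1) {R y : ℝ} (hy : 0 < y)
    (hs : ∀ z, u z ≠ 0 → ‖(z : ℂ)‖ ≤ R ∧ y ≤ z.im) : Integrable u := by
  have h1 : Function.support u ⊆ Metric.closedBall UpperHalfPlane.I ((R + 1) / √y) := by
    intro z hz
    obtain ⟨h1, h2⟩ := hs z hz
    refine (dist_le_dist_coe_div_sqrt z _).trans ?_
    have h3 : dist (z : ℂ) (UpperHalfPlane.I : ℍ) ≤ R + 1 := by
      rw [dist_eq_norm]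
      refine (norm_sub_le _ _).trans ?_
      simpa using h1
    rw [UpperHalfPlane.I_im, mul_one]
    exact div_le_div₀ (dist_nonneg.trans h3) h3 (Real.sqrt_pos.2 hy) (Real.sqrt_le_sqrt h2)
  refine (integrableOn_iff_integrable_of_support_subset h1).1 ?_
  exact Measure.integrableOn_of_bounded (isCompact_closedBall _ _).measure_lt_top.ne
    hu.aestronglyMeasurable (ae_of_all _ hb)

theorem det_gr {a b c d : ℝ} (h : 0 < a * d - b * c) : 0 < (gr a b c d).det.val := by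
  rw [gr, dif_pos h.ne']
  simpa [Matrix.det_fin_two_of] using h

theorem pe_neg (F G : ℍ → ℂ) (z : ℍ) : pe F (-G) z = -pe F G z := by simp [pe]

theorem sr_neg (F : ℍ → ℂ) (g : GL (Fin 2) ℝ) : sr (-F) g = -sr F g := SlashAction.neg_slash _ _ _

theorem right (K : KitS) (F G : ℍ → ℂ) (g h : GL (Fin 2) ℝ) (hh : 0 < h.det.val) :
    ∫ z, pe (sr F (g * h)) (sr G h) z = ∫ z, pe (sr F g) G z := by
  rw [← K.srm, ← (K.ints h (pe (sr F g) G)).1]
  exact integral_congr_ae (ae_of_all _ fun z => K.pes _ _ h z hh)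

theorem refl (K : KitS) (F G : ℍ → ℂ) :
    (∫ z, pe (sr F (gr (-1) 0 0 1)) (sr G (gr (-1) 0 0 1)) z).re = (∫ z, pe F G z).re := by
  have h : ∀ z, pe (sr F (gr (-1) 0 0 1)) (sr G (gr (-1) 0 0 1)) z =
      (starRingEnd ℂ) (pe F G (gr (-1) 0 0 1 • z)) := by
    intro z
    have h1 : (gr (-1) 0 0 1 • z).im = z.im := by
      rw [← coe_im, (K.refl F z).1]
      simp
    rw [pe, pe, (K.refl F z).2, (K.refl G z).2, h1]
    simp
  simp only [h]
  rw [integral_conj, (K.ints _ (pe F G)).1, Complex.conj_re]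

theorem pos (K : KitS) {U : ℝ} (h1 : ∀ a d : ℝ, 0 < a * d → sr (ph U) (gr a 0 0 d) = ph U)
    {a b c d : ℝ} (hD : 0 < a * d - b * c) (h : 0 < c * d) :
    (∫ z, pe (sr (ph U) (gr a b c d)) (ph U) z).re = Kf U (b * c / (a * d - b * c)) := by
  have c0 : c ≠ 0 := left_ne_zero_of_mul h.ne'
  have d0 : d ≠ 0 := right_ne_zero_of_mul h.ne'
  have D0 := hD.ne'
  obtain ⟨t, ht⟩ : ∃ t, t = b * c / (a * d - b * c) := ⟨_, rfl⟩
  obtain ⟨e, he⟩ : ∃ e, e = (a * d - b * c) / (c * d) := ⟨_, rfl⟩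
  have e0 : 0 < e := he ▸ div_pos hD h
  have e1 : gr a b c d = gr e 0 0 1 * gr (1 + t) t 1 1 * gr c 0 0 d := by
    rw [K.grm _ _ _ _ _ _ _ _ (by simpa using e0.ne') (by simp),
      K.grm _ _ _ _ _ _ _ _ (by ring_nf; exact e0.ne') (by simpa using ⟨c0, d0⟩)]
    congr 1
    · rw [he, ht]
      field_simp
      ring
    · rw [he, ht]
      field_simp
      ring
    · ring
    · ring
  have e2 := right K (ph U) (ph U) (gr e 0 0 1 * gr (1 + t) t 1 1) (gr c 0 0 d)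
    (det_gr (by simpa using h))
  rw [← e1, h1 c d h, ← K.srm, h1 e 1 (by simpa using e0)] at e2
  rw [e2, ← ht, Kf]

theorem val (K : KitS) {U : ℝ} (h1 : ∀ a d : ℝ, 0 < a * d → sr (ph U) (gr a 0 0 d) = ph U)
    (h2 : sr (ph U) (gr (-1) 0 0 1) = -ph U) {a b c d : ℝ} (hD : 0 < a * d - b * c) (c0 : c ≠ 0)
    (d0 : d ≠ 0) :
    (∫ z, pe (sr (ph U) (gr a b c d)) (ph U) z).re = Kf U (b * c / (a * d - b * c)) := by
  rcases (mul_ne_zero c0 d0).lt_or_gt with h | h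
  · have e1 : gr (-1) 0 0 1 * gr a b c d * gr (-1) 0 0 1 = gr a (-b) (-c) d := by
      rw [K.grm _ _ _ _ _ _ _ _ (by simp) hD.ne',
        K.grm _ _ _ _ _ _ _ _ (by intro e; apply hD.ne'; linarith) (by simp)]
      congr 1 <;> ring
    have e2 := pos K h1 (a := a) (b := -b) (c := -c) (d := d) (by linarith) (by linarith)
    rw [neg_mul_neg, ← e1, ← K.srm, ← K.srm, h2] at e2
    have e3 := refl K (sr (-ph U) (gr a b c d)) (-ph U)
    rw [sr_neg (ph U) (gr (-1) 0 0 1), h2, neg_neg, e2] at e3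
    rw [e3, sr_neg]
    simp [pe]
  · exact pos K h1 hD h

end XgA

open XgA in
theorem xgOf : XgOf := by
  intro K P U hU
  obtain ⟨hm, -, -, -, -, hp, h1, h2, h3, -⟩ := P U hU
  have C1 : 1 ≤ 1 + 4 * U ^ 2 := by nlinarith
  refine ⟨fun a b c d a0 b0 c0 d0 hD => ⟨?_, val K h1 h3 hD c0 d0⟩, ?_, ?_, ?_⟩
  · have ac : 0 < |a * c| := abs_pos.2 (mul_ne_zero a0 c0)
    have bd' : 0 < |b * d| := abs_pos.2 (mul_ne_zero b0 d0)
    refine intg (K.mpe _ _ (K.msr _ _ hm) hm) (bd K (fun z => (hp z).1) hD)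
      (R := (1 + 4 * U ^ 2) * (a * d - b * c) / |a * c|)
      (y := |b * d| / ((1 + 4 * U ^ 2) ^ 2 * (a * d - b * c))) (by positivity) fun z hz => ?_
    obtain ⟨s1, s2, -, s4⟩ := supp K (fun z => (hp z).2) hD z hz
    have y0 := z.im_pos
    constructor
    · rw [le_div_iff₀ ac]
      refine le_of_sq_le_sq' ?_ (by positivity)
      rw [mul_pow, sq_abs]
      linarith
    · rw [div_le_iff₀ (by positivity)]
      refine le_of_sq_le_sq' ?_ (by positivity)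
      rw [sq_abs]
      refine s2.trans ((mul_le_mul_of_nonneg_left s4 (by positivity)).trans ?_)
      have := mul_le_mul_of_nonneg_left C1
        (show 0 ≤ (1 + 4 * U ^ 2) ^ 3 * (a * d - b * c) ^ 2 * z.im ^ 2 by positivity)
      nlinarith
  · intro g z a0 b0 c0 d0 hD hz
    have e : ((det g : ℤ) : ℝ) = g.1 * g.2.2.2 - g.2.1 * g.2.2.1 := by simp [det]
    have hD' : (0 : ℝ) < g.1 * g.2.2.2 - g.2.1 * g.2.2.1 := by
      rw [← e]
      exact_mod_cast hD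
    obtain ⟨s1, s2, -, -⟩ := supp K (fun z => (hp z).2) hD' z hz
    have ac : (1 : ℝ) ≤ (g.1 * g.2.2.1) ^ 2 := by
      exact_mod_cast (sq_pos_of_ne_zero (mul_ne_zero a0 c0) : 0 < (g.1 * g.2.2.1) ^ 2)
    have bd' : (1 : ℝ) ≤ (g.2.1 * g.2.2.2) ^ 2 := by
      exact_mod_cast (sq_pos_of_ne_zero (mul_ne_zero b0 d0) : 0 < (g.2.1 * g.2.2.2) ^ 2)
    rw [e]
    constructor
    · rw [div_le_iff₀ (by positivity)]
      refine le_of_sq_le_sq' ?_ (by positivity)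
      rw [mul_pow]
      linarith
    · refine le_of_sq_le_sq' ?_ (by positivity)
      nlinarith [sq_nonneg ‖(z : ℂ)‖]
  · intro t ht
    have h : ∀ z, pe (sr (ph U) (gr (1 + t) t 1 1)) (ph U) z = 0 := by
      intro z
      by_contra hz
      obtain ⟨-, -, s3, -⟩ := supp K (fun z => (hp z).2) (by simp) z hz
      have := pow_le_pow_left₀ (by positivity) ht 2
      rw [sq_abs] at this
      simp only [mul_one, add_sub_cancel_right] at s3
      linarith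
    simp [Kf, h]
  · intro t _ _
    have e1 : gr (1 + t) t 1 1 * gr 0 (-1) 1 0 = gr t (-1 - t) 1 (-1) := by
      rw [K.grm _ _ _ _ _ _ _ _ (by simp) (by simp)]
      congr 1 <;> ring
    have e2 := right K (ph U) (ph U) (gr (1 + t) t 1 1) (gr 0 (-1) 1 0) (det_gr (by simp))
    have e3 := val K h1 h3 (a := t) (b := -1 - t) (c := 1) (d := -1) (by linarith) one_ne_zero
      (by simp)
    rw [e1, h2 (-1) 1 (by simp)] at e2
    simp only [pe_neg, integral_neg] at e2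
    have e4 : (-1 - t) * 1 / (t * -1 - (-1 - t) * 1) = -1 - t := by
      rw [show t * -1 - (-1 - t) * 1 = 1 by ring]
      ring
    rw [e4] at e3
    rw [← e3, Kf, ← e2, Complex.neg_re, neg_neg]

end Pool.Agent.MP_20b2fd_nt.H38
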