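import Pool.Agent.MP_20b2fd_nt.H38.SpecA

/-! The sum of the translates of the tube. -/

set_option autoImplicit false

namespace Pool.Agent.MP_20b2fd_nt.H38

open UpperHalfPlane hiding I
open MeasureTheory Complex Finset Filter Topology
open scoped Real ContDiff FourierTransform

namespace XsA

theorem poi {φ : ℝ → ℂ} (h1 : HasCompactSupport φ) (h2 : ContDiff ℝ ∞ φ) : ∃ C : ℝ, ∀ y x : ℝ,
    0 < y → ‖(∑' b : ℤ, φ ((x + b) / y) / y) - ∫ u, φ u‖ ≤ C / y ^ 2 := by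
  obtain ⟨C, C0, hC⟩ := (𝓕 (h1.toSchwartzMap h2)).decay 2 0
  have hC' : ∀ w : ℝ, w ^ 2 * ‖𝓕 φ w‖ ≤ C := fun w => by
    have := hC w
    rwa [norm_iteratedFDeriv_zero, Real.norm_eq_abs, sq_abs] at this
  have hs : Summable fun n : ℤ => 1 / (n : ℝ) ^ 2 := Real.summable_one_div_int_pow.2 one_lt_two
  refine ⟨C * ∑' n : ℤ, 1 / (n : ℝ) ^ 2, fun y x hy => ?_⟩
  have y0 : (y : ℂ) ≠ 0 := ofReal_ne_zero.2 hy.ne'
  have g1 : HasCompactSupport fun t => φ (t / y) / y := by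
    have := (h1.comp_smul (inv_ne_zero hy.ne')).mul_right (f' := fun _ => (y : ℂ)⁻¹)
    simpa only [smul_eq_mul, div_eq_inv_mul, Pi.mul_def, mul_comm (φ _)] using this
  have g2 : ContDiff ℝ ∞ fun t => φ (t / y) / y := (h2.comp (contDiff_id.div_const y)).div_const _
  have e : ∀ w : ℝ, 𝓕 (fun t => φ (t / y) / y) w = 𝓕 φ (w * y) := fun w => by
    have := Measure.integral_comp_div
      (fun v : ℝ => cexp (↑(-2 * π * v * (w * y)) * I) • (φ v / y)) y
    rw [Real.fourier_real_eq_integral_exp_smul, Real.fourier_real_eq_integral_exp_smul]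
    refine Eq.trans (integral_congr_ae (.of_forall fun v => ?_)) (this.trans ?_)
    · have : -2 * π * (v / y) * (w * y) = -2 * π * v * w := by field_simp
      simp only [this]
    · rw [← integral_smul, abs_of_pos hy]
      refine integral_congr_ae (.of_forall fun v => ?_)
      simp only [smul_eq_mul, real_smul]
      field_simp
  have P : ∑' b : ℤ, φ ((x + b) / y) / y =
      ∑' n : ℤ, 𝓕 (fun t => φ (t / y) / y) n * fourier n (x : UnitAddCircle) :=
    (g1.toSchwartzMap g2).tsum_eq_tsum_fourier x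
  have hb : ∀ n : ℤ, ‖if n = 0 then 0 else 𝓕 φ (n * y) * fourier n (x : UnitAddCircle)‖ ≤
      C / y ^ 2 * (1 / (n : ℝ) ^ 2) := fun n => by
    split_ifs with h
    · rw [norm_zero]; positivity
    · have n0 : (n : ℝ) ≠ 0 := Int.cast_ne_zero.2 h
      rw [norm_mul, fourier_apply, Circle.norm_coe, mul_one, div_mul_div_comm, mul_one,
        le_div_iff₀ (by positivity)]
      exact le_of_eq_of_le (by ring) (hC' (n * y))
  have S := ((hs.mul_left (C / y ^ 2)).of_norm_bounded hb).hasSum.add (hasSum_ite_eq 0 (∫ u, φ u))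
  have S' : ∑' n : ℤ, 𝓕 (fun t => φ (t / y) / y) n * fourier n (x : UnitAddCircle) = _ :=
    Eq.trans (tsum_congr fun n => by
      rw [e]
      split_ifs with h
      · simp [h, Real.fourier_real_eq]
      · simp) S.tsum_eq
  rw [P, S', add_sub_cancel_right]
  exact (tsum_of_norm_bounded (hs.hasSum.mul_left _) hb).trans (le_of_eq (by ring))

theorem uI (u : ℝ) : (u : ℂ) + I ≠ 0 := fun h => by simpa using congrArg Complex.im h

theorem be_sm (U : ℝ) : ContDiff ℝ ∞ (be U) :=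
  (ofRealCLM.contDiff.comp (bm.contDiff.comp (contDiff_id.div_const U))).mul
    ((ofRealCLM.contDiff.add contDiff_const).inv uI)

theorem bm_cs {U : ℝ} (hU : U ≠ 0) : HasCompactSupport fun u => bm (u / U) := by
  simpa only [smul_eq_mul, div_eq_inv_mul] using bm.hasCompactSupport.comp_smul (inv_ne_zero hU)

theorem be_cs {U : ℝ} (hU : U ≠ 0) : HasCompactSupport (be U) :=
  (bm_cs hU).mono fun u hu h => hu (by simp [be, h])

theorem be_int {U : ℝ} (hU : U ≠ 0) : ∫ u, be U u = -(I * c1 U) := by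
  have h := (be_sm U).continuous.integrable_of_hasCompactSupport (μ := volume) (be_cs hU)
  have e := integral_add h h.comp_neg
  rw [integral_neg_eq_self (be U), ← two_mul] at e
  refine mul_left_cancel₀ two_ne_zero (e.symm.trans ?_)
  rw [c1, ← integral_complex_ofReal, ← integral_const_mul, ← integral_neg, ← integral_const_mul]
  refine integral_congr_ae (.of_forall fun u => ?_)
  have h1 := uI u
  have h2 := uI (-u)
  have h3 : (1 + (u : ℂ) ^ 2) = -((u + I) * (-u + I)) := by linear_combination I_sq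
  simp only [be, neg_div, bm.neg]
  push_cast at h2 ⊢
  rw [h3]
  field_simp
  ring

theorem tr_eq (k : KitS) (U : ℝ) (b : ℤ) (z : ℍ) :
    ∃ w : ℍ, (w : ℂ) = z + b ∧ w.re = z.re + b ∧ w.im = z.im ∧ tr U b z = ph U w := by
  have d : det (1, b, 0, 1) = 1 := by simp [det]
  have e : ((ac (1, b, 0, 1) z : ℍ) : ℂ) = z + b := by
    simpa using k.coez (1, b, 0, 1) z (by simp [d])
  refine ⟨_, e, by simpa using congrArg Complex.re e, by simpa using congrArg Complex.im e, ?_⟩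
  simpa [d, tr] using k.slz (ph U) (1, b, 0, 1) z (by simp [d])

theorem part1 (k : KitS) {U : ℝ} (hU : U ≠ 0) : ∃ C : ℝ, ∀ z : ℍ,
    ‖(∑' b : ℤ, tr U b z) + I * c1 U‖ ≤ C / z.im ^ 2 := by
  obtain ⟨C, hC⟩ := poi (be_cs hU) (be_sm U)
  refine ⟨C, fun z => ?_⟩
  have := hC z.im z.re z.im_pos
  rw [be_int hU, sub_neg_eq_add] at this
  refine le_of_eq_of_le (congrArg (fun s => ‖s + I * c1 U‖) (tsum_congr fun b => ?_)) this
  obtain ⟨w, h1, h2, h3, h4⟩ := tr_eq k U b z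
  have y0 : (w.im : ℂ) ≠ 0 := ofReal_ne_zero.2 w.im_ne_zero
  rw [h4, ← h2, ← h3, ph, be, div_div w.re, mul_comm w.im, div_div]
  congr 1
  rw [ofReal_div, add_mul, div_mul_cancel₀ _ y0, mul_comm]
  exact (re_add_im (w : ℂ)).symm

theorem dec_of {F : ℍ → ℂ} {B : ℝ} (h1 : ∀ z, ‖F z‖ ≤ B) (h2 : ∀ z : ℍ, z.im ^ 2 * ‖F z‖ ≤ B) :
    Dec F := by
  refine ⟨B, fun z c d h => ?_⟩
  have B0 : 0 ≤ B := (norm_nonneg _).trans (h1 z)
  by_cases hc : c = 0
  · have : (1 : ℝ) ≤ |(d : ℝ)| := by exact_mod_cast Int.one_le_abs (h.resolve_left (not_not.2 hc))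
    refine (h2 z).trans (le_mul_of_one_le_right B0 (one_le_pow₀ ?_))
    simpa [hc] using this
  · have c1 : (1 : ℝ) ≤ |(c : ℝ)| := by exact_mod_cast Int.one_le_abs hc
    have e : |(c : ℝ)| * z.im ≤ ‖(c : ℂ) * z + d‖ := by
      simpa [abs_mul, abs_of_pos z.im_pos] using abs_im_le_norm ((c : ℂ) * z + d)
    have := (le_mul_of_one_le_left z.im_pos.le c1).trans e
    rw [mul_comm]
    exact mul_le_mul (h1 z) (pow_le_pow_left₀ z.im_pos.le this 2) (by positivity) B0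

theorem im_le (z : ℍ) : z.im ≤ ‖(z : ℂ)‖ := im_le_norm (z : ℂ)

theorem pe_zero {F G : ℍ → ℂ} {z : ℍ} (h : F z = 0 ∨ G z = 0) : pe F G z = 0 := by
  rcases h with h | h <;> simp [pe, h]

theorem cn : Continuous fun z : ℍ => ‖(z : ℂ)‖ := UpperHalfPlane.continuous_coe.norm

theorem mle (R : ℝ) : MeasurableSet {z : ℍ | ‖(z : ℂ)‖ ≤ R} :=
  (isClosed_le cn continuous_const).measurableSet

theorem mge (R : ℝ) : MeasurableSet {z : ℍ | R ≤ ‖(z : ℂ)‖} :=
  (isClosed_le continuous_const cn).measurableSet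

theorem mA (r R : ℝ) : MeasurableSet (Ann r R) := (mge r).inter (mle R)

section

variable {U : ℝ} (hU : 1 ≤ U) (sup : ∀ z : ℍ, ph U z ≠ 0 → |z.re| < 2 * U * z.im)
  (hI : ∀ F : ℍ → ℂ, Measurable F → Dec F → Integrable (pe F (ph U)))

include hI in
theorem int0 {F : ℍ → ℂ} (hF : Measurable F) {s : Set ℍ} (hs : MeasurableSet s) {B : ℝ}
    (B0 : 0 ≤ B) (h1 : ∀ z ∈ s, ‖F z‖ ≤ B) (h2 : ∀ z ∈ s, z.im ^ 2 * ‖F z‖ ≤ B) :
    IntegrableOn (pe F (ph U)) s := by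
  refine ((hI _ (hF.indicator hs) (dec_of (B := B) (fun z => ?_) fun z => ?_)).integrableOn
    (s := s)).congr_fun (fun z hz => by simp [pe, hz]) hs
  · by_cases hz : z ∈ s
    · simpa [hz] using h1 z hz
    · simpa [hz] using B0
  · by_cases hz : z ∈ s
    · simpa [hz] using h2 z hz
    · simpa [hz] using B0

include hU sup hI in
theorem int1 {F : ℍ → ℂ} (hF : Measurable F) {s : Set ℍ} (hs : MeasurableSet s) {B r : ℝ}
    (B0 : 0 ≤ B) (r0 : 0 < r) (h1 : ∀ z ∈ s, r ≤ ‖(z : ℂ)‖)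
    (h2 : ∀ z ∈ s, z.im ^ 2 * ‖F z‖ ≤ B) : IntegrableOn (pe F (ph U)) s := by
  have d0 : 0 < r / (1 + 2 * U) := by positivity
  have m : MeasurableSet {z : ℍ | r / (1 + 2 * U) ≤ z.im} :=
    (isClosed_le continuous_const UpperHalfPlane.continuous_im).measurableSet
  refine (int0 hI hF (hs.inter m) (B := B + B / (r / (1 + 2 * U)) ^ 2) (by positivity)
    (fun z hz => le_add_of_nonneg_of_le B0 ?_) fun z hz => le_add_of_le_of_nonneg (h2 z hz.1)
      (by positivity)).of_forall_sdiff_eq_zero hs fun z hz => pe_zero (.inr ?_)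
  · rw [le_div_iff₀' (by positivity)]
    exact (mul_le_mul_of_nonneg_right (pow_le_pow_left₀ d0.le hz.2 2) (norm_nonneg _)).trans
      (h2 z hz.1)
  · by_contra h
    refine hz.2 ⟨hz.1, (div_le_iff₀ (c := 1 + 2 * U) (by positivity)).2 ?_⟩
    have h3 : ‖(z : ℂ)‖ ≤ |z.re| + |z.im| := norm_le_abs_re_add_abs_im (z : ℂ)
    rw [abs_of_pos z.im_pos] at h3
    nlinarith [h1 z hz.1, sup z h]

include sup in
theorem tr_sup (k : KitS) {b : ℤ} {z : ℍ} (h : tr U b z ≠ 0) : |z.re + b| < 2 * U * z.im := by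
  obtain ⟨w, -, h2, h3, h4⟩ := tr_eq k U b z
  rw [← h2, ← h3]
  exact sup w (h4 ▸ h)

include hU sup in
theorem pe_sup (k : KitS) {b : ℤ} {z : ℍ} (h : pe (tr U b) (ph U) z ≠ 0) :
    |(b : ℝ)| < 4 * U * ‖(z : ℂ)‖ := by
  have h1 := abs_lt.1 (tr_sup sup k fun e => h (pe_zero (.inl e)))
  have h2 := abs_lt.1 (sup z fun e => h (pe_zero (.inr e)))
  have h3 := mul_le_mul_of_nonneg_left (im_le z) (zero_le_one.trans hU)
  exact abs_lt.2 ⟨by linarith [h1.1, h2.2], by linarith [h1.2, h2.1]⟩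

theorem memI {b : ℤ} {M : ℝ} (h : |(b : ℝ)| ≤ M) : b ∈ Icc (-⌈M⌉) ⌈M⌉ := by
  rw [mem_Icc, ← abs_le]
  exact_mod_cast h.trans (Int.le_ceil M)

include sup in
theorem tr_sum (k : KitS) (z : ℍ) : Summable fun b : ℤ => tr U b z := by
  refine summable_of_ne_finset_zero (s := Icc (-⌈|z.re| + 2 * U * z.im⌉) ⌈|z.re| + 2 * U * z.im⌉)
    fun b hb => by_contra fun h => hb (memI ?_)
  have := abs_lt.1 (tr_sup sup k h)
  exact abs_le.2 ⟨by linarith [le_abs_self z.re], by linarith [neg_abs_le z.re]⟩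

end

theorem scale (k : KitS) (U : ℝ) {R : ℝ} (hR : 0 < R) :
    ∫ z in {z : ℍ | ‖(z : ℂ)‖ ≤ R}, pe 1 (ph U) z =
      R * ∫ z in {z : ℍ | ‖(z : ℂ)‖ ≤ 1}, pe 1 (ph U) z := by
  rw [← integral_indicator (mle R), ← integral_indicator (mle 1), ← (k.ints (gr R 0 0 1) _).1,
    ← integral_const_mul]
  refine integral_congr_ae (.of_forall fun z => ?_)
  have e : ((gr R 0 0 1 • z : ℍ) : ℂ) = R * z := by simpa using k.coe R 0 0 1 z (by simpa using hR)
  have e1 : (gr R 0 0 1 • z : ℍ).re = R * z.re := by simpa using congrArg Complex.re e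
  have e2 : (gr R 0 0 1 • z : ℍ).im = R * z.im := by simpa using congrArg Complex.im e
  have e3 : ‖((gr R 0 0 1 • z : ℍ) : ℂ)‖ ≤ R ↔ ‖(z : ℂ)‖ ≤ 1 := by
    rw [e, norm_mul, norm_real, Real.norm_of_nonneg hR.le, mul_le_iff_le_one_right hR]
  have R0 : (R : ℂ) ≠ 0 := ofReal_ne_zero.2 hR.ne'
  simp only [Set.indicator_apply, Set.mem_ofPred_eq, e3]
  split_ifs
  · simp only [pe, ph, e, e1, e2, mul_left_comm U R, mul_div_mul_left _ _ hR.ne', map_div₀,
      map_mul, conj_ofReal, Pi.one_apply]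
    push_cast
    field_simp
  · simp

end XsA

open XsA in
theorem xsOf : XsOf := by
  intro k p U hU
  obtain ⟨pm, -, -, -, -, pb, -, -, -, hI, hA⟩ := p U hU
  have sup := fun z => (pb z).2
  have U0 : 0 < U := zero_lt_one.trans_le hU
  obtain ⟨C, hC⟩ := part1 k U0.ne'
  refine ⟨fun _ _ => ⟨C, fun z _ => hC z⟩, ?_⟩
  have mt : ∀ b, Measurable (tr U b) := fun b => k.msr _ _ pm
  obtain ⟨E, hE⟩ : ∃ E : ℍ → ℂ, E = fun z => (∑' b : ℤ, tr U b z) + I * c1 U := ⟨_, rfl⟩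
  have mE : Measurable E := hE ▸ (k.mts ℤ (tr U) mt (tr_sum sup k)).add_const _
  have bE : ∀ z : ℍ, z.im ^ 2 * ‖E z‖ ≤ C := fun z =>
    hE ▸ (le_div_iff₀' (pow_pos z.im_pos 2)).1 (hC z)
  obtain ⟨r₀, r0, hr⟩ : ∃ r₀ : ℝ, 0 < r₀ ∧ 4 * U * r₀ = 1 :=
    ⟨1 / (4 * U), by positivity, by field_simp⟩
  have u : ⋃ R, Ann r₀ R = {z : ℍ | r₀ ≤ ‖(z : ℂ)‖} :=
    Set.ext fun z => Set.mem_iUnion.trans ⟨fun ⟨_, h⟩ => h.1, fun h => ⟨_, h, le_rfl⟩⟩
  have iE : IntegrableOn (pe E (ph U)) (⋃ R, Ann r₀ R) := u ▸ int1 hU sup hI mE (mge r₀)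
    (le_trans (by positivity) (bE UpperHalfPlane.I)) r0 (fun _ h => h) fun z _ => bE z
  have T := tendsto_setIntegral_of_monotone (mA r₀) (fun _ _ h _ hz => ⟨hz.1, hz.2.trans h⟩) iE
  refine ⟨-(I * c1 U * ∫ z in {z : ℍ | ‖(z : ℂ)‖ ≤ 1}, pe 1 (ph U) z),
    I * c1 U * (∫ z in {z : ℍ | ‖(z : ℂ)‖ < r₀}, pe 1 (ph U) z) + a1 U * Real.log r₀ +
      ∫ z in ⋃ R, Ann r₀ R, pe E (ph U) z, r₀, _, r0, tendsto_sub_nhds_zero_iff.2 T,
    fun r R hr0 h1 h2 => ?_⟩
  have R0 := r0.trans_le h2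
  have i1 : IntegrableOn (pe 1 (ph U)) {z : ℍ | ‖(z : ℂ)‖ ≤ R} :=
    int0 hI measurable_one (mle R) (B := 1 + R ^ 2) (by positivity)
      (fun z _ => by simpa using sq_nonneg R) fun z hz => le_add_of_nonneg_of_le zero_le_one
        (by simpa using pow_le_pow_left₀ z.im_pos.le ((im_le z).trans hz) 2)
  have s1 : Ann r₀ R = {z : ℍ | ‖(z : ℂ)‖ ≤ R} \ {z : ℍ | ‖(z : ℂ)‖ < r₀} :=
    Set.ext fun z => ⟨fun h => ⟨h.2, not_lt.2 h.1⟩, fun h => ⟨not_lt.1 h.2, h.1⟩⟩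
  have v1 : ∫ z in Ann r₀ R, pe 1 (ph U) z = R * (∫ z in {z : ℍ | ‖(z : ℂ)‖ ≤ 1}, pe 1 (ph U) z) -
      ∫ z in {z : ℍ | ‖(z : ℂ)‖ < r₀}, pe 1 (ph U) z := by
    rw [s1, setIntegral_sdiff (isOpen_lt cn continuous_const).measurableSet i1
      fun z hz => (le_of_lt hz).trans h2, scale k U R0]
  have it : ∀ b, IntegrableOn (pe (tr U b) (ph U)) (Ann r₀ R) := fun b =>
    int1 hU sup hI (mt b) (mA _ _) R0.le r0 (fun _ h => h.1) fun z hz => by
      obtain ⟨w, -, -, h3, h4⟩ := tr_eq k U b z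
      have h5 := (pb w).1.trans (one_div_le_one_div_of_le w.im_pos (im_le w))
      rw [h3, le_div_iff₀ z.im_pos] at h5
      rw [h4]
      nlinarith [(im_le z).trans hz.2, z.im_pos]
  have z0 : ∀ b ∉ Icc (-⌈4 * U * R⌉) ⌈4 * U * R⌉, ∀ z : ℍ, ‖(z : ℂ)‖ ≤ R →
      pe (tr U b) (ph U) z = 0 := fun b hb z hz => by_contra fun h => hb (memI
    ((pe_sup hU sup k h).le.trans (mul_le_mul_of_nonneg_left hz (by positivity))))
  have t0 : tr U 0 = ph U := (k.one _).1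
  have e1 : ∀ b : ℤ, (if b = 0 then 0 else ∫ z in Ann r R, pe (tr U b) (ph U) z) =
      (∫ z in Ann r₀ R, pe (tr U b) (ph U) z) -
        if b = 0 then ∫ z in Ann r₀ R, pe (ph U) (ph U) z else 0 := fun b => by
    split_ifs with h
    · rw [h, t0, sub_self]
    · rw [sub_zero]
      refine setIntegral_eq_of_subset_of_forall_sdiff_eq_zero (mA r R)
        (fun z hz => ⟨h1.trans hz.1, hz.2⟩) fun z hz => by_contra fun h' => hz.2 ⟨?_, hz.1.2⟩
      have : (1 : ℝ) ≤ |(b : ℝ)| := by exact_mod_cast Int.one_le_abs h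
      exact (lt_of_mul_lt_mul_left (hr.trans_lt (this.trans_lt (pe_sup hU sup k h')))
        (by positivity)).le
  have e2 : ∑ b ∈ Icc (-⌈4 * U * R⌉) ⌈4 * U * R⌉, ∫ z in Ann r₀ R, pe (tr U b) (ph U) z =
      (∫ z in Ann r₀ R, pe E (ph U) z) - I * c1 U * ∫ z in Ann r₀ R, pe 1 (ph U) z := by
    rw [← integral_finsetSum _ fun b _ => it b, ← integral_const_mul, ← integral_sub
      (iE.mono_set (Set.subset_iUnion _ R)) ((i1.mono_set fun _ h => h.2).const_mul _)]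
    refine setIntegral_congr_fun (mA _ _) fun z hz => ?_
    have := (hasSum_sum_of_ne_finset_zero fun b hb => z0 b hb z hz.2).unique
      (((tr_sum sup k z).hasSum.mul_right ((starRingEnd ℂ) (ph U z))).mul_right ((z.im : ℂ) ^ 2))
    refine this.trans ?_
    simp only [hE, pe, Pi.one_apply]
    ring
  simp only [e1]
  have H := (hasSum_sum_of_ne_finset_zero (L := SummationFilter.unconditional ℤ)
    (f := fun b => ∫ z in Ann r₀ R, pe (tr U b) (ph U) z)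
    fun b hb => setIntegral_eq_zero_of_forall_eq_zero fun z hz => z0 b hb z hz.2).sub
      (hasSum_ite_eq 0 (∫ z in Ann r₀ R, pe (ph U) (ph U) z))
  refine (congrArg (fun s => HasSum _ s) ?_).mp H
  have v2 : ∫ z in Ann r₀ R, pe (ph U) (ph U) z = _ := (hA r₀ R r0 h2).2
  rw [e2, v1, v2, Real.log_div R0.ne' r0.ne']
  push_cast
  ring

end Pool.Agent.MP_20b2fd_nt.H38
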