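import Pool.Agent.MP_20b2fd_nt.H38.SpecA

/-! The Hecke operator on the sums over matrices of fixed determinant. -/

set_option autoImplicit false

namespace Pool.Agent.MP_20b2fd_nt.H38

open UpperHalfPlane hiding I
open MeasureTheory Complex Finset Filter Topology
open scoped ModularForm Real Manifold ENNReal

namespace XtA

open Classical in
theorem tsum_inj (φ : Mt → ℂ) (A B : Set Mt) (T : Finset Mt) (hT : ∀ g ∈ B, φ g ≠ 0 → g ∈ T)
    (e : Mt → Mt) (he : Function.Injective e) (hA : ∀ h ∈ A, e h ∈ B) :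
    ∑' h : A, φ (e h) = ∑ g ∈ T, if ∃ h ∈ A, g = e h then φ g else 0 := by
  have h1 : Function.Injective fun h : A => e h := he.comp Subtype.val_injective
  rw [← tsum_eq_sum (L := SummationFilter.unconditional _) fun g hg => ?_,
    ← h1.tsum_eq fun g hg => ?_]
  · exact tsum_congr fun h => (if_pos ⟨h, h.2, rfl⟩).symm
  · by_contra h2
    exact hg (if_neg fun ⟨h, h3, h4⟩ => h2 ⟨⟨h, h3⟩, h4.symm⟩)
  · split_ifs with h2
    · obtain ⟨h, h3, rfl⟩ := h2
      by_contra h4
      exact hg (hT _ (hA h h3) h4)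
    · rfl

theorem det_mul (g h : Mt) : det (mul g h) = det g * det h := by
  simp only [det, mul]
  ring

theorem det_rp (p i : ℕ) : det (rp p i) = p := by
  unfold rp
  split_ifs <;> simp [det]

theorem det_smu (n : ℤ) (g : Mt) : det (smu n g) = n * n * det g := by
  simp only [det, smu]
  ring

theorem rp_inj {p : ℕ} (hp : p ≠ 0) (i : ℕ) : Function.Injective fun h : Mt => mul h (rp p i) := by
  have hp' : (p : ℤ) ≠ 0 := by exact_mod_cast hp
  rintro ⟨a, b, c, d⟩ ⟨a', b', c', d'⟩ h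
  unfold rp at h
  split_ifs at h <;> simp only [mul, mul_one, mul_zero, add_zero, zero_add, Prod.mk.injEq] at h
  · obtain ⟨rfl, h2, rfl, h4⟩ := h
    rw [add_right_inj, mul_left_inj' hp'] at h2 h4
    rw [h2, h4]
  · obtain ⟨h1, rfl, h3, rfl⟩ := h
    rw [mul_left_inj' hp'] at h1 h3
    rw [h1, h3]

theorem smu_inj {n : ℤ} (hn : n ≠ 0) : Function.Injective (smu n) := by
  rintro ⟨a, b, c, d⟩ ⟨a', b', c', d'⟩ h
  simp only [smu, Prod.mk.injEq, mul_right_inj' hn] at h
  obtain ⟨rfl, rfl, rfl, rfl⟩ := h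
  rfl

theorem rp_mem {N m : ℕ} (p i : ℕ) {h : Mt} (hh : h ∈ MM N m) : mul h (rp p i) ∈ MM N (p * m) := by
  refine ⟨by rw [det_mul, det_rp, hh.1]; push_cast; ring, ?_⟩
  unfold rp
  split_ifs <;> simp only [mul, mul_one, mul_zero, add_zero]
  · exact hh.2
  · exact hh.2.mul_right _

end XtA

open XtA in
theorem xtOf : XtOf := by
  classical
  intro K hC hX N m p U hN hp hpN hm hU
  funext z
  have hp0 : (0 : ℤ) < p := by exact_mod_cast hp.pos
  have hm0 : (0 : ℤ) < m := by exact_mod_cast hm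
  have hfin := (hX N (p * m) U hN (Nat.mul_pos hp.pos hm) hU).1 z
  have hT : ∀ g ∈ MM N (p * m), sl (ph U) g z ≠ 0 → g ∈ hfin.toFinset := fun g h1 h2 =>
    hfin.mem_toFinset.2 ⟨h1, h2⟩
  have hT' : ∀ g ∈ hfin.toFinset, g ∈ MM N (p * m) := fun g hg => (hfin.mem_toFinset.1 hg).1
  generalize hfin.toFinset = T at hT hT'
  have h1 : ∀ i, sl (AA N U m) (rp p i) z =
      ∑ g ∈ T, if ∃ h ∈ MM N m, g = mul h (rp p i) then sl (ph U) g z else 0 := fun i => by
    have hd : 0 < det (rp p i) := by rw [det_rp]; exact hp0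
    rw [← tsum_inj (fun g => sl (ph U) g z) _ _ T hT _ (rp_inj hp.ne_zero i)
      fun h hh => rp_mem p i hh, K.slz _ _ _ hd, AA, ← tsum_mul_left]
    refine tsum_congr fun h => ?_
    rw [← K.slz _ _ _ hd, K.slm _ _ _ (by rw [h.2.1]; exact hm0.ne') hd.ne']
  have h2 : AA N U (p * m) z = ∑ g ∈ T, sl (ph U) g z := by
    refine (tsum_inj (fun g => sl (ph U) g z) _ _ T hT id Function.injective_id
      fun _ hh => hh).trans (sum_congr rfl fun g hg => if_pos ⟨g, hT' g hg, rfl⟩)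
  have h3 : TT p (AA N U m) z = ∑ g ∈ T, sl (ph U) g z +
      p * ∑ g ∈ T, if ∃ h : Mt, g = smu p h then sl (ph U) g z else 0 := by
    simp only [TT, h1]
    rw [sum_comm, mul_sum, ← sum_add_distrib]
    refine sum_congr rfl fun g hg => ?_
    rw [← sum_filter, sum_const, nsmul_eq_mul]
    have h4 := (hC N p hN hp hpN).2.1 m g (hT' g hg)
    by_cases h5 : ∃ h : Mt, g = smu p h
    · rw [if_pos h5] at h4 ⊢
      rw [h4]
      push_cast
      ring
    · rw [if_neg h5] at h4 ⊢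
      rw [h4]
      simp
  rw [h3, h2]
  congr 1
  split_ifs with h4
  · obtain ⟨n, rfl⟩ := h4
    have hn0 : (0 : ℤ) < n := by
      have : 0 < n := Nat.pos_of_mul_pos_left hm
      exact_mod_cast this
    rw [Nat.mul_div_cancel_left _ hp.pos]
    congr 1
    have h5 := tsum_inj (fun g => sl (ph U) g z) (MM N n) _ T hT (smu p) (smu_inj hp0.ne')
      fun h hh => ⟨by rw [det_smu, hh.1]; push_cast; ring, hh.2.mul_left _⟩
    rw [AA, tsum_congr fun h : MM N n =>
      (congrFun (K.sca (ph U) p h hp0.ne' (by rw [h.2.1]; exact hn0)).1 z).symm, h5]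
    refine sum_congr rfl fun g hg => if_congr ⟨?_, fun ⟨h, _, e⟩ => ⟨h, e⟩⟩ rfl rfl
    rintro ⟨h, rfl⟩
    obtain ⟨e1, e2⟩ := hT' _ hg
    refine ⟨h, ⟨?_, ?_⟩, rfl⟩
    · rw [det_smu] at e1
      push_cast at e1
      exact mul_left_cancel₀ (mul_ne_zero hp0.ne' hp0.ne') (e1.trans (by ring))
    · exact IsCoprime.dvd_of_dvd_mul_left
        (Nat.isCoprime_iff_coprime.2 ((Nat.coprime_primes hN hp).2 hpN.symm)) e2
  · rw [sum_eq_zero fun g hg => if_neg ?_, mul_zero]
    rintro ⟨h, rfl⟩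
    have e1 := (hT' _ hg).1
    rw [det_smu, mul_assoc] at e1
    push_cast at e1
    exact h4 (Int.natCast_dvd_natCast.1 ⟨det h, (mul_left_cancel₀ hp0.ne' e1).symm⟩)

end Pool.Agent.MP_20b2fd_nt.H38
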