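import Pool.Agent.MP_20b2fd_nt.H38.Kit
import Pool.Agent.MP_20b2fd_nt.H38.Th
import Pool.Agent.MP_20b2fd_nt.H38.Rg
import Pool.Agent.MP_20b2fd_nt.H38.Eta
import Pool.Agent.MP_20b2fd_nt.H38.Unf
import Pool.Agent.MP_20b2fd_nt.H38.Dec
import Pool.Agent.MP_20b2fd_nt.H38.Cos
import Pool.Agent.MP_20b2fd_nt.H38.Adj
import Pool.Agent.MP_20b2fd_nt.H38.Qx
import Pool.Agent.MP_20b2fd_nt.H38.Cusp
import Pool.Agent.MP_20b2fd_nt.H38.Hq
import Pool.Agent.MP_20b2fd_nt.H38.Fd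
import Pool.Agent.MP_20b2fd_nt.H38.Rs
import Pool.Agent.MP_20b2fd_nt.H38.Kap
import Pool.Agent.MP_20b2fd_nt.H38.Hb
import Pool.Agent.MP_20b2fd_nt.H38.Eg0
import Pool.Agent.MP_20b2fd_nt.H38.Eig
import Pool.Agent.MP_20b2fd_nt.H38.Bes
import Pool.Agent.MP_20b2fd_nt.H38.Af
import Pool.Agent.MP_20b2fd_nt.H38.Kl
import Pool.Agent.MP_20b2fd_nt.H38.Bb
import Pool.Agent.MP_20b2fd_nt.H38.Ik
import Pool.Agent.MP_20b2fd_nt.H38.Pa
import Pool.Agent.MP_20b2fd_nt.H38.Pb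
import Pool.Agent.MP_20b2fd_nt.H38.Pc
import Pool.Agent.MP_20b2fd_nt.H38.Pd
import Pool.Agent.MP_20b2fd_nt.H38.Pe
import Pool.Agent.MP_20b2fd_nt.H38.LsB
import Pool.Agent.MP_20b2fd_nt.H38.LsA
import Pool.Agent.MP_20b2fd_nt.H38.Ph
import Pool.Agent.MP_20b2fd_nt.H38.Xa
import Pool.Agent.MP_20b2fd_nt.H38.Xt
import Pool.Agent.MP_20b2fd_nt.H38.Xs
import Pool.Agent.MP_20b2fd_nt.H38.Xb
import Pool.Agent.MP_20b2fd_nt.H38.Xc
import Pool.Agent.MP_20b2fd_nt.H38.Xi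
import Pool.Agent.MP_20b2fd_nt.H38.Xd
import Pool.Agent.MP_20b2fd_nt.H38.Xg
import Pool.Agent.MP_20b2fd_nt.H38.Xe
import Pool.Agent.MP_20b2fd_nt.H38.Xf
import Pool.Agent.MP_20b2fd_nt.H38.Bi
import Pool.Agent.MP_20b2fd_nt.H38.Kh
import Pool.Agent.MP_20b2fd_nt.H38.Kd
import Pool.Agent.MP_20b2fd_nt.H38.Ker
import Pool.Agent.MP_20b2fd_nt.H38.Aut

/-! The automorphic rows put together. -/

namespace Pool.Agent.MP_20b2fd_nt.H38.All

theorem rg : RgS := rgOf kit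
theorem eta : EtaS := etaOf kit th rg
theorem unf : UnfS := unfOf kit eta
theorem dec : DecS := decOf kit
theorem cos : CosS := cosOf kit
theorem adj : AdjS := adjOf kit eta cos
theorem qx : QxS := qxOf kit
theorem cusp : CuspS := cuspOf kit dec
theorem hq : HqS := hqOf kit cos qx cusp
theorem rs : RsA := rsOf kit th eta dec qx cusp
theorem kap : KapS := kapOf th
theorem eig : EigS := eigOf kit eta dec cos adj qx cusp hq (fdOf qx) rs kap hb eg0
theorem af : AfS := afOf kit qx cusp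
theorem ik : IkS := ikOf kl bbS
theorem pc : PcS := pcOf kit rg
theorem pd : PdS := pdOf kit qx cusp kl bbS (paOf ik bbS) (pbOf kit) pc
theorem pe : PeS := peOf kit eta unf dec qx cusp pc pd
theorem lsA : LsA := lsAOf kit rg unf dec qx cusp (lsBOf kit)
theorem ph : PhS := phOf kit
theorem xa : XaS := xaOf kit ph
theorem xt : XtS := xtOf kit cos xa
theorem xs : XsS := xsOf kit ph
theorem xb : XbS := xbOf kit dec ph xa xs
theorem xg : XgS := xgOf kit ph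
theorem xi : XiS := xiOf kit eta unf dec adj qx cusp hq ph xa xt (xcOf kit cusp ph)
theorem xf : XfS :=
  xfOf kit hb ph xa xb xi (xdOf kit eta unf dec adj hb ph xa xt xb) (xeOf kit dec ph xa xs xg)
theorem ker : KerS := kerOf xg bi (khOf bi) (kdOf kit ph xg)
theorem aut : AutS := autOf kit eta dec qx cusp hq rs eig (besOf kit eta) af pd pe lsA ph xf

end Pool.Agent.MP_20b2fd_nt.H38.All
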