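import Pool.Agent.MP_20b2fd_nt.H38.Mel11

/-! The kernel is cut off near minus one. -/

set_option autoImplicit false

namespace Pool.Agent.MP_20b2fd_nt.H38

open Filter Topology

namespace Mel1A

/-- the properties of the factor -/
structure GG (g : ℕ → ℝ → ℝ) (η B A : ℝ) : Prop where
  d : ∀ y, At g y
  z : ∀ i y, y < 2 * Real.log η → g i y = 0
  b1 : ∀ i ≤ 4, ∀ y ≤ B, |g i y| ≤ A
  b2 : ∀ i ≤ 4, 1 ≤ i → ∀ y ≤ 0, |g i y| * (1 + |y|) ≤ A

variable {g : ℕ → ℝ → ℝ} {η B A : ℝ}

theorem GG.c1 (hg : GG g η B A) (hA : 0 ≤ A) {j : ℕ} (hj : j ≤ 4) {t m : ℝ} (ht : t ≠ -1)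
    (hB : |t| ≤ B) (h0 : 0 < m) (hm : m ≤ |1 + t|) : |cc g j t| ≤ 24 * A / m ^ j := by
  refine (mul_one _).ge.trans (cc_le hj ht zero_le_one hA h0 hm fun i hi _ => ?_)
  refine (mul_one _).trans_le (hg.b1 i hi _ ?_)
  have h1 := abs_add_le 1 t
  rw [abs_one] at h1
  linarith [Real.log_le_sub_one_of_pos (h0.trans_le hm)]

theorem GG.c2 (hg : GG g η B A) (hA : 0 ≤ A) {j : ℕ} (h1 : 1 ≤ j) (hj : j ≤ 4) {t : ℝ}
    (h0 : t ≠ 0) (ht : t ≠ -1) (hB : |t| ≤ B) :
    |cc g j t| * (1 + |Real.log (mn t)|) ≤ 384 * A / mn t ^ j := by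
  have hm := mn_pos h0 ht
  rcases le_total |1 + t| (1 / 2) with h | h
  · have e : mn t = |1 + t| := by
      rw [mn, min_eq_right (by linarith [one_le_add t] : |1 + t| ≤ |t|), min_eq_right (by linarith)]
    refine (cc_le hj ht (by positivity) hA hm (mn_le t) fun i hi h2 => ?_).trans
      (div_le_div_of_nonneg_right (by linarith) (by positivity))
    rw [e]
    exact hg.b2 i hi (by omega) _ (Real.log_nonpos (abs_nonneg _) (by linarith))
  · have h2 := hg.c1 hA hj ht hB one_half_pos h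
    have h3 : 24 * A / (1 / 2) ^ j ≤ 384 * A := by
      rw [one_div, inv_pow, div_inv_eq_mul]
      have := mul_le_mul_of_nonneg_left (pow_le_pow_right₀ (one_le_two (α := ℝ)) hj) hA
      linarith
    have h4 : 1 / mn t ≤ 1 / mn t ^ j :=
      one_div_le_one_div_of_le (pow_pos hm _) (pow_le_of_le_one hm.le (min_le_left _ _) (by omega))
    rw [div_eq_mul_one_div]
    exact mul_le_mul (h2.trans h3) ((log_le hm (min_le_left _ _)).trans h4) (by positivity)
      (by positivity)

theorem three {a b c d e f r s : ℝ} (hr : 0 ≤ r) (hs : 0 ≤ s) (ha : |a| ≤ r) (hb : |b| ≤ 24 * s)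
    (hc : |c| ≤ 2 * r) (hd : |d| ≤ 96 * s) (he : |e| ≤ 2 * r) (hf : |f| ≤ 48 * s) :
    |a * b + c * d + e * f| ≤ 6144 * (r * s) := by
  refine (abs_add_three _ _ _).trans ?_
  rw [abs_mul, abs_mul, abs_mul]
  have h1 := mul_le_mul ha hb (abs_nonneg _) hr
  have h2 := mul_le_mul hc hd (abs_nonneg _) (by positivity)
  have h3 := mul_le_mul he hf (abs_nonneg _) (by positivity)
  linarith [mul_nonneg hr hs]

theorem cut {K : ℝ → ℝ} (hB : 1 ≤ B) (hK : KerOK B K) (h0 : 0 < η) (h1 : η ≤ 1) (hA : 0 ≤ A)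
    (hg : GG g η B A) {B' E : ℝ} (hB' : 6144 * B * A ≤ B') (hE : 6144 * B * A / η ^ 8 ≤ E) :
    CutOK B B' E fun t => K t * cc g 0 t := by
  obtain ⟨D, rfl, d1, d2, d3, d4⟩ := hK
  have hBA : 0 ≤ B * A := by positivity
  have k0 : ∀ j t, B < |t| → D j t = 0 := fun j => by
    induction j with
    | zero => exact fun t ht => d2 t ht.le
    | succ j ih =>
      intro t ht
      refine (d1 j t ?_ ?_).unique ((hasDerivAt_const t 0).congr_of_eventuallyEq
        (((continuous_abs.tendsto t).eventually (eventually_gt_nhds ht)).mono ih))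
      · rintro rfl
        rw [abs_zero] at ht
        linarith
      · rintro rfl
        rw [abs_neg, abs_one] at ht
        linarith
  have m0 : ∀ t, t ≠ 0 → t ≠ -1 →
      |D 0 t * cc g 0 t| ≤ 6144 * B * A * (1 + |Real.log (mn t)|) := fun t t0 t1 => by
    rcases le_or_gt |t| B with h | h
    · have h2 := mul_le_mul (d3 t t0 t1).1 (hg.c1 hA (Nat.zero_le 4) t1 h (mn_pos t0 t1) (mn_le t))
        (abs_nonneg _) (by positivity)
      rw [pow_zero, div_one, ← abs_mul] at h2
      linarith [mul_nonneg hBA (show 0 ≤ 1 + |Real.log (mn t)| by positivity)]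
    · rw [k0 0 t h, zero_mul, abs_zero]
      positivity
  have m1 : ∀ t, t ≠ 0 → t ≠ -1 → ∀ j, 1 ≤ j → j ≤ 4 →
      |LL j D (cc g) t| ≤ 6144 * B * A / mn t ^ j := fun t t0 t1 j j1 j4 => by
    have hm := mn_pos t0 t1
    have h2 : 0 ≤ B * A / mn t ^ j := by positivity
    refine (LL_le j (X := 384 * (B * A / mn t ^ j)) fun i i' e => ?_).trans ?_
    · rcases le_or_gt |t| B with h | h
      · rcases Nat.eq_zero_or_pos i with rfl | hi
        · rw [zero_add] at e
          have h3 := mul_le_mul_of_nonneg_left (hg.c2 hA j1 j4 t0 t1 h) (zero_le_one.trans hB)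
          have h4 := mul_le_mul_of_nonneg_right (d3 t t0 t1).1 (abs_nonneg (cc g j t))
          rw [e]
          exact h4.trans ((le_of_eq (by ring)).trans (h3.trans_eq (by ring)))
        · refine (mul_le_mul ((d3 t t0 t1).2.2 i hi (by omega))
            (hg.c1 hA (by omega : i' ≤ 4) t1 h hm (mn_le t)) (abs_nonneg _) (by positivity)).trans ?_
          rw [div_mul_div_comm, ← pow_add, e, show B * (24 * A) = 24 * (B * A) by ring,
            mul_div_assoc]
          linarith
      · rw [k0 i t h, abs_zero, zero_mul]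
        positivity
    · have h3 := mul_le_mul_of_nonneg_right (pow_le_pow_right₀ (one_le_two (α := ℝ)) j4) h2
      rw [mul_assoc 6144, mul_div_assoc 6144]
      linarith
  have z1 : ∀ j t, |1 + t| < η ^ 2 → LL j D (cc g) t = 0 := fun j t ht =>
    LL_zero j (cc_zero hg.z ht)
  have e0 : |1 + (-1 : ℝ)| < η ^ 2 := by simpa using pow_pos h0 2
  have hE0 : 0 ≤ E := le_trans (by positivity) hE
  refine ⟨fun j => LL j D (cc g), rfl, fun j t t0 => ?_, fun t ht => mul_eq_zero_of_left (d2 t ht) _,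
    fun t t0 t1 => ⟨(m0 t t0 t1).trans (mul_le_mul_of_nonneg_right hB' (by positivity)), ?_,
      (m1 t t0 t1 2 one_le_two (by norm_num)).trans
        (div_le_div_of_nonneg_right hB' (sq_nonneg _))⟩, fun t t0 ht => ?_, fun t t0 => ?_⟩
  · by_cases t1 : t = -1
    · beta_reduce
      rw [t1, z1 _ _ e0]
      exact (hasDerivAt_const _ 0).congr_of_eventuallyEq ((((continuous_const.add
        continuous_id).abs.tendsto _).eventually (eventually_lt_nhds e0)).mono (z1 j))
    · exact LL_deriv j (fun i => d1 i t t0 t1) (cc_deriv hg.d t1)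
  · have := m1 t t0 t1 1 le_rfl (by norm_num)
    rw [pow_one] at this
    exact this.trans (div_le_div_of_nonneg_right hB' (mn_pos t0 t1).le)
  · have n1 : ∀ x : ℝ, |x| ≤ 1 / 2 → x ≠ -1 := fun x hx e => by
      rw [e, abs_neg, abs_one] at hx
      linarith
    have c1 : ∀ j ≤ 4, ∀ x : ℝ, |x| ≤ 1 / 2 → |cc g j x| ≤ 24 * A * 2 ^ j := fun j hj x hx => by
      have := hg.c1 hA hj (n1 x hx) (by linarith) one_half_pos (by linarith [one_le_add x])
      rwa [one_div, inv_pow, div_inv_eq_mul] at this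
    have ht' : |-t| ≤ 1 / 2 := by rwa [abs_neg]
    have a0 := abs_pos.2 t0
    have em : mn t = |t| := by
      rw [mn, min_eq_left (by linarith [one_le_add t] : |t| ≤ |1 + t|), min_eq_right (by linarith)]
    obtain ⟨k1, k2, k3⟩ := d3 t t0 (n1 t ht)
    obtain ⟨k4, k5⟩ := d4 t t0 ht
    have k6 := k3 1 le_rfl (by norm_num)
    rw [em] at k1
    rw [em, pow_one, le_div_iff₀ a0, ← abs_mul] at k6
    have s0 := Real.sqrt_nonneg |t|
    have s1 : |t| ≤ √|t| := Real.le_sqrt_of_sq_le (by nlinarith)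
    have s2 : 0 ≤ B * √|t| := by positivity
    have s3 : |t * D 0 t| ≤ 2 * (B * √|t|) := by
      have h2 := mul_le_mul_of_nonneg_left k1 a0.le
      have h3 := mul_le_mul_of_nonneg_left (log_le' a0 (by linarith)) (zero_le_one.trans hB)
      rw [abs_mul]
      linarith
    have s4 : 6144 * (B * √|t| * A) ≤ B' * √|t| :=
      (le_of_eq (by ring)).trans (mul_le_mul_of_nonneg_right hB' s0)
    have c0 := fun x hx => (c1 0 (by norm_num) x hx).trans_eq (mul_one _)
    have c2 : ∀ x : ℝ, |x| ≤ 1 / 2 → |cc g 1 x| ≤ 48 * A := fun x hx =>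
      (c1 1 (by norm_num) x hx).trans_eq (by ring)
    refine ⟨le_trans (le_of_eq_of_le (congrArg abs ?_) (three (c := t * D 0 t)
      (d := cc g 1 t + t * cc g 2 t) (e := 2 * t * (D 1 t * t)) s2 hA k4 (c0 t ht) s3 ?_ ?_
      (c2 t ht))) s4, le_trans ?_ s4, le_trans ?_ s4⟩
    · simp only [LL]
      ring
    · have h2 := mul_le_mul ht (c1 2 (by norm_num) t ht) (abs_nonneg _) one_half_pos.le
      rw [← abs_mul] at h2
      linarith [abs_add_le (cc g 1 t) (t * cc g 2 t), c2 t ht]
    · have h2 := mul_le_mul s1 k6 (abs_nonneg _) s0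
      rw [mul_assoc, abs_mul, abs_mul, abs_two]
      linarith
    · have h2 := (convex_Icc (-(1 / 2) : ℝ) (1 / 2)).norm_image_sub_le_of_norm_hasDerivWithin_le
        (f := cc g 0) (f' := cc g 1) (C := 48 * A)
        (fun x hx => (cc_deriv hg.d (n1 x (abs_le.2 hx)) 0).hasDerivWithinAt)
        (fun x hx => c2 x (abs_le.2 hx)) (abs_le.1 ht') (abs_le.1 ht)
      rw [Real.norm_eq_abs, Real.norm_eq_abs, sub_neg_eq_add, ← two_mul, abs_mul, abs_two] at h2
      have h3 := mul_le_mul k5 (c0 _ ht') (abs_nonneg _) s2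
      have h4 := mul_le_mul_of_nonneg_left h2 (abs_nonneg (D 0 t))
      have h5 := mul_le_mul_of_nonneg_left s3 hA
      have h6 := abs_add_le ((D 0 t - D 0 (-t)) * cc g 0 (-t)) (D 0 t * (cc g 0 t - cc g 0 (-t)))
      rw [abs_mul] at h5
      rw [abs_mul, abs_mul] at h6
      refine le_trans (le_of_eq_of_le (congrArg abs (by ring)) h6) ?_
      linarith [mul_nonneg s2 hA]
    · have e1 : D 0 (-1 + t) = -D 0 (-t) := by
        rw [← (d3 (-t) (neg_ne_zero.2 t0) (n1 _ ht')).2.1, sub_neg_eq_add]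
      have e2 : cc g 0 (-1 + t) = g 0 (Real.log |t|) := by
        rw [cc, if_neg (by simpa using t0), add_neg_cancel_left, pow_zero, div_one, PP]
      have e3 : cc g 0 (-1 - t) = g 0 (Real.log |t|) := by
        rw [cc, if_neg (by simpa using t0), ← add_sub_assoc, add_neg_cancel, zero_sub, abs_neg,
          pow_zero, div_one, PP]
      have h2 := mul_le_mul k5 (hg.b1 0 (by norm_num) (Real.log |t|)
        ((Real.log_nonpos a0.le (by linarith)).trans (by linarith))) (abs_nonneg _) s2
      rw [← abs_mul] at h2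
      beta_reduce
      rw [e1, e2, k2, e3]
      refine le_trans (le_of_eq_of_le (congrArg abs (by ring)) h2) ?_
      linarith [mul_nonneg s2 hA]
  · rcases lt_or_ge |1 + t| (η ^ 2) with h | h
    · refine ⟨?_, fun j _ _ => ?_⟩
      · beta_reduce
        rw [cc_zero hg.z h, mul_zero, abs_zero]
        positivity
      · beta_reduce
        rw [z1 j t h, abs_zero]
        positivity
    have t1 : t ≠ -1 := fun e => by
      rw [e] at h
      linarith
    have p2 : η ^ 2 ≤ 1 := pow_le_one₀ h0.le h1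
    have q0 : 0 < min 1 |t| := lt_min one_pos (abs_pos.2 t0)
    have q1 : η ^ 2 * min 1 |t| ≤ mn t := by
      rw [mn, ← min_assoc]
      exact le_min (mul_le_of_le_one_left q0.le p2)
        ((mul_le_of_le_one_right (sq_nonneg _) (min_le_left _ _)).trans h)
    refine ⟨(m0 t t0 t1).trans ?_, fun j j1 j4 => (m1 t t0 t1 j j1 j4).trans ?_⟩
    · refine le_trans ?_ (mul_le_mul_of_nonneg_right hE (by positivity))
      rw [div_eq_mul_one_div, mul_assoc _ (1 / η ^ 8)]
      refine mul_le_mul_of_nonneg_left ?_ (by positivity)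
      have h2 := Real.log_le_log (by positivity) q1
      have h3 := log_le (pow_pos h0 2) p2
      have h4 : 1 / η ^ 2 ≤ 1 / η ^ 8 :=
        one_div_le_one_div_of_le (pow_pos h0 _) (pow_le_pow_of_le_one h0.le h1 (by norm_num))
      have h5 : -abs (Real.log |t|) ≤ Real.log (min 1 |t|) := by
        rcases le_total 1 |t| with h6 | h6
        · rw [min_eq_left h6, Real.log_one]
          exact neg_nonpos.2 (abs_nonneg _)
        · rw [min_eq_right h6]
          exact neg_abs_le _
      have h6 := mul_le_mul_of_nonneg_right (one_le_one_div (pow_pos h0 8) (pow_le_one₀ h0.le h1))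
        (abs_nonneg (Real.log |t|))
      rw [Real.log_mul (by positivity) q0.ne'] at h2
      rw [abs_of_nonpos (Real.log_nonpos (mn_pos t0 t1).le (min_le_left _ _))]
      linarith [neg_abs_le (Real.log (η ^ 2))]
    · refine le_trans ?_ (div_le_div_of_nonneg_right hE (by positivity))
      rw [div_div]
      refine div_le_div_of_nonneg_left (by positivity) (by positivity)
        (le_trans ?_ (pow_le_pow_left₀ (by positivity) q1 j))
      rw [mul_pow, ← pow_mul]
      exact mul_le_mul_of_nonneg_right (pow_le_pow_of_le_one h0.le h1 (by omega)) (by positivity)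

theorem gg1 {s : ℕ → ℝ → ℝ} {S l : ℝ} (hl : l = Real.log η) (h1 : l ≤ -1) (s1 : ∀ x, At s x)
    (s2 : ∀ i x, x < 0 → s i x = 0) (s3 : ∀ i ≤ 4, ∀ x, |s i x| ≤ S) :
    GG (fun i y => s i (2 - y / l) * (-l⁻¹) ^ i) η B (3 * S) := by
  have l0 : l < 0 := by linarith
  have hS := (abs_nonneg _).trans (s3 0 (by norm_num) 0)
  have p0 : 0 ≤ -l⁻¹ := neg_nonneg.2 (inv_nonpos.2 l0.le)
  have p1 : -l⁻¹ * -l = 1 := by rw [neg_mul_neg, inv_mul_cancel₀ l0.ne]
  have p2 : -l⁻¹ ≤ 1 := by nlinarith
  have z : ∀ i y, y < 2 * l → s i (2 - y / l) * (-l⁻¹) ^ i = 0 := fun i y hy => by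
    rw [s2 i _ (sub_neg.2 ((lt_div_iff_of_neg l0).2 hy)), zero_mul]
  refine ⟨fun y i => ?_, hl ▸ z, fun i hi y _ => ?_, fun i hi i1 y hy => ?_⟩
  · refine (((s1 _ i).comp y (((hasDerivAt_id y).div_const l).const_sub 2)).mul_const
      ((-l⁻¹) ^ i)).congr_deriv ?_
    simp only [id]
    ring
  · rw [abs_mul, abs_pow, abs_of_nonneg p0]
    linarith [mul_le_mul (s3 i hi (2 - y / l)) (pow_le_one₀ (n := i) p0 p2) (pow_nonneg p0 _) hS]
  · rcases lt_or_ge y (2 * l) with h | h
    · rw [z i y h, abs_zero, zero_mul]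
      positivity
    · have h2 := mul_le_mul (s3 i hi (2 - y / l)) (pow_le_of_le_one (n := i) p0 p2 (by omega))
        (pow_nonneg p0 _) hS
      have h3 : -l⁻¹ * (1 + -y) ≤ 3 := by nlinarith
      rw [abs_mul, abs_pow, abs_of_nonneg p0, abs_of_nonpos hy]
      linarith [mul_le_mul_of_nonneg_right h2 (show 0 ≤ 1 + -y by linarith),
        mul_le_mul_of_nonneg_left h3 hS]

theorem gg2 (hg : GG g η B A) (hA : 0 ≤ A) (hB : 1 ≤ B) (h1 : Real.log η ≤ 0) {c : ℝ}
    (hc : |c| ≤ 2) : GG (fun i y => g i y * (y + c) + i * g (i - 1) y) η B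
      (11 * A * B * (1 + |Real.log η|)) := by
  have z : ∀ i y, y < 2 * Real.log η → g i y * (y + c) + i * g (i - 1) y = 0 := fun i y hy => by
    rw [hg.z _ y hy, hg.z _ y hy, zero_mul, mul_zero, add_zero]
  have l0 := abs_nonneg (Real.log η)
  have l1 := mul_le_mul_of_nonneg_right hB l0
  have key : ∀ i ≤ 4, ∀ y ≤ B, ∀ w, 0 ≤ w → |g i y| * w ≤ A →
      (2 * Real.log η ≤ y → w ≤ 1 + 2 * |Real.log η|) →
      |g i y * (y + c) + i * g (i - 1) y| * w ≤ 11 * A * B * (1 + |Real.log η|) := by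
    intro i hi y hy w hw h2 h3
    rcases lt_or_ge y (2 * Real.log η) with h | h
    · rw [z i y h, abs_zero, zero_mul]
      positivity
    have h4 : |y + c| ≤ 3 * B * (1 + |Real.log η|) := by
      have h5 := abs_le.1 hc
      rw [abs_of_nonpos h1] at *
      rw [abs_le]
      constructor <;> linarith
    have h5 := mul_le_mul h2 h4 (abs_nonneg _) hA
    have h6 := mul_le_mul (mul_le_mul (show (i : ℝ) ≤ 4 by exact_mod_cast hi)
      (hg.b1 (i - 1) (by omega) y hy) (abs_nonneg _) (by norm_num)) (h3 h) hw (by positivity)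
    have h7 := mul_le_mul_of_nonneg_right (abs_add_le (g i y * (y + c)) (i * g (i - 1) y)) hw
    rw [abs_mul, abs_mul, Nat.abs_cast] at h7
    linarith [mul_le_mul_of_nonneg_left hB hA, mul_le_mul_of_nonneg_left l1 hA]
  refine ⟨fun y i => ?_, z, fun i hi y hy => (mul_one _).ge.trans (key i hi y hy 1 zero_le_one
    ((mul_one _).trans_le (hg.b1 i hi y hy)) fun _ => by linarith), fun i hi i1 y hy =>
    key i hi y (by linarith) _ (by positivity) (hg.b2 i hi i1 y hy) fun h => ?_⟩
  · refine (((hg.d y i).fun_mul ((hasDerivAt_id y).add_const c)).fun_add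
      ((hg.d y (i - 1)).const_mul (i : ℝ))).congr_deriv ?_
    cases i with
    | zero => simp
    | succ i =>
      simp only [Nat.add_sub_cancel, id, Nat.cast_succ]
      ring
  · rw [abs_of_nonpos hy, abs_of_nonpos h1]
    linarith

end Mel1A

open Mel1A in
theorem mel1 : Mel1S := by
  obtain ⟨s, S, hS, s0, s1, s2, s3⟩ := Mel1A.st
  refine ⟨6144 * (33 * S), by linarith, fun B η K hB hK h0 h1 => ?_⟩
  have l1 : Real.log η ≤ -1 := by
    have := Real.log_le_sub_one_of_pos (show 0 < 2 * η by linarith)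
    rw [Real.log_mul two_ne_zero h0.ne'] at this
    linarith [Real.log_two_gt_d9]
  have g1 := gg1 (B := B) rfl l1 s1 s2 s3
  have g2 := gg2 g1 (by linarith) hB (by linarith) (c := 2 * Real.eulerMascheroniConstant) (by
    rw [abs_le]
    constructor <;>
      linarith [Real.one_half_lt_eulerMascheroniConstant, Real.eulerMascheroniConstant_lt_two_thirds])
  have e1 : kc1 η K = fun t => K t * cc
      (fun i y => s i (2 - y / Real.log η) * (-(Real.log η)⁻¹) ^ i) 0 t := by
    funext t
    simp only [kc1, chi0, cc, Mel1A.PP, s0, pow_zero, mul_one, div_one]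
  have e2 : kc2 η K = fun t => K t * cc (fun i y => s i (2 - y / Real.log η) *
      (-(Real.log η)⁻¹) ^ i * (y + 2 * Real.eulerMascheroniConstant) +
      i * (s (i - 1) (2 - y / Real.log η) * (-(Real.log η)⁻¹) ^ (i - 1))) 0 t := by
    funext t
    simp only [kc2, kc1, chi0, cc, Mel1A.PP, s0, pow_zero, one_mul, div_one, Nat.cast_zero, zero_mul,
      add_zero, mul_assoc, ite_mul]
  have hSB : 0 ≤ S * B := by positivity
  have c0 : ∀ t, 0 ≤ chi0 η t ∧ chi0 η t ≤ 1 := fun t => by
    unfold chi0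
    split_ifs
    · exact ⟨le_rfl, zero_le_one⟩
    · exact ⟨Real.smoothTransition.nonneg _, Real.smoothTransition.le_one _⟩
  refine ⟨?_, ?_, fun t => ⟨fun h => ?_, fun h => ?_, ?_, ?_⟩⟩
  · rw [e1]
    exact cut hB hK h0 (by linarith) (by linarith) g1 (by linarith) (div_le_div₀ (by linarith)
      (by linarith) (pow_pos h0 _) (pow_le_pow_of_le_one h0.le (by linarith) (by norm_num)))
  · rw [e2]
    refine cut hB hK h0 (by linarith) (by positivity) g2 (le_of_eq (by ring)) ?_
    have := mul_le_mul_of_nonneg_left (log_le h0 (by linarith))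
      (show 0 ≤ 6144 * (33 * S) * B ^ 2 / η ^ 8 by positivity)
    exact (le_of_eq (by ring)).trans (this.trans_eq (by ring))
  · rw [kc1, chi0]
    split_ifs with e
    · exact mul_zero _
    · have := Real.log_le_log (abs_pos.2 (one_add_ne e)) h
      rw [Real.log_pow, Nat.cast_ofNat] at this
      rw [Real.smoothTransition.zero_of_nonpos
        (sub_nonpos.2 ((le_div_iff_of_neg (by linarith)).2 this)), mul_zero]
  · have := (div_le_one_of_neg (by linarith : Real.log η < 0)).2 (Real.log_le_log h0 h)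
    rw [kc1, chi0, if_neg fun e => by
      rw [e, add_neg_cancel, abs_zero] at h
      linarith, Real.smoothTransition.one_of_one_le (by linarith), mul_one]
  · rw [kc1, abs_mul, abs_of_nonneg (c0 t).1]
    exact mul_le_of_le_one_right (abs_nonneg _) (c0 t).2
  · rw [kc1, ← mul_one_sub, abs_mul, abs_of_nonneg (sub_nonneg.2 (c0 t).2)]
    exact mul_le_of_le_one_right (abs_nonneg _) (by linarith [(c0 t).1])

end Pool.Agent.MP_20b2fd_nt.H38
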