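import Pool.Agent.MP_20b2fd_nt.H38.SpecZ
import Pool.Agent.MP_c5bf7b_nt.H38.PhiR
import Pool.Agent.MP_c5bf7b_nt.H38.Base

/-! The entire function attached to a character: growth in the half plane of positive real part. -/

set_option autoImplicit false

namespace Pool.Agent.MP_20b2fd_nt.H38

open Complex Finset Filter Topology
open DirichletCharacter (LFunction)
open Pool.Agent.MP_c5bf7b_nt.H38 (Phi Ch base)
open Pool.Agent.MP_c5bf7b_nt.H38.PhiA Pool.Agent.MP_c5bf7b_nt.H38.BaseA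

namespace PhZA

open MP_ca0a54_nt.L0.ZetaA (pw norm_pw hasDerivAt_pw differentiable_tm tsum_tm_of_two_lt)

theorem tm_bd (n : ℕ) (s : ℂ) {σ : ℝ} (hσ : 0 < σ) (hs : σ ≤ s.re) :
    ‖MP_ca0a54_nt.L0.ZetaA.tm n s‖ ≤ ‖s - 1‖ * ‖s‖ * ((1 + n : ℕ) : ℝ) ^ (-σ - 1) := by
  rw [show ((1 + n : ℕ) : ℝ) = n + 1 by push_cast; ring]
  set m : ℝ := n + 1 with hm
  have hm1 : 1 ≤ m := by rw [hm]; linarith [Nat.cast_nonneg (α := ℝ) n]
  obtain ⟨B, hBm⟩ : ∃ B : ℝ, B = m ^ (-σ - 1) := ⟨_, rfl⟩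
  have hB0 : 0 ≤ B := by rw [hBm]; positivity
  rw [← hBm]
  have h1 : ∀ x ∈ Set.Icc m (m + 1), ‖pw (-s) x - pw (-s) m‖ ≤ ‖s‖ * B := by
    intro x hx
    have := norm_image_sub_le_of_norm_deriv_le_segment' (f := pw (-s))
      (f' := fun x => -s * pw (-s - 1) x) (a := m) (b := m + 1) (C := ‖s‖ * B)
      (fun y hy => (hasDerivAt_pw (-s) (by linarith [hy.1])).hasDerivWithinAt)
      (fun y hy => by
        rw [norm_mul, norm_neg, norm_pw _ (by linarith [hy.1]), hBm]
        refine mul_le_mul_of_nonneg_left ?_ (norm_nonneg _)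
        calc y ^ (-s - 1).re ≤ y ^ (-σ - 1) :=
              Real.rpow_le_rpow_of_exponent_le (by linarith [hy.1]) (by simp; linarith)
          _ ≤ m ^ (-σ - 1) :=
              Real.rpow_le_rpow_of_nonpos (by linarith) hy.1 (by linarith)) x hx
    refine this.trans ?_
    have h0 : 0 ≤ ‖s‖ * B := by positivity
    nlinarith [hx.1, hx.2]
  have h2 := norm_image_sub_le_of_norm_deriv_le_segment'
    (f := fun x : ℝ => pw (1 - s) x - (1 - s) * pw (-s) m * (x : ℂ))
    (f' := fun x => (1 - s) * (pw (-s) x - pw (-s) m)) (a := m) (b := m + 1)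
    (C := ‖s - 1‖ * ‖s‖ * B)
    (fun y hy => by
      have ha := hasDerivAt_pw (1 - s) (x := y) (by linarith [hy.1])
      have hb := ((hasDerivAt_id y).ofReal_comp).const_mul ((1 - s) * pw (-s) m)
      refine ((ha.sub hb).congr_deriv ?_).hasDerivWithinAt
      rw [show (1 - s - 1 : ℂ) = -s by ring]
      simp only [Complex.ofReal_one]
      ring)
    (fun y hy => by
      rw [norm_mul, norm_sub_rev 1 s, mul_assoc]
      exact mul_le_mul_of_nonneg_left (h1 y ⟨hy.1, hy.2.le⟩) (norm_nonneg _))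
    (m + 1) ⟨by linarith, le_rfl⟩
  rw [add_sub_cancel_left, mul_one] at h2
  refine le_of_eq_of_le ?_ h2
  congr 1
  simp only [MP_ca0a54_nt.L0.ZetaA.tm, ← hm]
  push_cast
  ring

theorem tsum_eq (s : ℂ) (hs : 0 < s.re) :
    ∑' n, MP_ca0a54_nt.L0.ZetaA.tm n s = riemannZeta₁ s - 1 := by
  have hU : IsOpen {s : ℂ | 0 < s.re} := isOpen_lt continuous_const Complex.continuous_re
  have hd : DifferentiableOn ℂ (fun s => ∑' n, MP_ca0a54_nt.L0.ZetaA.tm n s)
      {s : ℂ | 0 < s.re} := by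
    intro z hz
    have hz' : 0 < z.re / 2 := half_pos hz
    have hV : IsOpen ({s : ℂ | z.re / 2 < s.re} ∩ Metric.ball 0 (‖z‖ + 1)) :=
      (isOpen_lt continuous_const Complex.continuous_re).inter Metric.isOpen_ball
    have := Complex.differentiableOn_tsum_of_summable_norm (F := MP_ca0a54_nt.L0.ZetaA.tm)
      ((summable_rpow le_rfl hz').mul_left ((‖z‖ + 2) * (‖z‖ + 1)))
      (fun n => (differentiable_tm n).differentiableOn)
      hV (fun n w hw => by
        have hw2 : ‖w‖ < ‖z‖ + 1 := by simpa using hw.2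
        have hw3 : ‖w - 1‖ ≤ ‖z‖ + 2 := (norm_sub_le _ _).trans (by simp; linarith)
        refine (tm_bd n w hz' (le_of_lt hw.1)).trans ?_
        gcongr)
    exact (this.differentiableAt (hV.mem_nhds ⟨show z.re / 2 < z.re from half_lt_self (show 0 < z.re from hz), by simp⟩)).differentiableWithinAt
  have ha := hd.analyticOnNhd hU
  have hb : AnalyticOnNhd ℂ (fun s => riemannZeta₁ s - 1) {s : ℂ | 0 < s.re} :=
    (differentiable_riemannZeta₁.sub_const 1).differentiableOn.analyticOnNhd hU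
  refine ha.eqOn_of_preconnected_of_eventuallyEq hb (convex_halfSpace_re_gt _).isPreconnected
    (z₀ := 3) (by simp) ?_ hs
  have : {s : ℂ | 2 < s.re} ∈ 𝓝 (3 : ℂ) :=
    (isOpen_lt continuous_const Complex.continuous_re).mem_nhds (by simp; norm_num)
  filter_upwards [this] with z hz using tsum_tm_of_two_lt z hz

theorem zeta_bd (s : ℂ) (hs : 0 < s.re) :
    ‖riemannZeta₁ s‖ ≤ ‖s - 1‖ * ‖s‖ * (1 + 1 / s.re) + 1 := by
  have h1 : ∑' n : ℕ, ((1 + n : ℕ) : ℝ) ^ (-s.re - 1) ≤ 1 + 1 / s.re := by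
    simpa only [Nat.cast_one, Real.one_rpow, mul_one] using
      Real.tsum_le_of_sum_range_le (fun _ => by positivity) (sum_rpow_le le_rfl hs)
  have h2 : ‖riemannZeta₁ s - 1‖ ≤ ‖s - 1‖ * ‖s‖ * ∑' n : ℕ, ((1 + n : ℕ) : ℝ) ^ (-s.re - 1) := by
    rw [← tsum_eq s hs, ← tsum_mul_left]
    exact tsum_of_norm_bounded ((summable_rpow le_rfl hs).mul_left _).hasSum
      fun n => tm_bd n s hs le_rfl
  have h3 := norm_add_le (riemannZeta₁ s - 1) 1
  rw [sub_add_cancel, norm_one] at h3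
  have h4 := mul_le_mul_of_nonneg_left h1 (mul_nonneg (norm_nonneg (s - 1)) (norm_nonneg s))
  linarith

end PhZA

theorem phZ : PhZ := by
  refine ⟨2, one_le_two, fun q _ χ => ⟨phi_diff χ, fun s hs => phi_ne_zero χ hs, phi_ge χ,
    phi_conj χ, fun s hs => phi_logd χ hs, fun s hs => ?_, fun s hs => ?_⟩⟩
  · split_ifs with h
    · subst h
      exact phi_one_apply hs
    · rw [phi_ne h, one_mul]
  have hq : (1 : ℝ) ≤ q := Nat.one_le_cast.2 (NeZero.pos q)
  have h0 := norm_nonneg s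
  have hA : 1 ≤ 1 + 1 / s.re := le_add_of_nonneg_right (by positivity)
  by_cases h : χ = 1
  · subst h
    have h1 : ‖Phi (1 : Ch q) s‖ ≤ q * (‖s - 1‖ * ‖s‖ * (1 + 1 / s.re) + 1) := by
      rw [phi_one, triv_eq, norm_mul]
      exact mul_le_mul (norm_prod_le q hs.le) (PhZA.zeta_bd s hs) (norm_nonneg _) (by positivity)
    generalize 1 + 1 / s.re = A at hA h1 ⊢
    have h2 : ‖s - 1‖ ≤ 1 + ‖s‖ := (norm_sub_le _ _).trans (by rw [norm_one, add_comm])
    refine ⟨h1.trans ?_, fun h3 => ?_⟩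
    · have h3 : ‖s - 1‖ * ‖s‖ * A ≤ (1 + ‖s‖) * (1 + ‖s‖) * A := by gcongr; linarith
      have h4 : 1 ≤ (1 + ‖s‖) * (1 + ‖s‖) * A :=
        one_le_mul_of_one_le_of_one_le (by nlinarith) hA
      calc _ ≤ q * (2 * ((1 + ‖s‖) * (1 + ‖s‖) * A)) := by gcongr; linarith
        _ = _ := by ring
    · have h4 : 0 < ‖s - 1‖ := by linarith
      rw [phi_one_apply (sub_ne_zero.1 (norm_pos_iff.1 h4)), norm_mul] at h1
      refine le_of_mul_le_mul_left (h1.trans ?_) h4
      have h5 : 0 ≤ ‖s - 1‖ * ‖s‖ * A := by positivity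
      have h6 : 1 ≤ 2 * ‖s - 1‖ * A := one_le_mul_of_one_le_of_one_le (by linarith) hA
      calc _ ≤ q * (2 * (‖s - 1‖ * ‖s‖ * A) + 2 * ‖s - 1‖ * A) :=
          mul_le_mul_of_nonneg_left (by linarith) (by positivity)
        _ = _ := by ring
  · have h4 := ((base q χ h).2 s 1 hs le_rfl).2
    simp only [Finset.Icc_self, Finset.sum_singleton, Nat.cast_one, map_one, Complex.one_cpow,
      mul_one, Real.one_rpow] at h4
    have h6 := norm_add_le (LFunction χ s - 1) 1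
    rw [sub_add_cancel, norm_one] at h6
    rw [phi_ne h]
    generalize 1 + 1 / s.re = A at hA h4 ⊢
    have h7 : 1 ≤ q * A := one_le_mul_of_one_le_of_one_le hq hA
    have h8 : 0 ≤ q * A * ‖s‖ := by positivity
    have h9 : 0 ≤ q * A * ‖s‖ ^ 2 := by positivity
    exact ⟨by nlinarith, fun _ => by nlinarith⟩

end Pool.Agent.MP_20b2fd_nt.H38
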