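import Pool.Agent.MP_20b2fd_nt.H38.SpecN

/-! The exceptional case: common definitions and the top statements. -/

set_option autoImplicit false

namespace Pool.Agent.MP_20b2fd_nt.H38

open Finset Filter Topology
open DirichletCharacter (LFunction)
open scoped Real

/-- a family of Hecke operators acting on a functional -/
noncomputable def Op {ι : Type} (J : Finset ι) (n : ι → ℕ) (x : ι → ℝ) (l : ℕ → ℝ) (m : ℕ) : ℝ :=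
  ∑ i ∈ J, x i * Bh l (n i) m

/-- the value of a quadratic character as a real number -/
noncomputable def xr {D : ℕ} (χ : DirichletCharacter ℂ D) (n : ℤ) : ℝ := (χ n).re

open Classical in
noncomputable def jj {D : ℕ} (χ : DirichletCharacter ℂ D) (N : ℕ) : ℕ :=
  if χ (-(N : ℤ)) = 1 then 0 else 1

noncomputable def Vj (j : ℕ) (x : ℝ) : ℝ :=
  if j = 0 then Real.exp (-2 * π * x) else ∫ t in Set.Ioi (1 : ℝ), Real.exp (-2 * π * x * t) / t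

noncomputable def Qc (D N : ℕ) : ℝ := D * √N

noncomputable def k0 (θ : ℝ) (N : ℕ) : ℕ := ⌊(N : ℝ) ^ (1 / 2 + θ)⌋₊

noncomputable def yk {D : ℕ} (χ : DirichletCharacter ℂ D) (N k : ℕ) : ℝ :=
  xr χ k * Vj (jj χ N) (k / Qc D N) / k

/-- the operator of the twisted polynomial -/
noncomputable def TY {D : ℕ} (χ : DirichletCharacter ℂ D) (θ : ℝ) (N : ℕ) (l : ℕ → ℝ) : ℕ → ℝ :=
  Op (Icc 1 (k0 θ N)) id (yk χ N) l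

/-- the functional of the second moment -/
noncomputable def ell (U c₀ : ℝ) (N m : ℕ) : ℝ :=
  a1 U * tau m * Real.log (N / m) + c₀ * tau m + 2 * Od (Kf U) N m

/-- the constant of the diagonal tends to its limit at a polynomial rate -/
def C0OK (c₀ : ℝ → ℝ) : Prop :=
  ∃ C : ℝ, 1 ≤ C ∧ ∀ U : ℝ, 1 ≤ U →
    |c₀ U + 2 * π * Real.log (2 * π)| ≤ C * U ^ (-1 / 5 : ℝ)

open Classical in
def Aut2S : Prop :=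
  ∃ (C : ℝ) (c₀ : ℝ → ℝ), 1 ≤ C ∧ C0OK c₀ ∧ ∀ N : ℕ, N.Prime → ∃ S : Sp, S.Ok N C ∧
    (∀ U : ℝ, 1 ≤ U → S.Bs N U (c₀ U)) ∧
    (Hp N).ncard = (univ.filter fun f => S.ε f = 1).card ∧
    (Hn N).ncard = (univ.filter fun f => S.ε f = 1 ∧ S.L f ≠ 0).card

/-- a primitive quadratic character of small conductor -/
def QC {D : ℕ} (χ : DirichletCharacter ℂ D) (N : ℕ) (κ : ℝ) : Prop :=
  χ.IsPrimitive ∧ χ ≠ 1 ∧ χ ^ 2 = 1 ∧ (D : ℝ) ≤ (N : ℝ) ^ κ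

/-- the Hecke product is associative -/
def HaS : Prop :=
  ∀ (l : ℕ → ℝ) (a b c : ℕ), 1 ≤ a → 1 ≤ b → 1 ≤ c →
    Bh l a b = Bh l b a ∧ Bh (fun m => Bh l a m) b c = Bh (fun m => Bh l b m) a c

/-- the two moments of the perturbed vector -/
def AsmS : Prop :=
  ∀ (N : ℕ) (S : Sp) (C U c₀ s : ℝ) (ι : Type) (J : Finset ι) (n : ι → ℕ) (x : ι → ℝ)
    (K M : ℕ) (y ν : ℕ → ℝ), N.Prime → S.Ok N C → S.Bs N U c₀ → (∀ i ∈ J, 1 ≤ n i ∧ n i < N) →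
    K * M < N → ∑ i ∈ J, x i * sig (n i) = 0 → ∑ l ∈ Icc 1 M, ν l * sig l = 0 →
    ∀ (W : Fin S.g → ℝ) (T : (ℕ → ℝ) → ℕ → ℝ), T = Op (Icc 1 K) id y →
    W = (fun f => S.L f * ((∑ i ∈ J, x i * S.a f (n i)) +
      s * (∑ k ∈ Icc 1 K, y k * S.a f k) * ∑ l ∈ Icc 1 M, ν l * S.a f l)) →
    ∑ f, S.ω f * W f = (∑ i ∈ J, x i * ∑ f, S.ω f * (S.L f * S.a f (n i))) +
        s * ∑ l ∈ Icc 1 M, ν l * T (fun m => ∑ f, S.ω f * (S.L f * S.a f m)) l ∧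
      ∑ f, S.ω f * W f ^ 2 ≤ π / c1 U ^ 2 * (Bl J n x (ell U c₀ N) +
        2 * s * (∑ i ∈ J, ∑ l ∈ Icc 1 M, x i * ν l * Bh (T (ell U c₀ N)) (n i) l) +
        s ^ 2 * Bl (Icc 1 M) id ν (T (T (ell U c₀ N))))

/-- the interface of the fourth moment block: `R₁ R R₂` are the main terms -/
def FOk {D : ℕ} (χ : DirichletCharacter ℂ D) (N : ℕ) (ε θ c U c₀ : ℝ) (R₁ R R₂ : ℕ → ℝ) : Prop :=
  (∀ l : ℕ, 1 ≤ l → (l : ℝ) ≤ (N : ℝ) ^ (2 * θ) →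
    |TY χ θ N (fun _ => 1) l - R₁ l| ≤ (N : ℝ) ^ (-c) ∧
    |TY χ θ N (TY χ θ N (ell U c₀ N)) l - R₂ l| ≤ (N : ℝ) ^ (-c)) ∧
  ∀ n : ℕ, 1 ≤ n → (n : ℝ) ≤ (N : ℝ) ^ (1 / 2 - ε / 2) →
    |TY χ θ N (ell U c₀ N) n - R n| ≤ (N : ℝ) ^ (-c)

/-- the interface of the mollifier block; `A` is the size of the first moment of the family -/
def MOk {ι : Type} (J : Finset ι) (n : ι → ℕ) (x : ι → ℝ) (N : ℕ) (θ g K A : ℝ)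
    (R₁ R R₂ : ℕ → ℝ) : Prop :=
  ∃ (M : ℕ) (ν : ℕ → ℝ) (y₀ : ℝ), (M : ℝ) ≤ (N : ℝ) ^ θ ∧ (∀ l, |ν l| ≤ (N : ℝ) ^ θ) ∧
    ∑ l ∈ Icc 1 M, ν l * sig l = 0 ∧ (N : ℝ) ^ (-θ) ≤ y₀ ∧
    |∑ l ∈ Icc 1 M, ν l * R₁ l| ≤ K * y₀ ∧ Bl (Icc 1 M) id ν R₂ ≤ K * y₀ ^ 2 ∧
    g * A * y₀ ≤ 4 * π * A * (∑ l ∈ Icc 1 M, ν l * R₁ l) -
      ∑ i ∈ J, ∑ l ∈ Icc 1 M, x i * ν l * Bh R (n i) l

/-- the interface of the short mollifier of the central value -/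
def XOk {ι : Type} (J : Finset ι) (n : ι → ℕ) (x : ι → ℝ) (N : ℕ) (ε η A E : ℝ) : Prop :=
  (∀ i ∈ J, 1 ≤ n i ∧ (n i : ℝ) ≤ (N : ℝ) ^ (1 / 2 - ε)) ∧ ∑ i ∈ J, x i * sig (n i) = 0 ∧
    ∑ i ∈ J, |x i| ≤ Real.log N ^ 10 ∧ |∑ i ∈ J, x i - A| ≤ η * A ∧
    ∀ a c : ℝ, 0 ≤ a → a ≤ π → |c| ≤ E →
      Bl J n x (fun m => a * tau m * Real.log (N / m) + c * tau m) ≤ 4 * π * (1 + η) * A ^ 2

/-- what the final inequality needs from the twisted polynomial -/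
def GOk {D : ℕ} (χ : DirichletCharacter ℂ D) {ι : Type} (J : Finset ι) (n : ι → ℕ) (x : ι → ℝ)
    (N : ℕ) (θ g K A U c₀ : ℝ) : Prop :=
  ∃ (M : ℕ) (ν : ℕ → ℝ) (y₀ : ℝ), (M : ℝ) ≤ (N : ℝ) ^ θ ∧ (∀ l, |ν l| ≤ (N : ℝ) ^ θ) ∧
    ∑ l ∈ Icc 1 M, ν l * sig l = 0 ∧ (N : ℝ) ^ (-θ) ≤ y₀ ∧
    |∑ l ∈ Icc 1 M, ν l * TY χ θ N (fun _ => 1) l| ≤ K * y₀ ∧
    Bl (Icc 1 M) id ν (TY χ θ N (TY χ θ N (ell U c₀ N))) ≤ K * y₀ ^ 2 ∧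
    g * A * y₀ ≤ 4 * π * A * (∑ l ∈ Icc 1 M, ν l * TY χ θ N (fun _ => 1) l) -
      ∑ i ∈ J, ∑ l ∈ Icc 1 M, x i * ν l * Bh (TY χ θ N (ell U c₀ N)) (n i) l

/-- main terms and errors put together -/
def FmkS : Prop :=
  ∀ (ε θ c g K : ℝ), 0 < θ → 20 * θ ≤ c → 20 * θ ≤ ε → 0 < g → 1 ≤ K → ∃ N₀ : ℕ,
    ∀ (N D : ℕ) (χ : DirichletCharacter ℂ D) (U c₀ A η E : ℝ) (ι : Type) (J : Finset ι)
      (n : ι → ℕ) (x : ι → ℝ) (R₁ R R₂ : ℕ → ℝ), N₀ ≤ N → 1 ≤ A → A ≤ Real.log N →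
      XOk J n x N ε η A E → FOk χ N ε θ c U c₀ R₁ R R₂ → MOk J n x N θ g K A R₁ R R₂ →
      GOk χ J n x N θ (g / 2) (2 * K) A U c₀

open Classical in
/-- the final inequality -/
def CsS : Prop :=
  ∀ (C g K : ℝ), 1 ≤ C → 0 < g → 1 ≤ K → ∃ η : ℝ, 0 < η ∧ ∀ (ε θ u E : ℝ), 0 < ε → ε ≤ 1 / 10 →
    0 < θ → θ ≤ 1 / 100 → 0 < u → 10 * u ≤ ε → ∃ N₀ : ℕ,
    ∀ (N D : ℕ) (χ : DirichletCharacter ℂ D) (S : Sp) (c₀ A : ℝ) (ι : Type) (J : Finset ι)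
      (n : ι → ℕ) (x : ι → ℝ), N₀ ≤ N → N.Prime → 1 ≤ D → D ≤ N → S.Ok N C →
      S.Bs N ((N : ℝ) ^ u) c₀ → |c₀| ≤ E → 1 ≤ A → XOk J n x N ε η A E →
      GOk χ J n x N θ g K A ((N : ℝ) ^ u) c₀ →
      1 / 4 + η ≤ ∑ f ∈ univ.filter (fun f => S.ε f = 1 ∧ S.L f ≠ 0), S.ω f

def HaOf : Prop := HbS → HaS
def AsmOf : Prop := HbS → HaS → AsmS
def CsOf : Prop := PhS → XgS → FmS → AsmS → CsS

end Pool.Agent.MP_20b2fd_nt.H38
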