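import Pool.Agent.MP_20b2fd_nt.H38.SpecC

/-! The decay of the Mellin transform of a kernel. -/

set_option autoImplicit false

namespace Pool.Agent.MP_20b2fd_nt.H38

open MeasureTheory Complex Filter Topology Asymptotics Set

namespace Mel2A

theorem conv {g : ℝ → ℂ} {R b : ℝ} {s : ℂ} (hc : ContinuousOn g (Ioi 0))
    (h0 : ∀ x, R < x → g x = 0) (hb : g =O[𝓝[>] 0] (· ^ (-b))) (hs : b < s.re) :
    MellinConvergent g s ∧ DifferentiableAt ℂ (mellin g) s := by
  have h1 := hc.locallyIntegrableOn (μ := volume) measurableSet_Ioi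
  have h2 : g =O[atTop] (· ^ (-(s.re + 1))) :=
    (isBigO_zero _ _).congr' ((eventually_gt_atTop R).mono fun x hx => (h0 x hx).symm)
      EventuallyEq.rfl
  exact ⟨mellinConvergent_of_isBigO_rpow h1 h2 (lt_add_one _) hb hs,
    mellin_differentiableAt_of_isBigO_rpow h1 h2 (lt_add_one _) hb hs⟩

theorem step {g g' : ℝ → ℂ} {R b : ℝ} {s : ℂ} (hd : ∀ x, 0 < x → HasDerivAt g (g' x) x)
    (h0 : ∀ x, R < x → g x = 0) (hb : g =O[𝓝[>] 0] (· ^ (-b))) (hs : b < s.re) (hs0 : s ≠ 0)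
    (h' : MellinConvergent g' (s + 1)) : ‖mellin g' (s + 1)‖ = ‖s‖ * ‖mellin g s‖ := by
  have h1 := (conv (fun x hx => (hd x hx).continuousAt.continuousWithinAt) h0 hb hs).1
  have h2 : Tendsto ((fun x : ℝ => (x : ℂ) ^ s) * g) (𝓝[>] 0) (𝓝 0) := by
    have a1 : (fun x : ℝ => (x : ℂ) ^ s) =O[𝓝[>] 0] fun x : ℝ => x ^ s.re := by
      refine IsBigO.of_bound' ?_
      filter_upwards [self_mem_nhdsWithin] with x hx
      exact (norm_cpow_eq_rpow_re_of_pos hx s).trans_le (le_abs_self _)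
    have a2 : (fun x : ℝ => x ^ s.re * x ^ (-b)) =ᶠ[𝓝[>] 0] fun x : ℝ => x ^ (s.re - b) := by
      filter_upwards [self_mem_nhdsWithin] with x hx
      rw [← Real.rpow_add hx, sub_eq_add_neg]
    refine ((a1.mul hb).congr' EventuallyEq.rfl a2).trans_tendsto ?_
    have a3 := (Real.continuousAt_rpow_const 0 (s.re - b) (Or.inr (sub_pos.2 hs).le)).tendsto
    rw [Real.zero_rpow (sub_pos.2 hs).ne'] at a3
    exact a3.mono_left nhdsWithin_le_nhds
  have h3 : Tendsto ((fun x : ℝ => (x : ℂ) ^ s) * g) atTop (𝓝 0) :=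
    tendsto_const_nhds.congr' ((eventually_gt_atTop R).mono fun x hx => by simp [h0 x hx])
  have h4 := integral_Ioi_mul_deriv_eq_deriv_mul (a := 0) (u := fun x : ℝ => (x : ℂ) ^ s)
    (u' := fun x : ℝ => s * (x : ℂ) ^ (s - 1)) (v := g) (v' := g')
    (fun x hx => hasDerivAt_ofReal_cpow_const (ne_of_gt hx) hs0) hd
    (by simpa only [MellinConvergent, add_sub_cancel_right, smul_eq_mul, Pi.mul_def] using h')
    ((h1.const_mul s).congr (Eventually.of_forall fun x => by simp [mul_assoc])) h2 h3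
  simp only [mellin, add_sub_cancel_right, smul_eq_mul]
  rw [h4, sub_self, zero_sub, norm_neg, ← norm_mul, ← integral_const_mul]
  simp only [mul_assoc]

theorem last {g : ℝ → ℂ} {R A : ℝ} {s : ℂ} (hR : 1 ≤ R) (hA : 0 ≤ A) (hs : 0 < s.re)
    (hs3 : s.re ≤ 3) (h0 : ∀ x, R < x → g x = 0) (hb : ∀ x, 0 < x → ‖g x‖ ≤ A / min 1 x ^ 4) :
    ‖mellin g (s + 4)‖ ≤ A * R ^ 7 * (1 + 1 / s.re) := by
  have hR0 : 0 < R := by linarith
  have h1 : mellin g (s + 4) = ∫ t in Ioc 0 R, (t : ℂ) ^ (s + 4 - 1) • g t :=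
    setIntegral_eq_of_subset_of_forall_sdiff_eq_zero measurableSet_Ioi Ioc_subset_Ioi_self
      fun x hx => by rw [h0 x (not_le.1 fun h => hx.2 ⟨hx.1, h⟩), smul_zero]
  have h2 : IntervalIntegrable (fun x : ℝ => x ^ (s.re - 1)) volume 0 R :=
    intervalIntegral.intervalIntegrable_rpow' (by linarith)
  rw [h1]
  refine (norm_integral_le_of_norm_le (g := fun x => A * R ^ 4 * x ^ (s.re - 1))
    (h2.1.const_mul _) ?_).trans ?_
  · refine (ae_restrict_iff' measurableSet_Ioc).2 (Eventually.of_forall fun x hx => ?_)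
    have a1 : 0 < min 1 x := lt_min one_pos hx.1
    have a2 : x ≤ R * min 1 x := by
      rcases le_total 1 x with h | h
      · rw [min_eq_left h, mul_one]
        exact hx.2
      · rw [min_eq_right h]
        exact le_mul_of_one_le_left hx.1.le hR
    have a3 : (s + 4 - 1).re = s.re - 1 + (4 : ℕ) := by simp; ring
    have a4 := hx.1
    rw [norm_smul, norm_cpow_eq_rpow_re_of_pos hx.1, a3, Real.rpow_add hx.1, Real.rpow_natCast]
    calc _ ≤ x ^ (s.re - 1) * (R * min 1 x) ^ 4 * (A / min 1 x ^ 4) := by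
          gcongr
          exact hb x hx.1
      _ = _ := by field_simp
  · rw [integral_const_mul, ← intervalIntegral.integral_of_le hR0.le,
      integral_rpow (Or.inl (by linarith)), sub_add_cancel, Real.zero_rpow hs.ne', sub_zero]
    have a1 : R ^ s.re ≤ R ^ 3 := by
      exact_mod_cast Real.rpow_le_rpow_of_exponent_le hR hs3
    calc _ ≤ A * R ^ 4 * (R ^ 3 / s.re) := by gcongr
      _ = A * R ^ 7 * (0 + 1 / s.re) := by ring
      _ ≤ _ := by gcongr; exact zero_le_one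

theorem big {g : ℝ → ℂ} {A : ℝ} (j : ℕ) (hb : ∀ x, 0 < x → ‖g x‖ ≤ A / min 1 x ^ j) :
    g =O[𝓝[>] 0] (· ^ (-(j : ℝ))) := by
  refine IsBigO.of_bound A ?_
  filter_upwards [Ioo_mem_nhdsGT (zero_lt_one' ℝ)] with x hx
  rw [Real.norm_of_nonneg (Real.rpow_nonneg hx.1.le _), Real.rpow_neg hx.1.le, Real.rpow_natCast,
    ← div_eq_mul_inv]
  simpa only [min_eq_right hx.2.le] using hb x hx.1

theorem big0 {g : ℝ → ℂ} {A b : ℝ} (h : 0 < b) (hb : ∀ x, 0 < x → ‖g x‖ ≤ A * (1 + |Real.log x|)) :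
    g =O[𝓝[>] 0] (· ^ (-b)) := by
  have h1 : (fun _ : ℝ => (1 : ℝ)) =O[𝓝[>] 0] (· ^ (-b)) := by
    refine IsBigO.of_bound' ?_
    filter_upwards [Ioo_mem_nhdsGT (zero_lt_one' ℝ)] with x hx
    rw [norm_one, Real.norm_of_nonneg (Real.rpow_nonneg hx.1.le _)]
    exact Real.one_le_rpow_of_pos_of_le_one_of_nonpos hx.1 hx.2.le (by linarith)
  have h2 := (h1.add (isLittleO_log_rpow_nhdsGT_zero (neg_lt_zero.2 h)).isBigO.abs_left)
  refine IsBigO.trans (IsBigO.of_bound A ?_) h2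
  filter_upwards [self_mem_nhdsWithin] with x hx
  rw [Real.norm_of_nonneg (by positivity)]
  exact hb x hx

theorem core {f : ℕ → ℝ → ℂ} {R A : ℝ} {s : ℂ} (hR : 1 ≤ R) (hA : 0 ≤ A) (hs : 0 < s.re)
    (hs3 : s.re ≤ 3) (hd : ∀ j x, 0 < x → HasDerivAt (f j) (f (j + 1) x) x)
    (h0 : ∀ j x, R < x → f j x = 0) (hb0 : ∀ x, 0 < x → ‖f 0 x‖ ≤ A * (1 + |Real.log x|))
    (hb : ∀ j, 1 ≤ j → j ≤ 4 → ∀ x, 0 < x → ‖f j x‖ ≤ A / min 1 x ^ j) :
    ‖mellin (f 0) s‖ ≤ A * R ^ 7 * (1 + 1 / s.re) / ‖s‖ ^ 4 := by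
  have hn : ∀ j : ℕ, s + j ≠ 0 := fun j h => by
    have := congrArg re h
    simp only [add_re, natCast_re, zero_re] at this
    linarith [Nat.cast_nonneg (α := ℝ) j]
  have hs0 : 0 < ‖s‖ := norm_pos_iff.2 (by simpa using hn 0)
  have hle : ∀ j : ℕ, ‖s‖ ≤ ‖s + j‖ := fun j => by
    refine (pow_le_pow_iff_left₀ (norm_nonneg _) (norm_nonneg _) two_ne_zero).1 ?_
    rw [Complex.sq_norm, Complex.sq_norm, normSq_apply, normSq_apply]
    simp only [add_re, natCast_re, add_im, natCast_im, add_zero]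
    nlinarith [Nat.cast_nonneg (α := ℝ) j]
  have key : ∀ j : ℕ, j ≤ 4 → ‖s‖ ^ j * ‖mellin (f 0) s‖ ≤ ‖mellin (f j) (s + j)‖ := by
    intro j
    induction j with
    | zero => simp
    | succ j ih =>
      intro hj
      have h1 := (conv (s := s + j + 1)
        (fun x hx => (hd (j + 1) x hx).continuousAt.continuousWithinAt) (h0 (j + 1))
        (big _ (hb (j + 1) (by omega) hj)) (by simp; linarith)).1
      have h2 : ∃ b : ℝ, f j =O[𝓝[>] 0] (· ^ (-b)) ∧ b < (s + j).re := by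
        rcases j.eq_zero_or_pos with rfl | h
        · exact ⟨s.re / 2, big0 (half_pos hs) hb0, by simpa using hs⟩
        · exact ⟨j, big _ (hb j h (by omega)), by simpa using hs⟩
      obtain ⟨b, b1, b2⟩ := h2
      rw [Nat.cast_succ, ← add_assoc, step (hd j) (h0 j) b1 b2 (hn j) h1, pow_succ', mul_assoc]
      exact mul_le_mul (hle j) (ih (by omega)) (by positivity) (norm_nonneg _)
  rw [le_div_iff₀' (by positivity)]
  exact (key 4 le_rfl).trans (last hR hA hs hs3 (h0 4) (hb 4 (by norm_num) le_rfl))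

end Mel2A

open Mel2A in
theorem mel2 : Mel2S := by
  refine ⟨2, one_le_two, fun R B E e k hR ⟨D, hD0, hD, hk0, _, _, hE⟩ he => ?_⟩
  subst hD0
  have hE0 : 0 ≤ E := by
    have := (hE 1 one_ne_zero).1
    simp only [abs_one, Real.log_one, abs_zero, add_zero, mul_one] at this
    exact (abs_nonneg _).trans this
  have hz : ∀ j t, R < |t| → D j t = 0 := by
    intro j
    induction j with
    | zero => exact fun t ht => hk0 t ht.le
    | succ j ih =>
      intro t ht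
      refine (hD j t (abs_pos.1 (by linarith))).unique ((hasDerivAt_const t 0).congr_of_eventuallyEq ?_)
      filter_upwards [(isOpen_lt continuous_const continuous_abs).mem_nhds ht] with u hu using ih u hu
  have hd : ∀ j x, 0 < x → HasDerivAt (fun x : ℝ => (((-1) ^ j * D j (-x) + e * D j x : ℝ) : ℂ))
      ((((-1) ^ (j + 1) * D (j + 1) (-x) + e * D (j + 1) x : ℝ) : ℂ)) x := fun j x hx => by
    refine HasDerivAt.ofReal_comp ?_
    have h1 := ((hD j (-x) (neg_ne_zero.2 hx.ne')).comp x (hasDerivAt_neg x)).const_mul ((-1) ^ j)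
    refine (h1.add ((hD j x hx.ne').const_mul e)).congr_deriv ?_
    ring
  have h0 : ∀ j x, R < x → (((-1) ^ j * D j (-x) + e * D j x : ℝ) : ℂ) = 0 := fun j x hx => by
    rw [hz j x (hx.trans_le (le_abs_self x)), hz j (-x) (hx.trans_le (by simpa using le_abs_self x))]
    simp
  have hn : ∀ j x, ‖(((-1) ^ j * D j (-x) + e * D j x : ℝ) : ℂ)‖ ≤ |D j (-x)| + |D j x| := by
    intro j x
    rw [norm_real, Real.norm_eq_abs]
    refine (abs_add_le _ _).trans_eq ?_
    rw [abs_mul, abs_mul, he, abs_pow, abs_neg, abs_one, one_pow, one_mul, one_mul]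
  have hb0 : ∀ x, 0 < x → ‖(((-1) ^ 0 * D 0 (-x) + e * D 0 x : ℝ) : ℂ)‖ ≤
      2 * E * (1 + |Real.log x|) := fun x hx => by
    have a1 := (hE x hx.ne').1
    have a2 := (hE (-x) (neg_ne_zero.2 hx.ne')).1
    rw [abs_neg] at a2
    rw [abs_of_pos hx] at a1 a2
    linarith [hn 0 x]
  have hf : fe (D 0) e = fun x : ℝ => (((-1) ^ 0 * D 0 (-x) + e * D 0 x : ℝ) : ℂ) := by
    ext x
    rw [fe, pow_zero, one_mul]
  have hc : ContinuousOn (fe (D 0) e) (Ioi 0) := by
    rw [hf]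
    exact fun x hx => (hd 0 x hx).continuousAt.continuousWithinAt
  refine ⟨hc, fun x hx => ?_, fun s hs => ?_, fun s hs hs3 => ?_⟩
  · rw [fe, hk0 x (hx.trans (le_abs_self x)), hk0 (-x) (hx.trans (by simpa using le_abs_self x))]
    simp
  · refine conv (R := R) hc ?_ (big0 (A := 2 * E) (half_pos hs) ?_) (half_lt_self hs)
    · rw [hf]
      exact h0 0
    · rw [hf]
      exact hb0
  · rw [mel, hf]
    refine core (f := fun j x => (((-1) ^ j * D j (-x) + e * D j x : ℝ) : ℂ)) hR (by positivity)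
      hs hs3 hd h0 hb0 fun j h1 h4 x hx => ?_
    have a1 := (hE x hx.ne').2 j h1 h4
    have a2 := (hE (-x) (neg_ne_zero.2 hx.ne')).2 j h1 h4
    rw [abs_neg] at a2
    rw [abs_of_pos hx] at a1 a2
    rw [mul_div_assoc]
    linarith [hn j x]

end Pool.Agent.MP_20b2fd_nt.H38
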