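import Pool.Agent.MP_20b2fd_nt.H38.SpecN

/-! The weighted proportion of nonvanishing. -/

set_option autoImplicit false

namespace Pool.Agent.MP_20b2fd_nt.H38

open Finset
open scoped Real

namespace HmA

theorem small (C₁ C₂ c b : ℝ) (A₁ A₂ : ℕ) (h1 : 1 ≤ C₁) (h2 : 1 ≤ C₂) (hc : 0 < c) (hb : 0 < b) :
    ∃ δ₀ : ℝ, 0 < δ₀ ∧ ∀ δ a : ℝ, 0 < δ → δ ≤ δ₀ → 1 ≤ a →
      a ≤ Real.exp ((b * δ) ^ (-1 / 2 : ℝ)) →
      144000 * a * (C₂ * (C₁ * (100 / δ) ^ A₁ * a) ^ A₂ * Real.exp (-c / (4000 * δ))) ≤ δ := by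
  obtain ⟨K, hK⟩ : ∃ K, K = 144000 * C₂ * C₁ ^ A₂ := ⟨_, rfl⟩
  obtain ⟨β, hβ⟩ : ∃ β, β = b ^ (-1 / 2 : ℝ) := ⟨_, rfl⟩
  obtain ⟨M, hM⟩ : ∃ M, M = K + 20 * (A₁ * A₂ : ℕ) + β * (A₂ + 1 : ℕ) + 2 := ⟨_, rfl⟩
  have K0 : 0 ≤ K := by rw [hK]; positivity
  obtain ⟨y, y1, y2⟩ : ∃ y : ℝ, 1 ≤ y ∧ 4000 * M / c ≤ y := ⟨_, le_max_left _ _, le_max_right _ _⟩
  refine ⟨1 / y ^ 2, by positivity, fun δ a d0 d1 a1 a2 => ?_⟩
  obtain ⟨x, hx⟩ : ∃ x, x = δ ^ (-1 / 2 : ℝ) := ⟨_, rfl⟩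
  have x0 : 0 < x := by rw [hx]; positivity
  have x2 : x ^ 2 = δ⁻¹ := by
    rw [hx, ← Real.rpow_natCast, ← Real.rpow_mul d0.le, ← Real.rpow_neg_one]
    norm_num
  have xy : y ≤ x := by
    refine (sq_le_sq₀ (by positivity) x0.le).1 ?_
    rw [x2]
    rw [one_div] at d1
    exact (le_inv_comm₀ (by positivity) d0).2 d1
  rw [Real.mul_rpow hb.le d0.le, ← hβ, ← hx] at a2
  have e1 : (100 / δ) ≤ Real.exp (20 * x) := by
    have : 10 * x ≤ Real.exp (10 * x) := by linarith [Real.add_one_le_exp (10 * x)]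
    calc 100 / δ = (10 * x) ^ 2 := by rw [mul_pow, x2]; ring
      _ ≤ Real.exp (10 * x) ^ 2 := by gcongr
      _ = _ := by rw [← Real.exp_nat_mul]; congr 1; push_cast; ring
  have e2 : δ⁻¹ ≤ Real.exp (2 * x) := by
    have : x ≤ Real.exp x := by linarith [Real.add_one_le_exp x]
    calc δ⁻¹ = x ^ 2 := x2.symm
      _ ≤ Real.exp x ^ 2 := by gcongr
      _ = _ := by rw [← Real.exp_nat_mul]; norm_num
  have e3 : K ≤ Real.exp (K * x) := by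
    have : K * 1 ≤ K * x := mul_le_mul_of_nonneg_left (y1.trans xy) K0
    linarith [Real.add_one_le_exp (K * x)]
  have e4 : M * x - c / 4000 * x ^ 2 ≤ 0 := by
    have : 4000 * M ≤ x * c := (div_le_iff₀ hc).1 (y2.trans xy)
    nlinarith
  have e5 : -c / (4000 * δ) = -(c / 4000 * x ^ 2) := by rw [x2]; field_simp
  refine ((mul_inv_le_iff₀ d0).1 (?_ : _ ≤ (1 : ℝ))).trans_eq (one_mul δ)
  calc _ = K * (100 / δ) ^ (A₁ * A₂) * a ^ (A₂ + 1) * δ⁻¹ * Real.exp (-c / (4000 * δ)) := by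
        rw [hK, pow_mul, mul_pow, mul_pow]; ring
    _ ≤ Real.exp (K * x) * Real.exp (20 * x) ^ (A₁ * A₂) * Real.exp (β * x) ^ (A₂ + 1) *
        Real.exp (2 * x) * Real.exp (-c / (4000 * δ)) := by gcongr
    _ = Real.exp (M * x - c / 4000 * x ^ 2) := by
        rw [e5, hM]
        simp only [← Real.exp_nat_mul, ← Real.exp_add]
        congr 1
        ring
    _ ≤ 1 := Real.exp_le_one_iff.2 e4

theorem fin {δ a V l c₁ F W Q T O E : ℝ} (d0 : 0 < δ) (d1 : δ ≤ 1 / 10 ^ 10) (a1 : 1 ≤ a)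
    (hV : 1 / (30 * a) ≤ V) (hl : 0 < l) (hc : π - 2 / (100 / δ) ≤ c₁) (W0 : 0 ≤ W)
    (hF : a * V * l * (1 + 35 / 100 * δ) ≤ F) (cs : F ^ 2 ≤ W * Q) (hQ : Q ≤ π / c₁ ^ 2 * T)
    (hT : T ≤ c₁ * (a * V ^ 2 * l ^ 2 * (4 + 23 / 10 * δ)) + 2 * O) (O0 : 0 ≤ O)
    (hO : O ≤ E * (2 * l) ^ 2) (hE : 144000 * a * E ≤ δ) : (1 + δ / 20) / 4 * a ≤ W := by
  have p3 := Real.pi_gt_three
  have p4 := Real.pi_le_four
  have a0 : 0 < a := by linarith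
  have V0 : 0 < V := lt_of_lt_of_le (by positivity) hV
  rw [show 2 / (100 / δ) = δ / 50 by field_simp; norm_num] at hc
  have c2 : 2 ≤ c₁ := by linarith
  have k1 : π / c₁ ^ 2 ≤ 1 := (div_le_one (by positivity)).2 (by nlinarith)
  have k2 : π / c₁ ^ 2 * c₁ ≤ 1 + δ / 100 := by
    rw [show π / c₁ ^ 2 * c₁ = π / c₁ by field_simp, div_le_iff₀ (by positivity)]
    nlinarith
  obtain ⟨Y, hY⟩ : ∃ Y, Y = a * V ^ 2 * l ^ 2 := ⟨_, rfl⟩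
  have Y0 : 0 < Y := by rw [hY]; positivity
  have k3 : 2 * O ≤ Y * (δ / 20) := by
    have e1 : 1 ≤ 30 * a * V := by rwa [div_le_iff₀' (by positivity)] at hV
    have e2 : 1 ≤ (30 * a * V) ^ 2 := one_le_pow₀ e1
    refine le_of_mul_le_mul_left ?_ (show 0 < 18000 * a by positivity)
    calc 18000 * a * (2 * O) ≤ 18000 * a * (2 * (E * (2 * l) ^ 2)) := by gcongr
      _ = 144000 * a * E * l ^ 2 * 1 := by ring
      _ ≤ δ * l ^ 2 * (30 * a * V) ^ 2 := by gcongr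
      _ = _ := by rw [hY]; ring
  rw [← hY] at hT
  have k4 : Q ≤ Y * (4 + 24 / 10 * δ) :=
    calc Q ≤ π / c₁ ^ 2 * (c₁ * (Y * (4 + 23 / 10 * δ)) + 2 * O) := hQ.trans (by gcongr)
      _ = π / c₁ ^ 2 * c₁ * (Y * (4 + 23 / 10 * δ)) + π / c₁ ^ 2 * (2 * O) := by ring
      _ ≤ (1 + δ / 100) * (Y * (4 + 23 / 10 * δ)) + 1 * (Y * (δ / 20)) := by gcongr
      _ = Y * (4 + 239 / 100 * δ + 23 / 1000 * δ * δ) := by ring
      _ ≤ _ := mul_le_mul_of_nonneg_left (by nlinarith) Y0.le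
  refine le_of_mul_le_mul_right ?_ (show 0 < Y * (4 + 24 / 10 * δ) by positivity)
  calc _ = a * Y * (1 + 65 / 100 * δ + 3 / 100 * δ * δ) := by ring
    _ ≤ a * Y * (1 + 35 / 100 * δ) ^ 2 := mul_le_mul_of_nonneg_left (by nlinarith) (by positivity)
    _ = (a * V * l * (1 + 35 / 100 * δ)) ^ 2 := by rw [hY]; ring
    _ ≤ F ^ 2 := by gcongr
    _ ≤ W * Q := cs
    _ ≤ _ := by gcongr

theorem cs {ι : Type} [Fintype ι] (p : ι → Prop) [DecidablePred p] (ω L M u : ι → ℝ)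
    (h0 : ∀ f, 0 ≤ ω f) (h : ∀ f, ¬ p f → L f = 0) :
    (∑ f, ω f * (L f * M f * u f)) ^ 2 ≤
      (∑ f ∈ univ.filter p, ω f * u f ^ 2) * ∑ f, ω f * (L f * M f) ^ 2 := by
  rw [sum_filter]
  refine sum_sq_le_sum_mul_sum_of_sq_le_mul _ (fun f _ => ?_)
    (fun f _ => mul_nonneg (h0 f) (sq_nonneg _)) fun f _ => le_of_eq ?_
  · split_ifs
    · exact mul_nonneg (h0 f) (sq_nonneg _)
    · exact le_rfl
  · split_ifs with k
    · ring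
    · simp [h f k]

end HmA

open HmA in
theorem hmOf : HmOf := by
  rintro Ph ⟨C₁, A₁, h1, Ker⟩ Dl Fm Mo1 Mo2 Ods c C b c₀ hc hc' hC hb
  classical
  obtain ⟨C₂, A₂, h2, Od'⟩ := Ods c hc hc'
  obtain ⟨δ₁, d1, sm⟩ := small C₁ C₂ c b A₁ A₂ h1 h2 hc hb
  obtain ⟨C', -, fm⟩ := Fm C hC
  refine ⟨min δ₁ (c / 10 ^ 10), by positivity, fun δ a d0 d2 a1 a2 => ?_⟩
  obtain ⟨d2, d3⟩ := le_min_iff.1 d2
  have d4 : δ ≤ 1 / 10 ^ 10 := d3.trans (by gcongr; linarith)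
  have hU : 1 ≤ 100 / δ := (one_le_div d0).2 (by linarith)
  have a1' : (1 : ℝ) ≤ a := by exact_mod_cast a1
  obtain ⟨N₁, m1⟩ := Mo1 C δ a hC d0 d4 a1
  obtain ⟨N₂, m2⟩ := Mo2 δ _ (c₀ (100 / δ)) a d0 d4 hU a1
  obtain ⟨N₃, m3⟩ := Od' δ _ a _ d0 d3 (one_le_mul_of_one_le_of_one_le h1 (one_le_pow₀ hU)) a1
    (Ker _ hU)
  refine ⟨max N₁ (max N₂ N₃), fun N S hN hp zf ok bs => ?_⟩
  simp only [max_le_iff] at hN
  obtain ⟨j1, j2, j3⟩ := m2 N hN.2.1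
  have l0 : 0 < Real.log N / 2 := half_pos (Real.log_pos (by exact_mod_cast hp.one_lt))
  refine HmA.fin d0 d4 a1' (Dl.2 a a1).2.2.2.1 l0 (Ph _ hU).2.1
    (sum_nonneg fun f _ => mul_nonneg (ok.pos f).le (sq_nonneg _)) (m1 N S hN.1 hp ok) ?_
    (bs _ hU _ _ _ _ j1 j2) j3 (abs_nonneg _)
    ((m3 N hN.2.2 hp zf).trans (le_of_eq (by rw [mul_div_cancel₀ _ two_ne_zero])))
    (sm δ a d0 d2 a1' a2)
  exact cs _ _ _ _ _ (fun f => (ok.pos f).le) fun f hf => by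
    by_contra h0
    refine hf ⟨(ok.sgn f).resolve_right fun h => h0 ((fm N S hp ok).1 f h), h0⟩

end Pool.Agent.MP_20b2fd_nt.H38
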