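import Pool.Agent.MP_20b2fd_nt.H38.SpecN

/-! The first mollified moment. -/

set_option autoImplicit false

namespace Pool.Agent.MP_20b2fd_nt.H38

open Finset Filter Topology

namespace Mo1A

theorem err {M : ℕ → ℝ} {N n a : ℕ} {E : ℝ} (hE : 0 ≤ E) (hn : 1 ≤ n) (ha : 1 ≤ a)
    (h : a * n < N) (hM : ∀ m : ℕ, 1 ≤ m → m < N → |M m - 1| ≤ E * m) :
    |Bh M n a - sig (a.gcd n)| ≤ E * a ^ 3 * n := by
  rw [Bh, sig, Nat.gcd_comm a n, ← sum_sub_distrib]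
  have h1 : n.gcd a ≤ a := Nat.gcd_le_right _ ha
  refine (abs_sum_le_sum_abs _ _).trans ((sum_le_card_nsmul _ _ (a * (E * (n * a)))
    fun d hd => ?_).trans ?_)
  · have h2 := Nat.dvd_of_mem_divisors hd
    have h3 : d ^ 2 ∣ n * a := by
      rw [pow_two]
      exact mul_dvd_mul (h2.trans (Nat.gcd_dvd_left _ _)) (h2.trans (Nat.gcd_dvd_right _ _))
    have h4 : n * a / d ^ 2 ≤ n * a := Nat.div_le_self _ _
    have h5 := hM (n * a / d ^ 2) (Nat.div_pos (Nat.le_of_dvd (by positivity) h3)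
      (pow_pos (Nat.pos_of_mem_divisors hd) 2)) (by rw [mul_comm] at h; omega)
    rw [← mul_sub_one, abs_mul, Nat.abs_cast]
    refine mul_le_mul (by exact_mod_cast (Nat.divisor_le hd).trans h1)
      (h5.trans (mul_le_mul_of_nonneg_left (by exact_mod_cast h4) hE)) (abs_nonneg _)
      (Nat.cast_nonneg _)
  · have h2 : ((n.gcd a).divisors.card : ℝ) ≤ a := by
      exact_mod_cast (Nat.card_divisors_le_self _).trans h1
    rw [nsmul_eq_mul]
    exact (mul_le_mul_of_nonneg_right h2 (by positivity)).trans_eq (by ring)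

theorem swap (S : Sp) {ι : Type} (J : Finset ι) (x : ι → ℝ) (n : ι → ℕ) (a : ℕ)
    (h : ∀ f, ∀ i ∈ J, S.a f (n i) * S.a f a = Bh (S.a f) (n i) a) :
    ∑ f, S.ω f * (S.L f * (∑ i ∈ J, x i * S.a f (n i)) * S.a f a) =
      ∑ i ∈ J, x i * Bh (fun m => ∑ f, S.ω f * (S.L f * S.a f m)) (n i) a := by
  simp only [Bh, mul_sum, sum_mul] at h ⊢
  rw [sum_comm]
  refine sum_congr rfl fun i hi => ?_
  rw [sum_comm]
  refine sum_congr rfl fun f _ => ?_
  rw [show S.ω f * (S.L f * (x i * S.a f (n i)) * S.a f a) =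
    x i * S.ω f * S.L f * (S.a f (n i) * S.a f a) by ring, h f i hi, mul_sum]
  exact sum_congr rfl fun _ _ => by ring

end Mo1A

open Mo1A in
theorem mo1Of : Mo1Of := by
  rintro ⟨-, hD⟩ ⟨-, hW⟩ hM hC hF hX hm C δ a hC1 h0 h1 ha
  obtain ⟨-, -, d1, d2, -, d3⟩ := hD a ha
  obtain ⟨C', c1, c2⟩ := hm C hC1
  obtain ⟨N1, f1⟩ := hF δ a h0 h1 ha
  obtain ⟨N2, f2⟩ := hX δ a h0 h1 ha
  have ha0 : (0 : ℝ) < a := by exact_mod_cast ha
  obtain ⟨N3, f3⟩ := eventually_atTop.1 (((tendsto_rpow_neg_atTop (y := 1 / 10) (by norm_num)).comp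
    tendsto_natCast_atTop_atTop).eventually_le_const (u := δ / (24000 * C' * a ^ 3))
    (by positivity))
  refine ⟨max (max N1 N2) (max N3 3), fun N S hN hp hS => ?_⟩
  replace f1 := f1 N (by omega)
  obtain ⟨x1, x2⟩ := f2 N (by omega)
  replace f3 : (N : ℝ) ^ (-(1 / 10 : ℝ)) ≤ _ := f3 N (by omega)
  have n3 : (3 : ℝ) ≤ N := by exact_mod_cast (by omega : 3 ≤ N)
  have hL : 1 ≤ Real.log N := by
    rw [Real.le_log_iff_exp_le (by linarith)]
    linarith [Real.exp_one_lt_d9]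
  obtain ⟨-, w1⟩ := hW δ N h0 hp.two_le
  have m1 := (hM (KK δ N) (ww δ a N) fun k hk =>
    ⟨((w1 a k).2.2.1 hk).1, ((w1 a k).2.2.1 hk).2.2.2⟩).1
  have m2 := (hC (J0 a) (Icc 1 (KK δ N)) (Dj a) (xw (KK δ N) (ww δ a N))
    (fun i hi => (d3 i hi).1) (fun j hj => (mem_Icc.1 hj).1)
    fun i hi j _ h => (d3 i hi).2.2 j ((w1 a j).2.2.2.2.2 h)).2.2.2 a
    fun j _ h => (Nat.Coprime.coprime_mul_left_right ((w1 a j).2.2.2.2.2 h)).symm
  rw [d1, m1] at m2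
  rw [swap S _ _ _ _ fun f i hi => hS.hk f _ _ (x1 i hi).1 ha
    (Nat.coprime_of_lt_prime (by omega) (by nlinarith [x1 i hi]) hp).symm]
  obtain ⟨E, hE⟩ : ∃ E, E = C' * (2 * Real.log N) * (N : ℝ) ^ (-5 / 8 : ℝ) := ⟨_, rfl⟩
  have e0 : 0 ≤ E := by rw [hE]; positivity
  have e1 : ∀ i ∈ JJ δ a N, xx δ a N i * sig (a.gcd (nn i)) - E * a ^ 3 * (|xx δ a N i| * nn i) ≤
      xx δ a N i * Bh (fun m => ∑ f, S.ω f * (S.L f * S.a f m)) (nn i) a := fun i hi => by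
    have h2 := err (M := fun m => ∑ f, S.ω f * (S.L f * S.a f m)) e0 (x1 i hi).1 ha (x1 i hi).2
      fun m h3 h4 => ((c2 N S hp hS).2 m h3 h4).trans (by
        have h5 : Real.log m ≤ Real.log N :=
          Real.log_le_log (by exact_mod_cast h3) (by exact_mod_cast h4.le)
        rw [hE, mul_right_comm _ _ (m : ℝ), mul_right_comm C' _ (m : ℝ)]
        gcongr
        linarith)
    have h3 := neg_abs_le (xx δ a N i *
      (Bh (fun m => ∑ f, S.ω f * (S.L f * S.a f m)) (nn i) a - sig (a.gcd (nn i))))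
    rw [abs_mul] at h3
    nlinarith [mul_le_mul_of_nonneg_left h2 (abs_nonneg (xx δ a N i))]
  refine le_trans ?_ (sum_le_sum e1)
  rw [sum_sub_distrib, ← mul_sum, show ∑ i ∈ JJ δ a N, xx δ a N i * sig (a.gcd (nn i)) = _ from m2]
  have e2 : (N : ℝ) ^ (-5 / 8 : ℝ) * (N : ℝ) ^ (1 / 2 + δ) ≤ δ / (24000 * C' * a ^ 3) := by
    rw [← Real.rpow_add (by linarith)]
    exact (Real.rpow_le_rpow_of_exponent_le (by linarith) (by linarith)).trans f3
  have e3 : E * a ^ 3 * ∑ i ∈ JJ δ a N, |xx δ a N i| * nn i ≤ Real.log N * δ / 12000 := by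
    calc _ ≤ E * a ^ 3 * (N : ℝ) ^ (1 / 2 + δ) := by gcongr
      _ = C' * (2 * Real.log N) * a ^ 3 * ((N : ℝ) ^ (-5 / 8 : ℝ) * (N : ℝ) ^ (1 / 2 + δ)) := by
        rw [hE]; ring
      _ ≤ C' * (2 * Real.log N) * a ^ 3 * (δ / (24000 * C' * a ^ 3)) := by gcongr
      _ = _ := by field_simp; norm_num
  have e4 : 1 / 30 ≤ a * Vr a := by
    rw [div_le_iff₀ (by positivity)] at d2
    linarith
  have e5 := mul_le_mul_of_nonneg_left f1 ha0.le
  nlinarith [mul_le_mul_of_nonneg_right e4 (by positivity : 0 ≤ Real.log N * δ)]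

end Pool.Agent.MP_20b2fd_nt.H38
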