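import Pool.Agent.MP_20b2fd_nt.H38.SpecN

/-! The diagonal part of the mollified second moment. -/

set_option autoImplicit false

namespace Pool.Agent.MP_20b2fd_nt.H38

open Finset Filter Topology
open scoped Real

namespace Mo2A

theorem bh_lin {N : ℕ} (hN : 1 ≤ N) (α c : ℝ) (O : ℕ → ℝ) {m n : ℕ} (hm : 1 ≤ m) (hn : 1 ≤ n) :
    Bh (fun k => α * tau k * Real.log (N / k) + c * tau k + 2 * O k) m n =
      α * (Real.log N * Bh tau m n - Bh (fun k => tau k * Real.log k) m n) + c * Bh tau m n +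
        2 * Bh O m n := by
  simp only [Bh, mul_sum, ← sum_sub_distrib, ← sum_add_distrib]
  refine sum_congr rfl fun d hd => ?_
  have h1 := Nat.dvd_of_mem_divisors hd
  have h2 : d ^ 2 ∣ m * n := by
    rw [sq]
    exact mul_dvd_mul (h1.trans (Nat.gcd_dvd_left m n)) (h1.trans (Nat.gcd_dvd_right m n))
  have h3 : 0 < m * n / d ^ 2 :=
    Nat.div_pos (Nat.le_of_dvd (Nat.mul_pos hm hn) h2) (pow_pos (Nat.pos_of_mem_divisors hd) 2)
  rw [Real.log_div (Nat.cast_ne_zero.2 (by omega)) (Nat.cast_ne_zero.2 h3.ne')]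
  ring

theorem bl_lin {ι : Type} (J : Finset ι) (n : ι → ℕ) (x : ι → ℝ) (hn : ∀ i ∈ J, 1 ≤ n i) {N : ℕ}
    (hN : 1 ≤ N) (α c : ℝ) (O : ℕ → ℝ) :
    Bl J n x (fun k => α * tau k * Real.log (N / k) + c * tau k + 2 * O k) =
      α * (Real.log N * Bl J n x tau - Bl J n x fun k => tau k * Real.log k) + c * Bl J n x tau +
        2 * Bl J n x O := by
  simp only [Bl, mul_sum, ← sum_sub_distrib, ← sum_add_distrib]
  refine sum_congr rfl fun i hi => sum_congr rfl fun j hj => ?_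
  rw [bh_lin hN α c O (hn i hi) (hn j hj)]
  ring

theorem num {δ α γ c a V l T A B D : ℝ} (hδ : 0 < δ) (hδ1 : δ ≤ 1) (hα : 0 ≤ α) (hαγ : α ≤ γ)
    (hγ : 1 ≤ γ) (ha : 0 ≤ a) (hV : 0 ≤ V) (hV1 : V ≤ 1) (hl : 0 ≤ l) (hT : 0 ≤ T)
    (hT1 : T ≤ V * l * (1 + 38 / 100 * δ)) (hA : A ≤ V * l ^ 2 * (δ / 1000))
    (hB : B ≤ V * l ^ 2 * (1 / 2 + 38 / 100 * δ))
    (hbig : 2 * (|D| + |c| * a) ≤ a * V ^ 2 * (δ / 100) * l) :
    α * (2 * l * (a * V * T) - (D * T + a * V * (-2 * A - 4 * B))) + c * (a * V * T) ≤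
      γ * (a * V ^ 2 * l ^ 2 * (4 + 23 / 10 * δ)) := by
  have haV : 0 ≤ a * V := mul_nonneg ha hV
  have hT2 : T ≤ 2 * l := by
    have : V * (1 + 38 / 100 * δ) ≤ 1 * 2 := by gcongr; linarith
    nlinarith
  have h1 : 2 * l * (a * V * T) ≤ 2 * l * (a * V * (V * l * (1 + 38 / 100 * δ))) := by gcongr
  have h2 : a * V * A ≤ a * V * (V * l ^ 2 * (δ / 1000)) := by gcongr
  have h3 : a * V * B ≤ a * V * (V * l ^ 2 * (1 / 2 + 38 / 100 * δ)) := by gcongr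
  have h4 : -(D * T) ≤ |D| * (2 * l) := by
    have : -D * T ≤ |D| * (2 * l) := mul_le_mul (neg_le_abs D) hT2 hT (abs_nonneg D)
    linarith
  have h5 : c * (a * V * T) ≤ γ * (|c| * (a * 1 * (2 * l))) := by
    have : c * (a * V * T) ≤ |c| * (a * 1 * (2 * l)) :=
      mul_le_mul (le_abs_self c) (by gcongr) (by positivity) (abs_nonneg c)
    exact this.trans (le_mul_of_one_le_left (by positivity) hγ)
  have h6 : 2 * l * (a * V * T) - (D * T + a * V * (-2 * A - 4 * B)) ≤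
      a * V ^ 2 * l ^ 2 * (4 + 2282 / 1000 * δ) + |D| * (2 * l) := by linarith
  have h7 := (mul_le_mul_of_nonneg_left h6 hα).trans
    (mul_le_mul_of_nonneg_right hαγ (by positivity))
  have h8 := mul_le_mul_of_nonneg_right hbig hl
  have h9 : 0 ≤ a * V ^ 2 * l ^ 2 * δ := by positivity
  have h10 : a * V ^ 2 * l ^ 2 * (4 + 2282 / 1000 * δ) + |D| * (2 * l) + |c| * (a * 1 * (2 * l)) ≤
      a * V ^ 2 * l ^ 2 * (4 + 23 / 10 * δ) := by linarith
  have h11 := mul_le_mul_of_nonneg_left h10 (zero_le_one.trans hγ)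
  linarith

end Mo2A

open Mo2A in
theorem mo2Of : Mo2Of := by
  intro Ph Dl Wb M1 Cf Q0 Q1 Xn δ U c₀ a hδ hδ1 hU ha
  obtain ⟨d1, d2, -, d4, d5, d6⟩ := Dl.2 a ha
  obtain ⟨-, p1, -, p2, p3, -⟩ := Ph U hU
  obtain ⟨N0, q0⟩ := Q0 δ a hδ hδ1 ha
  obtain ⟨N1, q1⟩ := Q1 δ a hδ hδ1 ha
  obtain ⟨N2, xn⟩ := Xn δ a hδ hδ1 ha
  have ha' : (0 : ℝ) < a := by exact_mod_cast ha
  have hV : 0 < Vr a := lt_of_lt_of_le (by positivity) d4
  have hγ : 1 ≤ c1 U := by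
    have : 2 / U ≤ 2 := div_le_self zero_le_two hU
    linarith [Real.pi_gt_three]
  have hev : ∀ᶠ N : ℕ in atTop,
      2 * (|Bl (J0 a) id (Dj a) fun m => tau m * Real.log m| + |c₀| * a) ≤
        a * Vr a ^ 2 * (δ / 100) * (Real.log N / 2) :=
    (((Real.tendsto_log_atTop.comp tendsto_natCast_atTop_atTop).atTop_div_const
      two_pos).const_mul_atTop (by positivity)).eventually_ge_atTop _
  obtain ⟨N3, big⟩ := eventually_atTop.1 hev
  refine ⟨N0 + N1 + N2 + N3 + 2, fun N hN => ?_⟩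
  have wb := (Wb.2 δ N hδ (by omega)).2 a
  obtain ⟨c1', c2, c3, -⟩ := Cf (J0 a) (Icc 1 (KK δ N)) (Dj a) (xw (KK δ N) (ww δ a N))
    (fun i hi => (d6 i hi).1) (fun j hj => (mem_Icc.1 hj).1)
    fun i hi j _ h => (d6 i hi).2.2 j ((wb j).2.2.2.2.2 h)
  obtain ⟨-, m2, m3⟩ := M1 (KK δ N) (ww δ a N) fun k h =>
    ⟨((wb k).2.2.1 h).1, ((wb k).2.2.1 h).2.2.2⟩
  have hn := (xn N (by omega)).1
  refine ⟨fun i hi => ⟨(hn i hi).1, lt_of_le_of_lt (Nat.le_mul_of_pos_left _ ha) (hn i hi).2⟩,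
    c1'.trans (by rw [d1, zero_mul]), ?_⟩
  rw [bl_lin _ _ _ (fun i hi => (hn i hi).1) (by omega)]
  have e2 : Bl (JJ δ a N) nn (xx δ a N) tau = _ := c2
  have e3 : (Bl (JJ δ a N) nn (xx δ a N) fun k => tau k * Real.log k) = _ := c3
  rw [e2, e3, d2, m2, m3]
  have key := num (c := c₀) hδ (hδ1.trans (by norm_num)) p2 p3 hγ ha'.le hV.le d5
    (div_nonneg (Real.log_natCast_nonneg N) zero_le_two)
    (sum_nonneg fun k _ => by positivity) (q0 N (by omega)).1 (q0 N (by omega)).2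
    (q1 N (by omega)) (big N (by omega))
  rw [show 2 * (Real.log N / 2) = Real.log N by ring] at key
  linarith [le_abs_self (Bl (JJ δ a N) nn (xx δ a N) (Od (Kf U) N))]

end Pool.Agent.MP_20b2fd_nt.H38
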