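import Pool.Agent.MP_20b2fd_nt.H38.SpecN

/-! The diagonal sums of the mollifier. -/

set_option autoImplicit false

namespace Pool.Agent.MP_20b2fd_nt.H38

open Finset

namespace Mq0A

theorem large (M : ℝ) : ∃ N₀ : ℕ, ∀ N : ℕ, N₀ ≤ N → 2 ≤ N ∧ M ≤ Real.log N := by
  refine ⟨max 2 ⌈Real.exp M⌉₊, fun N hN => ⟨le_trans (le_max_left _ _) hN, ?_⟩⟩
  have h1 : Real.exp M ≤ N :=
    (Nat.le_ceil _).trans (by exact_mod_cast le_trans (le_max_right _ _) hN)
  simpa using Real.log_le_log (Real.exp_pos M) h1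

theorem psum (k T : ℕ) (η : ℝ) (hk : 1 ≤ k) (hη : 0 < η) (hT : 1 / η ≤ T) :
    ∑ p ∈ k.primeFactors, Real.log p / ((p : ℝ) - 1) ≤ (T + 1) + η * Real.log k := by
  classical
  have h1 : ∀ p ∈ k.primeFactors, Real.log p / ((p : ℝ) - 1) ≤
      (if p ∈ range (T + 1) then 1 else 0) + η * Real.log p := by
    intro p hp
    have h2 : (2 : ℝ) ≤ p := by exact_mod_cast (Nat.prime_of_mem_primeFactors hp).two_le
    have h3 : 0 ≤ Real.log p := Real.log_nonneg (by linarith)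
    split_ifs with h
    · have h4 : Real.log p / ((p : ℝ) - 1) ≤ 1 := by
        rw [div_le_one (by linarith)]
        exact Real.log_le_sub_one_of_pos (by linarith)
      nlinarith [mul_nonneg hη.le h3]
    · have h4 : (T : ℝ) + 1 ≤ p := by
        have : T + 1 ≤ p := by simpa using h
        exact_mod_cast this
      rw [zero_add, div_le_iff₀ (by linarith)]
      rw [div_le_iff₀ hη] at hT
      have h5 : 1 ≤ η * ((p : ℝ) - 1) := by nlinarith
      nlinarith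
  refine (sum_le_sum h1).trans ?_
  rw [sum_add_distrib, ← mul_sum]
  have h2 : ∑ p ∈ k.primeFactors, (if p ∈ range (T + 1) then (1 : ℝ) else 0) ≤ T + 1 := by
    rw [sum_ite_mem, sum_const, nsmul_eq_mul, mul_one]
    have := card_le_card (inter_subset_right (s₁ := k.primeFactors) (s₂ := range (T + 1)))
    rw [card_range] at this
    exact_mod_cast this
  have h3 : ∑ p ∈ k.primeFactors, Real.log p ≤ Real.log k := by
    rw [← Real.log_prod (fun p hp => by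
      exact_mod_cast (Nat.prime_of_mem_primeFactors hp).ne_zero)]
    have h4 : ∏ p ∈ k.primeFactors, p ≤ k := Nat.le_of_dvd hk (Nat.prod_primeFactors_dvd k)
    refine Real.log_le_log (prod_pos fun p hp => by
      exact_mod_cast (Nat.prime_of_mem_primeFactors hp).pos) ?_
    have h5 : ((∏ p ∈ k.primeFactors, p : ℕ) : ℝ) ≤ k := by exact_mod_cast h4
    rwa [Nat.cast_prod] at h5
  nlinarith [mul_le_mul_of_nonneg_left h3 hη.le]

open Classical in
theorem term (hW : WbS) {δ : ℝ} (a N k : ℕ) (hδ : 0 < δ) (hN : 2 ≤ N) (hl : 3 ≤ lam N) :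
    k.totient * ww δ a N k ^ 2 / (k : ℝ) ^ 2 ≤
      (if k ∈ Gq (30 * a) ((N : ℝ) ^ (1 / 2 - 3 * δ / 4)) then (1 : ℝ) / k.totient else 0) +
      (3 / (4 * lam N)) ^ 2 * (if k ∈ (Gq (30 * a) ((N : ℝ) ^ (1 / 2 + δ / 2))).filter
        (fun k : ℕ => (N : ℝ) ^ (1 / 2 - 3 * δ / 4) < k) then om N k ^ 2 / k.totient else 0) := by
  obtain ⟨hψ, hw⟩ := hW.2 δ N hδ hN
  obtain ⟨h0, -, h2, -, h4, -⟩ := hw a k
  by_cases hz : ww δ a N k = 0
  · rw [hz]
    simp only [ne_eq, OfNat.ofNat_ne_zero, not_false_eq_true, zero_pow, mul_zero, zero_div]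
    positivity
  obtain ⟨hs, hc, hk, hK⟩ := h2 hz
  obtain ⟨hz1, hz2⟩ := h4 hs
  have hφ : (0 : ℝ) < k.totient := by exact_mod_cast Nat.totient_pos.2 hk
  have hk' : (0 : ℝ) < k := by exact_mod_cast hk
  have hN' : (0 : ℝ) < N := by exact_mod_cast (by omega : 0 < N)
  have hb : k.totient * ww δ a N k ^ 2 / (k : ℝ) ^ 2 ≤ wt δ N k ^ 2 / k.totient := by
    have he : ww δ a N k = kz (zz δ N) k * wt δ N k := by
      unfold ww
      rw [if_pos ⟨hs, hc⟩]
    rw [he, div_le_div_iff₀ (by positivity) hφ]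
    have h5 : (kz (zz δ N) k * k.totient) ^ 2 ≤ (k : ℝ) ^ 2 :=
      pow_le_pow_left₀ (by positivity) hz2 2
    nlinarith [mul_le_mul_of_nonneg_left h5 (sq_nonneg (wt δ N k))]
  refine hb.trans ?_
  by_cases hy : (k : ℝ) ≤ (N : ℝ) ^ (1 / 2 - 3 * δ / 4)
  · have hp : psi δ N (Real.log k) = 0 := by
      by_contra hp
      have h6 := ((hψ _).2.2.1 hp).1
      have h7 := Real.log_le_log hk' hy
      rw [Real.log_rpow hN'] at h7
      linarith
    have hwt : wt δ N k = 1 := by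
      unfold wt
      rw [if_pos hy, hp]
      ring
    rw [hwt, if_pos (by
      unfold Gq
      exact mem_filter.2 ⟨mem_Icc.2 ⟨hk, Nat.le_floor hy⟩, hs, hc⟩), one_pow]
    have : 0 ≤ (3 / (4 * lam N)) ^ 2 * (if k ∈ (Gq (30 * a) ((N : ℝ) ^ (1 / 2 + δ / 2))).filter
        (fun k : ℕ => (N : ℝ) ^ (1 / 2 - 3 * δ / 4) < k) then om N k ^ 2 / k.totient else 0) := by
      positivity
    linarith
  · have hom : 0 ≤ om N k := by
      unfold om
      positivity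
    have hwt : wt δ N k ≤ 3 / (4 * lam N) * om N k := by
      unfold wt
      rw [if_neg hy, zero_add]
      have h6 : 0 ≤ 3 / (4 * lam N) * om N k := by positivity
      nlinarith [mul_le_mul_of_nonneg_left (hψ (Real.log k)).2.1 h6]
    rw [if_pos (show k ∈ (Gq (30 * a) ((N : ℝ) ^ (1 / 2 + δ / 2))).filter
        (fun k : ℕ => (N : ℝ) ^ (1 / 2 - 3 * δ / 4) < k) from mem_filter.2 ⟨by
      unfold Gq
      exact mem_filter.2 ⟨mem_Icc.2 ⟨hk, hK⟩, hs, hc⟩, not_le.1 hy⟩)]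
    have h7 : wt δ N k ^ 2 / k.totient ≤ (3 / (4 * lam N)) ^ 2 * (om N k ^ 2 / k.totient) := by
      rw [← mul_div_assoc, ← mul_pow]
      exact div_le_div_of_nonneg_right (pow_le_pow_left₀ h0 hwt 2) hφ.le
    have : 0 ≤ (if k ∈ Gq (30 * a) ((N : ℝ) ^ (1 / 2 - 3 * δ / 4)) then (1 : ℝ) / k.totient
      else 0) := by positivity
    linarith

theorem ite_le (A B : Finset ℕ) (f : ℕ → ℝ) (hf : ∀ k, 0 ≤ f k) :
    ∑ k ∈ A, (if k ∈ B then f k else 0) ≤ ∑ k ∈ B, f k := by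
  rw [sum_ite_mem]
  exact sum_le_sum_of_subset_of_nonneg inter_subset_right fun k _ _ => hf k

theorem first (hW : WbS) (h2 : M2S) (hO : OmS) (δ : ℝ) (a : ℕ) (hδ : 0 < δ) (hδ1 : δ ≤ 1 / 10 ^ 10)
    (ha : 1 ≤ a) : ∃ N₀ : ℕ, ∀ N : ℕ, N₀ ≤ N →
    ∑ k ∈ Icc 1 (KK δ N), k.totient * ww δ a N k ^ 2 / (k : ℝ) ^ 2 ≤
      Vr a * (Real.log N / 2) * (1 + 38 / 100 * δ) := by
  obtain ⟨N1, hN1⟩ := hW.1 (1 / 1000) (by norm_num)
  obtain ⟨C, hC, hM⟩ := h2 (30 * a) (by omega)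
  obtain ⟨C', hC', hO⟩ := hO a ha
  have hV : 0 < Vr a := by
    unfold Vr
    have h1 : 0 < 30 * a := by omega
    have h3 := Nat.totient_pos.2 h1
    positivity
  obtain ⟨N2, hN2⟩ := large (2000 * (C + C') / (Vr a * δ))
  refine ⟨max N1 N2, fun N hN => ?_⟩
  obtain ⟨l1, -, l3, l4⟩ := hN1 N (le_trans (le_max_left _ _) hN)
  obtain ⟨hN2', hL⟩ := hN2 N (le_trans (le_max_right _ _) hN)
  have hN' : (1 : ℝ) ≤ N := by exact_mod_cast (by omega : 1 ≤ N)
  have hδ2 : δ ≤ 1 / 10 := hδ1.trans (by norm_num)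
  have y1 : 1 ≤ (N : ℝ) ^ (1 / 2 - 3 * δ / 4) := Real.one_le_rpow hN' (by linarith)
  have y2 : 1 ≤ (N : ℝ) ^ (1 / 2 + δ / 2) := Real.one_le_rpow hN' (by linarith)
  have a1 := (abs_le.1 (hM _ y1).1).2
  have a2 := (hO N ((N : ℝ) ^ (1 / 2 - 3 * δ / 4)) _ (by omega) y2).2
    (Real.rpow_le_rpow_of_exponent_le hN' (by linarith))
    (Real.rpow_le_rpow_of_exponent_le hN' (by linarith))
  rw [Real.log_div (by positivity) (by positivity), Real.log_rpow (by positivity),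
    Real.log_rpow (by positivity)] at a2
  rw [Real.log_rpow (by positivity)] at a1
  refine (sum_le_sum fun k _ => term hW a N k hδ hN2' l1).trans ?_
  rw [sum_add_distrib, ← mul_sum]
  have b1 := ite_le (Icc 1 (KK δ N)) (Gq (30 * a) ((N : ℝ) ^ (1 / 2 - 3 * δ / 4)))
    (fun k => (1 : ℝ) / k.totient) (fun k => by positivity)
  have b2 := ite_le (Icc 1 (KK δ N)) ((Gq (30 * a) ((N : ℝ) ^ (1 / 2 + δ / 2))).filter
    (fun k : ℕ => (N : ℝ) ^ (1 / 2 - 3 * δ / 4) < k))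
    (fun k => om N k ^ 2 / k.totient) (fun k => by positivity)
  have hL0 : 0 ≤ Real.log N := Real.log_nonneg hN'
  have c1 : (3 / (4 * lam N)) ^ 2 * (lam' N + lam' N ^ 2) ≤ 7516 / 10000 := by
    rw [div_pow, div_mul_eq_mul_div, div_le_iff₀ (by positivity)]
    have : lam' N ^ 2 ≤ ((1 + 1 / 1000) * lam N) ^ 2 := pow_le_pow_left₀ (by linarith) l4 2
    nlinarith
  have c2 : 0 ≤ Vr a * ((1 / 2 + δ / 2) * Real.log N - (1 / 2 - 3 * δ / 4) * Real.log N) + C' := by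
    have : 0 ≤ Vr a * ((1 / 2 + δ / 2) * Real.log N - (1 / 2 - 3 * δ / 4) * Real.log N) :=
      mul_nonneg hV.le (by nlinarith)
    linarith
  have c3 := mul_le_mul_of_nonneg_left (b2.trans a2) (sq_nonneg (3 / (4 * lam N)))
  rw [← mul_assoc] at c3
  have c4 := c3.trans (mul_le_mul_of_nonneg_right c1 c2)
  rw [div_le_iff₀ (by positivity)] at hL
  have hVe : ((30 * a).totient : ℝ) / ((30 * a : ℕ) : ℝ) = Vr a := rfl
  rw [hVe] at a1
  have c5 : 0 ≤ Real.log N * (Vr a * δ) := by positivity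
  refine (add_le_add (b1.trans (sub_le_iff_le_add.1 a1)) c4).trans ?_
  nlinarith

end Mq0A

theorem mq0Of : Mq0Of := by
  intro _ hW h2 hO δ a hδ hδ1 ha
  obtain ⟨N1, hN1⟩ := Mq0A.first hW h2 hO δ a hδ hδ1 ha
  obtain ⟨T, hT⟩ := exists_nat_ge (1 / (δ / 8000))
  obtain ⟨N2, hN2⟩ := Mq0A.large (8000 * (T + 1) / δ)
  refine ⟨max N1 N2, fun N hN => ?_⟩
  have h1 := hN1 N (le_trans (le_max_left _ _) hN)
  obtain ⟨hN2', hL⟩ := hN2 N (le_trans (le_max_right _ _) hN)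
  refine ⟨h1, ?_⟩
  have hN' : (1 : ℝ) ≤ N := by exact_mod_cast (by omega : 1 ≤ N)
  have hδ2 : δ ≤ 1 / 10 := hδ1.trans (by norm_num)
  have hL0 : 0 ≤ Real.log N := Real.log_nonneg hN'
  rw [div_le_iff₀ hδ] at hL
  have h3 : ∀ k ∈ Icc 1 (KK δ N), ∑ p ∈ k.primeFactors, Real.log p / ((p : ℝ) - 1) ≤
      δ * Real.log N / 4000 := by
    intro k hk
    obtain ⟨hk1, hk2⟩ := mem_Icc.1 hk
    have h4 := Mq0A.psum k T (δ / 8000) hk1 (by positivity) hT
    have h5 : (k : ℝ) ≤ N := by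
      have h6 : (k : ℝ) ≤ (N : ℝ) ^ (1 / 2 + δ / 2) :=
        (Nat.le_floor_iff (by positivity)).1 hk2
      have h7 := Real.rpow_le_rpow_of_exponent_le hN' (show 1 / 2 + δ / 2 ≤ 1 by linarith)
      rw [Real.rpow_one] at h7
      exact h6.trans h7
    have h6 : Real.log k ≤ Real.log N := Real.log_le_log (by exact_mod_cast hk1) h5
    nlinarith [mul_le_mul_of_nonneg_left h6 hδ.le]
  have hV : 0 ≤ Vr a := by
    unfold Vr
    positivity
  refine (sum_le_sum fun k hk => mul_le_mul_of_nonneg_left (h3 k hk) (by positivity)).trans ?_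
  rw [← sum_mul]
  refine (mul_le_mul_of_nonneg_right h1 (by positivity)).trans ?_
  have h4 : 0 ≤ Vr a * Real.log N ^ 2 * δ := by positivity
  nlinarith [mul_le_mul_of_nonneg_left hδ2 h4]

end Pool.Agent.MP_20b2fd_nt.H38
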