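import Pool.Agent.MP_20b2fd_nt.H38.SpecC

/-! The trivial bound for the sum over the large primes. -/

set_option autoImplicit false

namespace Pool.Agent.MP_20b2fd_nt.H38

open MeasureTheory Complex Finset Filter Topology ArithmeticFunction

namespace AbA

theorem harm (K N : ℕ) (h : K ≤ N) :
    ∑ r ∈ Icc 1 K, (1 : ℝ) / r ≤ 1 + Real.log N := by
  have h1 := harmonic_le_one_add_log N
  rw [harmonic_eq_sum_Icc] at h1
  push_cast at h1
  refine le_trans ?_ h1
  simp only [one_div]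
  exact sum_le_sum_of_subset_of_nonneg (Icc_subset_Icc_right h) fun _ _ _ => by positivity

theorem kk_le {δ : ℝ} {N : ℕ} (h1 : δ ≤ 1) (hN : 1 ≤ N) : KK δ N ≤ N := by
  have h : (N : ℝ) ^ (1 / 2 + δ / 2) ≤ (N : ℝ) ^ (1 : ℝ) :=
    Real.rpow_le_rpow_of_exponent_le (by exact_mod_cast hN) (by linarith)
  rw [Real.rpow_one] at h
  exact Nat.floor_le_of_le h

theorem term {n : ℕ} (hn : 1 ≤ n) {v : ℂ} (hv : v.re ≤ 1) {A : ℝ} (hA : Real.log n ≤ A) :
    ‖(n : ℂ) ^ (-v)‖ ≤ 1 / n * Real.exp ((1 - v.re) * A) := by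
  have h0 : (0 : ℝ) < n := by exact_mod_cast hn
  rw [Complex.norm_natCast_cpow_of_pos hn, Real.rpow_def_of_pos h0, neg_re,
    show Real.log n * -v.re = -Real.log n + (1 - v.re) * Real.log n by ring, Real.exp_add,
    Real.exp_neg, Real.exp_log h0, one_div]
  exact mul_le_mul_of_nonneg_left
    (Real.exp_le_exp.2 (mul_le_mul_of_nonneg_left hA (by linarith))) (by positivity)

end AbA

open Classical in
theorem abOf : AbOf := by
  intro hW δ N x v u h0 h1 hN hv
  have hψ := (hW.2 δ N h0 hN).1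
  set X := Real.exp ((1 - v.re) * ((1 / 2 + δ / 2) * Real.log N - u)) with hX
  have hX0 : 0 ≤ X := (Real.exp_pos _).le
  have key : ∀ i ∈ TR δ N, ‖(moebius i.2 : ℂ) * x.2 (nn i) * (nn i : ℂ) ^ (-v) *
      psi δ N (u + Real.log (nn i))‖ ≤ 1 / i.1 * (1 / i.2) * X := by
    intro i hi
    rw [TR, mem_product, mem_filter, mem_Icc, PP, prs, mem_filter] at hi
    have hp : 1 ≤ i.1 := hi.1.2.1.one_le
    have hn : 1 ≤ nn i := Nat.mul_pos hp hi.2.1.1
    by_cases e : psi δ N (u + Real.log (nn i)) = 0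
    · rw [e, ofReal_zero, mul_zero, norm_zero]; positivity
    have h2 := AbA.term hn hv (A := (1 / 2 + δ / 2) * Real.log N - u)
      (by linarith [((hψ _).2.2.1 e).2])
    have h3 : ‖(moebius i.2 : ℂ)‖ ≤ 1 := by
      rw [Complex.norm_intCast]; exact_mod_cast abs_moebius_le_one
    have h4 : ‖x.2 (nn i)‖ ≤ 1 := x.2.norm_le_one _
    have h5 : ‖(psi δ N (u + Real.log (nn i)) : ℂ)‖ ≤ 1 := by
      rw [Complex.norm_real, Real.norm_eq_abs, abs_of_nonneg (hψ _).1]; exact (hψ _).2.1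
    have h6 : (1 : ℝ) / i.1 * (1 / i.2) = 1 / (nn i : ℕ) := by
      rw [nn]; push_cast; rw [one_div_mul_one_div]
    rw [norm_mul, norm_mul, norm_mul, h6]
    calc _ ≤ 1 * 1 * (1 / (nn i : ℕ) * X) * 1 := by gcongr
      _ = _ := by ring
  refine (norm_sum_le _ _).trans ((sum_le_sum key).trans ?_)
  rw [← sum_mul]
  refine mul_le_mul_of_nonneg_right ?_ hX0
  rw [TR, sum_product, lam, sum_mul]
  refine sum_le_sum fun t _ => ?_
  dsimp only
  rw [← mul_sum]
  refine mul_le_mul_of_nonneg_left ?_ (by positivity)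
  refine le_trans ?_ (AbA.harm _ N (AbA.kk_le h1 (by omega)))
  exact sum_le_sum_of_subset_of_nonneg (filter_subset _ _) fun _ _ _ => by positivity

end Pool.Agent.MP_20b2fd_nt.H38
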