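import Pool.Agent.MP_20b2fd_nt.H38.SpecD

/-! The dispersion estimate: expansion of the square and summation over pairs of primes. -/

set_option autoImplicit false

namespace Pool.Agent.MP_20b2fd_nt.H38

open Finset Filter Topology

namespace DcA

theorem norm_sq_sum (P : Finset ℕ) (a : ℕ → ℂ) (F : ℕ → ℝ) :
    ‖∑ t ∈ P, a t * F t‖ ^ 2 =
      ∑ t ∈ P, ∑ t' ∈ P, (a t * (starRingEnd ℂ) (a t')).re * (F t * F t') := by
  have h := congrArg Complex.re (Complex.mul_conj' (∑ t ∈ P, a t * F t))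
  rw [← Complex.ofReal_pow, Complex.ofReal_re] at h
  rw [← h, map_sum, sum_mul_sum, Complex.re_sum]
  refine sum_congr rfl fun t _ => ?_
  rw [Complex.re_sum]
  refine sum_congr rfl fun t' _ => ?_
  simp only [map_mul, Complex.conj_ofReal, Complex.mul_re, Complex.mul_im, Complex.ofReal_re,
    Complex.ofReal_im, Complex.conj_re, Complex.conj_im]
  ring

theorem expand (P : Finset ℕ) (a : ℕ → ℂ) (F : ℕ → ℤ → ℝ) (g : ℤ → ℝ) {A Bd Bo K : ℝ}
    (ha : ∀ t, ‖a t‖ ≤ A) (hK : (P.card : ℝ) ≤ K) (hd : 0 ≤ Bd) (ho : 0 ≤ Bo)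
    (h : ∀ t ∈ P, ∀ t' ∈ P, (Summable fun y => g y * (F t y * F t' y)) ∧
      |∑' y, g y * (F t y * F t' y)| ≤ (if t = t' then Bd else 0) + Bo) :
    (Summable fun y => g y * ‖∑ t ∈ P, a t * F t y‖ ^ 2) ∧
      ∑' y, g y * ‖∑ t ∈ P, a t * F t y‖ ^ 2 ≤ A ^ 2 * (K * Bd + K ^ 2 * Bo) := by
  have e : ∀ y, g y * ‖∑ t ∈ P, a t * F t y‖ ^ 2 =
      ∑ t ∈ P, ∑ t' ∈ P, (a t * (starRingEnd ℂ) (a t')).re * (g y * (F t y * F t' y)) := by
    intro y
    rw [norm_sq_sum P a fun t => F t y, mul_sum]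
    refine sum_congr rfl fun t _ => ?_
    rw [mul_sum]
    exact sum_congr rfl fun t' _ => by ring
  have s : ∀ t ∈ P, ∀ t' ∈ P,
      Summable fun y => (a t * (starRingEnd ℂ) (a t')).re * (g y * (F t y * F t' y)) :=
    fun t ht t' ht' => (h t ht t' ht').1.mul_left _
  simp only [e]
  refine ⟨summable_sum fun t ht => summable_sum fun t' ht' => s t ht t' ht', ?_⟩
  rw [Summable.tsum_finsetSum fun t ht => summable_sum fun t' ht' => s t ht t' ht']
  have A0 : 0 ≤ A := (norm_nonneg _).trans (ha 0)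
  have K0 : 0 ≤ K := (Nat.cast_nonneg _).trans hK
  calc ∑ t ∈ P, ∑' y, ∑ t' ∈ P, (a t * (starRingEnd ℂ) (a t')).re * (g y * (F t y * F t' y))
      ≤ ∑ t ∈ P, A ^ 2 * (Bd + K * Bo) := by
        refine sum_le_sum fun t ht => ?_
        rw [Summable.tsum_finsetSum fun t' ht' => s t ht t' ht']
        calc ∑ t' ∈ P, ∑' y, (a t * (starRingEnd ℂ) (a t')).re * (g y * (F t y * F t' y))
            ≤ ∑ t' ∈ P, A ^ 2 * ((if t = t' then Bd else 0) + Bo) := by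
              refine sum_le_sum fun t' ht' => ?_
              rw [tsum_mul_left]
              refine (le_abs_self _).trans ?_
              rw [abs_mul]
              refine mul_le_mul ((Complex.abs_re_le_norm _).trans ?_) (h t ht t' ht').2
                (abs_nonneg _) (sq_nonneg _)
              rw [norm_mul, Complex.norm_conj, sq]
              exact mul_le_mul (ha t) (ha t') (norm_nonneg _) A0
          _ = A ^ 2 * (Bd + P.card * Bo) := by
              rw [← mul_sum, sum_add_distrib, sum_ite_eq, if_pos ht, sum_const, nsmul_eq_mul]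
          _ ≤ _ := by gcongr
    _ = P.card * (A ^ 2 * (Bd + K * Bo)) := by rw [sum_const, nsmul_eq_mul]
    _ ≤ K * (A ^ 2 * (Bd + K * Bo)) := by gcongr
    _ = _ := by ring

theorem card_le {N : ℕ} {T : ℝ} {P : Finset ℕ} (h : TOK N T P) (hT : 0 ≤ T) :
    (P.card : ℝ) ≤ 2 * T := by
  have : P ⊆ Icc 1 ⌊2 * T⌋₊ := fun t ht =>
    mem_Icc.2 ⟨(h.2.2 t ht).1.one_le, Nat.le_floor (h.2.2 t ht).2.2⟩
  have h1 := card_le_card this
  rw [Nat.card_Icc, Nat.add_sub_cancel] at h1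
  exact (Nat.cast_le.2 h1).trans (Nat.floor_le (by linarith))

theorem gcd_le {B : ℤ} (hB : B ≠ 0) {N a : ℕ} (hN : N.Prime) (h1 : 1 ≤ a) (h2 : a < N) :
    (((B * N).gcd (a : ℕ) : ℕ) : ℝ) ≤ |(B : ℝ)| := by
  have c : N.Coprime a := (Nat.coprime_of_lt_prime (by omega) h2 hN)
  have e : (B * N).gcd (a : ℕ) = B.natAbs.gcd a := by
    rw [Int.gcd, Int.natAbs_mul, Int.natAbs_natCast, Int.natAbs_natCast]
    exact c.gcd_mul_right_cancel _
  rw [e, ← Int.cast_abs, ← Nat.cast_natAbs]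
  exact Nat.cast_le.2 (Nat.gcd_le_left _ (Int.natAbs_pos.2 hB))

/-- the off diagonal terms -/
theorem off {n δ T t M x : ℝ} (hn : 1 ≤ n) (δ0 : 0 < δ) (δ1 : δ ≤ 1 / 10 ^ 10)
    (T1 : n ^ (1 / 10000 : ℝ) ≤ T) (T2 : T ≤ n ^ (21 / 10000 : ℝ)) (t1 : T ≤ t) (t2 : t ≤ 2 * T)
    (M0 : 0 ≤ M) (M1 : M ≤ n ^ (1 / 2 + 3 * δ)) (hx : x ≤ 3 * n ^ (1 + 4 * δ)) :
    n ^ (1 - 50 * δ) / T / n ^ (500 * δ) + n ^ (1 - 50 * δ) / T / t + 1 + M * n ^ (1000 * δ) +
      (1 + x / (t * (n ^ (1 - 50 * δ) / T))) * (2 * T * n ^ (4 * δ)) ^ (1 / 4 : ℝ) *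
        t ^ (3 / 4 : ℝ) * M ^ (31 / 8 : ℝ) / (n ^ (1 - 50 * δ) / T) ≤
      12 * (n ^ (1 - 50 * δ) / T * n ^ (-200 * δ)) := by
  have n0 : 0 < n := by linarith
  have pw : ∀ {a b : ℝ}, a ≤ b → n ^ a ≤ n ^ b := fun h => Real.rpow_le_rpow_of_exponent_le hn h
  have ad : ∀ a b : ℝ, n ^ a * n ^ b = n ^ (a + b) := fun a b => (Real.rpow_add n0 a b).symm
  have ps : ∀ a : ℝ, 0 < n ^ a := fun a => Real.rpow_pos_of_pos n0 a
  have T0 : 0 < T := (ps _).trans_le T1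
  have t0 : 0 < t := T0.trans_le t1
  set Y := n ^ (1 - 50 * δ) / T with hY
  have Y0 : 0 < Y := div_pos (ps _) T0
  have Y1 : n ^ (1 - 50 * δ - 21 / 10000) ≤ Y := by
    rw [Real.rpow_sub n0]
    exact div_le_div_of_nonneg_left (ps _).le T0 T2
  have Y2 : n ^ (1 - 250 * δ - 21 / 10000) ≤ Y * n ^ (-200 * δ) := by
    refine le_trans (le_of_eq ?_) (mul_le_mul_of_nonneg_right Y1 (ps _).le)
    rw [ad]
    congr 1
    ring
  have a1 : Y / n ^ (500 * δ) ≤ Y * n ^ (-200 * δ) := by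
    rw [div_eq_mul_inv, ← Real.rpow_neg n0.le]
    exact mul_le_mul_of_nonneg_left (pw (by linarith)) Y0.le
  have a2 : Y / t ≤ Y * n ^ (-200 * δ) := by
    refine (div_le_div_of_nonneg_left Y0.le (ps _) (T1.trans t1)).trans ?_
    rw [div_eq_mul_inv, ← Real.rpow_neg n0.le]
    exact mul_le_mul_of_nonneg_left (pw (by linarith)) Y0.le
  have a3 : 1 ≤ Y * n ^ (-200 * δ) := (Real.one_le_rpow hn (by linarith)).trans Y2
  have a4 : M * n ^ (1000 * δ) ≤ Y * n ^ (-200 * δ) := by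
    refine (mul_le_mul_of_nonneg_right M1 (ps _).le).trans ?_
    rw [ad]
    exact (pw (by linarith)).trans Y2
  have b1 : 1 + x / (t * Y) ≤ 4 * n ^ (54 * δ) := by
    have e1 : n ^ (1 - 50 * δ) ≤ t * Y := by
      rw [hY, ← mul_div_assoc, le_div_iff₀ T0, mul_comm]
      exact mul_le_mul_of_nonneg_right t1 (ps _).le
    have e2 : x / (t * Y) ≤ 3 * n ^ (1 + 4 * δ) / n ^ (1 - 50 * δ) :=
      div_le_div₀ (by have := ps (1 + 4 * δ); linarith) hx (ps _) e1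
    rw [mul_div_assoc, ← Real.rpow_sub n0, show 1 + 4 * δ - (1 - 50 * δ) = 54 * δ by ring] at e2
    have e3 : 1 ≤ n ^ (54 * δ) := Real.one_le_rpow hn (by linarith)
    linarith
  have G0 : 0 < 2 * T * n ^ (4 * δ) := mul_pos (by linarith) (ps _)
  have b2 : (2 * T * n ^ (4 * δ)) ^ (1 / 4 : ℝ) * t ^ (3 / 4 : ℝ) ≤
      2 * n ^ (21 / 10000 + 4 * δ) := by
    have e1 : t ≤ 2 * T * n ^ (4 * δ) :=
      t2.trans (le_mul_of_one_le_right (by linarith) (Real.one_le_rpow hn (by linarith)))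
    calc (2 * T * n ^ (4 * δ)) ^ (1 / 4 : ℝ) * t ^ (3 / 4 : ℝ)
        ≤ (2 * T * n ^ (4 * δ)) ^ (1 / 4 : ℝ) * (2 * T * n ^ (4 * δ)) ^ (3 / 4 : ℝ) := by gcongr
      _ = 2 * T * n ^ (4 * δ) := by
          rw [← Real.rpow_add G0]
          norm_num
      _ ≤ 2 * n ^ (21 / 10000 : ℝ) * n ^ (4 * δ) := by gcongr
      _ = _ := by rw [mul_assoc, ad]
  have b3 : M ^ (31 / 8 : ℝ) ≤ n ^ (31 / 16 + 12 * δ) := by
    refine (Real.rpow_le_rpow M0 M1 (by norm_num)).trans ?_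
    rw [← Real.rpow_mul n0.le]
    exact pw (by linarith)
  have a5 : (1 + x / (t * Y)) * (2 * T * n ^ (4 * δ)) ^ (1 / 4 : ℝ) * t ^ (3 / 4 : ℝ) *
      M ^ (31 / 8 : ℝ) / Y ≤ 8 * (Y * n ^ (-200 * δ)) := by
    rw [div_le_iff₀ Y0, mul_assoc (1 + x / (t * Y))]
    calc (1 + x / (t * Y)) * ((2 * T * n ^ (4 * δ)) ^ (1 / 4 : ℝ) * t ^ (3 / 4 : ℝ)) *
          M ^ (31 / 8 : ℝ)
        ≤ 4 * n ^ (54 * δ) * (2 * n ^ (21 / 10000 + 4 * δ)) * n ^ (31 / 16 + 12 * δ) := by gcongr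
      _ = 8 * (n ^ (54 * δ) * n ^ (21 / 10000 + 4 * δ) * n ^ (31 / 16 + 12 * δ)) := by ring
      _ ≤ 8 * (n ^ (1 - 250 * δ - 21 / 10000) * n ^ (1 - 50 * δ - 21 / 10000)) := by
          rw [ad, ad, ad]
          exact mul_le_mul_of_nonneg_left (pw (by linarith)) (by norm_num)
      _ ≤ 8 * (Y * n ^ (-200 * δ) * Y) := by gcongr
      _ = _ := by ring
  linarith

end DcA

open DcA in
theorem dcOf : DcOf := by
  intro hp δ δ0 δ1
  obtain ⟨C, C1, hC⟩ := hp (10 * δ) (by linarith)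
  have ev : ∀ (c a : ℝ), 0 < a → ∀ᶠ N : ℕ in atTop, c ≤ (N : ℝ) ^ a := fun c a ha =>
    ((tendsto_rpow_atTop ha).comp tendsto_natCast_atTop_atTop).eventually_ge_atTop c
  obtain ⟨N₀, hN₀⟩ := eventually_atTop.1
    ((ev (50 * C) (80 * δ) (by linarith)).and (ev 9 (1 / 4) (by norm_num)))
  refine ⟨N₀, fun N T A y₀ P h U a Φ hN hNp hT h0 hh hy hU ha hΦ => ?_⟩
  obtain ⟨l1, l2⟩ := hN₀ N hN
  have n1 : (1 : ℝ) < N := by exact_mod_cast hNp.one_lt
  set n : ℝ := (N : ℝ) with hn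
  have n0 : 0 < n := by linarith
  have pw : ∀ {a b : ℝ}, a ≤ b → n ^ a ≤ n ^ b := fun h => Real.rpow_le_rpow_of_exponent_le n1.le h
  have pw' : ∀ {a b : ℝ}, a < b → n ^ a < n ^ b := fun h => Real.rpow_lt_rpow_of_exponent_lt n1 h
  have ad : ∀ a b : ℝ, n ^ a * n ^ b = n ^ (a + b) := fun a b => (Real.rpow_add n0 a b).symm
  have ps : ∀ a : ℝ, 0 < n ^ a := fun a => Real.rpow_pos_of_pos n0 a
  have on : ∀ a : ℝ, 0 ≤ a → 1 ≤ n ^ a := fun a ha => Real.one_le_rpow n1.le ha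
  have nine : ∀ a b : ℝ, a + 1 / 4 ≤ b → 9 * n ^ a ≤ n ^ b := fun a b hab =>
    (mul_le_mul_of_nonneg_right l2 (ps a).le).trans (by rw [ad]; exact pw (by linarith))
  obtain ⟨T1, T2, hP⟩ := id hT
  have T3 : 1 ≤ T := (on _ (by norm_num)).trans T1
  have T0 : 0 < T := by linarith
  set Y := n ^ (1 - 50 * δ) / T with hY
  have Y1 : 1 ≤ Y := (one_le_div T0).2 (T2.trans (pw (by linarith)))
  set M := ⌊n ^ (1 / 2 + 3 * δ)⌋₊ with hM
  have M1 : (M : ℝ) ≤ n ^ (1 / 2 + 3 * δ) := Nat.floor_le (ps _).le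
  have M2 : 1 ≤ M := Nat.le_floor (by simpa using on (1 / 2 + 3 * δ) (by linarith))
  have M3 : M < N := by
    have : (M : ℝ) < n := M1.trans_lt ((pw' (by linarith)).trans_eq (Real.rpow_one n))
    exact Nat.cast_lt.1 this
  have nd : ∀ t ∈ P, ¬ (t : ℤ) ∣ h * N := fun t ht hd => by
    obtain ⟨p1, p2, p3⟩ := hP t ht
    rcases (Nat.prime_iff_prime_int.1 p1).dvd_or_dvd hd with k | k
    · have k1 : ((t : ℤ) : ℝ) ≤ ((|h| : ℤ) : ℝ) :=
        Int.cast_le.2 (Int.le_of_dvd (abs_pos.2 h0) ((dvd_abs _ _).2 k))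
      rw [Int.cast_abs, Int.cast_natCast] at k1
      have := pw' (a := 4 * δ) (b := 1 / 10000) (by linarith)
      linarith
    · have k1 : t = N := (Nat.prime_dvd_prime_iff_eq p1 hNp).1 (Int.natCast_dvd_natCast.1 k)
      have k2 := nine (21 / 10000) 1 (by norm_num)
      rw [Real.rpow_one] at k2
      rw [k1] at p3
      linarith
  have hH : |((h * N : ℤ) : ℝ)| ≤ n ^ (1 + 4 * δ) := by
    rw [Int.cast_mul, Int.cast_natCast, abs_mul, abs_of_pos n0, add_comm, ← ad, Real.rpow_one]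
    exact mul_le_mul_of_nonneg_right hh n0.le
  have hy' : T * |y₀| ≤ n ^ (1 + 4 * δ) := ((le_div_iff₀' T0).1 hy).trans (pw (by linarith))
  have hY' : T * Y ≤ n ^ (1 + 4 * δ) := by
    rw [hY, mul_div_cancel₀ _ T0.ne']
    exact pw (by linarith)
  have hX : (n ^ (2 : ℝ)) ^ (10 * δ) = n ^ (20 * δ) := by
    rw [← Real.rpow_mul n0.le]
    congr 1
    ring
  have key := expand P a (fun t y => FF Φ (U t) t (t * y + h * N)) (gw y₀ Y)
    (Bd := C * n ^ (20 * δ) * Y) (Bo := C * n ^ (20 * δ) * (12 * (Y * n ^ (-200 * δ)))) ha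
    (card_le hT T0.le) (by have := ps (20 * δ); positivity)
    (by have := ps (20 * δ); have := ps (-200 * δ); positivity) fun t ht t' ht' => by
      obtain ⟨p1, p2, p3⟩ := hP t ht
      obtain ⟨q1, q2, q3⟩ := hP t' ht'
      obtain ⟨s1, s2⟩ := hC t t' M (U t) (U t') (h * N) (2 * T * n ^ (4 * δ)) y₀ Y (n ^ (2 : ℝ))
        (n ^ (500 * δ)) (n ^ (1000 * δ)) Φ p1 q1 (nd t ht) (nd t' ht') M2 (Nat.le_floor (hU t))
        (Nat.le_floor (hU t')) Y1 (one_le_mul_of_one_le_of_one_le (by linarith) (on _ (by linarith)))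
        (on _ (by linarith)) (on _ (by linarith)) hΦ.1 (fun q hq => hΦ.2.1 q (by
          rw [show 1000 * δ = 500 * δ + 500 * δ by ring, ← ad, sq]
          exact mul_le_mul hq hq (Nat.cast_nonneg _) (ps _).le)) hΦ.2.2 (fun hne b hb => by
          rw [← mul_assoc]
          refine (gcd_le (mul_ne_zero (sub_ne_zero.2 (Nat.cast_injective.ne hne.symm)) h0) hNp
            (mem_Icc.1 hb).1 ((mem_Icc.1 hb).2.trans_lt M3)).trans ?_
          push_cast
          rw [abs_mul]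
          exact mul_le_mul (abs_le.2 ⟨by linarith, by linarith⟩) hh (abs_nonneg _) (by linarith))
        (by
          have e : ((t : ℝ) + t') * (|y₀| + Y) ≤ 4 * T * (|y₀| + Y) :=
            mul_le_mul_of_nonneg_right (by linarith) (by positivity)
          have := nine (1 + 4 * δ) 2 (by linarith)
          linarith)
        (by
          have e : (M : ℝ) * t' ≤ n ^ (1 / 2 + 3 * δ) * (2 * n ^ (21 / 10000 : ℝ)) :=
            mul_le_mul M1 (by linarith) (Nat.cast_nonneg _) (ps _).le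
          rw [mul_left_comm, ad] at e
          have := nine (1 / 2 + 3 * δ + 21 / 10000) 2 (by linarith)
          have := ps (1 / 2 + 3 * δ + 21 / 10000)
          linarith)
      refine ⟨s1, s2.trans ?_⟩
      rw [hX]
      have c0 : 0 ≤ C * n ^ (20 * δ) := by have := ps (20 * δ); positivity
      split_ifs
      · exact le_add_of_nonneg_right (by have := ps (-200 * δ); positivity)
      · rw [zero_add]
        refine mul_le_mul_of_nonneg_left (off n1.le δ0 δ1 T1 T2 q2 q3 (Nat.cast_nonneg _) M1 ?_) c0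
        refine (abs_add_le _ _).trans ?_
        rw [abs_mul (t' : ℝ), Nat.abs_cast t']
        have := mul_le_mul_of_nonneg_right q3 (abs_nonneg y₀)
        linarith
  refine ⟨key.1, key.2.trans ?_⟩
  have e1 : 1 ≤ T * n ^ (-200 * δ) := by
    refine le_trans ?_ (mul_le_mul_of_nonneg_right T1 (ps _).le)
    rw [ad]
    exact on _ (by linarith)
  have e2 : 50 * C * (n ^ (20 * δ) * n ^ (-200 * δ)) ≤ n ^ (-100 * δ) := by
    refine (mul_le_mul_of_nonneg_right l1 (mul_pos (ps _) (ps _)).le).trans ?_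
    rw [ad, ad]
    exact pw (by linarith)
  have c0 : 0 ≤ 2 * T * (C * n ^ (20 * δ) * Y) := by have := ps (20 * δ); positivity
  calc A ^ 2 * (2 * T * (C * n ^ (20 * δ) * Y) +
        (2 * T) ^ 2 * (C * n ^ (20 * δ) * (12 * (Y * n ^ (-200 * δ)))))
      ≤ A ^ 2 * (2 * T * (C * n ^ (20 * δ) * Y) * (T * n ^ (-200 * δ)) +
        (2 * T) ^ 2 * (C * n ^ (20 * δ) * (12 * (Y * n ^ (-200 * δ))))) :=
        mul_le_mul_of_nonneg_left (add_le_add (le_mul_of_one_le_right c0 e1) le_rfl) (sq_nonneg A)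
    _ = A ^ 2 * T ^ 2 * Y * (50 * C * (n ^ (20 * δ) * n ^ (-200 * δ))) := by ring
    _ ≤ _ := by gcongr

end Pool.Agent.MP_20b2fd_nt.H38
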