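import Pool.Agent.MP_20b2fd_nt.H38.SpecD

/-! Sums of the Gaussian weight over residue classes. -/

set_option autoImplicit false

namespace Pool.Agent.MP_20b2fd_nt.H38

open Finset Filter Topology
open scoped Real

namespace DgA

theorem gs {c : ℝ} (hc : 0 < c) : (Summable fun k : ℤ => Real.exp (-c * k ^ 2)) ∧
    ∑' k : ℤ, Real.exp (-c * k ^ 2) ≤ 1 + 2 / c := by
  set q := Real.exp (-c) with hq
  have q0 : 0 < q := Real.exp_pos _
  have q1 : q < 1 := Real.exp_lt_one_iff.2 (by linarith)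
  have h1 := hasSum_geometric_of_lt_one q0.le q1
  have h : HasSum (fun k : ℤ => q ^ k.natAbs) ((1 - q)⁻¹ + q * (1 - q)⁻¹) :=
    HasSum.of_nat_of_neg_add_one (by simpa using h1) (by
      simpa only [show ∀ n : ℕ, (-((n : ℤ) + 1)).natAbs = n + 1 by omega, pow_succ'] using
        h1.mul_left q)
  have hle : ∀ k : ℤ, Real.exp (-c * k ^ 2) ≤ q ^ k.natAbs := fun k => by
    rw [hq, ← Real.exp_nat_mul, Real.exp_le_exp, mul_comm (-c)]
    refine mul_le_mul_of_nonpos_right ?_ (by linarith)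
    have : ((k.natAbs : ℤ) : ℝ) ≤ (k ^ 2 : ℤ) := Int.cast_le.2 (Int.natAbs_le_self_sq k)
    rwa [Int.cast_natCast, Int.cast_pow] at this
  have hs := h.summable.of_nonneg_of_le (fun _ => (Real.exp_pos _).le) hle
  refine ⟨hs, (hs.tsum_le_tsum hle h.summable).trans ?_⟩
  have q2 : q * (c + 1) ≤ 1 := by
    rw [hq, Real.exp_neg, inv_mul_le_iff₀ (Real.exp_pos _), mul_one]
    exact Real.add_one_le_exp c
  have q3 : 0 < 1 - q := by linarith
  rw [h.tsum_eq, ← one_add_mul, ← div_eq_mul_inv, div_le_iff₀ q3, add_mul, div_mul_eq_mul_div,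
    ← sub_le_iff_le_add', le_div_iff₀ hc]
  nlinarith

theorem gs' (x : ℝ) (hx : 0 < x) : (Summable fun k : ℤ => Real.exp (-π * (k * x) ^ 2)) ∧
    ∑' k : ℤ, Real.exp (-π * (k * x) ^ 2) ≤ 1 + 2 / (π * x ^ 2) := by
  have := gs (c := π * x ^ 2) (by positivity)
  have e : ∀ k : ℤ, -π * (k * x) ^ 2 = -(π * x ^ 2) * k ^ 2 := fun k => by ring
  simpa only [e] using this

theorem poi (x σ : ℝ) (hx : 0 < x) : ((∑' v : ℤ, Real.exp (-π * ((v + σ) / x) ^ 2) : ℝ) : ℂ) =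
    x * ∑' k : ℤ, (Real.exp (-π * (k * x) ^ 2) : ℝ) * ee ((k * σ : ℝ) : ℂ) := by
  have h := Complex.tsum_exp_neg_quadratic (a := (x : ℂ) ^ 2)
    (by rw [← Complex.ofReal_pow, Complex.ofReal_re]; positivity) (Complex.I * σ)
  have x0 : (x : ℂ) ≠ 0 := Complex.ofReal_ne_zero.2 hx.ne'
  have e : ((x : ℂ) ^ 2) ^ (1 / 2 : ℂ) = x := by
    rw [one_div, ← Complex.ofReal_pow, show (2 : ℂ)⁻¹ = ((2⁻¹ : ℝ) : ℂ) by simp,
      ← Complex.ofReal_cpow (by positivity), show (2 : ℝ)⁻¹ = ((2 : ℕ) : ℝ)⁻¹ by simp,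
      Real.pow_rpow_inv_natCast hx.le two_ne_zero]
  rw [e, ← (Equiv.neg ℤ).tsum_eq fun n : ℤ => Complex.exp (-π / (x : ℂ) ^ 2 * (n + _) ^ 2),
    one_div, eq_inv_mul_iff_mul_eq₀ x0] at h
  rw [Complex.ofReal_tsum]
  refine Eq.trans (tsum_congr fun v => ?_) (h.symm.trans (congrArg _ (tsum_congr fun k => ?_)))
  · rw [Complex.ofReal_exp, ← mul_assoc Complex.I, Complex.I_mul_I]
    congr 1
    simp only [Equiv.neg_apply]
    push_cast
    ring
  · rw [Complex.ofReal_exp, ee, ← Complex.exp_add]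
    congr 1
    push_cast
    ring

theorem norm_ee (y : ℝ) : ‖ee y‖ = 1 := by
  rw [ee, show 2 * (π : ℂ) * Complex.I * y = ((2 * π * y : ℝ) : ℂ) * Complex.I by push_cast; ring,
    Complex.norm_exp_ofReal_mul_I]

theorem key (x σ : ℝ) (hx : 0 < x) : |∑' v : ℤ, Real.exp (-π * ((v + σ) / x) ^ 2) - x| ≤ 3 := by
  obtain ⟨s, hT⟩ := gs' x hx
  have n : ∀ k : ℤ, ‖((Real.exp (-π * (k * x) ^ 2) : ℝ) : ℂ) * ee ((k * σ : ℝ) : ℂ)‖ =
      Real.exp (-π * (k * x) ^ 2) := fun k => by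
    rw [norm_mul, norm_ee, mul_one, Complex.norm_real, Real.norm_of_nonneg (Real.exp_pos _).le]
  have s' : Summable fun k : ℤ =>
      ((Real.exp (-π * (k * x) ^ 2) : ℝ) : ℂ) * ee ((k * σ : ℝ) : ℂ) :=
    s.of_norm_bounded fun k => (n k).le
  have e1 := s.tsum_eq_add_tsum_ite 0
  have s0 : Summable fun k : ℤ => if k = 0 then 0 else Real.exp (-π * (k * x) ^ 2) :=
    s.of_nonneg_of_le (fun k => by positivity) fun k => by
      split_ifs
      exacts [(Real.exp_pos _).le, le_rfl]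
  have b := tsum_of_norm_bounded s0.hasSum (f := fun k : ℤ => if k = 0 then 0 else
    ((Real.exp (-π * (k * x) ^ 2) : ℝ) : ℂ) * ee ((k * σ : ℝ) : ℂ)) fun k => by
      split_ifs
      exacts [norm_zero.le, (n k).le]
  have e2 := poi x σ hx
  rw [s'.tsum_eq_add_tsum_ite 0] at e2
  simp only [Int.cast_zero, zero_mul, ne_eq, OfNat.ofNat_ne_zero, not_false_eq_true, zero_pow,
    mul_zero, Real.exp_zero, Complex.ofReal_one, Complex.ofReal_zero, one_mul,
    show ee 0 = 1 by simp [ee]] at e1 e2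
  rw [← Real.norm_eq_abs, ← Complex.norm_real, Complex.ofReal_sub, e2, mul_add, mul_one,
    add_sub_cancel_left, norm_mul, Complex.norm_real, Real.norm_of_nonneg hx.le]
  refine (mul_le_mul_of_nonneg_left b hx.le).trans ?_
  rw [← sub_eq_iff_eq_add'] at e1
  rw [← e1]
  have p3 := Real.pi_gt_three
  rcases le_total x 1 with h1 | h1
  · have e3 := poi x 0 hx
    simp only [add_zero, mul_zero, Complex.ofReal_zero, show ee 0 = 1 by simp [ee], mul_one,
      ← Complex.ofReal_tsum, ← Complex.ofReal_mul, Complex.ofReal_inj, div_eq_mul_inv] at e3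
    have h2 := (gs' x⁻¹ (inv_pos.2 hx)).2
    have h3 : 2 / (π * x⁻¹ ^ 2) ≤ 1 := by
      have : 1 ≤ x⁻¹ := (one_le_inv₀ hx).2 h1
      rw [div_le_one (by positivity)]
      nlinarith
    linarith
  · have h3 : x * (2 / (π * x ^ 2)) ≤ 1 := by
      rw [mul_div_assoc', div_le_one (by positivity)]
      nlinarith
    nlinarith

theorem cls (y₀ Y : ℝ) (hY : 0 < Y) (Q : ℕ) (s : ℤ) (hQ : 1 ≤ Q) :
    |(∑' y : ℤ, if (Q : ℤ) ∣ y - s then gw y₀ Y y else 0) - Y / Q| ≤ 3 := by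
  have q0 : (0 : ℝ) < Q := by exact_mod_cast hQ
  have hi : Function.Injective fun v : ℤ => (Q : ℤ) * v + s := fun a b h =>
    mul_left_cancel₀ (by omega) (add_right_cancel h)
  rw [← hi.tsum_eq fun y hy => by
    by_cases h : (Q : ℤ) ∣ y - s
    · obtain ⟨v, hv⟩ := h
      exact ⟨v, by simp only; omega⟩
    · exact absurd (if_neg h) hy]
  refine Eq.trans_le (congrArg (fun z => |z - Y / Q|) (tsum_congr fun v => ?_))
    (key (Y / Q) ((s - y₀) / Q) (by positivity))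
  rw [add_sub_cancel_right, if_pos (dvd_mul_right _ _), gw]
  congr 3
  push_cast
  field_simp
  ring

theorem sol {t e : ℕ} (h : t.Coprime e) (H : ℤ) : ∃ y₁ : ℤ, ∀ y,
    (e : ℤ) ∣ t * y + H ↔ (e : ℤ) ∣ y - y₁ := by
  have c := Nat.isCoprime_iff_coprime.2 h
  obtain ⟨a, b, hab⟩ := id c
  refine ⟨-a * H, fun y => ?_⟩
  rw [show t * y + H = t * (y - -a * H) + e * (b * H) by linear_combination -H * hab,
    dvd_add_left (dvd_mul_right _ _)]
  exact ⟨c.symm.dvd_of_dvd_mul_left, fun k => k.mul_left _⟩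

theorem pair {t t' e e' : ℕ} (h : t.Coprime e) (h' : t'.Coprime e') {H : ℤ}
    (hB : ((e.gcd e' : ℕ) : ℤ) ∣ ((t' : ℤ) - t) * H) : ∃ s : ℤ, ∀ y,
    ((e : ℤ) ∣ t * y + H ∧ (e' : ℤ) ∣ t' * y + H) ↔ ((e.lcm e' : ℕ) : ℤ) ∣ y - s := by
  obtain ⟨y₁, h1⟩ := sol h H
  obtain ⟨y₂, h2⟩ := sol h' H
  have g1 : ((e.gcd e' : ℕ) : ℤ) ∣ e := Int.natCast_dvd_natCast.2 (Nat.gcd_dvd_left _ _)
  have g2 : ((e.gcd e' : ℕ) : ℤ) ∣ e' := Int.natCast_dvd_natCast.2 (Nat.gcd_dvd_right _ _)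
  have c := Nat.isCoprime_iff_coprime.2 (Nat.Coprime.mul_right
    (h.symm.coprime_dvd_left (Nat.gcd_dvd_left e e'))
    (h'.symm.coprime_dvd_left (Nat.gcd_dvd_right e e')))
  obtain ⟨m, hm⟩ : ((e.gcd e' : ℕ) : ℤ) ∣ y₂ - y₁ := by
    refine c.dvd_of_dvd_mul_left ?_
    rw [show ((t * t' : ℕ) : ℤ) * (y₂ - y₁) = t * (t' * y₂ + H) - t' * (t * y₁ + H)
      + ((t' : ℤ) - t) * H by push_cast; ring]
    exact (((g2.trans ((h2 y₂).2 (by simp))).mul_left _).sub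
      ((g1.trans ((h1 y₁).2 (by simp))).mul_left _)).add hB
  rw [Nat.gcd_eq_gcd_ab] at hm
  refine ⟨y₁ + e * (e.gcdA e' * m), fun y => ?_⟩
  rw [h1, h2, Int.natCast_dvd (m := e.lcm e'), Nat.lcm_dvd_iff, ← Int.natCast_dvd,
    ← Int.natCast_dvd, ← sub_sub, dvd_sub_left (dvd_mul_right _ _),
    show y - y₁ - e * (e.gcdA e' * m) = y - y₂ + e' * (e.gcdB e' * m) by linear_combination hm,
    dvd_add_left (dvd_mul_right _ _)]

end DgA

theorem dg : DgS := by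
  refine ⟨fun y₀ Y hY => ⟨?_, DgA.cls y₀ Y hY, fun t t' e e' H he he' h h' => ?_⟩,
    fun P Y s hP hY => ?_⟩
  · refine ((DgA.gs (c := π / (2 * Y ^ 2)) (by positivity)).1.mul_left
      (Real.exp (π * (y₀ / Y) ^ 2))).of_nonneg_of_le (fun _ => (Real.exp_pos _).le) fun y => ?_
    rw [gw, ← Real.exp_add, Real.exp_le_exp, ← sub_nonneg,
      show π * (y₀ / Y) ^ 2 + -(π / (2 * Y ^ 2)) * (y : ℝ) ^ 2 - -π * ((y - y₀) / Y) ^ 2
        = π / 2 * ((y - 2 * y₀) / Y) ^ 2 by field_simp; ring]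
    positivity
  · rw [rho]
    split_ifs with hB
    · obtain ⟨s, hs⟩ := DgA.pair h h' hB
      simp only [hs]
      rw [mul_one_div]
      exact DgA.cls y₀ Y hY _ s (Nat.lcm_pos he he')
    · rw [tsum_congr (g := fun _ => (0 : ℝ)) fun y => if_neg fun k => hB ?_]
      · simp
      · rw [show ((t' : ℤ) - t) * H = t' * (t * y + H) - t * (t' * y + H) by ring]
        exact (((Int.natCast_dvd_natCast.2 (Nat.gcd_dvd_left _ _)).trans k.1).mul_left _).sub
          (((Int.natCast_dvd_natCast.2 (Nat.gcd_dvd_right _ _)).trans k.2).mul_left _)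
  · simp only [mul_div_assoc]
    refine ⟨(DgA.gs' (Y / P) (by positivity)).1, Eq.trans (congrArg _ (tsum_congr fun v => ?_))
      (DgA.poi (Y / P) (s / P) (by positivity))⟩
    congr 3
    field_simp

end Pool.Agent.MP_20b2fd_nt.H38
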