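import Pool.Agent.MP_20b2fd_nt.H38.Dk1

/-! Pairs of divisors: cancellation in incomplete Kloosterman sums. -/

set_option autoImplicit false

namespace Pool.Agent.MP_20b2fd_nt.H38

open Finset Complex
open scoped Real

namespace DkA

/-- the error for one pair of divisors -/
noncomputable def Tt (t t' : ℕ) (H : ℤ) (y₀ Y : ℝ) (u u' : ℕ) : ℝ :=
  (∑' y : ℤ, if (u : ℤ) ∣ t * y + H ∧ (u' : ℤ) ∣ t' * y + H then gw y₀ Y y else 0) -
    Y * rho (((t' : ℤ) - t) * H) u u'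

theorem Tt_zero {t t' u u' : ℕ} {H : ℤ} (y₀ Y : ℝ)
    (h : ¬ ((u.gcd u' : ℕ) : ℤ) ∣ ((t' : ℤ) - t) * H) : Tt t t' H y₀ Y u u' = 0 := by
  have e : ∀ y : ℤ, ¬ ((u : ℤ) ∣ t * y + H ∧ (u' : ℤ) ∣ t' * y + H) := fun y k => h (by
    have h1 := (Int.natCast_dvd_natCast.2 (Nat.gcd_dvd_left u u')).trans k.1
    have h2 := (Int.natCast_dvd_natCast.2 (Nat.gcd_dvd_right u u')).trans k.2
    rw [show ((t' : ℤ) - t) * H = t' * (t * y + H) - t * (t' * y + H) by ring]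
    exact dvd_sub (h1.mul_left _) (h2.mul_left _))
  simp [Tt, rho, h, e]

theorem exists_beta {t t' g a : ℤ} (h1 : IsCoprime t a) (h2 : IsCoprime g t') (h3 : IsCoprime a t')
    (B H : ℤ) : ∃ β : ℤ, a ∣ t * β + B ∧ t' ∣ g * β - H := by
  obtain ⟨x, w, h1⟩ := h1
  obtain ⟨z, r, h2⟩ := h2
  obtain ⟨p, q, h3⟩ := h3
  refine ⟨-B * x * t' * q + H * z * a * p, ⟨B * (w + p - w * p * a) + t * H * z * p, ?_⟩,
    ⟨-B * x * g * q - H * (r + q - r * q * t'), ?_⟩⟩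
  · linear_combination (-B * q * t') * h1 - B * (1 - w * a) * h3
  · linear_combination (H * p * a) * h2 + H * (1 - r * t') * h3

/-- the common solutions form one class -/
theorem sol {t t' g a b H y₁ : ℤ} (hg : g ≠ 0) (h1 : IsCoprime (g * a) t)
    (h2 : IsCoprime (g * b) t') (h3 : IsCoprime b a) (k1 : g * a ∣ t * y₁ + H)
    (k2 : g * b ∣ t' * y₁ + H) (y : ℤ) :
    (g * a ∣ t * y + H ∧ g * b ∣ t' * y + H) ↔ g * a * b ∣ y - y₁ := by
  rw [show t * y + H = t * (y - y₁) + (t * y₁ + H) by ring,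
    show t' * y + H = t' * (y - y₁) + (t' * y₁ + H) by ring, dvd_add_left k1, dvd_add_left k2]
  constructor
  · rintro ⟨j, k⟩
    obtain ⟨z, e⟩ := h1.dvd_of_dvd_mul_left j
    replace k := h2.dvd_of_dvd_mul_left k
    rw [e, mul_assoc, mul_dvd_mul_iff_left hg] at k
    rw [e]
    exact mul_dvd_mul_left _ (h3.dvd_of_dvd_mul_left k)
  · intro k
    exact ⟨((dvd_mul_right _ _).trans k).mul_left _, (Dvd.dvd.trans ⟨a, by ring⟩ k).mul_left _⟩

theorem tsum_cls (f : ℤ → ℝ) {L : ℤ} (hL : L ≠ 0) (y₁ : ℤ) :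
    (∑' y : ℤ, if L ∣ y - y₁ then f y else 0) = ∑' w : ℤ, f (L * w + y₁) := by
  rw [← Function.Injective.tsum_eq (g := fun w : ℤ => L * w + y₁)
    (fun a b h => mul_left_cancel₀ hL (add_right_cancel h))]
  · simp
  · intro y hy
    by_cases h : L ∣ y - y₁
    · obtain ⟨w, e⟩ := h
      exact ⟨w, by simp only [← e]; ring⟩
    · simp [h] at hy

/-- the error for one pair as a sum over frequencies -/
theorem pois (hD : DgS) {t t' g a b : ℕ} {H B β : ℤ} {Y : ℝ} (y₀ : ℝ) (hg : 1 ≤ g) (ha : 1 ≤ a)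
    (hb : 1 ≤ b) (ht : 1 ≤ t') (h1 : (g * a).Coprime t) (h2 : (g * a).Coprime t')
    (h3 : b.Coprime (a * t')) (hB : ((t' : ℤ) - t) * H = g * B) (k1 : (a : ℤ) ∣ t * β + B)
    (k2 : (t' : ℤ) ∣ g * β - H) (hY : 0 < Y) :
    HasSum (fun k : ℤ => if k = 0 then 0 else
      Gf k ((H + t' * y₀) / (t' * Y)) (Y / (g * a) / b) * ek (a * t') (k * β) b)
      (Tt t t' H y₀ Y (g * a) (g * b)) := by
  have : NeZero (a * t') := ⟨by positivity⟩
  obtain ⟨v, hv⟩ : ∃ v : ℕ, (v : ZMod (a * t')) = β * (b : ZMod (a * t'))⁻¹ :=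
    ⟨_, ZMod.natCast_zmod_val _⟩
  obtain ⟨m, hm⟩ : ((a * t' : ℕ) : ℤ) ∣ b * v - β := by
    rw [← ZMod.intCast_zmod_eq_zero_iff_dvd]
    push_cast
    rw [hv, mul_left_comm, ZMod.coe_mul_inv_eq_one b h3, mul_one, sub_self]
  obtain ⟨n₁, k1⟩ := k1
  obtain ⟨n₂, k2⟩ := k2
  push_cast at hm
  obtain ⟨y₁, hy⟩ : ∃ y₁ : ℤ, t' * y₁ + H = g * b * v :=
    ⟨g * a * m + n₂, by linear_combination -g * hm - k2⟩
  have c1 : IsCoprime ((g : ℤ) * a) t := by exact_mod_cast Nat.isCoprime_iff_coprime.2 h1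
  have c2 : IsCoprime ((g : ℤ) * a) t' := by exact_mod_cast Nat.isCoprime_iff_coprime.2 h2
  have c3 : IsCoprime (b : ℤ) (a * t') := by exact_mod_cast Nat.isCoprime_iff_coprime.2 h3
  have e1 := sol (y₁ := y₁) (H := H) (by positivity) c1
    (c2.of_mul_left_left.mul_left c3.of_mul_right_right) c3.of_mul_right_left
    (c2.dvd_of_dvd_mul_left ⟨t * t' * m + n₁, by
      linear_combination t * hy + hB + g * t * hm + g * k1⟩) ⟨v, hy⟩
  have hL : (0 : ℝ) < g * a * b := by positivity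
  obtain ⟨s1, s2⟩ := hD.2 (g * a * b) Y (y₁ - y₀) hL hY
  have e2 : (∑' y : ℤ, if ((g * a : ℕ) : ℤ) ∣ t * y + H ∧ ((g * b : ℕ) : ℤ) ∣ t' * y + H then
      gw y₀ Y y else 0) = ∑' w : ℤ, Real.exp (-π * ((g * a * b * w + (y₁ - y₀)) / Y) ^ 2) := by
    push_cast
    simp only [e1]
    rw [tsum_cls _ (by positivity)]
    refine tsum_congr fun w => ?_
    rw [gw]
    push_cast
    rw [add_sub_assoc]
  have e3 : rho (((t' : ℤ) - t) * H) (g * a) (g * b) = 1 / (g * a * b) := by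
    have h4 : a.Coprime b := (Nat.Coprime.coprime_mul_right_right h3).symm
    rw [rho, Nat.gcd_mul_left, Nat.lcm_mul_left, h4.gcd_eq_one, h4.lcm_eq_mul, mul_one,
      if_pos ⟨B, hB⟩]
    push_cast
    rw [mul_assoc]
  have e4 : ∀ k : ℤ, Gf k ((H + t' * y₀) / (t' * Y)) (Y / (g * a) / b) * ek (a * t') (k * β) b =
      (Y / (g * a * b) : ℝ) * ((Real.exp (-π * (k * Y / (g * a * b)) ^ 2) : ℝ) *
        ee ((k * (y₁ - y₀) / (g * a * b) : ℝ) : ℂ)) := fun k => by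
    have a1 : ((k * β : ℤ) : ZMod (a * t')) * (b : ZMod (a * t'))⁻¹ = ((k * v : ℤ) : ZMod _) := by
      push_cast
      rw [hv, mul_assoc]
    have a2 : (y₁ : ℝ) = (g * b * v - H) / t' := by
      rw [eq_div_iff (by positivity), eq_sub_iff_add_eq, mul_comm]
      exact_mod_cast hy
    have a3 : (k * (y₁ - y₀) / (g * a * b) : ℝ) =
        -(k * (Y / (g * a * b)) * ((H + t' * y₀) / (t' * Y))) + k * v / (a * t') := by
      rw [a2]
      field_simp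
      ring
    rw [ek, if_pos h3, a1, ← ee_int, Gf, div_div, a3, ofReal_add, ee_add, mul_div_assoc (k : ℝ) Y]
    push_cast
    ring
  have s3 : Summable fun k : ℤ => ((Y / (g * a * b) : ℝ) : ℂ) *
      ((Real.exp (-π * (k * Y / (g * a * b)) ^ 2) : ℝ) *
        ee ((k * (y₁ - y₀) / (g * a * b) : ℝ) : ℂ)) :=
    Summable.mul_left _ (Summable.of_norm_bounded s1 fun k => by
      rw [norm_mul, norm_ee, mul_one, norm_real, Real.norm_of_nonneg (Real.exp_pos _).le])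
  have s4 := hasSum_ite_sub_hasSum s3.hasSum 0
  simp only [e4]
  rw [tsum_mul_left, ← s2] at s4
  rw [Tt, e2, e3]
  refine Eq.subst (motive := fun x => HasSum _ x) ?_ s4
  simp [ee, div_eq_mul_inv]

/-- one common divisor and one cofactor -/
theorem pair (hI : IkS) (hb : BbS) (hD : DgS) : ∃ C : ℝ, 0 ≤ C ∧
    ∀ (t t' M U g a : ℕ) (H : ℤ) (G y₀ Y : ℝ), t.Prime → t'.Prime → ¬ (t' : ℤ) ∣ H → U ≤ M →
    0 < Y → 1 ≤ g → 1 ≤ a → a ≤ M → ¬ t ∣ g * a → ¬ t' ∣ g * a →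
    (g : ℤ) ∣ ((t' : ℤ) - t) * H → ((((t' : ℤ) - t) * H).gcd (a : ℕ) : ℝ) ≤ G →
    |∑ b ∈ Icc 1 (U / g), if b.Coprime (a * t') then Tt t t' H y₀ Y (g * a) (g * b) else 0| ≤
      C * ((1 + |H + t' * y₀| / (t' * Y)) * G ^ (1 / 4 : ℝ) * (t' : ℝ) ^ (3 / 4 : ℝ) *
        (1 + Real.log (M * t')) * (M : ℝ) ^ 2 / Y) * bb a := by
  obtain ⟨C, hC, hI⟩ := ik hI
  have hZ := Real.summable_abs_int_rpow (b := 7 / 4) (by norm_num)
  have Z0 : 0 ≤ ∑' k : ℤ, |(k : ℝ)| ^ (-(7 / 4) : ℝ) := tsum_nonneg fun k => by positivity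
  refine ⟨96 * C * ∑' k : ℤ, |(k : ℝ)| ^ (-(7 / 4) : ℝ), by positivity, ?_⟩
  rintro t t' M U g a H G y₀ Y ht ht' hH hU hY hg ha haM h1 h2 ⟨B, hB⟩ hG
  have d1 : (g * a).Coprime t := ((Nat.Prime.coprime_iff_not_dvd ht).2 h1).symm
  have d2 : (g * a).Coprime t' := ((Nat.Prime.coprime_iff_not_dvd ht').2 h2).symm
  have d3 : a.Coprime t' := Nat.Coprime.coprime_mul_left d2
  obtain ⟨β, k1, k2⟩ := exists_beta
    (Nat.isCoprime_iff_coprime.2 (Nat.Coprime.coprime_mul_left d1).symm)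
    (Nat.isCoprime_iff_coprime.2 (Nat.Coprime.coprime_mul_right d2))
    (Nat.isCoprime_iff_coprime.2 d3) B H
  have t1 := ht'.one_le
  have hβ : (β.gcd (a * t' : ℕ) : ℝ) ≤ G := by
    have b1 : t'.Coprime β.natAbs := (Nat.Prime.coprime_iff_not_dvd ht').2 fun h => hH (by
      have := dvd_sub ((Int.natCast_dvd.2 h).mul_left g) k2
      rwa [sub_sub_cancel] at this)
    have b2 : β.gcd (a * t' : ℕ) = β.gcd a := by
      simpa [Int.gcd, Int.natAbs_mul] using Nat.Coprime.gcd_mul_right_cancel_right a b1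
    have b3 : β.gcd a ∣ (((t' : ℤ) - t) * H).gcd a := by
      refine Int.natCast_dvd_natCast.1 (Int.dvd_coe_gcd ?_ (Int.gcd_dvd_right _ _))
      rw [hB]
      exact ((dvd_add_right ((Int.gcd_dvd_left β a).mul_left _)).1
        ((Int.gcd_dvd_right β a).trans k1)).mul_left _
    rw [b2]
    refine le_trans ?_ hG
    exact_mod_cast Nat.le_of_dvd (Int.gcd_pos_of_ne_zero_right _ (by positivity)) b3
  have s1 : HasSum (fun k : ℤ => ∑ b ∈ Icc 1 (U / g), if k = 0 then 0 else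
      Gf k ((H + t' * y₀) / (t' * Y)) (Y / (g * a) / b) * ek (a * t') (k * β) b)
      (∑ b ∈ Icc 1 (U / g),
        ((if b.Coprime (a * t') then Tt t t' H y₀ Y (g * a) (g * b) else 0 : ℝ) : ℂ)) :=
    hasSum_sum fun b hb => by
      by_cases h3 : b.Coprime (a * t')
      · rw [if_pos h3]
        exact pois hD y₀ hg ha (mem_Icc.1 hb).1 t1 d1 d2 h3 hB k1 k2 hY
      · simp [ek, h3]
  have b0 : 0 ≤ bb a := zero_le_one.trans (hb.1 a)
  have G0 : 0 ≤ G := (Nat.cast_nonneg _).trans hG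
  have a0 : (1 : ℝ) ≤ a := by exact_mod_cast ha
  have g0 : (1 : ℝ) ≤ g := by exact_mod_cast hg
  have t0 : (1 : ℝ) ≤ t' := by exact_mod_cast t1
  have aM : (a : ℝ) ≤ M := by exact_mod_cast haM
  have A0 : (0 : ℝ) ≤ (U / g : ℕ) := Nat.cast_nonneg _
  have A1 : ((U / g : ℕ) : ℝ) * g ≤ M := by exact_mod_cast (Nat.div_mul_le_self U g).trans hU
  have A2 : ((U / g : ℕ) : ℝ) ≤ M := by nlinarith
  have l1 : Real.log (a * t' : ℕ) ≤ Real.log (M * t') := by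
    push_cast
    exact Real.log_le_log (by positivity) (by gcongr)
  have l0 : 0 ≤ Real.log (a * t' : ℕ) := Real.log_natCast_nonneg _
  have l2 : (((U / g : ℕ) : ℝ) / (a * t' : ℕ) + 1 + Real.log (a * t' : ℕ)) * a ≤
      2 * M * (1 + Real.log (M * t')) := by
    have : ((U / g : ℕ) : ℝ) / (a * t' : ℕ) * a ≤ M := by
      push_cast
      rw [div_mul_eq_mul_div, div_le_iff₀ (by positivity)]
      exact mul_le_mul A2 (le_mul_of_one_le_right (by positivity) t0) (by positivity)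
        (Nat.cast_nonneg _)
    nlinarith
  rw [← Real.norm_eq_abs, ← norm_real, ofReal_sum, mul_right_comm (96 * C), mul_right_comm]
  refine s1.norm_le_of_bounded (hZ.hasSum.mul_left _) fun k => ?_
  by_cases hk : k = 0
  · simp [hk]
  simp only [if_neg hk]
  refine (freq hC hI (Nat.mul_pos ha t1) (zero_le_one.trans (hb.1 _)) hk (by positivity) hβ _ _).trans
    (mul_le_mul_of_nonneg_right ?_ (by positivity))
  rw [hb.2.1 a t' d3, hb.2.2.1 t' ht', abs_div, abs_of_pos (a := t' * Y) (by positivity)]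
  calc _ = 48 * C * ((1 + |H + t' * y₀| / (t' * Y)) * G ^ (1 / 4 : ℝ) * (t' : ℝ) ^ (3 / 4 : ℝ) /
        Y) * bb a * (((((U / g : ℕ) : ℝ) / (a * t' : ℕ) + 1 + Real.log (a * t' : ℕ)) * a) *
        (((U / g : ℕ) : ℝ) * g)) := by
        field_simp
        ring
    _ ≤ 48 * C * ((1 + |H + t' * y₀| / (t' * Y)) * G ^ (1 / 4 : ℝ) * (t' : ℝ) ^ (3 / 4 : ℝ) /
        Y) * bb a * (2 * M * (1 + Real.log (M * t')) * M) := by
        have : 0 ≤ 2 * M * (1 + Real.log (M * t')) := le_trans (by positivity) l2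
        gcongr
    _ = _ := by ring

theorem fiber (f : ℕ → ℝ) {t g a : ℕ} (U : ℕ) (ht : t.Prime) (hg : 1 ≤ g) (h : ¬ t ∣ g * a) :
    (∑ u ∈ (Icc 1 U).filter (fun u => ¬ t ∣ u), if (g * a).gcd u = g then f u else 0) =
      ∑ b ∈ Icc 1 (U / g), if b.Coprime (a * t) then f (g * b) else 0 := by
  rw [← sum_filter, ← sum_filter]
  symm
  refine sum_bij (fun b _ => g * b) (fun b hb => ?_) (fun b _ b' _ e => ?_) (fun u hu => ?_)
    fun _ _ => rfl
  · simp only [mem_filter, mem_Icc] at hb ⊢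
    obtain ⟨⟨h1, h2⟩, h3⟩ := hb
    refine ⟨⟨⟨Nat.mul_pos hg h1, ?_⟩, fun k => ?_⟩, ?_⟩
    · rw [mul_comm]
      exact (Nat.le_div_iff_mul_le hg).1 h2
    · rcases (Nat.Prime.dvd_mul ht).1 k with k | k
      · exact h (k.mul_right _)
      · exact (Nat.Prime.coprime_iff_not_dvd ht).1 (Nat.Coprime.coprime_mul_left_right h3).symm k
    · rw [Nat.gcd_mul_left, (Nat.Coprime.coprime_mul_right_right h3).symm.gcd_eq_one, mul_one]
  · exact Nat.eq_of_mul_eq_mul_left hg e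
  · simp only [mem_filter, mem_Icc] at hu ⊢
    obtain ⟨⟨⟨h1, h2⟩, h3⟩, h4⟩ := hu
    obtain ⟨b, rfl⟩ : g ∣ u := h4 ▸ Nat.gcd_dvd_right _ _
    refine ⟨b, ⟨⟨Nat.pos_of_mul_pos_left h1, (Nat.le_div_iff_mul_le hg).2 (mul_comm g b ▸ h2)⟩,
      Nat.Coprime.mul_right ?_ ?_⟩, rfl⟩
    · rw [Nat.gcd_mul_left] at h4
      exact Nat.Coprime.symm (Nat.eq_of_mul_eq_mul_left hg (h4.trans (mul_one g).symm))
    · exact ((Nat.Prime.coprime_iff_not_dvd ht).2 fun k => h3 (k.mul_left _)).symm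

theorem sum_bb (hb : BbS) : ∃ C : ℝ, 1 ≤ C ∧ ∀ M : ℕ,
    ∑ a ∈ Icc 1 M, bb a ≤ C * (M : ℝ) ^ (15 / 8 : ℝ) := by
  obtain ⟨h1, -, -, C, hC, h⟩ := hb
  refine ⟨C, hC, fun M => le_trans ?_
    (mul_le_mul_of_nonneg_right (h M (15 / 8) le_rfl (by norm_num)).1 (by positivity))⟩
  rw [sum_mul]
  refine sum_le_sum fun a ha => ?_
  obtain ⟨a1, a2⟩ := mem_Icc.1 ha
  have a3 : (0 : ℝ) < a := by exact_mod_cast a1
  have a4 : (a : ℝ) ≤ M := by exact_mod_cast a2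
  have a5 : 0 ≤ bb a := zero_le_one.trans (h1 a)
  rw [div_mul_eq_mul_div, le_div_iff₀ (by positivity)]
  gcongr

theorem sum_div (f : ℕ → ℝ) (hf : ∀ a, 0 ≤ f a) {g M : ℕ} (s : Finset ℕ) (hs : s ⊆ Icc 1 M) :
    ∑ u ∈ s, (if g ∣ u then f (u / g) else 0) ≤ ∑ a ∈ Icc 1 M, f a := by
  rw [← sum_filter, ← sum_image (g := fun u => u / g) fun a ha b hb e => ?_]
  · refine sum_le_sum_of_subset_of_nonneg (fun a ha => ?_) fun a _ _ => hf a
    obtain ⟨u, hu, rfl⟩ := mem_image.1 ha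
    obtain ⟨h1, h2⟩ := mem_filter.1 hu
    obtain ⟨h3, h4⟩ := mem_Icc.1 (hs h1)
    exact mem_Icc.2 ⟨Nat.div_pos (Nat.le_of_dvd h3 h2) (Nat.pos_of_dvd_of_pos h2 h3),
      (Nat.div_le_self _ _).trans h4⟩
  · rw [← Nat.mul_div_cancel' (mem_filter.1 ha).2, ← Nat.mul_div_cancel' (mem_filter.1 hb).2]
    exact congrArg _ e

end DkA

open DkA in
theorem dkOf : DkOf := by
  intro hI hb hD
  obtain ⟨C, hC, hp⟩ := pair hI hb hD
  obtain ⟨C', hC', hs⟩ := sum_bb hb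
  refine ⟨(C + 1) * C', by nlinarith, ?_⟩
  intro t t' M U U' H G y₀ Y ht ht' hne hH hM hU hU' hY hG hg
  have hB : (((t' : ℤ) - t) * H).natAbs ≠ 0 := Int.natAbs_ne_zero.2 (mul_ne_zero
    (sub_ne_zero.2 (by exact_mod_cast hne.symm)) fun h => hH (h ▸ dvd_zero _))
  set K : ℝ := (1 + |H + t' * y₀| / (t' * Y)) * G ^ (1 / 4 : ℝ) * (t' : ℝ) ^ (3 / 4 : ℝ) *
    (1 + Real.log (M * t')) * (M : ℝ) ^ 2 / Y with hK
  have M0 : (0 : ℝ) < M := by exact_mod_cast hM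
  have K0 : 0 ≤ K := by
    have : 0 ≤ Real.log (M * t') := by exact_mod_cast Real.log_natCast_nonneg (M * t')
    positivity
  have e1 : ∀ u u' : ℕ, Tt t t' H y₀ Y u u' = ∑ g ∈ (((t' : ℤ) - t) * H).natAbs.divisors,
      if u.gcd u' = g then Tt t t' H y₀ Y u u' else 0 := fun u u' => by
    rw [sum_ite_eq]
    split_ifs with h
    · rfl
    · exact Tt_zero y₀ Y fun k => h (Nat.mem_divisors.2 ⟨Int.natCast_dvd.1 k, hB⟩)
  have e2 : ∀ g ∈ (((t' : ℤ) - t) * H).natAbs.divisors,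
      |∑ u ∈ (Icc 1 U).filter (fun u => ¬ t ∣ u ∧ ¬ t' ∣ u),
        ∑ u' ∈ (Icc 1 U').filter (fun u' => ¬ t' ∣ u'),
          if u.gcd u' = g then Tt t t' H y₀ Y u u' else 0| ≤
        C * K * (C' * (M : ℝ) ^ (15 / 8 : ℝ)) := by
    intro g hg'
    have g1 : 1 ≤ g := Nat.pos_of_mem_divisors hg'
    have g2 : (g : ℤ) ∣ ((t' : ℤ) - t) * H := Int.natCast_dvd.2 (Nat.dvd_of_mem_divisors hg')
    refine (abs_sum_le_sum_abs _ _).trans (le_trans ?_
      (mul_le_mul_of_nonneg_left (hs M) (mul_nonneg hC K0)))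
    rw [mul_sum]
    refine le_trans (sum_le_sum fun u hu => ?_) (sum_div (fun a => C * K * bb a)
      (fun a => mul_nonneg (mul_nonneg hC K0) (zero_le_one.trans (hb.1 a))) _
      ((filter_subset _ _).trans (Icc_subset_Icc_right hU)) (g := g))
    simp only [mem_filter, mem_Icc] at hu
    obtain ⟨⟨u1, u2⟩, u3, u4⟩ := hu
    by_cases h : g ∣ u
    · obtain ⟨a, rfl⟩ := h
      have a1 : 1 ≤ a := Nat.pos_of_mul_pos_left u1
      have a2 : a ≤ M := (Nat.le_mul_of_pos_left a g1).trans (u2.trans hU)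
      rw [if_pos (dvd_mul_right g a), Nat.mul_div_cancel_left a g1, fiber _ U' ht' g1 u4]
      exact hp t t' M U' g a H G y₀ Y ht ht' hH hU' hY g1 a1 a2 u3 u4 g2 (hg a (mem_Icc.2 ⟨a1, a2⟩))
    · rw [if_neg h, sum_eq_zero fun u' _ => if_neg fun e : u.gcd u' = g =>
        h (e ▸ Nat.gcd_dvd_left u u'), abs_zero]
  show |∑ u ∈ _, ∑ u' ∈ _, Tt t t' H y₀ Y u u'| ≤ _
  rw [sum_congr rfl fun u _ => (sum_congr rfl fun u' _ => e1 u u').trans sum_comm, sum_comm]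
  refine (abs_sum_le_sum_abs _ _).trans ((sum_le_card_nsmul _ _ _ e2).trans ?_)
  have e3 : (M : ℝ) ^ (31 / 8 : ℝ) = (M : ℝ) ^ 2 * (M : ℝ) ^ (15 / 8 : ℝ) := by
    rw [← Real.rpow_two, ← Real.rpow_add M0]
    norm_num
  rw [nsmul_eq_mul, e3, tau]
  calc _ ≤ ((((t' : ℤ) - t) * H).natAbs.divisors.card : ℝ) *
        ((C + 1) * K * (C' * (M : ℝ) ^ (15 / 8 : ℝ))) := by
        refine mul_le_mul_of_nonneg_left (mul_le_mul_of_nonneg_right
          (mul_le_mul_of_nonneg_right (by linarith) K0) (by positivity)) (Nat.cast_nonneg _)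
    _ = _ := by rw [hK]; ring

end Pool.Agent.MP_20b2fd_nt.H38
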