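import Pool.Agent.MP_20b2fd_nt.H38.SpecD

/-! Row Dm: the main term of the dispersion. -/

set_option autoImplicit false

namespace Pool.Agent.MP_20b2fd_nt.H38

open Finset ArithmeticFunction

namespace DmA

theorem lg (U : ℕ) : 0 ≤ 1 + Real.log U := add_nonneg zero_le_one (Real.log_natCast_nonneg U)

theorem mult (U q : ℕ) (hq : 1 ≤ q) :
    ∑ u ∈ Icc 1 U, (if q ∣ u then 1 / (u : ℝ) else 0) ≤ (1 + Real.log U) / q := by
  rw [← sum_filter]
  have h1 : (Icc 1 U).filter (fun u => q ∣ u) ⊆ (Icc 1 U).image (q * ·) := by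
    intro u hu
    obtain ⟨hu, s, rfl⟩ := mem_filter.1 hu
    rw [mem_Icc] at hu
    exact mem_image_of_mem _ (mem_Icc.2 ⟨Nat.pos_of_mul_pos_left hu.1,
      (Nat.le_mul_of_pos_left s hq).trans hu.2⟩)
  refine (sum_le_sum_of_subset_of_nonneg h1 fun _ _ _ => by positivity).trans ?_
  rw [sum_image fun a _ b _ h => Nat.eq_of_mul_eq_mul_left hq h]
  have h2 := harmonic_le_one_add_log U
  rw [harmonic_eq_sum_Icc] at h2
  push_cast at h2 ⊢
  refine le_trans (le_of_eq ?_) (div_le_div_of_nonneg_right h2 (Nat.cast_nonneg q))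
  rw [sum_div]
  exact sum_congr rfl fun s _ => by ring

theorem abs_le (U t : ℕ) (a c : ℕ → ℝ) (h : ∀ q, 1 ≤ q → |a q| ≤ c q) :
    |∑ u ∈ (Icc 1 U).filter (fun u => ¬ t ∣ u), 1 / (u : ℝ) * ∑ q ∈ u.divisors, a q| ≤
      ∑ q ∈ Icc 1 U, c q * ((1 + Real.log U) / q) := by
  have hc : ∀ q, 1 ≤ q → 0 ≤ c q := fun q hq => (abs_nonneg _).trans (h q hq)
  calc _ ≤ ∑ u ∈ (Icc 1 U).filter (fun u => ¬ t ∣ u), |1 / (u : ℝ) * ∑ q ∈ u.divisors, a q| :=
        abs_sum_le_sum_abs _ _
    _ ≤ ∑ u ∈ Icc 1 U, |1 / (u : ℝ) * ∑ q ∈ u.divisors, a q| :=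
        sum_le_sum_of_subset_of_nonneg (filter_subset _ _) fun _ _ _ => abs_nonneg _
    _ ≤ ∑ u ∈ Icc 1 U, ∑ q ∈ Icc 1 U, c q * if q ∣ u then 1 / (u : ℝ) else 0 := by
        refine sum_le_sum fun u hu => ?_
        rw [mem_Icc] at hu
        have e : (Icc 1 U).filter (fun q => q ∣ u) = u.divisors := by
          ext q
          rw [mem_filter, mem_Icc, Nat.mem_divisors]
          exact ⟨fun k => ⟨k.2, by omega⟩, fun k => ⟨⟨Nat.pos_of_dvd_of_pos k.1 hu.1,
            (Nat.le_of_dvd hu.1 k.1).trans hu.2⟩, k.1⟩⟩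
        have hu' : (0 : ℝ) ≤ 1 / u := by positivity
        simp only [mul_ite, mul_zero]
        rw [← sum_filter, e, ← sum_mul, abs_mul, abs_of_nonneg hu', mul_comm]
        exact mul_le_mul_of_nonneg_right ((abs_sum_le_sum_abs _ _).trans
          (sum_le_sum fun q hq => h q (Nat.pos_of_mem_divisors hq))) hu'
    _ ≤ _ := by
        rw [sum_comm]
        refine sum_le_sum fun q hq => ?_
        rw [← mul_sum]
        exact mul_le_mul_of_nonneg_left (mult U q (mem_Icc.1 hq).1) (hc q (mem_Icc.1 hq).1)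

theorem swap (Φ g : ℕ → ℝ) (U t : ℕ) :
    ∑ e ∈ (Icc 1 U).filter (fun e => ¬ t ∣ e), fj Φ U t e * g e =
      ∑ u ∈ (Icc 1 U).filter (fun u => ¬ t ∣ u), 1 / (u : ℝ) * ∑ q ∈ u.divisors,
        Φ q * ∑ e ∈ q.divisors, (moebius (q / e) : ℝ) * e * g e := by
  simp only [fj, sum_mul, mul_sum]
  rw [sum_comm]
  refine sum_congr rfl fun u hu => ?_
  rw [sum_comm]
  refine sum_congr rfl fun q hq => ?_
  rw [mem_filter, mem_Icc] at hu
  have h0 := Nat.pos_of_mem_divisors hq
  have h1 := Nat.dvd_of_mem_divisors hq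
  have e : ((Icc 1 U).filter (fun e => ¬ t ∣ e)).filter (fun e => e ∣ q) = q.divisors := by
    ext e
    rw [mem_filter, mem_filter, mem_Icc, Nat.mem_divisors]
    exact ⟨fun k => ⟨k.2, h0.ne'⟩, fun k => ⟨⟨⟨Nat.pos_of_dvd_of_pos k.1 h0,
      (Nat.le_of_dvd hu.1.1 (k.1.trans h1)).trans hu.1.2⟩,
      fun hc => hu.2 (hc.trans (k.1.trans h1))⟩, k.1⟩⟩
  rw [← e, sum_filter (fun e => e ∣ q)]
  refine sum_congr rfl fun e _ => ?_
  split_ifs
  · ring
  · ring

theorem inv (h : ℕ → ℝ) (u : ℕ) (hu : 0 < u) :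
    ∑ q ∈ u.divisors, ∑ e ∈ q.divisors, (moebius (q / e) : ℝ) * h e = h u :=
  sum_eq_iff_sum_mul_moebius_eq.2
    (fun _ _ => Nat.sum_divisorsAntidiagonal' fun a b => (moebius a : ℝ) * h b) u hu

theorem one_sub (Φ g : ℕ → ℝ) (U t : ℕ) :
    ∑ e ∈ (Icc 1 U).filter (fun e => ¬ t ∣ e), (1 - fj Φ U t e) * g e =
      ∑ u ∈ (Icc 1 U).filter (fun u => ¬ t ∣ u), 1 / (u : ℝ) * ∑ q ∈ u.divisors,
        (1 - Φ q) * ∑ e ∈ q.divisors, (moebius (q / e) : ℝ) * e * g e := by
  simp only [sub_mul, one_mul, sum_sub_distrib, mul_sub]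
  rw [swap]
  congr 1
  refine sum_congr rfl fun u hu => ?_
  have h0 : 0 < u := (mem_Icc.1 (mem_filter.1 hu).1).1
  have h1 : (u : ℝ) ≠ 0 := by positivity
  simp only [mul_assoc]
  rw [inv (fun e => e * g e) u h0]
  field_simp

theorem abs_mu (n : ℕ) : |(moebius n : ℝ)| ≤ 1 := by exact_mod_cast abs_moebius_le_one

end DmA

open DmA in
theorem dmOf : DmOf := by
  rintro ⟨-, -, d3, d4⟩ Φ Z z hΦ hZ h1 h0
  have a1 : ∀ q, |1 - Φ q| ≤ 1 := fun q => _root_.abs_le.2 ⟨by linarith [(hΦ q).2], by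
    linarith [(hΦ q).1]⟩
  refine ⟨fun U t => ⟨fun l => ?_, fun e he => ⟨?_, fun hz => ?_⟩⟩, fun U U' t t' B hB => ?_⟩
  · simp only [sub_mul, one_mul, sum_sub_distrib, FF]
    rw [swap]
    simp only [cq, mul_ite, mul_one, mul_zero]
  · have he' : (0 : ℝ) < e := by exact_mod_cast he
    refine (DmA.abs_le U t _ (fun q => if e ∣ q then (e : ℝ) else 0) fun q _ => ?_).trans ?_
    · split_ifs
      · rw [abs_mul, abs_mul, abs_of_nonneg (hΦ q).1, abs_of_pos he']
        exact (mul_le_of_le_one_left (by positivity) (hΦ q).2).trans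
          (mul_le_of_le_one_left he'.le (abs_mu _))
      · simp
    · calc _ = e * (1 + Real.log U) * ∑ q ∈ Icc 1 U, if e ∣ q then 1 / (q : ℝ) else 0 := by
            rw [mul_sum]
            refine sum_congr rfl fun q _ => ?_
            split_ifs
            · ring
            · ring
        _ ≤ e * (1 + Real.log U) * ((1 + Real.log U) / e) :=
            mul_le_mul_of_nonneg_left (mult U e he) (mul_nonneg he'.le (lg U))
        _ = _ := by field_simp
  · refine sum_eq_zero fun u _ => mul_eq_zero_of_right _ (sum_eq_zero fun q hq => ?_)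
    split_ifs with h
    · rw [h0 q (hz.trans_le (by exact_mod_cast Nat.le_of_dvd (Nat.pos_of_mem_divisors hq) h)),
        zero_mul]
    · rfl
  simp only [mul_assoc (1 - fj Φ U t _), ← mul_sum]
  rw [one_sub]
  refine (DmA.abs_le U t _ (fun q => if Z < q then |cq q B| * ((1 + Real.log U') / q) else 0)
    fun q hq => ?_).trans ?_
  · split_ifs with h
    swap
    · rw [h1 q (not_lt.1 h)]
      simp
    have e : ∑ e ∈ q.divisors, (moebius (q / e) : ℝ) * e *
        ∑ e' ∈ (Icc 1 U').filter (fun e => ¬ t' ∣ e), (1 - fj Φ U' t' e') * rho B e e' =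
        ∑ u ∈ (Icc 1 U').filter (fun u => ¬ t' ∣ u), 1 / (u : ℝ) * ∑ q' ∈ u.divisors,
          (1 - Φ q') * if q = q' then cq q B else 0 := by
      simp only [one_sub, mul_sum]
      rw [sum_comm]
      refine sum_congr rfl fun u _ => ?_
      rw [sum_comm]
      refine sum_congr rfl fun q' hq' => ?_
      rw [← d4 q q' B hq (Nat.pos_of_mem_divisors hq')]
      simp only [mul_sum]
      exact sum_congr rfl fun _ _ => sum_congr rfl fun _ _ => by ring
    rw [abs_mul, e]
    refine (mul_le_of_le_one_left (abs_nonneg _) (a1 q)).trans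
      ((DmA.abs_le U' t' _ (fun q' => if q = q' then |cq q B| else 0) fun q' _ => ?_).trans ?_)
    · split_ifs
      · rw [abs_mul]
        exact mul_le_of_le_one_left (abs_nonneg _) (a1 q')
      · simp
    · simp only [ite_mul, zero_mul, sum_ite_eq]
      split_ifs
      · exact le_rfl
      · exact mul_nonneg (abs_nonneg _) (div_nonneg (lg U') (Nat.cast_nonneg q))
  · calc _ = (1 + Real.log U) * (1 + Real.log U') *
          ∑ q ∈ (Icc 1 U).filter (fun q : ℕ => Z < q), |cq q B| / (q : ℝ) ^ 2 := by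
          rw [sum_filter, mul_sum]
          refine sum_congr rfl fun q _ => ?_
          split_ifs
          · ring
          · ring
      _ ≤ (1 + Real.log U) * (1 + Real.log U') * (2 * tau B.natAbs / Z) :=
          mul_le_mul_of_nonneg_left (d3 Z U B hB hZ) (mul_nonneg (lg U) (lg U'))
      _ = _ := by ring

end Pool.Agent.MP_20b2fd_nt.H38
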