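import Pool.Agent.MP_20b2fd_nt.H38.SpecD
import Pool.Agent.MP_74e98a_nt.H25.Div

/-! The correlation of two primes. -/

set_option autoImplicit false

namespace Pool.Agent.MP_20b2fd_nt.H38

open Finset Filter Topology
open scoped Real

namespace DpA

lemma tau0 (n : ℕ) : 0 ≤ tau n := Nat.cast_nonneg _

lemma gw0 (y₀ Y : ℝ) (y : ℤ) : 0 ≤ gw y₀ Y y := (Real.exp_pos _).le

lemma rho0 (B : ℤ) (e e' : ℕ) : 0 ≤ rho B e e' := by
  unfold rho
  split_ifs <;> positivity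

lemma cnt (A : Finset ℕ) {l : ℤ} (hl : l ≠ 0) :
    ∑ e ∈ A, (if (e : ℤ) ∣ l then (1 : ℝ) else 0) ≤ tau l.natAbs := by
  rw [sum_boole, tau]
  exact Nat.cast_le.2 (card_le_card fun e he =>
    Nat.mem_divisors.2 ⟨Int.natCast_dvd.1 (mem_filter.1 he).2, Int.natAbs_ne_zero.2 hl⟩)

lemma hm (M q : ℕ) (hq : 1 ≤ q) (A : Finset ℕ) (hA : A ⊆ Icc 1 M) :
    ∑ e ∈ A, (if q ∣ e then 1 / (e : ℝ) else 0) ≤ (1 + Real.log M) / q := by
  rw [← sum_filter]
  have h1 : A.filter (q ∣ ·) ⊆ (Icc 1 M).image (q * ·) := fun e he => by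
    obtain ⟨h2, r, rfl⟩ := mem_filter.1 he
    have := mem_Icc.1 (hA h2)
    exact mem_image_of_mem _ (mem_Icc.2 ⟨Nat.pos_of_mul_pos_left this.1, by nlinarith⟩)
  refine (sum_le_sum_of_subset_of_nonneg h1 fun _ _ _ => by positivity).trans ?_
  have hq' : (0 : ℝ) < q := by exact_mod_cast hq
  rw [sum_image fun a _ b _ h => Nat.eq_of_mul_eq_mul_left hq h, le_div_iff₀ hq', sum_mul]
  have := harmonic_le_one_add_log M
  rw [harmonic_eq_sum_Icc] at this
  push_cast at this ⊢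
  refine le_trans (le_of_eq (sum_congr rfl fun r hr => ?_)) this
  field_simp

lemma rho_le (M p : ℕ) (hp : p.Prime) (B : ℤ) (hB : B ≠ 0) (A A' : Finset ℕ) (hA : A ⊆ Icc 1 M)
    (hA' : A' ⊆ Icc 1 M) (h1 : ∀ e ∈ A, p ∣ e) (h2 : ∀ e ∈ A', ¬ p ∣ e) :
    ∑ e ∈ A, ∑ e' ∈ A', rho B e e' ≤ tau B.natAbs * ((1 + Real.log M) ^ 2 / p) := by
  have h3 : ∀ e ∈ A, ∀ e' ∈ A', rho B e e' ≤ ∑ g ∈ B.natAbs.divisors,
      (if g * p ∣ e then 1 / (e : ℝ) else 0) * (g * if g ∣ e' then 1 / (e' : ℝ) else 0) := by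
    intro e he e' he'
    have h0 : ∀ g ∈ B.natAbs.divisors, 0 ≤ (if g * p ∣ e then 1 / (e : ℝ) else 0) *
        (g * if g ∣ e' then 1 / (e' : ℝ) else 0) := fun g _ => by positivity
    unfold rho
    split_ifs with h
    · refine le_trans (le_of_eq ?_) (single_le_sum h0
        (Nat.mem_divisors.2 ⟨Int.natCast_dvd.1 h, Int.natAbs_ne_zero.2 hB⟩))
      have h4 : (e.gcd e').Coprime p := ((Nat.Prime.coprime_iff_not_dvd hp).2 fun h5 =>
        h2 e' he' (h5.trans (Nat.gcd_dvd_right _ _))).symm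
      rw [if_pos (h4.mul_dvd_of_dvd_of_dvd (Nat.gcd_dvd_left _ _) (h1 e he)),
        if_pos (Nat.gcd_dvd_right _ _)]
      have a1 : (0 : ℝ) < e := by exact_mod_cast (mem_Icc.1 (hA he)).1
      have a2 : (0 : ℝ) < e' := by exact_mod_cast (mem_Icc.1 (hA' he')).1
      have a3 : (e.gcd e' : ℝ) * e.lcm e' = e * e' := by exact_mod_cast Nat.gcd_mul_lcm e e'
      have a4 : (e.lcm e' : ℝ) ≠ 0 := right_ne_zero_of_mul (a3 ▸ (mul_pos a1 a2).ne')
      field_simp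
      linarith
    · exact sum_nonneg h0
  refine (sum_le_sum fun e he => sum_le_sum (h3 e he)).trans ?_
  simp only [sum_comm (t := B.natAbs.divisors), ← mul_sum, ← sum_mul]
  rw [tau, ← nsmul_eq_mul]
  refine sum_le_card_nsmul _ _ _ fun g hg => ?_
  have g1 : 1 ≤ g := Nat.pos_of_mem_divisors hg
  have g2 : (1 : ℝ) ≤ g := by exact_mod_cast g1
  have hL : 0 ≤ 1 + Real.log M := add_nonneg zero_le_one (Real.log_natCast_nonneg M)
  have p0 : (0 : ℝ) < p := by exact_mod_cast hp.pos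
  refine (mul_le_mul (hm M (g * p) (Nat.mul_pos g1 hp.pos) A hA)
    (mul_le_mul_of_nonneg_left (hm M g g1 A' hA') (by positivity))
    (mul_nonneg (by positivity) (sum_nonneg fun _ _ => by positivity)) (by positivity)).trans ?_
  push_cast
  rw [mul_div_cancel₀ _ (by positivity), div_mul_eq_mul_div, ← sq]
  exact div_le_div_of_nonneg_left (by positivity) p0 (by nlinarith)

/-- few indices carry a major arc coefficient -/
lemma few (A : Finset ℕ) (M : ℕ) (hA : A ⊆ Icc 1 M) (f : ℕ → ℝ) (c z : ℝ) (hc : 0 ≤ c) (hz : 0 ≤ z)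
    (h : ∀ e, 1 ≤ e → |f e| ≤ c ∧ (z < e → f e = 0)) : ∑ e ∈ A, |f e| ≤ c * z := by
  rw [← sum_filter_of_ne (p := fun e : ℕ => (e : ℝ) ≤ z) fun e he h0 => not_lt.1 fun h1 =>
    h0 (by rw [(h e (mem_Icc.1 (hA he)).1).2 h1, abs_zero])]
  refine (sum_le_card_nsmul _ _ c fun e he =>
    (h e (mem_Icc.1 (hA (mem_filter.1 he).1)).1).1).trans ?_
  rw [nsmul_eq_mul, mul_comm]
  refine mul_le_mul_of_nonneg_left (le_trans ?_ (Nat.floor_le hz)) hc
  have := card_le_card (t := Icc 1 ⌊z⌋₊) (s := A.filter fun e : ℕ => (e : ℝ) ≤ z) fun e he =>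
    mem_Icc.2 ⟨(mem_Icc.1 (hA (mem_filter.1 he).1)).1, Nat.le_floor (mem_filter.1 he).2⟩
  simpa using this

lemma third (A A' : Finset ℕ) (M : ℕ) (hA : A ⊆ Icc 1 M) (hA' : A' ⊆ Icc 1 M) (f f' : ℕ → ℝ)
    (E : ℕ → ℕ → ℝ) (c z : ℝ) (hc : 1 ≤ c) (hz : 0 ≤ z)
    (h : ∀ e, 1 ≤ e → |f e| ≤ c ∧ (z < e → f e = 0))
    (h' : ∀ e, 1 ≤ e → |f' e| ≤ c ∧ (z < e → f' e = 0)) (hE : ∀ e ∈ A, ∀ e' ∈ A', |E e e'| ≤ 3) :
    |∑ e ∈ A, ∑ e' ∈ A', ((1 - f e) * (1 - f' e') - 1) * E e e'| ≤ 9 * c ^ 2 * (M * z) := by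
  have h1 := few A M hA f c z (by linarith) hz h
  have h2 := few A' M hA' f' c z (by linarith) hz h'
  have c1 : (A.card : ℝ) ≤ M := by simpa using card_le_card hA
  have c2 : (A'.card : ℝ) ≤ M := by simpa using card_le_card hA'
  have h3 : ∀ e ∈ A, ∀ e' ∈ A', |((1 - f e) * (1 - f' e') - 1) * E e e'| ≤
      6 * c * |f e| + 3 * |f' e'| := fun e he e' he' => by
    have h4 := (h' e' (mem_Icc.1 (hA' he')).1).1
    have h5 : |(1 - f e) * (1 - f' e') - 1| ≤ |f e| * |f' e'| + |f e| + |f' e'| := by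
      rw [← abs_mul, show (1 - f e) * (1 - f' e') - 1 = f e * f' e' - f e - f' e' by ring]
      exact (abs_sub _ _).trans (add_le_add (abs_sub _ _) le_rfl)
    rw [abs_mul]
    refine (mul_le_mul h5 (hE e he e' he') (abs_nonneg _) (by positivity)).trans ?_
    nlinarith [abs_nonneg (f e)]
  refine ((abs_sum_le_sum_abs _ _).trans (sum_le_sum fun e he =>
    (abs_sum_le_sum_abs _ _).trans (sum_le_sum (h3 e he)))).trans ?_
  simp only [sum_add_distrib, sum_const, nsmul_eq_mul, ← mul_sum]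
  have h6 := mul_le_mul c2 (mul_le_mul_of_nonneg_left h1 (by positivity : 0 ≤ 6 * c))
    (by positivity) (Nat.cast_nonneg M)
  have h7 := mul_le_mul c1 (mul_le_mul_of_nonneg_left h2 (by positivity : (0 : ℝ) ≤ 3))
    (by positivity) (Nat.cast_nonneg M)
  have h8 : 0 ≤ M * z * c * (c - 1) := by
    have := sub_nonneg.2 hc
    positivity
  nlinarith

end DpA

open DpA in
theorem dpOf : DpOf := by
  rintro ⟨hG, -⟩ ⟨Ck, k1, hK⟩ hW hM ⟨_, -, hT⟩ ε hε
  have hη : 0 < ε / 5 := by positivity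
  obtain ⟨Cw, w1, hW⟩ := hW _ hη
  obtain ⟨Cd, d1, hD⟩ := MP_74e98a_nt.H25.divisor_bound (ε / 5 / 2) (by positivity)
  have i0 : 0 < (ε / 5)⁻¹ := by positivity
  set C := 1 + (ε / 5)⁻¹ + Cd + Cw + Ck with hC
  have C1 : 1 ≤ C := by linarith
  refine ⟨9 * C ^ 5, by linarith [one_le_pow₀ (n := 5) C1], ?_⟩
  intro t t' M U U' H G y₀ Y X Z z Φ ht ht' hH hH' hM1 hU hU' hY hG1 hZ hz p1 p2 p3 hg hX hX'
  have M1 : (1 : ℝ) ≤ M := by exact_mod_cast hM1
  have t1 : (1 : ℝ) ≤ t := by exact_mod_cast ht.one_le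
  have t2 : (1 : ℝ) ≤ t' := by exact_mod_cast ht'.one_le
  have MX : (M : ℝ) ≤ X := (le_mul_of_one_le_right (by linarith) t2).trans hX'
  have X1 : 1 ≤ X := M1.trans MX
  have P1 : 1 ≤ X ^ (ε / 5) := Real.one_le_rpow X1 hη.le
  obtain ⟨K, hKd⟩ : ∃ K, K = C * X ^ (ε / 5) := ⟨_, rfl⟩
  have hK5 : 9 * C ^ 5 * X ^ ε = 9 * K ^ 5 := by
    rw [hKd, mul_pow, ← Real.rpow_natCast (X ^ (ε / 5)), ← Real.rpow_mul (by linarith), mul_assoc]
    congr 3
    push_cast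
    ring
  have le_K : ∀ c, c ≤ C → c * X ^ (ε / 5) ≤ K := fun c hc =>
    hKd ▸ mul_le_mul_of_nonneg_right hc (by linarith)
  have K1 : 1 ≤ K := by linarith [le_K 1 C1]
  have lg : ∀ x : ℝ, 0 ≤ x → x ≤ X → 1 + Real.log x ≤ K := fun x h0 hx => by
    have h1 : Real.log x ≤ Real.log X := by
      rcases h0.eq_or_lt with rfl | h0
      · simpa using Real.log_nonneg X1
      · exact Real.log_le_log h0 hx
    have h2 := Real.log_le_rpow_div (by linarith : 0 ≤ X) hη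
    have h3 := le_K (1 + (ε / 5)⁻¹) (by linarith)
    rw [div_eq_mul_inv] at h2
    linarith
  have lg' : ∀ n : ℕ, n ≤ M → 0 ≤ 1 + Real.log n ∧ 1 + Real.log n ≤ K := fun n hn =>
    ⟨add_nonneg zero_le_one (Real.log_natCast_nonneg n),
      lg _ (Nat.cast_nonneg n) ((Nat.cast_le.2 hn).trans MX)⟩
  have lg2 : ∀ n : ℕ, n ≤ M → (1 + Real.log n) ^ 2 ≤ K ^ 2 := fun n hn =>
    pow_le_pow_left₀ (lg' n hn).1 (lg' n hn).2 2
  have K2 : 1 ≤ K ^ 2 := one_le_pow₀ K1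
  have l0 : ∀ (p : ℕ) (y : ℤ), ¬ (p : ℤ) ∣ H → p * y + H ≠ 0 := fun p y h h0 =>
    h ⟨-y, by linarith⟩
  have hw := fun Q s hQ => hW t t' Q H s y₀ Y X hQ hY X1 hX
  have s0 := (hw 1 0 le_rfl).1
  have g0 : ∀ y : ℤ, 0 ≤ gw y₀ Y y * (tau (t * y + H).natAbs * tau (t' * y + H).natAbs) :=
    fun y => mul_nonneg (gw0 _ _ _) (mul_nonneg (tau0 _) (tau0 _))
  have hF : ∀ (V p : ℕ) (y : ℤ), V ≤ M → ¬ (p : ℤ) ∣ H →
      |FF Φ V p (p * y + H)| ≤ tau (p * y + H).natAbs * (2 * K ^ 2) := fun V p y hV h =>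
    (hT z 0 Φ V p _ (l0 p y h) hz p1 p3).1.trans
      (mul_le_mul_of_nonneg_left (by linarith [lg2 V hV]) (tau0 _))
  have hb : ∀ y : ℤ, ‖gw y₀ Y y * (FF Φ U t (t * y + H) * FF Φ U' t' (t' * y + H))‖ ≤
      4 * K ^ 4 * (gw y₀ Y y * (tau (t * y + H).natAbs * tau (t' * y + H).natAbs)) := fun y => by
    rw [Real.norm_eq_abs, abs_mul, abs_mul, abs_of_nonneg (gw0 _ _ _)]
    refine (mul_le_mul_of_nonneg_left (mul_le_mul (hF U t y hU hH) (hF U' t' y hU' hH')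
      (abs_nonneg _) (mul_nonneg (tau0 _) (by positivity))) (gw0 _ _ _)).trans_eq ?_
    ring
  refine ⟨.of_norm_bounded (s0.mul_left _) hb, ?_⟩
  rw [hK5]
  have hCw := le_K Cw (by linarith)
  split_ifs with htt
  · have h1 := tsum_of_norm_bounded (s0.hasSum.mul_left _) hb
    have h2 := (hw 1 0 le_rfl).2
    simp only [Nat.cast_one, one_dvd, if_true, div_one] at h2
    have h3 := h2.trans (mul_le_mul_of_nonneg_right hCw (by linarith))
    have h4 := mul_le_mul_of_nonneg_left h3 (by positivity : 0 ≤ 4 * K ^ 4)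
    have h5 : 0 ≤ K ^ 5 * (Y - 1) := mul_nonneg (by positivity) (by linarith)
    rw [Real.norm_eq_abs] at h1
    linarith [pow_pos (by linarith : 0 < K) 5]
  obtain ⟨m1, m2⟩ := hM Φ Z z p1 hZ p2 p3
  obtain ⟨g1, -, g2⟩ := hG y₀ Y (by linarith)
  have k2 := hK t t' M U U' H G y₀ Y ht ht' htt hH' hM1 hU hU' (by linarith) hG1 (hg htt)
  set B : ℤ := ((t' : ℤ) - t) * H with hB
  have B0 : B ≠ 0 := mul_ne_zero (sub_ne_zero.2 fun h => htt (by exact_mod_cast h.symm))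
    fun h => hH (h ▸ dvd_zero _)
  have hBK : tau B.natAbs ≤ K := by
    refine (hD _).trans (le_trans ?_ (le_K Cd (by linarith)))
    refine mul_le_mul_of_nonneg_left ?_ (by linarith)
    have h1 : (B.natAbs : ℝ) ≤ X ^ (2 : ℝ) := by
      rw [Nat.cast_natAbs, hB]
      push_cast
      rw [abs_mul, Real.rpow_two, sq]
      have h2 := abs_nonneg y₀
      have h3 := abs_nonneg (H : ℝ)
      have h4 : (t + t' : ℝ) ≤ (t + t') * (|y₀| + Y) :=
        le_mul_of_one_le_right (by linarith) (by linarith)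
      exact mul_le_mul (abs_le.2 ⟨by linarith, by linarith⟩) (by linarith) h3 (by linarith)
    refine (Real.rpow_le_rpow (Nat.cast_nonneg _) h1 (by positivity)).trans_eq ?_
    rw [← Real.rpow_mul (by linarith)]
    congr 1
    ring
  set A := (Icc 1 U).filter fun e => ¬ t ∣ e with hA
  set A' := (Icc 1 U').filter fun e => ¬ t' ∣ e with hA'
  have a1 : A ⊆ Icc 1 M := (filter_subset _ _).trans (Icc_subset_Icc_right hU)
  have a2 : A' ⊆ Icc 1 M := (filter_subset _ _).trans (Icc_subset_Icc_right hU')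
  let χ : ℕ → ℕ → ℤ → ℝ := fun e e' y =>
    if (e : ℤ) ∣ t * y + H ∧ (e' : ℤ) ∣ t' * y + H then gw y₀ Y y else 0
  have χ0 : ∀ e e' y, 0 ≤ χ e e' y ∧ χ e e' y ≤ gw y₀ Y y := fun e e' y => by
    simp only [χ]
    split_ifs
    exacts [⟨gw0 _ _ _, le_rfl⟩, ⟨le_rfl, gw0 _ _ _⟩]
  have χ1 : ∀ e e' y, χ e e' y = gw y₀ Y y * ((if (e : ℤ) ∣ t * y + H then 1 else 0) *
      if (e' : ℤ) ∣ t' * y + H then 1 else 0) := fun e e' y => by
    by_cases h : (e : ℤ) ∣ t * y + H <;> by_cases h' : (e' : ℤ) ∣ t' * y + H <;> simp [χ, h, h']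
  have χs : ∀ e e', HasSum (χ e e') (∑' y, χ e e' y) := fun e e' =>
    (g1.of_nonneg_of_le (fun y => (χ0 e e' y).1) fun y => (χ0 e e' y).2).hasSum
  let E : ℕ → ℕ → ℝ := fun e e' => ∑' y, χ e e' y - Y * rho B e e'
  have e0 : ∑' y : ℤ, gw y₀ Y y * (FF Φ U t (t * y + H) * FF Φ U' t' (t' * y + H)) =
      Y * (∑ e ∈ A, ∑ e' ∈ A', (1 - fj Φ U t e) * (1 - fj Φ U' t' e') * rho B e e') +
      (∑ e ∈ A with t' ∣ e, ∑ e' ∈ A', E e e' + ∑ e ∈ A with ¬ t' ∣ e, ∑ e' ∈ A', E e e') +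
      ∑ e ∈ A, ∑ e' ∈ A', ((1 - fj Φ U t e) * (1 - fj Φ U' t' e') - 1) * E e e' := by
    have h1 := hasSum_sum (s := A) fun e _ => hasSum_sum (s := A') fun e' _ =>
      (χs e e').mul_left ((1 - fj Φ U t e) * (1 - fj Φ U' t' e'))
    have h2 : ∀ y : ℤ, gw y₀ Y y * (FF Φ U t (t * y + H) * FF Φ U' t' (t' * y + H)) =
        ∑ e ∈ A, ∑ e' ∈ A', (1 - fj Φ U t e) * (1 - fj Φ U' t' e') * χ e e' y := fun y => by
      rw [(m1 U t).1, (m1 U' t').1, sum_mul_sum, mul_sum]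
      refine sum_congr rfl fun e _ => ?_
      rw [mul_sum]
      refine sum_congr rfl fun e' _ => ?_
      rw [χ1]
      ring
    rw [sum_filter_add_sum_filter_not, tsum_congr h2, h1.tsum_eq]
    simp only [mul_sum, ← sum_add_distrib]
    refine sum_congr rfl fun e _ => sum_congr rfl fun e' _ => ?_
    simp only [E]
    ring
  have e1 : |Y * ∑ e ∈ A, ∑ e' ∈ A', (1 - fj Φ U t e) * (1 - fj Φ U' t' e') * rho B e e'| ≤
      2 * K ^ 3 * (Y / Z) := by
    rw [abs_mul, abs_of_nonneg (by linarith)]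
    refine (mul_le_mul_of_nonneg_left ((m2 U U' t t' B B0).trans (div_le_div_of_nonneg_right
      (mul_le_mul (mul_le_mul (mul_le_mul_of_nonneg_left hBK zero_le_two) (lg' U hU).2
        (lg' U hU).1 (by positivity)) (lg' U' hU').2 (lg' U' hU').1 (by positivity))
      (by linarith))) (by linarith)).trans_eq ?_
    ring
  have e2 := third A A' M a1 a2 _ _ E (K ^ 2) z K2 (by linarith)
    (fun e he => ⟨((m1 U t).2 e he).1.trans (lg2 U hU), ((m1 U t).2 e he).2⟩)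
    (fun e he => ⟨((m1 U' t').2 e he).1.trans (lg2 U' hU'), ((m1 U' t').2 e he).2⟩)
    fun e he e' he' => g2 t t' e e' H (mem_Icc.1 (a1 he)).1 (mem_Icc.1 (a2 he')).1
      (ht.coprime_iff_not_dvd.2 (mem_filter.1 he).2)
      (ht'.coprime_iff_not_dvd.2 (mem_filter.1 he').2)
  obtain ⟨W, hWd⟩ : ∃ W, W = (1 + |H + t' * y₀| / (t' * Y)) * G ^ (1 / 4 : ℝ) *
    (t' : ℝ) ^ (3 / 4 : ℝ) * (M : ℝ) ^ (31 / 8 : ℝ) / Y := ⟨_, rfl⟩
  have W0 : 0 ≤ W := by rw [hWd]; positivity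
  have e3 : |∑ e ∈ A with ¬ t' ∣ e, ∑ e' ∈ A', E e e'| ≤ K ^ 3 * W := by
    rw [hA, filter_filter]
    refine k2.trans ?_
    have h1 := lg (M * t') (by positivity) hX'
    have h2 : 0 ≤ 1 + Real.log (M * t') :=
      add_nonneg zero_le_one (Real.log_nonneg (one_le_mul_of_one_le_of_one_le M1 t2))
    have h3 : Ck ≤ K := (le_mul_of_one_le_right (by linarith) P1).trans (le_K Ck (by linarith))
    calc _ = Ck * tau B.natAbs * (1 + Real.log (M * t')) * W := by rw [hWd]; ring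
      _ ≤ K * K * K * W := mul_le_mul_of_nonneg_right
          (mul_le_mul (mul_le_mul h3 hBK (tau0 _) (by linarith)) h1 h2 (by positivity)) W0
      _ = _ := by ring
  have e4 : |∑ e ∈ A with t' ∣ e, ∑ e' ∈ A', E e e'| ≤ K * (Y / t' + 1) + K ^ 3 * (Y / t') := by
    obtain ⟨a, b, hab⟩ := Nat.isCoprime_iff_coprime.2 ((Nat.coprime_primes ht ht').2 htt)
    have h1 := rho_le M t' ht' B B0 (A.filter (t' ∣ ·)) A' ((filter_subset _ _).trans a1) a2
      (fun e he => (mem_filter.1 he).2) fun e he => (mem_filter.1 he).2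
    have h2 := mul_le_mul_of_nonneg_left (h1.trans (mul_le_mul hBK (div_le_div_of_nonneg_right
      (lg2 M le_rfl) (by linarith)) (by positivity) (by linarith))) (by linarith : 0 ≤ Y)
    have h3 : ∑ e ∈ A with t' ∣ e, ∑ e' ∈ A', ∑' y, χ e e' y ≤ K * (Y / t' + 1) := by
      refine le_trans ?_ ((hw t' (-(H * a)) ht'.one_le).2.trans
        (mul_le_mul_of_nonneg_right hCw (by positivity)))
      refine hasSum_le (fun y => ?_)
        (hasSum_sum fun e _ => hasSum_sum fun e' _ => χs e e') (Summable.hasSum ?_)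
      · split_ifs with h
        · simp only [χ1, ← mul_sum, ← sum_mul]
          exact mul_le_mul_of_nonneg_left (mul_le_mul (cnt _ (l0 t y hH)) (cnt _ (l0 t' y hH'))
            (sum_nonneg fun _ _ => by positivity) (tau0 _)) (gw0 _ _ _)
        · refine (sum_eq_zero fun e he => sum_eq_zero fun e' _ => if_neg fun h4 => h ?_).le
          obtain ⟨c, hc⟩ := (Int.natCast_dvd_natCast.2 (mem_filter.1 he).2).trans h4.1
          exact ⟨a * c + b * y, by linear_combination a * hc - y * hab⟩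
      · refine s0.of_nonneg_of_le (fun y => ?_) fun y => ?_ <;> split_ifs
        exacts [g0 y, le_rfl, le_rfl, g0 y]
    have h4 : 0 ≤ ∑ e ∈ A with t' ∣ e, ∑ e' ∈ A', ∑' y, χ e e' y :=
      sum_nonneg fun _ _ => sum_nonneg fun _ _ => tsum_nonneg fun y => (χ0 _ _ y).1
    have h5 : 0 ≤ Y * ∑ e ∈ A with t' ∣ e, ∑ e' ∈ A', rho B e e' :=
      mul_nonneg (by linarith) (sum_nonneg fun _ _ => sum_nonneg fun _ _ => rho0 _ _ _)
    have h6 : Y * (K * (K ^ 2 / t')) = K ^ 3 * (Y / t') := by ring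
    simp only [E, sum_sub_distrib, ← mul_sum]
    exact abs_le.2 ⟨by linarith, by linarith⟩
  rw [e0, ← hWd]
  refine ((abs_add_le _ _).trans (add_le_add ((abs_add_le _ _).trans (add_le_add e1
    ((abs_add_le _ _).trans (add_le_add e4 e3)))) e2)).trans ?_
  have q1 : K ≤ K ^ 5 := le_self_pow₀ K1 (by norm_num)
  have q3 : K ^ 3 ≤ K ^ 5 := pow_le_pow_right₀ K1 (by norm_num)
  have q4 : (K ^ 2) ^ 2 ≤ K ^ 5 := by
    rw [← pow_mul]
    exact pow_le_pow_right₀ K1 (by norm_num)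
  have r1 : 0 ≤ Y / Z := by positivity
  have r2 : 0 ≤ Y / t' := by positivity
  have r3 : 0 ≤ M * z := by positivity
  have r4 : 0 ≤ K ^ 5 := by positivity
  linarith [mul_le_mul_of_nonneg_right q1 r2, mul_le_mul_of_nonneg_right q3 r2,
    mul_le_mul_of_nonneg_right q3 r1, mul_le_mul_of_nonneg_right q3 W0,
    mul_le_mul_of_nonneg_right q4 r3, mul_nonneg r4 r1, mul_nonneg r4 r2, mul_nonneg r4 W0]

end Pool.Agent.MP_20b2fd_nt.H38
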