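import Pool.Agent.MP_20b2fd_nt.H38.SpecD

/-! Sums of Ramanujan sums. -/

set_option autoImplicit false

namespace Pool.Agent.MP_20b2fd_nt.H38

open Finset ArithmeticFunction

namespace DrA

theorem inv {f g : ℕ → ℝ} : (∀ n > 0, ∑ i ∈ n.divisors, f i = g n) ↔
    ∀ n > 0, ∑ e ∈ n.divisors, (moebius (n / e) : ℝ) * g e = f n :=
  sum_eq_iff_sum_mul_moebius_eq.trans (forall₂_congr fun n _ => by
    rw [Nat.sum_divisorsAntidiagonal' fun a b => (moebius a : ℝ) * g b])

theorem one (l : ℤ) : ∀ u > 0, ∑ q ∈ Nat.divisors u, cq q l = if (u : ℤ) ∣ l then (u : ℝ) else 0 :=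
  inv.2 fun n _ => by simp only [cq, mul_ite, mul_zero]

theorem cq_le {q : ℕ} (hq : q ≠ 0) {l : ℤ} (hl : l ≠ 0) :
    |cq q l| ≤ ∑ e ∈ l.natAbs.divisors, if e ∣ q then (e : ℝ) else 0 := by
  rw [cq, ← sum_filter, ← sum_filter]
  refine (abs_sum_le_sum_abs _ _).trans ((sum_le_sum fun e _ => ?_).trans
    (le_of_eq (sum_congr ?_ fun _ _ => rfl)))
  · rw [abs_mul, Nat.abs_cast]
    exact mul_le_of_le_one_left (Nat.cast_nonneg e) (by exact_mod_cast abs_moebius_le_one)
  · ext e
    simp [hq, hl, Int.natCast_dvd, and_comm]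

theorem gen {l : ℤ} (hl : l ≠ 0) (S : Finset ℕ) (T : ℕ → Finset ℕ) (w : ℕ → ℝ) (K : ℝ)
    (h0 : ∀ q ∈ S, q ≠ 0) (hw : ∀ q, 0 ≤ w q) (hT : ∀ e r, e * r ∈ S → r ∈ T e)
    (hK : ∀ e : ℕ, 0 < e → ∑ r ∈ T e, e / w (e * r) ≤ K) :
    ∑ q ∈ S, |cq q l| / w q ≤ tau l.natAbs * K := by
  refine (sum_le_sum fun q hq => div_le_div_of_nonneg_right (cq_le (h0 q hq) hl) (hw q)).trans ?_
  simp only [sum_div]
  rw [sum_comm, tau, ← nsmul_eq_mul]
  refine sum_le_card_nsmul _ _ _ fun e he => le_trans ?_ (hK e (Nat.pos_of_mem_divisors he))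
  simp only [ite_div, zero_div]
  rw [← sum_filter, ← sum_image (g := fun r => e * r) (f := fun q => (e : ℝ) / w q)
    fun _ _ _ _ h => Nat.eq_of_mul_eq_mul_left (Nat.pos_of_mem_divisors he) h]
  refine sum_le_sum_of_subset_of_nonneg (fun q hq => ?_)
    fun q _ _ => div_nonneg (Nat.cast_nonneg e) (hw q)
  obtain ⟨h1, r, rfl⟩ := mem_filter.1 hq
  exact mem_image_of_mem _ (hT e r h1)

end DrA

open DrA in
theorem dr : DrS := by
  refine ⟨fun u l hu => one l u hu, fun Q l hl => ?_, fun Z Q l hl hZ => ?_,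
    fun q q' B hq hq' => ?_⟩
  · refine gen hl _ (fun _ => Icc 1 Q) (fun q => q) _ (fun q h => by simp at h; omega)
      (fun q => Nat.cast_nonneg q) (fun e r h => ?_) fun e he => ?_
    · rw [mem_Icc] at h ⊢
      exact ⟨Nat.pos_of_mul_pos_left h.1,
        (Nat.le_mul_of_pos_left r (Nat.pos_of_mul_pos_right h.1)).trans h.2⟩
    · refine le_of_eq_of_le ?_ (harmonic_le_one_add_log Q)
      rw [harmonic_eq_sum_Icc]
      push_cast
      exact sum_congr rfl fun r _ => by field_simp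
  · rw [show 2 * tau l.natAbs / Z = tau l.natAbs * (2 / Z) by ring]
    refine gen hl _ (fun e => Ioo ⌊Z / e⌋₊ (Q + 1)) (fun q => (q : ℝ) ^ 2) _
      (fun q h => by simp at h; omega) (fun q => sq_nonneg _) (fun e r h => ?_) fun e he => ?_
    · rw [mem_filter, mem_Icc] at h
      have e0 := Nat.pos_of_mul_pos_right h.1.1
      refine mem_Ioo.2 ⟨(Nat.floor_lt (by positivity)).2 ((div_lt_iff₀' (by positivity)).2 ?_),
        Nat.lt_succ_of_le ((Nat.le_mul_of_pos_left r e0).trans h.1.2)⟩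
      exact_mod_cast h.2
    · have e0 : (0 : ℝ) < e := by positivity
      have h1 := (div_lt_iff₀' e0).1 (Nat.lt_floor_add_one (Z / e))
      have h2 := mul_le_mul_of_nonneg_left (sum_Ioo_inv_sq_le (α := ℝ) ⌊Z / e⌋₊ (Q + 1))
        (inv_pos.2 e0).le
      rw [mul_sum] at h2
      refine le_of_eq_of_le (sum_congr rfl fun r _ => ?_) (h2.trans ?_)
      · push_cast
        field_simp
      · rw [← div_eq_inv_mul, div_div, mul_comm]
        exact div_le_div_of_nonneg_left zero_le_two (by positivity) h1.le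
  · have s1 : ∀ e > 0, ∑ e' ∈ q'.divisors, (moebius (q' / e') : ℝ) * (e * e' * rho B e e') =
        if q' ∣ e then cq q' B else 0 := fun e he =>
      (inv (f := fun r => if r ∣ e then cq r B else 0)
        (g := fun e' => e * e' * rho B e e')).1 (fun n hn => by
        have g0 := Nat.gcd_pos_of_pos_left n he
        have l0 : (e.lcm n : ℝ) ≠ 0 := Nat.cast_ne_zero.2 (Nat.lcm_ne_zero he.ne' hn.ne')
        rw [← sum_filter, show n.divisors.filter (· ∣ e) = (e.gcd n).divisors by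
          ext r
          simp [Nat.dvd_gcd_iff, hn.ne', he.ne', and_comm], one B _ g0, rho]
        split_ifs
        · rw [mul_one_div, eq_div_iff l0]
          exact_mod_cast Nat.gcd_mul_lcm e n
        · simp) q' hq'
    have s2 := (inv (f := fun i => if i = q' then cq i B else 0)
      (g := fun e => if q' ∣ e then cq q' B else 0)).1 (fun n hn => by simp [hn.ne']) q hq
    rw [← s2]
    refine sum_congr rfl fun e he => ?_
    rw [← s1 e (Nat.pos_of_mem_divisors he), mul_sum]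
    exact sum_congr rfl fun e' _ => by ring

end Pool.Agent.MP_20b2fd_nt.H38
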