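import Pool.Agent.MP_20b2fd_nt.H38.SpecD

/-! Dispersion: summation over the shifts and the short intervals. -/

set_option autoImplicit false

namespace Pool.Agent.MP_20b2fd_nt.H38

open Finset Filter Topology
open scoped Real

namespace DsA

lemma fib (f : ℕ → ℂ) (y₁ Y L : ℕ) (B : ℝ) (hL : 0 < L) (B0 : 0 ≤ B)
    (hB : ∀ y₀ ∈ Icc y₁ Y, ∀ J ⊆ Icc y₁ Y, (∀ y ∈ J, y₀ ≤ y ∧ y ≤ y₀ + L) → ‖∑ y ∈ J, f y‖ ≤ B) :
    ‖∑ y ∈ Icc y₁ Y, f y‖ ≤ ((Y : ℝ) / L + 1) * B := by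
  rw [← sum_fiberwise_of_maps_to (t := range (Y / L + 1)) (g := fun y => y / L)
    fun y hy => mem_range.2 (Nat.lt_succ_of_le (Nat.div_le_div_right (mem_Icc.1 hy).2))]
  refine (norm_sum_le _ _).trans ((sum_le_card_nsmul _ _ B fun j _ => ?_).trans ?_)
  · rcases ((Icc y₁ Y).filter fun y => y / L = j).eq_empty_or_nonempty with e | e
    · rw [e, sum_empty, norm_zero]
      exact B0
    · have hm := mem_filter.1 (min'_mem _ e)
      refine hB _ hm.1 _ (filter_subset _ _) fun y hy => ⟨min'_le _ _ hy, ?_⟩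
      have a := Nat.lt_div_mul_add (a := y) hL
      rw [(mem_filter.1 hy).2, ← hm.2] at a
      exact a.le.trans (Nat.add_le_add_right (Nat.div_mul_le_self _ _) _)
  · rw [card_range, nsmul_eq_mul, Nat.cast_succ]
    exact mul_le_mul_of_nonneg_right (add_le_add_left Nat.cast_div_le _) B0

lemma tau_le (n : ℕ) : tau n ≤ n := by
  unfold tau
  exact_mod_cast Nat.card_divisors_le_self n

end DsA

open DsA in
theorem dsOf : DsOf := by
  intro h1 δ δ0 δ1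
  obtain ⟨N₀, H⟩ := h1 δ δ0 δ1
  obtain ⟨N₁, hN₁⟩ := eventually_atTop.1
    (((tendsto_rpow_atTop δ0).comp tendsto_natCast_atTop_atTop).eventually_ge_atTop 2)
  refine ⟨max N₀ N₁, fun N Y T P a β Φ k hN hp hT hY ha hβ hΦ hk => ?_⟩
  have n1 : (1 : ℝ) ≤ N := by exact_mod_cast hp.one_le
  have n0 : (0 : ℝ) < N := by linarith
  have T0 : 0 < T := (Real.rpow_pos_of_pos n0 _).trans_le hT.1
  have L1 : 1 ≤ (N : ℝ) ^ (1 - 50 * δ) / T := by
    rw [one_le_div T0]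
    exact hT.2.1.trans (Real.rpow_le_rpow_of_exponent_le n1 (by norm_num at δ1 ⊢; linarith))
  have hk0 := hk.2.2.1
  have w2 : 2 ≤ (N : ℝ) ^ δ := hN₁ N (le_of_max_le_right hN)
  have pw : ∀ m : ℕ, (N : ℝ) ^ ((m : ℝ) * δ) = ((N : ℝ) ^ δ) ^ m := fun m => by
    rw [mul_comm, Real.rpow_mul n0.le, Real.rpow_natCast]
  have e1 : (N : ℝ) ^ (1 - δ) = N / (N : ℝ) ^ δ := by rw [Real.rpow_sub n0, Real.rpow_one]
  have e2 : (N : ℝ) ^ (2 * δ) = ((N : ℝ) ^ δ) ^ 2 := by exact_mod_cast pw 2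
  have e3 : (N : ℝ) ^ (1 + 2 * δ) = N * ((N : ℝ) ^ δ) ^ 2 := by
    rw [Real.rpow_add n0, Real.rpow_one, e2]
  have e4 : (N : ℝ) ^ (1 - 50 * δ) = N / ((N : ℝ) ^ δ) ^ 50 := by
    rw [Real.rpow_sub n0, Real.rpow_one, ← pw 50, Nat.cast_ofNat]
  have e5 : (N : ℝ) ^ (-30 * δ) = (((N : ℝ) ^ δ) ^ 30)⁻¹ := by
    rw [neg_mul, Real.rpow_neg n0.le, ← pw 30, Nat.cast_ofNat]
  have e6 : (N : ℝ) ^ (-2 * δ) = (((N : ℝ) ^ δ) ^ 2)⁻¹ := by rw [neg_mul, Real.rpow_neg n0.le, e2]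
  have e7 : (N : ℝ) ^ (4 * δ) = ((N : ℝ) ^ δ) ^ 4 := by exact_mod_cast pw 4
  replace H := fun (J : Finset ℕ) (h : ℤ) (y₀ : ℕ) =>
    H N T (2 * T * ((N : ℝ) ^ δ) ^ 3 / N) P J h y₀ a β Φ k (le_of_max_le_left hN) hp hT
  simp only [hΦ, hk, ha, e1, e2, e3, e4, e5, e6, e7, implies_true, true_implies] at H hY hβ L1 ⊢
  generalize (N : ℝ) ^ δ = w at *
  generalize (N : ℝ) ^ (1000 * δ) = z at *
  have w0 : 0 < w := by linarith
  set F : ℕ → ℕ → ℤ → ℂ := fun t y h => a t * β y *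
    (((tau (t * y + h * N : ℤ).natAbs - ts z Φ (t * y + h * N)) * k (h * N / (t * y)) : ℝ) : ℂ)
  have kz : ∀ t ∈ P, ∀ y : ℕ, 1 ≤ y → ∀ h : ℤ, w * (2 * T * y) ≤ |(h : ℝ)| * N →
      k (h * N / (t * y)) = 0 := fun t ht y hy h hh => hk0 _ (by
    have t0 : (0 : ℝ) < t := T0.trans_le (hT.2.2 t ht).2.1
    have y0 : (0 : ℝ) < y := by exact_mod_cast hy
    rw [abs_div, abs_mul, abs_of_pos n0, abs_of_pos (mul_pos t0 y0), le_div_iff₀ (mul_pos t0 y0)]
    exact le_trans (by gcongr; exact (hT.2.2 t ht).2.2) hh)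
  set M : ℕ := ⌊2 * w ^ 3⌋₊
  have M1 : (M : ℝ) ≤ 2 * w ^ 3 := Nat.floor_le (by positivity)
  have hM : ∀ h ∈ Icc (-M : ℤ) M, |(h : ℝ)| ≤ 2 * w ^ 3 := fun h hh => by
    refine le_trans ?_ M1
    exact_mod_cast abs_le.2 (mem_Icc.1 hh)
  have s1 : ∑ t ∈ P, ∑ y ∈ Icc 1 Y, a t * β y * (dv z Φ k N (t * y) : ℝ) =
      ∑ h ∈ Icc (-M : ℤ) M, (tau h.natAbs : ℝ) * ∑ y ∈ Icc 1 Y, ∑ t ∈ P, F t y h := by
    simp only [mul_sum]
    rw [sum_comm, sum_comm (s := Icc (-M : ℤ) M)]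
    refine sum_congr rfl fun y hy => ?_
    rw [sum_comm]
    refine sum_congr rfl fun t ht => ?_
    rw [dv, tsum_eq_sum (s := Icc (-M : ℤ) M) fun h hh => ?_]
    · push_cast
      rw [mul_sum]
      refine sum_congr rfl fun h _ => ?_
      simp only [F]
      push_cast
      ring
    · have a1 : (M : ℤ) + 1 ≤ |h| := by
        rw [mem_Icc, ← abs_le, not_le] at hh
        exact hh
      have a2 : 2 * w ^ 3 ≤ |(h : ℝ)| :=
        (Nat.lt_floor_add_one _).le.trans (by exact_mod_cast a1)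
      have a3 : (y : ℝ) * T ≤ N * w ^ 2 := by
        rw [← le_div_iff₀ T0]
        exact le_trans (by exact_mod_cast (mem_Icc.1 hy).2) hY
      rw [Nat.cast_mul (α := ℝ), kz t ht y (mem_Icc.1 hy).1 h (by
        nlinarith [mul_le_mul_of_nonneg_right a2 n0.le, mul_le_mul_of_nonneg_left a3 w0.le]),
        mul_zero]
  have s2 : ∀ h ∈ Icc (-M : ℤ) M, h ≠ 0 → ‖∑ y ∈ Icc 1 Y, ∑ t ∈ P, F t y h‖ ≤ 6 / w ^ 25 := by
    intro h hh h0
    have c0 : 0 < N / w / (2 * T) := by positivity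
    have c1 : ∀ y : ℕ, ⌈N / w / (2 * T)⌉₊ ≤ y ↔ N ≤ w * (2 * T * y) := fun y => by
      rw [Nat.ceil_le, div_le_iff₀ (by positivity), div_le_iff₀ w0]
      exact iff_of_eq (by ring_nf)
    have c2 := Nat.ceil_pos.2 c0
    rw [← sum_subset (Icc_subset_Icc_left c2) fun y a1 a2 => sum_eq_zero fun t ht => ?_]
    · have L2 : N / w ^ 50 / T ≤ 2 * (⌊N / w ^ 50 / T⌋₊ : ℝ) := by
        have : (1 : ℝ) ≤ ⌊N / w ^ 50 / T⌋₊ := by exact_mod_cast Nat.floor_pos.2 L1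
        linarith [Nat.lt_floor_add_one (N / w ^ 50 / T)]
      have L0 := Nat.floor_pos.2 L1
      refine (fib _ _ Y _ (2 * T * w ^ 3 / N * (N / w ^ 50 / T) * (w ^ 30)⁻¹) L0 (by positivity)
        fun y₀ hy₀ J hJ hJ' => ?_).trans ?_
      · rw [sum_comm]
        refine H J h y₀ h0 ((hM h hh).trans (by nlinarith [pow_pos w0 3])) ?_
          (le_trans (by exact_mod_cast (mem_Icc.1 hy₀).2) hY) (fun y hy => ⟨(hJ' y hy).1, ?_⟩)
          (by positivity) fun y hy => ?_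
        · refine le_trans ?_ (Nat.ceil_le.1 (mem_Icc.1 hy₀).1)
          gcongr
          norm_num
        · exact le_trans (by exact_mod_cast (hJ' y hy).2)
            (add_le_add_right (Nat.floor_le (zero_le_one.trans L1)) _)
        · have b := mem_Icc.1 (hJ hy)
          have y0 : (0 : ℝ) < y := by exact_mod_cast c2.trans_le b.1
          refine (hβ y (mem_Icc.2 ⟨c2.trans_le b.1, b.2⟩)).trans ?_
          rw [div_le_div_iff₀ y0 n0]
          nlinarith [mul_le_mul_of_nonneg_left ((c1 y).1 b.1) (sq_nonneg w)]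
      · have b : (Y : ℝ) / ⌊N / w ^ 50 / T⌋₊ ≤ 2 * w ^ 52 := by
          rw [div_le_iff₀ (by exact_mod_cast L0)]
          refine hY.trans (le_trans (le_of_eq ?_) ((mul_le_mul_of_nonneg_left L2
            (pow_pos w0 52).le).trans (le_of_eq (by ring))))
          field_simp
        have b' : 1 ≤ w ^ 52 := one_le_pow₀ (by linarith)
        refine (mul_le_mul_of_nonneg_right (show _ ≤ 3 * w ^ 52 by linarith) (by positivity)).trans
          (le_of_eq ?_)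
        field_simp
        norm_num
    · have a3 : ¬ N ≤ w * (2 * T * y) := fun c =>
        a2 (mem_Icc.2 ⟨(c1 y).2 c, (mem_Icc.1 a1).2⟩)
      have a4 : (1 : ℝ) ≤ |(h : ℝ)| := by exact_mod_cast Int.one_le_abs h0
      simp only [F]
      rw [kz t ht y (mem_Icc.1 a1).1 h (by nlinarith), mul_zero, Complex.ofReal_zero, mul_zero]
  rw [s1]
  refine (norm_sum_le _ _).trans ((sum_le_card_nsmul _ _ (2 * w ^ 3 * (6 / w ^ 25))
    fun h hh => ?_).trans ?_)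
  · by_cases h0 : h = 0
    · simp only [h0, tau, Int.natAbs_zero, Nat.divisors_zero, card_empty, Nat.cast_zero,
        Complex.ofReal_zero, zero_mul, norm_zero]
      positivity
    · rw [norm_mul, Complex.norm_real, Real.norm_of_nonneg (show 0 ≤ tau h.natAbs from Nat.cast_nonneg _)]
      refine mul_le_mul ((tau_le _).trans ?_) (s2 h hh h0) (norm_nonneg _) (by positivity)
      rw [Nat.cast_natAbs, Int.cast_abs]
      exact hM h hh
  · have c : ((Icc (-M : ℤ) M).card : ℝ) = 2 * M + 1 := by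
      rw [Int.card_Icc, show (M : ℤ) + 1 - -M = (2 * M + 1 : ℕ) by push_cast; ring, Int.toNat_natCast]
      push_cast
      ring
    have b : 1 ≤ w ^ 3 := one_le_pow₀ (by linarith)
    have b' : (2 : ℝ) ^ 17 ≤ w ^ 17 := pow_le_pow_left₀ zero_le_two w2 17
    rw [nsmul_eq_mul, c]
    refine (mul_le_mul_of_nonneg_right (show _ ≤ 5 * w ^ 3 by linarith) (by positivity)).trans ?_
    rw [show 5 * w ^ 3 * (2 * w ^ 3 * (6 / w ^ 25)) = 60 / w ^ 17 * (w ^ 2)⁻¹ by field_simp; norm_num]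
    exact mul_le_of_le_one_left (by positivity) ((div_le_one (by positivity)).2 (by linarith))

end Pool.Agent.MP_20b2fd_nt.H38
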