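import Pool.Agent.MP_20b2fd_nt.H38.SpecD

/-! The divisor function, its small divisors and its major arc approximation. -/

set_option autoImplicit false

namespace Pool.Agent.MP_20b2fd_nt.H38

open Finset

namespace DtA

theorem mult (q U : ℕ) (hq : 1 ≤ q) :
    ∑ u ∈ (Icc 1 U).filter (fun u => q ∣ u), (1 : ℝ) / u = (harmonic (U / q) : ℝ) / q := by
  rw [harmonic_eq_sum_Icc, Rat.cast_sum, sum_div]
  symm
  refine sum_nbij' (fun r => q * r) (fun u => u / q) (fun r hr => ?_) (fun u hu => ?_)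
    (fun r _ => Nat.mul_div_cancel_left r hq) (fun u hu => Nat.mul_div_cancel' (mem_filter.1 hu).2)
    fun r _ => ?_
  · obtain ⟨h1, h2⟩ := mem_Icc.1 hr
    exact mem_filter.2 ⟨mem_Icc.2 ⟨Nat.mul_pos hq h1,
      by rw [mul_comm]; exact (Nat.le_div_iff_mul_le hq).1 h2⟩, dvd_mul_right _ _⟩
  · obtain ⟨h1, h2⟩ := mem_filter.1 hu
    obtain ⟨h3, h4⟩ := mem_Icc.1 h1
    exact mem_Icc.2 ⟨Nat.div_pos (Nat.le_of_dvd h3 h2) hq, Nat.div_le_div_right h4⟩
  · push_cast
    rw [one_div, mul_inv, div_eq_mul_inv, mul_comm]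

theorem hle {n U : ℕ} (h : n ≤ U) : (harmonic n : ℝ) ≤ 1 + Real.log U := by
  refine (harmonic_le_one_add_log n).trans (add_le_add_right ?_ _)
  rcases n.eq_zero_or_pos with rfl | hn
  · simpa using Real.log_natCast_nonneg U
  · exact Real.log_le_log (by exact_mod_cast hn) (by exact_mod_cast h)

/-- the weight of the modulus `q` -/
noncomputable def wq (U t q : ℕ) : ℝ :=
  q * ∑ u ∈ ((Icc 1 U).filter (fun u => q ∣ u)).filter (fun u => ¬ t ∣ u), (1 : ℝ) / u

theorem hh_nonneg (U t q : ℕ) : 0 ≤ wq U t q := by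
  unfold wq
  positivity

theorem hh_le (U t : ℕ) {q : ℕ} (hq : 1 ≤ q) : wq U t q ≤ harmonic (U / q) := by
  have h0 : (0 : ℝ) < q := by exact_mod_cast hq
  rw [wq, mul_comm, ← le_div_iff₀ h0, ← mult q U hq]
  exact sum_le_sum_of_subset_of_nonneg (filter_subset _ _) fun _ _ _ => by positivity

theorem hh_ge (U : ℕ) {t q : ℕ} (hq : 1 ≤ q) (ht : 1 ≤ t) (h : q.Coprime t) :
    harmonic (U / q) - (1 + Real.log U) / t ≤ wq U t q := by
  have h0 : (0 : ℝ) < q := by exact_mod_cast hq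
  have t0 : (0 : ℝ) < t := by exact_mod_cast ht
  have h1 := sum_filter_add_sum_filter_not ((Icc 1 U).filter (fun u => q ∣ u)) (fun u => t ∣ u)
    fun u => (1 : ℝ) / u
  have h2 : ((Icc 1 U).filter (fun u => q ∣ u)).filter (fun u => t ∣ u) =
      (Icc 1 U).filter (fun u => q * t ∣ u) := by
    rw [filter_filter]
    exact filter_congr fun u _ => ⟨fun e => h.mul_dvd_of_dvd_of_dvd e.1 e.2,
      fun e => ⟨dvd_of_mul_right_dvd e, dvd_of_mul_left_dvd e⟩⟩
  rw [h2, mult _ U (Nat.mul_pos hq ht), mult q U hq] at h1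
  have h3 := div_le_div_of_nonneg_right (hle (Nat.div_le_self U (q * t))) t0.le
  rw [wq, eq_sub_of_add_eq' h1, mul_sub, mul_div_cancel₀ _ h0.ne', Nat.cast_mul, mul_comm (q : ℝ) t,
    ← div_div, mul_div_cancel₀ _ h0.ne']
  linarith

theorem ff_eq (Φ : ℕ → ℝ) (U t : ℕ) (l : ℤ) : FF Φ U t l =
    (((Icc 1 U).filter fun u => ¬ t ∣ u ∧ (u : ℤ) ∣ l).card : ℝ) -
      ∑ q ∈ Icc 1 U, Φ q * cq q l / q * wq U t q := by
  rw [FF, sum_sub_distrib, sum_boole, filter_filter]
  congr 1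
  simp only [mul_sum]
  rw [sum_comm' (t' := Icc 1 U)
    (s' := fun q => ((Icc 1 U).filter (fun u => q ∣ u)).filter (fun u => ¬ t ∣ u))]
  · refine sum_congr rfl fun q hq => ?_
    have h0 : (q : ℝ) ≠ 0 := by exact_mod_cast Nat.ne_of_gt (mem_Icc.1 hq).1
    rw [wq, ← mul_assoc, div_mul_cancel₀ _ h0, mul_sum]
    exact sum_congr rfl fun _ _ => mul_comm _ _
  · intro u q
    simp only [mem_filter, mem_Icc, Nat.mem_divisors]
    constructor
    · rintro ⟨⟨⟨h1, h2⟩, h3⟩, h4, -⟩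
      exact ⟨⟨⟨⟨h1, h2⟩, h4⟩, h3⟩, Nat.pos_of_dvd_of_pos h4 h1, (Nat.le_of_dvd h1 h4).trans h2⟩
    · rintro ⟨⟨⟨⟨h1, h2⟩, h4⟩, h3⟩, -⟩
      exact ⟨⟨⟨h1, h2⟩, h3⟩, h4, by omega⟩

theorem wsum (h : DrS) {Φ : ℕ → ℝ} (hΦ : ∀ q, 0 ≤ Φ q ∧ Φ q ≤ 1) {l : ℤ} (hl : l ≠ 0) (Q : ℕ)
    (w : ℕ → ℝ) {B : ℝ} (hB : 0 ≤ B) (hw : ∀ q ∈ Icc 1 Q, Φ q ≠ 0 → |w q| ≤ B) :
    |∑ q ∈ Icc 1 Q, Φ q * cq q l / q * w q| ≤ tau l.natAbs * (1 + Real.log Q) * B := by
  refine (abs_sum_le_sum_abs _ _).trans (le_trans ?_ (mul_le_mul_of_nonneg_right (h.2.1 Q l hl) hB))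
  rw [sum_mul]
  refine sum_le_sum fun q hq => ?_
  by_cases h0 : Φ q = 0
  · rw [h0, zero_mul, zero_div, zero_mul, abs_zero]
    positivity
  · rw [abs_mul, abs_div, abs_mul, abs_of_nonneg (hΦ q).1, Nat.abs_cast]
    refine mul_le_mul (div_le_div_of_nonneg_right ?_ (Nat.cast_nonneg _)) (hw q hq h0)
      (abs_nonneg _) (by positivity)
    exact mul_le_of_le_one_left (abs_nonneg _) (hΦ q).2

theorem harm {U q : ℕ} (hq : 1 ≤ q) (h : q ≤ U) :
    |(harmonic (U / q) : ℝ) - Real.eulerMascheroniConstant - (Real.log U - Real.log q)| ≤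
      2 * (q / U) := by
  have h0 : (0 : ℝ) < q := by exact_mod_cast hq
  have U0 : (0 : ℝ) < U := by exact_mod_cast hq.trans h
  have n1 : 1 ≤ U / q := Nat.div_pos h hq
  have a1 : ((U / q : ℕ) : ℝ) ≤ U / q := Nat.cast_div_le
  have a2 : (U : ℝ) / q ≤ (U / q : ℕ) + 1 := by
    rw [div_le_iff₀ h0]
    have := Nat.lt_div_mul_add (a := U) hq
    have : U ≤ (U / q + 1) * q := by rw [add_mul, one_mul]; exact this.le
    exact_mod_cast this
  have b1 := Real.eulerMascheroniSeq_lt_eulerMascheroniConstant (U / q)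
  have b2 := Real.eulerMascheroniConstant_lt_eulerMascheroniSeq' (U / q)
  rw [Real.eulerMascheroniSeq] at b1
  rw [Real.eulerMascheroniSeq', if_neg (Nat.ne_of_gt n1)] at b2
  rw [← Real.log_div U0.ne' h0.ne']
  generalize U / q = n at n1 a1 a2 b1 b2 ⊢
  have n0 : (1 : ℝ) ≤ n := by exact_mod_cast n1
  have c1 := Real.log_le_log (by linarith) a1
  have c2 := Real.log_le_log (by positivity) a2
  have c3 : Real.log (n + 1) - Real.log n ≤ 1 / n := by
    rw [← Real.log_div (by positivity) (by positivity)]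
    refine (Real.log_le_sub_one_of_pos (by positivity)).trans (le_of_eq ?_)
    field_simp
    ring
  have c4 : (1 : ℝ) / n ≤ 2 * (q / U) := by
    rw [div_le_iff₀ h0] at a2
    rw [← mul_div_assoc, div_le_div_iff₀ (by linarith) U0]
    nlinarith
  rw [abs_le]
  constructor <;> linarith

theorem card_diff {α : Type} [DecidableEq α] {A B D : Finset α} (h1 : ∀ x ∈ A, x ∉ B → x ∈ D)
    (h2 : ∀ x ∈ B, x ∉ A → x ∈ D) : |(A.card : ℝ) - B.card| ≤ D.card := by
  have k : ∀ A B : Finset α, (∀ x ∈ A, x ∉ B → x ∈ D) → (A.card : ℝ) ≤ B.card + D.card :=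
    fun A B h => by
      have : A ⊆ B ∪ D := fun x hx => by
        by_cases hB : x ∈ B
        exacts [mem_union_left _ hB, mem_union_right _ (h x hx hB)]
      exact_mod_cast (card_le_card this).trans (card_union_le _ _)
  rw [abs_le]
  constructor <;> linarith [k A B h1, k B A h2]

open Classical in
theorem hyp {n U : ℕ} {ϵ : ℝ} (hn : n ≠ 0) (hU : 1 ≤ U) (h : |Real.log (n / (U : ℝ) ^ 2)| ≤ ϵ) :
    |(n.divisors.card : ℝ) - 2 * (n.divisors.filter fun u => u ≤ U).card| ≤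
      (n.divisors.filter fun u : ℕ =>
        U * Real.exp (-ϵ) ≤ u ∧ (u : ℝ) ≤ U * Real.exp ϵ).card := by
  have U0 : (0 : ℝ) < U := by exact_mod_cast hU
  have n0 : (0 : ℝ) < n := by exact_mod_cast Nat.pos_of_ne_zero hn
  have e0 : 0 ≤ ϵ := (abs_nonneg _).trans h
  obtain ⟨h1, h2⟩ := abs_le.1 h
  rw [Real.le_log_iff_exp_le (by positivity), le_div_iff₀ (by positivity)] at h1
  rw [Real.log_le_iff_le_exp (by positivity), div_le_iff₀ (by positivity)] at h2
  have e1 : 1 ≤ Real.exp ϵ := Real.one_le_exp e0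
  have e2 : Real.exp (-ϵ) ≤ 1 := Real.exp_le_one_iff.2 (by linarith)
  have a1 := card_filter_add_card_filter_not (s := n.divisors) fun u => u ≤ U
  have a2 : (n.divisors.filter fun u => ¬u ≤ U).card =
      (n.divisors.filter fun v => v * U < n).card := by
    refine card_nbij' (fun u => n / u) (fun u => n / u) (fun u hu => ?_) (fun u hu => ?_)
      (fun u hu => Nat.div_div_self (Nat.dvd_of_mem_divisors (mem_filter.1 hu).1) hn)
      fun u hu => Nat.div_div_self (Nat.dvd_of_mem_divisors (mem_filter.1 hu).1) hn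
    · obtain ⟨b1, b2⟩ := mem_filter.1 (mem_coe.1 hu)
      obtain ⟨v, rfl⟩ := Nat.dvd_of_mem_divisors b1
      have b3 := Nat.pos_of_mem_divisors b1
      have b4 : 0 < v := Nat.pos_of_ne_zero fun e => hn (by rw [e, mul_zero])
      simp only [Nat.mul_div_cancel_left v b3]
      refine mem_coe.2 (mem_filter.2 ⟨Nat.mem_divisors.2 ⟨dvd_mul_left _ _, hn⟩, ?_⟩)
      rw [mul_comm u]
      exact Nat.mul_lt_mul_of_pos_left (not_le.1 b2) b4
    · obtain ⟨b1, b2⟩ := mem_filter.1 (mem_coe.1 hu)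
      obtain ⟨v, rfl⟩ := Nat.dvd_of_mem_divisors b1
      have b3 := Nat.pos_of_mem_divisors b1
      simp only [Nat.mul_div_cancel_left v b3]
      exact mem_coe.2 (mem_filter.2 ⟨Nat.mem_divisors.2 ⟨dvd_mul_left _ _, hn⟩,
        not_le.2 (Nat.lt_of_mul_lt_mul_left b2)⟩)
  rw [← a1, a2, Nat.cast_add, two_mul, add_sub_add_left_eq_sub]
  refine card_diff (fun x hx hx' => ?_) fun x hx hx' => ?_
  · obtain ⟨b1, b2⟩ := mem_filter.1 hx
    have b3 : (U : ℝ) < x := by exact_mod_cast not_le.1 fun e => hx' (mem_filter.2 ⟨b1, e⟩)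
    have b4 : (x : ℝ) * U < n := by exact_mod_cast b2
    refine mem_filter.2 ⟨b1, by nlinarith, le_of_mul_le_mul_right ?_ U0⟩
    nlinarith
  · obtain ⟨b1, b2⟩ := mem_filter.1 hx
    have b3 : (x : ℝ) ≤ U := by exact_mod_cast b2
    have b4 : (n : ℝ) ≤ x * U := by
      exact_mod_cast not_lt.1 fun e => hx' (mem_filter.2 ⟨b1, e⟩)
    refine mem_filter.2 ⟨b1, le_of_mul_le_mul_right ?_ U0, by nlinarith⟩
    nlinarith

end DtA

open DtA in
theorem dtOf : DtOf := by
  intro h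
  refine ⟨4, by norm_num, fun z ϵ Φ U t l hl hz hΦ h0 => ?_⟩
  have hn : l.natAbs ≠ 0 := Int.natAbs_ne_zero.2 hl
  have t0 : 0 ≤ tau l.natAbs := Nat.cast_nonneg _
  have lU := Real.log_natCast_nonneg U
  have lz := Real.log_nonneg hz
  have l1 : (1 : ℝ) ≤ |(l : ℝ)| := by exact_mod_cast Int.one_le_abs hl
  have ll := Real.log_nonneg l1
  have g1 := Real.one_half_lt_eulerMascheroniConstant
  have g2 := Real.eulerMascheroniConstant_lt_two_thirds
  have qz : ∀ q : ℕ, Φ q ≠ 0 → (q : ℝ) ≤ z := fun q hq => not_lt.1 fun e => hq (h0 q e)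
  refine ⟨?_, ?_, fun ht hzt htl hzU he => ?_⟩
  · have a1 := wsum h hΦ hl U (wq U t) (B := 1 + Real.log U) (by linarith) fun q hq _ => by
      rw [abs_of_nonneg (hh_nonneg U t q)]
      exact (hh_le U t (mem_Icc.1 hq).1).trans (hle (Nat.div_le_self _ _))
    have a2 : (((Icc 1 U).filter fun u => ¬ t ∣ u ∧ (u : ℤ) ∣ l).card : ℝ) ≤ tau l.natAbs :=
      Nat.cast_le.2 (card_le_card fun u hu =>
        Nat.mem_divisors.2 ⟨Int.natCast_dvd.1 (mem_filter.1 hu).2.2, hn⟩)
    rw [ff_eq]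
    refine (abs_sub _ _).trans ?_
    rw [Nat.abs_cast]
    linarith
  · have a1 := wsum h hΦ hl ⌊z⌋₊
      (fun q => Real.log |(l : ℝ)| - 2 * Real.log q + 2 * Real.eulerMascheroniConstant)
      (B := 4 * (1 + Real.log |(l : ℝ)| + Real.log z)) (by linarith) fun q hq hq' => by
        have b1 := Real.log_natCast_nonneg q
        have b2 := Real.log_le_log (by exact_mod_cast (mem_Icc.1 hq).1) (qz q hq')
        rw [abs_le]
        constructor <;> linarith
    have a2 : Real.log ⌊z⌋₊ ≤ Real.log z :=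
      Real.log_le_log (by exact_mod_cast Nat.floor_pos.2 hz) (Nat.floor_le (by linarith))
    refine a1.trans ?_
    have a3 := mul_le_mul_of_nonneg_right (mul_le_mul_of_nonneg_left (add_le_add_right a2 1) t0)
      (show 0 ≤ 4 * (1 + Real.log |(l : ℝ)| + Real.log z) by linarith)
    linarith
  · have U1 : (1 : ℝ) ≤ U := hz.trans hzU
    have e0 : 0 ≤ ϵ := (abs_nonneg _).trans he
    have tp : (0 : ℝ) < t := by linarith
    have a0 : ts z Φ l = ∑ q ∈ Icc 1 U, Φ q * cq q l / q *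
        (Real.log |(l : ℝ)| - 2 * Real.log q + 2 * Real.eulerMascheroniConstant) := by
      refine sum_subset (Icc_subset_Icc_right (Nat.floor_le_of_le hzU)) fun q hq hq' => ?_
      rw [h0 q, zero_mul, zero_div, zero_mul]
      by_contra hc
      exact hq' (mem_Icc.2 ⟨(mem_Icc.1 hq).1, Nat.le_floor (not_lt.1 hc)⟩)
    have a1 := wsum h hΦ hl U (fun q => 2 * wq U t q -
      (Real.log |(l : ℝ)| - 2 * Real.log q + 2 * Real.eulerMascheroniConstant))
      (B := 4 * (1 + Real.log U) * (ϵ + z / U + 1 / t)) (by positivity) fun q hq hq' => by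
        obtain ⟨q1, q2⟩ := mem_Icc.1 hq
        have b0 := qz q hq'
        have b1 := hh_le U t q1
        have b2 := hh_ge U q1 ht.one_le ((Nat.Prime.coprime_iff_not_dvd ht).2
          (Nat.not_dvd_of_pos_of_lt q1 (by exact_mod_cast b0.trans_lt hzt))).symm
        have b3 := abs_le.1 (harm q1 q2)
        have b4 : (q : ℝ) / U ≤ z / U := div_le_div_of_nonneg_right b0 (by linarith)
        rw [Real.log_div (by linarith) (by positivity), Real.log_pow] at he
        have b5 := abs_le.1 he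
        have b6 : 0 ≤ Real.log U * (ϵ + z / U) := by positivity
        have b7 : 0 ≤ (1 + Real.log U) / t := by positivity
        have b8 : 4 * (1 + Real.log U) * (ϵ + z / U + 1 / t) =
            4 * (ϵ + z / U) + 4 * (Real.log U * (ϵ + z / U)) + 4 * ((1 + Real.log U) / t) := by
          ring
        push_cast at b5
        rw [b8, abs_le]
        constructor <;> linarith
    have a2 : (Icc 1 U).filter (fun u => ¬ t ∣ u ∧ (u : ℤ) ∣ l) =
        l.natAbs.divisors.filter fun u => u ≤ U := by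
      ext u
      simp only [mem_filter, mem_Icc, Nat.mem_divisors, Int.natCast_dvd]
      exact ⟨fun e => ⟨⟨e.2.2, hn⟩, e.1.2⟩, fun e => ⟨⟨Nat.pos_of_dvd_of_pos e.1.1
        (Nat.pos_of_ne_zero hn), e.2⟩, fun e' => htl (Int.natCast_dvd.2 (e'.trans e.1.1)), e.1.1⟩⟩
    have a3 := hyp (ϵ := ϵ) hn (by exact_mod_cast U1 : 1 ≤ U) (by rwa [Nat.cast_natAbs, Int.cast_abs])
    rw [sum_congr rfl fun q _ => mul_sub _ (2 * wq U t q) _, sum_sub_distrib, ← a0,
      sum_congr rfl fun q _ => mul_left_comm _ 2 (wq U t q), ← mul_sum] at a1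
    rw [ff_eq, a2]
    refine le_trans (le_of_eq (congrArg _ ?_)) ((abs_add_le _ _).trans
      ((add_le_add a3 a1).trans (le_of_eq (by ring))))
    unfold tau
    ring

end Pool.Agent.MP_20b2fd_nt.H38
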