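import Pool.Agent.MP_20b2fd_nt.H38.SpecD
import Pool.Agent.MP_74e98a_nt.H25.Div

/-! Weighted sums of products of two divisor functions over a residue class. -/

set_option autoImplicit false

namespace Pool.Agent.MP_20b2fd_nt.H38

open Finset Filter Topology
open scoped Real

namespace DwA

theorem size {t T H y y₀ Y X : ℝ} (t0 : 0 ≤ t) (hT : t ≤ T) (Y0 : 0 < Y)
    (hX : |H| + T * (|y₀| + Y) ≤ X) : |t * y + H| ≤ X * Real.exp |(y - y₀) / Y| := by
  have a0 := abs_nonneg H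
  have a1 := abs_nonneg y₀
  have a2 := abs_nonneg ((y - y₀) / Y)
  have h1 : t * (|y₀| + Y) ≤ T * (|y₀| + Y) := by gcongr
  have h2 : |t * y + H| ≤ t * Y * |(y - y₀) / Y| + t * |y₀| + |H| := by
    rw [show t * y + H = t * Y * ((y - y₀) / Y) + t * y₀ + H by field_simp; ring]
    refine (abs_add_three _ _ _).trans_eq ?_
    rw [abs_mul (t * Y), abs_mul t y₀, abs_of_nonneg t0, abs_of_nonneg (by positivity : 0 ≤ t * Y)]
  have h3 : t * Y ≤ X := by nlinarith
  have h4 : t * |y₀| + |H| ≤ X := by nlinarith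
  have h5 := mul_le_mul_of_nonneg_left (Real.add_one_le_exp |(y - y₀) / Y|)
    ((mul_nonneg t0 Y0.le).trans h3)
  nlinarith

end DwA

open DwA in
theorem dwOf : DwOf := by
  rintro ⟨hG, -⟩ ε hε
  obtain ⟨D, D1, hD⟩ := MP_74e98a_nt.H25.divisor_bound (ε / 2) (half_pos hε)
  have e1 : 1 ≤ Real.exp (ε ^ 2) := Real.one_le_exp (sq_nonneg ε)
  have e2 := one_le_mul_of_one_le_of_one_le (one_le_pow₀ D1 (n := 2)) e1
  refine ⟨3 * (D ^ 2 * Real.exp (ε ^ 2)), by linarith, fun t t' Q H s y₀ Y X hQ hY hX h => ?_⟩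
  obtain ⟨g1, g2, -⟩ := hG y₀ (2 * Y) (by linarith)
  have t0 : (0 : ℝ) ≤ t := t.cast_nonneg
  have t0' : (0 : ℝ) ≤ t' := t'.cast_nonneg
  have k : ∀ (a : ℕ) (y : ℤ), (a : ℝ) ≤ t + t' →
      tau (a * y + H).natAbs ≤ D * (X * Real.exp |(y - y₀) / Y|) ^ (ε / 2) := fun a y ha => by
    refine (hD _).trans (mul_le_mul_of_nonneg_left (Real.rpow_le_rpow (Nat.cast_nonneg _) ?_
      (half_pos hε).le) (by linarith))
    rw [Nat.cast_natAbs]
    push_cast
    exact size a.cast_nonneg ha (by linarith) h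
  have n0 : ∀ y : ℤ, 0 ≤ gw y₀ Y y * (tau (t * y + H).natAbs * tau (t' * y + H).natAbs) := fun y =>
    mul_nonneg (Real.exp_pos _).le (mul_nonneg (Nat.cast_nonneg _) (Nat.cast_nonneg _))
  have b : ∀ y : ℤ, gw y₀ Y y * (tau (t * y + H).natAbs * tau (t' * y + H).natAbs) ≤
      D ^ 2 * Real.exp (ε ^ 2) * X ^ ε * gw y₀ (2 * Y) y := fun y => by
    have h1 := mul_le_mul (k t y (by linarith)) (k t' y (by linarith)) (Nat.cast_nonneg _)
      (by positivity)
    rw [mul_mul_mul_comm, ← Real.rpow_add (by positivity), add_halves,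
      Real.mul_rpow (by linarith) (Real.exp_pos _).le, ← Real.exp_mul] at h1
    refine (mul_le_mul_of_nonneg_left h1 (Real.exp_pos _).le).trans ?_
    have h2 : Real.exp (-π * ((y - y₀) / Y) ^ 2) * Real.exp (|(y - y₀) / Y| * ε) ≤
        Real.exp (ε ^ 2) * gw y₀ (2 * Y) y := by
      rw [gw, ← Real.exp_add, ← Real.exp_add, Real.exp_le_exp,
        show (y - y₀) / (2 * Y) = (y - y₀) / Y / 2 by field_simp, div_pow _ (2 : ℝ),
        ← sq_abs ((y - y₀) / Y)]
      nlinarith [sq_nonneg (|(y - y₀) / Y| - ε), Real.pi_gt_three, sq_nonneg |(y - y₀) / Y|,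
        sq_nonneg ε]
    have h3 := mul_le_mul_of_nonneg_left h2 (by positivity : 0 ≤ D ^ 2 * X ^ ε)
    linarith
  have s1 := Summable.of_nonneg_of_le n0 b (g1.mul_left _)
  have ind : ∀ {f : ℤ → ℝ}, Summable f → Summable fun y => if (Q : ℤ) ∣ y - s then f y else 0 :=
    fun hf => (hf.indicator {y | (Q : ℤ) ∣ y - s}).congr fun y => by simp [Set.indicator_apply]
  refine ⟨s1, ((ind s1).tsum_le_tsum (fun y => ?_)
    ((ind g1).mul_left (D ^ 2 * Real.exp (ε ^ 2) * X ^ ε))).trans ?_⟩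
  · split_ifs
    · exact b y
    · simp
  · rw [tsum_mul_left]
    have h1 := (abs_le.1 (g2 Q s hQ)).2
    have h2 : 0 ≤ Y / Q := by positivity
    calc _ ≤ D ^ 2 * Real.exp (ε ^ 2) * X ^ ε * (3 * (Y / Q + 1)) := by
          refine mul_le_mul_of_nonneg_left ?_ (by positivity)
          rw [mul_div_assoc] at h1
          linarith
      _ = _ := by ring

end Pool.Agent.MP_20b2fd_nt.H38
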