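import Pool.Agent.MP_20b2fd_nt.H38.SpecZ
import Pool.Agent.MP_c5bf7b_nt.H38.Base

/-! Dirichlet series over the integers without small prime factors. -/

set_option autoImplicit false

namespace Pool.Agent.MP_20b2fd_nt.H38

open Complex Finset ArithmeticFunction DirichletCharacter
open Pool.Agent.MP_c5bf7b_nt.H38 (Phi Ch)

namespace EuA

theorem prime_of {z : ℝ} {p : ℕ} (h : p ∈ pz z) : p.Prime := (mem_filter.1 h).2.1

theorem pf (z : ℝ) : (∏ p ∈ pz z, p).primeFactors = pz z :=
  Nat.primeFactors_prod fun _ => prime_of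

theorem ne0 (z : ℝ) : ∏ p ∈ pz z, p ≠ 0 := prod_ne_zero_iff.2 fun _ h => (prime_of h).ne_zero

open Classical in
theorem lift {q : ℕ} (χ : Ch q) (z : ℝ) (n : ℕ) :
    changeLevel (dvd_mul_right q (∏ p ∈ pz z, p)) χ n = if rg z n then χ n else 0 := by
  by_cases h : n.Coprime (q * ∏ p ∈ pz z, p)
  · have := changeLevel_eq_cast_of_dvd' χ (dvd_mul_right q (∏ p ∈ pz z, p))
      (Nat.isCoprime_iff_coprime.2 h)
    rw [Int.cast_natCast, Int.cast_natCast] at this
    rw [this, if_pos]
    exact fun p hp => (prime_of hp).coprime_iff_not_dvd.1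
      (h.coprime_dvd_right ((dvd_prod_of_mem _ hp).mul_left q)).symm
  · rw [MulChar.map_nonunit _ (mt (ZMod.isUnit_iff_coprime _ _).1 h)]
    split_ifs with r
    · refine (MulChar.map_nonunit _ fun u => h ?_).symm
      exact ((ZMod.isUnit_iff_coprime _ _).1 u).mul_right
        (Nat.Coprime.prod_right fun p hp => ((prime_of hp).coprime_iff_not_dvd.2 (r p hp)).symm)
    · rfl

open Classical in
theorem sums (q : ℕ) [NeZero q] (χ : Ch q) (z : ℝ) (w : ℂ) (hw : 1 < w.re) :
    HasSum (fun n : ℕ => if rg z n then χ n * (n : ℂ) ^ (-w) else 0) (LFunction χ w * ez χ z w) ∧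
    HasSum (fun n : ℕ => if rg z n then (moebius n : ℂ) * χ n * (n : ℂ) ^ (-w) else 0)
      (LFunction χ w * ez χ z w)⁻¹ := by
  have : NeZero (q * ∏ p ∈ pz z, p) := ⟨mul_ne_zero (NeZero.ne q) (ne0 z)⟩
  have h1 : w ≠ 1 := fun h => by simp [h] at hw
  have h0 : -w ≠ 0 := fun h => by
    rw [neg_eq_zero.1 h] at hw
    norm_num at hw
  have e := LFunction_changeLevel (dvd_mul_right q (∏ p ∈ pz z, p)) χ (Or.inr h1)
  rw [Nat.primeFactors_mul (NeZero.ne q) (ne0 z), pf,
    ← prod_subset (subset_union_right (s₁ := q.primeFactors)) fun p hp hp' => by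
      have h2 := (mem_union.1 hp).resolve_right hp'
      rw [MulChar.map_nonunit _ (mt (ZMod.isUnit_prime_iff_not_dvd
        (Nat.prime_of_mem_primeFactors h2)).1 (not_not.2 (Nat.dvd_of_mem_primeFactors h2))),
        zero_mul, sub_zero], LFunction_eq_LSeries _ hw] at e
  have tm : ∀ (f : ℕ → ℂ) (n : ℕ), LSeries.term f w n = f n * (n : ℂ) ^ (-w) := fun f n => by
    rcases eq_or_ne n 0 with rfl | h
    · simp [h0]
    · rw [LSeries.term_of_ne_zero h, cpow_neg, div_eq_mul_inv]
  rw [ez, ← e]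
  constructor
  · refine (LSeriesSummable_of_one_lt_re _ hw).hasSum.congr_fun fun n => ?_
    rw [tm, lift, ite_mul, zero_mul]
  · rw [← eq_inv_of_mul_eq_one_right (LSeries.mul_mu_eq_one _ hw)]
    refine (DirichletCharacter.LSeriesSummable_mul _
      (LSeriesSummable_moebius_iff.2 hw)).hasSum.congr_fun fun n => ?_
    rw [tm, Pi.mul_apply, lift]
    split_ifs
    · ring
    · ring

theorem zeta_le {η : ℝ} (h : 0 < η) : ‖riemannZeta ((1 + η : ℝ) : ℂ)‖ ≤ 1 + 1 / η := by
  have b := Pool.Agent.MP_c5bf7b_nt.H38.BaseA.sum_rpow_le le_rfl h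
  simp only [Nat.cast_one, Real.one_rpow, mul_one] at b
  rw [zeta_eq_tsum_one_div_nat_add_one_cpow (by simpa using h)]
  refine (tsum_of_norm_bounded (summable_of_sum_range_le (fun _ => by positivity) b).hasSum
    fun n => le_of_eq ?_).trans (Real.tsum_le_of_sum_range_le (fun _ => by positivity) b)
  rw [one_div, ← cpow_neg, show (n : ℂ) + 1 = ((1 + n : ℕ) : ℂ) by push_cast; ring,
    norm_natCast_cpow_of_pos (by omega)]
  congr 1
  simp
  ring

theorem ez_le {η : ℝ} (h : 0 < η) (z : ℝ) : ‖ez (1 : Ch 1) z ((1 + η : ℝ) : ℂ)‖ ≤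
    Real.exp (η * ∑ p ∈ pz z, Real.log p / p - ∑ p ∈ pz z, (1 : ℝ) / p) := by
  rw [ez, norm_prod, mul_sum, ← sum_sub_distrib, Real.exp_sum]
  refine prod_le_prod (fun _ _ => norm_nonneg _) fun p hp => ?_
  have hp1 : (1 : ℝ) ≤ p := by exact_mod_cast (prime_of hp).one_le
  have hp0 : (0 : ℝ) < p := by positivity
  have a := Real.rpow_le_one_of_one_le_of_nonpos hp1 (show -(1 + η) ≤ 0 by linarith)
  rw [MulChar.one_apply (isUnit_of_subsingleton _), one_mul, ← ofReal_neg, ← ofReal_natCast,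
    ← ofReal_cpow hp0.le, ← ofReal_one, ← ofReal_sub, norm_real, Real.norm_of_nonneg (by linarith)]
  refine le_trans ?_ (Real.add_one_le_exp _)
  have b := Real.add_one_le_exp (Real.log p * -η)
  rw [neg_add, Real.rpow_add hp0, Real.rpow_neg_one, Real.rpow_def_of_pos hp0]
  have c := mul_le_mul_of_nonneg_left b (inv_pos.2 hp0).le
  rw [div_eq_mul_inv, one_div]
  linarith

end EuA

open EuA

theorem euOf : EuOf := by
  classical
  rintro ⟨D, hD, m1, -, m3⟩
  refine ⟨fun q _ χ z w _ hw => sums q χ z w hw, fun c hc hc' =>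
    ⟨(2 + 2 / c) * Real.exp (2 * D + 1), ?_, fun z hz => ?_⟩⟩
  · have := Real.add_one_le_exp (2 * D + 1)
    have : 0 < 2 / c := by positivity
    nlinarith
  have hl : 1 / 2 ≤ Real.log z := le_trans (by linarith [Real.log_two_gt_d9])
    (Real.log_le_log two_pos hz)
  have hl0 : 0 < Real.log z := by linarith
  generalize hη : c / (2 * Real.log z) = η
  have h0 : 0 < η := hη ▸ by positivity
  have h1 : η * Real.log z = c / 2 := by
    rw [← hη]
    field_simp
  have s := (hasSum_re (sums 1 1 z ((1 + η : ℝ) : ℂ) (by simpa using h0)).1).congr_fun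
    (g := fun n : ℕ => if rg z n then (n : ℝ) ^ (-(1 + η)) else 0) fun n => by
      split_ifs
      · rw [MulChar.one_apply (isUnit_of_subsingleton _), one_mul, ← ofReal_neg, ← ofReal_natCast,
          ← ofReal_cpow n.cast_nonneg, ofReal_re]
      · rfl
  refine ⟨s.summable, ?_⟩
  rw [s.tsum_eq, LFunction_modOne_eq]
  refine (re_le_norm _).trans ?_
  rw [norm_mul]
  have a := (abs_le.1 (m1 1 z le_rfl (by linarith)).1).2
  have b := (abs_le.1 (m3 z hz)).1
  rw [div_one] at a
  have e : ‖ez (1 : Ch 1) z ((1 + η : ℝ) : ℂ)‖ ≤ Real.exp (2 * D + 1) / Real.log z := by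
    refine (ez_le h0 z).trans ?_
    rw [← Real.exp_log hl0, ← Real.exp_sub, Real.exp_le_exp]
    have := mul_le_mul_of_nonneg_left a h0.le
    have : η * D ≤ 1 * D := mul_le_mul_of_nonneg_right (by nlinarith) (by linarith)
    rw [pz] at *
    nlinarith
  refine (mul_le_mul (zeta_le h0) e (norm_nonneg _) (by positivity)).trans ?_
  rw [← mul_div_assoc, mul_div_right_comm]
  refine mul_le_mul_of_nonneg_right ?_ (Real.exp_pos _).le
  rw [add_div, div_div, h1, one_div_div]
  exact add_le_add ((div_le_iff₀ hl0).2 (by linarith)) le_rfl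

end Pool.Agent.MP_20b2fd_nt.H38
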