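import Pool.Agent.MP_20b2fd_nt.H38.SpecZ

/-! Laplace transforms of smooth functions with compact support. -/

set_option autoImplicit false

namespace Pool.Agent.MP_20b2fd_nt.H38

open MeasureTheory Complex Filter Topology
open scoped Real FourierTransform

namespace FlA

variable {f : ℝ → ℝ} {R : ℝ}

theorem intg {E : Type} [NormedAddCommGroup E] {g : ℝ → E} (hg : Continuous g)
    (h0 : ∀ u, R < |u| → g u = 0) : Integrable g :=
  hg.integrable_of_hasCompactSupport (HasCompactSupport.intro (isCompact_Icc (a := -R) (b := R))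
    fun u hu => h0 u (by
      by_contra h
      exact hu (abs_le.1 (not_lt.1 h))))

theorem deriv_zero (h0 : ∀ u, R < |u| → f u = 0) (u : ℝ) (hu : R < |u|) : deriv f u = 0 := by
  have h1 : f =ᶠ[𝓝 u] fun _ => 0 :=
    Eventually.mono ((isOpen_lt continuous_const continuous_abs).mem_nhds hu) h0
  rw [h1.deriv_eq, deriv_const]

theorem intg_lap (hf : Continuous f) (h0 : ∀ u, R < |u| → f u = 0) (ζ : ℂ) :
    Integrable fun u : ℝ => (f u : ℂ) * exp (-ζ * u) :=
  intg (R := R) (by fun_prop) fun u hu => by rw [h0 u hu, ofReal_zero, zero_mul]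

theorem norm_lap (hf : Continuous f) (h0 : ∀ u, R < |u| → f u = 0) (b ξ : ℝ) :
    ‖lap f (b + ξ * I)‖ ≤ (∫ u, |f u|) * Real.exp (R * |b|) := by
  rw [← integral_mul_const]
  refine norm_integral_le_of_norm_le
    ((intg (R := R) hf.abs fun u hu => by rw [h0 u hu, abs_zero]).mul_const _)
    (ae_of_all _ fun u => ?_)
  rw [norm_mul, norm_real, Real.norm_eq_abs, norm_exp]
  by_cases hu : R < |u|
  · simp [h0 u hu]
  · refine mul_le_mul_of_nonneg_left (Real.exp_le_exp.2 ?_) (abs_nonneg _)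
    have e : (-((b : ℂ) + ξ * I) * u).re = -(b * u) := by simp
    rw [e]
    have h1 : -(b * u) ≤ |b| * |u| := by rw [← abs_mul]; exact neg_le_abs _
    nlinarith [not_lt.1 hu, abs_nonneg b]

theorem ibp (hf : ContDiff ℝ 1 f) (h0 : ∀ u, R < |u| → f u = 0) (ζ : ℂ) :
    ζ * lap f ζ = lap (deriv f) ζ := by
  have hd : Continuous (deriv f) := hf.continuous_deriv le_rfl
  have i1 := intg_lap hf.continuous h0 ζ
  have i2 := intg_lap hd (deriv_zero h0) ζ
  have h1 := integral_eq_zero_of_hasDerivAt_of_integrable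
    (f := fun u : ℝ => (f u : ℂ) * exp (-ζ * u))
    (f' := fun u : ℝ => ((deriv f u : ℝ) : ℂ) * exp (-ζ * u) - ζ * ((f u : ℂ) * exp (-ζ * u)))
    (fun u => by
      have a1 := ((hf.differentiable one_ne_zero) u).hasDerivAt.ofReal_comp
      have a2 : HasDerivAt (fun v : ℝ => exp (-ζ * v)) (exp (-ζ * u) * (-ζ * 1)) u :=
        (((hasDerivAt_id (u : ℂ)).const_mul (-ζ)).cexp).comp_ofReal
      exact (a1.mul a2).congr_deriv (by ring)) (i2.sub (i1.const_mul ζ)) i1
  rw [integral_sub i2 (i1.const_mul ζ), integral_const_mul, sub_eq_zero] at h1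
  exact h1.symm

theorem diff (hf : Continuous f) (h0 : ∀ u, R < |u| → f u = 0) : Differentiable ℂ (lap f) := by
  intro ζ
  refine (hasDerivAt_integral_of_dominated_loc_of_deriv_le
    (F := fun (z : ℂ) (u : ℝ) => (f u : ℂ) * exp (-z * u))
    (F' := fun (z : ℂ) (u : ℝ) => (f u : ℂ) * (exp (-z * u) * (-1 * u)))
    (bound := fun u => |f u| * (Real.exp ((‖ζ‖ + 1) * |u|) * |u|))
    (Metric.ball_mem_nhds ζ one_pos)
    (Eventually.of_forall fun z => (intg_lap hf h0 z).aestronglyMeasurable) (intg_lap hf h0 ζ)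
    (Continuous.aestronglyMeasurable (by fun_prop)) (ae_of_all _ fun u z hz => ?_)
    (intg (R := R) (by fun_prop) fun u hu => by rw [h0 u hu, abs_zero, zero_mul])
    (ae_of_all _ fun u z _ => ?_)).2.differentiableAt
  · rw [norm_mul, norm_mul, norm_mul, norm_real, norm_real, norm_neg, norm_one, one_mul,
      Real.norm_eq_abs, Real.norm_eq_abs]
    refine mul_le_mul_of_nonneg_left (mul_le_mul_of_nonneg_right
      ((norm_exp_le_exp_norm _).trans (Real.exp_le_exp.2 ?_)) (abs_nonneg _)) (abs_nonneg _)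
    rw [norm_mul, norm_neg, norm_real, Real.norm_eq_abs]
    refine mul_le_mul_of_nonneg_right ?_ (abs_nonneg _)
    have := mem_ball_iff_norm.1 hz
    linarith [norm_le_norm_add_norm_sub' z ζ]
  · exact (((hasDerivAt_id z).neg.mul_const (u : ℂ)).cexp).const_mul _

theorem decay (J : ℕ) : ∀ f : ℝ → ℝ, (∀ n : ℕ, ContDiff ℝ n f) → (∀ u, R < |u| → f u = 0) →
    ∃ C : ℝ, 1 ≤ C ∧ ∀ b ξ : ℝ,
      ‖lap f (b + ξ * I)‖ * (1 + |ξ|) ^ J ≤ C * Real.exp (R * |b|) := by
  induction J with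
  | zero =>
    intro f hf h0
    refine ⟨(∫ u, |f u|) + 1, le_add_of_nonneg_left (integral_nonneg fun u => abs_nonneg _),
      fun b ξ => ?_⟩
    have := norm_lap (hf 0).continuous h0 b ξ
    rw [pow_zero, mul_one, add_mul]
    linarith [Real.exp_pos (R * |b|)]
  | succ J ih =>
    intro f hf h0
    obtain ⟨C, c1, c2⟩ := ih f hf h0
    obtain ⟨C', d1, d2⟩ := ih (deriv f)
      (fun n => ContDiff.deriv' (by exact_mod_cast hf (n + 1))) (deriv_zero h0)
    refine ⟨C + C', by linarith, fun b ξ => ?_⟩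
    have h1 := d2 b ξ
    rw [← ibp (by exact_mod_cast hf 1) h0, norm_mul] at h1
    have h2 : |ξ| ≤ ‖(b : ℂ) + ξ * I‖ := by
      simpa using abs_im_le_norm ((b : ℂ) + ξ * I)
    have h3 : 0 ≤ ‖lap f (b + ξ * I)‖ * (1 + |ξ|) ^ J := by positivity
    have h4 := mul_le_mul_of_nonneg_right h2 h3
    rw [pow_succ]
    nlinarith [c2 b ξ]

theorem intg_line (hf : ∀ n : ℕ, ContDiff ℝ n f) (h0 : ∀ u, R < |u| → f u = 0) (b : ℝ) :
    Integrable fun ξ : ℝ => lap f (b + ξ * I) := by
  obtain ⟨C, c1, c2⟩ := decay 2 f hf h0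
  have hc := (diff (hf 0).continuous h0).continuous
  refine (integrable_inv_one_add_sq.const_mul (C * Real.exp (R * |b|))).mono'
    (Continuous.aestronglyMeasurable (by fun_prop)) (ae_of_all _ fun ξ => ?_)
  rw [← div_eq_mul_inv, le_div_iff₀ (by positivity)]
  refine le_trans (mul_le_mul_of_nonneg_left ?_ (norm_nonneg _)) (c2 b ξ)
  rw [← sq_abs ξ]
  nlinarith [abs_nonneg ξ]

theorem four (b w : ℝ) : 𝓕 (fun u : ℝ => (f u : ℂ) * exp (-(b : ℂ) * u)) w =
    lap f (b + (2 * π * w : ℝ) * I) := by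
  rw [Real.fourier_real_eq_integral_exp_smul]
  refine integral_congr_ae (ae_of_all _ fun u => ?_)
  dsimp only
  rw [smul_eq_mul, mul_left_comm, ← Complex.exp_add]
  congr 2
  push_cast
  ring

theorem inv (hf : ∀ n : ℕ, ContDiff ℝ n f) (h0 : ∀ u, R < |u| → f u = 0) (b u : ℝ) :
    (f u : ℂ) = 1 / (2 * π) * ∫ ξ : ℝ, lap f (b + ξ * I) * exp ((b + ξ * I) * u) := by
  have hc := (hf 0).continuous
  have hp : (0 : ℝ) < 2 * π := by positivity
  have h1 : Integrable (𝓕 fun u : ℝ => (f u : ℂ) * exp (-(b : ℂ) * u)) := by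
    rw [funext (four b)]
    exact (intg_line hf h0 b).comp_mul_left' hp.ne'
  have h2 := congrFun (Continuous.fourierInv_fourier_eq (by fun_prop) (intg_lap hc h0 b) h1) u
  rw [Real.fourierInv_eq_fourier_neg, Real.fourier_real_eq_integral_exp_smul] at h2
  have h3 := Measure.integral_comp_mul_left
    (fun ξ : ℝ => lap f (b + ξ * I) * exp ((b + ξ * I) * u)) (2 * π)
  rw [abs_of_pos (inv_pos.2 hp), real_smul] at h3
  have h4 : (f u : ℂ) = (f u : ℂ) * exp (-(b : ℂ) * u) * exp ((b : ℂ) * u) := by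
    rw [mul_assoc, ← Complex.exp_add]
    simp
  rw [h4, ← h2, ← integral_mul_const, one_div, show (2 * (π : ℂ))⁻¹ = ((2 * π)⁻¹ : ℝ) by simp,
    ← h3]
  refine integral_congr_ae (ae_of_all _ fun v => ?_)
  dsimp only
  rw [four, smul_eq_mul, mul_comm (exp _), mul_assoc, ← Complex.exp_add]
  congr 2
  push_cast
  ring

end FlA

open FlA in
theorem fl : FlS := by
  intro f R _ hf h0
  refine ⟨diff (hf 0).continuous h0, fun J => ?_, fun b u => ⟨?_, inv hf h0 b u⟩⟩
  · obtain ⟨C, c1, c2⟩ := decay J f hf h0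
    exact ⟨C, c1, fun b ξ => (le_div_iff₀ (by positivity)).2 (c2 b ξ)⟩
  · refine (intg_line hf h0 b).mul_bdd (c := Real.exp (b * u))
      (Continuous.aestronglyMeasurable (by fun_prop)) (ae_of_all _ fun ξ => le_of_eq ?_)
    rw [norm_exp]
    simp

end Pool.Agent.MP_20b2fd_nt.H38
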