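import Pool.Agent.MP_20b2fd_nt.H38.SpecZ

/-! Smooth sums of periodic sequences. -/

set_option autoImplicit false

namespace Pool.Agent.MP_20b2fd_nt.H38

open MeasureTheory Complex Finset
open scoped Real

namespace Ls0A

theorem abel (a : ℕ → ℂ) (m : ℂ) (f f' : ℝ → ℂ) {A B K D : ℝ} (hA : 0 < A) (hB : A ≤ B)
    (hK : 0 ≤ K) (hD : 0 ≤ D) (hd : ∀ t ∈ Set.Icc A B, HasDerivAt f (f' t) t)
    (hc : ContinuousOn f' (Set.Icc A B)) (h1 : f A = 0) (h2 : f B = 0)
    (hb : ∀ t ∈ Set.Icc A B, ‖f' t‖ ≤ K / t ^ 2)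
    (hS : ∀ t : ℝ, 0 ≤ t → ‖∑ k ∈ Icc 0 ⌊t⌋₊, a k - m * t‖ ≤ D) :
    ‖∑ k ∈ Ioc ⌊A⌋₊ ⌊B⌋₊, f k * a k - m * ∫ t in A..B, f t‖ ≤ D * K / A := by
  have hi : IntegrableOn f' (Set.Icc A B) := hc.integrableOn_Icc
  have hi' : IntervalIntegrable f' volume A B := (intervalIntegrable_iff_integrableOn_Icc_of_le hB).2 hi
  have e1 := sum_mul_eq_sub_sub_integral_mul a hA.le hB (fun t ht => (hd t ht).differentiableAt)
    (hi.congr_fun (fun t ht => (hd t ht).deriv.symm) measurableSet_Icc)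
  rw [setIntegral_congr_fun (g := fun t => f' t * ∑ k ∈ Icc 0 ⌊t⌋₊, a k) measurableSet_Ioc
    fun t ht => by simp only [(hd t (Set.Ioc_subset_Icc_self ht)).deriv],
    ← intervalIntegral.integral_of_le hB] at e1
  have e2 := intervalIntegral.integral_mul_deriv_eq_deriv_mul (u := f) (u' := f')
    (v := fun t : ℝ => (t : ℂ)) (v' := fun _ => 1) (a := A) (b := B)
    (fun t ht => hd t (by rwa [Set.uIcc_of_le hB] at ht)) (fun t _ => ofRealCLM.hasDerivAt) hi'
    intervalIntegrable_const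
  simp only [mul_one, h1, h2, zero_mul, sub_zero, zero_sub] at e1 e2
  have i1 : IntervalIntegrable (fun t => f' t * ∑ k ∈ Icc 0 ⌊t⌋₊, a k) volume A B :=
    (intervalIntegrable_iff_integrableOn_Icc_of_le hB).2 (integrableOn_mul_sum_Icc a hA.le hi)
  have i2 : IntervalIntegrable (fun t : ℝ => m * (f' t * t)) volume A B :=
    (hi'.mul_continuousOn continuous_ofReal.continuousOn).const_mul m
  have h3 : ∀ t ∈ Set.uIcc A B, HasDerivAt (fun t : ℝ => -(D * K) * t⁻¹) (D * K / t ^ 2) t :=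
    fun t ht => by
      rw [Set.uIcc_of_le hB] at ht
      exact ((hasDerivAt_inv (hA.trans_le ht.1).ne').const_mul (-(D * K))).congr_deriv (by ring)
  have i3 : IntervalIntegrable (fun t : ℝ => D * K / t ^ 2) volume A B := by
    refine (continuousOn_const.div (by fun_prop) fun t ht => ?_).intervalIntegrable
    rw [Set.uIcc_of_le hB] at ht
    exact pow_ne_zero _ (hA.trans_le ht.1).ne'
  rw [e1, e2, mul_neg, neg_sub_neg, ← intervalIntegral.integral_const_mul,
    ← intervalIntegral.integral_sub i2 i1]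
  refine (intervalIntegral.norm_integral_le_of_norm_le hB (ae_of_all _ fun t ht => ?_) i3).trans ?_
  · rw [mul_left_comm, ← mul_sub, norm_mul, norm_sub_rev, mul_comm, mul_div_assoc]
    exact mul_le_mul (hS t (hA.trans ht.1).le) (hb t (Set.Ioc_subset_Icc_self ht)) (norm_nonneg _) hD
  · rw [intervalIntegral.integral_eq_sub_of_hasDerivAt h3 i3, div_eq_mul_inv]
    have : 0 ≤ D * K * B⁻¹ := mul_nonneg (mul_nonneg hD hK) (inv_nonneg.2 (hA.le.trans hB))
    linarith

theorem mean_le {a : ℕ → ℂ} {Q : ℕ} (hQ : 1 ≤ Q) (hb : ∀ n, ‖a n‖ ≤ 1) :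
    ‖(∑ n ∈ range Q, a n) / Q‖ ≤ 1 := by
  rw [norm_div, norm_natCast, div_le_one (by exact_mod_cast hQ)]
  simpa using (norm_sum_le _ _).trans (sum_le_sum (s := range Q) fun n _ => hb n)

theorem per {a : ℕ → ℂ} {Q : ℕ} (hQ : 1 ≤ Q) (hp : ∀ n, a (n + Q) = a n) (hb : ∀ n, ‖a n‖ ≤ 1)
    (N : ℕ) : ‖∑ k ∈ range N, a k - (∑ n ∈ range Q, a n) / Q * N‖ ≤ 2 * Q := by
  induction N using Nat.strong_induction_on with
  | _ N ih =>
    rcases lt_or_ge N Q with h | h
    · have h1 : ‖∑ k ∈ range N, a k‖ ≤ N := by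
        simpa using (norm_sum_le _ _).trans (sum_le_sum (s := range N) fun n _ => hb n)
      have h2 : (N : ℝ) ≤ Q := by exact_mod_cast h.le
      have h3 := mul_le_mul_of_nonneg_right (mean_le hQ hb) (Nat.cast_nonneg (α := ℝ) N)
      refine (norm_sub_le _ _).trans ?_
      rw [norm_mul, norm_natCast]
      linarith
    · obtain ⟨k, rfl⟩ := Nat.exists_eq_add_of_le h
      have hQ' : (Q : ℂ) ≠ 0 := by exact_mod_cast (by omega : Q ≠ 0)
      refine le_of_eq_of_le (congrArg norm ?_) (ih k (by omega))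
      rw [sum_range_add]
      simp only [add_comm Q, hp]
      push_cast
      field_simp
      ring

theorem per' {a : ℕ → ℂ} {Q : ℕ} (hQ : 1 ≤ Q) (hp : ∀ n, a (n + Q) = a n) (hb : ∀ n, ‖a n‖ ≤ 1)
    (t : ℝ) (ht : 0 ≤ t) : ‖∑ k ∈ Icc 0 ⌊t⌋₊, a k - (∑ n ∈ range Q, a n) / Q * t‖ ≤ 3 * Q := by
  have h1 := per hQ hp hb (⌊t⌋₊ + 1)
  have h2 : ‖(∑ n ∈ range Q, a n) / Q * (((⌊t⌋₊ + 1 : ℕ) : ℂ) - t)‖ ≤ 1 * 1 := by
    rw [norm_mul]
    refine mul_le_mul (mean_le hQ hb) ?_ (norm_nonneg _) zero_le_one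
    rw [← ofReal_natCast, ← ofReal_sub, norm_real, Real.norm_eq_abs, abs_le]
    push_cast
    constructor <;> linarith [Nat.floor_le ht, Nat.lt_floor_add_one t]
  have h3 : (1 : ℝ) ≤ Q := by exact_mod_cast hQ
  rw [← Nat.range_succ_eq_Icc_zero]
  refine le_trans (le_of_eq_of_le (congrArg norm (by ring)) (norm_add_le_of_le h1 h2)) (by linarith)

theorem gb_zero {v : ℝ} (h : v ≤ 1 / 2 ∨ 22 ≤ v) : gb v = 0 := by
  refine gb.zero_of_le_dist ?_
  rw [Real.dist_eq, le_abs]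
  change (21 / 2 : ℝ) ≤ _ ∨ (21 / 2 : ℝ) ≤ _
  rcases h with h | h
  · exact Or.inr (by linarith)
  · exact Or.inl (by linarith)

/-- the smooth weight -/
noncomputable def ff (L u t : ℝ) : ℂ := (gb (Real.log t / L) : ℝ) * exp ((-1 + u * I) * Real.log t)

/-- its derivative -/
noncomputable def fd (L u t : ℝ) : ℂ :=
  ((deriv gb (Real.log t / L) / L : ℝ) + (gb (Real.log t / L) : ℝ) * (-1 + u * I)) *
    exp ((-1 + u * I) * Real.log t) * (t⁻¹ : ℝ)

theorem gb_diff : ContDiff ℝ 1 gb := gb.contDiff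

theorem ff_deriv (L u : ℝ) {t : ℝ} (ht : 0 < t) : HasDerivAt (ff L u) (fd L u t) t := by
  have h1 := Real.hasDerivAt_log ht.ne'
  have h2 := ((gb_diff.differentiable one_ne_zero (Real.log t / L)).hasDerivAt.comp t
    (h1.div_const L)).ofReal_comp
  have h3 := (h1.ofReal_comp.const_mul (-1 + u * I)).cexp
  refine (h2.fun_mul h3).congr_deriv ?_
  simp only [fd, Function.comp]
  push_cast
  ring

theorem ex_norm (u : ℝ) {t : ℝ} (ht : 0 < t) : ‖exp ((-1 + u * I) * Real.log t)‖ = t⁻¹ := by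
  rw [norm_exp, ← Real.exp_log (inv_pos.2 ht), Real.log_inv]
  simp

theorem fd_cont (L u : ℝ) {A B : ℝ} (hA : 0 < A) : ContinuousOn (fd L u) (Set.Icc A B) := by
  have h0 : ∀ t ∈ Set.Icc A B, t ≠ 0 := fun t ht => (hA.trans_le ht.1).ne'
  have h1 : ContinuousOn Real.log (Set.Icc A B) := Real.continuousOn_log.mono h0
  have h2 := gb_diff.continuous_deriv le_rfl
  have h3 := gb_diff.continuous
  unfold fd
  fun_prop (disch := assumption)

theorem fd_le {K L : ℝ} (hK : ∀ v, ‖deriv gb v‖ ≤ K) (hL : 1 ≤ L) (u : ℝ) {t : ℝ} (ht : 0 < t) :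
    ‖fd L u t‖ ≤ (K + 1) * (1 + |u|) / t ^ 2 := by
  have hK0 : 0 ≤ K := (norm_nonneg _).trans (hK 0)
  have h1 : ‖((deriv gb (Real.log t / L) / L : ℝ) : ℂ)‖ ≤ K := by
    rw [norm_real, norm_div, Real.norm_of_nonneg (zero_le_one.trans hL)]
    exact (div_le_self (norm_nonneg _) hL).trans (hK _)
  have h2 : ‖((gb (Real.log t / L) : ℝ) : ℂ) * (-1 + u * I)‖ ≤ 1 * (1 + |u|) := by
    rw [norm_mul, norm_real, Real.norm_of_nonneg gb.nonneg]
    refine mul_le_mul gb.le_one ((norm_add_le _ _).trans_eq ?_) (norm_nonneg _) zero_le_one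
    simp
  rw [fd, norm_mul, norm_mul, ex_norm u ht, norm_real, Real.norm_of_nonneg (inv_pos.2 ht).le,
    mul_assoc, ← pow_two, inv_pow, div_eq_mul_inv]
  refine mul_le_mul_of_nonneg_right ((norm_add_le_of_le h1 h2).trans ?_) (by positivity)
  nlinarith [mul_nonneg hK0 (abs_nonneg u)]

theorem ff_int {L B : ℝ} (hL : 1 ≤ L) (u : ℝ) (hB : Real.exp (22 * L) ≤ B) :
    ∫ t in Real.exp (L / 2)..B, ff L u t = L * lap gb ((-L * u : ℝ) * I) := by
  have hL0 : 0 < L := zero_lt_one.trans_le hL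
  have h0 : ∀ t ∈ Set.uIcc (Real.exp (L / 2)) B, 0 < t := fun t ht =>
    (lt_min (Real.exp_pos _) ((Real.exp_pos _).trans_le hB)).trans_le ht.1
  have h3 := gb_diff.continuous
  have e := intervalIntegral.integral_deriv_smul_comp (f := fun t => Real.log t / L)
    (f' := fun t => t⁻¹ / L) (g := fun v => (gb v : ℂ) * exp (-((-L * u : ℝ) * I) * v))
    (a := Real.exp (L / 2)) (b := B) (fun t ht => (Real.hasDerivAt_log (h0 t ht).ne').div_const L)
    ((continuousOn_inv₀.mono fun t ht => (h0 t ht).ne').div_const L) (by fun_prop)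
  rw [intervalIntegral.integral_eq_integral_of_support_subset
    (f := fun v : ℝ => (gb v : ℂ) * exp (-((-L * u : ℝ) * I) * v))] at e
  · rw [lap, ← e, ← intervalIntegral.integral_const_mul]
    refine intervalIntegral.integral_congr fun t ht => ?_
    have h4 : (L : ℂ) ≠ 0 := ofReal_ne_zero.2 hL0.ne'
    have h5 : exp (-1 * (Real.log t : ℂ)) = (t⁻¹ : ℝ) := by
      rw [← Real.exp_log (inv_pos.2 (h0 t ht)), Real.log_inv, ofReal_exp, ofReal_neg, neg_one_mul]
    have h6 : -(((-L * u : ℝ) : ℂ) * I) * (Real.log t / L : ℝ) = u * I * Real.log t := by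
      rw [ofReal_div, ofReal_mul, ofReal_neg]
      field_simp
    simp only [ff, Function.comp, real_smul]
    rw [add_mul, exp_add, h5, h6, ofReal_div]
    field_simp
  · intro v hv
    by_contra h
    refine hv (by
      beta_reduce
      rw [gb_zero, ofReal_zero, zero_mul]
      rcases not_and_or.1 h with h | h
      · rw [Real.log_exp, div_right_comm, div_self hL0.ne'] at h
        exact Or.inl (not_lt.1 h)
      · refine Or.inr (le_trans ?_ (not_le.1 h).le)
        rw [le_div_iff₀ hL0, Real.le_log_iff_exp_le ((Real.exp_pos _).trans_le hB)]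
        exact hB)

end Ls0A

open Ls0A in
theorem ls0Of : Ls0Of := by
  intro hF
  obtain ⟨-, -, h3⟩ := hF gb 22 (by norm_num) (fun n => gb.contDiff) fun v hv => gb_zero (by
    rcases lt_abs.1 hv with h | h
    · exact Or.inr h.le
    · exact Or.inl (by linarith))
  have hI : Integrable fun ξ : ℝ => lap gb (ξ * I) := by simpa using (h3 0 0).1
  obtain ⟨K, hK⟩ := gb.hasCompactSupport.deriv.exists_bound_of_continuous
    (gb_diff.continuous_deriv le_rfl)
  have hK0 : 0 ≤ K := (norm_nonneg _).trans (hK 0)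
  have hJ : 0 ≤ ∫ ξ : ℝ, ‖lap gb (ξ * I)‖ := integral_nonneg fun _ => norm_nonneg _
  refine ⟨3 * (K + 1) + ∫ ξ : ℝ, ‖lap gb (ξ * I)‖, by linarith, fun L hL =>
    ⟨fun u => L * lap gb ((-L * u : ℝ) * I), ?_, ?_, fun a Q M u hQ hp hb hM => ?_⟩⟩
  · exact (hI.comp_mul_left' (R := -L) (by linarith)).const_mul _
  · have hL0 : 0 < L := zero_lt_one.trans_le hL
    simp only [norm_mul, norm_real, Real.norm_of_nonneg hL0.le]
    rw [integral_const_mul, Measure.integral_comp_mul_left (fun ξ : ℝ => ‖lap gb (ξ * I)‖), abs_inv,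
      abs_neg, abs_of_pos hL0, smul_eq_mul, mul_inv_cancel_left₀ hL0.ne']
    linarith
  · have hL0 : 0 < L := zero_lt_one.trans_le hL
    have hA := Real.exp_pos (L / 2)
    have hz : ∀ t : ℝ, 0 < t → t ≤ Real.exp (L / 2) → ff L u t = 0 := fun t h0 ht => by
      rw [ff, gb_zero (Or.inl _), ofReal_zero, zero_mul]
      rw [div_le_iff₀ hL0, Real.log_le_iff_le_exp h0]
      exact ht.trans_eq (congrArg _ (by ring))
    have key := abel a _ (ff L u) (fd L u) hA ((Real.exp_le_exp.2 (by linarith)).trans hM)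
      (by positivity) (by positivity) (fun t ht => ff_deriv L u (hA.trans_le ht.1)) (fd_cont L u hA)
      (hz _ hA le_rfl) (by
        rw [ff, gb_zero (Or.inr _), ofReal_zero, zero_mul]
        rwa [le_div_iff₀ hL0, Real.le_log_iff_exp_le ((Real.exp_pos _).trans_le hM)])
      (fun t ht => fd_le hK hL u (hA.trans_le ht.1)) (per' hQ hp hb)
    rw [ff_int hL u hM, Nat.floor_natCast, sum_subset (s₂ := Icc 1 M)
      (fun k hk => mem_Icc.2 ⟨by have := (mem_Ioc.1 hk).1; omega, (mem_Ioc.1 hk).2⟩)] at key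
    · refine le_of_eq_of_le (congrArg norm (congrArg (· - _) (sum_congr rfl fun k hk => ?_)))
        (key.trans ?_)
      · have h0 : k ≠ 0 := by have := (mem_Icc.1 hk).1; omega
        rw [ff, cpow_def_of_ne_zero (Nat.cast_ne_zero.2 h0), ← natCast_log, mul_comm (Real.log k : ℂ)]
        ring
      · rw [neg_div, Real.exp_neg, div_eq_mul_inv]
        refine mul_le_mul_of_nonneg_right ?_ (inv_pos.2 hA).le
        have : 0 ≤ (∫ ξ : ℝ, ‖lap gb (ξ * I)‖) * Q * (1 + |u|) := by positivity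
        linarith
    · intro k hk hk'
      rw [hz k (by exact_mod_cast (mem_Icc.1 hk).1), zero_mul]
      refine (Nat.le_floor_iff hA.le).1 (not_lt.1 fun h => hk' (mem_Ioc.2 ⟨h, (mem_Icc.1 hk).2⟩))

end Pool.Agent.MP_20b2fd_nt.H38
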