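import Pool.Agent.MP_20b2fd_nt.H38.SpecZ
import Pool.Agent.MP_c5bf7b_nt.H38.SelR

/-! Quasi-orthogonality of primitive characters against a sieve weight. -/

set_option autoImplicit false

namespace Pool.Agent.MP_20b2fd_nt.H38

open MeasureTheory Complex Finset DirichletCharacter
open Pool.Agent.MP_c5bf7b_nt.H38 (Ch Sel sel)

namespace Ls1A

theorem per_mul {a : ℕ → ℂ} {Q : ℕ} (h : ∀ n, a (n + Q) = a n) (k n : ℕ) :
    a (n + Q * k) = a n := by
  induction k with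
  | zero => rfl
  | succ k ih => rw [Nat.mul_succ, ← add_assoc, h, ih]

theorem sum_per {a : ℕ → ℂ} {Q : ℕ} (h : ∀ n, a (n + Q) = a n) (k : ℕ) :
    ∑ n ∈ range (Q * k), a n = k * ∑ n ∈ range Q, a n := by
  induction k with
  | zero => simp
  | succ k ih =>
    rw [Nat.mul_succ, sum_range_add, ih]
    simp only [add_comm (Q * k), per_mul h]
    push_cast
    ring

theorem sum_dvd {M : Type*} [AddCommMonoid M] (f : ℕ → M) {l : ℕ} (hl : 0 < l) (R : ℕ) :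
    ∑ n ∈ range (l * R), (if l ∣ n then f n else 0) = ∑ m ∈ range R, f (l * m) := by
  rw [← sum_filter]
  refine (sum_bij (fun m _ => l * m) (fun m hm => ?_) (fun a _ b _ h => ?_) ?_ fun _ _ => rfl).symm
  · exact mem_filter.2 ⟨mem_range.2 (Nat.mul_lt_mul_of_pos_left (mem_range.1 hm) hl), m, rfl⟩
  · exact Nat.eq_of_mul_eq_mul_left hl h
  · intro n hn
    obtain ⟨h1, m, rfl⟩ := mem_filter.1 hn
    exact ⟨m, mem_range.2 (Nat.lt_of_mul_lt_mul_left (mem_range.1 h1)), rfl⟩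

/-- the sieve weight -/
def nu (N : ℕ) (θ : ℕ → ℝ) (n : ℕ) : ℝ := (∑ d ∈ Icc 1 N, if d ∣ n then θ d else 0) ^ 2

theorem nu_eq (N : ℕ) (θ : ℕ → ℝ) (n : ℕ) : nu N θ n =
    ∑ d ∈ Icc 1 N, ∑ e ∈ Icc 1 N, θ d * θ e * if d.lcm e ∣ n then 1 else 0 := by
  rw [nu, sq, sum_mul_sum]
  refine sum_congr rfl fun d _ => sum_congr rfl fun e _ => ?_
  by_cases h1 : d ∣ n <;> by_cases h2 : e ∣ n <;> simp [h1, h2, Nat.lcm_dvd_iff]

theorem nu_mul (N : ℕ) (θ : ℕ → ℝ) (f : ℕ → ℂ) (n : ℕ) : (nu N θ n : ℂ) * f n =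
    ∑ d ∈ Icc 1 N, ∑ e ∈ Icc 1 N, ((θ d * θ e : ℝ) : ℂ) * if d.lcm e ∣ n then f n else 0 := by
  rw [nu_eq]
  push_cast
  simp only [sum_mul]
  refine sum_congr rfl fun d _ => sum_congr rfl fun e _ => ?_
  split_ifs <;> simp

theorem lcm_fac {N d e : ℕ} (hd : d ∈ Icc 1 N) (he : e ∈ Icc 1 N) :
    0 < d.lcm e ∧ d.lcm e ≤ N * N ∧ d.lcm e ∣ N.factorial := by
  obtain ⟨d1, d2⟩ := mem_Icc.1 hd
  obtain ⟨e1, e2⟩ := mem_Icc.1 he
  exact ⟨Nat.lcm_pos d1 e1, (Nat.le_of_dvd (Nat.mul_pos d1 e1) (Nat.lcm_dvd_mul d e)).trans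
    (Nat.mul_le_mul d2 e2), Nat.lcm_dvd (Nat.dvd_factorial d1 d2) (Nat.dvd_factorial e1 e2)⟩

theorem mean_nu (N R : ℕ) (hR : 0 < R) (θ : ℕ → ℝ) :
    (∑ n ∈ range (N.factorial * R), nu N θ n) / (N.factorial * R : ℕ) =
      ∑ d ∈ Icc 1 N, ∑ e ∈ Icc 1 N, θ d * θ e / (d.lcm e : ℝ) := by
  simp only [nu_eq]
  rw [sum_comm, sum_div]
  refine sum_congr rfl fun d hd => ?_
  rw [sum_comm, sum_div]
  refine sum_congr rfl fun e he => ?_
  obtain ⟨h1, -, k, hk⟩ := lcm_fac hd he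
  have k0 : k ≠ 0 := fun h => N.factorial_ne_zero (by rw [hk, h, mul_zero])
  rw [← mul_sum, hk, mul_assoc (d.lcm e), sum_dvd (fun _ => (1 : ℝ)) h1]
  have : (d.lcm e : ℝ) ≠ 0 := by positivity
  simp only [sum_const, card_range, nsmul_eq_mul]
  push_cast
  field_simp

theorem mean_zero (N R : ℕ) (θ : ℕ → ℝ) {f : ℕ → ℂ} (hp : ∀ n, f (n + R) = f n)
    (hm : ∀ a b, f (a * b) = f a * f b) (h0 : ∑ n ∈ range R, f n = 0) :
    ∑ n ∈ range (N.factorial * R), (nu N θ n : ℂ) * f n = 0 := by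
  simp only [nu_mul]
  rw [sum_comm]
  refine sum_eq_zero fun d hd => ?_
  rw [sum_comm]
  refine sum_eq_zero fun e he => ?_
  obtain ⟨h1, -, k, hk⟩ := lcm_fac hd he
  rw [← mul_sum, hk, mul_assoc (d.lcm e), sum_dvd f h1]
  simp only [hm]
  rw [← mul_sum, mul_comm k, sum_per hp, h0]
  simp

theorem approx {N R M : ℕ} (hR : 0 < R) {θ : ℕ → ℝ} (hθ : ∀ d, |θ d| ≤ 1) {f w : ℕ → ℂ}
    (hp : ∀ n, f (n + R) = f n) (hf : ∀ n, ‖f n‖ ≤ 1) {g : ℂ} {E : ℝ} (hE : 0 ≤ E)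
    (H : ∀ (a : ℕ → ℂ) (Q : ℕ), 1 ≤ Q → (∀ n, a (n + Q) = a n) → (∀ n, ‖a n‖ ≤ 1) →
      ‖∑ n ∈ Icc 1 M, a n * w n - (∑ n ∈ range Q, a n) / Q * g‖ ≤ Q * E) :
    ‖∑ n ∈ Icc 1 M, (nu N θ n : ℂ) * f n * w n -
      (∑ n ∈ range (N.factorial * R), (nu N θ n : ℂ) * f n) / (N.factorial * R : ℕ) * g‖ ≤
      N ^ 4 * R * E := by
  simp only [nu_mul, sum_mul]
  rw [sum_comm, sum_comm (s := range _), sum_div, sum_mul, ← sum_sub_distrib]
  refine (norm_sum_le_of_le (n := fun _ => (N : ℝ) ^ 3 * R * E) _ fun d hd => ?_).trans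
    (by simp; ring_nf; rfl)
  rw [sum_comm, sum_comm (s := range _), sum_div, sum_mul, ← sum_sub_distrib]
  refine (norm_sum_le_of_le (n := fun _ => (N : ℝ) ^ 2 * R * E) _ fun e he => ?_).trans
    (by simp; ring_nf; rfl)
  obtain ⟨h1, h2, k, hk⟩ := lcm_fac hd he
  have k0 : k ≠ 0 := fun h => N.factorial_ne_zero (by rw [hk, h, mul_zero])
  have pa : ∀ n, (fun n => if d.lcm e ∣ n then f n else 0) (n + d.lcm e * R) =
      (fun n => if d.lcm e ∣ n then f n else 0) n := fun n => by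
    simp only [← Nat.dvd_add_iff_left (Nat.dvd_mul_right _ R)]
    rw [mul_comm, per_mul hp]
  have h3 := H (fun n => if d.lcm e ∣ n then f n else 0) _ (Nat.mul_pos h1 hR) pa fun n => by
    split_ifs
    · exact hf n
    · simp
  have h4 : (∑ n ∈ range (N.factorial * R), if d.lcm e ∣ n then f n else 0) /
      ((N.factorial * R : ℕ) : ℂ) =
      (∑ n ∈ range (d.lcm e * R), if d.lcm e ∣ n then f n else 0) / ((d.lcm e * R : ℕ) : ℂ) := by
    rw [hk, mul_right_comm, sum_per (a := fun n => if d.lcm e ∣ n then f n else 0) pa, Nat.cast_mul _ k, mul_comm (k : ℂ),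
      mul_div_mul_right _ _ (Nat.cast_ne_zero.2 k0)]
  simp only [mul_assoc]
  rw [← mul_sum, ← mul_sum, mul_div_assoc, h4, mul_assoc, ← mul_sub, norm_mul, norm_real,
    Real.norm_eq_abs, abs_mul]
  refine (mul_le_mul (mul_le_one₀ (hθ d) (abs_nonneg _) (hθ e)) h3 (norm_nonneg _)
    zero_le_one).trans ?_
  have : (d.lcm e : ℝ) ≤ N ^ 2 := by exact_mod_cast sq N ▸ h2
  push_cast
  rw [one_mul, mul_assoc]
  gcongr

theorem orth {x y : CC} (hx : x.2.IsPrimitive) (hy : y.2.IsPrimitive) (h : x ≠ y) :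
    ∑ n ∈ range ((x.1 + 1) * (y.1 + 1)), x.2 n * (starRingEnd ℂ) (y.2 n) = 0 := by
  obtain ⟨i, χ⟩ := x
  obtain ⟨j, ψ⟩ := y
  have d1 := Nat.dvd_mul_right (i + 1) (j + 1)
  have d2 := Nat.dvd_mul_left (j + 1) (i + 1)
  have ne : changeLevel d1 χ * (changeLevel d2 ψ)⁻¹ ≠ 1 := fun e => h (by
    have h3 := mul_inv_eq_one.1 e
    have h4 := congrArg conductor h3
    rw [conductor_changeLevel, conductor_changeLevel, hx, hy] at h4
    obtain rfl : i = j := Nat.succ_injective h4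
    exact congrArg _ (changeLevel_injective _ h3))
  rw [← MulChar.sum_eq_zero_of_ne_one ne]
  refine sum_bij (fun n _ => (n : ZMod ((i + 1) * (j + 1)))) (fun _ _ => mem_univ _)
    (fun a ha b hb e => ?_) (fun b _ => ⟨b.val, mem_range.2 b.val_lt, by simp⟩) fun n _ => ?_
  · have := congrArg ZMod.val e
    rwa [ZMod.val_cast_of_lt (mem_range.1 ha), ZMod.val_cast_of_lt (mem_range.1 hb)] at this
  · rw [starRingEnd_apply, MulChar.star_apply']
    by_cases c : n.Coprime ((i + 1) * (j + 1))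
    · have c' := Nat.isCoprime_iff_coprime.2 c
      have a := changeLevel_eq_cast_of_dvd' χ d1 c'
      have b := changeLevel_eq_cast_of_dvd' ψ⁻¹ d2 c'
      simp only [Int.cast_natCast] at a b
      rw [MulChar.mul_apply, ← map_inv, a, b]
    · rw [MulChar.map_nonunit _ (mt (ZMod.isUnit_iff_coprime _ _).1 c)]
      rcases not_and_or.1 (mt Nat.coprime_mul_iff_right.2 c) with c | c
      · rw [MulChar.map_nonunit _ (mt (ZMod.isUnit_iff_coprime _ _).1 c), zero_mul]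
      · rw [MulChar.map_nonunit ψ⁻¹ (mt (ZMod.isUnit_iff_coprime _ _).1 c), mul_zero]

end Ls1A

open Ls1A in
theorem ls1Of : Ls1Of := by
  rintro ⟨C, hC, H⟩
  refine ⟨3 * C, by linarith, fun z L M hz hL hM => ?_⟩
  have z0 : 0 < z := by linarith
  have l0 : 0 < Real.log z := Real.log_pos (by linarith)
  have l1 : 1 / 2 ≤ Real.log z :=
    le_trans (by linarith [Real.log_two_gt_d9]) (Real.log_le_log two_pos hz)
  obtain ⟨G, G1, G2, G3⟩ := H L (by linarith)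
  obtain ⟨θ, hθ⟩ := sel 1 z le_rfl hz
  have hN : (⌊z⌋₊ : ℝ) ≤ z := Nat.floor_le z0.le
  refine ⟨nu ⌊z⌋₊ θ, fun u => ‖G u‖ / Real.log z, fun n => sq_nonneg _, fun t ht hz' => ?_,
    fun u => by positivity, G1.norm.div_const _, ?_, fun x hx y hy u hu => ?_⟩
  · rw [nu, sum_eq_single_of_mem 1 (mem_Icc.2 ⟨le_rfl, Nat.le_floor (by simp; linarith)⟩),
      if_pos (one_dvd t), hθ.one, one_pow]
    refine fun d hd d1 => if_neg fun h => ?_
    rcases (Nat.dvd_prime ht).1 h with h | rfl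
    · exact d1 h
    · have : (d : ℝ) ≤ ⌊z⌋₊ := by exact_mod_cast (mem_Icc.1 hd).2
      linarith
  · rw [integral_div]
    gcongr
    linarith
  have mem : ∀ x ∈ pcs z, ((x.1 + 1 : ℕ) : ℝ) ≤ z ∧ x.2.IsPrimitive := fun x hx => by
    simp only [pcs, mem_sigma, mem_range, mem_filter] at hx
    exact ⟨le_trans (by exact_mod_cast hx.1) hN, hx.2.2⟩
  set f : ℕ → ℂ := fun n => x.2 n * (starRingEnd ℂ) (y.2 n) with hf
  have R0 : 0 < (x.1 + 1) * (y.1 + 1) := by positivity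
  have hp : ∀ n, f (n + (x.1 + 1) * (y.1 + 1)) = f n := fun n => by
    simp only [hf, Nat.cast_add n, Nat.cast_mul, ZMod.natCast_self, zero_mul, mul_zero, add_zero]
  have f1 : ∀ n, ‖f n‖ ≤ 1 := fun n => by
    rw [hf, norm_mul, norm_conj]
    exact mul_le_one₀ (x.2.norm_le_one _) (norm_nonneg _) (y.2.norm_le_one _)
  have A := approx (N := ⌊z⌋₊) (M := M) R0 hθ.abs hp f1
    (w := fun n => (gb (Real.log n / L) : ℝ) * (n : ℂ) ^ (-1 + u * I)) (g := G u)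
    (E := C * (1 + |u|) * Real.exp (-L / 2)) (by positivity) fun a Q q1 a1 a2 => by
      simpa only [mul_assoc, mul_left_comm C] using G3 a Q M u q1 a1 a2 hM
  have B : (⌊z⌋₊ : ℝ) ^ 4 * ((x.1 + 1) * (y.1 + 1) : ℕ) * (C * (1 + |u|) * Real.exp (-L / 2)) ≤
      3 * C / z ^ 13 := by
    have e1 : Real.exp (-L / 2) ≤ 1 / z ^ 25 := by
      rw [one_div, ← Real.exp_log (pow_pos z0 25), ← Real.exp_neg, Real.log_pow]
      exact Real.exp_le_exp.2 (by push_cast; linarith)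
    have e2 : 1 + |u| ≤ 3 * z ^ 6 := by linarith [one_le_pow₀ (n := 6) (by linarith : 1 ≤ z)]
    calc _ ≤ z ^ 4 * (z * z) * (C * (3 * z ^ 6) * (1 / z ^ 25)) := by
          rw [Nat.cast_mul]
          gcongr
          exacts [(mem x hx).1, (mem y hy).1]
      _ = _ := by field_simp
  have e : ∑ n ∈ Icc 1 M, ((nu ⌊z⌋₊ θ n * gb (Real.log n / L) : ℝ) : ℂ) * f n *
      (n : ℂ) ^ (-1 + u * I) = ∑ n ∈ Icc 1 M, (nu ⌊z⌋₊ θ n : ℂ) * f n *
        ((gb (Real.log n / L) : ℝ) * (n : ℂ) ^ (-1 + u * I)) :=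
    sum_congr rfl fun n _ => by push_cast; ring
  refine e ▸ (norm_le_insert' _ _).trans (add_le_add ?_ (A.trans B))
  split_ifs with c
  · rw [norm_mul, norm_div, norm_natCast]
    refine (mul_le_mul_of_nonneg_right ?_ (norm_nonneg _)).trans_eq (inv_mul_eq_div _ _)
    refine le_trans ?_ ((mean_nu _ _ R0 θ).trans_le (hθ.diag.trans (by simp)))
    gcongr
    refine norm_sum_le_of_le _ fun n _ => ?_
    rw [norm_mul, norm_real, Real.norm_of_nonneg (r := nu _ θ n) (sq_nonneg _)]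
    exact mul_le_of_le_one_right (sq_nonneg _) (f1 n)
  · rw [mean_zero _ _ θ hp (fun a b => by simp only [hf, Nat.cast_mul, map_mul]; ring)
      (orth (mem x hx).2 (mem y hy).2 c)]
    simp

end Pool.Agent.MP_20b2fd_nt.H38
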