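import Pool.Agent.MP_20b2fd_nt.H38.SpecZ

/-! Row LsP: the large sieve for primes, by duality. -/

set_option autoImplicit false

namespace Pool.Agent.MP_20b2fd_nt.H38

open MeasureTheory Complex Finset Filter Topology
open Pool.Agent.MP_c5bf7b_nt.H38 (Phi Ch)
open scoped Real

namespace LsPA

section BM

variable {Ω Ω' E : Type} [MeasurableSpace Ω] [MeasurableSpace Ω'] [NormedRing E]
  [MeasurableSpace E] [BorelSpace E] [SecondCountableTopology E]

/-- bounded measurable functions -/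
def BM (f : Ω → E) : Prop := Measurable f ∧ ∃ C : ℝ, 0 ≤ C ∧ ∀ ω, ‖f ω‖ ≤ C

omit [BorelSpace E] [SecondCountableTopology E] in
theorem BM.const (c : E) : BM fun _ : Ω => c := ⟨measurable_const, ‖c‖, norm_nonneg _, fun _ => le_rfl⟩

theorem BM.mul {f g : Ω → E} (hf : BM f) (hg : BM g) : BM fun ω => f ω * g ω := by
  obtain ⟨h1, C, hC, h2⟩ := hf
  obtain ⟨h3, D, hD, h4⟩ := hg
  exact ⟨h1.mul h3, C * D, mul_nonneg hC hD, fun ω =>
    (norm_mul_le _ _).trans (mul_le_mul (h2 ω) (h4 ω) (norm_nonneg _) hC)⟩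

theorem BM.add {f g : Ω → E} (hf : BM f) (hg : BM g) : BM fun ω => f ω + g ω := by
  obtain ⟨h1, C, hC, h2⟩ := hf
  obtain ⟨h3, D, hD, h4⟩ := hg
  exact ⟨h1.add h3, C + D, add_nonneg hC hD, fun ω =>
    (norm_add_le _ _).trans (add_le_add (h2 ω) (h4 ω))⟩

theorem BM.sum {ι : Type} (s : Finset ι) {f : ι → Ω → E} (hf : ∀ i ∈ s, BM (f i)) :
    BM fun ω => ∑ i ∈ s, f i ω := by
  classical
  induction s using Finset.induction_on with
  | empty => simpa using BM.const (0 : E)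
  | insert a s ha ih =>
    simp only [sum_insert ha]
    exact (hf a (mem_insert_self _ _)).add (ih fun i hi => hf i (mem_insert_of_mem hi))

omit [BorelSpace E] [SecondCountableTopology E] in
theorem BM.comp {f : Ω → E} (hf : BM f) {g : Ω' → Ω} (hg : Measurable g) : BM fun ω => f (g ω) := by
  obtain ⟨h1, C, hC, h2⟩ := hf
  exact ⟨h1.comp hg, C, hC, fun ω => h2 _⟩

omit [SecondCountableTopology E] in
theorem BM.norm {f : Ω → E} (hf : BM f) : BM fun ω => ‖f ω‖ := by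
  obtain ⟨h1, C, hC, h2⟩ := hf
  exact ⟨h1.norm, C, hC, fun ω => by simpa using h2 ω⟩

theorem BM.sq {f : Ω → E} (hf : BM f) : BM fun ω => f ω ^ 2 := by
  simpa only [pow_two] using hf.mul hf

theorem BM.int {f : Ω → E} (hf : BM f) (μ : Measure Ω) [IsFiniteMeasure μ] : Integrable f μ := by
  obtain ⟨h1, C, -, h2⟩ := hf
  exact Integrable.of_bound h1.aestronglyMeasurable C (ae_of_all _ h2)

theorem BM.conj {f : Ω → ℂ} (hf : BM f) : BM fun ω => (starRingEnd ℂ) (f ω) := by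
  obtain ⟨h1, C, hC, h2⟩ := hf
  exact ⟨Complex.continuous_conj.measurable.comp h1, C, hC, fun ω => by simpa using h2 ω⟩

end BM

theorem nsq (w : ℂ) : ((‖w‖ ^ 2 : ℝ) : ℂ) = (starRingEnd ℂ) w * w := by
  rw [← Complex.normSq_eq_norm_sq, Complex.normSq_eq_conj_mul_self]

section Dual

variable {Ω : Type} [MeasurableSpace Ω] (μ : Measure Ω) [IsFiniteMeasure μ]

/-- the quadratic form of the kernel -/
theorem schur (N : Finset ℕ) (φ : ℕ → Ω → ℂ) (hφ : ∀ n ∈ N, BM (φ n)) (w : ℕ → ℝ) (D : ℝ)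
    (hK : ∀ᵐ ω ∂μ, ∫ ω', ‖∑ n ∈ N, w n * (φ n ω * (starRingEnd ℂ) (φ n ω'))‖ ∂μ ≤ D)
    (S : Ω → ℂ) (hS : BM S) :
    ∑ n ∈ N, w n * ‖∫ ω, S ω * (starRingEnd ℂ) (φ n ω) ∂μ‖ ^ 2 ≤ D * ∫ ω, ‖S ω‖ ^ 2 ∂μ := by
  set K : Ω × Ω → ℂ := fun p => ∑ n ∈ N, w n * (φ n p.1 * (starRingEnd ℂ) (φ n p.2)) with hKd
  have hKb : BM K := BM.sum N fun n hn => (BM.const _).mul
    (((hφ n hn).comp measurable_fst).mul ((hφ n hn).comp measurable_snd).conj)
  have hsym : ∀ p : Ω × Ω, ‖K p.swap‖ = ‖K p‖ := by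
    intro p
    rw [← Complex.norm_conj, hKd]
    simp only [map_sum, map_mul, conj_ofReal, conj_conj, Prod.fst_swap, Prod.snd_swap]
    congr 1
    exact sum_congr rfl fun n _ => by ring
  have h1 : BM fun p : Ω × Ω => S p.1 := hS.comp measurable_fst
  have h2 : BM fun p : Ω × Ω => S p.2 := hS.comp measurable_snd
  have e1 : ((∑ n ∈ N, w n * ‖∫ ω, S ω * (starRingEnd ℂ) (φ n ω) ∂μ‖ ^ 2 : ℝ) : ℂ) =
      ∫ p, (starRingEnd ℂ) (S p.1) * S p.2 * K p ∂μ.prod μ := by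
    simp only [hKd, mul_sum]
    rw [integral_finsetSum _ fun n hn => ((h1.conj.mul h2).mul ((BM.const _).mul
      (((hφ n hn).comp measurable_fst).mul ((hφ n hn).comp measurable_snd).conj))).int _,
      ofReal_sum]
    refine sum_congr rfl fun n _ => ?_
    rw [ofReal_mul, nsq, ← integral_conj, ← integral_prod_mul, ← integral_const_mul]
    congr 1
    funext p
    simp only [map_mul, conj_conj]
    ring
  have hA : BM fun p : Ω × Ω => ‖S p.1‖ ^ 2 * ‖K p‖ := h1.norm.sq.mul hKb.norm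
  have hB : BM fun p : Ω × Ω => ‖S p.2‖ ^ 2 * ‖K p‖ := h2.norm.sq.mul hKb.norm
  have e2 : ∫ p, ‖S p.2‖ ^ 2 * ‖K p‖ ∂μ.prod μ = ∫ p, ‖S p.1‖ ^ 2 * ‖K p‖ ∂μ.prod μ := by
    rw [← integral_prod_swap]
    simp only [hsym, Prod.snd_swap]
  have e3 : ∫ p, ‖S p.1‖ ^ 2 * ‖K p‖ ∂μ.prod μ ≤ D * ∫ ω, ‖S ω‖ ^ 2 ∂μ := by
    rw [integral_prod _ (hA.int _), ← integral_const_mul]
    refine integral_mono_ae (hA.int (μ.prod μ)).integral_prod_left
      ((hS.norm.sq.int μ).const_mul D) ?_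
    filter_upwards [hK] with ω hω
    rw [integral_const_mul, mul_comm]
    exact mul_le_mul_of_nonneg_right hω (sq_nonneg _)
  have e4 : ‖∫ p, (starRingEnd ℂ) (S p.1) * S p.2 * K p ∂μ.prod μ‖ ≤
      ∫ p, (‖S p.1‖ ^ 2 * ‖K p‖ + ‖S p.2‖ ^ 2 * ‖K p‖) / 2 ∂μ.prod μ := by
    refine norm_integral_le_of_norm_le (((hA.add hB).int _).div_const 2) (ae_of_all _ fun p => ?_)
    rw [norm_mul, norm_mul, Complex.norm_conj]
    nlinarith [mul_nonneg (sq_nonneg (‖S p.1‖ - ‖S p.2‖)) (norm_nonneg (K p))]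
  rw [integral_div, integral_add (hA.int _) (hB.int _), e2, ← e1, Complex.norm_real] at e4
  linarith [le_abs_self (∑ n ∈ N, w n * ‖∫ ω, S ω * (starRingEnd ℂ) (φ n ω) ∂μ‖ ^ 2),
    Real.norm_eq_abs (∑ n ∈ N, w n * ‖∫ ω, S ω * (starRingEnd ℂ) (φ n ω) ∂μ‖ ^ 2)]

theorem dual (N A : Finset ℕ) (hAN : A ⊆ N) (φ : ℕ → Ω → ℂ) (hφ : ∀ n ∈ N, BM (φ n))
    (w c : ℕ → ℝ) (hw : ∀ n ∈ N, 0 ≤ w n) (hc : ∀ t ∈ A, w t * c t = 1) (D : ℝ) (hD : 0 < D)
    (hK : ∀ᵐ ω ∂μ, ∫ ω', ‖∑ n ∈ N, w n * (φ n ω * (starRingEnd ℂ) (φ n ω'))‖ ∂μ ≤ D)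
    (b : ℕ → ℂ) :
    ∫ ω, ‖∑ t ∈ A, b t * φ t ω‖ ^ 2 ∂μ ≤ D * ∑ t ∈ A, ‖b t‖ ^ 2 * c t := by
  set S : Ω → ℂ := fun ω => ∑ t ∈ A, b t * φ t ω with hSd
  have hS : BM S := BM.sum A fun t ht => (BM.const _).mul (hφ t (hAN ht))
  have h1 := schur μ N φ hφ w D hK S hS
  set W : ℕ → ℂ := fun n => ∫ ω, S ω * (starRingEnd ℂ) (φ n ω) ∂μ with hW
  change ∑ n ∈ N, w n * ‖W n‖ ^ 2 ≤ _ at h1
  change ∫ ω, ‖S ω‖ ^ 2 ∂μ ≤ _
  set J : ℝ := ∫ ω, ‖S ω‖ ^ 2 ∂μ with hJ
  have e1 : (J : ℂ) = ∑ t ∈ A, (starRingEnd ℂ) (b t) * W t := by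
    rw [hJ, ← integral_complex_ofReal]
    simp only [hW, ← integral_const_mul]
    rw [← integral_finsetSum _ fun t ht => ((BM.const _).mul (hS.mul (hφ t (hAN ht)).conj)).int μ]
    congr 1
    funext ω
    rw [nsq]
    conv_lhs => rw [hSd]
    simp only [map_sum, map_mul, sum_mul]
    exact sum_congr rfl fun t _ => by ring
  have e2 : J ≤ ∑ t ∈ A, ‖b t‖ * ‖W t‖ := by
    have h2 : J ≤ ‖(J : ℂ)‖ := by
      rw [Complex.norm_real]
      exact le_abs_self _
    rw [e1] at h2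
    refine h2.trans ((norm_sum_le _ _).trans (le_of_eq (sum_congr rfl fun t _ => ?_)))
    rw [norm_mul, Complex.norm_conj]
  have e3 : ∑ t ∈ A, w t * ‖W t‖ ^ 2 ≤ ∑ n ∈ N, w n * ‖W n‖ ^ 2 :=
    sum_le_sum_of_subset_of_nonneg hAN fun n hn _ => mul_nonneg (hw n hn) (sq_nonneg _)
  have e4 : 2 * D * ∑ t ∈ A, ‖b t‖ * ‖W t‖ ≤
      D ^ 2 * ∑ t ∈ A, ‖b t‖ ^ 2 * c t + ∑ t ∈ A, w t * ‖W t‖ ^ 2 := by
    rw [mul_sum, mul_sum, ← sum_add_distrib]
    refine sum_le_sum fun t ht => ?_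
    have h2 := hc t ht
    have h3 := mul_nonneg (hw t (hAN ht)) (sq_nonneg (D * ‖b t‖ * c t - ‖W t‖))
    have h4 : w t * (D * ‖b t‖ * c t - ‖W t‖) ^ 2 = D ^ 2 * (‖b t‖ ^ 2 * c t) * (w t * c t) -
        2 * D * (‖b t‖ * ‖W t‖) * (w t * c t) + w t * ‖W t‖ ^ 2 := by ring
    rw [h4, h2] at h3
    linarith
  have e5 := mul_le_mul_of_nonneg_left e2 (show 0 ≤ 2 * D by linarith)
  refine le_of_mul_le_mul_left ?_ hD
  nlinarith

end Dual

theorem card_pcs (z : ℝ) (hz : 0 ≤ z) : ((pcs z).card : ℝ) ≤ z ^ 2 := by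
  classical
  have h1 : (pcs z).card ≤ ⌊z⌋₊ * ⌊z⌋₊ := by
    unfold pcs
    rw [card_sigma]
    refine (sum_le_card_nsmul _ _ ⌊z⌋₊ fun i hi => ?_).trans (by simp)
    refine (card_le_univ _).trans ?_
    rw [← Nat.card_eq_fintype_card, DirichletCharacter.card_eq_totient_of_hasEnoughRootsOfUnity]
    exact (Nat.totient_le _).trans (mem_range.1 hi)
  have h2 := Nat.floor_le hz
  calc ((pcs z).card : ℝ) ≤ (⌊z⌋₊ : ℝ) * ⌊z⌋₊ := by exact_mod_cast h1
    _ ≤ z ^ 2 := by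
      rw [pow_two]
      exact mul_le_mul h2 h2 (Nat.cast_nonneg _) hz

theorem cpow_eq {n : ℕ} (hn : 1 ≤ n) (s : ℂ) : (n : ℂ) ^ s = exp (Real.log n * s) := by
  rw [cpow_def_of_ne_zero (by exact_mod_cast (by omega : n ≠ 0)), natCast_log]

theorem ker_eq {n : ℕ} (hn : 1 ≤ n) (a : ℝ) (u v : ℂ) (τ τ' : ℝ) :
    ((a / n : ℝ) : ℂ) * (u * (n : ℂ) ^ (τ * I) * (starRingEnd ℂ) (v * (n : ℂ) ^ (τ' * I))) =
      a * (u * (starRingEnd ℂ) v) * (n : ℂ) ^ (-1 + ((τ - τ' : ℝ) : ℂ) * I) := by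
  have h0 : (n : ℂ) ≠ 0 := by exact_mod_cast (by omega : n ≠ 0)
  rw [cpow_add _ _ h0, cpow_neg_one, cpow_eq hn, cpow_eq hn, cpow_eq hn, map_mul, ← exp_conj]
  have e : exp (Real.log n * (((τ - τ' : ℝ) : ℂ) * I)) = exp (Real.log n * (τ * I)) *
      exp ((starRingEnd ℂ) (Real.log n * (τ' * I))) := by
    rw [← exp_add]
    congr 1
    simp only [map_mul, conj_ofReal, conj_I]
    push_cast
    ring
  rw [e]
  push_cast
  ring

end LsPA

open LsPA in
theorem lsPOf : LsPOf := by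
  classical
  rintro ⟨C, hC1, hC⟩
  refine ⟨3 * C, by linarith, fun z X b hz hX => ?_⟩
  have hz0 : 0 < z := by linarith
  have hlz : 0 < Real.log z := Real.log_pos (by linarith)
  have hzX : z ≤ X := (le_self_pow₀ (by linarith) (by norm_num)).trans hX
  have hX0 : 0 < X := by linarith
  have hL : 50 * Real.log z ≤ Real.log X := by
    have := Real.log_le_log (by positivity) hX
    rwa [Real.log_pow] at this
  have hL0 : 0 < Real.log X := by linarith
  obtain ⟨ν, G, hν, hν1, hG0, hGi, hG, hK⟩ :=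
    hC z (Real.log X) ⌈Real.exp (22 * Real.log X)⌉₊ hz hL (Nat.le_ceil _)
  set M := ⌈Real.exp (22 * Real.log X)⌉₊ with hM
  have hT : 0 < z ^ 6 := by positivity
  let _ : MeasurableSpace (pcs z) := ⊤
  have : DiscreteMeasurableSpace (pcs z) := ⟨fun _ => trivial⟩
  set ρ : Measure ℝ := volume.restrict (Set.Ioc (-z ^ 6) (z ^ 6)) with hρ
  set μ : Measure (pcs z × ℝ) := Measure.count.prod ρ with hμ
  set φ : ℕ → pcs z × ℝ → ℂ := fun n ω => ω.1.1.2 n * (n : ℂ) ^ (ω.2 * I) with hφd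
  have hφ : ∀ n ∈ Icc 1 M, BM (φ n) := by
    intro n hn
    have hn1 := (mem_Icc.1 hn).1
    refine ⟨measurable_from_prod_countable_right fun x => ?_, 1, zero_le_one, fun ω => ?_⟩
    · simp only [hφd, cpow_eq hn1]
      have h1 : Measurable fun y : ℝ => exp ((Real.log n : ℂ) * (y * I)) := by fun_prop
      exact h1.const_mul (x.1.2 n)
    · rw [hφd]
      simp only
      rw [norm_mul, norm_natCast_cpow_of_pos hn1]
      simpa using DirichletCharacter.norm_le_one _ _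
  have hsum : ∀ f : pcs z × ℝ → ℝ, BM f → ∫ ω, f ω ∂μ = ∑ x : pcs z, ∫ τ, f (x, τ) ∂ρ := by
    intro f hf
    rw [hμ, integral_prod _ (hf.int _), integral_count]
  have hAN : prs X (X ^ 21) ⊆ Icc 1 M := by
    refine (filter_subset _ _).trans (Icc_subset_Icc_right ?_)
    refine (Nat.floor_le_ceil _).trans (Nat.ceil_mono ?_)
    rw [← Real.exp_log (show 0 < X ^ 21 by positivity), Real.log_pow]
    exact Real.exp_le_exp.2 (by push_cast; linarith)
  have key := dual μ (Icc 1 M) (prs X (X ^ 21)) hAN φ hφ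
    (fun n => ν n * gb (Real.log n / Real.log X) / n) (fun n => n)
    (fun n _ => div_nonneg (mul_nonneg (hν n) gb.nonneg) (Nat.cast_nonneg n))
    (fun t ht => ?_) (3 * C / Real.log z) (by positivity) ?_ b
  · rw [hsum _ (BM.sum _ fun t ht => (BM.const _).mul (hφ t (hAN ht))).norm.sq] at key
    refine le_trans (le_of_eq ?_) key
    rw [← sum_coe_sort]
    refine sum_congr rfl fun x _ => ?_
    rw [intervalIntegral.integral_of_le (by linarith)]
    simp only [hφd, mul_assoc, hρ]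
  · obtain ⟨h1, h2, h3⟩ := mem_filter.1 ht
    have h4 : (t : ℝ) ≤ X ^ 21 :=
      le_trans (by exact_mod_cast (mem_Icc.1 h1).2) (Nat.floor_le (by positivity))
    have ht0 : (0 : ℝ) < t := by linarith
    have h5 : Real.log X ≤ Real.log t := Real.log_le_log hX0 h3.le
    have h6 : Real.log t ≤ 21 * Real.log X := by
      have := Real.log_le_log ht0 h4
      rwa [Real.log_pow] at this
    have h7 : gb (Real.log t / Real.log X) = 1 := by
      apply gb.one_of_mem_closedBall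
      rw [Metric.mem_closedBall, Real.dist_eq, abs_le]
      have h8 : 1 ≤ Real.log t / Real.log X := (one_le_div hL0).2 h5
      have h9 : Real.log t / Real.log X ≤ 21 := (div_le_iff₀ hL0).2 h6
      change -(10 : ℝ) ≤ _ ∧ _ ≤ (10 : ℝ)
      constructor <;> linarith
    rw [hν1 t h2 (by linarith), h7]
    field_simp
  · have hae : ∀ᵐ ω ∂μ, ω.2 ∈ Set.Ioc (-z ^ 6) (z ^ 6) :=
      (Measure.quasiMeasurePreserving_snd (μ := Measure.count) (ν := ρ)).ae
        (ae_restrict_mem measurableSet_Ioc)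
    filter_upwards [hae] with ω hω
    obtain ⟨x, τ⟩ := ω
    have hb : BM fun ω' : pcs z × ℝ => ‖∑ n ∈ Icc 1 M,
        ((ν n * gb (Real.log n / Real.log X) / n : ℝ) : ℂ) *
          (φ n (x, τ) * (starRingEnd ℂ) (φ n ω'))‖ :=
      (BM.sum _ fun n hn => (BM.const _).mul ((BM.const _).mul (hφ n hn).conj)).norm
    rw [hsum _ hb]
    have hGτ : Integrable fun τ' => G (τ - τ') := hGi.comp_sub_left τ
    have e1 : ∫ τ', G (τ - τ') ∂ρ ≤ C / Real.log z := by
      refine le_trans ?_ hG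
      rw [← integral_sub_left_eq_self G volume τ]
      exact setIntegral_le_integral hGτ (ae_of_all _ fun _ => hG0 _)
    have e2 : ∀ y ∈ (univ : Finset (pcs z)), ∫ τ', ‖∑ n ∈ Icc 1 M,
        ((ν n * gb (Real.log n / Real.log X) / n : ℝ) : ℂ) *
          (φ n (x, τ) * (starRingEnd ℂ) (φ n (y, τ')))‖ ∂ρ ≤
        (if x = y then C / Real.log z else 0) + 2 * z ^ 6 * (C / z ^ 13) := by
      intro y _
      have hi : Integrable (fun τ' => if x = y then G (τ - τ') else 0) ρ := by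
        split_ifs
        · exact hGτ.integrableOn
        · exact integrable_zero _ _ _
      refine (integral_mono_ae (g := fun τ' => (if x = y then G (τ - τ') else 0) + C / z ^ 13)
        ((hb.comp measurable_prodMk_left).int ρ) (hi.add (integrable_const _)) ?_).trans ?_
      · filter_upwards [ae_restrict_mem measurableSet_Ioc] with τ' hτ'
        have h1 := hK x.1 x.2 y.1 y.2 (τ - τ') (by
          rw [abs_le]
          constructor <;> linarith [hω.1, hω.2, hτ'.1, hτ'.2])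
        rw [sum_congr rfl fun n hn => ker_eq (mem_Icc.1 hn).1 _ _ _ τ τ']
        simpa only [Subtype.ext_iff] using h1
      · rw [integral_add hi (integrable_const _), integral_const, smul_eq_mul]
        refine add_le_add ?_ (le_of_eq ?_)
        · split_ifs
          · exact e1
          · simp
        · rw [hρ, measureReal_restrict_apply_univ, Real.volume_real_Ioc_of_le (by linarith)]
          ring
    refine (sum_le_sum e2).trans ?_
    rw [sum_add_distrib, sum_ite_eq, if_pos (mem_univ x), sum_const, card_univ, Fintype.card_coe,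
      nsmul_eq_mul]
    have e3 := card_pcs z hz0.le
    have e4 : Real.log z ≤ z ^ 5 :=
      (Real.log_le_self hz0.le).trans (le_self_pow₀ (by linarith) (by norm_num))
    have e5 : z ^ 2 * (2 * z ^ 6 * (C / z ^ 13)) = 2 * C / z ^ 5 := by field_simp
    have e6 : 2 * C / z ^ 5 ≤ 2 * C / Real.log z :=
      div_le_div_of_nonneg_left (by linarith) hlz e4
    have e7 := mul_le_mul_of_nonneg_right e3
      (show 0 ≤ 2 * z ^ 6 * (C / z ^ 13) by positivity)
    have e8 : 3 * C / Real.log z = C / Real.log z + 2 * C / Real.log z := by ring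
    linarith

end Pool.Agent.MP_20b2fd_nt.H38
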