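import Pool.Agent.MP_20b2fd_nt.H38.SpecZ
import Pool.Agent.MP_ca0a54_nt.H78M.MER

/-! The theorems of Mertens on intervals. -/

set_option autoImplicit false

namespace Pool.Agent.MP_20b2fd_nt.H38

open Finset
open Pool.Agent.MP_ca0a54_nt

namespace MerA

theorem mem_prs {x y : ℝ} (hy : 0 ≤ y) {p : ℕ} : p ∈ prs x y ↔ p.Prime ∧ x < p ∧ (p : ℝ) ≤ y := by
  unfold prs
  rw [mem_filter, mem_Icc, Nat.le_floor_iff hy]
  exact ⟨fun h => ⟨h.2.1, h.2.2, h.1.2⟩, fun h => ⟨⟨h.1.one_lt.le, h.2.2⟩, h.1, h.2.1⟩⟩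

theorem prs_eq {x y : ℝ} (hx : 0 < x) (hy : 0 < y) :
    prs x y = H78M.pr (Real.log x) (Real.log y) := by
  ext p
  rw [mem_prs hy.le, H78M.mem_pr]
  refine and_congr_right fun hp => ?_
  have h : (0 : ℝ) < p := by exact_mod_cast hp.pos
  rw [Real.log_lt_log_iff hx h, Real.log_le_log_iff h hy]

theorem diff_le {p : ℕ} (hp : p.Prime) :
    0 ≤ Real.log p / ((p : ℝ) - 1) - Real.log p / p ∧
      Real.log p / ((p : ℝ) - 1) - Real.log p / p ≤ 4 * (1 / (p : ℝ) ^ (3 / 2 : ℝ)) := by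
  have h2 : (2 : ℝ) ≤ p := by exact_mod_cast hp.two_le
  have h0 : (0 : ℝ) < p := by linarith
  have h1 : (0 : ℝ) < p - 1 := by linarith
  have e : Real.log p / ((p : ℝ) - 1) - Real.log p / p = Real.log p / (p * (p - 1)) := by
    field_simp; ring
  have hl := Real.log_natCast_nonneg p
  rw [e]
  refine ⟨by positivity, ?_⟩
  have h3 := Real.log_le_rpow_div h0.le (show (0 : ℝ) < 1 / 2 by norm_num)
  have h4 : (p : ℝ) ^ (1 / 2 : ℝ) * (p : ℝ) ^ (3 / 2 : ℝ) = p * p := by
    rw [← Real.rpow_add h0]; norm_num; ring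
  have h5 : (0 : ℝ) < (p : ℝ) ^ (3 / 2 : ℝ) := by positivity
  rw [mul_one_div, div_le_div_iff₀ (by positivity) h5]
  calc Real.log p * (p : ℝ) ^ (3 / 2 : ℝ) ≤ (p : ℝ) ^ (1 / 2 : ℝ) / (1 / 2) * p ^ (3 / 2 : ℝ) := by
        gcongr
    _ = 2 * (p * p) := by rw [← h4]; ring
    _ ≤ _ := by nlinarith

end MerA

open MerA in
theorem mer : MerS := by
  obtain ⟨D, hD, h⟩ := H78M.MER.mass
  have hs : Summable fun n : ℕ => 4 * (1 / (n : ℝ) ^ (3 / 2 : ℝ)) :=
    (Real.summable_one_div_nat_rpow.2 (by norm_num)).mul_left 4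
  set E := ∑' n : ℕ, 4 * (1 / (n : ℝ) ^ (3 / 2 : ℝ)) with hE
  have hE0 : 0 ≤ E := tsum_nonneg fun n => by positivity
  have hl2 : 0 < Real.log 2 := Real.log_pos one_lt_two
  have h3 : 0 ≤ D / Real.log 2 := by positivity
  have h4 := abs_nonneg (Real.log (Real.log 2))
  have two : ∀ x y : ℝ, 2 ≤ x → x ≤ y →
      |∑ p ∈ prs x y, (1 : ℝ) / p - Real.log (Real.log y / Real.log x)| ≤ D / Real.log x := by
    intro x y hx hxy
    rw [prs_eq (by linarith) (by linarith)]
    simp only [one_div]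
    exact H78M.MER.two h (Real.log_pos (by linarith)) (Real.log_le_log (by linarith) hxy)
  refine ⟨D + E + 1 + D / Real.log 2 + |Real.log (Real.log 2)|, by linarith,
    fun x y hx hxy => ?_, fun x y hx hxy => (two x y hx hxy).trans ?_, fun y hy => ?_⟩
  · have hx0 : 0 < x := by linarith
    have hy0 : 0 < y := by linarith
    have h1 := h _ _ (Real.log_nonneg hx) (Real.log_le_log hx0 hxy)
    rw [← prs_eq hx0 hy0, ← Real.log_div hy0.ne' hx0.ne'] at h1
    refine ⟨by linarith, ?_⟩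
    have h5 : 0 ≤ ∑ p ∈ prs x y, (Real.log p / ((p : ℝ) - 1) - Real.log p / p) :=
      sum_nonneg fun p hp => (diff_le ((mem_prs hy0.le).1 hp).1).1
    have h6 : ∑ p ∈ prs x y, (Real.log p / ((p : ℝ) - 1) - Real.log p / p) ≤ E :=
      (sum_le_sum fun p hp => (diff_le ((mem_prs hy0.le).1 hp).1).2).trans
        (hs.sum_le_tsum _ fun n _ => by positivity)
    rw [sum_sub_distrib] at h5 h6
    rw [abs_le] at h1 ⊢
    constructor <;> linarith [h1.1, h1.2]
  · exact div_le_div_of_nonneg_right (by linarith) (Real.log_nonneg (by linarith))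
  · have hy0 : (0 : ℝ) ≤ y := by linarith
    have e : pz y = insert 2 (prs 2 y) := by
      ext p
      rw [pz, mem_insert, mem_prs hy0, mem_prs hy0]
      constructor
      · rintro ⟨h1, -, h2⟩
        rcases h1.two_le.eq_or_lt with h5 | h5
        · exact Or.inl h5.symm
        · exact Or.inr ⟨h1, by exact_mod_cast h5, h2⟩
      · rintro (rfl | ⟨h1, h2, h5⟩)
        · exact ⟨Nat.prime_two, by norm_num, by exact_mod_cast hy⟩
        · exact ⟨h1, by linarith, h5⟩
    have h1 := two 2 y le_rfl hy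
    rw [Real.log_div (Real.log_pos (by linarith)).ne' hl2.ne', abs_le] at h1
    rw [e, sum_insert fun h5 => by simpa using ((mem_prs hy0).1 h5).2.1, abs_le]
    have h5 := le_abs_self (Real.log (Real.log 2))
    have h6 := neg_abs_le (Real.log (Real.log 2))
    push_cast
    constructor <;> linarith [h1.1, h1.2]

end Pool.Agent.MP_20b2fd_nt.H38
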