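import Pool.Agent.MP_20b2fd_nt.H38.SpecZ

/-! Bounds for the function without its small Euler factors. -/

set_option autoImplicit false

namespace Pool.Agent.MP_20b2fd_nt.H38

open Complex Finset ArithmeticFunction
open DirichletCharacter (LFunction)
open Pool.Agent.MP_c5bf7b_nt.H38 (Phi Ch)

namespace ZbA

theorem gron {F : ℂ → ℂ} (hF : Differentiable ℂ F) {K : ℝ} (u v : ℂ)
    (h : ∀ τ : ℝ, 0 ≤ τ → τ ≤ 1 → ‖deriv F (u + τ * (v - u))‖ ≤ K * ‖F (u + τ * (v - u))‖) :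
    ‖F v‖ ≤ ‖F u‖ * Real.exp (K * ‖v - u‖) := by
  have hd : ∀ τ : ℝ, HasDerivAt (fun τ : ℝ => F (u + τ * (v - u)))
      (deriv F (u + τ * (v - u)) * (v - u)) τ := fun τ => by
    have h1 : HasDerivAt (fun s : ℂ => u + s * (v - u)) (v - u) (τ : ℂ) := by
      simpa using ((hasDerivAt_id (τ : ℂ)).mul_const (v - u)).const_add u
    exact ((hF _).hasDerivAt.comp (τ : ℂ) h1).comp_ofReal
  have := norm_le_gronwallBound_of_norm_deriv_right_le (a := 0) (b := 1) (K := K * ‖v - u‖) (ε := 0)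
    (fun τ _ => (hd τ).continuousAt.continuousWithinAt) (fun τ _ => (hd τ).hasDerivWithinAt) le_rfl
    (fun τ hτ => by
      rw [norm_mul, add_zero, mul_right_comm]
      exact mul_le_mul_of_nonneg_right (h τ hτ.1 hτ.2.le) (norm_nonneg _)) 1 ⟨zero_le_one, le_rfl⟩
  simpa [gronwallBound_ε0] using this

theorem fac (S : Finset ℕ) (a b : ℕ → ℂ) (h : ∀ p ∈ S, ‖b p‖ ≤ 3 / 5) :
    ‖∏ p ∈ S, (1 - a p)‖ ≤ ‖∏ p ∈ S, (1 - b p)‖ * Real.exp (5 / 2 * ∑ p ∈ S, ‖a p - b p‖) := by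
  rw [norm_prod, norm_prod, mul_sum, Real.exp_sum, ← prod_mul_distrib]
  refine prod_le_prod (fun _ _ => norm_nonneg _) fun p hp => ?_
  have h1 : ‖1 - a p‖ ≤ ‖1 - b p‖ + ‖a p - b p‖ := by
    rw [show 1 - a p = (1 - b p) - (a p - b p) by ring]
    exact norm_sub_le _ _
  have h2 := norm_sub_norm_le 1 (b p)
  rw [norm_one] at h2
  have h3 := h p hp
  have h4 := norm_nonneg (a p - b p)
  nlinarith [mul_le_mul_of_nonneg_left (Real.add_one_le_exp (5 / 2 * ‖a p - b p‖))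
    (norm_nonneg (1 - b p))]

theorem mem_pz {z : ℝ} {p : ℕ} (hz : 2 ≤ z) (h : p ∈ pz z) : (2 : ℝ) ≤ p ∧ (p : ℝ) ≤ z := by
  obtain ⟨h1, h2, -⟩ := mem_filter.1 h
  exact ⟨by exact_mod_cast h2.two_le, (Nat.le_floor_iff (by linarith)).1 (mem_Icc.1 h1).2⟩

theorem log_ge {z : ℝ} (hz : 2 ≤ z) : 1 / 2 ≤ Real.log z := by
  linarith [Real.log_two_gt_d9, Real.log_le_log two_pos hz]

theorem small {z c : ℝ} {p : ℕ} {w : ℂ} (hz : 2 ≤ z) (h0 : 0 < c) (h1 : c ≤ 1 / 10) (h : p ∈ pz z)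
    (hw : 1 - c / Real.log z ≤ w.re) : ‖(p : ℂ) ^ (-w)‖ ≤ 6 / 5 * (1 / p) := by
  obtain ⟨h2, h3⟩ := mem_pz hz h
  have hl := log_ge hz
  have hp : (0 : ℝ) < p := by linarith
  have h4 : Real.log p * (c / Real.log z) ≤ c := by
    rw [← mul_div_assoc, div_le_iff₀ (by linarith), mul_comm]
    exact mul_le_mul_of_nonneg_left (Real.log_le_log hp h3) h0.le
  have h5 : 0 ≤ Real.log p := Real.log_nonneg (by linarith)
  have h6 := Real.exp_bound_div_one_sub_of_interval (x := 1 / 10) (by norm_num) (by norm_num)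
  rw [norm_natCast_cpow_of_pos (by exact_mod_cast hp), Real.rpow_def_of_pos hp, neg_re]
  calc _ ≤ Real.exp (1 / 10 + -Real.log p) := Real.exp_le_exp.2 (by nlinarith)
    _ ≤ _ := by
      rw [Real.exp_add, Real.exp_neg, Real.exp_log hp, one_div (p : ℝ)]
      exact mul_le_mul_of_nonneg_right (by linarith) (by positivity)

variable {q : ℕ} (χ : Ch q) {z c D : ℝ} {w w' : ℂ}

theorem term {p : ℕ} (hz : 2 ≤ z) (h0 : 0 < c) (h1 : c ≤ 1 / 10) (h : p ∈ pz z)
    (hw : 1 - c / Real.log z ≤ w.re) : ‖χ p * (p : ℂ) ^ (-w)‖ ≤ 6 / 5 * (1 / p) := by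
  rw [norm_mul]
  exact (mul_le_of_le_one_left (norm_nonneg _) (χ.norm_le_one _)).trans (small hz h0 h1 h hw)

theorem term' {p : ℕ} (hz : 2 ≤ z) (h0 : 0 < c) (h1 : c ≤ 1 / 10) (h : p ∈ pz z)
    (hw : 1 - c / Real.log z ≤ w.re) : ‖χ p * (p : ℂ) ^ (-w)‖ ≤ 3 / 5 := by
  linarith [term χ hz h0 h1 h hw, one_div_le_one_div_of_le two_pos (mem_pz hz h).1]

theorem ez_ge (hz : 2 ≤ z) (h0 : 0 < c) (h1 : c ≤ 1 / 10) (hw : 1 - c / Real.log z ≤ w.re)
    (hD : ∑ p ∈ pz z, (1 : ℝ) / p ≤ Real.log (Real.log z) + D) :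
    1 ≤ ‖ez χ z w‖ * (Real.exp (3 * D) * Real.log z ^ 3) := by
  have h2 := fac (pz z) (fun _ => 0) _ fun p hp => term' χ hz h0 h1 hp hw
  have h3 : ∑ p ∈ pz z, ‖0 - χ p * (p : ℂ) ^ (-w)‖ ≤ 6 / 5 * ∑ p ∈ pz z, (1 : ℝ) / p := by
    rw [mul_sum]
    exact sum_le_sum fun p hp => by rw [zero_sub, norm_neg]; exact term χ hz h0 h1 hp hw
  rw [sub_zero, prod_const_one, norm_one] at h2
  refine h2.trans (mul_le_mul_of_nonneg_left ?_ (norm_nonneg _))
  rw [← Real.exp_log (x := Real.log z) (by linarith [log_ge hz]), ← Real.exp_nat_mul,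
    ← Real.exp_add]
  refine Real.exp_le_exp.2 ?_
  push_cast
  linarith

theorem ez_cmp (hz : 2 ≤ z) (h0 : 0 < c) (h1 : c ≤ 1 / 10) (hw : 1 - c / Real.log z ≤ w.re)
    (hw' : ‖w - w'‖ ≤ c / Real.log z) (hD1 : 1 ≤ D)
    (hD : ∑ p ∈ pz z, Real.log p / p ≤ Real.log z + D) :
    ‖ez χ z w'‖ ≤ ‖ez χ z w‖ * Real.exp (2 * D) := by
  have hl := log_ge hz
  have h2 := fac (pz z) (fun p => χ p * (p : ℂ) ^ (-w')) _ fun p hp => term' χ hz h0 h1 hp hw
  have h3 : ∑ p ∈ pz z, ‖χ p * (p : ℂ) ^ (-w') - χ p * (p : ℂ) ^ (-w)‖ ≤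
      12 / 5 * (c / Real.log z) * ∑ p ∈ pz z, Real.log p / p := by
    rw [mul_sum]
    refine sum_le_sum fun p hp => ?_
    obtain ⟨h4, h5⟩ := mem_pz hz hp
    have hp0 : (0 : ℝ) < p := by linarith
    have hp1 : (p : ℂ) ≠ 0 := by exact_mod_cast hp0.ne'
    have h6 : 0 ≤ Real.log p := Real.log_nonneg (by linarith)
    have h7 : ‖(Real.log p : ℂ) * (w - w')‖ ≤ Real.log p * (c / Real.log z) := by
      rw [norm_mul, norm_real, Real.norm_of_nonneg h6]
      exact mul_le_mul_of_nonneg_left hw' h6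
    have h8 : Real.log p * (c / Real.log z) ≤ c := by
      rw [← mul_div_assoc, div_le_iff₀ (by linarith), mul_comm]
      exact mul_le_mul_of_nonneg_left (Real.log_le_log hp0 h5) h0.le
    have e : χ p * (p : ℂ) ^ (-w') - χ p * (p : ℂ) ^ (-w) =
        χ p * (p : ℂ) ^ (-w) * (exp ((Real.log p : ℂ) * (w - w')) - 1) := by
      rw [natCast_log, ← cpow_def_of_ne_zero hp1, show -w' = -w + (w - w') by ring,
        cpow_add _ _ hp1]
      ring
    rw [e, norm_mul]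
    refine (mul_le_mul (term χ hz h0 h1 hp hw) ((norm_exp_sub_one_le (by linarith)).trans
      (mul_le_mul_of_nonneg_left h7 zero_le_two)) (norm_nonneg _) (by positivity)).trans_eq ?_
    ring
  refine h2.trans (mul_le_mul_of_nonneg_left (Real.exp_le_exp.2 ?_) (norm_nonneg _))
  have h4 : c / Real.log z * Real.log z = c := div_mul_cancel₀ _ (by linarith)
  have h5 : c / Real.log z ≤ 1 / 5 := by
    rw [div_le_iff₀ (by linarith)]
    linarith
  have h6 : 0 ≤ c / Real.log z := by positivity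
  nlinarith [mul_le_mul_of_nonneg_left hD h6]

theorem ez_diff (hz : 2 ≤ z) : Differentiable ℂ (ez χ z) := by
  refine Differentiable.fun_finsetProd fun p hp => ?_
  have hp1 : (p : ℂ) ≠ 0 := by
    have := (mem_pz hz hp).1
    exact_mod_cast (by linarith : (0 : ℝ) < p).ne'
  exact ((differentiable_id.neg.const_cpow (Or.inl hp1)).const_mul _).const_sub _

open Classical in
theorem ser {s : ℝ} {a : ℕ → ℂ} {A : ℂ} {C : ℝ} (hs : w.re = s) (h1 : 1 < s) (ha : ∀ n, ‖a n‖ ≤ 1)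
    (h : HasSum (fun n : ℕ => if rg z n then a n * (n : ℂ) ^ (-w) else 0) A)
    (h2 : Summable fun n : ℕ => if rg z n then (n : ℝ) ^ (-s) else 0)
    (h3 : ∑' n : ℕ, (if rg z n then (n : ℝ) ^ (-s) else 0) ≤ C) : ‖A‖ ≤ C := by
  refine (h.norm_le_of_bounded h2.hasSum fun n => ?_).trans h3
  split_ifs
  · rw [norm_mul, norm_natCast_cpow_of_re_ne_zero _ (by rw [neg_re]; linarith), neg_re, hs]
    exact mul_le_of_le_one_left (by positivity) (ha n)
  · simp

end ZbA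

open ZbA Classical in
theorem zbOf : ZbOf := by
  rintro ⟨D, hD1, hM1, -, hM3⟩ ⟨_, -, hP⟩ hZd ⟨hE1, hE2⟩ c h0 h1
  obtain ⟨K, hK1, hK⟩ := hZd c h0 h1
  obtain ⟨C, hC1, hC⟩ := hE2 c h0 h1
  obtain ⟨E, hE⟩ : ∃ E, E = Real.exp K * Real.exp (2 * D) := ⟨_, rfl⟩
  have e1 : 1 ≤ E := hE ▸ one_le_mul_of_one_le_of_one_le (Real.one_le_exp (by linarith))
    (Real.one_le_exp (by linarith))
  have e2 : 1 ≤ Real.exp (3 * D) := Real.one_le_exp (by linarith)
  have e3 : C ≤ E * C := le_mul_of_one_le_left (by linarith) e1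
  have e4 : 5 * (E * C) ≤ 5 * (E * C) * Real.exp (3 * D) :=
    le_mul_of_one_le_right (by linarith) e2
  refine ⟨5 * (E * C) * Real.exp (3 * D), by linarith, fun z hz =>
    ⟨(hC z hz).1, (hC z hz).2.trans (by linarith), fun hF x hx => ?_⟩⟩
  obtain ⟨p1, -, -, -, -, p2, -⟩ := hP _ x.2
  have hl := log_ge hz
  have m1 : ∑ p ∈ pz z, Real.log p / p ≤ Real.log z + D := by
    have := (abs_le.1 (hM1 1 z le_rfl (by linarith)).1).2
    rw [div_one] at this
    exact sub_le_iff_le_add'.1 this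
  have m3 := sub_le_iff_le_add'.1 (abs_le.1 (hM3 z hz)).2
  have n1 : ∀ w : ℂ, 1 - c / Real.log z ≤ w.re → |w.im| ≤ z ^ 7 → Phi x.2 w ≠ 0 :=
    fun w a b e => (hF x hx w e b).not_ge a
  have n2 : ∀ w : ℂ, 1 - c / Real.log z ≤ w.re → ez x.2 z w ≠ 0 := fun w a e => by
    have := ez_ge x.2 hz h0 h1 a m3
    rw [e, norm_zero, zero_mul] at this
    linarith
  have n3 : ∀ w : ℂ, w ≠ 1 → (if x.2 = 1 then w - 1 else 1) ≠ 0 := fun w a => by
    split_ifs
    exacts [sub_ne_zero.2 a, one_ne_zero]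
  refine ⟨fun w a b => ?_, fun w a => ?_, fun w a b => ?_⟩
  · refine DifferentiableAt.div ?_ ((p1 w).mul (ez_diff x.2 hz w))
      (mul_ne_zero (n1 w a.le b.le) (n2 w a.le))
    split_ifs
    exacts [differentiableAt_id.sub_const _, differentiableAt_const _]
  · have hw : w ≠ 1 := fun e => by simp [e] at a
    rw [Rz, p2 w hw, mul_assoc, div_mul_cancel_left₀ (n3 w hw)]
    exact (hE1 _ x.2 z w hz a).2
  obtain ⟨η, hη⟩ : ∃ η, η = c / (2 * Real.log z) := ⟨_, rfl⟩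
  have g1 : c / Real.log z = 2 * η := by rw [hη]; field_simp
  have g2 : c / (4 * Real.log z) = η / 2 := by rw [hη]; field_simp; norm_num
  have g3 : 0 < η := by rw [hη]; positivity
  have g4 : η * Real.log z = c / 2 := by rw [hη]; field_simp
  have g5 : η ≤ 1 := by nlinarith
  have g6 : z ^ 6 ≤ z ^ 7 - 2 := by
    have : (2 : ℝ) ^ 6 ≤ z ^ 6 := by gcongr
    nlinarith
  rw [← hη] at a
  obtain ⟨a1, a2⟩ := abs_le.1 a
  obtain ⟨v, v1, v2⟩ : ∃ v : ℂ, v.re = 1 + η ∧ v.im = w.im := ⟨⟨1 + η, w.im⟩, rfl, rfl⟩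
  have cmp : ∀ s t : ℂ, s.im = w.im → t.im = w.im → |s.re - 1| ≤ η → |t.re - 1| ≤ η →
      ‖s - t‖ ≤ 2 * η ∧ ‖Phi x.2 t * ez x.2 z t‖ ≤ E * ‖Phi x.2 s * ez x.2 z s‖ := by
    intro s t s1 t1 s2 t2
    obtain ⟨s3, s4⟩ := abs_le.1 s2
    obtain ⟨t3, t4⟩ := abs_le.1 t2
    have d : ‖s - t‖ ≤ 2 * η := by
      refine (norm_le_abs_re_add_abs_im _).trans ?_
      rw [sub_im, s1, t1, sub_self, abs_zero, add_zero, sub_re, abs_le]
      constructor <;> linarith
    have k1 := gron p1 (K := K * Real.log z) s t fun τ τ0 τ1 => by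
      have r1 : (s + τ * (t - s)).re = s.re + τ * (t.re - s.re) := by simp
      have r2 : (s + τ * (t - s)).im = w.im := by simp [s1, t1]
      have r3 : 1 - η ≤ (s + τ * (t - s)).re := by rw [r1]; nlinarith
      have r4 : (s + τ * (t - s)).re ≤ 1 + η := by rw [r1]; nlinarith
      have r5 := hK z hz hF x hx _ (hη ▸ r3) (by linarith) (by rw [r2]; linarith)
      rwa [norm_div, div_le_iff₀ (norm_pos_iff.2 (n1 _ (by linarith) (by rw [r2]; linarith)))]
        at r5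
    have k2 := ez_cmp x.2 (w := s) (w' := t) hz h0 h1 (by linarith) (by linarith) hD1 m1
    have k3 : K * Real.log z * ‖t - s‖ ≤ K := by
      rw [norm_sub_rev, mul_assoc]
      exact mul_le_of_le_one_right (by linarith) (by nlinarith)
    refine ⟨d, ?_⟩
    rw [norm_mul, norm_mul, hE]
    refine (mul_le_mul (k1.trans (mul_le_mul_of_nonneg_left (Real.exp_le_exp.2 k3) (norm_nonneg _)))
      k2 (norm_nonneg _) (by positivity)).trans_eq ?_
    ring
  have v3 : |v.re - 1| ≤ η := by rw [v1, add_sub_cancel_left, abs_of_pos g3]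
  obtain ⟨d, c1⟩ := cmp w v rfl v2 a v3
  obtain ⟨-, c2⟩ := cmp v w v2 rfl v3 a
  have v4 : 1 < v.re := by linarith
  have v5 : v ≠ 1 := fun e => by simp [e] at v4
  have v6 : η ≤ ‖v - 1‖ := by
    have := re_le_norm (v - 1)
    rwa [sub_re, v1, one_re, add_sub_cancel_left] at this
  obtain ⟨s1, s2⟩ := hE1 _ x.2 z v hz v4
  have b1 := ser (hη ▸ v1) (by linarith) (fun n => x.2.norm_le_one _) s1 (hC z hz).1 (hC z hz).2
  have b2 := ser (a := fun n => (moebius n : ℂ) * x.2 n) (hη ▸ v1) (by linarith) (fun n => by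
    rw [norm_mul, norm_intCast]
    exact mul_le_one₀ (by exact_mod_cast abs_moebius_le_one) (norm_nonneg _) (x.2.norm_le_one _))
    s2 (hC z hz).1 (hC z hz).2
  have t1 : ‖w - 1‖ ≤ ‖w - v‖ + ‖v - 1‖ := norm_sub_le_norm_sub_add_norm_sub _ _ _
  have t2 : ‖v - 1‖ ≤ ‖v - w‖ + ‖w - 1‖ := norm_sub_le_norm_sub_add_norm_sub _ _ _
  rw [norm_sub_rev v w] at t2
  have q0 := norm_pos_iff.2 (mul_ne_zero (n1 w (by linarith) (by linarith)) (n2 w (by linarith)))
  have q1 := norm_pos_iff.2 (mul_ne_zero (n1 v (by linarith) (by rw [v2]; linarith))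
    (n2 v (by linarith)))
  rw [p2 v v5, mul_assoc, norm_mul (ite _ _ _)] at c1 c2 q1
  rw [norm_inv, inv_le_iff_one_le_mul₀ (pos_of_mul_pos_right q1 (norm_nonneg _))] at b2
  refine ⟨?_, fun hw => ?_⟩
  · have u : ‖if x.2 = 1 then w - 1 else 1‖ ≤ 3 * ‖if x.2 = 1 then v - 1 else 1‖ := by
      split_ifs
      · linarith
      · simp
    rw [Rz, norm_div, div_le_iff₀ q0]
    have u1 := mul_le_mul_of_nonneg_left b2 (norm_nonneg (if x.2 = 1 then v - 1 else 1))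
    have u2 := mul_le_mul_of_nonneg_left c1 (by linarith : 0 ≤ C)
    have u3 := mul_le_mul_of_nonneg_right e4 q0.le
    have u4 := mul_nonneg (by linarith : 0 ≤ E * C) q0.le
    nlinarith
  · rw [g2] at hw
    have w1 : w ≠ 1 := fun e => by
      rw [e, sub_self, norm_zero] at hw
      linarith
    have u : ‖if x.2 = 1 then v - 1 else 1‖ ≤ 5 * ‖if x.2 = 1 then w - 1 else 1‖ := by
      split_ifs
      · linarith
      · simp
    rw [p2 w w1, mul_assoc, norm_mul] at c2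
    have u1 : ‖LFunction x.2 w * ez x.2 z w‖ ≤ 5 * (E * C) := by
      refine le_of_mul_le_mul_left (c2.trans ?_) (norm_pos_iff.2 (n3 w w1))
      refine (mul_le_mul_of_nonneg_left (mul_le_mul u b1 (norm_nonneg _) (by positivity))
        (by linarith)).trans_eq ?_
      ring
    refine ⟨u1.trans e4, ?_⟩
    have u2 := mul_le_mul_of_nonneg_left (ez_ge x.2 (w := w) hz h0 h1 (by linarith) m3)
      (norm_nonneg (LFunction x.2 w))
    rw [mul_one, ← mul_assoc, ← norm_mul] at u2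
    rw [mul_assoc]
    exact u2.trans (mul_le_mul_of_nonneg_right u1 (by positivity))

end Pool.Agent.MP_20b2fd_nt.H38
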