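import Pool.Agent.MP_20b2fd_nt.H38.SpecZ

/-! The logarithmic derivative in the region without zeros. -/

set_option autoImplicit false

namespace Pool.Agent.MP_20b2fd_nt.H38

open Complex Finset ArithmeticFunction
open Pool.Agent.MP_c5bf7b_nt.H38 (Phi Ch)

namespace ZdA

theorem inv_diff (u : ℂ) (d : ℝ) (hu : 0 < u.re) (h0 : 0 ≤ d) (h1 : d ≤ 3 * u.re) :
    ‖u⁻¹ - (u + d)⁻¹‖ ≤ 4 * ((u + d)⁻¹).re := by
  have a1 : u.re ≤ ‖u‖ := re_le_norm u
  have a2 : 0 < ‖u‖ := hu.trans_le a1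
  have a3 : (u + d).re = u.re + d := by simp
  have a4 : 0 < ‖u + d‖ := lt_of_lt_of_le (by rw [a3]; linarith) (re_le_norm _)
  have a5 : ‖u + d‖ ≤ 4 * ‖u‖ := by
    have := norm_add_le u d
    rw [norm_real, Real.norm_of_nonneg h0] at this
    linarith
  have e : u⁻¹ - (u + d)⁻¹ = d / (u * (u + d)) := by
    have b1 := norm_pos_iff.1 a2
    have b2 := norm_pos_iff.1 a4
    field_simp
    ring
  rw [e, norm_div, norm_mul, norm_real, Real.norm_of_nonneg h0, inv_re, a3, normSq_eq_norm_sq,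
    ← mul_div_assoc, div_le_div_iff₀ (mul_pos a2 a4) (pow_pos a4 2)]
  have b1 : d * ‖u + d‖ ≤ 4 * (u.re + d) * ‖u‖ := by nlinarith
  nlinarith

theorem sum_diff (f g : ℂ → ℂ) (Z : Multiset ℂ) (h : ∀ ρ ∈ Z, ‖f ρ - g ρ‖ ≤ 4 * (g ρ).re) :
    ‖(Z.map f).sum - (Z.map g).sum‖ ≤ 4 * ((Z.map g).sum).re := by
  induction Z using Multiset.induction_on with
  | empty => simp
  | cons a Z ih =>
    rw [Multiset.map_cons, Multiset.map_cons, Multiset.sum_cons, Multiset.sum_cons, add_re,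
      add_sub_add_comm]
    have h1 := h a (Multiset.mem_cons_self _ _)
    have h2 := ih fun ρ hρ => h ρ (Multiset.mem_cons_of_mem hρ)
    linarith [norm_add_le (f a - g a) ((Z.map f).sum - (Z.map g).sum)]

theorem sum_re (g : ℂ → ℂ) (Z : Multiset ℂ) (h : ∀ ρ ∈ Z, 0 ≤ (g ρ).re) :
    0 ≤ ((Z.map g).sum).re := by
  have := sum_diff g g Z fun ρ hρ => by
    rw [sub_self, norm_zero]
    linarith [h ρ hρ]
  rw [sub_self, norm_zero] at this
  linarith

theorem lser_le {q : ℕ} (χ : Ch q) (s : ℂ) (hs : 1 < s.re) :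
    ‖LSeries (fun n => (vonMangoldt n : ℂ) * χ n) s‖ ≤
      (LSeries (fun n => (vonMangoldt n : ℂ) * (1 : Ch 1) n) (s.re : ℂ)).re := by
  have e : (fun n : ℕ => (vonMangoldt n : ℂ) * (1 : Ch 1) n) = fun n => (vonMangoldt n : ℂ) := by
    funext n
    rw [Subsingleton.elim (n : ZMod 1) 1, map_one, mul_one]
  rw [e]
  have h1 : LSeriesSummable (fun n => (vonMangoldt n : ℂ)) (s.re : ℂ) :=
    LSeriesSummable_vonMangoldt (by simpa using hs)
  refine tsum_of_norm_bounded (hasSum_re h1.hasSum) fun n => ?_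
  rcases eq_or_ne n 0 with rfl | hn
  · simp
  · rw [LSeries.norm_term_eq, if_neg hn, LSeries.term_of_ne_zero hn, ← ofReal_natCast n,
      ← ofReal_cpow (Nat.cast_nonneg n), ← ofReal_div, ofReal_re, norm_mul, norm_real,
      Real.norm_of_nonneg vonMangoldt_nonneg]
    refine div_le_div_of_nonneg_right ?_ (Real.rpow_nonneg (Nat.cast_nonneg n) _)
    exact mul_le_of_le_one_right vonMangoldt_nonneg (χ.norm_le_one _)

theorem norm_two (s : ℂ) : ‖s - (2 + s.im * I)‖ = |s.re - 2| := by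
  have : s - (2 + s.im * I) = ((s.re - 2 : ℝ) : ℂ) := by
    apply Complex.ext <;> simp
  rw [this, norm_real, Real.norm_eq_abs]

/-- to the right of the line of abscissa one -/
theorem right (hP : PhZ) (hZ : ZlS) : ∃ K : ℝ, 1 ≤ K ∧ ∀ (q : ℕ) [NeZero q] (χ : Ch q) (s : ℂ),
    1 < s.re → s.re ≤ 2 →
      ‖deriv (Phi χ) s / Phi χ s‖ ≤ 2 / (s.re - 1) + K * Real.log 2 := by
  obtain ⟨C, -, hC⟩ := hP
  obtain ⟨K, hK, h⟩ := hZ
  refine ⟨K, hK, fun q _ χ s h1 h2 => ?_⟩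
  obtain ⟨Z, z1, -, z3⟩ := h 1 1 0
  obtain ⟨-, p2, -, -, p5, -⟩ := hC 1 1
  have a0 : 1 < (s.re : ℂ).re := by simpa using h1
  have a1 := z3 s.re (by
    have := norm_two (s.re : ℂ)
    rw [ofReal_im, ofReal_re] at this
    rw [this, abs_lt]
    constructor <;> linarith) (p2 _ a0.le)
  have a2 := sum_re (fun ρ => ((s.re : ℂ) - ρ)⁻¹) Z fun ρ hρ => by
    rw [inv_re]
    refine div_nonneg ?_ (normSq_nonneg _)
    have := (z1 ρ hρ).2.1
    rw [sub_re, ofReal_re]
    linarith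
  have a3 := congrArg re (p5 _ a0)
  rw [if_pos rfl, sub_re, neg_re] at a3
  have a4 : ((1 : ℂ) / ((s.re : ℂ) - 1)).re = 1 / (s.re - 1) := by
    rw [← ofReal_one, ← ofReal_sub, ← ofReal_div, ofReal_re]
  have a5 := (abs_le.1 ((abs_re_le_norm _).trans a1)).1
  rw [sub_re, abs_zero, zero_add, Nat.cast_one, one_mul] at a5
  have a6 := lser_le χ s h1
  have a7 := congrArg norm ((hC q χ).2.2.2.2.1 s h1)
  rw [norm_neg] at a7
  rw [a7]
  refine (norm_sub_le _ _).trans ?_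
  have a8 : ‖(1 : ℂ) / (s - 1)‖ ≤ 1 / (s.re - 1) := by
    rw [norm_div, norm_one]
    refine one_div_le_one_div_of_le (by linarith) ?_
    simpa using re_le_norm (s - 1)
  have a9 : 0 ≤ 1 / (s.re - 1) := (norm_nonneg _).trans a8
  have a10 : 2 / (s.re - 1) = 1 / (s.re - 1) + 1 / (s.re - 1) := by ring
  split_ifs
  · linarith
  · rw [norm_zero]
    linarith

end ZdA

theorem zdOf : ZdOf := by
  intro hP hZ c hc hc'
  obtain ⟨K', hK', hR⟩ := ZdA.right hP hZ
  obtain ⟨C, -, hC⟩ := hP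
  obtain ⟨K, hK, h⟩ := hZ
  have c0 : 0 < 2 / c := by positivity
  refine ⟨48 * K + 5 * (2 / c + K'), by linarith, fun z hz hF x hx s s1 s2 s3 => ?_⟩
  have l2 : Real.log 2 ≤ Real.log z := Real.log_le_log two_pos hz
  have l3 := Real.log_two_gt_d9
  set l := Real.log z with hl
  have l0 : 0 < l := by linarith
  have e0 : 0 < c / l := by positivity
  have e1 : c / l ≤ 1 / 5 := by
    rw [div_le_iff₀ l0]
    linarith
  have e2 : c / (2 * l) = c / l / 2 := by field_simp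
  rw [e2] at s1
  have key : ∀ w : ℂ, 1 + c / l ≤ w.re → w.re ≤ 2 →
      ‖deriv (Phi x.2) w / Phi x.2 w‖ ≤ (2 / c + K') * l := fun w w1 w2 => by
    refine (hR _ x.2 w (by linarith) w2).trans ?_
    have b1 : 2 / (w.re - 1) ≤ 2 / (c / l) :=
      div_le_div_of_nonneg_left zero_le_two e0 (by linarith)
    have b2 : 2 / (c / l) = 2 / c * l := by field_simp
    have b3 : K' * Real.log 2 ≤ K' * l := mul_le_mul_of_nonneg_left l2 (by linarith)
    linarith
  have k0 : 0 ≤ (2 / c + K') * l := mul_nonneg (by linarith) l0.le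
  have k1 : 0 ≤ K * l := mul_nonneg (by linarith) l0.le
  by_cases hs : 1 + c / l ≤ s.re
  · have := key s hs s2
    linarith
  push Not at hs
  obtain ⟨Z, z1, -, z3⟩ := h _ x.2 s.im
  set d : ℝ := 1 + c / l - s.re with hd
  have r1 : (s + d).re = 1 + c / l := by simp [hd]
  have r2 : (s + d).im = s.im := by simp
  have n1 : Phi x.2 s ≠ 0 := fun h0 => by
    have := hF x hx s h0 (by linarith)
    linarith
  have a1 := z3 s (by
    rw [ZdA.norm_two, abs_lt]
    constructor <;> linarith) n1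
  have a2 := z3 (s + d) (by
    have := ZdA.norm_two (s + d)
    rw [r1, r2] at this
    rw [this, abs_lt]
    constructor <;> linarith) ((hC _ x.2).2.1 _ (by rw [r1]; linarith))
  have a3 := key (s + d) r1.ge (by rw [r1]; linarith)
  have a4 := ZdA.sum_diff (fun ρ => (s - ρ)⁻¹) (fun ρ => (s + d - ρ)⁻¹) Z fun ρ hρ => by
    obtain ⟨y1, -, y3⟩ := z1 ρ hρ
    have y4 := (abs_im_le_norm _).trans_lt y3
    have y5 : (ρ - (2 + s.im * I)).im = ρ.im - s.im := by simp
    rw [y5] at y4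
    have y6 : |ρ.im| ≤ z ^ 7 := by
      have := abs_add_le (ρ.im - s.im) s.im
      rw [sub_add_cancel] at this
      linarith
    have y7 := hF x hx ρ y1 y6
    have y8 := ZdA.inv_diff (s - ρ) d (by rw [sub_re]; linarith) (by linarith)
      (by rw [sub_re]; linarith)
    rwa [show s - ρ + d = s + d - ρ by ring] at y8
  have q1 : ((x.1 + 1 : ℕ) : ℝ) ≤ z := by
    have := mem_range.1 (mem_sigma.1 hx).1
    exact (Nat.cast_le.2 (Nat.succ_le_of_lt this)).trans (Nat.floor_le (by linarith))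
  have q2 : Real.log (((x.1 + 1 : ℕ) : ℝ) * (|s.im| + 2)) ≤ 8 * l := by
    have q3 : (0 : ℝ) < ((x.1 + 1 : ℕ) : ℝ) := Nat.cast_pos.2 (Nat.succ_pos _)
    have q4 : 0 < |s.im| + 2 := by positivity
    have q5 : ((x.1 + 1 : ℕ) : ℝ) * (|s.im| + 2) ≤ z ^ 8 := by
      rw [pow_succ']
      exact mul_le_mul q1 (by linarith) q4.le (by linarith)
    refine (Real.log_le_log (mul_pos q3 q4) q5).trans (le_of_eq ?_)
    rw [Real.log_pow, hl]
    norm_num
  have q6 := mul_le_mul_of_nonneg_left q2 (by linarith : 0 ≤ K)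
  set D := deriv (Phi x.2) s / Phi x.2 s
  set D1 := deriv (Phi x.2) (s + d) / Phi x.2 (s + d)
  set S := (Z.map fun ρ => (s - ρ)⁻¹).sum
  set S1 := (Z.map fun ρ => (s + d - ρ)⁻¹).sum
  have b1 : ‖S1‖ ≤ ‖D1‖ + ‖D1 - S1‖ := by
    have := norm_sub_le D1 (D1 - S1)
    rwa [sub_sub_cancel] at this
  have b2 : ‖D‖ ≤ ‖D - S‖ + ‖S - S1‖ + ‖S1‖ := by
    have := norm_add₃_le (a := D - S) (b := S - S1) (c := S1)
    rwa [show D - S + (S - S1) + S1 = D by ring] at this
  have b3 := re_le_norm S1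
  linarith

end Pool.Agent.MP_20b2fd_nt.H38
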