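import Pool.Agent.MP_20b2fd_nt.H38.SpecZ
import Pool.Agent.MP_c481b3_nt.H31.LocFac2

/-! The zeros near a point of the line of abscissa two. -/

set_option autoImplicit false

namespace Pool.Agent.MP_20b2fd_nt.H38

open Complex Metric
open Pool.Agent.MP_c5bf7b_nt.H38 (Phi Ch)

namespace ZlA

theorem bound {C q τ : ℝ} (hC : 1 ≤ C) (hq : 1 ≤ q) {s : ℂ} (hs : s ∈ ball (2 : ℂ) (7 / 4)) :
    0 < (s + τ * I).re ∧ C * q * (1 + ‖s + τ * I‖) ^ 2 * (1 + 1 / (s + τ * I).re) ≤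
      32 * C * (q * (|τ| + 2)) ^ 2 := by
  rw [mem_ball, dist_eq_norm] at hs
  have h1 : 1 / 4 < (s + τ * I).re := by
    have := abs_re_le_norm (s - 2)
    have h2 := neg_abs_le (s - 2).re
    simp at this h2 ⊢
    linarith
  have h2 : ‖s + τ * I‖ ≤ 4 + |τ| := by
    have a := norm_add_le s (τ * I)
    have b := norm_add_le (s - 2) 2
    rw [sub_add_cancel] at b
    simp at a b
    linarith
  have h3 : 1 / (s + τ * I).re ≤ 4 := by
    rw [div_le_iff₀ (by linarith)]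
    linarith
  have h4 : 0 < 1 / (s + τ * I).re := by
    have : 0 < (s + τ * I).re := by linarith
    positivity
  refine ⟨by linarith, ?_⟩
  have h5 := abs_nonneg τ
  have h6 : (1 + ‖s + τ * I‖) ^ 2 ≤ (5 / 2 * (|τ| + 2)) ^ 2 :=
    pow_le_pow_left₀ (by positivity) (by linarith) 2
  have h7 : q ≤ q ^ 2 := le_self_pow₀ hq two_ne_zero
  calc _ ≤ C * q ^ 2 * (5 / 2 * (|τ| + 2)) ^ 2 * 5 := by
        gcongr
        linarith
    _ = 125 / 4 * (C * (q * (|τ| + 2)) ^ 2) := by ring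
    _ ≤ 32 * (C * (q * (|τ| + 2)) ^ 2) := by
        gcongr
        norm_num
    _ = _ := by ring

theorem log_le {C Q : ℝ} (hC : 1 ≤ C) (hQ : 2 ≤ Q) :
    Real.log (32 * C * Q ^ 2) ≤ (Real.log (32 * C) / Real.log 2 + 2) * Real.log Q := by
  have h1 : 0 < Real.log 2 := Real.log_pos one_lt_two
  have h2 : Real.log 2 ≤ Real.log Q := Real.log_le_log two_pos hQ
  have h3 : 0 ≤ Real.log (32 * C) := Real.log_nonneg (by linarith)
  have h4 := mul_le_mul_of_nonneg_left h2 (div_nonneg h3 h1.le)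
  rw [div_mul_cancel₀ _ h1.ne'] at h4
  rw [Real.log_mul (by positivity) (by positivity), Real.log_pow, add_mul]
  push_cast
  linarith

end ZlA

theorem zlOf : ZlOf := by
  rintro ⟨C, hC, hP⟩
  obtain ⟨K, hK, hL⟩ := Pool.Agent.MP_c481b3_nt.H31.locFac2
  have h0 : 0 ≤ Real.log (32 * C) / Real.log 2 :=
    div_nonneg (Real.log_nonneg (by linarith)) (Real.log_nonneg one_le_two)
  refine ⟨K * (Real.log (32 * C) / Real.log 2 + 2), by nlinarith, fun q _ χ τ => ?_⟩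
  obtain ⟨p1, p2, p3, -, -, -, p4⟩ := hP q χ
  have hq : (1 : ℝ) ≤ q := by exact_mod_cast NeZero.one_le
  have hQ : (2 : ℝ) ≤ q * (|τ| + 2) := by nlinarith [abs_nonneg τ]
  obtain ⟨Z, h, -, z1, z2, -, z3⟩ := hL (fun s => Phi χ (s + τ * I)) (32 * C * (q * (|τ| + 2)) ^ 2)
    (p1.comp (differentiable_id.add_const _)).differentiableOn (by nlinarith)
    (fun s hs => (p4 _ (ZlA.bound hC hq hs).1).1.trans (ZlA.bound hC hq hs).2) (p3 τ)
  have e : ∀ s : ℂ, s - τ * I - 2 = s - (2 + τ * I) := fun s => by ring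
  refine ⟨Z.map fun ρ => ρ + τ * I, fun ρ hρ => ?_, fun ρ hρ hz => ?_, fun s hs hz => ?_⟩
  · obtain ⟨ρ, h1, rfl⟩ := Multiset.mem_map.1 hρ
    obtain ⟨h2, h3⟩ := z1 ρ h1
    refine ⟨h3, not_le.1 fun h4 => p2 _ h4 h3, ?_⟩
    rwa [← e, add_sub_cancel_right, ← dist_eq_norm]
  · refine Multiset.mem_map.2 ⟨ρ - τ * I, z2 _ ?_ (by simpa using hz), sub_add_cancel _ _⟩
    rwa [mem_ball, dist_eq_norm, e]
  · obtain ⟨h1, h2⟩ := z3 (s - τ * I) (by rwa [mem_ball, dist_eq_norm, e])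
    have h3 := h2 (by simpa using hz)
    rw [deriv_comp_add_const, sub_add_cancel] at h3
    rw [h3, Multiset.map_map]
    simp only [Function.comp_def, ← sub_sub, sub_right_comm s _ (τ * I), add_sub_cancel_left]
    rw [mul_assoc]
    exact h1.trans (mul_le_mul_of_nonneg_left (ZlA.log_le hC hQ) (by linarith))

end Pool.Agent.MP_20b2fd_nt.H38
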