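import Pool.Agent.MP_20b2fd_nt.H38.Kl
import Pool.Agent.MP_20b2fd_nt.H38.Bb
import Pool.Agent.MP_20b2fd_nt.H38.Ik
import Pool.Agent.MP_20b2fd_nt.H38.Dr
import Pool.Agent.MP_20b2fd_nt.H38.Dg
import Pool.Agent.MP_20b2fd_nt.H38.Dk
import Pool.Agent.MP_20b2fd_nt.H38.Dw
import Pool.Agent.MP_20b2fd_nt.H38.Dm
import Pool.Agent.MP_20b2fd_nt.H38.Dt
import Pool.Agent.MP_20b2fd_nt.H38.Dp
import Pool.Agent.MP_20b2fd_nt.H38.Dc
import Pool.Agent.MP_20b2fd_nt.H38.Ds1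
import Pool.Agent.MP_20b2fd_nt.H38.Ds
import Pool.Agent.MP_20b2fd_nt.H38.Mer
import Pool.Agent.MP_20b2fd_nt.H38.Fl
import Pool.Agent.MP_20b2fd_nt.H38.PhZ
import Pool.Agent.MP_20b2fd_nt.H38.Zl
import Pool.Agent.MP_20b2fd_nt.H38.Zd
import Pool.Agent.MP_20b2fd_nt.H38.Eu
import Pool.Agent.MP_20b2fd_nt.H38.Zb
import Pool.Agent.MP_20b2fd_nt.H38.Ls0
import Pool.Agent.MP_20b2fd_nt.H38.Ls1
import Pool.Agent.MP_20b2fd_nt.H38.LsP

/-! The dispersion rows and the rows on characters put together. -/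

namespace Pool.Agent.MP_20b2fd_nt.H38.All

theorem dt : DtS := dtOf dr
theorem ds : DsS :=
  dsOf (ds1Of dt (dcOf (dpOf dg (dkOf (ikOf kl bbS) bbS dg) (dwOf dg) (dmOf dr) dt)))
theorem zb : ZbS := zbOf mer phZ (zdOf phZ (zlOf phZ)) (euOf mer)
theorem lsP : LsP := lsPOf (ls1Of (ls0Of fl))

end Pool.Agent.MP_20b2fd_nt.H38.All
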