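import Pool.Agent.MP_20b2fd_nt.H38.AllA

/-! The sets of eigenforms in classical terms. -/

namespace Pool.Agent.MP_20b2fd_nt.H38

open UpperHalfPlane hiding I

theorem fricke {N : ℕ} (hN : N.Prime) (f : ℍ → ℂ) :
    sl f (WN N) = -f ↔ ∀ z w : ℍ, (w : ℂ) = -1 / (N * z) → f w = -N * (z : ℂ) ^ 2 * f z := by
  have hN0 : (N : ℂ) ≠ 0 := Nat.cast_ne_zero.2 hN.ne_zero
  have hd : 0 < det (WN N) := by simpa [det, WN] using hN.pos
  have c : ∀ z : ℍ, ((ac (WN N) z : ℍ) : ℂ) = -1 / (N * z) := fun z => by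
    rw [kit.coez _ _ hd]; simp [WN]
  have s : ∀ z : ℍ, sl f (WN N) z = 1 / (N * (z : ℂ) ^ 2) * f (ac (WN N) z) := fun z => by
    have := z.ne_zero
    rw [kit.slz _ _ _ hd]
    simp only [det, WN]
    push_cast
    congr 1
    field_simp
    ring
  constructor
  · intro h z w hw
    have e : w = ac (WN N) z := UpperHalfPlane.ext (hw.trans (c z).symm)
    have h1 := congrFun h z
    have := z.ne_zero
    rw [s, Pi.neg_apply, ← e] at h1
    field_simp at h1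
    linear_combination h1
  · intro h
    funext z
    have := z.ne_zero
    rw [s, h z _ (c z), Pi.neg_apply]
    field_simp

theorem hp_eq {N : ℕ} (hN : N.Prime) : Hp N = {f : CF N | co f 1 = 1 ∧
    (∀ p : ℕ, p.Prime → ∃ l : ℂ, ∀ n : ℕ, 1 ≤ n →
      co f (p * n) + (if ¬ p ∣ N ∧ p ∣ n then p * co f (n / p) else 0) = l * co f n) ∧
    ∀ z w : ℍ, (w : ℂ) = -1 / (N * z) → f w = -N * (z : ℂ) ^ 2 * f z} := by
  have d : ∀ p : ℕ, p.Prime → p ≠ N → ¬ p ∣ N := fun p hp h e =>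
    h ((Nat.prime_dvd_prime_iff_eq hp hN).1 e)
  have : NeZero N := ⟨hN.ne_zero⟩
  ext f
  constructor
  · rintro ⟨⟨h1, h2, -⟩, h3⟩
    refine ⟨h1, fun p hp => ?_, (fricke hN f).1 h3⟩
    by_cases e : p = N
    · subst e
      refine ⟨1, fun n _ => ?_⟩
      have k := (All.hq p f hp).2 ((-1 : ℂ) • f) (by rw [h3]; ext z; simp) n
      rw [((All.qx p f).2.2.2.2.2.2 f (-1) n).2] at k
      simp [k]
    · obtain ⟨l, hl⟩ := h2 p hp e
      exact ⟨l, fun n hn => by simpa [d p hp e] using hl n hn⟩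
  · rintro ⟨h1, h2, h3⟩
    have h4 := (fricke hN f).2 h3
    refine ⟨⟨h1, fun p hp e => ?_, Or.inr h4⟩, h4⟩
    obtain ⟨l, hl⟩ := h2 p hp
    exact ⟨l, fun n hn => by simpa [d p hp e] using hl n hn⟩

theorem hn_eq {N : ℕ} (hN : N.Prime) : Hn N = {f : CF N | f ∈ Hp N ∧
    ∃ L : ℂ → ℂ, Differentiable ℂ L ∧ (∀ s : ℂ, 2 < s.re → LSeriesHasSum (co f) s (L s)) ∧
      L 1 ≠ 0} := by
  ext f
  refine and_congr_right fun _ => ⟨fun h => ?_, fun ⟨L, a, b, c⟩ => ?_⟩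
  · obtain ⟨L, a, b, c⟩ := (All.af N f hN).1
    exact ⟨L, a, b, c ▸ h⟩
  · exact (All.af N f hN).2.1 L a b ▸ c

end Pool.Agent.MP_20b2fd_nt.H38
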