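import Pool.Agent.MP_20b2fd_nt.H38.SpecC

/-! Row C0: a convolution with the totient. -/

set_option autoImplicit false

namespace Pool.Agent.MP_20b2fd_nt.H38

open Finset ArithmeticFunction

namespace C0A

/-- the local factor -/
noncomputable def w (q p : ℕ) : ℂ := if p ∣ q then 1 else 1 - (p : ℂ)⁻¹

theorem tot (n : ℕ) : (n.totient : ℂ) = n * ∏ p ∈ n.primeFactors, (1 - (p : ℂ)⁻¹) := by
  have := congrArg (fun x : ℚ => (x : ℂ)) (Nat.totient_eq_mul_prod_factors n)
  simpa using this

theorem tot_mul {q e : ℕ} (hq : q ≠ 0) (he : e ≠ 0) :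
    ((q * e).totient : ℂ) = q.totient * (e * ∏ p ∈ e.primeFactors, w q p) := by
  have h : ∏ p ∈ e.primeFactors, w q p = ∏ p ∈ e.primeFactors \ q.primeFactors, (1 - (p : ℂ)⁻¹) := by
    rw [sdiff_eq_filter, prod_filter]
    refine prod_congr rfl fun p hp => ?_
    simp [w, Nat.prime_of_mem_primeFactors hp, hq]
  rw [tot, tot, h, Nat.primeFactors_mul hq he, ← union_sdiff_self_eq_union,
    prod_union disjoint_sdiff]
  push_cast
  ring

/-- the first factor -/
noncomputable def f (q b : ℕ) : ArithmeticFunction ℂ :=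
  ⟨fun e => if e.Coprime b then ((e : ℂ) * ∏ p ∈ e.primeFactors, w q p)⁻¹ else 0, by simp⟩

/-- the second factor -/
noncomputable def g : ArithmeticFunction ℂ := ⟨fun r => (moebius r : ℂ) / r, by simp⟩

open Classical in
/-- the product -/
noncomputable def R (q b : ℕ) : ArithmeticFunction ℂ :=
  ⟨fun n => if Squarefree n ∧ n.Coprime q then
    ∏ p ∈ n.primeFactors, (-1 / (p : ℂ) + if p ∣ b then 0 else 1 / ((p : ℂ) - 1)) else 0, by simp⟩

theorem f_mul (q b : ℕ) : (f q b).IsMultiplicative := by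
  refine ⟨by simp [f], fun {m n} h => ?_⟩
  simp only [f, coe_mk, Nat.coprime_mul_iff_left, h.primeFactors_mul,
    prod_union h.disjoint_primeFactors, ite_zero_mul_ite_zero]
  refine if_congr Iff.rfl ?_ rfl
  push_cast
  ring

theorem g_mul : g.IsMultiplicative := by
  refine ⟨by simp [g], fun {m n} h => ?_⟩
  simp only [g, coe_mk, isMultiplicative_moebius.map_mul_of_coprime h]
  push_cast
  ring

theorem R_mul (q b : ℕ) : (R q b).IsMultiplicative := by
  refine ⟨by simp [R], fun {m n} h => ?_⟩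
  simp only [R, coe_mk, Nat.coprime_mul_iff_left, h.primeFactors_mul,
    prod_union h.disjoint_primeFactors, Nat.squarefree_mul h, ite_zero_mul_ite_zero]
  exact if_congr (by tauto) rfl rfl

theorem f_pow (q b : ℕ) {p : ℕ} (hp : p.Prime) (k : ℕ) :
    f q b (p ^ (k + 1)) = if p ∣ b then 0 else ((p : ℂ) ^ (k + 1) * w q p)⁻¹ := by
  simp [f, Nat.coprime_pow_left_iff k.succ_pos, hp.coprime_iff_not_dvd,
    Nat.primeFactors_prime_pow k.succ_ne_zero hp]

theorem conv (F : ArithmeticFunction ℂ) {p : ℕ} (hp : p.Prime) (k : ℕ) :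
    (F * g) (p ^ (k + 1)) = F (p ^ (k + 1)) - F (p ^ k) / p := by
  rw [mul_apply, Nat.sum_divisorsAntidiagonal' fun a b => F a * g b,
    Nat.sum_divisors_prime_pow hp, sum_range_succ', sum_range_succ', sum_eq_zero]
  · simp [g, moebius_apply_prime hp, pow_succ, Nat.mul_div_cancel _ hp.pos]
    ring
  · intro i _
    simp [g, moebius_apply_prime_pow hp]

theorem main {q b : ℕ} (h : q.Coprime b) : f q b * g = R q b := by
  rw [((f_mul q b).mul g_mul).eq_iff_eq_on_prime_powers _ _ (R_mul q b)]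
  intro p i hp
  have p0 : (p : ℂ) ≠ 0 := Nat.cast_ne_zero.2 hp.ne_zero
  rcases i with _ | _ | k
  · rw [pow_zero, ((f_mul q b).mul g_mul).1, (R_mul q b).1]
  · rw [conv _ hp, f_pow q b hp, pow_zero, (f_mul q b).1]
    simp only [R, coe_mk, zero_add, pow_one, hp.squarefree, hp.coprime_iff_not_dvd, true_and,
      hp.primeFactors, prod_singleton, w]
    by_cases h1 : p ∣ q
    · have h2 : ¬ p ∣ b := fun h2 => hp.ne_one (Nat.eq_one_of_dvd_coprimes h h1 h2)
      simp [h1, h2]
    · rw [if_neg h1, if_pos h1, mul_sub, mul_one, mul_inv_cancel₀ p0]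
      split_ifs <;> ring
  · rw [conv _ hp, f_pow q b hp, f_pow q b hp]
    have : ¬ Squarefree (p ^ (k + 1 + 1)) := fun s => by
      have := ((Nat.squarefree_pow_iff hp.ne_one (by omega)).1 s).2
      omega
    simp only [R, coe_mk, this, false_and, if_false]
    split_ifs
    · simp
    · rw [pow_succ _ (k + 1)]
      ring

end C0A

open C0A in
theorem c0 : C0S := by
  intro q b n hq hn h
  have e := congrArg (fun F : ArithmeticFunction ℂ => 1 / (q.totient : ℂ) * F n) (main h)
  simp only [mul_apply, R, coe_mk, mul_sum, mul_ite, mul_zero] at e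
  refine Eq.trans (sum_congr rfl fun d hd => ?_) (e.trans (if_congr Iff.rfl rfl rfl))
  rw [tot_mul (by omega) (Nat.left_ne_zero_of_mem_divisorsAntidiagonal hd)]
  simp only [f, g, coe_mk]
  split_ifs
  · ring
  · ring

end Pool.Agent.MP_20b2fd_nt.H38
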