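import Pool.Agent.MP_20b2fd_nt.H38.SpecC

/-! The major arcs in terms of primitive characters. -/

set_option autoImplicit false

namespace Pool.Agent.MP_20b2fd_nt.H38

open Complex Finset ArithmeticFunction
open scoped Classical

namespace C1A

theorem hyp {Z : ℕ} (F : ℕ → ℕ → ℂ) (hF : ∀ a b, Z < a * b → F a b = 0) :
    ∑ q ∈ Icc 1 Z, ∑ d ∈ q.divisorsAntidiagonal, F d.1 d.2 =
      ∑ a ∈ Icc 1 Z, ∑ b ∈ Icc 1 Z, F a b := by
  change ∑ q ∈ Ioc 0 Z, _ = ∑ a ∈ Ioc 0 Z, ∑ b ∈ Ioc 0 Z, _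
  rw [sum_congr rfl fun q hq => by
      rw [Nat.divisorsAntidiagonal_eq_prod_filter_of_le (mem_Ioc.1 hq).1.ne' (mem_Ioc.1 hq).2],
    sum_fiberwise_eq_sum_filter, ← sum_product']
  refine sum_filter_of_ne fun d hd h => mem_Ioc.2 ⟨?_, not_lt.1 fun k => h (hF _ _ k)⟩
  exact Nat.mul_pos (mem_Ioc.1 (mem_product.1 hd).1).1 (mem_Ioc.1 (mem_product.1 hd).2).1

theorem mult {Z q : ℕ} (hq : 1 ≤ q) (F : ℕ → ℂ) (hF : ∀ a, Z < a → F a = 0) :
    ∑ e ∈ Icc 1 Z, (if q ∣ e then F e else 0) = ∑ e ∈ Icc 1 Z, F (q * e) := by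
  rw [← sum_filter]
  refine (sum_bij_ne_zero (fun e _ _ => q * e) (fun e he h => mem_filter.2 ⟨mem_Icc.2
    ⟨Nat.mul_pos hq (mem_Icc.1 he).1, not_lt.1 fun k => h (hF _ k)⟩, dvd_mul_right _ _⟩)
    (fun _ _ _ _ _ _ h => Nat.eq_of_mul_eq_mul_left hq h) (fun e he h => ?_) fun _ _ _ => rfl).symm
  obtain ⟨h1, a, rfl⟩ := mem_filter.1 he
  rw [mem_Icc] at h1
  exact ⟨a, mem_Icc.2 ⟨Nat.pos_of_mul_pos_left h1.1, (Nat.le_mul_of_pos_left a hq).trans h1.2⟩,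
    h, rfl⟩

/-- the condition on the pair of the common divisor and the cofactor -/
def Pc (N m : ℕ) (h : ℤ) (g e : ℕ) : Prop :=
  IsCoprime ((m / g : ℕ) : ℤ) e ∧ (e : ℤ) ∣ (m / g : ℕ) - -(h / g) * N

theorem ind {N m e : ℕ} {h : ℤ} (hm : 1 ≤ m) (he : 1 ≤ e) (hN : e.Coprime N) (c : ℂ) :
    (if (e : ℤ) ∣ m + h * N then c else 0) = ∑ d ∈ e.divisorsAntidiagonal,
      if d.1 ∈ (m.gcd h.natAbs).divisors ∧ Pc N m h d.1 d.2 then c else 0 := by
  have k1 : ∀ d ∈ e.divisorsAntidiagonal, d.1 ∈ (m.gcd h.natAbs).divisors ∧ Pc N m h d.1 d.2 →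
      (e : ℤ) ∣ m + h * N ∧ d = (e.gcd m, e / e.gcd m) := by
    rintro ⟨g, e'⟩ hd ⟨h1, h2, h3⟩
    obtain ⟨rfl, -⟩ := Nat.mem_divisorsAntidiagonal.1 hd
    obtain ⟨⟨m', rfl⟩, h4⟩ := Nat.dvd_gcd_iff.1 (Nat.dvd_of_mem_divisors h1)
    obtain ⟨h', rfl⟩ := Int.natCast_dvd.2 h4
    have g0 : 0 < g := Nat.pos_of_mem_divisors h1
    simp only [Nat.mul_div_cancel_left _ g0,
      Int.mul_ediv_cancel_left _ (Int.natCast_ne_zero.2 g0.ne')] at h2 h3 ⊢
    rw [Nat.gcd_mul_left, (Nat.isCoprime_iff_coprime.1 h2).symm, mul_one,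
      Nat.mul_div_cancel_left _ g0]
    refine ⟨?_, rfl⟩
    rw [show ((g * m' : ℕ) : ℤ) + g * h' * N = g * (m' - -h' * N) by push_cast; ring, Nat.cast_mul]
    exact mul_dvd_mul_left _ h3
  split_ifs with hl
  · have g0 : 0 < e.gcd m := Nat.gcd_pos_of_pos_left _ he
    have h1 : ((e.gcd m : ℕ) : ℤ) ∣ h := by
      have a : ((e.gcd m : ℕ) : ℤ) ∣ h * N := (dvd_add_right (Int.natCast_dvd_natCast.2
        (Nat.gcd_dvd_right e m))).1 ((Int.natCast_dvd_natCast.2 (Nat.gcd_dvd_left e m)).trans hl)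
      exact (Nat.isCoprime_iff_coprime.2
        (hN.coprime_dvd_left (Nat.gcd_dvd_left e m))).dvd_of_dvd_mul_right a
    rw [sum_eq_single_of_mem (e.gcd m, e / e.gcd m) (Nat.mem_divisorsAntidiagonal.2
      ⟨Nat.mul_div_cancel' (Nat.gcd_dvd_left e m), by omega⟩)
      fun d hd ne => if_neg fun k => ne (k1 d hd k).2, if_pos]
    refine ⟨Nat.mem_divisors.2 ⟨Nat.dvd_gcd (Nat.gcd_dvd_right e m) (Int.natCast_dvd.1 h1),
      (Nat.gcd_pos_of_pos_left _ hm).ne'⟩,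
      Nat.isCoprime_iff_coprime.2 (Nat.coprime_div_gcd_div_gcd g0).symm, ?_⟩
    refine (mul_dvd_mul_iff_left (Int.natCast_ne_zero.2 g0.ne')).1 ?_
    rw [← Nat.cast_mul, Nat.mul_div_cancel' (Nat.gcd_dvd_left e m), mul_sub, ← Nat.cast_mul,
      Nat.mul_div_cancel' (Nat.gcd_dvd_right e m), neg_mul, mul_neg, ← mul_assoc,
      Int.mul_ediv_cancel' h1, sub_neg_eq_add]
    exact hl
  · exact (sum_eq_zero fun d hd => if_neg fun k => hl (k1 d hd k).1).symm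

theorem sqf {z : ℝ} {q : ℕ} (F : ℕ → ℂ) (hF : ∀ n, ⌊z⌋₊ < n → F n = 0) :
    ∑ n ∈ Icc 1 ⌊z⌋₊, (if Squarefree n ∧ n.Coprime q then F n else 0) =
      ∑ n ∈ (∏ p ∈ pz z, p).divisors.filter (fun n => n.Coprime q), F n := by
  have hp : ∀ p ∈ pz z, p.Prime := fun p h => (mem_filter.1 h).2.1
  have hs : Squarefree (∏ p ∈ pz z, p) := squarefree_prod_of_pairwise_isCoprime
    (fun a ha b hb ne => Nat.coprime_iff_isRelPrime.1 ((Nat.coprime_primes (hp a ha) (hp b hb)).2 ne))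
    fun p h => (hp p h).squarefree
  rw [← sum_filter]
  refine sum_subset (fun n hn => ?_) fun n hn hn' => hF n (not_le.1 fun k => hn' ?_)
  · obtain ⟨h1, h2, h3⟩ := mem_filter.1 hn
    refine mem_filter.2 ⟨Nat.mem_divisors.2 ⟨?_, hs.ne_zero⟩, h3⟩
    rw [← Nat.prod_primeFactors_of_squarefree h2]
    refine prod_dvd_prod_of_subset _ _ _ fun p h => ?_
    have pp := Nat.prime_of_mem_primeFactors h
    exact mem_filter.2 ⟨mem_Icc.2 ⟨pp.one_le, (Nat.le_of_mem_primeFactors h).trans (mem_Icc.1 h1).2⟩,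
      pp, by exact_mod_cast pp.one_lt⟩
  · obtain ⟨h1, h2⟩ := mem_filter.1 hn
    exact mem_filter.2 ⟨mem_Icc.2 ⟨Nat.pos_of_mem_divisors h1, k⟩,
      hs.squarefree_of_dvd (Nat.dvd_of_mem_divisors h1), h2⟩

/-- one character -/
theorem one (h0 : C0S) {z : ℝ} {q b : ℕ} (hq : 1 ≤ q) (hb : q.Coprime b) (Φ : ℕ → ℂ)
    (hΦ : ∀ n, ⌊z⌋₊ < n → Φ n = 0) :
    ∑ e ∈ Icc 1 ⌊z⌋₊, (if q ∣ e then (if e.Coprime b then 1 / (e.totient : ℂ) else 0) *
        ∑ r ∈ Icc 1 ⌊z⌋₊, Φ (e * r) * ((moebius r : ℂ) / r) else 0) =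
      1 / (q.totient : ℂ) * ∑ n ∈ (∏ p ∈ pz z, p).divisors.filter (fun n => n.Coprime q),
        Φ (q * n) * ∏ p ∈ n.primeFactors, (-1 / (p : ℂ) + if p ∣ b then 0 else 1 / ((p : ℂ) - 1)) := by
  have v : ∀ n, ⌊z⌋₊ < n → Φ (q * n) = 0 := fun n h =>
    hΦ _ (h.trans_le (Nat.le_mul_of_pos_left n hq))
  rw [mult hq _ fun e he => by
      rw [sum_eq_zero fun r hr => by
        rw [hΦ _ (he.trans_le (Nat.le_mul_of_pos_right e (mem_Icc.1 hr).1)), zero_mul], mul_zero],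
    ← sqf _ fun n h => by rw [v n h, zero_mul], mul_sum]
  simp only [mul_sum]
  rw [← hyp _ fun a r h => by rw [mul_assoc, v _ h, zero_mul, mul_zero]]
  refine sum_congr rfl fun n hn => ?_
  have := congrArg (Φ (q * n) * ·) (h0 q b n hq (mem_Icc.1 hn).1 hb)
  simp only [mul_sum] at this
  refine Eq.trans (sum_congr rfl fun d hd => ?_) (this.trans (by split_ifs <;> ring))
  rw [mul_assoc q, (Nat.mem_divisorsAntidiagonal.1 hd).1,
    if_congr (Nat.coprime_mul_iff_left.trans (and_iff_right hb)) rfl rfl]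
  ring

end C1A

open C1A

theorem c1Of : C1Of := by
  intro hC h0 z Φ N m h hN hz hΦ hm hh
  have v : ∀ n, ⌊z⌋₊ < n → Φ n = 0 := fun n k => hΦ n (Nat.lt_of_floor_lt k)
  have lz : ∀ e ∈ Icc 1 ⌊z⌋₊, (e : ℝ) ≤ z := fun e he =>
    (Nat.le_floor_iff' (by have := (mem_Icc.1 he).1; omega)).1 (mem_Icc.1 he).2
  have cN : ∀ e ∈ Icc 1 ⌊z⌋₊, e.Coprime N := fun e he =>
    ((Nat.coprime_of_lt_prime (by have := (mem_Icc.1 he).1; omega)
      (by exact_mod_cast (lz e he).trans_lt hz) hN)).symm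
  obtain ⟨Ψ, hΨ⟩ : ∃ Ψ : ℕ → ℂ, ∀ e, Ψ e = ∑ r ∈ Icc 1 ⌊z⌋₊, Φ (e * r) * ((moebius r : ℂ) / r) :=
    ⟨_, fun _ => rfl⟩
  have vΨ : ∀ e, ⌊z⌋₊ < e → Ψ e = 0 := fun e he => (hΨ e).trans (sum_eq_zero fun r hr => by
    rw [v _ (he.trans_le (Nat.le_mul_of_pos_right e (mem_Icc.1 hr).1)), zero_mul])
  calc _ = ∑ q ∈ Icc 1 ⌊z⌋₊, ∑ d ∈ q.divisorsAntidiagonal,
          if (d.1 : ℤ) ∣ m + h * N then Φ (d.1 * d.2) * ((moebius d.2 : ℂ) / d.2) else 0 := by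
        refine sum_congr rfl fun q hq => ?_
        rw [cq, ← Nat.sum_divisorsAntidiagonal fun e r =>
          if (e : ℤ) ∣ m + h * N then (moebius r : ℝ) * e else 0, ofReal_sum, mul_sum, sum_div]
        refine sum_congr rfl fun d hd => ?_
        obtain ⟨e1, e2⟩ := Nat.mem_divisorsAntidiagonal.1 hd
        have e3 : (d.1 : ℂ) ≠ 0 := Nat.cast_ne_zero.2 (left_ne_zero_of_mul (e1 ▸ e2))
        rw [← e1]
        split_ifs
        · push_cast
          field_simp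
        · simp
    _ = ∑ e ∈ Icc 1 ⌊z⌋₊, if (e : ℤ) ∣ m + h * N then Ψ e else 0 := by
        rw [hyp (fun e r => if (e : ℤ) ∣ m + h * N then Φ (e * r) * ((moebius r : ℂ) / r) else 0)
          fun e r k => by rw [v _ k, zero_mul, ite_self]]
        exact sum_congr rfl fun e _ => by rw [hΨ, sum_ite_irrel, sum_const_zero]
    _ = ∑ g ∈ Icc 1 ⌊z⌋₊, ∑ e ∈ Icc 1 ⌊z⌋₊,
          if g ∈ (m.gcd h.natAbs).divisors ∧ Pc N m h g e then Ψ (g * e) else 0 := by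
        rw [← hyp _ fun g e k => by rw [vΨ _ k, ite_self]]
        refine sum_congr rfl fun e he => (ind hm (mem_Icc.1 he).1 (cN e he) _).trans ?_
        exact sum_congr rfl fun d hd => by rw [(Nat.mem_divisorsAntidiagonal.1 hd).1]
    _ = ∑ g ∈ (m.gcd h.natAbs).divisors, ∑ e ∈ Icc 1 ⌊z⌋₊,
          if Pc N m h g e then Ψ (g * e) else 0 := by
        simp only [ite_and, sum_ite_irrel, sum_const_zero]
        rw [← sum_filter]
        refine sum_subset (fun g hg => (mem_filter.1 hg).2) fun g hg hg' => sum_eq_zero fun e he => ?_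
        rw [vΨ, ite_self]
        exact (not_le.1 fun k => hg' (mem_filter.2 ⟨mem_Icc.2 ⟨Nat.pos_of_mem_divisors hg, k⟩,
          hg⟩)).trans_le (Nat.le_mul_of_pos_right g (mem_Icc.1 he).1)
    _ = _ := sum_congr rfl fun g hg => ?_
  have g0 := Nat.pos_of_mem_divisors hg
  have e0 : h.natAbs / g = (h / g).natAbs := (Int.natAbs_ediv_of_dvd (Int.natCast_dvd.2
    (Nat.dvd_gcd_iff.1 (Nat.dvd_of_mem_divisors hg)).2)).symm
  rw [e0, sum_congr rfl fun e _ => if_congr (show Pc N m h g e ↔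
    IsCoprime ((m / g : ℕ) : ℤ) e ∧ (e : ℤ) ∣ (m / g : ℕ) - -(h / g) * N from Iff.rfl) rfl rfl]
  generalize m / g = u
  generalize h / g = w
  have cop : ∀ e : ℕ, e.Coprime (u * w.natAbs) ↔ IsCoprime (u : ℤ) e ∧ IsCoprime w e := fun e => by
    rw [Nat.coprime_mul_iff_right, Nat.isCoprime_iff_coprime, Int.isCoprime_iff_gcd_eq_one,
      Nat.coprime_comm, Nat.coprime_comm (n := e)]
    rfl
  calc _ = ∑ e ∈ Icc 1 ⌊z⌋₊, ∑ x ∈ pcs z, x.2 u * x.2⁻¹ ((-w * N : ℤ)) *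
          if x.1 + 1 ∣ e then (if e.Coprime (u * w.natAbs) then 1 / (e.totient : ℂ) else 0) *
            Ψ (g * e) else 0 := by
        refine sum_congr rfl fun e he => ?_
        have t0 : (e.totient : ℂ) ≠ 0 := Nat.cast_ne_zero.2 (Nat.totient_pos.2 (mem_Icc.1 he).1).ne'
        have := congrArg (· * (1 / (e.totient : ℂ) * Ψ (g * e)))
          (hC z e u (-w * N) (mem_Icc.1 he).1 (lz e he))
        simp only [sum_filter, sum_mul] at this
        refine Eq.trans (by split_ifs <;> simp [t0]) (this.trans (sum_congr rfl fun x _ => ?_))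
        simp only [cop, IsCoprime.mul_left_iff, IsCoprime.neg_left_iff,
          and_iff_left (Nat.isCoprime_iff_coprime.2 (cN e he).symm), Int.cast_natCast]
        split_ifs <;> ring
    _ = _ := sum_comm.trans (sum_congr rfl fun x _ => ?_)
  rw [← mul_sum]
  by_cases hb : (x.1 + 1).Coprime (u * w.natAbs)
  · have := one h0 (z := z) (Nat.succ_pos x.1) hb (fun n => Φ (g * n)) fun n k =>
      v _ (k.trans_le (Nat.le_mul_of_pos_left n g0))
    simp only [hΨ, mul_assoc g]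
    rw [this]
    ring
  · rw [show x.2 u * x.2⁻¹ ((-w * N : ℤ)) = 0 from ?_, zero_mul, mul_zero, zero_mul]
    rw [← Int.cast_natCast u, mul_eq_zero, DirichletCharacter.apply_eq_zero_iff,
      DirichletCharacter.apply_eq_zero_iff, ← not_and_or]
    exact fun k => hb ((cop _).2 ⟨k.1, (IsCoprime.neg_left_iff _ _).1 k.2.of_mul_left_left⟩)

end Pool.Agent.MP_20b2fd_nt.H38
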