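import Pool.Agent.MP_20b2fd_nt.H38.SpecZ

/-! Orthogonality in terms of primitive characters. -/

set_option autoImplicit false

namespace Pool.Agent.MP_20b2fd_nt.H38

open Finset DirichletCharacter
open Pool.Agent.MP_c5bf7b_nt.H38 (Ch)

namespace ChA

open Classical in
theorem mem_pcs {z : ℝ} {x : CC} : x ∈ pcs z ↔ x.1 < ⌊z⌋₊ ∧ x.2.IsPrimitive := by
  simp [pcs]

theorem orth (e : ℕ) [NeZero e] (u : ℤ) {v : ℤ} (hv : IsCoprime v (e : ℤ)) :
    ∑ χ : Ch e, χ u * χ⁻¹ v = if (e : ℤ) ∣ u - v then (e.totient : ℂ) else 0 := by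
  rw [← if_congr (ZMod.intCast_eq_intCast_iff_dvd_sub v u e) rfl rfl,
    ← ZMod.coe_unitOfIsCoprime _ hv]
  simp only [MulChar.inv_apply, Ring.inverse_unit, ← map_mul, sum_characters_eq,
    Units.mul_inv_eq_one]
  exact if_congr eq_comm rfl rfl

end ChA

open ChA in
theorem chS : ChS := by
  intro z e u v he hz
  have : NeZero e := ⟨by omega⟩
  by_cases h : IsCoprime u (e : ℤ) ∧ IsCoprime v (e : ℤ)
  · simp only [h, true_and, if_true]
    rw [← orth e u h.2]
    refine (sum_bij (fun x hx => changeLevel (mem_filter.1 hx).2 x.2) (fun _ _ => mem_univ _)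
      ?_ (fun χ _ => ?_) fun x hx => ?_).symm
    · rintro ⟨i, χ⟩ h1 ⟨j, ψ⟩ h2 h3
      have h4 := congrArg conductor h3
      rw [conductor_changeLevel, conductor_changeLevel, (mem_pcs.1 (mem_filter.1 h1).1).2,
        (mem_pcs.1 (mem_filter.1 h2).1).2] at h4
      obtain rfl : i = j := Nat.succ_injective h4
      exact congrArg _ (changeLevel_injective _ h3)
    · have : ∀ d (hd : d ∣ e) (ψ : Ch d), ψ.IsPrimitive → ∃ x, ∃ hx : x ∈ (pcs z).filter
          (fun x => x.1 + 1 ∣ e), changeLevel (mem_filter.1 hx).2 x.2 = changeLevel hd ψ := by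
        intro d hd ψ hψ
        obtain ⟨i, rfl⟩ := Nat.exists_eq_succ_of_ne_zero (ne_zero_of_dvd_ne_zero (NeZero.ne e) hd)
        exact ⟨⟨i, ψ⟩, mem_filter.2 ⟨mem_pcs.2
          ⟨(Nat.le_of_dvd he hd).trans (Nat.le_floor hz), hψ⟩, hd⟩, rfl⟩
      obtain ⟨x, hx, h1⟩ := this _ χ.conductor_dvd_level _ χ.primitiveCharacter_isPrimitive
      exact ⟨x, hx, h1.trans χ.changeLevel_primitiveCharacter⟩
    · rw [← map_inv, changeLevel_eq_cast_of_dvd' _ _ h.1, changeLevel_eq_cast_of_dvd' _ _ h.2]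
  · simp only [h, if_false, sum_const_zero]
    refine if_neg fun ⟨h1, c, h2⟩ => h ⟨h1, ?_⟩
    rw [sub_eq_iff_eq_add'.1 h2] at h1
    exact h1.of_add_mul_left_left

end Pool.Agent.MP_20b2fd_nt.H38
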