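import Pool.Agent.MP_20b2fd_nt.H38.SpecC
import Pool.Agent.MP_74e98a_nt.H25.Div

/-! The parts of the terms off the diagonal that are cut away. -/

set_option autoImplicit false

namespace Pool.Agent.MP_20b2fd_nt.H38

open Finset Filter

namespace CutA

/-- one term -/
noncomputable def tm (k : ℝ → ℝ) (N m : ℕ) (h : ℤ) : ℝ :=
  tau h.natAbs * tau (m + h * N : ℤ).natAbs * k (h * N / m)

theorem ev (ε C : ℝ) (hε : 0 < ε) : ∀ᶠ N : ℕ in atTop, C ≤ (N : ℝ) ^ ε :=
  ((tendsto_rpow_atTop hε).comp tendsto_natCast_atTop_atTop).eventually_ge_atTop C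

theorem od_eq {k : ℝ → ℝ} {B X : ℝ} {N m : ℕ} (hk : ∀ t, B ≤ |t| → k t = 0) (hB : 0 ≤ B)
    (hm : 1 ≤ m) (hX : (m : ℝ) ≤ N * X) :
    Od k N m = ∑ h ∈ Icc (-(⌊B * X⌋₊ : ℤ)) ⌊B * X⌋₊, tm k N m h := by
  refine tsum_eq_sum fun h hh => ?_
  have hm' : (0 : ℝ) < m := by exact_mod_cast hm
  have h1 : B * X ≤ |(h : ℝ)| := by
    have : (⌊B * X⌋₊ : ℤ) + 1 ≤ |h| := by
      rw [mem_Icc, ← abs_le, not_le] at hh
      exact hh
    exact (Nat.lt_floor_add_one _).le.trans (by exact_mod_cast this)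
  rw [hk, mul_zero]
  rw [abs_div, abs_mul, Nat.abs_cast, Nat.abs_cast, le_div_iff₀ hm']
  nlinarith [mul_le_mul_of_nonneg_left hX hB,
    mul_le_mul_of_nonneg_right h1 (Nat.cast_nonneg (α := ℝ) N)]

theorem one_abs {u : ℤ} (h : tau u.natAbs ≠ 0) : (1 : ℝ) ≤ |(u : ℝ)| := by
  have : u ≠ 0 := by
    rintro rfl
    simp [tau] at h
  exact_mod_cast Int.one_le_abs this

theorem tm_le {δ B : ℝ} {K : ℝ → ℝ} (hδ : 0 < δ) (hB : 1 ≤ B) (hK : KerOK B K) :
    ∀ᶠ N : ℕ in atTop, ∀ m : ℕ, 1 ≤ m → (m : ℝ) ≤ (N : ℝ) ^ 2 → ∀ h,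
      |tm K N m h| ≤ (N : ℝ) ^ (δ / 10) := by
  obtain ⟨D, -, -, h0, h1, -⟩ := hK
  have hε : 0 < δ / 80 := by positivity
  obtain ⟨C, hC, hd⟩ := MP_74e98a_nt.H25.divisor_bound _ hε
  filter_upwards [ev _ (C ^ 2 * B * (1 + 2 / (δ / 80))) hε, ev 1 (1 + B) one_pos]
    with N a b m hm hm2 h
  by_cases hz : tm K N m h = 0
  · rw [hz, abs_zero]
    positivity
  obtain ⟨n1, n3⟩ := mul_ne_zero_iff.1 hz
  have n2 := one_abs (mul_ne_zero_iff.1 n1).2
  replace n1 := one_abs (mul_ne_zero_iff.1 n1).1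
  push_cast at n2
  rw [Real.rpow_one] at b
  have hm' : (0 : ℝ) < m := by exact_mod_cast hm
  have hN : (1 : ℝ) ≤ N := by linarith
  have e1 : |(h * N / m : ℝ)| = |(h : ℝ)| * N / m := by
    rw [abs_div, abs_mul, Nat.abs_cast, Nat.abs_cast]
  have e2 : |1 + (h * N / m : ℝ)| = |(m + h * N : ℝ)| / m := by
    rw [← Nat.abs_cast (R := ℝ) m, ← abs_div, Nat.abs_cast, add_div, div_self hm'.ne']
  have l1 : |(h : ℝ)| * N ≤ B * m := by
    have := not_le.1 (mt (h0 _) n3)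
    rw [e1, div_lt_iff₀ hm'] at this
    exact this.le
  have l2 : 1 / (m : ℝ) ≤ mn (h * N / m) := by
    refine le_min ((div_le_one hm').2 (by exact_mod_cast hm)) (le_min ?_ ?_)
    · rw [e1]
      exact div_le_div_of_nonneg_right (by nlinarith) hm'.le
    · rw [e2]
      exact div_le_div_of_nonneg_right n2 hm'.le
  have l0 : 0 < mn (h * N / m) := lt_of_lt_of_le (by positivity) l2
  obtain ⟨y, hy⟩ : ∃ y, y = (N : ℝ) ^ (δ / 80) := ⟨_, rfl⟩
  have y1 : 1 ≤ y := hy ▸ Real.one_le_rpow hN hε.le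
  have l3 : |Real.log (mn (h * N / m))| ≤ 2 * (y / (δ / 80)) := by
    rw [abs_of_nonpos (Real.log_nonpos l0.le (min_le_left _ _))]
    have := Real.log_le_log (by positivity) l2
    have b1 := Real.log_le_log hm' hm2
    have b2 := Real.log_le_rpow_div (Nat.cast_nonneg N) hε
    rw [one_div, Real.log_inv] at this
    rw [Real.log_pow] at b1
    push_cast at b1
    rw [hy]
    linarith
  have l4 : |K (h * N / m)| ≤ B * ((1 + 2 / (δ / 80)) * y) := by
    refine (h1 _ ?_ ?_).1.trans (mul_le_mul_of_nonneg_left ?_ (by linarith))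
    · intro h'
      have := l0.trans_le ((min_le_right _ _).trans (min_le_left _ _))
      simp [h'] at this
    · intro h'
      have := l0.trans_le ((min_le_right _ _).trans (min_le_right _ _))
      simp [h'] at this
    · rw [add_mul, div_mul_eq_mul_div, mul_div_assoc 2]
      linarith
  have l5 : ∀ u : ℤ, |(u : ℝ)| ≤ (1 + B) * m → tau u.natAbs ≤ C * y ^ 3 := fun u hu => by
    refine (hd _).trans (mul_le_mul_of_nonneg_left ?_ (by linarith))
    rw [hy, Real.rpow_pow_comm (by linarith), Nat.cast_natAbs, Int.cast_abs]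
    exact Real.rpow_le_rpow (abs_nonneg _) (hu.trans (by nlinarith)) hε.le
  have t0 : ∀ n, 0 ≤ tau n := fun n => Nat.cast_nonneg _
  have l6 := l5 h (by nlinarith [abs_nonneg (h : ℝ)])
  have l7 := l5 (m + h * N) (by
    push_cast
    refine (abs_add_le _ _).trans ?_
    rw [abs_mul, Nat.abs_cast, Nat.abs_cast]
    linarith)
  rw [tm, abs_mul, abs_of_nonneg (mul_nonneg (t0 _) (t0 _)),
    show δ / 10 = δ / 80 * (8 : ℕ) by push_cast; ring, Real.rpow_mul_natCast (by linarith), ← hy]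
  calc _ ≤ C * y ^ 3 * (C * y ^ 3) * (B * ((1 + 2 / (δ / 80)) * y)) := by
        gcongr
        exact t0 _
    _ = C ^ 2 * B * (1 + 2 / (δ / 80)) * y ^ 7 := by ring
    _ ≤ y * y ^ 7 := by rw [hy]; gcongr
    _ = y ^ 8 := by ring

theorem cnt {η : ℝ} (h0 : 0 < η) (h1 : η ≤ 1 / 2) {N : ℕ} (hN : 1 ≤ η * N) (M : ℕ) (h : ℤ) :
    ∑ m ∈ (Icc 1 M).filter (fun m : ℕ => |1 + (h * N / m : ℝ)| < η), (1 : ℝ) / m ≤ 10 * η := by
  rcases eq_or_ne h 0 with rfl | hh
  · rw [filter_false_of_mem fun m _ => by norm_num; linarith, sum_empty]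
    positivity
  obtain ⟨a, ha⟩ : ∃ a, a = |(h * N : ℝ)| := ⟨_, rfl⟩
  have a1 : 1 ≤ η * a := by
    have : (1 : ℝ) ≤ |(h : ℝ)| := by exact_mod_cast Int.one_le_abs hh
    rw [ha, abs_mul, Nat.abs_cast]
    nlinarith [mul_le_mul_of_nonneg_right this (show 0 ≤ η * N by linarith)]
  have a0 : 0 < a := (pos_iff_pos_of_mul_pos (one_pos.trans_le a1)).1 h0
  have key : ∀ m ∈ (Icc 1 M).filter (fun m : ℕ => |1 + (h * N / m : ℝ)| < η),
      (1 : ℝ) / m ≤ 2 / a ∧ |(m + h * N : ℝ)| ≤ 2 * η * a := fun m hm => by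
    obtain ⟨b1, b2⟩ := mem_filter.1 hm
    have hm' : (0 : ℝ) < m := by exact_mod_cast (mem_Icc.1 b1).1
    rw [← div_self hm'.ne', ← add_div, abs_div, Nat.abs_cast, div_lt_iff₀ hm'] at b2
    have c1 := abs_sub (m + h * N : ℝ) m
    have c2 := abs_sub (m + h * N : ℝ) (h * N)
    rw [add_sub_cancel_left, Nat.abs_cast, ← ha] at c1
    rw [add_sub_cancel_right, Nat.abs_cast, ← ha] at c2
    have c3 : η * m ≤ 1 / 2 * m := by gcongr
    exact ⟨by rw [div_le_div_iff₀ hm' a0]; linarith, by nlinarith⟩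
  have hc := card_le_card_of_injOn (t := Icc (-(⌊2 * η * a⌋₊ : ℤ)) ⌊2 * η * a⌋₊)
    (fun m : ℕ => (m : ℤ) + h * N) (fun m hm => by
      have := (key m hm).2
      rw [mem_coe, mem_Icc, ← abs_le, Int.natCast_floor_eq_floor (by positivity), Int.le_floor]
      exact_mod_cast this) fun m _ m' _ e => by simpa using e
  rw [Int.card_Icc, show (⌊2 * η * a⌋₊ : ℤ) + 1 - -⌊2 * η * a⌋₊ = (2 * ⌊2 * η * a⌋₊ + 1 : ℕ) by
    push_cast; ring, Int.toNat_natCast, ← Nat.cast_le (α := ℝ)] at hc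
  push_cast at hc
  have := Nat.floor_le (show 0 ≤ 2 * η * a by positivity)
  refine (sum_le_card_nsmul _ _ _ fun m hm => (key m hm).1).trans ?_
  rw [nsmul_eq_mul, ← mul_div_assoc, div_le_iff₀ a0]
  linarith

open Classical in
theorem sq {y : ℝ} (hy : 0 < y) (P : Finset ℕ) (hP : ∀ t ∈ P, y < t) (M : ℕ) :
    ∑ m ∈ (Icc 1 M).filter (fun m => ∃ t ∈ P, t ^ 2 ∣ m), (1 : ℝ) / m ≤
      2 / y * (1 + Real.log M) := by
  have h1 : ∑ t ∈ P, ((t : ℝ) ^ 2)⁻¹ ≤ 2 / y := by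
    refine (sum_le_sum_of_subset_of_nonneg (t := Ioo ⌊y⌋₊ (P.sup id + 1)) (fun t ht => mem_Ioo.2
      ⟨(Nat.floor_lt hy.le).2 (hP t ht), Nat.lt_succ_of_le (le_sup (f := id) ht)⟩)
      fun _ _ _ => by positivity).trans ((sum_Ioo_inv_sq_le _ _).trans ?_)
    exact div_le_div_of_nonneg_left zero_le_two hy (Nat.lt_floor_add_one y).le
  have h2 := harmonic_le_one_add_log M
  simp only [harmonic_eq_sum_Icc, Rat.cast_sum, Rat.cast_inv, Rat.cast_natCast] at h2
  refine (sum_le_sum_of_subset_of_nonneg (t := (P ×ˢ Icc 1 M).image fun p => p.1 ^ 2 * p.2)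
    (fun m hm => ?_) fun _ _ _ => by positivity).trans
    ((sum_image_le_of_nonneg fun _ _ => by positivity).trans ?_)
  · obtain ⟨b, t, ht, j, rfl⟩ := mem_filter.1 hm
    obtain ⟨b1, b2⟩ := mem_Icc.1 b
    exact mem_image.2 ⟨(t, j), mem_product.2 ⟨ht, mem_Icc.2 ⟨Nat.pos_of_mul_pos_left b1,
      (Nat.le_mul_of_pos_left j (Nat.pos_of_mul_pos_right b1)).trans b2⟩⟩, rfl⟩
  · refine le_trans (le_of_eq ?_) (mul_le_mul h1 h2 (by positivity) (by positivity))
    rw [sum_product, sum_mul_sum]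
    refine sum_congr rfl fun t _ => sum_congr rfl fun j _ => ?_
    push_cast
    rw [one_div, mul_inv]

end CutA

open CutA

theorem cutOf : CutOf := by
  intro hM hX δ B a K hδ hδ' hB ha hK
  obtain ⟨C, -, hM⟩ := hM
  obtain ⟨N₁, hX⟩ := hX δ a hδ hδ' ha
  obtain ⟨N₀, h⟩ := eventually_atTop.1 ((tm_le hδ hB hK).and ((eventually_ge_atTop N₁).and
    ((ev (δ / 10) (30 * B * (1 + 20 / δ)) (by positivity)).and (eventually_ge_atTop 1))))
  refine ⟨N₀, fun N hN => ?_⟩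
  obtain ⟨ht, h1, hz, hN1⟩ := h N hN
  replace hX := hX N h1
  have h0 : ∀ t, B ≤ |t| → K t = 0 := hK.choose_spec.2.2.1
  have n1 : (1 : ℝ) ≤ N := by exact_mod_cast hN1
  have lg := Real.log_le_rpow_div (Nat.cast_nonneg N) (show 0 < δ / 10 by positivity)
  have pw : ∀ (j : ℕ) (e : ℝ), e = δ / 10 * j → (N : ℝ) ^ e = ((N : ℝ) ^ (δ / 10)) ^ j ∧
      (N : ℝ) ^ (-e) = (((N : ℝ) ^ (δ / 10)) ^ j)⁻¹ := fun j e he => by
    rw [Real.rpow_neg (by linarith), he, Real.rpow_mul_natCast (by linarith)]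
    exact ⟨rfl, rfl⟩
  have p40 : ((N : ℝ) ^ (δ / 10)) ^ 40 ≤ N := by
    rw [← (pw 40 _ rfl).1]
    exact (Real.rpow_le_rpow_of_exponent_le n1 (by push_cast; linarith)).trans_eq (Real.rpow_one _)
  have p33 : ((N : ℝ) ^ (δ / 10)) ^ 33 ≤ (N : ℝ) ^ (1 / 10000 : ℝ) := by
    rw [← (pw 33 _ rfl).1]
    exact Real.rpow_le_rpow_of_exponent_le n1 (by push_cast; linarith)
  rw [Real.rpow_add (by linarith), Real.rpow_one, (pw 15 (3 * δ / 2) (by push_cast; ring)).1,
    (pw 5 (δ / 2) (by push_cast; ring)).1] at hX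
  rw [Real.rpow_sub (by linarith), Real.rpow_one, neg_mul, neg_div,
    (pw 40 (4 * δ) (by push_cast; ring)).2, (pw 5 (δ / 2) (by push_cast; ring)).2,
    (pw 10 δ (by push_cast; ring)).2]
  generalize (N : ℝ) ^ (δ / 10) = z at *
  have z1 : 30 * B ≤ z := le_trans (le_mul_of_one_le_right (by positivity)
    (le_add_of_nonneg_right (by positivity))) hz
  have z2 : 30 ≤ z := by linarith
  have z3 : 1 ≤ z := by linarith
  have hm : ∀ m ∈ Icc 1 ⌊N * z ^ 15⌋₊, 1 ≤ m ∧ (m : ℝ) ≤ N * z ^ 15 := fun m hm =>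
    ⟨(mem_Icc.1 hm).1, (Nat.le_floor_iff (by positivity)).1 (mem_Icc.1 hm).2⟩
  have z4 : N * z ^ 15 ≤ (N : ℝ) ^ 2 := by
    rw [pow_two]
    exact mul_le_mul_of_nonneg_left ((pow_le_pow_right₀ z3 (by norm_num)).trans p40) (by linarith)
  have hc : ((Icc (-(⌊B * z ^ 15⌋₊ : ℤ)) ⌊B * z ^ 15⌋₊).card : ℝ) ≤ 3 * B * z ^ 15 := by
    rw [Int.card_Icc, show (⌊B * z ^ 15⌋₊ : ℤ) + 1 - -⌊B * z ^ 15⌋₊ =
      (2 * ⌊B * z ^ 15⌋₊ + 1 : ℕ) by push_cast; ring, Int.toNat_natCast]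
    push_cast
    have := Nat.floor_le (show 0 ≤ B * z ^ 15 by positivity)
    have := one_le_mul_of_one_le_of_one_le hB (one_le_pow₀ (n := 15) z3)
    linarith
  refine ⟨fun m a b => ?_, (hX _).1.trans ?_, (hX _).2.trans ?_⟩
  · rw [od_eq h0 (by linarith) a (b.trans_eq (div_eq_mul_inv _ _)), Nat.floor_eq_zero.2 (by
      rw [← div_eq_mul_inv, div_lt_one] <;> linarith)]
    simp [tm, tau]
  · have e0 : 0 < (z ^ 40)⁻¹ := by positivity
    have e1 : (z ^ 40)⁻¹ ≤ 1 / 10 := by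
      rw [one_div]
      exact inv_anti₀ (by norm_num) (le_trans (by linarith) (le_self_pow₀ z3 (by norm_num)))
    have hk := (hM B _ K hB hK e0 e1).2.2
    calc _ ≤ z ^ 5 * ∑ m ∈ Icc 1 ⌊N * z ^ 15⌋₊, ∑ h ∈ Icc (-(⌊B * z ^ 15⌋₊ : ℤ)) ⌊B * z ^ 15⌋₊,
          z * if |1 + (h * N / m : ℝ)| < (z ^ 40)⁻¹ then (1 : ℝ) / m else 0 := by
          refine mul_le_mul_of_nonneg_left (sum_le_sum fun m b => ?_) (by positivity)
          rw [Complex.norm_real, Real.norm_eq_abs, od_eq (B := B) (fun t ht => abs_nonpos_iff.1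
            ((hk t).2.2.2.trans_eq (by rw [h0 t ht, abs_zero]))) (by linarith) (hm m b).1
            (hm m b).2]
          refine (div_le_div_of_nonneg_right (abs_sum_le_sum_abs _ _) (by positivity)).trans ?_
          rw [sum_div]
          refine sum_le_sum fun h _ => ?_
          split_ifs with c
          · rw [mul_one_div]
            refine div_le_div_of_nonneg_right (le_trans ?_
              (ht m (hm m b).1 ((hm m b).2.trans z4) h)) (by positivity)
            rw [tm, tm, abs_mul, abs_mul _ (K _)]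
            exact mul_le_mul_of_nonneg_left (hk _).2.2.2 (abs_nonneg _)
          · simp [tm, (hk _).2.1 (not_lt.1 c)]
      _ ≤ z ^ 5 * (3 * B * z ^ 15 * (z * (10 * (z ^ 40)⁻¹))) := by
          rw [sum_comm]
          refine mul_le_mul_of_nonneg_left ((sum_le_card_nsmul _ _ (z * (10 * (z ^ 40)⁻¹))
            fun h _ => ?_).trans ?_) (by positivity)
          · rw [← mul_sum, ← sum_filter]
            exact mul_le_mul_of_nonneg_left (cnt e0 (by linarith)
              (by rwa [inv_mul_eq_div, one_le_div (by positivity)]) _ h) (by linarith)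
          · rw [nsmul_eq_mul]
            gcongr
      _ = 30 * B / z ^ 14 * (z ^ 5)⁻¹ := by field_simp; ring
      _ ≤ _ := mul_le_of_le_one_left (by positivity) ((div_le_one (by positivity)).2
          (z1.trans (le_self_pow₀ z3 (by norm_num))))
  · have y0 : (0 : ℝ) < (N : ℝ) ^ (1 / 10000 : ℝ) := by positivity
    have hs := sq y0 (PP N) (fun t ht => (mem_filter.1 ht).2.2) ⌊N * z ^ 15⌋₊
    have l1 : 1 + Real.log (⌊N * z ^ 15⌋₊ : ℕ) ≤ (1 + 20 / δ) * z := by
      have b1 : (1 : ℝ) ≤ N * z ^ 15 := one_le_mul_of_one_le_of_one_le n1 (one_le_pow₀ z3)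
      have := Real.log_le_log (Nat.cast_pos.2 (Nat.floor_pos.2 b1))
        ((Nat.floor_le (by linarith)).trans z4)
      rw [Real.log_pow] at this
      have e : (1 + 20 / δ) * z = z + 2 * (z / (δ / 10)) := by field_simp; ring
      push_cast at this
      linarith
    calc _ ≤ z ^ 5 * (3 * B * z ^ 15 * z * (2 / z ^ 33 * ((1 + 20 / δ) * z))) := by
          refine mul_le_mul_of_nonneg_left (le_trans ?_ (mul_le_mul_of_nonneg_left (hs.trans
            (mul_le_mul (div_le_div_of_nonneg_left zero_le_two (by positivity) p33) l1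
            (by positivity) (by positivity))) (by positivity))) (by positivity)
          rw [mul_sum]
          refine sum_le_sum fun m b => ?_
          replace b := hm m (mem_filter.1 b).1
          rw [mul_one_div, Complex.norm_real, Real.norm_eq_abs, od_eq h0 (by linarith) b.1 b.2]
          refine div_le_div_of_nonneg_right ((abs_sum_le_sum_abs _ _).trans
            ((sum_le_card_nsmul _ _ z fun h _ => ht m b.1 (b.2.trans z4) h).trans ?_))
            (by positivity)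
          rw [nsmul_eq_mul]
          gcongr
      _ = 6 * B * (1 + 20 / δ) / z * (z ^ 10)⁻¹ := by field_simp; ring
      _ ≤ _ := mul_le_of_le_one_left (by positivity) ((div_le_one (by positivity)).2
          (le_trans (by gcongr; norm_num) hz))

end Pool.Agent.MP_20b2fd_nt.H38
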