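import Pool.Agent.MP_20b2fd_nt.H38.SpecC

/-! One value of the variable: characters and the summation over the shifts. -/

set_option autoImplicit false

namespace Pool.Agent.MP_20b2fd_nt.H38

open Complex Finset
open DirichletCharacter (LFunction)

namespace Cx1A

theorem zsum (f : ℤ → ℂ) (M : ℕ) (h0 : f 0 = 0) (h : ∀ j : ℤ, M < j.natAbs → f j = 0) :
    ∑' j, f j = ∑ j ∈ Icc 1 M, (f (j : ℕ) + f (-(j : ℕ))) := by
  have hs : Summable f := summable_of_ne_finset_zero (s := Icc (-(M : ℤ)) M) fun j hj => h j (by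
    rw [mem_Icc] at hj; omega)
  have e := tsum_nat_add_neg hs
  rw [h0, add_zero] at e
  rw [← e]
  refine tsum_eq_sum fun j hj => ?_
  rw [mem_Icc] at hj
  rcases Nat.eq_zero_or_pos j with rfl | hp
  · simp [h0]
  · rw [h _ (by omega), h _ (by omega), add_zero]

theorem swap {m : ℕ} (hm : m ≠ 0) (M : ℕ) (G : ℕ → ℕ → ℂ) (h0 : ∀ g h, M < h → G g h = 0) :
    ∑ h ∈ Icc 1 (m * M), ∑ g ∈ (m.gcd h).divisors, G g h =
      ∑ g ∈ m.divisors, ∑ j ∈ Icc 1 M, G g (g * j) := by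
  have e : ∀ h, (m.gcd h).divisors = m.divisors.filter (· ∣ h) := fun h => by
    ext g
    simp [Nat.dvd_gcd_iff, hm, and_comm]
  simp only [e, sum_filter]
  rw [sum_comm]
  refine sum_congr rfl fun g hg => ?_
  have g0 := Nat.pos_of_mem_divisors hg
  have gm := Nat.divisor_le hg
  symm
  refine sum_of_injOn (g * ·) (fun a _ b _ h => Nat.eq_of_mul_eq_mul_left g0 h) (fun a ha => ?_)
    (fun h hh hn => ?_) fun a _ => (if_pos (dvd_mul_right g a)).symm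
  · have := mem_Icc.1 ha
    exact mem_Icc.2 ⟨Nat.mul_pos g0 this.1, Nat.mul_le_mul gm this.2⟩
  · split_ifs with hd
    · obtain ⟨j, rfl⟩ := hd
      refine h0 _ _ (not_le.1 fun hl => hn ⟨j, mem_Icc.2 ⟨?_, ?_⟩, rfl⟩)
      · exact Nat.pos_of_mul_pos_left (mem_Icc.1 hh).1
      · exact (Nat.le_mul_of_pos_left j g0).trans hl
    · rfl

open Classical in
theorem pis {S : Type} [Fintype S] [DecidableEq S] (A B : S → Finset ℕ) (c : S → Prop)
    [DecidablePred c] (F : (S → ℕ) → (S → ℕ) → ℂ) :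
    ∑ y ∈ Fintype.piFinset (fun p => (A p ×ˢ B p).filter fun y => c p → y.2 = 0),
      F (fun p => (y p).1) (fun p => (y p).2) =
    ∑ γ ∈ Fintype.piFinset A, ∑ ν ∈ Fintype.piFinset B,
      if ∀ p, c p → ν p = 0 then F γ ν else 0 := by
  rw [← sum_product', ← sum_filter]
  refine sum_nbij' (fun y => (fun p => (y p).1, fun p => (y p).2)) (fun u p => (u.1 p, u.2 p))
    (fun y hy => ?_) (fun u hu => ?_) (fun _ _ => rfl) (fun _ _ => rfl) fun _ _ => rfl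
  · simp only [Fintype.mem_piFinset, mem_filter, mem_product] at hy ⊢
    exact ⟨⟨fun p => (hy p).1.1, fun p => (hy p).1.2⟩, fun p => (hy p).2⟩
  · simp only [Fintype.mem_piFinset, mem_filter, mem_product] at hu ⊢
    exact fun p => ⟨⟨hu.1.1 p, hu.1.2 p⟩, hu.2 p⟩

theorem hld (p γ ν : ℕ) (ι : Prop) : Differentiable ℂ (hl p γ ν ι) := by
  unfold hl
  split_ifs <;> fun_prop

theorem tame {S : Finset ℕ} (hS : ∀ p ∈ S, p.Prime) (γ ν : S → ℕ) (ι : S → Prop) (c : ℕ → ℂ) :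
    Tame fun s => ∏ p : S, hl p (γ p) (ν p) (ι p) (c p * ((p : ℕ) : ℂ) ^ (-s)) := by
  have h0 : ∀ p : S, ((p : ℕ) : ℂ) ≠ 0 := fun p => Nat.cast_ne_zero.2 (hS p p.2).ne_zero
  have hb : ∀ p : S, ∃ C, ∀ X ∈ Metric.closedBall (0 : ℂ) ‖c p‖, ‖hl p (γ p) (ν p) (ι p) X‖ ≤ C :=
    fun p => (isCompact_closedBall _ _).exists_bound_of_continuousOn
      (hld _ _ _ _).continuous.continuousOn
  choose C hC using hb
  refine ⟨Differentiable.fun_finsetProd fun p _ => (hld _ _ _ _).comp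
    ((differentiable_id.neg.const_cpow (Or.inl (h0 p))).const_mul _), ∏ p, C p, fun s h1 _ => ?_⟩
  rw [norm_prod]
  refine prod_le_prod (fun _ _ => norm_nonneg _) fun p _ => hC p _ ?_
  rw [mem_closedBall_zero_iff, norm_mul, norm_natCast_cpow_of_pos (hS p p.2).pos]
  exact mul_le_of_le_one_right (norm_nonneg _) (Real.rpow_le_one_of_one_le_of_nonpos
    (by exact_mod_cast (hS p p.2).one_le) (by simpa using h1))

theorem sgn (x : CC) : x.2⁻¹ (-1) = sg x := by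
  rw [MulChar.inv_apply_eq_inv', sg]
  split_ifs with h
  · rw [h]; simp
  · rw [x.2.even_or_odd.resolve_left h]; simp

noncomputable def DD (z : ℝ) (Ψ : ℕ → ℂ) (g q b : ℕ) : ℂ :=
  ∑ n ∈ (∏ p ∈ pz z, p).divisors.filter (fun n => n.Coprime q), Ψ (g * q * n) *
    ∏ p ∈ n.primeFactors, (-1 / (p : ℂ) + if p ∣ b then 0 else 1 / ((p : ℂ) - 1))

theorem one (h1 : C1S) {z R : ℝ} {Φ : ℕ → ℝ} {k : ℝ → ℝ} {N m M : ℕ} (w : ℂ) (hN : N.Prime)
    (hz : z < N) (hΦ : ∀ q : ℕ, z < q → Φ q = 0) (hk : ∀ t, R ≤ |t| → k t = 0) (hm : 1 ≤ m)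
    (hM : R * m ≤ M) :
    lw z Φ k N w m = ∑ g ∈ m.divisors, ∑ j ∈ Icc 1 M, ∑ x ∈ pcs z,
      x.2⁻¹ N / ((x.1 + 1).totient : ℂ) * ((m : ℂ) ^ w * x.2 (m / g : ℕ) *
        ((tau (g * j) : ℂ) * x.2⁻¹ j * fe k (sg x) (j / ((m / g : ℕ) / N : ℝ))) *
        DD z (fun q => Φ q * (q : ℂ) ^ (-2 * w)) g (x.1 + 1) (m / g * j)) := by
  have m0 : (0 : ℝ) < m := by exact_mod_cast hm
  have N1 : (1 : ℝ) ≤ N := by exact_mod_cast hN.one_le
  have ha : ∀ h : ℤ, M < h.natAbs → k (h * N / m) = 0 := fun h hh => hk _ (by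
    have h2 : (M : ℝ) ≤ |(h : ℝ)| := by
      rw [← Int.cast_abs, ← Nat.cast_natAbs]
      exact_mod_cast hh.le
    rw [abs_div, abs_mul, Nat.abs_cast, Nat.abs_cast, le_div_iff₀ m0]
    exact (hM.trans h2).trans (le_mul_of_one_le_right (abs_nonneg _) N1))
  let B : ℕ → ℤ → ℂ := fun g h => ((tau h.natAbs * k (h * N / m) : ℝ) : ℂ) * ((m : ℂ) ^ w *
    ∑ x ∈ pcs z, 1 / ((x.1 + 1).totient : ℂ) * (x.2 (m / g : ℕ) * x.2⁻¹ ((-(h / g) * N : ℤ))) *
      DD z (fun q => Φ q * (q : ℂ) ^ (-2 * w)) g (x.1 + 1) (m / g * (h.natAbs / g)))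
  have hc : ∀ h : ℤ, h ≠ 0 → ((tau h.natAbs * k (h * N / m) : ℝ) : ℂ) * ((m : ℂ) ^ w *
      ∑ q ∈ Icc 1 ⌊z⌋₊, Φ q * (q : ℂ) ^ (-2 * w) * cq q (m + h * N) / q) =
      ∑ g ∈ (m.gcd h.natAbs).divisors, B g h := fun h hh => by
    rw [h1 z (fun q => Φ q * (q : ℂ) ^ (-2 * w)) N m h hN hz (fun q hq => by simp [hΦ q hq]) hm hh,
      mul_sum, mul_sum]
    rfl
  rw [lw, zsum _ (m * M) (by simp [tau]) fun j hj => by
    rw [ha j ((Nat.le_mul_of_pos_left M hm).trans_lt hj)]; simp]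
  rw [sum_congr rfl (g := fun j => ∑ g ∈ (m.gcd j).divisors, (B g j + B g (-j))) fun j hj => by
    have : (j : ℤ) ≠ 0 := by have := (mem_Icc.1 hj).1; omega
    rw [hc _ this, hc _ (neg_ne_zero.2 this), Int.natAbs_neg, Int.natAbs_natCast, sum_add_distrib],
    swap (by omega) M (fun g j => B g j + B g (-j)) fun g j hj => by
      simp only [B]
      rw [ha j (by omega), ha (-j) (by omega)]
      simp]
  refine sum_congr rfl fun g hg => sum_congr rfl fun j _ => ?_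
  have g0 := Nat.pos_of_mem_divisors hg
  obtain ⟨u, rfl⟩ := Nat.dvd_of_mem_divisors hg
  have g1 : (g : ℤ) ≠ 0 := by omega
  have g2 : (g : ℝ) ≠ 0 := by positivity
  have e1 : ((g * j : ℕ) : ℤ) / g = j := by push_cast; exact Int.mul_ediv_cancel_left _ g1
  have e2 : -((g * j : ℕ) : ℤ) / g = -j := by
    push_cast; rw [← mul_neg]; exact Int.mul_ediv_cancel_left _ g1
  have e3 : (((g * j : ℕ) : ℤ) : ℝ) * N / (g * u : ℕ) = j / (u / N) := by
    push_cast; field_simp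
  have e4 : ((-((g * j : ℕ) : ℤ) : ℤ) : ℝ) * N / (g * u : ℕ) = -(j / (u / N)) := by
    rw [← e3, Int.cast_neg, neg_mul, neg_div]
  simp only [B, e1, e2, e3, e4, Int.natAbs_neg, Int.natAbs_natCast, Nat.mul_div_cancel_left _ g0,
    mul_sum, ← sum_add_distrib]
  refine sum_congr rfl fun x _ => ?_
  have e5 : x.2⁻¹ ((-(j : ℤ) * N : ℤ)) = sg x * x.2⁻¹ j * x.2⁻¹ N := by
    rw [← sgn, ← map_mul, ← map_mul]; push_cast; rw [neg_one_mul]
  have e6 : x.2⁻¹ ((- -(j : ℤ) * N : ℤ)) = x.2⁻¹ j * x.2⁻¹ N := by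
    rw [← map_mul]; push_cast; rw [neg_neg]
  rw [e5, e6, fe]
  push_cast
  ring

open Classical in
theorem dd (hE : E1S) {z : ℝ} (Ψ : ℕ → ℂ) {r : ℕ} (hr : rg z r) {e γ : pz z → ℕ}
    (hγ : ∀ p, γ p ≤ e p) (q j : ℕ) :
    DD z Ψ (pp γ) q (pp (fun p => e p - γ p) * r * j) =
      ∑ ν ∈ Fintype.piFinset (fun _ : pz z => range 2),
        if ∀ p : pz z, (p : ℕ) ∣ q → ν p = 0 then Ψ (pp γ * q * pp ν) * ∏ p : pz z,
          if ν p = 0 then 1 else -1 / ((p : ℕ) : ℂ) +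
            if γ p = e p ∧ ¬ (p : ℕ) ∣ j then 1 / (((p : ℕ) : ℂ) - 1) else 0 else 0 := by
  have hS : ∀ p ∈ pz z, p.Prime := fun p hp => (mem_filter.1 hp).2.1
  obtain ⟨E1, E2, -⟩ := hE (pz z) hS
  have e1 : ∏ p ∈ pz z, p = pp fun _ : pz z => 1 := by
    simp only [pp, pow_one]
    exact (prod_coe_sort (pz z) fun p => p).symm
  rw [DD, sum_filter, e1, E1 ℂ]
  refine sum_congr rfl fun ν _ => if_congr ?_ ?_ rfl
  · refine ⟨fun h p hp => by_contra fun hn => (hS p p.2).one_lt.ne' ?_, fun h => ?_⟩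
    · exact Nat.eq_one_of_dvd_coprimes h (((E2 ν).2.2.2.1 p).2 hn) hp
    · exact Nat.coprime_of_dvd fun t ht h1 h2 =>
        ((E2 ν).2.2.2.1 ⟨t, (E2 ν).2.2.1 t ht h1⟩).1 h1 (h _ h2)
  · rw [(E2 ν).2.2.2.2.2.2]
    refine congrArg _ (prod_congr rfl fun p _ => if_congr Iff.rfl rfl (congrArg _ ?_))
    have hp := hS p p.2
    have h1 := (E2 fun p => e p - γ p).2.2.2.1 p
    have h2 := hγ p
    rw [← ite_not]
    refine if_congr ?_ rfl rfl
    rw [hp.dvd_mul, hp.dvd_mul, h1, or_iff_left (hr p p.2), not_or]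
    exact and_congr_left fun _ => by omega

end Cx1A

open Cx1A in
theorem cx1Of : Cx1Of := by
  intro hE hV hH h1 z R B E σ Φ k N r e w hN hz hΦ hR hk hσ hσ' hr hrg
  have hS : ∀ p ∈ pz z, p.Prime := fun p hp => (mem_filter.1 hp).2.1
  obtain ⟨E1, E2, E3, -⟩ := hE (pz z) hS
  have hm : 1 ≤ pp e * r := Nat.mul_pos (E2 e).1 hr
  obtain ⟨M, hM⟩ := exists_nat_ge (R * (pp e * r : ℕ))
  have hk0 : ∀ t, R ≤ |t| → k t = 0 := by
    obtain ⟨D, -, -, h, -⟩ := hk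
    exact h
  rw [one h1 w hN hz hΦ hk0 hm hM, ← sum_subset (s₁ := (pp e).divisors)
    (Nat.divisors_subset_of_dvd (by omega) (dvd_mul_right _ _)) fun g hg hn => ?_, E1 ℂ e,
    sum_congr rfl fun _ _ => sum_comm, sum_comm]
  · refine sum_congr rfl fun x _ => ?_
    rw [pis (fun p => range (e p + 1)) (fun _ => range 2) (fun p : pz z => (p : ℕ) ∣ x.1 + 1)
      fun γ ν => (Φ (pp γ * (x.1 + 1) * pp ν) * ((pp γ * (x.1 + 1) * pp ν : ℕ) : ℂ) ^ (-2 * w) *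
        ((pp e * r : ℕ) : ℂ) ^ w * x.2 (pp (fun p => e p - γ p) * r : ℕ)) *
        (VL k σ x (fun s => (∏ p : pz z, hl p (γ p) (ν p) (γ p = e p)
            (x.2⁻¹ (p : ℕ) * ((p : ℕ) : ℂ) ^ (-s))) *
            (((pp (fun p => e p - γ p) * r : ℕ) / N : ℝ) : ℂ) ^ s) +
          VR k x fun s => (∏ p : pz z, hl p (γ p) (ν p) (γ p = e p)
            (x.2⁻¹ (p : ℕ) * ((p : ℕ) : ℂ) ^ (-s))) *
            (((pp (fun p => e p - γ p) * r : ℕ) / N : ℝ) : ℂ) ^ s), mul_sum]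
    refine sum_congr rfl fun γ hγ => ?_
    have hle : ∀ p, γ p ≤ e p := fun p =>
      Nat.lt_succ_iff.1 (mem_range.1 (Fintype.mem_piFinset.1 hγ p))
    have eu : pp e * r / pp γ = pp (fun p => e p - γ p) * r := by
      rw [← (E3 γ e).2.2.2.1 hle, Nat.div_mul_right_comm ((E3 γ e).2.2.1.2 hle)]
    have N1 : (1 : ℝ) ≤ N := by exact_mod_cast hN.one_le
    have u0 : (0 : ℝ) < (pp (fun p => e p - γ p) * r : ℕ) := by
      exact_mod_cast Nat.mul_pos (E2 _).1 hr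
    have u1 : ((pp (fun p => e p - γ p) * r : ℕ) : ℝ) ≤ (pp e * r : ℕ) := by
      exact_mod_cast eu ▸ Nat.div_le_self _ _
    rw [← mul_sum, eu]
    refine congrArg _ ?_
    simp only [dd hE _ hrg hle, mul_sum]
    rw [sum_comm]
    refine sum_congr rfl fun ν _ => ?_
    split_ifs
    · have hv := (hV R B E σ k x hR hk hσ hσ').2 _ _ _ M
        (tame hS γ ν (fun p => γ p = e p) fun p : ℕ => x.2⁻¹ p)
        (div_pos u0 (by linarith : (0 : ℝ) < N)) (le_trans (mul_le_mul_of_nonneg_left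
          ((div_le_self u0.le N1).trans u1) (by linarith)) hM)
        fun s hs => hH (pz z) (x.1 + 1) x.2⁻¹ γ ν (fun p => γ p = e p) s hS (by linarith)
      rw [← hv, mul_sum]
      refine sum_congr rfl fun j _ => ?_
      ring_nf
    · simp
  · have g0 := Nat.pos_of_mem_divisors hg
    have : ¬ g.Coprime r := fun h => hn (Nat.mem_divisors.2
      ⟨h.dvd_of_dvd_mul_right (Nat.dvd_of_mem_divisors hg), Nat.one_le_iff_ne_zero.1 (E2 e).1⟩)
    obtain ⟨t, ht, t1, t2⟩ := Nat.Prime.not_coprime_iff_dvd.1 this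
    have zt : z < t := Nat.lt_of_floor_lt (not_le.1 fun h => hrg t (mem_filter.2
      ⟨mem_Icc.2 ⟨ht.one_le, h⟩, ht, by exact_mod_cast ht.one_lt⟩) t2)
    refine sum_eq_zero fun j _ => sum_eq_zero fun x _ => ?_
    rw [DD, sum_eq_zero fun n hn => ?_, mul_zero, mul_zero]
    have n0 := Nat.pos_of_mem_divisors (mem_filter.1 hn).1
    rw [hΦ _ (zt.trans_le (by
      exact_mod_cast Nat.le_of_dvd (by positivity) ((t1.mul_right _).mul_right _)))]
    simp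

end Pool.Agent.MP_20b2fd_nt.H38
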