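import Pool.Agent.MP_20b2fd_nt.H38.SpecC

/-! The major arc part of the long terms. -/

set_option autoImplicit false

namespace Pool.Agent.MP_20b2fd_nt.H38

open Complex Finset ArithmeticFunction

namespace Cx2A

theorem tmul {F G : ℂ → ℂ} (hF : Tame F) (hG : Tame G) : Tame fun s => F s * G s := by
  obtain ⟨h1, C, h2⟩ := hF
  obtain ⟨h3, D, h4⟩ := hG
  exact ⟨h1.mul h3, C * D, fun s a b => norm_mul_le_of_le (h2 s a b) (h4 s a b)⟩

theorem tprod {ι : Type} (J : Finset ι) {F : ι → ℂ → ℂ} (h : ∀ i, Tame (F i)) :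
    Tame fun s => ∏ i ∈ J, F i s := by
  induction J using Finset.cons_induction with
  | empty => exact ⟨by simp, 1, by simp⟩
  | cons i J hi ih => simpa only [prod_cons] using tmul (h i) ih

theorem tcomp {F G : ℂ → ℂ} (hF : Differentiable ℂ F) (hG : Tame G) : Tame fun s => F (G s) := by
  obtain ⟨h1, C, h2⟩ := hG
  obtain ⟨D, hD⟩ := (isCompact_closedBall (0 : ℂ) C).exists_bound_of_continuousOn
    hF.continuous.continuousOn
  exact ⟨hF.comp h1, D, fun s a b => hD _ (mem_closedBall_zero_iff.2 (h2 s a b))⟩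

theorem tpow {b : ℝ} (hb : 0 < b) : Tame fun s => (b : ℂ) ^ s := by
  refine ⟨differentiable_id.const_cpow (Or.inl (ofReal_ne_zero.2 hb.ne')), 1 + b ^ (3 : ℝ),
    fun s h1 h2 => ?_⟩
  rw [norm_cpow_eq_rpow_re_of_pos hb]
  rcases le_total b 1 with h | h
  · exact (Real.rpow_le_one hb.le h h1).trans (le_add_of_nonneg_right (by positivity))
  · exact (Real.rpow_le_rpow_of_exponent_le h h2).trans (le_add_of_nonneg_left zero_le_one)

theorem inv_pw (N : ℕ) (s : ℂ) : (((N : ℝ)⁻¹ : ℝ) : ℂ) ^ s = (N : ℂ) ^ (-s) := by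
  rw [ofReal_inv, ofReal_natCast, inv_cpow _ _ (by rw [natCast_arg]; exact Real.pi_ne_zero.symm),
    cpow_neg]

theorem div_pw (A N : ℕ) (s : ℂ) : ((A / N : ℝ) : ℂ) ^ s = (A : ℂ) ^ s * (N : ℂ) ^ (-s) := by
  rw [div_eq_mul_inv, ofReal_mul, mul_cpow_ofReal_nonneg (by positivity) (by positivity), inv_pw,
    ofReal_natCast]

theorem four (V : (ℂ → ℂ) → ℂ) (hV : ∀ (ι : Type) (J : Finset ι) (c : ι → ℂ) (G : ι → ℂ → ℂ),
      (∀ i ∈ J, Tame (G i)) → V (fun s => ∑ i ∈ J, c i * G i s) = ∑ i ∈ J, c i * V (G i))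
    {α β γ : Type} (A : Finset α) (T : Finset β) (B : α → Finset γ) (c : α → β → β → γ → ℂ)
    (G : α → β → β → γ → ℂ → ℂ) (hG : ∀ X, ∀ i ∈ T, ∀ j ∈ T, ∀ y, Tame (G X i j y)) :
    V (fun s => ∑ X ∈ A, ∑ i ∈ T, ∑ j ∈ T, ∑ y ∈ B X, c X i j y * G X i j y s) =
      ∑ X ∈ A, ∑ i ∈ T, ∑ j ∈ T, ∑ y ∈ B X, c X i j y * V (G X i j y) := by
  simpa only [sum_sigma, sum_product] using hV _ (A.sigma fun X => T ×ˢ T ×ˢ B X)
    (fun t => c t.1 t.2.1 t.2.2.1 t.2.2.2) (fun t => G t.1 t.2.1 t.2.2.1 t.2.2.2) fun t ht => by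
      obtain ⟨h1, h2⟩ := mem_product.1 (mem_sigma.1 ht).2
      exact hG _ _ h1 _ (mem_product.1 h2).1 _

theorem pis {ι α β : Type} [Fintype ι] [DecidableEq ι] (A : ι → Finset α) (B : ι → α → Finset β)
    (C : ι → Finset (α × β)) (h : ∀ p u, u ∈ C p ↔ u.1 ∈ A p ∧ u.2 ∈ B p u.1)
    (f : (ι → α × β) → ℂ) : ∑ Y ∈ Fintype.piFinset C, f Y = ∑ X ∈ Fintype.piFinset A,
      ∑ y ∈ Fintype.piFinset (fun p => B p (X p)), f fun p => (X p, y p) := by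
  rw [sum_sigma']
  refine sum_nbij' (fun Y => ⟨fun p => (Y p).1, fun p => (Y p).2⟩) (fun t p => (t.1 p, t.2 p))
    ?_ ?_ (fun _ _ => rfl) (fun _ _ => rfl) fun _ _ => rfl
  all_goals simp +contextual [h, forall_and]

/-- the local index set -/
def B1 (q p e : ℕ) : Finset (ℕ × ℕ) := (range (e + 1) ×ˢ range 2).filter fun y => p ∣ q → y.2 = 0

theorem al_le {a p : ℕ} {e : L2} (h : e ∈ al a p) : e.1 ≤ a.factorization p + 1 := by
  unfold al at h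
  split_ifs at h
  · exact Nat.lt_succ_iff.1 (mem_range.1 (mem_product.1 h).1)
  · simp only [mem_insert, mem_singleton] at h
    rcases h with rfl | rfl | rfl <;> simp

theorem mem5 (a q p : ℕ) (u : L5) : u ∈ al5 a q p ↔ u.1 ∈ al3 a p ∧ u.2 ∈ B1 q p (mx u.1) := by
  simp only [al5, B1, mem_filter, mem_product, mem_range]
  refine ⟨fun h => ⟨h.1.1, ⟨by omega, h.1.2.2⟩, h.2.2⟩,
    fun h => ⟨⟨h.1, ?_, h.2.1.2⟩, by omega, h.2.2⟩⟩
  obtain ⟨h1, h2⟩ := mem_product.1 (mem_filter.1 h.1).1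
  have := al_le h1
  have := al_le (mem_product.1 h2).1
  have := h.2.1.1
  unfold mx at this
  omega

variable {S : Finset ℕ}

theorem cm (m n : ℕ) (v : ℂ) : ((m * n : ℕ) : ℂ) ^ v = (m : ℂ) ^ v * (n : ℂ) ^ v := by
  rw [Nat.cast_mul, natCast_mul_natCast_cpow]

theorem chm (x : CC) (m n : ℕ) : x.2 (m * n : ℕ) = x.2 m * x.2 n := by
  rw [Nat.cast_mul, map_mul]

theorem cpp (c : S → ℕ) (v : ℂ) : ((pp c : ℕ) : ℂ) ^ v = ∏ p : S, (((p : ℕ) : ℂ) ^ v) ^ c p := by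
  let f : ℕ →* ℂ := ⟨⟨fun n => (n : ℂ) ^ v, by simp⟩, fun m n => cm m n v⟩
  exact (map_prod f _ _).trans (prod_congr rfl fun p _ => map_pow f _ _)

theorem chp (x : CC) (c : S → ℕ) : x.2 (pp c : ℕ) = ∏ p : S, x.2 (p : ℕ) ^ c p := by
  simp [pp]

/-- the coefficient -/
noncomputable def dd (Φ : ℕ → ℝ) (x : CC) (w : ℂ) (e : S → ℕ) (r : ℕ) (y : S → ℕ × ℕ) : ℂ :=
  Φ (pp (fun p => (y p).1) * (x.1 + 1) * pp fun p => (y p).2) *
    ((pp (fun p => (y p).1) * (x.1 + 1) * pp (fun p => (y p).2) : ℕ) : ℂ) ^ (-2 * w) *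
    ((pp e * r : ℕ) : ℂ) ^ w * x.2 (pp (fun p => e p - (y p).1) * r : ℕ)

/-- the integrand -/
noncomputable def GG (N : ℕ) (x : CC) (e : S → ℕ) (r : ℕ) (y : S → ℕ × ℕ) (s : ℂ) : ℂ :=
  (∏ p : S, hl p (y p).1 (y p).2 ((y p).1 = e p) (x.2⁻¹ (p : ℕ) * ((p : ℕ) : ℂ) ^ (-s))) *
    (((pp (fun p => e p - (y p).1) * r : ℕ) / N : ℝ) : ℂ) ^ s

theorem tame (hS : ∀ p ∈ S, p.Prime) {N r : ℕ} (hN : 0 < N) (hr : 0 < r) (x : CC) (e : S → ℕ)
    (y : S → ℕ × ℕ) : Tame (GG N x e r y) := by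
  refine tmul (tprod _ fun p => ?_) (tpow (div_pos (Nat.cast_pos.2 (mul_pos (prod_pos fun p _ =>
    pow_pos (hS p p.2).pos _) hr)) (Nat.cast_pos.2 hN)))
  have := tcomp (F := fun X => hl p (y p).1 (y p).2 ((y p).1 = e p) (x.2⁻¹ (p : ℕ) * X))
    (by unfold hl; split_ifs <;> fun_prop) (tpow (inv_pos.2 (Nat.cast_pos.2 (hS p p.2).pos)))
  simpa only [inv_pw] using this

theorem term (δ : ℝ) (a N : ℕ) (Φ : ℕ → ℝ) (x : CC) (s w : ℂ) (X : S → L3) (y : S → ℕ × ℕ)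
    {i j : ℕ × ℕ} (hi : 1 ≤ nn i) (hj : 1 ≤ nn j) :
    ((U3 a X * wi δ N (k1 a X) i * wi δ N (k2 a X) j : ℝ) : ℂ) *
      dd Φ x w (fun p => mx (X p)) (nn i * nn j) y * GG N x (fun p => mx (X p)) (nn i * nn j) y s =
    (N : ℂ) ^ (-s) * ((∏ p : S, lt a p (X p, y p) (x.2⁻¹ (p : ℕ) * ((p : ℕ) : ℂ) ^ (-s))
        (x.2 (p : ℕ) * ((p : ℕ) : ℂ) ^ s) 1 1 (((p : ℕ) : ℂ) ^ w) (((p : ℕ) : ℂ) ^ (-2 * w))
        (((p : ℕ) : ℂ) ^ (-2 * w))) * ((x.1 + 1 : ℕ) : ℂ) ^ (-2 * w) *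
      Φ (pp (fun p => (y p).1) * (x.1 + 1) * pp fun p => (y p).2)) *
      (((moebius i.2 : ℂ) * x.2 (nn i) * (nn i : ℂ) ^ (-(1 - s - w)) *
        psi δ N (Real.log (k1 a X) + Real.log (nn i))) *
      ((moebius j.2 : ℂ) * x.2 (nn j) * (nn j : ℂ) ^ (-(1 - s - w)) *
        psi δ N (Real.log (k2 a X) + Real.log (nn j)))) := by
  have pw : ∀ n : ℕ, 1 ≤ n → (n : ℂ) ^ (-(1 - s - w)) = (n : ℂ) ^ s * (n : ℂ) ^ w / n :=
    fun n hn => by
      have : (n : ℂ) ≠ 0 := Nat.cast_ne_zero.2 (by omega)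
      rw [show -(1 - s - w) = s + w - 1 by ring, cpow_sub _ _ this, cpow_add _ _ this, cpow_one]
  rw [pw _ hi, pw _ hj, dd, GG, div_pw]
  simp only [lt, one_pow, mul_one, mul_pow, prod_mul_distrib, ← cpp, ← chp, U3, wi, ofReal_mul,
    ofReal_div, ofReal_prod, ofReal_natCast, ofReal_intCast, cm, chm]
  ring

end Cx2A

open Cx2A in
theorem cx2Of : Cx2Of := by
  intro _ hS hV hC δ R B E σ a N Φ k w hδ hδ' hN hΦ hR hk s0 s1
  obtain ⟨hp, hT⟩ := hS.2 δ N hδ hN.two_le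
  have zN : zz δ N < N := by
    have := Real.rpow_lt_rpow_of_exponent_lt (Nat.one_lt_cast.2 hN.one_lt)
      (show 1000 * δ < 1 by linarith [show (1 : ℝ) / 10 ^ 10 < 1 / 1000 by norm_num])
    rwa [Real.rpow_one] at this
  have e1 : ∀ X : SS δ N → L3, ∀ i ∈ TR δ N, ∀ j ∈ TR δ N,
      lw (zz δ N) Φ k N w (M3 X * nn i * nn j) =
      ∑ x ∈ pcs (zz δ N), x.2⁻¹ N / ((x.1 + 1).totient : ℂ) *
        ∑ y ∈ Fintype.piFinset (fun p : SS δ N => B1 (x.1 + 1) p (mx (X p))),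
          dd Φ x w (fun p => mx (X p)) (nn i * nn j) y *
          (VL k σ x (GG N x (fun p => mx (X p)) (nn i * nn j) y) +
            VR k x (GG N x (fun p => mx (X p)) (nn i * nn j) y)) := fun X i hi j hj => by
    rw [mul_assoc]
    exact hC _ R B E σ Φ k N (nn i * nn j) (fun p => mx (X p)) w hN zN hΦ hR hk s0 s1
      (Nat.mul_pos (hT i hi).1 (hT j hj).1) fun p h e => ((hp p h).dvd_mul.1 e).elim
        ((hT i hi).2.2.1 hδ' p h) ((hT j hj).2.2.1 hδ' p h)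
  have e2 : ∀ x : CC, (fun s => (N : ℂ) ^ (-s) * XX δ a N Φ x s w) = fun s =>
      ∑ X ∈ Fintype.piFinset (fun p : SS δ N => al3 a p), ∑ i ∈ TR δ N, ∑ j ∈ TR δ N,
        ∑ y ∈ Fintype.piFinset (fun p : SS δ N => B1 (x.1 + 1) p (mx (X p))),
          ((U3 a X * wi δ N (k1 a X) i * wi δ N (k2 a X) j : ℝ) : ℂ) *
            dd Φ x w (fun p => mx (X p)) (nn i * nn j) y *
            GG N x (fun p => mx (X p)) (nn i * nn j) y s := fun x => by
    funext s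
    rw [XX, pis _ (fun (p : SS δ N) u => B1 (x.1 + 1) p (mx u)) _ fun p => mem5 a _ p, mul_sum]
    refine sum_congr rfl fun X _ => ?_
    rw [sum_congr rfl fun i _ => sum_comm, sum_comm, mul_sum]
    refine sum_congr rfl fun y _ => ?_
    rw [mul_assoc (_ * _ * _), ← mul_assoc, AX, AX, sum_mul_sum, mul_sum]
    refine sum_congr rfl fun i hi => ?_
    rw [mul_sum]
    exact sum_congr rfl fun j hj => (term δ a N Φ x s w X y (hT i hi).1 (hT j hj).1).symm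
  rw [← sum_add_distrib, TS, sum_congr rfl fun X _ => sum_congr rfl fun i hi => sum_congr rfl
    fun j hj => by rw [e1 X i hi j hj, mul_sum]]
  rw [sum_congr rfl fun X _ => sum_congr rfl fun i _ => sum_comm,
    sum_congr rfl fun X _ => sum_comm, sum_comm]
  refine sum_congr rfl fun x _ => ?_
  rw [← mul_add, e2]
  have := four (fun G => VL k σ x G + VR k x G) (fun ι J c G h => by
    obtain ⟨h1, h2⟩ := (hV R B E σ k x hR hk s0 s1).1 ι J c G h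
    simp only [h1, h2, mul_add, sum_add_distrib]) (Fintype.piFinset fun p : SS δ N => al3 a p)
    (TR δ N) (fun X => Fintype.piFinset fun p : SS δ N => B1 (x.1 + 1) p (mx (X p)))
    (fun X i j y => ((U3 a X * wi δ N (k1 a X) i * wi δ N (k2 a X) j : ℝ) : ℂ) *
      dd Φ x w (fun p => mx (X p)) (nn i * nn j) y)
    (fun X i j y => GG N x (fun p => mx (X p)) (nn i * nn j) y) fun X i hi j hj y =>
      tame hp hN.pos (Nat.mul_pos (hT i hi).1 (hT j hj).1) x _ y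
  rw [this]
  simp only [mul_sum]
  refine sum_congr rfl fun X _ => sum_congr rfl fun i _ => sum_congr rfl fun j _ =>
    sum_congr rfl fun y _ => by ring

end Pool.Agent.MP_20b2fd_nt.H38
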