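import Pool.Agent.MP_20b2fd_nt.H38.SpecC

/-! Row Df: a double expansion. -/

set_option autoImplicit false

namespace Pool.Agent.MP_20b2fd_nt.H38

open MeasureTheory Complex Finset Filter

namespace DfA

theorem step {ι : Type} (T : Finset ι) (d : ι → ℂ) (e : ℝ → ι → ℂ) {Γ : ℝ → ℂ} {W : ℝ → ℝ} (K : ℝ)
    (h1 : ∀ i, Integrable fun ξ => Γ ξ * e ξ i) (h2 : Integrable fun ξ => ‖Γ ξ‖ * W ξ)
    (h3 : ∀ ξ, ‖∑ i ∈ T, d i * e ξ i‖ ≤ K * W ξ) :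
    ‖∑ i ∈ T, d i * ∫ ξ, Γ ξ * e ξ i‖ ≤ K * ∫ ξ, ‖Γ ξ‖ * W ξ := by
  simp only [← integral_const_mul]
  rw [← integral_finsetSum _ fun i _ => (h1 i).const_mul _]
  refine norm_integral_le_of_norm_le (h2.const_mul K) (Eventually.of_forall fun ξ => ?_)
  have e1 : ∑ i ∈ T, d i * (Γ ξ * e ξ i) = Γ ξ * ∑ i ∈ T, d i * e ξ i := by
    rw [mul_sum]
    exact sum_congr rfl fun i _ => by ring
  rw [e1, norm_mul, mul_left_comm]
  exact mul_le_mul_of_nonneg_left (h3 ξ) (norm_nonneg _)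

theorem intg {Γ : ℝ → ℂ} (h : Integrable Γ) (β b u : ℝ) :
    Integrable fun ξ : ℝ => Γ ξ * exp ((β + ξ / b * I) * u) := by
  refine h.mul_bdd (c := Real.exp (β * u)) (Continuous.aestronglyMeasurable (by fun_prop))
    (Eventually.of_forall fun ξ => le_of_eq ?_)
  rw [norm_exp, ← ofReal_div]
  simp [-ofReal_div]

theorem err {A₁ A₂ M₁ M₂ : ℂ} {ε A₀ s t : ℝ} (hε : 0 ≤ ε) (hs : 1 ≤ s) (ht : 1 ≤ t)
    (a1 : ‖A₁ - M₁‖ ≤ ε * s) (a2 : ‖A₂ - M₂‖ ≤ ε * t) (b1 : ‖A₁‖ ≤ A₀) (b2 : ‖A₂‖ ≤ A₀) :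
    ‖A₁ * A₂ - M₁ * M₂‖ ≤ (2 * ε * A₀ + ε ^ 2) * (s * t) := by
  have h0 : 0 ≤ A₀ := (norm_nonneg _).trans b1
  have e : A₁ * A₂ - M₁ * M₂ = A₁ * (A₂ - M₂) + (A₁ - M₁) * A₂ - (A₁ - M₁) * (A₂ - M₂) := by ring
  have c1 := mul_le_mul b1 a2 (norm_nonneg _) h0
  have c2 := mul_le_mul a1 b2 (norm_nonneg _) (by positivity)
  have c3 := mul_le_mul a1 a2 (norm_nonneg _) (by positivity)
  have c4 := (norm_sub_le _ ((A₁ - M₁) * (A₂ - M₂))).trans (add_le_add_left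
    (norm_add_le (A₁ * (A₂ - M₂)) ((A₁ - M₁) * A₂)) _)
  rw [← e, norm_mul, norm_mul, norm_mul] at c4
  have c5 := mul_le_mul_of_nonneg_left hs (show 0 ≤ ε * A₀ * t by positivity)
  have c6 := mul_le_mul_of_nonneg_left ht (show 0 ≤ ε * A₀ * s by positivity)
  nlinarith

end DfA

open DfA in
theorem df : DfS := by
  intro ι T c x₁ x₂ x₃ A Φ Γ φ β b l η ε A₀ E₀ J hx hη hε g1 g2 f1 f2 hA hΦ hE
  have f3 : ∀ u : ℝ, Integrable fun ξ : ℝ => φ ξ * exp (ξ / l * I * u) := fun u => by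
    simpa using intg f1 0 l u
  set P := ∫ ξ : ℝ, ‖φ ξ‖ * (1 + |ξ|) ^ J
  set G := ∫ ξ : ℝ, ‖Γ ξ‖ * (1 + |ξ|) ^ J
  let M : ℝ → ℂ := fun u => ∫ ξ : ℝ, Γ ξ * exp ((β + ξ / b * I) * u)
  have s1 : ∀ ξ ξ' : ℝ, ‖∑ i ∈ T, c i * exp ((β + ξ / b * I) * x₁ i) * Φ (x₃ i) *
      exp ((β + ξ' / b * I) * x₂ i)‖ ≤ E₀ * (1 + |ξ|) ^ J * P * (1 + |ξ'|) ^ J := fun ξ ξ' => by
    have := step T (fun i => c i * exp ((β + ξ / b * I) * x₁ i) * exp ((β + ξ' / b * I) * x₂ i))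
      (fun ξ'' i => exp (ξ'' / l * I * x₃ i)) (E₀ * (1 + |ξ|) ^ J * (1 + |ξ'|) ^ J)
      (fun i => f3 _) f2 fun ξ'' => (hE ξ ξ' ξ'').trans_eq (by simp only [mul_pow, mul_assoc])
    simp only [← (hΦ _).1] at this
    rw [mul_right_comm _ P]
    simpa only [mul_right_comm _ (Φ _)] using this
  have s2 : ∀ ξ : ℝ, ‖∑ i ∈ T, c i * Φ (x₃ i) * M (x₂ i) * exp ((β + ξ / b * I) * x₁ i)‖ ≤
      E₀ * G * P * (1 + |ξ|) ^ J := fun ξ => by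
    have := step T (fun i => c i * exp ((β + ξ / b * I) * x₁ i) * Φ (x₃ i))
      (fun ξ' i => exp ((β + ξ' / b * I) * x₂ i)) _ (fun i => intg g1 β b _) g2 (s1 ξ)
    refine le_of_eq_of_le (congrArg _ (sum_congr rfl fun i _ => ?_)) (this.trans_eq (by ring))
    simp only [M]
    ring
  have s3 := step T (fun i => c i * Φ (x₃ i) * M (x₂ i))
    (fun ξ i => exp ((β + ξ / b * I) * x₁ i)) _ (fun i => intg g1 β b _) g2 s2
  have e : ∑ i ∈ T, c i * Φ (x₃ i) * A (x₁ i) * A (x₂ i) =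
      ∑ i ∈ T, c i * Φ (x₃ i) * M (x₂ i) * M (x₁ i) +
        ∑ i ∈ T, c i * Φ (x₃ i) * (A (x₁ i) * A (x₂ i) - M (x₁ i) * M (x₂ i)) := by
    rw [← sum_add_distrib]
    exact sum_congr rfl fun i _ => by ring
  rw [e, mul_sum]
  refine (norm_add_le _ _).trans (add_le_add (s3.trans_eq (by ring))
    ((norm_sum_le _ _).trans (sum_le_sum fun i hi => ?_)))
  obtain ⟨p1, p2⟩ := hx i hi
  have k := err hε (Real.one_le_exp (mul_nonneg hη p1)) (Real.one_le_exp (mul_nonneg hη p2))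
    (hA _ p1).1 (hA _ p2).1 (hA _ p1).2 (hA _ p2).2
  rw [← Real.exp_add, ← mul_add] at k
  rw [norm_mul, norm_mul, mul_left_comm, mul_assoc]
  exact mul_le_mul_of_nonneg_left ((mul_le_of_le_one_left (norm_nonneg _) (hΦ _).2).trans k)
    (norm_nonneg _)

end Pool.Agent.MP_20b2fd_nt.H38
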