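import Pool.Agent.MP_20b2fd_nt.H38.SpecC
import Pool.Agent.MP_74e98a_nt.H25.Div

set_option autoImplicit false

namespace Pool.Agent.MP_20b2fd_nt.H38

open MeasureTheory Complex Finset Filter Topology ArithmeticFunction
open scoped Real

namespace DsuA

theorem big (C ε : ℝ) (hε : 0 < ε) : ∃ N₀ : ℕ, ∀ N : ℕ, N₀ ≤ N → C ≤ (N : ℝ) ^ ε := by
  have h := ((tendsto_rpow_atTop hε).comp tendsto_natCast_atTop_atTop).eventually_ge_atTop C
  obtain ⟨N₀, h⟩ := eventually_atTop.1 h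
  exact ⟨N₀, fun N hN => h N hN⟩

/-- separation of variables -/
theorem sep (hFl : FlS) : ∃ G : ℝ, 0 ≤ G ∧ ∀ (ι : Type) (J : Finset ι) (F : ι → ℂ) (u : ι → ℝ)
    (B : ℝ), (∀ ξ : ℝ, ‖∑ i ∈ J, F i * exp (ξ * I * u i)‖ ≤ B) →
    ‖∑ i ∈ J, F i * (ps0 (u i) : ℝ)‖ ≤ G * B := by
  obtain ⟨-, -, h3⟩ := hFl ps0 2 (by norm_num) (fun n => ps0.contDiff) (fun u hu => by
    apply ps0.zero_of_le_dist
    have h1 : ps0.rOut = 5 / 4 := rfl
    rw [h1, Real.dist_eq]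
    rcases lt_abs.1 hu with h | h
    · exact le_abs.2 (Or.inl (by linarith))
    · exact le_abs.2 (Or.inr (by linarith)))
  set g : ℝ → ℂ := fun ξ => lap ps0 (ξ * I) with hg
  have h4 : ∀ u : ℝ, (Integrable fun ξ : ℝ => g ξ * exp (ξ * I * u)) ∧
      ((ps0 u : ℝ) : ℂ) = 1 / (2 * π) * ∫ ξ : ℝ, g ξ * exp (ξ * I * u) := by
    intro u
    have := h3 0 u
    simpa [hg] using this
  have h5 : Integrable g := by simpa using (h4 0).1
  refine ⟨1 / (2 * π) * ∫ ξ, ‖g ξ‖, by positivity, fun ι J F u B hB => ?_⟩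
  have e1 : ∑ i ∈ J, F i * (ps0 (u i) : ℝ) =
      1 / (2 * π) * ∫ ξ : ℝ, g ξ * ∑ i ∈ J, F i * exp (ξ * I * u i) := by
    have e2 : ∀ ξ : ℝ, g ξ * ∑ i ∈ J, F i * exp (ξ * I * u i) =
        ∑ i ∈ J, F i * (g ξ * exp (ξ * I * u i)) := fun ξ => by
      rw [mul_sum]; exact sum_congr rfl fun i _ => by ring
    simp_rw [e2]
    rw [integral_finsetSum _ fun i _ => (h4 (u i)).1.const_mul _, mul_sum]
    refine sum_congr rfl fun i _ => ?_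
    rw [integral_const_mul, (h4 (u i)).2]; ring
  rw [e1, norm_mul, mul_assoc]
  have e3 : ‖(1 / (2 * π) : ℂ)‖ = 1 / (2 * π) := by
    simp [abs_of_pos Real.pi_pos]
  rw [e3]
  refine mul_le_mul_of_nonneg_left ?_ (by positivity)
  rw [← integral_mul_const]
  refine norm_integral_le_of_norm_le (h5.norm.mul_const B) (Eventually.of_forall fun ξ => ?_)
  rw [norm_mul]
  exact mul_le_mul_of_nonneg_left (hB ξ) (norm_nonneg _)

theorem fib {α : Type} (X : Finset α) (m : α → ℕ) (U : α → ℝ) (E : ℝ) (K : ℕ) (hE : 0 ≤ E)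
    (h : ∀ M : ℕ, 1 ≤ M → M ≤ K → ∑ x ∈ X.filter (fun x => m x = M), |U x| ≤ E / M)
    (D y : ℕ) (hy : 1 ≤ y) (hK : y ≤ K) :
    ∑ x ∈ X.filter (fun x => m x * D = y), |U x| / D ≤ E / y := by
  by_cases hD : D ∣ y
  · obtain ⟨M, rfl⟩ := hD
    have hD0 : 0 < D := Nat.pos_of_mul_pos_right hy
    have hM0 : 0 < M := Nat.pos_of_mul_pos_left hy
    have e : X.filter (fun x => m x * D = D * M) = X.filter (fun x => m x = M) := by
      refine filter_congr fun x _ => ?_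
      rw [mul_comm D M]
      exact Nat.mul_left_inj hD0.ne'
    rw [e, ← sum_div]
    have h1 := h M hM0 (le_trans (Nat.le_mul_of_pos_left _ hD0) hK)
    have hD' : (0 : ℝ) < D := by exact_mod_cast hD0
    calc _ ≤ E / M / D := by gcongr
      _ = _ := by push_cast; rw [div_div, mul_comm]
  · have e : X.filter (fun x => m x * D = y) = ∅ :=
      filter_eq_empty_iff.2 fun x _ hx => hD ⟨m x, by rw [← hx, mul_comm]⟩
    rw [e, sum_empty]; positivity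

theorem beta {α : Type} (X : Finset α) (m : α → ℕ) (U : α → ℝ) (E : ℝ) (K : ℕ) (hE : 0 ≤ E)
    (h : ∀ M : ℕ, 1 ≤ M → M ≤ K → ∑ x ∈ X.filter (fun x => m x = M), |U x| ≤ E / M)
    (Z : Finset (α × ℕ × ℕ × ℕ)) (hZ : ∀ z ∈ Z, z.1 ∈ X) (c : α × ℕ × ℕ × ℕ → ℂ)
    (hc : ∀ z ∈ Z, ‖c z‖ ≤ |U z.1| / (z.2.1 * nn z.2.2 : ℕ))
    (y : ℕ) (hy : 1 ≤ y) (hK : y ≤ K) :
    ‖∑ z ∈ Z.filter (fun z => m z.1 * (z.2.1 * nn z.2.2) = y), c z‖ ≤
      (y.divisors.card : ℝ) ^ 3 * (E / y) := by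
  classical
  set W := y.divisors ×ˢ y.divisors ×ˢ y.divisors with hW
  have hs : Z.filter (fun z => m z.1 * (z.2.1 * nn z.2.2) = y) ⊆
      (X ×ˢ W).filter (fun z => m z.1 * (z.2.1 * nn z.2.2) = y) := by
    intro z hz
    obtain ⟨hz1, hz2⟩ := mem_filter.1 hz
    refine mem_filter.2 ⟨mem_product.2 ⟨hZ z hz1, ?_⟩, hz2⟩
    have y0 : y ≠ 0 := by omega
    simp only [hW, mem_product, Nat.mem_divisors, ne_eq, y0, not_false_eq_true, and_true]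
    rw [← hz2]
    unfold nn
    exact ⟨⟨m z.1 * (z.2.2.1 * z.2.2.2), by ring⟩, ⟨m z.1 * (z.2.1 * z.2.2.2), by ring⟩,
      ⟨m z.1 * (z.2.1 * z.2.2.1), by ring⟩⟩
  calc _ ≤ ∑ z ∈ Z.filter (fun z => m z.1 * (z.2.1 * nn z.2.2) = y),
        |U z.1| / (z.2.1 * nn z.2.2 : ℕ) :=
        norm_sum_le_of_le _ fun z hz => hc z (mem_filter.1 hz).1
    _ ≤ ∑ z ∈ (X ×ˢ W).filter (fun z => m z.1 * (z.2.1 * nn z.2.2) = y),
        |U z.1| / (z.2.1 * nn z.2.2 : ℕ) :=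
        sum_le_sum_of_subset_of_nonneg hs fun _ _ _ => by positivity
    _ = ∑ w ∈ W, ∑ x ∈ X.filter (fun x => m x * (w.1 * nn w.2) = y),
        |U x| / (w.1 * nn w.2 : ℕ) := by
        rw [sum_filter, sum_product_right]
        exact sum_congr rfl fun w _ => by rw [sum_filter]
    _ ≤ ∑ _w ∈ W, E / y := sum_le_sum fun w _ => fib X m U E K hE h _ y hy hK
    _ = _ := by
        rw [sum_const, nsmul_eq_mul, hW, card_product, card_product]; push_cast; ring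

theorem blk (hSz : SzS) (G : ℝ) (hG : ∀ (ι : Type) (J : Finset ι) (F : ι → ℂ) (u : ι → ℝ)
    (B : ℝ), (∀ ξ : ℝ, ‖∑ i ∈ J, F i * exp (ξ * I * u i)‖ ≤ B) →
      ‖∑ i ∈ J, F i * (ps0 (u i) : ℝ)‖ ≤ G * B)
    (δ : ℝ) (a N : ℕ) (hδ : 0 < δ) (hδ1 : δ ≤ 1 / 2) (ha : 1 ≤ a) (hN : 2 ≤ N)
    (h9 : (900 * a ^ 4 : ℝ) ≤ (N : ℝ) ^ δ)
    (hX : ∀ M : ℕ, 1 ≤ M → M ≤ N ^ 2 →
      ∑ x ∈ (Fintype.piFinset fun p : SS δ N => al3 a p).filter (fun x => M3 x = M), |U3 a x| ≤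
        (N : ℝ) ^ (δ / 4) / M)
    (hτ : ∀ y : ℕ, y ≤ N ^ 2 →
      (y.divisors.card : ℝ) ^ 3 * (N : ℝ) ^ (δ / 4) ≤ (N : ℝ) ^ (2 * δ))
    (l : ℕ → ℂ) (B T : ℝ) (P R : Finset ℕ) (hT1 : 1 ≤ T) (hP : ∀ t ∈ P, T ≤ t)
    (hR : P ×ˢ R ⊆ TR δ N) (hR1 : ∀ ρ ∈ R, 1 ≤ ρ)
    (hD : ∀ (Y : ℕ) (c β : ℕ → ℂ), (Y : ℝ) ≤ (N : ℝ) ^ (1 + 2 * δ) / T → (∀ t, ‖c t‖ ≤ 1 / T) →
      (∀ y ∈ Icc 1 Y, ‖β y‖ ≤ (N : ℝ) ^ (2 * δ) / y) →
      ‖∑ t ∈ P, ∑ y ∈ Icc 1 Y, c t * β y * l (t * y)‖ ≤ B) :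
    ‖∑ x ∈ Fintype.piFinset (fun p : SS δ N => al3 a p), ∑ i ∈ P ×ˢ R, ∑ j ∈ TR δ N,
      ((U3 a x * wi δ N (k1 a x) i * wi δ N (k2 a x) j : ℝ) : ℂ) * l (M3 x * nn i * nn j)‖ ≤
      G * B := by
  classical
  obtain ⟨hS1, hS2⟩ := hSz
  obtain ⟨hpr, hw⟩ := hS2 δ N hδ hN
  have hM := (hS1 a (SS δ N) ha hpr).2
  set X := Fintype.piFinset (fun p : SS δ N => al3 a p) with hXd
  have hpp : ∀ c : SS δ N → ℕ, 1 ≤ pp c := fun c =>
    Nat.one_le_iff_ne_zero.2 (prod_ne_zero_iff.2 fun p _ => pow_ne_zero _ (hpr p p.2).ne_zero)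
  have hT0 : 0 < T := by linarith
  have hN1 : (1 : ℝ) ≤ N := by exact_mod_cast (by omega : 1 ≤ N)
  have hN0 : (0 : ℝ) < N := by linarith
  set Q := (N : ℝ) ^ (1 / 2 + δ / 2) with hQ
  set Z := (X ×ˢ R ×ˢ TR δ N).filter
    (fun z => (k1 a z.1 : ℝ) * z.2.1 * T ≤ Q ∧ wi δ N (k2 a z.1) z.2.2 ≠ 0) with hZ
  set Lm := δ * Real.log N / 2 with hLm
  set yy : (SS δ N → L3) × ℕ × ℕ × ℕ → ℕ := fun z => M3 z.1 * (z.2.1 * nn z.2.2) with hyy
  set cc : (SS δ N → L3) × ℕ × ℕ × ℕ → ℝ := fun z =>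
    U3 a z.1 * (moebius z.2.1 / z.2.1) * wi δ N (k2 a z.1) z.2.2 with hcc
  set vv : (SS δ N → L3) × ℕ × ℕ × ℕ → ℝ := fun z =>
    (Real.log (k1 a z.1) + Real.log z.2.1 - Real.log N / 2) / Lm with hvv
  have hZm : ∀ z ∈ Z, z.1 ∈ X ∧ z.2.1 ∈ R ∧ z.2.2 ∈ TR δ N ∧
      (k1 a z.1 : ℝ) * z.2.1 * T ≤ Q ∧ wi δ N (k2 a z.1) z.2.2 ≠ 0 := by
    intro z hz
    obtain ⟨h1, h2⟩ := mem_filter.1 hz
    simp only [mem_product] at h1
    exact ⟨h1.1, h1.2.1, h1.2.2, h2⟩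
  have e1 : ∑ x ∈ X, ∑ i ∈ P ×ˢ R, ∑ j ∈ TR δ N,
      ((U3 a x * wi δ N (k1 a x) i * wi δ N (k2 a x) j : ℝ) : ℂ) * l (M3 x * nn i * nn j) =
      ∑ i ∈ P ×ˢ Z, ((1 / i.1 : ℂ) * cc i.2 * l (i.1 * yy i.2)) *
        (ps0 (Real.log i.1 / Lm + vv i.2) : ℝ) := by
    rw [sum_product]
    simp_rw [sum_product P R]
    rw [sum_comm]
    refine sum_congr rfl fun t ht => ?_
    rw [hZ, sum_filter, sum_product]
    refine sum_congr rfl fun x _ => ?_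
    rw [sum_product]
    refine sum_congr rfl fun ρ hρ => sum_congr rfl fun j _ => ?_
    have ht0 : (0 : ℝ) < t := lt_of_lt_of_le hT0 (hP t ht)
    have hρ0 : (0 : ℝ) < ρ := by exact_mod_cast hR1 ρ hρ
    split_ifs with hc
    · have e2 : M3 x * nn (t, ρ) * nn j = t * yy (x, ρ, j) := by
        simp only [hyy, nn]; ring
      have e3 : psi δ N (Real.log (k1 a x) + Real.log (nn (t, ρ))) =
          ps0 (Real.log t / Lm + vv (x, ρ, j)) := by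
        simp only [psi, hvv, nn, hLm]
        congr 1
        push_cast
        rw [Real.log_mul ht0.ne' hρ0.ne']
        ring
      rw [e2]
      conv_lhs => rw [wi, e3]
      simp only [hcc, nn]
      push_cast
      ring
    · by_cases h2 : wi δ N (k2 a x) j = 0
      · simp [h2]
      have h3 : wi δ N (k1 a x) (t, ρ) = 0 := by
        by_contra h3
        have h4 := ((hw (t, ρ) (hR (mem_product.2 ⟨ht, hρ⟩))).2.2.2 (k1 a x) (hpp _)).2 h3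
        refine hc ⟨le_trans ?_ h4, h2⟩
        simp only [nn]
        push_cast
        have := hP t ht
        calc (k1 a x : ℝ) * ρ * T ≤ k1 a x * ρ * t := by gcongr
          _ = _ := by ring
      simp [h3]
  rw [e1]
  refine hG _ _ _ _ B fun ξ => ?_
  set Y := ⌊(N : ℝ) ^ (1 + 2 * δ) / T⌋₊ with hY
  have hYle : (Y : ℝ) ≤ (N : ℝ) ^ (1 + 2 * δ) / T := Nat.floor_le (by positivity)
  have hYN : Y ≤ N ^ 2 := by
    have : (Y : ℝ) ≤ (N : ℝ) ^ 2 := by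
      calc (Y : ℝ) ≤ (N : ℝ) ^ (1 + 2 * δ) := hYle.trans (div_le_self (by positivity) hT1)
        _ ≤ (N : ℝ) ^ ((2 : ℕ) : ℝ) :=
          Real.rpow_le_rpow_of_exponent_le hN1 (by push_cast; linarith)
        _ = _ := Real.rpow_natCast _ _
    exact_mod_cast this
  have hyY : ∀ z ∈ Z, yy z ∈ Icc 1 Y := by
    intro z hz
    obtain ⟨h1, h2, h3, h4, h5⟩ := hZm z hz
    obtain ⟨g1, -, -, g2⟩ := hw _ h3
    have g3 := (g2 (k2 a z.1) (hpp _)).2 h5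
    refine mem_Icc.2 ⟨Nat.mul_pos (hpp _) (Nat.mul_pos (hR1 _ h2) g1), Nat.le_floor ?_⟩
    rw [le_div_iff₀ hT0]
    have g4 : (M3 z.1 : ℝ) ≤ 900 * a ^ 4 * (k1 a z.1 * k2 a z.1) := by exact_mod_cast hM _ h1
    have g5 : (N : ℝ) ^ (1 + 2 * δ) = (N : ℝ) ^ δ * (Q * Q) := by
      rw [hQ, ← Real.rpow_add hN0, ← Real.rpow_add hN0]; congr 1; ring
    calc ((yy z : ℕ) : ℝ) * T = M3 z.1 * (z.2.1 * nn z.2.2 * T) := by
          simp only [hyy]; push_cast; ring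
      _ ≤ 900 * a ^ 4 * (k1 a z.1 * k2 a z.1) * (z.2.1 * nn z.2.2 * T) := by gcongr
      _ = 900 * a ^ 4 * ((k1 a z.1 * z.2.1 * T) * (k2 a z.1 * nn z.2.2)) := by ring
      _ ≤ (N : ℝ) ^ δ * (Q * Q) := by gcongr
      _ = _ := g5.symm
  set c : ℕ → ℂ := fun t => if t ∈ P then 1 / t * exp (ξ * I * (Real.log t / Lm : ℝ)) else 0
    with hc
  set β : ℕ → ℂ := fun y => ∑ z ∈ Z.filter (fun z => yy z = y), cc z * exp (ξ * I * vv z)
    with hβ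
  have hex : ∀ u : ℝ, ‖exp (ξ * I * u)‖ = 1 := fun u => by
    rw [norm_exp]; simp
  have e4 : ∑ i ∈ P ×ˢ Z, ((1 / i.1 : ℂ) * cc i.2 * l (i.1 * yy i.2)) *
      exp (ξ * I * (Real.log i.1 / Lm + vv i.2 : ℝ)) =
      ∑ t ∈ P, ∑ y ∈ Icc 1 Y, c t * β y * l (t * y) := by
    rw [sum_product]
    refine sum_congr rfl fun t ht => ?_
    rw [← sum_fiberwise_of_maps_to hyY]
    refine sum_congr rfl fun y _ => ?_
    simp only [hc, hβ, if_pos ht]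
    rw [mul_sum, sum_mul]
    refine sum_congr rfl fun z hz => ?_
    rw [(mem_filter.1 hz).2, ofReal_add, mul_add, exp_add]
    ring
  rw [e4]
  refine hD Y c β hYle (fun t => ?_) fun y hy => ?_
  · simp only [hc]
    split_ifs with ht
    · rw [norm_mul, hex, mul_one, norm_div, norm_one, Complex.norm_natCast]
      exact one_div_le_one_div_of_le hT0 (hP t ht)
    · rw [norm_zero]; positivity
  · obtain ⟨hy1, hy2⟩ := mem_Icc.1 hy
    have b1 := beta X M3 (U3 a) ((N : ℝ) ^ (δ / 4)) (N ^ 2) (by positivity) hX Z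
      (fun z hz => (hZm z hz).1) (fun z => cc z * exp (ξ * I * vv z)) (fun z hz => by
        obtain ⟨-, h2, h3, -, -⟩ := hZm z hz
        obtain ⟨-, -, -, g2⟩ := hw _ h3
        have g3 := (g2 (k2 a z.1) (hpp _)).1
        have g4 : |(moebius z.2.1 : ℝ)| ≤ 1 := by exact_mod_cast abs_moebius_le_one
        rw [norm_mul, hex, mul_one, Complex.norm_real, Real.norm_eq_abs]
        simp only [hcc]
        rw [abs_mul, abs_mul, abs_div, Nat.abs_cast]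
        calc _ ≤ |U3 a z.1| * (1 / z.2.1) * (1 / nn z.2.2) := by gcongr
          _ = _ := by push_cast; ring) y hy1 (hy2.trans hYN)
    refine b1.trans ?_
    rw [← mul_div_assoc]
    have := hτ y (hy2.trans hYN)
    gcongr

end DsuA

open DsuA in
theorem dsuOf : DsuOf := by
  classical
  intro hFl _ _ hSz hXb hDs δ a hδ hδ1 ha
  obtain ⟨G, hG0, hG⟩ := sep hFl
  obtain ⟨N1, h1⟩ := hXb δ a hδ hδ1 ha
  obtain ⟨N2, h2⟩ := hDs δ hδ hδ1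
  obtain ⟨N3, h3⟩ := big (900 * a ^ 4) δ hδ
  obtain ⟨C, hC1, hC⟩ := MP_74e98a_nt.H25.divisor_bound (δ / 6) (by positivity)
  obtain ⟨N4, h4⟩ := big (C ^ 3) (δ / 2) (by positivity)
  obtain ⟨N5, h5⟩ := big ((4 / δ + 1) * G) (δ / 2) (by positivity)
  refine ⟨N1 + N2 + N3 + N4 + N5, fun N Φ k hN hNp hΦ hk => ?_⟩
  have hN2 := hNp.two_le
  have hN1 : (1 : ℝ) ≤ N := by exact_mod_cast (by omega : 1 ≤ N)
  have hN0 : (0 : ℝ) < N := by linarith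
  have hδ2 : δ ≤ 1 / 2 := hδ1.trans (by norm_num)
  set R := (Icc 1 (KK δ N)).filter (rg (zz δ N)) with hR
  have hTR : TR δ N = PP N ×ˢ R := by
    unfold TR; congr
  set V := (N : ℝ) ^ (1 / 10000 : ℝ) with hV
  have hV1 : 1 ≤ V := Real.one_le_rpow hN1 (by norm_num)
  have hPP : ∀ t ∈ PP N, t.Prime ∧ V < t ∧ (t : ℝ) ≤ (N : ℝ) ^ (21 / 10000 : ℝ) := by
    intro t ht
    obtain ⟨g1, g2, g3⟩ := mem_filter.1 ht
    refine ⟨g2, g3, ?_⟩
    have g4 := (Nat.le_floor_iff (by positivity)).1 (mem_Icc.1 g1).2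
    refine g4.trans (le_of_eq ?_)
    rw [← Real.rpow_natCast, ← Real.rpow_mul hN0.le]; norm_num
  have hmap : ∀ t ∈ PP N, Nat.log 2 t ∈ range (Nat.log 2 N + 1) := by
    intro t ht
    have g1 : (t : ℝ) ≤ N := (hPP t ht).2.2.trans
      ((Real.rpow_le_rpow_of_exponent_le hN1 (by norm_num)).trans_eq (Real.rpow_one _))
    exact mem_range.2 (Nat.lt_succ_of_le (Nat.log_mono_right (by exact_mod_cast g1)))
  have hτ : ∀ y : ℕ, y ≤ N ^ 2 →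
      (y.divisors.card : ℝ) ^ 3 * (N : ℝ) ^ (δ / 4) ≤ (N : ℝ) ^ (2 * δ) := by
    intro y hy
    have g1 : (y : ℝ) ≤ (N : ℝ) ^ (2 : ℝ) := by
      rw [Real.rpow_two]; exact_mod_cast hy
    have g2 : (y.divisors.card : ℝ) ≤ C * (N : ℝ) ^ (δ / 3) := by
      refine (hC y).trans ?_
      have : (N : ℝ) ^ (δ / 3) = ((N : ℝ) ^ (2 : ℝ)) ^ (δ / 6) := by
        rw [← Real.rpow_mul hN0.le]; congr 1; ring
      rw [this]; gcongr
    have g3 : ((N : ℝ) ^ (δ / 3)) ^ 3 = (N : ℝ) ^ δ := by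
      rw [← Real.rpow_natCast, ← Real.rpow_mul hN0.le]; congr 1; push_cast; ring
    have g4 := h4 N (by omega)
    calc _ ≤ (C * (N : ℝ) ^ (δ / 3)) ^ 3 * (N : ℝ) ^ (δ / 4) := by gcongr
      _ = C ^ 3 * (N : ℝ) ^ δ * (N : ℝ) ^ (δ / 4) := by rw [mul_pow, g3]
      _ ≤ (N : ℝ) ^ (δ / 2) * (N : ℝ) ^ δ * (N : ℝ) ^ (δ / 4) := by gcongr
      _ = (N : ℝ) ^ (δ / 2 + δ + δ / 4) := by rw [Real.rpow_add hN0, Real.rpow_add hN0]
      _ ≤ _ := Real.rpow_le_rpow_of_exponent_le hN1 (by linarith)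
  set l : ℕ → ℂ := fun m => dv (zz δ N) Φ k N m with hl
  have hb : ∀ b ∈ range (Nat.log 2 N + 1),
      ‖∑ x ∈ Fintype.piFinset (fun p : SS δ N => al3 a p),
        ∑ i ∈ (PP N).filter (fun t => Nat.log 2 t = b) ×ˢ R, ∑ j ∈ TR δ N,
        ((U3 a x * wi δ N (k1 a x) i * wi δ N (k2 a x) j : ℝ) : ℂ) * l (M3 x * nn i * nn j)‖ ≤
      G * (N : ℝ) ^ (-2 * δ) := by
    intro b _
    set P := (PP N).filter (fun t => Nat.log 2 t = b) with hP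
    rcases P.eq_empty_or_nonempty with h0 | ⟨t0, ht0⟩
    · rw [h0]; simp only [empty_product, sum_empty, sum_const_zero, norm_zero]; positivity
    have hPt : ∀ t ∈ P, max ((2 : ℝ) ^ b) V ≤ t ∧ (t : ℝ) ≤ 2 * max ((2 : ℝ) ^ b) V := by
      intro t ht
      obtain ⟨g1, g2⟩ := mem_filter.1 ht
      obtain ⟨g3, g4, -⟩ := hPP t g1
      have g5 : 2 ^ b ≤ t := g2 ▸ Nat.pow_log_le_self 2 g3.ne_zero
      have g6 : t < 2 ^ (b + 1) := g2 ▸ Nat.lt_pow_succ_log_self (by norm_num) t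
      have g7 : (t : ℝ) < 2 ^ (b + 1) := by exact_mod_cast g6
      refine ⟨max_le (by exact_mod_cast g5) g4.le, ?_⟩
      have := le_max_left ((2 : ℝ) ^ b) V
      rw [pow_succ] at g7
      linarith
    have hT : TOK N (max ((2 : ℝ) ^ b) V) P :=
      ⟨le_max_right _ _, (hPt t0 ht0).1.trans (hPP t0 (mem_filter.1 ht0).1).2.2,
        fun t ht => ⟨(hPP t (mem_filter.1 ht).1).1, hPt t ht⟩⟩
    refine blk hSz G hG δ a N hδ hδ2 ha hN2 (h3 N (by omega)) (h1 N (by omega)) hτ l _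
      (max ((2 : ℝ) ^ b) V) P R (hV1.trans (le_max_right _ _)) (fun t ht => (hPt t ht).1)
      (by rw [hTR]; exact product_subset_product_left (filter_subset _ _))
      (fun ρ hρ => (mem_Icc.1 (mem_filter.1 hρ).1).1) fun Y c β g1 g2 g3 => ?_
    exact h2 N Y _ P c β Φ k (by omega) hNp hT g1 g2 g3 hΦ hk
  have e : TS δ a N (TR δ N) l = ∑ b ∈ range (Nat.log 2 N + 1),
      ∑ x ∈ Fintype.piFinset (fun p : SS δ N => al3 a p),
        ∑ i ∈ (PP N).filter (fun t => Nat.log 2 t = b) ×ˢ R, ∑ j ∈ TR δ N,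
        ((U3 a x * wi δ N (k1 a x) i * wi δ N (k2 a x) j : ℝ) : ℂ) * l (M3 x * nn i * nn j) := by
    rw [sum_comm, TS]
    refine sum_congr rfl fun x _ => ?_
    simp_rw [sum_product _ R]
    rw [sum_fiberwise_of_maps_to hmap]
    exact (sum_congr hTR fun _ _ => rfl).trans (sum_product _ _ _)
  rw [e]
  refine (norm_sum_le_of_le _ hb).trans ?_
  rw [sum_const, card_range, nsmul_eq_mul]
  have g1 : ((2 : ℝ)) ^ Nat.log 2 N ≤ N := by
    exact_mod_cast Nat.pow_log_le_self 2 hNp.ne_zero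
  have g2 : (Nat.log 2 N : ℝ) * Real.log 2 ≤ Real.log N := by
    rw [← Real.log_pow]; exact Real.log_le_log (by positivity) g1
  have g3 := Real.log_le_rpow_div hN0.le (show 0 < δ / 2 by positivity)
  have g4 : 1 ≤ (N : ℝ) ^ (δ / 2) := Real.one_le_rpow hN1 (by positivity)
  have g5 : ((Nat.log 2 N + 1 : ℕ) : ℝ) ≤ (4 / δ + 1) * (N : ℝ) ^ (δ / 2) := by
    have a1 := Real.log_two_gt_d9
    have a2 : (0 : ℝ) ≤ Nat.log 2 N := Nat.cast_nonneg _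
    have a3 : (N : ℝ) ^ (δ / 2) / (δ / 2) * 2 = 4 / δ * (N : ℝ) ^ (δ / 2) := by
      field_simp; norm_num
    push_cast
    nlinarith
  have g6 := h5 N (by omega)
  calc _ ≤ (4 / δ + 1) * (N : ℝ) ^ (δ / 2) * (G * (N : ℝ) ^ (-2 * δ)) := by gcongr
    _ = (4 / δ + 1) * G * ((N : ℝ) ^ (δ / 2) * (N : ℝ) ^ (-2 * δ)) := by ring
    _ ≤ (N : ℝ) ^ (δ / 2) * ((N : ℝ) ^ (δ / 2) * (N : ℝ) ^ (-2 * δ)) := by gcongr
    _ = _ := by
      rw [← Real.rpow_add hN0, ← Real.rpow_add hN0]; congr 1; ring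

end Pool.Agent.MP_20b2fd_nt.H38
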