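import Pool.Agent.MP_20b2fd_nt.H38.SpecC

/-! The trivial bound for the Euler product. -/

set_option autoImplicit false

namespace Pool.Agent.MP_20b2fd_nt.H38

open Finset ArithmeticFunction

namespace EuaA

theorem big {a : ℕ} {S : Finset ℕ} (ha : 1 ≤ a) (hS : ∀ p ∈ S, p.Prime) :
    ∏ p : S, (if (p : ℕ) ∣ 30 * a then (p : ℕ) ^ (a.factorization p + 1) else 1) ≤ 30 * a ^ 2 := by
  have h0 : 30 * a ≠ 0 := by omega
  rw [prod_coe_sort S fun p => if p ∣ 30 * a then p ^ (a.factorization p + 1) else 1, ← prod_filter]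
  calc ∏ p ∈ S.filter (· ∣ 30 * a), p ^ (a.factorization p + 1)
      ≤ ∏ p ∈ (30 * a).primeFactors, p ^ (a.factorization p + 1) :=
        prod_le_prod_of_subset_of_one_le'
          (fun p hp => Nat.mem_primeFactors.2 ⟨hS p (mem_filter.1 hp).1, (mem_filter.1 hp).2, h0⟩)
          fun p hp _ => Nat.one_le_pow _ _ (Nat.prime_of_mem_primeFactors hp).pos
    _ = a * ∏ p ∈ (30 * a).primeFactors, p := by
        simp only [pow_succ, prod_mul_distrib]
        rw [← Finsupp.prod_of_support_subset a.factorization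
          (Nat.primeFactors_mono (Dvd.intro_left 30 rfl) h0) (fun p e => p ^ e) fun _ _ => pow_zero _,
          Nat.prod_factorization_pow_eq_self (by omega)]
    _ ≤ a * (30 * a) :=
        Nat.mul_le_mul_left _ (Nat.le_of_dvd (by omega) (Nat.prod_primeFactors_dvd _))
    _ = 30 * a ^ 2 := by ring

end EuaA

theorem euaOf : EuaOf := by
  rintro ⟨D, hD, -, -, hM⟩ ⟨C, A, hC, hL⟩
  refine ⟨30 ^ A * Real.exp (C * D), 2 * A, ⌈C⌉₊,
    one_le_mul_of_one_le_of_one_le (one_le_pow₀ (by norm_num)) (Real.one_le_exp (by positivity)),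
    fun a q z X Y E E' W F G ha hz hR => ?_⟩
  have hS : ∀ p ∈ pz z, p.Prime := fun p hp => (mem_filter.1 hp).2.1
  have h1 : 1 ≤ Real.log z := by
    rw [Real.le_log_iff_exp_le (by linarith)]
    linarith [Real.exp_one_lt_d9]
  have h2 : (∏ p : pz z, ((if (p : ℕ) ∣ 30 * a then (p : ℕ) ^ (a.factorization p + 1) else 1 : ℕ) :
      ℝ)) ≤ 30 * (a : ℝ) ^ 2 := by exact_mod_cast EuaA.big ha hS
  have h3 : ∏ p : pz z, Real.exp (C * (1 / ((p : ℕ) : ℝ))) ≤
      Real.exp (C * D) * Real.log z ^ ⌈C⌉₊ := by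
    rw [← Real.exp_sum, ← mul_sum, sum_coe_sort (pz z) fun p => (1 : ℝ) / p]
    nth_rewrite 1 [← Real.exp_log (show 0 < Real.log z by linarith)]
    rw [← Real.exp_nat_mul, ← Real.exp_add]
    refine Real.exp_le_exp.2 ?_
    have a1 := (abs_le.1 (hM z (by linarith))).2
    have a2 := mul_le_mul_of_nonneg_right (Nat.le_ceil C) (Real.log_nonneg h1)
    nlinarith
  simp only [norm_prod]
  rw [← prod_univ_sum (fun p : pz z => al5 a q p)
    fun p y => ‖lt a p y (X p) (Y p) (E p) (E' p) (W p) (F p) (G p)‖]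
  calc _ ≤ ∏ p : pz z, ((((if (p : ℕ) ∣ 30 * a then (p : ℕ) ^ (a.factorization p + 1) else 1 : ℕ) :
        ℝ)) ^ A * Real.exp (C * (1 / ((p : ℕ) : ℝ)))) := by
        refine prod_le_prod (fun p _ => sum_nonneg fun _ _ => norm_nonneg _) fun p _ => ?_
        refine (hL a q p _ _ _ _ _ _ _ (hS p p.2) (hR p p.2)).trans ?_
        split_ifs
        · rw [Nat.cast_pow]
          exact le_mul_of_one_le_right (by positivity) (Real.one_le_exp (by positivity))
        · rw [Nat.cast_one, one_pow, one_mul, mul_one_div, add_comm]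
          exact Real.add_one_le_exp _
    _ ≤ (30 * (a : ℝ) ^ 2) ^ A * (Real.exp (C * D) * Real.log z ^ ⌈C⌉₊) := by
        rw [prod_mul_distrib, prod_pow]
        gcongr
    _ = _ := by
        rw [mul_pow, pow_mul]
        ring

end Pool.Agent.MP_20b2fd_nt.H38
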