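import Pool.Agent.MP_20b2fd_nt.H38.SpecC

/-! The bound for the Euler product on the line. -/

set_option autoImplicit false

namespace Pool.Agent.MP_20b2fd_nt.H38

open MeasureTheory Complex Finset Filter Topology ArithmeticFunction
open scoped Real

namespace EulA

theorem mem_pz {z : ℝ} {p : ℕ} (hz : 0 ≤ z) : p ∈ pz z ↔ p.Prime ∧ (p : ℝ) ≤ z := by
  unfold pz prs
  rw [mem_filter, mem_Icc, Nat.le_floor_iff hz]
  exact ⟨fun h => ⟨h.2.1, h.1.2⟩, fun h => ⟨⟨h.1.one_le, h.2⟩, h.1, by exact_mod_cast h.1.one_lt⟩⟩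

theorem norm_pow_le {z : ℝ} {p : ℕ} (hp : p.Prime) (hz : (p : ℝ) ≤ z) (ω : ℂ)
    (h : |ω.re| * Real.log z ≤ 1) : ‖(p : ℂ) ^ ω‖ ≤ 3 := by
  have h0 : (0 : ℝ) < p := by exact_mod_cast hp.pos
  have h1 : (1 : ℝ) ≤ p := by exact_mod_cast hp.one_le
  rw [Complex.norm_natCast_cpow_of_pos hp.pos, Real.rpow_def_of_pos h0]
  have h2 : Real.log p * ω.re ≤ 1 := by
    have a1 := Real.log_nonneg h1
    have a2 := Real.log_le_log h0 hz
    calc Real.log p * ω.re ≤ Real.log p * |ω.re| := mul_le_mul_of_nonneg_left (le_abs_self _) a1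
      _ ≤ Real.log z * |ω.re| := mul_le_mul_of_nonneg_right a2 (abs_nonneg _)
      _ ≤ 1 := by rwa [mul_comm]
  exact (Real.exp_le_exp.mpr h2).trans (Real.exp_one_lt_d9.le.trans (by norm_num))

theorem tot (q : ℕ) (z : ℝ) (hq : 1 ≤ q) (hz : (q : ℝ) ≤ z) :
    (q : ℝ) / q.totient = ∏ p ∈ pz z, if p ∣ q then (p : ℝ) / (p - 1) else 1 := by
  have e : (pz z).filter (· ∣ q) = q.primeFactors := by
    ext p
    rw [mem_filter, mem_pz ((Nat.cast_nonneg q).trans hz), Nat.mem_primeFactors]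
    exact ⟨fun h => ⟨h.1.1, h.2, by omega⟩, fun h => ⟨⟨h.1, le_trans
      (by exact_mod_cast Nat.le_of_dvd hq h.2.1) hz⟩, h.2.1⟩⟩
  rw [← prod_filter, e, prod_div_distrib]
  have h := congrArg (Nat.cast : ℕ → ℝ) (Nat.totient_mul_prod_primeFactors q)
  rw [Nat.cast_mul, Nat.cast_mul, Nat.cast_prod, Nat.cast_prod] at h
  have e2 : ∏ p ∈ q.primeFactors, ((p - 1 : ℕ) : ℝ) = ∏ p ∈ q.primeFactors, ((p : ℝ) - 1) :=
    prod_congr rfl fun p hp => by
      rw [Nat.cast_sub (Nat.prime_of_mem_primeFactors hp).one_le, Nat.cast_one]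
  rw [e2] at h
  have h1 : (q.totient : ℝ) ≠ 0 := by exact_mod_cast (Nat.totient_pos.mpr hq).ne'
  have h2 : ∏ p ∈ q.primeFactors, ((p : ℝ) - 1) ≠ 0 := prod_ne_zero_iff.mpr fun p hp => by
    have : (1 : ℝ) < p := by exact_mod_cast (Nat.prime_of_mem_primeFactors hp).one_lt
    linarith
  rw [div_eq_div_iff h1 h2, ← h, mul_comm]

theorem bad (a : ℕ) (S : Finset ℕ) (ha : 1 ≤ a) (hS : ∀ p ∈ S, p.Prime) (A : ℕ) :
    ∏ p ∈ S, (if p ∣ 30 * a then ((p : ℝ) ^ (a.factorization p + 1)) ^ A else 1) ≤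
      30 ^ A * (a : ℝ) ^ (2 * A) := by
  rw [← prod_filter, prod_pow]
  have h : ∏ p ∈ S.filter (· ∣ 30 * a), p ^ (a.factorization p + 1) ∣ a * (30 * a) := by
    refine Finset.prod_dvd_of_isRelPrime (fun p hp q hq hpq => ?_) fun p hp => ?_
    · exact Nat.coprime_iff_isRelPrime.mp (Nat.coprime_pow_primes _ _
        (hS p (mem_filter.mp hp).1) (hS q (mem_filter.mp hq).1) hpq)
    · rw [pow_succ]
      exact mul_dvd_mul (Nat.ordProj_dvd a p) (mem_filter.mp hp).2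
  have h2 : ∏ p ∈ S.filter (· ∣ 30 * a), (p : ℝ) ^ (a.factorization p + 1) ≤ 30 * (a : ℝ) ^ 2 := by
    have := (Nat.cast_le (α := ℝ)).mpr (Nat.le_of_dvd (by positivity) h)
    push_cast at this
    linarith
  rw [pow_mul, ← mul_pow]
  exact pow_le_pow_left₀ (prod_nonneg fun p _ => by positivity) h2 A

theorem exp_le (t B : ℝ) (J : ℕ) (ht : 0 ≤ t) (hB : B ≤ J) :
    Real.exp (B * Real.log (1 + t)) ≤ (1 + t) ^ J := by
  rw [← Real.exp_log (by positivity : 0 < (1 + t) ^ J), Real.log_pow]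
  exact Real.exp_le_exp.mpr (mul_le_mul_of_nonneg_right hB (Real.log_nonneg (by linarith)))

end EulA

theorem eulOf : EulOf := by
  rintro ⟨D, hD, -, -, hM⟩ ⟨C, hC, hL⟩ ⟨C₁, A, -, hA⟩ ⟨Cm, hCm, hS⟩
  have hK : Summable fun n : ℕ => 1 / (n : ℝ) ^ 2 := Real.summable_one_div_nat_pow.mpr one_lt_two
  set K : ℝ := ∑' n : ℕ, 1 / (n : ℝ) ^ 2 with hKd
  have hK0 : 0 ≤ K := tsum_nonneg fun n => by positivity
  refine ⟨30 ^ (A + 5) * Real.exp (2 * D + 4 * (C * Cm) + C * K), 2 * (A + 5), ⌈C * Cm⌉₊,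
    one_le_mul_of_one_le_of_one_le (one_le_pow₀ (by norm_num)) (Real.one_le_exp (by positivity)),
    fun a z x s w ω ω' φ ha hz hx hs0 hs hw hω hω' hφ => ?_⟩
  have hz0 : 0 ≤ z := by linarith
  have hq : ((x.1 + 1 : ℕ) : ℝ) ≤ z := by
    have := mem_range.mp (mem_sigma.mp hx).1
    exact (Nat.le_floor_iff hz0).mp this
  have hl2 : 2 ≤ Real.log z := by
    rw [Real.le_log_iff_exp_le (by linarith)]
    have h1 := Real.exp_one_lt_d9
    have h2 : Real.exp 2 = Real.exp 1 * Real.exp 1 := by rw [← Real.exp_add]; norm_num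
    have h3 := Real.exp_pos 1
    nlinarith
  have hs2 : s.re ≤ 1 / 2 := by nlinarith
  set e : ℕ → ℝ := fun p => 2 * (1 / p) + (C * (‖(p : ℂ) ^ ω - 1‖ / p) +
    C * (‖(p : ℂ) ^ ω' - 1‖ / p) + C * (‖(p : ℂ) ^ w - 1‖ / p) + C * (‖(p : ℂ) ^ φ - 1‖ / p)) +
    C * (1 / (p : ℝ) ^ 2) with he
  have key : ∀ p ∈ pz z, ‖Loc a (x.1 + 1) p (x.2⁻¹ p * (p : ℂ) ^ (-s)) (x.2 p * (p : ℂ) ^ s)
      ((p : ℂ) ^ ω) ((p : ℂ) ^ ω') ((p : ℂ) ^ w) ((p : ℂ) ^ φ) ((p : ℂ) ^ φ)‖ *
      (if p ∣ x.1 + 1 then (p : ℝ) / (p - 1) else 1) ≤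
      (if p ∣ 30 * a then ((p : ℝ) ^ (a.factorization p + 1)) ^ (A + 5) else 1) * Real.exp (e p) *
        ‖1 - x.2 p * (p : ℂ) ^ (-(1 - s))‖ ^ 2 := by
    intro p hp
    obtain ⟨hp, hpz⟩ := (EulA.mem_pz hz0).mp hp
    have p2 : (2 : ℝ) ≤ p := by exact_mod_cast hp.two_le
    have p0 : (p : ℂ) ≠ 0 := by exact_mod_cast hp.ne_zero
    have nX : ‖x.2⁻¹ p * (p : ℂ) ^ (-s)‖ ≤ 1 := by
      rw [norm_mul, Complex.norm_natCast_cpow_of_pos hp.pos]
      exact mul_le_one₀ (DirichletCharacter.norm_le_one _ _) (by positivity)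
        (Real.rpow_le_one_of_one_le_of_nonpos (by linarith) (by simpa using hs0))
    have nY0 : ‖x.2 p * (p : ℂ) ^ s‖ ≤ ‖(p : ℂ) ^ s‖ := by
      rw [norm_mul]
      exact mul_le_of_le_one_left (norm_nonneg _) (DirichletCharacter.norm_le_one _ _)
    have nY := nY0.trans (EulA.norm_pow_le hp hpz s (by rwa [abs_of_nonneg hs0]))
    have n1 := EulA.norm_pow_le hp hpz ω hω
    have n2 := EulA.norm_pow_le hp hpz ω' hω'
    have n3 := EulA.norm_pow_le hp hpz w hw
    have n4 := EulA.norm_pow_le hp hpz φ hφ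
    have eY : x.2 p * (p : ℂ) ^ (-(1 - s)) = x.2 p * (p : ℂ) ^ s / p := by
      rw [neg_sub, Complex.cpow_sub _ _ p0, Complex.cpow_one, mul_div_assoc]
    have e0 : 0 ≤ e p := by simp only [he]; positivity
    rw [eY]
    by_cases hb : p ∣ 30 * a
    · rw [if_pos hb]
      have h1 := hA a (x.1 + 1) p _ _ _ _ _ _ _ hp ⟨nY, n1, n2, n3, n4, Or.inl ⟨nX, n4⟩⟩
      rw [if_pos hb] at h1
      have h2 := (norm_sum_le _ _).trans h1
      have h3 : (if p ∣ x.1 + 1 then (p : ℝ) / (p - 1) else 1) ≤ 2 := by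
        split_ifs
        · rw [div_le_iff₀ (by linarith)]; linarith
        · norm_num
      have h4 : ‖(p : ℂ) ^ s‖ ≤ 3 / 4 * p := by
        rw [Complex.norm_natCast_cpow_of_pos hp.pos]
        refine (Real.rpow_le_rpow_of_exponent_le (by linarith) hs2).trans ?_
        rw [← Real.sqrt_eq_rpow]
        exact Real.sqrt_le_iff.mpr ⟨by positivity, by nlinarith⟩
      have h5 : 1 / 4 ≤ ‖1 - x.2 p * (p : ℂ) ^ s / p‖ := by
        refine le_trans ?_ (norm_sub_norm_le _ _)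
        rw [norm_one, norm_div, Complex.norm_natCast]
        have : ‖x.2 p * (p : ℂ) ^ s‖ / p ≤ 3 / 4 := by
          rw [div_le_iff₀ (by linarith)]; linarith
        linarith
      have h6 : (2 : ℝ) ≤ (p : ℝ) ^ (a.factorization p + 1) :=
        p2.trans (le_self_pow₀ (by linarith) (Nat.succ_ne_zero _))
      generalize (p : ℝ) ^ (a.factorization p + 1) = P at h2 h6 ⊢
      have h7 : (2 : ℝ) ^ 5 ≤ P ^ 5 := pow_le_pow_left₀ (by norm_num) h6 5
      have h8 := pow_le_pow_left₀ (by norm_num) h5 2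
      have h9 : 0 ≤ P ^ A := by positivity
      refine (mul_le_mul h2 h3 (by split_ifs <;> [exact div_nonneg (by linarith) (by linarith);
        norm_num]) h9).trans ?_
      calc P ^ A * 2 = P ^ A * 2 ^ 5 * 1 * (1 / 4) ^ 2 := by ring
        _ ≤ _ := by
          rw [pow_add]
          exact mul_le_mul (mul_le_mul (mul_le_mul_of_nonneg_left h7 h9) (Real.one_le_exp e0)
            zero_le_one (by positivity)) h8 (by positivity) (by positivity)
    · rw [if_neg hb, one_mul]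
      refine (hL a (x.1 + 1) p _ _ _ _ _ _ hp hb nX nY n1 n2 n3 n4 ?_).trans
        (mul_le_mul_of_nonneg_right (le_trans (le_of_eq ?_) (Real.add_one_le_exp _)) (by positivity))
      · split_ifs with hd
        · have hu : ¬ IsUnit ((p : ℕ) : ZMod (x.1 + 1)) := by
            rw [ZMod.isUnit_prime_iff_not_dvd hp]; exact not_not.mpr hd
          rw [MulChar.map_nonunit _ hu, MulChar.map_nonunit _ hu, zero_mul, zero_mul]
          exact ⟨rfl, rfl⟩
        · have hu : IsUnit ((p : ℕ) : ZMod (x.1 + 1)) := (ZMod.isUnit_prime_iff_not_dvd hp).mpr hd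
          rw [mul_mul_mul_comm, ← MulChar.mul_apply, inv_mul_cancel, MulChar.one_apply hu,
            ← Complex.cpow_add _ _ p0, neg_add_cancel, Complex.cpow_zero, one_mul]
      · simp only [he]; ring
  rw [EulA.tot _ z (by omega) hq, norm_prod, ← prod_mul_distrib]
  refine (prod_le_prod (fun p hp => mul_nonneg (norm_nonneg _) ?_) key).trans ?_
  · have p2 : (2 : ℝ) ≤ p := by exact_mod_cast ((EulA.mem_pz hz0).mp hp).1.two_le
    split_ifs
    · exact div_nonneg (by linarith) (by linarith)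
    · norm_num
  rw [prod_mul_distrib, prod_mul_distrib, prod_pow, ← norm_prod, ← Real.exp_sum]
  refine mul_le_mul_of_nonneg_right ?_ (by positivity)
  have hz2 : 2 ≤ z := by linarith
  have s1 := (abs_le.mp (hM z hz2)).2
  have s2 : ∑ p ∈ pz z, 1 / (p : ℝ) ^ 2 ≤ K := hK.sum_le_tsum _ fun n _ => by positivity
  have hC0 : 0 ≤ C := by linarith
  have t1 := mul_le_mul_of_nonneg_left (hS z ω hz2 hω) hC0
  have t2 := mul_le_mul_of_nonneg_left (hS z ω' hz2 hω') hC0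
  have t3 := mul_le_mul_of_nonneg_left (hS z w hz2 hw) hC0
  have t4 := mul_le_mul_of_nonneg_left (hS z φ hz2 hφ) hC0
  have t5 := mul_le_mul_of_nonneg_left s2 hC0
  have hs : ∑ p ∈ pz z, e p ≤ 2 * D + 4 * (C * Cm) + C * K + 2 * Real.log (Real.log z) +
      (C * Cm * Real.log (1 + ‖ω‖ * Real.log z) + C * Cm * Real.log (1 + ‖ω'‖ * Real.log z) +
        C * Cm * Real.log (1 + ‖w‖ * Real.log z) + C * Cm * Real.log (1 + ‖φ‖ * Real.log z)) := by
    simp only [he, sum_add_distrib, ← mul_sum]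
    linarith
  have u := fun t : ℂ => EulA.exp_le (‖t‖ * Real.log z) (C * Cm) _ (by positivity) (Nat.le_ceil _)
  have e2 : Real.exp (2 * Real.log (Real.log z)) = Real.log z ^ 2 := by
    rw [← Real.exp_log (by positivity : 0 < Real.log z ^ 2), Real.log_pow, Nat.cast_ofNat]
  refine (mul_le_mul (EulA.bad a _ ha (fun p hp => ((EulA.mem_pz hz0).mp hp).1) _)
    (Real.exp_le_exp.mpr hs) (by positivity) (by positivity)).trans ?_
  simp only [Real.exp_add, e2, mul_pow]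
  have v := mul_le_mul (mul_le_mul (mul_le_mul (u ω) (u ω') (by positivity) (by positivity)) (u w)
    (by positivity) (by positivity)) (u φ) (by positivity) (by positivity)
  refine le_trans (le_of_eq ?_) (mul_le_mul_of_nonneg_left v (by positivity))
  ring

end Pool.Agent.MP_20b2fd_nt.H38
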