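import Pool.Agent.MP_20b2fd_nt.H38.SpecC

/-! The major arc part of the shifted sums and its derivative. -/

set_option autoImplicit false

namespace Pool.Agent.MP_20b2fd_nt.H38

open MeasureTheory Complex Finset Filter Topology ArithmeticFunction

namespace FkA

theorem large {δ : ℝ} (hδ : 0 < δ) : ∃ N₀ : ℕ, ∀ N : ℕ, N₀ ≤ N → 2 ≤ N ∧
    Real.log N * (N : ℝ) ^ (-δ) ≤ 1 / 2 ∧ (N : ℝ) ^ (-δ) ≤ 1 / 2 ∧ 1 ≤ Real.log (zz δ N) := by
  have h1 : Tendsto (fun x : ℝ => Real.log x / x ^ δ) atTop (𝓝 0) :=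
    (isLittleO_log_rpow_atTop hδ).tendsto_div_nhds_zero
  have h2 : Tendsto (fun x : ℝ => x ^ (-δ)) atTop (𝓝 0) := tendsto_rpow_neg_atTop hδ
  have h3 : Tendsto (fun x : ℝ => 1000 * δ * Real.log x) atTop atTop :=
    Real.tendsto_log_atTop.const_mul_atTop (by positivity)
  have e1 := (h1.comp tendsto_natCast_atTop_atTop).eventually
    (ge_mem_nhds (show (0 : ℝ) < 1 / 2 by norm_num))
  have e2 := (h2.comp tendsto_natCast_atTop_atTop).eventually
    (ge_mem_nhds (show (0 : ℝ) < 1 / 2 by norm_num))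
  have e3 := (h3.comp tendsto_natCast_atTop_atTop).eventually_ge_atTop 1
  obtain ⟨N₀, hN₀⟩ := eventually_atTop.mp (e1.and (e2.and (e3.and (eventually_ge_atTop 2))))
  refine ⟨N₀, fun N hN => ?_⟩
  obtain ⟨a1, a2, a3, a4⟩ := hN₀ N hN
  have hpos : (0 : ℝ) < N := by exact_mod_cast (by omega : 0 < N)
  refine ⟨a4, ?_, a2, ?_⟩
  · rw [Real.rpow_neg hpos.le, ← div_eq_mul_inv]
    exact a1
  · rw [zz, Real.log_rpow hpos]
    exact a3

/-- the Cauchy estimate for a sum -/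
theorem cauchy {T V P : ℂ → ℂ} {L M ε : ℝ} (hL : 0 < L) (hT : Differentiable ℂ T)
    (hV : Differentiable ℂ V) (h : ∀ w, T w = P w + V w)
    (hP : ∀ w : ℂ, ‖w‖ ≤ 1 / L → ‖P w‖ ≤ M) (hV' : ‖deriv V 0‖ ≤ ε) :
    ‖deriv T 0‖ ≤ M * L + ε := by
  have hPe : P = fun w => T w - V w := by
    funext w
    rw [h w]
    ring
  have hPd : Differentiable ℂ P := by
    rw [hPe]
    exact hT.sub hV
  have h1 : ‖deriv P 0‖ ≤ M / (1 / L) := by
    refine Complex.norm_deriv_le_of_forall_mem_sphere_norm_le (by positivity)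
      hPd.diffContOnCl fun w hw => hP w ?_
    rw [mem_sphere_zero_iff_norm] at hw
    exact hw.le
  have h2 : deriv T 0 = deriv P 0 + deriv V 0 := by
    have : T = fun w => P w + V w := funext h
    rw [this]
    exact deriv_add (hPd 0) (hV 0)
  rw [h2]
  refine (norm_add_le _ _).trans (add_le_add (h1.trans_eq ?_) hV')
  field_simp

end FkA

theorem fkOf : FkOf := by
  intro hKs hLw hCx hFl hRes c hc hc1
  obtain ⟨C, A, hC, hF⟩ := hFl c hc hc1
  refine ⟨C, A, hC, fun δ a hδ hδc ha => ?_⟩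
  have hδ1 : δ ≤ 1 / 10 ^ 10 := by
    refine hδc.trans ?_
    gcongr
    linarith
  obtain ⟨N₁, h₁⟩ := hF δ a hδ hδc ha
  obtain ⟨N₂, h₂⟩ := hRes δ a hδ hδ1 ha
  obtain ⟨N₃, h₃⟩ := FkA.large hδ
  refine ⟨max N₁ (max N₂ N₃), fun N R B E k hN hp hZ hR hRN hB hE hk => ?_⟩
  have hN₁ : N₁ ≤ N := (le_max_left _ _).trans hN
  have hN₂ : N₂ ≤ N := ((le_max_left _ _).trans (le_max_right _ _)).trans hN
  have hN₃ : N₃ ≤ N := ((le_max_right _ _).trans (le_max_right _ _)).trans hN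
  obtain ⟨b1, b2, b3, b4⟩ := h₃ N hN₃
  have hN1 : (1 : ℝ) < N := by exact_mod_cast (by omega : 1 < N)
  have hL : 0 < Real.log N := Real.log_pos hN1
  have hz : 1 < zz δ N := Real.one_lt_rpow hN1 (by positivity)
  have hPh := hKs.1 _ hz
  have hσ0 : 0 < wd c δ N / 2 := by
    unfold wd
    have : 0 < Real.log (zz δ N) := by linarith
    positivity
  have hσ1 : wd c δ N / 2 ≤ 1 / 4 := by
    have : wd c δ N ≤ 1 / 2 := by
      unfold wd
      rw [div_le_iff₀ (by linarith)]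
      linarith
    linarith
  have hk0 : ∀ t, R ≤ |t| → k t = 0 := by
    obtain ⟨D, -, -, h, -⟩ := hk
    exact h
  have hT := (hLw δ (zz δ N) a N (Pq (zz δ N)) hδ b1).1 k R hk0
  obtain ⟨v1, v2, v3⟩ := h₂ N R B E (Pq (zz δ N)) k _ hN₂ hPh hR hRN hE hk rfl
  have hdec := fun w => hCx δ R B E (wd c δ N / 2) a N (Pq (zz δ N)) k w hδ hδ1 hp hPh.2.2 hR hk
    hσ0 hσ1
  have hline := fun w hw => h₁ N R B E k w hN₁ hZ hR hRN hB hE hk hw
  constructor
  · rw [hdec 0]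
    have h0 := hline 0 (by rw [norm_zero]; positivity)
    refine (norm_add_le _ _).trans ((add_le_add h0 v2).trans ?_)
    linarith
  · refine (FkA.cauchy hL hT v1 hdec hline v3).trans ?_
    rw [add_mul]
    linarith

end Pool.Agent.MP_20b2fd_nt.H38
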