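import Pool.Agent.MP_20b2fd_nt.H38.Fln1

/-! The integral on the line. -/

set_option autoImplicit false

namespace Pool.Agent.MP_20b2fd_nt.H38

open MeasureTheory Complex Finset Filter
open DirichletCharacter (LFunction)
open scoped Real

namespace FlnA

theorem dom2 {F : ℝ → ℂ} {g : ℝ → ℝ} (hg : Continuous g) (h0 : ∀ t, 0 ≤ g t)
    {T T' Λ u K₀ K₁ K₂ : ℝ} (hT : 0 < T) (hΛ : 0 < Λ) (hu : |u| ≤ 1) (hT' : 2 * T + 1 ≤ T')
    (k0 : 0 ≤ K₀) (k1 : 0 ≤ K₁) (k2 : 0 ≤ K₂) (a1 : ∀ τ, |τ| ≤ T → ‖F τ‖ ≤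
      K₀ * (∫ ξ in (-(Λ * T))..(Λ * T), g (τ + u + ξ / Λ) / (1 + ξ ^ 2)) + K₁)
    (a2 : ∀ τ, T < |τ| → ‖F τ‖ ≤ K₂ / τ ^ 2) :
    ‖1 / (2 * (π : ℂ)) * ∫ τ, F τ‖ ≤ K₀ * (∫ t in (-T')..T', g t) + (T * K₁ + K₂ / T) := by
  obtain ⟨h1, h2⟩ := swap hg h0 hT hΛ hu hT'
  have h3 := dom (continuous_const.mul h1) hT k1 k2 a1 a2
  have hM : 0 ≤ ∫ t in (-T')..T', g t :=
    intervalIntegral.integral_nonneg (by linarith) fun t _ => h0 t
  have hπ := Real.pi_pos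
  simp only [Pi.mul_apply] at h3
  rw [intervalIntegral.integral_const_mul] at h3
  rw [norm_mul, show ‖1 / (2 * (π : ℂ))‖ = 1 / (2 * π) by simp [abs_of_pos hπ]]
  calc _ ≤ 1 / (2 * π) * (K₀ * (π * ∫ t in (-T')..T', g t) + 2 * π * (T * K₁ + K₂ / T)) := by
        gcongr
        exact h3.trans (by gcongr)
    _ = K₀ * (∫ t in (-T')..T', g t) / 2 + (T * K₁ + K₂ / T) := by field_simp
    _ ≤ _ := by gcongr; exact half_le_self (by positivity)

theorem mem_prs {x y : ℝ} {p : ℕ} (h : p ∈ prs x y) : 0 < p ∧ (p : ℝ) ≤ y := by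
  obtain ⟨h4, h5⟩ := mem_Icc.1 (mem_filter.1 h).1
  exact ⟨h4, (Nat.le_floor_iff' (by omega)).1 h5⟩

theorem px_eq (N : ℕ) (x : CC) (η t : ℝ) : PX N x (1 - η - t * I) =
    ∑ p ∈ PP N, (p : ℂ) ^ ((η : ℂ) - 1) * x.2 p * (p : ℂ) ^ (t * I) :=
  sum_congr rfl fun p hp => by
    rw [mul_right_comm, ← cpow_add _ _ (Nat.cast_ne_zero.2 (mem_prs hp).1.ne'), mul_comm]
    congr 2
    ring

theorem px_cont (N : ℕ) (x : CC) (η : ℝ) :
    Continuous fun t : ℝ => ‖PX N x (1 - η - t * I)‖ ^ 2 :=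
  (continuous_finsetSum _ fun p hp => continuous_const.mul (Continuous.const_cpow (by fun_prop)
    (Or.inl (Nat.cast_ne_zero.2 (mem_prs hp).1.ne')))).norm.pow 2

theorem bsum {N : ℕ} (hN : 1 ≤ N) {η : ℝ} (hη : 0 ≤ η) :
    ∑ p ∈ PP N, ‖(p : ℂ) ^ ((η : ℂ) - 1)‖ ^ 2 * p ≤ Real.exp (η * Real.log N / 2) * lam N := by
  rw [lam, mul_sum]
  refine sum_le_sum fun p hp => ?_
  obtain ⟨h1, h2⟩ := mem_prs hp
  have h3 : (0 : ℝ) < p := by exact_mod_cast h1
  have h4 : (1 : ℝ) ≤ N := by exact_mod_cast hN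
  have h5 := Real.log_le_log h3 h2
  have h6 := Real.log_nonneg h4
  rw [Real.log_pow, Real.log_rpow (by linarith)] at h5
  rw [norm_natCast_cpow_of_pos h1, sub_re, ofReal_re, one_re, Real.rpow_sub_one h3.ne',
    Real.rpow_def_of_pos h3, div_pow, ← Real.exp_nat_mul]
  calc _ = Real.exp ((2 : ℕ) * (Real.log p * η)) * (1 / p) := by field_simp
    _ ≤ _ := by
      gcongr
      push_cast at h5 ⊢
      nlinarith

theorem ml {CG C₃ B R E : ℝ} {k : ℝ → ℝ} {s : ℂ} {x : CC} (hs : s ≠ 0)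
    (h1 : ‖mel k 1 s‖ ≤ C₃ * B * R ^ 3 * ((1 + ‖s‖) / ‖s‖ ^ 2) ∧
      ‖mel k (-1) s‖ ≤ C₃ * B * R ^ 3 * (1 / (1 + ‖s‖))) {l : ℝ} {_ : Decidable x.2.Even}
    (h2 : l ^ 2 ≤ CG * (x.1 + 1 : ℕ) * (if x.2.Even then ‖s‖ ^ 2 / (1 + ‖s‖) else 1 + ‖s‖) * E) :
    ‖mel k (sg x) s‖ * l ^ 2 ≤ C₃ * CG * B * R ^ 3 * (x.1 + 1 : ℕ) * E := by
  have h0 := norm_pos_iff.2 hs
  rw [sg]
  split_ifs at h2 ⊢
  · refine (mul_le_mul h1.1 h2 (sq_nonneg _) ((norm_nonneg _).trans h1.1)).trans (le_of_eq ?_)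
    field_simp
  · refine (mul_le_mul h1.2 h2 (sq_nonneg _) ((norm_nonneg _).trans h1.2)).trans (le_of_eq ?_)
    field_simp

theorem nrm (N : ℕ) (x : CC) (m l n X : ℂ) :
    ‖x.2⁻¹ N / ((x.1 + 1).totient : ℂ) * (m * l ^ 2 * (n * X))‖ ≤
      1 / ((x.1 + 1).totient : ℝ) * (‖m‖ * ‖l‖ ^ 2 * (‖n‖ * ‖X‖)) := by
  simp only [norm_mul, norm_div, norm_pow, norm_natCast]
  gcongr
  exact DirichletCharacter.norm_le_one _ _

end FlnA

open FlnA

theorem flnOf : FlnOf := by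
  rintro ⟨CP, hCP, hP⟩ hZ ⟨CG, hCG, hG⟩ ⟨CL, hCL, hL⟩ hW ⟨C₂, hC₂, hM2⟩ ⟨C₃, hC₃, hM3⟩ hXc hXl
    c hc hc'
  obtain ⟨CZ, hCZ, hZ⟩ := hZ c hc hc'
  obtain ⟨CX, A, hCX, hXl⟩ := hXl c hc hc'
  refine ⟨4 * (C₃ * CG * CX * CZ ^ 2 * CL), A, ?_, fun δ a hδ hδ' ha => ?_⟩
  · have : 1 * 1 * 1 * 1 ^ 2 * 1 ≤ C₃ * CG * CX * CZ ^ 2 * CL := by gcongr
    linarith
  obtain ⟨N₁, h1⟩ := hXl δ a hδ hδ' ha
  obtain ⟨N₂, h2⟩ := hXc c δ a hc hc' hδ hδ' ha
  obtain ⟨N₃, h3⟩ := hW.1 1 one_pos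
  obtain ⟨N₄, h4⟩ := eventually_atTop.1 (((tendsto_rpow_atTop hδ).comp
    tendsto_natCast_atTop_atTop).eventually_ge_atTop
      (1000 + C₃ * CG * CZ ^ 2 + 4 * C₂ * CP ^ 2 + 4000 / c))
  refine ⟨N₁ + N₂ + N₃ + N₄ + 1, fun N R B E k w hN hZF hR hRy hBy hEy hk hw => ?_⟩
  have h1 := h1 N (by omega) hZF
  have h2 := fun x s a b => h2 N (Pq (zz δ N)) x s w (by omega)
    (fun q => abs_le.2 ⟨neg_one_lt_zero.le.trans ph0.nonneg, ph0.le_one⟩) a b hw
  have h3 := (h3 N (by omega)).2.1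
  have h4 : _ ≤ (N : ℝ) ^ δ := h4 N (by omega)
  have hN1 : 1 ≤ N := by omega
  have hN0 : (0 : ℝ) < N := by exact_mod_cast hN1
  have ez' : zz δ N = ((N : ℝ) ^ δ) ^ 1000 := by
    rw [zz, mul_comm, Real.rpow_mul hN0.le]
    exact_mod_cast Real.rpow_natCast _ 1000
  have e40 : (N : ℝ) ^ (40 * δ) = ((N : ℝ) ^ δ) ^ 40 := by
    rw [mul_comm, Real.rpow_mul hN0.le]
    exact_mod_cast Real.rpow_natCast _ 40
  have ely : Real.log ((N : ℝ) ^ δ) = δ * Real.log N := Real.log_rpow hN0 δ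
  have hX : zz δ N ^ 50 ≤ (N : ℝ) ^ (1 / 10000 : ℝ) := by
    rw [zz, ← Real.rpow_natCast, ← Real.rpow_mul hN0.le]
    exact Real.rpow_le_rpow_of_exponent_le (by exact_mod_cast hN1) (by push_cast; linarith)
  rw [Real.rpow_neg hN0.le]
  rw [e40] at hEy
  have hLa : La δ N = δ * Real.log N / 2 := rfl
  have hwd : wd c δ N = c / (2 * Real.log (zz δ N)) := rfl
  set y := (N : ℝ) ^ δ
  set z := zz δ N
  set η := wd c δ N
  set Λ := La δ N
  set L := Real.log N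
  have p1 : 0 ≤ C₃ * CG * CZ ^ 2 := by positivity
  have p2 : 0 ≤ 4 * C₂ * CP ^ 2 := by positivity
  have p3 : 0 ≤ 4000 / c := by positivity
  have hy : 1000 ≤ y := by linarith
  have hly : 1 ≤ δ * L := by
    rw [← ely, Real.le_log_iff_exp_le (by linarith)]
    linarith [Real.exp_one_lt_d9]
  have hL0 : 0 < L := (mul_pos_iff_of_pos_left hδ).1 (by linarith)
  have hL1 : 1 ≤ L := by nlinarith
  have elz : Real.log z = 1000 * (δ * L) := by rw [ez', Real.log_pow, ely]; norm_num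
  have hly' : δ * L ≤ y := ely ▸ Real.log_le_self (by linarith)
  have hz : 1000 ≤ z := ez' ▸ hy.trans (le_self_pow₀ (by linarith) (by norm_num))
  set l := Real.log z
  have hl : 1000 ≤ l := by linarith
  have hη : 0 < η := by rw [hwd]; positivity
  have hη' : η / 2 ≤ 1 / 4 := by
    rw [hwd, div_div, div_le_iff₀ (by positivity)]
    linarith
  have eη : η / 2 = c / (4 * l) := by rw [hwd]; ring
  have eE : -c / (4000 * δ) = -(η * L / 2) := by rw [hwd, elz]; field_simp; ring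
  have hS : 1 + 1 / (η / 2) ≤ y ^ 2 := by
    have : 1 / (η / 2) = 4000 / c * (δ * L) := by rw [eη, elz]; field_simp; ring
    rw [this]
    nlinarith [mul_le_mul_of_nonneg_left hly' p3]
  have hz0 : 0 < z := by linarith
  have hΛ : 0 < Λ := by rw [hLa]; positivity
  have hR0 : 0 < R := by linarith
  have hB : 0 ≤ B := by
    have := (norm_nonneg _).trans (hM3 R B E k (1 / 4 : ℝ) hR hk (by simp) (by simp)).2
    by_contra hB
    exact absurd this (not_le.2 (mul_neg_of_neg_of_pos (mul_neg_of_neg_of_pos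
      (mul_neg_of_pos_of_neg (by linarith) (not_le.1 hB)) (by positivity)) (by positivity)))
  set n := Real.exp (-(η * L / 2)) with hn
  have hn0 : 0 < n := Real.exp_pos _
  have hn1 : n ≤ 1 := Real.exp_le_one_iff.2 (neg_nonpos.2 (by positivity))
  have ha0 : (0 : ℝ) < a := by exact_mod_cast ha
  have key : ∀ x ∈ pcs z, ‖x.2⁻¹ N / ((x.1 + 1).totient : ℂ) *
      VL k (η / 2) x fun s => (N : ℂ) ^ (-s) * XX δ a N (Pq z) x s w‖ ≤
      C₃ * CG * B * R ^ 3 * n ^ 2 * (CX * (a : ℝ) ^ A * l ^ 2) * CZ ^ 2 *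
        (∫ t in (-z ^ 6)..(z ^ 6), ‖PX N x (1 - η - t * I)‖ ^ 2) +
      (z ^ 5 * (C₃ * CG * B * R ^ 3 * (CZ * l ^ 3) ^ 2 * (1 / z ^ 8)) +
        4 * (C₂ * y ^ 40 * R ^ 7 * (1 + 1 / (η / 2))) * (CP * z * (1 + 1 / (η / 2))) ^ 2 * y /
          z ^ 5) := fun x hx => by
    obtain ⟨hq, hpr⟩ := mem_pcs hz0.le hx
    have hφ : (1 : ℝ) ≤ (x.1 + 1).totient := by
      exact_mod_cast Nat.totient_pos.2 (Nat.succ_pos _)
    have hz5 : 1 ≤ z ^ 5 := one_le_pow₀ (by linarith)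
    have hz6 : 2 * z ^ 5 + 1 ≤ z ^ 6 := by rw [pow_succ z 5]; nlinarith
    have sre : ∀ τ : ℝ, (((η / 2 : ℝ) : ℂ) + τ * I).re = η / 2 := fun τ => by simp
    have sim : ∀ τ : ℝ, (((η / 2 : ℝ) : ℂ) + τ * I).im = τ := fun τ => by simp
    have sN : ∀ τ : ℝ, ‖(N : ℂ) ^ (-(((η / 2 : ℝ) : ℂ) + τ * I))‖ = n := fun τ => by
      rw [norm_natCast_cpow_of_pos hN1, neg_re, sre, Real.rpow_def_of_pos hN0, hn]
      congr 1
      ring
    rw [VL, mul_left_comm, ← integral_const_mul]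
    refine dom2 (px_cont N x η) (fun t => sq_nonneg _) (Λ := Λ) (u := w.im) (by positivity) hΛ
      ((abs_im_le_norm w).trans (hw.trans ((div_le_one hL0).2 hL1))) hz6 (by positivity)
      (by positivity) (by positivity) (fun τ hτ => ?_) fun τ hτ => ?_
    · have r0 := sre τ
      have r1 := sim τ
      have r2 := sN τ
      set s := ((η / 2 : ℝ) : ℂ) + τ * I
      have r3 : 0 < s.re := by rw [r0]; positivity
      have r4 := h1 x hx s w r0 (r1 ▸ hτ) hw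
      have r5 := (((hZ z (by linarith)).2.2 hZF x hx).2.2 (1 - s)
        (by rw [sub_re, one_re, r0, ← hwd, abs_le]; constructor <;> linarith)
        (by rw [sub_im, one_im, r1, zero_sub, abs_neg]; linarith)).2
        (by rw [sub_sub_cancel_left, norm_neg, ← eη, ← r0]; exact re_le_norm s)
      refine (nrm N x _ _ _ _).trans ?_
      rw [r2]
      rw [r1] at r4
      refine near (by linarith) (norm_nonneg _) hn0.le hn1 (by positivity) (by positivity)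
        (intervalIntegral.integral_nonneg (neg_le_self (by positivity))
          fun ξ _ => by positivity) (by positivity) (norm_nonneg _) (norm_nonneg _)
        (ml (fun h => by simp [h] at r3) (hM3 R B E k s hR hk r3 (r0 ▸ hη'))
          (hG _ x.2 s hpr r3 (r0 ▸ hη'))) ?_ ((norm_mul _ _).ge.trans r5.1) r5.2
      simpa only [ofReal_add, ofReal_div] using r4
    · have r0 := sre τ
      have r1 := sim τ
      have r2 := sN τ
      set s := ((η / 2 : ℝ) : ℂ) + τ * I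
      have r3 : 0 < s.re := by rw [r0]; positivity
      have r4 := (hM2 R B E (sg x) k hR hk (by rw [sg]; split_ifs <;> simp)).2.2.2 s r3
        (by linarith)
      have r5 := ((hP _ x.2⁻¹).2.2.2.2.2.2 s r3).2 (by
        refine le_trans ?_ (abs_re_le_norm _)
        rw [sub_re, one_re, r0, le_abs]
        exact Or.inr (by linarith))
      rw [r0] at r4 r5
      refine (nrm N x _ _ _ _).trans ?_
      rw [r2]
      refine far hφ (norm_nonneg _) (norm_nonneg _) (norm_nonneg _) hn0.le hn1 (by linarith)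
        (r1 ▸ abs_im_le_norm s) (by positivity) (r4.trans (by gcongr)) (r5.trans ?_) (h2 x s hx r0)
      rw [mul_right_comm]
      gcongr
  refine ((norm_sum_le _ _).trans (sum_le_sum key)).trans ?_
  rw [sum_add_distrib, ← mul_sum, sum_const, nsmul_eq_mul, eE]
  refine add_le_add ?_ ?_
  · have b1 := hL z _ (fun p => (p : ℂ) ^ ((η : ℂ) - 1)) (by linarith) hX
    have b2 := bsum hN1 hη.le
    simp only [px_eq]
    calc _ ≤ C₃ * CG * B * R ^ 3 * n ^ 2 * (CX * (a : ℝ) ^ A * l ^ 2) * CZ ^ 2 *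
          (CL / l * (Real.exp (η * L / 2) * 4)) := by
          gcongr
          exact b1.trans (mul_le_mul_of_nonneg_left (b2.trans (by gcongr)) (by positivity))
      _ = _ := by
          rw [hn, Real.exp_neg]
          field_simp
  · refine le_trans (mul_le_mul_of_nonneg_right (card_pcs z hz0.le) (by positivity)) ?_
    refine le_trans (le_of_eq ?_) (err (C₁ := C₃ * CG * CZ ^ 2) (C₂ := 4 * C₂ * CP ^ 2) (l := l)
      (S := 1 + 1 / (η / 2)) hy (by linarith) (by linarith) hB hBy hR0.le hRy (by linarith)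
      (by nlinarith) le_rfl (by positivity) hS (by positivity))
    rw [← ez']
    field_simp

end Pool.Agent.MP_20b2fd_nt.H38
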