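import Pool.Agent.MP_20b2fd_nt.H38.SpecZ

/-! The functional equation as an inequality. -/

set_option autoImplicit false

namespace Pool.Agent.MP_20b2fd_nt.H38

open MeasureTheory Complex Finset Filter Topology
open DirichletCharacter (LFunction)
open Pool.Agent.MP_c5bf7b_nt.H38 (Ch)
open scoped Real

namespace GamA

theorem gauss {m : ℕ} [NeZero m] {ψ : Ch m} (hψ : ψ.IsPrimitive) :
    ‖gaussSum ψ ZMod.stdAddChar‖ = √m := by
  have h1 := congrFun (ZMod.dft_dft (ψ : ZMod m → ℂ)) (-1)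
  rw [ZMod.dft_apply] at h1
  simp only [hψ.fourierTransform_eq_inv_mul_gaussSum, neg_neg, map_one, smul_eq_mul, mul_one,
    mul_neg, ← mul_assoc, ← sum_mul] at h1
  have h2 : ∑ j : ZMod m, ZMod.stdAddChar j * ψ⁻¹ (-j) = star (gaussSum ψ ZMod.stdAddChar) := by
    rw [star_gaussSum_eq, gaussSum, ← Equiv.sum_comp (Equiv.neg _)]
    refine sum_congr rfl fun j _ => ?_
    simp [mul_comm, AddChar.inv_apply]
  rw [h2] at h1
  have h3 := congrArg norm h1
  rw [norm_mul, norm_star, norm_natCast] at h3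
  rw [← h3, Real.sqrt_mul_self (norm_nonneg _)]

theorem root {m : ℕ} [NeZero m] {ψ : Ch m} (hψ : ψ.IsPrimitive) : ‖ψ.rootNumber‖ = 1 := by
  have hm : (0 : ℝ) < m := Nat.cast_pos.2 (NeZero.pos m)
  have h1 : ‖(m : ℂ) ^ (1 / 2 : ℂ)‖ = √m := by
    rw [norm_natCast_cpow_of_pos (NeZero.pos m), Real.sqrt_eq_rpow]
    norm_num
  rw [DirichletCharacter.rootNumber, norm_div, norm_div, gauss hψ, h1, norm_pow, norm_I, one_pow,
    div_one, div_self (Real.sqrt_pos.2 hm).ne']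

theorem norm_Gamma_one_sq {τ : ℝ} (hτ : τ ≠ 0) :
    ‖Gamma (1 + I * τ)‖ ^ 2 = π * τ / Real.sinh (π * τ) := by
  have h0 : (I * τ : ℂ) ≠ 0 := mul_ne_zero I_ne_zero (ofReal_ne_zero.2 hτ)
  have h1 := Gamma_mul_Gamma_one_sub (I * τ)
  have h2 : Gamma (1 + I * τ) = I * τ * Gamma (I * τ) := by rw [add_comm, Gamma_add_one _ h0]
  have h3 : (starRingEnd ℂ) (Gamma (1 + I * τ)) = Gamma (1 - I * τ) := by
    rw [← Gamma_conj]; congr 1; simp; ring
  have h4 : ((‖Gamma (1 + I * τ)‖ ^ 2 : ℝ) : ℂ) = I * τ * (Gamma (I * τ) * Gamma (1 - I * τ)) := by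
    rw [← normSq_eq_norm_sq, ← mul_conj, h3, h2]; ring
  have h5 : sin (π * (I * τ)) = (Real.sinh (π * τ) : ℝ) * I := by
    rw [show (π * (I * τ) : ℂ) = ((π * τ : ℝ) : ℂ) * I by push_cast; ring, sin_mul_I,
      ofReal_sinh]
  have h6 : ((Real.sinh (π * τ) : ℝ) : ℂ) ≠ 0 :=
    ofReal_ne_zero.2 (Real.sinh_ne_zero.2 (mul_ne_zero Real.pi_ne_zero hτ))
  rw [h1, h5] at h4
  apply ofReal_injective
  rw [h4, ofReal_div, ofReal_mul]
  field_simp

theorem x_exp_le (x : ℝ) : x * Real.exp x ≤ (1 + 2 * x) * Real.sinh x := by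
  have h1 := Real.add_one_le_exp (2 * x)
  have h2 : Real.exp (2 * x) = Real.exp x * Real.exp x := by rw [← Real.exp_add]; ring_nf
  have h3 : Real.exp x * Real.exp (-x) = 1 := by rw [← Real.exp_add]; simp
  have h4 : (1 + 2 * x) * Real.exp (-x) ≤ Real.exp x := by
    have := mul_le_mul_of_nonneg_right h1 (Real.exp_pos (-x)).le
    rw [h2, mul_assoc, h3] at this
    linarith
  rw [Real.sinh_eq]
  nlinarith

theorem Gamma_one_le (τ : ℝ) :
    ‖Gamma (1 + I * τ)‖ ^ 2 * Real.exp (π * |τ|) ≤ 7 * (1 + |τ|) := by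
  have hpi := Real.pi_lt_d2
  rcases eq_or_ne τ 0 with rfl | hτ
  · simp
  · have h0 : 0 < π * |τ| := mul_pos Real.pi_pos (abs_pos.2 hτ)
    have e : π * τ / Real.sinh (π * τ) = π * |τ| / Real.sinh (π * |τ|) := by
      rcases abs_choice τ with h1 | h1 <;> rw [h1]
      rw [mul_neg, Real.sinh_neg, neg_div_neg_eq]
    have h1 := x_exp_le (π * |τ|)
    have h2 : 0 < Real.sinh (π * |τ|) := Real.sinh_pos_iff.2 h0
    rw [norm_Gamma_one_sq hτ, e, div_mul_eq_mul_div, div_le_iff₀ h2]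
    refine h1.trans (mul_le_mul_of_nonneg_right ?_ h2.le)
    nlinarith [abs_nonneg τ]

theorem Gamma_le {a : ℝ} (h0 : 0 < a) (h1 : a < 1) (τ : ℝ) :
    ‖Gamma (a + I * τ)‖ ≤ Real.Gamma a * ‖Gamma (1 + I * τ)‖ := by
  have hb : 0 < ((1 - a : ℝ) : ℂ).re := by simpa using h1
  have e1 := Gamma_mul_Gamma_eq_betaIntegral (s := a + I * τ) (t := (1 - a : ℝ)) (by simpa) hb
  have e2 := Gamma_mul_Gamma_eq_betaIntegral (s := a) (t := (1 - a : ℝ)) (by simpa) hb
  rw [show (a + I * τ + (1 - a : ℝ) : ℂ) = 1 + I * τ by push_cast; ring] at e1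
  rw [show (a + (1 - a : ℝ) : ℂ) = 1 by push_cast; ring, Gamma_one, one_mul, Gamma_ofReal,
    Gamma_ofReal] at e2
  have e3 : betaIntegral a (1 - a : ℝ) =
      ((∫ x : ℝ in (0 : ℝ)..1, x ^ (a - 1) * (1 - x) ^ (1 - a - 1) : ℝ) : ℂ) := by
    rw [betaIntegral, ← intervalIntegral.integral_ofReal]
    refine intervalIntegral.integral_congr fun x hx => ?_
    rw [Set.uIcc_of_le zero_le_one] at hx
    rw [ofReal_mul, ofReal_cpow hx.1, ofReal_cpow (sub_nonneg.2 hx.2)]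
    push_cast; rfl
  have e4 : ‖betaIntegral (a + I * τ) (1 - a : ℝ)‖ ≤
      ∫ x : ℝ in (0 : ℝ)..1, x ^ (a - 1) * (1 - x) ^ (1 - a - 1) := by
    rw [betaIntegral]
    refine (intervalIntegral.norm_integral_le_integral_norm zero_le_one).trans (le_of_eq ?_)
    refine intervalIntegral.integral_congr_ae (Eventually.of_forall fun x hx => ?_)
    rw [Set.uIoc_of_le zero_le_one] at hx
    have e : (1 - (x : ℂ)) ^ (((1 - a : ℝ) : ℂ) - 1) = (((1 - x) ^ (1 - a - 1) : ℝ) : ℂ) := by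
      rw [ofReal_cpow (sub_nonneg.2 hx.2)]; push_cast; rfl
    rw [norm_mul, norm_cpow_eq_rpow_re_of_pos hx.1, e, norm_real,
      Real.norm_of_nonneg (Real.rpow_nonneg (sub_nonneg.2 hx.2) _)]
    simp
  rw [e3, ← ofReal_mul, ofReal_inj] at e2
  have e5 := congrArg norm e1
  have hp : 0 < Real.Gamma (1 - a) := Real.Gamma_pos_of_pos (by linarith)
  rw [norm_mul, norm_mul, Gamma_ofReal, norm_real, Real.norm_of_nonneg hp.le] at e5
  rw [← e2] at e4
  refine le_of_mul_le_mul_right ?_ hp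
  rw [e5, mul_comm (Real.Gamma a), mul_assoc]
  exact mul_le_mul_of_nonneg_left e4 (norm_nonneg _)

theorem GammaC_le {s : ℂ} (h0 : 0 < s.re) (h1 : s.re ≤ 1 / 4) :
    ‖Gammaℂ (1 - s)‖ ^ 2 * Real.exp (π * |s.im|) ≤ 28 * Real.Gamma (3 / 4) ^ 2 * (1 + ‖s‖) := by
  have hpi := Real.pi_gt_three
  have e : 1 - s = ((1 - s.re : ℝ) : ℂ) + I * ((-s.im : ℝ) : ℂ) := by
    apply Complex.ext <;> simp
  have a1 := Gamma_le (a := 1 - s.re) (by linarith) (by linarith) (-s.im)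
  have a2 := Gamma_one_le (-s.im)
  rw [abs_neg] at a2
  rw [← e] at a1
  have a3 : Real.Gamma (1 - s.re) ≤ Real.Gamma (3 / 4) :=
    Real.Gamma_strictAntiOn_Ioc.antitoneOn ⟨by norm_num, by norm_num⟩ ⟨by linarith, by linarith⟩
      (by linarith)
  have a4 : ‖(2 * π : ℂ) ^ (-(1 - s))‖ ≤ 1 := by
    rw [show (2 * π : ℂ) = ((2 * π : ℝ) : ℂ) by push_cast; rfl,
      norm_cpow_eq_rpow_re_of_pos (by linarith)]
    refine Real.rpow_le_one_of_one_le_of_nonpos (by linarith) ?_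
    simp; linarith
  have a5 : ‖Gammaℂ (1 - s)‖ ≤ 2 * (Real.Gamma (3 / 4) * ‖Gamma (1 + I * ((-s.im : ℝ) : ℂ))‖) := by
    rw [Gammaℂ_def, norm_mul, norm_mul, mul_assoc, norm_ofNat]
    refine mul_le_mul_of_nonneg_left ((mul_le_of_le_one_left (norm_nonneg _) a4).trans
      (a1.trans ?_)) zero_le_two
    exact mul_le_mul_of_nonneg_right a3 (norm_nonneg _)
  have a6 := pow_le_pow_left₀ (norm_nonneg _) a5 2
  have a7 := abs_im_le_norm s
  calc _ ≤ (2 * (Real.Gamma (3 / 4) * ‖Gamma (1 + I * ((-s.im : ℝ) : ℂ))‖)) ^ 2 *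
        Real.exp (π * |s.im|) := by gcongr
    _ = 4 * Real.Gamma (3 / 4) ^ 2 *
        (‖Gamma (1 + I * ((-s.im : ℝ) : ℂ))‖ ^ 2 * Real.exp (π * |s.im|)) := by ring
    _ ≤ 4 * Real.Gamma (3 / 4) ^ 2 * (7 * (1 + ‖s‖)) := by
        refine mul_le_mul_of_nonneg_left (a2.trans ?_) (by positivity)
        linarith
    _ = _ := by ring

theorem exp_le (z : ℂ) : ‖exp (z * I)‖ ≤ Real.exp |z.im| ∧ ‖exp (-z * I)‖ ≤ Real.exp |z.im| := by
  constructor <;> rw [norm_exp] <;> refine Real.exp_le_exp.2 ?_ <;> simp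
  · exact neg_le_abs _
  · exact le_abs_self _

theorem sin_le (z : ℂ) : ‖sin z‖ ≤ Real.exp |z.im| := by
  have h := exp_le z
  have h2 := norm_sub_le (exp (-z * I)) (exp (z * I))
  rw [Complex.sin, norm_div, norm_mul, norm_I, norm_ofNat]
  linarith [h.1, h.2]

theorem cos_le (z : ℂ) : ‖cos z‖ ≤ Real.exp |z.im| := by
  have h := exp_le z
  have h2 := norm_add_le (exp (z * I)) (exp (-z * I))
  rw [Complex.cos, norm_div, norm_ofNat]
  linarith [h.1, h.2]

theorem sin_small {z : ℂ} (hz : ‖z‖ ≤ 1) : ‖sin z‖ ≤ 2 * ‖z‖ := by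
  have h1 := norm_exp_sub_one_le (x := z * I) (by simpa using hz)
  have h2 := norm_exp_sub_one_le (x := -z * I) (by simpa using hz)
  have h3 := norm_sub_le (exp (-z * I) - 1) (exp (z * I) - 1)
  rw [sub_sub_sub_cancel_right] at h3
  rw [norm_mul, norm_I] at h1 h2
  rw [norm_neg] at h2
  rw [Complex.sin, norm_div, norm_mul, norm_I, norm_ofNat]
  linarith

theorem sin_half (s : ℂ) :
    ‖sin (π * s / 2)‖ * (1 + ‖s‖) ≤ 8 * ‖s‖ * Real.exp (π * |s.im| / 2) := by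
  have hpi := Real.pi_gt_three
  have hpi4 := Real.pi_lt_four
  have e1 : ‖(π * s / 2 : ℂ)‖ = π * ‖s‖ / 2 := by
    rw [norm_div, norm_mul, norm_real, Real.norm_of_nonneg Real.pi_pos.le, norm_ofNat]
  have e2 : |(π * s / 2 : ℂ).im| = π * |s.im| / 2 := by
    rw [show (π * s / 2 : ℂ).im = π * s.im / 2 by simp, abs_div, abs_mul,
      abs_of_pos Real.pi_pos, abs_two]
  have hs := norm_nonneg s
  have hE : 1 ≤ Real.exp (π * |s.im| / 2) := Real.one_le_exp (by positivity)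
  rcases le_total ‖(π * s / 2 : ℂ)‖ 1 with h | h
  · have h1 := sin_small h
    rw [e1] at h h1
    have h2 : ‖s‖ ≤ 1 := by nlinarith
    have h3 : ‖sin (π * s / 2)‖ ≤ 4 * ‖s‖ := by nlinarith
    calc _ ≤ 4 * ‖s‖ * 2 := by gcongr; linarith
      _ = 8 * ‖s‖ * 1 := by ring
      _ ≤ _ := by gcongr
  · have h1 := sin_le (π * s / 2)
    rw [e2] at h1
    rw [e1] at h
    have h2 : 1 + ‖s‖ ≤ 8 * ‖s‖ := by nlinarith
    rw [mul_comm]
    gcongr

theorem cos_half (s : ℂ) : ‖cos (π * s / 2)‖ ≤ Real.exp (π * |s.im| / 2) := by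
  have e2 : |(π * s / 2 : ℂ).im| = π * |s.im| / 2 := by
    rw [show (π * s / 2 : ℂ).im = π * s.im / 2 by simp, abs_div, abs_mul,
      abs_of_pos Real.pi_pos, abs_two]
  rw [← e2]; exact cos_le _

open Classical in
theorem fe {q : ℕ} [NeZero q] {χ : Ch q} (hχ : χ.IsPrimitive) {s : ℂ} (h0 : 0 < s.re)
    (h1 : s.re ≤ 1 / 4) :
    (q : ℂ) ^ (s - 1 / 2) * χ.rootNumber * LFunction χ⁻¹ s = Gammaℂ (1 - s) *
      (if χ.Even then sin (π * s / 2) else cos (π * s / 2)) * LFunction χ (1 - s) := by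
  have hn : ∀ n : ℕ, 1 - s ≠ -n := fun n h => by
    have := congrArg re h
    simp at this
    linarith [Nat.cast_nonneg (α := ℝ) n]
  have hs : s ≠ 0 := by rintro rfl; simp at h0
  have hs1 : 1 - s ≠ 0 := by simpa using hn 0
  rw [DirichletCharacter.LFunction_eq_completed_div_gammaFactor _ _ (Or.inl hs),
    DirichletCharacter.LFunction_eq_completed_div_gammaFactor _ _ (Or.inl hs1),
    hχ.completedLFunction_one_sub]
  rcases χ.even_or_odd with h | h
  · have h' : (χ⁻¹).Even := by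
      rw [DirichletCharacter.Even, MulChar.inv_apply_eq_inv', h, inv_one]
    have e := inv_Gammaℝ_one_sub hn
    rw [sub_sub_cancel, show (π * (1 - s) / 2 : ℂ) = π / 2 - π * s / 2 by ring,
      cos_pi_div_two_sub] at e
    rw [h.gammaFactor_def, h'.gammaFactor_def, if_pos h, div_eq_mul_inv _ (Gammaℝ s), e]
    ring
  · have h' : (χ⁻¹).Odd := by
      rw [DirichletCharacter.Odd, MulChar.inv_apply_eq_inv', h, inv_neg, inv_one]
    have e := inv_Gammaℝ_two_sub hn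
    rw [show 2 - (1 - s) = s + 1 by ring, show (π * (1 - s) / 2 : ℂ) = π / 2 - π * s / 2 by ring,
      sin_pi_div_two_sub] at e
    rw [h.gammaFactor_def, h'.gammaFactor_def, if_neg h.not_even,
      div_eq_mul_inv _ (Gammaℝ (s + 1)), e]
    ring

end GamA

open GamA in
theorem gam : GamS := by
  classical
  refine ⟨1 + 64 * (28 * Real.Gamma (3 / 4) ^ 2), le_add_of_nonneg_right (by positivity),
    fun q _ χ s hχ h0 h1 => ?_⟩
  set G := 28 * Real.Gamma (3 / 4) ^ 2 with hG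
  have hG0 : 0 ≤ G := by positivity
  have hq : (1 : ℝ) ≤ q := Nat.one_le_cast.2 (NeZero.pos q)
  have e := congrArg norm (fe hχ h0 h1)
  rw [norm_mul, norm_mul, norm_mul, norm_mul, root hχ, mul_one,
    norm_natCast_cpow_of_pos (NeZero.pos q)] at e
  have a1 : 1 ≤ q * ((q : ℝ) ^ (s - 1 / 2).re) ^ 2 := by
    rw [← Real.rpow_natCast, ← Real.rpow_mul (by linarith), ← Real.rpow_one_add' (by linarith)]
    · refine Real.one_le_rpow hq ?_
      simp; linarith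
    · simp; linarith
  have a2 := GammaC_le h0 h1
  rw [← hG] at a2
  have hs := norm_nonneg s
  have hE : Real.exp (π * |s.im| / 2) ^ 2 = Real.exp (π * |s.im|) := by
    rw [← Real.exp_nat_mul]; congr 1; push_cast; ring
  have a3 : (‖Gammaℂ (1 - s)‖ * ‖if χ.Even then sin (π * s / 2) else cos (π * s / 2)‖) ^ 2 ≤
      (1 + 64 * G) * (if χ.Even then ‖s‖ ^ 2 / (1 + ‖s‖) else 1 + ‖s‖) := by
    split_ifs with h
    · have b1 := pow_le_pow_left₀ (by positivity) (sin_half s) 2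
      rw [mul_pow, mul_pow, hE] at b1
      have b2 := mul_le_mul_of_nonneg_left b1 (sq_nonneg ‖Gammaℂ (1 - s)‖)
      have b3 := mul_le_mul_of_nonneg_left a2 (sq_nonneg (8 * ‖s‖))
      rw [← mul_div_assoc, le_div_iff₀ (by positivity)]
      refine le_of_mul_le_mul_right ?_ (show 0 < 1 + ‖s‖ by positivity)
      nlinarith [mul_nonneg (sq_nonneg ‖s‖) (show 0 ≤ 1 + ‖s‖ by positivity)]
    · have b1 := pow_le_pow_left₀ (by positivity) (cos_half s) 2
      rw [hE] at b1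
      have b2 := mul_le_mul_of_nonneg_left b1 (sq_nonneg ‖Gammaℂ (1 - s)‖)
      rw [mul_pow]
      nlinarith [mul_nonneg hG0 (show 0 ≤ 1 + ‖s‖ by positivity)]
  calc _ ≤ q * ((q : ℝ) ^ (s - 1 / 2).re) ^ 2 * ‖LFunction χ⁻¹ s‖ ^ 2 :=
        le_mul_of_one_le_left (sq_nonneg _) a1
    _ = q * ((q : ℝ) ^ (s - 1 / 2).re * ‖LFunction χ⁻¹ s‖) ^ 2 := by ring
    _ = q * (‖Gammaℂ (1 - s)‖ * ‖if χ.Even then sin (π * s / 2) else cos (π * s / 2)‖) ^ 2 *
        ‖LFunction χ (1 - s)‖ ^ 2 := by rw [e]; ring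
    _ ≤ q * ((1 + 64 * G) * (if χ.Even then ‖s‖ ^ 2 / (1 + ‖s‖) else 1 + ‖s‖)) *
        ‖LFunction χ (1 - s)‖ ^ 2 := by gcongr
    _ = _ := by ring

end Pool.Agent.MP_20b2fd_nt.H38
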