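import Pool.Agent.MP_20b2fd_nt.H38.SpecC

/-! The Dirichlet series over the shifts. -/

set_option autoImplicit false

namespace Pool.Agent.MP_20b2fd_nt.H38

open Complex Finset
open DirichletCharacter (LFunction)
open Pool.Agent.MP_c5bf7b_nt.H38 (Ch)

namespace HfA

/-- Dilation of a sequence. -/
noncomputable def sh (p : ℕ) (f : ℕ → ℂ) (h : ℕ) : ℂ := if p ∣ h then f (h / p) else 0

theorem sh_mul {p : ℕ} (hp : 0 < p) (f : ℕ → ℂ) (h : ℕ) : sh p f (p * h) = f h := by
  rw [sh, if_pos (Dvd.intro _ rfl), Nat.mul_div_cancel_left _ hp]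

theorem sh_sum {p : ℕ} (hp : 0 < p) {f : ℕ → ℂ} {s a : ℂ} (h : LSeriesHasSum f s a) :
    LSeriesHasSum (sh p f) s ((p : ℂ) ^ (-s) * a) := by
  refine ((mul_right_injective₀ hp.ne').hasSum_iff (f := LSeries.term (sh p f) s)
    fun x hx => ?_).1 ?_
  · rw [LSeries.term_def, sh, if_neg (c := p ∣ x) fun ⟨y, hy⟩ => hx ⟨y, hy.symm⟩]
    simp
  · rw [show (LSeries.term (sh p f) s ∘ fun x => p * x) =
      fun n => (p : ℂ) ^ (-s) * LSeries.term f s n from funext fun n => ?_]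
    · exact HasSum.mul_left _ h
    rcases eq_or_ne n 0 with rfl | hn
    · simp
    · rw [Function.comp_apply, LSeries.term_of_ne_zero (mul_ne_zero hp.ne' hn),
        LSeries.term_of_ne_zero hn, sh_mul hp, Nat.cast_mul, natCast_mul_natCast_cpow, cpow_neg]
      ring

/-- One prime. -/
theorem step {p γ : ℕ} (hp : p.Prime) {f g : ℕ → ℂ} {s a c α β : ℂ} (h : LSeriesHasSum f s a)
    (hf : ∀ j n : ℕ, ¬p ∣ n → f (p ^ j * n) = c ^ j * (j + 1) * f n)
    (hg : ∀ j n : ℕ, ¬p ∣ n →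
      g (p ^ j * n) = c ^ j * (γ + j + 1) * (α + if j = 0 then β else 0) * f n) :
    LSeriesHasSum g s (a * (α * (γ + 1 - γ * (c * (p : ℂ) ^ (-s))) +
      β * (γ + 1) * (1 - c * (p : ℂ) ^ (-s)) ^ 2)) := by
  have h1 := sh_sum hp.pos h
  have h2 := sh_sum hp.pos h1
  have h3 := ((h.smul ((α + β) * (γ + 1))).add
    (h1.smul (c * (-α * γ - 2 * β * (γ + 1))))).add (h2.smul (c ^ 2 * (β * (γ + 1))))
  refine (LSeriesHasSum_congr s _ fun {n} hn => ?_).1 (by convert h3 using 1; ring)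
  obtain ⟨j, m, hm, rfl⟩ := Nat.exists_eq_pow_mul_and_not_dvd hn p hp.ne_one
  have e0 : ∀ k : ℕ → ℂ, sh p k m = 0 := fun k => if_neg hm
  have e1 : ∀ (k : ℕ → ℂ) (i : ℕ), sh p k (p ^ (i + 1) * m) = k (p ^ i * m) := fun k i => by
    rw [pow_succ', mul_assoc, sh_mul hp.pos]
  simp only [Pi.add_apply, Pi.smul_apply, smul_eq_mul, hg j m hm, hf j m hm]
  rcases j with _ | _ | j
  · simp only [pow_zero, one_mul, e0, if_true]
    push_cast
    ring
  · simp only [e1, pow_zero, one_mul, e0, if_neg (Nat.succ_ne_zero _)]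
    push_cast
    ring
  · simp only [e1, hf _ m hm, if_neg (Nat.succ_ne_zero _)]
    push_cast
    ring

theorem tau_pow {p n : ℕ} (hp : p.Prime) (h : ¬p ∣ n) (j : ℕ) :
    (tau (p ^ j * n) : ℂ) = (j + 1) * tau n := by
  rw [tau, tau, (((Nat.Prime.coprime_iff_not_dvd hp).2 h).pow_left j).card_divisors_mul,
    Nat.divisors_prime_pow hp]
  simp

variable {q : ℕ} [NeZero q] (χ : Ch q) {s : ℂ}

theorem base (hs : 1 < s.re) :
    LSeriesHasSum (fun h => (tau h : ℂ) * χ h) s (LFunction χ s ^ 2) := by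
  have h := (ZMod.LSeriesSummable_of_one_lt_re χ hs).LSeriesHasSum
  rw [← DirichletCharacter.LFunction_eq_LSeries χ hs] at h
  rw [sq]
  refine (LSeriesHasSum_congr s _ fun {n} _ => ?_).1 (h.convolution h)
  simp only [LSeries.convolution_def]
  rw [sum_congr rfl (g := fun _ => χ n) fun x hx => by
    rw [← map_mul, ← Nat.cast_mul, (Nat.mem_divisorsAntidiagonal.1 hx).1],
    Nat.sum_divisorsAntidiagonal fun _ _ => χ n]
  simp [tau]

theorem gen (hs : 1 < s.re) {I : Type} (P : I → ℕ) (hP : ∀ i, (P i).Prime)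
    (hi : Function.Injective P) (γ : I → ℕ) (α β : I → ℂ) (T : Finset I) :
    LSeriesHasSum (fun h => (tau ((∏ i ∈ T, P i ^ γ i) * h) : ℂ) * χ h *
      ∏ i ∈ T, (α i + if P i ∣ h then 0 else β i)) s
      (LFunction χ s ^ 2 * ∏ i ∈ T, (α i * (γ i + 1 - γ i * (χ (P i) * (P i : ℂ) ^ (-s))) +
        β i * (γ i + 1) * (1 - χ (P i) * (P i : ℂ) ^ (-s)) ^ 2)) := by
  classical
  induction T using Finset.induction_on with
  | empty => simpa using base χ hs
  | insert i T hT ih =>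
    have hc : ∀ k ∈ T, (P k).Coprime (P i) := fun k hk =>
      (Nat.coprime_primes (hP k) (hP i)).2 fun h => hT (hi h ▸ hk)
    have e1 : ∀ j n, ∏ k ∈ T, (α k + if P k ∣ P i ^ j * n then 0 else β k) =
        ∏ k ∈ T, (α k + if P k ∣ n then 0 else β k) := fun j n =>
      prod_congr rfl fun k hk => by simp only [((hc k hk).pow_right j).dvd_mul_left]
    have e2 : ∀ n, ¬P i ∣ n → ¬P i ∣ (∏ k ∈ T, P k ^ γ k) * n := fun n hn h =>
      hn ((Nat.Coprime.prod_right fun k hk => (hc k hk).symm.pow_right (γ k)).dvd_mul_left.1 h)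
    rw [prod_insert hT (f := fun i => α i * (γ i + 1 - γ i * (χ (P i) * (P i : ℂ) ^ (-s))) +
        β i * (γ i + 1) * (1 - χ (P i) * (P i : ℂ) ^ (-s)) ^ 2), mul_comm (_ + _), ← mul_assoc]
    refine step (hP i) ih (fun j n hn => ?_) fun j n hn => ?_
    · simp only [e1]
      rw [mul_left_comm _ (P i ^ j), tau_pow (hP i) (e2 n hn), Nat.cast_mul, map_mul, Nat.cast_pow,
        map_pow]
      ring
    · have e3 : P i ∣ P i ^ j * n ↔ ¬j = 0 := by
        rcases j with _ | j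
        · simpa using hn
        · simpa using Dvd.dvd.mul_right (dvd_pow_self _ j.succ_ne_zero) n
      simp only [prod_insert hT, e1, e3, ite_not]
      rw [show P i ^ γ i * (∏ k ∈ T, P k ^ γ k) * (P i ^ j * n) =
          P i ^ (γ i + j) * ((∏ k ∈ T, P k ^ γ k) * n) by ring, tau_pow (hP i) (e2 n hn),
        Nat.cast_mul (P i ^ j), map_mul, Nat.cast_pow, map_pow]
      push_cast
      ring

end HfA

open HfA

theorem hfOf : HfOf := by
  intro _ S q _ χ γ ν ι s hS hs
  classical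
  convert gen χ hs (fun p : S => (p : ℕ)) (fun p => hS p p.2) Subtype.val_injective γ
    (fun p => if ν p = 0 then 1 else -1 / ((p : ℕ) : ℂ))
    (fun p => if ν p = 0 then 0 else if ι p then 1 / (((p : ℕ) : ℂ) - 1) else 0) univ using 1
  · ext h
    congr 1
    refine prod_congr rfl fun p _ => ?_
    by_cases h1 : ν p = 0 <;> by_cases h2 : ι p <;> by_cases h3 : (p : ℕ) ∣ h <;> simp [h1, h2, h3]
  · congr 1
    refine prod_congr rfl fun p _ => ?_
    rw [hl]
    split_ifs <;> ring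

end Pool.Agent.MP_20b2fd_nt.H38
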