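import Pool.Agent.MP_20b2fd_nt.H38.SpecC

/-! The cutoffs are admissible. -/

set_option autoImplicit false

namespace Pool.Agent.MP_20b2fd_nt.H38

open Filter Topology

theorem ksOf : KsOf := by
  rintro ⟨C, hC, hM⟩
  refine ⟨fun z hz => ?_, fun δ B K hδ hB hK => ?_⟩
  · have lz := Real.log_pos hz
    refine ⟨fun q => ⟨ph0.nonneg, ph0.le_one⟩, fun q hq => ph0.one_of_mem_closedBall ?_,
      fun q hq => ph0.zero_of_le_dist ?_⟩
    · rw [mem_closedBall_zero_iff, Real.norm_of_nonneg (by positivity), div_le_iff₀ lz]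
      change _ ≤ 1 / 2 * _
      rcases Nat.eq_zero_or_pos q with rfl | h
      · simpa using lz.le
      · have := Real.log_le_log (by positivity) hq
        rw [Real.log_pow] at this
        push_cast at this
        linarith
    · rw [dist_zero_right, Real.norm_of_nonneg (by positivity), le_div_iff₀ lz]
      change 1 * _ ≤ _
      rw [one_mul]
      exact Real.log_le_log (by linarith) hq.le
  obtain ⟨N₀, hN⟩ := eventually_atTop.1 (((tendsto_rpow_atTop (half_pos hδ)).comp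
    tendsto_natCast_atTop_atTop).eventually_ge_atTop (16 * (C * B)))
  refine ⟨max N₀ 1, fun N h => ?_⟩
  have N0 : (0 : ℝ) < N := by exact_mod_cast (le_max_right _ _).trans h
  have hQ : 16 * (C * B) ≤ (N : ℝ) ^ (δ / 2) := hN N ((le_max_left _ _).trans h)
  have pw : ∀ (n : ℕ) (a : ℝ), a = δ / 2 * n → (N : ℝ) ^ a = ((N : ℝ) ^ (δ / 2)) ^ n := by
    rintro n _ rfl
    rw [Real.rpow_mul_natCast N0.le]
  have pv : ∀ (n : ℕ) (a : ℝ), a = -(δ / 2 * n) → (N : ℝ) ^ a = (((N : ℝ) ^ (δ / 2)) ^ n)⁻¹ := by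
    rintro n _ rfl
    rw [Real.rpow_neg N0.le, Real.rpow_mul_natCast N0.le]
  rw [KsOK, pv 6 (-3 * δ) (by ring), pv 8 (-4 * δ) (by ring), pv 16 (-8 * δ) (by ring),
    pw 18 (9 * δ) (by ring), pw 2 δ (by ring)]
  generalize (N : ℝ) ^ (δ / 2) = Q at hQ ⊢
  have CB : B ≤ C * B := le_mul_of_one_le_left (by linarith) hC
  have Q1 : 10 ≤ Q := by linarith
  have Q2 : Q ≤ Q ^ 2 := le_self_pow₀ (by linarith) two_ne_zero
  obtain ⟨⟨D, d0, d1, d2, d3, -⟩, -, d4⟩ := hM B (Q ^ 8)⁻¹ K hB hK (by positivity) (by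
    rw [one_div]
    exact inv_anti₀ (by norm_num) (Q1.trans (le_self_pow₀ (by linarith) (by norm_num))))
  generalize kc1 (Q ^ 8)⁻¹ K = k at *
  have z : ∀ t, |1 + t| ≤ (Q ^ 16)⁻¹ → k t = 0 := fun t ht => (d4 t).1 (by
    rw [inv_pow, ← pow_mul]
    exact ht)
  have p6 : 0 < (Q ^ 6)⁻¹ := by positivity
  have p16 : 0 < (Q ^ 16)⁻¹ := by positivity
  have n0 : ∀ t : ℝ, (Q ^ 6)⁻¹ ≤ |t| → t ≠ 0 := fun t ht => abs_pos.1 (p6.trans_le ht)
  have key : ∀ t, (Q ^ 6)⁻¹ ≤ |t| → (Q ^ 16)⁻¹ ≤ |1 + t| → |k t| ≤ Q ^ 2 ∧ |D 1 t| ≤ Q ^ 18 := by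
    intro t h1 h2
    have m1 : (Q ^ 16)⁻¹ ≤ mn t := le_min (inv_le_one_of_one_le₀ (one_le_pow₀ (by linarith)))
      (le_min ((inv_anti₀ (by positivity) (pow_le_pow_right₀ (by linarith) (by norm_num))).trans h1)
        h2)
    have m2 : mn t ≤ 1 := min_le_left _ _
    obtain ⟨e1, e2, -⟩ := d3 t (n0 t h1) fun e => by
      rw [e, add_neg_cancel, abs_zero] at h2
      linarith
    constructor
    · have l1 := Real.log_le_log p16 m1
      rw [Real.log_inv, Real.log_pow] at l1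
      have l2 := Real.log_le_sub_one_of_pos (show 0 < Q by linarith)
      rw [abs_of_nonpos (Real.log_nonpos (p16.le.trans m1) m2)] at e1
      push_cast at l1
      calc _ ≤ _ := e1
        _ ≤ C * B * (16 * Q) := mul_le_mul_of_nonneg_left (by linarith) (by linarith)
        _ ≤ _ := by nlinarith
    · calc _ ≤ _ := e2
        _ ≤ Q ^ 2 / (Q ^ 16)⁻¹ := div_le_div₀ (by positivity) (by linarith) p16 m1
        _ = _ := by rw [div_inv_eq_mul, ← pow_add]
  refine ⟨fun x hx => ?_, fun x x' hs hx hx' => ?_, fun x hx => d2 x (by linarith), z⟩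
  · rcases le_total |1 + x| (Q ^ 16)⁻¹ with h | h
    · rw [z x h, abs_zero]
      positivity
    · exact (key x hx h).1
  have seg : ∀ t ∈ Set.uIcc x' x, (Q ^ 6)⁻¹ ≤ |t| := by
    intro t ht
    rcases mul_pos_iff.1 hs with ⟨a, b⟩ | ⟨a, b⟩
    · rw [abs_of_pos ‹_›] at hx hx'
      exact ((le_inf hx' hx).trans ht.1).trans (le_abs_self t)
    · rw [abs_of_neg ‹_›, le_neg] at hx hx'
      exact (le_neg.1 (ht.2.trans (sup_le hx' hx))).trans (neg_le_abs t)
  subst d0
  refine (convex_uIcc x' x).norm_image_sub_le_of_norm_hasDerivWithin_le (f' := D 1)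
    (fun t ht => (d1 0 t (n0 t (seg t ht))).hasDerivWithinAt) (fun t ht => ?_)
    Set.left_mem_uIcc Set.right_mem_uIcc
  rcases lt_or_ge |1 + t| (Q ^ 16)⁻¹ with h | h
  · have ev : D 0 =ᶠ[𝓝 t] fun _ => 0 :=
      ((by fun_prop : ContinuousAt (fun t : ℝ => |1 + t|) t).eventually_lt continuousAt_const
        h).mono fun s hs => z s hs.le
    rw [(d1 0 t (n0 t (seg t ht))).unique ((hasDerivAt_const t 0).congr_of_eventuallyEq ev),
      norm_zero]
    positivity
  · exact (key t (seg t ht) h).2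

end Pool.Agent.MP_20b2fd_nt.H38
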