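import Pool.Agent.MP_20b2fd_nt.H38.SpecC

/-! The trivial bound for the local factors. -/

set_option autoImplicit false

namespace Pool.Agent.MP_20b2fd_nt.H38

open Finset

namespace LocAA

theorem norm_nat (p : ℕ) (hp : 2 ≤ p) : ‖(p : ℂ)‖ = p ∧ (p : ℝ) / 2 ≤ ‖(p : ℂ) - 1‖ := by
  have h2 : (2 : ℝ) ≤ p := by exact_mod_cast hp
  refine ⟨Complex.norm_natCast p, ?_⟩
  have := norm_sub_norm_le (p : ℂ) 1
  rw [Complex.norm_natCast, norm_one] at this
  linarith

theorem hl_le (p γ ν : ℕ) (ι : Prop) (X G : ℂ) (hp : 2 ≤ p) (hν : ν < 2) (hX : ‖X‖ ≤ 3 / 2)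
    (hG : ‖G‖ ≤ 9 * p) : ‖G ^ ν * hl p γ ν ι X‖ ≤ 144 * (γ + 1) := by
  have h2 : (2 : ℝ) ≤ p := by exact_mod_cast hp
  have hγ : (0 : ℝ) ≤ γ := by positivity
  obtain ⟨e1, e2⟩ := norm_nat p hp
  have h1 : ‖(γ : ℂ) + 1‖ ≤ γ + 1 := (norm_add_le _ _).trans_eq (by simp)
  have h3 : ‖(γ : ℂ) + 1 - γ * X‖ ≤ 3 * (γ + 1) := by
    refine (norm_sub_le _ _).trans ?_
    rw [norm_mul, Complex.norm_natCast]
    nlinarith [mul_le_mul_of_nonneg_left hX hγ]
  have h4 : ‖1 - X‖ ≤ 5 / 2 := (norm_sub_le _ _).trans (by rw [norm_one]; linarith)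
  unfold hl
  split_ifs with h0 hι
  · rw [h0, pow_zero, one_mul]
    linarith
  · obtain rfl : ν = 1 := by omega
    rw [pow_one, norm_mul]
    have h5 : ‖-((γ : ℂ) + 1 - γ * X) / p + (γ + 1) * (1 - X) ^ 2 / (p - 1)‖ ≤
        3 * (γ + 1) / p + (γ + 1) * (5 / 2) ^ 2 / (p / 2) := by
      refine (norm_add_le _ _).trans ?_
      rw [norm_div, norm_neg, e1, norm_div, norm_mul, norm_pow]
      gcongr
    calc _ ≤ 9 * (p : ℝ) * (3 * (γ + 1) / p + (γ + 1) * (5 / 2) ^ 2 / (p / 2)) := by gcongr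
      _ = 279 / 2 * (γ + 1) := by
        field_simp
        ring
      _ ≤ _ := by linarith
  · obtain rfl : ν = 1 := by omega
    rw [pow_one, norm_mul, add_zero, norm_div, norm_neg, e1]
    calc _ ≤ 9 * (p : ℝ) * (3 * (γ + 1) / p) := by gcongr
      _ = 27 * (γ + 1) := by
        field_simp
        ring
      _ ≤ _ := by linarith

theorem rgm_le {p : ℕ} {X Y E E' W F G : ℂ} (hp : 2 ≤ p) (h : Rgm p X Y E E' W F G) :
    ‖X‖ ≤ 3 / 2 ∧ ‖G‖ ≤ 9 * p := by
  have h2 : (2 : ℝ) ≤ p := by exact_mod_cast hp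
  rcases h.2.2.2.2.2 with ⟨h1, h3⟩ | ⟨h1, h3⟩
  · exact ⟨by linarith, by linarith⟩
  · refine ⟨h1.trans (by gcongr), h3.trans ?_⟩
    gcongr
    exact Real.sqrt_le_iff.2 ⟨by linarith, by nlinarith⟩

theorem lt_le (a p : ℕ) (y : L5) {X Y E E' W F G : ℂ} (hp : 2 ≤ p) (h : Rgm p X Y E E' W F G)
    (h1 : y.2.1 ≤ mx y.1) (h2 : y.2.2 < 2) : ‖lt a p y X Y E E' W F G‖ ≤
      |u3 a p y.1| * (9 ^ mx y.1 * (144 * (mx y.1 + 1)) * 3 ^ ke a p y.1.1 * 3 ^ ke a p y.1.2.1) := by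
  obtain ⟨hX, hG⟩ := rgm_le hp h
  obtain ⟨hY, hE, hE', hW, hF, -⟩ := h
  have h3 := hl_le p y.2.1 y.2.2 (y.2.1 = mx y.1) X G hp h2 hX hG
  have h4 : (y.2.1 : ℝ) ≤ mx y.1 := by exact_mod_cast h1
  have e : lt a p y X Y E E' W F G = u3 a p y.1 * (Y ^ (mx y.1 - y.2.1) * F ^ y.2.1 * W ^ mx y.1 *
      (G ^ y.2.2 * hl p y.2.1 y.2.2 (y.2.1 = mx y.1) X) * E ^ ke a p y.1.1 *
      E' ^ ke a p y.1.2.1) := by
    unfold lt
    ring
  have e2 : (9 : ℝ) ^ mx y.1 = 3 ^ (mx y.1 - y.2.1) * 3 ^ y.2.1 * 3 ^ mx y.1 := by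
    rw [← pow_add, Nat.sub_add_cancel h1, ← mul_pow]
    norm_num
  rw [e, e2, norm_mul, Complex.norm_real, Real.norm_eq_abs, norm_mul, norm_mul, norm_mul, norm_mul,
    norm_mul, norm_pow, norm_pow, norm_pow, norm_pow, norm_pow]
  gcongr
  exact h3.trans (by gcongr)

theorem mem_al5 {a q p : ℕ} {y : L5} (h : y ∈ al5 a q p) :
    y.1.1 ∈ al a p ∧ y.1.2.1 ∈ al a p ∧ y.1.2.2 ≤ y.1.1.1 ∧ y.1.2.2 ≤ y.1.2.1.1 ∧
      y.2.1 ≤ mx y.1 ∧ y.2.2 < 2 := by
  simp only [al5, al3, mem_filter, mem_product, mem_range] at h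
  tauto

theorem card_al5 (a q p : ℕ) : (al5 a q p).card ≤ (al a p).card * ((al a p).card *
    (a.factorization p + 2)) * ((2 * a.factorization p + 3) * 2) := by
  refine (card_filter_le _ _).trans ?_
  rw [card_product, card_product, card_range, card_range]
  gcongr
  refine (card_filter_le _ _).trans ?_
  rw [card_product, card_product, card_range]

theorem dl_le (p α v : ℕ) (hp : 2 ≤ p) : |dl p α v| ≤ 2 := by
  have h2 : (2 : ℝ) ≤ p := by exact_mod_cast hp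
  have h3 : (1 : ℝ) / p ≤ 1 := by
    rw [div_le_one (by linarith)]
    linarith
  have h4 : (0 : ℝ) ≤ 1 / p := by positivity
  unfold dl
  rw [abs_le, neg_div]
  split_ifs <;> constructor <;> linarith

theorem dvd_case (a q p : ℕ) {X Y E E' W F G : ℂ} (hp : 2 ≤ p) (h : Rgm p X Y E E' W F G)
    (hd : p ∣ 30 * a) :
    ∑ y ∈ al5 a q p, ‖lt a p y X Y E E' W F G‖ ≤ ((p : ℝ) ^ (a.factorization p + 1)) ^ 26 := by
  have h2 : (2 : ℝ) ≤ p := by exact_mod_cast hp
  have hc := card_al5 a q p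
  have hal : al a p = range (a.factorization p + 2) ×ˢ {0} := if_pos hd
  set v := a.factorization p with hv
  set P : ℝ := (p : ℝ) ^ (v + 1) with hP
  have hP1 : (2 : ℝ) ^ (v + 1) ≤ P := by
    rw [hP]
    gcongr
  have hP2 : (v : ℝ) + 2 ≤ P := by
    refine le_trans ?_ hP1
    exact_mod_cast (Nat.lt_two_pow_self : v + 1 < 2 ^ (v + 1))
  have hv0 : (0 : ℝ) ≤ v := by positivity
  have hP3 : 2 ≤ P := by linarith
  have hP4 : 2 * (v : ℝ) + 3 ≤ P ^ 2 := by nlinarith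
  have ht : ∀ y ∈ al5 a q p, ‖lt a p y X Y E E' W F G‖ ≤ P ^ 20 := by
    intro y hy
    obtain ⟨a1, a2, a3, -, a5, a6⟩ := mem_al5 hy
    simp only [hal, mem_product, mem_range] at a1 a2
    have hm : mx y.1 ≤ 2 * (v + 1) := by
      unfold mx
      omega
    have hm' : (mx y.1 : ℝ) + 1 ≤ P ^ 2 := by
      refine le_trans ?_ hP4
      exact_mod_cast (by omega : mx y.1 + 1 ≤ 2 * v + 3)
    have hu : |u3 a p y.1| ≤ P * P * P := by
      unfold u3 uu
      rw [if_pos hd, if_pos hd, abs_mul, abs_mul, abs_pow, Nat.abs_cast]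
      gcongr
      · exact (dl_le _ _ _ hp).trans hP3
      · exact (dl_le _ _ _ hp).trans hP3
      · exact pow_le_pow_right₀ (by linarith) (by omega)
    have h9 : (9 : ℝ) ^ mx y.1 ≤ P ^ 7 := by
      calc (9 : ℝ) ^ mx y.1 ≤ 9 ^ (2 * (v + 1)) := pow_le_pow_right₀ (by norm_num) hm
        _ ≤ (2 ^ 7) ^ (v + 1) := by
          rw [pow_mul]
          gcongr
          norm_num
        _ = (2 ^ (v + 1)) ^ 7 := by rw [← pow_mul, ← pow_mul, mul_comm]
        _ ≤ _ := by gcongr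
    have h8 : (144 : ℝ) ≤ P ^ 8 := le_trans (by norm_num) (pow_le_pow_left₀ (by norm_num) hP3 8)
    refine (lt_le a p y hp h a5 a6).trans ?_
    simp only [ke, if_pos hd, pow_zero, mul_one]
    calc _ ≤ P * P * P * (P ^ 7 * (P ^ 8 * P ^ 2)) := by gcongr
      _ = _ := by ring
  refine (sum_le_card_nsmul _ _ _ ht).trans ?_
  rw [nsmul_eq_mul]
  rw [hal, card_product, card_range, card_singleton, mul_one] at hc
  have hc' : ((al5 a q p).card : ℝ) ≤ (v + 2) * ((v + 2) * (v + 2)) * ((2 * v + 3) * 2) := by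
    exact_mod_cast hc
  calc _ ≤ P * (P * P) * (P ^ 2 * P) * P ^ 20 := by
        gcongr
        exact hc'.trans (by gcongr)
    _ = _ := by ring

theorem uu_le {a p : ℕ} (hp : 7 ≤ p) (hd : ¬ p ∣ 30 * a) (e : L2) :
    |uu a p e| ≤ 1 ∧ (e ≠ (0, 0) → |uu a p e| ≤ 3 / p) := by
  have h2 : (7 : ℝ) ≤ p := by exact_mod_cast hp
  have h3 : (3 : ℝ) / p ≤ 1 := by
    rw [div_le_one (by linarith)]
    linarith
  have h4 : (2 : ℝ) / (p - 1) ≤ 3 / p := by
    rw [div_le_div_iff₀ (by linarith) (by linarith)]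
    linarith
  have h5 : (1 : ℝ) / (p - 1) ≤ 2 / (p - 1) := div_le_div_of_nonneg_right (by norm_num) (by linarith)
  have h6 : (0 : ℝ) ≤ 1 / (p - 1) := div_nonneg (by norm_num) (by linarith)
  have key : e ≠ (0, 0) → |uu a p e| ≤ 3 / p := fun he => by
    unfold uu
    rw [if_neg hd, if_neg he, abs_le, neg_div]
    split_ifs <;> constructor <;> linarith
  refine ⟨?_, key⟩
  by_cases he : e = (0, 0)
  · simp [uu, hd, he]
  · exact (key he).trans h3

theorem special {p : ℕ} {X Y E E' W F G : ℂ} (hp : 7 ≤ p) (h : Rgm p X Y E E' W F G) :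
    ‖G * hl p 0 1 (0 = 0) X‖ ≤ 90 / p := by
  have h2 : (7 : ℝ) ≤ p := by exact_mod_cast hp
  have h0 : (p : ℂ) ≠ 0 := by exact_mod_cast (by omega : p ≠ 0)
  have e1 : ‖(p : ℂ) - 1‖ = p - 1 := by
    rw [show (p : ℂ) - 1 = ((p - 1 : ℝ) : ℂ) by push_cast; rfl, Complex.norm_real,
      Real.norm_of_nonneg (by linarith)]
  have h1 : (p : ℂ) - 1 ≠ 0 := norm_pos_iff.1 (by rw [e1]; linarith)
  have e : hl p 0 1 (0 = 0) X = (1 + p * X * (X - 2)) / (p * (p - 1)) := by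
    simp only [hl, one_ne_zero, if_false, if_true, Nat.cast_zero]
    field_simp
    ring
  have h3 : ‖1 + p * X * (X - 2)‖ ≤ 1 + p * ‖X‖ * (‖X‖ + 2) := by
    refine (norm_add_le _ _).trans ?_
    rw [norm_one, norm_mul, norm_mul, Complex.norm_natCast]
    gcongr
    exact (norm_sub_le _ _).trans_eq (by simp)
  rw [e, norm_mul, norm_div, norm_mul, e1, Complex.norm_natCast, ← mul_div_assoc,
    div_le_div_iff₀ (by nlinarith) (by linarith)]
  suffices H : ‖G‖ * ‖1 + p * X * (X - 2)‖ ≤ 90 * (p - 1) by nlinarith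
  rcases h.2.2.2.2.2 with ⟨h4, h5⟩ | ⟨h4, h5⟩
  · calc _ ≤ 3 * (1 + (p : ℝ) * 1 * (1 + 2)) := by
          gcongr
          exact h3.trans (by gcongr)
      _ ≤ _ := by linarith
  · have h6 : (3 : ℝ) / p ≤ 1 := by
      rw [div_le_one (by linarith)]
      linarith
    have h7 : √(p : ℝ) ≤ p - 1 := Real.sqrt_le_iff.2 ⟨by linarith, by nlinarith⟩
    calc _ ≤ 9 * ((p : ℝ) - 1) * (1 + p * (3 / p) * (1 + 2)) := by
          gcongr
          · linarith
          · exact h5.trans (by gcongr)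
          · exact h3.trans (by gcongr; linarith)
      _ = _ := by
          field_simp
          ring

theorem ndvd_case (a q p : ℕ) {X Y E E' W F G : ℂ} (hp : p.Prime) (h : Rgm p X Y E E' W F G)
    (hd : ¬ p ∣ 30 * a) :
    ∑ y ∈ al5 a q p, ‖lt a p y X Y E E' W F G‖ ≤ 1 + 108 * 2834352 / p := by
  have h7 : 7 ≤ p := by
    by_contra hc
    have h30 : ¬ p ∣ 30 := fun e => hd (e.mul_right a)
    have := hp.two_le
    interval_cases p <;> first | omega | (norm_num at hp)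
  have h2 : (7 : ℝ) ≤ p := by exact_mod_cast h7
  have hv : a.factorization p = 0 := Nat.factorization_eq_zero_of_not_dvd fun e => hd (e.mul_left _)
  have hal : al a p = {(0, 0), (1, 0), (0, 1)} := if_neg hd
  have hc := card_al5 a q p
  rw [hal, hv] at hc
  have hc' : ((al5 a q p).card : ℝ) ≤ 108 := by exact_mod_cast hc
  have hK : (0 : ℝ) ≤ 2834352 / p := by positivity
  have ht : ∀ y ∈ al5 a q p, ‖lt a p y X Y E E' W F G‖ ≤
      (if y = (((0, 0), (0, 0), 0), 0, 0) then 1 else 0) + 2834352 / p := by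
    rintro ⟨⟨e, e', i⟩, γ, ν⟩ hy
    obtain ⟨a1, a2, a3, a4, a5, a6⟩ := mem_al5 hy
    dsimp only at a1 a2 a3 a4 a5 a6
    by_cases h0 : e = (0, 0) ∧ e' = (0, 0)
    · obtain ⟨rfl, rfl⟩ := h0
      obtain rfl : i = 0 := Nat.le_zero.1 a3
      obtain rfl : γ = 0 := Nat.le_zero.1 a5
      obtain rfl | rfl : ν = 0 ∨ ν = 1 := by omega
      · simpa [lt, u3, uu, ke, mx, hl, hd] using hK
      · have : lt a p (((0, 0), (0, 0), 0), 0, 1) X Y E E' W F G = G * hl p 0 1 (0 = 0) X := by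
          simp [lt, u3, uu, ke, mx, hd]
        rw [this, if_neg (by simp), zero_add]
        exact (special h7 h).trans (by gcongr; norm_num)
    · have hk : ∀ e ∈ al a p, e.1 ≤ 1 ∧ ke a p e ≤ 1 := fun e he => by
        simp only [hal, mem_insert, mem_singleton] at he
        rcases he with rfl | rfl | rfl <;> simp [ke, hd]
      obtain ⟨b1, b2⟩ := hk e a1
      obtain ⟨b3, b4⟩ := hk e' a2
      obtain ⟨c1, c2⟩ := uu_le h7 hd e
      obtain ⟨c3, c4⟩ := uu_le h7 hd e'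
      have hm : mx (e, e', i) ≤ 2 := by
        simp only [mx]
        omega
      have hm' : (mx (e, e', i) : ℝ) ≤ 2 := by exact_mod_cast hm
      have hu : |u3 a p (e, e', i)| ≤ 9 / p := by
        simp only [u3]
        rw [abs_mul, abs_mul, abs_pow, Nat.abs_cast]
        have h39 : (3 : ℝ) / p ≤ 9 / p := by gcongr; norm_num
        obtain rfl | rfl : i = 0 ∨ i = 1 := by omega
        · rw [pow_zero, mul_one]
          rcases not_and_or.1 h0 with h1 | h1
          · exact (mul_le_of_le_one_right (abs_nonneg _) c3).trans ((c2 h1).trans h39)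
          · exact (mul_le_of_le_one_left (abs_nonneg _) c1).trans ((c4 h1).trans h39)
        · have d1 := c2 (by rintro rfl; simp at a3)
          have d2 := c4 (by rintro rfl; simp at a4)
          calc _ ≤ 3 / p * (3 / p) * (p : ℝ) ^ 1 := by gcongr
            _ = _ := by
              field_simp
              ring
      refine (lt_le a p _ hp.two_le h a5 a6).trans (le_add_of_nonneg_of_le (by positivity) ?_)
      dsimp only
      calc _ ≤ 9 / (p : ℝ) * (9 ^ 2 * (144 * (2 + 1)) * 3 ^ 1 * 3 ^ 1) := by gcongr <;> norm_num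
        _ = _ := by ring
  refine (sum_le_sum ht).trans ?_
  rw [sum_add_distrib, sum_const, nsmul_eq_mul, sum_ite_eq', mul_div_assoc]
  gcongr
  split_ifs <;> norm_num

end LocAA

theorem locA : LocA :=
  ⟨108 * 2834352, 26, by norm_num, fun a q p X Y E E' W F G hp h => by
    split_ifs with hd
    · exact LocAA.dvd_case a q p hp.two_le h hd
    · exact LocAA.ndvd_case a q p hp h hd⟩

end Pool.Agent.MP_20b2fd_nt.H38
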