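import Pool.Agent.MP_20b2fd_nt.H38.SpecC

/-! The major arc part of the shifted sum as a derivative. -/

set_option autoImplicit false

namespace Pool.Agent.MP_20b2fd_nt.H38

open MeasureTheory Complex Finset Filter Topology ArithmeticFunction
open scoped Real

namespace LwA

theorem far (R : ℝ) {N m : ℕ} (hN : 1 ≤ N) (hm : 1 ≤ m) :
    ∃ H : Finset ℤ, ∀ h ∉ H, R ≤ |(h : ℝ) * N / m| := by
  refine ⟨Icc (-⌈R * m⌉) ⌈R * m⌉, fun h hh => ?_⟩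
  have h1 : ⌈R * m⌉ ≤ |h| := by
    rw [mem_Icc, ← abs_le, not_le] at hh
    exact hh.le
  have h2 : R * m ≤ |(h : ℝ)| := by exact_mod_cast Int.ceil_le.1 h1
  have h3 : (0 : ℝ) < m := by exact_mod_cast hm
  have h4 : (1 : ℝ) ≤ N := by exact_mod_cast hN
  rw [abs_div, abs_mul, Nat.abs_cast, Nat.abs_cast, le_div_iff₀ h3]
  exact h2.trans (le_mul_of_one_le_right (abs_nonneg _) h4)

theorem lw_eq (z : ℝ) (Φ : ℕ → ℝ) {k : ℝ → ℝ} {N m : ℕ} (hm : 1 ≤ m) {H : Finset ℤ}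
    (hH : ∀ h ∉ H, k ((h : ℝ) * N / m) = 0) (w : ℂ) :
    lw z Φ k N w m = ∑ h ∈ H, ((tau h.natAbs * k (h * N / m) : ℝ) : ℂ) *
      ∑ q ∈ Icc 1 ⌊z⌋₊, ((Φ q * cq q (m + h * N) / q : ℝ) : ℂ) *
        exp (((Real.log m - 2 * Real.log q : ℝ) : ℂ) * w) := by
  rw [lw, tsum_eq_sum (s := H) fun h hh => by simp [hH h hh]]
  refine sum_congr rfl fun h _ => ?_
  rw [mul_sum]
  refine congrArg _ (sum_congr rfl fun q hq => ?_)
  have h1 : (m : ℂ) ≠ 0 := Nat.cast_ne_zero.2 (by omega)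
  have h2 : (q : ℂ) ≠ 0 := Nat.cast_ne_zero.2 (by have := (mem_Icc.1 hq).1; omega)
  rw [cpow_def_of_ne_zero h1, cpow_def_of_ne_zero h2, ← natCast_log, ← natCast_log,
    show ((Real.log m - 2 * Real.log q : ℝ) : ℂ) * w =
      (Real.log m : ℂ) * w + (Real.log q : ℂ) * (-2 * w) by push_cast; ring, Complex.exp_add]
  push_cast
  ring

theorem lw_deriv (z : ℝ) (Φ : ℕ → ℝ) {k : ℝ → ℝ} {N m : ℕ} (hm : 1 ≤ m) {H : Finset ℤ}
    (hH : ∀ h ∉ H, k ((h : ℝ) * N / m) = 0) (w : ℂ) :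
    HasDerivAt (fun w => lw z Φ k N w m) (∑ h ∈ H, ((tau h.natAbs * k (h * N / m) : ℝ) : ℂ) *
      ∑ q ∈ Icc 1 ⌊z⌋₊, ((Φ q * cq q (m + h * N) / q : ℝ) : ℂ) *
        (exp (((Real.log m - 2 * Real.log q : ℝ) : ℂ) * w) *
          ((Real.log m - 2 * Real.log q : ℝ) : ℂ))) w := by
  rw [funext (lw_eq z Φ hm hH)]
  refine HasDerivAt.fun_sum fun h _ => (HasDerivAt.fun_sum fun q _ => ?_).const_mul _
  simpa using (((hasDerivAt_id w).const_mul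
    ((Real.log m - 2 * Real.log q : ℝ) : ℂ)).cexp).const_mul ((Φ q * cq q (m + h * N) / q : ℝ) : ℂ)

theorem term (z η : ℝ) (Φ : ℕ → ℝ) (K : ℝ → ℝ) (N : ℕ) {m : ℕ} (hm : 1 ≤ m) (h : ℤ) :
    kc1 η K (h * N / m) * ts z Φ (m + h * N) =
      kc1 η K (h * N / m) * ∑ q ∈ Icc 1 ⌊z⌋₊, Φ q * cq q (m + h * N) / q *
        (Real.log m - 2 * Real.log q) +
      kc2 η K (h * N / m) * ∑ q ∈ Icc 1 ⌊z⌋₊, Φ q * cq q (m + h * N) / q := by
  have h3 : (0 : ℝ) < m := by exact_mod_cast hm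
  by_cases h0 : (h : ℝ) * N / m = -1
  · simp [kc2, kc1, chi0, h0]
  have h1 : 1 + (h : ℝ) * N / m ≠ 0 := fun e => h0 (by linarith)
  have h2 : Real.log |((m + h * N : ℤ) : ℝ)| = Real.log m + Real.log |1 + (h : ℝ) * N / m| := by
    rw [← Real.log_mul h3.ne' (abs_ne_zero.2 h1),
      show ((m + h * N : ℤ) : ℝ) = m * (1 + (h : ℝ) * N / m) by push_cast; field_simp,
      abs_mul, abs_of_pos h3]
  rw [kc2, mul_assoc, ← mul_add, ts, h2]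
  congr 1
  rw [mul_sum, ← sum_add_distrib]
  refine sum_congr rfl fun q _ => ?_
  ring

theorem point (z η R : ℝ) (Φ : ℕ → ℝ) {K : ℝ → ℝ} (hK : ∀ t, R ≤ |t| → K t = 0) {N m : ℕ}
    (hN : 1 ≤ N) (hm : 1 ≤ m) :
    (Od K N m : ℂ) = Od (fun t => K t - kc1 η K t) N m + dv z Φ (kc1 η K) N m +
      deriv (fun w => lw z Φ (kc1 η K) N w m) 0 + lw z Φ (kc2 η K) N 0 m := by
  obtain ⟨H, hH⟩ := far R hN hm
  have h0 : ∀ h ∉ H, K ((h : ℝ) * N / m) = 0 := fun h hh => hK _ (hH h hh)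
  have h1 : ∀ h ∉ H, kc1 η K ((h : ℝ) * N / m) = 0 := fun h hh => by rw [kc1, h0 h hh, zero_mul]
  have h2 : ∀ h ∉ H, kc2 η K ((h : ℝ) * N / m) = 0 := fun h hh => by rw [kc2, h1 h hh, zero_mul]
  rw [(lw_deriv z Φ hm h1 0).deriv, lw_eq z Φ hm h2, Od, Od, dv,
    tsum_eq_sum (s := H) fun h hh => by rw [h0 h hh, mul_zero],
    tsum_eq_sum (s := H) fun h hh => by rw [h0 h hh, h1 h hh, sub_zero, mul_zero],
    tsum_eq_sum (s := H) fun h hh => by rw [h1 h hh, mul_zero]]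
  simp only [mul_zero, Complex.exp_zero, mul_one, one_mul]
  norm_cast
  simp only [← sum_add_distrib]
  refine sum_congr rfl fun h _ => ?_
  have := term z η Φ K N hm h
  push_cast at this ⊢
  linear_combination tau h.natAbs * this

theorem pos (h1 : E1S) (h2 : SzS) {δ : ℝ} {N : ℕ} (hδ : 0 < δ) (hN : 2 ≤ N)
    (x : SS δ N → L3) {i j : ℕ × ℕ} (hi : i ∈ TR δ N) (hj : j ∈ TR δ N) :
    1 ≤ M3 x * nn i * nn j := by
  obtain ⟨a1, a2⟩ := h2.2 δ N hδ hN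
  exact Nat.mul_pos (Nat.mul_pos ((h1 _ a1).2.1 _).1 (a2 i hi).1) (a2 j hj).1

theorem ts_deriv (h1 : E1S) (h2 : SzS) {δ : ℝ} (a : ℕ) {N : ℕ} (hδ : 0 < δ) (hN : 2 ≤ N)
    {f : ℂ → ℕ → ℂ} {w : ℂ} (h : ∀ m, 1 ≤ m → DifferentiableAt ℂ (fun w => f w m) w) :
    HasDerivAt (fun w => TS δ a N (TR δ N) (f w))
      (TS δ a N (TR δ N) fun m => deriv (fun w => f w m) w) w :=
  HasDerivAt.fun_sum fun x _ => HasDerivAt.fun_sum fun _ hi => HasDerivAt.fun_sum fun _ hj =>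
    (h _ (pos h1 h2 hδ hN x hi hj)).hasDerivAt.const_mul _

theorem lw_diff (z : ℝ) (Φ : ℕ → ℝ) {k : ℝ → ℝ} {R : ℝ} (hk : ∀ t, R ≤ |t| → k t = 0) {N : ℕ}
    (hN : 1 ≤ N) (w : ℂ) (m : ℕ) (hm : 1 ≤ m) :
    DifferentiableAt ℂ (fun w => lw z Φ k N w m) w := by
  obtain ⟨H, hH⟩ := far R hN hm
  exact (lw_deriv z Φ hm (fun h hh => hk _ (hH h hh)) w).differentiableAt

end LwA

theorem lwOf : LwOf := by
  intro h1 h2 δ z a N Φ hδ hN
  refine ⟨fun k R hk w =>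
    (LwA.ts_deriv h1 h2 a hδ hN (LwA.lw_diff z Φ hk (by omega) w)).differentiableAt,
    fun K R η hK => ?_⟩
  rw [(LwA.ts_deriv h1 h2 a hδ hN (LwA.lw_diff z Φ (k := kc1 η K) (R := R)
    (fun t ht => by rw [kc1, hK t ht, zero_mul]) (by omega) 0)).deriv]
  simp only [TS, ← sum_add_distrib, ← mul_add]
  refine sum_congr rfl fun x _ => sum_congr rfl fun i hi => sum_congr rfl fun j hj => ?_
  rw [LwA.point z η R Φ hK (by omega) (LwA.pos h1 h2 hδ hN x hi hj)]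

end Pool.Agent.MP_20b2fd_nt.H38
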