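import Pool.Agent.MP_20b2fd_nt.H38.SpecC

/-! The local factor vanishes at the primes that divide `30 a`. -/

set_option autoImplicit false

namespace Pool.Agent.MP_20b2fd_nt.H38

open Finset

namespace LzA

theorem tel {p : ℂ} (hp : p ≠ 0) (μ : ℕ) :
    ∑ γ ∈ range (μ + 1), p ^ (μ - γ) * ((γ : ℂ) + 1 - γ * (1 / p)) + (μ + 1) / p =
      (1 + 1 / p) * ∑ i ∈ range (μ + 1), p ^ i := by
  induction μ with
  | zero => simp
  | succ μ ih =>
    have h1 : ∑ γ ∈ range (μ + 1), p ^ (μ + 1 - γ) * ((γ : ℂ) + 1 - γ * (1 / p)) =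
        p * ∑ γ ∈ range (μ + 1), p ^ (μ - γ) * ((γ : ℂ) + 1 - γ * (1 / p)) := by
      rw [mul_sum]
      refine sum_congr rfl fun γ hγ => ?_
      rw [Nat.sub_add_comm (Nat.lt_succ_iff.1 (mem_range.1 hγ)), pow_succ]
      ring
    have h2 : ∑ i ∈ range (μ + 1 + 1), p ^ i = p * ∑ i ∈ range (μ + 1), p ^ i + 1 := by
      rw [sum_range_succ', mul_sum]
      simp only [pow_succ', pow_zero]
    rw [sum_range_succ, h1, h2, eq_sub_of_add_eq ih, Nat.sub_self]
    push_cast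
    field_simp
    ring

theorem sig_pow {p : ℕ} (hp : p.Prime) (μ : ℕ) :
    ((sig (p ^ μ) : ℝ) : ℂ) = ∑ i ∈ range (μ + 1), (p : ℂ) ^ i := by
  unfold sig
  rw [Nat.sum_divisors_prime_pow hp]
  push_cast
  rfl

theorem inner {p : ℕ} (hp : p.Prime) (μ n : ℕ) (hn : μ < n) :
    ∑ γ ∈ range n, ∑ ν ∈ range 2,
      (if γ ≤ μ then (p : ℂ) ^ (μ - γ) * hl p γ ν (γ = μ) (1 / p) else 0) =
      (1 - 1 / (p : ℂ) ^ 2) * (sig (p ^ μ) : ℝ) := by
  have hp0 : (p : ℂ) ≠ 0 := Nat.cast_ne_zero.2 hp.ne_zero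
  have hp1 : (p : ℂ) - 1 ≠ 0 := sub_ne_zero.2 (by exact_mod_cast hp.ne_one)
  have h1 : ∀ γ ∈ range (μ + 1), ∑ ν ∈ range 2,
      (if γ ≤ μ then (p : ℂ) ^ (μ - γ) * hl p γ ν (γ = μ) (1 / p) else 0) =
      (1 - 1 / (p : ℂ)) * ((p : ℂ) ^ (μ - γ) * ((γ : ℂ) + 1 - γ * (1 / p))) +
        if γ = μ then (1 - 1 / (p : ℂ)) * ((μ + 1) / p) else 0 := by
    intro γ hγ
    have h2 : γ ≤ μ := Nat.lt_succ_iff.1 (mem_range.1 hγ)
    rw [sum_range_succ, sum_range_one, if_pos h2, if_pos h2]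
    unfold hl
    rw [if_pos rfl, if_neg one_ne_zero]
    by_cases h3 : γ = μ
    · rw [if_pos h3, if_pos h3, h3, Nat.sub_self]
      field_simp
      ring
    · rw [if_neg h3, if_neg h3]
      field_simp
      ring
  rw [← sum_subset (range_subset_range.2 hn : range (μ + 1) ⊆ range n) (fun γ _ hγ => by
    have h2 : ¬ γ ≤ μ := fun h => hγ (mem_range.2 (Nat.lt_succ_of_le h))
    simp [h2]), sum_congr rfl h1, sum_add_distrib, sum_ite_eq', if_pos (self_mem_range_succ μ),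
    ← mul_sum, ← mul_add, tel hp0, sig_pow hp]
  ring

theorem hecke (hH : HbS) {p : ℕ} (hp : p.Prime) (α β n : ℕ) (hn : α < n) :
    ∑ i ∈ range n, (if i ≤ α ∧ i ≤ β then (p : ℝ) ^ i * sig (p ^ (α + β - 2 * i)) else 0) =
      sig (p ^ α) * sig (p ^ β) := by
  have hg : (p ^ α).gcd (p ^ β) = p ^ min α β := by
    rcases le_total α β with h | h
    · rw [min_eq_left h, Nat.gcd_eq_left (pow_dvd_pow p h)]
    · rw [min_eq_right h, Nat.gcd_eq_right (pow_dvd_pow p h)]
  rw [hH.2.2.1 _ _ (Nat.one_le_pow _ _ hp.pos) (Nat.one_le_pow _ _ hp.pos), Bh, hg,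
    Nat.sum_divisors_prime_pow hp, ← sum_filter]
  have h1 : (range n).filter (fun i => i ≤ α ∧ i ≤ β) = range (min α β + 1) := by
    ext i
    simp only [mem_filter, mem_range]
    omega
  rw [h1]
  refine sum_congr rfl fun i hi => ?_
  have h2 := mem_range.1 hi
  rw [← pow_add, ← pow_mul, Nat.pow_div (by omega) hp.pos, mul_comm i 2, Nat.cast_pow]

theorem outer (hH : HbS) (hD : DlS) {a p : ℕ} (hp : p.Prime) (h : p ∣ 30 * a) :
    ∑ x ∈ al3 a p, u3 a p x * sig (p ^ mx x) = 0 := by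
  unfold al3 al
  rw [if_pos h, sum_filter, sum_product, sum_product]
  have h1 : ∀ α ∈ range (a.factorization p + 2), ∑ e ∈ ({0} : Finset ℕ),
      ∑ y ∈ (range (a.factorization p + 2) ×ˢ ({0} : Finset ℕ)) ×ˢ range (a.factorization p + 2),
      (if ((α, e), y).2.2 ≤ ((α, e), y).1.1 ∧ ((α, e), y).2.2 ≤ ((α, e), y).2.1.1 then
        u3 a p ((α, e), y) * sig (p ^ mx ((α, e), y)) else 0) = 0 := by
    intro α hα
    rw [sum_singleton, sum_product, sum_product]
    simp only [sum_singleton]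
    have h2 := hD.1 p (a.factorization p) hp
    have h3 := congrArg (dl p (a.factorization p) α * sig (p ^ α) * ·) h2
    simp only [mul_zero, mul_sum] at h3
    refine Eq.trans (sum_congr rfl fun β _ => ?_) h3
    rw [mul_mul_mul_comm, ← hecke hH hp α β _ (mem_range.1 hα), mul_sum]
    refine sum_congr rfl fun i _ => ?_
    simp only [u3, uu, if_pos h, mx]
    split_ifs
    · ring
    · rw [mul_zero]
  exact sum_eq_zero h1

end LzA

theorem lzOf : LzOf := by
  intro hH hD a p E E' hp h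
  have h1 : ∀ x ∈ al3 a p, ∑ y ∈ range (2 * a.factorization p + 3) ×ˢ range 2,
      (if (x, y).2.1 ≤ mx (x, y).1 ∧ (p ∣ 1 → (x, y).2.2 = 0) then
        lt a p (x, y) (1 / p) p E E' 1 1 1 else 0) =
      (1 - 1 / (p : ℂ) ^ 2) * ((u3 a p x * sig (p ^ mx x) : ℝ) : ℂ) := by
    intro x hx
    have h2 : mx x < 2 * a.factorization p + 3 := by
      unfold al3 al at hx
      simp only [if_pos h, mem_filter, mem_product, mem_range] at hx
      unfold mx
      omega
    rw [Complex.ofReal_mul, mul_left_comm, ← LzA.inner hp _ _ h2, sum_product, mul_sum]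
    refine sum_congr rfl fun γ _ => ?_
    rw [mul_sum]
    refine sum_congr rfl fun ν _ => ?_
    simp only [lt, ke, if_pos h, hp.not_dvd_one, false_imp_iff, and_true, one_pow, pow_zero, mul_one]
    split_ifs
    · ring
    · rw [mul_zero]
  unfold Loc al5
  rw [sum_filter, sum_product, sum_congr rfl h1, ← mul_sum, ← Complex.ofReal_sum,
    LzA.outer hH hD hp h, Complex.ofReal_zero, mul_zero]

end Pool.Agent.MP_20b2fd_nt.H38
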