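import Pool.Agent.MP_20b2fd_nt.H38.SpecC

/-! Uniform bounds for the Mellin transforms of the kernels. -/

set_option autoImplicit false

namespace Pool.Agent.MP_20b2fd_nt.H38

open Set Filter Topology MeasureTheory

namespace Mel3A

theorem mv {F : ℝ → ℂ} {Ω : ℝ → ℝ} {a b : ℝ} (hab : a ≤ b)
    (h : ∀ x ∈ Icc a b, ∃ u v, HasDerivAt F u x ∧ HasDerivAt Ω v x ∧ ‖u‖ ≤ v) :
    ‖F b - F a‖ ≤ Ω b - Ω a := by
  choose! u v h1 h2 h3 using h
  exact image_norm_le_of_norm_deriv_right_le_deriv_boundary' (f := fun x => F x - F a) (f' := u)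
    (B := fun x => Ω x - Ω a) (B' := v)
    (fun x hx => ((h1 x hx).sub_const _).continuousAt.continuousWithinAt)
    (fun x hx => ((h1 x (Ico_subset_Icc_self hx)).sub_const _).hasDerivWithinAt) (by simp)
    (fun x hx => ((h2 x hx).sub_const _).continuousAt.continuousWithinAt)
    (fun x hx => ((h2 x (Ico_subset_Icc_self hx)).sub_const _).hasDerivWithinAt)
    (fun x hx => h3 x (Ico_subset_Icc_self hx)) (right_mem_Icc.2 hab)

/-- the data -/
structure Ok (f f1 f2 : ℝ → ℝ) (P : ℝ → ℂ) (s : ℂ) (b T : ℝ) : Prop where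
  s0 : 0 < s.re
  s1 : s.re ≤ 1
  T2 : 2 ≤ T
  b0 : 0 ≤ b
  d1 : ∀ x, 0 < x → HasDerivAt f (f1 x) x
  d2 : ∀ x, 0 < x → HasDerivAt f1 (f2 x) x
  dP : ∀ x : ℝ, 0 < x → HasDerivAt P ((x : ℂ) ^ (s - 1) * f x) x
  P0 : Tendsto P (𝓝[>] 0) (𝓝 0)
  z0 : f T = 0
  z1 : f1 T = 0
  sm : ∀ x, 0 < x → x ≤ 1 / 2 → |f x| ≤ b * (1 + |Real.log x|) ∧ |x * f1 x| ≤ b ∧
    |x * f1 x + x ^ 2 * f2 x| ≤ b * √x
  bg : ∀ x, 1 / 2 ≤ x → x ≠ 1 → |f1 x| ≤ b * (1 + 1 / |x - 1|) ∧ |f2 x| ≤ b * (1 + 1 / (x - 1) ^ 2)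
  sy : ∀ r, 0 < r → r ≤ 1 / 4 → |f (1 + r) - f (1 - r)| ≤ b

variable {f f1 f2 : ℝ → ℝ} {P : ℝ → ℂ} {s : ℂ} {b T : ℝ}

theorem Ok.ne (h : Ok f f1 f2 P s b T) : s ≠ 0 := fun e => by simpa [e] using h.s0

theorem Ok.pw (h : Ok f f1 f2 P s b T) {x : ℝ} (h0 : 0 < x) (h1 : x ≤ T) : ‖(x : ℂ) ^ s‖ ≤ T := by
  rw [Complex.norm_cpow_eq_rpow_re_of_pos h0]
  rcases le_total x 1 with k | k
  · linarith [Real.rpow_le_one h0.le k h.s0.le, h.T2]
  · exact ((Real.rpow_le_rpow_of_exponent_le k h.s1).trans_eq (Real.rpow_one x)).trans h1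

theorem Ok.pw1 (h : Ok f f1 f2 P s b T) {x : ℝ} (hx : 1 / 2 ≤ x) :
    ‖(x : ℂ) ^ s - 1‖ ≤ 2 * ‖s‖ * |x - 1| := by
  have := (convex_Ici (1 / 2 : ℝ)).norm_image_sub_le_of_norm_hasDerivWithin_le
    (f := fun y : ℝ => (y : ℂ) ^ s) (C := 2 * ‖s‖) (x := 1) (y := x)
    (fun y hy => (hasDerivAt_ofReal_cpow_const (by linarith [mem_Ici.1 hy]) h.ne).hasDerivWithinAt)
    (fun y hy => by
      have h1 := mem_Ici.1 hy
      rw [norm_mul, Complex.norm_cpow_eq_rpow_re_of_pos (by linarith), mul_comm]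
      refine mul_le_mul_of_nonneg_right ((Real.rpow_le_rpow_of_nonpos (by norm_num) h1
        (by simpa using h.s1)).trans ((Real.rpow_le_rpow_of_exponent_ge (z := -1) (by norm_num)
          (by norm_num) (by simpa using h.s0.le)).trans_eq ?_)) (norm_nonneg _)
      rw [Real.rpow_neg_one]
      norm_num) (by norm_num) hx
  simpa using this

theorem pw_eq {x : ℝ} (h0 : 0 < x) (s : ℂ) : (x : ℂ) ^ s = (x : ℂ) ^ (s - 1) * x := by
  rw [← sub_add_cancel s 1, Complex.cpow_add _ _ (by exact_mod_cast h0.ne')]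
  simp

/-- the first primitive -/
noncomputable def J (f : ℝ → ℝ) (P : ℝ → ℂ) (s : ℂ) (x : ℝ) : ℂ := s * P x - f x * (x ^ s - 1)

/-- the second primitive -/
noncomputable def H (f f1 : ℝ → ℝ) (P : ℝ → ℂ) (s : ℂ) (x : ℝ) : ℂ :=
  s * (J f P s x - f x) + x ^ s * (x * f1 x : ℝ)

theorem Ok.dJ (h : Ok f f1 f2 P s b T) {x : ℝ} (h0 : 0 < x) :
    HasDerivAt (J f P s) (-(f1 x * ((x : ℂ) ^ s - 1))) x := by
  refine (((h.dP x h0).const_mul s).sub ((h.d1 x h0).ofReal_comp.mul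
    ((hasDerivAt_ofReal_cpow_const h0.ne' h.ne).sub_const 1))).congr_deriv ?_
  ring

theorem Ok.dH (h : Ok f f1 f2 P s b T) {x : ℝ} (h0 : 0 < x) :
    HasDerivAt (H f f1 P s) ((x : ℂ) ^ s * (f1 x + x * f2 x : ℝ)) x := by
  refine ((((h.dJ h0).sub (h.d1 x h0).ofReal_comp).const_mul s).add
    ((hasDerivAt_ofReal_cpow_const h0.ne' h.ne).mul
      ((hasDerivAt_id x).mul (h.d2 x h0)).ofReal_comp)).congr_deriv ?_
  rw [pw_eq h0 s]
  simp only [id, Pi.mul_apply]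
  push_cast
  ring

theorem Ok.bJ (h : Ok f f1 f2 P s b T) {a c : ℝ} (h1 : 1 / 2 ≤ a) (h2 : a ≤ c) (h3 : c ≤ T) :
    ‖J f P s c - J f P s a‖ ≤ 2 * b * ‖s‖ * T * (c - a) := by
  refine (mv (Ω := fun x => 2 * b * ‖s‖ * T * x) h2 fun x hx => ⟨_, _, h.dJ (by linarith [hx.1]),
    (hasDerivAt_id x).const_mul _, ?_⟩).trans_eq (by ring)
  have := h.b0
  have := h.T2
  by_cases e : x = 1
  · simp only [e, Complex.ofReal_one, Complex.one_cpow, sub_self, mul_zero, neg_zero, norm_zero]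
    positivity
  have h4 : 0 < |x - 1| := abs_pos.2 (sub_ne_zero.2 e)
  have h5 : |x - 1| + 1 ≤ T := by
    have := abs_le.2 (show -(T - 1) ≤ x - 1 ∧ x - 1 ≤ T - 1 from
      ⟨by linarith [hx.1], by linarith [hx.2]⟩)
    linarith
  rw [norm_neg, norm_mul, Complex.norm_real, Real.norm_eq_abs]
  calc _ ≤ b * (1 + 1 / |x - 1|) * (2 * ‖s‖ * |x - 1|) :=
        mul_le_mul (h.bg x (h1.trans hx.1) e).1 (h.pw1 (h1.trans hx.1)) (norm_nonneg _)
          (by positivity)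
    _ = 2 * b * ‖s‖ * (|x - 1| + 1) := by field_simp
    _ ≤ _ := by rw [mul_one]; gcongr

theorem Ok.bH (h : Ok f f1 f2 P s b T) {a c : ℝ} (h1 : 1 / 2 ≤ a) (h2 : a ≤ c) (h3 : c ≤ T)
    (h4 : c < 1 ∨ 1 < a) : ‖H f f1 P s c - H f f1 P s a‖ ≤
      3 * T ^ 2 * b * (c - (c - 1)⁻¹) - 3 * T ^ 2 * b * (a - (a - 1)⁻¹) := by
  refine mv (Ω := fun x => 3 * T ^ 2 * b * (x - (x - 1)⁻¹)) h2 fun x hx => ?_
  have e : x ≠ 1 := by rintro rfl; rcases h4 with k | k <;> linarith [hx.1, hx.2]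
  have x0 : 0 < x := by linarith [hx.1]
  refine ⟨_, _, h.dH x0, ((hasDerivAt_id x).sub
    (((hasDerivAt_id x).sub_const 1).inv (sub_ne_zero.2 e))).const_mul _, ?_⟩
  obtain ⟨k1, k2⟩ := h.bg x (h1.trans hx.1) e
  have := h.b0
  have := h.T2
  have k3 : 1 + 1 / |x - 1| ≤ 2 * (1 + 1 / (x - 1) ^ 2) := by
    rw [← sq_abs, ← one_div_pow]
    nlinarith [sq_nonneg (1 / |x - 1| - 1), sq_nonneg (1 / |x - 1|)]
  have k4 : |f1 x + x * f2 x| ≤ 3 * T * b * (1 + 1 / (x - 1) ^ 2) := by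
    refine (abs_add_le _ _).trans ?_
    rw [abs_mul, abs_of_pos x0]
    have a1 := mul_le_mul (hx.2.trans h3) k2 (abs_nonneg _) (by linarith)
    have a2 := mul_le_mul_of_nonneg_left k3 h.b0
    have a3 : 0 ≤ (T - 1) * (b * (1 + 1 / (x - 1) ^ 2)) := mul_nonneg (by linarith) (by positivity)
    linarith
  rw [norm_mul, Complex.norm_real, Real.norm_eq_abs]
  refine (mul_le_mul (h.pw x0 (hx.2.trans h3)) k4 (abs_nonneg _) (by linarith)).trans_eq ?_
  simp only [id]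
  ring

theorem sq_bd {F : ℝ → ℂ} (hb : 0 ≤ b) (hF : Tendsto F (𝓝[>] 0) (𝓝 0))
    (h : ∀ x, 0 < x → x ≤ 1 / 2 → ∃ u, HasDerivAt F u x ∧ ‖u‖ * x ≤ b * √x) :
    ‖F (1 / 2)‖ ≤ 2 * b := by
  have h1 : Tendsto (fun x => ‖F (1 / 2) - F x‖) (𝓝[>] 0) (𝓝 ‖F (1 / 2)‖) := by
    simpa using (hF.const_sub (F (1 / 2))).norm
  refine le_of_tendsto h1 ?_
  filter_upwards [Ioc_mem_nhdsGT (show (0 : ℝ) < 1 / 2 by norm_num)] with a ha
  refine (mv (Ω := fun x => 2 * b * √x) ha.2 fun x hx => ?_).trans ?_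
  · have x0 := ha.1.trans_le hx.1
    obtain ⟨u, k1, k2⟩ := h x x0 hx.2
    refine ⟨_, _, k1, (Real.hasDerivAt_sqrt x0.ne').const_mul _, ?_⟩
    have := Real.sqrt_pos.2 x0
    refine le_of_mul_le_mul_right (k2.trans_eq ?_) x0
    field_simp
    rw [Real.sq_sqrt x0.le]
  · have : √(1 / 2 : ℝ) ≤ 1 := Real.sqrt_le_one.2 (by norm_num)
    nlinarith [mul_nonneg hb (Real.sqrt_nonneg a)]

theorem Ok.H0 (h : Ok f f1 f2 P s b T) : Tendsto (H f f1 P s) (𝓝[>] 0) (𝓝 0) := by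
  have h1 : Tendsto (fun x : ℝ => x ^ s.re) (𝓝[>] 0) (𝓝 0) := by
    have := (Real.continuousAt_rpow_const 0 s.re (.inr h.s0.le)).tendsto
    rw [Real.zero_rpow h.s0.ne'] at this
    exact this.mono_left nhdsWithin_le_nhds
  have h2 := (tendsto_log_mul_rpow_nhdsGT_zero h.s0).abs
  have h3 : ∀ g : ℝ → ℝ, (∀ x, 0 < x → x ≤ 1 / 2 → |g x| ≤ b * (1 + |Real.log x|)) →
      Tendsto (fun x : ℝ => (x : ℂ) ^ s * g x) (𝓝[>] 0) (𝓝 0) := fun g hg => by
    refine squeeze_zero_norm' ?_ (by simpa using (h1.add h2).const_mul b)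
    filter_upwards [Ioc_mem_nhdsGT (show (0 : ℝ) < 1 / 2 by norm_num)] with a ha
    have := Real.rpow_pos_of_pos ha.1 s.re
    rw [norm_mul, Complex.norm_cpow_eq_rpow_re_of_pos ha.1, Complex.norm_real, Real.norm_eq_abs,
      abs_of_pos this]
    exact (mul_le_mul_of_nonneg_left (hg a ha.1 ha.2) this.le).trans_eq (by ring)
  have h4 := ((h.P0.const_mul (s ^ 2)).sub ((h3 f fun x a c => (h.sm x a c).1).const_mul s)).add
    (h3 (fun x => x * f1 x) fun x a c => (h.sm x a c).2.1.trans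
      (le_mul_of_one_le_right h.b0 (le_add_of_nonneg_right (abs_nonneg _))))
  rw [mul_zero, mul_zero, sub_zero, add_zero] at h4
  exact h4.congr fun x => by simp only [H, J]; ring

theorem Ok.main (h : Ok f f1 f2 P s b T) : ‖s‖ ^ 2 * ‖P T‖ ≤ 40 * b * T ^ 3 * (1 + ‖s‖) := by
  have b0 := h.b0
  have T2 := h.T2
  have s0 := norm_nonneg s
  obtain ⟨r, hr⟩ : ∃ r : ℝ, r = (4 + ‖s‖)⁻¹ := ⟨_, rfl⟩
  have r0 : 0 < r := by rw [hr]; positivity
  have r1 : r⁻¹ = 4 + ‖s‖ := by rw [hr, inv_inv]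
  have r2 : r * (4 + ‖s‖) = 1 := by rw [← r1, mul_inv_cancel₀ r0.ne']
  have r3 : r ≤ 1 / 4 := by nlinarith
  have a1 := sq_bd h.b0 h.H0 fun x x0 x1 => ⟨_, h.dH x0, by
    rw [norm_mul, Complex.norm_real, Real.norm_eq_abs, Complex.norm_cpow_eq_rpow_re_of_pos x0,
      mul_assoc]
    refine (mul_le_of_le_one_left (by positivity)
      (Real.rpow_le_one x0.le (by linarith) h.s0.le)).trans (le_of_eq_of_le ?_ (h.sm x x0 x1).2.2)
    rw [show x * f1 x + x ^ 2 * f2 x = (f1 x + x * f2 x) * x by ring, abs_mul, abs_of_pos x0]⟩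
  have a2 := h.bH (a := 1 / 2) (c := 1 - r) le_rfl (by linarith) (by linarith) (.inl (by linarith))
  have a3 := h.bH (a := 1 + r) (c := T) (by linarith) (by linarith) le_rfl (.inr (by linarith))
  have a4 := h.bJ (a := 1 - r) (c := 1 + r) (by linarith) (by linarith) (by linarith)
  have a5 : ∀ x : ℝ, |x - 1| = r → ‖(x : ℂ) ^ s * (x * f1 x : ℝ)‖ ≤ T * (T * (b * (5 + ‖s‖))) :=
    fun x hx => by
    obtain ⟨k1, k2⟩ := abs_le.1 (hx.le.trans r3)
    have x0 : 0 < x := by linarith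
    have k3 := (h.bg x (by linarith) fun e => by simp [e, r0.ne] at hx).1
    rw [hx, one_div, r1, show 1 + (4 + ‖s‖) = 5 + ‖s‖ by ring] at k3
    rw [norm_mul, Complex.norm_real, Real.norm_eq_abs, abs_mul, abs_of_pos x0]
    exact mul_le_mul (h.pw x0 (by linarith)) (mul_le_mul (by linarith) k3 (abs_nonneg _)
      (by linarith)) (by positivity) (by linarith)
  have a6 : ‖H f f1 P s (1 + r) - H f f1 P s (1 - r)‖ ≤
      ‖s‖ * (4 * b * T + b) + 2 * (T * (T * (b * (5 + ‖s‖)))) := by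
    have e : H f f1 P s (1 + r) - H f f1 P s (1 - r) = s * (J f P s (1 + r) - J f P s (1 - r) -
        (f (1 + r) - f (1 - r) : ℝ)) + (((1 + r : ℝ) : ℂ) ^ s * ((1 + r) * f1 (1 + r) : ℝ) -
          ((1 - r : ℝ) : ℂ) ^ s * ((1 - r) * f1 (1 - r) : ℝ)) := by
      simp only [H, Complex.ofReal_sub (f _)]
      ring
    rw [e, two_mul]
    refine (norm_add_le _ _).trans (add_le_add ?_ ((norm_sub_le _ _).trans (add_le_add
      (a5 _ (by simp [r0.le])) (a5 _ (by simp [r0.le])))))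
    rw [norm_mul]
    refine mul_le_mul_of_nonneg_left ((norm_sub_le _ _).trans (add_le_add (a4.trans ?_) ?_)) s0
    · have : 0 ≤ b * T * (1 - r * ‖s‖) := mul_nonneg (by positivity) (by nlinarith)
      linarith
    · rw [Complex.norm_real, Real.norm_eq_abs]
      exact h.sy r r0 r3
  have a7 : H f f1 P s T = s ^ 2 * P T := by
    simp only [H, J, h.z0, h.z1]
    push_cast
    ring
  rw [← norm_pow, ← norm_mul, ← a7]
  have a8 := norm_sub_norm_le (H f f1 P s T) (H f f1 P s (1 + r))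
  have a9 := norm_sub_norm_le (H f f1 P s (1 + r)) (H f f1 P s (1 - r))
  have a10 := norm_sub_norm_le (H f f1 P s (1 - r)) (H f f1 P s (1 / 2))
  rw [show 1 - r - 1 = -r by ring, inv_neg, r1] at a2
  rw [add_sub_cancel_left, r1] at a3
  have c1 : 0 ≤ T ^ 2 * b * (T - 1)⁻¹ := by
    have : 0 < T - 1 := by linarith
    positivity
  have c2 : 0 ≤ T ^ 2 * b * r := by positivity
  have c3 : 0 ≤ b * T ^ 2 * (T - 2) * (1 + ‖s‖) := by
    have : 0 ≤ T - 2 := by linarith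
    positivity
  have c4 : 0 ≤ b * (T ^ 2 - T) * ‖s‖ := mul_nonneg (mul_nonneg b0 (by nlinarith)) s0
  have c5 : 0 ≤ b * (T ^ 2 - 1) * (1 + ‖s‖) := mul_nonneg (mul_nonneg b0 (by nlinarith)) (by linarith)
  have c6 : 0 ≤ b * T ^ 3 * ‖s‖ := by positivity
  have c7 : 0 ≤ b * T ^ 2 * ‖s‖ := by positivity
  have c8 : 0 ≤ b * T ^ 2 := by positivity
  have c9 : 0 ≤ b * ‖s‖ := by positivity
  norm_num at a2
  linarith

theorem Ok.odd (h : Ok f f1 f2 P s b T) (ho : ∀ x, 0 < x → x ≤ 1 / 2 → |f x| ≤ b * √x) :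
    ‖P T‖ ≤ 3 * b * T ^ 2 := by
  have b0 := h.b0
  have T2 := h.T2
  have s0 := norm_pos_iff.2 h.ne
  have a1 := sq_bd h.b0 h.P0 fun x x0 x1 => ⟨_, h.dP x x0, by
    have := congrArg norm (pw_eq x0 s)
    rw [norm_mul, Complex.norm_real, Real.norm_of_nonneg x0.le] at this
    rw [norm_mul, mul_right_comm, ← this, Complex.norm_real, Real.norm_eq_abs,
      Complex.norm_cpow_eq_rpow_re_of_pos x0]
    exact (mul_le_of_le_one_left (abs_nonneg _)
      (Real.rpow_le_one x0.le (by linarith) h.s0.le)).trans (ho x x0 x1)⟩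
  have a2 := h.bJ (a := 1 / 2) (c := T) le_rfl (by linarith) le_rfl
  have a3 : ‖(f (1 / 2) : ℂ) * (((1 / 2 : ℝ) : ℂ) ^ s - 1)‖ ≤ b * ‖s‖ := by
    rw [norm_mul, Complex.norm_real, Real.norm_eq_abs]
    refine mul_le_mul ((ho _ (by norm_num) le_rfl).trans (mul_le_of_le_one_right b0
      (Real.sqrt_le_one.2 (by norm_num)))) ((h.pw1 le_rfl).trans_eq ?_) (norm_nonneg _) b0
    norm_num [abs_of_pos]
    ring
  have a4 : s * (P T - P (1 / 2)) = J f P s T - J f P s (1 / 2) -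
      (f (1 / 2) : ℂ) * (((1 / 2 : ℝ) : ℂ) ^ s - 1) := by
    simp only [J, h.z0, Complex.ofReal_zero]
    ring
  have a5 : ‖P T - P (1 / 2)‖ ≤ 2 * b * T * (T - 1 / 2) + b := by
    refine le_of_mul_le_mul_left ?_ s0
    rw [← norm_mul, a4]
    exact ((norm_sub_le _ _).trans (add_le_add a2 a3)).trans_eq (by ring)
  have a6 := norm_sub_norm_le (P T) (P (1 / 2))
  have c1 : 0 ≤ b * (T ^ 2 - 3) := mul_nonneg b0 (by nlinarith)
  have c2 : 0 ≤ b * T := by positivity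
  linarith

theorem mn_pos {t : ℝ} (h : 1 / 2 ≤ t) : 1 / 2 ≤ mn t ∧ mn t ≤ 1 :=
  ⟨le_min (by norm_num) (le_min (h.trans (le_abs_self _)) (by
    rw [abs_of_pos] <;> linarith)), min_le_left _ _⟩

theorem mn_sm {t : ℝ} (h : |t| ≤ 1 / 2) : mn t = |t| := by
  obtain ⟨h1, h2⟩ := abs_le.1 h
  rw [mn, min_eq_left (a := |t|) (h.trans (by rw [abs_of_pos (a := 1 + t)] <;> linarith)),
    min_eq_right (by linarith)]

theorem mn_neg {x : ℝ} (h : 1 / 2 ≤ x) (e : x ≠ 1) :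
    1 / mn (-x) ≤ 2 + 1 / |x - 1| ∧ 1 / mn (-x) ^ 2 ≤ 4 + 1 / (x - 1) ^ 2 := by
  have h1 : 0 < |x - 1| := abs_pos.2 (sub_ne_zero.2 e)
  have h2 : |1 + -x| = |x - 1| := by rw [← abs_neg]; congr 1; ring
  have h3 : 1 / mn (-x) ≤ 2 ∧ 0 < mn (-x) ∨ mn (-x) = |x - 1| := by
    rw [mn, h2, abs_neg, abs_of_pos (by linarith : 0 < x), ← min_assoc]
    rcases le_total (min 1 x) |x - 1| with k | k
    · have : 1 / 2 ≤ min 1 x := le_min (by norm_num) h
      rw [min_eq_left k]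
      exact .inl ⟨by rw [div_le_iff₀ (by linarith)]; linarith, by linarith⟩
    · exact .inr (min_eq_right k)
  rcases h3 with ⟨k, k'⟩ | k
  · have := pow_le_pow_left₀ (by positivity) k 2
    rw [one_div_pow] at this
    exact ⟨le_add_of_le_of_nonneg k (by positivity),
      le_add_of_le_of_nonneg (by linarith) (by positivity)⟩
  · rw [k, sq_abs]
    constructor <;> linarith

theorem comb {e u v x y : ℝ} (he : |e| = 1) (h1 : |u| ≤ x) (h2 : |v| ≤ y) : |u + e * v| ≤ x + y :=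
  (abs_add_le _ _).trans (by rw [abs_mul, he, one_mul]; exact add_le_add h1 h2)

theorem ok (h2 : Mel2S) {R B E e : ℝ} {k : ℝ → ℝ} (hR : 1 ≤ R) (h : CutOK R B E k) (he : |e| = 1)
    (s0 : 0 < s.re) (s1 : s.re ≤ 1) : ∃ f1 f2 P, P (2 * R) = mel k e s ∧
      Ok (fun x => k (-x) + e * k x) f1 f2 P s (8 * B) (2 * R) := by
  obtain ⟨C, -, h2⟩ := h2
  obtain ⟨m1, m2, m3, -⟩ := h2 R B E e k hR h he
  obtain ⟨D, rfl, d1, d2, d3, d4, -⟩ := h
  have m4 : IntegrableOn (fun t : ℝ => (t : ℂ) ^ (s - 1) * fe (D 0) e t) (Ioi 0) := (m3 s s0).1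
  have m5 : ∀ x, 0 ≤ x →
      IntervalIntegrable (fun t : ℝ => (t : ℂ) ^ (s - 1) * fe (D 0) e t) volume 0 x := fun x hx =>
    (intervalIntegrable_iff_integrableOn_Ioc_of_le hx).2 (m4.mono_set Ioc_subset_Ioi_self)
  have m6 : ContinuousOn (fun t : ℝ => (t : ℂ) ^ (s - 1) * fe (D 0) e t) (Ioi 0) :=
    ContinuousOn.mul (fun t ht => (Complex.continuousAt_ofReal_cpow_const t _
      (.inr (ne_of_gt ht))).continuousWithinAt) m1
  have dn : ∀ j x, 0 < x → HasDerivAt (fun y => D j (-y)) (-D (j + 1) (-x)) x := fun j x hx =>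
    ((d1 j (-x) (by linarith)).comp x (hasDerivAt_neg x)).congr_deriv (mul_neg_one _)
  have z : ∀ t, R < |t| → D 1 t = 0 := fun t ht =>
    (d1 0 t fun e => by simp only [e, abs_zero] at ht; linarith).unique
      ((hasDerivAt_const t (0 : ℝ)).congr_of_eventuallyEq (by
        filter_upwards [(isOpen_lt continuous_const continuous_abs).mem_nhds ht] with y hy
        exact d2 y hy.le))
  have ps : ∀ t, 1 / 2 ≤ t → |D 0 t| ≤ B * (1 + |Real.log (mn t)|) ∧ |D 1 t| ≤ B / mn t ∧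
      |D 2 t| ≤ B / mn t ^ 2 := fun t ht => d3 t (by linarith) (by linarith)
  have B0 : 0 ≤ B := by
    have := (abs_nonneg _).trans (ps 1 (by norm_num)).2.1
    rwa [div_nonneg_iff, or_iff_left_of_imp (fun k => by
      linarith [k.2, (mn_pos (t := 1) (by norm_num)).1]), and_iff_left (by
        linarith [(mn_pos (t := 1) (by norm_num)).1])] at this
  have ps' : ∀ t, 1 / 2 ≤ t → |D 0 t| ≤ 2 * B ∧ |D 1 t| ≤ 2 * B ∧ |D 2 t| ≤ 4 * B := fun t ht => by
    obtain ⟨a1, a2⟩ := mn_pos ht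
    obtain ⟨k1, k2, k3⟩ := ps t ht
    have a3 : 0 < mn t := by linarith
    refine ⟨k1.trans ?_, k2.trans ?_, k3.trans ?_⟩
    · have := Real.one_sub_inv_le_log_of_pos a3
      have : (mn t)⁻¹ ≤ 2 := inv_le_of_inv_le₀ (by norm_num) (by linarith)
      rw [abs_of_nonpos (Real.log_nonpos a3.le a2)]
      nlinarith
    · rw [div_le_iff₀ a3]
      nlinarith
    · rw [div_le_iff₀ (by positivity)]
      nlinarith [mul_nonneg B0 (show 0 ≤ 4 * mn t ^ 2 - 1 by nlinarith)]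
  refine ⟨fun x => -D 1 (-x) + e * D 1 x, fun x => D 2 (-x) + e * D 2 x,
    fun x => ∫ t in 0..x, (t : ℂ) ^ (s - 1) * fe (D 0) e t, ?_, s0, s1, by linarith, by linarith,
    fun x hx => (dn 0 x hx).add ((d1 0 x hx.ne').const_mul e),
    fun x hx => ?_, fun x hx => intervalIntegral.integral_hasDerivAt_right (m5 x hx.le)
      (m6.stronglyMeasurableAtFilter isOpen_Ioi x hx) (m6.continuousAt (Ioi_mem_nhds hx)),
    ?_, ?_, ?_, fun x x0 x1 => ?_, fun x hx e1 => ?_, fun r r0 r1 => ?_⟩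
  · beta_reduce
    rw [intervalIntegral.integral_of_le (by linarith)]
    refine (setIntegral_eq_of_subset_of_forall_sdiff_eq_zero measurableSet_Ioi Ioc_subset_Ioi_self
      fun x hx => ?_).symm
    rw [m2 x (by linarith [not_le.1 fun k => hx.2 ⟨hx.1, k⟩]), mul_zero]
  · exact ((dn 1 x hx).neg.add ((d1 1 x hx.ne').const_mul e)).congr_deriv (by rw [neg_neg])
  · have := (intervalIntegral.continuousOn_primitive_interval' (m5 1 zero_le_one) left_mem_uIcc 0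
      left_mem_uIcc).tendsto
    rw [intervalIntegral.integral_same, uIcc_of_le zero_le_one,
      nhdsWithin_Icc_eq_nhdsGE zero_lt_one] at this
    exact this.mono_left (nhdsWithin_mono _ Ioi_subset_Ici_self)
  · rw [d2 _ (by rw [abs_neg, abs_of_pos] <;> linarith), d2 _ (by rw [abs_of_pos] <;> linarith),
      mul_zero, add_zero]
  · rw [z _ (by rw [abs_neg, abs_of_pos] <;> linarith), z _ (by rw [abs_of_pos] <;> linarith),
      mul_zero, add_zero, neg_zero]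
  · have a1 : |x| ≤ 1 / 2 := by rwa [abs_of_pos x0]
    have a2 : |-x| ≤ 1 / 2 := by rwa [abs_neg]
    obtain ⟨k1, k2, -⟩ := d3 x x0.ne' (by linarith)
    obtain ⟨l1, l2, -⟩ := d3 (-x) (by linarith) (by linarith)
    have k3 := (d4 x x0.ne' a1).1
    have l3 := (d4 (-x) (by linarith) a2).1
    rw [mn_sm a1, abs_of_pos x0] at k1 k2
    rw [mn_sm a2, abs_neg, abs_of_pos x0] at l1 l2
    rw [abs_of_pos x0] at k3
    rw [abs_neg, abs_of_pos x0] at l3
    have c1 : 0 ≤ B * (1 + |Real.log x|) := by positivity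
    have c2 : 0 ≤ B * √x := by positivity
    refine ⟨(comb he l1 k1).trans (by linarith), ?_, (le_of_eq_of_le (by congr 1; ring)
      (comb he l3 k3)).trans (by linarith)⟩
    rw [abs_mul, abs_of_pos x0]
    refine (mul_le_mul_of_nonneg_left (comb he ((abs_neg _).trans_le l2) k2) x0.le).trans ?_
    rw [mul_add, mul_div_cancel₀ _ x0.ne']
    linarith
  · obtain ⟨-, l2, l3⟩ := d3 (-x) (by linarith) (by simpa using e1)
    obtain ⟨a1, a2⟩ := mn_neg hx e1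
    have a3 := mul_le_mul_of_nonneg_left a1 B0
    have a4 := mul_le_mul_of_nonneg_left a2 B0
    rw [mul_one_div] at a3 a4
    have c1 : 0 ≤ B * (1 / |x - 1|) := by positivity
    have c2 : 0 ≤ B * (1 / (x - 1) ^ 2) := by positivity
    exact ⟨(comb he ((abs_neg _).trans_le l2) (ps' x hx).2.1).trans (by linarith),
      (comb he l3 (ps' x hx).2.2).trans (by linarith)⟩
  · have a1 := (d4 (-r) (by linarith) (by rw [abs_neg, abs_of_pos r0]; linarith)).2.2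
    have a2 := mul_le_of_le_one_right B0 (Real.sqrt_le_one.2
      (show |-r| ≤ 1 by rw [abs_neg, abs_of_pos r0]; linarith))
    have a3 := (abs_sub _ _).trans (add_le_add (ps' (1 + r) (by linarith)).1
      (ps' (1 - r) (by linarith)).1)
    rw [show -1 + -r = -(1 + r) by ring, show -1 - -r = -(1 - r) by ring] at a1
    exact (le_of_eq_of_le (by congr 1; ring) (comb he a1 a3)).trans (by linarith)

end Mel3A

open Mel3A in
theorem mel3Of : Mel3Of := fun h2 => by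
  refine ⟨10240, by norm_num, fun R B E k s hR h s0 s1 => ⟨?_, ?_⟩⟩
  · obtain ⟨f1, f2, P, e, hk⟩ := ok h2 hR h (e := 1) abs_one s0 (by linarith)
    have a1 := hk.main
    have a2 := norm_pos_iff.2 hk.ne
    have a3 : 0 ≤ 8 * B * R ^ 3 * (1 + ‖s‖) := mul_nonneg (mul_nonneg hk.b0 (by positivity))
      (by positivity)
    rw [← e, ← mul_div_assoc, le_div_iff₀ (by positivity)]
    linarith
  · obtain ⟨f1, f2, P, e, hk⟩ := ok h2 hR h (e := -1) (by simp) s0 (by linarith)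
    obtain ⟨D, rfl, -, -, -, d4, -⟩ := h
    have b0 := hk.b0
    have a1 := hk.main
    have a2 := norm_pos_iff.2 hk.ne
    have a3 := hk.odd fun x x0 x1 => by
      have := (d4 x x0.ne' (by rwa [abs_of_pos x0])).2.1
      rw [abs_of_pos x0, abs_sub_comm] at this
      refine (le_of_eq_of_le (by congr 1; ring) this).trans ?_
      nlinarith [Real.sqrt_nonneg x]
    have a4 : 0 ≤ 8 * B * R ^ 2 * (R - 1) := mul_nonneg (by positivity) (by linarith)
    have a5 : 0 ≤ 8 * B * R ^ 3 := by positivity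
    have a6 := norm_nonneg (P (2 * R))
    rw [← e, mul_one_div, le_div_iff₀ (by positivity)]
    rcases le_total ‖s‖ 1 with c | c
    · nlinarith
    · have a7 : ‖s‖ * ‖P (2 * R)‖ ≤ 5120 * B * R ^ 3 :=
        le_of_mul_le_mul_left (by nlinarith) a2
      nlinarith

end Pool.Agent.MP_20b2fd_nt.H38
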