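import Pool.Agent.MP_20b2fd_nt.H38.SpecC

/-! The sum of `|p ^ ω - 1| / p` over the primes up to `z`. -/

set_option autoImplicit false

namespace Pool.Agent.MP_20b2fd_nt.H38

open Complex Finset

namespace MsA

theorem mem_prs {x y : ℝ} (_hx : 0 ≤ x) (hy : 0 ≤ y) {p : ℕ} :
    p ∈ prs x y ↔ p.Prime ∧ x < p ∧ p ≤ y := by
  rw [prs, mem_filter, mem_Icc, Nat.le_floor_iff hy]
  exact ⟨fun h => ⟨h.2.1, h.2.2, h.1.2⟩, fun h => ⟨⟨h.1.pos, h.2.2⟩, h.1, h.2.1⟩⟩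

theorem four {z : ℝ} {ω : ℂ} (h : |ω.re| * Real.log z ≤ 1) {p : ℕ} (hp : p.Prime)
    (hz : (p : ℝ) ≤ z) : ‖(p : ℂ) ^ ω - 1‖ / p ≤ 4 * (1 / p) := by
  have p0 : (0 : ℝ) < p := by exact_mod_cast hp.pos
  have h1 : Real.log p * ω.re ≤ 1 := by
    have e1 := mul_le_mul_of_nonneg_left (le_abs_self ω.re) (Real.log_natCast_nonneg p)
    have e2 := mul_le_mul_of_nonneg_left (Real.log_le_log p0 hz) (abs_nonneg ω.re)
    linarith
  have h2 : ‖(p : ℂ) ^ ω‖ ≤ 3 := by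
    rw [norm_natCast_cpow_of_pos hp.pos, Real.rpow_def_of_pos p0]
    exact (Real.exp_le_exp.2 h1).trans (Real.exp_one_lt_d9.le.trans (by norm_num))
  have h3 := norm_sub_le ((p : ℂ) ^ ω) 1
  rw [norm_one] at h3
  rw [mul_one_div]
  exact div_le_div_of_nonneg_right (by linarith) p0.le

theorem small {y : ℝ} {ω : ℂ} (h : ‖ω‖ * Real.log y ≤ 1) {p : ℕ} (hp : p.Prime)
    (hz : (p : ℝ) ≤ y) : ‖(p : ℂ) ^ ω - 1‖ / p ≤ 2 * ‖ω‖ * (Real.log p / p) := by
  have p0 : (0 : ℝ) < p := by exact_mod_cast hp.pos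
  have h1 : ‖log p * ω‖ = ‖ω‖ * Real.log p := by
    rw [norm_mul, ← natCast_log, norm_real, Real.norm_of_nonneg (Real.log_natCast_nonneg p),
      mul_comm]
  have h2 := norm_exp_sub_one_le (x := log p * ω) (by
    rw [h1]
    exact (mul_le_mul_of_nonneg_left (Real.log_le_log p0 hz) (norm_nonneg _)).trans h)
  rw [cpow_def_of_ne_zero (by exact_mod_cast hp.ne_zero), ← mul_div_assoc]
  rw [h1, ← mul_assoc] at h2
  exact div_le_div_of_nonneg_right h2 p0.le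

end MsA

open MsA in
theorem msOf : MsOf := by
  rintro ⟨D, D1, h1, h2, h3⟩
  refine ⟨4 + 6 * D, by linarith, fun z ω hz h => ?_⟩
  have w0 := norm_nonneg ω
  have L0 : 0 < Real.log z := Real.log_pos (by linarith)
  have l0 : 0 ≤ Real.log (1 + ‖ω‖ * Real.log z) :=
    Real.log_nonneg (le_add_of_nonneg_right (by positivity))
  have l1 : 0 ≤ D * Real.log (1 + ‖ω‖ * Real.log z) := by positivity
  have low : ∀ y, 1 ≤ y → ‖ω‖ ≤ 1 → ‖ω‖ * Real.log y ≤ 1 →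
      ∑ p ∈ prs 1 y, ‖(p : ℂ) ^ ω - 1‖ / p ≤ 2 + 2 * D := by
    intro y hy hw e
    have e1 := (abs_le.1 (h1 1 y le_rfl hy).1).2
    rw [div_one] at e1
    refine (sum_le_sum fun p hp => ?_).trans (?_ : ∑ p ∈ prs 1 y,
      2 * ‖ω‖ * (Real.log p / p) ≤ _)
    · obtain ⟨a, -, b⟩ := (mem_prs zero_le_one (by linarith)).1 hp
      exact small e a b
    · rw [← mul_sum]
      nlinarith
  have up : ∀ x, 0 ≤ x → ∑ p ∈ prs x z, ‖(p : ℂ) ^ ω - 1‖ / p ≤
      4 * ∑ p ∈ prs x z, (1 : ℝ) / p := by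
    intro x hx
    rw [mul_sum]
    refine sum_le_sum fun p hp => ?_
    obtain ⟨a, -, b⟩ := (mem_prs hx (by linarith)).1 hp
    exact four h a b
  rcases le_total 1 ‖ω‖ with hw | hw
  · have e1 := (abs_le.1 (h3 z hz)).2
    have e2 : Real.log (Real.log z) ≤ Real.log (1 + ‖ω‖ * Real.log z) :=
      Real.log_le_log L0 (by nlinarith)
    have e3 := up 1 zero_le_one
    rw [pz] at e1 ⊢
    linarith
  rcases le_total (‖ω‖ * Real.log z) 1 with hL | hL
  · have := low z (by linarith) hw hL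
    rw [pz]
    linarith
  have w1 : 0 < ‖ω‖ := (mul_pos_iff_of_pos_right L0).1 (zero_lt_one.trans_le hL)
  have y2 : 2 ≤ Real.exp (1 / ‖ω‖) := by
    have := Real.add_one_le_exp (1 / ‖ω‖)
    have := one_le_one_div w1 hw
    linarith
  have yz : Real.exp (1 / ‖ω‖) ≤ z := by
    rw [← Real.le_log_iff_exp_le (by linarith), div_le_iff₀' w1]
    exact hL
  have e1 := low _ (by linarith) hw (by rw [Real.log_exp, mul_one_div_cancel w1.ne'])
  have e2 := up (Real.exp (1 / ‖ω‖)) (by linarith)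
  have e3 := (abs_le.1 (h2 _ z y2 yz)).2
  rw [Real.log_exp, div_div_eq_mul_div, div_div_eq_mul_div, div_one, div_one] at e3
  have e4 : Real.log (Real.log z * ‖ω‖) ≤ Real.log (1 + ‖ω‖ * Real.log z) :=
    Real.log_le_log (by positivity) (by linarith)
  have e5 : pz z ⊆ prs 1 (Real.exp (1 / ‖ω‖)) ∪ prs (Real.exp (1 / ‖ω‖)) z := by
    intro p hp
    obtain ⟨a, b, c⟩ := (mem_prs zero_le_one (by linarith)).1 hp
    rw [mem_union, mem_prs zero_le_one (by linarith), mem_prs (by linarith) (by linarith)]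
    exact (le_or_gt _ _).imp (fun e => ⟨a, b, e⟩) fun e => ⟨a, e, c⟩
  have e6 := sum_le_sum_of_subset_of_nonneg (f := fun p : ℕ => ‖(p : ℂ) ^ ω - 1‖ / p) e5
    fun _ _ _ => by positivity
  have e7 := sum_union_inter (s₁ := prs 1 (Real.exp (1 / ‖ω‖))) (s₂ := prs (Real.exp (1 / ‖ω‖)) z)
    (f := fun p : ℕ => ‖(p : ℂ) ^ ω - 1‖ / p)
  have e8 := sum_nonneg (s := prs 1 (Real.exp (1 / ‖ω‖)) ∩ prs (Real.exp (1 / ‖ω‖)) z)
    (f := fun p : ℕ => ‖(p : ℂ) ^ ω - 1‖ / p) fun _ _ => by positivity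
  have e9 := mul_le_mul_of_nonneg_left hw (show 0 ≤ D by linarith)
  linarith

end Pool.Agent.MP_20b2fd_nt.H38
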