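import Pool.Agent.MP_20b2fd_nt.H38.SpecC

/-! The bilinear form in terms of the long terms. -/

set_option autoImplicit false

namespace Pool.Agent.MP_20b2fd_nt.H38

open Finset Filter Topology

namespace O1A

theorem div_pos {m n d : ℕ} (hm : 1 ≤ m) (hn : 1 ≤ n) (hd : d ∈ (m.gcd n).divisors) :
    1 ≤ m * n / d ^ 2 := by
  have h := Nat.dvd_gcd_iff.1 (Nat.dvd_of_mem_divisors hd)
  refine Nat.div_pos (Nat.le_of_dvd (Nat.mul_pos hm hn) ?_) (pow_pos (Nat.pos_of_mem_divisors hd) 2)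
  rw [pow_two]
  exact mul_dvd_mul h.1 h.2

theorem bh_zero {l : ℕ → ℝ} {B : ℝ} (hl : ∀ m : ℕ, 1 ≤ m → (m : ℝ) ≤ B → l m = 0) {m n : ℕ}
    (hm : 1 ≤ m) (hn : 1 ≤ n) (h : (m : ℝ) * n ≤ B) : Bh l m n = 0 :=
  sum_eq_zero fun d hd => by
    rw [hl _ (div_pos hm hn hd) (le_trans (by exact_mod_cast Nat.div_le_self _ _) h), mul_zero]

theorem coprime {z : ℝ} {d r : ℕ} (hd : 1 ≤ d) (hz : (d : ℝ) ≤ z) (hr : rg z r) : d.Coprime r :=
  Nat.coprime_of_dvd fun q hq h => hr q (mem_filter.2 ⟨mem_Icc.2 ⟨hq.pos, Nat.le_floor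
    (le_trans (Nat.cast_le.2 (Nat.le_of_dvd hd h)) hz)⟩, hq, Nat.one_lt_cast.2 hq.one_lt⟩)

theorem bh_cut {l : ℕ → ℝ} {B z : ℝ} (hl : ∀ m : ℕ, 1 ≤ m → (m : ℝ) ≤ B → l m = 0) (hz : 0 < z)
    {m n r s : ℕ} (hm : 1 ≤ m * r) (hn : 1 ≤ n * s) (hr : rg z r) (hs : rg z s)
    (h : ((m * r : ℕ) : ℝ) * (n * s : ℕ) ≤ B * z ^ 2) :
    Bh l (m * r) (n * s) = ∑ d ∈ (m.gcd n).divisors, (d : ℝ) * l (m * r * (n * s) / d ^ 2) := by
  refine (sum_subset (Nat.divisors_subset_of_dvd (Nat.gcd_pos_of_pos_left _ hm).ne'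
    (Nat.gcd_dvd_gcd_mul_right_left _ _ _ |>.trans (Nat.gcd_dvd_gcd_mul_right_right _ _ _)))
    fun d hd h0 => ?_).symm
  have h1 := Nat.dvd_gcd_iff.1 (Nat.dvd_of_mem_divisors hd)
  have h2 := Nat.pos_of_mem_divisors hd
  have h3 : z < d := not_le.1 fun k => h0 (Nat.mem_divisors.2 ⟨Nat.dvd_gcd
    ((coprime h2 k hr).dvd_of_dvd_mul_right h1.1) ((coprime h2 k hs).dvd_of_dvd_mul_right h1.2),
    (Nat.gcd_pos_of_pos_left _ (Nat.pos_of_mul_pos_right hm)).ne'⟩)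
  rw [hl _ (div_pos hm hn hd) (Nat.cast_div_le.trans ?_), mul_zero]
  rw [Nat.cast_mul, Nat.cast_pow]
  exact (div_le_div_of_nonneg_left (by positivity) (by positivity)
    (pow_le_pow_left₀ hz.le h3.le 2)).trans ((div_le_iff₀ (by positivity)).2 h)

theorem pp_div {S : Finset ℕ} (hS : ∀ p ∈ S, p.Prime) {e e' c : S → ℕ}
    (h : ∀ p, c p < min (e p) (e' p) + 1) (r s : ℕ) :
    pp e * r * (pp e' * s) / pp c ^ 2 = pp (fun p => e p + e' p - 2 * c p) * r * s := by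
  refine Nat.div_eq_of_eq_mul_left
    (pow_pos (prod_pos fun (p : S) _ => pow_pos (hS p p.2).pos _) 2) ?_
  have k : pp e * pp e' = pp (fun p => e p + e' p - 2 * c p) * pp c ^ 2 := by
    simp only [pp, ← prod_pow, ← prod_mul_distrib, ← pow_mul, ← pow_add]
    exact prod_congr rfl fun p _ => congrArg _ (by have := h p; omega)
  rw [mul_mul_mul_comm, k]
  ring

theorem al_lt {a p : ℕ} {e : L2} (h : e ∈ al a p) : e.1 < a.factorization p + 2 := by
  unfold al at h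
  split_ifs at h
  · exact mem_range.1 (mem_product.1 h).1
  · simp only [mem_insert, mem_singleton] at h
    rcases h with rfl | rfl | rfl <;> simp

theorem reidx (a : ℕ) (S : Finset ℕ) (F : (S → L2) → (S → L2) → (S → ℕ) → ℝ) :
    ∑ x ∈ Fintype.piFinset (fun p : S => al3 a p),
        F (fun p => (x p).1) (fun p => (x p).2.1) (fun p => (x p).2.2) =
      ∑ σ ∈ Fintype.piFinset (fun p : S => al a p), ∑ σ' ∈ Fintype.piFinset (fun p : S => al a p),
        ∑ c ∈ Fintype.piFinset (fun p => range (min (σ p).1 (σ' p).1 + 1)), F σ σ' c := by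
  rw [sum_sigma', sum_sigma']
  refine sum_nbij' (fun x => ⟨⟨fun p => (x p).1, fun p => (x p).2.1⟩, fun p => (x p).2.2⟩)
    (fun y p => (y.1.1 p, y.1.2 p, y.2 p)) (fun x hx => ?_) (fun y hy => ?_) (fun _ _ => rfl)
    (fun _ _ => rfl) fun _ _ => rfl
  · simp only [mem_sigma, Fintype.mem_piFinset, al3, mem_filter, mem_product, mem_range] at hx ⊢
    exact ⟨⟨fun p => (hx p).1.1, fun p => (hx p).1.2.1⟩, fun p => by have := (hx p).2; omega⟩
  · simp only [mem_sigma, Fintype.mem_piFinset, al3, mem_filter, mem_product, mem_range] at hy ⊢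
    intro p
    have h1 := hy.2 p
    have h2 := al_lt (hy.1.1 p)
    exact ⟨⟨hy.1.1 p, hy.1.2 p, by omega⟩, by omega, by omega⟩

theorem swap {α β γ : Type} (A : Finset α) (C : α → Finset γ) (I : Finset β) (u : β → ℝ)
    (v : α → β → ℝ) (f : α → γ → β → β → ℝ) (k : ℝ) :
    k * ∑ a ∈ A, ∑ c ∈ C a, ∑ i ∈ I, ∑ j ∈ I, u i * (v a j * f a c i j) =
      ∑ i ∈ I, u i * (k * ∑ a ∈ A, ∑ j ∈ I, v a j * ∑ c ∈ C a, f a c i j) := by
  simp only [mul_sum]
  rw [sum_comm (s := I)]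
  refine sum_congr rfl fun a _ => ?_
  rw [sum_comm]
  refine sum_congr rfl fun i _ => ?_
  rw [sum_comm]
  exact sum_congr rfl fun j _ => sum_congr rfl fun c _ => by ring

end O1A

open O1A

theorem o1Of : O1Of := by
  intro hE hD _ hZ hO δ a h0 h1 ha
  obtain ⟨N₁, hN₁⟩ := hO δ a h0 h1 ha
  obtain ⟨N₂, hN₂⟩ := eventually_atTop.1 (((tendsto_rpow_atTop (show 0 < δ / 15 by positivity)).comp
    tendsto_natCast_atTop_atTop).eventually_ge_atTop (900 * (a : ℝ) ^ 4))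
  refine ⟨max (max N₁ N₂) 2, fun N hN l hl => ?_⟩
  simp only [max_le_iff] at hN
  obtain ⟨hS, hT⟩ := hZ.2 δ N h0 hN.2
  obtain ⟨E1, E2, E3, -⟩ := hE _ hS
  have N1 : (1 : ℝ) ≤ N := by exact_mod_cast (by omega : 1 ≤ N)
  have N0 : (0 : ℝ) < N := by linarith
  have a1 : (1 : ℝ) ≤ (a : ℝ) ^ 2 := one_le_pow₀ (by exact_mod_cast ha)
  have b0 : 900 * (a : ℝ) ^ 4 ≤ (N : ℝ) ^ (δ / 15) := hN₂ N hN.1.2
  set X := (N : ℝ) ^ (1 / 2 + δ / 2) with hX
  set Y := (N : ℝ) ^ (1 / 2 - 2 * δ / 3) with hY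
  set B := (N : ℝ) ^ (1 - δ / 10) with hB
  have X0 : 0 < X := by positivity
  have Y0 : 0 < Y := by positivity
  have b1 : Y * (30 * (a : ℝ) ^ 2 * X) ≤ B := by
    have e : B = (N : ℝ) ^ (δ / 15) * (Y * X) := by
      rw [hX, hY, hB, ← Real.rpow_add N0, ← Real.rpow_add N0]
      congr 1
      ring
    rw [e, mul_left_comm]
    exact mul_le_mul_of_nonneg_right (le_trans (by nlinarith) b0) (by positivity)
  have b2 : 30 * (a : ℝ) ^ 2 * X * (30 * (a : ℝ) ^ 2 * X) ≤ B * zz δ N ^ 2 := by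
    have e : (N : ℝ) ^ (δ / 15) * (X * X) ≤ B * zz δ N ^ 2 := by
      rw [hX, hB, zz, pow_two, ← Real.rpow_add N0, ← Real.rpow_add N0, ← Real.rpow_add N0,
        ← Real.rpow_add N0]
      exact Real.rpow_le_rpow_of_exponent_le N1 (by linarith)
    refine le_trans (le_of_eq (by ring)) ((mul_le_mul_of_nonneg_right b0 ?_).trans e)
    positivity
  have hJ : ∀ i ∈ JJ δ a N, 1 ≤ nn i ∧ (nn i : ℝ) ≤ 30 * (a : ℝ) ^ 2 * X := fun i hi => by
    obtain ⟨k1, k2⟩ := mem_product.1 hi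
    obtain ⟨k3, k4, -⟩ := (hD.2 a ha).2.2.2.2.2 _ k1
    refine ⟨Nat.mul_pos k3 (mem_Icc.1 k2).1, ?_⟩
    rw [nn, Nat.cast_mul]
    exact mul_le_mul (by exact_mod_cast k4) ((Nat.cast_le.2 (mem_Icc.1 k2).2).trans
      (Nat.floor_le X0.le)) (Nat.cast_nonneg _) (by positivity)
  have hp : ∀ (e : SS δ N → ℕ), ∀ i ∈ TR1 δ N, 1 ≤ pp e * nn i := fun e i hi =>
    Nat.mul_pos (E2 e).1 (hT i (mem_filter.1 hi).1).1
  have hw : ∀ σ ∈ Fintype.piFinset (fun p : SS δ N => al a p), ∀ i ∈ TR1 δ N,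
      wi δ N (pp fun p : SS δ N => ke a p (σ p)) i ≠ 0 →
      ((pp (fun p => (σ p).1) * nn i : ℕ) : ℝ) ≤ 30 * (a : ℝ) ^ 2 * X := fun σ hσ i hi h => by
    have k1 := ((hT i (mem_filter.1 hi).1).2.2.2 _ (E2 _).1).2 h
    have k2 : ((pp fun p => (σ p).1 : ℕ) : ℝ) ≤ 30 * (a : ℝ) ^ 2 * (pp fun p : SS δ N => ke a p (σ p) : ℕ) := by
      exact_mod_cast (hZ.1 a _ ha hS).1 σ hσ
    rw [Nat.cast_mul]
    refine (mul_le_mul_of_nonneg_right k2 (Nat.cast_nonneg _)).trans ?_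
    rw [mul_assoc]
    exact mul_le_mul_of_nonneg_left k1 (by positivity)
  have hO' : ∀ G : ℕ → ℝ, (∀ n : ℕ, 1 ≤ n → (n : ℝ) ≤ Y → G n = 0) →
      ∑ i ∈ JJ δ a N, xx δ a N i * G (nn i) = -(3 / (4 * lam N)) *
        ∑ σ ∈ Fintype.piFinset (fun p : SS δ N => al a p), ∑ i ∈ TR1 δ N,
          (∏ p : SS δ N, uu a p (σ p)) * wi δ N (pp fun p : SS δ N => ke a p (σ p)) i *
            G (pp (fun p => (σ p).1) * nn i) := fun G hG => by
    have k := hN₁ N hN.1.1 (fun n => if 1 ≤ n then G n else 0) fun n hn => by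
      split_ifs with h
      exacts [hG n h hn, rfl]
    rw [sum_congr rfl fun i hi => by rw [if_pos (hJ i hi).1],
      sum_congr rfl fun σ _ => sum_congr rfl fun i hi => by rw [if_pos (hp _ i hi)]] at k
    exact k
  have key : Bl (JJ δ a N) nn (xx δ a N) l = (3 / (4 * lam N)) ^ 2 *
      ∑ x ∈ Fintype.piFinset (fun p : SS δ N => al3 a p), ∑ i ∈ TR1 δ N, ∑ j ∈ TR1 δ N,
        U3 a x * wi δ N (k1 a x) i * wi δ N (k2 a x) j * l (M3 x * nn i * nn j) := by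
    have e1 := hO' (fun n => ∑ j ∈ JJ δ a N, xx δ a N j * Bh l n (nn j)) fun n hn hn' =>
      sum_eq_zero fun j hj => by
        rw [bh_zero hl hn (hJ j hj).1 ((mul_le_mul hn' (hJ j hj).2 (Nat.cast_nonneg _) Y0.le).trans b1),
          mul_zero]
    have e2 := reidx a (SS δ N) fun σ σ' c => ∑ i ∈ TR1 δ N, ∑ j ∈ TR1 δ N,
      (∏ p : SS δ N, uu a p (σ p)) * wi δ N (pp fun p : SS δ N => ke a p (σ p)) i *
        ((∏ p : SS δ N, uu a p (σ' p)) * wi δ N (pp fun p : SS δ N => ke a p (σ' p)) j *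
          ((pp c : ℝ) * l (pp (fun p => (σ p).1 + (σ' p).1 - 2 * c p) * nn i * nn j)))
    refine Eq.trans ?_ (e1.trans (Eq.trans ?_ (congrArg _ (e2.symm.trans ?_))))
    · simp only [Bl, mul_sum, mul_assoc]
    · rw [← neg_sq, pow_two, mul_assoc]
      congr 1
      rw [mul_sum]
      refine sum_congr rfl fun σ hσ => ?_
      refine Eq.trans (sum_congr rfl fun i hi => ?_) (swap _ _ _ _ _ _ _).symm
      by_cases w1 : wi δ N (pp fun p : SS δ N => ke a p (σ p)) i = 0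
      · rw [w1, mul_zero, zero_mul, zero_mul]
      rw [hO' (Bh l _) fun n hn hn' => bh_zero hl (hp _ i hi) hn (by
        rw [mul_comm]
        exact (mul_le_mul hn' (hw σ hσ i hi w1) (Nat.cast_nonneg _) Y0.le).trans b1)]
      refine congrArg _ (congrArg _ (sum_congr rfl fun σ' hσ' => sum_congr rfl fun j hj => ?_))
      by_cases w2 : wi δ N (pp fun p : SS δ N => ke a p (σ' p)) j = 0
      · rw [w2, mul_zero, zero_mul, zero_mul]
      rw [bh_cut hl (Real.rpow_pos_of_pos N0 _) (hp _ i hi) (hp _ j hj)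
        ((hT i (mem_filter.1 hi).1).2.2.1 h1) ((hT j (mem_filter.1 hj).1).2.2.1 h1)
        ((mul_le_mul (hw σ hσ i hi w1) (hw σ' hσ' j hj w2) (Nat.cast_nonneg _) (by positivity)).trans b2),
        (E3 _ _).2.1, E1]
      exact congrArg _ (sum_congr rfl fun c hc => by
        rw [pp_div hS fun p => mem_range.1 (Fintype.mem_piFinset.1 hc p)])
    · refine sum_congr rfl fun x _ => sum_congr rfl fun i _ => sum_congr rfl fun j _ => ?_
      simp only [U3, u3, k1, k2, M3, mx, prod_mul_distrib, pp, Nat.cast_prod, Nat.cast_pow]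
      ring
  rw [key, TS]
  push_cast
  rfl

end Pool.Agent.MP_20b2fd_nt.H38
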