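import Pool.Agent.MP_20b2fd_nt.H38.SpecC

/-! The long terms of the mollifier in terms of exponent vectors. -/

set_option autoImplicit false

namespace Pool.Agent.MP_20b2fd_nt.H38

open Finset Filter Topology ArithmeticFunction

namespace O1aA

theorem fac (hE : E1S) {S : Finset ℕ} (hS : ∀ p ∈ S, p.Prime) (c : S → ℕ) {r : ℕ} (hr : r ≠ 0)
    (h : ∀ p ∈ S, ¬ p ∣ r) (p : S) : (pp c * r).factorization p = c p := by
  obtain ⟨h1, h2, -⟩ := (hE S hS).2.1 c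
  rw [Nat.factorization_mul (by omega) hr, Finsupp.add_apply, h2,
    Nat.factorization_eq_zero_of_not_dvd (h p p.2), add_zero]

theorem cop (hE : E1S) {S : Finset ℕ} (hS : ∀ p ∈ S, p.Prime) (c : S → ℕ) {r : ℕ}
    (h : ∀ p ∈ S, ¬ p ∣ r) : (pp c).Coprime r :=
  Nat.coprime_of_dvd fun q hq h1 => h q (((hE S hS).2.1 c).2.2.1 q hq h1)

theorem split (hE : E1S) {S : Finset ℕ} (hS : ∀ p ∈ S, p.Prime) {m : ℕ} (hm : m ≠ 0) :
    ∃ r, m = pp (fun p : S => m.factorization p) * r ∧ ∀ p ∈ S, ¬ p ∣ r := by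
  obtain ⟨h1, h2, h3, -⟩ := (hE S hS).2.1 fun p : S => m.factorization p
  obtain ⟨r, hr⟩ : pp (fun p : S => m.factorization p) ∣ m := by
    refine (Nat.factorization_prime_le_iff_dvd (by omega) hm).1 fun q hq => ?_
    by_cases h : q ∈ S
    · exact (h2 ⟨q, h⟩).le
    · rw [Nat.factorization_eq_zero_of_not_dvd fun h' => h (h3 q hq h')]
      exact Nat.zero_le _
  refine ⟨r, hr, fun p hp hd => ?_⟩
  have hr0 : r ≠ 0 := by
    rintro rfl
    exact hm (hr.trans (mul_zero _))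
  have e : m.factorization p = (pp (fun p : S => m.factorization p) * r).factorization p :=
    congrArg (fun n : ℕ => n.factorization p) hr
  rw [Nat.factorization_mul (by omega) hr0, Finsupp.add_apply] at e
  have e2 : (pp fun p : S => m.factorization p).factorization p = m.factorization p := h2 ⟨p, hp⟩
  have := (hS p hp).factorization_pos_of_dvd hr0 hd
  omega

theorem prod_Sr {M : Type} [CommMonoid M] {S : Finset ℕ} (hS : ∀ p ∈ S, p.Prime) {a : ℕ}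
    (ha : 1 ≤ a) (h : ∀ p : ℕ, p.Prime → p ∣ 30 * a → p ∈ S) (f : ℕ → M) :
    ∏ p ∈ Sr a, f p = ∏ p : S, if (p : ℕ) ∣ 30 * a then f p else 1 := by
  rw [prod_coe_sort S fun p => if p ∣ 30 * a then f p else 1, ← prod_filter]
  congr 1
  ext p
  rw [Sr, Nat.mem_primeFactors, mem_filter]
  exact ⟨fun k => ⟨h p k.1 k.2.1, k.2.1⟩, fun k => ⟨hS p k.1, k.2, by omega⟩⟩

theorem J0_eq (hE : E1S) {S : Finset ℕ} (hS : ∀ p ∈ S, p.Prime) {a : ℕ} (ha : 1 ≤ a)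
    (h : ∀ p : ℕ, p.Prime → p ∣ 30 * a → p ∈ S) :
    J0 a = (pp fun p : S => if (p : ℕ) ∣ 30 * a then a.factorization p + 1 else 0).divisors := by
  have e : ∏ p ∈ Sr a, p = pp fun p : S => if (p : ℕ) ∣ 30 * a then 1 else 0 := by
    rw [prod_Sr hS ha h, pp]
    exact prod_congr rfl fun p _ => by split_ifs <;> simp
  have e2 := (hE S hS).2.2.2 a ha fun q hq hd => h q hq (hd.mul_left _)
  rw [J0, e]
  congr 1
  nth_rewrite 1 [e2]
  rw [((hE S hS).2.2.1 _ _).1]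
  congr 1
  funext p
  split_ifs with k
  · rfl
  · exact Nat.factorization_eq_zero_of_not_dvd fun hd => k (hd.mul_left _)

theorem mu_pp {S : Finset ℕ} (hS : ∀ p ∈ S, p.Prime) (c : S → ℕ) :
    (moebius (pp c) : ℝ) = ∏ p : S, (moebius ((p : ℕ) ^ c p) : ℝ) := by
  rw [pp, isMultiplicative_moebius.map_prod (fun p : S => (p : ℕ) ^ c p) _ fun p _ q _ h =>
    Nat.coprime_pow_primes _ _ (hS p p.2) (hS q q.2) fun e => h (Subtype.ext e)]
  push_cast
  rfl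

/-- the four parts of an exponent vector -/
def c0 (a : ℕ) {S : Finset ℕ} (σ : S → L2) : ℕ := pp fun p : S => if (p : ℕ) ∣ 30 * a then (σ p).1 else 0

def c1 (a : ℕ) {S : Finset ℕ} (σ : S → L2) : ℕ := pp fun p : S => if (p : ℕ) ∣ 30 * a then 0 else (σ p).1

def c2 {S : Finset ℕ} (σ : S → L2) : ℕ := pp fun p : S => (σ p).2

theorem al_cases {a p : ℕ} {e : L2} (h : e ∈ al a p) :
    (p ∣ 30 * a ∧ e.1 ≤ a.factorization p + 1 ∧ e.2 = 0) ∨
      (¬ p ∣ 30 * a ∧ (e = (0, 0) ∨ e = (1, 0) ∨ e = (0, 1))) := by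
  unfold al at h
  split_ifs at h with k
  · rw [mem_product, mem_range, mem_singleton] at h
    exact Or.inl ⟨k, by omega, h.2⟩
  · exact Or.inr ⟨k, by simpa using h⟩

theorem c01 (hE : E1S) {S : Finset ℕ} (hS : ∀ p ∈ S, p.Prime) (a : ℕ) (σ : S → L2) :
    c0 a σ * c1 a σ = pp fun p => (σ p).1 := by
  rw [c0, c1, ((hE S hS).2.2.1 _ _).1]
  congr 1
  funext p
  split_ifs <;> simp

theorem c12 (hE : E1S) {S : Finset ℕ} (hS : ∀ p ∈ S, p.Prime) {a : ℕ} {σ : S → L2}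
    (h : ∀ p : S, σ p ∈ al a p) : c1 a σ * c2 σ = pp fun p : S => ke a p (σ p) := by
  rw [c1, c2, ((hE S hS).2.2.1 _ _).1]
  congr 1
  funext p
  rcases al_cases (h p) with k | k
  · simp [ke, k.1, k.2.2]
  · simp [ke, k.1]

/-- the local identity -/
theorem loc (hE : E1S) {z : ℝ} (hS : ∀ p ∈ pz z, p.Prime) {a : ℕ} (ha : 1 ≤ a)
    (h : ∀ p : ℕ, p.Prime → p ∣ 30 * a → p ∈ pz z) {σ : pz z → L2} (hσ : ∀ p : pz z, σ p ∈ al a p)
    {r : ℕ} (hr : rg z r) :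
    Dj a (c0 a σ) * moebius (c1 a σ) * tau (c2 σ) * kz z (pp (fun p : pz z => ke a p (σ p)) * r) /
      pp (fun p : pz z => ke a p (σ p)) = ∏ p : pz z, uu a p (σ p) := by
  have e1 : kz z (pp (fun p : pz z => ke a p (σ p)) * r) =
      ∏ p : pz z, if ke a p (σ p) ≠ 0 then ((p : ℕ) : ℝ) / ((p : ℕ) - 1) else 1 := by
    rw [kz, prod_filter, ← prod_coe_sort]
    refine prod_congr rfl fun p _ => if_congr ?_ rfl rfl
    rw [(hS p p.2).dvd_mul, ((hE _ hS).2.1 _).2.2.2.1 p]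
    exact or_iff_left (hr p p.2)
  rw [e1, Dj, prod_Sr hS ha h, c1, mu_pp hS, c2, ((hE _ hS).2.1 _).2.2.2.2.1, pp, Nat.cast_prod,
    ← prod_mul_distrib, ← prod_mul_distrib, ← prod_mul_distrib, ← prod_div_distrib]
  refine prod_congr rfl fun p _ => ?_
  have hp := hS p p.2
  have h0 : ((p : ℕ) : ℝ) ≠ 0 := Nat.cast_ne_zero.2 hp.ne_zero
  rw [c0, ((hE _ hS).2.1 _).2.1 p]
  rcases al_cases (hσ p) with k | ⟨k, e | e | e⟩
  · simp [uu, ke, k.1, k.2.2]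
  · simp [uu, ke, k, e]
  · simp [uu, ke, k, e, moebius_apply_prime hp]
    field_simp
  · simp [uu, ke, k, e]
    field_simp
    ring

theorem ke_le {a p : ℕ} {e : L2} (h : e ∈ al a p) : ke a p e ≤ 1 := by
  rcases al_cases h with k | ⟨k, e | e | e⟩ <;> simp [ke, *]

open Classical in
noncomputable def tL (δ : ℝ) (a N : ℕ) (G : ℕ → ℝ) (x : (ℕ × ℕ) × ℕ × ℕ) : ℝ :=
  if (Squarefree (x.1.2 * x.2.1) ∧ (x.1.2 * x.2.1).Coprime (30 * a)) ∧ x.2.2 ∣ x.1.2 * x.2.1 then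
    Dj a x.1.1 * moebius x.1.2 * tau x.2.1 * kz (zz δ N) (x.1.2 * x.2.1) / (x.1.2 * x.2.1 : ℕ) *
      psi δ N (Real.log (x.1.2 * x.2.1 : ℕ)) * G (x.1.1 * x.1.2) else 0

noncomputable def tR (δ : ℝ) (a N : ℕ) (G : ℕ → ℝ) (y : (SS δ N → L2) × ℕ × ℕ) : ℝ :=
  -((∏ p : SS δ N, uu a p (y.1 p)) * wi δ N (pp fun p : SS δ N => ke a p (y.1 p)) y.2 *
    G (pp (fun p => (y.1 p).1) * nn y.2))

theorem term (hE : E1S) {δ : ℝ} {a N : ℕ} (hS : ∀ p ∈ SS δ N, p.Prime) (ha : 1 ≤ a)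
    (h : ∀ p : ℕ, p.Prime → p ∣ 30 * a → p ∈ SS δ N) (G : ℕ → ℝ) {σ : SS δ N → L2}
    (hσ : ∀ p : SS δ N, σ p ∈ al a p) {t ρ : ℕ} (ht : t.Prime) (hd : ¬ t ∣ ρ)
    (hr : rg (zz δ N) (t * ρ)) (hρ : Squarefree ρ) :
    tR δ a N G (σ, t, ρ) = tL δ a N G ((c0 a σ, c1 a σ * (t * ρ)), c2 σ, t) := by
  have e : c1 a σ * (t * ρ) * c2 σ = pp (fun p : SS δ N => ke a p (σ p)) * (t * ρ) := by
    rw [← c12 hE hS hσ]
    ring
  have hc := (Nat.Prime.coprime_iff_not_dvd ht).2 hd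
  obtain ⟨k1, k2, -, k4, -⟩ := (hE _ hS).2.1 fun p : SS δ N => ke a p (σ p)
  have s1 : Squarefree (pp fun p : SS δ N => ke a p (σ p)) := by
    refine (Nat.squarefree_iff_factorization_le_one (by omega)).2 fun q => ?_
    by_cases hq : q ∈ SS δ N
    · exact (k2 ⟨q, hq⟩).trans_le (ke_le (hσ _))
    · by_cases hp : q.Prime
      · rw [Nat.factorization_eq_zero_of_not_dvd fun h' => hq (((hE _ hS).2.1 _).2.2.1 q hp h')]
        exact Nat.zero_le _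
      · simp [Nat.factorization_eq_zero_of_not_prime _ hp]
  have s2 : Squarefree (pp (fun p : SS δ N => ke a p (σ p)) * (t * ρ)) :=
    (Nat.squarefree_mul (cop hE hS _ hr)).2 ⟨s1, (Nat.squarefree_mul hc).2 ⟨ht.prime.squarefree, hρ⟩⟩
  have s3 : (pp (fun p : SS δ N => ke a p (σ p)) * (t * ρ)).Coprime (30 * a) :=
    Nat.coprime_of_dvd fun q hq h1 h2 => by
      rcases hq.dvd_mul.1 h1 with h1 | h1
      · exact (k4 ⟨q, h q hq h2⟩).1 h1 (by simp [ke, h2])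
      · exact hr q (h q hq h2) h1
  have m1 : (moebius (c1 a σ * (t * ρ)) : ℝ) = -(moebius (c1 a σ) * moebius ρ) := by
    rw [isMultiplicative_moebius.map_mul_of_coprime (m := c1 a σ) (cop hE hS _ hr),
      isMultiplicative_moebius.map_mul_of_coprime hc, moebius_apply_prime ht]
    push_cast
    ring
  have r0 : ((t * ρ : ℕ) : ℝ) ≠ 0 := Nat.cast_ne_zero.2 (mul_ne_zero ht.ne_zero hρ.ne_zero)
  have r1 : ((pp (fun p : SS δ N => ke a p (σ p)) : ℕ) : ℝ) ≠ 0 := Nat.cast_ne_zero.2 (by omega)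
  have l : Dj a (c0 a σ) * moebius (c1 a σ) * tau (c2 σ) *
      kz (zz δ N) (pp (fun p : SS δ N => ke a p (σ p)) * (t * ρ)) /
      pp (fun p : SS δ N => ke a p (σ p)) = ∏ p : SS δ N, uu a p (σ p) := loc hE hS ha h hσ hr
  simp only [tL, tR, wi, nn]
  rw [e, if_pos ⟨⟨s2, s3⟩, (dvd_mul_right t ρ).mul_left _⟩, m1, ← mul_assoc (c0 a σ), c01 hE hS,
    ← l, Nat.cast_mul _ (t * ρ), Real.log_mul r1 r0]
  field_simp

theorem core (hE : E1S) {δ : ℝ} {a N : ℕ} (hS : ∀ p ∈ SS δ N, p.Prime) (ha : 1 ≤ a)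
    (h : ∀ p : ℕ, p.Prime → p ∣ 30 * a → p ∈ SS δ N) (G : ℕ → ℝ)
    (hP : ∀ t ∈ PP N, t.Prime ∧ t ∉ SS δ N)
    (hK : ∀ k : ℕ, 1 ≤ k → psi δ N (Real.log k) ≠ 0 → k ≤ KK δ N)
    (hj : ∀ j0 ∈ J0 a, ∀ m j : ℕ, 1 ≤ m → 1 ≤ j → psi δ N (Real.log (m * j : ℕ)) ≠ 0 →
      G (j0 * m) ≠ 0 → ∀ q : ℕ, q.Prime → q ∣ j → q ∈ SS δ N) :
    ∑ y ∈ Fintype.piFinset (fun p : SS δ N => al a p) ×ˢ TR1 δ N, tR δ a N G y =
      ∑ x ∈ JJ δ a N ×ˢ (Icc 1 (KK δ N) ×ˢ PP N), tL δ a N G x := by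
  have mem : ∀ {σ : SS δ N → L2} {t ρ : ℕ},
      (σ, t, ρ) ∈ Fintype.piFinset (fun p : SS δ N => al a p) ×ˢ TR1 δ N ↔
      (∀ p : SS δ N, σ p ∈ al a p) ∧ (t ∈ PP N ∧ (1 ≤ ρ ∧ ρ ≤ KK δ N) ∧ rg (zz δ N) ρ) ∧
        ¬ t ∣ ρ := by
    intro σ t ρ
    simp only [TR1, TR, mem_product, Fintype.mem_piFinset, mem_filter, mem_Icc]
  have rgh : ∀ {t ρ : ℕ}, t ∈ PP N → rg (zz δ N) ρ → rg (zz δ N) (t * ρ) := fun ht hρ p hp hd => by
    rcases (hS p hp).dvd_mul.1 hd with hd | hd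
    · exact (hP _ ht).2 ((Nat.prime_dvd_prime_iff_eq (hS p hp) (hP _ ht).1).1 hd ▸ hp)
    · exact hρ p hp hd
  have trm : ∀ y ∈ Fintype.piFinset (fun p : SS δ N => al a p) ×ˢ TR1 δ N, tR δ a N G y ≠ 0 →
      tR δ a N G y = tL δ a N G ((c0 a y.1, c1 a y.1 * (y.2.1 * y.2.2)), c2 y.1, y.2.1) := by
    rintro ⟨σ, t, ρ⟩ hy h0
    obtain ⟨h1, ⟨h2, -, h4⟩, h5⟩ := mem.1 hy
    refine term hE hS ha h G h1 (hP t h2).1 h5 (rgh h2 h4) (moebius_ne_zero_iff_squarefree.1 ?_)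
    intro e
    simp [tR, wi, e] at h0
  have nz : ∀ {j0 m j t : ℕ}, tL δ a N G ((j0, m), j, t) ≠ 0 → (Squarefree (m * j) ∧
      (m * j).Coprime (30 * a)) ∧ t ∣ m * j ∧ psi δ N (Real.log (m * j : ℕ)) ≠ 0 ∧
      G (j0 * m) ≠ 0 := by
    intro j0 m j t h0
    simp only [tL] at h0
    split_ifs at h0 with k
    · exact ⟨k.1, k.2, right_ne_zero_of_mul (left_ne_zero_of_mul h0), right_ne_zero_of_mul h0⟩
    · exact (h0 rfl).elim
  refine sum_bij_ne_zero (fun y _ _ => ((c0 a y.1, c1 a y.1 * (y.2.1 * y.2.2)), c2 y.1, y.2.1))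
    ?_ ?_ ?_ trm
  · rintro ⟨σ, t, ρ⟩ hy h0
    obtain ⟨h1, ⟨h2, -, -⟩, -⟩ := mem.1 hy
    obtain ⟨⟨k1, -⟩, -, k2, -⟩ := nz (trm _ hy h0 ▸ h0)
    have k3 := hK _ (Nat.one_le_iff_ne_zero.2 k1.ne_zero) k2
    have k4 := Nat.pos_of_ne_zero (left_ne_zero_of_mul k1.ne_zero)
    have k5 := Nat.pos_of_ne_zero (right_ne_zero_of_mul k1.ne_zero)
    simp only [JJ, mem_product, mem_Icc]
    refine ⟨⟨?_, k4, (Nat.le_mul_of_pos_right _ k5).trans k3⟩,
      ⟨k5, (Nat.le_mul_of_pos_left _ k4).trans k3⟩, h2⟩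
    rw [J0_eq hE hS ha h, Nat.mem_divisors]
    refine ⟨((hE _ hS).2.2.1 _ _).2.2.1.2 fun p => ?_, ((hE _ hS).2.1 _).1.trans_lt' one_pos |>.ne'⟩
    rcases al_cases (h1 p) with k | k
    · simp [k.1, k.2.1]
    · simp [k.1]
  · rintro ⟨σ, t, ρ⟩ hy _ ⟨σ', t', ρ'⟩ hy' _ e
    obtain ⟨-, ⟨h2, h3, h4⟩, -⟩ := mem.1 hy
    obtain ⟨-, ⟨h2', h3', h4'⟩, -⟩ := mem.1 hy'
    simp only [Prod.mk.injEq] at e
    obtain ⟨⟨e0, e1⟩, e2, rfl⟩ := e
    have t0 := (hP t h2).1.ne_zero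
    have e3 : pp (fun p => (σ p).1) * (t * ρ) = pp (fun p => (σ' p).1) * (t * ρ') := by
      rw [← c01 hE hS a, ← c01 hE hS a, mul_assoc, e1, e0, mul_assoc]
    have e4 : σ = σ' := funext fun p => Prod.ext (by
      rw [← fac hE hS (fun p => (σ p).1) (mul_ne_zero t0 (by omega)) (rgh h2 h4) p, e3,
        fac hE hS (fun p => (σ' p).1) (mul_ne_zero t0 (by omega)) (rgh h2 h4') p])
      (congrFun (((hE _ hS).2.2.1 _ _).2.2.2.2 e2) p)
    subst e4
    rw [mul_left_cancel₀ t0 (mul_left_cancel₀ (((hE _ hS).2.1 _).1.trans_lt' one_pos).ne' e3)]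
  · rintro ⟨⟨j0, m⟩, j, t⟩ hx h0
    simp only [JJ, mem_product, mem_Icc] at hx
    obtain ⟨⟨x1, x2, x3⟩, ⟨x4, -⟩, x6⟩ := hx
    obtain ⟨⟨k1, k2⟩, k3, k4, k5⟩ := nz h0
    have j1 := hj j0 x1 m j x2 x4 k4 k5
    obtain ⟨ht, ht'⟩ := hP t x6
    obtain ⟨r, hr, hr'⟩ := split hE hS (m := m) (by omega)
    have d1 : t ∣ m := (ht.dvd_mul.1 k3).resolve_right fun d => ht' (j1 t ht d)
    obtain ⟨ρ, rfl⟩ : t ∣ r := by
      rw [hr] at d1
      exact (ht.dvd_mul.1 d1).resolve_left fun d => ht' (((hE _ hS).2.1 _).2.2.1 t ht d)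
    rw [J0_eq hE hS ha h, Nat.mem_divisors] at x1
    have j00 : j0 ≠ 0 := ne_zero_of_dvd_ne_zero x1.2 x1.1
    have ej0 := (hE _ hS).2.2.2 j0 (Nat.one_le_iff_ne_zero.2 j00) fun q hq d =>
      ((hE _ hS).2.1 _).2.2.1 q hq (d.trans x1.1)
    have b0 := ((hE _ hS).2.2.1 _ _).2.2.1.1 (ej0 ▸ x1.1)
    have b1 : ∀ p : ℕ, m.factorization p + j.factorization p ≤ 1 := fun p => by
      have := k1.natFactorization_le_one p
      rwa [Nat.factorization_mul (by omega) (by omega), Finsupp.add_apply] at this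
    have b2 : ∀ p : SS δ N, (p : ℕ) ∣ 30 * a → m.factorization p = 0 ∧ j.factorization p = 0 :=
      fun p d => by
        have : ¬ (p : ℕ) ∣ m * j := fun d' =>
          (hS p p.2).one_lt.ne' (Nat.eq_one_of_dvd_coprimes k2 d' d)
        exact ⟨Nat.factorization_eq_zero_of_not_dvd fun d' => this (d'.mul_right _),
          Nat.factorization_eq_zero_of_not_dvd fun d' => this (d'.mul_left _)⟩
    have d2 : t * ρ ∣ m := Dvd.intro_left _ hr.symm
    have hy : ((fun p : SS δ N => (j0.factorization p + m.factorization p, j.factorization p)), t, ρ) ∈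
        Fintype.piFinset (fun p : SS δ N => al a p) ×ˢ TR1 δ N := by
      refine mem.2 ⟨fun p => ?_, ⟨x6, ⟨Nat.pos_of_dvd_of_pos ((dvd_mul_left ρ t).trans d2) x2,
        (Nat.le_of_dvd x2 ((dvd_mul_left ρ t).trans d2)).trans x3⟩,
        fun p hp d => hr' p hp (d.mul_left _)⟩, fun d => ?_⟩
      · have := b0 p
        have := b1 p
        unfold al
        split_ifs at * with k
        · obtain ⟨u1, u2⟩ := b2 p k
          simp only [mem_product, mem_range, mem_singleton]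
          omega
        · simp only [mem_insert, mem_singleton, Prod.mk.injEq]
          omega
      · exact ht.not_isUnit (k1 t (((mul_dvd_mul_left t d).trans d2).mul_right _))
    have he : ((c0 a (fun p : SS δ N => (j0.factorization p + m.factorization p, j.factorization p)),
        c1 a (fun p : SS δ N => (j0.factorization p + m.factorization p, j.factorization p)) * (t * ρ)),
        c2 (fun p : SS δ N => (j0.factorization p + m.factorization p, j.factorization p)), t) =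
        ((j0, m), j, t) := by
      simp only [Prod.mk.injEq, and_true]
      refine ⟨⟨Eq.trans ?_ ej0.symm, Eq.trans ?_ hr.symm⟩, ((hE _ hS).2.2.2 j x4 j1).symm⟩
      · refine congrArg pp (funext fun p => ?_)
        have := b0 p
        split_ifs at * with k
        · simp [(b2 p k).1]
        · omega
      · refine congrArg (pp · * _) (funext fun p => ?_)
        have := b0 p
        split_ifs at * with k
        · exact (b2 p k).1.symm
        · simp only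
          omega
    have hq : Squarefree ρ := k1.squarefree_of_dvd (((dvd_mul_left ρ t).trans d2).mul_right _)
    obtain ⟨h1, -, h5⟩ := mem.1 hy
    exact ⟨_, hy, by rwa [term hE hS ha h G h1 ht h5 hr' hq, he], he⟩

theorem big {c ε : ℝ} (hε : 0 < ε) : ∀ᶠ N : ℕ in atTop, c ≤ (N : ℝ) ^ ε :=
  ((tendsto_rpow_atTop hε).comp tendsto_natCast_atTop_atTop).eventually_ge_atTop c

end O1aA

open O1aA

theorem o1aOf : O1aOf := by
  intro hE hD hW _ δ a hδ hδ' ha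
  obtain ⟨N₀, hN⟩ := eventually_atTop.1 ((big (c := 30 * a ^ 2) (ε := δ / 12) (by positivity)).and
    (eventually_ge_atTop 2))
  refine ⟨N₀, fun N h0 G hG => ?_⟩
  obtain ⟨h1, h2⟩ := hN N h0
  have n1 : (1 : ℝ) < N := by exact_mod_cast h2
  have n0 : (0 : ℝ) < N := by linarith
  have a1 : (1 : ℝ) ≤ a := by exact_mod_cast ha
  have hS : ∀ p ∈ SS δ N, p.Prime := fun p hp => (mem_filter.1 hp).2.1
  have inS : ∀ q : ℕ, q.Prime → (q : ℝ) ≤ zz δ N → q ∈ SS δ N := fun q hq h =>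
    mem_filter.2 ⟨mem_Icc.2 ⟨hq.one_le, Nat.le_floor h⟩, hq, by exact_mod_cast hq.one_lt⟩
  have h : ∀ p : ℕ, p.Prime → p ∣ 30 * a → p ∈ SS δ N := fun p hp hd => inS p hp (by
    have : (p : ℝ) ≤ (30 * a : ℕ) := Nat.cast_le.2 (Nat.le_of_dvd (by omega) hd)
    have := Real.rpow_le_rpow_of_exponent_le n1.le (show δ / 12 ≤ 1000 * δ by linarith)
    push_cast at *
    unfold zz
    nlinarith)
  have hP : ∀ t ∈ PP N, t.Prime ∧ t ∉ SS δ N := fun t ht => by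
    refine ⟨(mem_filter.1 ht).2.1, fun hs => ?_⟩
    have u1 := (mem_filter.1 ht).2.2
    have u2 := (Nat.le_floor_iff (by unfold zz; positivity)).1 (mem_Icc.1 (mem_filter.1 hs).1).2
    have := Real.rpow_le_rpow_of_exponent_le n1.le (show 1000 * δ ≤ 1 / 10000 by
      norm_num at hδ' ⊢; linarith)
    unfold zz at u2
    linarith
  have hψ : ∀ k : ℕ, 1 ≤ k → psi δ N (Real.log k) ≠ 0 → (k : ℝ) ≤ (N : ℝ) ^ (1 / 2 + δ / 2) :=
    fun k hk hp => by
      have := (((hW.2 δ N hδ h2).1 _).2.2.1 hp).2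
      rw [Real.le_rpow_iff_log_le (by exact_mod_cast hk) n0]
      exact this.le
  have hm : ∀ j0 ∈ J0 a, ∀ m : ℕ, G (j0 * m) ≠ 0 → (N : ℝ) ^ (1 / 2 - 3 * δ / 4) < m :=
    fun j0 hj m hg => by
      have u1 : (N : ℝ) ^ (1 / 2 - 2 * δ / 3) < (j0 * m : ℕ) := not_le.1 fun k => hg (hG _ k)
      have u2 : (j0 : ℝ) ≤ (30 * a ^ 2 : ℕ) :=
        Nat.cast_le.2 ((hD.2 a ha).2.2.2.2.2 j0 hj).2.1
      rw [show 1 / 2 - 2 * δ / 3 = δ / 12 + (1 / 2 - 3 * δ / 4) by ring, Real.rpow_add n0] at u1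
      push_cast at u1 u2
      refine lt_of_mul_lt_mul_left (u1.trans_le ?_) (Real.rpow_nonneg n0.le _)
      exact mul_le_mul_of_nonneg_right (u2.trans h1) (Nat.cast_nonneg _)
  have hc := core hE hS ha h G hP (fun k hk hp => Nat.le_floor (hψ k hk hp))
    fun j0 hj m j u1 u2 hp hg q hq hd => inS q hq (by
      have v1 := hψ _ (Nat.mul_pos u1 u2) hp
      have v2 := hm j0 hj m hg
      have v3 : (q : ℝ) ≤ j := Nat.cast_le.2 (Nat.le_of_dvd u2 hd)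
      have v4 := Real.rpow_le_rpow_of_exponent_le n1.le
        (show 1 / 2 + δ / 2 ≤ (1 / 2 - 3 * δ / 4) + 1000 * δ by linarith)
      rw [Real.rpow_add n0 (1 / 2 - 3 * δ / 4)] at v4
      push_cast at v1
      refine v3.trans (le_of_mul_le_mul_left ?_ (Real.rpow_pos_of_pos n0 (1 / 2 - 3 * δ / 4)))
      exact (mul_le_mul_of_nonneg_right v2.le (Nat.cast_nonneg _)).trans (v1.trans v4))
  rw [sum_product, sum_product] at hc
  simp only [tR, sum_neg_distrib] at hc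
  rw [neg_mul, ← mul_neg, hc, mul_sum]
  refine sum_congr rfl ?_
  rintro ⟨j0, m⟩ hi
  rw [sum_product, xx, xw, mul_sum, sum_mul, mul_sum]
  refine sum_congr rfl fun j hj => ?_
  simp only [tL, nn]
  by_cases hg : G (j0 * m) = 0
  · simp [hg]
  have v1 : ¬ ((m * j : ℕ) : ℝ) ≤ (N : ℝ) ^ (1 / 2 - 3 * δ / 4) := not_le.2
    ((hm j0 (mem_product.1 hi).1 m hg).trans_le
      (Nat.cast_le.2 (Nat.le_mul_of_pos_right _ (mem_Icc.1 hj).1)))
  rw [ww, wt, if_neg v1]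
  by_cases k : Squarefree (m * j) ∧ (m * j).Coprime (30 * a)
  · simp only [eq_true k, true_and, if_true]
    rw [← sum_filter, sum_const, nsmul_eq_mul, om]
    push_cast
    ring
  · simp only [eq_false k, false_and, if_false]
    simp

end Pool.Agent.MP_20b2fd_nt.H38
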