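import Pool.Agent.MP_20b2fd_nt.H38.SpecC

/-! The terms off the diagonal: assembly. -/

set_option autoImplicit false

namespace Pool.Agent.MP_20b2fd_nt.H38

open Finset Filter Topology

namespace OdsA

theorem ev (K δ : ℝ) (hK : 0 ≤ K) (hδ : 0 < δ) :
    ∀ᶠ N : ℕ in atTop, K * (1 + Real.log N) ≤ (N : ℝ) ^ δ := by
  have t2 := ((tendsto_rpow_atTop (half_pos hδ)).comp
    tendsto_natCast_atTop_atTop).eventually_ge_atTop (K * (1 + 2 / δ))
  filter_upwards [t2, eventually_ge_atTop 1] with N h2 h3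
  have hn : (1 : ℝ) ≤ N := Nat.one_le_cast.2 h3
  have a2 : 1 ≤ (N : ℝ) ^ (δ / 2) := Real.one_le_rpow hn (by positivity)
  have a3 : 1 + Real.log N ≤ (1 + 2 / δ) * (N : ℝ) ^ (δ / 2) := by
    have := Real.log_le_rpow_div (show (0 : ℝ) ≤ N by linarith) (half_pos hδ)
    rw [div_div_eq_mul_div, mul_div_assoc] at this
    linarith
  calc _ ≤ K * ((1 + 2 / δ) * (N : ℝ) ^ (δ / 2)) := by gcongr
    _ ≤ (N : ℝ) ^ (δ / 2) * (N : ℝ) ^ (δ / 2) := by
      rw [← mul_assoc]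
      exact mul_le_mul_of_nonneg_right h2 (by linarith)
    _ = _ := by rw [← Real.rpow_add (by linarith), add_halves]

theorem fin {C B a x L l m : ℝ} {A : ℕ} (hC : 1 ≤ C) (hB : 1 ≤ B) (ha : 1 ≤ a) (hx : 0 < x)
    (hL : 1 ≤ L) (h5 : 5 ≤ x * L) (hl0 : 0 ≤ l) (hl : l ≤ L) (hm : m ≤ 2 * L) :
    1 + 1 + (C * B * B ^ 3 * a ^ A * x * l * L + 1) + (C * B ^ 2 * m * B ^ 3 * a ^ A * x * l + 1) +
      1 ≤ (3 * C + 1) * (B * a) ^ (A + 5) * x * L ^ 2 := by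
  have h1 : B ^ 5 * a ^ A ≤ (B * a) ^ (A + 5) := by
    rw [mul_pow]
    gcongr <;> omega
  have h2 : 1 ≤ (B * a) ^ (A + 5) := one_le_pow₀ (one_le_mul_of_one_le_of_one_le hB ha)
  have h3 : C * B * B ^ 3 * a ^ A * x * l * L ≤ C * (B * a) ^ (A + 5) * x * L ^ 2 :=
    calc _ = C * (B ^ 4 * a ^ A) * x * (l * L) := by ring
      _ ≤ C * (B ^ 5 * a ^ A) * x * (L * L) := by gcongr; omega
      _ ≤ C * (B * a) ^ (A + 5) * x * (L * L) := by gcongr
      _ = _ := by ring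
  have h4 : C * B ^ 2 * m * B ^ 3 * a ^ A * x * l ≤ 2 * (C * (B * a) ^ (A + 5) * x * L ^ 2) :=
    calc _ = C * (B ^ 5 * a ^ A) * x * (m * l) := by ring
      _ ≤ C * (B ^ 5 * a ^ A) * x * (2 * L * L) :=
        mul_le_mul_of_nonneg_left (mul_le_mul hm hl hl0 (by positivity)) (by positivity)
      _ ≤ C * (B * a) ^ (A + 5) * x * (2 * L * L) := by gcongr
      _ = _ := by ring
  have h6 : 5 * 1 * 1 ≤ x * L * L * (B * a) ^ (A + 5) := by gcongr
  linarith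

end OdsA

theorem odsOf : OdsOf := by
  rintro hW hO hD ⟨C₁, hC₁, hM⟩ hK hC hL hF c hc hc'
  obtain ⟨C₂, A, hC₂, hF⟩ := hF c hc hc'
  have hCC : 1 ≤ C₂ * C₁ := one_le_mul_of_one_le_of_one_le hC₂ hC₁
  refine ⟨3 * (C₂ * C₁) + 1, A + 5, by linarith, fun δ B a K hδ hδc hB ha hk => ?_⟩
  have hδ1 : δ ≤ 1 / 10 ^ 10 := hδc.trans (by gcongr; linarith)
  obtain ⟨N₁, h1⟩ := hW.1 1 one_pos
  obtain ⟨N₂, h2⟩ := hO δ a hδ hδ1 ha
  obtain ⟨N₃, h3⟩ := hD δ a hδ hδ1 ha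
  obtain ⟨N₄, h4⟩ := hK.2 δ B K hδ hB hk
  obtain ⟨N₅, h5⟩ := hC δ B a K hδ hδ1 hB ha hk
  obtain ⟨N₆, h6⟩ := hF δ a hδ hδc ha
  have tl := Real.tendsto_log_atTop.comp (tendsto_natCast_atTop_atTop (R := ℝ))
  refine eventually_atTop.1 ?_
  filter_upwards [eventually_ge_atTop N₁, eventually_ge_atTop N₂, eventually_ge_atTop N₃,
    eventually_ge_atTop N₄, eventually_ge_atTop N₅, eventually_ge_atTop N₆, eventually_ge_atTop 2,
    OdsA.ev (C₁ * B ^ 2) δ (by positivity) hδ, OdsA.ev 10 δ (by norm_num) hδ,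
    tl.eventually_ge_atTop 1,
    (tl.const_mul_atTop (Real.exp_pos (-c / (4000 * δ)))).eventually_ge_atTop 5]
    with N n1 n2 n3 n4 n5 n6 n7 e1 e2 e3 e4 hp hZ
  simp only [Function.comp] at e3 e4
  have hn : (1 : ℝ) < N := Nat.one_lt_cast.2 n7
  have hn0 : (0 : ℝ) < N := by linarith
  have hz : 1 < zz δ N := Real.one_lt_rpow hn (by positivity)
  have hη0 : 0 < (N : ℝ) ^ (-4 * δ) := by positivity
  have m4 : (N : ℝ) ^ δ ≤ (N : ℝ) ^ (4 * δ) := Real.rpow_le_rpow_of_exponent_le hn.le (by linarith)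
  have hη : (N : ℝ) ^ (-4 * δ) ≤ 1 / 10 := by
    rw [neg_mul, Real.rpow_neg hn0.le, one_div]
    gcongr
    linarith
  have neg : ∀ x : ℝ, x ≤ 0 → (N : ℝ) ^ x ≤ 1 := fun x hx =>
    Real.rpow_le_one_of_one_le_of_nonpos hn.le hx
  obtain ⟨k1, k2, -⟩ := hM B _ K hB hk hη0 hη
  obtain ⟨c1, c2, c3⟩ := h5 N n5
  have hlog : 1 + |Real.log ((N : ℝ) ^ (-4 * δ))| ≤ 1 + Real.log N := by
    rw [Real.log_rpow hn0, abs_mul, abs_of_nonneg (show 0 ≤ Real.log N by linarith), neg_mul,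
      abs_neg, abs_of_pos (by positivity)]
    nlinarith
  have b0 : B ≤ C₁ * B := le_mul_of_one_le_left (by linarith) hC₁
  have b1 : C₁ * B ≤ C₁ * B ^ 2 := by
    gcongr
    exact le_self_pow₀ hB two_ne_zero
  have b2 : C₁ * B ^ 2 ≤ (N : ℝ) ^ δ :=
    (le_mul_of_one_le_right (by positivity) (by linarith)).trans e1
  have b3 : C₁ * B ^ 2 / ((N : ℝ) ^ (-4 * δ)) ^ 9 ≤ (N : ℝ) ^ (40 * δ) := by
    rw [div_le_iff₀ (by positivity), ← Real.rpow_natCast ((N : ℝ) ^ (-4 * δ)), ← Real.rpow_mul hn0.le,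
      ← Real.rpow_add hn0]
    refine (b2.trans m4).trans_eq ?_
    congr 1
    push_cast
    ring
  have f1 := (h6 N B _ _ _ n6 hp hZ hB (by linarith) (by linarith)
    (le_trans (by gcongr) b3) k1).2
  have f2 := (h6 N B _ _ _ n6 hp hZ hB (by linarith) (le_trans (by gcongr) e1) b3 k2).1
  have d1 := h3 N _ _ n3 hp (hK.1 _ hz) (h4 N n4)
  obtain ⟨D, -, -, hk0, -⟩ := hk
  have l1 := (hL δ (zz δ N) a N (Pq (zz δ N)) hδ n7).2 K B ((N : ℝ) ^ (-4 * δ)) hk0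
  have o1 := h2 N n2 (Od K N) c1
  have hlam := (h1 N n1).1
  have g1 : |Bl (JJ δ a N) nn (xx δ a N) (Od K N)| ≤ ‖TS δ a N (TR1 δ N) fun m => Od K N m‖ := by
    rw [← Real.norm_eq_abs, ← Complex.norm_real, o1, norm_mul, Complex.norm_real,
      Real.norm_of_nonneg (sq_nonneg _)]
    refine mul_le_of_le_one_left (norm_nonneg _) (pow_le_one₀ (by positivity) ?_)
    rw [div_le_one (by positivity)]
    linarith
  have g2 := norm_sub_norm_le (TS δ a N (TR1 δ N) fun m => Od K N m)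
    (TS δ a N (TR δ N) fun m => Od K N m)
  rw [norm_sub_rev] at g2
  have g3 := (congrArg norm l1).trans_le ((norm_add_le _ _).trans (add_le_add
    ((norm_add_le _ _).trans (add_le_add ((norm_add_le _ _).trans (add_le_add
      (c2.trans (neg _ (by linarith))) (d1.trans (neg _ (by linarith))))) f1)) f2))
  have g4 := OdsA.fin (A := A) (a := a) (l := Real.log (zz δ N))
    (m := 1 + |Real.log ((N : ℝ) ^ (-4 * δ))|) hCC hB (Nat.one_le_cast.2 ha) (Real.exp_pos _) e3 e4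
    (Real.log_nonneg hz.le) (by rw [zz, Real.log_rpow hn0]; nlinarith) (by linarith)
  have g5 := c3.trans (neg _ (by linarith))
  linarith

end Pool.Agent.MP_20b2fd_nt.H38
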