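import Pool.Agent.MP_20b2fd_nt.H38.SpecC

/-! The residue at one is small. -/

set_option autoImplicit false

namespace Pool.Agent.MP_20b2fd_nt.H38

open Complex Finset Filter Topology
open Pool.Agent.MP_c5bf7b_nt.H38 (Phi Ch)

namespace ResA

theorem single {z : ℝ} (hz : 1 ≤ z) (N : ℕ) (k : ℝ → ℝ) (G : CC → ℂ → ℂ) :
    ∑ x ∈ pcs z, x.2⁻¹ N / ((x.1 + 1).totient : ℂ) * VR k x (G x) =
      deriv (fun s => mel k 1 s * Phi x1.2 s ^ 2 * G x1 s) 1 := by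
  rw [sum_eq_single_of_mem x1]
  · have : x1.2⁻¹ N = 1 := by
      rw [show x1.2⁻¹ = 1 from inv_one]
      exact MulChar.one_apply (isUnit_of_subsingleton (M := ZMod 1) _)
    rw [this, VR, if_pos (show x1.2 = 1 from rfl)]
    simp [x1]
  · simp only [pcs, mem_sigma, mem_range, mem_filter, mem_univ, true_and]
    exact ⟨Nat.floor_pos.2 hz, DirichletCharacter.isPrimitive_one_level_one⟩
  · rintro ⟨i, χ⟩ hx ne
    simp only [pcs, mem_sigma, mem_range, mem_filter, mem_univ, true_and] at hx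
    rw [VR, if_neg, mul_zero]
    rintro (rfl : χ = 1)
    obtain rfl : 0 = i := Nat.succ_injective (DirichletCharacter.conductor_one.symm.trans hx.2)
    exact ne rfl

theorem lin (δ : ℝ) (a N : ℕ) (Φ : ℕ → ℝ) (x : CC) (s w : ℂ) :
    XX δ a N Φ x s w = XX δ a N (fun _ => 1) x s w - XX δ a N (fun q => 1 - Φ q) x s w := by
  simp only [XX, ← sum_sub_distrib]
  refine sum_congr rfl fun y _ => ?_
  push_cast
  ring

end ResA

theorem resOf : ResOf := by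
  rintro ⟨C, hC, hP⟩ ⟨D, hD, hM⟩ hF h0 h1 δ a d0 d1 a1
  obtain ⟨N₁, h1⟩ := h1 δ a d0 d1 a1
  obtain ⟨p1, -, -, -, -, -, p2⟩ := hP 1 x1.2
  obtain ⟨N₀, hN⟩ := eventually_atTop.1 ((((tendsto_rpow_atTop d0).comp
    tendsto_natCast_atTop_atTop).eventually_ge_atTop (1152 * D * C ^ 2 / δ ^ 2 + 5)).and
    (((Real.tendsto_log_atTop.comp tendsto_natCast_atTop_atTop).eventually_ge_atTop 4).and
      (eventually_ge_atTop (max N₁ 2))))
  refine ⟨N₀, fun N R B E Φ k V n0 hΦ R1 hR hE hk hV => ?_⟩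
  obtain ⟨t1, l1, n1⟩ := hN N n0
  simp only [Function.comp] at t1 l1
  have N0 : (0 : ℝ) ≤ N := N.cast_nonneg
  have l2 := Real.log_le_rpow_div N0 d0
  have pw : ∀ n : ℕ, (N : ℝ) ^ (n * δ) = ((N : ℝ) ^ δ) ^ n := fun n => by
    rw [mul_comm, Real.rpow_mul_natCast N0]
  have k0 : 0 ≤ 1152 * D * C ^ 2 / δ ^ 2 := by positivity
  have z5 : 5 ≤ zz δ N :=
    le_trans (by linarith) ((le_self_pow₀ (by linarith) (by norm_num)).trans_eq (pw 1000).symm)
  replace h1 := fun s w => h1 N Φ s w (le_of_max_le_left n1) hΦ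
  obtain ⟨c1, c2⟩ := h0 δ a N d0 (le_of_max_le_right n1) a1
  obtain ⟨-, -, m1, m2⟩ := hM R B E 1 k R1 hk abs_one
  rw [neg_mul, Real.rpow_neg N0, show (200 : ℝ) = (200 : ℕ) by simp, pw] at h1
  rw [show (40 : ℝ) = (40 : ℕ) by simp, pw] at hE
  rw [Real.rpow_neg N0]
  generalize (N : ℝ) ^ δ = T at *
  generalize Real.log N = L at *
  have T1 : 1 ≤ T := by linarith
  have r0 : 0 < 1 / L := by positivity
  have r1 : 1 / L ≤ 1 / 4 := by gcongr
  have re : ∀ s : ℂ, 1 - ‖s - 1‖ ≤ s.re ∧ s.re ≤ 1 + ‖s - 1‖ := fun s => by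
    have := abs_le.1 (abs_re_le_norm (s - 1))
    rw [sub_re, one_re] at this
    constructor <;> linarith
  have dA : DifferentiableOn ℂ (fun s => mel k 1 s * Phi x1.2 s ^ 2) (Metric.ball 1 (2 * (1 / L))) :=
    fun s hs => ((m1 s (by linarith [re s, mem_ball_iff_norm.1 hs])).2.mul
      ((p1 s).pow 2)).differentiableWithinAt
  have bA : ∀ s : ℂ, ‖s - 1‖ ≤ 1 / L → ‖mel k 1 s * Phi x1.2 s ^ 2‖ ≤ 1152 * D * C ^ 2 * T ^ 47 := by
    intro s hs
    have s1 : 3 / 4 ≤ s.re := by linarith [re s]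
    have s2 : 3 / 4 ≤ ‖s‖ := s1.trans (re_le_norm s)
    have s3 : ‖s‖ ≤ 5 / 4 := by linarith [norm_le_norm_add_norm_sub' s 1, norm_one (α := ℂ)]
    have b1 : ‖mel k 1 s‖ ≤ D * T ^ 40 * T ^ 7 * (1 + 1 / (3 / 4)) / (3 / 4) ^ 4 :=
      (m2 s (by linarith) (by linarith [re s])).trans (by gcongr)
    have b2 : ‖Phi x1.2 s‖ ≤ C * (1 : ℕ) * (1 + 5 / 4) ^ 2 * (1 + 1 / (3 / 4)) :=
      (p2 s (by linarith)).1.trans (by gcongr)
    rw [norm_mul, norm_pow]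
    calc _ ≤ (8 * (D * T ^ 47)) * (12 * C) ^ 2 := by
          gcongr
          · have : 0 ≤ D * T ^ 47 := by positivity
            norm_num at b1
            linarith
          · push_cast at b2
            linarith
      _ = _ := by ring
  obtain ⟨f1, -, f2⟩ := hF _ (fun s w => (N : ℂ) ^ (-s) * XX δ a N (fun _ => 1) x1 s w) _ r0 dA
    (c1 _)
  obtain ⟨g1, g2, -⟩ := hF _ (fun s w => (N : ℂ) ^ (-s) * XX δ a N (fun q => 1 - Φ q) x1 s w) _ r0
    dA (c1 _)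
  obtain ⟨f2, f3⟩ := f2 (c2 z5)
  obtain ⟨g2, g3⟩ := g2 (1152 * D * C ^ 2 * T ^ 47 * (T ^ 200)⁻¹) fun s w hs hw => by
    rw [norm_mul]
    exact mul_le_mul (bA s hs) (h1 s w hs hw) (norm_nonneg _) (by positivity)
  have df : ∀ (Ψ : ℕ → ℝ) (w : ℂ), DifferentiableAt ℂ (fun s => mel k 1 s * Phi x1.2 s ^ 2 *
      ((N : ℂ) ^ (-s) * XX δ a N Ψ x1 s w)) 1 := fun Ψ w =>
    (dA.differentiableAt (Metric.ball_mem_nhds _ (by positivity))).mul
      ((((c1 Ψ).differentiable two_ne_zero) (1, w)).comp 1 (f := fun s => (s, w)) (by fun_prop))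
  have e : V = (fun w => deriv (fun s => mel k 1 s * Phi x1.2 s ^ 2 *
      ((N : ℂ) ^ (-s) * XX δ a N (fun _ => 1) x1 s w)) 1) - fun w => deriv (fun s => mel k 1 s *
      Phi x1.2 s ^ 2 * ((N : ℂ) ^ (-s) * XX δ a N (fun q => 1 - Φ q) x1 s w)) 1 := by
    rw [hV]
    funext w
    rw [ResA.single (by linarith) N k fun x s => (N : ℂ) ^ (-s) * XX δ a N Φ x s w, Pi.sub_apply,
      ← deriv_fun_sub (df _ w) (df _ w)]
    simp only [ResA.lin δ a N Φ, mul_sub]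
  have fin : 1152 * D * C ^ 2 * T ^ 47 * (T ^ 200)⁻¹ / (1 / L) ^ 2 ≤ T⁻¹ := by
    calc _ = 1152 * D * C ^ 2 * L ^ 2 / T ^ 153 := by field_simp
      _ ≤ 1152 * D * C ^ 2 * (T / δ) ^ 2 / T ^ 4 := by gcongr; norm_num
      _ = 1152 * D * C ^ 2 / δ ^ 2 / T ^ 2 := by field_simp
      _ ≤ T / T ^ 2 := by gcongr; linarith
      _ = _ := by field_simp
  rw [e]
  refine ⟨f1.sub g1, ?_, ?_⟩
  · rw [Pi.sub_apply, f2, zero_sub, norm_neg]
    refine g2.trans (le_trans ?_ fin)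
    gcongr
    nlinarith
  · rw [deriv_sub (f1 0) (g1 0), f3, zero_sub, norm_neg]
    exact g3.trans fin

end Pool.Agent.MP_20b2fd_nt.H38
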