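import Pool.Agent.MP_20b2fd_nt.H38.SpecC

/-! Row Rs0: smoothness and the triple zero of the residue term. -/

set_option autoImplicit false

namespace Pool.Agent.MP_20b2fd_nt.H38

open Complex Finset Filter Topology Asymptotics

namespace Rs0A

theorem peel {ι α : Type} [Fintype ι] [DecidableEq ι] (P : ι → Prop) [DecidablePred P]
    (T : ι → Finset α) (b : α) (f : ι → α → ℂ) (H : (ι → α) → ℂ)
    (hH : ∀ y, H y = H fun p => if P p then b else y p) :
    ∑ y ∈ Fintype.piFinset T, (∏ p, f p (y p)) * H y =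
      (∏ p, if P p then ∑ c ∈ T p, f p c else 1) *
        ∑ y ∈ Fintype.piFinset (fun p => if P p then {b} else T p),
          (∏ p, if P p then 1 else f p (y p)) * H y := by
  have h1 : (∏ p, if P p then ∑ c ∈ T p, f p c else 1) =
      ∏ p, ∑ c ∈ (if P p then T p else {b}), if P p then f p c else 1 :=
    prod_congr rfl fun p _ => by split_ifs <;> simp
  rw [h1, prod_univ_sum, sum_mul_sum, ← sum_product']
  refine sum_nbij' (fun y => (fun p => if P p then y p else b, fun p => if P p then b else y p))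
    (fun z p => if P p then z.1 p else z.2 p) ?_ ?_ ?_ ?_ ?_
  · intro y hy
    simp only [mem_product, Fintype.mem_piFinset] at hy ⊢
    exact ⟨fun p => by split_ifs <;> simp [hy], fun p => by split_ifs <;> simp [hy]⟩
  · intro z hz
    simp only [mem_product, Fintype.mem_piFinset] at hz ⊢
    intro p
    have h2 := hz.1 p
    have h3 := hz.2 p
    split_ifs at h2 h3 ⊢ <;> assumption
  · intro y _
    funext p
    split_ifs with h <;> simp [h]
  · intro z hz
    simp only [mem_product, Fintype.mem_piFinset] at hz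
    refine Prod.ext (funext fun p => ?_) (funext fun p => ?_)
    · have h2 := hz.1 p
      by_cases h : P p <;> simp_all
    · have h2 := hz.2 p
      by_cases h : P p <;> simp_all
  · intro y _
    rw [← mul_assoc, ← prod_mul_distrib, ← hH y]
    congr 1
    exact prod_congr rfl fun p _ => by split_ifs with h <;> simp [h]

theorem cd {n : ℕ} (hn : n ≠ 0) {g : ℂ × ℂ → ℂ} (hg : ContDiff ℂ 2 g) :
    ContDiff ℂ 2 fun u => (n : ℂ) ^ g u := by
  simp only [cpow_def_of_ne_zero (Nat.cast_ne_zero.2 hn)]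
  exact (contDiff_const.mul hg).cexp

/-- the local term -/
noncomputable def ft (a p : ℕ) (y : L5) (u : ℂ × ℂ) : ℂ :=
  lt a p y (x1.2⁻¹ p * (p : ℂ) ^ (-u.1)) (x1.2 p * (p : ℂ) ^ u.1) 1 1 ((p : ℂ) ^ u.2)
    ((p : ℂ) ^ (-2 * u.2)) ((p : ℂ) ^ (-2 * u.2))

theorem ft_cd (a : ℕ) {p : ℕ} (hp : p ≠ 0) (y : L5) : ContDiff ℂ 2 (ft a p y) := by
  have h1 := cd hp (g := fun u => -u.1) (by fun_prop)
  have h2 := cd hp (g := fun u => u.1) (by fun_prop)
  have h3 := cd hp (g := fun u => u.2) (by fun_prop)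
  have h4 := cd hp (g := fun u => -2 * u.2) (by fun_prop)
  unfold ft lt hl
  split_ifs <;> fun_prop

theorem ft_zero (hL : LzS) {a p : ℕ} (hp : p.Prime) (h : p ∣ 30 * a) :
    ∑ y ∈ al5 a 1 p, ft a p y (1, 0) = 0 := by
  have h1 : ∀ (χ : DirichletCharacter ℂ 1) (n : ZMod 1), χ n = 1 := fun χ n => by
    rw [Subsingleton.elim n 1, map_one]
  have h2 : x1.2 p = 1 := h1 _ _
  have h3 : x1.2⁻¹ p = 1 := h1 _ _
  refine Eq.trans (sum_congr rfl fun y _ => ?_) (hL a p 1 1 hp h)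
  simp only [ft, h2, h3, cpow_neg_one, cpow_one, cpow_zero, mul_zero, one_mul, one_div]

/-- the remaining factor -/
noncomputable def gt (δ : ℝ) (a N : ℕ) (Φ : ℕ → ℝ) (u : ℂ × ℂ) (y : SS δ N → L5) : ℂ :=
  (N : ℂ) ^ (-u.1) * ((x1.1 + 1 : ℕ) : ℂ) ^ (-2 * u.2) *
    Φ (pp (fun p => (y p).2.1) * (x1.1 + 1) * pp fun p => (y p).2.2) *
    AX δ N x1 (1 - u.1 - u.2) (Real.log (k1 a fun p => (y p).1)) *
    AX δ N x1 (1 - u.1 - u.2) (Real.log (k2 a fun p => (y p).1))

theorem xx_eq (δ : ℝ) (a N : ℕ) (Φ : ℕ → ℝ) (u : ℂ × ℂ) :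
    (N : ℂ) ^ (-u.1) * XX δ a N Φ x1 u.1 u.2 =
      ∑ y ∈ Fintype.piFinset (fun p : SS δ N => al5 a 1 p),
        (∏ p : SS δ N, ft a p (y p) u) * gt δ a N Φ u y := by
  rw [XX, mul_sum]
  refine sum_congr rfl fun y _ => ?_
  simp only [ft, gt]
  ring

theorem gt_cd {δ : ℝ} (a : ℕ) {N : ℕ} (hN : N ≠ 0) (hT : ∀ i ∈ TR δ N, 1 ≤ nn i) (Φ : ℕ → ℝ)
    (y : SS δ N → L5) : ContDiff ℂ 2 fun u => gt δ a N Φ u y := by
  have h1 : ∀ t : ℝ, ContDiff ℂ 2 fun u : ℂ × ℂ => AX δ N x1 (1 - u.1 - u.2) t := fun t =>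
    ContDiff.sum fun i hi => (contDiff_const.mul
      (cd (Nat.one_le_iff_ne_zero.1 (hT i hi)) (by fun_prop))).mul contDiff_const
  exact ((((cd hN (by fun_prop)).mul (cd (Nat.succ_ne_zero _) (by fun_prop))).mul
    contDiff_const).mul (h1 _)).mul (h1 _)

theorem dvd30 {p : ℕ} (a : ℕ) (h : p ∈ ({2, 3, 5} : Finset ℕ)) : p.Prime ∧ p ≤ 5 ∧ p ∣ 30 * a := by
  simp only [mem_insert, mem_singleton] at h
  rcases h with rfl | rfl | rfl <;>
    exact ⟨by norm_num, by norm_num, Dvd.dvd.mul_right (by norm_num) a⟩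

end Rs0A

open Rs0A in
theorem rs0Of : Rs0Of := by
  intro _ hS hL δ a N hδ hN _
  obtain ⟨hP, hT⟩ := hS.2 δ N hδ hN
  have hN0 : N ≠ 0 := by omega
  have hT1 : ∀ i ∈ TR δ N, 1 ≤ nn i := fun i hi => (hT i hi).1
  have hf : ∀ (p : SS δ N) (y : L5), ContDiff ℂ 2 (ft a p y) := fun p y =>
    ft_cd a (hP p p.2).ne_zero y
  refine ⟨fun Φ => ?_, fun hz => ?_⟩
  · simp only [xx_eq]
    exact ContDiff.sum fun y _ => (contDiff_prod fun p _ => hf p _).mul (gt_cd a hN0 hT1 Φ y)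
  have hI : ∀ (u : ℂ × ℂ) (y : SS δ N → L5), gt δ a N (fun _ => 1) u y = gt δ a N (fun _ => 1) u
      fun p => if (p : ℕ) ∈ ({2, 3, 5} : Finset ℕ) then 0 else y p := fun u y => by
    have h1 : k1 a (fun p => (y p).1) = k1 a
        fun p => (if (p : ℕ) ∈ ({2, 3, 5} : Finset ℕ) then 0 else y p).1 :=
      congrArg pp (funext fun p => by
        beta_reduce
        split_ifs with h
        · simp only [ke, if_pos (dvd30 a h).2.2]
        · rfl)
    have h2 : k2 a (fun p => (y p).1) = k2 a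
        fun p => (if (p : ℕ) ∈ ({2, 3, 5} : Finset ℕ) then 0 else y p).1 :=
      congrArg pp (funext fun p => by
        beta_reduce
        split_ifs with h
        · simp only [ke, if_pos (dvd30 a h).2.2]
        · rfl)
    simp only [gt, h1, h2]
  have h1 : (fun u : ℂ × ℂ => ∏ p : SS δ N, if (p : ℕ) ∈ ({2, 3, 5} : Finset ℕ) then
      ∑ c ∈ al5 a 1 p, ft a p c u else 1) =O[𝓝 (1, 0)]
      fun u => ∏ p : SS δ N, if (p : ℕ) ∈ ({2, 3, 5} : Finset ℕ) then ‖u.1 - 1‖ + ‖u.2‖ else 1 := by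
    refine IsBigO.finsetProd fun p _ => ?_
    split_ifs with h
    · have h2 := (((ContDiff.sum (s := al5 a 1 p) fun c _ => hf p c).differentiable
        two_ne_zero) (1, 0)).isBigO_sub
      simp only [ft_zero hL (dvd30 a h).1 (dvd30 a h).2.2, sub_zero] at h2
      refine h2.trans (IsBigO.of_norm_le fun u => ?_)
      rw [Prod.norm_def]
      simp only [Prod.fst_sub, Prod.snd_sub, sub_zero]
      exact max_le (le_add_of_nonneg_right (norm_nonneg _)) (le_add_of_nonneg_left (norm_nonneg _))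
    · exact isBigO_const_const _ one_ne_zero _
  have h2 : (fun u : ℂ × ℂ => ∑ y ∈ Fintype.piFinset (fun p : SS δ N =>
      if (p : ℕ) ∈ ({2, 3, 5} : Finset ℕ) then {0} else al5 a 1 p),
      (∏ p : SS δ N, if (p : ℕ) ∈ ({2, 3, 5} : Finset ℕ) then 1 else ft a p (y p) u) *
        gt δ a N (fun _ => 1) u y) =O[𝓝 (1, 0)] fun _ => (1 : ℝ) := by
    refine (Continuous.tendsto (continuous_finsetSum _ fun y _ => Continuous.mul
      (continuous_finsetProd _ fun p _ => ?_) (gt_cd a hN0 hT1 _ y).continuous) _).isBigO_one ℝ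
    split_ifs
    · exact continuous_const
    · exact (hf p _).continuous
  have h3 : SS δ N ∩ {2, 3, 5} = {2, 3, 5} := inter_eq_right.2 fun p h => by
    obtain ⟨h1, h2, -⟩ := dvd30 a h
    simp only [SS, pz, prs, mem_filter, mem_Icc]
    exact ⟨⟨h1.one_le, h2.trans (Nat.le_floor (by exact_mod_cast hz))⟩, h1,
      by exact_mod_cast h1.one_lt⟩
  obtain ⟨C, hC⟩ := (h1.mul h2).bound
  refine ⟨C, hC.mono fun u hu => ?_⟩
  rw [xx_eq, peel (fun p : SS δ N => (p : ℕ) ∈ ({2, 3, 5} : Finset ℕ)) _ 0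
    (fun p c => ft a p c u) _ (hI u)]
  refine hu.trans (le_of_eq ?_)
  rw [prod_coe_sort (SS δ N) fun p => if p ∈ ({2, 3, 5} : Finset ℕ) then ‖u.1 - 1‖ + ‖u.2‖ else 1,
    prod_ite_mem, h3, prod_const, mul_one, Real.norm_of_nonneg (by positivity)]
  rfl

end Pool.Agent.MP_20b2fd_nt.H38
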