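import Pool.Agent.MP_20b2fd_nt.H38.SpecC

/-! The tail of the residue. -/

set_option autoImplicit false

namespace Pool.Agent.MP_20b2fd_nt.H38

open Finset Filter Topology

namespace Rs1A

theorem big (D ε T : ℝ) (n : ℕ) (hD : 0 < D) (hε : 0 < ε) : ∃ N₀ : ℕ, ∀ N : ℕ, N₀ ≤ N →
    D * (1 + Real.log N) ^ n ≤ Real.exp (ε * Real.log N) ∧ T ≤ Real.log N := by
  have h1 := (isLittleO_pow_exp_pos_mul_atTop n hε).bound
    (show (0 : ℝ) < 1 / (D * 2 ^ n) by positivity)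
  have h2 : ∀ᶠ x : ℝ in atTop, D * (1 + x) ^ n ≤ Real.exp (ε * x) ∧ T ≤ x := by
    filter_upwards [h1, eventually_ge_atTop 1, eventually_ge_atTop T] with x h3 h4 h5
    refine ⟨?_, h5⟩
    rw [Real.norm_of_nonneg (by positivity), Real.norm_of_nonneg (Real.exp_pos _).le,
      div_mul_eq_mul_div, one_mul, le_div_iff₀ (by positivity)] at h3
    calc D * (1 + x) ^ n ≤ D * (2 * x) ^ n := by gcongr; linarith
      _ = x ^ n * (D * 2 ^ n) := by ring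
      _ ≤ _ := h3
  exact eventually_atTop.1
    ((Real.tendsto_log_atTop.comp tendsto_natCast_atTop_atTop).eventually h2)

theorem loc (a p : ℕ) (hp : 0 < p) (y : L5) (hy : y.2.1 ≤ mx y.1) (s w X : ℂ) :
    ‖lt a p y X ((p : ℂ) ^ s) 1 1 ((p : ℂ) ^ w) ((p : ℂ) ^ (-2 * w)) ((p : ℂ) ^ (-2 * w))‖ *
        (((p : ℝ) ^ (1 / 2 : ℝ)) ^ y.2.1 * ((p : ℝ) ^ (1 / 2 : ℝ)) ^ y.2.2) =
      ((p : ℝ) ^ (s.re + w.re)) ^ mx y.1 *
        ‖lt a p y X 1 1 1 1 (((p : ℝ) ^ (1 / 2 - s.re - 2 * w.re) : ℝ) : ℂ)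
          (((p : ℝ) ^ (1 / 2 - 2 * w.re) : ℝ) : ℂ)‖ := by
  have h0 : (0 : ℝ) < p := Nat.cast_pos.2 hp
  obtain ⟨t, ht⟩ := Nat.exists_eq_add_of_le hy
  have e0 : (-2 * w).re = -2 * w.re := by simp
  have e1 : (p : ℝ) ^ (s.re + w.re) * (p : ℝ) ^ (1 / 2 - s.re - 2 * w.re) =
      (p : ℝ) ^ w.re * (p : ℝ) ^ (-2 * w.re) * (p : ℝ) ^ (1 / 2 : ℝ) := by
    rw [← Real.rpow_add h0, ← Real.rpow_add h0, ← Real.rpow_add h0]
    congr 1; ring
  have e2 : (p : ℝ) ^ (1 / 2 - 2 * w.re) = (p : ℝ) ^ (-2 * w.re) * (p : ℝ) ^ (1 / 2 : ℝ) := by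
    rw [← Real.rpow_add h0]
    congr 1; ring
  have e3 : (p : ℝ) ^ (s.re + w.re) = (p : ℝ) ^ s.re * (p : ℝ) ^ w.re := Real.rpow_add h0 _ _
  simp only [lt, norm_mul, norm_pow, one_pow, mul_one,
    Complex.norm_natCast_cpow_of_pos hp, e0, Complex.norm_real,
    Real.norm_of_nonneg (Real.rpow_nonneg h0.le _)]
  generalize ‖hl p y.2.1 y.2.2 (y.2.1 = mx y.1) X‖ = H
  rw [ht, Nat.add_sub_cancel_left]
  calc _ = ((p : ℝ) ^ s.re * (p : ℝ) ^ w.re) ^ t *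
        ((p : ℝ) ^ w.re * (p : ℝ) ^ (-2 * w.re) * (p : ℝ) ^ (1 / 2 : ℝ)) ^ y.2.1 *
        ((p : ℝ) ^ (-2 * w.re) * (p : ℝ) ^ (1 / 2 : ℝ)) ^ y.2.2 * (‖u3 a p y.1‖ * H) := by
        simp only [mul_pow, pow_add]; ring
    _ = _ := by
        rw [← e1, ← e2, ← e3]
        simp only [mul_pow, pow_add]; ring

theorem pp_rpow {S : Finset ℕ} (c : S → ℕ) (r : ℝ) :
    ((pp c : ℕ) : ℝ) ^ r = ∏ p : S, (((p : ℕ) : ℝ) ^ r) ^ c p := by
  rw [pp, Nat.cast_prod, ← Real.finsetProd_rpow _ _ fun _ _ => Nat.cast_nonneg _]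
  refine prod_congr rfl fun p _ => ?_
  rw [Real.rpow_pow_comm (Nat.cast_nonneg _), Nat.cast_pow]

theorem tail {z : ℝ} {Φ : ℕ → ℝ} (h : PhOK z Φ) (hz : 0 < z) (m : ℕ) :
    |1 - Φ m| ≤ (m : ℝ) ^ (1 / 2 : ℝ) * z ^ (-(1 / 4) : ℝ) := by
  by_cases h1 : (m : ℝ) ^ 2 ≤ z
  · rw [h.2.1 m h1, sub_self, abs_zero]
    positivity
  · have h2 : z ^ (1 / 4 : ℝ) ≤ (m : ℝ) ^ (1 / 2 : ℝ) := by
      refine (Real.rpow_le_rpow hz.le (not_le.1 h1).le (by norm_num)).trans_eq ?_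
      rw [← Real.rpow_natCast, ← Real.rpow_mul (Nat.cast_nonneg m)]
      norm_num
    rw [Real.rpow_neg hz.le, ← div_eq_mul_inv, le_div_iff₀ (by positivity)]
    refine le_trans (mul_le_of_le_one_left (by positivity) ?_) h2
    rw [abs_le]
    constructor <;> linarith [(h.1 m).1, (h.1 m).2]

theorem comb {n1 n2 φ m e M c r u u' t A A' Λ : ℝ} (h1 : 0 ≤ n1) (h2 : 0 ≤ n2) (he : 0 ≤ e)
    (hm : 0 ≤ m) (hφ : φ ≤ m * e) (hid : n1 * m = M * n2)
    (hM : M ≤ c * (Real.exp (u * r) * Real.exp (u' * r))) (h3 : 0 ≤ A) (h4 : 0 ≤ A') (hΛ : 0 ≤ Λ)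
    (hA : A ≤ Λ * Real.exp (r * (t - u))) (hA' : A' ≤ Λ * Real.exp (r * (t - u'))) :
    n1 * φ * A * A' ≤ c * Λ ^ 2 * e * Real.exp (2 * r * t) * n2 := by
  have e1 : Real.exp (2 * r * t) = Real.exp (u * r) * Real.exp (u' * r) *
      Real.exp (r * (t - u)) * Real.exp (r * (t - u')) := by
    rw [← Real.exp_add, ← Real.exp_add, ← Real.exp_add]
    congr 1; ring
  calc n1 * φ * A * A' ≤ n1 * (m * e) * (Λ * Real.exp (r * (t - u))) *
        (Λ * Real.exp (r * (t - u'))) := by gcongr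
    _ = M * (n2 * e * Λ ^ 2 * Real.exp (r * (t - u)) * Real.exp (r * (t - u'))) := by
        rw [← mul_assoc n1, hid]; ring
    _ ≤ c * (Real.exp (u * r) * Real.exp (u' * r)) *
        (n2 * e * Λ ^ 2 * Real.exp (r * (t - u)) * Real.exp (r * (t - u'))) := by gcongr
    _ = _ := by rw [e1]; ring

theorem rgm {p : ℕ} (hp : 0 < p) {L : ℝ} (hL : 6 ≤ L) (hl : Real.log p ≤ L) {s w : ℂ}
    (h1 : |s.re - 1| ≤ 1 / L) (h2 : |w.re| ≤ 1 / L) :
    Rgm p ((p : ℂ) ^ (-s)) 1 1 1 1 (((p : ℝ) ^ (1 / 2 - s.re - 2 * w.re) : ℝ) : ℂ)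
      (((p : ℝ) ^ (1 / 2 - 2 * w.re) : ℝ) : ℂ) := by
  have h0 : (0 : ℝ) < p := Nat.cast_pos.2 hp
  have p1 : (1 : ℝ) ≤ p := Nat.one_le_cast.2 hp
  have hL0 : 0 < L := by linarith
  have h6 : 1 / L ≤ 1 / 6 := one_div_le_one_div_of_le (by norm_num) hL
  obtain ⟨a1, a2⟩ := abs_le.1 h1
  obtain ⟨a3, a4⟩ := abs_le.1 h2
  have h3 : (p : ℝ) ^ (1 / L) ≤ 3 := by
    rw [Real.rpow_def_of_pos h0]
    refine le_trans (Real.exp_le_exp.2 ?_) (Real.exp_one_lt_d9.le.trans (by norm_num))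
    rw [mul_one_div, div_le_one hL0]
    exact hl
  have n1 : ‖(1 : ℂ)‖ ≤ 3 := by norm_num
  refine ⟨n1, n1, n1, n1, ?_, Or.inr ⟨?_, ?_⟩⟩
  · rw [Complex.norm_real, Real.norm_of_nonneg (Real.rpow_nonneg h0.le _)]
    exact (Real.rpow_le_one_of_one_le_of_nonpos p1 (by linarith)).trans (by norm_num)
  · rw [Complex.norm_natCast_cpow_of_pos hp, le_div_iff₀ h0, ← Real.rpow_add_one h0.ne']
    refine le_trans (Real.rpow_le_rpow_of_exponent_le p1 ?_) h3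
    rw [Complex.neg_re]
    linarith
  · rw [Complex.norm_real, Real.norm_of_nonneg (Real.rpow_nonneg h0.le _), Real.sqrt_eq_rpow]
    calc (p : ℝ) ^ (1 / 2 - 2 * w.re) ≤ (p : ℝ) ^ (1 / L + 1 / L + 1 / 2) :=
          Real.rpow_le_rpow_of_exponent_le p1 (by linarith)
      _ = (p : ℝ) ^ (1 / L) * (p : ℝ) ^ (1 / L) * (p : ℝ) ^ (1 / 2 : ℝ) := by
          rw [Real.rpow_add h0, Real.rpow_add h0]
      _ ≤ 3 * 3 * (p : ℝ) ^ (1 / 2 : ℝ) := by gcongr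
      _ = _ := by norm_num

theorem x1_one (p : ℕ) : x1.2 (p : ZMod (x1.1 + 1)) = 1 :=
  MulChar.one_apply (R := ZMod 1) (isUnit_of_subsingleton _)

theorem x1_inv (p : ℕ) : x1.2⁻¹ (p : ZMod (x1.1 + 1)) = 1 := by
  have h : x1.2⁻¹ = x1.2 := inv_one
  rw [h, x1_one]

end Rs1A

open Rs1A in
theorem rs1Of : Rs1Of := by
  rintro hE hW hS ⟨C, A, J, hC, hU⟩ hA δ a hδ hδ' ha
  obtain ⟨N₁, hN₁⟩ := hW.1 1 one_pos
  have a1 : (1 : ℝ) ≤ a := Nat.one_le_cast.2 ha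
  have c1 : (1 : ℝ) ≤ 900 * a ^ 4 := by nlinarith [one_le_pow₀ (n := 4) a1]
  obtain ⟨N₂, hN₂⟩ := big ((900 * a ^ 4) ^ 2 * 16 * Real.exp 3 * (C * a ^ A)) (49 * δ)
    (max 6 (2 / (1000 * δ))) (2 + J) (by positivity) (by positivity)
  refine ⟨max 2 (max N₁ N₂), fun N Φ s w hN hΦ hs hw => ?_⟩
  have N2 : 2 ≤ N := (le_max_left _ _).trans hN
  obtain ⟨-, l4, -⟩ := hN₁ N ((le_max_left _ _).trans ((le_max_right _ _).trans hN))
  obtain ⟨hb, hT⟩ := hN₂ N ((le_max_right _ _).trans ((le_max_right _ _).trans hN))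
  have N0 : 0 < N := by omega
  have N0' : (0 : ℝ) < N := Nat.cast_pos.2 N0
  set L := Real.log N with hL
  have L6 : 6 ≤ L := (le_max_left _ _).trans hT
  have L0 : 0 < L := by linarith
  have hz : zz δ N = Real.exp (L * (1000 * δ)) := Real.rpow_def_of_pos N0' _
  have z0 : 0 < zz δ N := hz ▸ Real.exp_pos _
  have hd : 1000 * δ ≤ 1 := by
    have : (1 : ℝ) / 10 ^ 10 ≤ 1 / 1000 := by norm_num
    linarith
  have lz : Real.log (zz δ N) = L * (1000 * δ) := by rw [hz, Real.log_exp]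
  have lz1 : Real.log (zz δ N) ≤ L := by rw [lz]; exact mul_le_of_le_one_right L0.le hd
  have lz2 : 2 ≤ L * (1000 * δ) := (div_le_iff₀ (by positivity)).1 ((le_max_right _ _).trans hT)
  have z3 : 3 ≤ zz δ N := by
    rw [hz]
    linarith [Real.add_one_le_exp (L * (1000 * δ))]
  have h1 : |s.re - 1| ≤ 1 / L := by
    simpa using (Complex.abs_re_le_norm (s - 1)).trans hs
  have h2 : |w.re| ≤ 1 / L := (Complex.abs_re_le_norm w).trans hw
  have h6 : 1 / L ≤ 1 / 6 := one_div_le_one_div_of_le (by norm_num) L6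
  obtain ⟨b1, b2⟩ := abs_le.1 h1
  obtain ⟨b3, b4⟩ := abs_le.1 h2
  have hP : ∀ p ∈ SS δ N, p.Prime := (hS.2 δ N hδ N2).1
  have hsum := hU a 1 (zz δ N) (fun p => (p : ℂ) ^ (-s)) (fun _ => 1) (fun _ => 1) (fun _ => 1)
    (fun _ => 1) (fun p => (((p : ℝ) ^ (1 / 2 - s.re - 2 * w.re) : ℝ) : ℂ))
    (fun p => (((p : ℝ) ^ (1 / 2 - 2 * w.re) : ℝ) : ℂ)) ha z3 fun p hp => by
      have p0 := (hP p hp).pos
      refine rgm p0 L6 (le_trans (Real.log_le_log (Nat.cast_pos.2 p0) ?_) lz1) h1 h2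
      exact (Nat.le_floor_iff z0.le).1 (mem_Icc.1 (mem_filter.1 hp).1).2
  have hAX : ∀ u, ‖AX δ N x1 (1 - s - w) u‖ ≤
      4 * (1 + L) * Real.exp ((s.re + w.re) * ((1 / 2 + δ / 2) * L - u)) := fun u => by
    have e : 1 - (1 - s - w).re = s.re + w.re := by simp; ring
    have h3 := hA δ N x1 (1 - s - w) u hδ (by linarith) N2 (by linarith)
    rw [e] at h3
    refine h3.trans ?_
    gcongr
  have hX : ‖XX δ a N (fun q => 1 - Φ q) x1 s w‖ ≤ (900 * a ^ 4) ^ 2 * (4 * (1 + L)) ^ 2 *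
      zz δ N ^ (-(1 / 4) : ℝ) * Real.exp (2 * (s.re + w.re) * ((1 / 2 + δ / 2) * L)) *
      (C * a ^ A * Real.log (zz δ N) ^ J) := by
    refine le_trans ?_ (mul_le_mul_of_nonneg_left hsum (by positivity))
    rw [mul_sum]
    refine (norm_sum_le _ _).trans (sum_le_sum fun y hy => ?_)
    have hy' := fun p => mem_filter.1 (Fintype.mem_piFinset.1 hy p)
    have hM := (hS.1 a (SS δ N) ha hP).2 (fun p => (y p).1)
      (Fintype.mem_piFinset.2 fun p => (mem_product.1 (hy' p).1).1)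
    have k1p : (0 : ℝ) < k1 a fun p => (y p).1 := Nat.cast_pos.2 ((hE _ hP).2.1 _).1
    have k2p : (0 : ℝ) < k2 a fun p => (y p).1 := Nat.cast_pos.2 ((hE _ hP).2.1 _).1
    have q1 : ((x1.1 + 1 : ℕ) : ℂ) ^ (-2 * w) = 1 := by simp [x1]
    have q2 : x1.1 + 1 = 1 := rfl
    simp only [x1_one, x1_inv, one_mul, q1, mul_one, norm_mul, Complex.norm_real, Real.norm_eq_abs]
    refine comb (M := ((M3 fun p => (y p).1 : ℕ) : ℝ) ^ (s.re + w.re)) (norm_nonneg _)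
      (norm_nonneg _) (by positivity) (by positivity) (tail hΦ z0 _) ?_ ?_ (norm_nonneg _)
      (norm_nonneg _) (by positivity) (hAX _) (hAX _)
    · rw [q2, mul_one, Nat.cast_mul, Real.mul_rpow (Nat.cast_nonneg _) (Nat.cast_nonneg _), M3,
        pp_rpow, pp_rpow, pp_rpow, norm_prod, norm_prod, ← prod_mul_distrib, ← prod_mul_distrib]
      exact (prod_congr rfl fun (p : SS δ N) _ =>
        loc a p (hP p p.2).pos (y p) (hy' p).2.1 s w _).trans prod_mul_distrib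
    · have hM' : ((M3 fun p => (y p).1 : ℕ) : ℝ) ≤ 900 * a ^ 4 *
          ((k1 a fun p => (y p).1 : ℕ) * (k2 a fun p => (y p).1 : ℕ)) := by exact_mod_cast hM
      refine (Real.rpow_le_rpow (Nat.cast_nonneg _) hM' (by linarith)).trans ?_
      rw [Real.mul_rpow (by positivity) (by positivity), Real.mul_rpow k1p.le k2p.le,
        Real.rpow_def_of_pos k1p, Real.rpow_def_of_pos k2p]
      refine mul_le_mul_of_nonneg_right ?_ (by positivity)
      rw [← Real.rpow_two]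
      exact Real.rpow_le_rpow_of_exponent_le c1 (by linarith)
  have e1 : zz δ N ^ (-(1 / 4) : ℝ) = Real.exp (-250 * δ * L) := by
    rw [hz, ← Real.exp_mul]
    congr 1; ring
  have e2 : w.re * L ≤ 1 := by
    have := mul_le_mul_of_nonneg_right b4 L0.le
    rwa [one_div_mul_cancel L0.ne'] at this
  have e3 : (s.re - 1) * L ≤ 1 := by
    have := mul_le_mul_of_nonneg_right b2 L0.le
    rwa [one_div_mul_cancel L0.ne'] at this
  have e4 : Real.exp (L * -s.re) * Real.exp (-250 * δ * L) *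
      Real.exp (2 * (s.re + w.re) * ((1 / 2 + δ / 2) * L)) ≤
      Real.exp 3 * Real.exp (-249 * δ * L) := by
    rw [← Real.exp_add, ← Real.exp_add, ← Real.exp_add]
    refine Real.exp_le_exp.2 ?_
    have e5 := mul_le_mul_of_nonneg_left e2 hδ.le
    have e6 := mul_le_mul_of_nonneg_left e3 hδ.le
    nlinarith
  have lz0 : 0 ≤ Real.log (zz δ N) := by linarith
  rw [norm_mul, Complex.norm_natCast_cpow_of_pos N0, Complex.neg_re, Real.rpow_def_of_pos N0',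
    Real.rpow_def_of_pos N0', ← hL]
  calc _ ≤ Real.exp (L * -s.re) * ((900 * a ^ 4) ^ 2 * (4 * (1 + L)) ^ 2 *
        Real.exp (-250 * δ * L) * Real.exp (2 * (s.re + w.re) * ((1 / 2 + δ / 2) * L)) *
        (C * a ^ A * (1 + L) ^ J)) := by
        refine mul_le_mul_of_nonneg_left (hX.trans ?_) (Real.exp_pos _).le
        rw [e1]
        gcongr
        linarith
    _ = Real.exp (L * -s.re) * Real.exp (-250 * δ * L) *
        Real.exp (2 * (s.re + w.re) * ((1 / 2 + δ / 2) * L)) *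
        ((900 * a ^ 4) ^ 2 * 16 * (C * a ^ A) * (1 + L) ^ (2 + J)) := by ring
    _ ≤ Real.exp 3 * Real.exp (-249 * δ * L) *
        ((900 * a ^ 4) ^ 2 * 16 * (C * a ^ A) * (1 + L) ^ (2 + J)) := by gcongr
    _ = (900 * a ^ 4) ^ 2 * 16 * Real.exp 3 * (C * a ^ A) * (1 + L) ^ (2 + J) *
        Real.exp (-249 * δ * L) := by ring
    _ ≤ Real.exp (49 * δ * L) * Real.exp (-249 * δ * L) := by gcongr
    _ = _ := by
        rw [← Real.exp_add]
        congr 1; ring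

end Pool.Agent.MP_20b2fd_nt.H38
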