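import Pool.Agent.MP_20b2fd_nt.H38.Sh1

/-! The sum over the large primes after the shift of the line. -/

set_option autoImplicit false

namespace Pool.Agent.MP_20b2fd_nt.H38

open MeasureTheory Complex Finset Filter Topology ArithmeticFunction
open scoped Real Interval

namespace ShA

theorem ps_zero (u : ℝ) (h : 3 / 2 < |u|) : ps0 u = 0 := by
  refine ps0.zero_of_le_dist ?_
  change (5 / 4 : ℝ) ≤ _
  rw [Real.dist_eq]
  have := abs_sub (u - -1 / 4) (1 / 4)
  rw [show u - -1 / 4 - 1 / 4 = u by ring, abs_of_pos (by norm_num : (0 : ℝ) < 1 / 4)] at this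
  linarith

/-- the integrand -/
noncomputable def Fi (δ : ℝ) (N : ℕ) (x : CC) (v : ℂ) (u : ℝ) (ζ : ℂ) : ℂ :=
  lap ps0 ζ * exp (ζ * ((u - Real.log N / 2) / La δ N : ℝ)) * PX N x (v - ζ / La δ N) *
    Rz x.2 (zz δ N) (v - ζ / La δ N)

theorem w_re (v : ℂ) (b ξ l : ℝ) : (v - (b + ξ * I) / l).re = v.re - b / l := by
  simp only [sub_re, div_ofReal_re, add_re, ofReal_re, mul_re, Complex.I_re, mul_zero,
    ofReal_im, Complex.I_im, mul_one, sub_self, add_zero]

theorem w_im (v : ℂ) (b ξ l : ℝ) : (v - (b + ξ * I) / l).im = v.im - ξ / l := by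
  simp only [sub_im, div_ofReal_im, add_im, ofReal_re, mul_im, Complex.I_re, mul_zero,
    ofReal_im, Complex.I_im, mul_one, add_zero, zero_add]

theorem exp_norm (b ξ y l : ℝ) :
    ‖exp (((b : ℂ) + ξ * I) * ((y / l : ℝ) : ℂ))‖ = Real.exp (b / l * y) := by
  rw [Complex.norm_exp]
  congr 1
  simp only [mul_re, add_re, ofReal_re, Complex.I_re, mul_zero, ofReal_im, Complex.I_im, mul_one,
    sub_self, add_zero, sub_zero]
  ring

theorem large (δ M : ℝ) (hδ : 0 < δ) :
    ∃ N₀ : ℕ, ∀ N : ℕ, N₀ ≤ N → 2 ≤ N ∧ 1 ≤ La δ N ∧ 3 ≤ zz δ N ∧ M ≤ zz δ N := by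
  have h1 : Tendsto (fun N : ℕ => La δ N) atTop atTop :=
    ((Real.tendsto_log_atTop.comp tendsto_natCast_atTop_atTop).const_mul_atTop hδ).atTop_div_const
      two_pos
  have h2 : Tendsto (fun N : ℕ => zz δ N) atTop atTop :=
    (tendsto_rpow_atTop (by positivity)).comp tendsto_natCast_atTop_atTop
  exact eventually_atTop.mp ((eventually_ge_atTop 2).and ((h1.eventually_ge_atTop 1).and
    ((h2.eventually_ge_atTop 3).and (h2.eventually_ge_atTop M))))

end ShA

open ShA in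
theorem shOf : ShOf := by
  intro Fl Zb Wb c J hc hc'
  obtain ⟨hLd, hLb, hLi⟩ := Fl ps0 (3 / 2) (by norm_num) (fun n => ps0.contDiff) ps_zero
  obtain ⟨C5, hC5, b5⟩ := hLb 5
  obtain ⟨CJ, hCJ, bJ⟩ := hLb (J + 2)
  obtain ⟨Cz, hCz, hZ⟩ := Zb c hc hc'
  obtain ⟨N₁, hN₁⟩ := Wb.1 1 one_pos
  set K : ℝ := CJ * Real.exp (3 / 2) * Cz with hK
  refine ⟨4 * K ^ 2 + 1, by nlinarith [sq_nonneg K], fun δ hδ hδ' => ?_⟩
  set κ : ℝ := c / (2000 * δ) with hκ
  set M : ℝ := C5 * Real.exp (3 / 2) * Real.exp κ * (4 * Real.exp κ) * Cz with hM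
  have hM0 : 0 ≤ M := by positivity
  obtain ⟨N₂, hN₂⟩ := large δ M hδ
  refine ⟨max N₁ N₂, fun N hN hzf x hx v β hβ hβ0 hβ1 hv => ?_⟩
  obtain ⟨N2, l1, z3, zM⟩ := hN₂ N (le_of_max_le_right hN)
  have hlam := (hN₁ N (le_of_max_le_left hN)).2.1
  obtain ⟨hs, hsC, hZ2⟩ := hZ (zz δ N) (by linarith)
  obtain ⟨hRd, hRs, hRb⟩ := hZ2 hzf x hx
  have N1 : (1 : ℝ) < N := by exact_mod_cast N2
  have L0 : 0 < Real.log N := Real.log_pos N1
  have lz : Real.log (zz δ N) = 1000 * δ * Real.log N := Real.log_rpow (by linarith) _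
  have ew : c / (2 * Real.log (zz δ N)) = wd c δ N := rfl
  rw [ew] at hs hsC hRb
  have η0 : 0 < wd c δ N := by rw [wd, lz]; positivity
  have ηL : wd c δ N * Real.log N = κ := by rw [wd, lz, hκ]; field_simp; norm_num
  have ηl : La δ N * wd c δ N = c / 4000 := by rw [wd, lz, La]; field_simp; norm_num
  have η2 : c / Real.log (zz δ N) = 2 * wd c δ N := by rw [wd]; ring
  rw [η2] at hRd
  have hps := fun y h => ((Wb.2 δ N hδ N2).1 y).2.2.1 h |>.2
  set η := wd c δ N with hη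
  set l := La δ N with hl
  set z := zz δ N with hz
  set X := l * z ^ 5 with hX
  have l0 : 0 < l := by linarith
  have z0 : 0 < z := by linarith
  have X0 : 0 < X := by positivity
  have z5 : (1 : ℝ) ≤ z ^ 5 := one_le_pow₀ (by linarith)
  have z6 : z ^ 5 + 1 + z ^ 5 ≤ z ^ 6 := by rw [pow_succ z 5]; nlinarith
  have z7 : z ^ 6 < z ^ 7 := pow_lt_pow_right₀ (by linarith) (by norm_num)
  have rng : ∀ b : ℝ, l * (β - 2 * η) ≤ b → b ≤ l * β → β - 2 * η ≤ b / l ∧ b / l ≤ β ∧ |b| ≤ 1 := by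
    intro b h1 h2
    refine ⟨by rw [le_div_iff₀ l0]; linarith, by rw [div_le_iff₀ l0]; linarith, abs_le.mpr ⟨?_, ?_⟩⟩
    · nlinarith [mul_nonneg l0.le hβ0]
    · nlinarith [mul_le_mul_of_nonneg_left hβ1 l0.le]
  have imb : ∀ ξ : ℝ, |ξ| ≤ X → |v.im - ξ / l| ≤ z ^ 6 := by
    intro ξ h
    have h1 : |ξ / l| ≤ z ^ 5 := by rw [abs_div, abs_of_pos l0, div_le_iff₀ l0]; linarith
    linarith [abs_sub v.im (ξ / l)]
  have rb : ∀ b ξ : ℝ, l * (β - 2 * η) ≤ b → b ≤ l * β → |ξ| ≤ X →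
      ‖Rz x.2 z (v - (b + ξ * I) / l)‖ ≤ Cz := by
    intro b ξ h1 h2 h3
    obtain ⟨r1, r2, -⟩ := rng b h1 h2
    refine (hRb _ ?_ (by rw [w_im]; exact imb ξ h3)).1
    rw [w_re, abs_le]
    constructor <;> linarith
  have lb : ∀ (C : ℝ) (j : ℕ) (b ξ : ℝ), 1 ≤ C → |b| ≤ 1 →
      C * Real.exp (3 / 2 * |b|) / (1 + |ξ|) ^ j ≤ C * Real.exp (3 / 2) / (1 + |ξ|) ^ j :=
    fun C j b ξ hC h => div_le_div_of_nonneg_right (mul_le_mul_of_nonneg_left
      (Real.exp_le_exp.mpr (by linarith)) (by linarith)) (by positivity)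
  have fb : ∀ u b ξ : ℝ, 0 ≤ u → l * (β - 2 * η) ≤ b → b ≤ l * β →
      ‖Rz x.2 z (v - (b + ξ * I) / l)‖ ≤ Cz →
      ‖Fi δ N x v u (b + ξ * I)‖ ≤ M * Real.exp (η * u) / (1 + |ξ|) ^ 5 := by
    intro u b ξ hu h1 h2 h3
    obtain ⟨r1, r2, r3⟩ := rng b h1 h2
    have a1 := (b5 b ξ).trans (lb C5 5 b ξ hC5 r3)
    have a2 : Real.exp (b / l * (u - Real.log N / 2)) ≤ Real.exp (η * u) * Real.exp κ := by
      rw [← Real.exp_add, ← ηL]
      refine Real.exp_le_exp.mpr ?_
      nlinarith [mul_le_mul_of_nonneg_right (r2.trans hβ1) hu,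
        mul_le_mul_of_nonneg_right (show -(2 * η) ≤ b / l by linarith) L0.le]
    have a3 := px_le N x (v - (b + ξ * I) / l) η (by omega) η0.le (by rw [w_re]; linarith)
    rw [ηL] at a3
    have a4 := a3.trans (mul_le_mul_of_nonneg_right hlam (Real.exp_pos κ).le)
    rw [Fi, norm_mul, norm_mul, norm_mul, exp_norm]
    refine (mul_le_mul (mul_le_mul (mul_le_mul a1 a2 (by positivity) (by positivity)) a4
      (norm_nonneg _) (by positivity)) h3 (norm_nonneg _) (by positivity)).trans (le_of_eq ?_)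
    rw [hM]; ring
  have b12 : l * (β - 2 * η) ≤ l * β := by nlinarith
  have fd : ∀ (u : ℝ) (ζ : ℂ), l * (β - 2 * η) ≤ ζ.re → ζ.re ≤ l * β → |ζ.im| ≤ X →
      DifferentiableAt ℂ (Fi δ N x v u) ζ := by
    intro u ζ h1 h2 h3
    obtain ⟨r1, r2, -⟩ := rng _ h1 h2
    have hw : DifferentiableAt ℂ (fun ζ : ℂ => v - ζ / l) ζ := by fun_prop
    have hr : DifferentiableAt ℂ (Rz x.2 z) (v - ζ / l) := by
      rw [← re_add_im ζ]
      exact hRd _ (by rw [w_re]; linarith) (by rw [w_im]; exact (imb _ h3).trans_lt z7)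
    have h4 : DifferentiableAt ℂ (fun ζ : ℂ => PX N x (v - ζ / l)) ζ := (px_diff N x _).comp ζ hw
    have h5 : DifferentiableAt ℂ (fun ζ : ℂ => Rz x.2 z (v - ζ / l)) ζ :=
      DifferentiableAt.comp (g := Rz x.2 z) ζ hr hw
    have h6 : DifferentiableAt ℂ (fun ζ : ℂ => exp (ζ * ((u - Real.log N / 2) / l : ℝ))) ζ := by
      fun_prop
    exact (((hLd ζ).mul h6).mul h4).mul h5
  have hXX : -X ≤ X := by linarith
  set g : ℝ → ℂ := fun ξ => 1 / (2 * π) * Fi δ N x v 0 ((l * β : ℝ) + ξ * I) with hg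
  have gc : ContinuousOn g (Set.Icc (-X) X) := by
    intro ξ hξ
    have h1 : ContinuousAt (fun ξ : ℝ => ((l * β : ℝ) : ℂ) + ξ * I) ξ := by fun_prop
    have h2 := fd 0 ((l * β : ℝ) + ξ * I) (by simpa using b12) (by simp)
      (by simpa using abs_le.mpr hξ)
    exact (continuousAt_const.mul (ContinuousAt.comp (f := fun ξ : ℝ => ((l * β : ℝ) : ℂ) + ξ * I)
      h2.continuousAt h1)).continuousWithinAt
  have gc' : ContinuousOn (fun ξ => ‖g ξ‖ * (1 + |ξ|) ^ J) (Set.Icc (-X) X) :=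
    gc.norm.mul (by fun_prop)
  have eI : (fun ξ => ‖(Set.Ioc (-X) X).indicator g ξ‖ * (1 + |ξ|) ^ J) =
      (Set.Ioc (-X) X).indicator fun ξ => ‖g ξ‖ * (1 + |ξ|) ^ J := by
    funext ξ
    rw [norm_indicator_eq_indicator_norm, Set.indicator_mul_left]
  have pi1 : ‖(1 / (2 * π) : ℂ)‖ ≤ 1 / 6 := by
    rw [norm_div, norm_one, norm_mul, Complex.norm_real, Complex.norm_ofNat, Real.norm_eq_abs,
      abs_of_pos Real.pi_pos]
    exact one_div_le_one_div_of_le (by norm_num) (by linarith [Real.pi_gt_three])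
  refine ⟨(Set.Ioc (-X) X).indicator g, (integrable_indicator_iff measurableSet_Ioc).mpr
    (gc.integrableOn_Icc.mono_set Set.Ioc_subset_Icc_self), ?_, fun u hu => ?_, ?_⟩
  · rw [eI]
    exact (integrable_indicator_iff measurableSet_Ioc).mpr
      (gc'.integrableOn_Icc.mono_set Set.Ioc_subset_Icc_self)
  · have hb : v.re - l * (β - 2 * η) / l = 1 + η := by field_simp; linarith
    obtain ⟨r1, r2, r3⟩ := rep δ N x v u (l * (β - 2 * η)) (1 + η) Cz (Rz x.2 z) hu N2
      (by linarith) hb hps (hLi _) hs hsC fun w hw => hRs w (by linarith)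
    have sh := shift (Fi δ N x v u) _ _ X (M * Real.exp (η * u)) b12 (by nlinarith) X0
      (by positivity) (fun ζ hζ => by
        rw [mem_reProdIm, Set.uIcc_of_le b12, Set.uIcc_of_le hXX] at hζ
        exact (fd u ζ hζ.1.1 hζ.1.2 (abs_le.mpr hζ.2)).differentiableWithinAt) r2
      (fun ξ => fb u _ ξ hu le_rfl b12 (r1 _ (by rw [w_re, hb])))
      fun b ξ h1 h2 h3 => fb u b ξ hu h1 h2 (rb b ξ h1 h2 h3.le)
    have e : ∫ ξ : ℝ, (Set.Ioc (-X) X).indicator g ξ * exp ((β + ξ / l * I) * u) =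
        1 / (2 * π) * ∫ ξ in (-X)..X, Fi δ N x v u ((l * β : ℝ) + ξ * I) := by
      simp only [← Set.indicator_mul_left _ g fun ξ : ℝ => exp ((β + ξ / l * I) * u)]
      rw [integral_indicator measurableSet_Ioc, ← intervalIntegral.integral_of_le hXX,
        ← intervalIntegral.integral_const_mul]
      refine intervalIntegral.integral_congr fun ξ _ => ?_
      have l0' : (l : ℂ) ≠ 0 := by exact_mod_cast l0.ne'
      have e2 : exp ((((l * β : ℝ) : ℂ) + ξ * I) * ((u - Real.log N / 2) / l : ℝ)) =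
          exp ((((l * β : ℝ) : ℂ) + ξ * I) * ((0 - Real.log N / 2) / l : ℝ)) *
            exp ((β + ξ / l * I) * u) := by
        rw [← Complex.exp_add]
        congr 1
        push_cast
        field_simp
        ring
      simp only [hg, Fi, ← hl]
      rw [e2]
      ring
    rw [e, r3, ← mul_sub, norm_mul]
    refine (mul_le_mul pi1 sh (norm_nonneg _) (by norm_num)).trans ?_
    have h1 : M * z ^ 12 ≤ X ^ 3 := by
      have a1 : z ≤ z ^ 3 := le_self_pow₀ (by linarith) (by norm_num)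
      have a2 : 1 ≤ l ^ 3 := one_le_pow₀ l1
      calc M * z ^ 12 ≤ 1 * (z ^ 3 * z ^ 12) := by
            rw [one_mul]; exact mul_le_mul_of_nonneg_right (by linarith) (by positivity)
        _ ≤ l ^ 3 * (z ^ 3 * z ^ 12) := mul_le_mul_of_nonneg_right a2 (by positivity)
        _ = _ := by rw [hX]; ring
    have h2 : M / X ^ 3 ≤ 1 / z ^ 12 := by
      rw [div_le_div_iff₀ (by positivity) (by positivity)]; linarith
    calc 1 / 6 * (6 * (M * Real.exp (η * u) / X ^ 3)) = M / X ^ 3 * Real.exp (η * u) := by ring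
      _ ≤ _ := mul_le_mul_of_nonneg_right h2 (Real.exp_pos _).le
  · set P : ℝ → ℝ := fun ξ => ‖PX N x (1 - η + (v.im - ξ / l) * I)‖ with hP
    have Pc : Continuous P := ((px_diff N x).continuous.comp (by fun_prop)).norm
    have hcs := cs P X Pc X0.le
    have i1 : IntervalIntegrable (fun ξ => P ξ / (1 + ξ ^ 2)) volume (-X) X :=
      (Pc.div (by fun_prop) fun ξ => by positivity).intervalIntegrable _ _
    have K0 : 0 ≤ K := by positivity
    have h1 : ∫ ξ in (-X)..X, ‖g ξ‖ * (1 + |ξ|) ^ J ≤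
        ∫ ξ in (-X)..X, K * Real.exp (-β * Real.log N / 2) * (P ξ / (1 + ξ ^ 2)) := by
      refine intervalIntegral.integral_mono_on hXX (gc'.intervalIntegrable_of_Icc hXX)
        (i1.const_mul _) fun ξ hξ => ?_
      have a1 := (bJ (l * β) ξ).trans (lb CJ (J + 2) _ ξ hCJ (rng _ b12 le_rfl).2.2)
      have a3 := rb (l * β) ξ b12 le_rfl (abs_le.mpr hξ)
      have e1 : v - (((l * β : ℝ) : ℂ) + ξ * I) / l = 1 - η + (v.im - ξ / l) * I := by
        apply Complex.ext
        · rw [w_re, mul_div_cancel_left₀ _ l0.ne', hβ]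
          simp [← ofReal_div, ← ofReal_sub]
        · rw [w_im]
          simp [← ofReal_div, ← ofReal_sub]
      have e2 : l * β / l * (0 - Real.log N / 2) = -β * Real.log N / 2 := by field_simp; ring
      have a4 : ‖g ξ‖ ≤ 1 * (CJ * Real.exp (3 / 2) / (1 + |ξ|) ^ (J + 2) *
          Real.exp (-β * Real.log N / 2) * P ξ * Cz) := by
        rw [hg]
        simp only
        rw [norm_mul]
        refine mul_le_mul (by linarith) ?_ (norm_nonneg _) zero_le_one
        rw [Fi, norm_mul, norm_mul, norm_mul, exp_norm, ← hl, e2]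
        refine mul_le_mul ?_ a3 (norm_nonneg _) (by positivity)
        rw [e1]
        exact mul_le_mul_of_nonneg_right (mul_le_mul_of_nonneg_right a1 (by positivity))
          (norm_nonneg _)
      refine (mul_le_mul_of_nonneg_right a4 (by positivity)).trans ?_
      have a5 : P ξ / (1 + |ξ|) ^ 2 ≤ P ξ / (1 + ξ ^ 2) :=
        div_le_div_of_nonneg_left (norm_nonneg _) (by positivity) (sq_le ξ)
      refine le_trans (le_of_eq ?_) (mul_le_mul_of_nonneg_left a5 (by positivity))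
      rw [hK, pow_add]
      field_simp
    rw [intervalIntegral.integral_const_mul] at h1
    rw [eI, integral_indicator measurableSet_Ioc, ← intervalIntegral.integral_of_le hXX]
    refine (pow_le_pow_left₀ (intervalIntegral.integral_nonneg hXX fun ξ _ => by positivity)
      h1 2).trans ?_
    have e3 : Real.exp (-β * Real.log N / 2) ^ 2 = Real.exp (-β * Real.log N) := by
      rw [← Real.exp_nat_mul]; congr 1; push_cast; ring
    have h0 : 0 ≤ ∫ ξ in (-X)..X, P ξ ^ 2 / (1 + ξ ^ 2) :=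
      intervalIntegral.integral_nonneg hXX fun ξ _ => by positivity
    rw [mul_pow, mul_pow, e3]
    refine (mul_le_mul_of_nonneg_left hcs (by positivity)).trans ?_
    have h3 := mul_nonneg (Real.exp_pos (-β * Real.log N)).le h0
    change _ ≤ _ * ∫ ξ in (-X)..X, P ξ ^ 2 / (1 + ξ ^ 2)
    linarith

end Pool.Agent.MP_20b2fd_nt.H38
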