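import Pool.Agent.MP_20b2fd_nt.H38.SpecC

/-! Sizes of the data of the long terms. -/

set_option autoImplicit false

namespace Pool.Agent.MP_20b2fd_nt.H38

open Finset ArithmeticFunction

namespace SzA

theorem big {a : ℕ} {S : Finset ℕ} (ha : 1 ≤ a) (hS : ∀ p ∈ S, p.Prime) :
    ∏ p : S, (if (p : ℕ) ∣ 30 * a then (p : ℕ) ^ (a.factorization p + 1) else 1) ≤ 30 * a ^ 2 := by
  have h0 : 30 * a ≠ 0 := by omega
  rw [prod_coe_sort S fun p => if p ∣ 30 * a then p ^ (a.factorization p + 1) else 1, ← prod_filter]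
  calc ∏ p ∈ S.filter (· ∣ 30 * a), p ^ (a.factorization p + 1)
      ≤ ∏ p ∈ (30 * a).primeFactors, p ^ (a.factorization p + 1) :=
        prod_le_prod_of_subset_of_one_le'
          (fun p hp => Nat.mem_primeFactors.2 ⟨hS p (mem_filter.1 hp).1, (mem_filter.1 hp).2, h0⟩)
          fun p hp _ => Nat.one_le_pow _ _ (Nat.prime_of_mem_primeFactors hp).pos
    _ = a * ∏ p ∈ (30 * a).primeFactors, p := by
        simp only [pow_succ, prod_mul_distrib]
        rw [← Finsupp.prod_of_support_subset a.factorization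
          (Nat.primeFactors_mono (Dvd.intro_left 30 rfl) h0) (fun p e => p ^ e) fun _ _ => pow_zero _,
          Nat.prod_factorization_pow_eq_self (by omega)]
    _ ≤ a * (30 * a) :=
        Nat.mul_le_mul_left _ (Nat.le_of_dvd (by omega) (Nat.prod_primeFactors_dvd _))
    _ = 30 * a ^ 2 := by ring

theorem one {a : ℕ} {S : Finset ℕ} (ha : 1 ≤ a) (hS : ∀ p ∈ S, p.Prime) (σ : S → L2)
    (hσ : ∀ p : S, σ p ∈ al a p) :
    pp (fun p => (σ p).1) ≤ 30 * a ^ 2 * pp fun p : S => ke a p (σ p) := by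
  refine le_trans ?_ (Nat.mul_le_mul_right _ (big ha hS))
  rw [pp, pp, ← prod_mul_distrib]
  refine prod_le_prod' fun p _ => ?_
  have hp := (hS p p.2).pos
  have h := hσ p
  rw [al] at h
  rw [ke]
  split_ifs at h ⊢ with hd
  · rw [pow_zero, mul_one]
    exact Nat.pow_le_pow_right hp (Nat.lt_succ_iff.1 (mem_range.1 (mem_product.1 h).1))
  · rw [one_mul]
    exact Nat.pow_le_pow_right hp (Nat.le_add_right _ _)

theorem mem_prs {x y : ℝ} {p : ℕ} (h : p ∈ prs x y) : p.Prime ∧ x < p ∧ (p : ℝ) ≤ y := by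
  obtain ⟨h1, h2, h3⟩ := mem_filter.1 h
  obtain ⟨h4, h5⟩ := mem_Icc.1 h1
  exact ⟨h2, h3, (Nat.le_floor_iff' (by omega)).1 h5⟩

end SzA

open SzA

theorem szOf : SzOf := by
  intro hW
  refine ⟨fun a S ha hS => ⟨fun σ hσ => one ha hS σ (Fintype.mem_piFinset.1 hσ), fun x hx => ?_⟩,
    fun δ N hδ hN => ⟨fun p hp => (mem_prs hp).1, fun i hi => ?_⟩⟩
  · have h := fun p => mem_product.1 (mem_filter.1 (Fintype.mem_piFinset.1 hx p)).1
    have h1 := one ha hS (fun p => (x p).1) fun p => (h p).1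
    have h2 := one ha hS (fun p => (x p).2.1) fun p => (mem_product.1 (h p).2).1
    calc M3 x ≤ pp (fun p => (x p).1.1) * pp fun p => (x p).2.1.1 := by
          rw [M3, pp, pp, pp, ← prod_mul_distrib]
          refine prod_le_prod' fun p _ => ?_
          rw [← pow_add]
          exact Nat.pow_le_pow_right (hS p p.2).pos (Nat.sub_le _ _)
      _ ≤ 30 * a ^ 2 * k1 a x * (30 * a ^ 2 * k2 a x) := Nat.mul_le_mul h1 h2
      _ = _ := by ring
  · classical
    obtain ⟨h1, h2⟩ := mem_product.1 hi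
    obtain ⟨h2, h3⟩ := mem_filter.1 h2
    obtain ⟨hp, hl, -⟩ := mem_prs h1
    have hn : 1 ≤ nn i := Nat.mul_pos hp.pos (mem_Icc.1 h2).1
    have hn' : (0 : ℝ) < nn i := by exact_mod_cast hn
    have hN1 : (1 : ℝ) ≤ N := by exact_mod_cast (by omega : 1 ≤ N)
    refine ⟨hn, hp, fun hδ' p hz hd => ?_, fun κ hκ => ?_⟩
    · obtain ⟨hq, -, hq'⟩ := mem_prs hz
      rcases (Nat.Prime.dvd_mul hq).1 hd with h | h
      · rw [(Nat.prime_dvd_prime_iff_eq hq hp).1 h] at hq'
        have := Real.rpow_le_rpow_of_exponent_le hN1 (by linarith : 1000 * δ ≤ 1 / 10000)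
        exact absurd (hq'.trans this) (not_le.2 hl)
      · exact h3 p hz h
    · obtain ⟨a0, a1, a2, -⟩ := (hW.2 δ N hδ hN).1 (Real.log κ + Real.log (nn i))
      have hκ' : (0 : ℝ) < κ := by exact_mod_cast hκ
      refine ⟨?_, fun h => ?_⟩
      · have hm : |(moebius i.2 : ℝ)| ≤ 1 := by exact_mod_cast abs_moebius_le_one (n := i.2)
        rw [wi, abs_mul, abs_div, abs_of_pos hn', abs_of_nonneg a0]
        exact (mul_le_of_le_one_right (by positivity) a1).trans (by gcongr)
      · have := (a2 (right_ne_zero_of_mul h)).2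
        rw [← Real.log_mul hκ'.ne' hn'.ne'] at this
        exact Real.le_rpow_of_log_le (by linarith) this.le

end Pool.Agent.MP_20b2fd_nt.H38
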