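import Pool.Agent.MP_20b2fd_nt.H38.SpecC
import Pool.Agent.MP_74e98a_nt.H98.Ker

/-! Mellin inversion and the shift of the line across the double pole. -/

set_option autoImplicit false

namespace Pool.Agent.MP_20b2fd_nt.H38

open MeasureTheory Complex Finset Filter Topology
open DirichletCharacter (LFunction)
open Pool.Agent.MP_c5bf7b_nt.H38 (Phi Ch)
open Pool.Agent.MP_74e98a_nt.H98 (shift0)
open scoped Real

namespace VorA

theorem two_pi_ne : (2 * π : ℂ) ≠ 0 := by simp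

theorem far {s : ℂ} {p : ℝ} (h : 1 / 2 ≤ |s.re - p|) : 1 / 2 ≤ ‖s - p‖ :=
  h.trans (by simpa using abs_re_le_norm (s - p))

theorem ne {s p : ℂ} (h : 1 / 2 ≤ ‖s - p‖) : s - p ≠ 0 := fun e => by
  rw [e, norm_zero] at h
  linarith

theorem bd {s : ℂ} {p q : ℝ} (h : 1 / 2 ≤ ‖s - p‖) (h' : 1 / 2 ≤ ‖s - q‖) :
    ‖((s - p) * (s - q))⁻¹‖ ≤ 5 * (1 + s.im ^ 2)⁻¹ := by
  have a : |s.im| ≤ ‖s - p‖ := by simpa using abs_im_le_norm (s - p)
  have b : |s.im| ≤ ‖s - q‖ := by simpa using abs_im_le_norm (s - q)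
  have c := mul_le_mul a b (abs_nonneg _) (norm_nonneg _)
  have d := mul_le_mul h h' (by norm_num) (norm_nonneg _)
  rw [abs_mul_abs_self] at c
  rw [norm_inv, norm_mul, ← div_eq_mul_inv, inv_eq_one_div,
    div_le_div_iff₀ (by linarith) (by positivity)]
  nlinarith

theorem intg {A : ℂ → ℂ} {σ p q C : ℝ} (h : 1 / 2 ≤ |σ - p|) (h' : 1 / 2 ≤ |σ - q|)
    (hA : ∀ s : ℂ, s.re = σ → DifferentiableAt ℂ A s ∧ ‖A s‖ ≤ C) :
    Integrable fun t : ℝ => A (σ + t * I) * ((σ + t * I - p) * (σ + t * I - q))⁻¹ := by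
  refine (shift0 (f := fun s => A s * ((s - p) * (s - q))⁻¹) (C := C * 5) le_rfl
    (fun z h1 h2 => ?_) fun r t h1 h2 => ?_).1 σ le_rfl le_rfl
  · obtain rfl := h1.antisymm h2
    exact (hA z rfl).1.fun_mul (DifferentiableAt.fun_inv (by fun_prop)
      (mul_ne_zero (ne (far h)) (ne (far h'))))
  · obtain rfl := h1.antisymm h2
    have h3 := (hA (σ + t * I) (by simp)).2
    have h4 := bd (s := σ + t * I) (far (by simpa using h)) (far (by simpa using h'))
    rw [norm_mul, mul_assoc]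
    exact mul_le_mul h3 (by simpa using h4) (norm_nonneg _) ((norm_nonneg _).trans h3)

theorem int1 {σ p q : ℝ} (h : 1 / 2 ≤ |σ - p|) (h' : 1 / 2 ≤ |σ - q|) :
    Integrable fun t : ℝ => (((σ : ℂ) + t * I - p) * (σ + t * I - q))⁻¹ := by
  simpa only [one_mul] using intg (A := fun _ => 1) (C := 1) h h' fun s _ => ⟨by fun_prop, by simp⟩

theorem tz (c : ℂ) : Tendsto (fun t : ℝ => (c + t * I)⁻¹) (cocompact ℝ) (𝓝 0) := by
  refine tendsto_inv₀_cobounded.comp (tendsto_norm_atTop_iff_cobounded.1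
    (tendsto_atTop_mono (fun t => ?_)
      (tendsto_atTop_add_const_right _ (-‖c‖) (tendsto_norm_cocompact_atTop (E := ℝ)))))
  have := norm_sub_le (c + t * I) c
  simp only [add_sub_cancel_left, norm_mul, norm_real, norm_I, mul_one] at this
  linarith

theorem hd (c : ℂ) (t : ℝ) : HasDerivAt (fun t : ℝ => c + t * I) I t := by
  simpa using ((hasDerivAt_id t).ofReal_comp.mul_const I).const_add c

theorem z1 {σ : ℝ} (h : 1 / 2 ≤ |σ - 1|) :
    ∫ t : ℝ, (((σ : ℂ) + t * I - (1 : ℝ)) * (σ + t * I - (1 : ℝ)))⁻¹ = 0 := by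
  have l := (tz (σ - 1)).const_mul I
  rw [integral_of_hasDerivAt_of_tendsto (fun t => ?_) (int1 h h) (l.mono_left atBot_le_cocompact)
    (l.mono_left atTop_le_cocompact), sub_self]
  have n := ne (far (s := σ + t * I) (p := 1) (by simpa using h))
  rw [ofReal_one, ← sub_add_eq_add_sub] at n ⊢
  refine (((hd _ t).fun_inv n).const_mul I).congr_deriv ?_
  rw [mul_div_assoc', mul_neg, I_mul_I, neg_neg, one_div, pow_two]

theorem z2 {σ : ℝ} (h : σ ≤ 1 / 4) :
    ∫ t : ℝ, (((σ : ℂ) + t * I - (1 : ℝ)) * (σ + t * I - (3 : ℝ)))⁻¹ = 0 := by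
  have h1 : 1 / 2 ≤ |σ - 1| := le_abs.2 (Or.inr (by linarith))
  have h3 : 1 / 2 ≤ |σ - 3| := le_abs.2 (Or.inr (by linarith))
  have l := ((continuousAt_clog (x := 1 + 2 * 0) (by simp)).tendsto.comp
    (((tz (σ - 3)).const_mul 2).const_add 1)).const_mul (I / 2)
  rw [integral_of_hasDerivAt_of_tendsto (fun t => ?_) (int1 h1 h3) (l.mono_left atBot_le_cocompact)
    (l.mono_left atTop_le_cocompact), sub_self]
  have n1 := ne (far (s := σ + t * I) (p := 1) (by simpa using h1))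
  have n3 := ne (far (s := σ + t * I) (p := 3) (by simpa using h3))
  rw [ofReal_ofNat, ← sub_add_eq_add_sub (σ : ℂ) 3] at n3 ⊢
  have e : 1 + 2 * ((σ : ℂ) - 3 + t * I)⁻¹ = (σ + t * I - (1 : ℝ)) / (σ - 3 + t * I) := by
    field_simp
    push_cast
    ring
  refine ((((((hd _ t).fun_inv n3).const_mul 2).const_add 1).clog_real (Or.inl ?_)).const_mul
    (I / 2)).congr_deriv ?_
  · have := normSq_pos.2 n3
    rw [e, div_re, ← add_div]
    refine div_pos ?_ this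
    simp
    nlinarith [mul_self_nonneg t]
  · rw [e]
    field_simp
    rw [I_sq, neg_div, neg_neg]

theorem z3 : ∫ t : ℝ, ((((2 : ℝ) : ℂ) + t * I - (1 : ℝ)) * ((2 : ℝ) + t * I - (3 : ℝ)))⁻¹ = -π := by
  rw [← integral_univ_inv_one_add_sq, ← integral_complex_ofReal, ← integral_neg]
  congr 1 with t
  push_cast
  rw [← inv_neg]
  congr 1
  linear_combination (t : ℂ) ^ 2 * I_mul_I

theorem res {A : ℂ → ℂ} {a C : ℝ} (h0 : 0 < a) (h : a ≤ 1 / 4)
    (hA : DifferentiableOn ℂ A {s | 0 < s.re})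
    (hb : ∀ s : ℂ, a ≤ s.re → s.re ≤ 2 → 1 / 2 ≤ ‖s - (1 : ℝ)‖ → ‖A s‖ ≤ C) :
    (Integrable fun t : ℝ => A (a + t * I) * ((a + t * I - (1 : ℝ)) * (a + t * I - (1 : ℝ)))⁻¹) ∧
    ∫ t : ℝ, A ((2 : ℝ) + t * I) * (((2 : ℝ) + t * I - (1 : ℝ)) * ((2 : ℝ) + t * I - (1 : ℝ)))⁻¹ =
      (∫ t : ℝ, A (a + t * I) * ((a + t * I - (1 : ℝ)) * (a + t * I - (1 : ℝ)))⁻¹) +
        2 * π * deriv A 1 := by
  have o : IsOpen {s : ℂ | 0 < s.re} := isOpen_lt continuous_const continuous_re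
  have n : {s : ℂ | 0 < s.re} ∈ 𝓝 1 := o.mem_nhds (by simp)
  have d2 := (differentiableOn_dslope n).2 ((differentiableOn_dslope n).2 hA)
  let F : ℂ → ℂ := fun s => dslope (dslope A 1) 1 s + deriv A 1 * (s - (3 : ℝ))⁻¹
  have f3 : ∀ s : ℂ, s.re ≤ 2 → 1 / 2 ≤ ‖s - (3 : ℝ)‖ := fun s hs =>
    far (le_abs.2 (Or.inr (by linarith)))
  have dF : ∀ s : ℂ, 0 < s.re → s.re ≤ 2 → DifferentiableAt ℂ F s := fun s h1 h2 =>
    (d2.differentiableAt (o.mem_nhds h1)).fun_add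
      ((DifferentiableAt.fun_inv (𝕜 := ℂ) (h := fun s : ℂ => s - ((3 : ℝ) : ℂ)) (z := s)
        (by fun_prop) (ne (f3 s h2))).const_mul _)
  have eF : ∀ s : ℂ, s.re ≤ 2 → 1 / 2 ≤ ‖s - (1 : ℝ)‖ → F s =
      A s * ((s - (1 : ℝ)) * (s - (1 : ℝ)))⁻¹ - A 1 * ((s - (1 : ℝ)) * (s - (1 : ℝ)))⁻¹ +
        2 * deriv A 1 * ((s - (1 : ℝ)) * (s - (3 : ℝ)))⁻¹ := fun s h1 h2 => by
    have n1 := ne h2
    have n3 := ne (f3 s h1)
    push_cast at n1 n3
    have := sub_ne_zero.1 n1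
    simp only [F, dslope_of_ne _ this, slope_def_field, dslope_same]
    push_cast
    field_simp
    ring
  obtain ⟨D, hD⟩ := (isCompact_closedBall (1 : ℂ) (1 / 2)).exists_bound_of_continuousOn (f := F)
    fun s hs => by
      have := abs_le.1 ((abs_re_le_norm _).trans (mem_closedBall_iff_norm.1 hs))
      simp only [sub_re, one_re] at this
      exact (dF s (by linarith) (by linarith)).continuousAt.continuousWithinAt
  have hD0 := (norm_nonneg _).trans (hD 1 (by simp))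
  have hC := (norm_nonneg _).trans (hb 2 (by simp; linarith) (by simp) (by norm_num))
  have key := (shift0 (f := F) (a := a) (b := 2) (C := (C + ‖A 1‖ + 2 * ‖deriv A 1‖) * 5 + 2 * D)
    (by linarith) (fun z h1 => dF z (h0.trans_le h1)) fun σ t h1 h2 => ?_).2
  · have ln : ∀ σ : ℝ, a ≤ σ → σ ≤ 2 → 1 / 2 ≤ |σ - 1| → (Integrable fun t : ℝ =>
        A (σ + t * I) * ((σ + t * I - (1 : ℝ)) * (σ + t * I - (1 : ℝ)))⁻¹) ∧ ∫ t : ℝ, F (σ + t * I) =
        (∫ t : ℝ, A (σ + t * I) * ((σ + t * I - (1 : ℝ)) * (σ + t * I - (1 : ℝ)))⁻¹) +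
          2 * deriv A 1 * ∫ t : ℝ, (((σ : ℂ) + t * I - (1 : ℝ)) * (σ + t * I - (3 : ℝ)))⁻¹ := by
      intro σ h1 h2 h3
      have i0 := intg (A := A) h3 h3 fun s hs => ⟨hA.differentiableAt (o.mem_nhds (by
        simp only [Set.mem_ofPred_eq]; linarith)), hb s (hs ▸ h1) (hs ▸ h2) (far (hs ▸ h3))⟩
      have i1 := (int1 h3 h3).const_mul (A 1)
      have i2 := (int1 (q := 3) h3 (le_abs.2 (Or.inr (by linarith)))).const_mul (2 * deriv A 1)
      refine ⟨i0, ?_⟩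
      rw [integral_congr_ae (ae_of_all _ fun t : ℝ => eF (σ + t * I) (by simpa)
        (far (by simpa using h3))), integral_add (by exact i0.sub i1) i2, integral_sub i0 i1,
        integral_const_mul, integral_const_mul, z1 h3, mul_zero, sub_zero]
    have l1 := ln a le_rfl (by linarith) (le_abs.2 (Or.inr (by linarith)))
    have l2 := ln 2 (by linarith) le_rfl (by norm_num)
    rw [l1.2, l2.2, z2 h, z3] at key
    exact ⟨l1.1, by linear_combination -key⟩
  · have p : 0 < (1 + t ^ 2)⁻¹ := by positivity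
    have p1 := norm_nonneg (A 1)
    have p2 := norm_nonneg (deriv A 1)
    rcases le_total (1 / 2) ‖(σ + t * I : ℂ) - (1 : ℝ)‖ with e | e
    · have b1 := bd e e
      have b3 := bd e (f3 _ (by simpa))
      have b0 := mul_le_mul (hb _ (by simpa) (by simpa) e) b1 (norm_nonneg _) hC
      rw [eF _ (by simpa) e]
      refine (norm_add_le_of_le (norm_sub_le _ _) le_rfl).trans ?_
      simp only [add_im, ofReal_im, mul_im, ofReal_re, I_im, I_re, mul_one, mul_zero, add_zero,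
        zero_add] at b0 b1 b3
      rw [norm_mul, norm_mul, norm_mul, norm_mul, norm_ofNat]
      nlinarith [mul_le_mul_of_nonneg_left b1 p1, mul_le_mul_of_nonneg_left b3 p2,
        mul_nonneg hD0 p.le]
    · have b := hD _ (mem_closedBall_iff_norm.2 e)
      have c : |t| ≤ 1 / 2 := le_trans (by simpa using abs_im_le_norm (σ + t * I - (1 : ℝ) : ℂ)) e
      have c' : 1 / 2 ≤ (1 + t ^ 2)⁻¹ := by
        rw [one_div]
        exact inv_anti₀ (by positivity) (by nlinarith [sq_abs t, abs_nonneg t])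
      nlinarith [mul_le_mul_of_nonneg_left c' hD0, mul_nonneg hC p.le, mul_nonneg p1 p.le,
        mul_nonneg p2 p.le]

theorem rat {s : ℂ} {σ : ℝ} (h0 : 0 < σ) (h : σ ≤ s.re) : 1 + ‖s‖ ≤ (1 + 1 / σ) * ‖s‖ := by
  have := (one_le_div h0).2 (h.trans (re_le_norm s))
  rw [add_mul, one_mul, one_div_mul_eq_div]
  linarith

theorem exA (hP : PhZ) (hM : Mel2S) {R B E σ : ℝ} {k : ℝ → ℝ} (x : CC) (hR : 1 ≤ R)
    (hk : CutOK R B E k) (h0 : 0 < σ) (h : σ ≤ 1 / 4) {G : ℂ → ℂ} (hG : Tame G) :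
    (Integrable fun t : ℝ =>
      mel k (sg x) (σ + t * I) * LFunction x.2⁻¹ (σ + t * I) ^ 2 * G (σ + t * I)) ∧
    ∫ t : ℝ, mel k (sg x) ((2 : ℝ) + t * I) * LFunction x.2⁻¹ ((2 : ℝ) + t * I) ^ 2 *
      G ((2 : ℝ) + t * I) = 2 * π * (VL k σ x G + VR k x G) := by
  classical
  obtain ⟨C, hC, hP⟩ := hP
  obtain ⟨p1, -, -, -, -, p2, p3⟩ := hP _ x.2⁻¹
  obtain ⟨C', -, hM⟩ := hM
  obtain ⟨-, -, m1, m2⟩ := hM R B E (sg x) k hR hk (by unfold sg; split_ifs <;> simp)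
  obtain ⟨g1, D, g2⟩ := hG
  let A : ℂ → ℂ := fun s => mel k (sg x) s * Phi x.2⁻¹ s ^ 2 * G s *
    if x.2⁻¹ = 1 then 1 else (s - 1) ^ 2
  have eA : ∀ s : ℂ, s ≠ 1 → A s = mel k (sg x) s * LFunction x.2⁻¹ s ^ 2 * G s * (s - 1) ^ 2 :=
    fun s hs => by
      simp only [A, p2 s hs]
      split_ifs <;> ring
  have e2 : ∀ r t : ℝ, r ≠ 1 → A (r + t * I) * ((r + t * I - (1 : ℝ)) * (r + t * I - (1 : ℝ)))⁻¹ =
      mel k (sg x) (r + t * I) * LFunction x.2⁻¹ (r + t * I) ^ 2 * G (r + t * I) := fun r t hr => by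
    have : (r + t * I : ℂ) ≠ 1 := fun e => hr (by simpa using congrArg re e)
    rw [eA _ this, ofReal_one, ← pow_two, mul_inv_cancel_right₀ (pow_ne_zero _ (sub_ne_zero.2 this))]
  have d0 : ∀ s : ℂ, 0 < s.re →
      DifferentiableAt ℂ (fun s => mel k (sg x) s * Phi x.2⁻¹ s ^ 2 * G s) s := fun s hs =>
    ((m1 s hs).2.fun_mul ((p1 s).fun_pow 2)).fun_mul (g1 s)
  obtain ⟨r1, r2⟩ := res (A := A) (C := |C' * E * R ^ 7| * (1 + 1 / σ) *
      (C * (x.1 + 1 : ℕ) * (1 + 1 / σ)) ^ 2 * D * (1 + 1 / σ) ^ 4) h0 h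
    (fun s hs => ((d0 s hs).fun_mul (by split_ifs <;> fun_prop)).differentiableWithinAt)
    fun s h1 h2 h3 => by
      have s0 := h0.trans_le h1
      have n0 := s0.trans_le (re_le_norm s)
      have q1 : 1 + 1 / s.re ≤ 1 + 1 / σ := by gcongr
      have q2 := rat h0 h1
      have b1 : ‖mel k (sg x) s‖ ≤ |C' * E * R ^ 7| * (1 + 1 / σ) / ‖s‖ ^ 4 :=
        (m2 s s0 (by linarith)).trans (by gcongr; exact le_abs_self _)
      have b2 : ‖LFunction x.2⁻¹ s‖ ≤ C * (x.1 + 1 : ℕ) * ((1 + 1 / σ) * ‖s‖) * (1 + 1 / σ) :=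
        ((p3 s s0).2 h3).trans (by gcongr)
      have b3 := g2 s s0.le (by linarith)
      have b4 : ‖s - 1‖ ≤ (1 + 1 / σ) * ‖s‖ :=
        (norm_sub_le _ _).trans (by rwa [norm_one, add_comm])
      have D0 := (norm_nonneg _).trans b3
      rw [eA s (sub_ne_zero.1 (ne h3)), norm_mul, norm_mul, norm_mul, norm_pow, norm_pow]
      refine le_trans (by gcongr) (le_of_eq (?_ : |C' * E * R ^ 7| * (1 + 1 / σ) / ‖s‖ ^ 4 *
        (C * (x.1 + 1 : ℕ) * ((1 + 1 / σ) * ‖s‖) * (1 + 1 / σ)) ^ 2 * D *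
          ((1 + 1 / σ) * ‖s‖) ^ 2 = _))
      generalize 1 + 1 / σ = u
      field_simp
  have e3 : deriv A 1 = VR k x G := by
    unfold VR
    split_ifs with e
    · have e' : sg x = 1 := if_pos (by rw [e]; exact MulChar.one_apply isUnit_one.neg)
      simp only [A, e, e', inv_one, if_true, mul_one]
    · simp only [A, if_neg (inv_ne_one.2 e)]
      simpa using ((d0 1 (by simp)).hasDerivAt.fun_mul
        (((hasDerivAt_id' (1 : ℂ)).sub_const 1).fun_pow 2)).deriv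
  simp only [e2 σ _ (by linarith), e2 2 _ (by norm_num), e3] at r1 r2
  refine ⟨r1, ?_⟩
  rw [r2, VL, mul_add, ← mul_assoc, mul_one_div_cancel two_pi_ne, one_mul]

theorem melI (hM : Mel2S) {R B E e : ℝ} {k : ℝ → ℝ} (hR : 1 ≤ R) (hk : CutOK R B E k)
    (he : |e| = 1) : Integrable fun t : ℝ => mel k e ((2 : ℝ) + t * I) := by
  obtain ⟨C, -, hM⟩ := hM
  obtain ⟨-, -, m1, m2⟩ := hM R B E e k hR hk he
  refine (shift0 (f := mel k e) (C := |C * E * R ^ 7 * (1 + 1 / 2)|) le_rfl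
    (fun z h _ => (m1 z (by linarith)).2) fun r t h1 h2 => ?_).1 2 le_rfl le_rfl
  obtain rfl := h1.antisymm h2
  refine (m2 _ (by simp) (by simp; norm_num)).trans ?_
  have : ‖((2 : ℝ) + t * I : ℂ)‖ ^ 4 = (2 ^ 2 + t ^ 2) ^ 2 := by
    rw [← normSq_add_mul_I, normSq_eq_norm_sq, ← pow_mul]
  rw [this, ← div_eq_mul_inv]
  exact div_le_div₀ (abs_nonneg _) (le_trans (by simp) (le_abs_self _)) (by positivity)
    (by nlinarith [sq_nonneg t])

end VorA

open VorA in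
theorem vorOf : VorOf := by
  classical
  intro hP hM R B E σ k x hR hk h0 h
  refine ⟨fun ι J c G hG => ⟨?_, ?_⟩, fun c H v M hH hv hRM hs => ?_⟩
  · simp only [VL, mul_left_comm (c _) (1 / (2 * π)), ← mul_sum, ← integral_const_mul (c _)]
    rw [← integral_finsetSum _ fun i hi => (exA hP hM x hR hk h0 h (hG i hi)).1.const_mul (c i)]
    simp only [mul_sum, mul_left_comm (c _)]
  · unfold VR
    split_ifs
    · obtain ⟨C, -, hP⟩ := hP
      obtain ⟨C', -, hM⟩ := hM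
      have d : ∀ i ∈ J, DifferentiableAt ℂ (fun s => mel k 1 s * Phi x.2 s ^ 2 * G i s) 1 :=
        fun i hi => (((hM R B E 1 k hR hk abs_one).2.2.1 1 (by simp)).2.fun_mul
          (((hP _ x.2).1 1).fun_pow 2)).fun_mul ((hG i hi).1 1)
      rw [sum_congr rfl fun i hi => (deriv_const_mul (c i) (d i hi)).symm,
        ← deriv_fun_sum fun i hi => (d i hi).const_mul (c i)]
      simp only [mul_sum, mul_left_comm (c _)]
    · simp
  have v0 : (v : ℂ) ≠ 0 := ofReal_ne_zero.2 hv.ne'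
  have dv : Differentiable ℂ fun s : ℂ => (v : ℂ) ^ s := differentiable_id.const_cpow (Or.inl v0)
  have hG : Tame fun s => H s * (v : ℂ) ^ s := by
    obtain ⟨h1, D, h2⟩ := hH
    refine ⟨h1.fun_mul dv, D * max 1 (v ^ (3 : ℝ)), fun s a b => ?_⟩
    rw [norm_mul, norm_cpow_eq_rpow_re_of_pos hv]
    refine mul_le_mul (h2 s a b) ?_ (by positivity) ((norm_nonneg _).trans (h2 s a b))
    rcases le_total v 1 with e | e
    · exact le_max_of_le_left (Real.rpow_le_one hv.le e a)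
    · exact le_max_of_le_right (Real.rpow_le_rpow_of_exponent_le e b)
  have he : |sg x| = 1 := by unfold sg; split_ifs <;> simp
  have im := melI hM hR hk he
  have key := (exA hP hM x hR hk h0 h hG).2
  obtain ⟨C, -, hM⟩ := hM
  obtain ⟨m0, m1, m2, -⟩ := hM R B E (sg x) k hR hk he
  let F : ℕ → ℝ → ℂ := fun n t =>
    LSeries.term c ((2 : ℝ) + t * I) n * (v : ℂ) ^ ((2 : ℝ) + t * I) * mel k (sg x) ((2 : ℝ) + t * I)
  have nF : ∀ (n : ℕ) (t : ℝ), ‖LSeries.term c ((2 : ℝ) + t * I) n * (v : ℂ) ^ ((2 : ℝ) + t * I)‖ =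
      ‖LSeries.term c 2 n‖ * v ^ (2 : ℝ) := fun n t => by
    rw [norm_mul, norm_cpow_eq_rpow_re_of_pos hv, LSeries.norm_term_eq, LSeries.norm_term_eq]
    simp
  have iF : ∀ n, Integrable (F n) := fun n =>
    im.bdd_mul (Continuous.aestronglyMeasurable (Continuous.mul
      ((continuous_iff_continuousAt.2 fun z => (LSeries.hasDerivAt_term c n z).continuousAt).comp
        (by fun_prop)) (dv.continuous.comp (by fun_prop)))) (ae_of_all _ fun t => (nF n t).le)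
  have s1 := hasSum_integral_of_summable_integral_norm iF (by
    refine (((hs 2 (by simp)).LSeriesSummable.norm.mul_right (v ^ (2 : ℝ))).mul_right
      (∫ t : ℝ, ‖mel k (sg x) ((2 : ℝ) + t * I)‖)).congr fun n => ?_
    rw [← integral_const_mul]
    congr 1 with t
    rw [← nF n t, ← norm_mul])
  have e1 : ∀ t, ∑' n, F n t = mel k (sg x) ((2 : ℝ) + t * I) *
      LFunction x.2⁻¹ ((2 : ℝ) + t * I) ^ 2 * (H ((2 : ℝ) + t * I) * (v : ℂ) ^ ((2 : ℝ) + t * I)) :=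
    fun t => by
      rw [(((hs ((2 : ℝ) + t * I) (by simp)).mul_right _).mul_right _).tsum_eq]
      ring
  have e2 : ∀ n : ℕ, n ≠ 0 → ∫ t, F n t = 2 * π * (c n * fe k (sg x) (n / v)) := fun n hn => by
    have p : 0 < (n : ℝ) / v := div_pos (Nat.cast_pos.2 hn.bot_lt) hv
    rw [← mellinInv_mellin_eq 2 _ p (m2 _ (by simp)).1 im (m0.continuousAt (Ioi_mem_nhds p)),
      mellinInv, real_smul, mul_left_comm, ← mul_assoc (2 * π : ℂ)]
    push_cast
    rw [mul_one_div_cancel two_pi_ne, one_mul, ← integral_const_mul]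
    congr 1 with t
    have := mul_cpow_ofReal_nonneg p.le hv.le (2 + t * I)
    rw [← ofReal_mul, div_mul_cancel₀ _ hv.ne', ofReal_natCast, ofReal_div, ofReal_natCast] at this
    simp only [F, mel, LSeries.term_of_ne_zero hn, ofReal_ofNat, this, smul_eq_mul, cpow_neg]
    have : (v : ℂ) ^ (2 + t * I) ≠ 0 := cpow_ne_zero_iff.2 (Or.inl v0)
    rw [div_mul_eq_div_div, div_mul_cancel₀ _ this, div_eq_mul_inv, mul_assoc]
  simp only [e1, key] at s1
  have s2 : HasSum (fun n => ∫ t, F n t) (∑ n ∈ Icc 1 M, ∫ t, F n t) :=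
    hasSum_sum_of_ne_finset_zero fun n hn => by
      by_cases e : n = 0
      · simp [F, e]
      have : (M : ℝ) ≤ n := Nat.cast_le.2 (by rw [mem_Icc] at hn; omega)
      rw [e2 n e, m1 _ ((le_div_iff₀ hv).2 (hRM.trans this)), mul_zero, mul_zero]
  refine mul_left_cancel₀ two_pi_ne ?_
  rw [← s2.unique s1, mul_sum]
  exact sum_congr rfl fun n hn => (e2 n (by rw [mem_Icc] at hn; omega)).symm

end Pool.Agent.MP_20b2fd_nt.H38
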