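import Pool.Agent.MP_20b2fd_nt.H38.SpecC
import Pool.Agent.MP_74e98a_nt.H25.Div

/-! The total weight of the local data with a given product. -/

set_option autoImplicit false

namespace Pool.Agent.MP_20b2fd_nt.H38

open Finset Filter

namespace Xb0A

/-- the local sum -/
noncomputable def hh (a p μ : ℕ) : ℝ :=
  ∑ y ∈ (al3 a p).filter (fun y => mx y = μ), (p : ℝ) ^ μ * |u3 a p y|

noncomputable def ka (a p : ℕ) : ℝ := 1 + ∑ y ∈ al3 a p, (p : ℝ) ^ mx y * |u3 a p y|

theorem ka_ge (a p : ℕ) : 1 ≤ ka a p := by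
  unfold ka
  exact le_add_of_nonneg_right (by positivity)

theorem hh_nonneg (a p μ : ℕ) : 0 ≤ hh a p μ := by
  unfold hh
  positivity

theorem hh_le (a p μ : ℕ) : hh a p μ ≤ ka a p := by
  unfold hh ka
  have h1 : ∑ y ∈ (al3 a p).filter (fun y => mx y = μ), (p : ℝ) ^ μ * |u3 a p y| =
      ∑ y ∈ (al3 a p).filter (fun y => mx y = μ), (p : ℝ) ^ mx y * |u3 a p y| :=
    sum_congr rfl fun y hy => by rw [(mem_filter.1 hy).2]
  rw [h1]
  have h2 := sum_le_sum_of_subset_of_nonneg (filter_subset (fun y => mx y = μ) (al3 a p))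
    (f := fun y => (p : ℝ) ^ mx y * |u3 a p y|) fun y _ _ => by positivity
  linarith

theorem al3_eq {a p : ℕ} (h : ¬ p ∣ 30 * a) : al3 a p =
    {((0, 0), (0, 0), 0), ((0, 0), (1, 0), 0), ((0, 0), (0, 1), 0), ((1, 0), (0, 0), 0),
      ((1, 0), (1, 0), 0), ((1, 0), (0, 1), 0), ((0, 1), (0, 0), 0), ((0, 1), (1, 0), 0),
      ((0, 1), (0, 1), 0), ((1, 0), (1, 0), 1)} := by
  have h0 : a.factorization p = 0 :=
    Nat.factorization_eq_zero_of_not_dvd fun h1 => h (h1.mul_left 30)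
  unfold al3 al
  rw [if_neg h, h0]
  decide

theorem hh_gen {a p : ℕ} (hp : p.Prime) (h : ¬ p ∣ 30 * a) (μ : ℕ) :
    hh a p μ ≤ ((μ : ℝ) + 1) ^ 2 * Real.exp (9 * (1 / p)) := by
  have h7 : 7 ≤ p := by
    by_contra hlt
    have h2 := hp.two_le
    have h3 : ¬ p ∣ 30 := fun h1 => h (h1.mul_right a)
    interval_cases p <;> first | exact h3 (by decide) | exact absurd hp (by decide)
  have h7' : (7 : ℝ) ≤ p := by exact_mod_cast h7
  have hq : (0 : ℝ) < p - 1 := by linarith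
  have he : 1 + 9 * (1 / (p : ℝ)) ≤ Real.exp (9 * (1 / p)) := by
    linarith [Real.add_one_le_exp (9 * (1 / (p : ℝ)))]
  have h9 : 0 ≤ 9 * (1 / (p : ℝ)) := by positivity
  have e0 : uu a p (0, 0) = 1 := by simp [uu, h]
  have e1 : |uu a p (1, 0)| = 1 / ((p : ℝ) - 1) := by
    simp [uu, h, abs_div, abs_of_pos hq]
  have e2 : |uu a p (0, 1)| = 2 * (1 / ((p : ℝ) - 1)) := by
    simp [uu, h, abs_div, abs_of_pos hq, div_eq_mul_inv]
  have r0 : 0 < 1 / ((p : ℝ) - 1) := by positivity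
  have r1 : 1 / ((p : ℝ) - 1) ≤ 1 / 6 := one_div_le_one_div_of_le (by norm_num) (by linarith)
  have r2 : (p : ℝ) * (1 / ((p : ℝ) - 1)) = 1 + 1 / ((p : ℝ) - 1) := by
    field_simp
    ring
  have r3 : 1 / ((p : ℝ) - 1) ≤ 7 / 6 * (1 / p) := by
    rw [div_le_iff₀ hq]
    have : (1 : ℝ) / p * p = 1 := by field_simp
    have h5 : (1 : ℝ) / p ≤ 1 / 7 := one_div_le_one_div_of_le (by norm_num) h7'
    nlinarith
  unfold hh
  rw [sum_filter, al3_eq h]
  repeat rw [sum_insert (by decide)]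
  rw [sum_singleton]
  simp only [mx, u3, abs_mul, e0, e1, e2, abs_one, pow_zero, pow_one, Nat.abs_cast]
  generalize 1 / ((p : ℝ) - 1) = r at *
  generalize Real.exp (9 * (1 / (p : ℝ))) = E at *
  rcases μ with _ | _ | _ | μ
  · norm_num
    nlinarith
  · norm_num
    nlinarith
  · norm_num
    nlinarith
  · have n0 : ¬ 0 = μ + 1 + 1 + 1 := by omega
    have n1 : ¬ 1 = μ + 1 + 1 + 1 := by omega
    have n2 : ¬ 2 = μ + 1 + 1 + 1 := by omega
    norm_num [n0, n1, n2]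
    exact mul_nonneg (by positivity) (by linarith)

theorem core (hE : E1S) {a : ℕ} (ha : 1 ≤ a) (S : Finset ℕ) (hS : ∀ p ∈ S, p.Prime) (M : ℕ) :
    M * ∑ x ∈ (Fintype.piFinset fun p : S => al3 a p).filter (fun x => M3 x = M), |U3 a x| ≤
      (∏ p ∈ (30 * a).primeFactors, ka a p) * tau M ^ 2 * Real.exp (9 * ∑ p ∈ S, (1 : ℝ) / p) := by
  classical
  have hK : 0 ≤ ∏ p ∈ (30 * a).primeFactors, ka a p :=
    prod_nonneg fun p _ => zero_le_one.trans (ka_ge a p)
  rcases ((Fintype.piFinset fun p : S => al3 a p).filter fun x => M3 x = M).eq_empty_or_nonempty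
    with h0 | ⟨x0, hx0⟩
  · rw [h0, sum_empty, mul_zero]
    positivity
  obtain ⟨-, h2, h3, -⟩ := hE S hS
  have hM : M = pp fun p => mx (x0 p) := (mem_filter.1 hx0).2.symm
  have hF : ((Fintype.piFinset fun p : S => al3 a p).filter fun x => M3 x = M) =
      Fintype.piFinset fun p : S => (al3 a p).filter fun y => mx y = mx (x0 p) := by
    ext x
    simp only [mem_filter, Fintype.mem_piFinset]
    constructor
    · rintro ⟨h4, h5⟩ p
      exact ⟨h4 p, congrFun ((h3 _ _).2.2.2.2 (h5.trans hM)) p⟩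
    · intro h4
      refine ⟨fun p => (h4 p).1, ?_⟩
      rw [hM]
      exact congrArg pp (funext fun p => (h4 p).2)
  have hP : M * ∑ x ∈ (Fintype.piFinset fun p : S => al3 a p).filter (fun x => M3 x = M),
      |U3 a x| = ∏ p : S, hh a p (mx (x0 p)) := by
    unfold hh
    rw [hF, prod_univ_sum, mul_sum]
    refine sum_congr rfl fun x _ => ?_
    rw [prod_mul_distrib, U3, abs_prod, hM, pp]
    push_cast
    rfl
  rw [hP, hM, (h2 _).2.2.2.2.1, mul_sum, Real.exp_sum, ← prod_pow,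
    ← prod_coe_sort S fun p => Real.exp (9 * (1 / (p : ℝ)))]
  have h5 : ∏ p : S, (if (p : ℕ) ∣ 30 * a then ka a p else 1) ≤
      ∏ p ∈ (30 * a).primeFactors, ka a p := by
    rw [prod_coe_sort S fun p => if p ∣ 30 * a then ka a p else 1, ← prod_filter]
    refine prod_le_prod_of_subset_of_one_le (fun p hp => ?_)
      (fun p _ => zero_le_one.trans (ka_ge a p)) fun p _ _ => ka_ge a p
    exact Nat.mem_primeFactors.2 ⟨hS p (mem_filter.1 hp).1, (mem_filter.1 hp).2, by omega⟩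
  refine le_trans ?_ (mul_le_mul_of_nonneg_right (mul_le_mul_of_nonneg_right h5 (by positivity))
    (by positivity))
  rw [← prod_mul_distrib, ← prod_mul_distrib]
  refine prod_le_prod (fun p _ => hh_nonneg _ _ _) fun p _ => ?_
  split_ifs with h
  · have h6 : 1 ≤ ((mx (x0 p) : ℝ) + 1) ^ 2 := one_le_pow₀ (by simp)
    have h7 : 1 ≤ Real.exp (9 * (1 / ((p : ℕ) : ℝ))) := Real.one_le_exp (by positivity)
    have h8 := ka_ge a p
    refine (hh_le _ _ _).trans ?_
    rw [mul_assoc]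
    exact le_mul_of_one_le_right (by linarith) (one_le_mul_of_one_le_of_one_le h6 h7)
  · rw [one_mul]
    exact hh_gen (hS p p.2) h _

end Xb0A

theorem xb0Of : Xb0Of := by
  intro hM hE δ a hδ hδ1 ha
  obtain ⟨D, hD, -, -, hM⟩ := hM
  obtain ⟨C, hC, hdiv⟩ := Pool.Agent.MP_74e98a_nt.H25.divisor_bound (δ / 32) (by positivity)
  have hK : 0 ≤ ∏ p ∈ (30 * a).primeFactors, Xb0A.ka a p :=
    prod_nonneg fun p _ => zero_le_one.trans (Xb0A.ka_ge a p)
  generalize hKe : ∏ p ∈ (30 * a).primeFactors, Xb0A.ka a p = K at hK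
  have t1 := ((tendsto_rpow_atTop (show 0 < δ / 16 by positivity)).comp
    tendsto_natCast_atTop_atTop).eventually_ge_atTop
      (K * C ^ 2 * (Real.exp (9 * D) * (1 / (δ / 144)) ^ 9))
  have t2 := ((tendsto_rpow_atTop (show 0 < 1000 * δ by positivity)).comp
    tendsto_natCast_atTop_atTop).eventually_ge_atTop 2
  obtain ⟨N₀, hN₀⟩ := eventually_atTop.1 (t1.and (t2.and (eventually_ge_atTop 1)))
  refine ⟨N₀, fun N hN M hM1 hM2 => ?_⟩
  obtain ⟨s1, s2, s3⟩ := hN₀ N hN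
  simp only [Function.comp] at s1 s2
  have hN1 : (1 : ℝ) ≤ N := by exact_mod_cast s3
  have hN0 : (0 : ℝ) < N := by linarith
  have hM0 : (0 : ℝ) < M := by exact_mod_cast hM1
  have h1 := Xb0A.core hE ha (SS δ N) (fun p hp => (mem_filter.1 hp).2.1) M
  rw [hKe] at h1
  rw [le_div_iff₀' hM0]
  refine h1.trans ?_
  have h2 : tau M ^ 2 ≤ C ^ 2 * (N : ℝ) ^ (δ / 8) := by
    have h3 : (M : ℝ) ^ (δ / 32) ≤ (N : ℝ) ^ (δ / 16) := by
      have h4 : (M : ℝ) ≤ (N : ℝ) ^ (2 : ℝ) := by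
        rw [Real.rpow_two]
        exact_mod_cast hM2
      refine (Real.rpow_le_rpow hM0.le h4 (by positivity)).trans_eq ?_
      rw [← Real.rpow_mul hN0.le]
      congr 1
      ring
    have h5 : tau M ≤ C * (N : ℝ) ^ (δ / 16) :=
      (hdiv M).trans (mul_le_mul_of_nonneg_left h3 (by linarith))
    refine (pow_le_pow_left₀ (by unfold tau; positivity) h5 2).trans_eq ?_
    rw [mul_pow, ← Real.rpow_two ((N : ℝ) ^ (δ / 16)), ← Real.rpow_mul hN0.le]
    congr 2
    ring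
  have h3 : Real.exp (9 * ∑ p ∈ SS δ N, (1 : ℝ) / p) ≤
      Real.exp (9 * D) * (1 / (δ / 144)) ^ 9 * (N : ℝ) ^ (δ / 16) := by
    have h4 := (abs_le.1 (hM (zz δ N) s2)).2
    have h5 : 0 < Real.log (zz δ N) := Real.log_pos (lt_of_lt_of_le one_lt_two s2)
    have h6 : Real.log (zz δ N) ≤ 1 / (δ / 144) * (N : ℝ) ^ (δ / 144) := by
      have h7 := Real.log_le_rpow_div hN0.le (show 0 < δ / 144 by positivity)
      have h8 : Real.log (zz δ N) ≤ Real.log N := by
        unfold zz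
        rw [Real.log_rpow hN0]
        exact mul_le_of_le_one_left (Real.log_nonneg hN1) (by linarith)
      rw [one_div, inv_mul_eq_div]
      exact h8.trans h7
    have h9 : Real.exp (9 * ∑ p ∈ SS δ N, (1 : ℝ) / p) ≤
        Real.exp (9 * D) * Real.log (zz δ N) ^ 9 := by
      rw [← Real.exp_log (pow_pos h5 9), ← Real.exp_add, Real.log_pow]
      refine Real.exp_le_exp.2 ?_
      unfold SS
      push_cast
      linarith
    refine h9.trans ?_
    rw [mul_assoc]
    refine mul_le_mul_of_nonneg_left ((pow_le_pow_left₀ h5.le h6 9).trans_eq ?_) (Real.exp_pos _).le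
    rw [mul_pow, ← Real.rpow_natCast ((N : ℝ) ^ (δ / 144)), ← Real.rpow_mul hN0.le]
    congr 2
    push_cast
    ring
  have h4 : (N : ℝ) ^ (δ / 4) = (N : ℝ) ^ (δ / 16) * ((N : ℝ) ^ (δ / 8) * (N : ℝ) ^ (δ / 16)) := by
    rw [← Real.rpow_add hN0, ← Real.rpow_add hN0]
    congr 1
    ring
  rw [h4]
  refine (mul_le_mul (mul_le_mul_of_nonneg_left h2 hK) h3 (by positivity) (by positivity)).trans ?_
  refine le_trans (le_of_eq (by ring)) (mul_le_mul_of_nonneg_right s1 (by positivity))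

end Pool.Agent.MP_20b2fd_nt.H38
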