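import Pool.Agent.MP_20b2fd_nt.H38.SpecC
import Pool.Agent.MP_74e98a_nt.H25.Div

/-! The trivial bound for the triple sum. -/

set_option autoImplicit false

namespace Pool.Agent.MP_20b2fd_nt.H38

open Finset Filter

namespace Xb1A

theorem big (c K : ℝ) (hc : 0 < c) : ∃ N₀ : ℕ, ∀ N : ℕ, N₀ ≤ N → K ≤ (N : ℝ) ^ c :=
  eventually_atTop.1
    (((tendsto_rpow_atTop hc).comp tendsto_natCast_atTop_atTop).eventually_ge_atTop K)

theorem card_le (Q : Finset ((ℕ × ℕ) × ℕ × ℕ)) (m : ℕ) (hm : 1 ≤ m) :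
    (Q.filter fun q => nn q.1 * nn q.2 ∣ m).card ≤ m.divisors.card ^ 4 := by
  have : (Q.filter fun q => nn q.1 * nn q.2 ∣ m) ⊆
      (m.divisors ×ˢ m.divisors) ×ˢ m.divisors ×ˢ m.divisors := by
    intro q hq
    have h := (mem_filter.1 hq).2
    have h1 : nn q.1 ∣ m := (Dvd.intro _ rfl).trans h
    have h2 : nn q.2 ∣ m := (Dvd.intro_left _ rfl).trans h
    simp only [mem_product, Nat.mem_divisors]
    exact ⟨⟨⟨(Dvd.intro _ rfl).trans h1, by omega⟩, ⟨(Dvd.intro_left _ rfl).trans h1, by omega⟩⟩,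
      ⟨(Dvd.intro _ rfl).trans h2, by omega⟩, ⟨(Dvd.intro_left _ rfl).trans h2, by omega⟩⟩
  refine (card_le_card this).trans_eq ?_
  simp only [card_product]
  ring

theorem key {ι : Type} (X : Finset ι) (Q : Finset ((ℕ × ℕ) × ℕ × ℕ)) (A : Finset ℕ) (U : ι → ℝ)
    (M : ι → ℕ) (W : ι → (ℕ × ℕ) × ℕ × ℕ → ℝ) (l : ℕ → ℂ) (B C : ℝ) (hB : 0 ≤ B)
    (hW : ∀ x ∈ X, ∀ q ∈ Q, |W x q| ≤ 1 / ((nn q.1 * nn q.2 : ℕ) : ℝ) ∧
      (W x q ≠ 0 → M x * nn q.1 * nn q.2 ∈ A))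
    (hA : ∀ m ∈ A, 1 ≤ m ∧ (m.divisors.card : ℝ) ^ 4 ≤ C ∧
      ∀ M₀ : ℕ, M₀ ∣ m → ∑ x ∈ X.filter (fun x => M x = M₀), |U x| ≤ B / M₀) :
    ‖∑ x ∈ X, ∑ q ∈ Q, ((U x * W x q : ℝ) : ℂ) * l (M x * nn q.1 * nn q.2)‖ ≤
      B * C * ∑ m ∈ A, ‖l m‖ / m := by
  have h1 : ‖∑ x ∈ X, ∑ q ∈ Q, ((U x * W x q : ℝ) : ℂ) * l (M x * nn q.1 * nn q.2)‖ ≤
      ∑ x ∈ X, ∑ q ∈ Q, ∑ m ∈ A, if M x * (nn q.1 * nn q.2) = m then
        |U x| / ((nn q.1 * nn q.2 : ℕ) : ℝ) * ‖l m‖ else 0 := by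
    refine (norm_sum_le _ _).trans (sum_le_sum fun x hx => (norm_sum_le _ _).trans
      (sum_le_sum fun q hq => ?_))
    obtain ⟨ha, hb⟩ := hW x hx q hq
    by_cases h0 : W x q = 0
    · rw [h0, mul_zero, Complex.ofReal_zero, zero_mul, norm_zero]
      exact sum_nonneg fun m _ => by positivity
    · rw [sum_ite_eq, ← mul_assoc, if_pos (hb h0), norm_mul, Complex.norm_real, Real.norm_eq_abs,
        abs_mul, div_eq_mul_one_div]
      gcongr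
  refine h1.trans ?_
  rw [sum_comm, mul_sum]
  simp_rw [sum_comm (s := X) (t := A)]
  rw [sum_comm]
  refine sum_le_sum fun m hm => ?_
  obtain ⟨hm1, hC, hM⟩ := hA m hm
  have hm0 : (0 : ℝ) < m := by exact_mod_cast hm1
  have h2 : ∀ q ∈ Q, (∑ x ∈ X, if M x * (nn q.1 * nn q.2) = m then
      |U x| / ((nn q.1 * nn q.2 : ℕ) : ℝ) * ‖l m‖ else 0) ≤
      if nn q.1 * nn q.2 ∣ m then B * (‖l m‖ / m) else 0 := by
    intro q _
    generalize nn q.1 * nn q.2 = n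
    split_ifs with hd
    · obtain ⟨M₀, rfl⟩ := hd
      have hn : 0 < n := Nat.pos_of_mul_pos_right hm1
      have hM0 : 0 < M₀ := Nat.pos_of_mul_pos_left hm1
      have hn' : (0 : ℝ) < n := by exact_mod_cast hn
      have hM0' : (0 : ℝ) < M₀ := by exact_mod_cast hM0
      have e : ∀ x, (M x * n = n * M₀) ↔ M x = M₀ := fun x => by
        rw [mul_comm n]
        exact Nat.mul_left_inj hn.ne'
      simp only [e]
      rw [← sum_filter, ← sum_mul, ← sum_div]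
      have := hM M₀ (Dvd.intro_left _ rfl)
      calc _ ≤ B / M₀ / n * ‖l (n * M₀)‖ := by gcongr
        _ = _ := by
          push_cast
          field_simp
    · refine (sum_eq_zero fun x _ => if_neg fun e => hd ?_).le
      exact ⟨M x, by rw [← e, mul_comm]⟩
  refine (sum_le_sum h2).trans ?_
  rw [← sum_filter, sum_const, nsmul_eq_mul]
  have h3 : (((Q.filter fun q => nn q.1 * nn q.2 ∣ m).card : ℕ) : ℝ) ≤ C :=
    le_trans (by exact_mod_cast card_le Q m hm1) hC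
  calc _ ≤ C * (B * (‖l m‖ / m)) := by gcongr
    _ = _ := by ring

theorem TS_eq (δ : ℝ) (a N : ℕ) (T : Finset (ℕ × ℕ)) (l : ℕ → ℂ) : TS δ a N T l =
    ∑ x ∈ Fintype.piFinset (fun p : SS δ N => al3 a p), ∑ q ∈ T ×ˢ T,
      ((U3 a x * (wi δ N (k1 a x) q.1 * wi δ N (k2 a x) q.2) : ℝ) : ℂ) *
        l (M3 x * nn q.1 * nn q.2) := by
  unfold TS
  refine sum_congr rfl fun x _ => ?_
  rw [sum_product]
  simp only [mul_assoc]

end Xb1A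

open Xb1A Classical in
theorem xb1Of : Xb1Of := by
  intro hE hS hX δ a hδ hδ' ha
  obtain ⟨N₁, hN₁⟩ := hX δ a hδ hδ' ha
  obtain ⟨C, hC1, hC⟩ := Pool.Agent.MP_74e98a_nt.H25.divisor_bound (δ / 64) (by positivity)
  obtain ⟨N₂, hN₂⟩ := big (δ / 8) (C ^ 4) (by positivity)
  obtain ⟨N₃, hN₃⟩ := big (δ / 2) (900 * (a : ℝ) ^ 4) (by positivity)
  refine ⟨max (max N₁ N₂) (max N₃ 2), fun N hN l => ?_⟩
  have hn1 : N₁ ≤ N := by omega
  have hn2 : N₂ ≤ N := by omega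
  have hn3 : N₃ ≤ N := by omega
  have hn4 : 2 ≤ N := by omega
  have hN1 : (1 : ℝ) ≤ N := by exact_mod_cast (by omega : 1 ≤ N)
  have hN0 : (0 : ℝ) < N := by linarith
  obtain ⟨hp, hT⟩ := hS.2 δ N hδ hn4
  have hpp := fun c => ((hE (SS δ N) hp).2.1 c).1
  have hA : ∀ m ∈ Icc 1 ⌊(N : ℝ) ^ (1 + 3 * δ / 2)⌋₊, 1 ≤ m ∧
      (m.divisors.card : ℝ) ^ 4 ≤ (N : ℝ) ^ (δ / 4) ∧ ∀ M₀ : ℕ, M₀ ∣ m →
      ∑ x ∈ (Fintype.piFinset fun p : SS δ N => al3 a p).filter (fun x => M3 x = M₀),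
        |U3 a x| ≤ (N : ℝ) ^ (δ / 4) / M₀ := by
    intro m hm
    obtain ⟨hm1, hm2⟩ := mem_Icc.1 hm
    have hm3 : (m : ℝ) ≤ (N : ℝ) ^ (2 : ℝ) :=
      ((Nat.le_floor_iff (by positivity)).1 hm2).trans
        (Real.rpow_le_rpow_of_exponent_le hN1 (by norm_num at hδ' ⊢; linarith))
    have hm4 : m ≤ N ^ 2 := by
      rw [Real.rpow_two] at hm3
      exact_mod_cast hm3
    refine ⟨hm1, ?_, fun M₀ h => hN₁ N hn1 M₀ (Nat.pos_of_dvd_of_pos h hm1)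
      ((Nat.le_of_dvd hm1 h).trans hm4)⟩
    have h1 : (m : ℝ) ^ (δ / 64) ≤ (N : ℝ) ^ (δ / 32) := by
      refine (Real.rpow_le_rpow (by positivity) hm3 (by positivity)).trans_eq ?_
      rw [← Real.rpow_mul hN0.le]
      congr 1
      ring
    calc (m.divisors.card : ℝ) ^ 4 ≤ (C * (N : ℝ) ^ (δ / 32)) ^ 4 := by
          gcongr
          exact (hC m).trans (by gcongr)
      _ = C ^ 4 * (N : ℝ) ^ (δ / 8) := by
          rw [mul_pow, ← Real.rpow_mul_natCast hN0.le]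
          congr 2
          push_cast
          ring
      _ ≤ (N : ℝ) ^ (δ / 8) * (N : ℝ) ^ (δ / 8) := by
          gcongr
          exact hN₂ N hn2
      _ = _ := by
          rw [← Real.rpow_add hN0]
          congr 1
          ring
  have hW : ∀ x ∈ Fintype.piFinset (fun p : SS δ N => al3 a p), ∀ q ∈ TR δ N ×ˢ TR δ N,
      |wi δ N (k1 a x) q.1 * wi δ N (k2 a x) q.2| ≤ 1 / ((nn q.1 * nn q.2 : ℕ) : ℝ) ∧
      (wi δ N (k1 a x) q.1 * wi δ N (k2 a x) q.2 ≠ 0 →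
        M3 x * nn q.1 * nn q.2 ∈ Icc 1 ⌊(N : ℝ) ^ (1 + 3 * δ / 2)⌋₊) := by
    intro x hx q hq
    obtain ⟨hq1, hq2⟩ := mem_product.1 hq
    obtain ⟨a1, -, -, a2⟩ := hT _ hq1
    obtain ⟨b1, -, -, b2⟩ := hT _ hq2
    obtain ⟨a3, a4⟩ := a2 (k1 a x) (hpp _)
    obtain ⟨b3, b4⟩ := b2 (k2 a x) (hpp _)
    refine ⟨?_, fun h => mem_Icc.2 ⟨?_, Nat.le_floor ?_⟩⟩
    · rw [abs_mul, Nat.cast_mul, ← one_div_mul_one_div]
      gcongr
    · exact Nat.mul_pos (Nat.mul_pos (hpp _) a1) b1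
    · have c1 := a4 (left_ne_zero_of_mul h)
      have c2 := b4 (right_ne_zero_of_mul h)
      have c3 : (M3 x : ℝ) ≤ 900 * (a : ℝ) ^ 4 * (k1 a x * k2 a x) := by
        exact_mod_cast (hS.1 a (SS δ N) ha hp).2 x hx
      calc ((M3 x * nn q.1 * nn q.2 : ℕ) : ℝ) = M3 x * nn q.1 * nn q.2 := by push_cast; rfl
        _ ≤ 900 * (a : ℝ) ^ 4 * (k1 a x * k2 a x) * nn q.1 * nn q.2 := by gcongr
        _ = 900 * (a : ℝ) ^ 4 * ((k1 a x * nn q.1) * (k2 a x * nn q.2)) := by ring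
        _ ≤ (N : ℝ) ^ (δ / 2) * ((N : ℝ) ^ (1 / 2 + δ / 2) * (N : ℝ) ^ (1 / 2 + δ / 2)) := by
          gcongr
          exact hN₃ N hn3
        _ = _ := by
          rw [← Real.rpow_add hN0, ← Real.rpow_add hN0]
          congr 1
          ring
  have e : (N : ℝ) ^ (δ / 2) = (N : ℝ) ^ (δ / 4) * (N : ℝ) ^ (δ / 4) := by
    rw [← Real.rpow_add hN0]
    congr 1
    ring
  rw [e, TS_eq, TS_eq]
  refine ⟨key _ _ _ _ _ (fun x q => wi δ N (k1 a x) q.1 * wi δ N (k2 a x) q.2) l _ _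
    (by positivity) hW hA, ?_⟩
  have hsub : TR1 δ N ×ˢ TR1 δ N ⊆ TR δ N ×ˢ TR δ N :=
    product_subset_product (filter_subset _ _) (filter_subset _ _)
  rw [← sum_sub_distrib]
  simp only [← sum_sdiff_eq_sub hsub]
  refine key _ _ _ _ _ (fun x q => wi δ N (k1 a x) q.1 * wi δ N (k2 a x) q.2) l _ _
    (by positivity) (fun x hx q hq => ?_) fun m hm => hA m (mem_filter.1 hm).1
  obtain ⟨hq, hq'⟩ := mem_sdiff.1 hq
  refine ⟨(hW x hx q hq).1, fun h => mem_filter.2 ⟨(hW x hx q hq).2 h, ?_⟩⟩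
  obtain ⟨hq1, hq2⟩ := mem_product.1 hq
  have hsq : ∀ i : ℕ × ℕ, i.1 ∣ i.2 → i.1 ^ 2 ∣ nn i := fun i hi => by
    rw [sq]
    exact Nat.mul_dvd_mul_left _ hi
  by_cases h1 : q.1.1 ∣ q.1.2
  · exact ⟨q.1.1, (mem_product.1 hq1).1, ((hsq _ h1).mul_left _).mul_right _⟩
  by_cases h2 : q.2.1 ∣ q.2.2
  · exact ⟨q.2.1, (mem_product.1 hq2).1, (hsq _ h2).mul_left _⟩
  exact (hq' (mem_product.2 ⟨mem_filter.2 ⟨hq1, h1⟩, mem_filter.2 ⟨hq2, h2⟩⟩)).elim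

end Pool.Agent.MP_20b2fd_nt.H38
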