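import Pool.Agent.MP_20b2fd_nt.H38.SpecC

/-! The trivial bound on the line. -/

namespace Pool.Agent.MP_20b2fd_nt.H38

open Complex Finset Filter Topology

namespace XcrA

theorem cp_le {n : ℕ} {z : ℝ} {t : ℂ} (h1 : 1 ≤ n) (h2 : (n : ℝ) ≤ z) (h : t.re * Real.log z ≤ 1) :
    ‖(n : ℂ) ^ t‖ ≤ 3 := by
  have n1 : (1 : ℝ) ≤ n := by exact_mod_cast h1
  rw [norm_natCast_cpow_of_pos h1]
  rcases le_total t.re 0 with k | k
  · exact (Real.rpow_le_one_of_one_le_of_nonpos n1 k).trans (by norm_num)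
  · rw [Real.rpow_def_of_pos (by linarith)]
    have a : Real.log n * t.re ≤ 1 := by
      have := mul_le_mul_of_nonneg_left (Real.log_le_log (by linarith) h2) k
      linarith
    exact (Real.exp_le_exp.2 a).trans (Real.exp_one_lt_d9.le.trans (by norm_num))

theorem mem_pz {z : ℝ} {p : ℕ} (hz : 0 ≤ z) (h : p ∈ pz z) : 1 ≤ p ∧ (p : ℝ) ≤ z := by
  have := mem_Icc.1 (mem_filter.1 h).1
  exact ⟨this.1, (Nat.le_floor_iff hz).1 this.2⟩

theorem big (K : ℝ) (n : ℕ) {δ : ℝ} (hδ : 0 < δ) :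
    ∀ᶠ L : ℝ in atTop, K * (1 + L) ^ n ≤ Real.exp (δ * L) := by
  have h := (isLittleO_pow_exp_pos_mul_atTop n hδ).const_mul_left (|K| * 2 ^ n)
  filter_upwards [h.eventuallyLE, eventually_ge_atTop 1] with L a b
  have d : (1 + L) ^ n ≤ (2 * L) ^ n := pow_le_pow_left₀ (by linarith) (by linarith) n
  rw [Real.norm_eq_abs, Real.norm_eq_abs, abs_of_pos (Real.exp_pos _)] at a
  calc K * (1 + L) ^ n ≤ |K| * (2 * L) ^ n :=
        mul_le_mul (le_abs_self K) d (by positivity) (abs_nonneg K)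
    _ = |K| * 2 ^ n * L ^ n := by rw [mul_pow, mul_assoc]
    _ ≤ _ := (le_abs_self _).trans a

end XcrA

open XcrA in
theorem xcrOf : XcrOf := by
  rintro - ⟨hl, -⟩ ⟨C, A, J, C1, hE⟩ hA c δ a c0 c1 d0 d1 a1
  obtain ⟨N₁, hN₁⟩ := hl 1 one_pos
  have tl : Tendsto (fun N : ℕ => Real.log N) atTop atTop :=
    Real.tendsto_log_atTop.comp tendsto_natCast_atTop_atTop
  obtain ⟨B, hB⟩ : ∃ B : ℝ, B = Real.exp (c / (2000 * δ)) := ⟨_, rfl⟩
  have B0 : 0 < B := hB ▸ Real.exp_pos _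
  obtain ⟨N₀, hN₀⟩ := eventually_atTop.1 ((tl.eventually ((big (48 * B ^ 2 * (C * (a : ℝ) ^ A)) (J + 2) d0).and
    (eventually_ge_atTop (2 / (1000 * δ))))).and (eventually_ge_atTop (max N₁ 2)))
  refine ⟨N₀, fun N Φ x s w hN hΦ hx hs hw => ?_⟩
  obtain ⟨⟨k1', k2'⟩, k3⟩ := hN₀ N hN
  have N2 : 2 ≤ N := (le_max_right _ _).trans k3
  have lm := (hN₁ N ((le_max_left _ _).trans k3)).2.1
  have N0 : (0 : ℝ) < N := by positivity
  have lz : Real.log (zz δ N) = 1000 * δ * Real.log N := Real.log_rpow N0 _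
  have z0 : 0 < zz δ N := Real.rpow_pos_of_pos N0 _
  have L0 : 0 < Real.log N := Real.log_pos (by exact_mod_cast N2)
  rw [Real.rpow_def_of_pos N0, mul_comm _ δ]
  rw [wd, lz] at hs
  obtain ⟨L, hL⟩ : ∃ L, L = Real.log N := ⟨_, rfl⟩
  rw [← hL] at k1' k2' lz L0 hs hw ⊢
  have d2 : 4000 * δ ≤ c := by
    rw [le_div_iff₀ (by norm_num)] at d1
    linarith
  have z3 : 3 ≤ zz δ N := by
    rw [div_le_iff₀ (by positivity)] at k2'
    rw [← Real.exp_log z0]
    linarith [Real.add_one_le_exp (Real.log (zz δ N))]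
  have wr : |w.re| * L ≤ 1 := by
    rw [← le_div_iff₀ L0]
    exact (abs_re_le_norm w).trans hw
  have w1 : w.re * L ≤ 1 := (mul_le_mul_of_nonneg_right (le_abs_self _) L0.le).trans wr
  have w2 : -w.re * L ≤ 1 := (mul_le_mul_of_nonneg_right (neg_le_abs _) L0.le).trans wr
  have sL : s.re * L = c / (4000 * δ) := by
    rw [hs]
    field_simp
    norm_num
  have c4 : 1 ≤ c / (4000 * δ) := (one_le_div (by positivity)).2 d2
  have s0 : 0 < s.re := by
    rw [hs]
    positivity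
  have e1 : s.re * Real.log (zz δ N) ≤ 1 := by
    have : s.re * Real.log (zz δ N) = c / 4 := by
      rw [lz, hs]
      field_simp
      norm_num
    linarith
  have e2 : w.re * Real.log (zz δ N) ≤ 1 := by
    rw [lz]
    nlinarith
  have e3 : (-2 * w).re * Real.log (zz δ N) ≤ 1 := by
    rw [lz, show (-2 * w).re = -2 * w.re by simp]
    nlinarith
  have hq : ‖((x.1 + 1 : ℕ) : ℂ) ^ (-2 * w)‖ ≤ 3 := by
    refine cp_le (Nat.succ_pos _) ((Nat.le_floor_iff z0.le).1 ?_) e3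
    exact mem_range.1 (mem_sigma.1 hx).1
  have hX : ∀ n : ℕ, ‖AX δ N x (1 - s - w) (Real.log n)‖ ≤ 4 * (1 + L) * B := fun n => by
    have v : 0 ≤ s.re + w.re := by
      refine nonneg_of_mul_nonneg_left (b := L) ?_ L0
      linarith
    refine (hA δ N x _ _ d0 (by linarith) N2 (by simp only [sub_re, one_re]; linarith)).trans ?_
    rw [← hL, hB]
    refine mul_le_mul (mul_le_mul_of_nonneg_right lm (by linarith)) (Real.exp_le_exp.2 ?_)
      (Real.exp_pos _).le (by positivity)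
    have u := Real.log_natCast_nonneg n
    have b : (1 / 2 + δ / 2) * L - Real.log n ≤ L := by nlinarith
    have d := mul_le_mul_of_nonneg_left b v
    have e : c / (2000 * δ) = 2 * (c / (4000 * δ)) := by
      field_simp
      norm_num
    simp only [sub_re, one_re]
    linarith
  have hS := hE a (x.1 + 1) (zz δ N) (fun p => x.2⁻¹ p * (p : ℂ) ^ (-s)) (fun p => x.2 p * (p : ℂ) ^ s)
    (fun _ => 1) (fun _ => 1) (fun p => (p : ℂ) ^ w) (fun p => (p : ℂ) ^ (-2 * w))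
    (fun p => (p : ℂ) ^ (-2 * w)) a1 z3 fun p hp => by
      obtain ⟨p1, p2⟩ := mem_pz z0.le hp
      refine ⟨?_, by simp, by simp, cp_le p1 p2 e2, cp_le p1 p2 e3, Or.inl ⟨?_, cp_le p1 p2 e3⟩⟩
      · rw [norm_mul, ← one_mul (3 : ℝ)]
        exact mul_le_mul (x.2.norm_le_one _) (cp_le p1 p2 e1) (norm_nonneg _) zero_le_one
      · rw [norm_mul, norm_natCast_cpow_of_pos p1]
        exact mul_le_one₀ (x.2⁻¹.norm_le_one _) (by positivity)
          (Real.rpow_le_one_of_one_le_of_nonpos (by exact_mod_cast p1) (by rw [neg_re]; linarith))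
  have lJ : Real.log (zz δ N) ^ J ≤ (1 + L) ^ J :=
    pow_le_pow_left₀ (by rw [lz]; positivity) (by rw [lz]; nlinarith) J
  refine le_trans ?_ k1'
  calc _ ≤ _ := norm_sum_le _ _
    _ ≤ _ := sum_le_sum fun y _ => ?_
    _ = _ := (sum_mul _ _ (3 * 1 * (4 * (1 + L) * B) * (4 * (1 + L) * B))).symm
    _ ≤ C * (a : ℝ) ^ A * (1 + L) ^ J * (3 * 1 * (4 * (1 + L) * B) * (4 * (1 + L) * B)) :=
        mul_le_mul_of_nonneg_right (hS.trans (mul_le_mul_of_nonneg_left lJ (by positivity))) (by positivity)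
    _ = _ := by ring
  rw [norm_mul, norm_mul, norm_mul, norm_mul, mul_assoc, mul_assoc, mul_assoc, mul_assoc (3 * 1), mul_assoc 3]
  refine mul_le_mul_of_nonneg_left (mul_le_mul hq (mul_le_mul ?_ (mul_le_mul (hX _) (hX _) (norm_nonneg _)
    (by positivity)) (by positivity) zero_le_one) (by positivity) (by norm_num)) (norm_nonneg _)
  rw [norm_real, Real.norm_eq_abs]
  exact hΦ _

end Pool.Agent.MP_20b2fd_nt.H38
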