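import Pool.Agent.MP_20b2fd_nt.H38.SpecC

/-! The bound on the line by the sum over the primes. -/

set_option autoImplicit false

namespace Pool.Agent.MP_20b2fd_nt.H38

open MeasureTheory Complex Finset Filter Topology ArithmeticFunction
open scoped Real

namespace XlA

theorem exp_log {n : ℕ} (hn : 1 ≤ n) (ω : ℂ) : exp (ω * (Real.log n : ℝ)) = (n : ℂ) ^ ω := by
  rw [cpow_def_of_ne_zero (Nat.cast_ne_zero.2 (by omega)), mul_comm, ← natCast_log]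

theorem pp_pos {S : Finset ℕ} (hS : ∀ p ∈ S, p.Prime) (c : S → ℕ) : 1 ≤ pp c :=
  Finset.one_le_prod' fun p _ => Nat.one_le_pow _ _ (hS p p.2).pos

theorem exp_pp {S : Finset ℕ} (hS : ∀ p ∈ S, p.Prime) (c : S → ℕ) (ω : ℂ) :
    exp (ω * (Real.log (pp c) : ℝ)) = ∏ p : S, (((p : ℕ) : ℂ) ^ ω) ^ c p := by
  have h : Real.log (pp c) = ∑ p : S, c p * Real.log (p : ℕ) := by
    rw [pp, Nat.cast_prod, Real.log_prod fun (p : S) _ => Nat.cast_ne_zero.2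
      (pow_ne_zero _ (hS p p.2).ne_zero)]
    exact Finset.sum_congr rfl fun p _ => by rw [Nat.cast_pow, Real.log_pow]
  rw [h, ofReal_sum, Finset.mul_sum, exp_sum]
  refine Finset.prod_congr rfl fun p _ => ?_
  rw [← exp_log (hS p p.2).pos, ← exp_nat_mul, ofReal_mul, ofReal_natCast]
  congr 1
  ring

theorem lt_mul (a p : ℕ) (y : L5) (X Y E E' W F T : ℂ) :
    lt a p y X Y 1 1 W F F * E ^ ke a p y.1.1 * E' ^ ke a p y.1.2.1 * (T ^ y.2.1 * T ^ y.2.2) =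
      lt a p y X Y E E' W (F * T) (F * T) := by
  simp only [lt, one_pow, mul_pow]
  ring

/-- one term of the exponential sum -/
theorem term {S : Finset ℕ} (hS : ∀ p ∈ S, p.Prime) (a : ℕ) {q : ℕ} (hq : 1 ≤ q) (y : S → L5)
    (X Y W : ℕ → ℂ) (u ω ω' t : ℂ) (r : ℝ) :
    (∏ p : S, lt a p (y p) (X p) (Y p) 1 1 (W p) (((p : ℕ) : ℂ) ^ u) (((p : ℕ) : ℂ) ^ u)) *
      (q : ℂ) ^ u * r * exp (ω * (Real.log (k1 a fun p => (y p).1) : ℝ)) *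
      exp (ω' * (Real.log (k2 a fun p => (y p).1) : ℝ)) *
      exp (t * (Real.log ((pp (fun p => (y p).2.1) * q * pp fun p => (y p).2.2 : ℕ)) : ℝ)) =
    (q : ℂ) ^ (u + t) * r * ∏ p : S, lt a p (y p) (X p) (Y p) (((p : ℕ) : ℂ) ^ ω)
      (((p : ℕ) : ℂ) ^ ω') (W p) (((p : ℕ) : ℂ) ^ (u + t)) (((p : ℕ) : ℂ) ^ (u + t)) := by
  have h1 : ∀ c : S → ℕ, ((pp c : ℕ) : ℝ) ≠ 0 := fun c =>
    Nat.cast_ne_zero.2 (by have := pp_pos hS c; omega)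
  have h2 : (q : ℝ) ≠ 0 := Nat.cast_ne_zero.2 (by omega)
  have h3 : ∀ p : S, lt a p (y p) (X p) (Y p) (((p : ℕ) : ℂ) ^ ω)
      (((p : ℕ) : ℂ) ^ ω') (W p) (((p : ℕ) : ℂ) ^ (u + t)) (((p : ℕ) : ℂ) ^ (u + t)) = _ :=
    fun p => by
      rw [cpow_add _ _ (Nat.cast_ne_zero.2 (hS p p.2).ne_zero), ← lt_mul]
  rw [Nat.cast_mul, Nat.cast_mul, Real.log_mul (mul_ne_zero (h1 _) h2) (h1 _),
    Real.log_mul (h1 _) h2, ofReal_add, ofReal_add, mul_add, mul_add, exp_add, exp_add, k1, k2,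
    exp_pp hS, exp_pp hS, exp_pp hS, exp_pp hS, exp_log hq,
    cpow_add _ _ (Nat.cast_ne_zero.2 (by omega)), Finset.prod_congr rfl fun p _ => h3 p]
  simp only [Finset.prod_mul_distrib]
  ring

theorem nb {n : ℕ} (hn : 1 ≤ n) {z : ℝ} (hz : (n : ℝ) ≤ z) {φ : ℂ}
    (h : |φ.re| * Real.log z ≤ 1) : ‖(n : ℂ) ^ φ‖ ≤ 3 := by
  have h0 : (1 : ℝ) ≤ n := by exact_mod_cast hn
  rw [norm_natCast_cpow_of_pos hn, Real.rpow_def_of_pos (by linarith)]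
  refine (Real.exp_le_exp.2 ?_).trans (Real.exp_one_lt_d9.le.trans (by norm_num))
  have h1 := Real.log_le_log (by linarith) hz
  have h2 := Real.log_nonneg h0
  nlinarith [le_abs_self φ.re, abs_nonneg φ.re]

theorem mem_pz {z : ℝ} (hz : 0 ≤ z) {p : ℕ} (hp : p ∈ pz z) : p.Prime ∧ (p : ℝ) ≤ z := by
  simp only [pz, prs, Finset.mem_filter, Finset.mem_Icc] at hp
  exact ⟨hp.2.1, (Nat.le_floor_iff hz).1 hp.1.2⟩

theorem mem_pcs {z : ℝ} (hz : 0 ≤ z) {x : CC} (hx : x ∈ pcs z) : ((x.1 + 1 : ℕ) : ℝ) ≤ z := by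
  simp only [pcs, Finset.mem_sigma, Finset.mem_range] at hx
  exact (Nat.le_floor_iff hz).1 hx.1

theorem ev (K : ℝ) (J : ℕ) {δ : ℝ} (hδ : 0 < δ) : ∃ N₀ : ℕ, ∀ N : ℕ, N₀ ≤ N →
    2 ≤ N ∧ 1 ≤ Real.log N ∧ 30 ≤ zz δ N ∧ K * Real.log (zz δ N) ^ J ≤ zz δ N := by
  have h1 : Tendsto (fun N : ℕ => zz δ N) atTop atTop :=
    (tendsto_rpow_atTop (by positivity)).comp tendsto_natCast_atTop_atTop
  have h2 : ∀ᶠ z : ℝ in atTop, K * Real.log z ^ J ≤ z := by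
    filter_upwards [((Real.isLittleO_pow_log_id_atTop (n := J)).const_mul_left K).eventuallyLE,
      eventually_ge_atTop 0] with z h hz
    exact (le_abs_self _).trans (h.trans_eq (abs_of_nonneg hz))
  have h3 : Tendsto (fun N : ℕ => Real.log N) atTop atTop :=
    Real.tendsto_log_atTop.comp tendsto_natCast_atTop_atTop
  exact eventually_atTop.1 ((eventually_ge_atTop 2).and ((h3.eventually_ge_atTop 1).and
    ((h1.eventually_ge_atTop 30).and (h1.eventually h2))))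

/-- the transform of the cutoff -/
noncomputable def ft (ξ : ℝ) : ℂ := 1 / (2 * π) * lap ph0 ((0 : ℝ) + ξ * I)

theorem ft_spec (hF : FlS) (J : ℕ) : Integrable ft ∧
    (Integrable fun ξ => ‖ft ξ‖ * (1 + |ξ|) ^ J) ∧
    ∀ l u : ℝ, ((ph0 (u / l) : ℝ) : ℂ) = ∫ ξ : ℝ, ft ξ * exp (ξ / l * I * u) := by
  obtain ⟨-, h1, h2⟩ := hF ph0 1 zero_le_one (fun _ => ph0.contDiff) fun u hu =>
    ph0.zero_of_le_dist (by rw [dist_zero_right]; exact hu.le)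
  have h3 : Integrable ft := by
    refine ((h2 0 0).1.const_mul (1 / (2 * π) : ℂ)).congr (Eventually.of_forall fun ξ => ?_)
    simp only [ft, ofReal_zero, mul_zero, exp_zero, mul_one]
  obtain ⟨C, hC, h4⟩ := h1 (J + 2)
  refine ⟨h3, (integrable_inv_one_add_sq.const_mul C).mono'
    (h3.norm.aestronglyMeasurable.mul (by fun_prop : Continuous fun ξ : ℝ =>
      (1 + |ξ|) ^ J).aestronglyMeasurable) (Eventually.of_forall fun ξ => ?_), fun l u => ?_⟩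
  · have h5 := h4 0 ξ
    have h6 : 0 < 1 + |ξ| := by positivity
    have h7 : ‖(1 / (2 * π) : ℂ)‖ ≤ 1 := by
      have := Real.pi_gt_three
      rw [norm_div, norm_one, norm_mul, norm_real, Real.norm_of_nonneg Real.pi_pos.le,
        Complex.norm_two, div_le_one (by positivity)]
      linarith
    rw [abs_zero, mul_zero, Real.exp_zero, mul_one, le_div_iff₀ (by positivity), pow_add] at h5
    rw [Real.norm_of_nonneg (by positivity), ← div_eq_mul_inv, le_div_iff₀ (by positivity)]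
    have h8 : ‖ft ξ‖ ≤ ‖lap ph0 ((0 : ℝ) + ξ * I)‖ := by
      rw [ft, norm_mul]
      exact mul_le_of_le_one_left (norm_nonneg _) h7
    have h9 : 1 + ξ ^ 2 ≤ (1 + |ξ|) ^ 2 := by nlinarith [abs_nonneg ξ, sq_abs ξ]
    refine le_trans ?_ h5
    rw [mul_assoc]
    gcongr
  · rw [(h2 0 (u / l)).2, ← integral_const_mul]
    refine integral_congr_ae (Eventually.of_forall fun ξ => ?_)
    simp only [ft, mul_assoc]
    congr 3
    push_cast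
    ring

/-- the coefficients -/
noncomputable def cf (a : ℕ) (S : Finset ℕ) (x : CC) (s w : ℂ) (y : S → L5) : ℂ :=
  (∏ p : S, lt a p (y p) (x.2⁻¹ (p : ℕ) * ((p : ℕ) : ℂ) ^ (-s)) (x.2 (p : ℕ) * ((p : ℕ) : ℂ) ^ s)
    1 1 (((p : ℕ) : ℂ) ^ w) (((p : ℕ) : ℂ) ^ (-2 * w)) (((p : ℕ) : ℂ) ^ (-2 * w))) *
    ((x.1 + 1 : ℕ) : ℂ) ^ (-2 * w) * ((((x.1 + 1 : ℕ) : ℝ) / (x.1 + 1).totient : ℝ) : ℂ)

theorem one_add_le {ω : ℂ} {l ξ : ℝ} (hl : 0 ≤ l) (h1 : |ω.re| * l ≤ 1)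
    (h2 : |ω.im| * l ≤ 2000 * |ξ| + 1) : 1 + ‖ω‖ * l ≤ 2000 * (1 + |ξ|) := by
  have := mul_le_mul_of_nonneg_right (norm_le_abs_re_add_abs_im ω) hl
  linarith

/-- the exponential sum -/
theorem expsum {C : ℝ} {A J a : ℕ} {z : ℝ} {x : CC} {s w ω ω' t : ℂ} {ξ ξ' ξ'' : ℝ} (hC : 1 ≤ C)
    (hz : 30 ≤ z) (hx : x ∈ pcs z) (hφ : |(-2 * w + t).re| * Real.log z ≤ 1)
    (h : ‖∏ p ∈ pz z, Loc a (x.1 + 1) p (x.2⁻¹ p * (p : ℂ) ^ (-s)) (x.2 p * (p : ℂ) ^ s)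
        ((p : ℂ) ^ ω) ((p : ℂ) ^ ω') ((p : ℂ) ^ w) ((p : ℂ) ^ (-2 * w + t))
        ((p : ℂ) ^ (-2 * w + t))‖ * (((x.1 + 1 : ℕ) : ℝ) / (x.1 + 1).totient) ≤
      C * (a : ℝ) ^ A * Real.log z ^ 2 * ((1 + ‖ω‖ * Real.log z) * (1 + ‖ω'‖ * Real.log z) *
        (1 + ‖w‖ * Real.log z) * (1 + ‖-2 * w + t‖ * Real.log z)) ^ J * ‖ez x.2 z (1 - s)‖ ^ 2)
    (h1 : 1 + ‖ω‖ * Real.log z ≤ 2000 * (1 + |ξ|))
    (h2 : 1 + ‖ω'‖ * Real.log z ≤ 2000 * (1 + |ξ'|)) (h3 : 1 + ‖w‖ * Real.log z ≤ 2)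
    (h4 : 1 + ‖-2 * w + t‖ * Real.log z ≤ 2000 * (1 + |ξ''|)) :
    ‖∑ y ∈ Fintype.piFinset (fun p : pz z => al5 a (x.1 + 1) p), cf a (pz z) x s w y *
      exp (ω * (Real.log (k1 a fun p => (y p).1) : ℝ)) *
      exp (ω' * (Real.log (k2 a fun p => (y p).1) : ℝ)) *
      exp (t * (Real.log ((pp (fun p => (y p).2.1) * (x.1 + 1) *
        pp fun p => (y p).2.2 : ℕ)) : ℝ))‖ ≤
      3 * C * (2 * 2000 ^ 3) ^ J * (a : ℝ) ^ A * Real.log z ^ 2 * ‖ez x.2 z (1 - s)‖ ^ 2 *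
        ((1 + |ξ|) * (1 + |ξ'|) * (1 + |ξ''|)) ^ J := by
  have hz0 : 0 ≤ z := by linarith
  have hl : 0 ≤ Real.log z := Real.log_nonneg (by linarith)
  have hS : ∀ p ∈ pz z, p.Prime := fun p hp => (mem_pz hz0 hp).1
  simp only [cf]
  rw [Finset.sum_congr rfl fun y _ => term hS a (Nat.le_add_left 1 x.1) y
    (fun p => x.2⁻¹ p * (p : ℂ) ^ (-s)) (fun p => x.2 p * (p : ℂ) ^ s) (fun p => (p : ℂ) ^ w)
    (-2 * w) ω ω' t _, ← Finset.mul_sum,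
    ← Finset.prod_univ_sum (fun p : pz z => al5 a (x.1 + 1) p) fun p y => lt a p y
      (x.2⁻¹ (p : ℕ) * ((p : ℕ) : ℂ) ^ (-s)) (x.2 (p : ℕ) * ((p : ℕ) : ℂ) ^ s) (((p : ℕ) : ℂ) ^ ω)
      (((p : ℕ) : ℂ) ^ ω') (((p : ℕ) : ℂ) ^ w) (((p : ℕ) : ℂ) ^ (-2 * w + t))
      (((p : ℕ) : ℂ) ^ (-2 * w + t)), norm_mul, norm_mul, norm_real,
    Real.norm_of_nonneg (by positivity), mul_assoc, mul_comm (_ / _)]
  rw [← Finset.prod_coe_sort] at h
  have h5 : ((1 + ‖ω‖ * Real.log z) * (1 + ‖ω'‖ * Real.log z) * (1 + ‖w‖ * Real.log z) *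
      (1 + ‖-2 * w + t‖ * Real.log z)) ^ J ≤
      (2 * 2000 ^ 3) ^ J * ((1 + |ξ|) * (1 + |ξ'|) * (1 + |ξ''|)) ^ J := by
    rw [← mul_pow]
    refine pow_le_pow_left₀ (by positivity) (le_trans (b := 2000 * (1 + |ξ|) *
      (2000 * (1 + |ξ'|)) * 2 * (2000 * (1 + |ξ''|))) (by gcongr) (le_of_eq (by ring))) J
  refine (mul_le_mul (nb (Nat.le_add_left 1 x.1) (mem_pcs hz0 hx) hφ) h (by positivity)
    (by norm_num)).trans (le_trans (b := 3 * (C * (a : ℝ) ^ A * Real.log z ^ 2 *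
      ((2 * 2000 ^ 3) ^ J * ((1 + |ξ|) * (1 + |ξ'|) * (1 + |ξ''|)) ^ J) *
      ‖ez x.2 z (1 - s)‖ ^ 2)) (by gcongr) (le_of_eq (by ring)))

/-- the sum of the errors -/
theorem errsum {a : ℕ} {z η B : ℝ} {x : CC} {s w : ℂ} (hz : 30 ≤ z) (hx : x ∈ pcs z)
    (hw : |(-2 * w + 0).re| * Real.log z ≤ 1)
    (h : ∑ y ∈ Fintype.piFinset (fun p : pz z => al5 a (x.1 + 1) p),
      ‖∏ p : pz z, lt a p (y p) (x.2⁻¹ (p : ℕ) * ((p : ℕ) : ℂ) ^ (-s))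
        (x.2 (p : ℕ) * ((p : ℕ) : ℂ) ^ s) (((p : ℕ) : ℂ) ^ (η : ℂ)) (((p : ℕ) : ℂ) ^ (η : ℂ))
        (((p : ℕ) : ℂ) ^ w) (((p : ℕ) : ℂ) ^ (-2 * w + 0)) (((p : ℕ) : ℂ) ^ (-2 * w + 0))‖ ≤ B) :
    ∑ y ∈ Fintype.piFinset (fun p : pz z => al5 a (x.1 + 1) p), ‖cf a (pz z) x s w y‖ *
      Real.exp (η * (Real.log (k1 a fun p => (y p).1) + Real.log (k2 a fun p => (y p).1))) ≤
      3 * z * B := by
  have hz0 : 0 ≤ z := by linarith
  have hS : ∀ p ∈ pz z, p.Prime := fun p hp => (mem_pz hz0 hp).1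
  have hr : (((x.1 + 1 : ℕ) : ℝ) / (x.1 + 1).totient) ≤ z :=
    (div_le_self (by positivity) (by exact_mod_cast Nat.totient_pos.2 x.1.succ_pos)).trans
      (mem_pcs hz0 hx)
  refine le_trans ?_ (mul_le_mul_of_nonneg_left h (by positivity))
  rw [Finset.mul_sum]
  refine Finset.sum_le_sum fun y _ => ?_
  have h1 := congrArg norm (term hS a (Nat.le_add_left 1 x.1) y
    (fun p => x.2⁻¹ p * (p : ℂ) ^ (-s)) (fun p => x.2 p * (p : ℂ) ^ s) (fun p => (p : ℂ) ^ w)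
    (-2 * w) η η 0 (((x.1 + 1 : ℕ) : ℝ) / (x.1 + 1).totient))
  rw [zero_mul, exp_zero, mul_one, norm_mul, norm_mul, ← ofReal_mul, ← ofReal_mul,
    norm_exp_ofReal, norm_exp_ofReal, mul_assoc, ← Real.exp_add, ← mul_add] at h1
  refine h1.le.trans ?_
  rw [norm_mul, norm_mul, norm_real, Real.norm_of_nonneg (by positivity)]
  have := nb (Nat.le_add_left 1 x.1) (mem_pcs hz0 hx) hw
  gcongr

theorem rgm {z η : ℝ} {x : CC} {s w : ℂ} (hz : 0 ≤ z) (hs : 0 ≤ s.re)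
    (hs' : |s.re| * Real.log z ≤ 1) (hη : |(η : ℂ).re| * Real.log z ≤ 1)
    (hw : |w.re| * Real.log z ≤ 1) (hw' : |(-2 * w + 0).re| * Real.log z ≤ 1) :
    ∀ p ∈ pz z, Rgm p (x.2⁻¹ p * (p : ℂ) ^ (-s)) (x.2 p * (p : ℂ) ^ s) ((p : ℂ) ^ (η : ℂ))
      ((p : ℂ) ^ (η : ℂ)) ((p : ℂ) ^ w) ((p : ℂ) ^ (-2 * w + 0)) ((p : ℂ) ^ (-2 * w + 0)) := by
  intro p hp
  obtain ⟨h1, h2⟩ := mem_pz hz hp
  refine ⟨?_, nb h1.pos h2 hη, nb h1.pos h2 hη, nb h1.pos h2 hw, nb h1.pos h2 hw',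
    Or.inl ⟨?_, nb h1.pos h2 hw'⟩⟩
  · rw [norm_mul]
    exact (mul_le_of_le_one_left (norm_nonneg _) (x.2.norm_le_one _)).trans (nb h1.pos h2 hs')
  · rw [norm_mul, norm_natCast_cpow_of_pos h1.pos]
    exact mul_le_one₀ (x.2⁻¹.norm_le_one _) (by positivity)
      (Real.rpow_le_one_of_one_le_of_nonpos (by exact_mod_cast h1.pos) (by simpa using hs))

theorem fin {E I P Cs Cf b e : ℝ} (hE : 0 ≤ E) (hP : 0 ≤ P) (hCs : 0 ≤ Cs) (hf : 0 ≤ Cf)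
    (hI : I ≤ Cs * Real.exp b * P) (hb : b ≤ 1 + e) :
    E * I * Cf ≤ 3 * Cs * (1 + Cf) * E * Real.exp e * P := by
  have h1 : Real.exp b ≤ 3 * Real.exp e := by
    refine (Real.exp_le_exp.2 hb).trans ?_
    rw [Real.exp_add]
    exact mul_le_mul_of_nonneg_right (Real.exp_one_lt_d9.le.trans (by norm_num))
      (Real.exp_pos _).le
  calc E * I * Cf ≤ E * (Cs * (3 * Real.exp e) * P) * (1 + Cf) := by
        refine mul_le_mul (mul_le_mul_of_nonneg_left (hI.trans (by gcongr)) hE) (by linarith) hf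
          (by positivity)
    _ = _ := by ring

theorem fin2 {z A₀ B K l : ℝ} {J : ℕ} (hz : 30 ≤ z) (hl : 1 ≤ l) (hB : 0 ≤ B)
    (hK : 2 * A₀ + 1 ≤ K * l) (h : K * (3 * B) * l ^ (J + 1) ≤ z) :
    (2 * (1 / z ^ 12) * A₀ + (1 / z ^ 12) ^ 2) * (3 * z * (B * l ^ J)) ≤ 1 / z ^ 8 := by
  have hz0 : 0 < z := by linarith
  have h1 : 1 / z ^ 12 ≤ 1 := by
    rw [div_le_one (by positivity)]
    exact one_le_pow₀ (by linarith)
  have h2 : 2 * (1 / z ^ 12) * A₀ + (1 / z ^ 12) ^ 2 ≤ 1 / z ^ 12 * (K * l) := by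
    have : 0 < 1 / z ^ 12 := by positivity
    nlinarith
  calc _ ≤ 1 / z ^ 12 * (K * l) * (3 * z * (B * l ^ J)) := by gcongr
    _ = 1 / z ^ 11 * (K * (3 * B) * l ^ (J + 1)) := by field_simp; ring
    _ ≤ 1 / z ^ 11 * z := by gcongr
    _ = 1 / z ^ 10 := by field_simp
    _ ≤ 1 / z ^ 8 := by
      gcongr
      · linarith
      · norm_num

theorem xx_eq (δ : ℝ) (a N : ℕ) (x : CC) (s w : ℂ) :
    ‖XX δ a N (Pq (zz δ N)) x s w‖ * (((x.1 + 1 : ℕ) : ℝ) / (x.1 + 1).totient) =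
      ‖∑ y ∈ Fintype.piFinset (fun p : pz (zz δ N) => al5 a (x.1 + 1) p),
        cf a (pz (zz δ N)) x s w y * ((ph0 (Real.log ((pp (fun p => (y p).2.1) * (x.1 + 1) *
          pp fun p => (y p).2.2 : ℕ)) / Real.log (zz δ N)) : ℝ) : ℂ) *
        AX δ N x (1 - s - w) (Real.log (k1 a fun p => (y p).1)) *
        AX δ N x (1 - s - w) (Real.log (k2 a fun p => (y p).1))‖ := by
  rw [← Real.norm_of_nonneg (by positivity : 0 ≤ ((x.1 + 1 : ℕ) : ℝ) / (x.1 + 1).totient),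
    ← norm_real, ← norm_mul]
  unfold XX SS
  rw [Finset.sum_mul]
  refine congrArg norm (Finset.sum_congr rfl fun y _ => ?_)
  simp only [cf, Pq]
  ring

/-- the inequalities between the parameters -/
theorem par {c δ L l η b : ℝ} {w : ℂ} (hc : 0 < c) (hc1 : c ≤ 1 / 10) (hδ : 0 < δ)
    (hδc : δ ≤ c / 10 ^ 10) (hL : 1 ≤ L) (hl : l = 1000 * δ * L) (hη : η = c / (2 * l))
    (hb : b = δ * L / 2) (hw : ‖w‖ ≤ 1 / L) :
    0 < η ∧ η * l ≤ 1 ∧ η * L = c / (2000 * δ) ∧ 0 ≤ b ∧ ‖w‖ * l ≤ 1 ∧ |w.re| * l ≤ 1 ∧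
    |w.re| ≤ η / 2 ∧ |w.im| ≤ 1 ∧ w.re * L ≤ 1 ∧
    (∀ ξ : ℝ, |(((η / 2 - w.re : ℝ) : ℂ) + ξ / b * I).re| * l ≤ 1 ∧
      1 + ‖((η / 2 - w.re : ℝ) : ℂ) + ξ / b * I‖ * l ≤ 2000 * (1 + |ξ|)) ∧
    ∀ ξ : ℝ, |(-2 * w + ξ / l * I).re| * l ≤ 1 ∧
      1 + ‖-2 * w + ξ / l * I‖ * l ≤ 2000 * (1 + |ξ|) := by
  have hl0 : 0 < l := by rw [hl]; positivity
  have hb' : b = l / 2000 := by rw [hb, hl]; ring
  have h1 : η * l = c / 2 := by rw [hη]; field_simp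
  have hη0 : 0 < η := by rw [hη]; positivity
  have hwL : ‖w‖ * L ≤ 1 := (le_div_iff₀ (by linarith)).1 hw
  have hwl : ‖w‖ * l ≤ c / 4 := by rw [hl]; nlinarith
  have hre := abs_re_le_norm w
  have him := abs_im_le_norm w
  have hwr : |w.re| * l ≤ c / 4 := le_trans (by gcongr) hwl
  have hwi : |w.im| * l ≤ c / 4 := le_trans (by gcongr) hwl
  have hw2 : |w.re| ≤ η / 2 := le_of_mul_le_mul_right (by linarith) hl0
  have hw3 := abs_le.1 hw2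
  refine ⟨hη0, by linarith, by rw [hη, hl]; field_simp; norm_num, by rw [hb]; positivity,
    by linarith, by linarith, hw2, him.trans (by nlinarith [norm_nonneg w]),
    le_trans (by gcongr; exact (le_abs_self _).trans hre) hwL, fun ξ => ?_, fun ξ => ?_⟩
  · rw [← ofReal_div]
    have e1 : |(((η / 2 - w.re : ℝ) : ℂ) + (ξ / b : ℝ) * I).re| * l ≤ 1 := by
      rw [add_re, ofReal_re, re_ofReal_mul, I_re, mul_zero, add_zero, abs_of_nonneg (by linarith)]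
      nlinarith
    refine ⟨e1, one_add_le hl0.le e1 ?_⟩
    rw [add_im, ofReal_im, im_ofReal_mul, I_im, mul_one, zero_add, hb', abs_div,
      abs_of_pos (by positivity : 0 < l / 2000)]
    field_simp
    linarith
  · rw [← ofReal_div]
    have e1 : |(-2 * w + (ξ / l : ℝ) * I).re| * l ≤ 1 := by
      have : (-2 * w + (ξ / l : ℝ) * I).re = -2 * w.re := by simp
      rw [this, abs_mul, abs_neg, abs_two]
      linarith
    refine ⟨e1, one_add_le hl0.le e1 ?_⟩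
    have : (-2 * w + (ξ / l : ℝ) * I).im = -2 * w.im + ξ / l := by simp
    rw [this]
    refine (mul_le_mul_of_nonneg_right (abs_add_le _ _) hl0.le).trans ?_
    rw [abs_mul, abs_neg, abs_two, abs_div, abs_of_pos hl0, add_mul, div_mul_cancel₀ _ hl0.ne']
    linarith [abs_nonneg ξ]

theorem abnd {lam L δ η b u e : ℝ} (hlam : lam ≤ 4) (hL : 1 ≤ L) (hδ : δ ≤ 1) (hu : 0 ≤ u)
    (hb : |b| ≤ η / 2) (he : η * L = e) :
    lam * (1 + L) * Real.exp ((1 - (1 - η / 2 - b)) * ((1 / 2 + δ / 2) * L - u)) ≤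
      4 * (1 + L) * Real.exp e := by
  have h1 := abs_le.1 hb
  have h2 : (1 / 2 + δ / 2) * L - u ≤ L := by nlinarith
  have h3 : (1 - (1 - η / 2 - b)) * ((1 / 2 + δ / 2) * L - u) ≤ e :=
    (mul_le_mul_of_nonneg_left h2 (by linarith)).trans (by nlinarith)
  gcongr

theorem kbnd {L l d e : ℝ} (hl : 1 ≤ l) (hd : 0 < d) (h : l = d * L) (he : 0 < e) :
    2 * (4 * (1 + L) * e) + 1 ≤ (8 * (1 + 1 / d) * e + 1) * l := by
  have h1 : L = 1 / d * l := by rw [h]; field_simp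
  rw [h1]
  nlinarith

end XlA

open XlA in
theorem xlOf : XlOf := by
  rintro hF - hW ⟨Ca, Aa, Ja, hCa, hEa⟩ ⟨Ce, Ae, J, hCe, hEe⟩ hAb hSh hDf c hc hc1
  obtain ⟨Cs, hCs, hSh⟩ := hSh c J hc hc1
  obtain ⟨f1, f2, f3⟩ := ft_spec hF J
  have hCf : 0 ≤ ∫ ξ : ℝ, ‖ft ξ‖ * (1 + |ξ|) ^ J := integral_nonneg fun ξ => by positivity
  refine ⟨3 * Cs * (1 + ∫ ξ : ℝ, ‖ft ξ‖ * (1 + |ξ|) ^ J) * (3 * Ce * (2 * 2000 ^ 3) ^ J), Ae,
    one_le_mul_of_one_le_of_one_le (one_le_mul_of_one_le_of_one_le (by linarith) (by linarith))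
      (one_le_mul_of_one_le_of_one_le (by linarith) (one_le_pow₀ (by norm_num))),
    fun δ a hδ hδc ha => ?_⟩
  obtain ⟨N₁, hN₁⟩ := hSh δ hδ hδc
  obtain ⟨N₂, hN₂⟩ := hW.1 1 one_pos
  obtain ⟨N₃, hN₃⟩ := ev ((8 * (1 + 1 / (1000 * δ)) * Real.exp (c / (2000 * δ)) + 1) *
    (3 * (Ca * (a : ℝ) ^ Aa))) (Ja + 1) hδ
  refine ⟨max N₁ (max N₂ N₃), fun N hN hZ x hx s w hs hsi hw => ?_⟩
  obtain ⟨hN2, hL, hz, hK⟩ := hN₃ N ((le_max_right _ _).trans ((le_max_right _ _).trans hN))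
  have hlam := (hN₂ N ((le_max_left _ _).trans ((le_max_right _ _).trans hN))).2.1
  have hl : Real.log (zz δ N) = 1000 * δ * Real.log N :=
    Real.log_rpow (by exact_mod_cast (by omega : 0 < N)) _
  have hl1 : 1 ≤ Real.log (zz δ N) := by
    rw [Real.le_log_iff_exp_le (by linarith)]
    linarith [Real.exp_one_lt_d9]
  obtain ⟨p1, p2, p3, p4, p5, p6, p7, p8, p9, hω, hφ⟩ :=
    par (η := wd c δ N) (b := La δ N) hc hc1 hδ hδc hL hl rfl rfl hw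
  have hw3 := abs_le.1 p7
  have hv : (1 - s - w).re = 1 - wd c δ N / 2 - w.re := by rw [sub_re, sub_re, one_re, hs]
  obtain ⟨Γ, g1, g2, g3, g4⟩ := hN₁ N ((le_max_left _ _).trans hN) hZ x hx (1 - s - w)
    (wd c δ N / 2 - w.re) (by rw [hv]; ring) (by linarith) (by linarith) (by
      rw [sub_im, sub_im, one_im, zero_sub]
      exact (abs_sub _ _).trans (add_le_add (by rwa [abs_neg]) p8))
  have hs0 : 0 ≤ s.re := by linarith
  have hs1 : s.re * Real.log (zz δ N) ≤ 1 := by rw [hs]; linarith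
  have hw0 : |(-2 * w + 0).re| * Real.log (zz δ N) ≤ 1 := by simpa using (hφ 0).1
  have hA : ∀ u : ℝ, 0 ≤ u → ‖AX δ N x (1 - s - w) u‖ ≤
      4 * (1 + Real.log N) * Real.exp (c / (2000 * δ)) := fun u hu => by
    refine (hAb δ N x _ u hδ (by linarith) hN2 (by rw [hv]; linarith)).trans ?_
    rw [hv]
    exact abnd hlam hL (by linarith) hu p7 p3
  have key := hDf _ (Fintype.piFinset fun p : pz (zz δ N) => al5 a (x.1 + 1) p)
    (cf a (pz (zz δ N)) x s w) (fun y => Real.log (k1 a fun p => (y p).1))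
    (fun y => Real.log (k2 a fun p => (y p).1))
    (fun y => Real.log ((pp (fun p => (y p).2.1) * (x.1 + 1) * pp fun p => (y p).2.2 : ℕ)))
    (AX δ N x (1 - s - w)) (fun u => (ph0 (u / Real.log (zz δ N)) : ℝ)) Γ ft
    (wd c δ N / 2 - w.re) (La δ N) (Real.log (zz δ N)) (wd c δ N) (1 / zz δ N ^ 12) _ _ J
    (fun y _ => ⟨Real.log_natCast_nonneg _, Real.log_natCast_nonneg _⟩) p1.le (by positivity)
    g1 g2 f1 f2 (fun u hu => ⟨g3 u hu, hA u hu⟩)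
    (fun u => ⟨f3 _ u, by
      rw [norm_real, Real.norm_of_nonneg ph0.nonneg]
      exact ph0.le_one⟩)
    fun ξ ξ' ξ'' => expsum hCe hz hx (hφ ξ'').1
      (hEe a _ x s w _ _ _ ha hz hx hs0 hs1 p6 (hω ξ).1 (hω ξ').1 (hφ ξ'').1)
      (hω ξ).2 (hω ξ').2 (by linarith) (hφ ξ'').2
  have hrg := rgm (η := wd c δ N) (x := x) (by linarith : 0 ≤ zz δ N) hs0
    (by rwa [abs_of_nonneg hs0]) (by rwa [ofReal_re, abs_of_pos p1]) p6 hw0
  have he := hEa a (x.1 + 1) _ _ _ _ _ _ _ _ ha (by linarith) hrg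
  have herr := errsum hz hx hw0 he
  rw [xx_eq]
  refine key.trans (add_le_add ?_ ?_)
  · have e2 : ∀ ξ : ℝ, (1 - wd c δ N + ((1 - s - w).im - ξ / La δ N) * I : ℂ) =
        1 - wd c δ N - (s.im + w.im + ξ / La δ N) * I := fun ξ => by
      rw [sub_im, sub_im, one_im]
      push_cast
      ring
    simp only [e2] at g4
    have hX : 0 ≤ La δ N * zz δ N ^ 5 := by positivity
    exact (fin (e := -(wd c δ N * Real.log N / 2)) (by positivity)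
      (intervalIntegral.integral_nonneg (by linarith) fun ξ _ => by positivity) (by linarith) hCf
      g4 (by linarith)).trans (le_of_eq (by ring))
  · exact (mul_le_mul_of_nonneg_left herr (by positivity)).trans
      (fin2 hz hl1 (by positivity) (kbnd hl1 (by positivity) hl (Real.exp_pos _)) hK)

end Pool.Agent.MP_20b2fd_nt.H38
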