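import Pool.Agent.MP_20b2fd_nt.H38.AllN
import Pool.Agent.MP_20b2fd_nt.H38.AllD
import Pool.Agent.MP_20b2fd_nt.H38.Bridge
import Pool.Agent.MP_20b2fd_nt.H38.Gam
import Pool.Agent.MP_20b2fd_nt.H38.Ch
import Pool.Agent.MP_20b2fd_nt.H38.Sz
import Pool.Agent.MP_20b2fd_nt.H38.O1a
import Pool.Agent.MP_20b2fd_nt.H38.O1
import Pool.Agent.MP_20b2fd_nt.H38.Xb0
import Pool.Agent.MP_20b2fd_nt.H38.Xb1
import Pool.Agent.MP_20b2fd_nt.H38.Dsu
import Pool.Agent.MP_20b2fd_nt.H38.Mel1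
import Pool.Agent.MP_20b2fd_nt.H38.Ks
import Pool.Agent.MP_20b2fd_nt.H38.Cut
import Pool.Agent.MP_20b2fd_nt.H38.Lw
import Pool.Agent.MP_20b2fd_nt.H38.Mel2
import Pool.Agent.MP_20b2fd_nt.H38.Mel3
import Pool.Agent.MP_20b2fd_nt.H38.Vor
import Pool.Agent.MP_20b2fd_nt.H38.Hf
import Pool.Agent.MP_20b2fd_nt.H38.C0
import Pool.Agent.MP_20b2fd_nt.H38.C1
import Pool.Agent.MP_20b2fd_nt.H38.Cx1
import Pool.Agent.MP_20b2fd_nt.H38.Cx2
import Pool.Agent.MP_20b2fd_nt.H38.Loc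
import Pool.Agent.MP_20b2fd_nt.H38.LocA
import Pool.Agent.MP_20b2fd_nt.H38.Lz
import Pool.Agent.MP_20b2fd_nt.H38.Ms
import Pool.Agent.MP_20b2fd_nt.H38.Eua
import Pool.Agent.MP_20b2fd_nt.H38.Eul
import Pool.Agent.MP_20b2fd_nt.H38.Ab
import Pool.Agent.MP_20b2fd_nt.H38.Sh
import Pool.Agent.MP_20b2fd_nt.H38.Df
import Pool.Agent.MP_20b2fd_nt.H38.Xcr
import Pool.Agent.MP_20b2fd_nt.H38.Xl
import Pool.Agent.MP_20b2fd_nt.H38.Fln
import Pool.Agent.MP_20b2fd_nt.H38.Fe2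
import Pool.Agent.MP_20b2fd_nt.H38.Rs0
import Pool.Agent.MP_20b2fd_nt.H38.Rs1
import Pool.Agent.MP_20b2fd_nt.H38.Res
import Pool.Agent.MP_20b2fd_nt.H38.Fk
import Pool.Agent.MP_20b2fd_nt.H38.Ods

/-! All rows put together. -/

namespace Pool.Agent.MP_20b2fd_nt.H38.All

theorem sz : SzS := szOf wb
theorem xb0 : Xb0S := xb0Of mer e1
theorem ks : KsS := ksOf mel1
theorem lw : LwS := lwOf e1 sz
theorem vor : VorS := vorOf phZ mel2
theorem cx2 : Cx2S := cx2Of e1 sz vor (cx1Of e1 vor (hfOf e1) (c1Of chS c0))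
theorem eua : EuaS := euaOf mer locA
theorem ab : AbS := abOf wb
theorem xl : XlS := xlOf fl e1 wb eua (eulOf mer loc locA (msOf mer)) ab (shOf fl zb wb) df
theorem fln : FlnS := flnOf phZ zb gam lsP wb mel2 (mel3Of mel2) (xcrOf e1 wb eua ab) xl
theorem res : ResS := resOf phZ mel2 fe2 (rs0Of e1 sz (lzOf hb dl)) (rs1Of e1 wb sz eua ab)
theorem ods : OdsS :=
  odsOf wb (o1Of e1 dl wb sz (o1aOf e1 dl wb sz)) (dsuOf fl e1 wb sz xb0 ds) mel1 ks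
    (cutOf mel1 (xb1Of e1 sz xb0)) lw (fkOf ks lw cx2 fln res)
theorem bey : BeyS := bey_of ods
theorem win : WinS := win_of ods

end Pool.Agent.MP_20b2fd_nt.H38.All
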