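import Pool.Agent.MP_20b2fd_nt.H38.SpecN

/-! Row Bey: more than one half, or an exceptional zero. -/

set_option autoImplicit false

namespace Pool.Agent.MP_20b2fd_nt.H38

open Finset Filter Topology
open DirichletCharacter (LFunction)

theorem beyOf : BeyOf := by
  rintro ⟨C, -, hP⟩ ⟨c₀, h0, h1, hZ⟩ hF c hc
  obtain ⟨δ, δ', hδ, hδ', N₀, hN⟩ :=
    hF (min c c₀) (lt_min hc h0) ((min_le_right _ _).trans h1)
  have hκ : 0 < 1000 * δ := by positivity
  obtain ⟨N₁, hN₁⟩ := eventually_atTop.1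
    (((tendsto_rpow_atTop hκ).comp tendsto_natCast_atTop_atTop).eventually_ge_atTop 2)
  refine ⟨δ', 1000 * δ, hδ', hκ, max N₀ N₁, fun N hle hp => ?_⟩
  by_cases hf : ZFree (min c c₀) (zz δ N)
  · exact Or.inl (hN N ((le_max_left _ _).trans hle) hp hf)
  right
  have hz : 2 ≤ zz δ N := hN₁ N ((le_max_right _ _).trans hle)
  have hl : 0 < Real.log (zz δ N) := Real.log_pos (by linarith)
  unfold ZFree at hf
  push Not at hf
  obtain ⟨⟨i, χ⟩, hx, ρ, hρ, him, hre⟩ := hf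
  simp only [pcs, Finset.mem_sigma, Finset.mem_range, Finset.mem_filter, Finset.mem_univ,
    true_and] at hx
  have hq : ((i + 1 : ℕ) : ℝ) ≤ zz δ N :=
    le_trans (by exact_mod_cast hx.1) (Nat.floor_le (by linarith))
  have hm : ∀ b : ℝ, min c c₀ ≤ b → 1 - b / Real.log (zz δ N) ≤ ρ.re := fun b hb =>
    le_trans (by gcongr) hre
  obtain ⟨h2, h3, h4⟩ := hZ (zz δ N) (i + 1) χ ρ hz hq hρ him (hm _ (min_le_right _ _))
  obtain ⟨-, h5, -, -, -, h6, -⟩ := hP (i + 1) χ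
  have h7 : ρ.re < 1 := not_le.1 fun h => h5 ρ h hρ
  have h8 : (ρ.re : ℂ) = ρ := Complex.ext (by simp) (by simp [h4])
  refine ⟨i + 1, inferInstance, χ, ρ.re, hx.2, h3, h2, hq, hm _ (min_le_left _ _), h7, ?_⟩
  have h9 := h6 ρ (by rintro rfl; simp at h7)
  rw [if_neg h3, one_mul] at h9
  rw [h8, ← h9]
  exact hρ

end Pool.Agent.MP_20b2fd_nt.H38
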