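import Pool.Agent.MP_20b2fd_nt.H38.SpecN

/-! Factorisation over coprime supports. -/

set_option autoImplicit false

namespace Pool.Agent.MP_20b2fd_nt.H38

open Finset

namespace CfA

theorem tau_mul {m n : ℕ} (h : m.Coprime n) : tau (m * n) = tau m * tau n := by
  unfold tau
  rw [h.card_divisors_mul, Nat.cast_mul]

theorem sig_mul {m n : ℕ} (h : m.Coprime n) : sig (m * n) = sig m * sig n := by
  unfold sig
  have := congrArg (Nat.cast : ℕ → ℝ) h.sum_divisors_mul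
  push_cast at this
  exact this

theorem sum_div {m n : ℕ} (h : m.Coprime n) (F : ℕ → ℝ) :
    ∑ d ∈ (m * n).divisors, F d = ∑ d ∈ m.divisors, ∑ e ∈ n.divisors, F (d * e) := by
  rw [Nat.divisors_mul, mul_def, sum_image h.mul_injOn_divisors, sum_product]

theorem bh {l l₁ l₂ l₃ l₄ : ℕ → ℝ}
    (hl : ∀ u v : ℕ, 1 ≤ u → 1 ≤ v → u.Coprime v → l (u * v) = l₁ u * l₂ v + l₃ u * l₄ v)
    {i i' j j' : ℕ} (hi : 1 ≤ i) (hi' : 1 ≤ i') (hj : 1 ≤ j) (hj' : 1 ≤ j') (c1 : i.Coprime j)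
    (c2 : i.Coprime j') (c3 : i'.Coprime j) (c4 : i'.Coprime j') :
    Bh l (i * j) (i' * j') = Bh l₁ i i' * Bh l₂ j j' + Bh l₃ i i' * Bh l₄ j j' := by
  have g : (i * j).gcd (i' * j') = i.gcd i' * j.gcd j' := by
    rw [c1.mul_gcd, c2.symm.gcd_mul_right_cancel_right, c3.gcd_mul_left_cancel_right]
  have c : (i * i').Coprime (j * j') :=
    Nat.Coprime.mul_left (c1.mul_right c2) (c3.mul_right c4)
  unfold Bh
  rw [g, sum_div ((c1.coprime_dvd_left (Nat.gcd_dvd_left _ _)).coprime_dvd_right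
    (Nat.gcd_dvd_left _ _)), sum_mul_sum, sum_mul_sum, ← sum_add_distrib]
  refine sum_congr rfl fun d hd => ?_
  rw [← sum_add_distrib]
  refine sum_congr rfl fun e he => ?_
  have hd1 := Nat.dvd_of_mem_divisors hd
  have he1 := Nat.dvd_of_mem_divisors he
  have hd2 : d ^ 2 ∣ i * i' := by
    rw [sq]
    exact mul_dvd_mul (hd1.trans (Nat.gcd_dvd_left _ _)) (hd1.trans (Nat.gcd_dvd_right _ _))
  have he2 : e ^ 2 ∣ j * j' := by
    rw [sq]
    exact mul_dvd_mul (he1.trans (Nat.gcd_dvd_left _ _)) (he1.trans (Nat.gcd_dvd_right _ _))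
  have e1 : i * j * (i' * j') / (d * e) ^ 2 = i * i' / d ^ 2 * (j * j' / e ^ 2) := by
    rw [Nat.div_mul_div_comm hd2 he2, mul_pow, mul_mul_mul_comm]
  have p1 : 1 ≤ i * i' / d ^ 2 :=
    Nat.div_pos (Nat.le_of_dvd (Nat.mul_pos hi hi') hd2)
      (Nat.pos_of_dvd_of_pos hd2 (Nat.mul_pos hi hi'))
  have p2 : 1 ≤ j * j' / e ^ 2 :=
    Nat.div_pos (Nat.le_of_dvd (Nat.mul_pos hj hj') he2)
      (Nat.pos_of_dvd_of_pos he2 (Nat.mul_pos hj hj'))
  rw [e1, hl _ _ p1 p2 ((c.coprime_dvd_left (Nat.div_dvd_of_dvd hd2)).coprime_dvd_right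
    (Nat.div_dvd_of_dvd he2)), Nat.cast_mul]
  ring

theorem bl {l l₁ l₂ l₃ l₄ : ℕ → ℝ}
    (hl : ∀ u v : ℕ, 1 ≤ u → 1 ≤ v → u.Coprime v → l (u * v) = l₁ u * l₂ v + l₃ u * l₄ v)
    {A B : Finset ℕ} (x y : ℕ → ℝ) (hA : ∀ i ∈ A, 1 ≤ i) (hB : ∀ j ∈ B, 1 ≤ j)
    (hc : ∀ i ∈ A, ∀ j ∈ B, y j ≠ 0 → i.Coprime j) :
    Bl (A ×ˢ B) nn (fun i => x i.1 * y i.2) l =
      Bl A id x l₁ * Bl B id y l₂ + Bl A id x l₃ * Bl B id y l₄ := by
  have e : ∀ f g : ℕ → ℝ, Bl A id x f * Bl B id y g = ∑ p ∈ A ×ˢ B, ∑ q ∈ A ×ˢ B,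
      (x p.1 * x q.1 * Bh f p.1 q.1) * (y p.2 * y q.2 * Bh g p.2 q.2) := by
    intro f g
    unfold Bl
    rw [sum_mul_sum, sum_product]
    refine sum_congr rfl fun i _ => sum_congr rfl fun j _ => ?_
    rw [sum_mul_sum, sum_product]
    rfl
  rw [e, e, ← sum_add_distrib]
  unfold Bl
  refine sum_congr rfl fun p hp => ?_
  rw [← sum_add_distrib]
  refine sum_congr rfl fun q hq => ?_
  obtain ⟨p1, p2⟩ := mem_product.1 hp
  obtain ⟨q1, q2⟩ := mem_product.1 hq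
  by_cases h1 : y p.2 = 0
  · simp [h1]
  by_cases h2 : y q.2 = 0
  · simp [h2]
  unfold nn
  rw [bh hl (hA _ p1) (hA _ q1) (hB _ p2) (hB _ q2) (hc _ p1 _ p2 h1) (hc _ p1 _ q2 h2)
    (hc _ q1 _ p2 h1) (hc _ q1 _ q2 h2)]
  ring

end CfA

open CfA in
theorem cf : CfS := by
  intro A B x y hA hB hc
  refine ⟨?_, ?_, ?_, fun a ha => ?_⟩
  · rw [sum_mul_sum, sum_product]
    refine sum_congr rfl fun i hi => sum_congr rfl fun j hj => ?_
    by_cases h : y j = 0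
    · simp [h]
    unfold nn
    rw [sig_mul (hc i hi j hj h)]
    ring
  · rw [bl (l₁ := tau) (l₂ := tau) (l₃ := fun _ => 0) (l₄ := fun _ => 0)
      (fun u v _ _ c => by rw [tau_mul c, zero_mul, add_zero]) x y hA hB hc]
    simp [Bl, Bh]
  · refine bl (fun u v hu hv c => ?_) x y hA hB hc
    have hu' : (u : ℝ) ≠ 0 := by exact_mod_cast (by omega : u ≠ 0)
    have hv' : (v : ℝ) ≠ 0 := by exact_mod_cast (by omega : v ≠ 0)
    rw [tau_mul c, Nat.cast_mul, Real.log_mul hu' hv']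
    ring
  · rw [sum_mul_sum, sum_product]
    refine sum_congr rfl fun i _ => sum_congr rfl fun j hj => ?_
    by_cases h : y j = 0
    · simp [h]
    unfold nn
    rw [(ha j hj h).symm.gcd_mul_right_cancel_right]
    ring

end Pool.Agent.MP_20b2fd_nt.H38
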