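import Pool.Agent.MP_20b2fd_nt.H38.SpecN

/-! The local factors of the mollifier. -/

set_option autoImplicit false

namespace Pool.Agent.MP_20b2fd_nt.H38

open Finset

namespace DlA

theorem loc0 (p : ℕ) (g : ℕ → ℝ) :
    ∑ v ∈ range (0 + 2), dl p 0 v * g v = (1 + 1 / p) * g 0 + -1 / p * g 1 := by
  simp [sum_range_succ, dl]

theorem loc1 (p β : ℕ) (g : ℕ → ℝ) : ∑ v ∈ range (β + 1 + 2), dl p (β + 1) v * g v =
    -g β + (1 + 1 / p) * g (β + 1) + -1 / p * g (β + 2) := by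
  rw [sum_range_succ, sum_range_succ, sum_range_succ, sum_eq_zero fun v hv => by
    have := mem_range.1 hv
    rw [dl, if_neg (by omega), if_neg (by omega), if_neg (by omega), zero_mul]]
  have : β ≠ β + 1 + 1 := by omega
  simp [dl, this]

theorem sig_pow {p : ℕ} (hp : p.Prime) (v : ℕ) :
    sig (p ^ v) = ∑ i ∈ range (v + 1), (p : ℝ) ^ i := by
  rw [sig, Nat.sum_divisors_prime_pow hp]
  simp

theorem l1 {p : ℕ} (hp : p.Prime) (α : ℕ) : ∑ v ∈ range (α + 2), dl p α v * sig (p ^ v) = 0 := by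
  have : (p : ℝ) ≠ 0 := Nat.cast_ne_zero.2 hp.ne_zero
  rcases α with _ | β
  · rw [loc0 p fun v => sig (p ^ v)]
    simp only [sig_pow hp, sum_range_succ, range_zero, sum_empty]
    field_simp
    ring
  · rw [loc1 p β fun v => sig (p ^ v)]
    simp only [sig_pow hp, sum_range_succ]
    field_simp
    ring

theorem l2 {p : ℕ} (hp : p.Prime) (α : ℕ) :
    ∑ v ∈ range (α + 2), dl p α v * sig (p ^ min α v) = (p : ℝ) ^ α := by
  have : (p : ℝ) ≠ 0 := Nat.cast_ne_zero.2 hp.ne_zero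
  rcases α with _ | β
  · rw [loc0 p fun v => sig (p ^ min 0 v)]
    simp only [sig_pow hp, sum_range_succ, range_zero, sum_empty, Nat.zero_min]
    ring
  · rw [loc1 p β fun v => sig (p ^ min (β + 1) v), min_eq_right (Nat.le_succ β), min_self,
      min_eq_left (Nat.le_succ (β + 1))]
    simp only [sig_pow hp, sum_range_succ]
    ring

noncomputable def T (p v w : ℕ) : ℝ :=
  ∑ i ∈ range (min v w + 1), (p : ℝ) ^ i * ((v : ℝ) + w + 1 - 2 * i)

theorem T_eq (p v w : ℕ) : T p v w = ((v : ℝ) + w + 1) * ∑ i ∈ range (min v w + 1), (p : ℝ) ^ i -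
    2 * ∑ i ∈ range (min v w + 1), (p : ℝ) ^ i * i := by
  rw [T, mul_sum, mul_sum, ← sum_sub_distrib]
  exact sum_congr rfl fun i _ => by ring

theorem l3 {p : ℕ} (hp : p.Prime) (α : ℕ) :
    ∑ v ∈ range (α + 2), dl p α v * ∑ w ∈ range (α + 2), dl p α w * T p v w =
      (p : ℝ) ^ α * (1 - (p : ℝ)⁻¹) := by
  have : (p : ℝ) ≠ 0 := Nat.cast_ne_zero.2 hp.ne_zero
  rcases α with _ | β
  · simp only [loc0]
    simp [T, sum_range_succ]
    field_simp
    ring
  · have a1 : β ≤ β + 1 := Nat.le_succ β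
    have a2 := Nat.le_add_right β 2
    have a3 : β + 1 ≤ β + 2 := Nat.le_succ _
    simp only [loc1]
    simp only [T_eq, min_self, min_eq_left a1, min_eq_right a1, min_eq_left a2,
      min_eq_right a2, min_eq_left a3, min_eq_right a3, sum_range_succ]
    push_cast
    field_simp
    ring

theorem bh (e : E1S) {S : Finset ℕ} (hS : ∀ p ∈ S, p.Prime) (c c' : S → ℕ) :
    Bh tau (pp c) (pp c') = ∏ p : S, T p (c p) (c' p) := by
  obtain ⟨e1, e2, e3, -⟩ := e S hS
  simp only [T]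
  rw [Bh, (e3 c c').2.1, e1, prod_univ_sum]
  refine sum_congr rfl fun b hb => ?_
  have h : ∀ p, b p + b p ≤ c p + c' p := fun p => by
    have := mem_range.1 (Fintype.mem_piFinset.1 hb p)
    omega
  rw [(e3 c c').1, sq, (e3 b b).1, (e3 _ _).2.2.2.1 h, (e2 _).2.2.2.2.1, prod_mul_distrib, pp,
    Nat.cast_prod]
  congr 1
  · simp
  · refine prod_congr rfl fun p _ => ?_
    rw [Nat.cast_sub (h p)]
    push_cast
    ring

theorem srp {a : ℕ} : ∀ p ∈ Sr a, p.Prime := fun _ => Nat.prime_of_mem_primeFactors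

theorem a_eq (e : E1S) {a : ℕ} (ha : 1 ≤ a) : a = pp fun p : Sr a => a.factorization p :=
  (e _ srp).2.2.2 a ha fun _ hq h =>
    Nat.mem_primeFactors.2 ⟨hq, h.mul_left 30, Nat.mul_ne_zero (by norm_num) (by omega)⟩

theorem gen (e : E1S) {a : ℕ} (ha : 1 ≤ a) (F : ℕ → ℝ) (f : Sr a → ℕ → ℝ)
    (h : ∀ c : Sr a → ℕ, F (pp c) = ∏ p, f p (c p)) : ∑ j ∈ J0 a, Dj a j * F j =
      ∏ p : Sr a, ∑ v ∈ range (a.factorization p + 2), dl p (a.factorization p) v * f p v := by
  obtain ⟨e1, e2, e3, -⟩ := e _ (srp (a := a))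
  have j : a * ∏ p ∈ Sr a, p = pp fun p : Sr a => a.factorization p + 1 := by
    rw [← (e3 _ _).1, ← a_eq e ha, pp, ← prod_coe_sort]
    simp only [pow_one]
  rw [J0, j, e1, prod_univ_sum]
  refine sum_congr rfl fun c _ => ?_
  rw [h, Dj, ← prod_coe_sort, prod_mul_distrib]
  simp only [(e2 c).2.1]

end DlA

open DlA in
theorem dlOf : DlOf := by
  refine fun e => ⟨fun p α hp => l1 hp α, fun a ha => ?_⟩
  obtain ⟨-, e2, e3, -⟩ := e _ (srp (a := a))
  have a0 : 0 < 30 * a := by omega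
  have a1 : (0 : ℝ) < (30 * a : ℕ) := by exact_mod_cast a0
  have ae : ∏ p : Sr a, ((p : ℕ) : ℝ) ^ a.factorization p = a := by
    have := congrArg (Nat.cast (R := ℝ)) (a_eq e ha)
    rw [pp, Nat.cast_prod] at this
    simpa only [Nat.cast_pow] using this.symm
  refine ⟨?_, ?_, ?_, ?_, ?_, fun j hj => ?_⟩
  · rw [gen e ha sig (fun p v => sig (p ^ v)) fun c => (e2 c).2.2.2.2.2.1]
    obtain ⟨q, hq⟩ : (Sr a).Nonempty := Nat.nonempty_primeFactors.2 (by omega)
    exact prod_eq_zero (mem_univ (⟨q, hq⟩ : Sr a)) (l1 (srp q hq) _)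
  · have v : Vr a = ∏ p : Sr a, (1 - ((p : ℕ) : ℝ)⁻¹) := by
      have := congrArg (Rat.cast (K := ℝ)) (Nat.totient_eq_mul_prod_factors (30 * a))
      rw [Vr, div_eq_iff a1.ne', prod_coe_sort (Sr a) fun p => (1 - (p : ℝ)⁻¹),
        mul_comm (∏ _ ∈ _, _)]
      simpa [Sr] using this
    simp only [Bl, id, mul_assoc, ← mul_sum]
    rw [gen e ha (fun i => ∑ j ∈ J0 a, Dj a j * Bh tau i j) (fun p v => ∑ w ∈ range
      (a.factorization p + 2), dl p (a.factorization p) w * T p v w) fun c =>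
      gen e ha _ (fun p => T p (c p)) (bh e srp c), v]
    simp only [fun p : Sr a => l3 (srp p p.2), prod_mul_distrib, ae]
  · rw [gen e ha (fun j => sig (a.gcd j)) (fun p v => sig (p ^ min (a.factorization p) v))
      fun c => (congrArg (fun n => sig (n.gcd (pp c))) (a_eq e ha)).trans (by
        simp only [(e3 _ c).2.1, (e2 _).2.2.2.2.2.1])]
    simp only [fun p : Sr a => l2 (srp p p.2), ae]
  · rw [Vr]
    push_cast
    exact div_le_div_of_nonneg_right (by exact_mod_cast Nat.totient_pos.2 a0) (by positivity)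
  · exact (div_le_one a1).2 (by exact_mod_cast Nat.totient_le _)
  · have d : j ∣ a * (30 * a) :=
      (Nat.dvd_of_mem_divisors hj).trans (Nat.mul_dvd_mul_left a (Nat.prod_primeFactors_dvd _))
    refine ⟨Nat.pos_of_mem_divisors hj, (Nat.le_of_dvd (Nat.mul_pos ha a0) d).trans_eq (by ring),
      fun m hm => Nat.Coprime.coprime_dvd_left d ?_⟩
    exact ((hm.coprime_mul_left_right).mul_right hm).symm

end Pool.Agent.MP_20b2fd_nt.H38
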