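import Pool.Agent.MP_20b2fd_nt.H38.SpecN

/-! Exponent vectors. -/

set_option autoImplicit false

namespace Pool.Agent.MP_20b2fd_nt.H38

open Finset ArithmeticFunction

namespace E1A

variable {S : Finset ℕ} (hS : ∀ p ∈ S, p.Prime)
include hS

theorem ne (c : S → ℕ) : pp c ≠ 0 :=
  prod_ne_zero_iff.2 fun p _ => pow_ne_zero _ (hS p p.2).ne_zero

theorem fac (c : S → ℕ) (q : ℕ) :
    (pp c).factorization q = ∑ p : S, if (p : ℕ) = q then c p else 0 := by
  rw [pp, Nat.factorization_prod fun (p : S) _ => pow_ne_zero _ (hS p p.2).ne_zero,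
    Finsupp.finsetSum_apply]
  refine sum_congr rfl fun p _ => ?_
  rw [(hS p p.2).factorization_pow, Finsupp.single_apply]

theorem fac_in (c : S → ℕ) (p : S) : (pp c).factorization p = c p := by
  rw [fac hS]
  simp only [Subtype.coe_inj, sum_ite_eq', mem_univ, if_true]

theorem fac_out (c : S → ℕ) {q : ℕ} (hq : q ∉ S) : (pp c).factorization q = 0 := by
  rw [fac hS]
  exact sum_eq_zero fun p _ => if_neg fun (h : (p : ℕ) = q) => hq (h ▸ p.2)

theorem mem (c : S → ℕ) (q : ℕ) (hq : q.Prime) (h : q ∣ pp c) : q ∈ S := by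
  by_contra h1
  exact (hq.factorization_pos_of_dvd (ne hS c) h).ne' (fac_out hS c h1)

theorem rep (n : ℕ) (hn : 1 ≤ n) (h : ∀ q : ℕ, q.Prime → q ∣ n → q ∈ S) :
    n = pp fun p : S => n.factorization p := by
  refine Nat.eq_of_factorization_eq (by omega) (ne hS _) fun q => ?_
  by_cases hq : q ∈ S
  · exact (fac_in hS (fun p : S => n.factorization p) ⟨q, hq⟩).symm
  · rw [fac_out hS _ hq]
    by_cases h1 : q.Prime
    · exact Nat.factorization_eq_zero_of_not_dvd fun h2 => hq (h q h1 h2)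
    · exact Nat.factorization_eq_zero_of_not_prime _ h1

theorem dvd_iff (c e : S → ℕ) : pp c ∣ pp e ↔ ∀ p, c p ≤ e p := by
  refine ⟨fun h p => ?_, fun h => prod_dvd_prod_of_dvd _ _ fun p _ => pow_dvd_pow _ (h p)⟩
  have := (Nat.factorization_le_iff_dvd (ne hS c) (ne hS e)).2 h p
  rwa [fac_in hS, fac_in hS] at this

theorem inj {c e : S → ℕ} (h : pp c = pp e) : c = e :=
  funext fun p => by rw [← fac_in hS c, h, fac_in hS]

omit hS in
theorem ppm (c e : S → ℕ) : pp c * pp e = pp fun p => c p + e p := by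
  simp only [pp, pow_add, prod_mul_distrib]

theorem pdvd (c : S → ℕ) (p : S) : (p : ℕ) ∣ pp c ↔ c p ≠ 0 := by
  rw [(hS p p.2).dvd_iff_one_le_factorization (ne hS c), fac_in hS, Nat.one_le_iff_ne_zero]

theorem gcd (c e : S → ℕ) : (pp c).gcd (pp e) = pp fun p => min (c p) (e p) := by
  have h0 : (pp c).gcd (pp e) ≠ 0 := Nat.gcd_ne_zero_left (ne hS c)
  rw [rep hS _ (Nat.one_le_iff_ne_zero.2 h0) fun q hq h =>
    mem hS c q hq (h.trans (Nat.gcd_dvd_left _ _))]
  congr 1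
  funext p
  rw [Nat.factorization_gcd (ne hS c) (ne hS e), Finsupp.inf_apply, fac_in hS, fac_in hS]

theorem sum_div (M : Type) [AddCommMonoid M] (e : S → ℕ) (F : ℕ → M) :
    ∑ d ∈ (pp e).divisors, F d = ∑ c ∈ Fintype.piFinset (fun p => range (e p + 1)), F (pp c) := by
  symm
  refine sum_bij (fun c _ => pp c) (fun c hc => ?_) (fun _ _ _ _ h => inj hS h) (fun d hd => ?_)
    fun _ _ => rfl
  · exact Nat.mem_divisors.2 ⟨(dvd_iff hS c e).2 fun p =>
      Nat.lt_succ_iff.1 (mem_range.1 (Fintype.mem_piFinset.1 hc p)), ne hS e⟩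
  · have h1 := Nat.dvd_of_mem_divisors hd
    have h2 := rep hS d (Nat.pos_of_mem_divisors hd) fun q hq h => mem hS e q hq (h.trans h1)
    refine ⟨_, Fintype.mem_piFinset.2 fun p => mem_range.2 (Nat.lt_succ_iff.2 ?_), h2.symm⟩
    rw [h2] at h1
    exact (dvd_iff hS _ e).1 h1 p

theorem sgm (k : ℕ) (c : S → ℕ) : sigma k (pp c) = ∏ p : S, sigma k ((p : ℕ) ^ c p) :=
  isMultiplicative_sigma.map_prod (fun p : S => (p : ℕ) ^ c p) _ fun p _ q _ h =>
    Nat.Coprime.pow _ _ ((Nat.coprime_primes (hS p p.2) (hS q q.2)).2 fun e => h (Subtype.ext e))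

theorem pf (c : S → ℕ) (F : ℕ → ℂ) :
    ∏ q ∈ (pp c).primeFactors, F q = ∏ p : S, if c p = 0 then 1 else F p := by
  have h1 : ∏ p : S, (if c p = 0 then 1 else F p) =
      ∏ p ∈ S, if p ∣ pp c then F p else 1 := by
    rw [← prod_coe_sort S]
    refine prod_congr rfl fun p _ => ?_
    simp only [pdvd hS, ite_not]
  rw [h1, ← prod_filter]
  refine prod_congr (Finset.ext fun q => ?_) fun _ _ => rfl
  rw [Nat.mem_primeFactors, mem_filter]
  exact ⟨fun h => ⟨mem hS c q h.1 h.2.1, h.2.1⟩, fun h => ⟨hS q h.1, h.2, ne hS c⟩⟩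

end E1A

open E1A in
theorem e1 : E1S := by
  intro S hS
  refine ⟨sum_div hS, fun c => ⟨Nat.one_le_iff_ne_zero.2 (ne hS c), fac_in hS c, mem hS c,
    pdvd hS c, ?_, ?_, pf hS c⟩, fun c e => ⟨ppm c e, gcd hS c e, dvd_iff hS c e, fun h => ?_,
    inj hS⟩, rep hS⟩
  · rw [tau, ← sigma_zero_apply, sgm hS, Nat.cast_prod]
    refine prod_congr rfl fun p _ => ?_
    rw [sigma_zero_apply_prime_pow (hS p p.2), Nat.cast_succ]
  · have h : ∀ n, sig n = (sigma 1 n : ℕ) := fun n => by rw [sig, sigma_one_apply, Nat.cast_sum]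
    simp only [h]
    rw [sgm hS, Nat.cast_prod]
  · refine Nat.div_eq_of_eq_mul_right (Nat.pos_of_ne_zero (ne hS c)) ?_
    rw [ppm]
    congr 1
    funext p
    exact (Nat.add_sub_of_le (h p)).symm

end Pool.Agent.MP_20b2fd_nt.H38
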