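import Pool.Agent.MP_20b2fd_nt.H38.SpecN

/-! From the weighted proportion to the natural proportion. -/

set_option autoImplicit false

namespace Pool.Agent.MP_20b2fd_nt.H38

open Finset Filter Topology
open scoped Real

namespace FinA

/-- a bound that works for all small `a` -/
theorem unif {P : ℕ → ℕ → Prop} (A : ℝ) (h : ∀ a : ℕ, 1 ≤ a → (a : ℝ) ≤ A →
    ∃ N₀ : ℕ, ∀ N, N₀ ≤ N → P a N) :
    ∃ N₀ : ℕ, ∀ N, N₀ ≤ N → ∀ a : ℕ, 1 ≤ a → (a : ℝ) ≤ A → P a N := by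
  choose! g hg using h
  refine ⟨(range (⌊A⌋₊ + 1)).sup g, fun N hN a h1 h2 => hg a h1 h2 N (le_trans ?_ hN)⟩
  exact le_sup (mem_range.2 (Nat.lt_succ_of_le (Nat.le_floor h2)))

theorem ratio {δ K t W E : ℝ} (hδ : 0 < δ) (hδ1 : δ ≤ 1) (ht : 0 < t) (hK : t ≤ K)
    (hW : (1 + δ / 20) / 4 * K - δ * t / 200 ≤ W) (hE : E ≤ K / 2 + δ * t / 200) (hWE : W ≤ E) :
    1 / 2 + δ / 200 ≤ W / E := by
  have hK0 : 0 < K := ht.trans_le hK
  have h1 : δ * t ≤ δ * K := mul_le_mul_of_nonneg_left hK hδ.le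
  have h2 : 0 < δ * K := mul_pos hδ hK0
  have h3 : δ * (δ * K) ≤ δ * K := mul_le_of_le_one_left h2.le hδ1
  have hE0 : 0 < E := by linarith
  rw [le_div_iff₀ hE0]
  have h4 : (1 / 2 + δ / 200) * E ≤ (1 / 2 + δ / 200) * (K / 2 + δ * K / 200) :=
    mul_le_mul_of_nonneg_left (by linarith) (by linarith)
  linarith

end FinA

open FinA in
theorem finOf : FinOf := by
  classical
  rintro ⟨C, c₀, hC, hA⟩ hH ⟨⟨cK, CK, hcK, hK⟩, hNu⟩ hNl c hc hc1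
  obtain ⟨C', hC', hNl⟩ := hNl C hC
  have hC0 : 0 < C' := zero_lt_one.trans_le hC'
  obtain ⟨b, hb, hbe⟩ : ∃ b : ℝ, 0 < b ∧ C' * b = cK / 200 :=
    ⟨cK / (200 * C'), by positivity, by field_simp⟩
  obtain ⟨δ₀, hδ₀, hH⟩ := hH c C b c₀ hc hc1 hC hb
  obtain ⟨δ, hδ, h1, h2, h3⟩ : ∃ δ : ℝ, 0 < δ ∧ δ ≤ δ₀ ∧ δ ≤ 1 / b ∧ δ ≤ 1 :=
    ⟨min δ₀ (min (1 / b) 1), lt_min hδ₀ (lt_min (by positivity) one_pos), min_le_left _ _,
      (min_le_right _ _).trans (min_le_left _ _), (min_le_right _ _).trans (min_le_right _ _)⟩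
  obtain ⟨N₁, hN₁⟩ := hNl (b * δ) (mul_pos hb hδ) (by rwa [le_div_iff₀' hb] at h2)
  obtain ⟨N₂, hN₂⟩ := hNu C (δ * cK / 200) hC (by positivity)
  obtain ⟨N₃, hN₃⟩ := unif (P := fun a N => ∀ S : Sp, N.Prime → ZFree c (zz δ N) → S.Ok N C →
      (∀ U : ℝ, 1 ≤ U → S.Bs N U (c₀ U)) → (1 + δ / 20) / 4 * a ≤
        ∑ f ∈ univ.filter (fun f => S.ε f = 1 ∧ S.L f ≠ 0), S.ω f * S.a f a ^ 2)
    (Real.exp ((b * δ) ^ (-1 / 2 : ℝ))) fun a ha ha' =>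
      (hH δ a hδ h1 ha ha').imp fun N₀ h N hN S => h N S hN
  refine ⟨δ, δ / 200, hδ, by positivity, max N₁ (max N₂ N₃), fun N hN hp hz => ?_⟩
  obtain ⟨S, hS, hB, e1, e2⟩ := hA N hp
  have k1 := hN₁ N S (univ.filter fun f => S.ε f = 1 ∧ S.L f ≠ 0) ((1 + δ / 20) / 4)
    (le_of_max_le_left hN) hp hS (by positivity) (by linarith)
    fun a ha ha' => hN₃ N (le_of_max_le_right (le_of_max_le_right hN)) a ha ha' S hp hz hS hB
  have k2 := hN₂ N S (le_of_max_le_left (le_of_max_le_right hN)) hp hS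
  have hN0 : (0 : ℝ) < N := Nat.cast_pos.2 hp.pos
  rw [e1, e2]
  refine ratio (K := KN N) (t := cK * N) hδ h3 (mul_pos hcK hN0) (hK N hp.pos).2.1 ?_ ?_
    (Nat.cast_le.2 (card_le_card fun f hf => mem_filter.2 ⟨mem_univ f, (mem_filter.1 hf).2.1⟩))
  · have e : C' * (b * δ) * N = δ * (cK * N) / 200 := by rw [← mul_assoc, hbe]; ring
    rwa [e] at k1
  · linarith

end Pool.Agent.MP_20b2fd_nt.H38
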