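import Pool.Agent.MP_20b2fd_nt.H38.SpecN

/-! The twisted first moment. -/

set_option autoImplicit false

namespace Pool.Agent.MP_20b2fd_nt.H38

open Finset
open scoped Real

namespace FmA

theorem geo {c : ℝ} (hc : 0 < c) :
    ∃ s, HasSum (fun m : ℕ => Real.exp (-c * m)) s ∧ s ≤ 1 + 1 / c := by
  have h1 : Real.exp (-c) < 1 := Real.exp_lt_one_iff.2 (by linarith)
  refine ⟨(1 - Real.exp (-c))⁻¹, ?_, ?_⟩
  · simpa only [mul_comm (-c), Real.exp_nat_mul] using
      hasSum_geometric_of_lt_one (Real.exp_pos _).le h1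
  · have h2 := mul_le_mul_of_nonneg_right (Real.add_one_le_exp c) (Real.exp_pos (-c)).le
    rw [← Real.exp_add, add_neg_cancel, Real.exp_zero] at h2
    rw [inv_le_iff_one_le_mul₀ (by linarith), add_mul, div_mul_eq_mul_div, one_mul,
      ← sub_le_iff_le_add', le_div_iff₀ hc]
    linarith

theorem harm {n : ℕ} {s : Finset ℕ} (hs : s ⊆ Icc 1 n) :
    ∑ d ∈ s, (1 : ℝ) / d ≤ 1 + Real.log n := by
  refine (sum_le_sum_of_subset_of_nonneg hs fun _ _ _ => by positivity).trans ?_
  simpa [harmonic_eq_sum_Icc] using harmonic_le_one_add_log n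

theorem term {P : ℕ → ℝ} {η E : ℝ} (hE : 0 ≤ E)
    (hP : ∀ k : ℕ, 1 ≤ k → |P k - if k = 1 then η else 0| ≤ E * k) {m n : ℕ} (hm : 1 ≤ m)
    (hn : 1 ≤ n) : |Bh P m n / m - if m = n then η else 0| ≤ E * n * (1 + Real.log n) := by
  have m0 : (0 : ℝ) < m := by exact_mod_cast hm
  have h1 : (if m = n then η else 0) =
      (∑ d ∈ (m.gcd n).divisors, (d : ℝ) * if d = m ∧ d = n then η else 0) / m := by
    split_ifs with h
    · subst h
      simp [mul_div_cancel_left₀ _ m0.ne', show m ≠ 0 by omega]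
    · rw [sum_eq_zero fun d _ => by rw [if_neg fun e => h (e.1.symm.trans e.2), mul_zero], zero_div]
  rw [h1, Bh, ← sub_div, ← sum_sub_distrib, abs_div, abs_of_pos m0, div_le_iff₀ m0]
  refine (abs_sum_le_sum_abs _ _).trans ((sum_le_sum (g := fun d : ℕ => E * n * m * (1 / d))
    fun d hd => ?_).trans ?_)
  · have d0 := Nat.pos_of_mem_divisors hd
    obtain ⟨⟨a, rfl⟩, b, rfl⟩ := Nat.dvd_gcd_iff.1 (Nat.dvd_of_mem_divisors hd)
    have e : d * a * (d * b) / d ^ 2 = a * b :=
      Nat.div_eq_of_eq_mul_right (by positivity) (by ring)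
    have e' : (d = d * a ∧ d = d * b) ↔ a * b = 1 := by
      rw [mul_eq_one, left_eq_mul₀ d0.ne', left_eq_mul₀ d0.ne']
    have h2 := hP (a * b) (Nat.mul_pos (Nat.pos_of_mul_pos_left hm) (Nat.pos_of_mul_pos_left hn))
    have d1 : (0 : ℝ) < d := by exact_mod_cast d0
    rw [e, ← mul_sub, abs_mul, abs_of_pos d1, if_congr e' rfl rfl]
    refine (mul_le_mul_of_nonneg_left h2 d1.le).trans_eq ?_
    push_cast
    field_simp
  · rw [← mul_sum, mul_right_comm]
    gcongr
    exact harm fun d hd => mem_Icc.2 ⟨Nat.pos_of_mem_divisors hd,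
      Nat.le_of_dvd hn ((Nat.dvd_of_mem_divisors hd).trans (Nat.gcd_dvd_right _ _))⟩

theorem ser {S : Sp} {N : ℕ} {C : ℝ} (h : S.Ok N C) (w : Fin S.g → ℝ) {η E c : ℝ} (hE : 0 ≤ E)
    (hc : 0 < c) (hP : ∀ k : ℕ, 1 ≤ k → |∑ f, w f * S.a f k - if k = 1 then η else 0| ≤ E * k)
    {n : ℕ} (hn : 1 ≤ n) (hN : n.Coprime N) :
    |∑ f, w f * ((∑' m : ℕ, S.a f m / m * Real.exp (-c * m)) * S.a f n) - η * Real.exp (-c * n)| ≤
      E * n * (1 + Real.log n) * (1 + 1 / c) := by
  obtain ⟨s, h1, h2⟩ := geo hc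
  have h0 : 0 ≤ E * n * (1 + Real.log n) := by positivity
  have h3 : ∀ f, Summable fun m : ℕ => S.a f m / m * Real.exp (-c * m) := fun f => by
    obtain ⟨D, hD⟩ := h.bd f
    refine (h1.summable.mul_left |D|).of_norm_bounded fun m => ?_
    rw [norm_mul, Real.norm_of_nonneg (Real.exp_pos _).le, Real.norm_eq_abs, abs_div, Nat.abs_cast]
    gcongr
    exact div_le_of_le_mul₀ (Nat.cast_nonneg _) (abs_nonneg _)
      ((hD m).trans (by gcongr; exact le_abs_self D))
  have h4 := (hasSum_sum (s := univ) fun f _ => ((h3 f).hasSum.mul_right (S.a f n)).mul_left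
    (w f)).sub (hasSum_ite_eq n (η * Real.exp (-c * n)))
  refine (h4.norm_le_of_bounded (h1.mul_left (E * n * (1 + Real.log n))) fun m => ?_).trans
    (by gcongr)
  rcases Nat.eq_zero_or_pos m with rfl | hm
  · rw [if_neg (by omega)]
    simpa using h0
  have e : ∑ f, w f * (S.a f m / m * Real.exp (-c * m) * S.a f n) =
      Bh (fun k => ∑ f, w f * S.a f k) m n / m * Real.exp (-c * m) := by
    rw [sum_congr rfl (g := fun f => w f * Bh (S.a f) m n / m * Real.exp (-c * m)) fun f _ => by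
      rw [← h.hk f m n hm hn hN]; ring, ← sum_mul, ← sum_div]
    simp only [Bh, mul_sum]
    rw [sum_comm]
    simp only [mul_left_comm]
  have e' : (if m = n then η * Real.exp (-c * n) else 0) =
      (if m = n then η else 0) * Real.exp (-c * m) := by
    split_ifs with h
    · rw [h]
    · rw [zero_mul]
  rw [e, e', ← sub_mul, norm_mul, Real.norm_of_nonneg (Real.exp_pos _).le]
  gcongr
  exact term hE hP hm hn

end FmA

theorem fm : FmS := by
  intro C hC
  refine ⟨4 * C + 8, by linarith, fun N S hN h => ⟨fun f hf => ?_, fun n hn hn' => ?_⟩⟩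
  · have N0 : (0 : ℝ) < N := by exact_mod_cast hN.pos
    have e : ∀ n : ℕ, -2 * π * n / (N * (1 / √N)) = -2 * π * n * (1 / √N) := fun n => by
      rw [mul_one_div, Real.div_sqrt, mul_one_div]
    rw [h.af f (1 / √N) (by positivity), hf]
    simp only [e]
    ring
  have N1 : (1 : ℝ) ≤ N := by exact_mod_cast hN.pos
  have N0 : (0 : ℝ) < N := by linarith
  obtain ⟨u, hu⟩ : ∃ u, u = (N : ℝ) ^ (-5 / 8 : ℝ) := ⟨_, rfl⟩
  have u0 : 0 < u := hu ▸ Real.rpow_pos_of_pos N0 _
  have u1 : u ≤ 1 := hu ▸ Real.rpow_le_one_of_one_le_of_nonpos N1 (by norm_num)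
  have u2 : (N : ℝ) ^ (-5 / 4 : ℝ) = u * u := by
    rw [hu, ← Real.rpow_add N0]
    norm_num
  have u3 : 1 ≤ N * u := by
    rw [hu, mul_comm, ← Real.rpow_add_one N0.ne']
    exact Real.one_le_rpow N1 (by norm_num)
  have hc : n.Coprime N := (Nat.coprime_of_lt_prime (by omega) hn' hN).symm
  have p3 := Real.pi_gt_three
  have p4 := Real.pi_le_four
  have h1 := FmA.ser h S.ω (η := 1) (E := C * (u * u)) (c := 2 * π * u) (by positivity)
    (by positivity) (fun k hk => by
      rw [← u2]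
      exact (h.pet k hk).1.trans_eq (by ring)) hn hc
  have h2 := FmA.ser h (fun f => S.ω f * S.ε f) (η := 0) (E := C / N) (c := 2 * π / (N * u))
    (by positivity) (by positivity) (fun k hk => by
      rw [ite_self, sub_zero]
      exact (h.pet k hk).2.1.trans_eq (by ring)) hn hc
  have e1 : ∀ m : ℕ, -2 * π * m * u = -(2 * π * u) * m := fun m => by ring
  have e2 : ∀ m : ℕ, -2 * π * m / (N * u) = -(2 * π / (N * u)) * m := fun m => by ring
  have h3 : |Real.exp (-(2 * π * u) * n) - 1| ≤ 2 * π * u * n := by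
    have a1 := Real.add_one_le_exp (-(2 * π * u) * n)
    have a2 : Real.exp (-(2 * π * u) * n) ≤ 1 :=
      Real.exp_le_one_iff.2 (by rw [neg_mul, neg_nonpos]; positivity)
    rw [abs_sub_comm, abs_of_nonneg (by linarith)]
    linarith
  have l0 : 0 ≤ Real.log n := Real.log_natCast_nonneg n
  have n0 : (0 : ℝ) ≤ n := Nat.cast_nonneg n
  have b1 : u * u * (1 + 1 / (2 * π * u)) ≤ 2 * u := by
    have : u * u * (1 / (2 * π * u)) = u / (2 * π) := by field_simp
    rw [mul_add, this]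
    nlinarith [div_le_self u0.le (show 1 ≤ 2 * π by linarith)]
  have b2 : 1 / N * (1 + 1 / (2 * π / (N * u))) ≤ 2 * u := by
    have : 1 / N * (1 / (2 * π / (N * u))) = u / (2 * π) := by field_simp
    rw [mul_add, this, mul_one]
    linarith [div_le_self u0.le (show 1 ≤ 2 * π by linarith), (div_le_iff₀' N0).2 u3]
  have c0 : 0 ≤ C * n * (1 + Real.log n) := by positivity
  have b3 := mul_le_mul_of_nonneg_left b1 c0
  have b4 := mul_le_mul_of_nonneg_left b2 c0
  have b5 : 2 * π * u * n ≤ 8 * n * (1 + Real.log n) * u := by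
    nlinarith [mul_nonneg (mul_nonneg n0 u0.le) l0, mul_nonneg n0 u0.le]
  rw [← hu]
  simp only [fun f => h.af f u u0, e1, e2, add_mul, mul_add, sum_add_distrib, mul_assoc (S.ε _),
    ← mul_assoc (S.ω _) (S.ε _)]
  rw [zero_mul, sub_zero] at h2
  rw [one_mul] at h1
  rw [abs_le] at h1 h2 h3 ⊢
  have b6 : C / N * n * (1 + Real.log n) * (1 + 1 / (2 * π / (N * u))) =
      C * n * (1 + Real.log n) * (1 / N * (1 + 1 / (2 * π / (N * u)))) := by ring
  constructor <;> nlinarith [h1.1, h1.2, h2.1, h2.2, h3.1, h3.2]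

end Pool.Agent.MP_20b2fd_nt.H38
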