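import Pool.Agent.MP_20b2fd_nt.H38.SpecN

/-! Lower bound for the linear form of the mollifier. -/

set_option autoImplicit false

namespace Pool.Agent.MP_20b2fd_nt.H38

open Finset Filter Topology

namespace MfA

theorem mem_Gq {r k : ℕ} {y : ℝ} :
    k ∈ Gq r y ↔ 1 ≤ k ∧ (k : ℝ) ≤ y ∧ Squarefree k ∧ k.Coprime r := by
  unfold Gq
  rw [mem_filter, mem_Icc]
  constructor
  · rintro ⟨⟨h1, h2⟩, h3⟩
    exact ⟨h1, (Nat.le_floor_iff' (by omega)).1 h2, h3⟩
  · rintro ⟨h1, h2, h3⟩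
    exact ⟨⟨h1, (Nat.le_floor_iff' (by omega)).2 h2⟩, h3⟩

theorem mem_prs {x y : ℝ} {p : ℕ} : p ∈ prs x y ↔ p.Prime ∧ x < p ∧ (p : ℝ) ≤ y := by
  unfold prs
  rw [mem_filter, mem_Icc]
  constructor
  · rintro ⟨⟨h1, h2⟩, h3, h4⟩
    exact ⟨h3, h4, (Nat.le_floor_iff' (by omega)).1 h2⟩
  · rintro ⟨h1, h2, h3⟩
    exact ⟨⟨h1.pos, (Nat.le_floor_iff' h1.ne_zero).2 h3⟩, h1, h2⟩

theorem card_le (k : ℕ) (hk : 1 ≤ k) : (k.primeFactors.card : ℝ) ≤ 2 * Real.log k := by
  have h1 : 2 ^ k.primeFactors.card ≤ k :=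
    (pow_card_le_prod _ _ _ fun p hp => (Nat.prime_of_mem_primeFactors hp).two_le).trans
      (Nat.le_of_dvd hk (Nat.prod_primeFactors_dvd k))
  have h2 : ((2 : ℝ)) ^ k.primeFactors.card ≤ k := by exact_mod_cast h1
  have h3 := Real.log_le_log (by positivity) h2
  rw [Real.log_pow] at h3
  nlinarith [Real.log_two_gt_d9, Nat.cast_nonneg (α := ℝ) k.primeFactors.card]

theorem one_sub_le (S : Finset ℕ) (f : ℕ → ℝ) (h0 : ∀ p ∈ S, 0 ≤ f p) (h1 : ∀ p ∈ S, f p ≤ 1) :
    1 - ∑ p ∈ S, f p ≤ ∏ p ∈ S, (1 - f p) := by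
  induction S using Finset.induction_on with
  | empty => simp
  | insert q S hq ih =>
    rw [sum_insert hq, prod_insert hq]
    have a1 := ih (fun p hp => h0 p (mem_insert_of_mem hp)) fun p hp => h1 p (mem_insert_of_mem hp)
    have a2 := h0 q (mem_insert_self _ _)
    have a3 := h1 q (mem_insert_self _ _)
    have a4 : 0 ≤ ∑ p ∈ S, f p := sum_nonneg fun p hp => h0 p (mem_insert_of_mem hp)
    nlinarith [mul_le_mul_of_nonneg_left a1 (sub_nonneg.2 a3)]

theorem kz_low {z : ℝ} (hz : 0 < z) {k : ℕ} (hk : 1 ≤ k) :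
    (1 - 2 * Real.log k / z) * (1 / (k.totient : ℝ)) ≤ kz z k / k := by
  have hk' : (0 : ℝ) < k := by exact_mod_cast hk
  have hφ : (0 : ℝ) < k.totient := by exact_mod_cast Nat.totient_pos.2 hk
  have h1 : (k.totient : ℝ) = k * ∏ p ∈ k.primeFactors, (1 - 1 / (p : ℝ)) := by
    have h := congrArg (Rat.cast : ℚ → ℝ) (Nat.totient_eq_mul_prod_factors k)
    push_cast at h
    simpa only [one_div] using h
  have h2 : (pz z).filter (· ∣ k) = k.primeFactors.filter fun p : ℕ => (p : ℝ) ≤ z := by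
    ext p
    simp only [pz, mem_filter, mem_prs, Nat.mem_primeFactors]
    constructor
    · rintro ⟨⟨a, -, b⟩, c⟩
      exact ⟨⟨a, c, by omega⟩, b⟩
    · rintro ⟨⟨a, c, -⟩, b⟩
      exact ⟨⟨a, by exact_mod_cast a.one_lt, b⟩, c⟩
  have h3 : kz z k * ∏ p ∈ k.primeFactors.filter (fun p : ℕ => (p : ℝ) ≤ z), (1 - 1 / (p : ℝ)) =
      1 := by
    rw [kz, h2, ← prod_mul_distrib]
    refine prod_eq_one fun p hp => ?_
    have : (1 : ℝ) < p := by
      exact_mod_cast (Nat.prime_of_mem_primeFactors (mem_filter.1 hp).1).one_lt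
    have h4 : (p : ℝ) - 1 ≠ 0 := by linarith
    field_simp
  have h4 : 1 - 2 * Real.log k / z ≤
      ∏ p ∈ k.primeFactors.filter (fun p : ℕ => ¬ (p : ℝ) ≤ z), (1 - 1 / (p : ℝ)) := by
    refine le_trans ?_ (one_sub_le _ _ (fun p _ => by positivity) fun p hp => ?_)
    · refine sub_le_sub_left ?_ 1
      refine (sum_le_card_nsmul _ _ (1 / z) fun p hp => ?_).trans ?_
      · exact one_div_le_one_div_of_le hz (not_le.1 (mem_filter.1 hp).2).le
      · rw [nsmul_eq_mul, mul_one_div]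
        refine div_le_div_of_nonneg_right (le_trans ?_ (card_le k hk)) hz.le
        exact_mod_cast card_filter_le _ _
    · rw [div_le_one]
      · exact_mod_cast (Nat.prime_of_mem_primeFactors (mem_filter.1 hp).1).one_lt.le
      · exact_mod_cast (Nat.prime_of_mem_primeFactors (mem_filter.1 hp).1).pos
  rw [mul_one_div, div_le_div_iff₀ hφ hk', h1,
    ← prod_filter_mul_prod_filter_not k.primeFactors (fun p : ℕ => (p : ℝ) ≤ z)]
  calc _ ≤ (∏ p ∈ k.primeFactors.filter (fun p : ℕ => ¬ (p : ℝ) ≤ z), (1 - 1 / (p : ℝ))) * k :=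
        mul_le_mul_of_nonneg_right h4 hk'.le
    _ = (kz z k * ∏ p ∈ k.primeFactors.filter (fun p : ℕ => (p : ℝ) ≤ z), (1 - 1 / (p : ℝ))) *
        ((∏ p ∈ k.primeFactors.filter (fun p : ℕ => ¬ (p : ℝ) ≤ z), (1 - 1 / (p : ℝ))) * k) := by
        rw [h3, one_mul]
    _ = _ := by ring

theorem tot_mul {t k : ℕ} (ht : t.Prime) (h : ¬ t ∣ k) :
    ((t * k).totient : ℝ) = ((t : ℝ) - 1) * k.totient := by
  rw [Nat.totient_mul ((Nat.Prime.coprime_iff_not_dvd ht).2 h), Nat.totient_prime ht]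
  push_cast [ht.one_lt.le]
  rfl

/-- the sum of the reciprocals of the totients -/
noncomputable def G (r : ℕ) (y : ℝ) : ℝ := ∑ k ∈ Gq r y, (1 : ℝ) / k.totient

theorem dv (r : ℕ) {t : ℕ} (ht : t.Prime) (y : ℝ) :
    ∑ k ∈ (Gq r y).filter (t ∣ ·), (1 : ℝ) / k.totient ≤ G r y / ((t : ℝ) - 1) := by
  have ht1 : (1 : ℝ) < t := by exact_mod_cast ht.one_lt
  calc _ ≤ ∑ k ∈ ((Gq r y).filter (¬ t ∣ ·)).image (t * ·), (1 : ℝ) / k.totient := by
        refine sum_le_sum_of_subset_of_nonneg (fun k hk => ?_) fun _ _ _ => by positivity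
        obtain ⟨h1, m, rfl⟩ := mem_filter.1 hk
        obtain ⟨a, b, c, d⟩ := mem_Gq.1 h1
        have hm : 1 ≤ m := Nat.pos_of_ne_zero fun e => by simp [e] at a
        refine mem_image.2 ⟨m, mem_filter.2 ⟨mem_Gq.2 ⟨hm, le_trans ?_ b, c.of_mul_right,
          Nat.Coprime.coprime_mul_left d⟩, ?_⟩, rfl⟩
        · exact_mod_cast Nat.le_mul_of_pos_left m ht.pos
        · exact (Nat.Prime.coprime_iff_not_dvd ht).1 (Nat.coprime_of_squarefree_mul c)
    _ = ∑ k ∈ (Gq r y).filter (¬ t ∣ ·), (1 : ℝ) / k.totient / ((t : ℝ) - 1) := by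
        rw [sum_image fun a _ b _ e => Nat.eq_of_mul_eq_mul_left ht.pos e]
        refine sum_congr rfl fun k hk => ?_
        rw [tot_mul ht (mem_filter.1 hk).2, div_div, mul_comm]
    _ ≤ _ := by
        rw [← sum_div]
        exact div_le_div_of_nonneg_right (sum_le_sum_of_subset_of_nonneg (filter_subset _ _)
          fun _ _ _ => by positivity) (by linarith)

theorem win {r t : ℕ} (ht : t.Prime) (hc : t.Coprime r) (x y : ℝ) :
    1 / (t : ℝ) * (G r (y / t) - G r (x / t) - G r (y / t) / ((t : ℝ) - 1)) ≤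
      ∑ k ∈ ((Gq r y).filter fun k : ℕ => x < k).filter (t ∣ ·), (1 : ℝ) / k.totient := by
  have ht1 : (1 : ℝ) < t := by exact_mod_cast ht.one_lt
  have ht0 : (0 : ℝ) < t := by linarith
  set A := (Gq r (y / t)).filter fun k : ℕ => x / t < k ∧ ¬ t ∣ k with hA
  have h1 : G r (y / t) ≤ ∑ k ∈ A, (1 : ℝ) / k.totient +
      ∑ k ∈ (Gq r (y / t)).filter (fun k : ℕ => (k : ℝ) ≤ x / t), (1 : ℝ) / k.totient +
      ∑ k ∈ (Gq r (y / t)).filter (t ∣ ·), (1 : ℝ) / k.totient := by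
    rw [hA, sum_filter, sum_filter, sum_filter, ← sum_add_distrib, ← sum_add_distrib]
    refine sum_le_sum fun k _ => ?_
    have : (0 : ℝ) ≤ 1 / k.totient := by positivity
    by_cases a : (k : ℝ) ≤ x / t <;> by_cases b : t ∣ k <;> simp only [a, b, not_le.1, lt_iff_not_ge,
      not_true, not_false_iff, and_true, and_false, if_true, if_false] <;> linarith
  have h2 : ∑ k ∈ (Gq r (y / t)).filter (fun k : ℕ => (k : ℝ) ≤ x / t), (1 : ℝ) / k.totient ≤
      G r (x / t) := by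
    refine sum_le_sum_of_subset_of_nonneg (fun k hk => ?_) fun _ _ _ => by positivity
    obtain ⟨a, b⟩ := mem_filter.1 hk
    obtain ⟨c, -, d⟩ := mem_Gq.1 a
    exact mem_Gq.2 ⟨c, b, d⟩
  have h3 := dv r ht (y / t)
  calc _ ≤ 1 / (t : ℝ) * ∑ k ∈ A, (1 : ℝ) / k.totient :=
        mul_le_mul_of_nonneg_left (by linarith) (by positivity)
    _ ≤ ∑ k ∈ A, (1 : ℝ) / (t * k).totient := by
        rw [mul_sum]
        refine sum_le_sum fun k hk => ?_
        have hφ : (0 : ℝ) < k.totient := by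
          exact_mod_cast Nat.totient_pos.2 (mem_Gq.1 (mem_filter.1 hk).1).1
        rw [tot_mul ht (mem_filter.1 hk).2.2, one_div_mul_one_div]
        exact one_div_le_one_div_of_le (mul_pos (by linarith) hφ) (by nlinarith)
    _ = ∑ k ∈ A.image (t * ·), (1 : ℝ) / k.totient :=
        (sum_image (f := fun k : ℕ => (1 : ℝ) / k.totient)
          fun a _ b _ e => Nat.eq_of_mul_eq_mul_left ht.pos e).symm
    _ ≤ _ := by
        refine sum_le_sum_of_subset_of_nonneg (fun k hk => ?_) fun _ _ _ => by positivity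
        obtain ⟨m, hm, rfl⟩ := mem_image.1 hk
        obtain ⟨a, b, c⟩ := mem_filter.1 hm
        obtain ⟨d, e, f, g⟩ := mem_Gq.1 a
        refine mem_filter.2 ⟨mem_filter.2 ⟨mem_Gq.2 ⟨Nat.mul_pos ht.pos d, ?_, ?_,
          Nat.Coprime.mul_left hc g⟩, ?_⟩, dvd_mul_right _ _⟩
        · push_cast
          rwa [le_div_iff₀' ht0] at e
        · exact (Nat.squarefree_mul ((Nat.Prime.coprime_iff_not_dvd ht).2 c)).2
            ⟨ht.prime.squarefree, f⟩
        · push_cast
          rwa [div_lt_iff₀' ht0] at b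

theorem large (δ C b c : ℝ) (hδ : 0 < δ) :
    ∀ᶠ N : ℕ in atTop, 2 ≤ N ∧ 2 * Real.log N / (N : ℝ) ^ (1000 * δ) ≤ δ / 1000 ∧
      Real.log N + C + 1 ≤ (N : ℝ) ^ (1 / 10000 : ℝ) ∧ b ≤ (N : ℝ) ^ (1 / 10000 : ℝ) ∧
      c ≤ Real.log N := by
  have h1 := (isLittleO_log_rpow_atTop (show 0 < 1000 * δ by positivity)).bound
    (show 0 < δ / 2000 by positivity)
  have h2 := (isLittleO_log_rpow_atTop (show (0 : ℝ) < 1 / 10000 by norm_num)).bound
    (show (0 : ℝ) < 1 / 2 by norm_num)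
  have h3 := (tendsto_rpow_atTop (show (0 : ℝ) < 1 / 10000 by norm_num)).eventually_ge_atTop
    (max (2 * (C + 1)) b)
  have h4 := Real.tendsto_log_atTop.eventually_ge_atTop c
  filter_upwards [tendsto_natCast_atTop_atTop.eventually (h1.and (h2.and (h3.and h4))),
    eventually_ge_atTop 2] with N h hN
  obtain ⟨a1, a2, a3, a4⟩ := h
  have hN' : (0 : ℝ) < N := by exact_mod_cast (by omega : 0 < N)
  rw [Real.norm_eq_abs, Real.norm_of_nonneg (by positivity)] at a1 a2
  have b1 := le_abs_self (Real.log N)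
  refine ⟨hN, ?_, ?_, (le_max_right _ _).trans a3, a4⟩
  · rw [div_le_iff₀ (by positivity)]
    linarith
  · linarith [(le_max_left _ _).trans a3]

end MfA

open MfA in
theorem mfOf : MfOf := by
  intro hW hM δ a hδ hδ1 ha
  obtain ⟨C, hC, hG⟩ := hM (30 * a) (by omega)
  have hG' : ∀ y : ℝ, 1 ≤ y → |G (30 * a) y - Vr a * Real.log y| ≤ C := fun y hy => (hG y hy).1
  have hr : (0 : ℝ) < (30 * a : ℕ) := by exact_mod_cast (by omega : 0 < 30 * a)
  have hV : 0 < Vr a := div_pos (by exact_mod_cast Nat.totient_pos.2 (by omega)) hr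
  have hV1 : Vr a ≤ 1 := (div_le_one hr).2 (by exact_mod_cast Nat.totient_le _)
  obtain ⟨N₁, h₁⟩ := hW.1 1 one_pos
  obtain ⟨N₂, h₂⟩ := eventually_atTop.1
    (large δ C (30 * a : ℕ) ((3 * C + 1) * 1000 / (δ * Vr a)) hδ)
  refine ⟨max N₁ N₂, fun N hN => ?_⟩
  obtain ⟨l3, -⟩ := h₁ N ((le_max_left _ _).trans hN)
  obtain ⟨hN2, e1, e2, e3, e4⟩ := h₂ N ((le_max_right _ _).trans hN)
  obtain ⟨hψ, hw⟩ := hW.2 δ N hδ hN2
  have hN1 : (1 : ℝ) ≤ N := by exact_mod_cast (by omega : 1 ≤ N)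
  have hN0 : (0 : ℝ) < N := by linarith
  have hδ2 : δ ≤ 1 / 100 := hδ1.trans (by norm_num)
  set L := Real.log N with hL
  have hL0 : 0 ≤ L := Real.log_nonneg hN1
  have mono : ∀ u v : ℝ, u ≤ v → (N : ℝ) ^ u ≤ (N : ℝ) ^ v := fun u v h =>
    Real.rpow_le_rpow_of_exponent_le hN1 h
  have lg : ∀ u : ℝ, Real.log ((N : ℝ) ^ u) = u * L := fun u => Real.log_rpow hN0 u
  have short : Vr a * ((1 / 2 - 3 * δ / 4) * L) - C ≤
      ∑ k ∈ Gq (30 * a) ((N : ℝ) ^ (1 / 2 + δ / 2)),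
        (if (k : ℝ) ≤ (N : ℝ) ^ (1 / 2 - 3 * δ / 4) then (1 : ℝ) / k.totient else 0) := by
    have h1 := (abs_le.1 (hG' _ (Real.one_le_rpow hN1 (show 0 ≤ 1 / 2 - 3 * δ / 4 by linarith)))).1
    rw [lg, G] at h1
    rw [← sum_filter]
    refine le_trans (by linarith) (sum_le_sum_of_subset_of_nonneg (s := Gq (30 * a)
      ((N : ℝ) ^ (1 / 2 - 3 * δ / 4))) (fun k hk => ?_) fun _ _ _ => by positivity)
    obtain ⟨b1, b2, b3⟩ := mem_Gq.1 hk
    exact mem_filter.2 ⟨mem_Gq.2 ⟨b1, b2.trans (mono _ _ (by linarith)), b3⟩, b2⟩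
  have long : lam N * (Vr a * (248 * δ / 200 * L) - 2 * C - 1) ≤
      ∑ k ∈ Gq (30 * a) ((N : ℝ) ^ (1 / 2 + δ / 2)),
        psi δ N (Real.log k) * om N k * (1 / (k.totient : ℝ)) := by
    set x := (N : ℝ) ^ (1 / 2 - 149 * δ / 200) with hx
    set y := (N : ℝ) ^ (1 / 2 + 99 * δ / 200) with hy
    have hxy : x ≤ y := mono _ _ (by linarith)
    calc _ ≤ ∑ t ∈ PP N, ∑ k ∈ ((Gq (30 * a) y).filter fun k : ℕ => x < k).filter (t ∣ ·),
            (1 : ℝ) / k.totient := by
          rw [lam, sum_mul]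
          refine sum_le_sum fun t ht => ?_
          obtain ⟨t1, t2, t3⟩ := mem_prs.1 ht
          have t0 : (0 : ℝ) < t := by exact_mod_cast t1.pos
          have t4 : (1 : ℝ) ≤ t := by exact_mod_cast t1.pos
          have hc : t.Coprime (30 * a) := (Nat.Prime.coprime_iff_not_dvd t1).2 fun h =>
            absurd (Nat.le_of_dvd (by omega) h) (not_le.2 (by exact_mod_cast e3.trans_lt t2))
          refine le_trans (mul_le_mul_of_nonneg_left ?_ (by positivity)) (win t1 hc x y)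
          have x1 : 1 ≤ x / t := by
            rw [one_le_div t0]
            refine t3.trans ?_
            rw [← Real.rpow_natCast, ← Real.rpow_mul hN0.le]
            exact mono _ _ (by push_cast; linarith)
          have y1 : 1 ≤ y / t := x1.trans (div_le_div_of_nonneg_right hxy t0.le)
          have g1 := abs_le.1 (hG' _ x1)
          have g2 := abs_le.1 (hG' _ y1)
          rw [Real.log_div (by positivity) t0.ne', lg] at g1 g2
          have g3 : G (30 * a) (y / t) / ((t : ℝ) - 1) ≤ 1 := by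
            have g4 : 0 ≤ Real.log t := Real.log_nonneg t4
            have g5 : Vr a * ((1 / 2 + 99 * δ / 200) * L - Real.log t) ≤ L := by
              have g6 : Vr a * L ≤ L := mul_le_of_le_one_left hL0 hV1
              have g7 : (1 / 2 + 99 * δ / 200) * L - Real.log t ≤ L := by nlinarith
              exact (mul_le_mul_of_nonneg_left g7 hV.le).trans g6
            rw [div_le_one (by linarith)]
            linarith [g2.2]
          nlinarith [g1.2, g2.1]
      _ = ∑ k ∈ (Gq (30 * a) y).filter (fun k : ℕ => x < k), om N k * (1 / (k.totient : ℝ)) := by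
          simp only [sum_filter (p := fun k => _ ∣ k)]
          rw [sum_comm]
          refine sum_congr rfl fun k _ => ?_
          rw [← sum_filter, sum_const, nsmul_eq_mul, om]
      _ = ∑ k ∈ (Gq (30 * a) y).filter (fun k : ℕ => x < k),
            psi δ N (Real.log k) * om N k * (1 / (k.totient : ℝ)) := by
          refine sum_congr rfl fun k hk => ?_
          obtain ⟨b1, b2⟩ := mem_filter.1 hk
          obtain ⟨b3, b4, -⟩ := mem_Gq.1 b1
          have b5 : (0 : ℝ) < k := by exact_mod_cast b3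
          rw [(hψ _).2.2.2 (by rw [← lg]; exact Real.log_le_log (by positivity) b2.le)
            (by rw [← lg]; exact Real.log_le_log b5 b4), one_mul]
      _ ≤ _ := by
          refine sum_le_sum_of_subset_of_nonneg (fun k hk => ?_) fun k _ _ =>
            mul_nonneg (mul_nonneg (hψ _).1 (Nat.cast_nonneg _)) (by positivity)
          obtain ⟨b1, b2, b3⟩ := mem_Gq.1 (mem_filter.1 hk).1
          exact mem_Gq.2 ⟨b1, b2.trans (mono _ _ (by linarith)), b3⟩
  have both : Vr a * (L / 2) * (1 + 36 / 100 * δ) - (3 * C + 1) ≤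
      ∑ k ∈ Gq (30 * a) ((N : ℝ) ^ (1 / 2 + δ / 2)), wt δ N k * (1 / (k.totient : ℝ)) := by
    have h1 := mul_le_mul_of_nonneg_left long (show 0 ≤ 3 / (4 * lam N) by positivity)
    rw [← mul_assoc, show 3 / (4 * lam N) * lam N = 3 / 4 by field_simp, mul_sum] at h1
    refine le_trans (by nlinarith) ((add_le_add short h1).trans (le_of_eq ?_))
    rw [← sum_add_distrib]
    refine sum_congr rfl fun k _ => ?_
    unfold wt
    split_ifs <;> ring
  have last : (1 - δ / 1000) *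
      ∑ k ∈ Gq (30 * a) ((N : ℝ) ^ (1 / 2 + δ / 2)), wt δ N k * (1 / (k.totient : ℝ)) ≤
      ∑ k ∈ Icc 1 (KK δ N), ww δ a N k / k := by
    rw [mul_sum]
    refine le_trans (sum_le_sum fun k hk => ?_) (sum_le_sum_of_subset_of_nonneg
      (s := Gq (30 * a) ((N : ℝ) ^ (1 / 2 + δ / 2))) (filter_subset _ _)
      fun k _ _ => div_nonneg (hw a k).2.1 (Nat.cast_nonneg _))
    obtain ⟨b1, b2, b3⟩ := mem_Gq.1 hk
    have b5 : (0 : ℝ) < k := by exact_mod_cast b1
    have hz : 0 < zz δ N := Real.rpow_pos_of_pos hN0 _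
    have b6 : Real.log k ≤ L := Real.log_le_log b5 (b2.trans (by
      simpa using mono (1 / 2 + δ / 2) 1 (by linarith)))
    have b7 : 1 - δ / 1000 ≤ 1 - 2 * Real.log k / zz δ N :=
      sub_le_sub_left ((div_le_div_of_nonneg_right (by linarith) hz.le).trans e1) 1
    have b8 := (mul_le_mul_of_nonneg_right b7
      (show (0 : ℝ) ≤ 1 / k.totient by positivity)).trans (kz_low hz b1)
    have b9 := mul_le_mul_of_nonneg_left b8 (hw a k).1
    rw [ww, if_pos b3]
    calc _ = wt δ N k * ((1 - δ / 1000) * (1 / (k.totient : ℝ))) := by ring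
      _ ≤ _ := b9
      _ = _ := by ring
  have f1 := mul_le_mul_of_nonneg_left both (show 0 ≤ 1 - δ / 1000 by linarith)
  rw [div_le_iff₀ (by positivity)] at e4
  have f2 : 0 ≤ Vr a * L * δ := by positivity
  have f3 : Vr a * L * δ * δ ≤ Vr a * L * δ := mul_le_of_le_one_right f2 (by linarith)
  have f4 : 0 ≤ δ * C := by positivity
  nlinarith

end Pool.Agent.MP_20b2fd_nt.H38
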