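import Pool.Agent.MP_20b2fd_nt.H38.SpecN

/-! The shifted quadratic form of the mollifier. -/

set_option autoImplicit false

namespace Pool.Agent.MP_20b2fd_nt.H38

open Finset Filter Topology

namespace Mq1A

theorem mem_prs {x y : ℝ} {p : ℕ} : p ∈ prs x y ↔ p.Prime ∧ x < p ∧ (p : ℝ) ≤ y := by
  rw [prs, mem_filter, mem_Icc]
  exact ⟨fun h => ⟨h.2.1, h.2.2, (Nat.le_floor_iff' h.2.1.ne_zero).1 h.1.2⟩,
    fun h => ⟨⟨h.1.pos, (Nat.le_floor_iff' h.1.ne_zero).2 h.2.2⟩, h.1, h.2.1⟩⟩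

theorem mem_Gq {r k : ℕ} {y : ℝ} :
    k ∈ Gq r y ↔ (k : ℝ) ≤ y ∧ Squarefree k ∧ k.Coprime r := by
  rw [Gq, mem_filter, mem_Icc]
  exact ⟨fun h => ⟨(Nat.le_floor_iff' h.2.1.ne_zero).1 h.1.2, h.2⟩,
    fun h => ⟨⟨Nat.pos_of_ne_zero h.2.1.ne_zero, (Nat.le_floor_iff' h.2.1.ne_zero).2 h.1⟩, h.2⟩⟩

theorem Gq_filter {r : ℕ} {x y : ℝ} (h : x ≤ y) :
    (Gq r y).filter (fun k : ℕ => ¬ x < k) = Gq r x := by
  ext k
  simp only [mem_filter, mem_Gq, not_lt]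
  exact ⟨fun a => ⟨a.2, a.1.2⟩, fun a => ⟨⟨a.1.trans h, a.2⟩, a.1⟩⟩

theorem two_le {p : ℕ} (h : p.Prime) : (2 : ℝ) ≤ p := by exact_mod_cast h.two_le

theorem f0 {p : ℕ} (h : p.Prime) : 0 ≤ Real.log p / ((p : ℝ) - 1) :=
  div_nonneg (Real.log_natCast_nonneg p) (by linarith [two_le h])

/-- the upper bound of Mertens -/
def Me (D : ℝ) : Prop := ∀ x y : ℝ, 1 ≤ x → x ≤ y →
  ∑ p ∈ prs x y, Real.log p / ((p : ℝ) - 1) ≤ Real.log (y / x) + D

theorem win {D c x y : ℝ} (hD : Me D) (z : ℝ) (g : ℕ → ℝ) (hc : 0 ≤ c) (h1 : 1 ≤ x) (h2 : x ≤ y)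
    (hg : ∀ p : ℕ, p.Prime → g p ≤ c) (hg' : ∀ p : ℕ, p.Prime → g p ≠ 0 → x < p ∧ (p : ℝ) ≤ y) :
    ∑ p ∈ pz z, Real.log p / ((p : ℝ) - 1) * g p ≤ c * (Real.log (y / x) + D) := by
  refine le_trans ?_ (mul_le_mul_of_nonneg_left (hD x y h1 h2) hc)
  rw [mul_sum, ← sum_filter_of_ne (s := pz z) (p := fun p => p ∈ prs x y) fun p hp h =>
    mem_prs.2 ⟨(mem_prs.1 hp).1, hg' p (mem_prs.1 hp).1 (right_ne_zero_of_mul h)⟩]
  refine (sum_le_sum fun p hp => ?_).trans (sum_le_sum_of_subset_of_nonneg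
    (fun p hp => (mem_filter.1 hp).2) fun p hp _ => mul_nonneg hc (f0 (mem_prs.1 hp).1))
  have := (mem_prs.1 (mem_filter.1 hp).2).1
  rw [mul_comm]
  exact mul_le_mul_of_nonneg_right (hg p this) (f0 this)

theorem kz_le (z : ℝ) (k : ℕ) {p : ℕ} (hp : p.Prime) : kz z (k * p) ≤ kz z k * (p / (p - 1)) := by
  have h1 : ∀ q : ℕ, q.Prime → (1 : ℝ) ≤ q / (q - 1) := fun q hq => by
    rw [one_le_div (by linarith [two_le hq])]
    linarith
  have h2 : ∀ q ∈ insert p ((pz z).filter (· ∣ k)), q.Prime := fun q hq =>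
    (mem_insert.1 hq).elim (· ▸ hp) fun h => (mem_prs.1 (mem_filter.1 h).1).1
  have h3 : 0 ≤ kz z k := prod_nonneg fun q hq => zero_le_one.trans (h1 q (h2 q (mem_insert_of_mem hq)))
  refine (prod_le_prod_of_subset_of_one_le (t := insert p ((pz z).filter (· ∣ k))) (fun q hq => ?_)
    (fun q hq => zero_le_one.trans (h1 q (mem_prs.1 (mem_filter.1 hq).1).1))
    fun q hq _ => h1 q (h2 q hq)).trans ?_
  · obtain ⟨a, b⟩ := mem_filter.1 hq
    exact mem_insert.2 (((mem_prs.1 a).1.dvd_mul.1 b).symm.imp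
      (Nat.prime_dvd_prime_iff_eq (mem_prs.1 a).1 hp).1 fun h => mem_filter.2 ⟨a, h⟩)
  · by_cases h : p ∈ (pz z).filter (· ∣ k)
    · rw [insert_eq_of_mem h]
      exact le_mul_of_one_le_right h3 (h1 p hp)
    · rw [prod_insert h, mul_comm]
      rfl

theorem om_le (N k : ℕ) {p : ℕ} (hp : p.Prime) :
    om N (k * p) ≤ om N k + if p ∈ PP N then 1 else 0 := by
  have h : ∀ q ∈ (PP N).filter (· ∣ k * p), q ∈ (PP N).filter (· ∣ k) ∨ q = p := fun q hq => by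
    obtain ⟨a, b⟩ := mem_filter.1 hq
    exact ((mem_prs.1 a).1.dvd_mul.1 b).imp (fun h => mem_filter.2 ⟨a, h⟩)
      (Nat.prime_dvd_prime_iff_eq (mem_prs.1 a).1 hp).1
  unfold om
  split_ifs with k
  · exact_mod_cast (card_le_card fun q hq => mem_insert.2 (h q hq).symm).trans (card_insert_le _ _)
  · rw [add_zero]
    exact_mod_cast card_le_card fun q hq => (h q hq).resolve_right fun e => k (e ▸ (mem_filter.1 hq).1)

theorem om0 (N k : ℕ) : 0 ≤ om N k := Nat.cast_nonneg _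

/-- the facts on the bump -/
def Ps (δ : ℝ) (N : ℕ) : Prop := ∀ x : ℝ, psi δ N x ≤ 1 ∧
  (psi δ N x ≠ 0 → (1 / 2 - 3 * δ / 4) * Real.log N < x ∧ x < (1 / 2 + δ / 2) * Real.log N)

open Classical in
theorem inner {D δ : ℝ} {N k : ℕ} (hD : Me D) (h0 : 0 < δ) (h1 : δ ≤ 1 / 10 ^ 10) (hN : 2 ≤ N)
    (hψ : Ps δ N) (hl : 0 ≤ 3 / (4 * lam N)) (hk : 1 ≤ k) (z : ℝ) :
    ∑ p ∈ pz z, Real.log p / ((p : ℝ) - 1) * wt δ N (k * p) ≤
      (if (N : ℝ) ^ (1 / 2 - 3 * δ / 4) < k then 0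
        else Real.log ((N : ℝ) ^ (1 / 2 - 3 * δ / 4) / k) + D) + 3 / (4 * lam N) *
      ((om N k + if (N : ℝ) ^ (1 / 2 - 3 * δ / 4 - 21 / 10000) < k ∧
        ¬ (N : ℝ) ^ (1 / 2 - 3 * δ / 4) < k then 1 else 0) * (5 * δ / 4 * Real.log N + D)) := by
  have N1 : (1 : ℝ) < N := by exact_mod_cast hN
  have N0 : (0 : ℝ) < N := by linarith
  have L0 := Real.log_pos N1
  have k0 : (0 : ℝ) < k := by exact_mod_cast hk
  simp only [wt, mul_add (Real.log _ / _), sum_add_distrib, mul_assoc (3 / (4 * lam N)),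
    mul_left_comm _ (3 / (4 * lam N)), ← mul_sum]
  refine add_le_add ?_ (mul_le_mul_of_nonneg_left ?_ hl)
  · split_ifs with h
    · refine (sum_eq_zero fun p hp => ?_).le
      rw [if_neg (not_le.2 (h.trans_le ?_)), mul_zero]
      exact_mod_cast Nat.le_mul_of_pos_right k (mem_prs.1 hp).1.pos
    · have := win hD z (fun p => if ((k * p : ℕ) : ℝ) ≤ (N : ℝ) ^ (1 / 2 - 3 * δ / 4) then 1 else 0)
        zero_le_one le_rfl ((one_le_div k0).2 (not_lt.1 h)) (fun p _ => by split_ifs <;> norm_num)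
        fun p hp e => ⟨by linarith [two_le hp], by
          rw [le_div_iff₀' k0, ← Nat.cast_mul]
          exact by_contra fun e' => e (if_neg e')⟩
      rwa [div_one, one_mul] at this
  · have e1 : (1 : ℝ) ≤ (N : ℝ) ^ (5 * δ / 4) := Real.one_le_rpow N1.le (by linarith)
    have e2 := le_max_left 1 ((N : ℝ) ^ (1 / 2 - 3 * δ / 4) / k)
    have e3 := le_max_right 1 ((N : ℝ) ^ (1 / 2 - 3 * δ / 4) / k)
    have e4 : ∀ p : ℕ, p.Prime → Real.log (k * p : ℕ) = Real.log k + Real.log p := fun p hp => by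
      rw [Nat.cast_mul, Real.log_mul k0.ne' (by linarith [two_le hp])]
    have := win hD z (fun p => psi δ N (Real.log (k * p : ℕ)) * om N (k * p))
      (c := om N k + if (N : ℝ) ^ (1 / 2 - 3 * δ / 4 - 21 / 10000) < k ∧
        ¬ (N : ℝ) ^ (1 / 2 - 3 * δ / 4) < k then 1 else 0)
      (add_nonneg (om0 N k) (by split_ifs <;> norm_num)) e2
      (le_mul_of_one_le_right (zero_le_one.trans e2) e1) (fun p hp => ?_) fun p hp e => ?_
    · rwa [mul_div_cancel_left₀ _ (by linarith), Real.log_rpow N0] at this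
    · by_cases e : psi δ N (Real.log (k * p : ℕ)) = 0
      · rw [e, zero_mul]
        exact add_nonneg (om0 N k) (by split_ifs <;> norm_num)
      refine (mul_le_of_le_one_left (om0 _ _) (hψ _).1).trans ((om_le N k hp).trans
        (add_le_add_right ?_ _))
      by_cases b : p ∈ PP N
      · obtain ⟨a1, a2⟩ := (hψ _).2 e
        obtain ⟨-, b1, b2⟩ := mem_prs.1 b
        have p0 : (0 : ℝ) < p := by linarith [two_le hp]
        rw [← Real.rpow_natCast, ← Real.rpow_mul N0.le, Real.le_rpow_iff_log_le p0 N0] at b2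
        rw [Real.rpow_lt_iff_lt_log N0 p0] at b1
        rw [e4 p hp] at a1 a2
        rw [if_pos b, if_pos]
        rw [Real.rpow_lt_iff_lt_log N0 k0, Real.rpow_lt_iff_lt_log N0 k0]
        push_cast at b2
        constructor
        · linarith
        · nlinarith
      · rw [if_neg b]
        split_ifs <;> norm_num
    · obtain ⟨a1, a2⟩ := (hψ _).2 (left_ne_zero_of_mul e)
      have p0 : (0 : ℝ) < (k * p : ℕ) := by exact_mod_cast Nat.mul_pos hk hp.pos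
      rw [← Real.rpow_lt_iff_lt_log N0 p0, Nat.cast_mul, ← div_lt_iff₀' k0] at a1
      rw [← Real.lt_rpow_iff_log_lt p0 N0, Nat.cast_mul, ← lt_div_iff₀' k0] at a2
      refine ⟨max_lt (by linarith [two_le hp]) a1, a2.le.trans (le_trans (le_of_eq ?_)
        (mul_le_mul_of_nonneg_right e3 (zero_le_one.trans e1)))⟩
      rw [div_mul_eq_mul_div, ← Real.rpow_add N0]
      congr 2
      ring

theorem term {δ : ℝ} {a N k : ℕ} (hw : ∀ k, 0 ≤ wt δ N k)
    (h1 : 1 ≤ kz (zz δ N) k) (h2 : kz (zz δ N) k * k.totient ≤ k) (hk : 1 ≤ k)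
    (h3 : Squarefree k ∧ k.Coprime (30 * a)) (z : ℝ) : k.totient * ww δ a N k / (k : ℝ) ^ 2 *
      ∑ p ∈ pz z, Real.log p / p * ww δ a N (k * p) ≤ wt δ N k / k.totient *
      ∑ p ∈ pz z, Real.log p / ((p : ℝ) - 1) * wt δ N (k * p) := by
  have k0 : (0 : ℝ) < k := by exact_mod_cast hk
  have t0 : (0 : ℝ) < k.totient := by exact_mod_cast Nat.totient_pos.2 hk
  have s1 : ∑ p ∈ pz z, Real.log p / p * ww δ a N (k * p) ≤
      kz (zz δ N) k * ∑ p ∈ pz z, Real.log p / ((p : ℝ) - 1) * wt δ N (k * p) := by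
    rw [mul_sum]
    refine sum_le_sum fun p hp => ?_
    have pp := (mem_prs.1 hp).1
    have p2 := two_le pp
    unfold ww
    split_ifs
    · refine (mul_le_mul_of_nonneg_left (mul_le_mul_of_nonneg_right (kz_le _ k pp) (hw _))
        (div_nonneg (Real.log_natCast_nonneg p) (by linarith))).trans_eq ?_
      have : (p : ℝ) - 1 ≠ 0 := by linarith
      field_simp
    · rw [mul_zero]
      exact mul_nonneg (by linarith) (mul_nonneg (f0 pp) (hw _))
  have w0 := hw k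
  rw [ww, if_pos h3]
  refine (mul_le_mul_of_nonneg_left s1 (by positivity)).trans ?_
  rw [← mul_assoc]
  refine mul_le_mul_of_nonneg_right ?_ (sum_nonneg fun p hp => mul_nonneg (f0 (mem_prs.1 hp).1) (hw _))
  rw [div_mul_eq_mul_div, div_le_div_iff₀ (by positivity) t0]
  nlinarith [mul_le_mul_of_nonneg_left (pow_le_pow_left₀ (by positivity) h2 2) w0]

theorem ar {V l δ M μ Λ s0 s1 s2 s3 s4 : ℝ} (V0 : 0 < V) (V1 : V ≤ 1) (h0 : 0 < δ)
    (h1 : δ ≤ 1 / 10 ^ 10) (M1 : 1 ≤ M) (l1 : 1 ≤ l) (hl : 10000 * M ^ 2 ≤ δ * V * l) (μ0 : 0 ≤ μ)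
    (μ1 : μ ≤ 1 / 4) (Λ0 : 0 ≤ Λ) (μ2 : μ * Λ ≤ 3 / 4 * (1 + 1 / 2000))
    (e0 : s0 ≤ V * l + M) (e1 : s1 ≤ V * ((1 - 3 * δ / 2) * l) ^ 2 / 2 + M * l)
    (e2 : s2 ≤ Λ * (V * l + M)) (e3 : s3 ≤ V * (42 / 10000 * l) + 2 * M)
    (e4 : s4 ≤ (Λ + Λ ^ 2) * (V * (5 * δ / 2 * l) + M)) :
    s1 + M * s0 + μ * (5 * δ / 2 * l + M) * (s2 + s3) + μ ^ 2 * (5 * δ / 2 * l + M) * s4 ≤
      V * l ^ 2 * (1 / 2 + 38 / 100 * δ) := by
  have R0 : 0 ≤ 5 * δ / 2 * l + M := by positivity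
  have M0 : 0 < M := by linarith
  have l0 : 0 < l := by linarith
  have a0 := mul_le_mul_of_nonneg_left e0 M0.le
  have a2 : μ * s2 ≤ 3 / 4 * (1 + 1 / 2000) * (V * l + M) :=
    (mul_le_mul_of_nonneg_left e2 μ0).trans (by
      rw [← mul_assoc]; exact mul_le_mul_of_nonneg_right μ2 (by positivity))
  have a3 : μ * s3 ≤ 1 / 4 * (V * (42 / 10000 * l) + 2 * M) :=
    (mul_le_mul_of_nonneg_left e3 μ0).trans (mul_le_mul_of_nonneg_right μ1 (by positivity))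
  have a4 : μ ^ 2 * s4 ≤ 1 * (V * (5 * δ / 2 * l) + M) :=
    (mul_le_mul_of_nonneg_left e4 (sq_nonneg μ)).trans (by
      rw [← mul_assoc]
      refine mul_le_mul_of_nonneg_right ?_ (by positivity)
      nlinarith [mul_nonneg μ0 Λ0])
  have b := mul_le_mul_of_nonneg_left (add_le_add (add_le_add a2 a3) a4) R0
  have c0 : 0 < M * l := by positivity
  have c1 : M * l ≤ M ^ 2 * l := by nlinarith
  have c2 : M ^ 2 ≤ M ^ 2 * l := le_mul_of_one_le_right (sq_nonneg M) l1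
  have c3 : V * (M * l) ≤ M * l := mul_le_of_le_one_left c0.le V1
  have c4 : δ * (M * l) ≤ 1 / 10 ^ 10 * (M * l) := mul_le_mul_of_nonneg_right h1 c0.le
  have c5 : δ * (V * (M * l)) ≤ δ * (M * l) := mul_le_mul_of_nonneg_left c3 h0.le
  have c6 : δ * (δ * V * l ^ 2) ≤ 1 / 10 ^ 10 * (δ * V * l ^ 2) :=
    mul_le_mul_of_nonneg_right h1 (by positivity)
  have c7 := mul_le_mul_of_nonneg_right hl l0.le
  nlinarith

end Mq1A

open Mq1A Classical in
theorem mq1Of : Mq1Of := by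
  rintro ⟨D, D1, hD, -⟩ ⟨hW1, hW⟩ h2 hO δ a h0 h1 ha
  obtain ⟨C, C1, hC⟩ := h2 (30 * a) (by omega)
  obtain ⟨C', C'1, hC'⟩ := hO a ha
  obtain ⟨N₀, hN₀⟩ := hW1 (1 / 2000) (by norm_num)
  have hV : ((30 * a).totient : ℝ) / (30 * a : ℕ) = Vr a := rfl
  rw [hV] at hC
  have a0 : (0 : ℝ) < (30 * a : ℕ) := by exact_mod_cast (by omega : 0 < 30 * a)
  have V0 : 0 < Vr a := div_pos (by exact_mod_cast Nat.totient_pos.2 (by omega)) a0
  have V1 : Vr a ≤ 1 := (div_le_one a0).2 (by exact_mod_cast Nat.totient_le _)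
  obtain ⟨M, hM⟩ : ∃ M, M = D + C + C' := ⟨_, rfl⟩
  have hD' : Me M := fun x y hx hy => by linarith [(abs_le.1 (hD x y hx hy).2).2]
  obtain ⟨N₁, hN₁⟩ := eventually_atTop.1 ((Real.tendsto_log_atTop.comp
    tendsto_natCast_atTop_atTop).eventually_ge_atTop (max 2 (20000 * M ^ 2 / (δ * Vr a))))
  refine ⟨max (max N₀ N₁) 2, fun N hN => ?_⟩
  simp only [max_le_iff] at hN
  obtain ⟨l1, -, l3, l4⟩ := hN₀ N hN.1.1
  obtain ⟨L1, L2⟩ := max_le_iff.1 (hN₁ N hN.1.2)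
  obtain ⟨hψ, hw⟩ := hW δ N h0 hN.2
  rw [Function.comp_apply] at L1 L2
  rw [div_le_iff₀ (by positivity)] at L2
  have N1 : (1 : ℝ) ≤ N := by exact_mod_cast (by omega : 1 ≤ N)
  have N0 : (0 : ℝ) < N := by linarith
  have μ0 : 0 ≤ 3 / (4 * lam N) := by positivity
  have hi := fun k => inner (k := k) hD' h0 h1 hN.2 (fun x => ⟨(hψ x).2.1, (hψ x).2.2.1⟩) μ0
  have y0 : (1 : ℝ) ≤ (N : ℝ) ^ (1 / 2 - 3 * δ / 4 - 21 / 10000) := Real.one_le_rpow N1 (by linarith)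
  have y1 : (N : ℝ) ^ (1 / 2 - 3 * δ / 4 - 21 / 10000) ≤ (N : ℝ) ^ (1 / 2 - 3 * δ / 4) :=
    Real.rpow_le_rpow_of_exponent_le N1 (by linarith)
  have y2 : (N : ℝ) ^ (1 / 2 - 3 * δ / 4) ≤ (N : ℝ) ^ (1 / 2 + δ / 2) :=
    Real.rpow_le_rpow_of_exponent_le N1 (by linarith)
  obtain ⟨e0, e1⟩ := hC _ (y0.trans y1)
  have e2 := (hC' N 0 _ (by omega) (y0.trans y1)).1
  have e3 := (hC _ y0).1
  have e4 := (hC' N _ _ (by omega) (y0.trans (y1.trans y2))).2
    (Real.rpow_le_rpow_of_exponent_le N1 (by linarith)) y2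
  rw [← Real.rpow_sub N0, Real.log_rpow N0] at e4
  rw [Real.log_rpow N0] at e0 e1 e2 e3
  have e5 := sum_filter_add_sum_filter_not (Gq (30 * a) ((N : ℝ) ^ (1 / 2 - 3 * δ / 4)))
    (fun k : ℕ => (N : ℝ) ^ (1 / 2 - 3 * δ / 4 - 21 / 10000) < k) fun k => (1 : ℝ) / k.totient
  rw [Gq_filter y1] at e5
  have d0 : 0 ≤ δ * Real.log N := by positivity
  have d1 : 0 ≤ Vr a * (δ * Real.log N) := by positivity
  have Λ0 : 0 ≤ lam' N := by linarith
  refine le_trans ?_ (ar (l := Real.log N / 2) (M := M) (Λ := lam' N) V0 V1 h0 h1 (by linarith)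
    (by linarith) (by linarith) μ0 (by rw [div_le_iff₀ (by linarith)]; linarith) Λ0
    (by rw [div_mul_eq_mul_div, div_le_iff₀ (by linarith)]; linarith)
    ((le_of_abs_le e0 |> sub_le_iff_le_add.1).trans (by linarith)) (e1.trans ?_)
    (e2.trans (mul_le_mul_of_nonneg_left (by linarith) Λ0))
    (s3 := ∑ k ∈ (Gq (30 * a) ((N : ℝ) ^ (1 / 2 - 3 * δ / 4))).filter
      (fun k : ℕ => (N : ℝ) ^ (1 / 2 - 3 * δ / 4 - 21 / 10000) < k), (1 : ℝ) / k.totient)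
    (by linarith [(abs_le.1 e0).2, (abs_le.1 e3).1])
    (e4.trans (mul_le_mul_of_nonneg_left (by linarith) (by positivity))))
  · rw [← sum_filter_of_ne (p := fun k => Squarefree k ∧ k.Coprime (30 * a)) fun k _ h =>
      by_contra fun e => h (by simp only [ww, if_neg e, mul_zero, zero_div, zero_mul]),
      show (Icc 1 (KK δ N)).filter _ = Gq (30 * a) ((N : ℝ) ^ (1 / 2 + δ / 2)) from rfl,
      ← sum_filter_add_sum_filter_not _ fun k : ℕ => (N : ℝ) ^ (1 / 2 - 3 * δ / 4) < k,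
      Gq_filter y2, add_comm, sum_filter (fun k : ℕ => (N : ℝ) ^ (1 / 2 - 3 * δ / 4 - 21 / 10000) < k),
      ← sum_add_distrib, mul_sum _ _ M, mul_sum _ _ (_ * _), mul_sum _ _ (_ * _),
      ← sum_add_distrib, ← sum_add_distrib]
    have ht := fun k y (hk : k ∈ Gq (30 * a) y) => (term (fun k => (hw a k).1)
      ((hw a k).2.2.2.2.1 (mem_Gq.1 hk).2.1).1 ((hw a k).2.2.2.2.1 (mem_Gq.1 hk).2.1).2
      (Nat.pos_of_ne_zero (mem_Gq.1 hk).2.1.ne_zero) (mem_Gq.1 hk).2 (KK δ N)).trans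
      (mul_le_mul_of_nonneg_left (hi k (Nat.pos_of_ne_zero (mem_Gq.1 hk).2.1.ne_zero) _)
        (div_nonneg (hw a k).1 (Nat.cast_nonneg _)))
    refine add_le_add (sum_le_sum fun k hk => (ht k _ hk).trans_eq ?_) (sum_le_sum fun k hk =>
      (ht k _ (mem_filter.1 hk).1).trans ?_)
    · obtain ⟨k0, k1, -⟩ := mem_Gq.1 hk
      have k2 : (0 : ℝ) < k := by exact_mod_cast Nat.pos_of_ne_zero k1.ne_zero
      have k3 : psi δ N (Real.log k) = 0 := by_contra fun e =>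
        ((Real.le_rpow_iff_log_le k2 N0).1 k0).not_gt ((hψ _).2.2.1 e).1
      simp only [wt, if_pos k0, k3, k0.not_gt, if_false, not_false_eq_true, and_true]
      split_ifs <;> ring
    · have k0 := (mem_filter.1 hk).2
      simp only [wt, if_neg k0.not_ge, k0, if_true, not_true, and_false, if_false, zero_add,
        add_zero]
      have := mul_le_mul_of_nonneg_left (hψ (Real.log k)).2.1 (show 0 ≤ (3 / (4 * lam N)) ^ 2 *
        (5 * δ / 2 * (Real.log N / 2) + M) * (om N k ^ 2 / k.totient) by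
          have : 0 ≤ M := by linarith
          positivity)
      refine le_trans (le_of_eq ?_) (this.trans_eq (mul_one _))
      ring
  · nlinarith [mul_le_mul_of_nonneg_right (show C ≤ M by linarith) (show 0 ≤ Real.log N by linarith),
      mul_nonneg (show 0 ≤ C by linarith) d0]

end Pool.Agent.MP_20b2fd_nt.H38
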