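import Pool.Agent.MP_20b2fd_nt.H38.SpecN

/-! The passage from harmonic weights to natural weights. -/

set_option autoImplicit false

namespace Pool.Agent.MP_20b2fd_nt.H38

open Finset Filter Topology
open scoped Real

namespace NlA

theorem tau_one {n : ℕ} (h : 1 ≤ n) : 1 ≤ tau n := by
  unfold tau
  exact_mod_cast card_pos.2 ⟨1, Nat.one_mem_divisors.2 (by omega)⟩

theorem tau_prime (a : ℕ) {p : ℕ} (h : p.Prime) : tau (a * p) ≤ 2 * tau a := by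
  unfold tau
  have := card_mul_le (s := a.divisors) (t := p.divisors)
  rw [← Nat.divisors_mul, h.divisors, card_pair h.one_lt.ne, mul_comm _ 2] at this
  exact_mod_cast this

theorem sum_tau (A : ℕ) : ∑ a ∈ Icc 1 A, tau a / a ≤ (1 + Real.log A) ^ 2 := by
  have h1 : ∑ d ∈ Icc 1 A, (d : ℝ)⁻¹ ≤ 1 + Real.log A := by
    have := harmonic_le_one_add_log A
    rw [harmonic_eq_sum_Icc] at this
    simpa using this
  refine le_trans ?_ (pow_le_pow_left₀ (by positivity) h1 2)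
  rw [sq, sum_mul_sum, ← sum_product']
  have e : ∑ a ∈ Icc 1 A, tau a / a = ∑ x ∈ ((Icc 1 A).sigma fun a => a.divisors).image
      fun x : (_ : ℕ) × ℕ => (x.2, x.1 / x.2), (x.1 : ℝ)⁻¹ * (x.2 : ℝ)⁻¹ := by
    rw [sum_image, sum_sigma]
    · refine sum_congr rfl fun a _ => ?_
      rw [sum_congr rfl (g := fun _ => (a : ℝ)⁻¹) fun d hd => by
        rw [← mul_inv, ← Nat.cast_mul, Nat.mul_div_cancel' (Nat.dvd_of_mem_divisors hd)]]
      simp [tau, div_eq_mul_inv]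
    · rintro ⟨a, d⟩ ha ⟨b, e⟩ hb h
      simp only [coe_sigma, Set.mem_sigma_iff, mem_coe, Nat.mem_divisors, Prod.mk.injEq] at ha hb h
      obtain ⟨rfl, h⟩ := h
      rw [← Nat.mul_div_cancel' ha.2.1, h, Nat.mul_div_cancel' hb.2.1]
  rw [e]
  refine sum_le_sum_of_subset_of_nonneg (fun y hy => ?_) fun _ _ _ => by positivity
  obtain ⟨⟨a, d⟩, hx, rfl⟩ := mem_image.1 hy
  simp only [mem_sigma, mem_Icc, Nat.mem_divisors, mem_product] at hx ⊢
  have := Nat.le_of_dvd hx.1.1 hx.2.1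
  have h0 := Nat.pos_of_dvd_of_pos hx.2.1 hx.1.1
  exact ⟨⟨h0, by omega⟩, Nat.div_pos this h0, (Nat.div_le_self _ _).trans hx.1.2⟩

theorem sum_sqrt {z : ℕ} (hz : 1 ≤ z) (Q : ℕ) :
    ∑ p ∈ Ioc z Q, 1 / ((p : ℝ) * √p) ≤ 2 / √z := by
  have key : ∀ n : ℕ, z ≤ n → ∑ p ∈ Ioc z n, 1 / ((p : ℝ) * √p) ≤ 2 / √z - 2 / √n := by
    intro n hn
    induction n, hn using Nat.le_induction with
    | base => simp
    | succ n hn ih =>
      rw [sum_Ioc_succ_top hn]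
      have n0 : (0 : ℝ) < n := by exact_mod_cast (by omega : 0 < n)
      have u0 := Real.sqrt_pos.2 n0
      have e1 := Real.mul_self_sqrt n0.le
      have e2 := Real.mul_self_sqrt (show (0 : ℝ) ≤ (n + 1 : ℕ) by positivity)
      have l : √n ≤ √(n + 1 : ℕ) := Real.sqrt_le_sqrt (by simp)
      generalize √(n : ℝ) = u at *
      generalize √((n + 1 : ℕ) : ℝ) = v at *
      have v0 : 0 < v := u0.trans_le l
      have : 1 / (((n + 1 : ℕ) : ℝ) * v) ≤ 2 / u - 2 / v := by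
        rw [← e2, div_sub_div _ _ u0.ne' v0.ne', div_le_div_iff₀ (by positivity) (by positivity)]
        push_cast at e2
        have e3 : (v - u) * (v + u) = 1 := by linarith
        have : u * (v + u) ≤ 2 * (v * v) := by nlinarith
        have h5 := mul_le_mul_of_nonneg_left this (mul_nonneg (sub_nonneg.2 l) v0.le)
        have h6 : (v - u) * v * (u * (v + u)) = u * v := by linear_combination (u * v) * e3
        linarith
      linarith
  rcases le_total z Q with h | h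
  · exact (key Q h).trans (sub_le_self _ (by positivity))
  · rw [Ioc_eq_empty h.not_gt, sum_empty]
    positivity

theorem cnt {s : Finset ℕ} {g : ℕ → ℝ} {b d X : ℕ} (hb : 1 ≤ b) (h2 : ∀ m, g m ≤ 2)
    (h1 : ∀ m, g m ≠ 0 → d ∣ m ∧ 1 ≤ m ∧ b * m ≤ X) : ∑ m ∈ s, g m ≤ 2 * X / b / d := by
  classical
  rw [← sum_filter_ne_zero]
  refine (sum_le_card_nsmul _ _ 2 fun m _ => h2 m).trans ?_
  have : (s.filter fun m => g m ≠ 0).card ≤ X / b / d := by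
    rw [← Nat.Ioc_filter_dvd_card_eq_div]
    refine card_le_card fun m hm => ?_
    obtain ⟨a1, a2, a3⟩ := h1 m (mem_filter.1 hm).2
    exact mem_filter.2 ⟨mem_Ioc.2 ⟨a2, (Nat.le_div_iff_mul_le hb).2 (by rwa [mul_comm])⟩, a1⟩
  have e : ((X / b / d : ℕ) : ℝ) ≤ X / b / d :=
    Nat.cast_div_le.trans (div_le_div_of_nonneg_right Nat.cast_div_le (Nat.cast_nonneg _))
  rw [nsmul_eq_mul, mul_div_assoc, mul_div_assoc, mul_comm]
  exact mul_le_mul_of_nonneg_left ((Nat.cast_le.2 this).trans e) zero_le_two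

theorem cs {g : ℕ} {ω u v : Fin g → ℝ} (h : ∀ f, 0 < ω f) (W : Finset (Fin g)) {s U V : ℝ}
    (hs : 0 < s) (hU : ∑ f, ω f * u f ^ 2 ≤ U) (hV : ∑ f, ω f * v f ^ 2 ≤ V) :
    -((s * U + V / s) / 2) ≤ ∑ f ∈ W, ω f * (u f * v f) := by
  have e1 := (sum_le_univ_sum_of_nonneg (s := W) fun f => mul_nonneg (h f).le (sq_nonneg (u f))).trans hU
  have e2 := (sum_le_univ_sum_of_nonneg (s := W) fun f => mul_nonneg (h f).le (sq_nonneg (v f))).trans hV
  refine le_trans (neg_le_neg (div_le_div_of_nonneg_right (add_le_add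
    (mul_le_mul_of_nonneg_left e1 hs.le) (div_le_div_of_nonneg_right e2 hs.le)) zero_le_two)) ?_
  rw [mul_sum, sum_div, ← sum_add_distrib, sum_div, ← sum_neg_distrib]
  refine sum_le_sum fun f _ => ?_
  have : 0 ≤ ω f * (s * u f + v f) ^ 2 / s / 2 := by have := h f; positivity
  refine (sub_nonneg.1 (this.trans_eq ?_))
  field_simp
  ring

variable {S : Sp} {N : ℕ} {C : ℝ}

theorem a_mul (h : S.Ok N C) (f : Fin S.g) {m n : ℕ} (hm : 1 ≤ m) (hn : 1 ≤ n) (c : m.Coprime n)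
    (c' : n.Coprime N) : S.a f (m * n) ^ 2 / (m * n : ℕ) = S.a f m ^ 2 / m * (S.a f n ^ 2 / n) := by
  have := h.hk f m n hm hn c'
  rw [Bh, c.gcd_eq_one] at this
  simp only [Nat.divisors_one, sum_singleton, Nat.cast_one, one_pow, Nat.div_one, one_mul] at this
  rw [← this, mul_pow, Nat.cast_mul, div_mul_div_comm]

theorem a_sq (h : S.Ok N C) (f : Fin S.g) {n : ℕ} (hn : 1 ≤ n) (c : n.Coprime N) :
    S.a f n ^ 2 / n = ∑ e ∈ n.divisors, S.a f (e ^ 2) / e := by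
  rw [sq, h.hk f n n hn hn c, Bh, Nat.gcd_self, sum_div,
    ← Nat.sum_div_divisors n fun e => S.a f (e ^ 2) / e]
  refine sum_congr rfl fun d hd => ?_
  obtain ⟨e, rfl⟩ := Nat.dvd_of_mem_divisors hd
  have d0 : 0 < d := Nat.pos_of_mem_divisors hd
  have d1 : (d : ℝ) ≠ 0 := by positivity
  rw [Nat.mul_div_cancel_left _ d0, show d * e * (d * e) = d ^ 2 * e ^ 2 by ring,
    Nat.mul_div_cancel_left _ (by positivity), Nat.cast_mul, mul_div_mul_left _ _ d1]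

theorem kap_nonneg (hK : KapS) {v : ℝ} (h : 0 ≤ v) : 0 ≤ kap v ∧ kap v ≤ 2 := by
  obtain ⟨c, C, -, -, hK⟩ := hK
  rcases h.eq_or_lt with rfl | h
  · simp [kap]
  · exact ⟨(hK v h).1.le, (hK v h).2.1⟩

theorem card_ge (hK : KapS) (h : S.Ok N C) (W : Finset (Fin S.g)) (T : Finset ℕ) :
    ∑ f ∈ W, S.ω f * ∑ n ∈ T, kap (n / N) * (S.a f n ^ 2 / n) ≤ W.card := by
  rw [card_eq_sum_ones, Nat.cast_sum]
  refine sum_le_sum fun f _ => ?_
  have p : ∀ n : ℕ, 0 ≤ S.ω f * (S.a f n ^ 2 / n) := fun n => by have := h.pos f; positivity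
  have k1 := fun n : ℕ => (kap_nonneg hK (Nat.cast_nonneg n)).1
  have k2 := fun n : ℕ => (kap_nonneg hK (v := n / N) (by positivity)).1
  rw [mul_sum, Nat.cast_one]
  refine le_trans (sum_le_sum fun n _ => ?_)
    (sum_le_hasSum T (fun n _ => mul_nonneg (p n) (add_nonneg (k1 n) (k2 n))) (h.rs f))
  nlinarith [mul_nonneg (p n) (k1 n)]

theorem kn_le (hK : KapS) : ∃ D : ℝ, 1 ≤ D ∧ ∀ (N k : ℕ) (T B : Finset ℕ), 1 ≤ N → 1 ≤ k →
    Icc 1 (k * N) ⊆ T ∪ B →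
    KN N ≤ ∑ n ∈ T, kap (n / N) + 2 * B.card + 2 * D * N / k ^ 2 := by
  have k0 := fun n N : ℕ => kap_nonneg hK (v := n / N) (by positivity)
  obtain ⟨c, D, -, D1, hK⟩ := hK
  refine ⟨D, D1, fun N k T B hN hk h => Real.tsum_le_of_sum_range_le (fun n => (k0 n N).1) fun n => ?_⟩
  have N0 : (0 : ℝ) < N := by exact_mod_cast hN
  have k1 : (0 : ℝ) < k := by exact_mod_cast hk
  have e1 : ∑ i ∈ range n, kap (i / N) ≤ ∑ i ∈ insert 0 (T ∪ B ∪ Ioo (k * N) n), kap (i / N) := by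
    refine sum_le_sum_of_subset_of_nonneg (fun i hi => ?_) fun i _ _ => (k0 i N).1
    rw [mem_insert, mem_union, mem_Ioo]
    by_cases h1 : i ∈ Icc 1 (k * N)
    · exact Or.inr (Or.inl (h h1))
    · rw [mem_Icc] at h1
      rw [mem_range] at hi
      omega
  have un : ∀ s t : Finset ℕ, ∑ i ∈ s ∪ t, kap (i / N) ≤ ∑ i ∈ s, kap (i / N) + ∑ i ∈ t, kap (i / N) :=
    fun s t => by
      rw [← sum_union_inter]
      exact le_add_of_nonneg_right (sum_nonneg fun i _ => (k0 i N).1)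
  rw [sum_insert_of_eq_zero_if_notMem fun _ => by simp [kap]] at e1
  have e2 : ∑ i ∈ B, kap (i / N) ≤ 2 * B.card :=
    (sum_le_card_nsmul _ _ 2 fun m _ => (k0 m N).2).trans_eq (by rw [nsmul_eq_mul, mul_comm])
  have e3 : ∑ i ∈ Ioo (k * N) n, kap (i / N) ≤ 2 * D * N / k ^ 2 := by
    have e4 := mul_le_mul_of_nonneg_left (sum_Ioo_inv_sq_le (α := ℝ) (k * N) n)
      (show 0 ≤ D * N ^ 2 / k by positivity)
    rw [mul_sum] at e4
    refine (sum_le_sum fun i hi => ?_).trans (e4.trans ?_)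
    · have i1 : (k : ℝ) * N ≤ i := by exact_mod_cast (mem_Ioo.1 hi).1.le
      have i0 : (0 : ℝ) < i := lt_of_lt_of_le (by positivity) i1
      refine (hK _ (by positivity)).2.2.1.trans ?_
      rw [div_pow, div_div_eq_mul_div, ← div_eq_mul_inv, div_div,
        div_le_div_iff₀ (by positivity) (by positivity)]
      nlinarith [mul_le_mul_of_nonneg_left i1 (show 0 ≤ D * N ^ 2 * i ^ 2 by positivity)]
    · push_cast
      rw [div_mul_div_comm, div_le_div_iff₀ (by positivity) (by positivity)]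
      nlinarith [show 0 ≤ D * N * k by positivity]
  linarith [un (T ∪ B) (Ioo (k * N) n), un T B]

open Classical in
/-- the weight of a triple -/
noncomputable def kk (η : ℝ) (Q N X a p m : ℕ) : ℝ :=
  if gd η Q (a, p, m) ∧ a * p * m ≤ X then kap ((a * p * m : ℕ) / N) else 0

variable {η : ℝ} {Q X a p m : ℕ}

theorem kk_le (hK : KapS) : 0 ≤ kk η Q N X a p m ∧ kk η Q N X a p m ≤ 2 := by
  unfold kk
  split_ifs
  · exact kap_nonneg hK (by positivity)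
  · norm_num

theorem kk_ne (h : kk η Q N X a p m ≠ 0) : gd η Q (a, p, m) ∧ a * p * m ≤ X :=
  by_contra fun e => h (if_neg e)

open Classical in
theorem sum_kk (h : Nl1S) (η : ℝ) (Q N X : ℕ) : ∃ T : Finset ℕ,
    (∀ F : ℕ → ℝ, ∑ n ∈ T, kap (n / N) * F n = ∑ a ∈ Icc 1 ⌊Real.exp (η ^ (-1 / 2 : ℝ))⌋₊,
      ∑ p ∈ Icc 1 Q, ∑ m ∈ Icc 1 X, kk η Q N X a p m * F (a * p * m)) ∧
    Icc 1 X ⊆ T ∪ (Icc 1 X).filter fun n => ¬ ∃ x, gd η Q x ∧ n = x.1 * x.2.1 * x.2.2 := by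
  refine ⟨((Icc 1 ⌊Real.exp (η ^ (-1 / 2 : ℝ))⌋₊ ×ˢ Icc 1 Q ×ˢ Icc 1 X).filter
    fun x => gd η Q x ∧ x.1 * x.2.1 * x.2.2 ≤ X).image fun x => x.1 * x.2.1 * x.2.2,
    fun F => ?_, fun n hn => ?_⟩
  · rw [sum_image fun x hx y hy e => h.1 η Q x y (mem_filter.1 hx).2.1 (mem_filter.1 hy).2.1 e,
      sum_filter, sum_product]
    refine sum_congr rfl fun a _ => ?_
    rw [sum_product]
    simp only [kk, ite_mul, zero_mul]
  · rw [mem_union, mem_filter, or_iff_not_imp_right]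
    intro e
    obtain ⟨x, hx, rfl⟩ := not_not.1 (not_and.1 e hn)
    refine mem_image_of_mem _ (mem_filter.2 ⟨?_, hx, (mem_Icc.1 hn).2⟩)
    obtain ⟨a1, a2, -, a3, -, a4, a5, -⟩ := hx
    simp only [mem_product, mem_Icc] at hn ⊢
    exact ⟨⟨a1, Nat.le_floor a2⟩, ⟨a3.one_le, by exact_mod_cast a4⟩, a5,
      (Nat.le_mul_of_pos_left _ (Nat.mul_pos a1 a3.pos)).trans hn.2⟩

theorem dec (h : S.Ok N C) (hN : N.Prime) (f : Fin S.g) (g : gd η Q (a, p, m)) {M : ℕ}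
    (hp : p < N) (hm : m ≤ M) (hM : M < N) :
    S.a f (a * p * m) ^ 2 / (a * p * m : ℕ) = S.a f a ^ 2 / a +
      S.a f a ^ 2 / a * (S.a f (p ^ 2) / p) + S.a f (a * p) ^ 2 / (a * p : ℕ) *
        ∑ d ∈ Icc 1 M, if d ∣ m ∧ d ≠ 1 then S.a f (d ^ 2) / d else 0 := by
  obtain ⟨a1, -, a2, a3, a4, -, a5, a6⟩ := g
  dsimp only at a1 a2 a3 a4 a5 a6
  have c1 : p.Coprime N := (Nat.coprime_of_lt_prime a3.ne_zero hp hN).symm
  have c2 : m.Coprime N := (Nat.coprime_of_lt_prime (by omega) (by omega) hN).symm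
  have c3 : a.Coprime p := (a3.coprime_iff_not_dvd.2 fun e => (a2 p a3 e).not_gt a4).symm
  have c4 : (a * p).Coprime m := Nat.Coprime.mul_left (Nat.coprime_of_dvd fun q hq e e' =>
    (a2 q hq e).not_gt (a4.trans (by exact_mod_cast a6 q hq e')))
    (a3.coprime_iff_not_dvd.2 fun e => (a6 p a3 e).false)
  have e : (m.divisors.erase 1) = (Icc 1 M).filter fun d => d ∣ m ∧ d ≠ 1 := by
    ext d
    simp only [mem_erase, Nat.mem_divisors, mem_filter, mem_Icc]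
    exact ⟨fun h => ⟨⟨Nat.pos_of_dvd_of_pos h.2.1 a5, (Nat.le_of_dvd a5 h.2.1).trans hm⟩, h.2.1, h.1⟩,
      fun h => ⟨h.2.2, h.2.1, by omega⟩⟩
  rw [a_mul h f (Nat.mul_pos a1 a3.pos) a5 c4 c2, a_sq h f a5 c2, ← sum_filter, ← e,
    ← add_sum_erase _ _ (Nat.one_mem_divisors.2 (by omega : m ≠ 0)), mul_add, add_left_inj,
    a_mul h f a1 a3.pos c3 c1, a_sq h f a3.pos c1, a3.sum_divisors, one_pow, h.one]
  push_cast
  ring

theorem dec' (h : S.Ok N C) (hN : N.Prime) (f : Fin S.g) (hp : p < N)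
    (hM : 1 / η ^ 6 < p → X / (a * p) < N) :
    ∑ m ∈ Icc 1 X, kk η Q N X a p m * (S.a f (a * p * m) ^ 2 / (a * p * m : ℕ)) =
      S.a f a ^ 2 / a * ∑ m ∈ Icc 1 X, kk η Q N X a p m +
      S.a f a ^ 2 / a * ((∑ m ∈ Icc 1 X, kk η Q N X a p m) * S.a f (p ^ 2) / p) +
      S.a f (a * p) ^ 2 / (a * p : ℕ) * ∑ d ∈ Icc 1 (X / (a * p)),
        (∑ m ∈ Icc 1 X, if d ∣ m ∧ d ≠ 1 then kk η Q N X a p m else 0) * S.a f (d ^ 2) / d := by
  simp only [mul_div_assoc]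
  simp only [sum_mul]
  rw [sum_comm, mul_sum, mul_sum, mul_sum, ← sum_add_distrib, ← sum_add_distrib]
  refine sum_congr rfl fun m _ => ?_
  by_cases e : kk η Q N X a p m = 0
  · simp [e]
  obtain ⟨g, l⟩ := kk_ne e
  rw [dec h hN f g hp ((Nat.le_div_iff_mul_le (Nat.mul_pos g.1 g.2.2.2.1.pos)).2
    (by rwa [mul_comm])) (hM g.2.2.2.2.1), mul_add, mul_add, mul_left_comm _ _ (∑ _ ∈ _, _), mul_sum]
  simp only [ite_mul, mul_ite, zero_mul, mul_zero]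
  ring

/-- the content of the mean value estimate -/
def LS (S : Sp) (N : ℕ) (D : ℝ) : Prop :=
  ∀ (M : ℕ) (P H : ℝ) (c : ℕ → ℝ), 1 ≤ P → 4 * M < N →
    (∀ d ∈ Icc 1 M, c d ≠ 0 → P < d ∧ |c d| ≤ H / d) →
    ∑ f, S.ω f * (∑ d ∈ Icc 1 M, c d * S.a f (d ^ 2) / d) ^ 2 ≤ D * H ^ 2 * (1 / P + M / N)

variable {D t : ℝ}

theorem t1 (hK : KapS) (h : S.Ok N C) (W : Finset (Fin S.g)) (ls : LS S N D) (D0 : 0 ≤ D)
    (ht : 1 ≤ t) (e : 1 / η ^ 6 = t ^ 12) (ha : 1 ≤ a) (X0 : 1 ≤ X) (hX : (X : ℝ) ≤ 2 * t * N)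
    (hQ : 4 * Q < N) (hQ' : Q * t ^ 12 ≤ N)
    (h4 : ∑ f, S.ω f * (S.a f a ^ 2 / a) ^ 2 ≤ 2 * tau a) :
    -(4 * (1 + D) * N / t ^ 5 * (tau a / a)) ≤ ∑ f ∈ W, S.ω f * (S.a f a ^ 2 / a *
      ∑ p ∈ Icc 1 Q, (∑ m ∈ Icc 1 X, kk η Q N X a p m) * S.a f (p ^ 2) / p) := by
  have a0 : (0 : ℝ) < a := by exact_mod_cast ha
  have x0 : (0 : ℝ) < X := by exact_mod_cast X0
  have N0 : (0 : ℝ) < N := by exact_mod_cast (by omega : 0 < N)
  have t0 : 0 < t := by linarith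
  have := ls Q (t ^ 12) (2 * X / a) (fun p => ∑ m ∈ Icc 1 X, kk η Q N X a p m)
    (one_le_pow₀ ht) hQ fun p hp h0 => by
      obtain ⟨m, -, hm⟩ := exists_ne_zero_of_sum_ne_zero h0
      refine ⟨e ▸ (kk_ne hm).1.2.2.2.2.1, ?_⟩
      rw [abs_of_nonneg (sum_nonneg fun _ _ => (kk_le hK).1)]
      refine (cnt (d := 1) (X := X) (Nat.mul_pos ha (mem_Icc.1 hp).1) (fun _ => (kk_le hK).2)
        fun m hm => ⟨one_dvd _, (kk_ne hm).1.2.2.2.2.2.2.1, (kk_ne hm).2⟩).trans_eq ?_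
      rw [Nat.cast_one, div_one, Nat.cast_mul, div_div]
  have l : D * (2 * X / a) ^ 2 * (1 / t ^ 12 + Q / N) ≤ D * (2 * X / a) ^ 2 * (2 / t ^ 12) := by
    refine mul_le_mul_of_nonneg_left ?_ (by positivity)
    have : (Q : ℝ) / N ≤ 1 / t ^ 12 := by
      rw [div_le_div_iff₀ N0 (by positivity)]
      linarith
    rw [show 2 / t ^ 12 = 1 / t ^ 12 + 1 / t ^ 12 by ring]
    linarith
  refine le_trans (neg_le_neg ?_) (cs h.pos W (s := 2 * X / a / t ^ 6) (by positivity) h4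
    (this.trans l))
  have e1 : (2 * X / a / t ^ 6 * (2 * tau a) + D * (2 * X / a) ^ 2 * (2 / t ^ 12) /
      (2 * X / a / t ^ 6)) / 2 = 2 * X * (tau a + D) / (a * t ^ 6) := by
    field_simp
  have e2 : 4 * (1 + D) * N / t ^ 5 * (tau a / a) =
      2 * (2 * t * N) * (tau a + D * tau a) / (a * t ^ 6) := by
    field_simp
    ring
  have := tau_one ha
  rw [e1, e2]
  gcongr
  exact le_mul_of_one_le_right D0 this

theorem t2 (hK : KapS) (h : S.Ok N C) (W : Finset (Fin S.g)) (ls : LS S N D) (D0 : 0 ≤ D)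
    (ht : 1 ≤ t) (ha : 1 ≤ a) (hp : p.Prime) (X0 : 1 ≤ X) (hX : (X : ℝ) ≤ 2 * t * N)
    (hM : 4 * (X / (a * p)) < N)
    (h4 : ∑ f, S.ω f * (S.a f (a * p) ^ 2 / (a * p : ℕ)) ^ 2 ≤ 2 * tau (a * p)) :
    -(8 * (1 + D) * N * t ^ 2 * (tau a / a) * (1 / (p * √p))) ≤
      ∑ f ∈ W, S.ω f * (S.a f (a * p) ^ 2 / (a * p : ℕ) * ∑ d ∈ Icc 1 (X / (a * p)),
        (∑ m ∈ Icc 1 X, if d ∣ m ∧ d ≠ 1 then kk η Q N X a p m else 0) * S.a f (d ^ 2) / d) := by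
  have a0 : (0 : ℝ) < a := by exact_mod_cast ha
  have x0 : (0 : ℝ) < X := by exact_mod_cast X0
  have N0 : (0 : ℝ) < N := by exact_mod_cast (by omega : 0 < N)
  have t0 : 0 < t := by linarith
  have p0 : (0 : ℝ) < p := by exact_mod_cast hp.pos
  have := ls (X / (a * p)) p (2 * X / (a * p : ℕ))
    (fun d => ∑ m ∈ Icc 1 X, if d ∣ m ∧ d ≠ 1 then kk η Q N X a p m else 0)
    (by exact_mod_cast hp.one_le) hM fun d hd h0 => by
      obtain ⟨m, -, hm⟩ := exists_ne_zero_of_sum_ne_zero h0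
      obtain ⟨b1, b2⟩ := ite_ne_right_iff.1 hm
      refine ⟨?_, ?_⟩
      · exact_mod_cast ((kk_ne b2).1.2.2.2.2.2.2.2 _ (Nat.minFac_prime b1.2)
          ((Nat.minFac_dvd d).trans b1.1)).trans_le (Nat.minFac_le (mem_Icc.1 hd).1)
      rw [abs_of_nonneg (sum_nonneg fun _ _ => by split_ifs; exacts [(kk_le hK).1, le_rfl])]
      refine cnt (Nat.mul_pos ha hp.pos) (fun _ => by split_ifs; exacts [(kk_le hK).2, zero_le_two])
        fun m hm => ?_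
      obtain ⟨b1, b2⟩ := ite_ne_right_iff.1 hm
      exact ⟨b1.1, (kk_ne b2).1.2.2.2.2.2.2.1, (kk_ne b2).2⟩
  have l : D * (2 * X / (a * p : ℕ)) ^ 2 * (1 / p + (X / (a * p) : ℕ) / N) ≤
      D * (2 * X / (a * p : ℕ)) ^ 2 * (4 * t ^ 2 / p) := by
    refine mul_le_mul_of_nonneg_left ?_ (by positivity)
    have e1 : ((X / (a * p) : ℕ) : ℝ) ≤ 2 * t * N / p :=
      (Nat.cast_le.2 (Nat.div_le_div_left (Nat.le_mul_of_pos_left p ha) hp.pos)).trans
        (Nat.cast_div_le.trans (by gcongr))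
    have e2 : ((X / (a * p) : ℕ) : ℝ) / N ≤ 2 * t / p := by
      rwa [div_le_iff₀ N0, div_mul_eq_mul_div]
    refine (add_le_add_right e2 _).trans ?_
    rw [← add_div]
    gcongr
    nlinarith
  have r0 := Real.sqrt_pos.2 p0
  refine le_trans (neg_le_neg ?_) (cs h.pos W (s := 2 * X / (a * p : ℕ) * t / √p)
    (by push_cast; positivity) (h4.trans (mul_le_mul_of_nonneg_left (tau_prime a hp) zero_le_two))
    (this.trans l))
  have r1 := Real.mul_self_sqrt p0.le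
  push_cast
  generalize √(p : ℝ) = r at *
  rw [← r1]
  have e1 : (2 * X / (a * (r * r)) * t / r * (2 * (2 * tau a)) + D * (2 * X / (a * (r * r))) ^ 2 *
      (4 * t ^ 2 / (r * r)) / (2 * X / (a * (r * r)) * t / r)) / 2 =
      4 * X * t * (tau a + D) / (a * r ^ 3) := by
    field_simp
    ring
  have e2 : 8 * (1 + D) * N * t ^ 2 * (tau a / a) * (1 / (r * r * r)) =
      4 * (2 * t * N) * t * (tau a + D * tau a) / (a * r ^ 3) := by
    field_simp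
    ring
  have := tau_one ha
  rw [e1, e2]
  gcongr
  exact le_mul_of_one_le_right D0 this

/-- the estimate for one value of the smooth part -/
theorem row (hK : KapS) (h : S.Ok N C) (hN : N.Prime) (W : Finset (Fin S.g)) (ls : LS S N D)
    (D0 : 0 ≤ D) (ht : 1 ≤ t) (ht2 : 2 ≤ t ^ 2) (e : 1 / η ^ 6 = t ^ 12) (ha : 1 ≤ a) (X0 : 1 ≤ X)
    (hX : (X : ℝ) ≤ 2 * t * N) (hQ : 4 * Q < N) (hQ' : Q * t ^ 12 ≤ N) {μ : ℝ}
    (hμ : μ * a ≤ ∑ f ∈ W, S.ω f * S.a f a ^ 2)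
    (h4 : ∑ f, S.ω f * (S.a f a ^ 2 / a) ^ 2 ≤ 2 * tau a)
    (h5 : ∀ p ∈ Icc 1 Q, ∑ f, S.ω f * (S.a f (a * p) ^ 2 / (a * p : ℕ)) ^ 2 ≤ 2 * tau (a * p)) :
    μ * ∑ p ∈ Icc 1 Q, ∑ m ∈ Icc 1 X, kk η Q N X a p m - 36 * (1 + D) * N / t ^ 4 * (tau a / a) ≤
      ∑ f ∈ W, S.ω f * ∑ p ∈ Icc 1 Q, ∑ m ∈ Icc 1 X,
        kk η Q N X a p m * (S.a f (a * p * m) ^ 2 / (a * p * m : ℕ)) := by
  have a0 : (0 : ℝ) < a := by exact_mod_cast ha
  have t0 : 0 < t := by linarith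
  have N0 : (0 : ℝ) < N := by exact_mod_cast hN.pos
  have t10 : 32 ≤ t ^ 10 := by
    have := pow_le_pow_left₀ zero_le_two ht2 5
    rw [← pow_mul] at this
    norm_num at this ⊢
    exact this
  have t12 : 32 * t ≤ t ^ 12 := by
    have : t ^ 12 = t ^ 10 * t * t := by ring
    nlinarith [mul_le_mul_of_nonneg_right t10 t0.le]
  have hM : ∀ p : ℕ, 1 / η ^ 6 < p → 4 * (X / (a * p)) < N := fun p hp => by
    rw [e] at hp
    have p0 : (0 : ℝ) < p := lt_of_le_of_lt (by positivity) hp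
    have p1 : 0 < p := by exact_mod_cast p0
    have e1 : ((X / (a * p) : ℕ) : ℝ) ≤ X / p :=
      (Nat.cast_le.2 (Nat.div_le_div_left (Nat.le_mul_of_pos_left p ha) p1)).trans Nat.cast_div_le
    rw [le_div_iff₀ p0] at e1
    rw [← Nat.cast_lt (α := ℝ), Nat.cast_mul]
    generalize ((X / (a * p) : ℕ) : ℝ) = y at e1
    by_contra l
    push_cast at l
    nlinarith [mul_le_mul_of_nonneg_right (not_lt.1 l) p0.le, mul_pos t0 N0,
      mul_lt_mul_of_pos_left (t12.trans_lt hp) N0]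
  have z1 : 1 ≤ ⌊t ^ 12⌋₊ := Nat.le_floor (by simpa using one_le_pow₀ ht)
  have z2 : 2 / √(⌊t ^ 12⌋₊ : ℝ) ≤ 4 / t ^ 6 := by
    have : t ^ 6 / 2 ≤ √(⌊t ^ 12⌋₊ : ℝ) := Real.le_sqrt_of_sq_le (by
      have := Nat.lt_floor_add_one (t ^ 12)
      nlinarith)
    rw [div_le_div_iff₀ (lt_of_lt_of_le (by positivity) this) (by positivity)]
    linarith
  have τ0 : 0 ≤ tau a / a := div_nonneg (zero_le_one.trans (tau_one ha)) a0.le
  have s2 : -(32 * (1 + D) * N / t ^ 4 * (tau a / a)) ≤ ∑ p ∈ Icc 1 Q,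
      ∑ f ∈ W, S.ω f * (S.a f (a * p) ^ 2 / (a * p : ℕ) * ∑ d ∈ Icc 1 (X / (a * p)),
        (∑ m ∈ Icc 1 X, if d ∣ m ∧ d ≠ 1 then kk η Q N X a p m else 0) * S.a f (d ^ 2) / d) := by
    have b := mul_le_mul_of_nonneg_left ((sum_sqrt z1 Q).trans z2)
      (show 0 ≤ 8 * (1 + D) * N * t ^ 2 * (tau a / a) by positivity)
    rw [show 8 * (1 + D) * N * t ^ 2 * (tau a / a) * (4 / t ^ 6) =
      32 * (1 + D) * N / t ^ 4 * (tau a / a) by field_simp; ring, mul_sum] at b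
    refine (neg_le_neg b).trans ?_
    rw [← sum_neg_distrib, show Ioc ⌊t ^ 12⌋₊ Q = (Icc 1 Q).filter (⌊t ^ 12⌋₊ < ·) by
      ext p
      simp only [mem_Ioc, mem_filter, mem_Icc]
      omega, sum_filter]
    refine sum_le_sum fun p hp => ?_
    by_cases c : p.Prime ∧ 1 / η ^ 6 < p
    · rw [if_pos ((Nat.floor_lt (by positivity)).2 (e ▸ c.2))]
      exact t2 hK h W ls D0 ht ha c.1 X0 hX (hM p c.2) (h5 p hp)
    · have : ∀ m, kk η Q N X a p m = 0 := fun m => by_contra fun l =>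
        c ⟨(kk_ne l).1.2.2.2.1, (kk_ne l).1.2.2.2.2.1⟩
      simp only [this, ite_self, sum_const_zero, zero_mul, zero_div, mul_zero]
      split_ifs
      · exact neg_nonpos.2 (by positivity)
      · rfl
  have s1 := t1 hK h W ls D0 ht e ha X0 hX hQ hQ' h4
  have s0 : μ * ∑ p ∈ Icc 1 Q, ∑ m ∈ Icc 1 X, kk η Q N X a p m ≤ ∑ f ∈ W, S.ω f *
      (S.a f a ^ 2 / a * ∑ p ∈ Icc 1 Q, ∑ m ∈ Icc 1 X, kk η Q N X a p m) := by
    simp only [← mul_assoc, ← mul_div_assoc]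
    rw [← sum_mul, ← sum_div]
    exact mul_le_mul_of_nonneg_right ((le_div_iff₀ a0).2 hμ)
      (sum_nonneg fun _ _ => sum_nonneg fun _ _ => (kk_le hK).1)
  have s3 : 4 * (1 + D) * N / t ^ 5 * (tau a / a) ≤ 4 * (1 + D) * N / t ^ 4 * (tau a / a) := by
    gcongr
    norm_num
  rw [sum_comm] at s2
  have s4 : 36 * (1 + D) * N / t ^ 4 * (tau a / a) = 4 * (1 + D) * N / t ^ 4 * (tau a / a) +
    32 * (1 + D) * N / t ^ 4 * (tau a / a) := by ring
  refine le_trans (by linarith) ((add_le_add (add_le_add s0 s1) s2).trans_eq ?_)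
  rw [← sum_add_distrib, ← sum_add_distrib]
  refine sum_congr rfl fun f _ => ?_
  rw [sum_congr rfl fun p hp => dec' (Q := Q) h hN f (by have := (mem_Icc.1 hp).2; omega)
    fun l => by have := hM p l; omega, sum_add_distrib, sum_add_distrib, ← mul_sum, ← mul_sum,
    ← mul_sum, mul_add, mul_add]

end NlA

open NlA in
theorem nlOf : NlOf := by
  classical
  intro hK ⟨⟨c0, C0, c1, hN⟩, _⟩ h1 h2 C hC
  obtain ⟨D1, d1, k1⟩ := kn_le hK
  obtain ⟨D2, d2, k2⟩ := h1.2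
  obtain ⟨⟨D, d, k3⟩, k4⟩ := h2 C hC
  choose! n0 k4 using k4
  have C1 : 0 ≤ |C0| := abs_nonneg _
  refine ⟨2 * |C0| + 4 * D2 + 2 * D1 + 144 * (1 + D), by linarith, fun η η0 η1 => ?_⟩
  rcases lt_or_ge (1 / 2) η with l | l
  · refine ⟨1, fun N S W μ N1 _ _ μ0 μ1 _ => ?_⟩
    obtain ⟨-, a1, a2⟩ := hN N N1
    have N0 : (0 : ℝ) ≤ N := Nat.cast_nonneg _
    have := mul_le_of_le_one_left ((mul_nonneg c1.le N0).trans a1) μ1
    have := mul_le_mul_of_nonneg_right (le_abs_self C0) N0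
    have := mul_le_mul_of_nonneg_right (show |C0| ≤
      (2 * |C0| + 4 * D2 + 2 * D1 + 144 * (1 + D)) * η by nlinarith) N0
    have : (0 : ℝ) ≤ W.card := Nat.cast_nonneg _
    linarith
  obtain ⟨Q, X₀, k2⟩ := k2 η η0 η1
  obtain ⟨t, ht⟩ : ∃ t, t = η ^ (-1 / 2 : ℝ) := ⟨_, rfl⟩
  have t0 : 0 < t := ht ▸ Real.rpow_pos_of_pos η0 _
  have e : η = 1 / t ^ 2 := by
    rw [ht, ← Real.rpow_natCast, ← Real.rpow_mul η0.le]
    norm_num [Real.rpow_neg_one]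
  have t2 : 2 ≤ t ^ 2 := by
    rw [e, div_le_div_iff₀ (by positivity) (by positivity)] at l
    linarith
  have t1 : 1 ≤ t := by nlinarith
  have e6 : 1 / η ^ 6 = t ^ 12 := by
    rw [e]
    field_simp
  refine ⟨X₀ + 4 * Q + 1 + ⌈Q * t ^ 12⌉₊ +
    (Icc 1 (⌊Real.exp t⌋₊ * (Q + 1))).sup n0, fun N S W μ N1 hp h μ0 μ1 hμ => ?_⟩
  have N0 : (0 : ℝ) < N := by exact_mod_cast hp.pos
  have kt : t ≤ ⌈t⌉₊ := Nat.le_ceil t
  have kt' : (⌈t⌉₊ : ℝ) ≤ 2 * t := by linarith [Nat.ceil_lt_add_one t0.le]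
  have k0 : 1 ≤ ⌈t⌉₊ := Nat.ceil_pos.2 t0
  generalize ⌈t⌉₊ = k at kt kt' k0
  have hX : ((k * N : ℕ) : ℝ) ≤ 2 * t * N := by
    push_cast
    gcongr
  have NX : N ≤ k * N := Nat.le_mul_of_pos_left _ k0
  obtain ⟨T, b1, b2⟩ := sum_kk h1 η Q N (k * N)
  rw [← ht] at b1 hμ
  have k5 : ∀ n, 1 ≤ n → n ≤ ⌊Real.exp t⌋₊ * (Q + 1) →
      ∑ f, S.ω f * (S.a f n ^ 2 / n) ^ 2 ≤ 2 * tau n := fun n a1 a2 =>
    k4 n a1 N S ((le_sup (f := n0) (mem_Icc.2 ⟨a1, a2⟩)).trans (by omega)) hp h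
  have r := sum_le_sum fun a (ha : a ∈ Icc 1 ⌊Real.exp t⌋₊) =>
    row (η := η) (Q := Q) (X := k * N) hK h hp W (fun M P H c => k3 N M S P H c h)
      (zero_le_one.trans d) t1 t2 e6 (mem_Icc.1 ha).1 (by have := hp.pos; omega) hX (by omega)
      (Nat.ceil_le.1 (by omega))
      (hμ a (mem_Icc.1 ha).1 ((Nat.le_floor_iff (Real.exp_pos t).le).1 (mem_Icc.1 ha).2))
      (k5 a (mem_Icc.1 ha).1 ((mem_Icc.1 ha).2.trans (Nat.le_mul_of_pos_right _ Q.succ_pos)))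
      fun p hp => k5 _ (Nat.mul_pos (mem_Icc.1 ha).1 (mem_Icc.1 hp).1)
        (Nat.mul_le_mul (mem_Icc.1 ha).2 ((mem_Icc.1 hp).2.trans Q.le_succ))
  have r1 := card_ge hK h W T
  have r2 := b1 fun _ => 1
  simp only [mul_one] at r2
  rw [sum_sub_distrib, ← mul_sum, ← mul_sum, ← r2, sum_comm] at r
  simp only [← mul_sum] at r
  simp only [b1] at r1
  have r3 := k1 N k T _ hp.one_le k0 b2
  have r4 := k2 (k * N) (by omega)
  have r5 : ∑ a ∈ Icc 1 ⌊Real.exp t⌋₊, tau a / a ≤ 4 * t ^ 2 := by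
    have z : (1 : ℝ) ≤ ⌊Real.exp t⌋₊ := by
      exact_mod_cast Nat.le_floor (by simpa using t0.le : ((1 : ℕ) : ℝ) ≤ Real.exp t)
    have : Real.log ⌊Real.exp t⌋₊ ≤ t :=
      (Real.log_le_iff_le_exp (by linarith)).2 (Nat.floor_le (Real.exp_pos t).le)
    refine (sum_tau _).trans ?_
    nlinarith [Real.log_nonneg z]
  have r6 : 36 * (1 + D) * N / t ^ 4 * ∑ a ∈ Icc 1 ⌊Real.exp t⌋₊, tau a / a ≤
      144 * (1 + D) * η * N := by
    refine (mul_le_mul_of_nonneg_left r5 (by positivity)).trans_eq ?_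
    rw [e]
    field_simp
    ring
  have r7 : 2 * D1 * N / k ^ 2 ≤ 2 * D1 * η * N := by
    rw [e, mul_right_comm _ (1 / t ^ 2), mul_one_div]
    gcongr
  have r8 : D2 * η ^ 2 * (k * N : ℕ) ≤ 2 * D2 * η * N := by
    have : η * t ≤ 1 := by
      rw [e, one_div_mul_eq_div, div_le_one (by positivity)]
      nlinarith
    refine (mul_le_mul_of_nonneg_left hX (by positivity)).trans ?_
    nlinarith [mul_le_mul_of_nonneg_left this (show 0 ≤ 2 * D2 * η * N by positivity)]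
  have r9 : KN N - (4 * D2 * η * N + 2 * D1 * η * N) ≤ ∑ n ∈ T, kap (n / N) := by linarith
  have := mul_le_mul_of_nonneg_left r9 μ0
  have := mul_le_of_le_one_left (show 0 ≤ 4 * D2 * η * N + 2 * D1 * η * N by positivity) μ1
  have : 0 ≤ |C0| * η * N := by positivity
  linarith

end Pool.Agent.MP_20b2fd_nt.H38
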