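import Pool.Agent.MP_20b2fd_nt.H38.SpecN

/-! Almost every integer is a small smooth number times a medium prime times a rough number. -/

set_option autoImplicit false

namespace Pool.Agent.MP_20b2fd_nt.H38

open Finset

namespace Nl1A

theorem dvd_of (z : ℝ) (a p b a' p' b' : ℕ) (h3 : ∀ q : ℕ, q.Prime → q ∣ a → (q : ℝ) ≤ z)
    (g4 : p'.Prime) (g5 : z < (p' : ℝ)) (g8 : ∀ q : ℕ, q.Prime → q ∣ b' → p' < q)
    (h : a * p * b = a' * p' * b') : a ∣ a' := by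
  have hc : Nat.Coprime a (p' * b') := by
    apply Nat.coprime_of_dvd
    intro q hq hqa hqn
    have h1 := h3 q hq hqa
    rcases (Nat.Prime.dvd_mul hq).1 hqn with h2 | h2
    · have := (Nat.prime_dvd_prime_iff_eq hq g4).1 h2
      subst this
      linarith
    · have h4 := g8 q hq h2
      have : (p' : ℝ) < q := by exact_mod_cast h4
      linarith
  apply hc.dvd_of_dvd_mul_right
  rw [← mul_assoc, ← h, mul_assoc]
  exact dvd_mul_right _ _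

theorem le_of (p b p' b' : ℕ) (h4 : p.Prime) (g4 : p'.Prime)
    (g8 : ∀ q : ℕ, q.Prime → q ∣ b' → p' < q) (h : p * b = p' * b') : p' ≤ p := by
  have h1 : p ∣ p' * b' := h ▸ dvd_mul_right _ _
  rcases (Nat.Prime.dvd_mul h4).1 h1 with h2 | h2
  · exact ((Nat.prime_dvd_prime_iff_eq h4 g4).1 h2).ge
  · exact (g8 p h4 h2).le

theorem uniq (η Q : ℝ) (x y : ℕ × ℕ × ℕ) (hx : gd η Q x) (hy : gd η Q y)
    (h : x.1 * x.2.1 * x.2.2 = y.1 * y.2.1 * y.2.2) : x = y := by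
  obtain ⟨a, p, b⟩ := x
  obtain ⟨a', p', b'⟩ := y
  obtain ⟨h1, -, h3, h4, h5, -, -, h8⟩ := hx
  obtain ⟨-, -, g3, g4, g5, -, -, g8⟩ := hy
  dsimp only at h h1 h3 h4 h5 h8 g3 g4 g5 g8
  have e1 : a = a' := Nat.dvd_antisymm (dvd_of _ a p b a' p' b' h3 g4 g5 g8 h)
    (dvd_of _ a' p' b' a p b g3 h4 h5 h8 h.symm)
  subst e1
  have e2 : p * b = p' * b' := by
    rw [mul_assoc, mul_assoc] at h
    exact Nat.eq_of_mul_eq_mul_left h1 h
  have e3 : p = p' := le_antisymm (le_of p' b' p b g4 h4 h8 e2.symm) (le_of p b p' b' h4 g4 g8 e2)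
  subst e3
  have e4 : b = b' := Nat.eq_of_mul_eq_mul_left h4.pos e2
  subst e4
  rfl

theorem split (z : ℝ) (n : ℕ) (hn : n ≠ 0) : ∃ a b : ℕ, n = a * b ∧
    (∀ q : ℕ, q.Prime → q ∣ a → (q : ℝ) ≤ z) ∧ ∀ q : ℕ, q.Prime → q ∣ b → z < q := by
  induction n using induction_on_primes with
  | zero => exact absurd rfl hn
  | one =>
    exact ⟨1, 1, rfl, fun q hq h => absurd (Nat.dvd_one.1 h) hq.ne_one,
      fun q hq h => absurd (Nat.dvd_one.1 h) hq.ne_one⟩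
  | prime_mul p m hp ih =>
    obtain ⟨a, b, e, h1, h2⟩ := ih (right_ne_zero_of_mul hn)
    by_cases hz : (p : ℝ) ≤ z
    · refine ⟨p * a, b, by rw [e, mul_assoc], fun q hq h => ?_, h2⟩
      rcases (Nat.Prime.dvd_mul hq).1 h with h3 | h3
      · rw [(Nat.prime_dvd_prime_iff_eq hq hp).1 h3]
        exact hz
      · exact h1 q hq h3
    · refine ⟨a, p * b, by rw [e]; ring, h1, fun q hq h => ?_⟩
      rcases (Nat.Prime.dvd_mul hq).1 h with h3 | h3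
      · rw [(Nat.prime_dvd_prime_iff_eq hq hp).1 h3]
        exact not_le.1 hz
      · exact h2 q hq h3

/-- the trichotomy for a number without a good factorisation -/
theorem bad (η Q : ℝ) (S : Finset ℕ)
    (hS : ∀ p ∈ S, p.Prime ∧ 1 / η ^ 6 < (p : ℝ) ∧ (p : ℝ) ≤ Q) (n : ℕ) (hn : n ≠ 0)
    (hb : ¬ ∃ x, gd η Q x ∧ n = x.1 * x.2.1 * x.2.2) :
    (∏ p ∈ S, p).Coprime n ∨ (∃ m : ℕ, 1 / η ^ 6 < (m : ℝ) ∧ m ^ 2 ∣ n) ∨
      ∃ a : ℕ, (∀ q : ℕ, q.Prime → q ∣ a → (q : ℝ) ≤ 1 / η ^ 6) ∧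
        Real.exp (η ^ (-1 / 2 : ℝ)) < a ∧ a ∣ n := by
  by_contra hcon
  push Not at hcon
  obtain ⟨c1, c2, c3⟩ := hcon
  obtain ⟨a, b, e, h1, h2⟩ := split (1 / η ^ 6) n hn
  have ha0 : a ≠ 0 := by
    rintro rfl
    exact hn (by rw [e, zero_mul])
  have hb0 : b ≠ 0 := by
    rintro rfl
    exact hn (by rw [e, mul_zero])
  have ha : (a : ℝ) ≤ Real.exp (η ^ (-1 / 2 : ℝ)) := by
    by_contra h
    exact c3 a h1 (not_le.1 h) (e ▸ dvd_mul_right _ _)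
  obtain ⟨q, hqS, hqn⟩ : ∃ q ∈ S, q ∣ n := by
    by_contra h
    push Not at h
    exact c1 (Nat.Coprime.prod_left fun p hp =>
      (Nat.Prime.coprime_iff_not_dvd (hS p hp).1).2 (h p hp))
  obtain ⟨hq, hq1, hq2⟩ := hS q hqS
  have hqb : q ∣ b := by
    rw [e] at hqn
    rcases (Nat.Prime.dvd_mul hq).1 hqn with h | h
    · exact absurd (h1 q hq h) (not_le.2 hq1)
    · exact h
  have hb1 : b ≠ 1 := by
    rintro rfl
    exact hq.ne_one (Nat.dvd_one.1 hqb)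
  have hp := Nat.minFac_prime hb1
  obtain ⟨c, hc⟩ := Nat.minFac_dvd b
  have hc0 : c ≠ 0 := by
    rintro rfl
    exact hb0 (by rw [hc, mul_zero])
  have hpz := h2 _ hp (Nat.minFac_dvd b)
  refine hb ⟨(a, b.minFac, c), ⟨Nat.pos_of_ne_zero ha0, ha, h1, hp, hpz, ?_,
    Nat.pos_of_ne_zero hc0, ?_⟩, ?_⟩
  · have h3 : b.minFac ≤ q := Nat.minFac_le_of_dvd hq.two_le hqb
    have h4 : (b.minFac : ℝ) ≤ q := by exact_mod_cast h3
    exact h4.trans hq2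
  · intro r hr hrc
    dsimp only at hrc ⊢
    have h3 : b.minFac ≤ r := Nat.minFac_le_of_dvd hr.two_le (hc ▸ Dvd.dvd.mul_left hrc _)
    refine lt_of_le_of_ne h3 fun h4 => c2 b.minFac hpz ?_
    rw [← h4] at hrc
    obtain ⟨d, hd⟩ := hrc
    refine ⟨a * d, ?_⟩
    calc n = a * (b.minFac * c) := by rw [e, ← hc]
      _ = a * (b.minFac * (b.minFac * d)) := by rw [← hd]
      _ = _ := by ring
  · dsimp only
    rw [mul_assoc, ← hc, e]

theorem card_mult (X m : ℕ) : (((Icc 1 X).filter fun n => m ∣ n).card : ℝ) ≤ X / m := by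
  have h : Icc 1 X = Ioc 0 X := by
    ext n
    simp only [mem_Icc, mem_Ioc]
    omega
  rw [h, Nat.Ioc_filter_dvd_card_eq_div]
  exact Nat.cast_div_le

theorem card_cop (S : Finset ℕ) (hS : ∀ p ∈ S, p.Prime) (X : ℕ) :
    (((Icc 1 X).filter fun n => (∏ p ∈ S, p).Coprime n).card : ℝ) ≤
      Real.exp (-∑ p ∈ S, (1 : ℝ) / p) * X + (∏ p ∈ S, p : ℕ) := by
  set P := ∏ p ∈ S, p with hP
  have hP0 : P ≠ 0 := prod_ne_zero_iff.2 fun p hp => (hS p hp).ne_zero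
  have hPr : (0 : ℝ) < P := by exact_mod_cast Nat.pos_of_ne_zero hP0
  have h : Icc 1 X = Ico 1 (1 + X) := by
    ext n
    simp only [mem_Icc, mem_Ico]
    omega
  have h1 := Nat.Ico_filter_coprime_le 1 X hP0
  rw [h]
  have h2 : (((Ico 1 (1 + X)).filter fun n => P.Coprime n).card : ℝ) ≤
      (P.totient : ℝ) * ((X / P : ℕ) + 1) := by exact_mod_cast h1
  have h3 : ((X / P : ℕ) : ℝ) ≤ X / P := Nat.cast_div_le
  have h4 : (P.totient : ℝ) = P * ∏ p ∈ S, (1 - (p : ℝ)⁻¹) := by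
    have h5 := Nat.totient_eq_mul_prod_factors P
    rw [hP, Nat.primeFactors_prod hS, ← hP] at h5
    have h6 := congrArg (fun x : ℚ => (x : ℝ)) h5
    simpa using h6
  have h5 : ∏ p ∈ S, (1 - (p : ℝ)⁻¹) ≤ Real.exp (-∑ p ∈ S, (1 : ℝ) / p) := by
    rw [← sum_neg_distrib, Real.exp_sum]
    refine prod_le_prod (fun p hp => ?_) fun p _ => ?_
    · have h7 : (1 : ℝ) ≤ p := by exact_mod_cast (hS p hp).one_le
      exact sub_nonneg.2 (inv_le_one_of_one_le₀ h7)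
    · have h7 := Real.add_one_le_exp (-(1 / (p : ℝ)))
      rw [one_div] at h7 ⊢
      linarith
  have h6 : (P.totient : ℝ) ≤ P := by exact_mod_cast Nat.totient_le P
  have h7 : (P.totient : ℝ) * (X / P) ≤ Real.exp (-∑ p ∈ S, (1 : ℝ) / p) * X := by
    rw [h4]
    calc (P : ℝ) * (∏ p ∈ S, (1 - (p : ℝ)⁻¹)) * (X / P) = (∏ p ∈ S, (1 - (p : ℝ)⁻¹)) * X := by
          field_simp
      _ ≤ _ := mul_le_mul_of_nonneg_right h5 (Nat.cast_nonneg _)
  have h8 : (0 : ℝ) ≤ P.totient := Nat.cast_nonneg _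
  calc _ ≤ (P.totient : ℝ) * ((X / P : ℕ) + 1) := h2
    _ ≤ (P.totient : ℝ) * (X / P + 1) := by gcongr
    _ = (P.totient : ℝ) * (X / P) + P.totient := by ring
    _ ≤ _ := add_le_add h7 h6

theorem card_sq (z : ℝ) (hz : 0 < z) (X : ℕ) :
    (((Ioo ⌊z⌋₊ (X + 1)).biUnion fun m => (Icc 1 X).filter fun n => m ^ 2 ∣ n).card : ℝ) ≤
      2 / z * X := by
  have h1 : (((Ioo ⌊z⌋₊ (X + 1)).biUnion fun m => (Icc 1 X).filter fun n => m ^ 2 ∣ n).card : ℝ) ≤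
      ∑ m ∈ Ioo ⌊z⌋₊ (X + 1), (((Icc 1 X).filter fun n => m ^ 2 ∣ n).card : ℝ) := by
    exact_mod_cast card_biUnion_le
  have h2 := sum_Ioo_inv_sq_le (α := ℝ) ⌊z⌋₊ (X + 1)
  have h3 : (2 : ℝ) / (⌊z⌋₊ + 1) ≤ 2 / z :=
    div_le_div_of_nonneg_left (by norm_num) hz (Nat.lt_floor_add_one z).le
  calc _ ≤ _ := h1
    _ ≤ ∑ m ∈ Ioo ⌊z⌋₊ (X + 1), ((m : ℝ) ^ 2)⁻¹ * X := by
        refine sum_le_sum fun m _ => (card_mult X (m ^ 2)).trans (le_of_eq ?_)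
        push_cast
        ring
    _ = (∑ m ∈ Ioo ⌊z⌋₊ (X + 1), ((m : ℝ) ^ 2)⁻¹) * X := by rw [sum_mul]
    _ ≤ _ := mul_le_mul_of_nonneg_right (h2.trans h3) (Nat.cast_nonneg _)

/-- the power `n ^ (-35 / 36)` -/
noncomputable def pw : ℕ →* ℝ where
  toFun n := (n : ℝ) ^ (-35 / 36 : ℝ)
  map_one' := by simp
  map_mul' m n := by
    push_cast
    exact Real.mul_rpow (Nat.cast_nonneg _) (Nat.cast_nonneg _)

theorem pw_eq (n : ℕ) : pw n = (n : ℝ) ^ (-35 / 36 : ℝ) := rfl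

theorem pw_nonneg (n : ℕ) : 0 ≤ pw n := Real.rpow_nonneg (Nat.cast_nonneg _) _

theorem pw_le (p : ℕ) (hp : 2 ≤ p) : pw p ≤ 3 / 4 := by
  have h2 : (2 : ℝ) ≤ p := by exact_mod_cast hp
  have h1 : (p : ℝ) ^ (-35 / 36 : ℝ) ≤ (p : ℝ) ^ (-1 / 2 : ℝ) :=
    Real.rpow_le_rpow_of_exponent_le (by linarith) (by norm_num)
  have h3 : (p : ℝ) ^ (-1 / 2 : ℝ) ≤ (2 : ℝ) ^ (-1 / 2 : ℝ) :=
    Real.rpow_le_rpow_of_nonpos (by norm_num) h2 (by norm_num)
  have h4 : ((2 : ℝ) ^ (-1 / 2 : ℝ)) ^ 2 = 1 / 2 := by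
    rw [← Real.rpow_natCast, ← Real.rpow_mul (by norm_num)]
    norm_num
  have h5 : (2 : ℝ) ^ (-1 / 2 : ℝ) ≤ 3 / 4 := by
    by_contra h
    have h6 := not_le.1 h
    nlinarith
  rw [pw_eq]
  linarith

noncomputable def zt : ℝ := ∑' n : ℕ, (n : ℝ) ^ (-37 / 36 : ℝ)

theorem zt_sum : Summable fun n : ℕ => (n : ℝ) ^ (-37 / 36 : ℝ) :=
  Real.summable_nat_rpow.2 (by norm_num)

theorem zt_nonneg : 0 ≤ zt := tsum_nonneg fun _ => Real.rpow_nonneg (Nat.cast_nonneg _) _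

theorem euler (u : ℝ) (hu : 1 ≤ u) (T : Finset ℕ)
    (hT : ∀ a ∈ T, ∀ q : ℕ, q.Prime → q ∣ a → (q : ℝ) ≤ u ^ 36) :
    ∑ a ∈ T, pw a ≤ Real.exp (4 * zt * u ^ 2) := by
  have hu0 : 0 < u := by linarith
  set N := ⌊u ^ 36⌋₊ + 1 with hN
  have h1 := (EulerProduct.summable_and_hasSum_smoothNumbers_prod_primesBelow_geometric
    (f := pw) (fun {p} hp => by
      rw [Real.norm_of_nonneg (pw_nonneg p)]
      linarith [pw_le p hp.two_le]) N).2
  have h2 : HasSum (N.smoothNumbers.indicator fun m => pw m)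
      (∏ p ∈ N.primesBelow, (1 - pw p)⁻¹) := hasSum_subtype_iff_indicator.1 h1
  have h3 : ∑ a ∈ T, pw a = ∑ a ∈ T, N.smoothNumbers.indicator (fun m => pw m) a := by
    refine sum_congr rfl fun a ha => ?_
    rw [Set.indicator_of_mem]
    refine Nat.mem_smoothNumbers'.2 fun q hq hqa => ?_
    exact Nat.lt_succ_of_le (Nat.le_floor (hT a ha q hq hqa))
  have h4 : ∑ a ∈ T, pw a ≤ ∏ p ∈ N.primesBelow, (1 - pw p)⁻¹ := by
    rw [h3]
    exact sum_le_hasSum T (fun a _ => Set.indicator_nonneg (fun b _ => pw_nonneg b) a) h2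
  have h5 : ∏ p ∈ N.primesBelow, (1 - pw p)⁻¹ ≤ Real.exp (∑ p ∈ N.primesBelow, 4 * pw p) := by
    rw [Real.exp_sum]
    refine prod_le_prod (fun p hp => ?_) fun p hp => ?_
    · have := pw_le p (Nat.prime_of_mem_primesBelow hp).two_le
      exact inv_nonneg.2 (by linarith)
    · have h6 := pw_le p (Nat.prime_of_mem_primesBelow hp).two_le
      have h7 := pw_nonneg p
      have h8 := Real.add_one_le_exp (4 * pw p)
      refine le_trans ?_ h8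
      rw [inv_le_iff_one_le_mul₀ (by linarith)]
      nlinarith
  have h6 : ∑ p ∈ N.primesBelow, 4 * pw p ≤ 4 * zt * u ^ 2 := by
    have h7 : ∀ p ∈ N.primesBelow, 4 * pw p ≤ 4 * u ^ 2 * (p : ℝ) ^ (-37 / 36 : ℝ) := by
      intro p hp
      have hp0 : (0 : ℝ) < p := by exact_mod_cast (Nat.prime_of_mem_primesBelow hp).pos
      have hp1 : p ≤ ⌊u ^ 36⌋₊ := Nat.le_of_lt_succ (Nat.lt_of_mem_primesBelow hp)
      have hp2 : (p : ℝ) ≤ u ^ 36 :=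
        le_trans (by exact_mod_cast hp1) (Nat.floor_le (by positivity))
      have h8 : (p : ℝ) ^ (1 / 18 : ℝ) ≤ u ^ 2 := by
        calc (p : ℝ) ^ (1 / 18 : ℝ) ≤ (u ^ 36) ^ (1 / 18 : ℝ) :=
              Real.rpow_le_rpow hp0.le hp2 (by norm_num)
          _ = u ^ 2 := by
              rw [← Real.rpow_natCast, ← Real.rpow_mul hu0.le, ← Real.rpow_natCast]
              norm_num
      have h9 : pw p = (p : ℝ) ^ (1 / 18 : ℝ) * (p : ℝ) ^ (-37 / 36 : ℝ) := by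
        rw [pw_eq, ← Real.rpow_add hp0]
        norm_num
      have h10 : 0 ≤ (p : ℝ) ^ (-37 / 36 : ℝ) := Real.rpow_nonneg hp0.le _
      rw [h9]
      nlinarith [mul_le_mul_of_nonneg_right h8 h10]
    have h8 : ∑ p ∈ N.primesBelow, (p : ℝ) ^ (-37 / 36 : ℝ) ≤ zt :=
      zt_sum.sum_le_tsum _ fun n _ => Real.rpow_nonneg (Nat.cast_nonneg _) _
    calc _ ≤ ∑ p ∈ N.primesBelow, 4 * u ^ 2 * (p : ℝ) ^ (-37 / 36 : ℝ) := sum_le_sum h7
      _ = 4 * u ^ 2 * ∑ p ∈ N.primesBelow, (p : ℝ) ^ (-37 / 36 : ℝ) := by rw [mul_sum]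
      _ ≤ 4 * u ^ 2 * zt := by gcongr
      _ = _ := by ring
  exact h4.trans (h5.trans (Real.exp_le_exp.2 h6))

theorem card_sm (u : ℝ) (hu : 1 ≤ u) (T : Finset ℕ)
    (hT : ∀ a ∈ T, ∀ q : ℕ, q.Prime → q ∣ a → (q : ℝ) ≤ u ^ 36)
    (hT' : ∀ a ∈ T, Real.exp (u ^ 3) < a) (X : ℕ) :
    ((T.biUnion fun a => (Icc 1 X).filter fun n => a ∣ n).card : ℝ) ≤
      Real.exp (4 * zt * u ^ 2 - u ^ 3 / 36) * X := by
  have h1 : ((T.biUnion fun a => (Icc 1 X).filter fun n => a ∣ n).card : ℝ) ≤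
      ∑ a ∈ T, (((Icc 1 X).filter fun n => a ∣ n).card : ℝ) := by
    exact_mod_cast card_biUnion_le
  have h2 : ∀ a ∈ T, (X : ℝ) / a ≤ Real.exp (-(u ^ 3 / 36)) * X * pw a := by
    intro a ha
    have h3 := hT' a ha
    have ha0 : (0 : ℝ) < a := (Real.exp_pos _).trans h3
    have h4 : (a : ℝ) ^ (-1 / 36 : ℝ) ≤ Real.exp (-(u ^ 3 / 36)) := by
      calc (a : ℝ) ^ (-1 / 36 : ℝ) ≤ Real.exp (u ^ 3) ^ (-1 / 36 : ℝ) :=
            Real.rpow_le_rpow_of_nonpos (Real.exp_pos _) h3.le (by norm_num)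
        _ = _ := by
            rw [← Real.exp_mul]
            congr 1
            ring
    have h5 : (a : ℝ)⁻¹ = (a : ℝ) ^ (-1 / 36 : ℝ) * pw a := by
      rw [pw_eq, ← Real.rpow_add ha0, ← Real.rpow_neg_one]
      norm_num
    have h6 := mul_le_mul_of_nonneg_right h4 (pw_nonneg a)
    have h7 : (0 : ℝ) ≤ X := Nat.cast_nonneg _
    rw [div_eq_mul_inv, h5]
    nlinarith [mul_le_mul_of_nonneg_left h6 h7]
  calc _ ≤ _ := h1
    _ ≤ ∑ a ∈ T, Real.exp (-(u ^ 3 / 36)) * X * pw a :=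
        sum_le_sum fun a ha => (card_mult X a).trans (h2 a ha)
    _ = Real.exp (-(u ^ 3 / 36)) * X * ∑ a ∈ T, pw a := by rw [mul_sum]
    _ ≤ Real.exp (-(u ^ 3 / 36)) * X * Real.exp (4 * zt * u ^ 2) := by
        gcongr
        exact euler u hu T hT
    _ = _ := by
        rw [sub_eq_add_neg, Real.exp_add]
        ring

theorem exp_bd (K : ℝ) (hK : 0 ≤ K) : ∃ C : ℝ, 0 ≤ C ∧ ∀ u : ℝ, 1 ≤ u →
    Real.exp (K * u ^ 2 - u ^ 3 / 36) * u ^ 12 ≤ C := by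
  refine ⟨Real.exp ((K + 12) * (36 * (K + 12)) ^ 2), (Real.exp_pos _).le, fun u hu => ?_⟩
  have hu0 : 0 ≤ u := by linarith
  have h1 : u ≤ Real.exp (u ^ 2) := by
    have := Real.add_one_le_exp (u ^ 2)
    nlinarith
  have h2 : u ^ 12 ≤ Real.exp (12 * u ^ 2) := by
    have h3 := pow_le_pow_left₀ hu0 h1 12
    rw [← Real.exp_nat_mul] at h3
    exact_mod_cast h3
  calc _ ≤ Real.exp (K * u ^ 2 - u ^ 3 / 36) * Real.exp (12 * u ^ 2) := by gcongr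
    _ = Real.exp ((K + 12) * u ^ 2 - u ^ 3 / 36) := by
        rw [← Real.exp_add]
        congr 1
        ring
    _ ≤ _ := by
        refine Real.exp_le_exp.2 ?_
        by_cases h : u ≤ 36 * (K + 12)
        · have h3 : u ^ 2 ≤ (36 * (K + 12)) ^ 2 := pow_le_pow_left₀ hu0 h 2
          have h4 : (K + 12) * u ^ 2 ≤ (K + 12) * (36 * (K + 12)) ^ 2 := by gcongr
          have h5 : 0 ≤ u ^ 3 / 36 := by positivity
          linarith
        · have h3 := (not_le.1 h).le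
          have h4 : 36 * (K + 12) * u ^ 2 ≤ u * u ^ 2 := by gcongr
          have h5 : 0 ≤ (K + 12) * (36 * (K + 12)) ^ 2 := by positivity
          nlinarith

theorem primes_big (hM : MerS) (z M : ℝ) (hz : 1 ≤ z) (hM0 : 0 ≤ M) :
    ∃ (Q : ℕ) (S : Finset ℕ), (∀ p ∈ S, p.Prime ∧ z < (p : ℝ) ∧ (p : ℝ) ≤ (Q : ℝ)) ∧
      M ≤ ∑ p ∈ S, (1 : ℝ) / p := by
  obtain ⟨D, hD, -, h2, -⟩ := hM
  have hl : 0 < Real.log (z + 1) := Real.log_pos (by linarith)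
  set l := Real.log (z + 1) with hl'
  set E := Real.exp (M + D / l) with hE
  have hE1 : 1 ≤ E := Real.one_le_exp (by positivity)
  set Q := ⌈Real.exp (l * E)⌉₊ with hQ
  have hQ1 : Real.exp (l * E) ≤ Q := Nat.le_ceil _
  have hQ2 : z + 1 ≤ (Q : ℝ) := by
    refine le_trans ?_ hQ1
    calc z + 1 = Real.exp l := by rw [hl', Real.exp_log (by linarith)]
      _ ≤ _ := Real.exp_le_exp.2 (by nlinarith)
  have hQ3 : l * E ≤ Real.log Q := by
    rw [Real.le_log_iff_exp_le (by linarith)]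
    exact hQ1
  have hQ4 : M + D / l ≤ Real.log (Real.log Q / l) := by
    have h3 : E ≤ Real.log Q / l := by
      rw [le_div_iff₀ hl]
      linarith
    rw [Real.le_log_iff_exp_le (by linarith)]
    exact h3
  refine ⟨Q, prs (z + 1) Q, fun p hp => ?_, ?_⟩
  · simp only [prs, mem_filter, mem_Icc, Nat.floor_natCast] at hp
    refine ⟨hp.2.1, by linarith [hp.2.2], by exact_mod_cast hp.1.2⟩
  · have h3 := (abs_le.1 (h2 (z + 1) Q (by linarith) hQ2)).1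
    linarith

end Nl1A

open Nl1A in
theorem nl1Of : Nl1Of := by
  intro hM
  refine ⟨uniq, ?_⟩
  obtain ⟨C, hC0, hC⟩ := exp_bd (4 * zt) (by linarith [zt_nonneg])
  refine ⟨C + 4, by linarith, fun η h0 h1 => ?_⟩
  obtain ⟨u, hu⟩ : ∃ u : ℝ, u = η ^ (-1 / 6 : ℝ) := ⟨_, rfl⟩
  have hu1 : 1 ≤ u := hu ▸ Real.one_le_rpow_of_pos_of_le_one_of_nonpos h0 h1 (by norm_num)
  have hup : ∀ k : ℕ, u ^ k = η ^ (-(k : ℝ) / 6) := by
    intro k
    rw [hu, ← Real.rpow_natCast, ← Real.rpow_mul h0.le]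
    congr 1
    ring
  have hu3 : η ^ (-1 / 2 : ℝ) = u ^ 3 := by
    rw [hup]
    norm_num
  have hu6 : u ^ 6 * η = 1 := by
    rw [hup]
    have : (-((6 : ℕ) : ℝ) / 6) = -1 := by norm_num
    rw [this, Real.rpow_neg_one, inv_mul_cancel₀ h0.ne']
  have hu36 : 1 / η ^ 6 = u ^ 36 := by
    rw [div_eq_iff (by positivity)]
    calc (1 : ℝ) = (u ^ 6 * η) ^ 6 := by rw [hu6, one_pow]
      _ = _ := by ring
  have hu12 : u ^ 12 * η ^ 2 = 1 := by
    calc _ = (u ^ 6 * η) ^ 2 := by ring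
      _ = 1 := by rw [hu6, one_pow]
  have hz : 1 ≤ 1 / η ^ 6 := hu36 ▸ one_le_pow₀ hu1
  have hη2 : 0 < η ^ 2 := by positivity
  have hη3 : η ^ 2 ≤ 1 := pow_le_one₀ h0.le h1
  obtain ⟨Q, S, hS, hsum⟩ := primes_big hM (1 / η ^ 6) (-Real.log (η ^ 2)) hz
    (neg_nonneg.2 (Real.log_nonpos hη2.le hη3))
  refine ⟨Q, ⌈((∏ p ∈ S, p : ℕ) : ℝ) / η ^ 2⌉₊, fun X hX => ?_⟩
  classical
  set T := (Icc 1 X).filter fun a : ℕ => (∀ q : ℕ, q.Prime → q ∣ a → (q : ℝ) ≤ u ^ 36) ∧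
    Real.exp (u ^ 3) < a with hT
  have hsub : ((Icc 1 X).filter fun n => ¬ ∃ x, gd η Q x ∧ n = x.1 * x.2.1 * x.2.2) ⊆
      ((Icc 1 X).filter fun n => (∏ p ∈ S, p).Coprime n) ∪
      (((Ioo ⌊1 / η ^ 6⌋₊ (X + 1)).biUnion fun m => (Icc 1 X).filter fun n => m ^ 2 ∣ n) ∪
      (T.biUnion fun a => (Icc 1 X).filter fun n => a ∣ n)) := by
    intro n hn
    obtain ⟨hn1, hn2⟩ := mem_filter.1 hn
    obtain ⟨hn3, hn4⟩ := mem_Icc.1 hn1
    rcases bad η Q S hS n (by omega) hn2 with h | ⟨m, h2, h3⟩ | ⟨a, h2, h3, h4⟩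
    · exact mem_union_left _ (mem_filter.2 ⟨hn1, h⟩)
    · refine mem_union_right _ (mem_union_left _ (mem_biUnion.2 ⟨m, mem_Ioo.2 ⟨?_, ?_⟩,
        mem_filter.2 ⟨hn1, h3⟩⟩))
      · exact (Nat.floor_lt (by positivity)).2 h2
      · have h4 : m ≤ n := Nat.le_of_dvd hn3 (dvd_trans (dvd_pow_self m (by norm_num)) h3)
        omega
    · refine mem_union_right _ (mem_union_right _ (mem_biUnion.2 ⟨a, mem_filter.2 ⟨?_, ?_, ?_⟩,
        mem_filter.2 ⟨hn1, h4⟩⟩))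
      · have h5 : a ≤ n := Nat.le_of_dvd hn3 h4
        have h6 : 0 < a := Nat.pos_of_dvd_of_pos h4 hn3
        exact mem_Icc.2 ⟨h6, h5.trans hn4⟩
      · rw [← hu36]
        exact h2
      · rw [← hu3]
        exact h3
  have hc := (card_le_card hsub).trans ((card_union_le _ _).trans
    (Nat.add_le_add_left (card_union_le _ _) _))
  have hc' := (Nat.cast_le (α := ℝ)).2 hc
  push_cast at hc'
  have b1 := card_cop S (fun p hp => (hS p hp).1) X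
  have b2 := card_sq (1 / η ^ 6) (by positivity) X
  have b3 := card_sm u hu1 T (fun a ha => (mem_filter.1 ha).2.1)
    (fun a ha => (mem_filter.1 ha).2.2) X
  have hX0 : (0 : ℝ) ≤ X := Nat.cast_nonneg _
  have e1 : Real.exp (-∑ p ∈ S, (1 : ℝ) / p) ≤ η ^ 2 := by
    calc _ ≤ Real.exp (Real.log (η ^ 2)) := Real.exp_le_exp.2 (by linarith)
      _ = _ := Real.exp_log hη2
  have e2 : ((∏ p ∈ S, p : ℕ) : ℝ) ≤ η ^ 2 * X := by
    have h2 : ((∏ p ∈ S, p : ℕ) : ℝ) / η ^ 2 ≤ X :=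
      (Nat.le_ceil _).trans (by exact_mod_cast hX)
    rw [div_le_iff₀ hη2] at h2
    linarith
  have e3 : 2 / (1 / η ^ 6) ≤ 2 * η ^ 2 := by
    have h2 : η ^ 6 ≤ η ^ 2 := pow_le_pow_of_le_one h0.le h1 (by norm_num)
    rw [one_div, div_inv_eq_mul]
    linarith
  have e4 : Real.exp (4 * zt * u ^ 2 - u ^ 3 / 36) ≤ C * η ^ 2 := by
    have h2 := mul_le_mul_of_nonneg_right (hC u hu1) hη2.le
    rwa [mul_assoc, hu12, mul_one] at h2
  have f1 := mul_le_mul_of_nonneg_right e1 hX0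
  have f3 := mul_le_mul_of_nonneg_right e3 hX0
  have f4 := mul_le_mul_of_nonneg_right e4 hX0
  linarith

end Pool.Agent.MP_20b2fd_nt.H38
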