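import Pool.Agent.MP_20b2fd_nt.H38.SpecN
import Pool.Agent.MP_74e98a_nt.H25.Div

/-! The number of even forms, from the Rankin-Selberg weights. -/

set_option autoImplicit false

namespace Pool.Agent.MP_20b2fd_nt.H38

open Finset Filter Topology

namespace NuA

theorem kap_nn (H : KapS) {v : ℝ} (hv : 0 ≤ v) : 0 ≤ kap v := by
  obtain ⟨c, C, -, -, h⟩ := H
  rcases hv.eq_or_lt with rfl | hv
  · simp [kap]
  · exact (h v hv).1.le

theorem tel {N : ℝ} (hN : 1 ≤ N) (m : ℕ) :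
    ∑ n ∈ range m, 1 / (1 + n / N) ^ 2 ≤ 2 * N - 2 * N ^ 2 / (N + m) := by
  induction m with
  | zero =>
    have : 2 * N - 2 * N ^ 2 / N = 0 := by
      field_simp
      ring
    simp [this]
  | succ m ih =>
    have h0 : (0 : ℝ) ≤ m := m.cast_nonneg
    have : 1 / (1 + m / N) ^ 2 ≤ 2 * N ^ 2 / (N + m) - 2 * N ^ 2 / (N + (m + 1)) := by
      rw [div_sub_div _ _ (by positivity) (by positivity), div_le_div_iff₀ (by positivity)
        (by positivity)]
      field_simp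
      nlinarith
    rw [sum_range_succ, Nat.cast_succ]
    linarith

theorem mom (H : KapS) : ∃ B : ℝ, 0 < B ∧ ∀ N : ℝ, 1 ≤ N →
    (Summable fun n : ℕ => (1 + n / N) * kap (n / N)) ∧
      ∑' n : ℕ, (1 + n / N) * kap (n / N) ≤ B * N := by
  have nn := fun v => kap_nn H (v := v)
  obtain ⟨c, C, -, hC, h⟩ := H
  have key : ∀ v : ℝ, 0 ≤ v → (1 + v) * kap v ≤ 16 * C * (1 / (1 + v) ^ 2) := fun v hv => by
    rw [mul_one_div, le_div_iff₀ (by positivity), show (1 + v) * kap v * (1 + v) ^ 2 =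
      (1 + v) ^ 3 * kap v by ring]
    rcases hv.eq_or_lt with rfl | hv
    · simp [kap]
      linarith
    obtain ⟨h1, h2, h3, -⟩ := h v hv
    rcases le_total v 1 with e | e
    · have := mul_le_mul (pow_le_pow_left₀ (by linarith) (show 1 + v ≤ 2 by linarith) 3) h2 h1.le
        (by norm_num)
      linarith
    · have := mul_le_mul_of_nonneg_right
        (pow_le_pow_left₀ (by linarith) (show 1 + v ≤ 2 * v by linarith) 3) h1.le
      rw [le_div_iff₀ (by positivity)] at h3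
      linarith
  refine ⟨32 * C, by linarith, fun N hN => ?_⟩
  have h0 : ∀ n : ℕ, 0 ≤ (1 + n / N) * kap (n / N) := fun n =>
    mul_nonneg (by positivity) (nn _ (by positivity))
  have h1 : ∀ m, ∑ n ∈ range m, (1 + n / N) * kap (n / N) ≤ 32 * C * N := fun m => by
    refine (sum_le_sum fun n _ => key _ (by positivity)).trans ?_
    rw [← mul_sum]
    have h2 : 0 ≤ 2 * N ^ 2 / (N + m) := by positivity
    have := mul_le_mul_of_nonneg_left ((tel hN m).trans (sub_le_self _ h2))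
      (show 0 ≤ 16 * C by linarith)
    linarith
  exact ⟨summable_of_sum_range_le h0 h1, Real.tsum_le_of_sum_range_le h0 h1⟩

/-- mean of the square of the eigenvalue over the even forms -/
noncomputable def Ev (S : Sp) (n : ℕ) : ℝ := ∑ f, (1 + S.ε f) / 2 * (S.ω f * (S.a f n ^ 2 / n))

variable {S : Sp} {N : ℕ} {C : ℝ}

theorem sq (h : S.Ok N C) (f : Fin S.g) {m : ℕ} (h1 : 1 ≤ m) (h2 : m.Coprime N) :
    S.a f m ^ 2 / m = ∑ e ∈ m.divisors, S.a f (e ^ 2) / e := by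
  rw [← Nat.sum_div_divisors m fun e => S.a f (e ^ 2) / e, pow_two, h.hk f m m h1 h1 h2, Bh,
    Nat.gcd_self, sum_div]
  refine sum_congr rfl fun d hd => ?_
  obtain ⟨e, rfl⟩ := Nat.dvd_of_mem_divisors hd
  have hd := Nat.pos_of_mem_divisors hd
  rw [Nat.mul_div_cancel_left _ hd, ← pow_two, mul_pow, Nat.mul_div_cancel_left _ (by positivity),
    Nat.cast_mul, mul_div_mul_left _ _ (by positivity)]

theorem cop (h : S.Ok N C) (hC : 1 ≤ C) {m : ℕ} (h1 : 1 ≤ m) (h2 : m.Coprime N) :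
    Ev S m ≤ 1 / 2 + m.divisors.card * (C * (m ^ (15 / 16 : ℝ) * (N : ℝ) ^ (-(31 / 32) : ℝ))) := by
  have e1 : (1 / 2 : ℝ) = ∑ e ∈ m.divisors, if e = 1 then 1 / 2 else 0 := by
    rw [sum_ite_eq', if_pos (Nat.one_mem_divisors.2 (by omega))]
  simp only [Ev, sq h _ h1 h2, mul_sum]
  rw [sum_comm, ← nsmul_eq_mul, ← sum_const, e1, ← sum_add_distrib]
  refine sum_le_sum fun e he => ?_
  have h3 : (0 : ℝ) < e := Nat.cast_pos.2 (Nat.pos_of_mem_divisors he)
  obtain ⟨-, -, p1, p2⟩ := h.pet (e ^ 2) (pow_pos (Nat.pos_of_mem_divisors he) 2)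
  have e2 : ∑ f, (1 + S.ε f) / 2 * (S.ω f * (S.a f (e ^ 2) / e)) =
      (∑ f, S.ω f * S.a f (e ^ 2) + ∑ f, S.ω f * S.ε f * S.a f (e ^ 2)) / 2 / e := by
    rw [← sum_add_distrib, sum_div, sum_div]
    exact sum_congr rfl fun f _ => by ring
  have e3 : (((e ^ 2 : ℕ) : ℝ) / N) ^ (31 / 32 : ℝ) =
      e ^ (15 / 16 : ℝ) * (N : ℝ) ^ (-(31 / 32) : ℝ) * e := by
    rw [Real.div_rpow (by positivity) (by positivity), Real.rpow_neg (by positivity), Nat.cast_pow,
      ← Real.rpow_natCast, ← Real.rpow_mul h3.le, mul_right_comm, ← Real.rpow_add_one h3.ne',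
      div_eq_mul_inv]
    norm_num
  have e4 : C * (e ^ (15 / 16 : ℝ) * (N : ℝ) ^ (-(31 / 32) : ℝ) * e) ≤
      C * (m ^ (15 / 16 : ℝ) * (N : ℝ) ^ (-(31 / 32) : ℝ)) * e := by
    rw [← mul_assoc]
    gcongr
    exact Nat.divisor_le he
  rw [e3] at p1 p2
  rw [e2, div_le_iff₀ h3]
  have := (abs_le.1 p1).2
  have := (abs_le.1 p2).2
  by_cases e5 : e = 1
  · subst e5
    simp only [one_pow, if_true, Nat.cast_one] at *
    linarith
  · rw [if_neg (by simpa using e5)] at *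
    linarith

theorem ev_mul (h : S.Ok N C) (hN : 1 ≤ N) (m : ℕ) : Ev S (N * m) ≤ Ev S m :=
  sum_le_sum fun f _ => by
    have h1 : S.ε f ^ 2 = 1 := by rcases h.sgn f with e | e <;> simp [e]
    have h2 : 0 ≤ (1 + S.ε f) / 2 := by rcases h.sgn f with e | e <;> simp [e]
    have h3 := (h.pos f).le
    rw [h.lev, mul_pow, h1, one_mul, Nat.cast_mul, mul_comm (N : ℝ), ← div_div]
    exact mul_le_mul_of_nonneg_left (mul_le_mul_of_nonneg_left
      (div_le_self (by positivity) (Nat.one_le_cast.2 hN)) h3) h2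

theorem all (hC : 1 ≤ C) : ∃ D : ℝ, 0 < D ∧ ∀ (N : ℕ) (S : Sp), N.Prime → S.Ok N C → ∀ n : ℕ,
    Ev S n ≤ 1 / 2 + D * (N : ℝ) ^ (-(1 / 64) : ℝ) * (1 + n / N) := by
  obtain ⟨T, hT, ht⟩ := MP_74e98a_nt.H25.divisor_bound (1 / 64) (by norm_num)
  refine ⟨T * C, by positivity, fun N S hN h n => ?_⟩
  have h0 : (0 : ℝ) < N := Nat.cast_pos.2 hN.pos
  induction n using Nat.strong_induction_on with
  | _ n ih =>
  rcases n.eq_zero_or_pos with rfl | hn
  · have : Ev S 0 = 0 := by simp [Ev]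
    rw [this]
    positivity
  by_cases hd : N ∣ n
  · obtain ⟨m, rfl⟩ := hd
    have hm := (Nat.lt_mul_iff_one_lt_left (Nat.pos_of_mul_pos_left hn)).2 hN.one_lt
    refine (ev_mul h hN.pos m).trans ((ih m hm).trans ?_)
    gcongr
  refine (cop h hC hn ((Nat.Prime.coprime_iff_not_dvd hN).2 hd).symm).trans ?_
  have h1 : (0 : ℝ) < n := Nat.cast_pos.2 hn
  have e1 : (n : ℝ) ^ (1 / 64 : ℝ) * (n ^ (15 / 16 : ℝ) * (N : ℝ) ^ (-(31 / 32) : ℝ)) =
      (N : ℝ) ^ (-(1 / 64) : ℝ) * (n / N) ^ (61 / 64 : ℝ) := by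
    rw [← mul_assoc, ← Real.rpow_add h1, Real.div_rpow h1.le h0.le,
      div_eq_mul_inv (_ ^ _), ← Real.rpow_neg h0.le, mul_left_comm, ← Real.rpow_add h0]
    norm_num
  have e2 : ((n : ℝ) / N) ^ (61 / 64 : ℝ) ≤ 1 + n / N := by
    have h2 : 0 < (n : ℝ) / N := by positivity
    rcases le_total ((n : ℝ) / N) 1 with e | e
    · exact (Real.rpow_le_one h2.le e (by norm_num)).trans (by linarith)
    · exact (Real.rpow_le_self_of_one_le e (by norm_num)).trans (by linarith)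
  calc _ ≤ 1 / 2 + T * n ^ (1 / 64 : ℝ) * (C * (n ^ (15 / 16 : ℝ) * (N : ℝ) ^ (-(31 / 32) : ℝ))) := by
        gcongr
        exact ht n
    _ = 1 / 2 + T * C * (N : ℝ) ^ (-(1 / 64) : ℝ) * (n / N) ^ (61 / 64 : ℝ) := by
        rw [mul_mul_mul_comm, e1, mul_assoc (T * C)]
    _ ≤ _ := by gcongr

end NuA

open NuA in
theorem nuOf : NuOf := by
  classical
  intro H
  have nn := fun v => kap_nn H (v := v)
  obtain ⟨B, hB, hm⟩ := mom H
  have le : ∀ (N n : ℕ), kap (n / N) ≤ (1 + n / N) * kap (n / N) := fun N n =>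
    le_mul_of_one_le_left (nn _ (by positivity)) (le_add_of_nonneg_right (by positivity))
  have sm : ∀ N : ℕ, 1 ≤ N → Summable fun n : ℕ => kap (n / N) := fun N hN =>
    (hm N (Nat.one_le_cast.2 hN)).1.of_nonneg_of_le (fun n => nn _ (by positivity)) (le N)
  refine ⟨?_, fun C ε hC hε => ?_⟩
  · obtain ⟨c, C, hc, -, h⟩ := H
    refine ⟨c, B, hc, fun N hN => ⟨sm N hN, ?_, ?_⟩⟩
    · have h0 : (0 : ℝ) < N := Nat.cast_pos.2 hN
      refine le_trans ?_ ((sm N hN).sum_le_tsum (Ico N (N + N)) fun n _ => nn _ (by positivity))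
      refine le_trans (by simp [mul_comm]) (card_nsmul_le_sum _ _ c fun n hn => ?_)
      obtain ⟨h1, h2⟩ := mem_Ico.1 hn
      have h1 : 1 ≤ (n : ℝ) / N := (one_le_div h0).2 (Nat.cast_le.2 h1)
      have h2 : (n : ℝ) ≤ N + N := by exact_mod_cast h2.le
      exact (h _ (by linarith)).2.2.2 h1 ((div_le_iff₀ h0).2 (by linarith))
    · have := hm N (Nat.one_le_cast.2 hN)
      exact ((sm N hN).tsum_le_tsum (le N) this.1).trans this.2
  obtain ⟨D, hD, hall⟩ := all hC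
  have t1 := (((tendsto_rpow_neg_atTop (show (0 : ℝ) < 1 / 64 by norm_num)).comp
    tendsto_natCast_atTop_atTop).const_mul (D * B)).eventually_le_const
      (show D * B * 0 < ε / 2 by linarith)
  have t2 := (tendsto_natCast_atTop_atTop (R := ℝ)).eventually_ge_atTop ((1 + D) * B / (ε / 2))
  obtain ⟨N₀, h0⟩ := eventually_atTop.1 (t1.and t2)
  refine ⟨N₀, fun N S hN hp h => ?_⟩
  obtain ⟨a1, a2⟩ := h0 N hN
  have h1 : (1 : ℝ) ≤ N := Nat.one_le_cast.2 hp.pos
  rw [Function.comp_apply] at a1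
  rw [div_le_iff₀ (by positivity)] at a2
  have d0 : 0 ≤ (N : ℝ) ^ (-(1 / 64) : ℝ) := by positivity
  have d1 : (N : ℝ) ^ (-(1 / 64) : ℝ) ≤ 1 := Real.rpow_le_one_of_one_le_of_nonpos h1 (by norm_num)
  have hb := hall N S hp h
  generalize (N : ℝ) ^ (-(1 / 64) : ℝ) = δ at *
  have e : ((univ.filter fun f => S.ε f = 1).card : ℝ) = ∑ f, (1 + S.ε f) / 2 * 1 := by
    rw [card_filter, Nat.cast_sum]
    refine sum_congr rfl fun f _ => ?_
    rcases h.sgn f with e | e <;> norm_num [e]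
  have s1 := hasSum_sum fun f (_ : f ∈ univ) => (h.rs f).mul_left ((1 + S.ε f) / 2)
  have s2 := (((sm N hp.pos).hasSum.div_const 2).add ((hm N h1).1.hasSum.mul_left (D * δ))).add
    ((hm 1 le_rfl).1.hasSum.mul_left (1 + D))
  have := hasSum_le (fun n => ?_) s1 s2
  · rw [e, KN]
    have b1 := mul_le_mul_of_nonneg_left (hm N h1).2 (show 0 ≤ D * δ by positivity)
    have b2 := mul_le_mul_of_nonneg_left (hm 1 le_rfl).2 (show 0 ≤ 1 + D by positivity)
    have b3 := mul_le_mul_of_nonneg_right a1 (zero_le_one.trans h1)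
    linarith
  · have k1 := nn n n.cast_nonneg
    have k2 := nn (n / N) (by positivity)
    have k3 : 1 / 2 + D * δ * (1 + n / N) ≤ (1 + D) * (1 + n) := by
      have : D * δ * (1 + n / N) ≤ D * 1 * (1 + n) := by
        gcongr
        exact div_le_self n.cast_nonneg h1
      have : (0 : ℝ) ≤ n := n.cast_nonneg
      linarith
    have k4 := mul_le_mul_of_nonneg_right (hb n) k2
    have k5 := mul_le_mul_of_nonneg_right ((hb n).trans k3) k1
    simp only [← mul_assoc ((1 + S.ε _) / 2) (S.ω _ * _), ← sum_mul, div_one]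
    change Ev S n * _ ≤ _
    linarith

end Pool.Agent.MP_20b2fd_nt.H38
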