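import Pool.Agent.MP_20b2fd_nt.H38.SpecN

/-! Moments of the number of prime factors in a window. -/

set_option autoImplicit false

namespace Pool.Agent.MP_20b2fd_nt.H38

open Finset

namespace OmA

open Classical in
/-- the window -/
noncomputable def W (r : ℕ) (x y : ℝ) : Finset ℕ := (Gq r y).filter fun k : ℕ => x < k

theorem mem_Gq {r k : ℕ} {y : ℝ} :
    k ∈ Gq r y ↔ (1 ≤ k ∧ (k : ℝ) ≤ y) ∧ Squarefree k ∧ k.Coprime r := by
  rw [Gq, mem_filter, mem_Icc]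
  refine and_congr_left fun _ => and_congr_right fun h => Nat.le_floor_iff' (by omega)

theorem mem_W {r k : ℕ} {x y : ℝ} :
    k ∈ W r x y ↔ ((1 ≤ k ∧ (k : ℝ) ≤ y) ∧ Squarefree k ∧ k.Coprime r) ∧ x < k := by
  rw [W, mem_filter, mem_Gq]

theorem PP_prime {N t : ℕ} (h : t ∈ PP N) : t.Prime := (mem_filter.1 h).2.1

theorem PP_le {N t : ℕ} (h : t ∈ PP N) : (t : ℝ) ≤ (N : ℝ) ^ (21 / 10000 : ℝ) := by
  have h1 := (Nat.le_floor_iff (by positivity)).1 (mem_Icc.1 (mem_filter.1 h).1).2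
  rwa [← Real.rpow_natCast, ← Real.rpow_mul N.cast_nonneg,
    show (1 / 10000 : ℝ) * (21 : ℕ) = 21 / 10000 by norm_num] at h1

theorem peel1 (r t : ℕ) (ht : t.Prime) (x y : ℝ) (f g : ℕ → ℝ) (hg : ∀ k, 0 ≤ g k)
    (h : ∀ k, ¬t ∣ k → f (t * k) ≤ g k) :
    ∑ k ∈ (W r x y).filter (t ∣ ·), f k / k.totient ≤
      1 / ((t : ℝ) - 1) * ∑ k ∈ W r (x / t) (y / t), g k / k.totient := by
  have t0 : (0 : ℝ) < t := Nat.cast_pos.2 ht.pos
  have t1 : (0 : ℝ) < (t : ℝ) - 1 := sub_pos.2 (Nat.one_lt_cast.2 ht.one_lt)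
  have h1 : (W r x y).filter (t ∣ ·) =
      (((W r x y).filter (t ∣ ·)).image (· / t)).image (t * ·) := by
    rw [image_image]
    refine (image_id (s := (W r x y).filter (t ∣ ·))).symm.trans (image_congr fun k hk => ?_)
    exact (Nat.mul_div_cancel' (mem_filter.1 hk).2).symm
  have h2 : ∀ k ∈ ((W r x y).filter (t ∣ ·)).image (· / t), ¬t ∣ k ∧ k ∈ W r (x / t) (y / t) := by
    intro k hk
    obtain ⟨_, hm, rfl⟩ := mem_image.1 hk
    obtain ⟨hm, k, rfl⟩ := mem_filter.1 hm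
    obtain ⟨⟨⟨a1, a2⟩, a3, a4⟩, a5⟩ := mem_W.1 hm
    rw [Nat.mul_div_cancel_left _ ht.pos]
    push_cast at a2 a5
    refine ⟨ht.coprime_iff_not_dvd.1 (Nat.squarefree_mul_iff.1 a3).1, mem_W.2
      ⟨⟨⟨Nat.pos_of_mul_pos_left a1, ?_⟩, a3.of_mul_right, a4.coprime_mul_left⟩, ?_⟩⟩
    · rwa [le_div_iff₀' t0]
    · rwa [div_lt_iff₀' t0]
  rw [h1, sum_image fun a _ b _ e => Nat.eq_of_mul_eq_mul_left ht.pos e, mul_sum]
  refine (sum_le_sum fun k hk => ?_).trans (sum_le_sum_of_subset_of_nonneg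
    (fun k hk => (h2 k hk).2) fun k _ _ => mul_nonneg (by positivity) (div_nonneg (hg k) (by positivity)))
  rw [Nat.totient_mul (ht.coprime_iff_not_dvd.2 (h2 k hk).1), Nat.totient_prime ht, Nat.cast_mul,
    Nat.cast_pred ht.pos, div_mul_div_comm, one_mul]
  exact div_le_div_of_nonneg_right (h k (h2 k hk).1) (by positivity)

theorem peel (r N : ℕ) (x y D : ℝ) (f g : ℕ → ℝ) (hg : ∀ k, 0 ≤ g k)
    (h : ∀ t ∈ PP N, ∀ k, ¬t ∣ k → f (t * k) ≤ g k)
    (hD : ∀ t ∈ PP N, ∑ k ∈ W r (x / t) (y / t), g k / k.totient ≤ D) :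
    ∑ k ∈ W r x y, om N k * f k / k.totient ≤ lam' N * D := by
  have h1 : ∑ k ∈ W r x y, om N k * f k / k.totient =
      ∑ t ∈ PP N, ∑ k ∈ (W r x y).filter (t ∣ ·), f k / k.totient := by
    simp only [sum_filter]
    rw [sum_comm]
    refine sum_congr rfl fun k _ => ?_
    rw [← sum_filter, sum_const, nsmul_eq_mul, om, mul_div_assoc]
  rw [h1, lam', sum_mul]
  refine sum_le_sum fun t ht => (peel1 r t (PP_prime ht) x y f g hg (h t ht)).trans ?_
  have t1 : (0 : ℝ) < (t : ℝ) - 1 := sub_pos.2 (Nat.one_lt_cast.2 (PP_prime ht).one_lt)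
  exact mul_le_mul_of_nonneg_left (hD t ht) (by positivity)

theorem om_mul (N k : ℕ) {t : ℕ} (ht : t.Prime) : om N (t * k) ≤ 1 + om N k := by
  have h : (PP N).filter (· ∣ t * k) ⊆ insert t ((PP N).filter (· ∣ k)) := by
    intro p hp
    obtain ⟨h1, h2⟩ := mem_filter.1 hp
    rcases ((PP_prime h1).dvd_mul).1 h2 with h3 | h3
    · exact mem_insert.2 (Or.inl ((Nat.prime_dvd_prime_iff_eq (PP_prime h1) ht).1 h3))
    · exact mem_insert_of_mem (mem_filter.2 ⟨h1, h3⟩)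
  have h2 := (card_le_card h).trans (card_insert_le _ _)
  unfold om
  rw [add_comm]
  exact_mod_cast h2

theorem win {r : ℕ} {V C : ℝ}
    (h : ∀ y : ℝ, 1 ≤ y → |∑ k ∈ Gq r y, (1 : ℝ) / k.totient - V * Real.log y| ≤ C)
    {x y : ℝ} (hx : 1 ≤ x) (hy : x ≤ y) :
    ∑ k ∈ W r x y, (1 : ℝ) / k.totient ≤ V * Real.log (y / x) + 2 * C := by
  classical
  have h1 := sum_filter_add_sum_filter_not (Gq r y) (fun k : ℕ => x < k)
    fun k => (1 : ℝ) / k.totient
  have h2 : (Gq r y).filter (fun k : ℕ => ¬x < k) = Gq r x := by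
    ext k
    rw [mem_filter, mem_Gq, mem_Gq, not_lt]
    exact ⟨fun a => ⟨⟨a.1.1.1, a.2⟩, a.1.2⟩, fun a => ⟨⟨⟨a.1.1, a.1.2.trans hy⟩, a.2⟩, a.1.2⟩⟩
  rw [h2] at h1
  have h3 := (abs_le.1 (h x hx)).1
  have h4 := (abs_le.1 (h y (hx.trans hy))).2
  rw [Real.log_div (by linarith) (by linarith), mul_sub]
  unfold W
  linarith

end OmA

open OmA in
theorem omOf : OmOf := by
  intro hM a ha
  obtain ⟨C, hC, h⟩ := hM (30 * a) (by omega)
  have h0 : ∀ y : ℝ, 1 ≤ y →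
      |∑ k ∈ Gq (30 * a) y, (1 : ℝ) / k.totient - Vr a * Real.log y| ≤ C := fun y hy => (h y hy).1
  refine ⟨2 * C, by linarith, fun N x y hN hy => ⟨?_, fun hx hxy => ?_⟩⟩
  · have h1 : Gq (30 * a) y = W (30 * a) 0 y := by
      ext k
      rw [mem_W, mem_Gq, iff_self_and]
      exact fun a => Nat.cast_pos.2 a.1.1
    have h2 := peel (30 * a) N 0 y (Vr a * Real.log y + 2 * C) (fun _ => 1) (fun _ => 1)
      (fun _ => zero_le_one) (fun _ _ _ _ => le_rfl) fun t ht => ?_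
    · simpa only [mul_one, ← h1] using h2
    · have t1 : (1 : ℝ) ≤ t := Nat.one_le_cast.2 (PP_prime ht).pos
      refine (sum_le_sum_of_subset_of_nonneg (t := Gq (30 * a) y) (fun k hk => ?_)
        fun _ _ _ => by positivity).trans (by linarith [(abs_le.1 (h0 y hy)).2])
      obtain ⟨⟨⟨a1, a2⟩, a3⟩, -⟩ := mem_W.1 hk
      exact mem_Gq.2 ⟨⟨a1, a2.trans (div_le_self (by linarith) t1)⟩, a3⟩
  · have N1 : (1 : ℝ) ≤ N := Nat.one_le_cast.2 hN
    have e : (N : ℝ) ^ (42 / 10000 : ℝ) = N ^ (21 / 10000 : ℝ) * N ^ (21 / 10000 : ℝ) := by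
      rw [← Real.rpow_add (by linarith)]
      norm_num
    have p1 : (1 : ℝ) ≤ N ^ (21 / 10000 : ℝ) := Real.one_le_rpow N1 (by norm_num)
    have om0 : ∀ k, 0 ≤ om N k := fun k => Nat.cast_nonneg _
    obtain ⟨D, hD⟩ : ∃ D, D = Vr a * Real.log (y / x) + 2 * C := ⟨_, rfl⟩
    have h1 : ∀ s : ℝ, 0 < s → s ≤ x →
        ∑ k ∈ W (30 * a) (x / s) (y / s), (1 : ℝ) / k.totient ≤ D := fun s s0 s1 => by
      have := win h0 ((one_le_div s0).2 s1) (div_le_div_of_nonneg_right hxy s0.le)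
      rwa [div_div_div_cancel_right₀ s0.ne', ← hD] at this
    have h2 := peel (30 * a) N x y (D + lam' N * D) (om N) (fun k => 1 + om N k)
      (fun k => add_nonneg zero_le_one (om0 k)) (fun t ht k _ => om_mul N k (PP_prime ht))
      fun t ht => ?_
    · rw [← hD]
      simp only [← pow_two] at h2
      exact h2.trans (le_of_eq (by ring))
    · have t0 : (0 : ℝ) < t := Nat.cast_pos.2 (PP_prime ht).pos
      have t1 := PP_le ht
      have h3 := peel (30 * a) N (x / t) (y / t) D (fun _ => 1) (fun _ => 1)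
        (fun _ => zero_le_one) (fun _ _ _ _ => le_rfl) fun u hu => by
          have u0 : (0 : ℝ) < u := Nat.cast_pos.2 (PP_prime hu).pos
          rw [div_div, div_div]
          exact h1 _ (mul_pos t0 u0)
            ((mul_le_mul t1 (PP_le hu) u0.le (by linarith)).trans (e ▸ hx))
      simp only [add_div, sum_add_distrib]
      simp only [mul_one] at h3
      exact add_le_add (h1 t t0 (by nlinarith)) h3

end Pool.Agent.MP_20b2fd_nt.H38
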