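import Pool.Agent.MP_20b2fd_nt.H38.SpecZ

/-! The theorem of Landau and Page. -/

set_option autoImplicit false

namespace Pool.Agent.MP_20b2fd_nt.H38

open Complex Finset ArithmeticFunction
open DirichletCharacter (LFunction changeLevel)
open Pool.Agent.MP_c5bf7b_nt.H38 (Phi Ch)

namespace PageA

/-- the real part of the twisted series -/
noncomputable def LL {q : ℕ} (χ : Ch q) (σ : ℝ) : ℝ :=
  (LSeries (fun n => (vonMangoldt n : ℂ) * χ n) σ).re

theorem hasSum_LL {q : ℕ} (χ : Ch q) {σ : ℝ} (h : 1 < σ) :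
    HasSum (fun n : ℕ => vonMangoldt n / (n : ℝ) ^ σ * (χ n).re) (LL χ σ) := by
  have h1 : LSeriesSummable (fun n => (vonMangoldt n : ℂ) * χ n) σ := by
    have := DirichletCharacter.LSeriesSummable_twist_vonMangoldt χ (s := σ) (by simpa using h)
    convert this using 2 with n
    simp [mul_comm]
  have h2 : HasSum _ (LL χ σ) := hasSum_re h1.hasSum
  convert h2 using 2 with n
  rcases eq_or_ne n 0 with rfl | hn
  · simp
  · rw [LSeries.term_of_ne_zero hn, ← ofReal_natCast, ← ofReal_cpow (Nat.cast_nonneg n),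
      mul_div_right_comm, ← ofReal_div, re_ofReal_mul]

theorem val {q : ℕ} {χ : Ch q} (h : χ ^ 2 = 1) {a : ZMod q} (ha : IsUnit a) :
    χ a = 1 ∨ χ a = -1 := by
  have := congrArg (fun ψ : Ch q => ψ a) h
  simp only [MulChar.pow_apply' _ two_ne_zero, MulChar.one_apply ha] at this
  exact sq_eq_one_iff.1 this

theorem pos4 {q : ℕ} {χ χ' : Ch q} (h : χ ^ 2 = 1) (h' : χ' ^ 2 = 1) {σ : ℝ} (hσ : 1 < σ) :
    0 ≤ LL (1 : Ch q) σ + LL χ σ + LL χ' σ + LL (χ * χ') σ := by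
  refine ((((hasSum_LL 1 hσ).add (hasSum_LL χ hσ)).add (hasSum_LL χ' hσ)).add
    (hasSum_LL (χ * χ') hσ)).nonneg fun n => ?_
  rw [← mul_add, ← mul_add, ← mul_add]
  refine mul_nonneg (div_nonneg vonMangoldt_nonneg (by positivity)) ?_
  by_cases hn : IsUnit (n : ZMod q)
  · rw [MulChar.mul_apply, MulChar.one_apply hn]
    rcases val h hn with e | e <;> rcases val h' hn with e' | e' <;> rw [e, e'] <;> norm_num
  · simp [MulChar.map_nonunit _ hn]

theorem pos2 {q : ℕ} {χ : Ch q} (h : χ ^ 2 = 1) {σ : ℝ} (hσ : 1 < σ) :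
    0 ≤ LL (1 : Ch q) σ + LL χ σ := by
  have := pos4 h (one_pow 2) hσ
  rw [mul_one] at this
  linarith

open Classical in
theorem key (hP : PhZ) (hZ : ZlS) : ∃ K : ℝ, 1 ≤ K ∧ ∀ (q : ℕ) [NeZero q] (χ : Ch q) (σ : ℝ)
    (T : Finset ℝ), 1 < σ → σ ≤ 2 → (∀ β ∈ T, 3 / 4 < β ∧ β < 1 ∧ Phi χ β = 0) →
    LL χ σ ≤ (if χ = 1 then 1 / (σ - 1) else 0) - ∑ β ∈ T, 1 / (σ - β) + K * Real.log (q * 2) := by
  obtain ⟨C, -, hP⟩ := hP
  obtain ⟨K, hK, hZ⟩ := hZ
  refine ⟨K, hK, fun q _ χ σ T h1 h2 hT => ?_⟩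
  obtain ⟨Z, z1, z2, z3⟩ := hZ q χ 0
  obtain ⟨-, p1, -, -, p2, -⟩ := hP q χ
  have nr : ∀ x : ℝ, 3 / 4 < x → x ≤ 2 → ‖(x : ℂ) - (2 + (0 : ℝ) * I)‖ < 5 / 4 := fun x a b => by
    rw [show (x : ℂ) - (2 + (0 : ℝ) * I) = ((x - 2 : ℝ) : ℂ) by simp, norm_real, Real.norm_eq_abs,
      abs_lt]
    constructor <;> linarith
  have a1 := z3 σ (nr σ (by linarith) h2) (p1 σ (by simpa using h1.le))
  have a2 := congrArg re (p2 σ (by simpa using h1))
  have a3 := (abs_le.1 ((abs_re_le_norm _).trans a1)).1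
  have a4 : (if χ = 1 then 1 / ((σ : ℂ) - 1) else 0).re = if χ = 1 then 1 / (σ - 1) else 0 := by
    split_ifs
    · rw [← ofReal_one, ← ofReal_sub, ← ofReal_div, ofReal_re]
    · rfl
  have a5 : T.val.map (fun β : ℝ => (β : ℂ)) ≤ Z := by
    refine (Multiset.le_iff_subset (T.nodup.map ofReal_injective)).2 fun ρ hρ => ?_
    obtain ⟨β, hβ, rfl⟩ := Multiset.mem_map.1 hρ
    obtain ⟨b1, b2, b3⟩ := hT β hβ
    exact z2 _ (nr β b1 (by linarith)) b3
  obtain ⟨U, rfl⟩ := Multiset.le_iff_exists_add.1 a5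
  have a6 : 0 ≤ ((U.map fun ρ => ((σ : ℂ) - ρ)⁻¹).sum).re := by
    have e : ∀ x : ℂ, reAddGroupHom x = x.re := fun _ => rfl
    rw [← e, map_multiset_sum]
    refine Multiset.sum_nonneg fun x hx => ?_
    obtain ⟨y, hy, rfl⟩ := Multiset.mem_map.1 hx
    obtain ⟨ρ, hρ, rfl⟩ := Multiset.mem_map.1 hy
    have := (z1 ρ (Multiset.mem_add.2 (Or.inr hρ))).2.1
    rw [e, inv_re]
    exact div_nonneg (by simp; linarith) (normSq_nonneg _)
  have a7 : ((T.val.map fun β : ℝ => (β : ℂ)).map fun ρ => ((σ : ℂ) - ρ)⁻¹).sum =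
      ((∑ β ∈ T, 1 / (σ - β) : ℝ) : ℂ) := by
    rw [Multiset.map_map]
    push_cast
    simp only [one_div]
    rfl
  rw [Multiset.map_add, Multiset.sum_add, a7, sub_re, add_re, ofReal_re, abs_zero, zero_add] at a3
  rw [neg_re, sub_re, a4] at a2
  unfold LL
  linarith

end PageA

open PageA

theorem pageOf : PageOf := by
  intro hP hZ
  obtain ⟨K, hK, hk⟩ := key hP hZ
  obtain ⟨C, -, hP⟩ := hP
  refine ⟨1 / (75 * K), by positivity, one_div_le_one_div_of_le (by norm_num) (by linarith),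
    fun z q q' _ _ χ χ' β β' hz hq hq' h2 h1 h2' h1' e e' b b' => ?_⟩
  by_contra hne
  obtain ⟨l, hl⟩ : ∃ l, l = Real.log z := ⟨_, rfl⟩
  have l1 : Real.log 2 ≤ l := hl ▸ Real.log_le_log two_pos hz
  have l2 : 1 / 2 < l := by linarith [Real.log_two_gt_d9]
  have q0 : (0 : ℝ) < q := Nat.cast_pos.2 (NeZero.pos q)
  have q0' : (0 : ℝ) < q' := Nat.cast_pos.2 (NeZero.pos q')
  have l3 : Real.log ((q * q' : ℕ) * 2) ≤ 3 * l := by
    rw [Nat.cast_mul, Real.log_mul (by positivity) two_ne_zero, Real.log_mul q0.ne' q0'.ne']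
    linarith [Real.log_le_log q0 hq, Real.log_le_log q0' hq']
  rw [← hl] at b b'
  obtain ⟨t, ht⟩ : ∃ t, t = 1 / (75 * K) / l := ⟨_, rfl⟩
  have t0 : 0 < t := by rw [ht]; positivity
  have t1 : t * (75 * K * l) = 1 := by rw [ht]; field_simp
  have t2 : t < 1 / 4 := by
    by_contra h
    nlinarith [mul_le_mul hK l2.le (by norm_num) (by linarith)]
  rw [← ht] at b b'
  have lift : ∀ (r : ℕ) [NeZero r] (hr : r ∣ q * q') (ψ : Ch r) (x : ℝ), ψ ^ 2 = 1 → ψ ≠ 1 →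
      LFunction ψ x = 0 → 1 - t ≤ x → changeLevel hr ψ ^ 2 = 1 ∧ changeLevel hr ψ ≠ 1 ∧
        (3 / 4 < x ∧ x < 1 ∧ Phi (changeLevel hr ψ) x = 0) ∧
        1 / (4 * t) ≤ 1 / (1 + 3 * t - x) := fun r _ hr ψ x a1 a2 a3 a4 => by
    have a5 : changeLevel hr ψ ≠ 1 := a2 ∘ (DirichletCharacter.changeLevel_eq_one_iff hr).1
    have a6 : Phi (changeLevel hr ψ) x = 0 := by
      rw [Phi, if_neg a5, DirichletCharacter.LFunction_changeLevel hr ψ (Or.inl a2), a3, zero_mul]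
    have a7 : x < 1 := not_le.1 fun h => (hP _ _).2.1 x (by simpa using h) a6
    exact ⟨by rw [← map_pow, a1, map_one], a5, ⟨by linarith, a7, a6⟩,
      one_div_le_one_div_of_le (by linarith) (by linarith)⟩
  obtain ⟨c1, c2, c3, c4⟩ := lift q (dvd_mul_right q q') χ β h2 h1 e b
  obtain ⟨d1, d2, d3, d4⟩ := lift q' (dvd_mul_left q' q) χ' β' h2' h1' e' b'
  generalize changeLevel (dvd_mul_right q q') χ = ψ at c1 c2 c3
  generalize changeLevel (dvd_mul_left q' q) χ' = ψ' at d1 d2 d3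
  have s1 : 1 < 1 + 3 * t := by linarith
  have s2 : 1 + 3 * t ≤ 2 := by linarith
  have k0 := hk (q * q') 1 _ ∅ s1 s2 (by simp)
  have l4 := mul_le_mul_of_nonneg_left l3 (zero_le_one.trans hK)
  have l5 : 0 < K * l := by positivity
  have t3 : 1 / (1 + 3 * t - 1) = 25 * (K * l) := by
    rw [div_eq_iff (by linarith)]
    linarith
  have t4 : 1 / (4 * t) = 75 / 4 * (K * l) := by
    rw [div_eq_iff (by linarith)]
    linarith
  rw [if_pos rfl, sum_empty, t3] at k0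
  rw [t4] at c4 d4
  by_cases h : ψ = ψ'
  · subst h
    have k1 := hk (q * q') ψ _ {β, β'} s1 s2 (by
      simpa only [mem_insert, mem_singleton, forall_eq_or_imp, forall_eq] using ⟨c3, d3⟩)
    rw [if_neg c2, sum_pair hne] at k1
    linarith [pos2 c1 s1]
  · have k1 := hk (q * q') ψ _ {β} s1 s2 (by simpa only [mem_singleton, forall_eq] using c3)
    have k2 := hk (q * q') ψ' _ {β'} s1 s2 (by simpa only [mem_singleton, forall_eq] using d3)
    have k3 := hk (q * q') (ψ * ψ') _ ∅ s1 s2 (by simp)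
    rw [if_neg c2, sum_singleton] at k1
    rw [if_neg d2, sum_singleton] at k2
    rw [if_neg fun e => h (mul_right_cancel (e.trans (d1.symm.trans (pow_two _)))),
      sum_empty] at k3
    linarith [pos4 c1 d1 s1]

end Pool.Agent.MP_20b2fd_nt.H38
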