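import Pool.Agent.MP_20b2fd_nt.H38.SpecN

/-! Row Wb: basic facts on the weights of the mollifier. -/

set_option autoImplicit false

namespace Pool.Agent.MP_20b2fd_nt.H38

open Finset Filter Topology ArithmeticFunction

namespace WbA

theorem mem_prs {x y : ℝ} {p : ℕ} (h : p ∈ prs x y) : p.Prime ∧ x < p := (mem_filter.1 h).2

theorem two_le {x y : ℝ} {p : ℕ} (h : p ∈ prs x y) : (2 : ℝ) ≤ p := by
  exact_mod_cast (mem_prs h).1.two_le

theorem log21 : 3 < Real.log 21 ∧ Real.log 21 < 4 := by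
  have h1 := Real.exp_one_lt_d9
  have h2 := Real.exp_one_gt_d9
  constructor
  · rw [Real.lt_log_iff_exp_lt (by norm_num), show (3 : ℝ) = (3 : ℕ) * 1 by norm_num,
      Real.exp_nat_mul]
    exact (pow_lt_pow_left₀ h1 (Real.exp_pos 1).le (by norm_num)).trans (by norm_num)
  · rw [Real.log_lt_iff_lt_exp (by norm_num), show (4 : ℝ) = (4 : ℕ) * 1 by norm_num,
      Real.exp_nat_mul]
    exact lt_trans (by norm_num) (pow_lt_pow_left₀ h2 (by norm_num) (by norm_num))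

theorem lamA (h : MerS) (ε : ℝ) (hε : 0 < ε) : ∃ N₀ : ℕ, ∀ N : ℕ, N₀ ≤ N →
    3 ≤ lam N ∧ lam N ≤ 4 ∧ lam N ≤ lam' N ∧ lam' N ≤ (1 + ε) * lam N := by
  obtain ⟨D, -, -, h2, -⟩ := h
  have t1 : Tendsto (fun N : ℕ => (N : ℝ) ^ (1 / 10000 : ℝ)) atTop atTop :=
    (tendsto_rpow_atTop (by norm_num)).comp tendsto_natCast_atTop_atTop
  have t2 : Tendsto (fun N : ℕ => D / Real.log ((N : ℝ) ^ (1 / 10000 : ℝ))) atTop (𝓝 0) :=
    (Real.tendsto_log_atTop.comp t1).const_div_atTop D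
  obtain ⟨N₀, hN⟩ := eventually_atTop.1 ((t1.eventually_ge_atTop 2).and
    ((t1.eventually_ge_atTop (1 + 1 / ε)).and ((t2.eventually (eventually_lt_nhds
      (sub_pos.2 log21.1))).and (t2.eventually (eventually_lt_nhds (sub_pos.2 log21.2))))))
  refine ⟨N₀, fun N hN' => ?_⟩
  obtain ⟨a1, a2, a3, a4⟩ := hN N hN'
  have a5 := h2 _ _ a1 (le_self_pow₀ (by linarith) (by norm_num : 21 ≠ 0))
  have l0 : 0 < Real.log ((N : ℝ) ^ (1 / 10000 : ℝ)) := Real.log_pos (by linarith)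
  rw [Real.log_pow, mul_div_cancel_right₀ _ l0.ne', abs_le] at a5
  have a6 : lam N = ∑ p ∈ prs ((N : ℝ) ^ (1 / 10000 : ℝ)) (((N : ℝ) ^ (1 / 10000 : ℝ)) ^ 21),
    (1 : ℝ) / p := rfl
  rw [← a6, show ((21 : ℕ) : ℝ) = 21 by norm_num] at a5
  refine ⟨by linarith [a5.1], by linarith [a5.2], sum_le_sum fun t ht => ?_, ?_⟩
  · have := two_le ht
    exact one_div_le_one_div_of_le (by linarith) (by linarith)
  · rw [lam, mul_sum]
    refine sum_le_sum fun t ht => ?_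
    have b1 := two_le ht
    have b2 : 1 / ε < t - 1 := by linarith [(mem_prs ht).2]
    rw [div_lt_iff₀ hε] at b2
    rw [mul_one_div, div_le_div_iff₀ (by linarith) (by linarith)]
    nlinarith

theorem psiA {δ : ℝ} {N : ℕ} (hδ : 0 < δ) (hN : 2 ≤ N) (x : ℝ) :
    0 ≤ psi δ N x ∧ psi δ N x ≤ 1 ∧
      (psi δ N x ≠ 0 → (1 / 2 - 3 * δ / 4) * Real.log N < x ∧ x < (1 / 2 + δ / 2) * Real.log N) ∧
      ((1 / 2 - 149 * δ / 200) * Real.log N ≤ x → x ≤ (1 / 2 + 99 * δ / 200) * Real.log N →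
        psi δ N x = 1) := by
  have l0 : 0 < Real.log N := Real.log_pos (by exact_mod_cast hN)
  have d0 : 0 < δ * Real.log N / 2 := by positivity
  refine ⟨ps0.nonneg, ps0.le_one, fun h => ?_, fun h h' => ps0.one_of_mem_closedBall ?_⟩
  · have h1 : dist ((x - Real.log N / 2) / (δ * Real.log N / 2)) (-1 / 4) < 5 / 4 :=
      lt_of_not_ge fun h1 => h (ps0.zero_of_le_dist h1)
    rw [Real.dist_eq, abs_lt] at h1
    have h2 : -3 / 2 < (x - Real.log N / 2) / (δ * Real.log N / 2) := by linarith [h1.1]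
    have h3 : (x - Real.log N / 2) / (δ * Real.log N / 2) < 1 := by linarith [h1.2]
    rw [lt_div_iff₀ d0] at h2
    rw [div_lt_iff₀ d0] at h3
    constructor <;> linarith
  · change dist _ _ ≤ (31 / 25 : ℝ)
    have h2 : -149 / 100 ≤ (x - Real.log N / 2) / (δ * Real.log N / 2) := by
      rw [le_div_iff₀ d0]
      linarith
    have h3 : (x - Real.log N / 2) / (δ * Real.log N / 2) ≤ 99 / 100 := by
      rw [div_le_iff₀ d0]
      linarith
    rw [Real.dist_eq, abs_le]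
    constructor <;> linarith

theorem lam0 (N : ℕ) : 0 ≤ lam N := sum_nonneg fun _ _ => by positivity

theorem om0 (N k : ℕ) : 0 ≤ om N k := Nat.cast_nonneg _

theorem sub {x y : ℝ} {k : ℕ} (hk : k ≠ 0) : (prs x y).filter (· ∣ k) ⊆ k.primeFactors :=
  fun _ hp => Nat.mem_primeFactors.2 ⟨(mem_prs (mem_filter.1 hp).1).1, (mem_filter.1 hp).2, hk⟩

theorem fac {p : ℝ} (h : 2 ≤ p) : 1 ≤ p / (p - 1) ∧ p / (p - 1) ≤ 2 :=
  ⟨(one_le_div (by linarith)).2 (by linarith), (div_le_iff₀ (by linarith)).2 (by linarith)⟩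

theorem kz1 (z : ℝ) (k : ℕ) : 1 ≤ kz z k :=
  prod_induction _ (fun x : ℝ => 1 ≤ x) (fun _ _ => one_le_mul_of_one_le_of_one_le) le_rfl
    fun _ hp => (fac (two_le (mem_filter.1 hp).1)).1

theorem tau2 {k : ℕ} (hk : k ≠ 0) : (2 : ℝ) ^ k.primeFactors.card ≤ tau k := by
  have h : 2 ^ k.primeFactors.card ≤ k.divisors.card := by
    rw [Nat.card_divisors hk]
    refine pow_card_le_prod _ _ _ fun p hp => ?_
    have := (Nat.prime_of_mem_primeFactors hp).factorization_pos_of_dvd hk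
      (Nat.dvd_of_mem_primeFactors hp)
    omega
  unfold tau
  exact_mod_cast h

theorem kz2 (z : ℝ) {k : ℕ} (hk : k ≠ 0) : kz z k ≤ tau k := by
  refine le_trans ?_ ((pow_le_pow_right₀ one_le_two (card_le_card (sub (x := 1) (y := z) hk))).trans
    (tau2 hk))
  rw [← prod_const]
  exact prod_le_prod (fun p hp => zero_le_one.trans (fac (two_le (mem_filter.1 hp).1)).1)
    fun p hp => (fac (two_le (mem_filter.1 hp).1)).2

theorem kz3 (z : ℝ) {k : ℕ} (hk : k ≠ 0) : kz z k * k.totient ≤ k := by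
  have t : ∀ p ∈ k.primeFactors, (2 : ℝ) ≤ p := fun p hp => by
    exact_mod_cast (Nat.prime_of_mem_primeFactors hp).two_le
  have h1 : kz z k ≤ ∏ p ∈ k.primeFactors, (p : ℝ) / (p - 1) :=
    prod_le_prod_of_subset_of_one_le (sub hk)
      (fun p hp => zero_le_one.trans (fac (two_le (mem_filter.1 hp).1)).1) fun p hp _ => (fac (t p hp)).1
  have h2 : (k.totient : ℝ) * ∏ p ∈ k.primeFactors, (p : ℝ) =
      k * ∏ p ∈ k.primeFactors, ((p : ℝ) - 1) := by
    have := congrArg (Nat.cast : ℕ → ℝ) (Nat.totient_mul_prod_primeFactors k)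
    push_cast at this
    rw [this]
    congr 1
    exact prod_congr rfl fun p hp => by
      rw [Nat.cast_sub (Nat.prime_of_mem_primeFactors hp).one_le, Nat.cast_one]
  have h3 : 0 < ∏ p ∈ k.primeFactors, ((p : ℝ) - 1) := prod_pos fun p hp => by linarith [t p hp]
  refine (mul_le_mul_of_nonneg_right h1 (Nat.cast_nonneg _)).trans (le_of_eq ?_)
  rw [prod_div_distrib, div_mul_eq_mul_div, div_eq_iff h3.ne', mul_comm, h2]

theorem wt0 {δ : ℝ} {N : ℕ} (hδ : 0 < δ) (hN : 2 ≤ N) (k : ℕ) : 0 ≤ wt δ N k := by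
  have := (psiA hδ hN (Real.log k)).1
  have := lam0 N
  have := om0 N k
  unfold wt
  split_ifs <;> positivity

theorem wt1 {δ : ℝ} {N k : ℕ} (hδ : 0 < δ) (hN : 2 ≤ N) (hk : k ≠ 0) (h : wt δ N k ≠ 0) :
    k ≤ KK δ N := by
  have n1 : (1 : ℝ) ≤ N := by exact_mod_cast one_le_two.trans hN
  refine Nat.le_floor ?_
  by_cases c : (k : ℝ) ≤ (N : ℝ) ^ (1 / 2 - 3 * δ / 4)
  · exact c.trans (Real.rpow_le_rpow_of_exponent_le n1 (by linarith))
  · have h1 : psi δ N (Real.log k) ≠ 0 := fun e => h (by rw [wt, if_neg c, e]; simp)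
    rw [Real.le_rpow_iff_log_le (by positivity) (by linarith)]
    exact ((psiA hδ hN _).2.2.1 h1).2.le

theorem wt2 {δ : ℝ} {N k : ℕ} (hδ : 0 < δ) (hN : 2 ≤ N) (hk : k ≠ 0) (h : 3 ≤ lam N) :
    wt δ N k ≤ tau k := by
  obtain ⟨p0, p1, -⟩ := psiA hδ hN (Real.log k)
  have h1 : om N k ≤ k.primeFactors.card := Nat.cast_le.2 (card_le_card (sub hk))
  have h2 : (k.primeFactors.card : ℝ) + 1 ≤ 2 ^ k.primeFactors.card := by
    exact_mod_cast Nat.lt_two_pow_self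
  have h3 : 3 / (4 * lam N) ≤ 1 := (div_le_one (by linarith)).2 (by linarith)
  have h4 : 3 / (4 * lam N) * psi δ N (Real.log k) * om N k ≤ om N k :=
    mul_le_of_le_one_left (om0 N k) (mul_le_one₀ h3 p0 p1)
  have h5 := tau2 hk
  unfold wt
  split_ifs <;> linarith

theorem ww1 {δ : ℝ} {a N k : ℕ} (h : ww δ a N k ≠ 0) :
    (Squarefree k ∧ k.Coprime (30 * a)) ∧ wt δ N k ≠ 0 := by
  unfold ww at h
  split_ifs at h with c
  · exact ⟨c, right_ne_zero_of_mul h⟩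
  · exact absurd rfl h

end WbA

open WbA in
theorem wbOf : WbOf := by
  refine fun h => ⟨lamA h, fun δ N hδ hN => ⟨psiA hδ hN, fun a k =>
    ⟨wt0 hδ hN k, ?_, fun h => ?_, fun h => ?_, fun h => ⟨kz1 _ k, kz3 _ h.ne_zero⟩, fun h => ?_⟩⟩⟩
  · unfold ww
    split_ifs
    · exact mul_nonneg (zero_le_one.trans (kz1 _ k)) (wt0 hδ hN k)
    · exact le_rfl
  · obtain ⟨⟨h1, h2⟩, h3⟩ := ww1 h
    exact ⟨h1, h2, Nat.one_le_iff_ne_zero.2 h1.ne_zero, wt1 hδ hN h1.ne_zero h3⟩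
  · unfold ww
    split_ifs with c
    · rw [sq]
      exact mul_le_mul (kz2 _ c.1.ne_zero) (wt2 hδ hN c.1.ne_zero h) (wt0 hδ hN k)
        (Nat.cast_nonneg _)
    · positivity
  · obtain ⟨j, -, hj⟩ := exists_ne_zero_of_sum_ne_zero h
    exact Nat.Coprime.coprime_mul_right
      (ww1 (right_ne_zero_of_mul (div_ne_zero_iff.1 hj).1)).1.2

end Pool.Agent.MP_20b2fd_nt.H38
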