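import Pool.Agent.MP_20b2fd_nt.H38.SpecN

/-! Windows of levels without exceptional zeros. -/

set_option autoImplicit false

namespace Pool.Agent.MP_20b2fd_nt.H38

theorem winOf : WinOf := by
  intro ⟨c₀, c0, _, hP⟩ hB K hK
  have c1 : 0 < c₀ / (2 * K) := by positivity
  have c2 : 2 * K * (c₀ / (2 * K)) = c₀ := by field_simp
  obtain ⟨δ, κ, δ0, κ0, N₀, H⟩ := hB _ c1
  generalize c₀ / (2 * K) = c at *
  refine ⟨δ, δ0, fun Y₀ => ?_⟩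
  by_contra k
  push Not at k
  obtain ⟨N₁, p₁, a₁, -, b₁⟩ := k (max Y₀ (max N₀ (2 ^ κ⁻¹))) (le_max_left _ _)
  obtain ⟨a₂, a₃⟩ := max_le_iff.1 a₁
  obtain ⟨a₃, a₄⟩ := max_le_iff.1 a₃
  obtain ⟨q₁, _, χ₁, β₁, -, x₁, x₂, x₃, x₄, x₅, x₆⟩ :=
    (H N₁ (by exact_mod_cast a₃) p₁).resolve_left b₁.not_ge
  have n₁ : (0 : ℝ) < N₁ := by exact_mod_cast p₁.pos
  have t₁ : 2 ≤ (N₁ : ℝ) ^ κ := by
    rw [← Real.rpow_inv_rpow zero_le_two κ0.ne']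
    exact Real.rpow_le_rpow (by positivity) a₄ κ0.le
  have l₁ : 0 < Real.log ((N₁ : ℝ) ^ κ) := Real.log_pos (by linarith)
  have b0 : 0 < 1 - β₁ := sub_pos.2 x₅
  have u0 : 0 < c / (1 - β₁) := div_pos c1 b0
  have l₂ : Real.log ((N₁ : ℝ) ^ κ) ≤ c / (1 - β₁) := by
    rw [le_div_iff₀' b0, ← le_div_iff₀ l₁]
    linarith
  have u1 : c₀ / (1 - β₁) = 2 * K * (c / (1 - β₁)) := by rw [← c2, mul_div_assoc]
  have y₁ : (N₁ : ℝ) ≤ Real.exp (2 * (c / (1 - β₁)) / κ) := by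
    rw [← Real.log_le_iff_le_exp n₁, le_div_iff₀' κ0, ← Real.log_rpow n₁]
    linarith
  obtain ⟨N₂, p₂, d₁, d₂, b₂⟩ := k _ ((a₂.trans y₁))
  obtain ⟨q₂, _, χ₂, β₂, -, w₁, w₂, w₃, w₄, -, w₆⟩ :=
    (H N₂ (by exact_mod_cast (a₃.trans y₁).trans d₁) p₂).resolve_left b₂.not_ge
  have n₂ : (0 : ℝ) < N₂ := by exact_mod_cast p₂.pos
  rw [← Real.le_log_iff_exp_le n₂, div_le_iff₀' κ0, ← Real.log_rpow n₂] at d₁
  rw [← Real.exp_mul, ← Real.log_le_iff_le_exp n₂, div_mul_eq_mul_div, le_div_iff₀' κ0,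
    ← Real.log_rpow n₂] at d₂
  have z₁ : (N₁ : ℝ) ^ κ ≤ Real.exp (c₀ / (1 - β₁)) := by
    rw [← Real.log_le_iff_le_exp (by positivity), u1]
    nlinarith
  have z₂ : (N₂ : ℝ) ^ κ ≤ Real.exp (c₀ / (1 - β₁)) := by
    rw [← Real.log_le_iff_le_exp (by positivity), u1]
    linarith
  have e : 1 - c₀ / Real.log (Real.exp (c₀ / (1 - β₁))) = β₁ := by
    rw [Real.log_exp]
    field_simp
    ring
  have v : c / Real.log ((N₂ : ℝ) ^ κ) ≤ (1 - β₁) / 2 := by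
    refine (div_le_div_of_nonneg_left c1.le (by positivity) d₁).trans (le_of_eq ?_)
    field_simp
  have := hP _ q₁ q₂ χ₁ χ₂ β₁ β₂ (t₁.trans z₁) (x₃.trans z₁) (w₃.trans z₂) x₂ x₁ w₂ w₁ x₆ w₆ e.le
    (by rw [e]; linarith)
  linarith

end Pool.Agent.MP_20b2fd_nt.H38
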