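import Pool.Agent.MP_20b2fd_nt.H38.SpecN
import Pool.Agent.MP_74e98a_nt.H25.Div

/-! The size of the mollifier. -/

set_option autoImplicit false

namespace Pool.Agent.MP_20b2fd_nt.H38

open Finset Filter ArithmeticFunction

namespace XnA

theorem ev (c : ℝ) {s : ℝ} (hs : 0 < s) : ∀ᶠ N : ℕ in atTop, c < (N : ℝ) ^ s :=
  ((tendsto_rpow_atTop hs).comp tendsto_natCast_atTop_atTop).eventually_gt_atTop c

theorem one {K m : ℕ} {w : ℕ → ℝ} {T H : ℝ} (hT : ∀ k ≤ K, tau k ≤ T)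
    (hw : ∀ k, 0 ≤ w k ∧ (w k ≠ 0 → k ≤ K) ∧ w k ≤ tau k ^ 2) (hm : 1 ≤ m)
    (hH : ∑ j ∈ Icc 1 K, (1 : ℝ) / j ≤ H) : |xw K w m| * m ≤ T ^ 3 * H := by
  have t0 : ∀ k, 0 ≤ tau k := fun k => Nat.cast_nonneg _
  have T0 : 0 ≤ T := (t0 0).trans (hT 0 (Nat.zero_le _))
  have m0 : (0 : ℝ) < m := by exact_mod_cast hm
  refine le_trans ?_ (mul_le_mul_of_nonneg_left hH (pow_nonneg T0 3))
  rw [mul_sum, xw]
  refine (mul_le_mul_of_nonneg_right (abs_sum_le_sum_abs _ _) m0.le).trans ?_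
  rw [sum_mul]
  refine sum_le_sum fun j hj => ?_
  have j0 : (0 : ℝ) < j := by exact_mod_cast (mem_Icc.1 hj).1
  have h1 : w (m * j) ≤ T ^ 2 := by
    by_cases h : w (m * j) = 0
    · rw [h]
      positivity
    · exact (hw _).2.2.trans (pow_le_pow_left₀ (t0 _) (hT _ ((hw _).2.1 h)) 2)
  have h2 : |(moebius m : ℝ)| ≤ 1 := by exact_mod_cast abs_moebius_le_one
  have h3 := hT j (mem_Icc.1 hj).2
  have h4 := (hw (m * j)).1
  have h5 := t0 j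
  rw [abs_div, abs_mul, abs_mul, abs_of_nonneg h5, abs_of_nonneg h4, abs_of_pos (mul_pos m0 j0)]
  calc _ ≤ 1 * T * T ^ 2 / (m * j) * m := by gcongr
    _ = _ := by field_simp

end XnA

theorem xnOf : XnOf := by
  intro hD hW δ a δ0 δ1 ha
  obtain ⟨N₁, hN₁⟩ := hW.1 1 one_pos
  obtain ⟨C, C1, hC⟩ := MP_74e98a_nt.H25.divisor_bound (δ / 16) (by positivity)
  obtain ⟨N₀, h0⟩ := eventually_atTop.1 ((eventually_ge_atTop (max N₁ 2)).and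
    ((XnA.ev (30 * a ^ 3) (s := 1 / 2 - δ / 2) (by linarith)).and
    (XnA.ev ((∑ j ∈ J0 a, |Dj a j| * j) * (C ^ 3 * (1 + 16 / δ))) (s := δ / 4) (by positivity))))
  refine ⟨N₀, fun N hN => ?_⟩
  obtain ⟨h1, h2, h3⟩ := h0 N hN
  obtain ⟨h1, h4⟩ := max_le_iff.1 h1
  have N1 : (1 : ℝ) ≤ N := by exact_mod_cast (by omega : 1 ≤ N)
  have N0 : (0 : ℝ) < N := by linarith
  have K1 : (KK δ N : ℝ) ≤ (N : ℝ) ^ (1 / 2 + δ / 2) := Nat.floor_le (by positivity)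
  have K2 : (KK δ N : ℝ) ≤ N := K1.trans (Real.rpow_le_self_of_one_le N1 (by linarith))
  refine ⟨fun i hi => ?_, ?_⟩
  · obtain ⟨i1, i2⟩ := mem_product.1 hi
    obtain ⟨j1, j2, -⟩ := (hD.2 a ha).2.2.2.2.2 _ i1
    obtain ⟨m1, m2⟩ := mem_Icc.1 i2
    refine ⟨Nat.mul_pos j1 m1, ?_⟩
    have j3 : (i.1 : ℝ) ≤ 30 * a ^ 2 := by exact_mod_cast j2
    have m3 : (i.2 : ℝ) ≤ (N : ℝ) ^ (1 / 2 + δ / 2) := (Nat.cast_le.2 m2).trans K1
    rw [← Nat.cast_lt (α := ℝ), nn, Nat.cast_mul, Nat.cast_mul]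
    calc _ ≤ (a : ℝ) * (30 * a ^ 2 * (N : ℝ) ^ (1 / 2 + δ / 2)) := by gcongr
      _ = 30 * a ^ 3 * (N : ℝ) ^ (1 / 2 + δ / 2) := by ring
      _ < (N : ℝ) ^ (1 / 2 - δ / 2) * (N : ℝ) ^ (1 / 2 + δ / 2) := by gcongr
      _ = N := by
        rw [← Real.rpow_add N0]
        norm_num
  have r1 : 1 ≤ (N : ℝ) ^ (δ / 16) := Real.one_le_rpow N1 (by positivity)
  have hH : ∑ j ∈ Icc 1 (KK δ N), (1 : ℝ) / j ≤ (1 + 16 / δ) * (N : ℝ) ^ (δ / 16) := by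
    have a1 : ∑ j ∈ Icc 1 (KK δ N), (1 : ℝ) / j ≤ 1 + Real.log N :=
      (sum_le_sum_of_subset_of_nonneg (Icc_subset_Icc_right (Nat.cast_le.1 K2))
        fun _ _ _ => by positivity).trans
        (by simpa [harmonic_eq_sum_Icc] using harmonic_le_one_add_log N)
    have a2 := Real.log_le_rpow_div N0.le (show 0 < δ / 16 by positivity)
    rw [div_div_eq_mul_div, mul_div_assoc] at a2
    linarith
  have hx : ∑ m ∈ Icc 1 (KK δ N), |xw (KK δ N) (ww δ a N) m| * m ≤ KK δ N *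
      ((C * (N : ℝ) ^ (δ / 16)) ^ 3 * ((1 + 16 / δ) * (N : ℝ) ^ (δ / 16))) := by
    refine (sum_le_card_nsmul _ _ _ fun m hm => XnA.one (T := C * (N : ℝ) ^ (δ / 16))
      (fun k hk => (hC k).trans ?_) (fun k => ?_) (mem_Icc.1 hm).1 hH).trans_eq (by simp)
    · gcongr
      exact hk.trans (Nat.cast_le.1 K2)
    · obtain ⟨-, b1, b2, b3, -⟩ := (hW.2 δ N δ0 h4).2 a k
      exact ⟨b1, fun h => (b2 h).2.2.2, b3 (hN₁ N h1).1⟩
  have e : (N : ℝ) ^ (δ / 4) = ((N : ℝ) ^ (δ / 16)) ^ 4 := by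
    rw [← Real.rpow_natCast, ← Real.rpow_mul N0.le]
    congr 1
    push_cast
    ring
  have A0 : 0 ≤ ∑ j ∈ J0 a, |Dj a j| * j := sum_nonneg fun _ _ => by positivity
  calc _ = (∑ j ∈ J0 a, |Dj a j| * j) * ∑ m ∈ Icc 1 (KK δ N), |xw (KK δ N) (ww δ a N) m| * m := by
        rw [JJ, sum_product, sum_mul_sum]
        refine sum_congr rfl fun j _ => sum_congr rfl fun m _ => ?_
        simp only [xx, nn, abs_mul, Nat.cast_mul]
        ring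
    _ ≤ (∑ j ∈ J0 a, |Dj a j| * j) * ((N : ℝ) ^ (1 / 2 + δ / 2) *
        ((C * (N : ℝ) ^ (δ / 16)) ^ 3 * ((1 + 16 / δ) * (N : ℝ) ^ (δ / 16)))) :=
      mul_le_mul_of_nonneg_left (hx.trans (by gcongr)) A0
    _ = (∑ j ∈ J0 a, |Dj a j| * j) * (C ^ 3 * (1 + 16 / δ)) *
        ((N : ℝ) ^ (1 / 2 + δ / 2) * (N : ℝ) ^ (δ / 4)) := by
      rw [e]
      ring
    _ ≤ (N : ℝ) ^ (δ / 4) * ((N : ℝ) ^ (1 / 2 + δ / 2) * (N : ℝ) ^ (δ / 4)) := by gcongr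
    _ = _ := by
      rw [← Real.rpow_add N0, ← Real.rpow_add N0]
      congr 1
      ring

end Pool.Agent.MP_20b2fd_nt.H38
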