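import Pool.Agent.MP_20b2fd_nt.H38.SpecZ
import Pool.Agent.MP_c5bf7b_nt.H38.Zeta

/-! The classical region without zeros. -/

set_option autoImplicit false

namespace Pool.Agent.MP_20b2fd_nt.H38

open Complex ArithmeticFunction
open Pool.Agent.MP_c5bf7b_nt.H38 (Phi Ch)
open scoped Classical

namespace ZfA

variable {q : ℕ}

noncomputable def LL (χ : Ch q) (σ t : ℝ) : ℝ :=
  (LSeries (fun n => (vonMangoldt n : ℂ) * χ n) (σ + t * I)).re

theorem hs (χ : Ch q) {σ : ℝ} (hσ : 1 < σ) (t : ℝ) :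
    HasSum (fun n : ℕ => vonMangoldt n / (n : ℝ) ^ σ * (χ n * (n : ℂ) ^ (-(t * I))).re)
      (LL χ σ t) := by
  have h1 : LSeriesSummable (fun n => (vonMangoldt n : ℂ) * χ n) (σ + t * I) := by
    have := DirichletCharacter.LSeriesSummable_twist_vonMangoldt χ (s := σ + t * I)
      (by simpa using hσ)
    rwa [mul_comm] at this
  refine (Complex.hasSum_re h1.hasSum).congr_fun fun n => ?_
  rcases Nat.eq_zero_or_pos n with rfl | hn
  · simp
  have hn0 : (n : ℂ) ≠ 0 := by exact_mod_cast hn.ne'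
  rw [LSeries.term_of_ne_zero hn.ne', ← re_ofReal_mul, cpow_add _ _ hn0, cpow_neg, ofReal_div,
    ofReal_cpow (Nat.cast_nonneg n), ofReal_natCast]
  congr 1
  ring

theorem norm_u (χ : Ch q) (n : ℕ) (t : ℝ) (hn : 0 < n) : ‖χ n * (n : ℂ) ^ (-(t * I))‖ ≤ 1 := by
  rw [norm_mul, norm_natCast_cpow_of_pos hn]
  simpa using χ.norm_le_one n

theorem pos3 (χ : Ch q) {σ : ℝ} (hσ : 1 < σ) (t : ℝ) :
    0 ≤ 3 * LL (1 : Ch q) σ 0 + 4 * LL χ σ t + LL (χ ^ 2) σ (2 * t) := by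
  refine ((((hs 1 hσ 0).mul_left 3).add ((hs χ hσ t).mul_left 4)).add
    (hs (χ ^ 2) hσ (2 * t))).nonneg fun n => ?_
  rcases Nat.eq_zero_or_pos n with rfl | hn
  · simp
  have h0 : 0 ≤ vonMangoldt n / (n : ℝ) ^ σ := div_nonneg vonMangoldt_nonneg (by positivity)
  have h1 : (χ ^ 2) n * (n : ℂ) ^ (-(((2 * t : ℝ) : ℂ) * I)) = (χ n * (n : ℂ) ^ (-(t * I))) ^ 2 := by
    rw [MulChar.pow_apply' χ two_ne_zero, mul_pow, ← cpow_nat_mul]
    congr 2
    push_cast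
    ring
  rw [h1]
  by_cases hu : IsUnit (n : ZMod q)
  · have h2 := norm_u χ n t hn
    set u := χ n * (n : ℂ) ^ (-(t * I))
    have h3 : u.re * u.re + u.im * u.im ≤ 1 := by
      rw [← normSq_apply, normSq_eq_norm_sq]
      exact pow_le_one₀ (norm_nonneg _) h2
    have h4 : (u ^ 2).re = u.re * u.re - u.im * u.im := by rw [sq, mul_re]
    have h5 : 0 ≤ 3 + 4 * u.re + (u ^ 2).re := by nlinarith [sq_nonneg (1 + u.re)]
    rw [MulChar.one_apply hu]
    simp only [ofReal_zero, zero_mul, neg_zero, cpow_zero, mul_one, one_re]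
    nlinarith [mul_nonneg h0 h5]
  · simp [MulChar.map_nonunit _ hu]

theorem pos1 (χ : Ch q) {σ : ℝ} (hσ : 1 < σ) : 0 ≤ LL (1 : Ch q) σ 0 + LL χ σ 0 := by
  refine ((hs 1 hσ 0).add (hs χ hσ 0)).nonneg fun n => ?_
  rcases Nat.eq_zero_or_pos n with rfl | hn
  · simp
  have h0 : 0 ≤ vonMangoldt n / (n : ℝ) ^ σ := div_nonneg vonMangoldt_nonneg (by positivity)
  by_cases hu : IsUnit (n : ZMod q)
  · have h2 := (abs_le.1 ((abs_re_le_norm _).trans (norm_u χ n 0 hn))).1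
    set u := χ n * (n : ℂ) ^ (-(((0 : ℝ) : ℂ) * I))
    rw [MulChar.one_apply hu]
    simp only [ofReal_zero, zero_mul, neg_zero, cpow_zero, mul_one, one_re]
    nlinarith [mul_nonneg h0 (by linarith : 0 ≤ 1 + u.re)]
  · simp [MulChar.map_nonunit _ hu]

theorem log_le {z t : ℝ} (hz : 2 ≤ z) (hq : (q : ℝ) ≤ z) (hq0 : 0 < q) (ht : |t| ≤ 2 * z ^ 7) :
    Real.log (q * (|t| + 2)) ≤ 10 * Real.log z := by
  have h1 : (1 : ℝ) ≤ z ^ 7 := one_le_pow₀ (by linarith)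
  have h2 : (4 : ℝ) ≤ z ^ 2 := by nlinarith
  have h3 : |t| + 2 ≤ z ^ 9 := by
    calc |t| + 2 ≤ 4 * z ^ 7 := by linarith
      _ ≤ z ^ 2 * z ^ 7 := by gcongr
      _ = _ := by ring
  have h4 : Real.log (z ^ 10) = 10 * Real.log z := by rw [Real.log_pow]; norm_num
  rw [← h4]
  refine Real.log_le_log (by positivity) ?_
  calc (q : ℝ) * (|t| + 2) ≤ z * z ^ 9 := by gcongr
    _ = _ := by ring

theorem re_inv (δ t : ℝ) (s : ℂ) (h1 : s.re = δ) (h2 : s.im = t) :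
    (s⁻¹).re = δ / (δ ^ 2 + t ^ 2) := by
  rw [inv_re, normSq_apply, h1, h2, sq, sq]

/-- the upper bound with a chosen set of zeros -/
theorem up (hP : PhZ) (hZ : ZlS) : ∃ K : ℝ, 1 ≤ K ∧ ∀ (z : ℝ) (q : ℕ) [NeZero q] (χ : Ch q)
    (δ t : ℝ) (Y : Finset ℂ), 2 ≤ z → (q : ℝ) ≤ z → |t| ≤ 2 * z ^ 7 → 0 < δ → δ ≤ 1 →
    (∀ ρ ∈ Y, ‖ρ - (2 + t * I)‖ < 5 / 4 ∧ Phi χ ρ = 0) →
    LL χ (1 + δ) t ≤ (if χ = 1 then δ / (δ ^ 2 + t ^ 2) else 0) -
      ∑ ρ ∈ Y, ((((1 + δ : ℝ) : ℂ) + t * I - ρ)⁻¹).re + K * Real.log z := by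
  obtain ⟨C, -, hP⟩ := hP
  obtain ⟨K, hK, hZ⟩ := hZ
  refine ⟨K * 10, by linarith, fun z q _ χ δ t Y hz hq ht h0 h1 hY => ?_⟩
  obtain ⟨-, p2, -, -, p5, -⟩ := hP q χ
  obtain ⟨Z, z1, z2, z3⟩ := hZ q χ t
  set s : ℂ := ((1 + δ : ℝ) : ℂ) + t * I with hs
  have s1 : s.re = 1 + δ := by simp [hs]
  have s2 : s.im = t := by simp [hs]
  have a1 := z3 s (by
    rw [show s - (2 + t * I) = ((δ - 1 : ℝ) : ℂ) by rw [hs]; push_cast; ring, norm_real,
      Real.norm_eq_abs, abs_lt]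
    constructor <;> linarith) (p2 s (by linarith))
  have a2 := (abs_le.1 ((abs_re_le_norm _).trans a1)).1
  have a3 := congrArg re (p5 s (by linarith))
  have a4 : (if χ = 1 then 1 / (s - 1) else 0 : ℂ).re =
      if χ = 1 then δ / (δ ^ 2 + t ^ 2) else 0 := by
    split_ifs
    · rw [one_div]
      exact re_inv _ _ _ (by simp [s1]) (by simp [s2])
    · rfl
  have a5 : ∑ ρ ∈ Y, ((s - ρ)⁻¹).re ≤ ((Z.map fun ρ => (s - ρ)⁻¹).sum).re := by
    have b1 : Y.val ≤ Z := (Multiset.le_iff_subset Y.nodup).2 fun ρ hρ =>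
      z2 ρ (hY ρ hρ).1 (hY ρ hρ).2
    obtain ⟨W, rfl⟩ := Multiset.le_iff_exists_add.1 b1
    rw [← coe_reAddGroupHom, map_multiset_sum, Multiset.map_map, Multiset.map_add,
      Multiset.sum_add]
    refine le_add_of_nonneg_right (Multiset.sum_nonneg fun x hx => ?_)
    obtain ⟨ρ, hρ, rfl⟩ := Multiset.mem_map.1 hx
    simp only [Function.comp, coe_reAddGroupHom]
    rw [inv_re, sub_re]
    exact div_nonneg (by linarith [(z1 ρ (Multiset.mem_add.2 (Or.inr hρ))).2.1])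
      (normSq_nonneg _)
  have a6 := mul_le_mul_of_nonneg_left (log_le hz hq (NeZero.pos q) ht) (by linarith : 0 ≤ K)
  rw [neg_re, sub_re, a4] at a3
  rw [sub_re] at a2
  unfold LL
  rw [← hs]
  linarith

end ZfA

open ZfA in
theorem zfOf : ZfOf := by
  intro hP hZ
  obtain ⟨K, hK, hup⟩ := up hP hZ
  obtain ⟨C, -, hP⟩ := hP
  obtain ⟨c, hc, hζ⟩ := Pool.Agent.MP_c5bf7b_nt.H38.zeta
  have hK0 : 0 < K := by linarith
  have hc1 : 1 / (570 * K) ≤ 1 / 570 := by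
    apply one_div_le_one_div_of_le <;> linarith
  refine ⟨min (c / 9) (1 / (570 * K)), by positivity, (min_le_right _ _).trans (by linarith),
    fun z q _ χ ρ hz hq h0 hγ hβ => ?_⟩
  obtain ⟨-, p2, -, p4, -⟩ := hP q χ
  set l := Real.log z with hl
  have l1 : 1 / 2 ≤ l := by
    have := Real.log_le_log two_pos hz
    linarith [Real.log_two_gt_d9]
  have l0 : 0 < l := by linarith
  have z7 : (1 : ℝ) ≤ z ^ 7 := one_le_pow₀ (by linarith)
  have b1 : ρ.re < 1 := by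
    by_contra h
    exact p2 ρ (not_lt.1 h) h0
  set δ := 1 / (30 * K * l) with hδ
  have d0 : 0 < δ := by positivity
  have d1 : δ ≤ 1 / 15 := by
    apply one_div_le_one_div_of_le <;> nlinarith
  have d2 : K * l = 1 / δ / 30 := by rw [hδ]; field_simp
  have b2 : 1 - ρ.re ≤ δ / 19 := by
    have : min (c / 9) (1 / (570 * K)) / l ≤ 1 / (570 * K) / l := by
      gcongr; exact min_le_right _ _
    rw [show δ / 19 = 1 / (570 * K) / l by rw [hδ]; field_simp; norm_num]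
    linarith
  have hχ1 : χ ≠ 1 := by
    rintro rfl
    have h1 := hζ q ρ (by linarith) h0
    have h2 : Real.log (|ρ.im| + 2) ≤ 8 * l := by
      rw [show 8 * l = Real.log (z ^ 8) by rw [Real.log_pow]; norm_num [hl]]
      refine Real.log_le_log (by positivity) ?_
      have : (2 : ℝ) ≤ z ^ 7 := le_trans hz (le_self_pow₀ (by linarith) (by norm_num))
      calc |ρ.im| + 2 ≤ 2 * z ^ 7 := by linarith
        _ ≤ z * z ^ 7 := by gcongr
        _ = _ := by ring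
    have h3 : c / (8 * l) ≤ c / Real.log (|ρ.im| + 2) :=
      div_le_div_of_nonneg_left hc.le (Real.log_pos (by linarith [abs_nonneg ρ.im])) h2
    have h4 : min (c / 9) (1 / (570 * K)) / l ≤ c / 9 / l := by
      gcongr; exact min_le_left _ _
    have h5 : c / 9 / l < c / (8 * l) := by
      rw [div_div]
      exact div_lt_div_of_pos_left hc (by positivity) (by linarith)
    linarith
  have x0 : 0 < 1 / δ := by positivity
  have u0 : LL (1 : Ch q) (1 + δ) 0 ≤ 1 / δ + K * l := by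
    have := hup z q 1 δ 0 ∅ hz hq (by simp; linarith) d0 (by linarith) (by simp)
    rw [if_pos rfl, Finset.sum_empty, show δ / (δ ^ 2 + 0 ^ 2) = 1 / δ by field_simp; ring] at this
    linarith
  have u1 : LL χ (1 + δ) ρ.im ≤ -(19 / 20 * (1 / δ)) + K * l := by
    have := hup z q χ δ ρ.im {ρ} hz hq (by linarith) d0 (by linarith) fun r hr => by
      rw [Finset.mem_singleton.1 hr]
      refine ⟨?_, h0⟩
      rw [show ρ - (2 + ρ.im * I) = ((ρ.re - 2 : ℝ) : ℂ) by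
        apply Complex.ext <;> simp, norm_real, Real.norm_eq_abs, abs_lt]
      constructor <;> linarith
    rw [if_neg hχ1, Finset.sum_singleton,
      re_inv (1 + δ - ρ.re) 0 _ (by simp) (by simp)] at this
    have h1 : 19 / 20 * (1 / δ) ≤ (1 + δ - ρ.re) / ((1 + δ - ρ.re) ^ 2 + 0 ^ 2) := by
      have h2 : 0 < 1 + δ - ρ.re := by linarith
      rw [show (1 + δ - ρ.re) / ((1 + δ - ρ.re) ^ 2 + 0 ^ 2) = 1 / (1 + δ - ρ.re) by
        field_simp; ring, mul_one_div, div_le_div_iff₀ d0 h2]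
      linarith
    linarith
  have u2 := hup z q (χ ^ 2) δ (2 * ρ.im) ∅ hz hq (by rw [abs_mul, abs_two]; linarith) d0
    (by linarith) (by simp)
  rw [Finset.sum_empty, sub_zero, ← hl] at u2
  have q3 := pos3 χ (by linarith : 1 < 1 + δ) ρ.im
  have hχ2 : χ ^ 2 = 1 := by
    by_contra h
    rw [if_neg h] at u2
    linarith
  refine ⟨hχ2, hχ1, ?_⟩
  by_contra hγ0
  by_cases hg : δ / 2 ≤ |ρ.im|
  · rw [if_pos hχ2] at u2
    have h1 : δ / (δ ^ 2 + (2 * ρ.im) ^ 2) ≤ 1 / δ / 2 := by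
      have h2 : (δ / 2) ^ 2 ≤ ρ.im ^ 2 := by
        rw [← sq_abs ρ.im]; gcongr
      rw [div_div 1 δ 2, div_le_div_iff₀ (by positivity) (by positivity)]
      nlinarith
    linarith
  · have hg' := abs_lt.1 (not_le.1 hg)
    have hinv : χ⁻¹ = χ := by
      rw [inv_eq_iff_mul_eq_one, ← sq, hχ2]
    have h1 := p4 ρ
    rw [hinv, h0, _root_.map_zero] at h1
    have hne : ρ ≠ (starRingEnd ℂ) ρ := fun e => hγ0 (conj_eq_iff_im.1 e.symm)
    have hb : ∀ r : ℂ, r.re = ρ.re → |r.im| = |ρ.im| → ‖r - (2 + (0 : ℝ) * I)‖ < 5 / 4 := by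
      intro r e1 e2
      refine (norm_le_abs_re_add_abs_im _).trans_lt ?_
      simp only [ofReal_zero, zero_mul, add_zero, sub_re, sub_im, re_ofNat, im_ofNat, sub_zero]
      rw [e1, e2, abs_of_nonpos (by linarith)]
      linarith [not_le.1 hg]
    have u3 := hup z q χ δ 0 {ρ, (starRingEnd ℂ) ρ} hz hq (by simp; linarith) d0 (by linarith)
      fun r hr => by
        rcases Finset.mem_insert.1 hr with rfl | hr
        · exact ⟨hb _ rfl rfl, h0⟩
        · rw [Finset.mem_singleton.1 hr]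
          exact ⟨hb _ rfl (by simp), h1⟩
    rw [if_neg hχ1, Finset.sum_pair hne, re_inv (1 + δ - ρ.re) (-ρ.im) _ (by simp) (by simp),
      re_inv (1 + δ - ρ.re) ρ.im _ (by simp) (by simp), neg_sq, ← hl] at u3
    have h2 : 7 / 10 * (1 / δ) ≤ (1 + δ - ρ.re) / ((1 + δ - ρ.re) ^ 2 + ρ.im ^ 2) := by
      have h3 : 0 < 1 + δ - ρ.re := by linarith
      have h4 : ρ.im ^ 2 ≤ (δ / 2) ^ 2 := sq_le_sq' hg'.1.le hg'.2.le
      have h5 : (1 + δ - ρ.re) ^ 2 ≤ (20 / 19 * δ) ^ 2 := by gcongr; linarith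
      rw [mul_one_div, div_le_div_iff₀ d0 (by positivity)]
      nlinarith
    linarith [pos1 χ (by linarith : 1 < 1 + δ)]

end Pool.Agent.MP_20b2fd_nt.H38
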