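import Pool.Agent.MP_20b2fd_nt.H38.AllA
import Pool.Agent.MP_20b2fd_nt.H38.Mer
import Pool.Agent.MP_20b2fd_nt.H38.PhZ
import Pool.Agent.MP_20b2fd_nt.H38.Zl
import Pool.Agent.MP_20b2fd_nt.H38.Zf
import Pool.Agent.MP_20b2fd_nt.H38.Page
import Pool.Agent.MP_20b2fd_nt.H38.E1
import Pool.Agent.MP_20b2fd_nt.H38.Dl
import Pool.Agent.MP_20b2fd_nt.H38.Wb
import Pool.Agent.MP_20b2fd_nt.H38.M1
import Pool.Agent.MP_20b2fd_nt.H38.Cf
import Pool.Agent.MP_20b2fd_nt.H38.M2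
import Pool.Agent.MP_20b2fd_nt.H38.Om
import Pool.Agent.MP_20b2fd_nt.H38.Mf
import Pool.Agent.MP_20b2fd_nt.H38.Mq0
import Pool.Agent.MP_20b2fd_nt.H38.Mq1
import Pool.Agent.MP_20b2fd_nt.H38.Xn
import Pool.Agent.MP_20b2fd_nt.H38.Fm
import Pool.Agent.MP_20b2fd_nt.H38.Mo1
import Pool.Agent.MP_20b2fd_nt.H38.Mo2
import Pool.Agent.MP_20b2fd_nt.H38.Hm
import Pool.Agent.MP_20b2fd_nt.H38.Nu
import Pool.Agent.MP_20b2fd_nt.H38.Nl1
import Pool.Agent.MP_20b2fd_nt.H38.Nl2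
import Pool.Agent.MP_20b2fd_nt.H38.Nl
import Pool.Agent.MP_20b2fd_nt.H38.Fin
import Pool.Agent.MP_20b2fd_nt.H38.Bey
import Pool.Agent.MP_20b2fd_nt.H38.Win

/-! The moments put together. -/

namespace Pool.Agent.MP_20b2fd_nt.H38.All

theorem zl : ZlS := zlOf phZ
theorem dl : DlS := dlOf e1
theorem wb : WbS := wbOf mer
theorem om : OmS := omOf m2
theorem xn : XnS := xnOf dl wb
theorem mo1 : Mo1S := mo1Of dl wb m1 cf (mfOf wb m2) xn fm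
theorem mo2 : Mo2S := mo2Of ph dl wb m1 cf (mq0Of mer wb m2 om) (mq1Of mer wb m2 om) xn
theorem nu : NuS := nuOf kap
theorem nl : NlS := nlOf kap nu (nl1Of mer) nl2
theorem bey_of (h : OdsS) : BeyS :=
  beyOf phZ (zfOf phZ zl) (finOf aut (hmOf ph ker dl fm mo1 mo2 h) nu nl)
theorem win_of (h : OdsS) : WinS := winOf (pageOf phZ zl) (bey_of h)

end Pool.Agent.MP_20b2fd_nt.H38.All
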