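import Pool.Agent.MP_20b2fd_nt.H38.SpecX

/-! The two moments of the perturbed vector. -/

set_option autoImplicit false

namespace Pool.Agent.MP_20b2fd_nt.H38

open Finset
open scoped Real

namespace AsmA

theorem bh_comm (G : ℕ → ℝ) (a b : ℕ) : Bh G a b = Bh G b a := by
  rw [Bh, Bh, Nat.gcd_comm, mul_comm a]

theorem bh_sum {κ : Type} (I : Finset κ) (c : κ → ℝ) (G : κ → ℕ → ℝ) (a b : ℕ) :
    Bh (fun m => ∑ i ∈ I, c i * G i m) a b = ∑ i ∈ I, c i * Bh (G i) a b := by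
  simp only [Bh, mul_sum]
  rw [sum_comm]
  exact sum_congr rfl fun _ _ => sum_congr rfl fun _ _ => mul_left_comm _ _ _

variable {ι : Type} (J : Finset ι) (n : ι → ℕ) (x : ι → ℝ)

theorem op_sum {κ : Type} (I : Finset κ) (c : κ → ℝ) (G : κ → ℕ → ℝ) (b : ℕ) :
    Op J n x (fun m => ∑ i ∈ I, c i * G i m) b = ∑ i ∈ I, c i * Op J n x (G i) b := by
  simp only [Op, bh_sum, mul_sum]
  rw [sum_comm]
  exact sum_congr rfl fun _ _ => sum_congr rfl fun _ _ => mul_left_comm _ _ _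

theorem op_lin (A B : ℕ → ℝ) (s : ℝ) (b : ℕ) :
    Op J n x (fun m => A m + s * B m) b = Op J n x A b + s * Op J n x B b := by
  simp only [Op, Bh, mul_sum, ← sum_add_distrib]
  exact sum_congr rfl fun _ _ => sum_congr rfl fun _ _ => by ring

theorem op_bh (h : HaS) (K : ℕ) (y G : ℕ → ℝ) {a b : ℕ} (ha : 1 ≤ a) (hb : 1 ≤ b) :
    Op (Icc 1 K) id y (fun m => Bh G a m) b = Bh (Op (Icc 1 K) id y G) a b := by
  rw [show Op (Icc 1 K) id y G = fun m => ∑ k ∈ Icc 1 K, y k * Bh G k m from rfl, bh_sum]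
  exact sum_congr rfl fun k hk => congrArg _ (h G a k b ha (mem_Icc.1 hk).1 hb).2

theorem op_mul {K M : ℕ} (y ν G : ℕ → ℝ)
    (h : ∀ k ∈ Icc 1 K, ∀ l ∈ Icc 1 M, G k * G l = Bh G k l) :
    ∑ l ∈ Icc 1 M, ν l * Op (Icc 1 K) id y G l =
      (∑ k ∈ Icc 1 K, y k * G k) * ∑ l ∈ Icc 1 M, ν l * G l := by
  rw [mul_sum]
  refine sum_congr rfl fun l hl => ?_
  rw [mul_comm _ (ν l * G l), mul_assoc, mul_sum]
  refine congrArg _ (sum_congr rfl fun k hk => ?_)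
  rw [id, ← h k hk l hl]
  ring

/-- the index set of the large family -/
def famJ (K M : ℕ) : Finset (ι ⊕ (Σ _ : ℕ × ℕ, ℕ)) :=
  J.disjSum ((Icc 1 K ×ˢ Icc 1 M).sigma fun p => (p.1.gcd p.2).divisors)

def famN : ι ⊕ (Σ _ : ℕ × ℕ, ℕ) → ℕ := Sum.elim n fun t => t.1.1 * t.1.2 / t.2 ^ 2

def famX (s : ℝ) (y ν : ℕ → ℝ) : ι ⊕ (Σ _ : ℕ × ℕ, ℕ) → ℝ :=
  Sum.elim x fun t => s * ν t.1.2 * y t.1.1 * t.2

theorem fam (K M : ℕ) (s : ℝ) (y ν G : ℕ → ℝ) :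
    ∑ i ∈ famJ J K M, famX x s y ν i * G (famN n i) =
      ∑ i ∈ J, x i * G (n i) + s * ∑ l ∈ Icc 1 M, ν l * Op (Icc 1 K) id y G l := by
  rw [famJ, sum_disjSum, sum_sigma, sum_product_right]
  simp only [famX, famN, Sum.elim_inl, Sum.elim_inr, Op, Bh, id, mul_sum, mul_assoc]

theorem famN_bd {N K M : ℕ} (h : ∀ i ∈ J, 1 ≤ n i ∧ n i < N) (hK : K * M < N) :
    ∀ i ∈ famJ J K M, 1 ≤ famN n i ∧ famN n i < N := by
  rintro (i | ⟨⟨k, l⟩, d⟩) hi
  · exact h i (inl_mem_disjSum.1 hi)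
  · obtain ⟨h1, h2⟩ := mem_sigma.1 (inr_mem_disjSum.1 hi)
    obtain ⟨a, b⟩ := mem_product.1 h1
    obtain ⟨a1, a2⟩ := mem_Icc.1 a
    obtain ⟨b1, b2⟩ := mem_Icc.1 b
    obtain ⟨c1, c2⟩ := Nat.dvd_gcd_iff.1 (Nat.dvd_of_mem_divisors h2)
    refine ⟨Nat.div_pos (Nat.le_of_dvd (Nat.mul_pos a1 b1) ?_)
      (pow_pos (Nat.pos_of_mem_divisors h2) 2),
      ((Nat.div_le_self _ _).trans (Nat.mul_le_mul a2 b2)).trans_lt hK⟩
    rw [sq]
    exact Nat.mul_dvd_mul c1 c2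

theorem bl_fam (h : HaS) {N K M : ℕ} (hn : ∀ i ∈ J, 1 ≤ n i ∧ n i < N) (hK : K * M < N) (s : ℝ)
    (y ν G : ℕ → ℝ) : Bl (famJ J K M) (famN n) (famX x s y ν) G = Bl J n x G +
      2 * s * (∑ i ∈ J, ∑ l ∈ Icc 1 M, x i * ν l * Bh (Op (Icc 1 K) id y G) (n i) l) +
      s ^ 2 * Bl (Icc 1 M) id ν (Op (Icc 1 K) id y (Op (Icc 1 K) id y G)) := by
  have e1 : ∀ i ∈ famJ J K M, ∑ j ∈ famJ J K M,
      famX x s y ν i * famX x s y ν j * Bh G (famN n i) (famN n j) =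
      famX x s y ν i * (fun a => ∑ j ∈ J, x j * Bh G (n j) a +
        s * ∑ l ∈ Icc 1 M, ν l * Bh (Op (Icc 1 K) id y G) l a) (famN n i) := fun i hi => by
    simp only [mul_assoc, ← mul_sum]
    rw [fam J n x K M s y ν fun m => Bh G (famN n i) m]
    congr 3
    · ext j
      rw [bh_comm]
    · refine sum_congr rfl fun l hl => ?_
      rw [op_bh h K y G (famN_bd J n hn hK i hi).1 (mem_Icc.1 hl).1, bh_comm]
  have e2 : ∀ l' ∈ Icc 1 M, ν l' * Op (Icc 1 K) id y (fun a => ∑ j ∈ J, x j * Bh G (n j) a +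
      s * ∑ l ∈ Icc 1 M, ν l * Bh (Op (Icc 1 K) id y G) l a) l' =
      ∑ j ∈ J, x j * ν l' * Bh (Op (Icc 1 K) id y G) (n j) l' +
        s * ∑ l ∈ Icc 1 M, ν l' * ν l * Bh (Op (Icc 1 K) id y (Op (Icc 1 K) id y G)) l' l :=
    fun l' hl => by
      rw [op_lin, op_sum _ _ _ J x fun j m => Bh G (n j) m,
        op_sum _ _ _ (Icc 1 M) ν fun l m => Bh (Op (Icc 1 K) id y G) l m, mul_add, mul_left_comm,
        mul_sum, mul_sum]
      congr 1
      · refine sum_congr rfl fun j hj => ?_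
        rw [op_bh h K y G (hn j hj).1 (mem_Icc.1 hl).1]
        ring
      · refine congrArg _ (sum_congr rfl fun l hl' => ?_)
        rw [op_bh h K y _ (mem_Icc.1 hl').1 (mem_Icc.1 hl).1, bh_comm, mul_assoc]
  have e3 : ∀ i ∈ J, x i * (∑ j ∈ J, x j * Bh G (n j) (n i) +
      s * ∑ l ∈ Icc 1 M, ν l * Bh (Op (Icc 1 K) id y G) l (n i)) =
      ∑ j ∈ J, x i * x j * Bh G (n i) (n j) +
        s * ∑ l ∈ Icc 1 M, x i * ν l * Bh (Op (Icc 1 K) id y G) (n i) l := fun i _ => by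
    simp only [mul_assoc, ← mul_sum, bh_comm _ (n i)]
    ring
  rw [Bl, sum_congr rfl e1, fam J n x K M s y ν fun a => ∑ j ∈ J, x j * Bh G (n j) a +
      s * ∑ l ∈ Icc 1 M, ν l * Bh (Op (Icc 1 K) id y G) l a, sum_congr rfl e2, sum_congr rfl e3,
    sum_add_distrib, sum_add_distrib, sum_comm (s := Icc 1 M) (t := J), ← mul_sum, ← mul_sum]
  simp only [Bl, id]
  ring

end AsmA

open AsmA

theorem asmOf : AsmOf := by
  rintro hb ha N S C U c₀ s ι J n x K M y ν hN hS hB hn hK h1 h2 W T rfl rfl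
  have e1 : ∀ f, ∑ l ∈ Icc 1 M, ν l * Op (Icc 1 K) id y (S.a f) l =
      (∑ k ∈ Icc 1 K, y k * S.a f k) * ∑ l ∈ Icc 1 M, ν l * S.a f l := fun f =>
    op_mul y ν _ fun k hk l hl => by
      obtain ⟨a1, a2⟩ := mem_Icc.1 hk
      obtain ⟨b1, b2⟩ := mem_Icc.1 hl
      have : l < N := (b2.trans (Nat.le_mul_of_pos_left M (a1.trans a2))).trans_lt hK
      exact hS.hk f k l a1 b1 (Nat.coprime_of_lt_prime (by omega) this hN).symm
  constructor
  · have e2 : ∀ l, Op (Icc 1 K) id y (fun m => ∑ f, S.ω f * (S.L f * S.a f m)) l =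
        ∑ f, S.ω f * S.L f * Op (Icc 1 K) id y (S.a f) l := fun l => by
      simp only [← mul_assoc]
      exact op_sum _ _ _ univ (fun f => S.ω f * S.L f) S.a l
    simp only [e2, mul_assoc s, ← e1]
    simp only [mul_add, sum_add_distrib, mul_sum]
    congr 1
    · rw [sum_comm]
      exact sum_congr rfl fun _ _ => sum_congr rfl fun _ _ => by ring
    · rw [sum_comm]
      exact sum_congr rfl fun _ _ => sum_congr rfl fun _ _ => by ring
  · have k := hB _ (famJ J K M) (famN n) (famX x s y ν) (famN_bd J n hn hK) (by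
      rw [fam, h1, op_mul y ν sig fun k hk l hl =>
        hb.2.2.1 k l (mem_Icc.1 hk).1 (mem_Icc.1 hl).1, h2]
      ring)
    simp only [fam, e1, ← mul_assoc s] at k
    rw [← bl_fam J n x ha hn hK]
    exact k

end Pool.Agent.MP_20b2fd_nt.H38
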