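import Pool.Agent.MP_20b2fd_nt.H38.SpecX

/-! The final inequality of the exceptional case. -/

set_option autoImplicit false

namespace Pool.Agent.MP_20b2fd_nt.H38

open Finset Filter MeasureTheory
open scoped Real

namespace CsA

theorem ev (B : ℝ) {α : ℝ} (h : 0 < α) : ∀ᶠ N : ℕ in atTop, B ≤ (N : ℝ) ^ α :=
  ((tendsto_rpow_atTop h).comp tendsto_natCast_atTop_atTop).eventually_ge_atTop B

theorem exp_le {a : ℝ} (h : 0 < a) : Real.exp (-2 * π * a) ≤ a ^ (-1 / 100 : ℝ) := by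
  have h1 : Real.exp (-2 * π * a) ≤ Real.exp (-a) :=
    Real.exp_le_exp.2 (by nlinarith [Real.pi_gt_three])
  refine h1.trans ?_
  rw [Real.rpow_def_of_pos h, Real.exp_le_exp]
  linarith [Real.log_le_sub_one_of_pos h]

theorem vj_le (j : ℕ) {x : ℝ} (h : 0 < x) : |Vj j x| ≤ 100 * x ^ (-1 / 100 : ℝ) := by
  have h0 := Real.rpow_pos_of_pos h (-1 / 100 : ℝ)
  unfold Vj
  split_ifs
  · rw [abs_of_pos (Real.exp_pos _)]
    linarith [exp_le h]
  · have h1 : (-101 / 100 : ℝ) < -1 := by norm_num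
    rw [← Real.norm_eq_abs]
    refine (norm_integral_le_of_norm_le ((integrableOn_Ioi_rpow_of_lt h1 one_pos).const_mul
      (x ^ (-1 / 100 : ℝ))) ((ae_restrict_mem measurableSet_Ioi).mono fun t ht => ?_)).trans_eq ?_
    · have t0 : 0 < t := one_pos.trans ht
      rw [Real.norm_of_nonneg (by positivity), div_le_iff₀ t0, mul_assoc, mul_assoc _ _ t,
        ← Real.rpow_add_one t0.ne', show (-101 / 100 + 1 : ℝ) = -1 / 100 by norm_num,
        ← Real.mul_rpow h.le t0.le]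
      exact exp_le (mul_pos h t0)
    · rw [integral_const_mul, integral_Ioi_rpow_of_lt h1 one_pos, Real.one_rpow]
      ring

theorem yk_le {D N k : ℕ} (χ : DirichletCharacter ℂ D) (h1 : 1 ≤ D) (h2 : D ≤ N) (hk : 1 ≤ k) :
    |yk χ N k| * k ≤ 100 * (N : ℝ) ^ (1 / 50 : ℝ) := by
  have k1 : (1 : ℝ) ≤ k := by exact_mod_cast hk
  have d1 : (1 : ℝ) ≤ D := by exact_mod_cast h1
  have d2 : (D : ℝ) ≤ N := by exact_mod_cast h2
  have n1 : (1 : ℝ) ≤ N := d1.trans d2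
  have q0 : 0 < Qc D N := by unfold Qc; positivity
  have q1 : Qc D N ≤ (N : ℝ) ^ 2 := by
    rw [Qc, sq]
    exact mul_le_mul d2 (Real.sqrt_le_self_iff.2 (Or.inr n1)) (by positivity) (by positivity)
  have h3 : |xr χ k| ≤ 1 := (Complex.abs_re_le_norm _).trans (χ.norm_le_one _)
  have h4 : (k / Qc D N) ^ (-1 / 100 : ℝ) ≤ (N : ℝ) ^ (1 / 50 : ℝ) := by
    refine (Real.rpow_le_rpow_of_nonpos (x := ((N : ℝ) ^ 2)⁻¹) (by positivity) ?_
      (by norm_num)).trans_eq ?_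
    · rw [← one_div]
      exact div_le_div₀ (by positivity) k1 q0 q1
    · rw [← Real.rpow_natCast, ← Real.rpow_neg (by positivity), ← Real.rpow_mul (by positivity)]
      norm_num
  rw [yk, abs_div, Nat.abs_cast, div_mul_cancel₀ _ (by positivity), abs_mul]
  refine (mul_le_mul h3 (vj_le _ (by positivity)) (abs_nonneg _) zero_le_one).trans ?_
  linarith

theorem arg {k l d : ℕ} (hk : 1 ≤ k) (hl : 1 ≤ l) (hd : d ∈ (k.gcd l).divisors) :
    1 ≤ k * l / d ^ 2 ∧ d * (k * l / d ^ 2) ≤ k * l := by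
  have h := Nat.dvd_of_mem_divisors hd
  have d0 := Nat.pos_of_mem_divisors hd
  refine ⟨Nat.div_pos (Nat.le_of_dvd (by positivity) ?_) (by positivity),
    (Nat.mul_le_mul_right _ (Nat.le_self_pow two_ne_zero d)).trans (Nat.mul_div_le _ _)⟩
  rw [sq]
  exact mul_dvd_mul (h.trans (Nat.gcd_dvd_left _ _)) (h.trans (Nat.gcd_dvd_right _ _))

theorem bh_sub {m : ℕ → ℝ} {B : ℝ} {k l : ℕ} (hB : 0 ≤ B) (hk : 1 ≤ k) (hl : 1 ≤ l)
    (h : ∀ n : ℕ, 1 ≤ n → n ≤ k * l → |m n - 1| ≤ B * n) :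
    |Bh m k l - Bh (fun _ => 1) k l| ≤ B * k * l ^ 2 := by
  rw [Bh, Bh, ← sum_sub_distrib]
  refine (abs_sum_le_sum_abs _ _).trans ((sum_le_card_nsmul _ _ (B * k * l) fun d hd => ?_).trans ?_)
  · obtain ⟨h1, h2⟩ := arg hk hl hd
    rw [← mul_sub, abs_mul, Nat.abs_cast]
    refine (mul_le_mul_of_nonneg_left (h _ h1 (Nat.div_le_self _ _)) (by positivity)).trans ?_
    rw [mul_left_comm, mul_assoc]
    exact mul_le_mul_of_nonneg_left (by exact_mod_cast h2) hB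
  · rw [nsmul_eq_mul]
    exact (mul_le_mul_of_nonneg_right (Nat.cast_le.2 ((Nat.card_divisors_le_self _).trans
      (Nat.gcd_le_right _ hl))) (by positivity)).trans_eq (by ring)

theorem od_zero {K : ℝ → ℝ} {B : ℝ} {N m : ℕ} (hK : ∀ t : ℝ, B ≤ |t| → K t = 0) (hm : 1 ≤ m)
    (h : B * m ≤ N) : Od K N m = 0 := by
  have m0 : (0 : ℝ) < m := by exact_mod_cast hm
  refine (tsum_congr fun j => ?_).trans tsum_zero
  rcases eq_or_ne j 0 with rfl | hj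
  · simp [tau]
  · rw [hK, mul_zero]
    have : (1 : ℝ) ≤ |(j : ℝ)| := by exact_mod_cast Int.one_le_abs hj
    rw [abs_div, abs_mul, Nat.abs_cast, Nat.abs_cast, le_div_iff₀ m0]
    exact h.trans (le_mul_of_one_le_left (by positivity) this)

theorem fin {P w c z η τ Q : ℝ} (η0 : 0 < η) (η1 : η ≤ 1 / 100) (hτ : 1000 * η ≤ τ)
    (hz : |z| ≤ 1 / 4) (hw : 1 + z - 2 * η ≤ w) (hc : π * (1 - η) ≤ c) (h : w ^ 2 ≤ P * Q)
    (Q0 : 0 ≤ Q) (hQ : Q * c ^ 2 ≤ π * (4 * π * (1 + η) + 8 * π * z - τ)) : 1 / 4 + η ≤ P := by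
  by_contra hP
  have p3 := Real.pi_gt_three
  have p4 := Real.pi_le_four
  obtain ⟨z1, z2⟩ := abs_le.1 hz
  have h1 : w ^ 2 * c ^ 2 ≤ (1 / 4 + η) * (π * (4 * π * (1 + η) + 8 * π * z - τ)) :=
    (mul_le_mul_of_nonneg_right (h.trans (mul_le_mul_of_nonneg_right (not_le.1 hP).le Q0))
      (sq_nonneg c)).trans (by rw [mul_assoc]; exact mul_le_mul_of_nonneg_left hQ (by linarith))
  have h2 : π * (1 + z - 4 * η) ≤ w * c := by
    refine le_trans ?_ (mul_le_mul hw hc (by nlinarith) (by linarith))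
    rw [mul_left_comm]
    exact mul_le_mul_of_nonneg_left (by nlinarith) (by linarith)
  have h3 : π * (π * (1 + 2 * z - 10 * η)) ≤ w ^ 2 * c ^ 2 := by
    rw [← mul_pow]
    refine le_trans ?_ (pow_le_pow_left₀ (by nlinarith) h2 2)
    rw [mul_pow, ← mul_assoc, ← sq]
    refine mul_le_mul_of_nonneg_left ?_ (by positivity)
    linarith [sq_nonneg z, sq_nonneg η, mul_le_mul_of_nonneg_left z2 η0.le]
  have h4 := h3.trans h1
  rw [mul_left_comm (1 / 4 + η)] at h4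
  have h5 := le_of_mul_le_mul_left h4 (by linarith)
  have h6 : η * (4 * π * (1 + η) + 8 * π * z - τ) ≤ η * 30 :=
    mul_le_mul_of_nonneg_left (by nlinarith) η0.le
  nlinarith

theorem first {D N K M : ℕ} (χ : DirichletCharacter ℂ D) (h1 : 1 ≤ D) (h2 : D ≤ N) {m ν : ℕ → ℝ}
    {B V : ℝ} (hB : 0 ≤ B) (hν : ∀ l, |ν l| ≤ V)
    (h : ∀ n : ℕ, 1 ≤ n → n ≤ K * M → |m n - 1| ≤ B * n) :
    |∑ l ∈ Icc 1 M, ν l * Op (Icc 1 K) id (yk χ N) m l -
      ∑ l ∈ Icc 1 M, ν l * Op (Icc 1 K) id (yk χ N) (fun _ => 1) l| ≤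
      M * (V * (K * (100 * (N : ℝ) ^ (1 / 50 : ℝ) * (B * M ^ 2)))) := by
  rw [← sum_sub_distrib]
  refine (abs_sum_le_sum_abs _ _).trans ((sum_le_card_nsmul _ _ _ fun l hl => ?_).trans_eq
    (by rw [nsmul_eq_mul, Nat.card_Icc, Nat.add_sub_cancel]))
  obtain ⟨l1, l2⟩ := mem_Icc.1 hl
  rw [← mul_sub, abs_mul, Op, Op, ← sum_sub_distrib]
  refine mul_le_mul (hν l) ((abs_sum_le_sum_abs _ _).trans ((sum_le_card_nsmul _ _ _
    fun k hk => ?_).trans_eq (by rw [nsmul_eq_mul, Nat.card_Icc, Nat.add_sub_cancel])))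
    (abs_nonneg _) ((abs_nonneg _).trans (hν l))
  obtain ⟨k1, k2⟩ := mem_Icc.1 hk
  rw [← mul_sub, abs_mul]
  refine (mul_le_mul_of_nonneg_left (bh_sub hB k1 l1 fun n a b =>
    h n a (b.trans (Nat.mul_le_mul k2 l2))) (abs_nonneg _)).trans ?_
  calc _ = |yk χ N k| * k * (B * l ^ 2) := by ring
    _ ≤ _ := mul_le_mul (yk_le χ h1 h2 k1) (by gcongr) (by positivity) (by positivity)

end CsA

theorem csOf : CsOf := by
  classical
  intro hP hX hF hA C g K C1 g0 K1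
  obtain ⟨C', C1', hC'⟩ := hF C C1
  obtain ⟨t, t0, t1, t2⟩ : ∃ t : ℝ, 0 < t ∧ t * K ≤ g ∧ t * K ≤ 1 / 4 :=
    ⟨min g (1 / 4) / K, by positivity, by
      rw [div_mul_cancel₀ _ (by positivity)]
      exact ⟨min_le_left _ _, min_le_right _ _⟩⟩
  have t3 : t ≤ 1 := by linarith [mul_le_mul_of_nonneg_left K1 t0.le]
  obtain ⟨η, η0, η1, η2⟩ : ∃ η : ℝ, 0 < η ∧ η ≤ 1 / 100 ∧ 1000 * η ≤ t * g :=
    ⟨min (1 / 100) (t * g / 1000), by positivity, min_le_left _ _, by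
      linarith [min_le_right (1 / 100) (t * g / 1000)]⟩
  refine ⟨η, η0, fun ε θ u E ε0 ε1 θ0 θ1 u0 u1 => ?_⟩
  obtain ⟨N₀, hN⟩ := eventually_atTop.1 ((CsA.ev 5 ε0).and ((CsA.ev (2 / η) u0).and
    (CsA.ev (200 * C' * 1001 ^ 11 / η) (by norm_num : (0 : ℝ) < 1 / 50))))
  refine ⟨N₀, fun N D χ S c₀ A ι J n x N0 Np D1 D2 hS hB hE A1 ⟨x1, x2, x3, x4, x5⟩
    ⟨M, ν, y₀, g1, g2, g3, g4, g5, g6, g7⟩ => ?_⟩
  obtain ⟨e1, e2, e3⟩ := hN N N0
  have n1 : (1 : ℝ) < N := by exact_mod_cast Np.one_lt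
  have n0 : (0 : ℝ) < N := by linarith
  have pw : ∀ {a b : ℝ}, a ≤ b → (N : ℝ) ^ a ≤ (N : ℝ) ^ b := fun h =>
    Real.rpow_le_rpow_of_exponent_le n1.le h
  have pp : ∀ a : ℝ, 0 < (N : ℝ) ^ a := Real.rpow_pos_of_pos n0
  have lt : ∀ {a : ℝ} {k : ℕ}, a < 1 → (k : ℝ) ≤ (N : ℝ) ^ a → k < N := fun h h' =>
    Nat.cast_lt.1 (h'.trans_lt (Real.rpow_lt_self_of_one_lt n1 h))
  have U1 : 1 ≤ (N : ℝ) ^ u := Real.one_le_rpow n1.le u0.le
  have y0 : 0 < y₀ := (pp _).trans_le g4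
  have k1 : (k0 θ N : ℝ) ≤ (N : ℝ) ^ (1 / 2 + θ) := Nat.floor_le (pp _).le
  have kM : k0 θ N * M < N := lt (a := 1 / 2 + θ + θ) (by linarith) (by
    rw [Nat.cast_mul, Real.rpow_add n0]
    exact mul_le_mul k1 g1 (by positivity) (pp _).le)
  have nJ : ∀ i ∈ J, 1 ≤ n i ∧ n i < N := fun i hi => ⟨(x1 i hi).1, lt (by linarith) (x1 i hi).2⟩
  obtain ⟨W, hW⟩ : ∃ W : Fin S.g → ℝ, W = fun f => S.L f * ((∑ i ∈ J, x i * S.a f (n i)) +
      t * A / y₀ * (∑ k ∈ Icc 1 (k0 θ N), yk χ N k * S.a f k) * ∑ l ∈ Icc 1 M, ν l * S.a f l) :=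
    ⟨_, rfl⟩
  obtain ⟨a1, a2⟩ := hA N S C _ c₀ (t * A / y₀) ι J n x (k0 θ N) M (yk χ N) ν Np hS hB nJ kM x2 g3
    W (TY χ θ N) rfl hW
  obtain ⟨f1, f2⟩ := hC' N S Np hS
  obtain ⟨-, c1a, c1b, c1c, c1d, -⟩ := hP _ U1
  have l0 : 0 ≤ Real.log N := Real.log_nonneg n1.le
  obtain ⟨L, hL⟩ : ∃ L, L = 1001 * (N : ℝ) ^ (1 / 1000 : ℝ) := ⟨_, rfl⟩
  have l1 : 1 + Real.log N ≤ L := by
    have := Real.log_le_rpow_div n0.le (by norm_num : (0 : ℝ) < 1 / 1000)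
    linarith [Real.one_le_rpow n1.le (by norm_num : (0 : ℝ) ≤ 1 / 1000)]
  have L1 : 1 ≤ L := by linarith
  have sm : ∀ a : ℝ, a ≤ -4 / 100 → 100 * C' * L ^ 11 * (N : ℝ) ^ a ≤ η / 2 := fun a ha => by
    have h1 : ((N : ℝ) ^ (1 / 1000 : ℝ)) ^ 11 * (N : ℝ) ^ a * (N : ℝ) ^ (1 / 50 : ℝ) ≤ 1 := by
      rw [← Real.rpow_natCast, ← Real.rpow_mul n0.le, ← Real.rpow_add n0, ← Real.rpow_add n0]
      exact Real.rpow_le_one_of_one_le_of_nonpos n1.le (by push_cast; linarith)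
    rw [div_le_iff₀ η0] at e3
    have h2 := mul_le_mul_of_nonneg_left e3
      (show 0 ≤ ((N : ℝ) ^ (1 / 1000 : ℝ)) ^ 11 * (N : ℝ) ^ a by positivity)
    rw [hL, mul_pow]
    linarith [mul_le_mul_of_nonneg_right h1 η0.le]
  obtain ⟨B, hB'⟩ : ∃ B, B = C' * L * (N : ℝ) ^ (-5 / 8 : ℝ) := ⟨_, rfl⟩
  have B0 : 0 ≤ B := by rw [hB']; positivity
  have f3 : ∀ k : ℕ, 1 ≤ k → k < N → |∑ f, S.ω f * (S.L f * S.a f k) - 1| ≤ B * k :=
    fun k h h' => (f2 k h h').trans (by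
      have : Real.log k ≤ Real.log N :=
        Real.log_le_log (by exact_mod_cast h) (by exact_mod_cast h'.le)
      calc _ ≤ C' * k * L * (N : ℝ) ^ (-5 / 8 : ℝ) := by gcongr; linarith
        _ = _ := by rw [hB']; ring)
  have m1 : |∑ i ∈ J, x i * ∑ f, S.ω f * (S.L f * S.a f (n i)) - ∑ i ∈ J, x i| ≤ η / 2 := by
    rw [← sum_sub_distrib]
    refine (abs_sum_le_sum_abs _ _).trans ((sum_le_sum (g := fun i => |x i| *
      (B * (N : ℝ) ^ (1 / 2 : ℝ))) fun i hi => ?_).trans ?_)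
    · rw [← mul_sub_one, abs_mul]
      exact mul_le_mul_of_nonneg_left ((f3 _ (nJ i hi).1 (nJ i hi).2).trans
        (mul_le_mul_of_nonneg_left ((x1 i hi).2.trans (pw (by linarith))) B0)) (abs_nonneg _)
    · rw [← sum_mul]
      refine le_trans ?_ (sm (-5 / 8 + 1 / 2) (by norm_num))
      rw [Real.rpow_add n0]
      calc _ ≤ L ^ 10 * (B * (N : ℝ) ^ (1 / 2 : ℝ)) :=
            mul_le_mul_of_nonneg_right (x3.trans (by gcongr; linarith)) (by positivity)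
        _ = 1 * C' * L ^ 11 * ((N : ℝ) ^ (-5 / 8 : ℝ) * (N : ℝ) ^ (1 / 2 : ℝ)) := by
            rw [hB']; ring
        _ ≤ _ := by gcongr; norm_num
  have m2 := CsA.first χ D1 D2 B0 g2 fun k a b => f3 k a (b.trans_lt kM)
  have m3 : t / y₀ * (M * ((N : ℝ) ^ θ * (k0 θ N * (100 * (N : ℝ) ^ (1 / 50 : ℝ) * (B * M ^ 2)))))
      ≤ η / 2 := by
    refine le_trans ?_ (sm (θ + (θ + (θ + (1 / 2 + θ + (1 / 50 + (-5 / 8 + (θ + θ))))))) (by linarith))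
    have h1 : t / y₀ ≤ (N : ℝ) ^ θ := by
      rw [Real.rpow_neg n0.le, inv_le_iff_one_le_mul₀ (pp _)] at g4
      rw [div_le_iff₀ y0]
      linarith
    have h2 : L ≤ L ^ 11 := le_self_pow₀ L1 (by norm_num)
    rw [hB']
    calc _ ≤ (N : ℝ) ^ θ * ((N : ℝ) ^ θ * ((N : ℝ) ^ θ * ((N : ℝ) ^ (1 / 2 + θ) * (100 *
          (N : ℝ) ^ (1 / 50 : ℝ) * (C' * L ^ 11 * (N : ℝ) ^ (-5 / 8 : ℝ) * ((N : ℝ) ^ θ) ^ 2))))) := by
          gcongr
      _ = _ := by simp only [Real.rpow_add n0]; ring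
  have xx : Bl J n x (ell ((N : ℝ) ^ u) c₀ N) ≤ 4 * π * (1 + η) * A ^ 2 := by
    refine le_trans (le_of_eq ?_) (x5 _ c₀ c1c (c1d.trans c1b) hE)
    refine sum_congr rfl fun i hi => sum_congr rfl fun j hj => congrArg _ (sum_congr rfl
      fun d hd => congrArg _ ?_)
    rw [ell, CsA.od_zero (hX _ U1).2.2.1 (CsA.arg (nJ i hi).1 (nJ j hj).1 hd).1, mul_zero, add_zero]
    have h1 : 1 + 4 * ((N : ℝ) ^ u) ^ 2 ≤ (N : ℝ) ^ ε * (N : ℝ) ^ ε := by
      have : (N : ℝ) ^ u * (N : ℝ) ^ u ≤ (N : ℝ) ^ ε := by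
        rw [← Real.rpow_add n0]
        exact pw (by linarith)
      linarith [mul_le_mul_of_nonneg_right e1 (pp ε).le]
    calc _ ≤ (N : ℝ) ^ ε * (N : ℝ) ^ ε * ((N : ℝ) ^ (1 / 2 - ε) * (N : ℝ) ^ (1 / 2 - ε)) :=
          mul_le_mul h1 ((Nat.cast_le.2 (Nat.div_le_self _ _)).trans (by
            rw [Nat.cast_mul]
            exact mul_le_mul (x1 i hi).2 (x1 j hj).2 (by positivity) (pp _).le)) (by positivity)
            (by positivity)
      _ = _ := by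
        simp only [← Real.rpow_add n0]
        rw [show ε + ε + (1 / 2 - ε + (1 / 2 - ε)) = 1 by ring, Real.rpow_one]
  have cs := sum_sq_le_sum_mul_sum_of_sq_le_mul univ (r := fun f => S.ω f * W f)
    (f := fun f => if S.ε f = 1 ∧ S.L f ≠ 0 then S.ω f else 0) (g := fun f => S.ω f * W f ^ 2)
    (fun f _ => by split_ifs; exacts [(hS.pos f).le, le_rfl])
    (fun f _ => mul_nonneg (hS.pos f).le (sq_nonneg _)) fun f _ => by
      split_ifs with h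
      · exact le_of_eq (by ring)
      · have : S.L f = 0 := by
          by_contra h'
          exact h ⟨(hS.sgn f).resolve_right fun e => h' (f1 f e), h'⟩
        simp [hW, this]
  rw [← sum_filter] at cs
  have A0 : 0 < A := by linarith
  obtain ⟨Z, hZ⟩ : ∃ Z, Z = ∑ l ∈ Icc 1 M, ν l * TY χ θ N (fun _ => 1) l := ⟨_, rfl⟩
  rw [← hZ] at g5 g7
  have c0 : π * (1 - η) ≤ c1 ((N : ℝ) ^ u) := by
    rw [div_le_comm₀ η0 (pp _)] at e2
    linarith [mul_le_mul_of_nonneg_left Real.pi_gt_three.le η0.le]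
  have c2 : 0 < c1 ((N : ℝ) ^ u) := (mul_pos Real.pi_pos (by linarith)).trans_le c0
  refine CsA.fin (w := (∑ f, S.ω f * W f) / A) (z := t / y₀ * Z)
    (Q := (∑ f, S.ω f * W f ^ 2) / A ^ 2) η0 η1 η2 ?_ ?_ c0 ?_
    (div_nonneg (sum_nonneg fun f _ => mul_nonneg (hS.pos f).le (sq_nonneg _)) (sq_nonneg _)) ?_
  · rw [abs_mul, abs_of_pos (div_pos t0 y0), div_mul_eq_mul_div, div_le_iff₀ y0]
    linarith [mul_le_mul_of_nonneg_left g5 t0.le, mul_le_mul_of_nonneg_right t2 y0.le]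
  · rw [le_div_iff₀ A0, a1]
    have h1 := mul_le_mul_of_nonneg_right ((mul_le_mul_of_nonneg_left (neg_le.1 (abs_le.1 m2).1)
      (div_pos t0 y0).le).trans m3) A0.le
    rw [hZ]
    unfold TY
    rw [mul_div_right_comm]
    linarith [(abs_le.1 m1).1, (abs_le.1 x4).1, mul_le_mul_of_nonneg_left A1 η0.le]
  · rw [div_pow, ← mul_div_assoc]
    exact div_le_div_of_nonneg_right cs (sq_nonneg _)
  · rw [div_mul_eq_mul_div, div_le_iff₀ (by positivity), ← le_div_iff₀ (by positivity)]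
    refine a2.trans ?_
    rw [mul_assoc π, mul_div_right_comm π]
    refine mul_le_mul_of_nonneg_left ?_ (div_nonneg Real.pi_pos.le (sq_nonneg _))
    have h1 := mul_le_mul_of_nonneg_left g6 (sq_nonneg (t * A / y₀))
    have h2 := mul_le_mul_of_nonneg_left g7 (show 0 ≤ 2 * (t * A / y₀) by positivity)
    have h3 : (t * A / y₀) ^ 2 * (K * y₀ ^ 2) = t * K * (t * A ^ 2) := by field_simp
    have h4 : 2 * (t * A / y₀) * (g * A * y₀) = 2 * g * (t * A ^ 2) := by field_simp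
    have h5 : 2 * (t * A / y₀) * (4 * π * A * Z) = 8 * π * (t / y₀ * Z) * A ^ 2 := by ring
    linarith [mul_le_mul_of_nonneg_right t1 (show 0 ≤ t * A ^ 2 by positivity)]

end Pool.Agent.MP_20b2fd_nt.H38
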