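import Pool.Agent.MP_20b2fd_nt.H38.SpecX

/-! Main terms and errors put together. -/

set_option autoImplicit false

namespace Pool.Agent.MP_20b2fd_nt.H38

open Finset Filter Topology
open scoped Real

namespace FmkA

theorem bh {G G' : ℕ → ℝ} {a b : ℕ} {T δ : ℝ} (ha : 1 ≤ a) (hb : 1 ≤ b) (hT : (b : ℝ) ≤ T)
    (h : ∀ m, 1 ≤ m → m ≤ a * b → |G m - G' m| ≤ δ) : |Bh G a b - Bh G' a b| ≤ T ^ 2 * δ := by
  have d0 : 0 ≤ δ := (abs_nonneg _).trans (h 1 le_rfl (Nat.mul_pos ha hb))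
  have g : (a.gcd b : ℝ) ≤ T := (Nat.cast_le.2 (Nat.gcd_le_right a hb)).trans hT
  have T0 : 0 ≤ T := (Nat.cast_nonneg _).trans hT
  rw [Bh, Bh, ← sum_sub_distrib]
  refine (abs_sum_le_sum_abs _ _).trans ((sum_le_card_nsmul _ _ (T * δ) fun d hd => ?_).trans ?_)
  · have e := Nat.dvd_of_mem_divisors hd
    rw [← mul_sub, abs_mul, Nat.abs_cast]
    refine mul_le_mul ((Nat.cast_le.2 (Nat.divisor_le hd)).trans g) (h _ (Nat.div_pos
      (Nat.le_of_dvd (Nat.mul_pos ha hb) ?_) (pow_pos (Nat.pos_of_mem_divisors hd) 2))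
      (Nat.div_le_self _ _)) (abs_nonneg _) T0
    rw [sq]
    exact mul_dvd_mul (e.trans (Nat.gcd_dvd_left a b)) (e.trans (Nat.gcd_dvd_right a b))
  · rw [nsmul_eq_mul, sq, mul_assoc]
    exact mul_le_mul_of_nonneg_right ((Nat.cast_le.2 (Nat.card_divisors_le_self _)).trans g)
      (by positivity)

theorem sm {ι : Type} (J : Finset ι) {x F F' : ι → ℝ} {S δ : ℝ} (d0 : 0 ≤ δ)
    (hS : ∑ i ∈ J, |x i| ≤ S) (h : ∀ i ∈ J, |F i - F' i| ≤ δ) :
    |∑ i ∈ J, x i * F i - ∑ i ∈ J, x i * F' i| ≤ S * δ := by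
  refine le_trans ?_ (mul_le_mul_of_nonneg_right hS d0)
  rw [← sum_sub_distrib, sum_mul]
  refine (abs_sum_le_sum_abs _ _).trans (sum_le_sum fun i hi => ?_)
  rw [← mul_sub, abs_mul]
  exact mul_le_mul_of_nonneg_left (h i hi) (abs_nonneg _)

end FmkA

open FmkA in
theorem fmk : FmkS := by
  intro ε θ c g K θ0 hc hε g0 K1
  obtain ⟨N₀, hN⟩ := eventually_atTop.1 ((((tendsto_rpow_atTop θ0).comp
    tendsto_natCast_atTop_atTop).eventually_ge_atTop (2 * (16 + 1 / θ ^ 10) / g)).and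
      (eventually_ge_atTop 1))
  refine ⟨N₀, fun N D χ U c₀ A η E ι J n x R₁ R R₂ hN0 A1 _ hX hF
    ⟨M, ν, y₀, m1, m2, m3, m4, m5, m6, m7⟩ => ?_⟩
  obtain ⟨hT, N1⟩ := hN N hN0
  have N1 : (1 : ℝ) ≤ N := Nat.one_le_cast.2 N1
  have N0 : (0 : ℝ) < N := by linarith
  have lg := Real.log_le_rpow_div N0.le θ0
  have T1 := Real.one_le_rpow N1 θ0.le
  have e2 : (N : ℝ) ^ (2 * θ) = ((N : ℝ) ^ θ) ^ 2 := by
    rw [mul_comm, Real.rpow_mul N0.le, Real.rpow_two]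
  have e3 : (N : ℝ) ^ (1 / 2 - ε) * (N : ℝ) ^ θ ≤ (N : ℝ) ^ (1 / 2 - ε / 2) := by
    rw [← Real.rpow_add N0]
    exact Real.rpow_le_rpow_of_exponent_le N1 (by linarith)
  have e4 : ((N : ℝ) ^ θ) ^ 20 * (N : ℝ) ^ (-c) ≤ 1 := by
    rw [← Real.rpow_natCast, ← Real.rpow_mul N0.le, ← Real.rpow_add N0]
    exact Real.rpow_le_one_of_one_le_of_nonpos N1 (by push_cast; linarith)
  have d0 : 0 < (N : ℝ) ^ (-c) := Real.rpow_pos_of_pos N0 _
  have m4' := m4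
  rw [Real.rpow_neg N0.le, inv_le_iff_one_le_mul₀ (by linarith)] at m4'
  obtain ⟨f1, f2⟩ := hF
  obtain ⟨x1, -, x3, -⟩ := hX
  simp only [Function.comp, e2] at hT f1
  refine ⟨M, ν, y₀, m1, m2, m3, m4, ?_⟩
  clear m4 e2
  generalize (N : ℝ) ^ θ = T at *
  generalize (N : ℝ) ^ (-c) = δ at *
  have T0 : 0 < T := by linarith
  have y0 : 0 < y₀ := (mul_pos_iff_of_pos_right T0).1 (by linarith)
  have lT : ∀ l ∈ Icc 1 M, (l : ℝ) ≤ T := fun l h => (Nat.cast_le.2 (mem_Icc.1 h).2).trans m1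
  have s : ∑ l ∈ Icc 1 M, |ν l| ≤ T ^ 2 := (sum_le_card_nsmul _ _ T fun l _ => m2 l).trans (by
    rw [Nat.card_Icc, Nat.add_sub_cancel, nsmul_eq_mul, sq]
    gcongr)
  have a1 := sm _ d0.le s fun l h => (f1 l (mem_Icc.1 h).1 ((lT l h).trans (by nlinarith))).1
  have a2 := sm _ (by positivity) s fun l h => sm _ (by positivity) s fun l' h' =>
    bh (mem_Icc.1 h).1 (mem_Icc.1 h').1 (lT l' h') fun m p q => (f1 m p ((Nat.cast_le.2 q).trans (by
      rw [Nat.cast_mul, sq]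
      exact mul_le_mul (lT l h) (lT l' h') (Nat.cast_nonneg _) T0.le))).2
  have a3 := sm _ (by positivity) x3 fun i h => sm _ (by positivity) s fun l h' =>
    bh (x1 i h).1 (mem_Icc.1 h').1 (lT l h') fun m p q => f2 m p ((Nat.cast_le.2 q).trans (by
      rw [Nat.cast_mul]
      exact (mul_le_mul (x1 i h).2 (lT l h') (Nat.cast_nonneg _) (by positivity)).trans e3))
  simp only [mul_sum, ← mul_assoc] at a2 a3
  have b : ∀ i j : ℕ, i + j ≤ 20 → T ^ i * δ ≤ y₀ ^ j := fun i j h =>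
    calc T ^ i * δ ≤ T ^ i * δ * (y₀ * T) ^ j :=
          le_mul_of_one_le_right (by positivity) (one_le_pow₀ m4')
      _ = T ^ (i + j) * δ * y₀ ^ j := by ring
      _ ≤ T ^ 20 * δ * y₀ ^ j := by gcongr
      _ ≤ _ := mul_le_of_le_one_left (by positivity) e4
  have b1 := b 2 1 (by norm_num)
  have b2 := b 6 2 (by norm_num)
  have b3 := b 15 1 (by norm_num)
  rw [pow_one] at b1 b3
  refine ⟨?_, ?_, ?_⟩
  · have := abs_sub_abs_le_abs_sub _ _ |>.trans a1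
    nlinarith
  · have := (abs_le.1 a2).2
    simp only [Bl, id] at m6 ⊢
    nlinarith [sq_pos_of_pos y0]
  · have c1 : Real.log N ^ 10 * T ^ 2 * T ^ 2 * δ ≤ A * (1 / θ ^ 10 * T ^ 14 * δ) :=
      calc _ ≤ (T / θ) ^ 10 * T ^ 2 * T ^ 2 * δ := by gcongr
        _ = 1 * (1 / θ ^ 10 * T ^ 14 * δ) := by ring
        _ ≤ _ := by gcongr
    have c2 : 4 * π * A * (T ^ 2 * δ) ≤ A * (16 * T ^ 14 * δ) :=
      calc _ ≤ 4 * 4 * A * (T ^ 14 * δ) := by gcongr; exacts [Real.pi_le_four, by norm_num]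
        _ = _ := by ring
    have c3 : A * ((16 + 1 / θ ^ 10) * T ^ 14 * δ) ≤ g / 2 * A * y₀ := by
      rw [div_le_iff₀ g0] at hT
      calc _ ≤ A * ((T * g / 2) * T ^ 14 * δ) := by gcongr; linarith
        _ = g / 2 * A * (T ^ 15 * δ) := by ring
        _ ≤ _ := by gcongr
    have c4 := mul_le_mul_of_nonneg_left (abs_le.1 a1).1 (show 0 ≤ 4 * π * A by positivity)
    linarith [(abs_le.1 a3).2]

end Pool.Agent.MP_20b2fd_nt.H38
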