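import Pool.Agent.MP_20b2fd_nt.H38.Ha
import Pool.Agent.MP_20b2fd_nt.H38.Asm
import Pool.Agent.MP_20b2fd_nt.H38.Cs
import Pool.Agent.MP_20b2fd_nt.H38.Fmk
import Pool.Agent.MP_20b2fd_nt.H20.Xw1
import Pool.Agent.MP_20b2fd_nt.H80.T1
import Pool.Agent.MP_20b2fd_nt.H96.AllK

/-! The reduction to the three moments. -/

namespace Pool.Agent.MP_20b2fd_nt.H38.All

theorem cs : CsS := csOf ph xg fm (asmOf hb (haOf hb))

theorem full_of (h : H80.GS) : H20.FullS := H80.full_of H96.All.aut2 cs H20.xwS h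

end Pool.Agent.MP_20b2fd_nt.H38.All
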