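import Pool.Agent.MP_20b2fd_nt.H38.SpecA

/-! The derivatives of the bump, and bounds for double integrals over cones. -/

set_option autoImplicit false

namespace Pool.Agent.MP_20b2fd_nt.H38

open MeasureTheory Complex Filter Topology Set
open scoped ContDiff

namespace BiA

noncomputable def ff (x : ℝ) : ℂ := (bm x : ℝ)

noncomputable def gg (u : ℝ) : ℂ := ((u : ℂ) + I)⁻¹

lemma ne_I (u : ℝ) : (u : ℂ) + I ≠ 0 := fun h => by simpa using congrArg Complex.im h

lemma sm_ff : ContDiff ℝ ∞ ff := ofRealCLM.contDiff.comp bm.contDiff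

lemma sm_gg : ContDiff ℝ ∞ gg := (ofRealCLM.contDiff.add contDiff_const).inv ne_I

lemma be_eq (U : ℝ) : be U = (fun u => ff (U⁻¹ * u)) * gg := by
  funext u
  simp only [be, ff, gg, Pi.mul_apply, div_eq_mul_inv, mul_comm u]

lemma sm_sc (c : ℝ) : ContDiff ℝ ∞ fun u => ff (c * u) :=
  sm_ff.comp (contDiff_const.mul contDiff_id)

lemma sm_be (U : ℝ) : ContDiff ℝ ∞ (be U) := by
  rw [be_eq]; exact (sm_sc _).mul sm_gg

lemma van (U u : ℝ) (j : ℕ) (hU : 1 ≤ U) (h : 2 * U < |u|) : iteratedDeriv j (be U) u = 0 := by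
  have e : be U =ᶠ[𝓝 u] fun _ => 0 := by
    filter_upwards [(isOpen_lt continuous_const continuous_abs).mem_nhds h] with v hv
    have : bm (v / U) = 0 := bm.zero_of_le_dist (by
      rw [Real.dist_eq, sub_zero, abs_div, abs_of_pos (by linarith : 0 < U),
        le_div_iff₀ (by linarith)]
      exact le_of_lt hv)
    simp [be, this]
  rw [e.iteratedDeriv_eq]
  simp

lemma bd_ff (i : ℕ) : ∃ D, ∀ u, ‖iteratedDeriv i ff u‖ ≤ D := by
  have h : HasCompactSupport (iteratedDeriv i ff) := by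
    induction i with
    | zero => exact bm.hasCompactSupport.comp_left (g := fun x : ℝ => (x : ℂ)) ofReal_zero
    | succ i ih => rw [iteratedDeriv_succ]; exact ih.deriv
  exact h.exists_bound_of_continuous (sm_ff.continuous_iteratedDeriv i (by exact_mod_cast le_top))

lemma der_gg (i : ℕ) : ∃ c : ℂ, iteratedDeriv i gg = fun u => c * gg u ^ (i + 1) := by
  induction i with
  | zero => exact ⟨1, by simp⟩
  | succ i ih =>
    obtain ⟨c, hc⟩ := ih
    refine ⟨-(c * (i + 1)), funext fun u => ?_⟩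
    have h1 : HasDerivAt gg (-1 / ((u : ℂ) + I) ^ 2) u :=
      ((ofRealCLM.hasDerivAt (x := u)).add_const I).inv (ne_I u)
    rw [iteratedDeriv_succ, hc, ((h1.fun_pow (i + 1)).const_mul c).deriv]
    have := ne_I u
    simp only [gg, Nat.add_sub_cancel, pow_succ]
    push_cast
    field_simp

lemma nrm_gg (u : ℝ) : ‖gg u‖ ≤ 1 := by
  rw [gg, norm_inv]
  refine inv_le_one_of_one_le₀ ?_
  simpa using Complex.im_le_norm ((u : ℂ) + I)

lemma bd_gg (i : ℕ) : ∃ D, ∀ u, ‖iteratedDeriv i gg u‖ ≤ D := by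
  obtain ⟨c, hc⟩ := der_gg i
  refine ⟨‖c‖, fun u => ?_⟩
  rw [hc, norm_mul, norm_pow]
  exact mul_le_of_le_one_right (norm_nonneg _) (pow_le_one₀ (norm_nonneg _) (nrm_gg u))

lemma bd_be (j : ℕ) : ∃ D, 0 ≤ D ∧ ∀ U u, 1 ≤ U → ‖iteratedDeriv j (be U) u‖ ≤ D := by
  choose A hA using bd_ff
  choose B hB using bd_gg
  have hA0 : ∀ i, 0 ≤ A i := fun i => (norm_nonneg _).trans (hA i 0)
  have hB0 : ∀ i, 0 ≤ B i := fun i => (norm_nonneg _).trans (hB i 0)
  refine ⟨∑ i ∈ Finset.range (j + 1), j.choose i * A i * B (j - i),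
    Finset.sum_nonneg fun i _ => by have := hA0 i; have := hB0 (j - i); positivity,
    fun U u hU => ?_⟩
  rw [be_eq, iteratedDeriv_mul ((sm_sc _).of_le (by exact_mod_cast le_top)).contDiffAt
    (sm_gg.of_le (by exact_mod_cast le_top)).contDiffAt]
  refine (norm_sum_le _ _).trans (Finset.sum_le_sum fun i _ => ?_)
  rw [norm_mul, norm_mul, norm_natCast,
    iteratedDeriv_comp_const_smul (sm_ff.of_le (by exact_mod_cast le_top)), norm_smul]
  have h1 : ‖U⁻¹ ^ i‖ ≤ 1 := by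
    rw [norm_pow, norm_inv, Real.norm_of_nonneg (by linarith)]
    exact pow_le_one₀ (by positivity) (inv_le_one_of_one_le₀ hU)
  have h2 := (mul_le_of_le_one_left (norm_nonneg _) h1).trans (hA i (U⁻¹ * u))
  have := hA0 i
  gcongr
  exact hB _ _

lemma der_be (U : ℝ) (j : ℕ) (u : ℝ) :
    HasDerivAt (iteratedDeriv j (be U)) (iteratedDeriv (j + 1) (be U) u) u := by
  rw [iteratedDeriv_succ]
  exact ((sm_be U).differentiable_iteratedDeriv j (by exact_mod_cast ENat.natCast_lt_top j)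
    u).hasDerivAt

lemma cont_be (U : ℝ) (j : ℕ) : Continuous (iteratedDeriv j (be U)) :=
  (sm_be U).continuous_iteratedDeriv j (by exact_mod_cast le_top)

/-! ### integrals -/

lemma inner {f : ℝ → ℂ} {c r k : ℝ} (hr : 0 ≤ r) (h0 : ∀ x, f x ≠ 0 → |x - c| ≤ r)
    (h : ∀ x, ‖f x‖ ≤ k) : ‖∫ x, f x‖ ≤ 2 * r * k := by
  rw [← setIntegral_eq_integral_of_forall_compl_eq_zero (s := Icc (c - r) (c + r)) fun x hx => by
    by_contra hn
    have := abs_le.1 (h0 x hn)
    exact hx ⟨by linarith [this.1], by linarith [this.2]⟩]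
  refine (norm_setIntegral_le_of_norm_le_const (by simp) fun x _ => h x).trans (le_of_eq ?_)
  rw [Real.volume_real_Icc_of_le (by linarith)]
  ring

lemma iter {F : ℝ → ℝ → ℂ} {a b c r : ℝ} {k g : ℝ → ℝ} (ha : 0 < a) (hab : a ≤ b) (hr : 0 ≤ r)
    (h0 : ∀ y x, 0 < y → F y x ≠ 0 → a ≤ y ∧ y ≤ b ∧ |x - c| ≤ r * y)
    (h : ∀ y x, 0 < y → ‖F y x‖ ≤ k y) (hg : ContinuousOn g (Icc a b))
    (hk : ∀ y, a ≤ y → 2 * (r * y) * k y ≤ g y) :
    ‖∫ y in Ioi (0 : ℝ), ∫ x, F y x‖ ≤ ∫ y in a..b, g y := by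
  have hs : Icc a b ⊆ Ioi 0 := fun y hy => ha.trans_le hy.1
  rw [setIntegral_eq_of_subset_of_forall_sdiff_eq_zero measurableSet_Ioi hs fun y hy => by
      have : ∀ x, F y x = 0 := fun x => by
        by_contra hn
        exact hy.2 ⟨(h0 y x hy.1 hn).1, (h0 y x hy.1 hn).2.1⟩
      simp [this],
    intervalIntegral.integral_of_le hab, ← integral_Icc_eq_integral_Ioc]
  refine norm_integral_le_of_norm_le (hg.integrableOn_compact isCompact_Icc) ?_
  filter_upwards [ae_restrict_mem measurableSet_Icc] with y hy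
  have hy0 := hs hy
  exact (inner (mul_nonneg hr hy0.le) (fun x hx => (h0 y x hy0 hx).2.2)
    fun x => h y x hy0).trans (hk y hy.1)

lemma iter1 {F : ℝ → ℝ → ℂ} {a b c r k : ℝ} (ha : 0 < a) (hab : a ≤ b) (hr : 0 ≤ r)
    (h0 : ∀ y x, 0 < y → F y x ≠ 0 → a ≤ y ∧ y ≤ b ∧ |x - c| ≤ r * y)
    (h : ∀ y x, 0 < y → ‖F y x‖ ≤ k / y ^ 2) :
    ‖∫ y in Ioi (0 : ℝ), ∫ x, F y x‖ ≤ 2 * r * k * Real.log (b / a) := by
  refine (iter (g := fun y => 2 * r * k * y⁻¹) ha hab hr h0 h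
    (continuousOn_const.mul (continuousOn_id.inv₀ fun y hy => (ha.trans_le hy.1).ne'))
    fun y hy => le_of_eq ?_).trans (le_of_eq ?_)
  · have := (ha.trans_le hy).ne'
    field_simp
  · rw [intervalIntegral.integral_const_mul, integral_inv_of_pos ha (ha.trans_le hab)]

lemma iter2 {F : ℝ → ℝ → ℂ} {a b c r k : ℝ} {m : ℕ} (ha : 0 < a) (hab : a ≤ b) (hr : 0 ≤ r)
    (hk : 0 ≤ k) (h0 : ∀ y x, 0 < y → F y x ≠ 0 → a ≤ y ∧ y ≤ b ∧ |x - c| ≤ r * y)
    (h : ∀ y x, 0 < y → ‖F y x‖ ≤ k / y ^ (m + 3)) :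
    ‖∫ y in Ioi (0 : ℝ), ∫ x, F y x‖ ≤ 2 * r * k / a ^ (m + 1) := by
  have hb := ha.trans_le hab
  refine (iter (g := fun y => 2 * r * k / a ^ m * y ^ (-2 : ℤ)) ha hab hr h0 h
    (continuousOn_const.mul (continuousOn_id.zpow₀ _ fun y hy => Or.inl (ha.trans_le hy.1).ne'))
    fun y hy => ?_).trans ?_
  · have hy0 := ha.trans_le hy
    calc 2 * (r * y) * (k / y ^ (m + 3)) = 2 * r * k / y ^ m * y ^ (-2 : ℤ) := by
          rw [zpow_neg, zpow_ofNat, pow_add]; field_simp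
      _ ≤ _ := by gcongr
  · rw [intervalIntegral.integral_const_mul, integral_zpow (Or.inr ⟨by norm_num,
      notMem_uIcc_of_lt ha hb⟩)]
    calc _ = 2 * r * k / a ^ m * (a⁻¹ - b⁻¹) := by congr 1; norm_num; ring
      _ ≤ 2 * r * k / a ^ m * a⁻¹ := by gcongr; exact sub_le_self _ (by positivity)
      _ = _ := by rw [pow_succ]; field_simp

/-- the product measure -/
noncomputable abbrev mu : Measure (ℝ × ℝ) := (volume.restrict (Ioi (0 : ℝ))).prod volume

lemma pos_ae : ∀ᵐ p ∂mu, 0 < p.1 :=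
  Measure.quasiMeasurePreserving_fst.ae (ae_restrict_mem measurableSet_Ioi)

lemma box (b R K : ℝ) : Integrable ((Icc 0 b ×ˢ Icc (-R) R).indicator fun _ : ℝ × ℝ => K) mu := by
  refine (integrable_indicator_iff (measurableSet_Icc.prod measurableSet_Icc)).2
    (integrableOn_const ?_)
  rw [Measure.prod_prod]
  exact ENNReal.mul_ne_top ((Measure.restrict_apply_le _ _).trans_lt measure_Icc_lt_top).ne
    measure_Icc_lt_top.ne

end BiA

end Pool.Agent.MP_20b2fd_nt.H38
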