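import Pool.Agent.MP_20b2fd_nt.H38.SpecD

/-! Pairs of divisors: the analytic lemmas. -/

set_option autoImplicit false

namespace Pool.Agent.MP_20b2fd_nt.H38

open Finset Complex
open scoped Real

namespace DkA

theorem norm_ee (x : ℝ) : ‖ee (x : ℂ)‖ = 1 := by
  rw [ee, show 2 * π * I * (x : ℂ) = ((2 * π * x : ℝ) : ℂ) * I by push_cast; ring,
    norm_exp_ofReal_mul_I]

theorem ee_add (x y : ℂ) : ee (x + y) = ee x * ee y := by rw [ee, mul_add, Complex.exp_add, ee, ee]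

theorem ee_int {c : ℕ} [NeZero c] (j : ℤ) : ee ((j : ℂ) / c) = ec c (j : ZMod c) := by
  rw [ec, ee, ee, ← mul_div_assoc, ← mul_div_assoc, ← ZMod.stdAddChar_coe, ZMod.stdAddChar_apply,
    ZMod.toCircle_apply]

/-- the weight of a frequency -/
noncomputable def Gf (k P x : ℝ) : ℂ :=
  x * ((Real.exp (-π * (k * x) ^ 2) : ℝ) * ee ((-(k * x * P) : ℝ) : ℂ))

theorem norm_Gf (k P : ℝ) {x : ℝ} (hx : 0 ≤ x) : ‖Gf k P x‖ = x * Real.exp (-π * (k * x) ^ 2) := by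
  rw [Gf, norm_mul, norm_mul, norm_ee, mul_one, norm_real, norm_real, Real.norm_of_nonneg hx,
    Real.norm_of_nonneg (Real.exp_pos _).le]

theorem exp_le {w : ℝ} (hw : 0 < w) : Real.exp (-w) ≤ 1 / w ∧ w * Real.exp (-w) ≤ 2 / w := by
  have h1 := Real.quadratic_le_exp_of_nonneg hw.le
  have h2 := Real.exp_pos w
  rw [Real.exp_neg, ← div_eq_mul_inv, ← one_div, div_le_div_iff₀ h2 hw, div_le_div_iff₀ h2 hw]
  constructor <;> nlinarith

theorem Gf_le {k x : ℝ} (P : ℝ) (hk : k ≠ 0) (hx : 0 < x) : ‖Gf k P x‖ ≤ 1 / (k ^ 2 * x) := by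
  have h0 : 0 < (k * x) ^ 2 := by positivity
  have h1 := (exp_le (w := π * (k * x) ^ 2) (by positivity)).1
  have h2 : 1 / (π * (k * x) ^ 2) ≤ 1 / (k * x) ^ 2 :=
    one_div_le_one_div_of_le h0 (by nlinarith [Real.pi_gt_three])
  rw [norm_Gf k P hx.le, neg_mul]
  refine (mul_le_mul_of_nonneg_left (h1.trans h2) hx.le).trans (le_of_eq ?_)
  field_simp

theorem Gf_deriv (k P x : ℝ) : HasDerivAt (Gf k P)
    ((Real.exp (-π * (k * x) ^ 2) : ℝ) * ee ((-(k * x * P) : ℝ) : ℂ) *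
      (1 + x * (-π * k ^ 2 * (2 * x) + -(2 * π * I * k * P)))) x := by
  have e : ∀ y : ℝ, ((Real.exp (-π * (k * y) ^ 2) : ℝ) : ℂ) * ee ((-(k * y * P) : ℝ) : ℂ) =
      exp (-π * k ^ 2 * (y : ℂ) ^ 2 + -(2 * π * I * k * P) * y) := fun y => by
    rw [ee, ofReal_exp, ← Complex.exp_add]
    congr 1
    push_cast
    ring
  have h1 : HasDerivAt (fun z : ℂ => -π * k ^ 2 * z ^ 2 + -(2 * π * I * k * P) * z)
      (-π * k ^ 2 * (2 * x) + -(2 * π * I * k * P)) x := by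
    refine (((hasDerivAt_pow 2 (x : ℂ)).const_mul (-π * k ^ 2 : ℂ)).fun_add
      ((hasDerivAt_id' (x : ℂ)).const_mul (-(2 * π * I * k * P) : ℂ))).congr_deriv ?_
    norm_num
  have h2 := ((hasDerivAt_id' (x : ℂ)).fun_mul h1.cexp).comp_ofReal
  have e2 : Gf k P = fun y : ℝ =>
      (y : ℂ) * exp (-π * k ^ 2 * (y : ℂ) ^ 2 + -(2 * π * I * k * P) * y) := by
    funext y
    rw [Gf, e]
  rw [e2, e]
  refine h2.congr_deriv ?_
  ring

theorem deriv_le {k x : ℝ} (P : ℝ) (hk : k ≠ 0) (hx : 0 < x) :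
    ‖((Real.exp (-π * (k * x) ^ 2) : ℝ) : ℂ) * ee ((-(k * x * P) : ℝ) : ℂ) *
      (1 + x * (-π * k ^ 2 * (2 * x) + -(2 * π * I * k * P)))‖ ≤ 6 * (1 + |P|) / (k * x) ^ 2 := by
  have h0 : 0 < (k * x) ^ 2 := by positivity
  have hπ := Real.pi_gt_three
  obtain ⟨h1, h2⟩ := exp_le (w := π * (k * x) ^ 2) (by positivity)
  have h3 : ‖(1 : ℂ) + x * (-π * k ^ 2 * (2 * x) + -(2 * π * I * k * P))‖ ≤
      1 + 2 * (π * (k * x) ^ 2) + 2 * π * |P| * (1 + π * (k * x) ^ 2) := by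
    have e : (1 : ℂ) + x * (-π * k ^ 2 * (2 * x) + -(2 * π * I * k * P)) =
        ((1 - 2 * (π * (k * x) ^ 2) : ℝ) : ℂ) + ((-(2 * π * P * (k * x)) : ℝ) : ℂ) * I := by
      push_cast
      ring
    rw [e]
    refine (norm_add_le _ _).trans (add_le_add ?_ ?_)
    · rw [norm_real, Real.norm_eq_abs, abs_le]
      constructor <;> nlinarith
    · rw [norm_mul, norm_I, mul_one, norm_real, Real.norm_eq_abs, abs_neg, abs_mul, abs_mul,
        abs_of_pos Real.two_pi_pos]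
      refine mul_le_mul_of_nonneg_left ?_ (by positivity)
      rw [abs_le]
      constructor <;> nlinarith [sq_nonneg (k * x + 1), sq_nonneg (k * x - 1)]
  rw [norm_mul, norm_mul, norm_ee, mul_one, norm_real, Real.norm_of_nonneg (Real.exp_pos _).le,
    neg_mul]
  refine (mul_le_mul_of_nonneg_left h3 (Real.exp_pos _).le).trans ?_
  have h4 : 0 ≤ 2 * π * |P| := by positivity
  have h5 : (5 + 6 * π * |P|) / (π * (k * x) ^ 2) ≤ 6 * (1 + |P|) / (k * x) ^ 2 := by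
    rw [div_le_div_iff₀ (by positivity) h0]
    nlinarith [abs_nonneg P]
  refine le_trans ?_ h5
  have h6 := mul_le_mul_of_nonneg_left (add_le_add h1 h2) h4
  calc _ = Real.exp (-(π * (k * x) ^ 2)) + 2 * (π * (k * x) ^ 2 * Real.exp (-(π * (k * x) ^ 2))) +
        2 * π * |P| * (Real.exp (-(π * (k * x) ^ 2)) +
          π * (k * x) ^ 2 * Real.exp (-(π * (k * x) ^ 2))) := by ring
    _ ≤ 1 / (π * (k * x) ^ 2) + 2 * (2 / (π * (k * x) ^ 2)) +
        2 * π * |P| * (1 / (π * (k * x) ^ 2) + 2 / (π * (k * x) ^ 2)) := by linarith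
    _ = _ := by ring

theorem Gf_step {k X : ℝ} (P : ℝ) (hk : k ≠ 0) (hX : 0 < X) {n : ℕ} (hn : 1 ≤ n) :
    ‖Gf k P (X / n) - Gf k P (X / (n + 1 : ℕ))‖ ≤ 12 * (1 + |P|) / (k ^ 2 * X) := by
  have n1 : (1 : ℝ) ≤ n := by exact_mod_cast hn
  have h0 : 0 < X / (n + 1 : ℕ) := by positivity
  have h1 : X / (n + 1 : ℕ) ≤ X / n :=
    div_le_div_of_nonneg_left hX.le (by linarith) (by push_cast; linarith)
  have h2 := (convex_Ici (X / (n + 1 : ℕ))).norm_image_sub_le_of_norm_hasDerivWithin_le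
    (C := 6 * (1 + |P|) / (k * (X / (n + 1 : ℕ))) ^ 2)
    (fun x _ => (Gf_deriv k P x).hasDerivWithinAt)
    (fun x hx => (deriv_le P hk (h0.trans_le hx)).trans (by
      refine div_le_div_of_nonneg_left (by positivity) (by positivity) ?_
      rw [mul_pow, mul_pow]
      exact mul_le_mul_of_nonneg_left (pow_le_pow_left₀ h0.le hx 2) (sq_nonneg k)))
    Set.self_mem_Ici h1
  refine h2.trans ?_
  rw [Real.norm_of_nonneg (sub_nonneg.2 h1)]
  push_cast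
  have e : 6 * (1 + |P|) / (k * (X / (n + 1))) ^ 2 * (X / n - X / (n + 1)) =
      12 * (1 + |P|) / (k ^ 2 * X) * ((n + 1) / (2 * n)) := by
    field_simp
    ring
  rw [e]
  refine mul_le_of_le_one_right (by positivity) ?_
  rw [div_le_one (by positivity)]
  linarith

/-- summation by parts -/
theorem abel (e F : ℕ → ℂ) {S D : ℝ} (A : ℕ) (hD : 0 ≤ D)
    (hS : ∀ n ≤ A, ‖∑ i ∈ Icc 1 n, e i‖ ≤ S)
    (h1 : ∀ n, 1 ≤ n → ‖F n - F (n + 1)‖ ≤ D) (h2 : ∀ n : ℕ, 1 ≤ n → ‖F n‖ ≤ D * n) :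
    ‖∑ i ∈ Icc 1 A, F i * e i‖ ≤ 2 * S * D * A := by
  have S0 : 0 ≤ S := (norm_nonneg _).trans (hS 0 (Nat.zero_le _))
  have key : ∀ n ≤ A, ‖∑ i ∈ Icc 1 n, F i * e i - F n * ∑ i ∈ Icc 1 n, e i‖ ≤ S * D * n := by
    intro n hn
    induction n with
    | zero => simp
    | succ n ih =>
      rw [sum_Icc_succ_top (by omega), sum_Icc_succ_top (by omega)]
      have e1 : ∑ i ∈ Icc 1 n, F i * e i + F (n + 1) * e (n + 1) -
          F (n + 1) * (∑ i ∈ Icc 1 n, e i + e (n + 1)) =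
          (∑ i ∈ Icc 1 n, F i * e i - F n * ∑ i ∈ Icc 1 n, e i) +
            (F n - F (n + 1)) * ∑ i ∈ Icc 1 n, e i := by ring
      have e2 : ‖(F n - F (n + 1)) * ∑ i ∈ Icc 1 n, e i‖ ≤ D * S := by
        rcases Nat.eq_zero_or_pos n with rfl | h
        · simpa using mul_nonneg hD S0
        · rw [norm_mul]
          exact mul_le_mul (h1 n h) (hS n (by omega)) (norm_nonneg _) hD
      rw [e1]
      refine (norm_add_le _ _).trans ?_
      push_cast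
      linarith [ih (by omega)]
  have e3 : ‖F A * ∑ i ∈ Icc 1 A, e i‖ ≤ D * A * S := by
    rcases Nat.eq_zero_or_pos A with rfl | h
    · simp
    · rw [norm_mul]
      exact mul_le_mul (h2 A h) (hS A le_rfl) (norm_nonneg _) (by positivity)
  have e4 := norm_add_le (∑ i ∈ Icc 1 A, F i * e i - F A * ∑ i ∈ Icc 1 A, e i)
    (F A * ∑ i ∈ Icc 1 A, e i)
  rw [sub_add_cancel] at e4
  linarith [key A le_rfl]

theorem sum_Ioc (f : ℤ → ℂ) (n : ℕ) : ∑ d ∈ Ioc (0 : ℤ) n, f d = ∑ i ∈ Icc 1 n, f i := by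
  induction n with
  | zero => simp
  | succ n ih =>
    rw [sum_Icc_succ_top (by omega), ← ih, Nat.cast_succ,
      ← insert_Ioc_right_eq_Ioc_add_one (Int.natCast_nonneg n), sum_insert (by simp), add_comm]

/-- the terms of an incomplete Kloosterman sum -/
noncomputable def ek (c : ℕ) (A : ℤ) (i : ℕ) : ℂ :=
  if i.Coprime c then ec c (A * (i : ZMod c)⁻¹) else 0

theorem ik (h : IkS) : ∃ C : ℝ, 1 ≤ C ∧ ∀ (c : ℕ) (A : ℤ) (n : ℕ), 1 ≤ c →
    ‖∑ i ∈ Icc 1 n, ek c A i‖ ≤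
      C * ((n : ℝ) / c + 1 + Real.log c) * (bb c * (A.gcd c : ℝ) ^ (1 / 4 : ℝ)) := by
  obtain ⟨C, hC, h⟩ := h
  refine ⟨C, hC, fun c A n hc => ?_⟩
  have h1 := h c A 0 n hc (Int.natCast_nonneg n)
  rw [sum_filter, sum_Ioc] at h1
  simpa [ek, Nat.isCoprime_iff_coprime] using h1

/-- one frequency -/
theorem freq {C : ℝ} (hC : 1 ≤ C) (h : ∀ (c : ℕ) (A : ℤ) (n : ℕ), 1 ≤ c →
    ‖∑ i ∈ Icc 1 n, ek c A i‖ ≤
      C * ((n : ℝ) / c + 1 + Real.log c) * (bb c * (A.gcd c : ℝ) ^ (1 / 4 : ℝ)))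
    {c : ℕ} (hc : 1 ≤ c) (hb : 0 ≤ bb c) {β k : ℤ} (hk : k ≠ 0) {G X : ℝ} (hX : 0 < X)
    (hG : (β.gcd c : ℝ) ≤ G) (P : ℝ) (A : ℕ) :
    ‖∑ i ∈ Icc 1 A, Gf k P (X / i) * ek c (k * β) i‖ ≤
      24 * C * ((A : ℝ) / c + 1 + Real.log c) * bb c * G ^ (1 / 4 : ℝ) * (1 + |P|) * A / X *
        |(k : ℝ)| ^ (-(7 / 4) : ℝ) := by
  have k0 : (k : ℝ) ≠ 0 := by exact_mod_cast hk
  have k1 : (0 : ℝ) < |(k : ℝ)| := abs_pos.2 k0
  have c0 : (0 : ℝ) < c := by exact_mod_cast hc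
  have hl : 0 ≤ Real.log c := Real.log_natCast_nonneg c
  have G0 : 0 ≤ G := (Nat.cast_nonneg _).trans hG
  have h1 : ((k * β).gcd c : ℝ) ≤ |(k : ℝ)| * G := by
    have a1 : (k * β).gcd c ∣ k.gcd c * β.gcd c := by
      simpa [Int.gcd, Int.natAbs_mul] using Nat.gcd_mul_left_dvd_mul_gcd c k.natAbs β.natAbs
    have a2 : k.gcd c ≤ k.natAbs := Nat.le_of_dvd (Int.natAbs_pos.2 hk) (Nat.gcd_dvd_left _ _)
    have a3 : (k * β).gcd c ≤ k.gcd c * β.gcd c := Nat.le_of_dvd (Nat.mul_pos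
      (Int.gcd_pos_of_ne_zero_left _ hk)
      (Int.gcd_pos_of_ne_zero_right _ (by exact_mod_cast (by omega : c ≠ 0)))) a1
    have a4 : ((k * β).gcd c : ℝ) ≤ (k.natAbs : ℝ) * β.gcd c := by
      exact_mod_cast a3.trans (Nat.mul_le_mul_right _ a2)
    rw [Nat.cast_natAbs, Int.cast_abs] at a4
    exact a4.trans (mul_le_mul_of_nonneg_left hG k1.le)
  refine (abel (ek c (k * β)) (fun i => Gf k P (X / i))
    (S := C * ((A : ℝ) / c + 1 + Real.log c) * (bb c * (|(k : ℝ)| * G) ^ (1 / 4 : ℝ)))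
    (D := 12 * (1 + |P|) / (k ^ 2 * X)) A (by positivity) (fun n hn => (h c _ n hc).trans ?_)
    (fun n hn => Gf_step P k0 hX hn) fun n hn => ?_).trans (le_of_eq ?_)
  · have : (n : ℝ) ≤ A := by exact_mod_cast hn
    gcongr
  · have n0 : (0 : ℝ) < n := by exact_mod_cast hn
    refine (Gf_le P k0 (by positivity)).trans ?_
    rw [show 1 / ((k : ℝ) ^ 2 * (X / n)) = 1 / (k ^ 2 * X) * n by field_simp]
    gcongr
    linarith [abs_nonneg P]
  · have e : |(k : ℝ)| ^ (-(7 / 4) : ℝ) = |(k : ℝ)| ^ (1 / 4 : ℝ) / k ^ 2 := by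
      rw [← sq_abs (k : ℝ), ← Real.rpow_two, ← Real.rpow_sub k1]
      norm_num
    rw [e, Real.mul_rpow k1.le G0]
    field_simp
    ring

end DkA

end Pool.Agent.MP_20b2fd_nt.H38
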