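import Pool.Agent.MP_20b2fd_nt.H38.Ds11
import Pool.Agent.MP_74e98a_nt.H25.Div

/-! One shift and one short interval. -/

set_option autoImplicit false

namespace Pool.Agent.MP_20b2fd_nt.H38

open Finset Filter Topology
open scoped Real

namespace Ds1A

theorem sizes (ν T n : ℝ) (hν : 128 ≤ ν) (hT : ν ^ 100 ≤ T) (hn : T ^ 4 ≤ n) :
    n * ν ^ 6 ≤ (n / ν ^ 50 / T) ^ 2 ∧ 1 ≤ n / ν ^ 50 / T ∧ n / ν ^ 50 / T ≤ n * ν ^ 2 / T ∧
      n / ν ^ 50 / T ≤ n ∧ ν ^ 6 ≤ n ∧ ν ^ 40 ≤ T := by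
  have hν0 : 0 < ν := by linarith
  have hν1 : 1 ≤ ν := by linarith
  have hT1 : 1 ≤ T := (one_le_pow₀ hν1).trans hT
  have hn1 : 1 ≤ n := (one_le_pow₀ hT1).trans hn
  have h1 : n * ν ^ 6 ≤ (n / ν ^ 50 / T) ^ 2 := by
    rw [div_div, div_pow, le_div_iff₀ (by positivity)]
    calc _ = n * (ν ^ 6 * ν ^ 100 * T ^ 2) := by ring
      _ ≤ n * (ν ^ 100 * ν ^ 100 * T ^ 2) := by gcongr; norm_num
      _ ≤ n * (T * T * T ^ 2) := by gcongr
      _ = n * T ^ 4 := by ring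
      _ ≤ n * n := by gcongr
      _ = _ := by ring
  have h2 : n / ν ^ 50 ≤ n := div_le_self (by linarith) (one_le_pow₀ hν1)
  refine ⟨h1, ?_, ?_, (div_le_self (by positivity) hT1).trans h2, ?_, ?_⟩
  · refine (one_le_sq_iff₀ (by positivity)).1 (le_trans ?_ h1)
    exact one_le_mul_of_one_le_of_one_le hn1 (one_le_pow₀ hν1)
  · gcongr
    exact h2.trans (le_mul_of_one_le_right (by linarith) (one_le_pow₀ hν1))
  · exact ((pow_le_pow_right₀ hν1 (by norm_num)).trans hT).trans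
      ((le_self_pow₀ hT1 (by norm_num)).trans hn)
  · exact (pow_le_pow_right₀ hν1 (by norm_num)).trans hT

theorem lsize (ν n m H : ℝ) (hν : 128 ≤ ν) (hn : 0 < n) (hm : 0 ≤ m) (h3 : m ≤ 4 * n * ν ^ 2)
    (h6 : |H| ≤ ν ^ 4 * n) : |m + H| ≤ n * ν ^ 6 := by
  have hν0 : 0 < ν := by linarith
  refine (abs_add_le _ _).trans ?_
  rw [abs_of_nonneg hm]
  have a1 : 8 * 1 ≤ ν * ν ^ 3 := by
    gcongr
    · linarith
    · exact one_le_pow₀ (by linarith)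
  have a2 : 2 * 1 ≤ ν * ν := by gcongr <;> linarith
  have a3 := mul_le_mul_of_nonneg_left a1 (show 0 ≤ n * ν ^ 2 by positivity)
  have a4 := mul_le_mul_of_nonneg_left a2 (show 0 ≤ n * ν ^ 4 by positivity)
  nlinarith

open Classical in
theorem per (C ν z T : ℝ) (N t y₀ : ℕ) (h : ℤ) (J : Finset ℕ) (Φ : ℕ → ℝ) (k : ℝ → ℝ)
    (hν : 128 ≤ ν) (hT : ν ^ 100 ≤ T) (hz1 : 1 ≤ z) (hzT : z < T) (hN : T ^ 4 ≤ N) (hC : 1 ≤ C)
    (ht : t.Prime) (ht1 : T ≤ t) (ht2 : (t : ℝ) ≤ 2 * T) (hH : ¬ (t : ℤ) ∣ h * N) (h0 : h ≠ 0)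
    (hh : |(h : ℝ)| ≤ ν ^ 4) (hy1 : N / ν / (4 * T) ≤ y₀) (hy2 : (y₀ : ℝ) ≤ N * ν ^ 2 / T)
    (hJ : ∀ y ∈ J, y₀ ≤ y ∧ (y : ℝ) ≤ y₀ + N / ν ^ 50 / T)
    (k1 : ∀ x, (ν ^ 3)⁻¹ ≤ |x| → |k x| ≤ ν)
    (k2 : ∀ x x', 0 < x * x' → (ν ^ 3)⁻¹ ≤ |x| → (ν ^ 3)⁻¹ ≤ |x'| → |k x - k x'| ≤ ν ^ 9 * |x - x'|)
    (k4 : ∀ x, |1 + x| ≤ (ν ^ 8)⁻¹ → k x = 0)
    (hD : ∀ (ϵ : ℝ) (U : ℕ) (l : ℤ), l ≠ 0 →
      |ts z Φ l| ≤ C * tau l.natAbs * (1 + Real.log z) * (1 + Real.log |(l : ℝ)| + Real.log z) ∧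
      (t.Prime → z < t → ¬ (t : ℤ) ∣ l → z ≤ U → |Real.log (|(l : ℝ)| / (U : ℝ) ^ 2)| ≤ ϵ →
        |tau l.natAbs - ts z Φ l - 2 * FF Φ U t l| ≤
          ((l.natAbs.divisors.filter fun u : ℕ =>
            U * Real.exp (-ϵ) ≤ u ∧ (u : ℝ) ≤ U * Real.exp ϵ).card : ℝ) +
          C * tau l.natAbs * (1 + Real.log U) ^ 2 * (ϵ + z / U + 1 / t)))
    (hτ : ∀ l : ℤ, |(l : ℝ)| ≤ (N : ℝ) ^ 2 → 4 * C * (1 + Real.log N) ^ 2 * tau l.natAbs ≤ ν) :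
    |k (h * N / (t * y₀))| ≤ ν ∧ ((Nat.sqrt (t * y₀ + h * N : ℤ).natAbs : ℕ) : ℝ) ^ 2 ≤ N * ν ^ 6 ∧
    ∑ y ∈ J, |(tau (t * y + h * N : ℤ).natAbs - ts z Φ (t * y + h * N)) * k (h * N / (t * y)) -
      2 * (k (h * N / (t * y₀)) * FF Φ (Nat.sqrt (t * y₀ + h * N : ℤ).natAbs) t (t * y + h * N))| ≤
      65 * (N / ν ^ 50 / T) / ν ^ 34 := by
  obtain ⟨s1, s2, s3, s4, s5, s6⟩ := sizes ν T N hν hT hN
  have hν0 : 0 < ν := by linarith
  have hν1 : 1 ≤ ν := by linarith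
  have hT1 : 1 ≤ T := (one_le_pow₀ hν1).trans hT
  have hTN : T ≤ N := (le_self_pow₀ hT1 (by norm_num)).trans hN
  have hn1 : (1 : ℝ) ≤ N := hT1.trans hTN
  have hn0 : (0 : ℝ) < N := by linarith
  have hT0 : 0 < T := by linarith
  have ht0 : (0 : ℝ) < t := by linarith
  have hH1 : (N : ℝ) ≤ |(h : ℝ) * N| := by
    rw [abs_mul, abs_of_pos hn0]
    exact le_mul_of_one_le_left hn0.le (by exact_mod_cast Int.one_le_abs h0)
  have hH2 : |(h : ℝ) * N| ≤ ν ^ 4 * N := by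
    rw [abs_mul, abs_of_pos hn0]
    gcongr
  have m1 : N / (4 * ν) ≤ (t : ℝ) * y₀ := by
    calc N / (4 * ν) = T * (N / ν / (4 * T)) := by field_simp
      _ ≤ _ := by gcongr
  have m2 : ∀ y : ℕ, y₀ ≤ y → (y : ℝ) ≤ y₀ + N / ν ^ 50 / T → (t : ℝ) * y₀ ≤ t * y ∧
      (t : ℝ) * y ≤ 4 * N * ν ^ 2 ∧ (t : ℝ) * y - t * y₀ ≤ 2 * N / ν ^ 50 := fun y a1 a2 => by
    have a3 : (y₀ : ℝ) ≤ y := Nat.cast_le.2 a1
    refine ⟨by gcongr, ?_, ?_⟩
    · calc (t : ℝ) * y ≤ 2 * T * (2 * (N * ν ^ 2 / T)) := by gcongr; linarith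
        _ = _ := by field_simp; ring
    · calc (t : ℝ) * y - t * y₀ = t * (y - y₀) := by ring
        _ ≤ 2 * T * (N / ν ^ 50 / T) := by
          have := sub_nonneg.2 a3
          gcongr
          linarith
        _ = _ := by field_simp
  have m3 := m2 y₀ le_rfl (by linarith)
  have f0 := (frz _ _ _ _ ν hν hn0 m1 le_rfl m3.2.1 m3.2.2 hH1 hH2).2.1
  have hl : ∀ y : ℕ, y₀ ≤ y → (y : ℝ) ≤ y₀ + N / ν ^ 50 / T →
      |((t * y + h * N : ℤ) : ℝ)| ≤ N * ν ^ 6 := fun y a1 a2 => by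
    push_cast
    exact lsize ν N _ _ hν hn0 (by positivity) (m2 y a1 a2).2.1 hH2
  have hl2 : (N : ℝ) * ν ^ 6 ≤ (N : ℝ) ^ 2 := by
    rw [sq]
    gcongr
  have hnd : ∀ y : ℕ, ¬ (t : ℤ) ∣ t * y + h * N := fun y hy =>
    hH ((dvd_add_right (dvd_mul_right _ _)).1 hy)
  have hne : ∀ y : ℕ, (t * y + h * N : ℤ) ≠ 0 := fun y hy => hnd y (hy ▸ dvd_zero _)
  have hU2 : ((Nat.sqrt (t * y₀ + h * N : ℤ).natAbs : ℕ) : ℝ) ^ 2 ≤ N * ν ^ 6 := by
    refine le_trans ?_ (hl y₀ le_rfl (by linarith))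
    rw [← Int.cast_abs, ← Int.natCast_natAbs, Int.cast_natCast]
    exact_mod_cast Nat.sqrt_le' _
  refine ⟨k1 _ f0, hU2, ?_⟩
  have hL : 0 ≤ Real.log N := Real.log_nonneg hn1
  have hLz : Real.log z ≤ Real.log N := Real.log_le_log (by linarith) (by linarith)
  have hLz0 : 0 ≤ Real.log z := Real.log_nonneg hz1
  have hτ0 : ∀ m : ℕ, 0 ≤ tau m := fun m => Nat.cast_nonneg _
  have hJc := cardJ y₀ _ J s2 hJ
  have A1 : ∀ y ∈ J, |(tau (t * y + h * N : ℤ).natAbs - ts z Φ (t * y + h * N)) *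
      (k (h * N / (t * y)) - k (h * N / (t * y₀)))| ≤ 32 / ν ^ 34 := fun y hy => by
    obtain ⟨a1, a2⟩ := hJ y hy
    obtain ⟨b1, b2, b3⟩ := m2 y a1 a2
    obtain ⟨c1, c2, c3⟩ := frz _ _ _ _ ν hν hn0 m1 b1 b2 b3 hH1 hH2
    have d1 := (hD 0 0 _ (hne y)).1
    have d2 := (hl y a1 a2).trans hl2
    have d3 := hτ _ d2
    have d4 : Real.log |((t * y + h * N : ℤ) : ℝ)| ≤ 2 * Real.log N := by
      have := Real.log_le_log (abs_pos.2 (Int.cast_ne_zero.2 (hne y))) d2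
      rwa [Real.log_pow, Nat.cast_ofNat] at this
    have d5 := hτ0 (t * y + h * N : ℤ).natAbs
    have d6 : |ts z Φ (t * y + h * N)| ≤
        C * tau (t * y + h * N : ℤ).natAbs * (1 + Real.log N) * (3 * (1 + Real.log N)) := by
      have := Real.log_nonneg (show (1 : ℝ) ≤ |((t * y + h * N : ℤ) : ℝ)| by
        exact_mod_cast Int.one_le_abs (hne y))
      refine d1.trans ?_
      gcongr
      linarith
    have d7 : tau (t * y + h * N : ℤ).natAbs * 1 ≤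
        tau (t * y + h * N : ℤ).natAbs * (C * (1 + Real.log N) ^ 2) := by
      gcongr
      exact one_le_mul_of_one_le_of_one_le hC (one_le_pow₀ (by linarith))
    have d8 : |tau (t * y + h * N : ℤ).natAbs - ts z Φ (t * y + h * N)| ≤ ν := by
      refine (abs_sub _ _).trans ?_
      rw [abs_of_nonneg d5]
      linarith
    rw [abs_mul]
    calc _ ≤ ν * (ν ^ 9 * (32 / ν ^ 44)) := by
          gcongr
          refine (k2 _ _ c1 c2 f0).trans ?_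
          gcongr
      _ = _ := by field_simp
  have A2 : ∑ y ∈ J, |k (h * N / (t * y₀)) * (tau (t * y + h * N : ℤ).natAbs - ts z Φ (t * y + h * N)
      - 2 * FF Φ (Nat.sqrt (t * y₀ + h * N : ℤ).natAbs) t (t * y + h * N))| ≤
      (N / ν ^ 50 / T) / ν ^ 34 := by
    by_cases hk : k (h * N / (t * y₀)) = 0
    · simp only [hk, zero_mul, abs_zero, sum_const_zero]
      positivity
    have hm0 : (0 : ℝ) < t * y₀ := lt_of_lt_of_le (by positivity) m1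
    have a1 : N / (4 * ν ^ 9) ≤ |((t * y₀ + h * N : ℤ) : ℝ)| := by
      have b1 : (ν ^ 8)⁻¹ ≤ |1 + (h : ℝ) * N / (t * y₀)| := (not_le.1 fun hh => hk (k4 _ hh)).le
      have b2 : ((t * y₀ + h * N : ℤ) : ℝ) = (t * y₀) * (1 + (h : ℝ) * N / (t * y₀)) := by
        push_cast
        rw [mul_add, mul_one, mul_div_cancel₀ _ hm0.ne']
      rw [b2, abs_mul, abs_of_pos hm0]
      calc N / (4 * ν ^ 9) = N / (4 * ν) * (ν ^ 8)⁻¹ := by field_simp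
        _ ≤ _ := by gcongr
    have a2 : ∀ y : ℕ, y₀ ≤ y → (y : ℝ) ≤ y₀ + N / ν ^ 50 / T →
        |((t * y + h * N : ℤ) : ℝ) - ((t * y₀ + h * N : ℤ) : ℝ)| ≤ 2 * N / ν ^ 50 := fun y b1 b2 => by
      obtain ⟨c1, c2, c3⟩ := m2 y b1 b2
      push_cast
      rw [add_sub_add_right_eq_sub, abs_of_nonneg (by linarith)]
      exact c3
    have a3 := fun (y : ℕ) b1 b2 => lg _ _ _ ν T hν hT hN a1 (a2 y b1 b2)
    have a4 := (a3 y₀ le_rfl (by linarith)).1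
    generalize Nat.sqrt (t * y₀ + h * N : ℤ).natAbs = U at hU2 a3 a4 ⊢
    have hw : (128 : ℝ) ≤ ν ^ 40 := hν.trans (le_self_pow₀ hν1 (by norm_num))
    have hU0 : (0 : ℝ) < U := lt_of_lt_of_le (by positivity) a4
    have u1 : (U : ℝ) ≤ N / ν ^ 50 / T :=
      (pow_le_pow_iff_left₀ hU0.le (by positivity) two_ne_zero).1 (hU2.trans s1)
    have u2 : ν ^ 40 ≤ U := le_trans (le_mul_of_one_le_left (by positivity) hT1) a4
    have u3 : T ≤ U := le_trans (le_mul_of_one_le_right hT0.le (by linarith)) a4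
    have u4 : z / U ≤ (ν ^ 40)⁻¹ := by
      calc z / U ≤ T / (T * ν ^ 40) := by gcongr
        _ = _ := by field_simp
    have u5 : 1 / (t : ℝ) ≤ (ν ^ 40)⁻¹ := by
      rw [one_div]
      gcongr
      linarith
    have u6 : Real.log U ≤ Real.log N := Real.log_le_log hU0 (u1.trans s4)
    have u7 : 0 ≤ Real.log U := Real.log_nonneg (by linarith)
    have B := bdry t U y₀ (h * N) _ (ν ^ 40)⁻¹ J ht hH (by positivity)
      (by rw [one_div]; gcongr; linarith) (by rw [inv_mul_eq_div, one_le_div (by positivity)]; exact u2)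
      u1 hJ
    calc _ ≤ ∑ y ∈ J, ν * ((((t * y + h * N : ℤ).natAbs.divisors.filter fun u : ℕ =>
          U * Real.exp (-(ν ^ 40)⁻¹) ≤ u ∧ (u : ℝ) ≤ U * Real.exp (ν ^ 40)⁻¹).card : ℝ) +
            ν * (3 * (ν ^ 40)⁻¹)) := by
          refine sum_le_sum fun y hy => ?_
          obtain ⟨b1, b2⟩ := hJ y hy
          rw [abs_mul]
          refine mul_le_mul (k1 _ f0) ?_ (abs_nonneg _) hν0.le
          refine ((hD _ U _ (hne y)).2 ht (by linarith) (hnd y) (by linarith) (a3 y b1 b2).2).trans ?_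
          have d3 := hτ _ ((hl y b1 b2).trans hl2)
          have d5 := hτ0 (t * y + h * N : ℤ).natAbs
          have d6 : C * tau (t * y + h * N : ℤ).natAbs * (1 + Real.log U) ^ 2 ≤
              C * tau (t * y + h * N : ℤ).natAbs * (1 + Real.log N) ^ 2 := by gcongr
          have d7 : 0 ≤ C * tau (t * y + h * N : ℤ).natAbs * (1 + Real.log N) ^ 2 := by positivity
          refine add_le_add le_rfl (mul_le_mul (by linarith) (by linarith) (by positivity) hν0.le)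
      _ ≤ ν * (12 * (ν ^ 40)⁻¹ * (N / ν ^ 50 / T) + 2 * (N / ν ^ 50 / T) * (ν * (3 * (ν ^ 40)⁻¹))) := by
          rw [← mul_sum, sum_add_distrib, sum_const, nsmul_eq_mul]
          gcongr
      _ = (N / ν ^ 50 / T) / ν ^ 34 * (12 / ν ^ 5 + 6 / ν ^ 4) := by
          field_simp
          ring
      _ ≤ (N / ν ^ 50 / T) / ν ^ 34 * (12 / 128 + 6 / 128) := by
          gcongr <;> exact hν.trans (le_self_pow₀ hν1 (by norm_num))
      _ ≤ _ := mul_le_of_le_one_right (by positivity) (by norm_num)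
  calc _ ≤ ∑ y ∈ J, (32 / ν ^ 34 + |k (h * N / (t * y₀)) * (tau (t * y + h * N : ℤ).natAbs -
        ts z Φ (t * y + h * N) - 2 * FF Φ (Nat.sqrt (t * y₀ + h * N : ℤ).natAbs) t (t * y + h * N))|) := by
        refine sum_le_sum fun y hy => le_trans ?_ (add_le_add (A1 y hy) le_rfl)
        refine le_trans (le_of_eq ?_) (abs_add_le _ _)
        congr 1
        ring
    _ ≤ 2 * (N / ν ^ 50 / T) * (32 / ν ^ 34) + (N / ν ^ 50 / T) / ν ^ 34 := by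
        rw [sum_add_distrib, sum_const, nsmul_eq_mul]
        gcongr
    _ = _ := by ring

theorem ev (δ C : ℝ) (hδ : 0 < δ) (hC : 1 ≤ C) : ∀ᶠ N : ℕ in atTop, 128 ≤ (N : ℝ) ^ δ ∧
    ∀ l : ℤ, |(l : ℝ)| ≤ (N : ℝ) ^ 2 → 4 * C * (1 + Real.log N) ^ 2 * tau l.natAbs ≤ (N : ℝ) ^ δ := by
  obtain ⟨K, hK1, hK⟩ := MP_74e98a_nt.H25.divisor_bound (δ / 4) (by positivity)
  have t1 := ((tendsto_rpow_atTop hδ).comp tendsto_natCast_atTop_atTop).eventually_ge_atTop 128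
  have t2 := ((tendsto_rpow_atTop (show 0 < δ / 8 by positivity)).comp
    tendsto_natCast_atTop_atTop).eventually_ge_atTop (4 * C * (1 + 8 / δ) ^ 2 * K)
  filter_upwards [t1, t2, eventually_ge_atTop 1] with N h1 h2 h3
  refine ⟨h1, fun l hl => ?_⟩
  have hn : (1 : ℝ) ≤ N := Nat.one_le_cast.2 h3
  have hn0 : (0 : ℝ) ≤ N := by linarith
  have e : ∀ m : ℕ, (N : ℝ) ^ (δ / 8 * m) = ((N : ℝ) ^ (δ / 8)) ^ m := fun m => by
    rw [Real.rpow_mul hn0, Real.rpow_natCast]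
  have a1 : tau l.natAbs ≤ K * ((N : ℝ) ^ (δ / 8)) ^ 4 := by
    refine (hK _).trans ?_
    have : ((l.natAbs : ℕ) : ℝ) ≤ (N : ℝ) ^ 2 := by simpa using hl
    calc _ ≤ K * ((N : ℝ) ^ 2) ^ (δ / 4) := by gcongr
      _ = _ := by
        rw [← e, ← Real.rpow_natCast, ← Real.rpow_mul hn0]
        congr 2
        push_cast
        ring
  have a2 : 1 ≤ (N : ℝ) ^ (δ / 8) := Real.one_le_rpow hn (by positivity)
  have a3 : 1 + Real.log N ≤ (1 + 8 / δ) * (N : ℝ) ^ (δ / 8) := by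
    have := Real.log_le_rpow_div hn0 (show 0 < δ / 8 by positivity)
    rw [div_div_eq_mul_div, mul_div_assoc] at this
    linarith
  have a4 : (N : ℝ) ^ δ = ((N : ℝ) ^ (δ / 8)) ^ 8 := by
    rw [← e]
    congr 1
    push_cast
    ring
  have a5 := Real.log_nonneg hn
  have a6 : 0 ≤ tau l.natAbs := Nat.cast_nonneg _
  simp only [Function.comp] at h2
  rw [a4]
  generalize (N : ℝ) ^ (δ / 8) = w at a1 a2 a3 h2 ⊢
  calc _ ≤ 4 * C * ((1 + 8 / δ) * w) ^ 2 * (K * w ^ 4) := by gcongr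
    _ = 4 * C * (1 + 8 / δ) ^ 2 * K * w ^ 6 := by ring
    _ ≤ w * w ^ 7 := by gcongr; norm_num
    _ = _ := by ring

end Ds1A

open Ds1A in
theorem ds1Of : Ds1Of := by
  classical
  rintro ⟨C, hC, hD⟩ hc δ hδ hδ2
  obtain ⟨N₁, hc⟩ := hc δ hδ hδ2
  obtain ⟨N₂, hev⟩ := eventually_atTop.1 (ev δ C hδ hC)
  refine ⟨max 2 (max N₁ N₂), fun N T b₀ P J h y₀ a β Φ k hN hNp hTP h0 hh hy1 hy2 hJ ha hb₀ hβ hΦ
    hk => ?_⟩
  obtain ⟨hν, hτ⟩ := hev N ((le_max_right _ _).trans ((le_max_right _ _).trans hN))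
  have hn1 : (1 : ℝ) < N := Nat.one_lt_cast.2 ((le_max_left _ _).trans hN)
  have hn0 : (0 : ℝ) < N := by linarith
  have hz1 : 1 ≤ (N : ℝ) ^ (1000 * δ) := Real.one_le_rpow hn1.le (by positivity)
  have hzT : (N : ℝ) ^ (1000 * δ) < T :=
    (Real.rpow_lt_rpow_of_exponent_lt hn1 (by linarith)).trans_le hTP.1
  have e : ∀ m : ℕ, (N : ℝ) ^ (m * δ) = ((N : ℝ) ^ δ) ^ m := fun m => by
    rw [mul_comm, Real.rpow_mul hn0.le, Real.rpow_natCast]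
  have e' : ∀ m : ℕ, (N : ℝ) ^ (-m * δ) = (((N : ℝ) ^ δ) ^ m)⁻¹ := fun m => by
    rw [neg_mul, Real.rpow_neg hn0.le, e]
  have hT : ((N : ℝ) ^ δ) ^ 100 ≤ T := by
    rw [← e]
    exact (Real.rpow_le_rpow_of_exponent_le hn1.le (by push_cast; linarith)).trans hTP.1
  have hT0 : 0 < T := by linarith
  have hTN : T ^ 4 ≤ N := by
    calc T ^ 4 ≤ ((N : ℝ) ^ (21 / 10000 : ℝ)) ^ 4 := pow_le_pow_left₀ hT0.le hTP.2.1 _
      _ = (N : ℝ) ^ (21 / 10000 * (4 : ℕ) : ℝ) := by rw [Real.rpow_mul hn0.le, Real.rpow_natCast]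
      _ ≤ (N : ℝ) ^ (1 : ℝ) := Real.rpow_le_rpow_of_exponent_le hn1.le (by norm_num)
      _ = N := Real.rpow_one _
  have e4 : (N : ℝ) ^ (4 * δ) = ((N : ℝ) ^ δ) ^ 4 := by exact_mod_cast e 4
  have e9 : (N : ℝ) ^ (9 * δ) = ((N : ℝ) ^ δ) ^ 9 := by exact_mod_cast e 9
  have e3 : (N : ℝ) ^ (-3 * δ) = (((N : ℝ) ^ δ) ^ 3)⁻¹ := by exact_mod_cast e' 3
  have e8 : (N : ℝ) ^ (-8 * δ) = (((N : ℝ) ^ δ) ^ 8)⁻¹ := by exact_mod_cast e' 8
  have e30 : (N : ℝ) ^ (-30 * δ) = (((N : ℝ) ^ δ) ^ 30)⁻¹ := by exact_mod_cast e' 30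
  have e100 : (N : ℝ) ^ (-100 * δ) = (((N : ℝ) ^ δ) ^ 100)⁻¹ := by exact_mod_cast e' 100
  have e1 : (N : ℝ) ^ (1 - δ) = N / (N : ℝ) ^ δ := by rw [Real.rpow_sub hn0, Real.rpow_one]
  have e2 : (N : ℝ) ^ (1 + 2 * δ) = N * ((N : ℝ) ^ δ) ^ 2 := by
    rw [Real.rpow_add hn0, Real.rpow_one, ← e]
    rfl
  have e50 : (N : ℝ) ^ (1 - 50 * δ) = N / ((N : ℝ) ^ δ) ^ 50 := by
    rw [Real.rpow_sub hn0, Real.rpow_one, ← e]
    rfl
  have e6 : ((N : ℝ) ^ (1 / 2 + 3 * δ)) ^ 2 = N * ((N : ℝ) ^ δ) ^ 6 := by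
    rw [← e, ← Real.rpow_natCast, ← Real.rpow_mul hn0.le]
    nth_rewrite 2 [← Real.rpow_one N]
    rw [← Real.rpow_add hn0]
    congr 1
    push_cast
    ring
  have hy3 : |(y₀ : ℝ)| ≤ (N : ℝ) ^ (1 + 3 * δ) / T := by
    rw [Nat.abs_cast]
    refine hy2.trans ?_
    gcongr
    · exact hn1.le
    · norm_num
  have hc' := fun U a' hU ha' => hc N T ((N : ℝ) ^ δ / T) y₀ P h U a' Φ
    ((le_max_left _ _).trans ((le_max_right _ _).trans hN)) hNp hTP h0 hh hy3 hU ha' hΦ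
  obtain ⟨k1, k2, -, k4⟩ := hk
  rw [e4] at hh
  rw [e1] at hy1
  rw [e2] at hy2
  rw [e3] at k1 k2
  rw [e9] at k2
  rw [e8] at k4
  rw [e50] at hJ hc' ⊢
  rw [e100] at hc'
  rw [e30]
  have hX : 0 ≤ (N : ℝ) ^ (1 / 2 + 3 * δ) := by positivity
  have hD' := fun t ϵ U l hl => (hD _ ϵ Φ U t l hl hz1 hΦ.1 hΦ.2.2).2
  generalize (N : ℝ) ^ (1 / 2 + 3 * δ) = X at e6 hX hc'
  generalize (N : ℝ) ^ (1000 * δ) = z at hz1 hzT hD' ⊢
  clear e e' e1 e2 e3 e4 e8 e9 e30 e50 e100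
  generalize (N : ℝ) ^ δ = ν at hν hτ hT e6 hc' k1 k2 k4 hh hy1 hy2 hJ ⊢
  obtain ⟨s1, s2, s3, s4, s5, s6⟩ := sizes ν T N hν hT hTN
  have hν0 : 0 < ν := by linarith
  have hν1 : 1 < ν := by linarith
  have hT2 : 128 ≤ T := hν.trans ((le_self_pow₀ hν1.le (by norm_num)).trans hT)
  have hH : ∀ t ∈ P, ¬ (t : ℤ) ∣ h * N := fun t ht hd => by
    obtain ⟨a1, a2, a3⟩ := hTP.2.2 t ht
    rcases Int.Prime.dvd_mul' a1 hd with h1 | h1
    · have b1 : (t : ℝ) ≤ |(h : ℝ)| := by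
        exact_mod_cast Int.le_of_dvd (abs_pos.2 h0) ((dvd_abs _ _).2 h1)
      have b2 : ν ^ 4 < ν ^ 40 := pow_lt_pow_right₀ hν1 (by norm_num)
      linarith
    · have b1 := (Nat.prime_dvd_prime_iff_eq a1 hNp).1 (Int.natCast_dvd_natCast.1 h1)
      rw [b1] at a3
      have b2 : T ^ 2 ≤ T ^ 4 := pow_le_pow_right₀ (by linarith) (by norm_num)
      nlinarith
  have hp := fun t (ht : t ∈ P) => per C ν z T N t y₀ h J Φ k hν hT hz1 hzT hTN hC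
    (hTP.2.2 t ht).1 (hTP.2.2 t ht).2.1 (hTP.2.2 t ht).2.2 (hH t ht) h0 hh hy1 hy2 hJ k1 k2 k4
    (hD' t) hτ
  obtain ⟨g1, g2⟩ := hc' (fun t => if t ∈ P then Nat.sqrt (t * y₀ + h * N : ℤ).natAbs else 0)
    (fun t => if t ∈ P then a t * (k (h * N / (t * y₀)) : ℝ) else 0)
    (fun t => by
      split_ifs with ht
      · exact (pow_le_pow_iff_left₀ (Nat.cast_nonneg _) hX two_ne_zero).1
          ((hp t ht).2.1.trans e6.ge)
      · rwa [Nat.cast_zero])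
    (fun t => by
      split_ifs with ht
      · rw [norm_mul, Complex.norm_real, Real.norm_eq_abs, div_eq_mul_one_div ν, mul_comm]
        exact mul_le_mul (hp t ht).1 (ha t) (norm_nonneg _) hν0.le
      · rw [norm_zero]
        positivity)
  have g3 := cs y₀ _ (ν ^ 49)⁻¹ J _ s2 (by positivity) hJ g1 (g2.trans_eq (by field_simp))
  have hP : (P.card : ℝ) ≤ 2 * T := cardJ ⌈T⌉₊ T P (by linarith) fun t ht =>
    ⟨Nat.ceil_le.2 (hTP.2.2 t ht).2.1, by linarith [(hTP.2.2 t ht).2.2, Nat.le_ceil T]⟩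
  generalize N / ν ^ 50 / T = Y at s2 hp g3 ⊢
  have key : ∑ t ∈ P, ∑ y ∈ J, a t * β y *
      (((tau (t * y + h * N : ℤ).natAbs - ts z Φ (t * y + h * N)) * k (h * N / (t * y)) : ℝ) : ℂ) =
      ∑ t ∈ P, ∑ y ∈ J, a t * β y *
        (((tau (t * y + h * N : ℤ).natAbs - ts z Φ (t * y + h * N)) * k (h * N / (t * y)) -
          2 * (k (h * N / (t * y₀)) *
            FF Φ (Nat.sqrt (t * y₀ + h * N : ℤ).natAbs) t (t * y + h * N)) : ℝ) : ℂ) +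
      ∑ y ∈ J, 2 * β y * ∑ t ∈ P, (if t ∈ P then a t * (k (h * N / (t * y₀)) : ℝ) else 0) *
        (FF Φ (if t ∈ P then Nat.sqrt (t * y₀ + h * N : ℤ).natAbs else 0) t (t * y + h * N) : ℝ) := by
    simp only [mul_sum]
    rw [sum_comm (s := J), ← sum_add_distrib]
    refine sum_congr rfl fun t ht => ?_
    rw [← sum_add_distrib]
    refine sum_congr rfl fun y _ => ?_
    rw [if_pos ht, if_pos ht, Complex.ofReal_sub, Complex.ofReal_mul 2,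
      Complex.ofReal_mul (k (h * N / (t * y₀))), Complex.ofReal_ofNat]
    ring
  rw [key]
  refine (norm_add_le _ _).trans ?_
  refine (add_le_add (b := ∑ _t ∈ P, 1 / T * b₀ * (65 * Y / ν ^ 34))
    (d := 2 * b₀ * (42 * (ν ^ 49)⁻¹ * Y)) ?_ ?_).trans ?_
  · refine norm_sum_le_of_le _ fun t ht => ?_
    refine le_trans ?_ (mul_le_mul_of_nonneg_left (hp t ht).2.2 (by positivity))
    rw [mul_sum]
    refine norm_sum_le_of_le _ fun y hy => ?_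
    rw [norm_mul, norm_mul, Complex.norm_real, Real.norm_eq_abs]
    exact mul_le_mul_of_nonneg_right (mul_le_mul (ha t) (hβ y hy) (norm_nonneg _) (by positivity))
      (abs_nonneg _)
  · refine le_trans ?_ (mul_le_mul_of_nonneg_left g3 (by positivity))
    rw [mul_sum]
    refine norm_sum_le_of_le _ fun y hy => ?_
    rw [norm_mul, norm_mul, Complex.norm_ofNat]
    exact mul_le_mul_of_nonneg_right (mul_le_mul_of_nonneg_left (hβ y hy) zero_le_two)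
      (norm_nonneg _)
  · rw [sum_const, nsmul_eq_mul]
    have hY : 0 ≤ Y := by linarith
    have w4 : (128 : ℝ) ^ 2 ≤ ν ^ 4 :=
      (pow_le_pow_left₀ (by norm_num) hν 2).trans (pow_le_pow_right₀ hν1.le (by norm_num))
    have w19 : (128 : ℝ) ^ 2 ≤ ν ^ 19 := w4.trans (pow_le_pow_right₀ hν1.le (by norm_num))
    calc _ ≤ 2 * T * (1 / T * b₀ * (65 * Y / ν ^ 34)) + 2 * b₀ * (42 * (ν ^ 49)⁻¹ * Y) := by gcongr
      _ = b₀ * Y * (ν ^ 30)⁻¹ * (130 / ν ^ 4 + 84 / ν ^ 19) := by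
        field_simp
        ring
      _ ≤ b₀ * Y * (ν ^ 30)⁻¹ * (130 / 128 ^ 2 + 84 / 128 ^ 2) := by gcongr
      _ ≤ _ := mul_le_of_le_one_right (by positivity) (by norm_num)

end Pool.Agent.MP_20b2fd_nt.H38
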