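import Pool.Agent.MP_20b2fd_nt.H38.SpecD

/-! Elementary lemmas for the row on one shift and one short interval. -/

set_option autoImplicit false

namespace Pool.Agent.MP_20b2fd_nt.H38

open Finset Filter Topology
open scoped Real

namespace Ds1A

theorem cnt (t u y₀ : ℕ) (H : ℤ) (Y : ℝ) (J : Finset ℕ) (ht : t.Prime) (hH : ¬ (t : ℤ) ∣ H)
    (hu : 0 < u) (hY : 0 ≤ Y) (hJ : ∀ y ∈ J, y₀ ≤ y ∧ (y : ℝ) ≤ y₀ + Y) :
    ((J.filter fun y : ℕ => (u : ℤ) ∣ t * y + H).card : ℝ) ≤ Y / u + 1 := by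
  by_cases htu : t ∣ u
  · have : (J.filter fun y : ℕ => (u : ℤ) ∣ t * y + H) = ∅ := by
      refine filter_eq_empty_iff.2 fun y _ hy => hH ?_
      exact (dvd_add_right (dvd_mul_right _ _)).1 ((Int.natCast_dvd_natCast.2 htu).trans hy)
    rw [this, card_empty, Nat.cast_zero]
    positivity
  have hc : IsCoprime (u : ℤ) (t : ℤ) :=
    Nat.isCoprime_iff_coprime.2 ((Nat.Prime.coprime_iff_not_dvd ht).2 htu).symm
  have h1 : (J.filter fun y : ℕ => (u : ℤ) ∣ t * y + H).card ≤ (range (⌊Y / u⌋₊ + 1)).card := by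
    refine card_le_card_of_injOn (fun y => (y - y₀) / u) (fun y hy => ?_) (fun y hy y' hy' h => ?_)
    · obtain ⟨h1, h2⟩ := hJ y (mem_filter.1 hy).1
      simp only [coe_range, Set.mem_Iio, Nat.lt_succ_iff]
      refine Nat.le_floor (Nat.cast_div_le.trans ?_)
      rw [Nat.cast_sub h1]
      gcongr
      linarith
    · obtain ⟨h1, h2⟩ := mem_filter.1 hy
      obtain ⟨h3, h4⟩ := mem_filter.1 hy'
      have h5 := (hJ y h1).1
      have h6 := (hJ y' h3).1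
      have h7 : (y - y₀) % u = (y' - y₀) % u := by
        refine (Nat.modEq_iff_dvd.2 ?_ : y - y₀ ≡ y' - y₀ [MOD u])
        refine hc.dvd_of_dvd_mul_left ?_
        have := dvd_sub h4 h2
        rw [Nat.cast_sub h5, Nat.cast_sub h6]
        convert this using 1
        ring
      have h8 := Nat.div_add_mod (y - y₀) u
      have h9 := Nat.div_add_mod (y' - y₀) u
      simp only at h
      rw [h, h7] at h8
      omega
  rw [card_range] at h1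
  calc _ ≤ ((⌊Y / u⌋₊ + 1 : ℕ) : ℝ) := Nat.cast_le.2 h1
    _ ≤ _ := by
      push_cast
      gcongr
      exact Nat.floor_le (by positivity)

theorem cardJ (y₀ : ℕ) (Y : ℝ) (J : Finset ℕ) (hY : 1 ≤ Y)
    (hJ : ∀ y ∈ J, y₀ ≤ y ∧ (y : ℝ) ≤ y₀ + Y) : (J.card : ℝ) ≤ 2 * Y := by
  have := cnt 2 1 y₀ 1 Y J Nat.prime_two (by decide) one_pos (by linarith) hJ
  simp only [Nat.cast_one, one_dvd, filter_true, div_one] at this
  linarith

open Classical in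
theorem bdry (t U y₀ : ℕ) (H : ℤ) (Y ε : ℝ) (J : Finset ℕ) (ht : t.Prime) (hH : ¬ (t : ℤ) ∣ H)
    (hε : 0 < ε) (hε2 : ε ≤ 1 / 2) (hU : 1 ≤ ε * U) (hY : (U : ℝ) ≤ Y)
    (hJ : ∀ y ∈ J, y₀ ≤ y ∧ (y : ℝ) ≤ y₀ + Y) :
    ∑ y ∈ J, (((t * y + H : ℤ).natAbs.divisors.filter fun u : ℕ =>
      U * Real.exp (-ε) ≤ u ∧ (u : ℝ) ≤ U * Real.exp ε).card : ℝ) ≤ 12 * ε * Y := by
  have hU0 : (0 : ℝ) < U := by
    by_contra h
    nlinarith [not_lt.1 h]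
  have e1 : 1 - ε ≤ Real.exp (-ε) := by linarith [Real.add_one_le_exp (-ε)]
  have e2 : Real.exp ε ≤ 1 + 2 * ε := by
    have := Real.abs_exp_sub_one_le (x := ε) (by rw [abs_of_pos hε]; linarith)
    rw [abs_of_pos hε] at this
    linarith [le_abs_self (Real.exp ε - 1)]
  set R := Icc ⌈U * Real.exp (-ε)⌉₊ ⌊U * Real.exp ε⌋₊ with hR
  have hR1 : (R.card : ℝ) ≤ 4 * ε * U := by
    rw [hR, Nat.card_Icc]
    have a1 := Nat.le_ceil (U * Real.exp (-ε))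
    have a2 := Nat.floor_le (a := U * Real.exp ε) (by positivity)
    have a3 := mul_le_mul_of_nonneg_left e1 hU0.le
    have a4 := mul_le_mul_of_nonneg_left e2 hU0.le
    rcases le_total ⌈U * Real.exp (-ε)⌉₊ (⌊U * Real.exp ε⌋₊ + 1) with h | h
    · rw [Nat.cast_sub h]
      push_cast
      linarith
    · rw [Nat.sub_eq_zero_of_le h, Nat.cast_zero]
      positivity
  have hR2 : ∀ u ∈ R, (U : ℝ) / 2 ≤ u := fun u hu => by
    have a1 := Nat.ceil_le.1 (mem_Icc.1 hu).1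
    have a3 := mul_le_mul_of_nonneg_left e1 hU0.le
    nlinarith
  calc _ ≤ ∑ y ∈ J, ((R.filter fun u : ℕ => (u : ℤ) ∣ t * y + H).card : ℝ) := by
        refine sum_le_sum fun y _ => Nat.cast_le.2 (card_le_card fun u hu => ?_)
        obtain ⟨h1, h2, h3⟩ := mem_filter.1 hu
        refine mem_filter.2 ⟨mem_Icc.2 ⟨Nat.ceil_le.2 h2, Nat.le_floor h3⟩, ?_⟩
        exact Int.natCast_dvd.2 (Nat.dvd_of_mem_divisors h1)
    _ = ∑ u ∈ R, ((J.filter fun y : ℕ => (u : ℤ) ∣ t * y + H).card : ℝ) := by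
        simp only [card_filter, Nat.cast_sum]
        exact sum_comm
    _ ≤ ∑ _u ∈ R, 3 * Y / U := by
        refine sum_le_sum fun u hu => ?_
        have h1 := hR2 u hu
        have h2 : (0 : ℝ) < u := by linarith
        refine (cnt t u y₀ H Y J ht hH (Nat.cast_pos.1 h2) (by linarith) hJ).trans ?_
        have h3 : Y / u ≤ Y / (U / 2) := by
          gcongr
          linarith
        have h4 : 1 ≤ Y / U := (one_le_div hU0).2 hY
        have h5 : Y / (U / 2) = 2 * (Y / U) := by field_simp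
        rw [mul_div_assoc]
        linarith
    _ ≤ 4 * ε * U * (3 * Y / U) := by
        rw [sum_const, nsmul_eq_mul]
        have : 0 ≤ Y := by linarith
        gcongr
    _ = _ := by
        field_simp
        ring

theorem frz (m m₀ H n ν : ℝ) (hν : 128 ≤ ν) (hn : 0 < n) (h1 : n / (4 * ν) ≤ m₀) (h2 : m₀ ≤ m)
    (h3 : m ≤ 4 * n * ν ^ 2) (h4 : m - m₀ ≤ 2 * n / ν ^ 50) (h5 : n ≤ |H|) (h6 : |H| ≤ ν ^ 4 * n) :
    0 < H / m * (H / m₀) ∧ (ν ^ 3)⁻¹ ≤ |H / m| ∧ |H / m - H / m₀| ≤ 32 / ν ^ 44 := by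
  have hν0 : 0 < ν := by linarith
  have h0 : 0 < n / (4 * ν) := by positivity
  have hm₀ : 0 < m₀ := h0.trans_le h1
  have hm : 0 < m := hm₀.trans_le h2
  have hH : H ≠ 0 := abs_pos.1 (hn.trans_le h5)
  refine ⟨?_, ?_, ?_⟩
  · rw [div_mul_div_comm]
    exact div_pos (mul_self_pos.2 hH) (mul_pos hm hm₀)
  · rw [abs_div, abs_of_pos hm]
    calc (ν ^ 3)⁻¹ = n / (ν * n * ν ^ 2) := by field_simp
      _ ≤ n / (4 * n * ν ^ 2) := by gcongr; linarith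
      _ ≤ _ := by gcongr
  · have : H / m - H / m₀ = H * (-((m - m₀) / (m * m₀))) := by
      field_simp
      ring
    rw [this, abs_mul, abs_neg, abs_of_nonneg (div_nonneg (sub_nonneg.2 h2) (mul_pos hm hm₀).le)]
    calc _ ≤ ν ^ 4 * n * (2 * n / ν ^ 50 / (n / (4 * ν) * (n / (4 * ν)))) := by
          have := sub_nonneg.2 h2
          gcongr
          exact h1.trans h2
      _ = _ := by
          field_simp
          ring

theorem lg (l l₀ : ℤ) (n ν T : ℝ) (hν : 128 ≤ ν) (hT : ν ^ 100 ≤ T) (hn : T ^ 4 ≤ n)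
    (h1 : n / (4 * ν ^ 9) ≤ |(l₀ : ℝ)|) (h2 : |(l : ℝ) - l₀| ≤ 2 * n / ν ^ 50) :
    T * ν ^ 40 ≤ (Nat.sqrt l₀.natAbs : ℕ) ∧
      |Real.log (|(l : ℝ)| / ((Nat.sqrt l₀.natAbs : ℕ) : ℝ) ^ 2)| ≤ (ν ^ 40)⁻¹ := by
  have hν0 : 0 < ν := by linarith
  have hν1 : 1 ≤ ν := by linarith
  have hT1 : 128 ≤ T := hν.trans ((le_self_pow₀ hν1 (by norm_num)).trans hT)
  have hn0 : 0 < n := lt_of_lt_of_le (by positivity) hn
  have e0 : ((l₀.natAbs : ℕ) : ℝ) = |(l₀ : ℝ)| := by simp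
  have a1 : ((Nat.sqrt l₀.natAbs : ℕ) : ℝ) ^ 2 ≤ |(l₀ : ℝ)| := by
    rw [← e0]
    exact_mod_cast Nat.sqrt_le' _
  have a2 : |(l₀ : ℝ)| ≤ ((Nat.sqrt l₀.natAbs : ℕ) : ℝ) ^ 2 + 2 * (Nat.sqrt l₀.natAbs : ℕ) := by
    rw [← e0]
    have := Nat.sqrt_le_add l₀.natAbs
    have h : ((l₀.natAbs : ℕ) : ℝ) ≤ ((Nat.sqrt l₀.natAbs * Nat.sqrt l₀.natAbs + Nat.sqrt l₀.natAbs
      + Nat.sqrt l₀.natAbs : ℕ) : ℝ) := Nat.cast_le.2 this
    push_cast at h ⊢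
    linarith
  have a3 : ((Nat.sqrt l₀.natAbs : ℕ) : ℝ) ≤ ((Nat.sqrt l₀.natAbs : ℕ) : ℝ) ^ 2 := by
    exact_mod_cast Nat.le_self_pow two_ne_zero _
  have a0 : (0 : ℝ) ≤ (Nat.sqrt l₀.natAbs : ℕ) := Nat.cast_nonneg _
  generalize ((Nat.sqrt l₀.natAbs : ℕ) : ℝ) = U at a0 a1 a2 a3 ⊢
  have b1 : n ≤ 12 * ν ^ 9 * U ^ 2 := by
    rw [div_le_iff₀ (by positivity)] at h1
    have : |(l₀ : ℝ)| * (4 * ν ^ 9) ≤ 3 * U ^ 2 * (4 * ν ^ 9) := by
      gcongr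
      linarith
    linarith
  have b2 : T * ν ^ 40 ≤ U := by
    refine (pow_le_pow_iff_left₀ (by positivity) a0 two_ne_zero).1 ?_
    refine le_of_mul_le_mul_left (le_trans ?_ (hn.trans b1)) (by positivity)
    calc 12 * ν ^ 9 * (T * ν ^ 40) ^ 2 = T ^ 2 * 12 * ν ^ 89 := by ring
      _ ≤ T ^ 2 * T * ν ^ 100 := by gcongr; linarith; norm_num
      _ ≤ T ^ 2 * T * T := by gcongr
      _ = _ := by ring
  refine ⟨b2, ?_⟩
  have hw : 1 ≤ ν ^ 40 := one_le_pow₀ hν1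
  have hU : 0 < U := lt_of_lt_of_le (by positivity) b2
  have c1 : 2 * n / ν ^ 50 ≤ U ^ 2 * (ν ^ 40)⁻¹ / 4 := by
    calc _ ≤ 2 * (12 * ν ^ 9 * U ^ 2) / ν ^ 50 := by gcongr
      _ = U ^ 2 * (ν ^ 40)⁻¹ * (24 / ν) := by field_simp; ring
      _ ≤ U ^ 2 * (ν ^ 40)⁻¹ * (24 / 128) := by gcongr
      _ ≤ _ := by
        have : 0 ≤ U ^ 2 * (ν ^ 40)⁻¹ := by positivity
        linarith
  have c2 : 2 * U ≤ U ^ 2 * (ν ^ 40)⁻¹ / 4 := by
    calc 2 * U = U * (8 * ν ^ 40) * (ν ^ 40)⁻¹ / 4 := by field_simp; ring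
      _ ≤ U * U * (ν ^ 40)⁻¹ / 4 := by
        gcongr
        refine le_trans ?_ b2
        gcongr
        linarith
      _ = _ := by ring
  have hε : (ν ^ 40)⁻¹ ≤ 1 := inv_le_one_of_one_le₀ hw
  have hε0 : 0 < (ν ^ 40)⁻¹ := by positivity
  generalize (ν ^ 40)⁻¹ = ε at c1 c2 hε hε0 ⊢
  have d1 := abs_le.1 ((abs_abs_sub_abs_le_abs_sub (l : ℝ) l₀).trans h2)
  have d2 : |(l : ℝ)| / U ^ 2 ≤ 1 + ε / 2 := by
    rw [div_le_iff₀ (by positivity)]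
    linarith [d1.2]
  have d3 : 1 - ε / 2 ≤ |(l : ℝ)| / U ^ 2 := by
    rw [le_div_iff₀ (by positivity)]
    linarith [d1.1]
  generalize |(l : ℝ)| / U ^ 2 = x at d2 d3 ⊢
  have hx : 0 < x := by linarith
  refine abs_le.2 ⟨?_, by linarith [Real.log_le_sub_one_of_pos hx]⟩
  refine le_trans ?_ (Real.one_sub_inv_le_log_of_pos hx)
  have : x⁻¹ ≤ 1 + ε := by
    rw [inv_le_iff_one_le_mul₀ hx]
    nlinarith
  linarith

theorem cs (y₀ : ℕ) (Y η : ℝ) (J : Finset ℕ) (G : ℤ → ℂ) (hY : 1 ≤ Y) (hη : 0 < η)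
    (hJ : ∀ y ∈ J, y₀ ≤ y ∧ (y : ℝ) ≤ y₀ + Y)
    (hs : Summable fun y : ℤ => gw y₀ Y y * ‖G y‖ ^ 2)
    (hb : ∑' y : ℤ, gw y₀ Y y * ‖G y‖ ^ 2 ≤ η ^ 2 * Y) :
    ∑ y ∈ J, ‖G y‖ ≤ 42 * η * Y := by
  have h1 : ∑ y ∈ J, gw y₀ Y (y : ℤ) * ‖G y‖ ^ 2 ≤ η ^ 2 * Y := by
    refine le_trans ?_ hb
    refine le_trans (le_of_eq ?_) (hs.sum_le_tsum (J.map Nat.castEmbedding)
      fun y _ => mul_nonneg (Real.exp_pos _).le (sq_nonneg _))
    rw [sum_map]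
    rfl
  have h2 : ∀ y ∈ J, 1 ≤ 81 * gw y₀ Y (y : ℤ) := fun y hy => by
    obtain ⟨a1, a2⟩ := hJ y hy
    have a3 : (y₀ : ℝ) ≤ y := Nat.cast_le.2 a1
    have a4 : (((y : ℝ) - y₀) / Y) ^ 2 ≤ 1 :=
      pow_le_one₀ (div_nonneg (by linarith) (by linarith)) (div_le_one_of_le₀ (by linarith) (by linarith))
    have a5 : Real.exp (-4) ≤ gw y₀ Y (y : ℤ) := by
      refine Real.exp_le_exp.2 ?_
      push_cast
      nlinarith [Real.pi_le_four, Real.pi_pos, sq_nonneg (((y : ℝ) - y₀) / Y)]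
    have a6 : Real.exp 4 ≤ 81 := by
      have : Real.exp 4 = Real.exp 1 ^ 4 := by rw [← Real.exp_nat_mul]; norm_num
      rw [this]
      calc _ ≤ (3 : ℝ) ^ 4 := by gcongr; linarith [Real.exp_one_lt_d9]
        _ = _ := by norm_num
    have a7 : Real.exp 4 * Real.exp (-4) = 1 := by rw [← Real.exp_add]; simp
    nlinarith [Real.exp_pos (-4)]
  refine le_of_mul_le_mul_left ?_ (mul_pos two_pos hη)
  calc 2 * η * ∑ y ∈ J, ‖G y‖ ≤ ∑ y ∈ J, (η ^ 2 + 81 * (gw y₀ Y (y : ℤ) * ‖G y‖ ^ 2)) := by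
        rw [mul_sum]
        refine sum_le_sum fun y hy => ?_
        nlinarith [sq_nonneg (η - ‖G y‖), mul_le_mul_of_nonneg_right (h2 y hy) (sq_nonneg ‖G y‖)]
    _ ≤ 2 * Y * η ^ 2 + 81 * (η ^ 2 * Y) := by
        rw [sum_add_distrib, sum_const, nsmul_eq_mul, ← mul_sum]
        have := cardJ y₀ Y J hY hJ
        gcongr
    _ ≤ _ := by
        have : 0 ≤ η ^ 2 * Y := by positivity
        nlinarith

end Ds1A

end Pool.Agent.MP_20b2fd_nt.H38
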