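import Pool.Agent.MP_20b2fd_nt.H38.SpecA

set_option autoImplicit false

namespace Pool.Agent.MP_20b2fd_nt.H38

open UpperHalfPlane hiding I
open Filter Topology Asymptotics Function
open scoped ModularForm MatrixGroups

namespace FdA

lemma order_iff {F : ℍ → ℂ} (ha : AnalyticAt ℂ (cuspFunction 1 F) 0)
    (hp : Periodic (F ∘ ofComplex) (1 : ℝ)) (n : ℕ) :
    (∀ i < n, (qExpansion 1 F).coeff i = 0) ↔
      F =O[atImInfty] fun τ : ℍ => Periodic.qParam 1 τ ^ n := by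
  have ht := qParam_tendsto_atImInfty one_pos
  have key : ∀ (m : ℕ) (g : ℂ → ℂ), (∀ᶠ z in 𝓝 (0 : ℂ), cuspFunction 1 F z = (z - 0) ^ m • g z) →
      ∀ᶠ τ : ℍ in atImInfty, F τ = Periodic.qParam 1 τ ^ m * g (Periodic.qParam 1 τ) :=
    fun m g h => (ht.eventually h).mono fun τ e => by
      rw [eq_cuspFunction τ one_ne_zero hp] at e
      simpa using e
  have e1 : (∀ i < n, (qExpansion 1 F).coeff i = 0) ↔
      (n : ℕ∞) ≤ analyticOrderAt (cuspFunction 1 F) 0 := by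
    rw [natCast_le_analyticOrderAt_iff_iteratedDeriv_eq_zero ha]
    simp [qExpansion_coeff, Nat.factorial_ne_zero]
  rw [e1]
  constructor
  · intro h
    obtain ⟨g, hg, h⟩ := (natCast_le_analyticOrderAt ha).1 h
    have := (isBigO_refl (fun τ : ℍ => Periodic.qParam 1 τ ^ n) atImInfty).mul
      ((hg.continuousAt.tendsto.comp ht).isBigO_one ℂ)
    exact (this.congr' ((key n g h).mono fun τ e => e.symm) (by simp))
  · intro h
    by_contra hh
    obtain ⟨m, hm⟩ := ENat.ne_top_iff_exists.1 (ne_top_of_lt (not_le.1 hh))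
    obtain ⟨g, hg, g0, h1⟩ := ha.analyticOrderAt_eq_natCast.1 hm.symm
    have hlt : m < n := by
      rw [← hm] at hh
      exact_mod_cast not_le.1 hh
    have h2 : (fun τ : ℍ => g (Periodic.qParam 1 τ)) =O[atImInfty]
        fun τ : ℍ => Periodic.qParam 1 τ ^ (n - m) := by
      have := (isBigO_refl (fun τ : ℍ => (Periodic.qParam 1 τ ^ m)⁻¹) atImInfty).mul h
      refine this.congr' ((key m g h1).mono fun τ e => ?_) (Eventually.of_forall fun τ => ?_)
      · have : Periodic.qParam 1 (τ : ℂ) ≠ 0 := Periodic.qParam_ne_zero _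
        simp only [e]
        field_simp
      · have : Periodic.qParam 1 (τ : ℂ) ≠ 0 := Periodic.qParam_ne_zero _
        simp only [pow_sub₀ _ this hlt.le]
        ring
    have h3 := ht.pow (n - m)
    rw [zero_pow (by omega)] at h3
    exact g0 (tendsto_nhds_unique (hg.continuousAt.tendsto.comp ht) (h2.trans_tendsto h3))

lemma norm_bigO {𝒢 : Subgroup (GL (Fin 2) ℝ)} [𝒢.IsFiniteRelIndex 𝒮ℒ] {k : ℤ} (f : CuspForm 𝒢 k) :
    (ModularForm.norm 𝒮ℒ f : ℍ → ℂ) =O[atImInfty] (f : ℍ → ℂ) := by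
  classical
  let := Fintype.ofFinite (𝒮ℒ ⧸ 𝒢.subgroupOf 𝒮ℒ)
  have hc : IsCusp OnePoint.infty 𝒮ℒ := Fact.out
  have h1 : (fun τ => ∏ q ∈ Finset.univ.erase (⟦1⟧ : 𝒮ℒ ⧸ 𝒢.subgroupOf 𝒮ℒ),
      SlashInvariantForm.quotientFunc f q τ) =O[atImInfty] fun _ => (1 : ℂ) := by
    rw [show (fun _ : ℍ => (1 : ℂ)) = fun _ => ∏ _q ∈ Finset.univ.erase
      (⟦1⟧ : 𝒮ℒ ⧸ 𝒢.subgroupOf 𝒮ℒ), (1 : ℂ) by simp]
    refine .finsetProd (Quotient.forall.mpr fun ⟨r, hr⟩ _ => ?_)
    have := OnePoint.isBoundedAt_infty_iff.mp ((ModularForm.translate f r⁻¹).bdd_at_cusps'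
      (c := OnePoint.infty) (by simpa using hc.of_isFiniteRelIndex_conj hr))
    exact (isBigO_one_iff _).2 ((isBigO_one_iff _).1 this)
  refine ((isBigO_refl (f : ℍ → ℂ) atImInfty).mul h1).congr (fun τ => ?_) (by simp)
  rw [ModularForm.coe_norm, Finset.prod_apply, ← Finset.mul_prod_erase Finset.univ
    (fun c => SlashInvariantForm.quotientFunc f c τ) (Finset.mem_univ (⟦1⟧ : 𝒮ℒ ⧸ 𝒢.subgroupOf 𝒮ℒ))]
  exact congrArg₂ (· * ·) (by simp) (by congr)

end FdA

theorem fdOf : FdOf := by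
  intro hQ N _
  let K := Nat.card (𝒮ℒ ⧸ (CongruenceSubgroup.Gamma0 N : Subgroup (GL (Fin 2) ℝ)).subgroupOf 𝒮ℒ)
  let φ : CF N →ₗ[ℂ] (Fin (K + 1) → ℂ) :=
    { toFun := fun f i => co f i
      map_add' := fun f g => funext fun i => ((hQ N f).2.2.2.2.2.2 g 0 i).1
      map_smul' := fun c f => funext fun i => ((hQ N f).2.2.2.2.2.2 f c i).2 }
  refine FiniteDimensional.of_injective φ ((injective_iff_map_eq_zero φ).2 fun f hf => ?_)
  have hp : (1 : ℝ) ∈ (CongruenceSubgroup.Gamma0 N : Subgroup (GL (Fin 2) ℝ)).strictPeriods := by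
    simp [CongruenceSubgroup.strictPeriods_Gamma0]
  have h1 := (FdA.order_iff (ModularFormClass.analyticAt_cuspFunction_zero f one_pos hp)
    (SlashInvariantFormClass.periodic_comp_ofComplex f hp) (K + 1)).1
    fun i hi => congrFun hf ⟨i, hi⟩
  have h2 := (FdA.order_iff (ModularFormClass.analyticAt_cuspFunction_zero
    (ModularForm.norm 𝒮ℒ f) one_pos one_mem_strictPeriods_SL)
    (SlashInvariantFormClass.periodic_comp_ofComplex _ one_mem_strictPeriods_SL) (K + 1)).2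
    ((FdA.norm_bigO f).trans h1)
  have h3 : ModularForm.norm 𝒮ℒ f = 0 := ModularForm.sturm_bound_levelOne
    (lt_of_lt_of_le (by
      have : (2 * (K : ℤ)).toNat / 12 < K + 1 := by omega
      exact_mod_cast this) (PowerSeries.nat_le_order _ (K + 1) h2))
  exact DFunLike.coe_injective ((ModularForm.norm_eq_zero_iff _ f).1 h3)

end Pool.Agent.MP_20b2fd_nt.H38
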