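import Pool.Agent.MP_20b2fd_nt.H38.SpecC

/-! Cauchy estimates for the residue in two variables. -/

set_option autoImplicit false

namespace Pool.Agent.MP_20b2fd_nt.H38

open Complex Filter Topology

namespace Fe2A

theorem cauchy {f : ℂ → ℂ} {c : ℂ} {R t M : ℝ} (ht : 0 < t) (hR : t < R)
    (hf : DifferentiableOn ℂ f (Metric.ball c R)) (hM : ∀ s, ‖s - c‖ ≤ t → ‖f s‖ ≤ M) :
    ‖deriv f c‖ ≤ M / t :=
  Complex.norm_deriv_le_of_forall_mem_sphere_norm_le ht
    (hf.diffContOnCl_ball (Metric.closedBall_subset_ball hR))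
    fun z hz => hM z (mem_sphere_iff_norm.1 hz).le

theorem le_zero {x K t₀ : ℝ} (k : ℕ) (h0 : 0 < t₀)
    (h : ∀ t, 0 < t → t ≤ t₀ → x ≤ K * t ^ (k + 1)) : x ≤ 0 := by
  have h1 : Tendsto (fun t : ℝ => K * t ^ (k + 1)) (𝓝[>] 0) (𝓝 0) := by
    have : Continuous fun t : ℝ => K * t ^ (k + 1) := by fun_prop
    have h2 := this.tendsto 0
    rw [zero_pow (Nat.succ_ne_zero k), mul_zero] at h2
    exact h2.mono_left nhdsWithin_le_nhds
  refine ge_of_tendsto h1 ?_
  filter_upwards [Ioc_mem_nhdsGT h0] with t ht using h t ht.1 ht.2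

theorem diff {A : ℂ → ℂ} {G : ℂ → ℂ → ℂ} (hA : DifferentiableAt ℂ A 1)
    (hG : ContDiff ℂ 2 (fun u : ℂ × ℂ => G u.1 u.2)) :
    Differentiable ℂ (fun w => deriv (fun s => A s * G s w) 1) := by
  have d1 : Differentiable ℂ (fun u : ℂ × ℂ => G u.1 u.2) := hG.differentiable (by norm_num)
  have d2 : Differentiable ℂ (fderiv ℂ fun u : ℂ × ℂ => G u.1 u.2) :=
    (hG.fderiv_right (m := 1) (by norm_num)).differentiable (by norm_num)
  have e : (fun w => deriv (fun s => A s * G s w) 1) = fun w => deriv A 1 * G 1 w +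
      A 1 * fderiv ℂ (fun u : ℂ × ℂ => G u.1 u.2) (1, w) (1, 0) := by
    funext w
    have h1 : HasDerivAt (fun s : ℂ => (s, w)) ((1 : ℂ), (0 : ℂ)) 1 :=
      (hasDerivAt_id (1 : ℂ)).prodMk (hasDerivAt_const (1 : ℂ) w)
    have h2 := (d1 (1, w)).hasFDerivAt.comp_hasDerivAt (1 : ℂ) h1
    exact (hA.hasDerivAt.mul h2).deriv
  rw [e]
  have p : Differentiable ℂ fun w : ℂ => ((1 : ℂ), w) := by fun_prop
  exact ((d1.comp p).const_mul _).add
    (((d2.comp p).clm_apply (differentiable_const _)).const_mul _)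

theorem bound {A : ℂ → ℂ} {G : ℂ → ℂ → ℂ} {R t M : ℝ} (ht : 0 < t) (hR : t < R)
    (hA : DifferentiableOn ℂ A (Metric.ball 1 R))
    (hG : ContDiff ℂ 2 (fun u : ℂ × ℂ => G u.1 u.2))
    (hM : ∀ s w : ℂ, ‖s - 1‖ ≤ t → ‖w‖ ≤ t → ‖A s * G s w‖ ≤ M) :
    ‖deriv (fun s => A s * G s 0) 1‖ ≤ M / t ∧
      ‖deriv (fun w => deriv (fun s => A s * G s w) 1) 0‖ ≤ M / t ^ 2 := by
  have d1 : Differentiable ℂ (fun u : ℂ × ℂ => G u.1 u.2) := hG.differentiable (by norm_num)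
  have h1 : ∀ w : ℂ, ‖w‖ ≤ t → ‖deriv (fun s => A s * G s w) 1‖ ≤ M / t := fun w hw => by
    have p : Differentiable ℂ fun s : ℂ => (s, w) := by fun_prop
    exact cauchy ht hR (hA.mul (d1.comp p).differentiableOn) fun s hs => hM s w hs hw
  refine ⟨h1 0 (by simpa using ht.le), ?_⟩
  rw [sq, ← div_div]
  exact cauchy ht hR
    (diff (hA.differentiableAt (Metric.ball_mem_nhds _ (ht.trans hR))) hG).differentiableOn
    fun w hw => h1 w (by simpa using hw)

end Fe2A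

open Fe2A in
theorem fe2 : Fe2S := by
  intro A G r hr hA hG
  refine ⟨diff (hA.differentiableAt (Metric.ball_mem_nhds _ (by linarith))) hG,
    fun M hM => bound hr (by linarith) hA hG hM, fun ⟨C, hC⟩ => ?_⟩
  obtain ⟨ε, hε, hC⟩ := Metric.eventually_nhds_iff.1 hC
  obtain ⟨B, hB⟩ := (isCompact_closedBall (1 : ℂ) r).exists_bound_of_continuousOn
    (hA.continuousOn.mono (Metric.closedBall_subset_ball (by linarith)))
  have key : ∀ t, 0 < t → t ≤ min r (ε / 2) → ∀ s w : ℂ, ‖s - 1‖ ≤ t → ‖w‖ ≤ t →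
      ‖A s * G s w‖ ≤ B * (|C| * (t + t) ^ 3) := fun t ht h s w hs hw => by
    obtain ⟨h1, h2⟩ := le_min_iff.1 h
    have a1 := hB s (mem_closedBall_iff_norm.2 (hs.trans h1))
    have a2 : ‖G s w‖ ≤ C * (‖s - 1‖ + ‖w‖) ^ 3 := hC (y := (s, w)) (by
      rw [Prod.dist_eq, max_lt_iff, dist_eq_norm, dist_zero_right]
      exact ⟨by linarith, by linarith⟩)
    have a3 : C * (‖s - 1‖ + ‖w‖) ^ 3 ≤ |C| * (t + t) ^ 3 :=
      mul_le_mul (le_abs_self C) (pow_le_pow_left₀ (by positivity) (add_le_add hs hw) 3)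
        (by positivity) (abs_nonneg C)
    rw [norm_mul]
    exact mul_le_mul a1 (a2.trans a3) (norm_nonneg _) ((norm_nonneg _).trans a1)
  have t0 : 0 < min r (ε / 2) := lt_min hr (by linarith)
  have lt : ∀ t, t ≤ min r (ε / 2) → t < 2 * r := fun t h => by
    linarith [(le_min_iff.1 h).1]
  constructor
  · refine norm_le_zero_iff.1 (le_zero (K := 8 * B * |C|) 1 t0 fun t ht h => ?_)
    refine (bound ht (lt t h) hA hG (key t ht h)).1.trans_eq ?_
    field_simp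
    ring
  · refine norm_le_zero_iff.1 (le_zero (K := 8 * B * |C|) 0 t0 fun t ht h => ?_)
    refine (bound ht (lt t h) hA hG (key t ht h)).2.trans_eq ?_
    field_simp
    ring

end Pool.Agent.MP_20b2fd_nt.H38
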