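import Pool.Agent.MP_20b2fd_nt.H38.SpecC

/-! The integral on the line: domination and inequalities between real numbers. -/

set_option autoImplicit false

namespace Pool.Agent.MP_20b2fd_nt.H38

open MeasureTheory Finset
open scoped Real

namespace FlnA

theorem swap {g : ℝ → ℝ} (hg : Continuous g) (h0 : ∀ t, 0 ≤ g t) {T T' Λ u : ℝ} (hT : 0 < T)
    (hΛ : 0 < Λ) (hu : |u| ≤ 1) (hT' : 2 * T + 1 ≤ T') :
    Continuous (fun τ => ∫ ξ in (-(Λ * T))..(Λ * T), g (τ + u + ξ / Λ) / (1 + ξ ^ 2)) ∧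
    ∫ τ in (-T)..T, ∫ ξ in (-(Λ * T))..(Λ * T), g (τ + u + ξ / Λ) / (1 + ξ ^ 2) ≤
      π * ∫ t in (-T')..T', g t := by
  have hc : Continuous (Function.uncurry fun τ ξ : ℝ => g (τ + u + ξ / Λ) / (1 + ξ ^ 2)) :=
    (hg.comp (by fun_prop)).div (by fun_prop) fun p => by positivity
  refine ⟨intervalIntegral.continuous_parametric_intervalIntegral_of_continuous' hc _ _, ?_⟩
  have hΛT : 0 < Λ * T := by positivity
  have hM : 0 ≤ ∫ t in (-T')..T', g t :=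
    intervalIntegral.integral_nonneg (by linarith) fun t _ => h0 t
  rw [intervalIntegral_intervalIntegral_swap
    ((hc.continuousOn.integrableOn_compact (isCompact_uIcc.prod isCompact_uIcc)).mono_set
      (Set.prod_mono Set.uIoc_subset_uIcc Set.uIoc_subset_uIcc))]
  have hc' : Continuous (Function.uncurry fun ξ τ : ℝ => g (τ + u + ξ / Λ) / (1 + ξ ^ 2)) :=
    hc.comp continuous_swap
  calc _ ≤ ∫ ξ in (-(Λ * T))..(Λ * T), (1 + ξ ^ 2)⁻¹ * ∫ t in (-T')..T', g t := by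
        refine intervalIntegral.integral_mono_on (by linarith)
          ((intervalIntegral.continuous_parametric_intervalIntegral_of_continuous' hc'
            _ _).intervalIntegrable _ _)
          (integrable_inv_one_add_sq.mul_const _).intervalIntegrable fun ξ hξ => ?_
        rw [intervalIntegral.integral_div, div_eq_inv_mul]
        refine mul_le_mul_of_nonneg_left ?_ (by positivity)
        simp only [add_assoc]
        rw [intervalIntegral.integral_comp_add_right]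
        have h1 : ξ / Λ ≤ T := by rw [div_le_iff₀ hΛ]; linarith [hξ.2]
        have h2 : -T ≤ ξ / Λ := by rw [le_div_iff₀ hΛ]; linarith [hξ.1]
        obtain ⟨h3, h4⟩ := abs_le.1 hu
        exact intervalIntegral.integral_mono_interval (by linarith) (by linarith) (by linarith)
          (Filter.Eventually.of_forall h0) (hg.intervalIntegrable _ _)
    _ ≤ _ := by
        rw [intervalIntegral.integral_mul_const, ← integral_univ_inv_one_add_sq,
          intervalIntegral.integral_of_le (by linarith)]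
        exact mul_le_mul_of_nonneg_right (setIntegral_le_integral integrable_inv_one_add_sq
          (Filter.Eventually.of_forall fun ξ => by positivity)) hM

theorem dom {F : ℝ → ℂ} {J : ℝ → ℝ} (hJ : Continuous J) {T K₁ K₂ : ℝ} (hT : 0 < T) (h1 : 0 ≤ K₁)
    (h2 : 0 ≤ K₂) (a1 : ∀ τ, |τ| ≤ T → ‖F τ‖ ≤ J τ + K₁) (a2 : ∀ τ, T < |τ| → ‖F τ‖ ≤ K₂ / τ ^ 2) :
    ‖∫ τ, F τ‖ ≤ (∫ τ in (-T)..T, J τ) + 2 * π * (T * K₁ + K₂ / T) := by
  have i1 : Integrable ((Set.Icc (-T) T).indicator J) :=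
    (integrable_indicator_iff measurableSet_Icc).2 hJ.integrableOn_Icc
  have i2 : Integrable fun τ : ℝ => (2 * K₁ + 2 * K₂ / T ^ 2) * (1 + (τ / T) ^ 2)⁻¹ :=
    (integrable_inv_one_add_sq.comp_div hT.ne').const_mul _
  refine (norm_integral_le_of_norm_le (i1.add i2) (Filter.Eventually.of_forall fun τ => ?_)).trans
    (le_of_eq ?_)
  · have e : (1 + (τ / T) ^ 2)⁻¹ = T ^ 2 / (T ^ 2 + τ ^ 2) := by field_simp
    rw [Pi.add_apply, e]
    have p : 0 < T ^ 2 + τ ^ 2 := by positivity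
    rcases le_or_gt |τ| T with h | h
    · rw [Set.indicator_of_mem (Set.mem_Icc.2 (abs_le.1 h))]
      refine (a1 τ h).trans (add_le_add le_rfl ?_)
      have : τ ^ 2 ≤ T ^ 2 := sq_le_sq' (abs_le.1 h).1 (abs_le.1 h).2
      calc K₁ ≤ 2 * K₁ * (T ^ 2 / (T ^ 2 + τ ^ 2)) := by
            rw [← mul_div_assoc, le_div_iff₀ p]
            nlinarith
        _ ≤ _ := by gcongr; exact le_add_of_nonneg_right (by positivity)
    · rw [Set.indicator_of_notMem fun h' => absurd (abs_le.2 (Set.mem_Icc.1 h')) (not_le.2 h),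
        zero_add]
      refine (a2 τ h).trans ?_
      have : T ^ 2 ≤ τ ^ 2 := by rw [← sq_abs τ]; gcongr
      have p' : 0 < τ ^ 2 := lt_of_lt_of_le (by positivity) this
      calc K₂ / τ ^ 2 ≤ 2 * K₂ / (T ^ 2 + τ ^ 2) := by
            rw [div_le_div_iff₀ p' p]
            nlinarith
        _ = 2 * K₂ / T ^ 2 * (T ^ 2 / (T ^ 2 + τ ^ 2)) := by field_simp
        _ ≤ _ := by gcongr; exact le_add_of_nonneg_left (by positivity)
  · simp only [Pi.add_apply]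
    rw [integral_add i1 i2, integral_indicator measurableSet_Icc, integral_Icc_eq_integral_Ioc,
      ← intervalIntegral.integral_of_le (by linarith), integral_const_mul,
      Measure.integral_comp_div (fun x : ℝ => (1 + x ^ 2)⁻¹), integral_univ_inv_one_add_sq,
      abs_of_pos hT, smul_eq_mul]
    field_simp

/-- small ordinates -/
theorem near {m l X n φ q l₁ e D K J r CZ b : ℝ} (hφ : 0 < φ) (hX : 0 ≤ X) (hn : 0 ≤ n) (hn1 : n ≤ 1)
    (hD : 0 ≤ D) (hK : 0 ≤ K) (hJ : 0 ≤ J) (hr : 0 ≤ r) (hl : 0 ≤ l₁) (he : 0 ≤ e)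
    (h1 : m * l ^ 2 ≤ D * q * l₁ ^ 2) (h2 : X * (q / φ) ≤ K * e ^ 2 * n * J + r)
    (h3 : l₁ * e ≤ CZ) (h4 : l₁ ≤ b) :
    1 / φ * (m * l ^ 2 * (n * X)) ≤ D * n ^ 2 * K * CZ ^ 2 * J + D * b ^ 2 * r := by
  calc _ ≤ 1 / φ * (D * q * l₁ ^ 2 * (n * X)) := by gcongr
    _ = D * n * l₁ ^ 2 * (X * (q / φ)) := by ring
    _ ≤ D * n * l₁ ^ 2 * (K * e ^ 2 * n * J + r) := by gcongr
    _ = D * n ^ 2 * K * (l₁ * e) ^ 2 * J + D * l₁ ^ 2 * r * n := by ring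
    _ ≤ D * n ^ 2 * K * CZ ^ 2 * J + D * b ^ 2 * r * 1 := by gcongr
    _ = _ := by ring

/-- large ordinates -/
theorem far {m l X n φ A B Y t τ : ℝ} (hφ : 1 ≤ φ) (hm : 0 ≤ m) (hl : 0 ≤ l) (hX : 0 ≤ X)
    (hn : 0 ≤ n) (hn1 : n ≤ 1) (hτ : 1 ≤ |τ|) (ht : |τ| ≤ t) (hA : 0 ≤ A) (h1 : m ≤ A / t ^ 4)
    (h2 : l ≤ B * (1 + t)) (h3 : X ≤ Y) :
    1 / φ * (m * l ^ 2 * (n * X)) ≤ 4 * A * B ^ 2 * Y / τ ^ 2 := by
  have ht1 : 1 ≤ t := hτ.trans ht
  have hY : 0 ≤ Y := hX.trans h3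
  calc _ ≤ 1 / 1 * (A / t ^ 4 * (B * (1 + t)) ^ 2 * (1 * Y)) := by gcongr
    _ = A * B ^ 2 * Y * ((1 + t) ^ 2 / t ^ 4) := by ring
    _ ≤ A * B ^ 2 * Y * ((2 * t) ^ 2 / t ^ 4) := by gcongr; linarith
    _ = 4 * A * B ^ 2 * Y / t ^ 2 := by field_simp; ring
    _ ≤ _ := by rw [← sq_abs τ]; gcongr

/-- the error terms -/
theorem err {y C₁ C₂ B R l E S : ℝ} (hy : 1000 ≤ y) (h1 : C₁ ≤ y) (h2 : C₂ ≤ y) (hB0 : 0 ≤ B)
    (hB : B ≤ y) (hR0 : 0 ≤ R) (hR : R ≤ y) (hl0 : 0 ≤ l) (hl : l ≤ y ^ 2) (hE : E ≤ y ^ 40)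
    (hS0 : 0 ≤ S) (hS : S ≤ y ^ 2) (hE0 : 0 ≤ E) :
    (C₁ * B * R ^ 3 * l ^ 6 + C₂ * E * R ^ 7 * S ^ 3 * y) / y ^ 1000 ≤ y⁻¹ := by
  have h0 : 0 < y := by linarith
  have h3 : 1 ≤ y := by linarith
  calc _ ≤ (y * y * y ^ 3 * (y ^ 2) ^ 6 + y * y ^ 40 * y ^ 7 * (y ^ 2) ^ 3 * y) / y ^ 1000 := by
        gcongr
    _ = (y ^ 17 + y ^ 55) / y ^ 1000 := by ring
    _ ≤ (y ^ 998 + y ^ 998) / y ^ 1000 := by gcongr <;> norm_num
    _ = 2 / y * y⁻¹ := by field_simp; ring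
    _ ≤ 1 * y⁻¹ := by gcongr; rw [div_le_one h0]; linarith
    _ = _ := one_mul _

theorem card_pcs (z : ℝ) (hz : 0 ≤ z) : ((pcs z).card : ℝ) ≤ z ^ 2 := by
  classical
  have h1 : (pcs z).card ≤ ⌊z⌋₊ * ⌊z⌋₊ := by
    unfold pcs
    rw [card_sigma]
    refine (sum_le_card_nsmul _ _ ⌊z⌋₊ fun i hi => ?_).trans (by simp)
    refine (card_le_univ _).trans ?_
    rw [← Nat.card_eq_fintype_card, DirichletCharacter.card_eq_totient_of_hasEnoughRootsOfUnity]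
    exact (Nat.totient_le _).trans (mem_range.1 hi)
  have h2 := Nat.floor_le hz
  calc ((pcs z).card : ℝ) ≤ (⌊z⌋₊ : ℝ) * ⌊z⌋₊ := by exact_mod_cast h1
    _ ≤ z * z := by gcongr
    _ = z ^ 2 := by ring

theorem mem_pcs {z : ℝ} (hz : 0 ≤ z) {x : CC} (h : x ∈ pcs z) :
    ((x.1 + 1 : ℕ) : ℝ) ≤ z ∧ x.2.IsPrimitive := by
  classical
  obtain ⟨h1, h2⟩ := mem_sigma.1 h
  exact ⟨(Nat.le_floor_iff hz).1 (mem_range.1 h1), (mem_filter.1 h2).2⟩

end FlnA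

end Pool.Agent.MP_20b2fd_nt.H38
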