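import Pool.Agent.MP_20b2fd_nt.H38.SpecX

/-! The Hecke product is associative. -/

set_option autoImplicit false

namespace Pool.Agent.MP_20b2fd_nt.H38

open Finset

namespace HaA

theorem Bh_one (l : ℕ → ℝ) (n : ℕ) : Bh l 1 n = l n := by simp [Bh]

theorem Bh_congr {l l' : ℕ → ℝ} (h : ∀ n, n ≠ 0 → l n = l' n) {a n : ℕ} (ha : 1 ≤ a) (hn : 1 ≤ n) :
    Bh l a n = Bh l' a n := by
  refine sum_congr rfl fun d hd => ?_
  have h1 := Nat.dvd_of_mem_divisors hd
  have h2 : d ^ 2 ∣ a * n := by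
    rw [sq]
    exact mul_dvd_mul (h1.trans (Nat.gcd_dvd_left _ _)) (h1.trans (Nat.gcd_dvd_right _ _))
  rw [h _ (Nat.div_pos (Nat.le_of_dvd (by positivity) h2)
    (pow_pos (Nat.pos_of_mem_divisors hd) 2)).ne']

/-- the Hecke operator -/
noncomputable def Hl (a : ℕ) : Module.End ℝ (ℕ → ℝ) where
  toFun l n := if n = 0 then 0 else Bh l a n
  map_add' l l' := by
    funext n
    by_cases h : n = 0 <;> simp [h, Bh, mul_add, sum_add_distrib]
  map_smul' c l := by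
    funext n
    by_cases h : n = 0 <;> simp [h, Bh, mul_sum, mul_left_comm]

theorem Hl_pos (a : ℕ) (l : ℕ → ℝ) {n : ℕ} (h : n ≠ 0) : Hl a l n = Bh l a n := if_neg h

theorem Hl_zero (a : ℕ) (l : ℕ → ℝ) : Hl a l 0 = 0 := rfl

theorem rec0 (h : HbS) (l : ℕ → ℝ) {p m n : ℕ} (hp : p.Prime) (hm : 1 ≤ m) (hn : 1 ≤ n) :
    Bh l m (p * n) + (if p ∣ n then p * Bh l m (n / p) else 0) =
      Bh l (p * m) n + if p ∣ m then p * Bh l (m / p) n else 0 := by
  have e : ∀ a b, Bh (fun k => (l k : ℂ)) a b = (Bh l a b : ℝ) := fun a b => by simp [Bh]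
  have := h.1 (fun k => (l k : ℂ)) p m n hp hm hn
  simp only [e] at this
  split_ifs at this ⊢ <;> exact_mod_cast this

theorem rec1 (h : HbS) {p m : ℕ} (hp : p.Prime) (hm : 1 ≤ m) :
    Hl p * Hl m = Hl (p * m) + if p ∣ m then (p : ℝ) • Hl (m / p) else 0 := by
  refine LinearMap.ext fun l => funext fun n => ?_
  rcases Nat.eq_zero_or_pos n with rfl | hn
  · split_ifs <;> simp [Hl_zero]
  have e := rec0 h (Hl m l) hp le_rfl hn
  rw [Bh_one, Bh_one, mul_one, if_neg hp.not_dvd_one, add_zero,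
    Hl_pos _ _ (mul_ne_zero hp.ne_zero hn.ne')] at e
  have e' := rec0 h l hp hm hn
  rw [Module.End.mul_apply, Hl_pos _ _ hn.ne', ← e]
  have e2 : (if p ∣ n then (p : ℝ) * Hl m l (n / p) else 0) =
      if p ∣ n then p * Bh l m (n / p) else 0 := by
    split_ifs with d
    · rw [Hl_pos _ _ (Nat.div_pos (Nat.le_of_dvd hn d) hp.pos).ne']
    · rfl
  rw [e2, e']
  split_ifs <;> simp [Hl_pos _ _ hn.ne']

theorem Hl_Hl (a : ℕ) {b c : ℕ} (l : ℕ → ℝ) (hb : 1 ≤ b) (hc : 1 ≤ c) :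
    (Hl b * Hl a) l c = Bh (fun m => Bh l a m) b c := by
  rw [Module.End.mul_apply, Hl_pos _ _ (by omega)]
  exact Bh_congr (fun n hn => Hl_pos _ _ hn) hb hc

theorem comm_one {b : ℕ} (hb : 1 ≤ b) : Commute (Hl b) (Hl 1) := by
  refine LinearMap.ext fun l => funext fun n => ?_
  rcases Nat.eq_zero_or_pos n with rfl | hn
  · simp [Hl_zero]
  · rw [Hl_Hl _ _ hb hn, Hl_Hl _ _ le_rfl hn, Bh_one]
    simp only [Bh_one]

theorem comm (h : HbS) {b : ℕ} (hb : 1 ≤ b) (hp : ∀ p, p.Prime → Commute (Hl b) (Hl p)) (a : ℕ)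
    (ha : 1 ≤ a) : Commute (Hl b) (Hl a) := by
  induction a using Nat.strong_induction_on with
  | _ a ih =>
    rcases ha.eq_or_lt with rfl | h1
    · exact comm_one hb
    obtain ⟨p, pp, m, rfl⟩ := Nat.exists_prime_and_dvd h1.ne'
    have hm : 1 ≤ m := Nat.pos_of_mul_pos_left ha
    have lt : m < p * m := lt_mul_of_one_lt_left hm pp.one_lt
    rw [eq_sub_of_add_eq (rec1 h pp hm).symm]
    refine ((hp p pp).mul_right (ih m lt hm)).sub_right ?_
    split_ifs with d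
    · exact (ih _ ((Nat.div_le_self _ _).trans_lt lt)
        (Nat.div_pos (Nat.le_of_dvd hm d) pp.pos)).smul_right _
    · exact Commute.zero_right _

theorem comm_pp (h : HbS) {p q : ℕ} (hp : p.Prime) (hq : q.Prime) : Commute (Hl p) (Hl q) := by
  by_cases e : p = q
  · rw [e]
  · rw [Commute, SemiconjBy, rec1 h hp hq.pos, rec1 h hq hp.pos, mul_comm,
      if_neg (mt (Nat.prime_dvd_prime_iff_eq hp hq).1 e),
      if_neg (mt (Nat.prime_dvd_prime_iff_eq hq hp).1 (Ne.symm e))]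

end HaA

open HaA

theorem haOf : HaOf := fun h l a b c ha hb hc => by
  refine ⟨by rw [Bh, Bh, Nat.gcd_comm, mul_comm a], ?_⟩
  rw [← Hl_Hl a l hb hc, ← Hl_Hl b l ha hc,
    (comm h hb (fun p hp => (comm h hp.pos (fun q hq => comm_pp h hp hq) b hb).symm) a ha).eq]

end Pool.Agent.MP_20b2fd_nt.H38
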