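import Pool.Agent.MP_20b2fd_nt.H38.SpecA

/-! Row Kit: basic facts on matrices, slash operators and the invariant measure. -/

set_option autoImplicit false

namespace Pool.Agent.MP_20b2fd_nt.H38

open UpperHalfPlane hiding I
open MeasureTheory Complex Finset Filter Topology
open scoped ModularForm Real Manifold ENNReal NNReal

namespace KitA

theorem gr_val {a b c d : ℝ} (h : a * d - b * c ≠ 0) :
    ((gr a b c d : GL (Fin 2) ℝ) : Matrix (Fin 2) (Fin 2) ℝ) = !![a, b; c, d] := by
  unfold gr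
  rw [dif_pos h]
  rfl

theorem gr_det {a b c d : ℝ} (h : a * d - b * c ≠ 0) :
    (gr a b c d).det.val = a * d - b * c := by
  rw [Matrix.GeneralLinearGroup.val_det_apply, gr_val h, Matrix.det_fin_two_of]

theorem gr_num {a b c d : ℝ} (h : a * d - b * c ≠ 0) (z : ℂ) :
    num (gr a b c d) z = a * z + b := by
  simp [num, gr_val h]

theorem gr_denom {a b c d : ℝ} (h : a * d - b * c ≠ 0) (z : ℂ) :
    denom (gr a b c d) z = c * z + d := by
  simp [denom, gr_val h]

theorem sg_pos {g : GL (Fin 2) ℝ} (h : 0 < g.det.val) (w : ℂ) : σ g w = w := by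
  rw [σ, if_pos h]
  rfl

theorem sg_neg {g : GL (Fin 2) ℝ} (h : ¬ 0 < g.det.val) (w : ℂ) :
    σ g w = (starRingEnd ℂ) w := by
  rw [σ, if_neg h]
  rfl

theorem coe' (a b c d : ℝ) (z : ℍ) (h : 0 < a * d - b * c) :
    ((gr a b c d • z : ℍ) : ℂ) = (a * z + b) / (c * z + d) := by
  rw [coe_smul_of_det_pos (by rw [gr_det h.ne']; exact h), gr_num h.ne', gr_denom h.ne']

theorem den' (c d : ℝ) (z : ℍ) (h : c ≠ 0 ∨ d ≠ 0) : (c : ℂ) * z + d ≠ 0 := by
  intro h0
  have him := congrArg Complex.im h0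
  have hre := congrArg Complex.re h0
  simp only [add_im, mul_im, ofReal_re, coe_im, ofReal_im, coe_re, zero_mul, add_zero,
    zero_im, mul_eq_zero] at him
  have hc : c = 0 := him.resolve_right z.im_ne_zero
  subst hc
  simp at hre
  rcases h with h | h
  · exact h rfl
  · exact h hre

theorem im' (a b c d : ℝ) (z : ℍ) (h : 0 < a * d - b * c) :
    (gr a b c d • z).im = (a * d - b * c) * z.im / ‖(c : ℂ) * z + d‖ ^ 2 := by
  rw [im_smul_eq_div_normSq, gr_det h.ne', gr_denom h.ne', abs_of_pos h,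
    Complex.normSq_eq_norm_sq]

theorem slr' (F : ℍ → ℂ) (a b c d : ℝ) (z : ℍ) (h : 0 < a * d - b * c) :
    sr F (gr a b c d) z =
      ((a * d - b * c : ℝ) : ℂ) / ((c : ℂ) * z + d) ^ 2 * F (gr a b c d • z) := by
  unfold sr
  rw [ModularForm.slash_apply, sg_pos (by rw [gr_det h.ne']; exact h), gr_det h.ne',
    gr_denom h.ne', abs_of_pos h]
  have e1 : (2 : ℤ) - 1 = 1 := by norm_num
  rw [e1, zpow_one, zpow_neg, zpow_ofNat]
  ring

theorem grm' (a b c d a' b' c' d' : ℝ) (h : a * d - b * c ≠ 0) (h' : a' * d' - b' * c' ≠ 0) :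
    gr a b c d * gr a' b' c' d' =
      gr (a * a' + b * c') (a * b' + b * d') (c * a' + d * c') (c * b' + d * d') := by
  have h'' : (a * a' + b * c') * (c * b' + d * d') - (a * b' + b * d') * (c * a' + d * c') ≠ 0 := by
    have : (a * a' + b * c') * (c * b' + d * d') - (a * b' + b * d') * (c * a' + d * c') =
        (a * d - b * c) * (a' * d' - b' * c') := by ring
    rw [this]
    exact mul_ne_zero h h'
  apply Units.ext
  rw [Units.val_mul, gr_val h, gr_val h', gr_val h'', Matrix.mul_fin_two]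

theorem srm' (F : ℍ → ℂ) (g h : GL (Fin 2) ℝ) : sr (sr F g) h = sr F (g * h) := by
  unfold sr
  rw [SlashAction.slash_mul]

theorem refl' (F : ℍ → ℂ) (z : ℍ) :
    ((gr (-1) 0 0 1 • z : ℍ) : ℂ) = -(starRingEnd ℂ) z ∧
      sr F (gr (-1) 0 0 1) z = (starRingEnd ℂ) (F (gr (-1) 0 0 1 • z)) := by
  have h : (-1 : ℝ) * 1 - 0 * 0 ≠ 0 := by norm_num
  have hn : ¬ 0 < (gr (-1) 0 0 1).det.val := by
    rw [gr_det h]
    norm_num
  constructor
  · rw [coe_smul, sg_neg hn, gr_num h, gr_denom h]
    simp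
  · unfold sr
    rw [ModularForm.slash_apply, sg_neg hn, gr_det h, gr_denom h]
    simp

theorem det_cast (g : Mt) :
    (g.1 : ℝ) * (g.2.2.2 : ℝ) - (g.2.1 : ℝ) * (g.2.2.1 : ℝ) = (det g : ℝ) := by
  unfold det
  push_cast
  ring

theorem det_pos' {g : Mt} (h : 0 < det g) :
    0 < (g.1 : ℝ) * (g.2.2.2 : ℝ) - (g.2.1 : ℝ) * (g.2.2.1 : ℝ) := by
  rw [det_cast]
  exact_mod_cast h

theorem det_ne' {g : Mt} (h : det g ≠ 0) :
    (g.1 : ℝ) * (g.2.2.2 : ℝ) - (g.2.1 : ℝ) * (g.2.2.1 : ℝ) ≠ 0 := by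
  rw [det_cast]
  exact_mod_cast h

theorem coez' (g : Mt) (z : ℍ) (h : 0 < det g) :
    ((ac g z : ℍ) : ℂ) = (g.1 * z + g.2.1) / (g.2.2.1 * z + g.2.2.2) := by
  unfold ac gl
  rw [coe' _ _ _ _ z (det_pos' h)]
  simp

theorem imz' (g : Mt) (z : ℍ) (h : 0 < det g) :
    (ac g z).im = det g * z.im / ‖(g.2.2.1 : ℂ) * z + g.2.2.2‖ ^ 2 := by
  unfold ac gl
  rw [im' _ _ _ _ z (det_pos' h), det_cast]
  simp

theorem slz' (F : ℍ → ℂ) (g : Mt) (z : ℍ) (h : 0 < det g) :
    sl F g z = (det g : ℂ) / ((g.2.2.1 : ℂ) * z + g.2.2.2) ^ 2 * F (ac g z) := by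
  unfold sl ac gl
  rw [slr' F _ _ _ _ z (det_pos' h), det_cast]
  simp

theorem glm (g h : Mt) (hg : det g ≠ 0) (hh : det h ≠ 0) : gl g * gl h = gl (mul g h) := by
  unfold gl
  rw [grm' _ _ _ _ _ _ _ _ (det_ne' hg) (det_ne' hh)]
  unfold mul
  push_cast
  rfl

theorem slm' (F : ℍ → ℂ) (g h : Mt) (hg : det g ≠ 0) (hh : det h ≠ 0) :
    sl (sl F g) h = sl F (mul g h) := by
  unfold sl
  rw [srm', glm g h hg hh]

theorem acm' (g h : Mt) (z : ℍ) (hg : det g ≠ 0) (hh : det h ≠ 0) :
    ac (mul g h) z = ac g (ac h z) := by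
  unfold ac
  rw [← glm g h hg hh, mul_smul]

theorem denz (g : Mt) (z : ℍ) (h : 0 < det g) : (g.2.2.1 : ℂ) * z + g.2.2.2 ≠ 0 := by
  have h1 : (g.2.2.1 : ℝ) ≠ 0 ∨ (g.2.2.2 : ℝ) ≠ 0 := by
    by_contra hc
    push Not at hc
    have := det_pos' h
    rw [hc.1, hc.2] at this
    simp at this
  have := den' _ _ z h1
  simpa using this

theorem sca' (F : ℍ → ℂ) (n : ℤ) (g : Mt) (hn : n ≠ 0) (h : 0 < det g) :
    sl F (smu n g) = sl F g ∧ ac (smu n g) = ac g := by
  have hd : det (smu n g) = n ^ 2 * det g := by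
    unfold det smu
    ring
  have hp : 0 < det (smu n g) := by
    rw [hd]
    positivity
  have hnC : (n : ℂ) ≠ 0 := by exact_mod_cast hn
  have h2 : ac (smu n g) = ac g := by
    funext z
    apply UpperHalfPlane.ext
    rw [coez' _ z hp, coez' _ z h]
    have := denz g z h
    unfold smu
    push_cast
    field_simp
  refine ⟨?_, h2⟩
  funext z
  rw [slz' F _ z hp, slz' F _ z h, h2, hd]
  have := denz g z h
  unfold smu
  push_cast
  field_simp

theorem gl_one : gl (1, 0, 0, 1) = 1 := by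
  unfold gl
  apply Units.ext
  rw [gr_val (by norm_num)]
  simp [Matrix.one_fin_two]

theorem one' (F : ℍ → ℂ) : sl F (1, 0, 0, 1) = F ∧ ac (1, 0, 0, 1) = id := by
  constructor
  · unfold sl sr
    rw [gl_one, SlashAction.slash_one]
  · funext z
    unfold ac
    rw [gl_one, one_smul]
    rfl

theorem pe_eq (F G : ℍ → ℂ) (z : ℍ) : pe F G z = petersson 2 G F z := by
  unfold pe petersson
  rw [zpow_ofNat]
  ring

theorem pes' (F G : ℍ → ℂ) (g : GL (Fin 2) ℝ) (z : ℍ) (h : 0 < g.det.val) :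
    pe (sr F g) (sr G g) z = pe F G (g • z) := by
  rw [pe_eq, pe_eq]
  unfold sr
  rw [petersson_slash, sg_pos h]
  simp

theorem pez' (F G : ℍ → ℂ) (g : Mt) (z : ℍ) (h : 0 < det g) :
    pe (sl F g) (sl G g) z = pe F G (ac g z) := by
  unfold sl ac
  apply pes'
  unfold gl
  rw [gr_det (det_pos' h).ne']
  exact det_pos' h

theorem cont_smul (g : GL (Fin 2) ℝ) : Continuous fun z : ℍ => g • z := continuous_const_smul g

theorem mp' (g : GL (Fin 2) ℝ) : MeasurePreserving (fun z : ℍ => g • z) volume volume :=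
  measurePreserving_smul g volume

theorem me_smul (g : GL (Fin 2) ℝ) : MeasurableEmbedding fun z : ℍ => g • z :=
  (Homeomorph.smul g).measurableEmbedding

theorem ints' (g : GL (Fin 2) ℝ) (u : ℍ → ℂ) : ∫ z, u (g • z) = ∫ z, u z ∧
    (Integrable (fun z => u (g • z)) ↔ Integrable u) :=
  ⟨(mp' g).integral_comp (me_smul g) u, (mp' g).integrable_comp_emb (me_smul g)⟩

theorem msr' (F : ℍ → ℂ) (g : GL (Fin 2) ℝ) (hF : Measurable F) : Measurable (sr F g) := by
  unfold sr
  rw [ModularForm.slash_def]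
  refine Measurable.mul (Measurable.mul ?_ measurable_const) ?_
  · exact (σ g).continuous.measurable.comp (hF.comp (cont_smul g).measurable)
  · refine Measurable.pow_const ?_ _
    unfold denom
    exact (measurable_const.mul measurable_coe).add measurable_const

theorem mim : Measurable fun z : ℍ => z.im := continuous_im.measurable

theorem mpe' (F G : ℍ → ℂ) (hF : Measurable F) (hG : Measurable G) : Measurable (pe F G) := by
  unfold pe
  refine (hF.mul (Complex.continuous_conj.measurable.comp hG)).mul ?_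
  exact (Complex.measurable_ofReal.comp mim).pow_const _

theorem mts' (ι : Type) [Countable ι] (F : ι → ℍ → ℂ) (hF : ∀ i, Measurable (F i))
    (hs : ∀ z, Summable fun i => F i z) : Measurable fun z => ∑' i, F i z := by
  refine measurable_of_tendsto_metrizable' (atTop : Filter (Finset ι))
    (f := fun s z => ∑ i ∈ s, F i z) (fun s => Finset.measurable_fun_sum s fun i _ => hF i) ?_
  rw [tendsto_pi_nhds]
  intro z
  exact (hs z).hasSum

theorem ptc' (x y : ℝ) (hy : 0 < y) :
    ((pt x y : ℍ) : ℂ) = x + y * I ∧ (pt x y).re = x ∧ (pt x y).im = y := by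
  have h : 0 < ((x : ℂ) + y * I).im := by simpa using hy
  have e : ((pt x y : ℍ) : ℂ) = x + y * I := by
    unfold pt
    rw [ofComplex_apply_of_im_pos h]
  refine ⟨e, ?_, ?_⟩
  · rw [← coe_re, e]
    simp
  · rw [← coe_im, e]
    simp

theorem mofc : Measurable (ofComplex : ℂ → ℍ) := by
  rw [← measurableEmbedding_coe.measurable_comp_iff]
  have e : (UpperHalfPlane.coe ∘ (ofComplex : ℂ → ℍ)) =
      fun w : ℂ => if 0 < w.im then w else ((ofComplex 0 : ℍ) : ℂ) := by
    funext w
    by_cases h : 0 < w.im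
    · simp only [Function.comp_apply, if_pos h]
      rw [ofComplex_apply_of_im_pos h]
    · simp only [Function.comp_apply, if_neg h]
      rw [ofComplex_apply_eq_of_im_nonpos (not_lt.mp h) (w' := 0) (by simp)]
  rw [e]
  exact Measurable.ite (measurableSet_lt measurable_const Complex.measurable_im) measurable_id
    measurable_const

theorem mpt' : Measurable fun p : ℝ × ℝ => pt p.1 p.2 := by
  unfold pt
  refine mofc.comp ?_
  fun_prop

theorem dens (z : ℍ) :
    (((1 / NNReal.mk z.im z.im_pos.le : ℝ≥0) ^ 2 : ℝ≥0) : ℝ≥0∞) =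
      ENNReal.ofReal (1 / z.im ^ 2) := by
  rw [← ENNReal.ofReal_coe_nnreal]
  congr 1
  simp

theorem lint' (u : ℍ → ℝ≥0∞) (hu : Measurable u) :
    ∫⁻ z, u z = ∫⁻ y in Set.Ioi (0 : ℝ), ∫⁻ x : ℝ, u (pt x y) * ENNReal.ofReal (1 / y ^ 2) := by
  have hm : Measurable fun z : ℍ => ENNReal.ofReal (1 / z.im ^ 2) :=
    ENNReal.measurable_ofReal.comp (measurable_const.div (mim.pow_const _))
  have e1 : (volume : Measure ℍ) = (volume.comap UpperHalfPlane.coe).withDensity
      fun z : ℍ => ENNReal.ofReal (1 / z.im ^ 2) := by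
    rw [volume_def]
    congr 1
    funext z
    exact dens z
  set G : ℂ → ℝ≥0∞ := fun w => u (ofComplex w) * ENNReal.ofReal (1 / w.im ^ 2) with hG
  have hGm : Measurable G := (hu.comp mofc).mul
    (ENNReal.measurable_ofReal.comp (measurable_const.div (Complex.measurable_im.pow_const _)))
  have hr : Set.range UpperHalfPlane.coe = {w : ℂ | 0 < w.im} := range_coe
  have e2 : ∫⁻ z, u z = ∫⁻ w in {w : ℂ | 0 < w.im}, G w := by
    rw [e1, lintegral_withDensity_eq_lintegral_mul _ hm hu, ← hr,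
      ← measurableEmbedding_coe.map_comap, measurableEmbedding_coe.lintegral_map]
    congr 1
    funext z
    simp only [hG, Pi.mul_apply, ofComplex_apply, coe_im]
    ring
  have hS : MeasurableSet {w : ℂ | 0 < w.im} :=
    measurableSet_lt measurable_const Complex.measurable_im
  rw [e2, ← lintegral_indicator hS,
    ← (Complex.volume_preserving_equiv_real_prod.symm).lintegral_comp_emb
      Complex.measurableEquivRealProd.symm.measurableEmbedding,
    Measure.volume_eq_prod, lintegral_prod_symm',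
    ← lintegral_indicator measurableSet_Ioi]
  · congr 1
    funext y
    by_cases hy : 0 < y
    · rw [Set.indicator_of_mem (show y ∈ Set.Ioi (0 : ℝ) from hy)]
      congr 1
      funext x
      have e : Complex.measurableEquivRealProd.symm (x, y) = (x : ℂ) + y * I := by
        apply Complex.ext <;> simp
      rw [e, Set.indicator_of_mem (by simpa using hy)]
      simp [hG, pt]
    · rw [Set.indicator_of_notMem (show y ∉ Set.Ioi (0 : ℝ) from hy)]
      have : ∀ x : ℝ, {w : ℂ | 0 < w.im}.indicator G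
          (Complex.measurableEquivRealProd.symm (x, y)) = 0 := by
        intro x
        apply Set.indicator_of_notMem
        simpa using hy
      simp only [this, lintegral_zero]
  · exact (hGm.indicator hS).comp Complex.measurableEquivRealProd.symm.measurable

theorem mq : Measurable fun p : ℝ × ℝ => pt p.2 p.1 := mpt'.comp measurable_swap

theorem md : Measurable fun p : ℝ × ℝ => Real.toNNReal (1 / p.1 ^ 2) := by
  fun_prop

theorem push : (volume : Measure ℍ) =
    (((volume.restrict (Set.Ioi (0 : ℝ))).prod (volume : Measure ℝ)).withDensity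
      fun p : ℝ × ℝ => (Real.toNNReal (1 / p.1 ^ 2) : ℝ≥0∞)).map
        fun p : ℝ × ℝ => pt p.2 p.1 := by
  ext s hs
  have hq : Measurable fun p : ℝ × ℝ => s.indicator (1 : ℍ → ℝ≥0∞) (pt p.2 p.1) :=
    (measurable_one.indicator hs).comp mq
  rw [← lintegral_indicator_one hs, ← lintegral_indicator_one hs,
    lint' _ (measurable_one.indicator hs), lintegral_map (measurable_one.indicator hs) mq,
    lintegral_withDensity_eq_lintegral_mul _ (md.coe_nnreal_ennreal) hq, lintegral_prod]
  · congr 1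
    funext y
    congr 1
    funext x
    simp only [Pi.mul_apply]
    rw [mul_comm]
    rfl
  · exact (md.coe_nnreal_ennreal.mul hq).aemeasurable

theorem smul_eq (u : ℍ → ℂ) :
    (fun p : ℝ × ℝ => Real.toNNReal (1 / p.1 ^ 2) • u (pt p.2 p.1)) =
      fun p : ℝ × ℝ => u (pt p.2 p.1) / (p.1 : ℂ) ^ 2 := by
  funext p
  rw [NNReal.smul_def, Real.coe_toNNReal _ (by positivity), Complex.real_smul]
  push_cast
  ring

theorem intg' (u : ℍ → ℂ) (hu : Measurable u) :
    (Integrable u ↔ Integrable (fun p : ℝ × ℝ => u (pt p.2 p.1) / (p.1 : ℂ) ^ 2)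
      ((volume.restrict (Set.Ioi (0 : ℝ))).prod volume)) ∧
    (Integrable u → ∫ z, u z = ∫ y in Set.Ioi (0 : ℝ), ∫ x : ℝ, u (pt x y) / (y : ℂ) ^ 2) := by
  have h1 : Integrable u ↔ Integrable (fun p : ℝ × ℝ => u (pt p.2 p.1) / (p.1 : ℂ) ^ 2)
      ((volume.restrict (Set.Ioi (0 : ℝ))).prod volume) := by
    rw [push, integrable_map_measure hu.aestronglyMeasurable mq.aemeasurable,
      integrable_withDensity_iff_integrable_smul md, ← smul_eq]
    rfl
  refine ⟨h1, fun hi => ?_⟩
  rw [← integral_prod _ (h1.mp hi), ← smul_eq, ← integral_withDensity_eq_integral_smul md,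
    ← integral_map mq.aemeasurable hu.aestronglyMeasurable, ← push]

end KitA

open KitA in
theorem kit : KitS where
  coe := coe'
  den := den'
  im := im'
  slr := slr'
  grm := grm'
  srm := srm'
  refl := refl'
  coez := coez'
  imz := imz'
  slz := slz'
  slm := slm'
  acm := acm'
  sca := sca'
  one := one'
  pes := pes'
  pez := pez'
  mp := mp'
  ints := ints'
  msr := msr'
  mpe := mpe'
  mts := mts'
  ptc := ptc'
  mpt := mpt'
  lint := lint'
  intg := intg'

end Pool.Agent.MP_20b2fd_nt.H38
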