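import Pool.Agent.MP_20b2fd_nt.H38.SpecC

/-! The local factor at a prime that does not divide `30 a`. -/

set_option autoImplicit false

namespace Pool.Agent.MP_20b2fd_nt.H38

open MeasureTheory Complex Finset Filter Topology ArithmeticFunction
open scoped Real

namespace LocX

/-- the local factor as a polynomial, with `u = 1 / p` and `s = p / (p - 1)` -/
def PL (u s X Y E E' W F G : ℂ) : ℂ :=
  ((1 + 2 * u * s * E) * (1 + 2 * u * s * E') + u * s ^ 2 * E * E') *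
      (1 + u * G * (-1 + s * (1 - X) ^ 2)) -
    u * s * W * (E * (1 + 2 * u * s * E') + E' * (1 + 2 * u * s * E)) *
      ((Y + F * (2 - X)) * (1 - u * G) + 2 * u * s * F * G * (1 - X) ^ 2) +
    u ^ 2 * s ^ 2 * E * E' * W ^ 2 *
      ((Y ^ 2 + Y * F * (2 - X) + F ^ 2 * (3 - 2 * X)) * (1 - u * G) +
        3 * u * s * F ^ 2 * G * (1 - X) ^ 2)

theorem loc_eq {a q p : ℕ} (hp : p.Prime) (h : ¬ p ∣ 30 * a) (X Y E E' W F G : ℂ) :
    Loc a q p X Y E E' W F G =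
      PL (1 / p) (p / (p - 1)) X Y E E' W F (if p ∣ q then 0 else G) := by
  have h0 : a.factorization p = 0 :=
    Nat.factorization_eq_zero_of_not_dvd fun e => h (e.mul_left 30)
  have h1 : (p : ℂ) ≠ 0 := Nat.cast_ne_zero.2 hp.ne_zero
  have h2 : (p : ℂ) - 1 ≠ 0 := sub_ne_zero.2 (by exact_mod_cast hp.ne_one)
  by_cases hq : p ∣ q
  · simp [Loc, al5, al3, al, h, h0, hq, sum_filter, sum_product, sum_range_succ, lt, u3, uu, ke, mx,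
      hl, PL]
    field_simp
    ring
  · simp [Loc, al5, al3, al, h, h0, hq, sum_filter, sum_product, sum_range_succ, lt, u3, uu, ke, mx,
      hl, PL]
    field_simp
    ring

theorem bdd (f : ℂ → ℂ → ℂ → ℂ → ℂ → ℂ → ℂ → ℂ → ℂ → ℂ)
    (hf : Continuous fun v : Fin 9 → ℂ =>
      f (v 0) (v 1) (v 2) (v 3) (v 4) (v 5) (v 6) (v 7) (v 8)) :
    ∃ C : ℝ, 0 ≤ C ∧ ∀ u s X Y E E' W F G : ℂ, ‖u‖ ≤ 3 → ‖s‖ ≤ 3 → ‖X‖ ≤ 3 → ‖Y‖ ≤ 3 → ‖E‖ ≤ 3 →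
      ‖E'‖ ≤ 3 → ‖W‖ ≤ 3 → ‖F‖ ≤ 3 → ‖G‖ ≤ 3 → ‖f u s X Y E E' W F G‖ ≤ C := by
  obtain ⟨C, hC⟩ := (isCompact_closedBall (0 : Fin 9 → ℂ) 3).exists_bound_of_continuousOn
    hf.continuousOn
  refine ⟨max C 0, le_max_right _ _, fun u s X Y E E' W F G a0 a1 a2 a3 a4 a5 a6 a7 a8 => ?_⟩
  refine (hC ![u, s, X, Y, E, E', W, F, G] ?_).trans (le_max_left _ _)
  rw [mem_closedBall_zero_iff, pi_norm_le_iff_of_nonneg (by norm_num)]
  intro i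
  fin_cases i <;> assumption

/-- the second order term -/
def RL (u s X Y E E' W F G : ℂ) : ℂ :=
  s * (2 * E + 2 * E' + (s + 1) * E * E' + G * (1 - X) ^ 2 - W * (E + E') * (Y + F * (2 - X))) +
    4 * s ^ 2 * E * E' +
    (2 * s * E + 2 * s * E' + s ^ 2 * E * E' + u * (4 * s ^ 2 * E * E')) *
      (G * (-1 + s * (1 - X) ^ 2)) -
    s * W * ((E + E') * (-(Y + F * (2 - X)) * G + 2 * s * F * G * (1 - X) ^ 2) +
      4 * s * E * E' * ((Y + F * (2 - X)) * (1 - u * G) + 2 * u * s * F * G * (1 - X) ^ 2)) +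
    s ^ 2 * E * E' * W ^ 2 *
      ((Y ^ 2 + Y * F * (2 - X) + F ^ 2 * (3 - 2 * X)) * (1 - u * G) +
        3 * u * s * F ^ 2 * G * (1 - X) ^ 2) -
    (Y ^ 2 - 2 * Y * (1 + X ^ 2) + u * Y ^ 2 * (1 + X ^ 2))

theorem expand {u s : ℂ} (h : s = 1 + u * s) (X Y E E' W F G : ℂ) :
    PL u s X Y E E' W F G = (1 - u * Y) ^ 2 * (1 + u * (1 + X ^ 2)) +
      u * ((G - 1) * (X ^ 2 - 2 * X)) +
      u * ((E - 1) * (2 + E' - W * (Y + F * (2 - X))) + (E' - 1) * (3 - W * (Y + F * (2 - X))) +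
        (W - 1) * (-2 * (Y + F * (2 - X))) + (F - 1) * (-2 * (2 - X))) +
      u ^ 2 * RL u s X Y E E' W F G := by
  unfold PL RL
  linear_combination (u * (2 * E + 2 * E' + (s + 1) * E * E' + G * (1 - X) ^ 2 -
    W * (E + E') * (Y + F * (2 - X)))) * h

theorem bound : ∃ C : ℝ, 0 ≤ C ∧ ∀ (t : ℝ) (s X Y E E' W F G : ℂ), 0 ≤ t → t ≤ 3 → s = 1 + t * s →
    ‖s‖ ≤ 3 → ‖X‖ ≤ 1 → ‖Y‖ ≤ 3 → ‖E‖ ≤ 3 → ‖E'‖ ≤ 3 → ‖W‖ ≤ 3 → ‖F‖ ≤ 3 → ‖G‖ ≤ 3 →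
    ‖PL t s X Y E E' W F G‖ ≤ ‖1 - t * Y‖ ^ 2 * (1 + t * (1 + ‖X‖ ^ 2)) +
      t * (‖G - 1‖ * (3 * ‖X‖)) +
      t * (C * (‖E - 1‖ + ‖E' - 1‖ + ‖W - 1‖ + ‖F - 1‖)) + t ^ 2 * C := by
  obtain ⟨C₁, p1, h1⟩ := bdd (fun _ _ X Y _ E' W F _ => 2 + E' - W * (Y + F * (2 - X)))
    (by fun_prop)
  obtain ⟨C₂, p2, h2⟩ := bdd (fun _ _ X Y _ _ W F _ => 3 - W * (Y + F * (2 - X))) (by fun_prop)
  obtain ⟨C₃, p3, h3⟩ := bdd (fun _ _ X Y _ _ _ F _ => -2 * (Y + F * (2 - X))) (by fun_prop)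
  obtain ⟨C₄, p4, h4⟩ := bdd (fun _ _ X _ _ _ _ _ _ => -2 * (2 - X)) (by fun_prop)
  obtain ⟨C₅, p5, h5⟩ := bdd RL (by unfold RL; fun_prop)
  refine ⟨C₁ + C₂ + C₃ + C₄ + C₅, by positivity,
    fun t s X Y E E' W F G t0 t1 hs a1 a2 a3 a4 a5 a6 a7 a8 => ?_⟩
  have ht : ‖(t : ℂ)‖ = t := by rw [norm_real, Real.norm_of_nonneg t0]
  have a0 : ‖(t : ℂ)‖ ≤ 3 := ht.trans_le t1
  have a2' : ‖X‖ ≤ 3 := a2.trans (by norm_num)
  have m : ∀ (z w : ℂ) (c : ℝ), ‖w‖ ≤ c → c ≤ C₁ + C₂ + C₃ + C₄ + C₅ →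
      ‖z * w‖ ≤ (C₁ + C₂ + C₃ + C₄ + C₅) * ‖z‖ := fun z w c e e' => by
    rw [norm_mul, mul_comm]
    exact mul_le_mul_of_nonneg_right (e.trans e') (norm_nonneg _)
  rw [expand hs]
  refine norm_add_le_of_le (norm_add_le_of_le (norm_add_le_of_le ?_ ?_) ?_) ?_
  · rw [norm_mul, norm_pow]
    refine mul_le_mul_of_nonneg_left (norm_add_le_of_le norm_one.le ?_) (by positivity)
    rw [norm_mul, ht]
    exact mul_le_mul_of_nonneg_left (norm_add_le_of_le norm_one.le (norm_pow _ _).le) t0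
  · rw [norm_mul, ht, norm_mul, show X ^ 2 - 2 * X = (X - 2) * X by ring, norm_mul]
    have : ‖X - 2‖ ≤ 3 := (norm_sub_le_of_le a2 (RCLike.norm_two (K := ℂ)).le).trans (by norm_num)
    gcongr
  · rw [norm_mul, ht, mul_add (C₁ + C₂ + C₃ + C₄ + C₅), mul_add (C₁ + C₂ + C₃ + C₄ + C₅),
      mul_add (C₁ + C₂ + C₃ + C₄ + C₅)]
    exact mul_le_mul_of_nonneg_left (norm_add_le_of_le (norm_add_le_of_le (norm_add_le_of_le
      (m _ _ _ (h1 t s X Y E E' W F G a0 a1 a2' a3 a4 a5 a6 a7 a8) (by linarith))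
      (m _ _ _ (h2 t s X Y E E' W F G a0 a1 a2' a3 a4 a5 a6 a7 a8) (by linarith)))
      (m _ _ _ (h3 t s X Y E E' W F G a0 a1 a2' a3 a4 a5 a6 a7 a8) (by linarith)))
      (m _ _ _ (h4 t s X Y E E' W F G a0 a1 a2' a3 a4 a5 a6 a7 a8) (by linarith))) t0
  · rw [norm_mul, norm_pow, ht]
    exact mul_le_mul_of_nonneg_left
      ((h5 t s X Y E E' W F G a0 a1 a2' a3 a4 a5 a6 a7 a8).trans (by linarith)) (by positivity)

theorem seven {a p : ℕ} (hp : p.Prime) (h : ¬ p ∣ 30 * a) : 7 ≤ p := by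
  by_contra hc
  have h2 := hp.two_le
  have h3 : ¬ p ∣ 30 := fun e => h (e.mul_right a)
  have h4 : p < 7 := by omega
  interval_cases p <;> first | exact h3 (by decide) | exact absurd hp (by decide)

end LocX

theorem loc : LocS := by
  obtain ⟨C, hC, h⟩ := LocX.bound
  refine ⟨4 * (C + 3), by linarith, fun a q p X Y E E' W F hp ha hX hY hE hE' hW hF hq => ?_⟩
  have h7 : (7 : ℝ) ≤ p := by exact_mod_cast LocX.seven hp ha
  have h1 : (p : ℂ) ≠ 0 := Nat.cast_ne_zero.2 hp.ne_zero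
  have h2 : (p : ℂ) - 1 ≠ 0 := sub_ne_zero.2 (by exact_mod_cast hp.ne_one)
  obtain ⟨t, ht⟩ : ∃ t : ℝ, t = 1 / p := ⟨_, rfl⟩
  obtain ⟨s, hs⟩ : ∃ s : ℝ, s = p / (p - 1) := ⟨_, rfl⟩
  have t0 : 0 ≤ t := by rw [ht]; positivity
  have t1 : t ≤ 1 / 7 := by rw [ht]; exact one_div_le_one_div_of_le (by norm_num) h7
  have s0 : 0 ≤ s := by rw [hs]; exact div_nonneg (by linarith) (by linarith)
  have s1 : s ≤ 2 := by rw [hs, div_le_iff₀ (by linarith)]; linarith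
  have s2 : s = 1 + t * s := by
    have : (p : ℝ) - 1 ≠ 0 := by linarith
    have : (p : ℝ) ≠ 0 := by linarith
    rw [hs, ht]
    field_simp
    ring
  have e1 : (1 : ℂ) / p = t := by rw [ht]; push_cast; rfl
  have e2 : (p : ℂ) / (p - 1) = s := by rw [hs]; push_cast; rfl
  have e3 : 1 - Y / p = 1 - t * Y := by rw [← e1]; ring
  obtain ⟨ε, hε⟩ : ∃ ε : ℝ, ε = ‖E - 1‖ + ‖E' - 1‖ + ‖W - 1‖ + ‖F - 1‖ := ⟨_, rfl⟩
  have ε0 : 0 ≤ ε := by rw [hε]; positivity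
  have ε1 : ‖F - 1‖ ≤ ε := by
    rw [hε]
    exact le_add_of_nonneg_left (by positivity)
  have e4 : 1 + 2 / (p : ℝ) + 4 * (C + 3) * ε / p + 4 * (C + 3) / (p : ℝ) ^ 2 =
      1 + 2 * t + 4 * (C + 3) * (t * ε) + 4 * (C + 3) * t ^ 2 := by
    rw [ht]
    ring
  have key := h t s X Y E E' W F (if p ∣ q then 0 else F) t0 (by linarith) (by exact_mod_cast s2)
    (by rw [norm_real, Real.norm_of_nonneg s0]; linarith) hX hY hE hE' hW hF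
    (by split_ifs; exacts [by simp, hF])
  rw [LocX.loc_eq hp ha, e1, e2, e3, ← hs, ← hε, e4]
  rw [← hε] at key
  have tε : 0 ≤ t * ε := mul_nonneg t0 ε0
  have t2 : 0 ≤ t ^ 2 := sq_nonneg t
  by_cases hpq : p ∣ q
  · simp only [if_pos hpq] at hq key ⊢
    obtain ⟨rfl, rfl⟩ := hq
    simp only [mul_zero, sub_zero, norm_one, norm_zero, one_pow, one_mul, mul_one, add_zero,
      ne_eq, OfNat.ofNat_ne_zero, not_false_eq_true, zero_pow] at key ⊢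
    refine (mul_le_mul_of_nonneg_right key s0).trans ?_
    have b1 : (1 + t) * s ≤ 1 + 2 * t + 5 * t ^ 2 := by
      have c1 : s = 1 + t + t ^ 2 * s := by linear_combination (1 + t) * s2
      have c2 : t ^ 2 * s ≤ t ^ 2 * 2 := mul_le_mul_of_nonneg_left s1 t2
      have c3 : s ≤ 1 + t + 2 * t ^ 2 := by linarith
      nlinarith [mul_le_mul_of_nonneg_left c3 (show 0 ≤ 1 + t by linarith), mul_nonneg t2 t0]
    have b2 : (C * (t * ε) + C * t ^ 2) * s ≤ (C * (t * ε) + C * t ^ 2) * 2 :=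
      mul_le_mul_of_nonneg_left s1 (by positivity)
    nlinarith [mul_nonneg hC tε, mul_nonneg hC t2]
  · simp only [if_neg hpq, mul_one] at key ⊢
    refine key.trans ?_
    have b1 : 4 / 7 ≤ ‖1 - t * Y‖ := by
      have c1 := norm_sub_norm_le (1 : ℂ) (t * Y)
      rw [norm_one, norm_mul, norm_real, Real.norm_of_nonneg t0] at c1
      nlinarith [mul_le_mul t1 hY (norm_nonneg _) (by norm_num)]
    obtain ⟨n, hn⟩ : ∃ n : ℝ, n = ‖1 - t * Y‖ ^ 2 := ⟨_, rfl⟩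
    rw [← hn]
    have b2 : 1 ≤ 4 * n := by rw [hn]; nlinarith
    have b3 : ‖X‖ ^ 2 ≤ 1 := pow_le_one₀ (norm_nonneg _) hX
    have b4 : n * (1 + t * (1 + ‖X‖ ^ 2)) ≤ n * (1 + t * 2) := by gcongr; linarith; linarith
    have b5 : t * (‖F - 1‖ * (3 * ‖X‖)) ≤ t * (ε * (3 * 1)) := by gcongr
    have b6 : ((C + 3) * (t * ε) + (C + 3) * t ^ 2) * 1 ≤
        ((C + 3) * (t * ε) + (C + 3) * t ^ 2) * (4 * n) :=
      mul_le_mul_of_nonneg_left b2 (by positivity)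
    nlinarith

end Pool.Agent.MP_20b2fd_nt.H38
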