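import Pool.Agent.MP_20b2fd_nt.H38.SpecA

/-! Row LsA, first part: pairing with the seed. -/

set_option autoImplicit false

namespace Pool.Agent.MP_20b2fd_nt.H38

open UpperHalfPlane hiding I
open MeasureTheory Complex Finset Filter Topology
open scoped ModularForm Real Manifold ENNReal

namespace LsAA

open Classical in
noncomputable def Ph (K : ℕ) (b : ℕ → ℝ) (z : ℍ) : ℂ := if st z then l0 K b z else 0

noncomputable def c0 : ℝ := ∫ v in (1 : ℝ)..2, Real.exp (-(4 * π * v))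

theorem c0_pos : 0 < c0 :=
  intervalIntegral.intervalIntegral_pos_of_pos
    (Continuous.intervalIntegrable (by fun_prop) _ _) (fun _ => Real.exp_pos _) one_lt_two

theorem norm_ee (w : ℂ) : ‖ee w‖ = Real.exp (-(2 * π * w.im)) := by
  unfold ee
  rw [Complex.norm_exp]
  congr 1
  simp

theorem norm_ee_le (k : ℕ) (z : ℍ) : ‖ee (k ^ 2 * z)‖ ≤ 1 := by
  rw [norm_ee, Real.exp_le_one_iff]
  have e : ((k : ℂ) ^ 2 * z).im = (k : ℝ) ^ 2 * z.im := by
    rw [← Complex.ofReal_natCast, ← Complex.ofReal_pow, Complex.im_ofReal_mul]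
    rfl
  rw [e]
  have := z.im_pos
  have : 0 ≤ 2 * π * ((k : ℝ) ^ 2 * z.im) := by positivity
  linarith

theorem conj_ee (k : ℕ) (x y : ℝ) : (starRingEnd ℂ) (ee (k ^ 2 * (x + y * I))) =
    ee (-(((k ^ 2 : ℕ) : ℂ) * (x + y * I))) * (Real.exp (-(4 * π * (k ^ 2 * y))) : ℂ) := by
  unfold ee
  rw [← Complex.exp_conj, Complex.ofReal_exp, ← Complex.exp_add]
  congr 1
  simp only [map_mul, map_add, map_pow, map_natCast, conj_ofReal, conj_I, map_ofNat]
  push_cast
  linear_combination (4 * π * k ^ 2 * y : ℂ) * I_mul_I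

theorem ms_st : MeasurableSet {z : ℍ | st z} :=
  (measurableSet_le measurable_const UpperHalfPlane.continuous_re.measurable).inter
    (measurableSet_lt UpperHalfPlane.continuous_re.measurable measurable_const)

theorem ms_band (k : ℕ) : MeasurableSet {z : ℍ | 1 ≤ (k : ℝ) ^ 2 * z.im ∧ (k : ℝ) ^ 2 * z.im ≤ 2} := by
  have h : Measurable fun z : ℍ => (k : ℝ) ^ 2 * z.im :=
    UpperHalfPlane.continuous_im.measurable.const_mul _
  exact (measurableSet_le measurable_const h).inter (measurableSet_le h measurable_const)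

theorem m_ee (k : ℕ) : Measurable fun z : ℍ => ee (k ^ 2 * z) := by
  refine Continuous.measurable ?_
  unfold ee
  fun_prop

theorem m_l0 (K : ℕ) (b : ℕ → ℝ) : Measurable (l0 K b) := by
  unfold l0
  refine Finset.measurable_sum _ fun k _ => ?_
  exact Measurable.ite (ms_band k) ((m_ee k).const_mul _) measurable_const

theorem m_Ph (K : ℕ) (b : ℕ → ℝ) : Measurable (Ph K b) :=
  Measurable.ite ms_st (m_l0 K b) measurable_const

open Classical in
/-- one frequency -/
noncomputable def ps (k : ℕ) (z : ℍ) : ℂ :=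
  if st z ∧ (1 ≤ (k : ℝ) ^ 2 * z.im ∧ (k : ℝ) ^ 2 * z.im ≤ 2) then ee (k ^ 2 * z) else 0

theorem m_ps (k : ℕ) : Measurable (ps k) :=
  Measurable.ite (ms_st.inter (ms_band k)) (m_ee k) measurable_const

theorem pe_Ph (F : ℍ → ℂ) (K : ℕ) (b : ℕ → ℝ) (z : ℍ) :
    pe F (Ph K b) z = ∑ k ∈ Ico K (2 * K), (b k * k : ℂ) * pe F (ps k) z := by
  unfold pe Ph ps l0
  by_cases h : st z
  · simp only [h, if_true, true_and, map_sum, Finset.mul_sum, Finset.sum_mul]
    refine Finset.sum_congr rfl fun k _ => ?_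
    split_ifs
    · simp only [map_mul, conj_ofReal, map_natCast]
      ring
    · simp
  · simp [h]

theorem one_freq (hk : KitS) {F : ℍ → ℂ} (hF : Measurable F) {k : ℕ} (hk1 : 1 ≤ k) {D : ℝ}
    (hD : ∀ z : ℍ, 1 ≤ (k : ℝ) ^ 2 * z.im → ‖F z‖ ≤ D) {a : ℂ}
    (ha : ∀ y : ℝ, 1 ≤ (k : ℝ) ^ 2 * y → (k : ℝ) ^ 2 * y ≤ 2 →
      ∫ x in (0 : ℝ)..1, F (pt x y) * ee (-(((k ^ 2 : ℕ) : ℂ) * (x + y * I))) = a) :
    Integrable (pe F (ps k)) ∧ ∫ z, pe F (ps k) z = c0 * a / (k : ℂ) ^ 2 := by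
  have hk0 : (0 : ℝ) < (k : ℝ) ^ 2 := by positivity
  have hm := hk.mpe F _ hF (m_ps k)
  have hb : ∀ y : ℝ, y ∈ Set.Icc (1 / (k : ℝ) ^ 2) (2 / (k : ℝ) ^ 2) ↔
      1 ≤ (k : ℝ) ^ 2 * y ∧ (k : ℝ) ^ 2 * y ≤ 2 := by
    intro y
    rw [Set.mem_Icc, div_le_iff₀' hk0, le_div_iff₀' hk0]
  have hv : ∀ x y : ℝ, 0 < y → pe F (ps k) (pt x y) / (y : ℂ) ^ 2 =
      (Set.Icc (1 / (k : ℝ) ^ 2) (2 / (k : ℝ) ^ 2)).indicator (fun y : ℝ =>
        (Set.Ico (0 : ℝ) 1).indicator (fun x : ℝ =>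
          F (pt x y) * (starRingEnd ℂ) (ee (k ^ 2 * (x + y * I)))) x) y := by
    intro x y hy
    obtain ⟨h1, h2, h3⟩ := hk.ptc x y hy
    have hy' : (y : ℂ) ≠ 0 := by exact_mod_cast hy.ne'
    unfold pe ps st
    rw [h1, h2, h3]
    simp only [Set.indicator_apply, hb, Set.mem_Ico]
    by_cases c1 : 0 ≤ x ∧ x < 1 <;> by_cases c2 : 1 ≤ (k : ℝ) ^ 2 * y ∧ (k : ℝ) ^ 2 * y ≤ 2 <;>
      simp only [c1, c2, and_self, and_true, and_false, if_true, if_false]
    · field_simp
    all_goals simp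
  have hint : Integrable (pe F (ps k)) := by
    rw [(hk.intg _ hm).1]
    have hs : MeasurableSet (Set.Icc (1 / (k : ℝ) ^ 2) (2 / (k : ℝ) ^ 2) ×ˢ Set.Ico (0 : ℝ) 1) :=
      measurableSet_Icc.prod measurableSet_Ico
    refine Integrable.mono' (g := (Set.Icc (1 / (k : ℝ) ^ 2) (2 / (k : ℝ) ^ 2) ×ˢ
      Set.Ico (0 : ℝ) 1).indicator fun _ => D) ?_ ?_ ?_
    · refine (integrable_indicator_iff hs).mpr (integrableOn_const ?_)
      rw [Measure.prod_prod]
      refine ENNReal.mul_ne_top ?_ (by simp)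
      exact ((Measure.restrict_apply_le _ _).trans_lt (by simp)).ne
    · refine Measurable.aestronglyMeasurable ?_
      exact (hm.comp (hk.mpt.comp measurable_swap)).div
        ((Complex.measurable_ofReal.comp measurable_fst).pow_const 2)
    · have hae : ∀ᵐ p : ℝ × ℝ ∂((volume.restrict (Set.Ioi (0 : ℝ))).prod volume), 0 < p.1 :=
        Measure.QuasiMeasurePreserving.ae (Measure.quasiMeasurePreserving_fst)
          (ae_restrict_mem measurableSet_Ioi)
      filter_upwards [hae] with p hp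
      rw [hv p.2 p.1 hp]
      simp only [Set.indicator_apply, Set.mem_prod]
      by_cases c1 : p.1 ∈ Set.Icc (1 / (k : ℝ) ^ 2) (2 / (k : ℝ) ^ 2) <;>
        by_cases c2 : p.2 ∈ Set.Ico (0 : ℝ) 1 <;>
        simp only [c1, c2, and_self, and_true, and_false, if_true, if_false, norm_zero,
          le_refl]
      obtain ⟨h1, h2, h3⟩ := hk.ptc p.2 p.1 hp
      rw [norm_mul, RCLike.norm_conj, ← h1]
      have d1 := hD (pt p.2 p.1) (by rw [h3]; exact ((hb _).mp c1).1)
      calc _ ≤ D * 1 := mul_le_mul d1 (norm_ee_le k _) (norm_nonneg _) ((norm_nonneg _).trans d1)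
        _ = D := mul_one _
  refine ⟨hint, ?_⟩
  rw [(hk.intg _ hm).2 hint]
  have e1 : ∀ y ∈ Set.Ioi (0 : ℝ), ∫ x : ℝ, pe F (ps k) (pt x y) / (y : ℂ) ^ 2 =
      (Set.Icc (1 / (k : ℝ) ^ 2) (2 / (k : ℝ) ^ 2)).indicator
        (fun y : ℝ => a * (Real.exp (-(4 * π * (k ^ 2 * y))) : ℂ)) y := by
    intro y hy
    simp only [hv _ y hy]
    by_cases c1 : y ∈ Set.Icc (1 / (k : ℝ) ^ 2) (2 / (k : ℝ) ^ 2)
    · simp only [Set.indicator_of_mem c1]
      rw [integral_indicator measurableSet_Ico, integral_Ico_eq_integral_Ioc,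
        ← intervalIntegral.integral_of_le zero_le_one, ← ha y ((hb _).mp c1).1 ((hb _).mp c1).2,
        ← intervalIntegral.integral_mul_const]
      refine intervalIntegral.integral_congr fun x _ => ?_
      simp only [conj_ee]
      ring
    · simp only [Set.indicator_of_notMem c1, integral_zero]
  have hle : 1 / (k : ℝ) ^ 2 ≤ 2 / (k : ℝ) ^ 2 := by gcongr; norm_num
  have hsub : Set.Icc (1 / (k : ℝ) ^ 2) (2 / (k : ℝ) ^ 2) ⊆ Set.Ioi 0 :=
    fun y hy => lt_of_lt_of_le (by positivity) hy.1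
  rw [setIntegral_congr_fun measurableSet_Ioi e1, setIntegral_indicator measurableSet_Icc,
    Set.inter_eq_right.mpr hsub, integral_Icc_eq_integral_Ioc,
    ← intervalIntegral.integral_of_le hle, intervalIntegral.integral_const_mul,
    intervalIntegral.integral_ofReal,
    intervalIntegral.integral_comp_mul_left (fun v => Real.exp (-(4 * π * v))) hk0.ne',
    mul_div_cancel₀ _ hk0.ne', mul_div_cancel₀ _ hk0.ne', smul_eq_mul]
  unfold c0
  push_cast
  ring

/-- pairing of a bounded function with the seed -/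
theorem pair (hk : KitS) {F : ℍ → ℂ} (hF : Measurable F) {K : ℕ} (hK : 1 ≤ K) (b : ℕ → ℝ) {D : ℝ}
    (hD : ∀ z : ℍ, 1 ≤ (2 * K : ℝ) ^ 2 * z.im → ‖F z‖ ≤ D) (a : ℕ → ℂ)
    (ha : ∀ k ∈ Ico K (2 * K), ∀ y : ℝ, 1 ≤ (k : ℝ) ^ 2 * y → (k : ℝ) ^ 2 * y ≤ 2 →
      ∫ x in (0 : ℝ)..1, F (pt x y) * ee (-(((k ^ 2 : ℕ) : ℂ) * (x + y * I))) = a k) :
    Integrable (pe F (Ph K b)) ∧
      ∫ z, pe F (Ph K b) z = c0 * ∑ k ∈ Ico K (2 * K), b k * a k / k := by
  have h : ∀ k ∈ Ico K (2 * K), Integrable (pe F (ps k)) ∧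
      ∫ z, pe F (ps k) z = c0 * a k / (k : ℂ) ^ 2 := by
    intro k hkm
    have h1 := Finset.mem_Ico.mp hkm
    refine one_freq hk hF (hK.trans h1.1) (D := D) (fun z hz => hD z (hz.trans ?_)) (ha k hkm)
    have h2 : (k : ℝ) ≤ 2 * K := by exact_mod_cast h1.2.le
    have := z.im_pos
    gcongr
  have e : pe F (Ph K b) = fun z => ∑ k ∈ Ico K (2 * K), (b k * k : ℂ) * pe F (ps k) z :=
    funext (pe_Ph F K b)
  rw [e]
  refine ⟨integrable_finsetSum _ fun k hkm => (h k hkm).1.const_mul _, ?_⟩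
  rw [integral_finsetSum _ fun k hkm => (h k hkm).1.const_mul _, Finset.mul_sum]
  refine Finset.sum_congr rfl fun k hkm => ?_
  have h1 : (k : ℂ) ≠ 0 := by
    have := hK.trans (Finset.mem_Ico.mp hkm).1
    exact_mod_cast (by omega : k ≠ 0)
  rw [integral_const_mul, (h k hkm).2]
  field_simp

theorem int_ee (m n : ℕ) (y : ℝ) :
    ∫ x in (0 : ℝ)..1, ee (m * (x + y * I)) * ee (-(n * (x + y * I))) = if m = n then 1 else 0 := by
  split_ifs with h
  · subst h
    have e : ∀ x : ℝ, ee (m * (x + y * I)) * ee (-((m : ℂ) * (x + y * I))) = 1 := by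
      intro x
      unfold ee
      rw [← Complex.exp_add, ← Complex.exp_zero]
      congr 1
      ring
    simp only [e]
    simp
  · have hc : (2 * π * I * (m - n) : ℂ) ≠ 0 := by
      have h1 : (m - n : ℂ) ≠ 0 := by
        rw [sub_ne_zero]
        exact_mod_cast h
      have h2 : (π : ℂ) ≠ 0 := by exact_mod_cast Real.pi_ne_zero
      simp [h1, h2, I_ne_zero]
    have e : ∀ x : ℝ, ee (m * (x + y * I)) * ee (-((n : ℂ) * (x + y * I))) =
        exp (2 * π * I * (m - n) * (y * I)) * exp (2 * π * I * (m - n) * x) := by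
      intro x
      unfold ee
      rw [← Complex.exp_add, ← Complex.exp_add]
      congr 1
      ring
    simp only [e]
    rw [intervalIntegral.integral_const_mul, integral_exp_mul_complex hc]
    have e1 : exp (2 * π * I * (m - n) * ((1 : ℝ) : ℂ)) = 1 := by
      refine Eq.trans ?_ (Complex.exp_int_mul_two_pi_mul_I (m - n))
      congr 1
      push_cast
      ring
    rw [e1]
    simp

/-- the diagonal -/
theorem diag (hk : KitS) {K : ℕ} (hK : 1 ≤ K) (b : ℕ → ℝ) :
    Integrable (pe (l0 K b) (Ph K b)) ∧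
      ∫ z, pe (l0 K b) (Ph K b) z = (c0 * ∑ k ∈ Ico K (2 * K), b k ^ 2 : ℝ) := by
  have h := pair hk (m_l0 K b) hK b (D := ∑ k ∈ Ico K (2 * K), |b k| * k) (fun z _ => ?_)
    (fun k => b k * k) (fun k hkm y h1 h2 => ?_)
  · refine ⟨h.1, ?_⟩
    rw [h.2]
    push_cast
    congr 1
    refine Finset.sum_congr rfl fun k hkm => ?_
    have h1 : (k : ℂ) ≠ 0 := by
      have := hK.trans (Finset.mem_Ico.mp hkm).1
      exact_mod_cast (by omega : k ≠ 0)
    field_simp
  · unfold l0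
    refine (norm_sum_le _ _).trans (Finset.sum_le_sum fun k _ => ?_)
    split_ifs
    · rw [norm_mul, norm_mul, Complex.norm_real, Complex.norm_natCast, Real.norm_eq_abs]
      exact mul_le_of_le_one_right (by positivity) (norm_ee_le k z)
    · rw [norm_zero]
      positivity
  · have hy : 0 < y := by
      by_contra hy
      have : (k : ℝ) ^ 2 * y ≤ 0 := mul_nonpos_of_nonneg_of_nonpos (by positivity) (not_lt.mp hy)
      linarith
    have e : ∀ x : ℝ, l0 K b (pt x y) * ee (-(((k ^ 2 : ℕ) : ℂ) * (x + y * I))) =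
        ∑ j ∈ Ico K (2 * K), (if 1 ≤ (j : ℝ) ^ 2 * y ∧ (j : ℝ) ^ 2 * y ≤ 2 then (b j * j : ℂ) else 0) *
          (ee (((j ^ 2 : ℕ) : ℂ) * (x + y * I)) * ee (-(((k ^ 2 : ℕ) : ℂ) * (x + y * I)))) := by
      intro x
      obtain ⟨p1, -, p3⟩ := hk.ptc x y hy
      unfold l0
      rw [p1, p3, Finset.sum_mul]
      refine Finset.sum_congr rfl fun j _ => ?_
      split_ifs
      · push_cast
        ring
      · simp
    simp only [e]
    rw [intervalIntegral.integral_finsetSum]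
    · simp only [intervalIntegral.integral_const_mul, int_ee]
      rw [Finset.sum_eq_single k]
      · simp [h1, h2]
      · intro j _ hj
        have : j ^ 2 ≠ k ^ 2 := fun e => hj (Nat.pow_left_injective two_ne_zero e)
        simp [this]
      · intro h
        exact absurd hkm h
    · intro j _
      refine Continuous.intervalIntegrable ?_ _ _
      unfold ee
      fun_prop

end LsAA

end Pool.Agent.MP_20b2fd_nt.H38
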