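import Pool.Agent.MP_20b2fd_nt.H38.SpecN
import Pool.Agent.MP_c5bf7b_nt.H38.SelR

/-! The sum of the reciprocals of the totient function over squarefree numbers. -/

set_option autoImplicit false

namespace Pool.Agent.MP_20b2fd_nt.H38

open Finset
open Pool.Agent.MP_c5bf7b_nt.H38.SelAux (GG SS gg_low tot_eq)

namespace M2A

theorem split (f : ℕ → ℝ) {p : ℕ} (hp : 0 < p) (Q : ℕ) : ∑ k ∈ Icc 1 Q, f k =
    ∑ k ∈ Icc 1 Q with ¬ p ∣ k, f k + ∑ m ∈ Icc 1 (Q / p), f (p * m) := by
  rw [← sum_filter_not_add_sum_filter _ (p ∣ ·)]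
  congr 1
  refine (sum_bij (fun m _ => p * m) (fun m hm => ?_)
    (fun a _ b _ h => Nat.eq_of_mul_eq_mul_left hp h) (fun k hk => ?_) fun _ _ => rfl).symm
  · simp only [mem_filter, mem_Icc, Nat.le_div_iff_mul_le hp] at hm ⊢
    exact ⟨⟨Nat.mul_pos hp hm.1, mul_comm m p ▸ hm.2⟩, dvd_mul_right _ _⟩
  · obtain ⟨h1, m, rfl⟩ := mem_filter.1 hk
    simp only [mem_Icc, Nat.le_div_iff_mul_le hp] at h1 ⊢
    exact ⟨m, ⟨Nat.pos_of_mul_pos_left h1.1, mul_comm p m ▸ h1.2⟩, rfl⟩

/-- local factor -/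
noncomputable def cw (q k : ℕ) : ℝ := if q ^ 2 ∣ k then 0 else if q ∣ k then q / (q - 1) else 1

/-- interpolation between the harmonic sum and the sum of the reciprocal totients -/
noncomputable def SP (P : Finset ℕ) (Q : ℕ) : ℝ := ∑ k ∈ Icc 1 Q, (∏ q ∈ P, cw q k) / k

variable {P : Finset ℕ} {p : ℕ}

theorem w_nonneg (hP : ∀ q ∈ P, q.Prime) (k : ℕ) : 0 ≤ (∏ q ∈ P, cw q k) / k := by
  refine div_nonneg (prod_nonneg fun q hq => ?_) k.cast_nonneg
  have : (1 : ℝ) ≤ q := by exact_mod_cast (hP q hq).pos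
  unfold cw
  split_ifs
  exacts [le_rfl, div_nonneg q.cast_nonneg (sub_nonneg.2 this), zero_le_one]

theorem step (hP : ∀ q ∈ P, q.Prime) (hp : p.Prime) (h : p ∉ P) (Q : ℕ) :
    SP (insert p P) Q = SP P Q + (SP P (Q / p) - SP P (Q / p / p)) / (p * (p - 1)) := by
  have p2 : (2 : ℝ) ≤ p := by exact_mod_cast hp.two_le
  have p0 : (p : ℝ) ≠ 0 := by positivity
  have p1 : (p : ℝ) - 1 ≠ 0 := by linarith
  have e : ∀ m, ∏ q ∈ P, cw q (p * m) = ∏ q ∈ P, cw q m := fun m => prod_congr rfl fun q hq => by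
    have : q.Coprime p := (Nat.coprime_primes (hP q hq) hp).2 fun e => h (e ▸ hq)
    simp only [cw, this.dvd_mul_left, (this.pow_left 2).dvd_mul_left]
  have A : ∀ Q, ∑ k ∈ Icc 1 Q with ¬ p ∣ k, (∏ q ∈ P, cw q k) / k = SP P Q - SP P (Q / p) / p :=
    fun Q => by
      rw [SP, split _ hp.pos Q, SP, sum_div, eq_sub_iff_add_eq]
      simp only [e, Nat.cast_mul, div_div, mul_comm]
  have B : SP (insert p P) Q = ∑ k ∈ Icc 1 Q with ¬ p ∣ k, (∏ q ∈ P, cw q k) / k +
      (∑ k ∈ Icc 1 (Q / p) with ¬ p ∣ k, (∏ q ∈ P, cw q k) / k) / (p - 1) := by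
    rw [SP, split _ hp.pos Q, sum_filter (s := Icc 1 (Q / p)), sum_div]
    congr 1 <;> refine sum_congr rfl fun k hk => ?_ <;> rw [prod_insert h]
    · have := (mem_filter.1 hk).2
      rw [cw, if_neg fun a => this ((dvd_pow_self p two_ne_zero).trans a), if_neg this, one_mul]
    · rw [e, cw, if_pos (dvd_mul_right p k), sq, Nat.cast_mul]
      simp only [Nat.mul_dvd_mul_iff_left hp.pos]
      split_ifs
      · simp
      · field_simp
  rw [B, A, A]
  field_simp
  ring

/-- the error made at a prime -/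
noncomputable def er (p : ℕ) : ℝ := (1 + Real.log p) / (p * (p - 1))

theorem harm (Q : ℕ) : Real.log (Q + 1) ≤ SP ∅ Q ∧ SP ∅ Q ≤ 1 + Real.log Q := by
  have h1 := log_add_one_le_harmonic Q
  have h2 := harmonic_le_one_add_log Q
  simp only [harmonic_eq_sum_Icc, Rat.cast_sum, Rat.cast_inv, Rat.cast_natCast] at h1 h2
  simpa [SP] using And.intro h1 h2

theorem sp_le (hP : ∀ q ∈ P, q.Prime) :
    (∀ Q t : ℕ, 1 ≤ t → SP P Q - SP P (Q / t) ≤ Real.exp (∑ q ∈ P, er q) * (1 + Real.log t)) ∧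
      ∀ Q, SP P Q ≤ Real.log Q + Real.exp (∑ q ∈ P, er q) := by
  induction P using Finset.induction_on with
  | empty =>
    refine ⟨fun Q t ht => ?_, fun Q => by simpa [add_comm] using (harm Q).2⟩
    have t0 : (0 : ℝ) < t := by exact_mod_cast ht
    have : Real.log Q ≤ Real.log ((Q / t : ℕ) + 1) + Real.log t := by
      rw [← Real.log_mul (by positivity) t0.ne']
      rcases Q.eq_zero_or_pos with rfl | h
      · simpa using Real.log_natCast_nonneg t
      · refine Real.log_le_log (by exact_mod_cast h) ?_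
        exact_mod_cast (Nat.lt_mul_div_succ Q ht).le.trans_eq (mul_comm _ _)
    rw [sum_empty, Real.exp_zero]
    linarith [(harm Q).2, (harm (Q / t)).1]
  | insert p P h ih =>
    have hp := hP p (mem_insert_self _ _)
    have hP' := fun q hq => hP q (mem_insert_of_mem hq)
    obtain ⟨i1, i2⟩ := ih hP'
    have p2 : (2 : ℝ) ≤ p := by exact_mod_cast hp.two_le
    have d0 : (0 : ℝ) < p * (p - 1) := mul_pos (by linarith) (by linarith)
    have ex := Real.add_one_le_exp (er p)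
    have E0 := Real.exp_pos (∑ q ∈ P, er q)
    simp only [step hP' hp h, sum_insert h, Real.exp_add]
    refine ⟨fun Q t ht => ?_, fun Q => ?_⟩
    · have sw : ∀ Q, Q / t / p = Q / p / t := fun Q => by
        rw [Nat.div_div_eq_div_mul, mul_comm, Nat.div_div_eq_div_mul]
      have l0 : 0 ≤ Real.exp (∑ q ∈ P, er q) * (1 + Real.log t) := by
        have := Real.log_natCast_nonneg t
        positivity
      have a1 : SP P (Q / p / p / t) ≤ SP P (Q / p / p) := sum_le_sum_of_subset_of_nonneg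
        (Icc_subset_Icc_right (Nat.div_le_self _ _)) fun k _ _ => w_nonneg hP' k
      have a2 : (SP P (Q / p) - SP P (Q / p / p) - (SP P (Q / p / t) - SP P (Q / p / p / t))) /
          (p * (p - 1)) ≤ er p * (Real.exp (∑ q ∈ P, er q) * (1 + Real.log t)) := by
        rw [er, div_mul_eq_mul_div]
        refine div_le_div_of_nonneg_right ?_ d0.le
        nlinarith [i1 (Q / p) t ht, Real.log_natCast_nonneg p]
      rw [sw, sw]
      rw [sub_div] at a2
      nlinarith [i1 Q t ht]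
    · have a2 : (SP P (Q / p) - SP P (Q / p / p)) / (p * (p - 1)) ≤
          er p * Real.exp (∑ q ∈ P, er q) := by
        rw [er, div_mul_eq_mul_div, mul_comm (1 + _)]
        exact div_le_div_of_nonneg_right (i1 _ p hp.pos) d0.le
      nlinarith [i2 Q]

theorem er_le (hp : 2 ≤ p) : er p ≤ 4 * (1 / (p : ℝ) ^ (3 / 2 : ℝ)) := by
  have p2 : (2 : ℝ) ≤ p := by exact_mod_cast hp
  have s0 : 0 < √(p : ℝ) := Real.sqrt_pos.2 (by linarith)
  have s1 := Real.mul_self_sqrt (show (0 : ℝ) ≤ p by linarith)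
  have a1 : 1 + Real.log p ≤ 2 * √p := by
    linarith [Real.log_le_sub_one_of_pos s0, Real.log_sqrt (show (0 : ℝ) ≤ p by linarith)]
  rw [show (3 / 2 : ℝ) = 1 + 1 / 2 by norm_num, Real.rpow_add (by linarith), Real.rpow_one,
    ← Real.sqrt_eq_rpow, er, mul_one_div,
    div_le_div_iff₀ (mul_pos (by linarith) (by linarith)) (by positivity)]
  nlinarith [mul_le_mul_of_nonneg_right a1 (show 0 ≤ p * √(p : ℝ) by positivity)]

theorem gg_one : ∃ C : ℝ, ∀ Q, GG 1 Q ≤ Real.log Q + C := by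
  have sm := (Real.summable_one_div_nat_rpow.2 (show (1 : ℝ) < 3 / 2 by norm_num)).mul_left 4
  refine ⟨Real.exp (∑' n : ℕ, 4 * (1 / (n : ℝ) ^ (3 / 2 : ℝ))), fun Q => ?_⟩
  have hP : ∀ q ∈ (Icc 1 Q).filter Nat.Prime, q.Prime := fun q hq => (mem_filter.1 hq).2
  refine le_trans ?_ (((sp_le hP).2 Q).trans (add_le_add_right (Real.exp_le_exp.2 ((sum_le_sum
    fun q hq => er_le (hP q hq).two_le).trans (sm.sum_le_tsum _ fun _ _ => by positivity))) _))
  refine (sum_congr rfl fun k hk => ?_).trans_le (sum_le_sum_of_subset_of_nonneg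
    (filter_subset _ _) fun k _ _ => w_nonneg hP k)
  obtain ⟨h1, h2, -⟩ := mem_filter.1 hk
  obtain ⟨k1, k2⟩ := mem_Icc.1 h1
  rw [tot_eq, mul_inv, ← prod_inv_distrib, div_eq_inv_mul]
  congr 1
  refine (prod_congr rfl fun q hq => ?_).trans (prod_subset (fun q hq => mem_filter.2
    ⟨mem_Icc.2 ⟨(Nat.prime_of_mem_primeFactors hq).pos, (Nat.le_of_mem_primeFactors hq).trans k2⟩,
      Nat.prime_of_mem_primeFactors hq⟩) fun q hq hn => ?_)
  · have q1 := Nat.prime_of_mem_primeFactors hq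
    have : (q : ℝ) ≠ 0 := by exact_mod_cast q1.ne_zero
    rw [cw, if_neg (sq q ▸ Nat.squarefree_iff_prime_squarefree.1 h2 q q1),
      if_pos (Nat.dvd_of_mem_primeFactors hq)]
    field_simp
  · have : ¬ q ∣ k := fun a => hn (Nat.mem_primeFactors.2 ⟨hP q hq, a, by omega⟩)
    rw [cw, if_neg fun a => this ((dvd_pow_self q two_ne_zero).trans a), if_neg this]

theorem gg_step {r : ℕ} (hp : p.Prime) (h : ¬ p ∣ r) (Q : ℕ) :
    GG (p * r) Q + GG (p * r) Q / (p - 1) ≤ GG r (p * Q) := by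
  have p2 : (2 : ℝ) ≤ p := by exact_mod_cast hp.two_le
  conv_rhs => rw [GG, SS, sum_filter, split _ hp.pos, Nat.mul_div_cancel_left _ hp.pos]
  refine add_le_add ?_ ?_
  · refine (sum_congr rfl fun k hk => ?_).trans_le (sum_le_sum_of_subset_of_nonneg
      (fun k hk => ?_) fun k _ _ => by positivity) <;> obtain ⟨h1, h2, h3⟩ := mem_filter.1 hk
    · rw [if_pos ⟨h2, h3.coprime_mul_left_right⟩]
    · exact mem_filter.2 ⟨Icc_subset_Icc_right (Nat.le_mul_of_pos_left _ hp.pos) h1,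
        hp.coprime_iff_not_dvd.1 h3.coprime_mul_right_right.symm⟩
  · rw [GG, SS, sum_filter, sum_div]
    refine sum_le_sum fun k _ => ?_
    by_cases a : Squarefree k ∧ k.Coprime (p * r)
    · have c := a.2.coprime_mul_right_right.symm
      rw [if_pos a, if_pos ⟨(Nat.squarefree_mul c).2 ⟨hp.squarefree, a.1⟩,
        (hp.coprime_iff_not_dvd.2 h).mul_left a.2.coprime_mul_left_right⟩, Nat.totient_mul c,
        Nat.totient_prime hp, Nat.cast_mul, Nat.cast_pred hp.pos, mul_inv, div_eq_inv_mul]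
    · rw [if_neg a, zero_div]
      positivity

theorem gg_up (r : ℕ) : r ≠ 0 → ∃ C : ℝ, ∀ Q, 1 ≤ Q → GG r Q ≤ r.totient / r * Real.log Q + C := by
  induction r using induction_on_primes with
  | zero => simp
  | one => exact fun _ => gg_one.imp fun C h Q _ => by simpa using h Q
  | prime_mul p r hp ih =>
    intro h0
    have r0 : r ≠ 0 := right_ne_zero_of_mul h0
    obtain ⟨C, hC⟩ := ih r0
    have p2 : (2 : ℝ) ≤ p := by exact_mod_cast hp.two_le
    have p0 : (p : ℝ) ≠ 0 := by positivity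
    by_cases h : p ∣ r
    · refine ⟨C, fun Q hQ => ?_⟩
      rw [Nat.totient_mul_of_prime_of_dvd hp h, Nat.cast_mul, Nat.cast_mul,
        mul_div_mul_left _ _ p0]
      refine le_trans (sum_le_sum_of_subset_of_nonneg (monotone_filter_right _ fun k _ a =>
        ⟨a.1, a.2.coprime_mul_left_right⟩) fun _ _ _ => by positivity) (hC Q hQ)
    · refine ⟨(p - 1) / p * (r.totient / r * Real.log p + C), fun Q hQ => ?_⟩
      have a := (gg_step hp h Q).trans (hC _ (Nat.mul_pos hp.pos hQ))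
      have p1 : (0 : ℝ) < p - 1 := by linarith
      rw [Nat.cast_mul, Real.log_mul p0 (by positivity)] at a
      rw [Nat.totient_mul_of_prime_of_not_dvd hp h, Nat.cast_mul, Nat.cast_mul,
        Nat.cast_pred hp.pos]
      calc _ = (p - 1) / p * (GG (p * r) Q + GG (p * r) Q / (p - 1)) := by field_simp; ring
        _ ≤ (p - 1) / p * _ := mul_le_mul_of_nonneg_left a (by positivity)
        _ = _ := by ring

theorem abel {a : ℕ → ℝ} {V C : ℝ} (V0 : 0 ≤ V) (C0 : 0 ≤ C)
    (h : ∀ Q, 1 ≤ Q → ∑ k ∈ Icc 1 Q, a k ≤ V * Real.log Q + C) (Q : ℕ) : ∀ y : ℝ, 1 ≤ y → Q ≤ y →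
      ∑ k ∈ Icc 1 Q, Real.log (y / k) * a k ≤ V * Real.log y ^ 2 / 2 + C * Real.log y := by
  induction Q with
  | zero =>
    intro y hy _
    have := Real.log_nonneg hy
    rw [Icc_eq_empty (by norm_num), sum_empty]
    positivity
  | succ Q ih =>
    intro y hy hQ
    have q0 : (0 : ℝ) < (Q + 1 : ℕ) := by positivity
    have a1 := ih (Q + 1 : ℕ) (by simp) (by simp)
    have a2 := h (Q + 1) (by omega)
    have a3 := sub_nonneg.2 (Real.log_le_log q0 hQ)
    have e : ∑ k ∈ Icc 1 (Q + 1), Real.log (y / k) * a k =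
        ∑ k ∈ Icc 1 (Q + 1), Real.log ((Q + 1 : ℕ) / k) * a k +
          (Real.log y - Real.log (Q + 1 : ℕ)) * ∑ k ∈ Icc 1 (Q + 1), a k := by
      rw [mul_sum, ← sum_add_distrib]
      refine sum_congr rfl fun k hk => ?_
      have : (k : ℝ) ≠ 0 := Nat.cast_ne_zero.2 (by linarith [(mem_Icc.1 hk).1])
      rw [Real.log_div (by linarith) this, Real.log_div q0.ne' this]
      ring
    rw [e, sum_Icc_succ_top (by omega), div_self q0.ne', Real.log_one, zero_mul, add_zero]
    nlinarith [mul_le_mul_of_nonneg_left a2 a3, mul_nonneg V0 (mul_self_nonneg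
      (Real.log y - Real.log (Q + 1 : ℕ)))]

end M2A

theorem m2 : M2S := by
  intro r hr
  obtain ⟨C, hC⟩ := M2A.gg_up r (by omega)
  have r0 : (0 : ℝ) < r := by exact_mod_cast hr
  have V0 : (0 : ℝ) ≤ r.totient / r := by positivity
  refine ⟨max C 1, le_max_right _ _, fun y hy => ⟨?_, ?_⟩⟩
  · have q1 : 1 ≤ ⌊y⌋₊ := Nat.le_floor (by simpa using hy)
    have a1 := hC _ q1
    have a2 := mul_le_mul_of_nonneg_left
      (Real.log_le_log (by exact_mod_cast q1) (Nat.floor_le (by linarith : 0 ≤ y))) V0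
    have a3 := mul_le_mul_of_nonneg_left
      (Real.log_le_log (by linarith) (Nat.lt_floor_add_one y).le) V0
    have a4 := gg_low hr ⌊y⌋₊
    rw [mul_comm (r : ℝ), ← div_le_iff₀ r0, ← div_mul_eq_mul_div] at a4
    simp only [one_div]
    change |GG r ⌊y⌋₊ - _| ≤ _
    rw [abs_le]
    constructor <;> linarith [le_max_left C 1, le_max_right C 1]
  · have := M2A.abel (a := fun k => if Squarefree k ∧ k.Coprime r then (k.totient : ℝ)⁻¹ else 0)
      V0 (zero_le_one.trans (le_max_right C 1)) (fun Q hQ => by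
        rw [← sum_filter]
        exact (hC Q hQ).trans (add_le_add_right (le_max_left _ _) _)) ⌊y⌋₊ y hy
      (Nat.floor_le (by linarith))
    simpa only [Gq, sum_filter, mul_ite, mul_zero, div_eq_mul_inv] using this

end Pool.Agent.MP_20b2fd_nt.H38
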