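import Pool.Agent.MP_20b2fd_nt.H38.SpecN

/-! Second moments of sums over squares, and the fourth moment of one eigenvalue. -/

set_option autoImplicit false

namespace Pool.Agent.MP_20b2fd_nt.H38

open Finset

namespace Nl2A

theorem mink {ι : Type} (s : Finset ι) {ω u v : ι → ℝ} (hω : ∀ f, 0 ≤ ω f) {A B : ℝ} (hA : 0 ≤ A)
    (hB : 0 ≤ B) (hu : ∑ f ∈ s, ω f * u f ^ 2 ≤ A ^ 2) (hv : ∑ f ∈ s, ω f * v f ^ 2 ≤ B ^ 2) :
    ∑ f ∈ s, ω f * (u f + v f) ^ 2 ≤ (A + B) ^ 2 := by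
  have h1 := sum_sq_le_sum_mul_sum_of_sq_le_mul s (r := fun f => ω f * (u f * v f))
    (f := fun f => ω f * u f ^ 2) (g := fun f => ω f * v f ^ 2)
    (fun f _ => mul_nonneg (hω f) (sq_nonneg _)) (fun f _ => mul_nonneg (hω f) (sq_nonneg _))
    fun f _ => le_of_eq (by ring)
  have h2 : ∑ f ∈ s, ω f * (u f * v f) ≤ A * B := by
    refine abs_le_of_sq_le_sq' (h1.trans ?_) (mul_nonneg hA hB) |>.2
    rw [mul_pow]
    exact mul_le_mul hu hv (sum_nonneg fun f _ => mul_nonneg (hω f) (sq_nonneg _)) (sq_nonneg _)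
  have h3 : ∑ f ∈ s, ω f * (u f + v f) ^ 2 = ∑ f ∈ s, ω f * u f ^ 2 +
      2 * ∑ f ∈ s, ω f * (u f * v f) + ∑ f ∈ s, ω f * v f ^ 2 := by
    rw [mul_sum, ← sum_add_distrib, ← sum_add_distrib]
    exact sum_congr rfl fun f _ => by ring
  nlinarith

/-- the potential -/
noncomputable def pot (N M K : ℕ) : ℝ := 4 / √K + 3 * ((√(2 * M) - √K) / √N)

theorem pot_nonneg (N : ℕ) {M K : ℕ} (h : K ≤ 2 * M) : 0 ≤ pot N M K := by
  have : √K ≤ √(2 * M) := Real.sqrt_le_sqrt (by exact_mod_cast h)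
  have : 0 ≤ √(2 * M) - √K := by linarith
  unfold pot
  positivity

theorem pot_step (N M : ℕ) {K : ℕ} (hK : 1 ≤ K) :
    1 / √K + √K / √N + pot N M (2 * K) ≤ pot N M K := by
  have h1 : 0 < √K := Real.sqrt_pos.2 (by exact_mod_cast hK)
  have h2 : 4 / 3 * √K ≤ √((2 * K : ℕ) : ℝ) := by
    refine Real.le_sqrt_of_sq_le ?_
    rw [mul_pow, Real.sq_sqrt (Nat.cast_nonneg K)]
    push_cast
    linarith [(Nat.cast_nonneg K : (0 : ℝ) ≤ K)]
  have h3 : 4 / √((2 * K : ℕ) : ℝ) ≤ 3 * (1 / √K) := by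
    rw [mul_one_div, div_le_div_iff₀ (by linarith) h1]
    linarith
  have h4 : √K / √N + 3 * ((√(2 * M) - √((2 * K : ℕ) : ℝ)) / √N) ≤ 3 * ((√(2 * M) - √K) / √N) := by
    rw [← mul_div_assoc, ← mul_div_assoc, ← add_div]
    exact div_le_div_of_nonneg_right (by linarith) (Real.sqrt_nonneg _)
  have h5 : 4 / √K = 4 * (1 / √K) := by ring
  unfold pot
  linarith

theorem tail {N M : ℕ} {S : Sp} {C H : ℝ} (hC : 1 ≤ C) (hS : S.Ok N C) (hM : 4 * M < N)
    {b : ℕ → ℝ} (h1 : ∀ d, M < d → b d = 0) (h2 : ∀ d : ℕ, b d ^ 2 ≤ H ^ 2 / (d : ℝ) ^ 2) (j : ℕ) :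
    ∀ K, 1 ≤ K → K ≤ 2 * M → M < K + j →
      ∑ f, S.ω f * (∑ d ∈ Ico K (2 * M), b d * S.a f (d ^ 2) / d) ^ 2 ≤
        (√C * |H| * pot N M K) ^ 2 := by
  have hz : ∀ K, M < K → ∑ f, S.ω f * (∑ d ∈ Ico K (2 * M), b d * S.a f (d ^ 2) / d) ^ 2 ≤
      (√C * |H| * pot N M K) ^ 2 := fun K hK => by
    refine (sum_eq_zero fun f _ => ?_).trans_le (sq_nonneg _)
    rw [sum_eq_zero fun d hd => by rw [h1 d (hK.trans_le (mem_Ico.1 hd).1), zero_mul, zero_div]]
    simp
  induction j with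
  | zero => exact fun K _ _ h => hz K h
  | succ j ih =>
    intro K k1 k2 k3
    rcases lt_or_ge M K with h | h
    · exact hz K h
    have K0 : (0 : ℝ) < K := by exact_mod_cast k1
    have N0 : (0 : ℝ) < N := by exact_mod_cast (by omega : 0 < N)
    have a1 : ∑ k ∈ Ico K (2 * K), b k ^ 2 ≤ H ^ 2 / K := by
      refine (sum_le_card_nsmul _ _ (H ^ 2 / (K : ℝ) ^ 2) fun k hk => (h2 k).trans ?_).trans ?_
      · have : (K : ℝ) ≤ k := by exact_mod_cast (mem_Ico.1 hk).1
        gcongr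
      · rw [Nat.card_Ico, show 2 * K - K = K by omega, nsmul_eq_mul]
        exact le_of_eq (by field_simp)
    have a2 : ∑ f, S.ω f * (∑ k ∈ Ico K (2 * K), b k * S.a f (k ^ 2) / k) ^ 2 ≤
        (√C * |H| * (1 / √K + √K / √N)) ^ 2 := by
      refine (hS.ls K b k1 (by omega)).trans ?_
      rw [mul_pow, mul_pow, Real.sq_sqrt (by linarith), sq_abs, add_sq, div_pow, div_pow,
        Real.sq_sqrt K0.le, Real.sq_sqrt N0.le]
      have e : C * (1 + (K : ℝ) ^ 2 / N) * (H ^ 2 / K) = C * H ^ 2 * (1 ^ 2 / K + K / N) := by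
        field_simp
      have : 0 ≤ C * H ^ 2 * (2 * (1 / √K) * (√K / √N)) := by positivity
      calc _ ≤ C * (1 + (K : ℝ) ^ 2 / N) * (H ^ 2 / K) := by gcongr
        _ ≤ _ := by rw [e]; linarith
    have a3 := mink univ (fun f => (hS.pos f).le) (by positivity)
      (mul_nonneg (by positivity) (pot_nonneg N (by omega))) a2
      (ih (2 * K) (by omega) (by omega) (by omega))
    simp only [sum_Ico_consecutive _ (by omega : K ≤ 2 * K) (by omega : 2 * K ≤ 2 * M)] at a3
    refine a3.trans (pow_le_pow_left₀ ?_ ?_ 2)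
    · have := pot_nonneg N (by omega : 2 * K ≤ 2 * M)
      positivity
    · rw [← mul_add]
      exact mul_le_mul_of_nonneg_left (pot_step N M k1) (by positivity)

theorem main_le {d e : ℕ} (hd : 1 ≤ d) (he : 1 ≤ e) :
    ∑ g ∈ ((d ^ 2).gcd (e ^ 2)).divisors, (g : ℝ) * (if d ^ 2 * e ^ 2 / g ^ 2 = 1 then 1 else 0) ≤
      if d = e then (d : ℝ) * e else 0 := by
  have h : ∀ g ∈ ((d ^ 2).gcd (e ^ 2)).divisors, d ^ 2 * e ^ 2 / g ^ 2 = 1 → g = d * e ∧ d = e := by
    intro g hg h1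
    obtain ⟨g1, g2⟩ := Nat.dvd_gcd_iff.1 (Nat.dvd_of_mem_divisors hg)
    have h2 : g ^ 2 ∣ d ^ 2 * e ^ 2 := by rw [sq]; exact mul_dvd_mul g1 g2
    have h3 : g = d * e := by
      refine (Nat.pow_left_injective two_ne_zero ?_).symm
      simpa [mul_pow] using Nat.eq_mul_of_div_eq_right h2 h1
    subst h3
    rw [sq] at g1 g2
    exact ⟨rfl, Nat.dvd_antisymm (Nat.dvd_of_mul_dvd_mul_right he g2)
      (Nat.dvd_of_mul_dvd_mul_left hd g1)⟩
  refine (sum_le_sum (g := fun g => if g = d * e then (if d = e then (d : ℝ) * e else 0) else 0)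
    fun g hg => ?_).trans ?_
  · by_cases h1 : d ^ 2 * e ^ 2 / g ^ 2 = 1
    · obtain ⟨h2, h3⟩ := h g hg h1
      rw [if_pos h1, if_pos h2, if_pos h3, h2]
      simp
    · rw [if_neg h1, mul_zero]
      positivity
  · rw [sum_ite_eq']
    split_ifs
    · exact le_rfl
    · exact le_rfl
    · positivity
    · exact le_rfl

end Nl2A

open Nl2A in
theorem nl2 : Nl2S := by
  intro C hC
  refine ⟨⟨36 * C, by linarith, fun N M S P H c hS hP hM hc => ?_⟩, fun n hn => ?_⟩
  · set K := ⌊P⌋₊ + 1 with hK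
    have hPK : P < K := by rw [hK]; push_cast; exact Nat.lt_floor_add_one P
    have hd : ∀ d ∈ Icc 1 M, c d ≠ 0 → K ≤ d := fun d h1 h2 =>
      (Nat.floor_lt (by linarith)).2 (hc d h1 h2).1
    have N0 : (0 : ℝ) < N := by exact_mod_cast (by omega : 0 < N)
    rcases lt_or_ge M K with h | h
    · refine (sum_eq_zero fun f _ => ?_).trans_le (by positivity)
      rw [sum_eq_zero fun d h1 => by
        rw [not_not.1 fun h2 => (h.trans_le (hd d h1 h2)).not_ge (mem_Icc.1 h1).2, zero_mul,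
          zero_div]]
      simp
    have h1 := tail hC hS hM (b := fun d => if d ∈ Icc 1 M then c d else 0) (H := H)
      (fun d h => if_neg fun h' => h.not_ge (mem_Icc.1 h').2) (fun d => by
        by_cases h2 : d ∈ Icc 1 M ∧ c d ≠ 0
        · rw [if_pos h2.1, ← div_pow, ← sq_abs]
          exact pow_le_pow_left₀ (abs_nonneg _) (hc d h2.1 h2.2).2 2
        · have : (if d ∈ Icc 1 M then c d else 0) = 0 := by
            split_ifs with h3
            · exact not_not.1 fun h4 => h2 ⟨h3, h4⟩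
            · rfl
          rw [this, zero_pow two_ne_zero]
          positivity) M K (by omega) (by omega) (by omega)
    have h2 : ∀ f, ∑ d ∈ Icc 1 M, c d * S.a f (d ^ 2) / d = ∑ d ∈ Ico K (2 * M),
        (if d ∈ Icc 1 M then c d else 0) * S.a f (d ^ 2) / d := fun f => by
      rw [← sum_subset (s₁ := Icc K M) (Icc_subset_Icc_left (by omega)) fun d a b => by
          rw [not_not.1 fun h2 => b (mem_Icc.2 ⟨hd d a h2, (mem_Icc.1 a).2⟩), zero_mul, zero_div],
        ← sum_subset (s₁ := Icc K M) (s₂ := Ico K (2 * M))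
          (fun d a => by simp only [mem_Icc, mem_Ico] at a ⊢; omega) fun d a b => by
          rw [if_neg (by simp only [mem_Icc, mem_Ico] at a b ⊢; omega), zero_mul, zero_div]]
      exact sum_congr rfl fun d a => by rw [if_pos (by simp only [mem_Icc] at a ⊢; omega)]
    simp only [h2]
    refine h1.trans ?_
    have K0 : (0 : ℝ) < K := by linarith
    have h3 : pot N M K ≤ 4 / √K + 3 * (√(2 * M) / √N) := by
      unfold pot
      gcongr
      linarith [Real.sqrt_nonneg K]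
    have h4 : (4 / √K + 3 * (√(2 * M) / √N)) ^ 2 ≤ 36 * (1 / P + M / N) := by
      have e1 : (4 / √K) ^ 2 = 16 * (1 / K) := by rw [div_pow, Real.sq_sqrt K0.le]; ring
      have e2 : (3 * (√(2 * M) / √N)) ^ 2 = 18 * (M / N) := by
        rw [mul_pow, div_pow, Real.sq_sqrt N0.le, Real.sq_sqrt (by positivity)]; ring
      have e3 : (1 : ℝ) / K ≤ 1 / P := one_div_le_one_div_of_le (by linarith) hPK.le
      have e4 : (0 : ℝ) ≤ 1 / K := by positivity
      nlinarith [sq_nonneg (4 / √K - 3 * (√(2 * M) / √N))]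
    have h5 := (pow_le_pow_left₀ (pot_nonneg N (by omega)) h3 2).trans h4
    rw [mul_pow, mul_pow, Real.sq_sqrt (by linarith), sq_abs]
    calc _ ≤ C * H ^ 2 * (36 * (1 / P + M / N)) := by gcongr
      _ = _ := by ring
  · set K : ℝ := ∑ d ∈ n.divisors, ∑ e ∈ n.divisors, (∑ g ∈ ((d ^ 2).gcd (e ^ 2)).divisors,
      (g : ℝ) * (C * ((d ^ 2 * e ^ 2 / g ^ 2 : ℕ) : ℝ))) / (d * e) with hK
    refine ⟨max (n + 1) ⌈K⌉₊, fun N S hN hp hS => ?_⟩
    obtain ⟨n1, n2⟩ := max_le_iff.1 hN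
    have hco : ∀ e ∈ n.divisors, e.Coprime N := fun e he =>
      (Nat.coprime_of_lt_prime (Nat.pos_of_mem_divisors he).ne'
        ((Nat.divisor_le he).trans_lt n1) hp).symm
    have N1 : (1 : ℝ) ≤ N := by exact_mod_cast hp.one_le
    have h1 : ∀ f, S.a f n ^ 2 / n = ∑ e ∈ n.divisors, S.a f (e ^ 2) / e := fun f => by
      rw [sq, hS.hk f n n hn hn (hco n (Nat.mem_divisors_self n (by omega))), Bh, Nat.gcd_self,
        sum_div, ← Nat.sum_div_divisors n fun e => S.a f (e ^ 2) / e]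
      refine sum_congr rfl fun d hd => ?_
      have d0 := Nat.pos_of_mem_divisors hd
      obtain ⟨k, rfl⟩ := Nat.dvd_of_mem_divisors hd
      rw [Nat.mul_div_cancel_left _ d0, show d * k * (d * k) = d ^ 2 * k ^ 2 by ring,
        Nat.mul_div_cancel_left _ (by positivity), Nat.cast_mul,
        mul_div_mul_left _ _ (by positivity)]
    have h2 : ∑ f, S.ω f * (S.a f n ^ 2 / n) ^ 2 = ∑ d ∈ n.divisors, ∑ e ∈ n.divisors,
        (∑ g ∈ ((d ^ 2).gcd (e ^ 2)).divisors,
          (g : ℝ) * ∑ f, S.ω f * S.a f (d ^ 2 * e ^ 2 / g ^ 2)) / (d * e) := by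
      simp only [h1, sq (∑ e ∈ n.divisors, _), sum_mul_sum]
      simp only [mul_sum]
      rw [sum_comm]
      refine sum_congr rfl fun d hd => ?_
      rw [sum_comm]
      refine sum_congr rfl fun e he => ?_
      rw [sum_comm, sum_div]
      refine sum_congr rfl fun f _ => ?_
      have d0 := Nat.pos_of_mem_divisors hd
      have e0 := Nat.pos_of_mem_divisors he
      rw [div_mul_div_comm, hS.hk f _ _ (Nat.pow_pos d0) (Nat.pow_pos e0) ((hco e he).pow_left 2),
        Bh, ← mul_div_assoc, mul_sum]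
      congr 1
      exact sum_congr rfl fun g _ => by ring
    have h3 : (N : ℝ) ^ (-5 / 4 : ℝ) ≤ 1 / N := by
      rw [one_div, ← Real.rpow_neg_one]
      exact Real.rpow_le_rpow_of_exponent_le N1 (by norm_num)
    have h4 : K * (1 / N) ≤ 1 := by
      rw [mul_one_div, div_le_one (by linarith)]
      exact Nat.ceil_le.1 n2
    have h5 : (1 : ℝ) ≤ tau n := by
      rw [tau]
      exact_mod_cast card_pos.2 ⟨n, Nat.mem_divisors_self n (by omega)⟩
    have h6 : ∑ d ∈ n.divisors, ∑ e ∈ n.divisors, (if d = e then (1 : ℝ) else 0) = tau n := by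
      rw [sum_congr rfl fun d hd => by rw [sum_ite_eq, if_pos hd]]
      simp [tau]
    rw [h2]
    refine le_trans ?_ (show tau n + K * (1 / N) ≤ _ by linarith)
    rw [← h6, hK, sum_mul, ← sum_add_distrib]
    refine sum_le_sum fun d hd => ?_
    rw [sum_mul, ← sum_add_distrib]
    refine sum_le_sum fun e he => ?_
    have d0 := Nat.pos_of_mem_divisors hd
    have e0 := Nat.pos_of_mem_divisors he
    have de : (0 : ℝ) < d * e := by positivity
    have h7 : (if d = e then (1 : ℝ) else 0) = (if d = e then (d : ℝ) * e else 0) / (d * e) := by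
      split_ifs
      · exact (div_self de.ne').symm
      · simp
    rw [h7, div_mul_eq_mul_div, ← add_div]
    refine div_le_div_of_nonneg_right (le_trans ?_ (add_le_add_left (main_le d0 e0) _)) de.le
    rw [sum_mul, ← sum_add_distrib]
    refine sum_le_sum fun g hg => ?_
    obtain ⟨g1, g2⟩ := Nat.dvd_gcd_iff.1 (Nat.dvd_of_mem_divisors hg)
    have h8 : 1 ≤ d ^ 2 * e ^ 2 / g ^ 2 := Nat.div_pos (Nat.le_of_dvd (by positivity)
      (by rw [sq g]; exact mul_dvd_mul g1 g2)) (Nat.pow_pos (Nat.pos_of_mem_divisors hg))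
    have h9 := (abs_le.1 ((hS.pet _ h8).1.trans
      (mul_le_mul_of_nonneg_left h3 (by positivity)))).2
    rw [mul_assoc, ← mul_add]
    exact mul_le_mul_of_nonneg_left (by linarith) (Nat.cast_nonneg g)

end Pool.Agent.MP_20b2fd_nt.H38
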