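import Pool.Agent.MP_20b2fd_nt.H38.SpecA

/-! Row Pb: one column of the Poincare series. -/

set_option autoImplicit false

namespace Pool.Agent.MP_20b2fd_nt.H38

open UpperHalfPlane hiding I
open MeasureTheory Complex Finset Filter Topology
open scoped ModularForm Real Manifold ENNReal

namespace PbA

lemma norm_ee (x : ℂ) : ‖ee x‖ = Real.exp (-(2 * π * x.im)) := by
  unfold ee
  rw [Complex.norm_exp]
  congr 1
  simp

lemma ee_add (x y : ℂ) : ee (x + y) = ee x * ee y := by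
  unfold ee
  rw [mul_add, Complex.exp_add]

lemma ee_int (m : ℤ) : ee m = 1 := by
  unfold ee
  rw [mul_comm]
  exact Complex.exp_int_mul_two_pi_mul_I m

lemma norm_ec (c : ℕ) (x : ZMod c) : ‖ec c x‖ = 1 := by
  unfold ec
  rw [norm_ee]
  have : ((x.val : ℂ) / c).im = 0 := by
    have : ((x.val : ℂ) / c) = (((x.val : ℝ) / c : ℝ) : ℂ) := by push_cast; rfl
    rw [this, ofReal_im]
  rw [this]; simp

lemma ec_int {c : ℕ} (hc : 1 ≤ c) (m : ℤ) : ec c (m : ZMod c) = ee (m / c) := by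
  have : NeZero c := ⟨by omega⟩
  unfold ec
  have h1 : (((m : ZMod c).val : ℕ) : ℤ) = m % c := ZMod.val_intCast m
  have h2 : (c : ℤ) * (m / c) + m % c = m := Int.mul_ediv_add_emod m c
  have hc0 : (c : ℂ) ≠ 0 := by exact_mod_cast (by omega : c ≠ 0)
  have h3 : (m : ℂ) / c = (((m : ZMod c).val : ℕ) : ℂ) / c + ((m / c : ℤ) : ℂ) := by
    have h4 : (m : ℂ) = c * ((m / c : ℤ) : ℂ) + (((m : ZMod c).val : ℕ) : ℂ) := by
      have : m = (c : ℤ) * (m / c) + (((m : ZMod c).val : ℕ) : ℤ) := by rw [h1, h2]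
      exact_mod_cast congrArg (fun t : ℤ => (t : ℂ)) this
    field_simp
    linear_combination h4
  rw [h3, ee_add, ee_int, mul_one]

lemma ec_add {c : ℕ} (hc : 1 ≤ c) (a : ZMod c) (m : ℤ) :
    ec c (a + (m : ZMod c)) = ec c a * ee (m / c) := by
  have : NeZero c := ⟨by omega⟩
  obtain ⟨b, rfl⟩ := ZMod.intCast_surjective a
  rw [← Int.cast_add, ec_int hc, ec_int hc, ← ee_add]
  congr 1
  push_cast
  ring

/-- the analytic factor -/
noncomputable def G (κ : ℝ) (c : ℕ) (u : ℂ) : ℂ := (u ^ 2)⁻¹ * ee (-(κ / (c * u)))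

lemma norm_G (κ : ℝ) {c : ℕ} (hc : 1 ≤ c) (u : ℂ) (hu : u ≠ 0) :
    ‖G κ c u‖ = (‖u‖ ^ 2)⁻¹ * Real.exp (-(2 * π * κ * (u.im / c) / ‖u‖ ^ 2)) := by
  have hc0 : (c : ℝ) ≠ 0 := by exact_mod_cast (by omega : c ≠ 0)
  unfold G
  rw [norm_mul, norm_inv, norm_pow, norm_ee]
  congr 3
  have h1 : (-((κ : ℂ) / (c * u))) = ((-(κ / c) : ℝ) : ℂ) * u⁻¹ := by
    push_cast
    have : (c : ℂ) ≠ 0 := by exact_mod_cast hc0
    field_simp
  rw [h1, im_ofReal_mul, inv_im, Complex.normSq_eq_norm_sq]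
  ring

lemma norm_G_le {κ : ℝ} (hκ : 0 ≤ κ) {c : ℕ} (hc : 1 ≤ c) (u : ℂ) (hu : 0 < u.im) :
    ‖G κ c u‖ ≤ (‖u‖ ^ 2 + 2 * π * κ * (u.im / c))⁻¹ := by
  have hu0 : u ≠ 0 := by rintro rfl; simp at hu
  have hc0 : (0 : ℝ) < c := by exact_mod_cast (by omega : 0 < c)
  have hn : 0 < ‖u‖ ^ 2 := by positivity
  rw [norm_G κ hc u hu0]
  set t := 2 * π * κ * (u.im / c) with ht
  have ht0 : 0 ≤ t := by positivity
  have h1 : Real.exp (-(t / ‖u‖ ^ 2)) ≤ (1 + t / ‖u‖ ^ 2)⁻¹ := by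
    rw [Real.exp_neg]
    apply inv_anti₀ (by positivity)
    linarith [Real.add_one_le_exp (t / ‖u‖ ^ 2)]
  calc (‖u‖ ^ 2)⁻¹ * Real.exp (-(t / ‖u‖ ^ 2)) ≤ (‖u‖ ^ 2)⁻¹ * (1 + t / ‖u‖ ^ 2)⁻¹ := by gcongr
    _ = (‖u‖ ^ 2 + t)⁻¹ := by field_simp

lemma summ : Summable fun d : ℤ => (1 + (d : ℝ) ^ 2)⁻¹ := by
  refine Summable.of_norm_bounded_eventually
    (Real.summable_one_div_int_pow.2 (by norm_num : 1 < 2)) ?_
  filter_upwards [eventually_cofinite_ne 0] with d hd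
  have : (0 : ℝ) < (d : ℝ) ^ 2 := by positivity
  rw [Real.norm_of_nonneg (by positivity), one_div]
  exact inv_anti₀ this (by linarith)

lemma box {R ε : ℝ} (hε : 0 < ε) (w : ℂ) (h1 : |w.re| ≤ R) (h2 : ε ≤ w.im) (d : ℤ) :
    (‖w + d‖ ^ 2)⁻¹ ≤ (2 + (1 + 2 * R ^ 2) / ε ^ 2) * (1 + (d : ℝ) ^ 2)⁻¹ := by
  have hn : ‖w + d‖ ^ 2 = (w.re + d) ^ 2 + w.im ^ 2 := by
    rw [← Complex.normSq_eq_norm_sq, Complex.normSq_apply]; simp; ring
  have h3 : ε ^ 2 ≤ w.im ^ 2 := by gcongr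
  have h4 : w.re ^ 2 ≤ R ^ 2 := by rw [← sq_abs]; gcongr
  have hp : 0 < ‖w + d‖ ^ 2 := by rw [hn]; nlinarith [sq_nonneg (w.re + d), pow_pos hε 2]
  rw [← div_eq_mul_inv, le_div_iff₀ (by positivity), inv_mul_le_iff₀ hp, hn]
  have h5 : (1 + 2 * R ^ 2) / ε ^ 2 * ε ^ 2 = 1 + 2 * R ^ 2 := by field_simp
  have h6 : 0 ≤ (1 + 2 * R ^ 2) / ε ^ 2 := by positivity
  nlinarith [sq_nonneg (2 * w.re + d), mul_nonneg h6 (sq_nonneg (w.re + d)),
    mul_le_mul_of_nonneg_left h3 h6, sq_nonneg w.im]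

open Classical in
/-- the terms without the damping factor -/
noncomputable def q (κ : ℝ) (A : ℤ) (c : ℕ) (w : ℂ) (d : ℤ) : ℂ :=
  if IsCoprime d (c : ℤ) then ec c (A * (d : ZMod c)⁻¹) * G κ c (c * w + d) else 0

lemma pw_eq (κ ι : ℝ) (A : ℤ) (c : ℕ) (z : ℍ) (d : ℤ) :
    pw κ ι A c z d = q κ A c z d * Real.exp (-ι * ‖(c : ℂ) * z + d‖ ^ 2 / z.im) := by
  unfold pw q G
  split_ifs
  · ring
  · simp

lemma pw_zero (κ : ℝ) (A : ℤ) (c : ℕ) (z : ℍ) (d : ℤ) : pw κ 0 A c z d = q κ A c z d := by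
  rw [pw_eq]; simp

lemma norm_q {κ : ℝ} (hκ : 0 ≤ κ) (A : ℤ) {c : ℕ} (hc : 1 ≤ c) {R ε : ℝ} (hε : 0 < ε) (w : ℂ)
    (h1 : |w.re| ≤ R) (h2 : ε ≤ w.im) (d : ℤ) :
    ‖q κ A c w d‖ ≤ (2 + (1 + 2 * (c * R) ^ 2) / ε ^ 2) * (1 + (d : ℝ) ^ 2)⁻¹ := by
  have hc1 : (1 : ℝ) ≤ c := by exact_mod_cast hc
  have him : ((c : ℂ) * w).im = c * w.im := by simp
  have hre : ((c : ℂ) * w).re = c * w.re := by simp
  have h3 : ε ≤ ((c : ℂ) * w).im := by rw [him]; nlinarith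
  have h4 : |((c : ℂ) * w).re| ≤ c * R := by
    rw [hre, abs_mul, abs_of_nonneg (by linarith : (0 : ℝ) ≤ c)]; gcongr
  have hb := box hε _ h4 h3 d
  have hpos : 0 < ((c : ℂ) * w + d).im := by
    rw [add_im, intCast_im, add_zero]; linarith
  have hne : (c : ℂ) * w + d ≠ 0 := by rintro h; rw [h] at hpos; simp at hpos
  unfold q
  split_ifs
  · rw [norm_mul, norm_ec, one_mul]
    refine (norm_G_le hκ hc _ hpos).trans (le_trans ?_ hb)
    apply inv_anti₀ (by positivity)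
    have : 0 ≤ 2 * π * κ * (((c : ℂ) * w + d).im / c) := by positivity
    linarith
  · rw [norm_zero]; positivity

lemma part1 {κ : ℝ} (hκ : 0 ≤ κ) (A : ℤ) {c : ℕ} (hc : 1 ≤ c) (z : ℍ) :
    Tendsto (fun ι => pc κ ι A c z) (𝓝[>] 0) (𝓝 (pc κ 0 A c z)) := by
  unfold pc
  refine tendsto_tsum_of_dominated_convergence
    (summ.mul_left (2 + (1 + 2 * (c * |z.re|) ^ 2) / z.im ^ 2)) (fun d => ?_) ?_
  · simp only [pw_eq]
    refine Tendsto.mono_left (Continuous.tendsto ?_ 0) nhdsWithin_le_nhds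
    fun_prop
  · filter_upwards [self_mem_nhdsWithin] with ι hι d
    have hι' : 0 < ι := hι
    rw [pw_eq, norm_mul]
    have h1 := norm_q hκ A hc z.im_pos (z : ℂ) (le_refl |z.re|) (le_refl z.im) d
    have h2 : ‖((Real.exp (-ι * ‖(c : ℂ) * z + d‖ ^ 2 / z.im) : ℝ) : ℂ)‖ ≤ 1 := by
      rw [Complex.norm_real, Real.norm_of_nonneg (Real.exp_pos _).le, Real.exp_le_one_iff,
        neg_mul, neg_div, neg_nonpos]
      have := z.im_pos
      positivity
    calc _ ≤ ‖q κ A c z d‖ * 1 := by gcongr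
      _ ≤ _ := by rw [mul_one]; exact h1

lemma diffG (κ : ℝ) {c : ℕ} (hc : 1 ≤ c) (u : ℂ) (hu : u ≠ 0) : DifferentiableAt ℂ (G κ c) u := by
  have hc0 : (c : ℂ) ≠ 0 := by exact_mod_cast (by omega : c ≠ 0)
  have h1 : u ^ 2 ≠ 0 := pow_ne_zero _ hu
  have h2 : (c : ℂ) * u ≠ 0 := mul_ne_zero hc0 hu
  unfold G ee
  fun_prop (disch := assumption)

lemma part2 {κ : ℝ} (hκ : 0 ≤ κ) (A : ℤ) {c : ℕ} (hc : 1 ≤ c) :
    MDifferentiable 𝓘(ℂ) 𝓘(ℂ) (pc κ 0 A c) := by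
  rw [UpperHalfPlane.mdifferentiable_iff]
  intro z hz
  have hz' : 0 < z.im := hz
  have hc1 : (1 : ℝ) ≤ c := by exact_mod_cast hc
  set U : Set ℂ := {w | |w.re| < |z.re| + 1} ∩ {w | z.im / 2 < w.im} with hU
  have hUo : IsOpen U :=
    (isOpen_lt (by fun_prop) continuous_const).inter (isOpen_lt continuous_const (by fun_prop))
  have hzU : z ∈ U := ⟨by simp, by simp only [Set.mem_ofPred_eq]; linarith⟩
  have hD : DifferentiableOn ℂ (fun w => ∑' d : ℤ, q κ A c w d) U := by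
    refine differentiableOn_tsum_of_summable_norm
      (summ.mul_left (2 + (1 + 2 * (c * (|z.re| + 1)) ^ 2) / (z.im / 2) ^ 2)) (fun d w hw => ?_) hUo
      (fun d w hw => norm_q hκ A hc (by positivity) w hw.1.le hw.2.le d)
    have hw2 : z.im / 2 < w.im := hw.2
    have hne : (c : ℂ) * w + d ≠ 0 := by
      intro h
      have := congrArg Complex.im h
      simp only [add_im, mul_im, natCast_re, natCast_im, zero_mul, add_zero, intCast_im,
        zero_im] at this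
      nlinarith
    apply DifferentiableAt.differentiableWithinAt
    unfold q
    split_ifs
    · exact (DifferentiableAt.comp (f := fun w : ℂ => (c : ℂ) * w + d) w (diffG κ hc _ hne)
        (by fun_prop)).const_mul _
    · exact differentiableAt_const _
  refine ((hD.differentiableAt (hUo.mem_nhds hzU)).congr_of_eventuallyEq ?_).differentiableWithinAt
  filter_upwards [hUo.mem_nhds hzU] with w hw
  have hw2 : z.im / 2 < w.im := hw.2
  have hw3 : 0 < w.im := by linarith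
  simp only [Function.comp_apply, pc, pw_zero, ofComplex_apply_of_im_pos hw3]

/-- the integrand on the whole line -/
noncomputable def H (κ : ℝ) (c n : ℕ) (y t : ℝ) : ℂ :=
  G κ c (c * (t + y * I)) * ee (-(n * (t + y * I)))

open Classical in
/-- the arithmetic factor -/
noncomputable def ph (A : ℤ) (c n : ℕ) (d : ℤ) : ℂ :=
  if IsCoprime d (c : ℤ) then ec c (A * (d : ZMod c)⁻¹ + (n : ℤ) * d) else 0

lemma q_eq (κ : ℝ) (A : ℤ) {c : ℕ} (hc : 1 ≤ c) (n : ℕ) (x y : ℝ) (d : ℤ) :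
    q κ A c (x + y * I) d * ee (-(n * (x + y * I))) = ph A c n d * H κ c n y (x + d / c) := by
  have hc0 : (c : ℂ) ≠ 0 := by exact_mod_cast (by omega : c ≠ 0)
  unfold q ph H
  split_ifs
  · have h1 : (c : ℂ) * (((x + d / c : ℝ) : ℂ) + y * I) = c * (x + y * I) + d := by
      push_cast; field_simp; ring
    have h2 : -((n : ℂ) * (x + y * I)) =
        (((n : ℤ) * d : ℤ) : ℂ) / c + -(n * (((x + d / c : ℝ) : ℂ) + y * I)) := by
      push_cast; ring
    rw [← Int.cast_mul, ec_add hc, h1, h2, ee_add]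
    ring
  · simp

lemma ne_line {c : ℕ} (hc : 1 ≤ c) {y : ℝ} (hy : 0 < y) (t : ℝ) :
    0 < ((c : ℂ) * (t + y * I)).im := by
  have hc0 : (0 : ℝ) < c := by exact_mod_cast (by omega : 0 < c)
  have : ((c : ℂ) * (t + y * I)).im = c * y := by simp
  rw [this]; positivity

lemma cont_H (κ : ℝ) {c : ℕ} (hc : 1 ≤ c) (n : ℕ) {y : ℝ} (hy : 0 < y) :
    Continuous (H κ c n y) := by
  refine Continuous.mul (continuous_iff_continuousAt.2 fun t => ?_) (by unfold ee; fun_prop)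
  have hne : (c : ℂ) * (t + y * I) ≠ 0 := by
    intro h
    have := ne_line hc hy t
    rw [h] at this
    simp at this
  exact ContinuousAt.comp (f := fun t : ℝ => (c : ℂ) * (t + y * I))
    (diffG κ hc _ hne).continuousAt (by fun_prop)

lemma norm_H {κ : ℝ} (hκ : 0 ≤ κ) {c : ℕ} (hc : 1 ≤ c) (n : ℕ) {y : ℝ} (hy : 0 < y) (t : ℝ) :
    ‖H κ c n y t‖ ≤ Real.exp (2 * π * n * y) *
      ((c ^ 2 * y ^ 2 + 2 * π * κ * y)⁻¹ *
        (1 + (c / √(c ^ 2 * y ^ 2 + 2 * π * κ * y) * t) ^ 2)⁻¹) := by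
  have hc0 : (0 : ℝ) < c := by exact_mod_cast (by omega : 0 < c)
  have hB : 0 < (c : ℝ) ^ 2 * y ^ 2 + 2 * π * κ * y := by positivity
  unfold H
  rw [norm_mul, norm_ee, mul_comm]
  have h1 : -(2 * π * (-((n : ℂ) * (t + y * I))).im) = 2 * π * n * y := by simp; ring
  rw [h1]
  gcongr
  refine (norm_G_le hκ hc _ (ne_line hc hy t)).trans (le_of_eq ?_)
  have h2 : ‖(c : ℂ) * (t + y * I)‖ ^ 2 = c ^ 2 * t ^ 2 + c ^ 2 * y ^ 2 := by
    rw [← Complex.normSq_eq_norm_sq, Complex.normSq_apply]; simp; ring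
  have h3 : ((c : ℂ) * (t + y * I)).im / c = y := by
    have : ((c : ℂ) * (t + y * I)).im = c * y := by simp
    rw [this]; field_simp
  rw [h2, h3, ← mul_inv, mul_pow, div_pow, Real.sq_sqrt hB.le]
  congr 1
  field_simp
  ring

lemma int_H {κ : ℝ} (hκ : 0 ≤ κ) {c : ℕ} (hc : 1 ≤ c) (n : ℕ) {y : ℝ} (hy : 0 < y) :
    Integrable (H κ c n y) ∧ ‖∫ t, H κ c n y t‖ ≤
      Real.exp (2 * π * n * y) * (π / (c * √(c ^ 2 * y ^ 2 + 2 * π * κ * y))) := by
  have hc0 : (0 : ℝ) < c := by exact_mod_cast (by omega : 0 < c)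
  set B : ℝ := (c : ℝ) ^ 2 * y ^ 2 + 2 * π * κ * y with hBd
  have hB : 0 < B := by positivity
  have hs : 0 < √B := Real.sqrt_pos.2 hB
  have hi : Integrable fun t : ℝ =>
      Real.exp (2 * π * n * y) * (B⁻¹ * (1 + (c / √B * t) ^ 2)⁻¹) :=
    ((integrable_inv_one_add_sq.comp_mul_left' (R := c / √B) (by positivity)).const_mul _).const_mul _
  refine ⟨hi.mono' (cont_H κ hc n hy).aestronglyMeasurable
    (Eventually.of_forall (norm_H hκ hc n hy)), ?_⟩
  refine (norm_integral_le_of_norm_le hi (Eventually.of_forall (norm_H hκ hc n hy))).trans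
    (le_of_eq ?_)
  rw [integral_const_mul, integral_const_mul,
    Measure.integral_comp_mul_left (fun t : ℝ => (1 + t ^ 2)⁻¹), integral_univ_inv_one_add_sq,
    abs_of_pos (by positivity), smul_eq_mul]
  congr 1
  have : B = √B * √B := (Real.mul_self_sqrt hB.le).symm
  nth_rewrite 1 [this]
  field_simp

lemma ph_per (A : ℤ) (c n : ℕ) (j r : ℤ) : ph A c n (j * c + r) = ph A c n r := by
  unfold ph
  have h1 : ((j * c + r : ℤ) : ZMod c) = r := by simp
  have h2 : IsCoprime (j * c + r) (c : ℤ) ↔ IsCoprime r (c : ℤ) := IsCoprime.mul_add_right_left_iff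
  rw [h1]
  simp only [h2]

lemma ph_sum (A : ℤ) (c n : ℕ) : ∑ r : Fin c, ph A c n ((r : ℕ) : ℤ) = Kl c A n := by
  unfold Kl
  rw [Finset.sum_filter, Fin.sum_univ_eq_sum_range (fun r : ℕ => ph A c n (r : ℤ)) c]
  refine Finset.sum_congr rfl fun r _ => ?_
  unfold ph
  simp only [Nat.isCoprime_iff_coprime, Int.cast_natCast]

lemma part3 {κ : ℝ} (hκ : 0 ≤ κ) (A : ℤ) {c : ℕ} (hc : 1 ≤ c) (n : ℕ) {y : ℝ} (hy : 0 < y) :
    ∫ x in (0 : ℝ)..1, (∑' d : ℤ, q κ A c (x + y * I) d) * ee (-(n * (x + y * I))) =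
      Kl c A n * ∫ t, H κ c n y t := by
  have : NeZero c := ⟨by omega⟩
  have hc0 : (c : ℝ) ≠ 0 := by exact_mod_cast (by omega : c ≠ 0)
  set C : ℝ := 2 + (1 + 2 * (c * 1) ^ 2) / y ^ 2 with hC
  have hb : ∀ (d : ℤ) (x : ℝ), x ∈ Set.uIoc (0 : ℝ) 1 →
      ‖q κ A c (x + y * I) d‖ ≤ C * (1 + (d : ℝ) ^ 2)⁻¹ := by
    intro d x hx
    rw [Set.uIoc_of_le zero_le_one] at hx
    refine norm_q hκ A hc hy _ ?_ (by simp) d
    simpa [abs_of_pos hx.1] using hx.2
  have hs : HasSum (fun d : ℤ => ∫ x in (0 : ℝ)..1, ph A c n d * H κ c n y (x + d / c))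
      (∫ x in (0 : ℝ)..1, (∑' d : ℤ, q κ A c (x + y * I) d) * ee (-(n * (x + y * I)))) := by
    refine intervalIntegral.hasSum_integral_of_dominated_convergence
      (fun d _ => C * (1 + (d : ℝ) ^ 2)⁻¹ * Real.exp (2 * π * n * y)) (fun d => ?_) (fun d => ?_)
      (Eventually.of_forall fun _ _ => (summ.mul_left C).mul_right _) intervalIntegrable_const
      (Eventually.of_forall fun x hx => ?_)
    · exact (continuous_const.mul ((cont_H κ hc n hy).comp (by fun_prop))).aestronglyMeasurable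
    · refine Eventually.of_forall fun x hx => ?_
      rw [← q_eq κ A hc, norm_mul, norm_ee]
      have h1 : -(2 * π * (-((n : ℂ) * (x + y * I))).im) = 2 * π * n * y := by simp; ring
      rw [h1]
      exact mul_le_mul_of_nonneg_right (hb d x hx) (Real.exp_pos _).le
    · simp only [← q_eq κ A hc]
      exact (Summable.of_norm_bounded (summ.mul_left C) fun d => hb d x hx).hasSum.mul_right _
  let e : Fin c × ℤ ≃ ℤ := (Equiv.prodComm _ _).trans (Int.divModEquiv c).symm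
  have he : ∀ (r : Fin c) (j : ℤ), e (r, j) = j * c + ((r : ℕ) : ℤ) := fun r j => rfl
  have h2 := (e.hasSum_iff.2 hs).prod_fiberwise
    (g := fun r : Fin c => ph A c n ((r : ℕ) : ℤ) * ∫ t, H κ c n y t) fun r => by
      have h3 := ((int_H hκ hc n hy).1.hasSum_intervalIntegral ((r : ℕ) / c)).mul_left
        (ph A c n ((r : ℕ) : ℤ))
      refine (congrArg (fun f => HasSum f _) (funext fun j => ?_)).mpr h3
      simp only [Function.comp_apply, he, ph_per]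
      rw [intervalIntegral.integral_const_mul, intervalIntegral.integral_comp_add_right
        (H κ c n y)]
      congr 2
      · push_cast; field_simp; ring
      · push_cast; field_simp; ring
  rw [h2.unique (hasSum_fintype _), ← Finset.sum_mul, ph_sum]

end PbA

theorem pbOf : PbOf := by
  intro K κ A c hκ hc
  refine ⟨PbA.part1 hκ A hc, PbA.part2 hκ A hc, fun n y hy => ?_⟩
  have h1 : ∀ x : ℝ, pc κ 0 A c (pt x y) = ∑' d : ℤ, PbA.q κ A c (x + y * I) d := by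
    intro x
    simp only [pc, PbA.pw_zero, (K.ptc x y hy).1]
  simp only [h1]
  rw [PbA.part3 hκ A hc n hy, norm_mul, mul_assoc]
  exact mul_le_mul_of_nonneg_left (PbA.int_H hκ hc n hy).2 (norm_nonneg _)

end Pool.Agent.MP_20b2fd_nt.H38
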