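import Pool.Agent.MP_20b2fd_nt.H38.SpecA

/-! Row Pd, first part: sums over a family of moduli. -/

set_option autoImplicit false

namespace Pool.Agent.MP_20b2fd_nt.H38

open UpperHalfPlane hiding I
open MeasureTheory Complex Finset Filter Topology
open scoped ModularForm Real Manifold ENNReal

namespace PdA

noncomputable def wt (q : ℕ → Prop) [DecidablePred q] (θ : ℝ) (c : ℕ) : ℝ :=
  if q c then bb c / (c : ℝ) ^ θ else 0

noncomputable def tm (q : ℕ → Prop) [DecidablePred q] (A : ℕ → ℤ) (κ ι : ℝ) (z : ℍ) (c : ℕ) : ℂ :=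
  if q c then pc κ ι (A c) c z else 0

theorem wt_nonneg (hb : ∀ c, 1 ≤ bb c) (q : ℕ → Prop) [DecidablePred q] (θ : ℝ) (c : ℕ) :
    0 ≤ wt q θ c := by
  unfold wt
  split_ifs
  · have := hb c
    positivity
  · exact le_rfl

theorem wt_sum (hb : ∀ c, 1 ≤ bb c) (q : ℕ → Prop) [DecidablePred q] (hq : ∀ c, q c → 1 ≤ c)
    (θ S : ℝ) (hS : ∀ X, ∑ c ∈ (Icc 1 X).filter q, bb c / (c : ℝ) ^ θ ≤ S) :
    Summable (wt q θ) ∧ ∑' c, wt q θ c ≤ S := by
  have h : ∀ n, ∑ c ∈ range n, wt q θ c ≤ S := by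
    intro n
    refine le_trans ?_ (hS n)
    have e : ∑ c ∈ range n, wt q θ c = ∑ c ∈ (range n).filter q, bb c / (c : ℝ) ^ θ := by
      rw [Finset.sum_filter]
      rfl
    rw [e]
    refine Finset.sum_le_sum_of_subset_of_nonneg ?_ ?_
    · intro c hc
      rw [Finset.mem_filter, Finset.mem_range] at hc
      rw [Finset.mem_filter, Finset.mem_Icc]
      exact ⟨⟨hq c hc.2, hc.1.le⟩, hc.2⟩
    · intro c _ _
      have := hb c
      positivity
  exact ⟨summable_of_sum_range_le (wt_nonneg hb q θ) h,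
    Real.tsum_le_of_sum_range_le (wt_nonneg hb q θ) h⟩

/-- the bound of row Pa with a fixed constant -/
def PaC (C : ℝ) : Prop :=
  ∀ (κ ι : ℝ) (A : ℤ) (c : ℕ) (z : ℍ), 0 ≤ κ → κ ≤ 1 → 0 ≤ ι → 1 ≤ c →
    IsCoprime A (c : ℤ) →
    ‖pc κ ι A c z‖ ≤ C * (bb c / (c : ℝ) ^ (31 / 16 : ℝ)) * (1 / z.im + 1 / z.im ^ 4)

section fam

variable {C : ℝ} {q : ℕ → Prop} [DecidablePred q] {A : ℕ → ℤ} {κ : ℝ}

theorem tm_le (ha : PaC C) (hq : ∀ c, q c → 1 ≤ c ∧ IsCoprime (A c) (c : ℤ)) (h0 : 0 ≤ κ)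
    (h1 : κ ≤ 1) {ι : ℝ} (hι : 0 ≤ ι) (z : ℍ) (c : ℕ) :
    ‖tm q A κ ι z c‖ ≤ C * (1 / z.im + 1 / z.im ^ 4) * wt q (31 / 16) c := by
  unfold tm wt
  split_ifs with h
  · have := ha κ ι (A c) c z h0 h1 hι (hq c h).1 (hq c h).2
    linarith [this, mul_right_comm C (bb c / (c : ℝ) ^ (31 / 16 : ℝ)) (1 / z.im + 1 / z.im ^ 4)]
  · simp

theorem tm_summable (ha : PaC C) (hq : ∀ c, q c → 1 ≤ c ∧ IsCoprime (A c) (c : ℤ)) (h0 : 0 ≤ κ)
    (h1 : κ ≤ 1) (hs : Summable (wt q (31 / 16))) {ι : ℝ} (hι : 0 ≤ ι) (z : ℍ) :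
    Summable (tm q A κ ι z) :=
  Summable.of_norm_bounded (hs.mul_left _) (tm_le ha hq h0 h1 hι z)

theorem sum_le (hC : 0 ≤ C) (ha : PaC C) (hq : ∀ c, q c → 1 ≤ c ∧ IsCoprime (A c) (c : ℤ))
    (h0 : 0 ≤ κ) (h1 : κ ≤ 1) (hs : Summable (wt q (31 / 16))) {S : ℝ}
    (hS : ∑' c, wt q (31 / 16) c ≤ S) {ι : ℝ} (hι : 0 ≤ ι) (z : ℍ) :
    z.im * ‖∑' c, tm q A κ ι z c‖ ≤ C * S * (1 + 1 / z.im ^ 3) := by
  have hy := z.im_pos
  have h := tsum_of_norm_bounded ((hs.mul_left (C * (1 / z.im + 1 / z.im ^ 4))).hasSum)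
    (tm_le ha hq h0 h1 hι z)
  rw [tsum_mul_left] at h
  have h2 : C * (1 / z.im + 1 / z.im ^ 4) * ∑' c, wt q (31 / 16) c ≤
      C * (1 / z.im + 1 / z.im ^ 4) * S := mul_le_mul_of_nonneg_left hS (by positivity)
  calc z.im * ‖∑' c, tm q A κ ι z c‖ ≤ z.im * (C * (1 / z.im + 1 / z.im ^ 4) * S) :=
        mul_le_mul_of_nonneg_left (h.trans h2) hy.le
    _ = C * S * (1 + 1 / z.im ^ 3) := by field_simp

theorem sum_tendsto (ha : PaC C) (hb : PbS) (hq : ∀ c, q c → 1 ≤ c ∧ IsCoprime (A c) (c : ℤ))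
    (h0 : 0 ≤ κ) (h1 : κ ≤ 1) (hs : Summable (wt q (31 / 16))) (z : ℍ) :
    Tendsto (fun ι => ∑' c, tm q A κ ι z c) (𝓝[>] 0) (𝓝 (∑' c, tm q A κ 0 z c)) := by
  refine tendsto_tsum_of_dominated_convergence
    (hs.mul_left (C * (1 / z.im + 1 / z.im ^ 4))) (fun c => ?_) ?_
  · unfold tm
    split_ifs with h
    · exact (hb κ (A c) c h0 (hq c h).1).1 z
    · exact tendsto_const_nhds
  · filter_upwards [self_mem_nhdsWithin] with ι hι c
    exact tm_le ha hq h0 h1 (le_of_lt hι) z c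

theorem tm_diff (hb : PbS) (hq : ∀ c, q c → 1 ≤ c ∧ IsCoprime (A c) (c : ℤ)) (h0 : 0 ≤ κ) (c : ℕ) :
    DifferentiableOn ℂ (fun w => tm q A κ 0 (ofComplex w) c) {w | 0 < w.im} := by
  unfold tm
  split_ifs with h
  · exact mdifferentiable_iff.mp (hb κ (A c) c h0 (hq c h).1).2.1
  · exact differentiableOn_const _

theorem inv_bound {y y₀ : ℝ} (h0 : 0 < y₀) (h : y₀ ≤ y) :
    1 / y + 1 / y ^ 4 ≤ 1 / y₀ + 1 / y₀ ^ 4 := by
  have hy : 0 < y := h0.trans_le h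
  gcongr

theorem sum_diff (hC : 0 ≤ C) (hbb : ∀ c, 1 ≤ bb c) (ha : PaC C) (hb : PbS)
    (hq : ∀ c, q c → 1 ≤ c ∧ IsCoprime (A c) (c : ℤ))
    (h0 : 0 ≤ κ) (h1 : κ ≤ 1) (hs : Summable (wt q (31 / 16))) :
    DifferentiableOn ℂ (fun w => ∑' c, tm q A κ 0 (ofComplex w) c) {w | 0 < w.im} := by
  intro w hw
  have hw' : 0 < w.im := hw
  have hU : IsOpen {v : ℂ | w.im / 2 < v.im} := isOpen_lt continuous_const Complex.continuous_im
  have hd : DifferentiableOn ℂ (fun v => ∑' c, tm q A κ 0 (ofComplex v) c)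
      {v : ℂ | w.im / 2 < v.im} := by
    refine differentiableOn_tsum_of_summable_norm
      (hs.mul_left (C * (1 / (w.im / 2) + 1 / (w.im / 2) ^ 4))) (fun c => ?_) hU ?_
    · refine (tm_diff hb hq h0 c).mono fun v hv => ?_
      have hv' : w.im / 2 < v.im := hv
      show 0 < v.im
      linarith
    · intro c v hv
      have hv' : w.im / 2 < v.im := hv
      have hv0 : 0 < v.im := by linarith
      refine (tm_le ha hq h0 h1 le_rfl (ofComplex v) c).trans ?_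
      have e : (ofComplex v).im = v.im := by
        rw [ofComplex_apply_of_im_pos hv0]
        rfl
      rw [e]
      exact mul_le_mul_of_nonneg_right (mul_le_mul_of_nonneg_left
        (inv_bound (by linarith) hv'.le) hC) (wt_nonneg hbb q _ c)
  have hm : {v : ℂ | w.im / 2 < v.im} ∈ 𝓝 w := hU.mem_nhds (by show w.im / 2 < w.im; linarith)
  exact (hd.differentiableAt hm).differentiableWithinAt

theorem cont_line {F : ℂ → ℂ} (hF : DifferentiableOn ℂ F {w | 0 < w.im}) {y : ℝ} (hy : 0 < y) :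
    Continuous fun x : ℝ => F (x + y * I) := by
  refine hF.continuousOn.comp_continuous (by fun_prop) fun x => ?_
  simpa using hy

theorem cont_ee (n : ℕ) (y : ℝ) : Continuous fun x : ℝ => ee (-(n * (x + y * I))) := by
  unfold ee
  fun_prop

theorem norm_ee (w : ℂ) : ‖ee w‖ = Real.exp (-(2 * π * w.im)) := by
  unfold ee
  rw [Complex.norm_exp]
  congr 1
  simp

/-- the coefficients of the sum -/
theorem sum_coef (hC : 0 ≤ C) (hbb : ∀ c, 1 ≤ bb c) (ha : PaC C) (hb : PbS)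
    (hq : ∀ c, q c → 1 ≤ c ∧ IsCoprime (A c) (c : ℤ))
    (h0 : 0 ≤ κ) (h1 : κ ≤ 1) (hs : Summable (wt q (31 / 16))) (n : ℕ) {y : ℝ} (hy : 0 < y)
    {θ S B : ℝ} (hB : 0 ≤ B) (hs' : Summable (wt q θ)) (hS : ∑' c, wt q θ c ≤ S)
    (hc : ∀ c, q c → ‖∫ x in (0 : ℝ)..1, pc κ 0 (A c) c (pt x y) * ee (-(n * (x + y * I)))‖ ≤
      B * (bb c / (c : ℝ) ^ θ)) :
    ‖∫ x in (0 : ℝ)..1, (∑' c, tm q A κ 0 (pt x y) c) * ee (-(n * (x + y * I)))‖ ≤ B * S := by
  have him : ∀ x : ℝ, (pt x y).im = y := by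
    intro x
    have h : 0 < ((x : ℂ) + y * I).im := by simpa using hy
    unfold pt
    rw [ofComplex_apply_of_im_pos h]
    simp [UpperHalfPlane.im]
  have hsum : HasSum (fun c => ∫ x in (0 : ℝ)..1, tm q A κ 0 (pt x y) c * ee (-(n * (x + y * I))))
      (∫ x in (0 : ℝ)..1, (∑' c, tm q A κ 0 (pt x y) c) * ee (-(n * (x + y * I)))) := by
    refine intervalIntegral.hasSum_integral_of_dominated_convergence
      (fun c _ => C * (1 / y + 1 / y ^ 4) * wt q (31 / 16) c * Real.exp (2 * π * n * y))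
      (fun c => ?_) (fun c => ?_) ?_ ?_ ?_
    · exact ((cont_line (tm_diff hb hq h0 c) hy).mul (cont_ee n y)).aestronglyMeasurable
    · refine Eventually.of_forall fun x _ => ?_
      rw [norm_mul, norm_ee]
      have h := tm_le ha hq h0 h1 le_rfl (pt x y) c
      rw [him] at h
      have e : -(2 * π * (-((n : ℂ) * (x + y * I))).im) = 2 * π * n * y := by
        simp
        ring
      rw [e]
      exact mul_le_mul_of_nonneg_right h (Real.exp_pos _).le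
    · exact Eventually.of_forall fun x _ => (hs.mul_left _).mul_right _
    · exact intervalIntegrable_const
    · exact Eventually.of_forall fun x _ =>
        (tm_summable ha hq h0 h1 hs le_rfl (pt x y)).hasSum.mul_right _
  rw [← hsum.tsum_eq]
  have h := tsum_of_norm_bounded (f := fun c => ∫ x in (0 : ℝ)..1,
    tm q A κ 0 (pt x y) c * ee (-(n * (x + y * I)))) ((hs'.mul_left B).hasSum) (fun c => by
      unfold tm wt
      split_ifs with h
      · exact hc c h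
      · simp)
  rw [tsum_mul_left] at h
  exact h.trans (mul_le_mul_of_nonneg_left hS hB)

end fam

/-- the two bounds for one modulus -/
theorem one_coef (hk : KlS) (hbb : ∀ c, 1 ≤ bb c) (hb : PbS) {κ : ℝ} (h0 : 0 < κ) {A : ℤ} {c : ℕ}
    (hc : 1 ≤ c) (hA : IsCoprime A (c : ℤ)) {n : ℕ} (hn : 1 ≤ n) :
    ‖∫ x in (0 : ℝ)..1, pc κ 0 A c (pt x (1 / n : ℝ)) * ee (-(n * (x + (1 / n : ℝ) * I)))‖ ≤
      Real.exp (2 * π) * π * n * (bb c / (c : ℝ) ^ (2 : ℝ)) ∧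
    ‖∫ x in (0 : ℝ)..1, pc κ 0 A c (pt x (1 / n : ℝ)) * ee (-(n * (x + (1 / n : ℝ) * I)))‖ ≤
      Real.exp (2 * π) * π * ((n : ℝ) ^ (31 / 32 : ℝ) / κ ^ (1 / 32 : ℝ)) *
        (bb c / (c : ℝ) ^ (31 / 16 : ℝ)) := by
  have hn0 : (0 : ℝ) < n := by exact_mod_cast hn
  have hc0 : (0 : ℝ) < c := by exact_mod_cast hc
  have hy : (0 : ℝ) < 1 / n := by positivity
  have h := (hb κ A c h0.le hc).2.2 n (1 / n) hy
  have hK : ‖Kl c A n‖ ≤ bb c := by
    have := hk c A n hc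
    rwa [Int.isCoprime_iff_gcd_eq_one.mp hA, Nat.cast_one, Real.one_rpow, mul_one] at this
  have e : 2 * π * n * (1 / n) = 2 * π := by field_simp
  rw [e] at h
  have hbc := hbb c
  have hpi := Real.pi_gt_three
  set R := √((c : ℝ) ^ 2 * (1 / n) ^ 2 + 2 * π * κ * (1 / n)) with hR
  have key : ∀ T : ℝ, 0 < T → T ≤ R →
      ‖∫ x in (0 : ℝ)..1, pc κ 0 A c (pt x (1 / n : ℝ)) * ee (-(n * (x + (1 / n : ℝ) * I)))‖ ≤
        bb c * Real.exp (2 * π) * (π / (c * T)) := by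
    intro T hT hTR
    refine h.trans ?_
    have hRp : 0 < R := hT.trans_le hTR
    gcongr
  have h1 : (c : ℝ) / n ≤ R := by
    refine Real.le_sqrt_of_sq_le ?_
    have : 0 ≤ 2 * π * κ * (1 / n) := by positivity
    have e2 : ((c : ℝ) / n) ^ 2 = (c : ℝ) ^ 2 * (1 / n) ^ 2 := by ring
    linarith
  have h2 : (κ / n) ^ (1 / 2 : ℝ) ≤ R := by
    rw [← Real.sqrt_eq_rpow]
    refine Real.sqrt_le_sqrt ?_
    have : 0 ≤ (c : ℝ) ^ 2 * (1 / n) ^ 2 := by positivity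
    have e2 : κ / n = κ * (1 / n) := by ring
    have h3 : 0 ≤ κ * (1 / n) := by positivity
    nlinarith
  constructor
  · refine (key _ (by positivity) h1).trans (le_of_eq ?_)
    rw [Real.rpow_two]
    field_simp
  · have hRp : 0 < R := lt_of_lt_of_le (by positivity) h1
    have h3 : ((c : ℝ) / n) ^ (15 / 16 : ℝ) * ((κ / n) ^ (1 / 2 : ℝ)) ^ (1 / 16 : ℝ) ≤ R := by
      calc ((c : ℝ) / n) ^ (15 / 16 : ℝ) * ((κ / n) ^ (1 / 2 : ℝ)) ^ (1 / 16 : ℝ)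
          ≤ R ^ (15 / 16 : ℝ) * R ^ (1 / 16 : ℝ) := by gcongr
        _ = R := by rw [← Real.rpow_add hRp]; norm_num
    refine (key _ (by positivity) h3).trans (le_of_eq ?_)
    rw [← Real.rpow_mul (by positivity), Real.div_rpow hc0.le hn0.le, Real.div_rpow h0.le hn0.le]
    have e1 : (n : ℝ) ^ (31 / 32 : ℝ) = (n : ℝ) ^ (15 / 16 : ℝ) * (n : ℝ) ^ (1 / 2 * (1 / 16) : ℝ) := by
      rw [← Real.rpow_add hn0]; norm_num
    have e2 : (c : ℝ) ^ (31 / 16 : ℝ) = c * (c : ℝ) ^ (15 / 16 : ℝ) := by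
      rw [show (31 / 16 : ℝ) = 1 + 15 / 16 by norm_num, Real.rpow_add hc0, Real.rpow_one]
    have e3 : κ ^ (1 / 32 : ℝ) = κ ^ (1 / 2 * (1 / 16) : ℝ) := by norm_num
    rw [e1, e2, e3]
    field_simp

end PdA

end Pool.Agent.MP_20b2fd_nt.H38
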