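import Pool.Agent.MP_20b2fd_nt.H38.SpecC

/-! Lemmas for the shift of the line: contour shift, Cauchy-Schwarz, integral representation. -/

set_option autoImplicit false

namespace Pool.Agent.MP_20b2fd_nt.H38

open MeasureTheory Complex Finset Filter Topology ArithmeticFunction
open scoped Real Interval

namespace ShA

theorem sq_le (ξ : ℝ) : 1 + ξ ^ 2 ≤ (1 + |ξ|) ^ 2 := by
  nlinarith [sq_abs ξ, abs_nonneg ξ]

theorem shift (F : ℂ → ℂ) (b1 b2 X M : ℝ) (hb : b1 ≤ b2) (hb' : b2 - b1 ≤ 1) (hX : 0 < X)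
    (hM : 0 ≤ M) (hd : DifferentiableOn ℂ F ([[b1, b2]] ×ℂ [[-X, X]]))
    (hi : Integrable fun ξ : ℝ => F (b1 + ξ * I))
    (h1 : ∀ ξ : ℝ, ‖F (b1 + ξ * I)‖ ≤ M / (1 + |ξ|) ^ 5)
    (h2 : ∀ b ξ : ℝ, b1 ≤ b → b ≤ b2 → |ξ| = X → ‖F (b + ξ * I)‖ ≤ M / (1 + |ξ|) ^ 5) :
    ‖(∫ ξ : ℝ, F (b1 + ξ * I)) - ∫ ξ in (-X)..X, F (b2 + ξ * I)‖ ≤ 6 * (M / X ^ 3) := by
  have hr := Complex.integral_boundary_rect_eq_zero_of_differentiableOn F ⟨b1, -X⟩ ⟨b2, X⟩ hd
  simp only [smul_eq_mul] at hr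
  have p3 : ∀ ξ : ℝ, X ≤ |ξ| → M / (1 + |ξ|) ^ 5 ≤ M / X ^ 3 * (1 + ξ ^ 2)⁻¹ := by
    intro ξ h
    rw [← div_eq_mul_inv, div_div]
    refine div_le_div_of_nonneg_left hM (by positivity) ?_
    calc X ^ 3 * (1 + ξ ^ 2) ≤ (1 + |ξ|) ^ 3 * (1 + |ξ|) ^ 2 :=
          mul_le_mul (pow_le_pow_left₀ hX.le (by linarith) 3) (sq_le ξ) (by positivity)
            (by positivity)
      _ = _ := by ring
  have hz : ∀ ξ : ℝ, |ξ| = X → ‖∫ b in b1..b2, F (b + ξ * I)‖ ≤ M / X ^ 3 := by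
    intro ξ h
    refine (intervalIntegral.norm_integral_le_of_norm_le_const (C := M / X ^ 3) fun b hb2 => ?_).trans ?_
    · rw [Set.uIoc_of_le hb] at hb2
      refine ((h2 b ξ hb2.1.le hb2.2 h).trans (p3 ξ h.ge)).trans ?_
      exact mul_le_of_le_one_right (by positivity) (inv_le_one_of_one_le₀ (by nlinarith))
    · rw [abs_of_nonneg (by linarith)]
      exact mul_le_of_le_one_right (by positivity) hb'
  have z1 := hz (-X) (by rw [abs_neg, abs_of_pos hX])
  have z2 := hz X (abs_of_pos hX)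
  have ht : ‖∫ ξ in (Set.Ioc (-X) X)ᶜ, F (b1 + ξ * I)‖ ≤ M / X ^ 3 * π := by
    have hg : Integrable fun ξ : ℝ => M / X ^ 3 * (1 + ξ ^ 2)⁻¹ :=
      integrable_inv_one_add_sq.const_mul _
    refine (norm_integral_le_of_norm_le hg.integrableOn
      (ae_restrict_of_forall_mem measurableSet_Ioc.compl fun ξ hξ => (h1 ξ).trans (p3 ξ ?_))).trans ?_
    · by_contra h
      have := abs_lt.mp (not_le.mp h)
      exact hξ ⟨this.1, this.2.le⟩
    · refine (setIntegral_le_integral hg (Eventually.of_forall fun ξ => by positivity)).trans ?_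
      rw [integral_const_mul, integral_univ_inv_one_add_sq]
  have e : (∫ ξ : ℝ, F (b1 + ξ * I)) - ∫ ξ in (-X)..X, F (b2 + ξ * I) =
      (∫ ξ in (Set.Ioc (-X) X)ᶜ, F (b1 + ξ * I)) + (-I) * ((∫ b in b1..b2, F (b + (-X : ℝ) * I)) -
        ∫ b in b1..b2, F (b + X * I)) := by
    rw [← integral_add_compl (measurableSet_Ioc (a := -X) (b := X)) hi,
      ← intervalIntegral.integral_of_le (by linarith)]
    linear_combination I * hr + ((∫ ξ in (-X)..X, F (b1 + ξ * I)) -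
      ∫ ξ in (-X)..X, F (b2 + ξ * I)) * I_mul_I
  rw [e]
  refine (norm_add_le _ _).trans ?_
  rw [norm_mul, norm_neg, Complex.norm_I, one_mul]
  have := norm_sub_le (∫ b in b1..b2, F (b + (-X : ℝ) * I)) (∫ b in b1..b2, F (b + X * I))
  have h4 : M / X ^ 3 * π ≤ M / X ^ 3 * 4 :=
    mul_le_mul_of_nonneg_left Real.pi_le_four (by positivity)
  linarith

theorem cs (P : ℝ → ℝ) (X : ℝ) (hP : Continuous P) (hX : 0 ≤ X) :
    (∫ ξ in (-X)..X, P ξ / (1 + ξ ^ 2)) ^ 2 ≤ 4 * ∫ ξ in (-X)..X, P ξ ^ 2 / (1 + ξ ^ 2) := by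
  have hg : Continuous fun ξ : ℝ => 1 + ξ ^ 2 := by fun_prop
  have hn : ∀ ξ : ℝ, 1 + ξ ^ 2 ≠ 0 := fun ξ => by positivity
  have i0 := (hg.inv₀ hn).intervalIntegrable (μ := volume) (-X) X
  have i1 := (hP.div hg hn).intervalIntegrable (μ := volume) (-X) X
  have i2 := ((hP.pow 2).div hg hn).intervalIntegrable (μ := volume) (-X) X
  have hX' : -X ≤ X := by linarith
  have a0 : ∫ ξ in (-X)..X, (1 + ξ ^ 2)⁻¹ ≤ 4 := by
    rw [intervalIntegral.integral_of_le hX']
    refine (setIntegral_le_integral integrable_inv_one_add_sq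
      (Eventually.of_forall fun ξ => by positivity)).trans ?_
    rw [integral_univ_inv_one_add_sq]
    exact Real.pi_le_four
  set t : ℝ := (∫ ξ in (-X)..X, P ξ / (1 + ξ ^ 2)) / 4 with ht
  have a1 : ∫ ξ in (-X)..X, 2 * t * (P ξ / (1 + ξ ^ 2)) ≤
      ∫ ξ in (-X)..X, (P ξ ^ 2 / (1 + ξ ^ 2) + t ^ 2 * (1 + ξ ^ 2)⁻¹) := by
    refine intervalIntegral.integral_mono_on hX' (i1.const_mul _) (i2.add (i0.const_mul _))
      fun ξ _ => ?_
    have h1 : 0 ≤ (P ξ - t) ^ 2 * (1 + ξ ^ 2)⁻¹ := by positivity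
    simp only [div_eq_mul_inv]
    linarith
  have a2 := intervalIntegral.integral_add i2 (i0.const_mul (t ^ 2))
  simp only [Pi.div_apply, Pi.pow_apply, Pi.inv_apply] at a2
  rw [a2, intervalIntegral.integral_const_mul, intervalIntegral.integral_const_mul] at a1
  have a3 := mul_le_mul_of_nonneg_left a0 (sq_nonneg t)
  have a4 : (∫ ξ in (-X)..X, P ξ / (1 + ξ ^ 2)) = 4 * t := by rw [ht]; ring
  rw [a4] at a1 ⊢
  linarith

theorem pow_shift (n : ℕ) (hn : n ≠ 0) (v ζ : ℂ) (Lm y : ℝ) :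
    (n : ℂ) ^ (-v) * exp (ζ * ((y + Real.log n) / Lm : ℝ)) =
      exp (ζ * (y / Lm : ℝ)) * (n : ℂ) ^ (-(v - ζ / Lm)) := by
  have h : (n : ℂ) ≠ 0 := by exact_mod_cast hn
  rw [Complex.cpow_def_of_ne_zero h, Complex.cpow_def_of_ne_zero h, ← Complex.exp_add,
    ← Complex.exp_add, ← Complex.natCast_log]
  congr 1
  push_cast
  ring

theorem px_diff (N : ℕ) (x : CC) : Differentiable ℂ (PX N x) := by
  refine Differentiable.fun_sum fun t ht => ?_
  have h : (t : ℂ) ≠ 0 := by exact_mod_cast (mem_filter.mp ht).2.1.ne_zero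
  exact (differentiable_id.neg.const_cpow (Or.inl h)).const_mul _

theorem px_le (N : ℕ) (x : CC) (w : ℂ) (η : ℝ) (hN : 1 ≤ N) (hη : 0 ≤ η) (hw : 1 - η ≤ w.re) :
    ‖PX N x w‖ ≤ lam N * Real.exp (η * Real.log N) := by
  rw [lam, sum_mul]
  refine (norm_sum_le _ _).trans (sum_le_sum fun t ht => ?_)
  obtain ⟨h1, h2, -⟩ := mem_filter.mp ht
  have N1 : (1 : ℝ) ≤ N := by exact_mod_cast hN
  have t1 : (1 : ℝ) ≤ t := by exact_mod_cast h2.one_le
  have t2 : (t : ℝ) ≤ N := by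
    refine ((Nat.le_floor_iff (by positivity)).mp (mem_Icc.mp h1).2).trans ?_
    rw [← Real.rpow_natCast, ← Real.rpow_mul (by linarith)]
    exact (Real.rpow_le_rpow_of_exponent_le N1 (by norm_num)).trans (Real.rpow_one _).le
  rw [norm_mul, Complex.norm_natCast_cpow_of_pos h2.pos]
  refine (mul_le_of_le_one_left (by positivity) (DirichletCharacter.norm_le_one _ _)).trans ?_
  refine (Real.rpow_le_rpow_of_exponent_le t1 (z := η - 1) (by rw [neg_re]; linarith)).trans ?_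
  rw [Real.rpow_sub_one (by linarith), mul_comm η, ← Real.rpow_def_of_pos (by linarith), one_div,
    mul_comm, ← div_eq_mul_inv]
  exact div_le_div_of_nonneg_right (Real.rpow_le_rpow (by linarith) t2 hη) (by linarith)

open Classical in
theorem rep (δ : ℝ) (N : ℕ) (x : CC) (v : ℂ) (u b σ C : ℝ) (R : ℂ → ℂ) (hu : 0 ≤ u) (hN : 2 ≤ N)
    (hσ : 0 < σ) (hb : v.re - b / La δ N = σ)
    (hps : ∀ y, psi δ N y ≠ 0 → y < (1 / 2 + δ / 2) * Real.log N)
    (hF : ∀ y : ℝ, (Integrable fun ξ : ℝ => lap ps0 (b + ξ * I) * exp ((b + ξ * I) * y)) ∧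
      (ps0 y : ℂ) = 1 / (2 * π) * ∫ ξ : ℝ, lap ps0 (b + ξ * I) * exp ((b + ξ * I) * y))
    (hs : Summable fun n : ℕ => if rg (zz δ N) n then (n : ℝ) ^ (-σ) else 0)
    (hC : ∑' n : ℕ, (if rg (zz δ N) n then (n : ℝ) ^ (-σ) else 0) ≤ C)
    (hR : ∀ w : ℂ, w.re = σ → HasSum (fun n : ℕ =>
      if rg (zz δ N) n then (moebius n : ℂ) * x.2 n * (n : ℂ) ^ (-w) else 0) (R w)) :
    (∀ w : ℂ, w.re = σ → ‖R w‖ ≤ C) ∧
    (Integrable fun ξ : ℝ => lap ps0 (b + ξ * I) *
      exp ((b + ξ * I) * ((u - Real.log N / 2) / La δ N : ℝ)) *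
      PX N x (v - (b + ξ * I) / La δ N) * R (v - (b + ξ * I) / La δ N)) ∧
    AX δ N x v u = 1 / (2 * π) * ∫ ξ : ℝ, lap ps0 (b + ξ * I) *
      exp ((b + ξ * I) * ((u - Real.log N / 2) / La δ N : ℝ)) *
      PX N x (v - (b + ξ * I) / La δ N) * R (v - (b + ξ * I) / La δ N) := by
  set Lm := La δ N with hLmd
  set a : ℕ → ℂ → ℂ := fun n w =>
    if rg (zz δ N) n then (moebius n : ℂ) * x.2 n * (n : ℂ) ^ (-w) else 0 with ha
  have hab : ∀ n w, w.re = σ → ‖a n w‖ ≤ if rg (zz δ N) n then (n : ℝ) ^ (-σ) else 0 := by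
    intro n w hw
    simp only [ha]
    split_ifs
    · rw [norm_mul, norm_mul, Complex.norm_natCast_cpow_of_re_ne_zero n
        (by rw [neg_re, hw]; exact neg_ne_zero.mpr hσ.ne'), neg_re, hw, Complex.norm_intCast]
      refine mul_le_of_le_one_left (by positivity) (mul_le_one₀ ?_ (norm_nonneg _)
        (DirichletCharacter.norm_le_one _ _))
      exact_mod_cast abs_moebius_le_one
    · rw [norm_zero]
  have hRb : ∀ w : ℂ, w.re = σ → ‖R w‖ ≤ C := fun w hw =>
    ((hR w hw).norm_le_of_bounded hs.hasSum fun n => hab n w hw).trans hC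
  set w : ℝ → ℂ := fun ξ => v - (b + ξ * I) / Lm with hw
  have hwr : ∀ ξ, (w ξ).re = σ := fun ξ => by
    simp only [hw, sub_re, div_ofReal_re, add_re, ofReal_re, mul_re, Complex.I_re, mul_zero,
      ofReal_im, Complex.I_im, mul_one, sub_self, add_zero, hb]
  have hwc : Continuous w := by simp only [hw]; fun_prop
  set H : ℝ → ℂ := fun ξ => lap ps0 (b + ξ * I) *
    exp ((b + ξ * I) * ((u - Real.log N / 2) / Lm : ℝ)) * PX N x (w ξ) with hH
  have iH : Integrable H := (hF _).1.mul_bdd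
    ((px_diff N x).continuous.comp hwc).aestronglyMeasurable (Eventually.of_forall fun ξ =>
      px_le N x _ |1 - σ| (by omega) (abs_nonneg _) (by rw [hwr]; linarith [le_abs_self (1 - σ)]))
  have ac : ∀ n, Continuous fun ξ => a n (w ξ) := by
    intro n
    simp only [ha]
    split_ifs
    · rcases eq_or_ne n 0 with rfl | hn
      · simp only [ArithmeticFunction.map_zero, Int.cast_zero, zero_mul]
        exact continuous_const
      · exact continuous_const.mul (hwc.neg.const_cpow (Or.inl (by exact_mod_cast hn)))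
    · exact continuous_const
  have Rc : Continuous fun ξ => R (w ξ) :=
    (continuous_tsum ac hs fun n ξ => hab n _ (hwr ξ)).congr fun ξ => (hR _ (hwr ξ)).tsum_eq
  refine ⟨hRb, iH.mul_bdd Rc.aestronglyMeasurable (Eventually.of_forall fun ξ => hRb _ (hwr ξ)), ?_⟩
  have iG : ∀ n, Integrable fun ξ => H ξ * a n (w ξ) := fun n =>
    iH.mul_bdd (ac n).aestronglyMeasurable (Eventually.of_forall fun ξ => hab n _ (hwr ξ))
  have sG := hasSum_integral_of_summable_integral_norm iG (by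
    refine Summable.of_nonneg_of_le (fun n => integral_nonneg fun ξ => norm_nonneg _)
      (fun n => ?_) (hs.mul_left (∫ ξ, ‖H ξ‖))
    rw [← integral_mul_const]
    refine integral_mono (iG n).norm (iH.norm.mul_const _) fun ξ => ?_
    simp only [norm_mul (H ξ)]
    exact mul_le_mul_of_nonneg_left (hab n _ (hwr ξ)) (norm_nonneg _))
  have eR : ∀ ξ, ∑' n, H ξ * a n (w ξ) = H ξ * R (w ξ) := fun ξ =>
    ((hR _ (hwr ξ)).mul_left _).tsum_eq
  simp only [eR] at sG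
  have pi0 : (2 * π : ℂ) ≠ 0 := by exact_mod_cast Real.two_pi_pos.ne'
  have eG : ∀ n, 1 / (2 * π) * ∫ ξ, H ξ * a n (w ξ) = if rg (zz δ N) n then ∑ t ∈ PP N,
      (moebius n : ℂ) * x.2 (t * n : ℕ) * ((t * n : ℕ) : ℂ) ^ (-v) *
        psi δ N (u + Real.log (t * n : ℕ)) else 0 := by
    intro n
    simp only [ha]
    split_ifs
    · rcases eq_or_ne n 0 with rfl | hn
      · simp
      have e1 : ∀ ξ : ℝ, H ξ * ((moebius n : ℂ) * x.2 n * (n : ℂ) ^ (-w ξ)) = ∑ t ∈ PP N,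
          (moebius n : ℂ) * x.2 (t * n : ℕ) * ((t * n : ℕ) : ℂ) ^ (-v) * (lap ps0 (b + ξ * I) *
            exp ((b + ξ * I) * ((u - Real.log N / 2 + Real.log (t * n : ℕ)) / Lm : ℝ))) := by
        intro ξ
        simp only [hH, PX, mul_sum, sum_mul]
        refine sum_congr rfl fun t ht => ?_
        have h := pow_shift (t * n) (mul_ne_zero (mem_filter.mp ht).2.1.ne_zero hn) v (b + ξ * I) Lm
          (u - Real.log N / 2)
        have h2 : ((t * n : ℕ) : ℂ) ^ (-w ξ) = (t : ℂ) ^ (-w ξ) * (n : ℂ) ^ (-w ξ) := by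
          rw [Nat.cast_mul, Complex.natCast_mul_natCast_cpow]
        have h3 : x.2 (t * n : ℕ) = x.2 t * x.2 n := by rw [Nat.cast_mul, map_mul]
        change _ = _ * ((t * n : ℕ) : ℂ) ^ (-w ξ) at h
        rw [h2] at h
        rw [h3]
        linear_combination (-((moebius n : ℂ) * x.2 t * x.2 n * lap ps0 (b + ξ * I))) * h
      simp only [e1]
      rw [integral_finsetSum _ fun t _ => (hF _).1.const_mul _, mul_sum]
      refine sum_congr rfl fun t _ => ?_
      rw [integral_const_mul, psi, (hF _).2, add_sub_right_comm]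
      change _ = _ * (_ * ∫ ξ : ℝ, lap ps0 (b + ξ * I) * exp ((b + ξ * I) *
        ((u - Real.log N / 2 + Real.log (t * n : ℕ)) / Lm : ℝ)))
      ring
    · simp
  have sG' := sG.mul_left (1 / (2 * π) : ℂ)
  simp only [eG] at sG'
  refine HasSum.unique ?_ sG'
  have e2 : AX δ N x v u = ∑ n ∈ Icc 1 (KK δ N), if rg (zz δ N) n then ∑ t ∈ PP N,
      (moebius n : ℂ) * x.2 (t * n : ℕ) * ((t * n : ℕ) : ℂ) ^ (-v) *
        psi δ N (u + Real.log (t * n : ℕ)) else 0 := by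
    rw [AX, TR, sum_product_right, sum_filter]
    rfl
  rw [e2]
  refine hasSum_sum_of_ne_finset_zero fun n hn => ?_
  split_ifs
  · refine sum_eq_zero fun t ht => ?_
    rcases eq_or_ne n 0 with rfl | h0
    · simp
    have h1 : KK δ N < n := by
      by_contra h
      exact hn (mem_Icc.mpr ⟨by omega, by omega⟩)
    have h2 : (N : ℝ) ^ (1 / 2 + δ / 2) < n := Nat.lt_of_floor_lt h1
    have N0 : (0 : ℝ) < N := by positivity
    have h3 : (n : ℝ) ≤ (t * n : ℕ) := by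
      exact_mod_cast Nat.le_mul_of_pos_left n (mem_filter.mp ht).2.1.pos
    have h4 := Real.log_le_log (Real.rpow_pos_of_pos N0 _) (h2.le.trans h3)
    rw [Real.log_rpow N0] at h4
    have h5 : psi δ N (u + Real.log (t * n : ℕ)) = 0 := by
      by_contra h
      linarith [hps _ h]
    rw [h5, ofReal_zero, mul_zero]
  · rfl

end ShA

end Pool.Agent.MP_20b2fd_nt.H38
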