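import Mathlib

/-! Statements of the automorphic rows (weight two, prime level).
Paper proof: /team-store/MP_20b2fd_H38_A.md -/

set_option autoImplicit false

namespace Pool.Agent.MP_20b2fd_nt.H38

open UpperHalfPlane hiding I
open MeasureTheory Complex Finset Filter Topology
open scoped ModularForm Real Manifold ENNReal

/-! ### matrices, slash, coordinates -/

/-- the integer matrix with rows `(a, b)` and `(c, d)` -/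
abbrev Mt := ℤ × ℤ × ℤ × ℤ

def det (g : Mt) : ℤ := g.1 * g.2.2.2 - g.2.1 * g.2.2.1

def mul (g h : Mt) : Mt :=
  (g.1 * h.1 + g.2.1 * h.2.2.1, g.1 * h.2.1 + g.2.1 * h.2.2.2,
    g.2.2.1 * h.1 + g.2.2.2 * h.2.2.1, g.2.2.1 * h.2.1 + g.2.2.2 * h.2.2.2)

def adj (g : Mt) : Mt := (g.2.2.2, -g.2.1, -g.2.2.1, g.1)

def smu (n : ℤ) (g : Mt) : Mt := (n * g.1, n * g.2.1, n * g.2.2.1, n * g.2.2.2)

noncomputable def gr (a b c d : ℝ) : GL (Fin 2) ℝ :=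
  if h : a * d - b * c ≠ 0 then
    Matrix.GeneralLinearGroup.mkOfDetNeZero !![a, b; c, d] (by rwa [Matrix.det_fin_two_of])
  else 1

noncomputable def gl (g : Mt) : GL (Fin 2) ℝ := gr g.1 g.2.1 g.2.2.1 g.2.2.2

/-- the slash operator of weight two -/
noncomputable def sr (F : ℍ → ℂ) (g : GL (Fin 2) ℝ) : ℍ → ℂ := F ∣[(2 : ℤ)] g

noncomputable def sl (F : ℍ → ℂ) (g : Mt) : ℍ → ℂ := sr F (gl g)

noncomputable def ac (g : Mt) (z : ℍ) : ℍ := gl g • z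

/-- matrices of determinant `m` and level `N` -/
def MM (N m : ℕ) : Set Mt := {g | det g = m ∧ (N : ℤ) ∣ g.2.2.1}

def WN (N : ℕ) : Mt := (0, -1, N, 0)

def Inv (N : ℕ) (F : ℍ → ℂ) : Prop := ∀ g ∈ MM N 1, sl F g = F

noncomputable def ee (x : ℂ) : ℂ := exp (2 * π * I * x)

noncomputable def pt (x y : ℝ) : ℍ := ofComplex (x + y * I)

noncomputable def pe (F G : ℍ → ℂ) (z : ℍ) : ℂ := F z * (starRingEnd ℂ) (G z) * (z.im : ℂ) ^ 2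

abbrev CF (N : ℕ) := CuspForm (CongruenceSubgroup.Gamma0 N) 2

noncomputable def co (f : ℍ → ℂ) (n : ℕ) : ℂ := (qExpansion 1 f).coeff n

def tau (n : ℕ) : ℝ := n.divisors.card

def sig (n : ℕ) : ℝ := ∑ d ∈ n.divisors, (d : ℝ)

structure KitS : Prop where
  coe : ∀ (a b c d : ℝ) (z : ℍ), 0 < a * d - b * c →
    ((gr a b c d • z : ℍ) : ℂ) = (a * z + b) / (c * z + d)
  den : ∀ (c d : ℝ) (z : ℍ), c ≠ 0 ∨ d ≠ 0 → (c : ℂ) * z + d ≠ 0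
  im : ∀ (a b c d : ℝ) (z : ℍ), 0 < a * d - b * c →
    (gr a b c d • z).im = (a * d - b * c) * z.im / ‖(c : ℂ) * z + d‖ ^ 2
  slr : ∀ (F : ℍ → ℂ) (a b c d : ℝ) (z : ℍ), 0 < a * d - b * c →
    sr F (gr a b c d) z = ((a * d - b * c : ℝ) : ℂ) / ((c : ℂ) * z + d) ^ 2 * F (gr a b c d • z)
  grm : ∀ a b c d a' b' c' d' : ℝ, a * d - b * c ≠ 0 → a' * d' - b' * c' ≠ 0 →
    gr a b c d * gr a' b' c' d' =
      gr (a * a' + b * c') (a * b' + b * d') (c * a' + d * c') (c * b' + d * d')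
  srm : ∀ (F : ℍ → ℂ) (g h : GL (Fin 2) ℝ), sr (sr F g) h = sr F (g * h)
  refl : ∀ (F : ℍ → ℂ) (z : ℍ), ((gr (-1) 0 0 1 • z : ℍ) : ℂ) = -(starRingEnd ℂ) z ∧
    sr F (gr (-1) 0 0 1) z = (starRingEnd ℂ) (F (gr (-1) 0 0 1 • z))
  coez : ∀ (g : Mt) (z : ℍ), 0 < det g →
    ((ac g z : ℍ) : ℂ) = (g.1 * z + g.2.1) / (g.2.2.1 * z + g.2.2.2)
  imz : ∀ (g : Mt) (z : ℍ), 0 < det g →
    (ac g z).im = det g * z.im / ‖(g.2.2.1 : ℂ) * z + g.2.2.2‖ ^ 2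
  slz : ∀ (F : ℍ → ℂ) (g : Mt) (z : ℍ), 0 < det g →
    sl F g z = (det g : ℂ) / ((g.2.2.1 : ℂ) * z + g.2.2.2) ^ 2 * F (ac g z)
  slm : ∀ (F : ℍ → ℂ) (g h : Mt), det g ≠ 0 → det h ≠ 0 → sl (sl F g) h = sl F (mul g h)
  acm : ∀ (g h : Mt) (z : ℍ), det g ≠ 0 → det h ≠ 0 → ac (mul g h) z = ac g (ac h z)
  sca : ∀ (F : ℍ → ℂ) (n : ℤ) (g : Mt), n ≠ 0 → 0 < det g →
    sl F (smu n g) = sl F g ∧ ac (smu n g) = ac g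
  one : ∀ F : ℍ → ℂ, sl F (1, 0, 0, 1) = F ∧ ac (1, 0, 0, 1) = id
  pes : ∀ (F G : ℍ → ℂ) (g : GL (Fin 2) ℝ) (z : ℍ), 0 < g.det.val →
    pe (sr F g) (sr G g) z = pe F G (g • z)
  pez : ∀ (F G : ℍ → ℂ) (g : Mt) (z : ℍ), 0 < det g → pe (sl F g) (sl G g) z = pe F G (ac g z)
  mp : ∀ g : GL (Fin 2) ℝ, MeasurePreserving (fun z : ℍ => g • z) volume volume
  ints : ∀ (g : GL (Fin 2) ℝ) (u : ℍ → ℂ), ∫ z, u (g • z) = ∫ z, u z ∧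
    (Integrable (fun z => u (g • z)) ↔ Integrable u)
  msr : ∀ (F : ℍ → ℂ) (g : GL (Fin 2) ℝ), Measurable F → Measurable (sr F g)
  mpe : ∀ F G : ℍ → ℂ, Measurable F → Measurable G → Measurable (pe F G)
  mts : ∀ (ι : Type) [Countable ι] (F : ι → ℍ → ℂ), (∀ i, Measurable (F i)) →
    (∀ z, Summable fun i => F i z) → Measurable fun z => ∑' i, F i z
  ptc : ∀ x y : ℝ, 0 < y → ((pt x y : ℍ) : ℂ) = x + y * I ∧ (pt x y).re = x ∧ (pt x y).im = y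
  mpt : Measurable fun p : ℝ × ℝ => pt p.1 p.2
  lint : ∀ u : ℍ → ℝ≥0∞, Measurable u →
    ∫⁻ z, u z = ∫⁻ y in Set.Ioi (0 : ℝ), ∫⁻ x : ℝ, u (pt x y) * ENNReal.ofReal (1 / y ^ 2)
  intg : ∀ u : ℍ → ℂ, Measurable u →
    (Integrable u ↔ Integrable (fun p : ℝ × ℝ => u (pt p.2 p.1) / (p.1 : ℂ) ^ 2)
      ((volume.restrict (Set.Ioi (0 : ℝ))).prod volume)) ∧
    (Integrable u → ∫ z, u z = ∫ y in Set.Ioi (0 : ℝ), ∫ x : ℝ, u (pt x y) / (y : ℂ) ^ 2)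

/-! ### the partition of unity and the inner product -/

noncomputable def hh (y : ℝ) : ℝ :=
  ∑' g : ℕ, 2 * (-1) ^ g * Real.exp (-π * ((g : ℝ) + 1) ^ 2 / (2 * y))

def st (z : ℍ) : Prop := 0 ≤ z.re ∧ z.re < 1

open Classical in
noncomputable def et0 (l : ℝ) (z : ℍ) : ℝ := if st z then hh (l * z.im) else 0

noncomputable def eta (N : ℕ) (z : ℍ) : ℝ := et0 1 z + et0 N (ac (WN N) z)

/-- the Petersson product -/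
noncomputable def ip (N : ℕ) (F G : ℍ → ℂ) : ℂ := ∫ z, (eta N z : ℂ) * pe F G z

def IP (N : ℕ) (F G : ℍ → ℂ) : Prop := Integrable fun z => (eta N z : ℂ) * pe F G z

def ThS : Prop :=
  Measurable hh ∧
  (∀ y : ℝ, 0 < y → 0 ≤ hh y ∧ hh y ≤ 2 * Real.exp (-π / (2 * y)) ∧
    2 * (Real.exp (-π / (2 * y)) - Real.exp (-(2 * π) / y)) ≤ hh y) ∧
  ∀ z : ℍ, HasSum (fun v : {v : ℤ × ℤ // IsCoprime v.1 v.2} =>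
    hh (z.im / ‖(v.1.1 : ℂ) * z + v.1.2‖ ^ 2)) 2

/-- bottom rows of the group of level `N` -/
def PR (N : ℕ) : Set (ℤ × ℤ) := {v | IsCoprime v.1 v.2 ∧ (N : ℤ) ∣ v.1}

/-- a matrix of determinant one with bottom row `v` -/
def bz (v : ℤ × ℤ) : Mt := (Int.gcdB v.1 v.2, -Int.gcdA v.1 v.2, v.1, v.2)

open Classical in
def RgS : Prop :=
  ∀ N : ℕ, (∀ v ∈ PR N, bz v ∈ MM N 1) ∧ ∀ (z : ℍ) (u : Mt → ℂ),
    (∀ g ∈ MM N 1, ∀ j : ℤ, u (mul (1, j, 0, 1) g) = u g) →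
    (Summable fun v : PR N => ‖u (bz v)‖) →
    (Summable fun g : MM N 1 => ‖if st (ac g z) then u g else 0‖) ∧
      ∑' g : MM N 1, (if st (ac g z) then u g else 0) = ∑' v : PR N, u (bz v)

def EtaS : Prop :=
  (∀ l : ℝ, 0 < l → Measurable (et0 l) ∧ (∀ z, 0 ≤ et0 l z) ∧
    Integrable fun z : ℍ => et0 l z * (1 + 1 / z.im ^ 3)) ∧
  ∀ N : ℕ, N.Prime → Measurable (eta N) ∧ (∀ z, 0 ≤ eta N z) ∧ Integrable (eta N) ∧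
    (∀ z, HasSum (fun g : MM N 1 => eta N (ac g z)) 2) ∧
    ∀ u : ℍ → ℂ, (Integrable fun z => (et0 1 z : ℂ) * u z) →
      (Integrable fun z => (et0 N z : ℂ) * u (ac (WN N) z)) →
      (Integrable fun z => (eta N z : ℂ) * u z) ∧ ∫ z, (eta N z : ℂ) * u z =
        (∫ z, (et0 1 z : ℂ) * u z) + ∫ z, (et0 N z : ℂ) * u (ac (WN N) z)

/-- unfolding -/
def UnfS : Prop :=
  ∀ (N : ℕ) (F Φ : ℍ → ℂ), N.Prime → Measurable F → Measurable Φ → Inv N F →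
    Integrable (pe F Φ) → (∀ z, Summable fun g : MM N 1 => ‖sl Φ g z‖) →
    IP N F (fun z => ∑' g : MM N 1, sl Φ g z) ∧
      ip N F (fun z => ∑' g : MM N 1, sl Φ g z) = 2 * ∫ z, pe F Φ z

/-- decay at all cusps -/
def Dec (F : ℍ → ℂ) : Prop :=
  ∃ C : ℝ, ∀ (z : ℍ) (c d : ℤ), c ≠ 0 ∨ d ≠ 0 → z.im ^ 2 * ‖F z‖ ≤ C * ‖(c : ℂ) * z + d‖ ^ 2

/-- boundedness at all cusps -/
def Gro (F : ℍ → ℂ) : Prop :=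
  ∃ C : ℝ, ∀ z : ℍ, ∃ c d : ℤ, (c ≠ 0 ∨ d ≠ 0) ∧ ‖F z‖ * ‖(c : ℂ) * z + d‖ ^ 2 ≤ C

def rp (p i : ℕ) : Mt := if i < p then (1, i, 0, p) else (p, 0, 0, 1)

/-- the Hecke operator -/
noncomputable def TT (p : ℕ) (F : ℍ → ℂ) : ℍ → ℂ := fun z => ∑ i ∈ range (p + 1), sl F (rp p i) z

structure DecS : Prop where
  of : ∀ (N : ℕ) (F : ℍ → ℂ) (C : ℝ), N.Prime → Inv N F →
    (∀ z : ℍ, z.im ^ 2 * ‖F z‖ ≤ C ∧ z.im ^ 2 * ‖sl F (WN N) z‖ ≤ C) → Dec F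
  dsl : ∀ (F : ℍ → ℂ) (g : Mt), 0 < det g → Dec F → Dec (sl F g)
  gsl : ∀ (F : ℍ → ℂ) (g : Mt), 0 < det g → Gro F → Gro (sl F g)
  dsum : ∀ (ι : Type) (J : Finset ι) (c : ι → ℂ) (F : ι → ℍ → ℂ), (∀ i ∈ J, Dec (F i)) →
    Dec fun z => ∑ i ∈ J, c i * F i z
  gro : ∀ F : ℍ → ℂ, Dec F → Gro F
  bd : ∀ F G : ℍ → ℂ, Dec F → Gro G → ∀ m : ℕ, 1 ≤ m →
    ∃ C : ℝ, ∀ g : Mt, det g = m → ∀ z, ‖pe (sl F g) G z‖ ≤ C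
  im : ∀ F : ℍ → ℂ, Gro F → ∃ C : ℝ, ∀ z : ℍ, ‖F z‖ ≤ C * (1 + 1 / z.im ^ 2)
  im' : ∀ F : ℍ → ℂ, Dec F → ∃ C : ℝ, ∀ z : ℍ, z.im * ‖F z‖ ≤ C

open Classical in
def CosS : Prop :=
  ∀ N p : ℕ, N.Prime → p.Prime → p ≠ N →
    Set.BijOn (fun x : Mt × ℕ => mul x.1 (rp p x.2)) (MM N 1 ×ˢ Set.Iio (p + 1)) (MM N p) ∧
    (∀ m : ℕ, ∀ g ∈ MM N (p * m),
      ((range (p + 1)).filter fun i => ∃ h ∈ MM N m, g = mul h (rp p i)).card =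
        if ∃ h : Mt, g = smu p h then p + 1 else 1) ∧
    ∀ F : ℍ → ℂ, Inv N F → Inv N (sl F (WN N)) ∧ Inv N (TT p F) ∧
      TT p (sl F (WN N)) = sl (TT p F) (WN N)

def AdjS : Prop :=
  ∀ (N : ℕ) (F G : ℍ → ℂ) (C : ℝ), N.Prime → Measurable F → Measurable G → Inv N F → Inv N G →
    (∀ p : ℕ, p.Prime → p ≠ N → (∀ g : Mt, det g = p → ∀ z, ‖pe (sl F g) G z‖ ≤ C) →
      ip N (TT p F) G = ip N F (TT p G)) ∧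
    ((∀ z, ‖pe (sl F (WN N)) G z‖ ≤ C) → ip N (sl F (WN N)) G = ip N F (sl G (WN N)))

/-! ### cusp forms -/

def QxS : Prop :=
  ∀ (N : ℕ) [NeZero N] (f : CF N), co f 0 = 0 ∧ (∃ C : ℝ, ∀ n : ℕ, ‖co f n‖ ≤ C * n) ∧
    (∀ z : ℍ, HasSum (fun n : ℕ => co f n * ee (n * z)) (f z)) ∧
    (∀ b : ℕ → ℂ, (∀ z : ℍ, HasSum (fun n : ℕ => b n * ee (n * z)) (f z)) → co f = b) ∧
    (∀ (n : ℕ) (y : ℝ), 0 < y →
      co f n = ∫ x in (0 : ℝ)..1, f (pt x y) * ee (-(n * (x + y * I)))) ∧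
    (∀ g : CF N, co f = co g → f = g) ∧
    ∀ (g : CF N) (c : ℂ) (n : ℕ), co (⇑(f + g)) n = co f n + co g n ∧ co (⇑(c • f)) n = c * co f n

def CuspS : Prop :=
  ∀ N : ℕ, N.Prime →
    (∀ f : CF N, Inv N f ∧ Continuous f ∧ Measurable f ∧ Dec f ∧ ∃ g : CF N, ⇑g = sl f (WN N)) ∧
    ∀ F : ℍ → ℂ, Inv N F → MDifferentiable 𝓘(ℂ) 𝓘(ℂ) F → IsZeroAtImInfty F →
      IsZeroAtImInfty (sl F (WN N)) → ∃ f : CF N, ⇑f = F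

def HqS : Prop :=
  ∀ (N : ℕ) (f : CF N), N.Prime →
    (∀ p : ℕ, p.Prime → p ≠ N → ∃ g : CF N, ⇑g = TT p f ∧
      ∀ n : ℕ, co g n = co f (p * n) + if p ∣ n then p * co f (n / p) else 0) ∧
    ∀ g : CF N, ⇑g = sl f (WN N) → ∀ n : ℕ, co f (N * n) = -co g n

def FdS : Prop := ∀ (N : ℕ) [NeZero N], FiniteDimensional ℂ (CF N)

noncomputable def HL (v : ℝ) : ℝ := ∫ y in Set.Ioi (0 : ℝ), Real.exp (-4 * π * v * y) * hh y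

def RsA : Prop :=
  ∀ (N : ℕ) (f g : CF N), N.Prime → ⇑g = sl f (WN N) → (ip N f f).im = 0 ∧
    HasSum (fun n : ℕ => ‖co f n‖ ^ 2 * HL n + ‖co g n‖ ^ 2 * (HL (n / N) / N)) (ip N f f).re

noncomputable def kap (v : ℝ) : ℝ := 4 * π * v * HL v

def KapS : Prop :=
  ∃ c C : ℝ, 0 < c ∧ 1 ≤ C ∧ ∀ v : ℝ, 0 < v →
    0 < kap v ∧ kap v ≤ 2 ∧ kap v ≤ C / v ^ 3 ∧ (1 ≤ v → v ≤ 2 → c ≤ kap v)

/-- the Hecke product of two indices, tested against `l` -/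
noncomputable def Bh {R : Type} [CommSemiring R] (l : ℕ → R) (m n : ℕ) : R :=
  ∑ d ∈ (m.gcd n).divisors, (d : R) * l (m * n / d ^ 2)

def HbS : Prop :=
  (∀ (l : ℕ → ℂ) (p m n : ℕ), p.Prime → 1 ≤ m → 1 ≤ n →
    Bh l m (p * n) + (if p ∣ n then p * Bh l m (n / p) else 0) =
      Bh l (p * m) n + if p ∣ m then p * Bh l (m / p) n else 0) ∧
  (∀ (N : ℕ) (a : ℕ → ℂ), a 1 = 1 →
    (∀ p n : ℕ, p.Prime → ¬ p ∣ N → 1 ≤ n →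
      a (p * n) + (if p ∣ n then p * a (n / p) else 0) = a p * a n) →
    ∀ m n : ℕ, 1 ≤ m → 1 ≤ n → n.Coprime N → a m * a n = Bh a m n) ∧
  (∀ m n : ℕ, 1 ≤ m → 1 ≤ n → sig m * sig n = Bh sig m n) ∧
  ∀ p n : ℕ, p.Prime → 1 ≤ n → sig (p * n) + (if p ∣ n then p * sig (n / p) else 0) = (p + 1) * sig n

def Eg0S : Prop :=
  ∀ (V : Type) [AddCommGroup V] [Module ℂ V] [FiniteDimensional ℂ V] (B : V → V → ℂ) (ι : Type)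
    (T : ι → V →ₗ[ℂ] V) (φ : V →ₗ[ℂ] ℂ),
    (∀ u v w, B (u + v) w = B u w + B v w) → (∀ (c : ℂ) v w, B (c • v) w = c * B v w) →
    (∀ v w, B w v = (starRingEnd ℂ) (B v w)) → (∀ v, 0 ≤ (B v v).re) → (∀ v, B v v = 0 → v = 0) →
    (∀ i v w, B (T i v) w = B v (T i w)) → (∀ i j v, T i (T j v) = T j (T i v)) →
    (∀ v, (∀ i, ∃ c : ℂ, T i v = c • v) → φ v = 0 → v = 0) →
    ∀ E : Set V, E = {v | φ v = 1 ∧ ∀ i, ∃ c : ℂ, T i v = c • v} →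
      E.Finite ∧ (∀ v ∈ E, ∀ w ∈ E, v ≠ w → B v w = 0) ∧
      (∀ v ∈ E, ∀ (i : ι) (c : ℂ), T i v = c • v → c.im = 0) ∧ Submodule.span ℂ E = ⊤

/-- the normalised eigenforms -/
def EE (N : ℕ) : Set (CF N) :=
  {f | co f 1 = 1 ∧ (∀ p : ℕ, p.Prime → p ≠ N → ∃ l : ℂ, ∀ n : ℕ, 1 ≤ n →
      co f (p * n) + (if p ∣ n then p * co f (n / p) else 0) = l * co f n) ∧
    (sl f (WN N) = f ∨ sl f (WN N) = -⇑f)}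

def EigS : Prop :=
  ∀ N : ℕ, N.Prime → ∃ E : Finset (CF N), (E : Set (CF N)) = EE N ∧
    (∀ f ∈ E, 0 < (ip N f f).re ∧ (∀ n, (co f n).im = 0) ∧ (∀ g ∈ E, f ≠ g → ip N f g = 0) ∧
      (∀ p : ℕ, p.Prime → p ≠ N → TT p f = fun z => co f p * f z) ∧
      ∀ m n : ℕ, 1 ≤ m → 1 ≤ n → n.Coprime N → co f m * co f n = Bh (co f) m n) ∧
    ∀ f : CF N, ∀ n : ℕ, co f n = ∑ g ∈ E, ip N f g / ip N g g * co g n ∧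
      ∀ f' : CF N, ⇑f' = sl f (WN N) →
        co f' n = ∑ g ∈ E, ip N f g / ip N g g * co (sl g (WN N)) n

def BesS : Prop :=
  ∀ (N : ℕ) (ι : Type) (J : Finset ι) (f : ι → ℍ → ℂ) (G : ℍ → ℂ), N.Prime → Measurable G →
    IP N G G → (∀ i ∈ J, Measurable (f i) ∧ IP N (f i) (f i) ∧ 0 < (ip N (f i) (f i)).re ∧
      ∀ j ∈ J, i ≠ j → ip N (f i) (f j) = 0) →
    ∑ i ∈ J, ‖ip N (f i) G‖ ^ 2 / (ip N (f i) (f i)).re ≤ (ip N G G).re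

/-- the central value -/
noncomputable def Lc (f : ℍ → ℂ) : ℂ := 2 * π * ∫ y in Set.Ioi (0 : ℝ), f (pt 0 y)

def AfS : Prop :=
  ∀ (N : ℕ) (f : CF N), N.Prime →
    (∃ L : ℂ → ℂ, Differentiable ℂ L ∧ (∀ s : ℂ, 2 < s.re → LSeriesHasSum (co f) s (L s)) ∧
      L 1 = Lc f) ∧
    (∀ L : ℂ → ℂ, Differentiable ℂ L → (∀ s : ℂ, 2 < s.re → LSeriesHasSum (co f) s (L s)) →
      L 1 = Lc f) ∧
    ∀ (ε : ℂ) (u : ℝ), 0 < u → sl f (WN N) = (fun z => -ε * f z) →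
      Lc f = (∑' n : ℕ, co f n / n * Real.exp (-2 * π * n * u)) +
        ε * ∑' n : ℕ, co f n / n * Real.exp (-2 * π * n / (N * u))

/-! ### Kloosterman sums and the Poincare series -/

noncomputable def ec (c : ℕ) (x : ZMod c) : ℂ := ee (x.val / c)

noncomputable def Kl (c : ℕ) (A k : ℤ) : ℂ :=
  ∑ x ∈ (range c).filter (fun x => x.Coprime c), ec c (A * (x : ZMod c)⁻¹ + k * x)

noncomputable def bb (c : ℕ) : ℝ :=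
  ∏ p ∈ c.primeFactors,
    if c.factorization p = 1 then 2 * (p : ℝ) ^ (3 / 4 : ℝ) else (p : ℝ) ^ c.factorization p

def KlS : Prop :=
  ∀ (c : ℕ) (A k : ℤ), 1 ≤ c → ‖Kl c A k‖ ≤ bb c * (A.gcd c : ℝ) ^ (1 / 4 : ℝ)

def BbS : Prop :=
  (∀ c, 1 ≤ bb c) ∧ (∀ a b : ℕ, a.Coprime b → bb (a * b) = bb a * bb b) ∧
  (∀ p : ℕ, p.Prime → bb p = 2 * (p : ℝ) ^ (3 / 4 : ℝ)) ∧
  ∃ C : ℝ, 1 ≤ C ∧ ∀ (X : ℕ) (θ : ℝ), 15 / 8 ≤ θ → θ ≤ 2 →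
    ∑ c ∈ Icc 1 X, bb c / (c : ℝ) ^ θ ≤ C ∧ ∀ N : ℕ, N.Prime →
      ∑ c ∈ (Icc 1 X).filter (fun c => N ∣ c), bb c / (c : ℝ) ^ θ ≤ C * (N : ℝ) ^ (3 / 4 - θ)

open Classical in
def IkS : Prop :=
  ∃ C : ℝ, 1 ≤ C ∧ ∀ (c : ℕ) (A a b : ℤ), 1 ≤ c → a ≤ b →
    ‖∑ d ∈ (Ioc a b).filter (fun d => IsCoprime d (c : ℤ)), ec c (A * (d : ZMod c)⁻¹)‖ ≤
      C * (((b : ℝ) - a) / c + 1 + Real.log c) * (bb c * (A.gcd c : ℝ) ^ (1 / 4 : ℝ))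

open Classical in
noncomputable def pw (κ ι : ℝ) (A : ℤ) (c : ℕ) (z : ℍ) (d : ℤ) : ℂ :=
  if IsCoprime d (c : ℤ) then
    ec c (A * (d : ZMod c)⁻¹) * (((c : ℂ) * z + d) ^ 2)⁻¹ * ee (-(κ / (c * ((c : ℂ) * z + d)))) *
      Real.exp (-ι * ‖(c : ℂ) * z + d‖ ^ 2 / z.im)
  else 0

noncomputable def pc (κ ι : ℝ) (A : ℤ) (c : ℕ) (z : ℍ) : ℂ := ∑' d : ℤ, pw κ ι A c z d

def PaS : Prop :=
  ∃ C : ℝ, 1 ≤ C ∧ ∀ (κ ι : ℝ) (A : ℤ) (c : ℕ) (z : ℍ), 0 ≤ κ → κ ≤ 1 → 0 ≤ ι → 1 ≤ c →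
    IsCoprime A (c : ℤ) →
    ‖pc κ ι A c z‖ ≤ C * (bb c / (c : ℝ) ^ (31 / 16 : ℝ)) * (1 / z.im + 1 / z.im ^ 4)

def PbS : Prop :=
  ∀ (κ : ℝ) (A : ℤ) (c : ℕ), 0 ≤ κ → 1 ≤ c →
    (∀ z : ℍ, Tendsto (fun ι => pc κ ι A c z) (𝓝[>] 0) (𝓝 (pc κ 0 A c z))) ∧
    MDifferentiable 𝓘(ℂ) 𝓘(ℂ) (pc κ 0 A c) ∧
    ∀ (n : ℕ) (y : ℝ), 0 < y →
      ‖∫ x in (0 : ℝ)..1, pc κ 0 A c (pt x y) * ee (-(n * (x + y * I)))‖ ≤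
        ‖Kl c A n‖ * Real.exp (2 * π * n * y) * (π / (c * √(c ^ 2 * y ^ 2 + 2 * π * κ * y)))

open Classical in
noncomputable def P0 (ι : ℝ) (z : ℍ) : ℂ := if st z then ee z * Real.exp (-ι / z.im) else 0

/-- the Poincare series at the cusp at infinity -/
noncomputable def P1 (N : ℕ) (ι : ℝ) (z : ℍ) : ℂ :=
  ee z * Real.exp (-ι / z.im) + ∑' c : ℕ, if 1 ≤ c ∧ N ∣ c then pc 1 ι 1 c z else 0

/-- the Poincare series at the cusp zero -/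
noncomputable def P2 (N : ℕ) (ι : ℝ) (z : ℍ) : ℂ :=
  1 / N * ∑' c : ℕ, if 1 ≤ c ∧ ¬ N ∣ c then pc (1 / N) (N * ι) ((N : ZMod c)⁻¹).val c z else 0

def PcS : Prop :=
  ∀ (N : ℕ) (ι : ℝ), N.Prime → 0 < ι → Measurable (P0 ι) ∧
    (∀ z, Summable fun g : MM N 1 => ‖sl (P0 ι) g z‖) ∧
    (∀ z, ∑' g : MM N 1, sl (P0 ι) g z = 2 * P1 N ι z) ∧
    Inv N (P1 N ι) ∧ sl (P1 N ι) (WN N) = P2 N ι

/-- the limits are cusp forms with controlled coefficients -/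
def PdS : Prop :=
  ∃ C : ℝ, 1 ≤ C ∧ ∀ N : ℕ, N.Prime → ∃ P Q : CF N, ⇑P = P1 N 0 ∧ ⇑Q = P2 N 0 ∧
    ⇑Q = sl P (WN N) ∧
    (∀ z, Tendsto (fun ι => P1 N ι z) (𝓝[>] 0) (𝓝 (P z)) ∧
      Tendsto (fun ι => P2 N ι z) (𝓝[>] 0) (𝓝 (Q z))) ∧
    (∀ (ι : ℝ) (z : ℍ), 0 ≤ ι → z.im * ‖P1 N ι z‖ ≤ C * (1 + 1 / z.im ^ 3) ∧
      z.im * ‖P2 N ι z‖ ≤ C * (1 + 1 / z.im ^ 3)) ∧
    ∀ n : ℕ, 1 ≤ n →
      ‖co P n - if n = 1 then 1 else 0‖ ≤ C * n * (N : ℝ) ^ (-5 / 4 : ℝ) ∧ ‖co Q n‖ ≤ C * n / N ∧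
      ‖co P n - if n = 1 then 1 else 0‖ ≤ C * ((n : ℝ) / N) ^ (31 / 32 : ℝ) ∧
      ‖co Q n‖ ≤ C * ((n : ℝ) / N) ^ (31 / 32 : ℝ)

def PeS : Prop := ∀ (N : ℕ) (f : CF N), N.Prime → ip N f (P1 N 0) = co f 1 / (4 * π)

/-- the test vector for the large sieve at squares -/
def LsA : Prop :=
  ∃ C : ℝ, 1 ≤ C ∧ ∀ (N K : ℕ) (b : ℕ → ℝ), N.Prime → 1 ≤ K → 4 * K < N →
    ∃ G : ℍ → ℂ, Measurable G ∧ IP N G G ∧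
      (ip N G G).re ≤ C * (1 + (K : ℝ) ^ 2 / N) * ∑ k ∈ Ico K (2 * K), b k ^ 2 ∧
      ∀ f : CF N, ip N f G = ∑ k ∈ Ico K (2 * K), b k * co f (k ^ 2) / k

open Classical in
/-- the periodic seed of that vector -/
noncomputable def l0 (K : ℕ) (b : ℕ → ℝ) (z : ℍ) : ℂ :=
  ∑ k ∈ Ico K (2 * K),
    if 1 ≤ (k : ℝ) ^ 2 * z.im ∧ (k : ℝ) ^ 2 * z.im ≤ 2 then b k * k * ee (k ^ 2 * z) else 0

open Classical in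
/-- the contribution of one modulus -/
def LsB : Prop :=
  ∃ C : ℝ, 1 ≤ C ∧ ∀ (N K c : ℕ) (b : ℕ → ℝ), N.Prime → 1 ≤ K → 4 * K < N → 1 ≤ c → N ∣ c →
    (∀ z : ℍ, {d : ℤ | IsCoprime (c : ℤ) d ∧ sl (l0 K b) (bz (c, d)) z ≠ 0}.Finite) ∧
    (12 * K ^ 2 < c → ∀ (z : ℍ) (d : ℤ), IsCoprime (c : ℤ) d →
      pe (sl (l0 K b) (bz (c, d))) (l0 K b) z = 0) ∧
    (Integrable fun z : ℍ => if st z then
      pe (fun z => ∑' d : ℤ, if IsCoprime (c : ℤ) d then sl (l0 K b) (bz (c, d)) z else 0)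
        (l0 K b) z else 0) ∧
    ‖∫ z : ℍ, if st z then
      pe (fun z => ∑' d : ℤ, if IsCoprime (c : ℤ) d then sl (l0 K b) (bz (c, d)) z else 0)
        (l0 K b) z else 0‖ ≤ C * ∑ k ∈ Ico K (2 * K), b k ^ 2

/-! ### the tube around the imaginary axis -/

noncomputable def bm : ContDiffBump (0 : ℝ) := ⟨1, 2, one_pos, one_lt_two⟩

noncomputable def ph (U : ℝ) (z : ℍ) : ℂ := (bm (z.re / (U * z.im)) : ℝ) / (z : ℂ)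

noncomputable def AA (N : ℕ) (U : ℝ) (m : ℕ) (z : ℍ) : ℂ := ∑' g : MM N m, sl (ph U) g z

noncomputable def c1 (U : ℝ) : ℝ := ∫ u : ℝ, bm (u / U) / (1 + u ^ 2)

noncomputable def a1 (U : ℝ) : ℝ := ∫ u : ℝ, bm (u / U) ^ 2 / (1 + u ^ 2)

/-- the kernel of the terms off the diagonal -/
noncomputable def Kf (U t : ℝ) : ℝ := (∫ z, pe (sr (ph U) (gr (1 + t) t 1 1)) (ph U) z).re

noncomputable def Od (K : ℝ → ℝ) (N m : ℕ) : ℝ :=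
  ∑' h : ℤ, tau h.natAbs * tau (m + h * N : ℤ).natAbs * K (h * N / m)

/-- symmetries of the tube -/
def PhS : Prop :=
  ∀ U : ℝ, 1 ≤ U → Measurable (ph U) ∧ π - 2 / U ≤ c1 U ∧ c1 U ≤ π ∧ 0 ≤ a1 U ∧ a1 U ≤ c1 U ∧
    (∀ z : ℍ, ‖ph U z‖ ≤ 1 / ‖(z : ℂ)‖ ∧ (ph U z ≠ 0 → |z.re| < 2 * U * z.im)) ∧
    (∀ a d : ℝ, 0 < a * d → sr (ph U) (gr a 0 0 d) = ph U) ∧
    (∀ b c : ℝ, b * c < 0 → sr (ph U) (gr 0 b c 0) = -ph U) ∧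
    sr (ph U) (gr (-1) 0 0 1) = -ph U ∧
    (∀ F : ℍ → ℂ, Measurable F → Dec F → Integrable (pe F (ph U))) ∧
    ∀ r R : ℝ, 0 < r → r ≤ R →
      IntegrableOn (pe (ph U) (ph U)) {z | r ≤ ‖(z : ℂ)‖ ∧ ‖(z : ℂ)‖ ≤ R} ∧
      ∫ z in {z : ℍ | r ≤ ‖(z : ℂ)‖ ∧ ‖(z : ℂ)‖ ≤ R}, pe (ph U) (ph U) z = a1 U * Real.log (R / r)

def XaS : Prop :=
  ∀ (N m : ℕ) (U : ℝ), N.Prime → 1 ≤ m → 1 ≤ U →
    (∀ z, {g | g ∈ MM N m ∧ sl (ph U) g z ≠ 0}.Finite) ∧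
    Gro (fun z => ((∑' g : MM N m, ‖sl (ph U) g z‖ : ℝ) : ℂ)) ∧ Gro (AA N U m) ∧
    Measurable (AA N U m) ∧ Inv N (AA N U m) ∧ sl (AA N U m) (WN N) = -AA N U m

def XtS : Prop :=
  ∀ (N m p : ℕ) (U : ℝ), N.Prime → p.Prime → p ≠ N → 1 ≤ m → 1 ≤ U →
    TT p (AA N U m) = fun z => AA N U (p * m) z + if p ∣ m then p * AA N U (m / p) z else 0

/-- the translates of the tube -/
noncomputable def tr (U : ℝ) (b : ℤ) : ℍ → ℂ := sl (ph U) (1, b, 0, 1)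

noncomputable def Ann (r R : ℝ) : Set ℍ := {z | r ≤ ‖(z : ℂ)‖ ∧ ‖(z : ℂ)‖ ≤ R}

def XsS : Prop :=
  ∀ U : ℝ, 1 ≤ U →
    (∀ y₀ : ℝ, 0 < y₀ → ∃ C : ℝ, ∀ z : ℍ, y₀ ≤ z.im →
      ‖(∑' b : ℤ, tr U b z) + I * c1 U‖ ≤ C / z.im ^ 2) ∧
    ∃ (A c : ℂ) (r₀ : ℝ) (ε : ℝ → ℂ), 0 < r₀ ∧ Tendsto ε atTop (𝓝 0) ∧
      ∀ r R : ℝ, 0 < r → r ≤ r₀ → r₀ ≤ R →
        HasSum (fun b : ℤ => if b = 0 then 0 else ∫ z in Ann r R, pe (tr U b) (ph U) z)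
          (A * R - a1 U * Real.log R + c + ε R)

def XbS : Prop :=
  ∀ (N : ℕ) (U : ℝ) (ι : Type) (J : Finset ι) (m : ι → ℕ) (x : ι → ℝ), N.Prime → 1 ≤ U →
    (∀ i ∈ J, 1 ≤ m i ∧ ¬ N ∣ m i) → ∑ i ∈ J, x i * sig (m i) = 0 →
    Dec fun z => ∑ i ∈ J, x i * AA N U (m i) z

def XcS : Prop :=
  ∀ (N : ℕ) (U : ℝ) (f : CF N), N.Prime → 1 ≤ U → ∫ z, pe f (ph U) z = c1 U * I * Lc f / (2 * π)

def XiS : Prop :=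
  ∀ (N : ℕ) (U : ℝ) (f : CF N), N.Prime → 1 ≤ U → co f 1 = 1 →
    (∀ p : ℕ, p.Prime → p ≠ N → TT p f = fun z => co f p * f z) →
    ∀ n : ℕ, 1 ≤ n → n.Coprime N →
      IP N f (AA N U n) ∧ ip N f (AA N U n) = co f n * (c1 U * I * Lc f / π)

def XdS : Prop :=
  ∀ (N : ℕ) (U : ℝ) (ι : Type) (J : Finset ι) (m : ι → ℕ) (x : ι → ℝ), N.Prime → 1 ≤ U →
    (∀ i ∈ J, 1 ≤ m i ∧ (m i).Coprime N) → ∑ i ∈ J, x i * sig (m i) = 0 →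
    ∀ G : ℍ → ℂ, G = (fun z => ∑ i ∈ J, x i * AA N U (m i) z) →
      Measurable G ∧ IP N G G ∧ ip N G G = 2 * ∫ z,
        pe (fun z => ∑ i ∈ J, ∑ j ∈ J, x i * x j * Bh (fun k => AA N U k z) (m i) (m j)) (ph U) z

def XgS : Prop :=
  ∀ U : ℝ, 1 ≤ U →
    (∀ a b c d : ℝ, a ≠ 0 → b ≠ 0 → c ≠ 0 → d ≠ 0 → 0 < a * d - b * c →
      Integrable (pe (sr (ph U) (gr a b c d)) (ph U)) ∧
      (∫ z, pe (sr (ph U) (gr a b c d)) (ph U) z).re = Kf U (b * c / (a * d - b * c))) ∧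
    (∀ (g : Mt) (z : ℍ), g.1 ≠ 0 → g.2.1 ≠ 0 → g.2.2.1 ≠ 0 → g.2.2.2 ≠ 0 → 0 < det g →
      pe (sl (ph U) g) (ph U) z ≠ 0 →
      z ∈ Ann (1 / ((1 + 4 * U ^ 2) * det g)) ((1 + 4 * U ^ 2) * det g)) ∧
    (∀ t : ℝ, 1 + 4 * U ^ 2 ≤ |t| → Kf U t = 0) ∧
    ∀ t : ℝ, t ≠ 0 → t ≠ -1 → Kf U (-1 - t) = -Kf U t

/-- the truncated pairing of one Hecke translate with the tube -/
def XeS : Prop :=
  ∀ U : ℝ, 1 ≤ U → ∃ A c₀ : ℝ, ∀ N m : ℕ, N.Prime → 1 ≤ m → ¬ N ∣ m →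
    (∀ r R : ℝ, 0 < r → IntegrableOn (pe (AA N U m) (ph U)) (Ann r R)) ∧
    Tendsto (fun R : ℝ => (∫ z in Ann (1 / (N * R)) R, pe (AA N U m) (ph U) z).re - A * sig m * R)
      atTop (𝓝 (2 * (a1 U * tau m * Real.log (N / m) + c₀ * tau m + 2 * Od (Kf U) N m)))

/-- the bilinear form of a family -/
noncomputable def Bl {ι : Type} (J : Finset ι) (n : ι → ℕ) (x : ι → ℝ) (l : ℕ → ℝ) : ℝ :=
  ∑ i ∈ J, ∑ j ∈ J, x i * x j * Bh l (n i) (n j)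

def XfS : Prop :=
  ∀ U : ℝ, 1 ≤ U → ∃ c₀ : ℝ, ∀ (N : ℕ) (ι : Type) (J : Finset ι) (n : ι → ℕ) (x : ι → ℝ),
    N.Prime → (∀ i ∈ J, 1 ≤ n i ∧ n i < N) → ∑ i ∈ J, x i * sig (n i) = 0 →
    ∃ G : ℍ → ℂ, Measurable G ∧ IP N G G ∧
      (ip N G G).re = 4 * Bl J n x (fun m =>
        a1 U * tau m * Real.log (N / m) + c₀ * tau m + 2 * Od (Kf U) N m) ∧
      ∀ f : CF N, co f 1 = 1 → (∀ p : ℕ, p.Prime → p ≠ N → TT p f = fun z => co f p * f z) →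
        ip N f G = c1 U * I * Lc f / π * ∑ i ∈ J, x i * co f (n i)

/-! ### the kernel -/

noncomputable def mn (t : ℝ) : ℝ := min 1 (min |t| |1 + t|)

/-- the properties of the kernel that are used -/
def KerOK (B : ℝ) (K : ℝ → ℝ) : Prop :=
  ∃ D : ℕ → ℝ → ℝ, D 0 = K ∧ (∀ j t, t ≠ 0 → t ≠ -1 → HasDerivAt (D j) (D (j + 1) t) t) ∧
    (∀ t, B ≤ |t| → K t = 0) ∧
    (∀ t, t ≠ 0 → t ≠ -1 → |K t| ≤ B * (1 + |Real.log (mn t)|) ∧ K (-1 - t) = -K t ∧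
      ∀ j, 1 ≤ j → j ≤ 4 → |D j t| ≤ B / mn t ^ j) ∧
    ∀ t, t ≠ 0 → |t| ≤ 1 / 2 →
      |t * D 1 t + t ^ 2 * D 2 t| ≤ B * √|t| ∧ |K t - K (-t)| ≤ B * √|t|

noncomputable def be (U u : ℝ) : ℂ := (bm (u / U) : ℝ) / (u + I)

/-- a superposition of bumps and its formal derivatives -/
noncomputable def BI (U : ℝ) (M : ℝ → ℝ → ℂ) (j : ℕ) (t : ℝ) : ℂ :=
  ∫ y in Set.Ioi (0 : ℝ), ∫ x : ℝ, iteratedDeriv j (be U) ((t + x) / y) / (y : ℂ) ^ (j + 1) * M x y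

def BiS : Prop :=
  (∀ (U u : ℝ) (j : ℕ), 1 ≤ U → 2 * U < |u| → iteratedDeriv j (be U) u = 0) ∧
  ∃ C : ℝ, 1 ≤ C ∧ (∀ (U u : ℝ) (j : ℕ), 1 ≤ U → j ≤ 4 → ‖iteratedDeriv j (be U) u‖ ≤ C) ∧
    ∀ (U E : ℝ) (M : ℝ → ℝ → ℂ), 1 ≤ U → U ≤ E →
    (Measurable fun p : ℝ × ℝ => M p.1 p.2) →
    (∀ x y, 0 < y → ‖M x y‖ ≤ E / y ∧ (M x y ≠ 0 → y ≤ E ∧ (|x| ≤ E * y ∨ |1 - x| ≤ E * y))) →
    (∀ j t, t ≠ 0 → t ≠ -1 → HasDerivAt (BI U M j) (BI U M (j + 1) t) t) ∧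
    (∀ j t, t ≠ 0 → t ≠ -1 → Integrable (fun p : ℝ × ℝ =>
      iteratedDeriv j (be U) ((t + p.2) / p.1) / (p.1 : ℂ) ^ (j + 1) * M p.2 p.1)
      ((volume.restrict (Set.Ioi (0 : ℝ))).prod volume)) ∧
    (∀ t, t ≠ 0 → t ≠ -1 → ‖BI U M 0 t‖ ≤ C * E ^ 3 * (1 + |Real.log (mn t)|) ∧
      ∀ j, 1 ≤ j → j ≤ 4 → ‖BI U M j t‖ ≤ C * E ^ 6 / mn t ^ j) ∧
    ((∀ x y, 0 < y → ‖M x y‖ ≤ E) → ∀ t, t ≠ 0 → |t| ≤ 1 / 2 →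
      ‖BI U M 0 t - BI U M 0 (-t)‖ ≤ C * E ^ 3 * √|t| ∧
      ‖BI U M 1 t‖ ≤ C * E ^ 3 / √|t| ∧ ‖BI U M 2 t‖ ≤ C * E ^ 3 / |t|)

open Classical in
/-- the homogeneous part of the density -/
noncomputable def Mh (U w x y : ℝ) : ℂ := if y ≤ w then (starRingEnd ℂ) (be U (x / y)) / y else 0

def KhS : Prop :=
  ∃ C : ℝ, 1 ≤ C ∧ ∀ U w t : ℝ, 1 ≤ U → 0 < w → w ≤ 1 → t ≠ 0 → |t| ≤ 1 / 2 →
    (BI U (Mh U w) 0 (-t)).re = (BI U (Mh U w) 0 t).re ∧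
    |t * (BI U (Mh U w) 1 t).re + t ^ 2 * (BI U (Mh U w) 2 t).re| ≤ C * U / w * |t|

/-- the density of the kernel -/
noncomputable def Mk (U x y : ℝ) : ℂ := (starRingEnd ℂ) (sr (ph U) (gr 1 0 (-1) 1) (pt x y))

open Classical in
def KdS : Prop :=
  ∃ C : ℝ, 1 ≤ C ∧ ∀ U : ℝ, 1 ≤ U → (∀ t, t ≠ 0 → t ≠ -1 → Kf U t = (BI U (Mk U) 0 t).re) ∧
    ∃ M₀ M₁ : ℝ → ℝ → ℂ, (Measurable fun p : ℝ × ℝ => M₀ p.1 p.2) ∧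
      (Measurable fun p : ℝ × ℝ => M₁ p.1 p.2) ∧
      (Measurable fun p : ℝ × ℝ => Mh U (1 / (100 * U)) p.1 p.2) ∧
      ∀ x y, 0 < y → Mk U x y = Mh U (1 / (100 * U)) x y + M₀ x y + M₁ x y ∧
        ‖Mh U (1 / (100 * U)) x y‖ ≤ 1 / y ∧
        (Mh U (1 / (100 * U)) x y ≠ 0 → y ≤ 1 ∧ |x| ≤ 2 * U * y) ∧
        ‖M₀ x y‖ ≤ C * U ^ 2 ∧ (M₀ x y ≠ 0 → y ≤ 3 * U ∧ |x| ≤ (100 * U) ^ 2 * y) ∧
        ‖M₁ x y‖ ≤ 2 / y ∧ (M₁ x y ≠ 0 → y ≤ 1 / (100 * U) ∧ |1 - x| ≤ 10 * U * y)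

def KerS : Prop := ∃ (C : ℝ) (A : ℕ), 1 ≤ C ∧ ∀ U : ℝ, 1 ≤ U → KerOK (C * U ^ A) (Kf U)

/-! ### the spectral data -/

structure Sp where
  g : ℕ
  ω : Fin g → ℝ
  a : Fin g → ℕ → ℝ
  ε : Fin g → ℝ
  L : Fin g → ℝ

structure Sp.Ok (S : Sp) (N : ℕ) (C : ℝ) : Prop where
  pos : ∀ f, 0 < S.ω f
  sgn : ∀ f, S.ε f = 1 ∨ S.ε f = -1
  one : ∀ f, S.a f 1 = 1
  zero : ∀ f, S.a f 0 = 0
  hk : ∀ f m n, 1 ≤ m → 1 ≤ n → n.Coprime N → S.a f m * S.a f n = Bh (S.a f) m n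
  lev : ∀ f n, S.a f (N * n) = S.ε f * S.a f n
  bd : ∀ f, ∃ D : ℝ, ∀ n : ℕ, |S.a f n| ≤ D * n
  af : ∀ f (u : ℝ), 0 < u → S.L f = (∑' n : ℕ, S.a f n / n * Real.exp (-2 * π * n * u)) +
    S.ε f * ∑' n : ℕ, S.a f n / n * Real.exp (-2 * π * n / (N * u))
  pet : ∀ n : ℕ, 1 ≤ n →
    |∑ f, S.ω f * S.a f n - if n = 1 then 1 else 0| ≤ C * n * (N : ℝ) ^ (-5 / 4 : ℝ) ∧
    |∑ f, S.ω f * S.ε f * S.a f n| ≤ C * n / N ∧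
    |∑ f, S.ω f * S.a f n - if n = 1 then 1 else 0| ≤ C * ((n : ℝ) / N) ^ (31 / 32 : ℝ) ∧
    |∑ f, S.ω f * S.ε f * S.a f n| ≤ C * ((n : ℝ) / N) ^ (31 / 32 : ℝ)
  ls : ∀ (K : ℕ) (b : ℕ → ℝ), 1 ≤ K → 4 * K < N →
    ∑ f, S.ω f * (∑ k ∈ Ico K (2 * K), b k * S.a f (k ^ 2) / k) ^ 2 ≤
      C * (1 + (K : ℝ) ^ 2 / N) * ∑ k ∈ Ico K (2 * K), b k ^ 2
  rs : ∀ f, HasSum (fun n : ℕ => S.ω f * (S.a f n ^ 2 / n) * (kap n + kap (n / N))) 1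

/-- the bound for the mollified second moment -/
def Sp.Bs (S : Sp) (N : ℕ) (U c₀ : ℝ) : Prop :=
  ∀ (ι : Type) (J : Finset ι) (n : ι → ℕ) (x : ι → ℝ), (∀ i ∈ J, 1 ≤ n i ∧ n i < N) →
    ∑ i ∈ J, x i * sig (n i) = 0 →
    ∑ f, S.ω f * (S.L f * ∑ i ∈ J, x i * S.a f (n i)) ^ 2 ≤ π / c1 U ^ 2 * Bl J n x fun m =>
      a1 U * tau m * Real.log (N / m) + c₀ * tau m + 2 * Od (Kf U) N m

/-- the even eigenforms, and those with nonzero central value -/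
def Hp (N : ℕ) : Set (CF N) := {f | f ∈ EE N ∧ sl f (WN N) = -⇑f}

def Hn (N : ℕ) : Set (CF N) := {f | f ∈ Hp N ∧ Lc f ≠ 0}

open Classical in
def AutS : Prop :=
  ∃ (C : ℝ) (c₀ : ℝ → ℝ), 1 ≤ C ∧ ∀ N : ℕ, N.Prime → ∃ S : Sp, S.Ok N C ∧
    (∀ U : ℝ, 1 ≤ U → S.Bs N U (c₀ U)) ∧
    (Hp N).ncard = (univ.filter fun f => S.ε f = 1).card ∧
    (Hn N).ncard = (univ.filter fun f => S.ε f = 1 ∧ S.L f ≠ 0).card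

/-! ### rows -/

def RgOf : Prop := KitS → RgS
def EtaOf : Prop := KitS → ThS → RgS → EtaS
def UnfOf : Prop := KitS → EtaS → UnfS
def DecOf : Prop := KitS → DecS
def CosOf : Prop := KitS → CosS
def AdjOf : Prop := KitS → EtaS → CosS → AdjS
def QxOf : Prop := KitS → QxS
def CuspOf : Prop := KitS → DecS → CuspS
def HqOf : Prop := KitS → CosS → QxS → CuspS → HqS
def FdOf : Prop := QxS → FdS
def RsOf : Prop := KitS → ThS → EtaS → DecS → QxS → CuspS → RsA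
def KapOf : Prop := ThS → KapS
def EigOf : Prop :=
  KitS → EtaS → DecS → CosS → AdjS → QxS → CuspS → HqS → FdS → RsA → KapS → HbS → Eg0S → EigS
def BesOf : Prop := KitS → EtaS → BesS
def AfOf : Prop := KitS → QxS → CuspS → AfS
def IkOf : Prop := KlS → BbS → IkS
def PaOf : Prop := IkS → BbS → PaS
def PbOf : Prop := KitS → PbS
def PcOf : Prop := KitS → RgS → PcS
def PdOf : Prop := KitS → QxS → CuspS → KlS → BbS → PaS → PbS → PcS → PdS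
def PeOf : Prop := KitS → EtaS → UnfS → DecS → QxS → CuspS → PcS → PdS → PeS
def LsBOf : Prop := KitS → LsB
def LsAOf : Prop := KitS → RgS → UnfS → DecS → QxS → CuspS → LsB → LsA
def PhOf : Prop := KitS → PhS
def XaOf : Prop := KitS → PhS → XaS
def XtOf : Prop := KitS → CosS → XaS → XtS
def XsOf : Prop := KitS → PhS → XsS
def XbOf : Prop := KitS → DecS → PhS → XaS → XsS → XbS
def XcOf : Prop := KitS → CuspS → PhS → XcS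
def XiOf : Prop :=
  KitS → EtaS → UnfS → DecS → AdjS → QxS → CuspS → HqS → PhS → XaS → XtS → XcS → XiS
def XdOf : Prop :=
  KitS → EtaS → UnfS → DecS → AdjS → HbS → PhS → XaS → XtS → XbS → XdS
def XgOf : Prop := KitS → PhS → XgS
def XeOf : Prop := KitS → DecS → PhS → XaS → XsS → XgS → XeS
def XfOf : Prop := KitS → HbS → PhS → XaS → XbS → XiS → XdS → XeS → XfS
def KhOf : Prop := BiS → KhS
def KdOf : Prop := KitS → PhS → XgS → KdS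
def KerOf : Prop := XgS → BiS → KhS → KdS → KerS
def AutOf : Prop :=
  KitS → EtaS → DecS → QxS → CuspS → HqS → RsA → EigS → BesS → AfS → PdS → PeS → LsA → PhS → XfS →
    AutS

end Pool.Agent.MP_20b2fd_nt.H38
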