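import Pool.Agent.MP_20b2fd_nt.H38.SpecN

/-! The terms off the diagonal.
Paper proof: /team-store/MP_20b2fd_H38_C.md -/

set_option autoImplicit false

namespace Pool.Agent.MP_20b2fd_nt.H38

open MeasureTheory Complex Finset Filter Topology ArithmeticFunction
open DirichletCharacter (LFunction)
open Pool.Agent.MP_c5bf7b_nt.H38 (Phi Ch)
open scoped Real

/-! ### local data -/

abbrev L2 := ℕ × ℕ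

abbrev L3 := L2 × L2 × ℕ

abbrev L5 := L3 × ℕ × ℕ

def al (a p : ℕ) : Finset L2 :=
  if p ∣ 30 * a then range (a.factorization p + 2) ×ˢ {0} else {(0, 0), (1, 0), (0, 1)}

noncomputable def uu (a p : ℕ) (e : L2) : ℝ :=
  if p ∣ 30 * a then dl p (a.factorization p) e.1 else
    if e = (0, 0) then 1 else if e = (1, 0) then -1 / ((p : ℝ) - 1) else 2 / ((p : ℝ) - 1)

def ke (a p : ℕ) (e : L2) : ℕ := if p ∣ 30 * a then 0 else e.1 + e.2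

def al3 (a p : ℕ) : Finset L3 :=
  (al a p ×ˢ al a p ×ˢ range (a.factorization p + 2)).filter fun x =>
    x.2.2 ≤ x.1.1 ∧ x.2.2 ≤ x.2.1.1

def mx (x : L3) : ℕ := x.1.1 + x.2.1.1 - 2 * x.2.2

noncomputable def u3 (a p : ℕ) (x : L3) : ℝ := uu a p x.1 * uu a p x.2.1 * (p : ℝ) ^ x.2.2

def al5 (a q p : ℕ) : Finset L5 :=
  (al3 a p ×ˢ range (2 * a.factorization p + 3) ×ˢ range 2).filter fun y =>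
    y.2.1 ≤ mx y.1 ∧ (p ∣ q → y.2.2 = 0)

open Classical in
/-- the local factor of the sum over the shifts -/
noncomputable def hl (p γ ν : ℕ) (ι : Prop) (X : ℂ) : ℂ :=
  if ν = 0 then γ + 1 - γ * X else
    -(γ + 1 - γ * X) / p + if ι then (γ + 1) * (1 - X) ^ 2 / (p - 1) else 0

noncomputable def lt (a p : ℕ) (y : L5) (X Y E E' W F G : ℂ) : ℂ :=
  u3 a p y.1 * Y ^ (mx y.1 - y.2.1) * W ^ mx y.1 * F ^ y.2.1 * G ^ y.2.2 *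
    hl p y.2.1 y.2.2 (y.2.1 = mx y.1) X * E ^ ke a p y.1.1 * E' ^ ke a p y.1.2.1

noncomputable def Loc (a q p : ℕ) (X Y E E' W F G : ℂ) : ℂ := ∑ y ∈ al5 a q p, lt a p y X Y E E' W F G

/-! ### the long terms -/

noncomputable def SS (δ : ℝ) (N : ℕ) : Finset ℕ := pz (zz δ N)

open Classical in
noncomputable def TR (δ : ℝ) (N : ℕ) : Finset (ℕ × ℕ) :=
  PP N ×ˢ (Icc 1 (KK δ N)).filter (rg (zz δ N))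

noncomputable def TR1 (δ : ℝ) (N : ℕ) : Finset (ℕ × ℕ) := (TR δ N).filter fun i => ¬ i.1 ∣ i.2

noncomputable def wi (δ : ℝ) (N κ : ℕ) (i : ℕ × ℕ) : ℝ :=
  (moebius i.2 : ℝ) / nn i * psi δ N (Real.log κ + Real.log (nn i))

def k1 (a : ℕ) {S : Finset ℕ} (x : S → L3) : ℕ := pp fun p => ke a p (x p).1

def k2 (a : ℕ) {S : Finset ℕ} (x : S → L3) : ℕ := pp fun p => ke a p (x p).2.1

def M3 {S : Finset ℕ} (x : S → L3) : ℕ := pp fun p => mx (x p)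

noncomputable def U3 (a : ℕ) {S : Finset ℕ} (x : S → L3) : ℝ := ∏ p : S, u3 a p (x p)

noncomputable def TS (δ : ℝ) (a N : ℕ) (T : Finset (ℕ × ℕ)) (l : ℕ → ℂ) : ℂ :=
  ∑ x ∈ Fintype.piFinset (fun p : SS δ N => al3 a p), ∑ i ∈ T, ∑ j ∈ T,
    ((U3 a x * wi δ N (k1 a x) i * wi δ N (k2 a x) j : ℝ) : ℂ) * l (M3 x * nn i * nn j)

/-- sizes of the data -/
def SzS : Prop :=
  (∀ (a : ℕ) (S : Finset ℕ), 1 ≤ a → (∀ p ∈ S, p.Prime) →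
    (∀ σ ∈ Fintype.piFinset (fun p : S => al a p),
      pp (fun p => (σ p).1) ≤ 30 * a ^ 2 * pp fun p : S => ke a p (σ p)) ∧
    ∀ x ∈ Fintype.piFinset (fun p : S => al3 a p), M3 x ≤ 900 * a ^ 4 * (k1 a x * k2 a x)) ∧
  ∀ (δ : ℝ) (N : ℕ), 0 < δ → 2 ≤ N → (∀ p ∈ SS δ N, p.Prime) ∧
    (∀ i ∈ TR δ N, 1 ≤ nn i ∧ i.1.Prime ∧ (δ ≤ 1 / 10 ^ 10 → rg (zz δ N) (nn i)) ∧
      ∀ κ : ℕ, 1 ≤ κ → |wi δ N κ i| ≤ 1 / nn i ∧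
        (wi δ N κ i ≠ 0 → (κ : ℝ) * nn i ≤ (N : ℝ) ^ (1 / 2 + δ / 2)))

def O1aS : Prop :=
  ∀ (δ : ℝ) (a : ℕ), 0 < δ → δ ≤ 1 / 10 ^ 10 → 1 ≤ a → ∃ N₀ : ℕ, ∀ N : ℕ, N₀ ≤ N →
    ∀ G : ℕ → ℝ, (∀ n : ℕ, (n : ℝ) ≤ (N : ℝ) ^ (1 / 2 - 2 * δ / 3) → G n = 0) →
    ∑ i ∈ JJ δ a N, xx δ a N i * G (nn i) = -(3 / (4 * lam N)) *
      ∑ σ ∈ Fintype.piFinset (fun p : SS δ N => al a p), ∑ i ∈ TR1 δ N,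
        (∏ p : SS δ N, uu a p (σ p)) * wi δ N (pp fun p : SS δ N => ke a p (σ p)) i *
          G (pp (fun p => (σ p).1) * nn i)

def O1S : Prop :=
  ∀ (δ : ℝ) (a : ℕ), 0 < δ → δ ≤ 1 / 10 ^ 10 → 1 ≤ a → ∃ N₀ : ℕ, ∀ N : ℕ, N₀ ≤ N →
    ∀ l : ℕ → ℝ, (∀ m : ℕ, 1 ≤ m → (m : ℝ) ≤ (N : ℝ) ^ (1 - δ / 10) → l m = 0) →
    ((Bl (JJ δ a N) nn (xx δ a N) l : ℝ) : ℂ) =
      ((3 / (4 * lam N)) ^ 2 : ℝ) * TS δ a N (TR1 δ N) fun m => l m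

def Xb0S : Prop :=
  ∀ (δ : ℝ) (a : ℕ), 0 < δ → δ ≤ 1 / 10 ^ 10 → 1 ≤ a → ∃ N₀ : ℕ, ∀ N : ℕ, N₀ ≤ N →
    ∀ M : ℕ, 1 ≤ M → M ≤ N ^ 2 →
    ∑ x ∈ (Fintype.piFinset fun p : SS δ N => al3 a p).filter (fun x => M3 x = M), |U3 a x| ≤
      (N : ℝ) ^ (δ / 4) / M

open Classical in
def Xb1S : Prop :=
  ∀ (δ : ℝ) (a : ℕ), 0 < δ → δ ≤ 1 / 10 ^ 10 → 1 ≤ a → ∃ N₀ : ℕ, ∀ N : ℕ, N₀ ≤ N →
    ∀ l : ℕ → ℂ,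
    ‖TS δ a N (TR δ N) l‖ ≤
      (N : ℝ) ^ (δ / 2) * ∑ m ∈ Icc 1 ⌊(N : ℝ) ^ (1 + 3 * δ / 2)⌋₊, ‖l m‖ / m ∧
    ‖TS δ a N (TR δ N) l - TS δ a N (TR1 δ N) l‖ ≤ (N : ℝ) ^ (δ / 2) *
      ∑ m ∈ (Icc 1 ⌊(N : ℝ) ^ (1 + 3 * δ / 2)⌋₊).filter (fun m => ∃ t ∈ PP N, t ^ 2 ∣ m),
        ‖l m‖ / m

def DsuS : Prop :=
  ∀ (δ : ℝ) (a : ℕ), 0 < δ → δ ≤ 1 / 10 ^ 10 → 1 ≤ a → ∃ N₀ : ℕ, ∀ (N : ℕ) (Φ : ℕ → ℝ)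
    (k : ℝ → ℝ), N₀ ≤ N → N.Prime → PhOK (zz δ N) Φ → KsOK δ N k →
    ‖TS δ a N (TR δ N) fun m => dv (zz δ N) Φ k N m‖ ≤ (N : ℝ) ^ (-δ)

/-! ### kernels -/

open Classical in
noncomputable def chi0 (η t : ℝ) : ℝ :=
  if t = -1 then 0 else Real.smoothTransition (2 - Real.log |1 + t| / Real.log η)

noncomputable def kc1 (η : ℝ) (K : ℝ → ℝ) (t : ℝ) : ℝ := K t * chi0 η t

noncomputable def kc2 (η : ℝ) (K : ℝ → ℝ) (t : ℝ) : ℝ :=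
  kc1 η K t * (Real.log |1 + t| + 2 * Real.eulerMascheroniConstant)

/-- a kernel that is smooth outside the origin -/
def CutOK (R B E : ℝ) (k : ℝ → ℝ) : Prop :=
  ∃ D : ℕ → ℝ → ℝ, D 0 = k ∧ (∀ j t, t ≠ 0 → HasDerivAt (D j) (D (j + 1) t) t) ∧
    (∀ t, R ≤ |t| → k t = 0) ∧
    (∀ t, t ≠ 0 → t ≠ -1 → |k t| ≤ B * (1 + |Real.log (mn t)|) ∧ |D 1 t| ≤ B / mn t ∧
      |D 2 t| ≤ B / mn t ^ 2) ∧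
    (∀ t, t ≠ 0 → |t| ≤ 1 / 2 → |t * D 1 t + t ^ 2 * D 2 t| ≤ B * √|t| ∧
      |k t - k (-t)| ≤ B * √|t| ∧ |k (-1 + t) - k (-1 - t)| ≤ B * √|t|) ∧
    ∀ t, t ≠ 0 → |k t| ≤ E * (1 + abs (Real.log |t|)) ∧
      ∀ j, 1 ≤ j → j ≤ 4 → |D j t| ≤ E / min 1 |t| ^ j

def Mel1S : Prop :=
  ∃ C : ℝ, 1 ≤ C ∧ ∀ (B η : ℝ) (K : ℝ → ℝ), 1 ≤ B → KerOK B K → 0 < η → η ≤ 1 / 10 →
    CutOK B (C * B) (C * B / η ^ 9) (kc1 η K) ∧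
    CutOK B (C * B ^ 2 * (1 + |Real.log η|)) (C * B ^ 2 / η ^ 9) (kc2 η K) ∧
    ∀ t, (|1 + t| ≤ η ^ 2 → kc1 η K t = 0) ∧ (η ≤ |1 + t| → kc1 η K t = K t) ∧
      |kc1 η K t| ≤ |K t| ∧ |K t - kc1 η K t| ≤ |K t|

noncomputable def ph0 : ContDiffBump (0 : ℝ) := ⟨1 / 2, 1, by norm_num, by norm_num⟩

/-- the cutoff for the moduli -/
noncomputable def Pq (z : ℝ) (q : ℕ) : ℝ := ph0 (Real.log q / Real.log z)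

def KsS : Prop :=
  (∀ z : ℝ, 1 < z → PhOK z (Pq z)) ∧
  ∀ (δ B : ℝ) (K : ℝ → ℝ), 0 < δ → 1 ≤ B → KerOK B K → ∃ N₀ : ℕ, ∀ N : ℕ, N₀ ≤ N →
    KsOK δ N (kc1 ((N : ℝ) ^ (-4 * δ)) K)

def CutS : Prop :=
  ∀ (δ B : ℝ) (a : ℕ) (K : ℝ → ℝ), 0 < δ → δ ≤ 1 / 10 ^ 10 → 1 ≤ B → 1 ≤ a → KerOK B K →
    ∃ N₀ : ℕ, ∀ N : ℕ, N₀ ≤ N →
    (∀ m : ℕ, 1 ≤ m → (m : ℝ) ≤ (N : ℝ) ^ (1 - δ / 10) → Od K N m = 0) ∧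
    ‖TS δ a N (TR δ N) fun m => Od (fun t => K t - kc1 ((N : ℝ) ^ (-4 * δ)) K t) N m‖ ≤
      (N : ℝ) ^ (-δ / 2) ∧
    ‖TS δ a N (TR δ N) (fun m => Od K N m) - TS δ a N (TR1 δ N) fun m => Od K N m‖ ≤
      (N : ℝ) ^ (-δ)

/-- the major arc part of the shifted sum, with a complex power -/
noncomputable def lw (z : ℝ) (Φ : ℕ → ℝ) (k : ℝ → ℝ) (N : ℕ) (w : ℂ) (m : ℕ) : ℂ :=
  ∑' h : ℤ, ((tau h.natAbs * k (h * N / m) : ℝ) : ℂ) * ((m : ℂ) ^ w *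
    ∑ q ∈ Icc 1 ⌊z⌋₊, Φ q * (q : ℂ) ^ (-2 * w) * cq q (m + h * N) / q)

def LwS : Prop :=
  ∀ (δ z : ℝ) (a N : ℕ) (Φ : ℕ → ℝ), 0 < δ → 2 ≤ N →
    (∀ (k : ℝ → ℝ) (R : ℝ), (∀ t, R ≤ |t| → k t = 0) →
      Differentiable ℂ fun w => TS δ a N (TR δ N) (lw z Φ k N w)) ∧
    ∀ (K : ℝ → ℝ) (R η : ℝ), (∀ t, R ≤ |t| → K t = 0) →
      TS δ a N (TR δ N) (fun m => Od K N m) =
        TS δ a N (TR δ N) (fun m => Od (fun t => K t - kc1 η K t) N m) +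
        TS δ a N (TR δ N) (fun m => dv z Φ (kc1 η K) N m) +
        deriv (fun w => TS δ a N (TR δ N) (lw z Φ (kc1 η K) N w)) 0 +
        TS δ a N (TR δ N) (lw z Φ (kc2 η K) N 0)

/-! ### Mellin transforms and the summation over the shifts -/

noncomputable def fe (k : ℝ → ℝ) (e : ℝ) (x : ℝ) : ℂ := ((k (-x) + e * k x : ℝ) : ℂ)

noncomputable def mel (k : ℝ → ℝ) (e : ℝ) (s : ℂ) : ℂ := mellin (fe k e) s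

def Mel2S : Prop :=
  ∃ C : ℝ, 1 ≤ C ∧ ∀ (R B E e : ℝ) (k : ℝ → ℝ), 1 ≤ R → CutOK R B E k → |e| = 1 →
    ContinuousOn (fe k e) (Set.Ioi 0) ∧ (∀ x, R ≤ x → fe k e x = 0) ∧
    (∀ s : ℂ, 0 < s.re → MellinConvergent (fe k e) s ∧ DifferentiableAt ℂ (mel k e) s) ∧
    ∀ s : ℂ, 0 < s.re → s.re ≤ 3 → ‖mel k e s‖ ≤ C * E * R ^ 7 * (1 + 1 / s.re) / ‖s‖ ^ 4

def Mel3S : Prop :=
  ∃ C : ℝ, 1 ≤ C ∧ ∀ (R B E : ℝ) (k : ℝ → ℝ) (s : ℂ), 1 ≤ R → CutOK R B E k → 0 < s.re →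
    s.re ≤ 1 / 4 → ‖mel k 1 s‖ ≤ C * B * R ^ 3 * ((1 + ‖s‖) / ‖s‖ ^ 2) ∧
      ‖mel k (-1) s‖ ≤ C * B * R ^ 3 * (1 / (1 + ‖s‖))

open Classical in
noncomputable def sg (x : CC) : ℝ := if x.2.Even then 1 else -1

/-- the integral on the line -/
noncomputable def VL (k : ℝ → ℝ) (σ : ℝ) (x : CC) (G : ℂ → ℂ) : ℂ :=
  1 / (2 * π) * ∫ τ : ℝ,
    mel k (sg x) (σ + τ * I) * LFunction x.2⁻¹ (σ + τ * I) ^ 2 * G (σ + τ * I)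

open Classical in
/-- the residue -/
noncomputable def VR (k : ℝ → ℝ) (x : CC) (G : ℂ → ℂ) : ℂ :=
  if x.2 = 1 then deriv (fun s => mel k 1 s * Phi x.2 s ^ 2 * G s) 1 else 0

def Tame (G : ℂ → ℂ) : Prop :=
  Differentiable ℂ G ∧ ∃ C : ℝ, ∀ s : ℂ, 0 ≤ s.re → s.re ≤ 3 → ‖G s‖ ≤ C

def VorS : Prop :=
  ∀ (R B E σ : ℝ) (k : ℝ → ℝ) (x : CC), 1 ≤ R → CutOK R B E k → 0 < σ → σ ≤ 1 / 4 →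
    (∀ (ι : Type) (J : Finset ι) (c : ι → ℂ) (G : ι → ℂ → ℂ), (∀ i ∈ J, Tame (G i)) →
      VL k σ x (fun s => ∑ i ∈ J, c i * G i s) = ∑ i ∈ J, c i * VL k σ x (G i) ∧
      VR k x (fun s => ∑ i ∈ J, c i * G i s) = ∑ i ∈ J, c i * VR k x (G i)) ∧
    ∀ (c : ℕ → ℂ) (H : ℂ → ℂ) (v : ℝ) (M : ℕ), Tame H → 0 < v → R * v ≤ M →
      (∀ s : ℂ, s.re = 2 → LSeriesHasSum c s (LFunction x.2⁻¹ s ^ 2 * H s)) →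
      ∑ h ∈ Icc 1 M, c h * fe k (sg x) (h / v) =
        VL k σ x (fun s => H s * (v : ℂ) ^ s) + VR k x (fun s => H s * (v : ℂ) ^ s)

open Classical in
/-- the Dirichlet series over the shifts -/
def HfZ : Prop :=
  ∀ (S : Finset ℕ) (q : ℕ) [NeZero q] (χ : Ch q) (γ ν : S → ℕ) (ι : S → Prop) (s : ℂ),
    (∀ p ∈ S, p.Prime) → 1 < s.re →
    LSeriesHasSum (fun h => (tau (pp γ * h) : ℂ) * χ h * ∏ p : S, if ν p = 0 then 1 else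
        -1 / ((p : ℕ) : ℂ) + if ι p ∧ ¬ (p : ℕ) ∣ h then 1 / (((p : ℕ) : ℂ) - 1) else 0) s
      (LFunction χ s ^ 2 * ∏ p : S, hl p (γ p) (ν p) (ι p) (χ (p : ℕ) * ((p : ℕ) : ℂ) ^ (-s)))

open Classical in
def C0S : Prop :=
  ∀ q b n : ℕ, 1 ≤ q → 1 ≤ n → q.Coprime b →
    ∑ d ∈ n.divisorsAntidiagonal, (moebius d.2 : ℂ) / d.2 *
        (if d.1.Coprime b then 1 / ((q * d.1).totient : ℂ) else 0) =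
      if Squarefree n ∧ n.Coprime q then 1 / (q.totient : ℂ) *
        ∏ p ∈ n.primeFactors, (-1 / (p : ℂ) + if p ∣ b then 0 else 1 / ((p : ℂ) - 1)) else 0

/-- the major arcs in terms of primitive characters -/
def C1S : Prop :=
  ∀ (z : ℝ) (Φ : ℕ → ℂ) (N m : ℕ) (h : ℤ), N.Prime → z < N → (∀ q : ℕ, z < q → Φ q = 0) →
    1 ≤ m → h ≠ 0 →
    ∑ q ∈ Icc 1 ⌊z⌋₊, Φ q * cq q (m + h * N) / q =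
      ∑ g ∈ (m.gcd h.natAbs).divisors, ∑ x ∈ pcs z,
        1 / ((x.1 + 1).totient : ℂ) * (x.2 (m / g : ℕ) * x.2⁻¹ ((-(h / g) * N : ℤ))) *
        ∑ n ∈ (∏ p ∈ pz z, p).divisors.filter (fun n => n.Coprime (x.1 + 1)),
          Φ (g * (x.1 + 1) * n) * ∏ p ∈ n.primeFactors,
            (-1 / (p : ℂ) + if p ∣ m / g * (h.natAbs / g) then 0 else 1 / ((p : ℂ) - 1))

/-- one value of the variable -/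
def Cx1S : Prop :=
  ∀ (z R B E σ : ℝ) (Φ : ℕ → ℝ) (k : ℝ → ℝ) (N r : ℕ) (e : pz z → ℕ) (w : ℂ), N.Prime → z < N →
    (∀ q : ℕ, z < q → Φ q = 0) → 1 ≤ R → CutOK R B E k → 0 < σ → σ ≤ 1 / 4 → 1 ≤ r → rg z r →
    lw z Φ k N w (pp e * r) = ∑ x ∈ pcs z, x.2⁻¹ N / ((x.1 + 1).totient : ℂ) *
      ∑ y ∈ Fintype.piFinset (fun p : pz z => (range (e p + 1) ×ˢ range 2).filter fun y =>
          (p : ℕ) ∣ x.1 + 1 → y.2 = 0),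
        (Φ (pp (fun p => (y p).1) * (x.1 + 1) * pp fun p => (y p).2) *
          ((pp (fun p => (y p).1) * (x.1 + 1) * pp (fun p => (y p).2) : ℕ) : ℂ) ^ (-2 * w) *
          ((pp e * r : ℕ) : ℂ) ^ w * x.2 (pp (fun p => e p - (y p).1) * r : ℕ)) *
        (VL k σ x (fun s => (∏ p : pz z, hl p (y p).1 (y p).2 ((y p).1 = e p)
            (x.2⁻¹ (p : ℕ) * ((p : ℕ) : ℂ) ^ (-s))) *
            (((pp (fun p => e p - (y p).1) * r : ℕ) / N : ℝ) : ℂ) ^ s) +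
          VR k x fun s => (∏ p : pz z, hl p (y p).1 (y p).2 ((y p).1 = e p)
            (x.2⁻¹ (p : ℕ) * ((p : ℕ) : ℂ) ^ (-s))) *
            (((pp (fun p => e p - (y p).1) * r : ℕ) / N : ℝ) : ℂ) ^ s)

/-- the sum over the large primes -/
noncomputable def AX (δ : ℝ) (N : ℕ) (x : CC) (v : ℂ) (u : ℝ) : ℂ :=
  ∑ i ∈ TR δ N, (moebius i.2 : ℂ) * x.2 (nn i) * (nn i : ℂ) ^ (-v) * psi δ N (u + Real.log (nn i))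

noncomputable def XX (δ : ℝ) (a N : ℕ) (Φ : ℕ → ℝ) (x : CC) (s w : ℂ) : ℂ :=
  ∑ y ∈ Fintype.piFinset (fun p : SS δ N => al5 a (x.1 + 1) p),
    (∏ p : SS δ N, lt a p (y p) (x.2⁻¹ (p : ℕ) * ((p : ℕ) : ℂ) ^ (-s))
        (x.2 (p : ℕ) * ((p : ℕ) : ℂ) ^ s) 1 1 (((p : ℕ) : ℂ) ^ w) (((p : ℕ) : ℂ) ^ (-2 * w))
        (((p : ℕ) : ℂ) ^ (-2 * w))) * ((x.1 + 1 : ℕ) : ℂ) ^ (-2 * w) *
      Φ (pp (fun p => (y p).2.1) * (x.1 + 1) * pp fun p => (y p).2.2) *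
      AX δ N x (1 - s - w) (Real.log (k1 a fun p => (y p).1)) *
      AX δ N x (1 - s - w) (Real.log (k2 a fun p => (y p).1))

def Cx2S : Prop :=
  ∀ (δ R B E σ : ℝ) (a N : ℕ) (Φ : ℕ → ℝ) (k : ℝ → ℝ) (w : ℂ), 0 < δ → δ ≤ 1 / 10 ^ 10 →
    N.Prime → (∀ q : ℕ, zz δ N < q → Φ q = 0) → 1 ≤ R → CutOK R B E k → 0 < σ → σ ≤ 1 / 4 →
    TS δ a N (TR δ N) (lw (zz δ N) Φ k N w) =
      ∑ x ∈ pcs (zz δ N), x.2⁻¹ N / ((x.1 + 1).totient : ℂ) *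
          VL k σ x (fun s => (N : ℂ) ^ (-s) * XX δ a N Φ x s w) +
        ∑ x ∈ pcs (zz δ N), x.2⁻¹ N / ((x.1 + 1).totient : ℂ) *
          VR k x fun s => (N : ℂ) ^ (-s) * XX δ a N Φ x s w

/-! ### Euler products -/

def LocS : Prop :=
  ∃ C : ℝ, 1 ≤ C ∧ ∀ (a q p : ℕ) (X Y E E' W F : ℂ), p.Prime → ¬ p ∣ 30 * a → ‖X‖ ≤ 1 →
    ‖Y‖ ≤ 3 → ‖E‖ ≤ 3 → ‖E'‖ ≤ 3 → ‖W‖ ≤ 3 → ‖F‖ ≤ 3 →
    (if p ∣ q then X = 0 ∧ Y = 0 else X * Y = 1) →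
    ‖Loc a q p X Y E E' W F F‖ * (if p ∣ q then (p : ℝ) / (p - 1) else 1) ≤
      (1 + 2 / p + C * (‖E - 1‖ + ‖E' - 1‖ + ‖W - 1‖ + ‖F - 1‖) / p + C / (p : ℝ) ^ 2) *
        ‖1 - Y / p‖ ^ 2

/-- the two regimes for the trivial bound -/
def Rgm (p : ℕ) (X Y E E' W F G : ℂ) : Prop :=
  ‖Y‖ ≤ 3 ∧ ‖E‖ ≤ 3 ∧ ‖E'‖ ≤ 3 ∧ ‖W‖ ≤ 3 ∧ ‖F‖ ≤ 3 ∧
    (‖X‖ ≤ 1 ∧ ‖G‖ ≤ 3 ∨ ‖X‖ ≤ 3 / p ∧ ‖G‖ ≤ 9 * √p)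

def LocA : Prop :=
  ∃ (C : ℝ) (A : ℕ), 1 ≤ C ∧ ∀ (a q p : ℕ) (X Y E E' W F G : ℂ), p.Prime → Rgm p X Y E E' W F G →
    ∑ y ∈ al5 a q p, ‖lt a p y X Y E E' W F G‖ ≤
      if p ∣ 30 * a then ((p : ℝ) ^ (a.factorization p + 1)) ^ A else 1 + C / p

def LzS : Prop :=
  ∀ (a p : ℕ) (E E' : ℂ), p.Prime → p ∣ 30 * a → Loc a 1 p (1 / p) p E E' 1 1 1 = 0

def MsS : Prop :=
  ∃ C : ℝ, 1 ≤ C ∧ ∀ (z : ℝ) (ω : ℂ), 2 ≤ z → |ω.re| * Real.log z ≤ 1 →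
    ∑ p ∈ pz z, ‖(p : ℂ) ^ ω - 1‖ / p ≤ C + C * Real.log (1 + ‖ω‖ * Real.log z)

def EuaS : Prop :=
  ∃ (C : ℝ) (A J : ℕ), 1 ≤ C ∧ ∀ (a q : ℕ) (z : ℝ) (X Y E E' W F G : ℕ → ℂ), 1 ≤ a → 3 ≤ z →
    (∀ p ∈ pz z, Rgm p (X p) (Y p) (E p) (E' p) (W p) (F p) (G p)) →
    ∑ y ∈ Fintype.piFinset (fun p : pz z => al5 a q p),
      ‖∏ p : pz z, lt a p (y p) (X p) (Y p) (E p) (E' p) (W p) (F p) (G p)‖ ≤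
      C * (a : ℝ) ^ A * Real.log z ^ J

def EulS : Prop :=
  ∃ (C : ℝ) (A J : ℕ), 1 ≤ C ∧ ∀ (a : ℕ) (z : ℝ) (x : CC) (s w ω ω' φ : ℂ), 1 ≤ a → 30 ≤ z →
    x ∈ pcs z → 0 ≤ s.re → s.re * Real.log z ≤ 1 → |w.re| * Real.log z ≤ 1 →
    |ω.re| * Real.log z ≤ 1 → |ω'.re| * Real.log z ≤ 1 → |φ.re| * Real.log z ≤ 1 →
    ‖∏ p ∈ pz z, Loc a (x.1 + 1) p (x.2⁻¹ p * (p : ℂ) ^ (-s)) (x.2 p * (p : ℂ) ^ s) ((p : ℂ) ^ ω)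
        ((p : ℂ) ^ ω') ((p : ℂ) ^ w) ((p : ℂ) ^ φ) ((p : ℂ) ^ φ)‖ *
        (((x.1 + 1 : ℕ) : ℝ) / (x.1 + 1).totient) ≤
      C * (a : ℝ) ^ A * Real.log z ^ 2 * ((1 + ‖ω‖ * Real.log z) * (1 + ‖ω'‖ * Real.log z) *
        (1 + ‖w‖ * Real.log z) * (1 + ‖φ‖ * Real.log z)) ^ J * ‖ez x.2 z (1 - s)‖ ^ 2

/-! ### the line -/

def AbS : Prop :=
  ∀ (δ : ℝ) (N : ℕ) (x : CC) (v : ℂ) (u : ℝ), 0 < δ → δ ≤ 1 → 2 ≤ N → v.re ≤ 1 →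
    ‖AX δ N x v u‖ ≤ lam N * (1 + Real.log N) *
      Real.exp ((1 - v.re) * ((1 / 2 + δ / 2) * Real.log N - u))

noncomputable def PX (N : ℕ) (x : CC) (v : ℂ) : ℂ := ∑ t ∈ PP N, x.2 t * (t : ℂ) ^ (-v)

/-- the width of the region that is used -/
noncomputable def wd (c δ : ℝ) (N : ℕ) : ℝ := c / (2 * Real.log (zz δ N))

/-- the scale of the window -/
noncomputable def La (δ : ℝ) (N : ℕ) : ℝ := δ * Real.log N / 2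

def ShS : Prop :=
  ∀ (c : ℝ) (J : ℕ), 0 < c → c ≤ 1 / 10 → ∃ C : ℝ, 1 ≤ C ∧ ∀ δ : ℝ, 0 < δ → δ ≤ c / 10 ^ 10 →
    ∃ N₀ : ℕ, ∀ N : ℕ, N₀ ≤ N → ZFree c (zz δ N) → ∀ x ∈ pcs (zz δ N), ∀ (v : ℂ) (β : ℝ),
    β = v.re - (1 - wd c δ N) → 0 ≤ β → β ≤ wd c δ N → |v.im| ≤ zz δ N ^ 5 + 1 →
    ∃ Γ : ℝ → ℂ, Integrable Γ ∧ (Integrable fun ξ => ‖Γ ξ‖ * (1 + |ξ|) ^ J) ∧
      (∀ u : ℝ, 0 ≤ u → ‖AX δ N x v u - ∫ ξ : ℝ, Γ ξ * exp ((β + ξ / La δ N * I) * u)‖ ≤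
        1 / zz δ N ^ 12 * Real.exp (wd c δ N * u)) ∧
      (∫ ξ : ℝ, ‖Γ ξ‖ * (1 + |ξ|) ^ J) ^ 2 ≤ C * Real.exp (-β * Real.log N) *
        ∫ ξ in (-(La δ N * zz δ N ^ 5))..(La δ N * zz δ N ^ 5),
          ‖PX N x (1 - wd c δ N + (v.im - ξ / La δ N) * I)‖ ^ 2 / (1 + ξ ^ 2)

/-- a double expansion -/
def DfS : Prop :=
  ∀ (ι : Type) (T : Finset ι) (c : ι → ℂ) (x₁ x₂ x₃ : ι → ℝ) (A Φ Γ φ : ℝ → ℂ)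
    (β b l η ε A₀ E₀ : ℝ) (J : ℕ), (∀ i ∈ T, 0 ≤ x₁ i ∧ 0 ≤ x₂ i) → 0 ≤ η → 0 ≤ ε →
    Integrable Γ → (Integrable fun ξ => ‖Γ ξ‖ * (1 + |ξ|) ^ J) → Integrable φ →
    (Integrable fun ξ => ‖φ ξ‖ * (1 + |ξ|) ^ J) →
    (∀ u : ℝ, 0 ≤ u → ‖A u - ∫ ξ : ℝ, Γ ξ * exp ((β + ξ / b * I) * u)‖ ≤ ε * Real.exp (η * u) ∧
      ‖A u‖ ≤ A₀) →
    (∀ u : ℝ, Φ u = ∫ ξ : ℝ, φ ξ * exp (ξ / l * I * u) ∧ ‖Φ u‖ ≤ 1) →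
    (∀ ξ ξ' ξ'' : ℝ, ‖∑ i ∈ T, c i * exp ((β + ξ / b * I) * x₁ i) *
        exp ((β + ξ' / b * I) * x₂ i) * exp (ξ'' / l * I * x₃ i)‖ ≤
      E₀ * ((1 + |ξ|) * (1 + |ξ'|) * (1 + |ξ''|)) ^ J) →
    ‖∑ i ∈ T, c i * Φ (x₃ i) * A (x₁ i) * A (x₂ i)‖ ≤
      E₀ * (∫ ξ : ℝ, ‖Γ ξ‖ * (1 + |ξ|) ^ J) ^ 2 * (∫ ξ : ℝ, ‖φ ξ‖ * (1 + |ξ|) ^ J) +
        (2 * ε * A₀ + ε ^ 2) * ∑ i ∈ T, ‖c i‖ * Real.exp (η * (x₁ i + x₂ i))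

/-- the trivial bound on the line -/
def XcrS : Prop :=
  ∀ (c δ : ℝ) (a : ℕ), 0 < c → c ≤ 1 / 10 → 0 < δ → δ ≤ c / 10 ^ 10 → 1 ≤ a → ∃ N₀ : ℕ,
    ∀ (N : ℕ) (Φ : ℕ → ℝ) (x : CC) (s w : ℂ), N₀ ≤ N → (∀ q, |Φ q| ≤ 1) → x ∈ pcs (zz δ N) →
    s.re = wd c δ N / 2 → ‖w‖ ≤ 1 / Real.log N → ‖XX δ a N Φ x s w‖ ≤ (N : ℝ) ^ δ

/-- the bound on the line by the sum over the primes -/
def XlS : Prop :=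
  ∀ c : ℝ, 0 < c → c ≤ 1 / 10 → ∃ (C : ℝ) (A : ℕ), 1 ≤ C ∧ ∀ (δ : ℝ) (a : ℕ), 0 < δ →
    δ ≤ c / 10 ^ 10 → 1 ≤ a → ∃ N₀ : ℕ, ∀ N : ℕ, N₀ ≤ N → ZFree c (zz δ N) →
    ∀ x ∈ pcs (zz δ N), ∀ s w : ℂ, s.re = wd c δ N / 2 → |s.im| ≤ zz δ N ^ 5 →
    ‖w‖ ≤ 1 / Real.log N →
    ‖XX δ a N (Pq (zz δ N)) x s w‖ * (((x.1 + 1 : ℕ) : ℝ) / (x.1 + 1).totient) ≤
      C * (a : ℝ) ^ A * Real.log (zz δ N) ^ 2 * ‖ez x.2 (zz δ N) (1 - s)‖ ^ 2 *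
        Real.exp (-(wd c δ N * Real.log N / 2)) *
        (∫ ξ in (-(La δ N * zz δ N ^ 5))..(La δ N * zz δ N ^ 5),
          ‖PX N x (1 - wd c δ N - (s.im + w.im + ξ / La δ N) * I)‖ ^ 2 / (1 + ξ ^ 2)) +
      1 / zz δ N ^ 8

def FlnS : Prop :=
  ∀ c : ℝ, 0 < c → c ≤ 1 / 10 → ∃ (C : ℝ) (A : ℕ), 1 ≤ C ∧ ∀ (δ : ℝ) (a : ℕ), 0 < δ →
    δ ≤ c / 10 ^ 10 → 1 ≤ a → ∃ N₀ : ℕ, ∀ (N : ℕ) (R B E : ℝ) (k : ℝ → ℝ) (w : ℂ), N₀ ≤ N →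
    ZFree c (zz δ N) → 1 ≤ R → R ≤ (N : ℝ) ^ δ → B ≤ (N : ℝ) ^ δ → E ≤ (N : ℝ) ^ (40 * δ) →
    CutOK R B E k → ‖w‖ ≤ 1 / Real.log N →
    ‖∑ x ∈ pcs (zz δ N), x.2⁻¹ N / ((x.1 + 1).totient : ℂ) *
        VL k (wd c δ N / 2) x fun s => (N : ℂ) ^ (-s) * XX δ a N (Pq (zz δ N)) x s w‖ ≤
      C * B * R ^ 3 * (a : ℝ) ^ A * Real.exp (-c / (4000 * δ)) * Real.log (zz δ N) +
        (N : ℝ) ^ (-δ)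

/-! ### the residue -/

def Fe2S : Prop :=
  ∀ (A : ℂ → ℂ) (G : ℂ → ℂ → ℂ) (r : ℝ), 0 < r → DifferentiableOn ℂ A (Metric.ball 1 (2 * r)) →
    ContDiff ℂ 2 (fun u : ℂ × ℂ => G u.1 u.2) →
    Differentiable ℂ (fun w => deriv (fun s => A s * G s w) 1) ∧
    (∀ M : ℝ, (∀ s w : ℂ, ‖s - 1‖ ≤ r → ‖w‖ ≤ r → ‖A s * G s w‖ ≤ M) →
      ‖deriv (fun s => A s * G s 0) 1‖ ≤ M / r ∧
      ‖deriv (fun w => deriv (fun s => A s * G s w) 1) 0‖ ≤ M / r ^ 2) ∧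
    ((∃ C : ℝ, ∀ᶠ u : ℂ × ℂ in 𝓝 (1, 0), ‖G u.1 u.2‖ ≤ C * (‖u.1 - 1‖ + ‖u.2‖) ^ 3) →
      deriv (fun s => A s * G s 0) 1 = 0 ∧ deriv (fun w => deriv (fun s => A s * G s w) 1) 0 = 0)

/-- the trivial character -/
noncomputable def x1 : CC := ⟨0, 1⟩

def Rs0S : Prop :=
  ∀ (δ : ℝ) (a N : ℕ), 0 < δ → 2 ≤ N → 1 ≤ a →
    (∀ Φ : ℕ → ℝ, ContDiff ℂ 2 fun u : ℂ × ℂ => (N : ℂ) ^ (-u.1) * XX δ a N Φ x1 u.1 u.2) ∧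
    (5 ≤ zz δ N → ∃ C : ℝ, ∀ᶠ u : ℂ × ℂ in 𝓝 (1, 0),
      ‖(N : ℂ) ^ (-u.1) * XX δ a N (fun _ => 1) x1 u.1 u.2‖ ≤ C * (‖u.1 - 1‖ + ‖u.2‖) ^ 3)

def Rs1S : Prop :=
  ∀ (δ : ℝ) (a : ℕ), 0 < δ → δ ≤ 1 / 10 ^ 10 → 1 ≤ a → ∃ N₀ : ℕ, ∀ (N : ℕ) (Φ : ℕ → ℝ)
    (s w : ℂ), N₀ ≤ N → PhOK (zz δ N) Φ → ‖s - 1‖ ≤ 1 / Real.log N → ‖w‖ ≤ 1 / Real.log N →
    ‖(N : ℂ) ^ (-s) * XX δ a N (fun q => 1 - Φ q) x1 s w‖ ≤ (N : ℝ) ^ (-200 * δ)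

def ResS : Prop :=
  ∀ (δ : ℝ) (a : ℕ), 0 < δ → δ ≤ 1 / 10 ^ 10 → 1 ≤ a → ∃ N₀ : ℕ, ∀ (N : ℕ) (R B E : ℝ)
    (Φ : ℕ → ℝ) (k : ℝ → ℝ) (V : ℂ → ℂ), N₀ ≤ N → PhOK (zz δ N) Φ → 1 ≤ R → R ≤ (N : ℝ) ^ δ →
    E ≤ (N : ℝ) ^ (40 * δ) → CutOK R B E k →
    V = (fun w => ∑ x ∈ pcs (zz δ N), x.2⁻¹ N / ((x.1 + 1).totient : ℂ) *
      VR k x fun s => (N : ℂ) ^ (-s) * XX δ a N Φ x s w) →
    Differentiable ℂ V ∧ ‖V 0‖ ≤ (N : ℝ) ^ (-δ) ∧ ‖deriv V 0‖ ≤ (N : ℝ) ^ (-δ)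

def FkS : Prop :=
  ∀ c : ℝ, 0 < c → c ≤ 1 / 10 → ∃ (C : ℝ) (A : ℕ), 1 ≤ C ∧ ∀ (δ : ℝ) (a : ℕ), 0 < δ →
    δ ≤ c / 10 ^ 10 → 1 ≤ a → ∃ N₀ : ℕ, ∀ (N : ℕ) (R B E : ℝ) (k : ℝ → ℝ), N₀ ≤ N → N.Prime →
    ZFree c (zz δ N) → 1 ≤ R → R ≤ (N : ℝ) ^ δ → B ≤ (N : ℝ) ^ δ → E ≤ (N : ℝ) ^ (40 * δ) →
    CutOK R B E k →
    ‖TS δ a N (TR δ N) (lw (zz δ N) (Pq (zz δ N)) k N 0)‖ ≤
      C * B * R ^ 3 * (a : ℝ) ^ A * Real.exp (-c / (4000 * δ)) * Real.log (zz δ N) + 1 ∧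
    ‖deriv (fun w => TS δ a N (TR δ N) (lw (zz δ N) (Pq (zz δ N)) k N w)) 0‖ ≤
      C * B * R ^ 3 * (a : ℝ) ^ A * Real.exp (-c / (4000 * δ)) * Real.log (zz δ N) * Real.log N + 1

/-! ### rows -/

def SzOf : Prop := WbS → SzS
def O1aOf : Prop := E1S → DlS → WbS → SzS → O1aS
def O1Of : Prop := E1S → DlS → WbS → SzS → O1aS → O1S
def Xb0Of : Prop := MerS → E1S → Xb0S
def Xb1Of : Prop := E1S → SzS → Xb0S → Xb1S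
def DsuOf : Prop := FlS → E1S → WbS → SzS → Xb0S → DsS → DsuS
def KsOf : Prop := Mel1S → KsS
def CutOf : Prop := Mel1S → Xb1S → CutS
def LwOf : Prop := E1S → SzS → LwS
def Mel3Of : Prop := Mel2S → Mel3S
def VorOf : Prop := PhZ → Mel2S → VorS
def HfOf : Prop := E1S → HfZ
def C1Of : Prop := ChS → C0S → C1S
def Cx1Of : Prop := E1S → VorS → HfZ → C1S → Cx1S
def Cx2Of : Prop := E1S → SzS → VorS → Cx1S → Cx2S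
def LzOf : Prop := HbS → DlS → LzS
def MsOf : Prop := MerS → MsS
def EuaOf : Prop := MerS → LocA → EuaS
def EulOf : Prop := MerS → LocS → LocA → MsS → EulS
def AbOf : Prop := WbS → AbS
def ShOf : Prop := FlS → ZbS → WbS → ShS
def XcrOf : Prop := E1S → WbS → EuaS → AbS → XcrS
def XlOf : Prop := FlS → E1S → WbS → EuaS → EulS → AbS → ShS → DfS → XlS
def FlnOf : Prop := PhZ → ZbS → GamS → LsP → WbS → Mel2S → Mel3S → XcrS → XlS → FlnS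
def Rs0Of : Prop := E1S → SzS → LzS → Rs0S
def Rs1Of : Prop := E1S → WbS → SzS → EuaS → AbS → Rs1S
def ResOf : Prop := PhZ → Mel2S → Fe2S → Rs0S → Rs1S → ResS
def FkOf : Prop := KsS → LwS → Cx2S → FlnS → ResS → FkS
def OdsOf : Prop := WbS → O1S → DsuS → Mel1S → KsS → CutS → LwS → FkS → OdsS

end Pool.Agent.MP_20b2fd_nt.H38
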