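import Pool.Agent.MP_c5bf7b_nt.H38.SpecA

/-! Statements of the rows on primes, characters and zeros.
Paper proof: /team-store/MP_20b2fd_H38_Z.md -/

set_option autoImplicit false

namespace Pool.Agent.MP_20b2fd_nt.H38

open MeasureTheory Complex Finset Filter Topology ArithmeticFunction
open DirichletCharacter (LFunction)
open Pool.Agent.MP_c5bf7b_nt.H38 (Phi Ch)
open scoped Real

/-! ### primes -/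

/-- the primes in `(x, y]` -/
noncomputable def prs (x y : ℝ) : Finset ℕ := (Icc 1 ⌊y⌋₊).filter fun p => p.Prime ∧ x < p

noncomputable def pz (z : ℝ) : Finset ℕ := prs 1 z

def MerS : Prop :=
  ∃ D : ℝ, 1 ≤ D ∧
    (∀ x y : ℝ, 1 ≤ x → x ≤ y →
      |∑ p ∈ prs x y, Real.log p / p - Real.log (y / x)| ≤ D ∧
      |∑ p ∈ prs x y, Real.log p / ((p : ℝ) - 1) - Real.log (y / x)| ≤ D) ∧
    (∀ x y : ℝ, 2 ≤ x → x ≤ y →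
      |∑ p ∈ prs x y, (1 : ℝ) / p - Real.log (Real.log y / Real.log x)| ≤ D / Real.log x) ∧
    ∀ y : ℝ, 2 ≤ y → |∑ p ∈ pz y, (1 : ℝ) / p - Real.log (Real.log y)| ≤ D

/-- no prime factor up to `z` -/
def rg (z : ℝ) (n : ℕ) : Prop := ∀ p ∈ pz z, ¬ p ∣ n

/-! ### Fourier and Laplace transforms of bumps -/

noncomputable def lap (f : ℝ → ℝ) (ζ : ℂ) : ℂ := ∫ u : ℝ, (f u : ℂ) * exp (-ζ * u)

def FlS : Prop :=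
  ∀ (f : ℝ → ℝ) (R : ℝ), 0 ≤ R → (∀ n : ℕ, ContDiff ℝ n f) → (∀ u, R < |u| → f u = 0) →
    Differentiable ℂ (lap f) ∧
    (∀ J : ℕ, ∃ C : ℝ, 1 ≤ C ∧ ∀ b ξ : ℝ,
      ‖lap f (b + ξ * I)‖ ≤ C * Real.exp (R * |b|) / (1 + |ξ|) ^ J) ∧
    ∀ b u : ℝ, (Integrable fun ξ : ℝ => lap f (b + ξ * I) * exp ((b + ξ * I) * u)) ∧
      (f u : ℂ) = 1 / (2 * π) * ∫ ξ : ℝ, lap f (b + ξ * I) * exp ((b + ξ * I) * u)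

/-! ### characters -/

/-- a character with its modulus `i + 1` -/
abbrev CC := Σ i : ℕ, Ch (i + 1)

open Classical in
/-- the primitive characters of conductor at most `z` -/
noncomputable def pcs (z : ℝ) : Finset CC :=
  (range ⌊z⌋₊).sigma fun i => univ.filter fun χ : Ch (i + 1) => χ.IsPrimitive

open Classical in
def PhZ : Prop :=
  ∃ C : ℝ, 1 ≤ C ∧ ∀ (q : ℕ) [NeZero q] (χ : Ch q),
    Differentiable ℂ (Phi χ) ∧ (∀ s : ℂ, 1 ≤ s.re → Phi χ s ≠ 0) ∧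
    (∀ τ : ℝ, 1 / 3 ≤ ‖Phi χ (2 + τ * I)‖) ∧
    (∀ s : ℂ, Phi χ⁻¹ ((starRingEnd ℂ) s) = (starRingEnd ℂ) (Phi χ s)) ∧
    (∀ s : ℂ, 1 < s.re → -(deriv (Phi χ) s / Phi χ s) =
      LSeries (fun n => (vonMangoldt n : ℂ) * χ n) s - if χ = 1 then 1 / (s - 1) else 0) ∧
    (∀ s : ℂ, s ≠ 1 → Phi χ s = (if χ = 1 then s - 1 else 1) * LFunction χ s) ∧
    ∀ s : ℂ, 0 < s.re → ‖Phi χ s‖ ≤ C * q * (1 + ‖s‖) ^ 2 * (1 + 1 / s.re) ∧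
      (1 / 2 ≤ ‖s - 1‖ → ‖LFunction χ s‖ ≤ C * q * (1 + ‖s‖) * (1 + 1 / s.re))

/-- the zeros near a point of the line of abscissa two -/
def ZlS : Prop :=
  ∃ K : ℝ, 1 ≤ K ∧ ∀ (q : ℕ) [NeZero q] (χ : Ch q) (τ : ℝ), ∃ Z : Multiset ℂ,
    (∀ ρ ∈ Z, Phi χ ρ = 0 ∧ ρ.re < 1 ∧ ‖ρ - (2 + τ * I)‖ < 7 / 4) ∧
    (∀ ρ : ℂ, ‖ρ - (2 + τ * I)‖ < 5 / 4 → Phi χ ρ = 0 → ρ ∈ Z) ∧
    ∀ s : ℂ, ‖s - (2 + τ * I)‖ < 5 / 4 → Phi χ s ≠ 0 →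
      ‖deriv (Phi χ) s / Phi χ s - (Z.map fun ρ => (s - ρ)⁻¹).sum‖ ≤ K * Real.log (q * (|τ| + 2))

/-- the classical region without zeros -/
def ZfS : Prop :=
  ∃ c₀ : ℝ, 0 < c₀ ∧ c₀ ≤ 1 / 10 ∧ ∀ (z : ℝ) (q : ℕ) [NeZero q] (χ : Ch q) (ρ : ℂ), 2 ≤ z →
    (q : ℝ) ≤ z → Phi χ ρ = 0 → |ρ.im| ≤ z ^ 7 → 1 - c₀ / Real.log z ≤ ρ.re →
    χ ^ 2 = 1 ∧ χ ≠ 1 ∧ ρ.im = 0

/-- the theorem of Landau and Page -/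
def PageS : Prop :=
  ∃ c₀ : ℝ, 0 < c₀ ∧ c₀ ≤ 1 / 10 ∧ ∀ (z : ℝ) (q q' : ℕ) [NeZero q] [NeZero q'] (χ : Ch q)
    (χ' : Ch q') (β β' : ℝ), 2 ≤ z → (q : ℝ) ≤ z → (q' : ℝ) ≤ z → χ ^ 2 = 1 → χ ≠ 1 →
    χ' ^ 2 = 1 → χ' ≠ 1 → LFunction χ β = 0 → LFunction χ' β' = 0 →
    1 - c₀ / Real.log z ≤ β → 1 - c₀ / Real.log z ≤ β' → β = β'

def ZFree (c z : ℝ) : Prop :=
  ∀ x ∈ pcs z, ∀ ρ : ℂ, Phi x.2 ρ = 0 → |ρ.im| ≤ z ^ 7 → ρ.re < 1 - c / Real.log z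

def ZdS : Prop :=
  ∀ c : ℝ, 0 < c → c ≤ 1 / 10 → ∃ C : ℝ, 1 ≤ C ∧ ∀ z : ℝ, 2 ≤ z → ZFree c z → ∀ x ∈ pcs z,
    ∀ s : ℂ, 1 - c / (2 * Real.log z) ≤ s.re → s.re ≤ 2 → |s.im| ≤ z ^ 7 - 2 →
      ‖deriv (Phi x.2) s / Phi x.2 s‖ ≤ C * Real.log z

/-- the inverse Euler factors of the small primes -/
noncomputable def ez {q : ℕ} (χ : Ch q) (z : ℝ) (w : ℂ) : ℂ :=
  ∏ p ∈ pz z, (1 - χ p * (p : ℂ) ^ (-w))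

open Classical in
def EuS : Prop :=
  (∀ (q : ℕ) [NeZero q] (χ : Ch q) (z : ℝ) (w : ℂ), 2 ≤ z → 1 < w.re →
    HasSum (fun n : ℕ => if rg z n then χ n * (n : ℂ) ^ (-w) else 0) (LFunction χ w * ez χ z w) ∧
    HasSum (fun n : ℕ => if rg z n then (moebius n : ℂ) * χ n * (n : ℂ) ^ (-w) else 0)
      (LFunction χ w * ez χ z w)⁻¹) ∧
  ∀ c : ℝ, 0 < c → c ≤ 1 / 10 → ∃ C : ℝ, 1 ≤ C ∧ ∀ z : ℝ, 2 ≤ z →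
    (Summable fun n : ℕ => if rg z n then (n : ℝ) ^ (-(1 + c / (2 * Real.log z))) else 0) ∧
    ∑' n : ℕ, (if rg z n then (n : ℝ) ^ (-(1 + c / (2 * Real.log z))) else 0) ≤ C

open Classical in
/-- the inverse of the function without its small Euler factors -/
noncomputable def Rz {q : ℕ} [NeZero q] (χ : Ch q) (z : ℝ) (w : ℂ) : ℂ :=
  (if χ = 1 then w - 1 else 1) / (Phi χ w * ez χ z w)

open Classical in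
def ZbS : Prop :=
  ∀ c : ℝ, 0 < c → c ≤ 1 / 10 → ∃ C : ℝ, 1 ≤ C ∧ ∀ z : ℝ, 2 ≤ z →
    (Summable fun n : ℕ => if rg z n then (n : ℝ) ^ (-(1 + c / (2 * Real.log z))) else 0) ∧
    ∑' n : ℕ, (if rg z n then (n : ℝ) ^ (-(1 + c / (2 * Real.log z))) else 0) ≤ C ∧
    (ZFree c z → ∀ x ∈ pcs z,
      (∀ w : ℂ, 1 - c / Real.log z < w.re → |w.im| < z ^ 7 → DifferentiableAt ℂ (Rz x.2 z) w) ∧
      (∀ w : ℂ, 1 < w.re →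
        HasSum (fun n : ℕ => if rg z n then (moebius n : ℂ) * x.2 n * (n : ℂ) ^ (-w) else 0)
          (Rz x.2 z w)) ∧
      ∀ w : ℂ, |w.re - 1| ≤ c / (2 * Real.log z) → |w.im| ≤ z ^ 6 → ‖Rz x.2 z w‖ ≤ C ∧
        (c / (4 * Real.log z) ≤ ‖w - 1‖ → ‖LFunction x.2 w * ez x.2 z w‖ ≤ C ∧
          ‖LFunction x.2 w‖ ≤ C * Real.log z ^ 3))

open Classical in
/-- the functional equation as an inequality -/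
def GamS : Prop :=
  ∃ C : ℝ, 1 ≤ C ∧ ∀ (q : ℕ) [NeZero q] (χ : Ch q) (s : ℂ), χ.IsPrimitive → 0 < s.re →
    s.re ≤ 1 / 4 → ‖LFunction χ⁻¹ s‖ ^ 2 ≤
      C * q * (if χ.Even then ‖s‖ ^ 2 / (1 + ‖s‖) else 1 + ‖s‖) * ‖LFunction χ (1 - s)‖ ^ 2

/-! ### the large sieve for primes -/

noncomputable def gb : ContDiffBump (11 : ℝ) := ⟨10, 21 / 2, by norm_num, by norm_num⟩

def Ls0S : Prop :=
  ∃ C : ℝ, 1 ≤ C ∧ ∀ L : ℝ, 1 ≤ L → ∃ G : ℝ → ℂ, Integrable G ∧ ∫ u, ‖G u‖ ≤ C ∧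
    ∀ (a : ℕ → ℂ) (Q M : ℕ) (u : ℝ), 1 ≤ Q → (∀ n, a (n + Q) = a n) → (∀ n, ‖a n‖ ≤ 1) →
      Real.exp (22 * L) ≤ M →
      ‖∑ n ∈ Icc 1 M, a n * (gb (Real.log n / L) : ℝ) * (n : ℂ) ^ (-1 + u * I) -
        (∑ n ∈ range Q, a n) / Q * G u‖ ≤ C * Q * (1 + |u|) * Real.exp (-L / 2)

open Classical in
def Ls1S : Prop :=
  ∃ C : ℝ, 1 ≤ C ∧ ∀ (z L : ℝ) (M : ℕ), 2 ≤ z → 50 * Real.log z ≤ L → Real.exp (22 * L) ≤ M →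
    ∃ (ν : ℕ → ℝ) (G : ℝ → ℝ), (∀ n, 0 ≤ ν n) ∧ (∀ t : ℕ, t.Prime → z < t → ν t = 1) ∧
      (∀ u, 0 ≤ G u) ∧ Integrable G ∧ ∫ u, G u ≤ C / Real.log z ∧
      ∀ x ∈ pcs z, ∀ y ∈ pcs z, ∀ u : ℝ, |u| ≤ 2 * z ^ 6 →
        ‖∑ n ∈ Icc 1 M, ((ν n * gb (Real.log n / L) : ℝ) : ℂ) *
          (x.2 n * (starRingEnd ℂ) (y.2 n)) * (n : ℂ) ^ (-1 + u * I)‖ ≤
          (if x = y then G u else 0) + C / z ^ 13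

def LsP : Prop :=
  ∃ C : ℝ, 1 ≤ C ∧ ∀ (z X : ℝ) (b : ℕ → ℂ), 2 ≤ z → z ^ 50 ≤ X →
    ∑ x ∈ pcs z, ∫ τ in (-z ^ 6)..(z ^ 6),
        ‖∑ t ∈ prs X (X ^ 21), b t * x.2 t * (t : ℂ) ^ (τ * I)‖ ^ 2 ≤
      C / Real.log z * ∑ t ∈ prs X (X ^ 21), ‖b t‖ ^ 2 * t

open Classical in
/-- orthogonality in terms of primitive characters -/
def ChS : Prop :=
  ∀ (z : ℝ) (e : ℕ) (u v : ℤ), 1 ≤ e → (e : ℝ) ≤ z →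
    (if IsCoprime u (e : ℤ) ∧ (e : ℤ) ∣ u - v then (e.totient : ℂ) else 0) =
      ∑ x ∈ (pcs z).filter (fun x => x.1 + 1 ∣ e),
        if IsCoprime u (e : ℤ) ∧ IsCoprime v (e : ℤ) then x.2 u * x.2⁻¹ v else 0

/-! ### rows -/

def ZlOf : Prop := PhZ → ZlS
def ZfOf : Prop := PhZ → ZlS → ZfS
def PageOf : Prop := PhZ → ZlS → PageS
def ZdOf : Prop := PhZ → ZlS → ZdS
def EuOf : Prop := MerS → EuS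
def ZbOf : Prop := MerS → PhZ → ZdS → EuS → ZbS
def Ls0Of : Prop := FlS → Ls0S
def Ls1Of : Prop := Ls0S → Ls1S
def LsPOf : Prop := Ls1S → LsP

end Pool.Agent.MP_20b2fd_nt.H38
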