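import Pool.Agent.MP_20b2fd_nt.H38.SpecA
import Pool.Agent.MP_20b2fd_nt.H38.SpecZ

/-! Statements of the rows on the dispersion of the divisor function.
Paper proof: /team-store/MP_20b2fd_H38_D.md -/

set_option autoImplicit false

namespace Pool.Agent.MP_20b2fd_nt.H38

open Finset Filter Topology ArithmeticFunction
open scoped Real

/-- the sum of Ramanujan -/
noncomputable def cq (q : ℕ) (l : ℤ) : ℝ :=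
  ∑ e ∈ q.divisors, if (e : ℤ) ∣ l then (moebius (q / e) : ℝ) * e else 0

noncomputable def gw (y₀ Y : ℝ) (y : ℤ) : ℝ := Real.exp (-π * ((y - y₀) / Y) ^ 2)

/-- the density of the common solutions of two congruences -/
noncomputable def rho (B : ℤ) (e e' : ℕ) : ℝ :=
  if ((e.gcd e' : ℕ) : ℤ) ∣ B then 1 / (e.lcm e' : ℝ) else 0

def DrS : Prop :=
  (∀ (u : ℕ) (l : ℤ), 1 ≤ u → ∑ q ∈ u.divisors, cq q l = if (u : ℤ) ∣ l then (u : ℝ) else 0) ∧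
  (∀ (Q : ℕ) (l : ℤ), l ≠ 0 →
    ∑ q ∈ Icc 1 Q, |cq q l| / q ≤ tau l.natAbs * (1 + Real.log Q)) ∧
  (∀ (Z : ℝ) (Q : ℕ) (l : ℤ), l ≠ 0 → 1 ≤ Z →
    ∑ q ∈ (Icc 1 Q).filter (fun q : ℕ => Z < q), |cq q l| / (q : ℝ) ^ 2 ≤ 2 * tau l.natAbs / Z) ∧
  ∀ (q q' : ℕ) (B : ℤ), 1 ≤ q → 1 ≤ q' →
    ∑ e ∈ q.divisors, ∑ e' ∈ q'.divisors,
      (moebius (q / e) : ℝ) * e * ((moebius (q' / e') : ℝ) * e') * rho B e e' =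
      if q = q' then cq q B else 0

def DgS : Prop :=
  (∀ y₀ Y : ℝ, 0 < Y → Summable (gw y₀ Y) ∧
    (∀ (Q : ℕ) (s : ℤ), 1 ≤ Q →
      |(∑' y : ℤ, if (Q : ℤ) ∣ y - s then gw y₀ Y y else 0) - Y / Q| ≤ 3) ∧
    ∀ (t t' e e' : ℕ) (H : ℤ), 1 ≤ e → 1 ≤ e' → t.Coprime e → t'.Coprime e' →
      |(∑' y : ℤ, if (e : ℤ) ∣ t * y + H ∧ (e' : ℤ) ∣ t' * y + H then gw y₀ Y y else 0) -
        Y * rho (((t' : ℤ) - t) * H) e e'| ≤ 3) ∧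
  ∀ P Y s : ℝ, 0 < P → 0 < Y → (Summable fun k : ℤ => Real.exp (-π * (k * Y / P) ^ 2)) ∧
    ((∑' v : ℤ, Real.exp (-π * ((P * v + s) / Y) ^ 2) : ℝ) : ℂ) =
      (Y / P : ℝ) * ∑' k : ℤ, (Real.exp (-π * (k * Y / P) ^ 2) : ℝ) * ee ((k * s / P : ℝ) : ℂ)

/-- pairs of divisors: cancellation in incomplete Kloosterman sums -/
def DkS : Prop :=
  ∃ C : ℝ, 1 ≤ C ∧ ∀ (t t' M U U' : ℕ) (H : ℤ) (G y₀ Y : ℝ), t.Prime → t'.Prime → t ≠ t' →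
    ¬ (t' : ℤ) ∣ H → 1 ≤ M → U ≤ M → U' ≤ M → 0 < Y → 1 ≤ G →
    (∀ a ∈ Icc 1 M, ((((t' : ℤ) - t) * H).gcd (a : ℕ) : ℝ) ≤ G) →
    |∑ u ∈ (Icc 1 U).filter (fun u => ¬ t ∣ u ∧ ¬ t' ∣ u),
        ∑ u' ∈ (Icc 1 U').filter (fun u' => ¬ t' ∣ u'),
          ((∑' y : ℤ, if (u : ℤ) ∣ t * y + H ∧ (u' : ℤ) ∣ t' * y + H then gw y₀ Y y else 0) -
            Y * rho (((t' : ℤ) - t) * H) u u')| ≤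
      C * tau (((t' : ℤ) - t) * H).natAbs * (1 + |H + t' * y₀| / (t' * Y)) * G ^ (1 / 4 : ℝ) *
        (t' : ℝ) ^ (3 / 4 : ℝ) * (1 + Real.log (M * t')) * (M : ℝ) ^ (31 / 8 : ℝ) / Y

def DwS : Prop :=
  ∀ ε : ℝ, 0 < ε → ∃ C : ℝ, 1 ≤ C ∧ ∀ (t t' Q : ℕ) (H s : ℤ) (y₀ Y X : ℝ), 1 ≤ Q → 1 ≤ Y → 1 ≤ X →
    |(H : ℝ)| + (t + t') * (|y₀| + Y) ≤ X →
    (Summable fun y : ℤ => gw y₀ Y y * (tau (t * y + H).natAbs * tau (t' * y + H).natAbs)) ∧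
    (∑' y : ℤ, if (Q : ℤ) ∣ y - s then
      gw y₀ Y y * (tau (t * y + H).natAbs * tau (t' * y + H).natAbs) else 0) ≤
      C * X ^ ε * (Y / Q + 1)

/-- small divisors minus their major arc approximation -/
noncomputable def FF (Φ : ℕ → ℝ) (U t : ℕ) (l : ℤ) : ℝ :=
  ∑ u ∈ (Icc 1 U).filter (fun u => ¬ t ∣ u),
    ((if (u : ℤ) ∣ l then 1 else 0) - 1 / u * ∑ q ∈ u.divisors, Φ q * cq q l)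

/-- the part of the coefficients of `FF` that comes from the major arcs -/
noncomputable def fj (Φ : ℕ → ℝ) (U t e : ℕ) : ℝ :=
  ∑ u ∈ (Icc 1 U).filter (fun u => ¬ t ∣ u), 1 / u *
    ∑ q ∈ u.divisors, if e ∣ q then Φ q * ((moebius (q / e) : ℝ) * e) else 0

def DmS : Prop :=
  ∀ (Φ : ℕ → ℝ) (Z z : ℝ), (∀ q, 0 ≤ Φ q ∧ Φ q ≤ 1) → 1 ≤ Z → (∀ q : ℕ, (q : ℝ) ≤ Z → Φ q = 1) →
    (∀ q : ℕ, z < q → Φ q = 0) →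
    (∀ (U t : ℕ), (∀ l : ℤ, FF Φ U t l = ∑ e ∈ (Icc 1 U).filter (fun e => ¬ t ∣ e),
        (1 - fj Φ U t e) * if (e : ℤ) ∣ l then 1 else 0) ∧
      ∀ e : ℕ, 1 ≤ e → |fj Φ U t e| ≤ (1 + Real.log U) ^ 2 ∧ (z < e → fj Φ U t e = 0)) ∧
    ∀ (U U' t t' : ℕ) (B : ℤ), B ≠ 0 →
      |∑ e ∈ (Icc 1 U).filter (fun e => ¬ t ∣ e), ∑ e' ∈ (Icc 1 U').filter (fun e => ¬ t' ∣ e),
        (1 - fj Φ U t e) * (1 - fj Φ U' t' e') * rho B e e'| ≤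
        2 * tau B.natAbs * (1 + Real.log U) * (1 + Real.log U') / Z

def PhOK (z : ℝ) (Φ : ℕ → ℝ) : Prop :=
  (∀ q, 0 ≤ Φ q ∧ Φ q ≤ 1) ∧ (∀ q : ℕ, (q : ℝ) ^ 2 ≤ z → Φ q = 1) ∧ ∀ q : ℕ, z < q → Φ q = 0

/-- the major arc approximation of the divisor function -/
noncomputable def ts (z : ℝ) (Φ : ℕ → ℝ) (l : ℤ) : ℝ :=
  ∑ q ∈ Icc 1 ⌊z⌋₊, Φ q * cq q l / q *
    (Real.log |(l : ℝ)| - 2 * Real.log q + 2 * Real.eulerMascheroniConstant)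

open Classical in
def DtS : Prop :=
  ∃ C : ℝ, 1 ≤ C ∧ ∀ (z ϵ : ℝ) (Φ : ℕ → ℝ) (U t : ℕ) (l : ℤ), l ≠ 0 → 1 ≤ z →
    (∀ q, 0 ≤ Φ q ∧ Φ q ≤ 1) → (∀ q : ℕ, z < q → Φ q = 0) →
    |FF Φ U t l| ≤ tau l.natAbs * (1 + (1 + Real.log U) ^ 2) ∧
    |ts z Φ l| ≤ C * tau l.natAbs * (1 + Real.log z) * (1 + Real.log |(l : ℝ)| + Real.log z) ∧
    (t.Prime → z < t → ¬ (t : ℤ) ∣ l → z ≤ U → |Real.log (|(l : ℝ)| / (U : ℝ) ^ 2)| ≤ ϵ →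
      |tau l.natAbs - ts z Φ l - 2 * FF Φ U t l| ≤
        ((l.natAbs.divisors.filter fun u : ℕ =>
          U * Real.exp (-ϵ) ≤ u ∧ (u : ℝ) ≤ U * Real.exp ϵ).card : ℝ) +
        C * tau l.natAbs * (1 + Real.log U) ^ 2 * (ϵ + z / U + 1 / t))

/-- the correlation of two primes -/
def DpS : Prop :=
  ∀ ε : ℝ, 0 < ε → ∃ C : ℝ, 1 ≤ C ∧ ∀ (t t' M U U' : ℕ) (H : ℤ) (G y₀ Y X Z z : ℝ) (Φ : ℕ → ℝ),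
    t.Prime → t'.Prime → ¬ (t : ℤ) ∣ H → ¬ (t' : ℤ) ∣ H → 1 ≤ M → U ≤ M → U' ≤ M → 1 ≤ Y →
    1 ≤ G → 1 ≤ Z → 1 ≤ z → (∀ q, 0 ≤ Φ q ∧ Φ q ≤ 1) → (∀ q : ℕ, (q : ℝ) ≤ Z → Φ q = 1) →
    (∀ q : ℕ, z < q → Φ q = 0) →
    (t ≠ t' → ∀ a ∈ Icc 1 M, ((((t' : ℤ) - t) * H).gcd (a : ℕ) : ℝ) ≤ G) →
    |(H : ℝ)| + (t + t') * (|y₀| + Y) ≤ X → (M : ℝ) * t' ≤ X →
    (Summable fun y : ℤ => gw y₀ Y y * (FF Φ U t (t * y + H) * FF Φ U' t' (t' * y + H))) ∧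
    |∑' y : ℤ, gw y₀ Y y * (FF Φ U t (t * y + H) * FF Φ U' t' (t' * y + H))| ≤
      C * X ^ ε * if t = t' then Y else Y / Z + Y / t' + 1 + M * z +
        (1 + |H + t' * y₀| / (t' * Y)) * G ^ (1 / 4 : ℝ) * (t' : ℝ) ^ (3 / 4 : ℝ) *
          (M : ℝ) ^ (31 / 8 : ℝ) / Y

/-- a set of primes in a dyadic interval of the right size -/
def TOK (N : ℕ) (T : ℝ) (P : Finset ℕ) : Prop :=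
  (N : ℝ) ^ (1 / 10000 : ℝ) ≤ T ∧ T ≤ (N : ℝ) ^ (21 / 10000 : ℝ) ∧
    ∀ t ∈ P, t.Prime ∧ T ≤ t ∧ (t : ℝ) ≤ 2 * T

def DcS : Prop :=
  ∀ δ : ℝ, 0 < δ → δ ≤ 1 / 10 ^ 10 → ∃ N₀ : ℕ, ∀ (N : ℕ) (T A y₀ : ℝ) (P : Finset ℕ) (h : ℤ)
    (U : ℕ → ℕ) (a : ℕ → ℂ) (Φ : ℕ → ℝ), N₀ ≤ N → N.Prime → TOK N T P → h ≠ 0 →
    |(h : ℝ)| ≤ (N : ℝ) ^ (4 * δ) → |y₀| ≤ (N : ℝ) ^ (1 + 3 * δ) / T →
    (∀ t, (U t : ℝ) ≤ (N : ℝ) ^ (1 / 2 + 3 * δ)) → (∀ t, ‖a t‖ ≤ A) →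
    PhOK ((N : ℝ) ^ (1000 * δ)) Φ →
    (Summable fun y : ℤ => gw y₀ ((N : ℝ) ^ (1 - 50 * δ) / T) y *
      ‖∑ t ∈ P, a t * FF Φ (U t) t (t * y + h * N)‖ ^ 2) ∧
    ∑' y : ℤ, gw y₀ ((N : ℝ) ^ (1 - 50 * δ) / T) y *
        ‖∑ t ∈ P, a t * FF Φ (U t) t (t * y + h * N)‖ ^ 2 ≤
      A ^ 2 * T ^ 2 * ((N : ℝ) ^ (1 - 50 * δ) / T) * (N : ℝ) ^ (-100 * δ)

/-- the size conditions on a kernel -/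
def KsOK (δ : ℝ) (N : ℕ) (k : ℝ → ℝ) : Prop :=
  (∀ x, (N : ℝ) ^ (-3 * δ) ≤ |x| → |k x| ≤ (N : ℝ) ^ δ) ∧
  (∀ x x', 0 < x * x' → (N : ℝ) ^ (-3 * δ) ≤ |x| → (N : ℝ) ^ (-3 * δ) ≤ |x'| →
    |k x - k x'| ≤ (N : ℝ) ^ (9 * δ) * |x - x'|) ∧
  (∀ x, (N : ℝ) ^ δ ≤ |x| → k x = 0) ∧ ∀ x, |1 + x| ≤ (N : ℝ) ^ (-8 * δ) → k x = 0

/-- one shift and one short interval -/
def Ds1S : Prop :=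
  ∀ δ : ℝ, 0 < δ → δ ≤ 1 / 10 ^ 10 → ∃ N₀ : ℕ, ∀ (N : ℕ) (T b₀ : ℝ) (P J : Finset ℕ) (h : ℤ)
    (y₀ : ℕ) (a β : ℕ → ℂ) (Φ : ℕ → ℝ) (k : ℝ → ℝ), N₀ ≤ N → N.Prime → TOK N T P → h ≠ 0 →
    |(h : ℝ)| ≤ (N : ℝ) ^ (4 * δ) → (N : ℝ) ^ (1 - δ) / (4 * T) ≤ y₀ →
    (y₀ : ℝ) ≤ (N : ℝ) ^ (1 + 2 * δ) / T →
    (∀ y ∈ J, y₀ ≤ y ∧ (y : ℝ) ≤ y₀ + (N : ℝ) ^ (1 - 50 * δ) / T) → (∀ t, ‖a t‖ ≤ 1 / T) →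
    0 ≤ b₀ → (∀ y ∈ J, ‖β y‖ ≤ b₀) → PhOK ((N : ℝ) ^ (1000 * δ)) Φ → KsOK δ N k →
    ‖∑ t ∈ P, ∑ y ∈ J, a t * β y *
      (((tau (t * y + h * N : ℤ).natAbs - ts ((N : ℝ) ^ (1000 * δ)) Φ (t * y + h * N)) *
        k (h * N / (t * y)) : ℝ) : ℂ)‖ ≤
      b₀ * ((N : ℝ) ^ (1 - 50 * δ) / T) * (N : ℝ) ^ (-30 * δ)

/-- the error of the major arc approximation in the shifted sum -/
noncomputable def dv (z : ℝ) (Φ : ℕ → ℝ) (k : ℝ → ℝ) (N m : ℕ) : ℝ :=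
  ∑' h : ℤ, tau h.natAbs * (tau (m + h * N : ℤ).natAbs - ts z Φ (m + h * N)) * k (h * N / m)

def DsS : Prop :=
  ∀ δ : ℝ, 0 < δ → δ ≤ 1 / 10 ^ 10 → ∃ N₀ : ℕ, ∀ (N Y : ℕ) (T : ℝ) (P : Finset ℕ)
    (a β : ℕ → ℂ) (Φ : ℕ → ℝ) (k : ℝ → ℝ), N₀ ≤ N → N.Prime → TOK N T P →
    (Y : ℝ) ≤ (N : ℝ) ^ (1 + 2 * δ) / T → (∀ t, ‖a t‖ ≤ 1 / T) →
    (∀ y ∈ Icc 1 Y, ‖β y‖ ≤ (N : ℝ) ^ (2 * δ) / y) → PhOK ((N : ℝ) ^ (1000 * δ)) Φ → KsOK δ N k →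
    ‖∑ t ∈ P, ∑ y ∈ Icc 1 Y, a t * β y * (dv ((N : ℝ) ^ (1000 * δ)) Φ k N (t * y) : ℝ)‖ ≤
      (N : ℝ) ^ (-2 * δ)

/-! ### rows -/

def DkOf : Prop := IkS → BbS → DgS → DkS
def DwOf : Prop := DgS → DwS
def DmOf : Prop := DrS → DmS
def DtOf : Prop := DrS → DtS
def DpOf : Prop := DgS → DkS → DwS → DmS → DtS → DpS
def DcOf : Prop := DpS → DcS
def Ds1Of : Prop := DtS → DcS → Ds1S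
def DsOf : Prop := Ds1S → DsS

end Pool.Agent.MP_20b2fd_nt.H38
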