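import Pool.Agent.MP_20b2fd_nt.H38.SpecD

/-! The mollifier, the moments, and the passage to natural weights.
Paper proof: /team-store/MP_20b2fd_H38_N.md -/

set_option autoImplicit false

namespace Pool.Agent.MP_20b2fd_nt.H38

open Finset Filter Topology ArithmeticFunction
open DirichletCharacter (LFunction)
open scoped Real

/-! ### exponent vectors -/

def pp {S : Finset ℕ} (c : S → ℕ) : ℕ := ∏ p : S, (p : ℕ) ^ c p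

def E1S : Prop :=
  ∀ S : Finset ℕ, (∀ p ∈ S, p.Prime) →
    (∀ (M : Type) [AddCommMonoid M] (e : S → ℕ) (F : ℕ → M),
      ∑ d ∈ (pp e).divisors, F d = ∑ c ∈ Fintype.piFinset (fun p => range (e p + 1)), F (pp c)) ∧
    (∀ c : S → ℕ, 1 ≤ pp c ∧ (∀ p : S, (pp c).factorization p = c p) ∧
      (∀ q : ℕ, q.Prime → q ∣ pp c → q ∈ S) ∧ (∀ p : S, (p : ℕ) ∣ pp c ↔ c p ≠ 0) ∧
      tau (pp c) = ∏ p : S, ((c p : ℝ) + 1) ∧ sig (pp c) = ∏ p : S, sig ((p : ℕ) ^ c p) ∧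
      ∀ F : ℕ → ℂ, ∏ q ∈ (pp c).primeFactors, F q = ∏ p : S, if c p = 0 then 1 else F p) ∧
    (∀ c e : S → ℕ, pp c * pp e = pp (fun p => c p + e p) ∧
      (pp c).gcd (pp e) = pp (fun p => min (c p) (e p)) ∧ (pp c ∣ pp e ↔ ∀ p, c p ≤ e p) ∧
      ((∀ p, c p ≤ e p) → pp e / pp c = pp fun p => e p - c p) ∧ (pp c = pp e → c = e)) ∧
    ∀ n : ℕ, 1 ≤ n → (∀ q : ℕ, q.Prime → q ∣ n → q ∈ S) →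
      n = pp fun p : S => n.factorization p

/-! ### the mollifier -/

noncomputable def dl (p α v : ℕ) : ℝ :=
  if v = α then 1 + 1 / p else if v = α + 1 then -1 / p else if v + 1 = α then -1 else 0

def Sr (a : ℕ) : Finset ℕ := (30 * a).primeFactors

noncomputable def Dj (a j : ℕ) : ℝ := ∏ p ∈ Sr a, dl p (a.factorization p) (j.factorization p)

def J0 (a : ℕ) : Finset ℕ := (a * ∏ p ∈ Sr a, p).divisors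

noncomputable def Vr (a : ℕ) : ℝ := ((30 * a).totient : ℝ) / (30 * a : ℕ)

def DlS : Prop :=
  (∀ p α : ℕ, p.Prime → ∑ v ∈ range (α + 2), dl p α v * sig (p ^ v) = 0) ∧
  ∀ a : ℕ, 1 ≤ a → ∑ j ∈ J0 a, Dj a j * sig j = 0 ∧ Bl (J0 a) id (Dj a) tau = a * Vr a ∧
    ∑ j ∈ J0 a, Dj a j * sig (a.gcd j) = a ∧ 1 / (30 * a) ≤ Vr a ∧ Vr a ≤ 1 ∧
    ∀ j ∈ J0 a, 1 ≤ j ∧ j ≤ 30 * a ^ 2 ∧ ∀ m : ℕ, m.Coprime (30 * a) → j.Coprime m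

noncomputable def zz (δ : ℝ) (N : ℕ) : ℝ := (N : ℝ) ^ (1000 * δ)

noncomputable def KK (δ : ℝ) (N : ℕ) : ℕ := ⌊(N : ℝ) ^ (1 / 2 + δ / 2)⌋₊

/-- the primes that carry the bilinear structure -/
noncomputable def PP (N : ℕ) : Finset ℕ :=
  prs ((N : ℝ) ^ (1 / 10000 : ℝ)) (((N : ℝ) ^ (1 / 10000 : ℝ)) ^ 21)

noncomputable def lam (N : ℕ) : ℝ := ∑ t ∈ PP N, (1 : ℝ) / t

noncomputable def lam' (N : ℕ) : ℝ := ∑ t ∈ PP N, 1 / ((t : ℝ) - 1)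

noncomputable def om (N k : ℕ) : ℝ := ((PP N).filter (· ∣ k)).card

noncomputable def kz (z : ℝ) (k : ℕ) : ℝ := ∏ p ∈ (pz z).filter (· ∣ k), (p : ℝ) / (p - 1)

noncomputable def ps0 : ContDiffBump (-1 / 4 : ℝ) := ⟨31 / 25, 5 / 4, by norm_num, by norm_num⟩

noncomputable def psi (δ : ℝ) (N : ℕ) (x : ℝ) : ℝ :=
  ps0 ((x - Real.log N / 2) / (δ * Real.log N / 2))

open Classical in
noncomputable def wt (δ : ℝ) (N k : ℕ) : ℝ :=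
  (if (k : ℝ) ≤ (N : ℝ) ^ (1 / 2 - 3 * δ / 4) then 1 else 0) +
    3 / (4 * lam N) * psi δ N (Real.log k) * om N k

open Classical in
noncomputable def ww (δ : ℝ) (a N k : ℕ) : ℝ :=
  if Squarefree k ∧ k.Coprime (30 * a) then kz (zz δ N) k * wt δ N k else 0

noncomputable def xw (K : ℕ) (w : ℕ → ℝ) (m : ℕ) : ℝ :=
  ∑ j ∈ Icc 1 K, (moebius m : ℝ) * tau j * w (m * j) / (m * j)

noncomputable def JJ (δ : ℝ) (a N : ℕ) : Finset (ℕ × ℕ) := J0 a ×ˢ Icc 1 (KK δ N)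

def nn (i : ℕ × ℕ) : ℕ := i.1 * i.2

noncomputable def xx (δ : ℝ) (a N : ℕ) (i : ℕ × ℕ) : ℝ :=
  Dj a i.1 * xw (KK δ N) (ww δ a N) i.2

/-- basic facts on the weights -/
def WbS : Prop :=
  (∀ ε : ℝ, 0 < ε → ∃ N₀ : ℕ, ∀ N : ℕ, N₀ ≤ N →
    3 ≤ lam N ∧ lam N ≤ 4 ∧ lam N ≤ lam' N ∧ lam' N ≤ (1 + ε) * lam N) ∧
  ∀ (δ : ℝ) (N : ℕ), 0 < δ → 2 ≤ N →
    (∀ x : ℝ, 0 ≤ psi δ N x ∧ psi δ N x ≤ 1 ∧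
      (psi δ N x ≠ 0 → (1 / 2 - 3 * δ / 4) * Real.log N < x ∧ x < (1 / 2 + δ / 2) * Real.log N) ∧
      ((1 / 2 - 149 * δ / 200) * Real.log N ≤ x → x ≤ (1 / 2 + 99 * δ / 200) * Real.log N →
        psi δ N x = 1)) ∧
    ∀ a k : ℕ, 0 ≤ wt δ N k ∧ 0 ≤ ww δ a N k ∧
      (ww δ a N k ≠ 0 → Squarefree k ∧ k.Coprime (30 * a) ∧ 1 ≤ k ∧ k ≤ KK δ N) ∧
      (3 ≤ lam N → ww δ a N k ≤ tau k ^ 2) ∧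
      (Squarefree k → 1 ≤ kz (zz δ N) k ∧ kz (zz δ N) k * k.totient ≤ k) ∧
      (xw (KK δ N) (ww δ a N) k ≠ 0 → k.Coprime (30 * a))

/-- diagonalisation -/
def M1S : Prop :=
  ∀ (K : ℕ) (w : ℕ → ℝ), (∀ k, w k ≠ 0 → Squarefree k ∧ k ≤ K) →
    ∑ m ∈ Icc 1 K, xw K w m = ∑ k ∈ Icc 1 K, w k / k ∧
    Bl (Icc 1 K) id (xw K w) tau = ∑ k ∈ Icc 1 K, k.totient * w k ^ 2 / (k : ℝ) ^ 2 ∧
    Bl (Icc 1 K) id (xw K w) (fun m => tau m * Real.log m) =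
      -2 * ∑ k ∈ Icc 1 K, k.totient * w k ^ 2 / (k : ℝ) ^ 2 *
          ∑ p ∈ k.primeFactors, Real.log p / ((p : ℝ) - 1) -
        4 * ∑ k ∈ Icc 1 K, k.totient * w k / (k : ℝ) ^ 2 *
          ∑ p ∈ pz K, Real.log p / p * w (k * p)

/-- factorisation over coprime supports -/
def CfS : Prop :=
  ∀ (A B : Finset ℕ) (x y : ℕ → ℝ), (∀ i ∈ A, 1 ≤ i) → (∀ j ∈ B, 1 ≤ j) →
    (∀ i ∈ A, ∀ j ∈ B, y j ≠ 0 → i.Coprime j) →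
    ∑ i ∈ A ×ˢ B, x i.1 * y i.2 * sig (nn i) = (∑ i ∈ A, x i * sig i) * ∑ j ∈ B, y j * sig j ∧
    Bl (A ×ˢ B) nn (fun i => x i.1 * y i.2) tau = Bl A id x tau * Bl B id y tau ∧
    Bl (A ×ˢ B) nn (fun i => x i.1 * y i.2) (fun m => tau m * Real.log m) =
      Bl A id x (fun m => tau m * Real.log m) * Bl B id y tau +
        Bl A id x tau * Bl B id y (fun m => tau m * Real.log m) ∧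
    ∀ a : ℕ, (∀ j ∈ B, y j ≠ 0 → a.Coprime j) →
      ∑ i ∈ A ×ˢ B, x i.1 * y i.2 * sig (a.gcd (nn i)) =
        (∑ i ∈ A, x i * sig (a.gcd i)) * ∑ j ∈ B, y j

open Classical in
/-- squarefree numbers up to `y` prime to `r` -/
noncomputable def Gq (r : ℕ) (y : ℝ) : Finset ℕ :=
  (Icc 1 ⌊y⌋₊).filter fun k => Squarefree k ∧ k.Coprime r

def M2S : Prop :=
  ∀ r : ℕ, 1 ≤ r → ∃ C : ℝ, 1 ≤ C ∧ ∀ y : ℝ, 1 ≤ y →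
    |∑ k ∈ Gq r y, (1 : ℝ) / k.totient - r.totient / r * Real.log y| ≤ C ∧
    ∑ k ∈ Gq r y, Real.log (y / k) / k.totient ≤
      r.totient / r * Real.log y ^ 2 / 2 + C * Real.log y

open Classical in
def OmS : Prop :=
  ∀ a : ℕ, 1 ≤ a → ∃ C : ℝ, 1 ≤ C ∧ ∀ (N : ℕ) (x y : ℝ), 1 ≤ N → 1 ≤ y →
    ∑ k ∈ Gq (30 * a) y, om N k / k.totient ≤ lam' N * (Vr a * Real.log y + C) ∧
    ((N : ℝ) ^ (42 / 10000 : ℝ) ≤ x → x ≤ y →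
      ∑ k ∈ (Gq (30 * a) y).filter (fun k : ℕ => x < k), om N k ^ 2 / k.totient ≤
        (lam' N + lam' N ^ 2) * (Vr a * Real.log (y / x) + C))

def MfS : Prop :=
  ∀ (δ : ℝ) (a : ℕ), 0 < δ → δ ≤ 1 / 10 ^ 10 → 1 ≤ a → ∃ N₀ : ℕ, ∀ N : ℕ, N₀ ≤ N →
    Vr a * (Real.log N / 2) * (1 + 355 / 1000 * δ) ≤ ∑ k ∈ Icc 1 (KK δ N), ww δ a N k / k

def Mq0S : Prop :=
  ∀ (δ : ℝ) (a : ℕ), 0 < δ → δ ≤ 1 / 10 ^ 10 → 1 ≤ a → ∃ N₀ : ℕ, ∀ N : ℕ, N₀ ≤ N →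
    ∑ k ∈ Icc 1 (KK δ N), k.totient * ww δ a N k ^ 2 / (k : ℝ) ^ 2 ≤
      Vr a * (Real.log N / 2) * (1 + 38 / 100 * δ) ∧
    ∑ k ∈ Icc 1 (KK δ N), k.totient * ww δ a N k ^ 2 / (k : ℝ) ^ 2 *
      ∑ p ∈ k.primeFactors, Real.log p / ((p : ℝ) - 1) ≤
      Vr a * (Real.log N / 2) ^ 2 * (δ / 1000)

def Mq1S : Prop :=
  ∀ (δ : ℝ) (a : ℕ), 0 < δ → δ ≤ 1 / 10 ^ 10 → 1 ≤ a → ∃ N₀ : ℕ, ∀ N : ℕ, N₀ ≤ N →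
    ∑ k ∈ Icc 1 (KK δ N), k.totient * ww δ a N k / (k : ℝ) ^ 2 *
      ∑ p ∈ pz (KK δ N), Real.log p / p * ww δ a N (k * p) ≤
      Vr a * (Real.log N / 2) ^ 2 * (1 / 2 + 38 / 100 * δ)

def XnS : Prop :=
  ∀ (δ : ℝ) (a : ℕ), 0 < δ → δ ≤ 1 / 10 ^ 10 → 1 ≤ a → ∃ N₀ : ℕ, ∀ N : ℕ, N₀ ≤ N →
    (∀ i ∈ JJ δ a N, 1 ≤ nn i ∧ a * nn i < N) ∧
    ∑ i ∈ JJ δ a N, |xx δ a N i| * nn i ≤ (N : ℝ) ^ (1 / 2 + δ)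

/-! ### moments -/

def FmS : Prop :=
  ∀ C : ℝ, 1 ≤ C → ∃ C' : ℝ, 1 ≤ C' ∧ ∀ (N : ℕ) (S : Sp), N.Prime → S.Ok N C →
    (∀ f, S.ε f = -1 → S.L f = 0) ∧ ∀ n : ℕ, 1 ≤ n → n < N →
      |∑ f, S.ω f * (S.L f * S.a f n) - 1| ≤ C' * n * (1 + Real.log n) * (N : ℝ) ^ (-5 / 8 : ℝ)

def Mo1S : Prop :=
  ∀ (C δ : ℝ) (a : ℕ), 1 ≤ C → 0 < δ → δ ≤ 1 / 10 ^ 10 → 1 ≤ a → ∃ N₀ : ℕ, ∀ (N : ℕ) (S : Sp),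
    N₀ ≤ N → N.Prime → S.Ok N C →
    a * Vr a * (Real.log N / 2) * (1 + 35 / 100 * δ) ≤
      ∑ f, S.ω f * (S.L f * (∑ i ∈ JJ δ a N, xx δ a N i * S.a f (nn i)) * S.a f a)

def Mo2S : Prop :=
  ∀ (δ U c₀ : ℝ) (a : ℕ), 0 < δ → δ ≤ 1 / 10 ^ 10 → 1 ≤ U → 1 ≤ a → ∃ N₀ : ℕ, ∀ N : ℕ, N₀ ≤ N →
    (∀ i ∈ JJ δ a N, 1 ≤ nn i ∧ nn i < N) ∧ ∑ i ∈ JJ δ a N, xx δ a N i * sig (nn i) = 0 ∧
    Bl (JJ δ a N) nn (xx δ a N) (fun m =>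
        a1 U * tau m * Real.log (N / m) + c₀ * tau m + 2 * Od (Kf U) N m) ≤
      c1 U * (a * Vr a ^ 2 * (Real.log N / 2) ^ 2 * (4 + 23 / 10 * δ)) +
        2 * |Bl (JJ δ a N) nn (xx δ a N) (Od (Kf U) N)|

/-- the terms off the diagonal -/
def OdsS : Prop :=
  ∀ c : ℝ, 0 < c → c ≤ 1 / 10 → ∃ (C : ℝ) (A : ℕ), 1 ≤ C ∧ ∀ (δ B : ℝ) (a : ℕ) (K : ℝ → ℝ),
    0 < δ → δ ≤ c / 10 ^ 10 → 1 ≤ B → 1 ≤ a → KerOK B K → ∃ N₀ : ℕ, ∀ N : ℕ, N₀ ≤ N → N.Prime →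
    ZFree c (zz δ N) → |Bl (JJ δ a N) nn (xx δ a N) (Od K N)| ≤
      C * (B * a) ^ A * Real.exp (-c / (4000 * δ)) * Real.log N ^ 2

open Classical in
/-- the weighted proportion -/
def HmS : Prop :=
  ∀ (c C b : ℝ) (c₀ : ℝ → ℝ), 0 < c → c ≤ 1 / 10 → 1 ≤ C → 0 < b → ∃ δ₀ : ℝ, 0 < δ₀ ∧
    ∀ (δ : ℝ) (a : ℕ), 0 < δ → δ ≤ δ₀ → 1 ≤ a → (a : ℝ) ≤ Real.exp ((b * δ) ^ (-1 / 2 : ℝ)) →
    ∃ N₀ : ℕ, ∀ (N : ℕ) (S : Sp), N₀ ≤ N → N.Prime → ZFree c (zz δ N) → S.Ok N C →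
      (∀ U : ℝ, 1 ≤ U → S.Bs N U (c₀ U)) →
      (1 + δ / 20) / 4 * a ≤
        ∑ f ∈ univ.filter (fun f => S.ε f = 1 ∧ S.L f ≠ 0), S.ω f * S.a f a ^ 2

/-! ### natural weights -/

noncomputable def KN (N : ℕ) : ℝ := ∑' n : ℕ, kap (n / N)

open Classical in
def NuS : Prop :=
  (∃ c C : ℝ, 0 < c ∧ ∀ N : ℕ, 1 ≤ N →
    (Summable fun n : ℕ => kap (n / N)) ∧ c * N ≤ KN N ∧ KN N ≤ C * N) ∧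
  ∀ C ε : ℝ, 1 ≤ C → 0 < ε → ∃ N₀ : ℕ, ∀ (N : ℕ) (S : Sp), N₀ ≤ N → N.Prime → S.Ok N C →
    ((univ.filter fun f => S.ε f = 1).card : ℝ) ≤ KN N / 2 + ε * N

/-- smooth part, next prime, and the rest -/
def gd (η Q : ℝ) (x : ℕ × ℕ × ℕ) : Prop :=
  1 ≤ x.1 ∧ (x.1 : ℝ) ≤ Real.exp (η ^ (-1 / 2 : ℝ)) ∧
    (∀ q : ℕ, q.Prime → q ∣ x.1 → (q : ℝ) ≤ 1 / η ^ 6) ∧ x.2.1.Prime ∧ 1 / η ^ 6 < x.2.1 ∧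
    (x.2.1 : ℝ) ≤ Q ∧ 1 ≤ x.2.2 ∧ ∀ q : ℕ, q.Prime → q ∣ x.2.2 → x.2.1 < q

open Classical in
def Nl1S : Prop :=
  (∀ (η Q : ℝ) (x y : ℕ × ℕ × ℕ), gd η Q x → gd η Q y →
    x.1 * x.2.1 * x.2.2 = y.1 * y.2.1 * y.2.2 → x = y) ∧
  ∃ C : ℝ, 1 ≤ C ∧ ∀ η : ℝ, 0 < η → η ≤ 1 → ∃ Q X₀ : ℕ, ∀ X : ℕ, X₀ ≤ X →
    (((Icc 1 X).filter fun n => ¬ ∃ x, gd η Q x ∧ n = x.1 * x.2.1 * x.2.2).card : ℝ) ≤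
      C * η ^ 2 * X

def Nl2S : Prop :=
  ∀ C : ℝ, 1 ≤ C →
    (∃ C' : ℝ, 1 ≤ C' ∧ ∀ (N M : ℕ) (S : Sp) (P H : ℝ) (c : ℕ → ℝ), S.Ok N C → 1 ≤ P →
      4 * M < N → (∀ d ∈ Icc 1 M, c d ≠ 0 → P < d ∧ |c d| ≤ H / d) →
      ∑ f, S.ω f * (∑ d ∈ Icc 1 M, c d * S.a f (d ^ 2) / d) ^ 2 ≤ C' * H ^ 2 * (1 / P + M / N)) ∧
    ∀ n : ℕ, 1 ≤ n → ∃ N₀ : ℕ, ∀ (N : ℕ) (S : Sp), N₀ ≤ N → N.Prime → S.Ok N C →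
      ∑ f, S.ω f * (S.a f n ^ 2 / n) ^ 2 ≤ 2 * tau n

def NlS : Prop :=
  ∀ C : ℝ, 1 ≤ C → ∃ C' : ℝ, 1 ≤ C' ∧ ∀ η : ℝ, 0 < η → η ≤ 1 → ∃ N₀ : ℕ, ∀ (N : ℕ) (S : Sp)
    (W : Finset (Fin S.g)) (μ : ℝ), N₀ ≤ N → N.Prime → S.Ok N C → 0 ≤ μ → μ ≤ 1 →
    (∀ a : ℕ, 1 ≤ a → (a : ℝ) ≤ Real.exp (η ^ (-1 / 2 : ℝ)) →
      μ * a ≤ ∑ f ∈ W, S.ω f * S.a f a ^ 2) →
    μ * KN N - C' * η * N ≤ W.card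

def FinS : Prop :=
  ∀ c : ℝ, 0 < c → c ≤ 1 / 10 → ∃ δ δ' : ℝ, 0 < δ ∧ 0 < δ' ∧ ∃ N₀ : ℕ, ∀ N : ℕ, N₀ ≤ N →
    N.Prime → ZFree c (zz δ N) → 1 / 2 + δ' ≤ ((Hn N).ncard : ℝ) / (Hp N).ncard

/-- more than one half, or an exceptional zero -/
def BeyS : Prop :=
  ∀ c : ℝ, 0 < c → ∃ δ κ : ℝ, 0 < δ ∧ 0 < κ ∧ ∃ N₀ : ℕ, ∀ N : ℕ, N₀ ≤ N → N.Prime →
    1 / 2 + δ ≤ ((Hn N).ncard : ℝ) / (Hp N).ncard ∨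
    ∃ (q : ℕ) (_ : NeZero q) (χ : DirichletCharacter ℂ q) (β : ℝ), χ.IsPrimitive ∧ χ ≠ 1 ∧
      χ ^ 2 = 1 ∧ (q : ℝ) ≤ (N : ℝ) ^ κ ∧ 1 - c / Real.log ((N : ℝ) ^ κ) ≤ β ∧ β < 1 ∧
      LFunction χ β = 0

def WinS : Prop :=
  ∀ K : ℝ, 1 ≤ K → ∃ δ : ℝ, 0 < δ ∧ ∀ Y₀ : ℝ, ∃ Y : ℝ, Y₀ ≤ Y ∧ ∀ N : ℕ, N.Prime → Y ≤ N →
    (N : ℝ) ≤ Y ^ K → 1 / 2 + δ ≤ ((Hn N).ncard : ℝ) / (Hp N).ncard

/-! ### rows -/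

def DlOf : Prop := E1S → DlS
def WbOf : Prop := MerS → WbS
def OmOf : Prop := M2S → OmS
def MfOf : Prop := WbS → M2S → MfS
def Mq0Of : Prop := MerS → WbS → M2S → OmS → Mq0S
def Mq1Of : Prop := MerS → WbS → M2S → OmS → Mq1S
def XnOf : Prop := DlS → WbS → XnS
def Mo1Of : Prop := DlS → WbS → M1S → CfS → MfS → XnS → FmS → Mo1S
def Mo2Of : Prop := PhS → DlS → WbS → M1S → CfS → Mq0S → Mq1S → XnS → Mo2S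
def HmOf : Prop := PhS → KerS → DlS → FmS → Mo1S → Mo2S → OdsS → HmS
def NuOf : Prop := KapS → NuS
def Nl1Of : Prop := MerS → Nl1S
def NlOf : Prop := KapS → NuS → Nl1S → Nl2S → NlS
def FinOf : Prop := AutS → HmS → NuS → NlS → FinS
def BeyOf : Prop := PhZ → ZfS → FinS → BeyS
def WinOf : Prop := PageS → BeyS → WinS

end Pool.Agent.MP_20b2fd_nt.H38
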