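import Pool.Agent.MP_20b2fd_nt.H38.All
import Pool.Agent.MP_20b2fd_nt.H38.AllX
import Pool.Agent.MP_20b2fd_nt.H96.AllB
import Pool.Agent.MP_20b2fd_nt.H39.All
import Pool.Agent.MP_20b2fd_nt.H75.Ap
import Pool.Agent.MP_20b2fd_nt.H75.G
import Pool.Agent.MP_20b2fd_nt.H75.Jm
import Pool.Agent.MP_20b2fd_nt.H75.Lo
import Pool.Agent.MP_20b2fd_nt.H75.M
import Pool.Agent.MP_20b2fd_nt.H75.Pr
import Pool.Agent.MP_20b2fd_nt.H75.Y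
import Pool.Agent.MP_20b2fd_nt.H80.L
import Pool.Agent.MP_c5bf7b_nt.H38.Sieg
import Pool.Agent.MP_20b2fd_nt.F5.AL
import Pool.Agent.MP_20b2fd_nt.F5.AR0
import Pool.Agent.MP_20b2fd_nt.F5.AR1
import Pool.Agent.MP_20b2fd_nt.F5.AR2
import Pool.Agent.MP_20b2fd_nt.F5.AR3
import Pool.Agent.MP_20b2fd_nt.F5.BL
import Pool.Agent.MP_20b2fd_nt.F5.BX
import Pool.Agent.MP_20b2fd_nt.F5.CA
import Pool.Agent.MP_20b2fd_nt.F5.CB
import Pool.Agent.MP_20b2fd_nt.F5.CO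
import Pool.Agent.MP_20b2fd_nt.F5.CU
import Pool.Agent.MP_20b2fd_nt.F5.DG
import Pool.Agent.MP_20b2fd_nt.F5.EY
import Pool.Agent.MP_20b2fd_nt.F5.FE
import Pool.Agent.MP_20b2fd_nt.F5.FF
import Pool.Agent.MP_20b2fd_nt.F5.FX
import Pool.Agent.MP_20b2fd_nt.F5.FY
import Pool.Agent.MP_20b2fd_nt.F5.FY1
import Pool.Agent.MP_20b2fd_nt.F5.FY2
import Pool.Agent.MP_20b2fd_nt.F5.GK
import Pool.Agent.MP_20b2fd_nt.F5.HS
import Pool.Agent.MP_20b2fd_nt.F5.KC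
import Pool.Agent.MP_20b2fd_nt.F5.KV
import Pool.Agent.MP_20b2fd_nt.F5.LB
import Pool.Agent.MP_20b2fd_nt.F5.ME
import Pool.Agent.MP_20b2fd_nt.F5.MK
import Pool.Agent.MP_20b2fd_nt.F5.OZ
import Pool.Agent.MP_20b2fd_nt.F5.PB
import Pool.Agent.MP_20b2fd_nt.F5.RH
import Pool.Agent.MP_20b2fd_nt.F5.SH
import Pool.Agent.MP_20b2fd_nt.F5.SI
import Pool.Agent.MP_20b2fd_nt.F5.TW
import Pool.Agent.MP_20b2fd_nt.F5.V
import Pool.Agent.MP_20b2fd_nt.F5.VA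
import Pool.Agent.MP_20b2fd_nt.F5.ZA
import Pool.Agent.MP_20b2fd_nt.F5.ZB
import Pool.Agent.MP_20b2fd_nt.F5.ZC
import Pool.Agent.MP_20b2fd_nt.F5.ZD

/-! All blocks put together. -/

set_option autoImplicit false

namespace Pool.Agent.MP_20b2fd_nt.H38.Top

open Pool.Agent.MP_20b2fd_nt
open H39.All

theorem me : F5.MES := F5.meOf F5.v
theorem lb : F5.LBS := F5.lbOf phZ
theorem pb : F5.PBS := F5.pbOf F5.v
theorem dg : F5.DGS := F5.dgOf F5.v F5.sh me lb F5.ar0 (F5.ar1Of F5.ar3)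

theorem oz : F5.OZS :=
  F5.ozOf (F5.coOf (F5.caOf bbS (F5.bxOf (F5.kcOf kl)) F5.va F5.gk F5.hs)
    (F5.cbOf F5.gk (F5.alOf F5.rh F5.hs) F5.si))

theorem fy : F5.FYS :=
  F5.fyOf
    (F5.fy1Of F5.v All.ker mel1 H96.All.kmS oz
      (F5.zbOf F5.v F5.ar3 F5.zcS F5.feS F5.mk (F5.zaOf F5.v))
      (F5.zdOf F5.v lb F5.ar0 F5.feS H96.All.kmS H96.All.kbS F5.mk) dg pb (F5.cuOf mel1))
    (F5.fy2Of F5.v lb F5.ar0 (F5.kvOf F5.v F5.sh me lb F5.ar0 F5.blS (F5.ar2Of F5.blS)))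

theorem ff : F5.FFS :=
  F5.ffOf All.xg H96.All.kmS (F5.eyOf F5.v F5.sh me lb) (F5.fxOf All.xg H96.All.kmS dg pb) fy
    (F5.twOf F5.v)

theorem full : H20.FullS :=
  All.full_of (H75.gOf fmk H20.xwS ff
    (H75.mOf F5.v F5.ar0 f1S eyS xyS H75.apS (H75.jmOf avS jiS f1S)) (H75.yOf F5.blS f1S yyS)
    (H75.prOf MP_c5bf7b_nt.H38.sieg f1S fnS (H75.loOf mer H80.loc)))

end Pool.Agent.MP_20b2fd_nt.H38.Top
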