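import Pool.Agent.MP_20b2fd_nt.H38.SpecA

/-! Grouping a sum over integer matrices of determinant `m` and level `N`. -/

set_option autoImplicit false

namespace Pool.Agent.MP_20b2fd_nt.H38

open Finset Filter Topology

namespace XeA

lemma sum_anti (z : ℤ) (φ : ℕ → ℕ → ℝ) :
    ∑ p ∈ z.divisorsAntidiag, φ p.1.natAbs p.2.natAbs =
      2 * ∑ x ∈ z.natAbs.divisorsAntidiagonal, φ x.1 x.2 := by
  cases z with
  | ofNat n =>
    rw [Int.divisorsAntidiag, sum_disjUnion, sum_map, sum_map, two_mul]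
    congr 1 <;> exact sum_congr rfl fun x _ => by simp
  | negSucc n =>
    rw [Int.divisorsAntidiag, sum_disjUnion, sum_map, sum_map, two_mul]
    congr 1 <;> exact sum_congr rfl fun x _ => by simp

lemma sum_one (n : ℕ) (w : ℝ) : ∑ _x ∈ n.divisorsAntidiagonal, w = tau n * w := by
  rw [Nat.sum_divisorsAntidiagonal (fun _ _ => w), sum_const, nsmul_eq_mul, tau]

lemma sum_cst (z : ℤ) (w : ℝ) : ∑ _p ∈ z.divisorsAntidiag, w = 2 * (tau z.natAbs * w) := by
  rw [sum_anti z fun _ _ => w, sum_one]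

lemma comb {N m : ℕ} (hm : ¬ N ∣ m) (K : ℝ → ℝ) (f : (ℤ × ℤ) × ℤ × ℤ → ℝ) (T L : ℝ) (V : ℕ → ℝ)
    (hT : HasSum f T) (h0 : ∀ b c a d : ℤ, a * d ≠ m + b * c * N → f ((b, c), a, d) = 0)
    (h1 : ∀ a d : ℤ, a * d = m → HasSum (fun b => f ((b, 0), a, d)) (V a.natAbs))
    (h2 : ∀ a d : ℤ, a * d = m → HasSum (fun c => f ((0, c), a, d)) (V d.natAbs))
    (h3 : ∀ a d : ℤ, a * d = m → f ((0, 0), a, d) = L)
    (h4 : ∀ b c a d : ℤ, b ≠ 0 → c ≠ 0 → a * d = m + b * c * N →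
      f ((b, c), a, d) = K ((b * c : ℤ) * N / m)) :
    T = 2 * (∑ x ∈ m.divisorsAntidiagonal, (V x.1 + V x.2 - L)) + 4 * Od K N m := by
  classical
  have n0 : ∀ h : ℤ, (m : ℤ) + h * N ≠ 0 := fun h e =>
    hm (Int.natCast_dvd_natCast.1 ⟨-h, by linear_combination e⟩)
  have m0 : (m : ℤ) ≠ 0 := by simpa using n0 0
  set G : ℤ × ℤ → ℝ := fun q => ∑ p ∈ ((m : ℤ) + q.1 * q.2 * N).divisorsAntidiag, f (q, p) with hG
  have s0 : HasSum G T := hT.prod_fiberwise fun q => hasSum_sum_of_ne_finset_zero fun p hp =>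
    h0 q.1 q.2 p.1 p.2 fun e => hp (Int.mem_divisorsAntidiag.2 ⟨e, n0 _⟩)
  set P := (m : ℤ).divisorsAntidiag with hP
  have mP : ∀ p ∈ P, p.1 * p.2 = m := fun p hp => (Int.mem_divisorsAntidiag.1 hp).1
  have s1 : HasSum (fun q : ℤ × ℤ => if q.2 = 0 then G q else 0) (∑ p ∈ P, V p.1.natAbs) := by
    refine ((Prod.mk_left_injective (0 : ℤ)).hasSum_iff fun q hq => if_neg fun e =>
      hq ⟨q.1, Prod.ext rfl e.symm⟩).1 ?_
    convert hasSum_sum fun p hp => h1 p.1 p.2 (mP p hp) using 2 with b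
    simp [hG, hP]
  have s2 : HasSum (fun q : ℤ × ℤ => if q.1 = 0 then G q else 0) (∑ p ∈ P, V p.2.natAbs) := by
    refine ((Prod.mk_right_injective (0 : ℤ)).hasSum_iff fun q hq => if_neg fun e =>
      hq ⟨q.2, Prod.ext e.symm rfl⟩).1 ?_
    convert hasSum_sum fun p hp => h2 p.1 p.2 (mP p hp) using 2 with b
    simp [hG, hP]
  have s3 : HasSum (fun q : ℤ × ℤ => if q = (0, 0) then G q else 0) (∑ _p ∈ P, L) := by
    convert hasSum_single (f := fun q : ℤ × ℤ => if q = (0, 0) then G q else 0) (0, 0)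
      fun q hq => if_neg hq using 1
    rw [if_pos rfl, hG]
    simp only [mul_zero, zero_mul, add_zero]
    exact sum_congr rfl fun p hp => (h3 p.1 p.2 (mP p hp)).symm
  set W : ℤ → ℝ := fun h => 2 * (tau ((m : ℤ) + h * N).natAbs * K (h * N / m)) with hW
  have s4 : HasSum (fun q : ℤ × ℤ => if q.1 * q.2 = 0 then 0 else W (q.1 * q.2))
      (T - ∑ p ∈ P, V p.1.natAbs - ∑ p ∈ P, V p.2.natAbs + ∑ _p ∈ P, L) := by
    refine (congrArg (HasSum · _) (funext fun ⟨b, c⟩ => ?_)).mp (((s0.sub s1).sub s2).add s3)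
    symm
    by_cases hb : b = 0 <;> by_cases hc : c = 0 <;> simp only [hb, hc, Prod.mk.injEq, mul_eq_zero,
      if_true, if_false, and_self, and_true, and_false, or_self, or_true, true_or,
      sub_self, sub_zero, add_zero, zero_sub, neg_add_cancel]
    rw [hW, hG]
    simp only
    rw [← sum_cst]
    exact sum_congr rfl fun p hp =>
      (h4 b c p.1 p.2 hb hc (Int.mem_divisorsAntidiag.1 hp).1).symm
  have s5 := s4.tsum_fiberwise fun q => q.1 * q.2
  have e5 : ∀ h : ℤ, ∑' q : (fun q : ℤ × ℤ => q.1 * q.2) ⁻¹' {h},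
      (if q.1.1 * q.1.2 = 0 then 0 else W (q.1.1 * q.1.2)) =
      4 * (tau h.natAbs * tau (m + h * N : ℤ).natAbs * K (h * N / m)) := fun h => by
    by_cases hh : h = 0
    · subst hh
      rw [tsum_congr fun q => if_pos q.2]
      simp [tau]
    · have e : (fun q : ℤ × ℤ => q.1 * q.2) ⁻¹' {h} = ↑h.divisorsAntidiag := by
        ext q; simp [Int.mem_divisorsAntidiag, hh]
      rw [tsum_congr_set_coe (fun q : ℤ × ℤ => if q.1 * q.2 = 0 then 0 else W (q.1 * q.2)) e,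
        Finset.tsum_subtype' h.divisorsAntidiag
          (fun q : ℤ × ℤ => if q.1 * q.2 = 0 then 0 else W (q.1 * q.2)),
        sum_congr rfl (g := fun _ => W h) fun q hq => by
          rw [(Int.mem_divisorsAntidiag.1 hq).1, if_neg hh], sum_cst, hW]
      ring
  simp only [e5] at s5
  have e6 := s5.tsum_eq
  rw [tsum_mul_left] at e6
  have e7 := sum_anti m fun a d => V a + V d - L
  rw [Int.natAbs_natCast, sum_sub_distrib, sum_add_distrib] at e7
  rw [Od, ← e7, e6]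
  ring

end XeA

end Pool.Agent.MP_20b2fd_nt.H38
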