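import Pool.Agent.MP_20b2fd_nt.H38.SpecA

/-! The pairing of an eigenform with a Hecke translate of the tube. -/

set_option autoImplicit false

namespace Pool.Agent.MP_20b2fd_nt.H38

open UpperHalfPlane hiding I
open MeasureTheory Complex Finset
open scoped Real

namespace XiA

variable {N : ℕ}

theorem ip_bdd (hK : KitS) (hE : EtaS) (hD : DecS) (hN : N.Prime) {F G : ℍ → ℂ}
    (mF : Measurable F) (mG : Measurable G) (dF : Dec F) (gG : Gro G) : IP N F G := by
  obtain ⟨C, hC⟩ := hD.bd F G dF gG 1 le_rfl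
  have h := hC (1, 0, 0, 1) (by simp [det])
  rw [(hK.one F).1] at h
  exact (hE.2 N hN).2.2.1.ofReal.mul_bdd (hK.mpe F G mF mG).aestronglyMeasurable
    (Filter.Eventually.of_forall h)

theorem ip_add {F G G' : ℍ → ℂ} (c : ℝ) (h : IP N F G) (h' : IP N F G') :
    ip N F (fun z => G z + c * G' z) = ip N F G + c * ip N F G' := by
  unfold ip
  rw [← integral_const_mul, ← integral_add h (h'.const_mul _)]
  refine integral_congr_ae (Filter.Eventually.of_forall fun z => ?_)
  simp only [pe, map_add, map_mul, conj_ofReal]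
  ring

theorem ip_mul (c : ℂ) (F G : ℍ → ℂ) : ip N (fun z => c * F z) G = c * ip N F G := by
  unfold ip
  rw [← integral_const_mul]
  refine integral_congr_ae (Filter.Eventually.of_forall fun z => ?_)
  simp only [pe]
  ring

end XiA

open XiA in
theorem xiOf : XiOf := by
  intro hK hE hUn hD hAd hQ hC hH hP hA hT hX N U f hN hU h1 hf n
  haveI : NeZero N := ⟨hN.ne_zero⟩
  obtain ⟨iF, -, mF, dF, -⟩ := (hC N hN).1 f
  have IPn : ∀ j, 1 ≤ j → IP N f (AA N U j) := fun j hj =>
    ip_bdd hK hE hD hN mF (hA N j U hN hj hU).2.2.2.1 dF (hA N j U hN hj hU).2.2.1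
  suffices h : 1 ≤ n → ¬ N ∣ n → ip N f (AA N U n) = co f n * (c1 U * I * Lc f / π) from
    fun hn hc => ⟨IPn n hn, h hn ((Nat.Prime.coprime_iff_not_dvd hN).1 hc.symm)⟩
  induction n using Nat.strong_induction_on with
  | _ n ih =>
  intro hn hnN
  rcases hn.eq_or_lt with rfl | hn1
  · have e := (hUn N f (ph U) hN mF (hP U hU).1 iF ((hP U hU).2.2.2.2.2.2.2.2.2.1 _ mF dF)
      fun z => by
        refine summable_of_hasFiniteSupport ?_
        refine ((hA N 1 U hN le_rfl hU).1 z).preimage Subtype.val_injective.injOn |>.subset ?_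
        intro g hg
        exact ⟨g.2, fun h0 => hg (by simp [h0])⟩).2
    rw [hX N U f hN hU] at e
    rw [h1]
    refine e.trans ?_
    ring
  obtain ⟨p, hp, k, rfl⟩ := Nat.exists_prime_and_dvd hn1.ne'
  have hk : 1 ≤ k := Nat.pos_of_mul_pos_left hn
  have hkN : ¬ N ∣ k := fun h1 => hnN (h1.mul_left _)
  have hpN : p ≠ N := fun h1 => hnN (h1 ▸ Dvd.intro _ rfl)
  have hlt : k < p * k := lt_mul_of_one_lt_left hk hp.one_lt
  obtain ⟨C, hC⟩ := hD.bd _ _ dF (hA N k U hN hk hU).2.2.1 p hp.pos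
  have adj := (hAd N _ _ C hN mF (hA N k U hN hk hU).2.2.2.1 iF
    (hA N k U hN hk hU).2.2.2.2.1).1 p hp hpN hC
  obtain ⟨g, hg, hco⟩ := (hH N f hN).1 p hp hpN
  have e0 : co f p * co f k = co f (p * k) + if p ∣ k then p * co f (k / p) else 0 := by
    rw [← hco k, hg, hf p hp hpN, ← ((hQ N f).2.2.2.2.2.2 f (co f p) k).2]
    rfl
  rw [hf p hp hpN, ip_mul, ih k hlt hk hkN, hT N k p U hN hp hpN hk hU, ← mul_assoc, e0] at adj
  by_cases hpk : p ∣ k
  · have h1 : 1 ≤ k / p := Nat.div_pos (Nat.le_of_dvd hk hpk) hp.pos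
    have h2 : ¬ N ∣ k / p := fun h3 => hkN (h3.trans (Nat.div_dvd_of_dvd hpk))
    simp only [if_pos hpk] at adj
    have e1 := ip_add (p : ℝ) (IPn _ hn) (IPn _ h1)
    rw [ofReal_natCast] at e1
    rw [e1, ih (k / p) ((Nat.div_le_self _ _).trans_lt hlt) h1 h2] at adj
    linear_combination -adj
  · simp only [if_neg hpk, add_zero] at adj
    exact adj.symm

end Pool.Agent.MP_20b2fd_nt.H38
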